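import Pool.Agent.Malc.Words2

/-! # Evaluation of multilinear elements is multilinear -/

set_option autoImplicit false

namespace Pool.Agent.Malc

universe u v

variable {F : Type u} [Field F] {B : Type v} [NonUnitalNonAssocRing B] [Module F B]
  [IsScalarTower F B B] [SMulCommClass F B B]

namespace Words3Aux

omit [IsScalarTower F B B] [SMulCommClass F B B] [Module F B] [Field F] in
theorem evw_not_mem {w : FreeMagma ℕ} {i : ℕ} (h : i ∉ content w) (x : ℕ → B) (a : B) :
    evw (Function.update x i a) w = evw x w := by
  induction w using FreeMagma.rec with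
  | of j =>
    have hij : j ≠ i := by
      rintro rfl
      exact h (Multiset.mem_singleton_self j)
    show Function.update x i a j = x j
    exact Function.update_of_ne hij a x
  | mul p q ihp ihq =>
    have h1 : i ∉ content p := fun h' => h (Multiset.mem_add.2 (Or.inl h'))
    have h2 : i ∉ content q := fun h' => h (Multiset.mem_add.2 (Or.inr h'))
    show evw _ p * evw _ q = evw x p * evw x q
    rw [ihp h1, ihq h2]

theorem count_cases {p q : FreeMagma ℕ} {i : ℕ}
    (h : (content (FreeMagma.mul p q)).count i = 1) :
    ((content p).count i = 1 ∧ i ∉ content q) ∨ (i ∉ content p ∧ (content q).count i = 1) := by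
  have h1 : (content p + content q).count i = 1 := h
  rw [Multiset.count_add] at h1
  rcases Nat.eq_zero_or_pos ((content p).count i) with h2 | h2
  · exact Or.inr ⟨Multiset.count_eq_zero.1 h2, by omega⟩
  · exact Or.inl ⟨by omega, Multiset.count_eq_zero.1 (by omega)⟩

theorem eq_of_count {i j : ℕ} (h : (content (FreeMagma.of j)).count i = 1) : j = i := by
  by_contra hne
  have h1 : i ∉ content (FreeMagma.of j) := by
    intro h2
    exact hne (Multiset.mem_singleton.1 h2).symm
  rw [Multiset.count_eq_zero.2 h1] at h
  exact absurd h (by norm_num)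

omit [IsScalarTower F B B] [SMulCommClass F B B] [Module F B] [Field F] in
theorem evw_add (w : FreeMagma ℕ) {i : ℕ} (h : (content w).count i = 1) (x : ℕ → B) (a b : B) :
    evw (Function.update x i (a + b)) w =
      evw (Function.update x i a) w + evw (Function.update x i b) w := by
  induction w using FreeMagma.rec with
  | of j =>
    obtain rfl := eq_of_count h
    show Function.update x j (a + b) j = Function.update x j a j + Function.update x j b j
    rw [Function.update_self, Function.update_self, Function.update_self]
  | mul p q ihp ihq =>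
    show evw _ p * evw _ q = evw _ p * evw _ q + evw _ p * evw _ q
    rcases count_cases h with ⟨h1, h2⟩ | ⟨h1, h2⟩
    · rw [ihp h1, evw_not_mem h2, evw_not_mem h2, evw_not_mem h2, add_mul]
    · rw [ihq h2, evw_not_mem h1, evw_not_mem h1, evw_not_mem h1, mul_add]

omit [IsScalarTower F B B] [SMulCommClass F B B] in
theorem evw_map (w : FreeMagma ℕ) {i : ℕ} (h : (content w).count i = 1) (x : ℕ → B)
    (T : B →ₗ[F] B) (hT : ∀ a b, T (a * b) = T a * b) (hT' : ∀ a b, T (a * b) = a * T b) (a : B) :
    evw (Function.update x i (T a)) w = T (evw (Function.update x i a) w) := by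
  induction w using FreeMagma.rec with
  | of j =>
    obtain rfl := eq_of_count h
    show Function.update x j (T a) j = T (Function.update x j a j)
    rw [Function.update_self, Function.update_self]
  | mul p q ihp ihq =>
    show evw _ p * evw _ q = T (evw _ p * evw _ q)
    rcases count_cases h with ⟨h1, h2⟩ | ⟨h1, h2⟩
    · rw [ihp h1, evw_not_mem h2, evw_not_mem h2, hT]
    · rw [ihq h2, evw_not_mem h1, evw_not_mem h1, hT']

theorem count_of_mem {L : Finset ℕ} {i : ℕ} (hi : i ∈ L) : L.val.count i = 1 :=
  Multiset.count_eq_one_of_mem L.nodup hi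

end Words3Aux

theorem ev_update_add {L : Finset ℕ} {p : FA F} (hp : p ∈ Hg F L.val) {i : ℕ} (hi : i ∈ L)
    (x : ℕ → B) (a b : B) : ev (Function.update x i (a + b)) p =
      ev (Function.update x i a) p + ev (Function.update x i b) p := by
  unfold Hg at hp
  induction hp using Submodule.span_induction with
  | mem p hp =>
    obtain ⟨w, hw, rfl⟩ := hp
    rw [ev_wd, ev_wd, ev_wd]
    exact Words3Aux.evw_add w (by rw [hw]; exact Words3Aux.count_of_mem hi) x a b
  | zero => simp only [map_zero, add_zero]
  | add p q _ _ h1 h2 =>
    rw [map_add, map_add, map_add, h1, h2]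
    abel
  | smul r p _ h1 => rw [map_smul, map_smul, map_smul, h1, smul_add]

/-- homogeneity with respect to any operators which commute with the multiplications -/
theorem ev_update_map {L : Finset ℕ} {p : FA F} (hp : p ∈ Hg F L.val) {i : ℕ} (hi : i ∈ L)
    (x : ℕ → B) (T : B →ₗ[F] B) (hT : ∀ a b, T (a * b) = T a * b) (hT' : ∀ a b, T (a * b) = a * T b)
    (a : B) : ev (Function.update x i (T a)) p = T (ev (Function.update x i a) p) := by
  unfold Hg at hp
  induction hp using Submodule.span_induction with
  | mem p hp =>
    obtain ⟨w, hw, rfl⟩ := hp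
    rw [ev_wd, ev_wd]
    exact Words3Aux.evw_map w (by rw [hw]; exact Words3Aux.count_of_mem hi) x T hT hT' a
  | zero => simp only [map_zero]
  | add p q _ _ h1 h2 => rw [map_add, map_add, map_add, h1, h2]
  | smul r p _ h1 => rw [map_smul, map_smul, map_smul, h1]

theorem ev_update_smul {L : Finset ℕ} {p : FA F} (hp : p ∈ Hg F L.val) {i : ℕ} (hi : i ∈ L)
    (x : ℕ → B) (r : F) (a : B) : ev (Function.update x i (r • a)) p =
      r • ev (Function.update x i a) p := by
  obtain ⟨T, hT⟩ : ∃ T : B →ₗ[F] B, ∀ b, T b = r • b :=
    ⟨{ toFun := fun b => r • b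
       map_add' := smul_add r
       map_smul' := fun s b => smul_comm r s b }, fun b => rfl⟩
  have h1 : ∀ a b, T (a * b) = T a * b := fun a b => by rw [hT, hT, smul_mul_assoc]
  have h2 : ∀ a b, T (a * b) = a * T b := fun a b => by rw [hT, hT, mul_smul_comm]
  have h := ev_update_map hp hi x T h1 h2 a
  rw [hT, hT] at h
  exact h

end Pool.Agent.Malc
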