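import Pool.Agent.Malc.TSV
import Pool.Agent.Malc.Words3

/-! # The adjoint of a word with respect to a letter -/

set_option autoImplicit false

namespace Pool.Agent.Malc

universe u v

section

variable {B : Type v} [NonUnitalNonAssocRing B]

/-- the adjoint of the word `a` with respect to the letter `l` -/
def adj (x : ℕ → B) (l : ℕ) : FreeMagma ℕ → B → B
  | .of _, v => v
  | .mul a b, v => if l ∈ content a then - adj x l a (v * evw x b) else adj x l b (v * evw x a)

end

variable {F : Type u} [Field F] [CharZero F] {B : Type u} [NonUnitalNonAssocRing B] [Module F B]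
  [IsScalarTower F B B] [SMulCommClass F B B]

namespace AdjAux

theorem cases_count {l : ℕ} {a b : FreeMagma ℕ}
    (h : (content (FreeMagma.mul a b)).count l = 1) :
    (l ∈ content a ∧ (content a).count l = 1 ∧ l ∉ content b) ∨
      (l ∉ content a ∧ (content b).count l = 1) := by
  have h1 : (content a).count l + (content b).count l = 1 := by
    rw [← Multiset.count_add]
    exact h
  by_cases ha : l ∈ content a
  · have h2 : 0 < (content a).count l := Multiset.count_pos.2 ha
    left
    refine ⟨ha, by omega, ?_⟩
    rw [← Multiset.count_eq_zero]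
    omega
  · right
    have h2 : (content a).count l = 0 := Multiset.count_eq_zero.2 ha
    exact ⟨ha, by omega⟩

theorem evw_update {B : Type v} [NonUnitalNonAssocRing B] (x : ℕ → B) (l : ℕ) (y : B)
    (a : FreeMagma ℕ) (ha : l ∉ content a) : evw (Function.update x l y) a = evw x a := by
  refine evw_congr _ _ _ fun i hi => ?_
  rw [Function.update_of_ne]
  rintro rfl
  exact ha hi

theorem evw_inb0 (x : ℕ → B) (a : FreeMagma ℕ) :
    evw (fun i => TS.inb F (x i)) a = TS.inb F (evw x a) := by
  induction a using FreeMagma.rec with
  | of i => rfl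
  | mul a b iha ihb =>
    show evw (fun i => TS.inb F (x i)) a * evw (fun i => TS.inb F (x i)) b
      = TS.inb F (evw x a * evw x b)
    rw [iha, ihb, TS.inb_mul]

end AdjAux

theorem evw_inb (x : ℕ → B) (l : ℕ) (m : B →ₗ[F] F) (a : FreeMagma ℕ) (ha : l ∉ content a) :
    evw (Function.update (fun i => TS.inb F (x i)) l (TS.inl m)) a = TS.inb F (evw x a) := by
  rw [AdjAux.evw_update _ _ _ _ ha, AdjAux.evw_inb0]

/-- the value of a word in `B ⊕ B*` if the letter `l` has a value in `B*` -/
theorem evw_inl (h : IsMalcev B) (x : ℕ → B) (l : ℕ) (m : B →ₗ[F] F) (a : FreeMagma ℕ)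
    (ha : (content a).count l = 1) (v : B) :
    (evw (Function.update (fun i => TS.inb F (x i)) l (TS.inl m)) a).b = 0 ∧
    (evw (Function.update (fun i => TS.inb F (x i)) l (TS.inl m)) a).l v = m (adj x l a v) := by
  induction a using FreeMagma.rec generalizing v with
  | of i =>
    have hi : l = i := by
      have h1 : ({i} : Multiset ℕ).count l = 1 := ha
      by_contra hcon
      rw [Multiset.count_singleton, if_neg hcon] at h1
      omega
    subst hi
    have h2 : evw (Function.update (fun i => TS.inb F (x i)) l (TS.inl m)) (FreeMagma.of l)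
        = TS.inl m := by
      show Function.update (fun i => TS.inb F (x i)) l (TS.inl m) l = _
      rw [Function.update_self]
    rw [h2]
    exact ⟨rfl, rfl⟩
  | mul a b iha ihb =>
    have hm : evw (Function.update (fun i => TS.inb F (x i)) l (TS.inl m)) (FreeMagma.mul a b)
        = evw (Function.update (fun i => TS.inb F (x i)) l (TS.inl m)) a
          * evw (Function.update (fun i => TS.inb F (x i)) l (TS.inl m)) b := rfl
    rcases AdjAux.cases_count ha with ⟨h1, h2, h3⟩ | ⟨h1, h2⟩
    · have hadj : adj x l (FreeMagma.mul a b) v = - adj x l a (v * evw x b) := if_pos h1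
      have h4 := evw_inb (F := F) x l m b h3
      constructor
      · rw [hm, TS.mul_b, (iha h2 v).1, zero_mul]
      · rw [hm, TS.mul_l_apply, hadj, h4, (iha h2 v).1]
        have h5 : (TS.inb F (evw x b)).b = evw x b := rfl
        have h6 : (TS.inb F (evw x b)).l = 0 := rfl
        rw [h5, h6, (iha h2 (v * evw x b)).2, map_neg]
        simp
    · have hadj : adj x l (FreeMagma.mul a b) v = adj x l b (v * evw x a) := if_neg h1
      have h4 := evw_inb (F := F) x l m a h1
      constructor
      · rw [hm, TS.mul_b, (ihb h2 v).1, mul_zero]
      · rw [hm, TS.mul_l_apply, hadj, h4]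
        have h5 : (TS.inb F (evw x a)).b = evw x a := rfl
        have h6 : (TS.inb F (evw x a)).l = 0 := rfl
        rw [h5, h6, (ihb h2 (v * evw x a)).2]
        simp

/-- the adjoint acts on the graph -/
theorem Gr_adj (h : IsV B) {g : B × (B → B → B)} (hg : g ∈ Gr F B) (x : ℕ → B) (l : ℕ)
    (a : FreeMagma ℕ) (ha : (content a).count l = 1) :
    ((adj x l a g.1, fun y z => g.2 (evw (Function.update x l y) a) z) : B × (B → B → B)) ∈
      Gr F B := by
  induction a using FreeMagma.rec generalizing g with
  | of i =>
    have hi : l = i := by
      have h1 : ({i} : Multiset ℕ).count l = 1 := ha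
      by_contra hcon
      rw [Multiset.count_singleton, if_neg hcon] at h1
      omega
    subst hi
    have h2 : ((adj x l (FreeMagma.of l) g.1,
        fun y z => g.2 (evw (Function.update x l y) (FreeMagma.of l)) z) : B × (B → B → B)) = g := by
      refine Prod.ext rfl ?_
      funext y z
      show g.2 (Function.update x l y l) z = g.2 y z
      rw [Function.update_self]
    rw [h2]
    exact hg
  | mul a b iha ihb =>
    rcases AdjAux.cases_count ha with ⟨h1, h2, h3⟩ | ⟨h1, h2⟩
    · have hadj : adj x l (FreeMagma.mul a b) g.1 = - adj x l a (g.1 * evw x b) := if_pos h1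
      have h4 := iha (Gr_m h hg (evw x b)) h2
      have h5 := (Gr F B).neg_mem h4
      have h6 : ((adj x l (FreeMagma.mul a b) g.1,
          fun y z => g.2 (evw (Function.update x l y) (FreeMagma.mul a b)) z) : B × (B → B → B))
          = -(adj x l a (g.1 * evw x b),
            fun y z => g.2 (evw x b * evw (Function.update x l y) a) z) := by
        refine Prod.ext hadj ?_
        funext y z
        obtain ⟨f, hf⟩ := Gr_lin_y hg z
        show g.2 (evw (Function.update x l y) a * evw (Function.update x l y) b) z
          = -(g.2 (evw x b * evw (Function.update x l y) a) z)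
        rw [AdjAux.evw_update x l y b h3, ← hf, ← hf, h.anti, map_neg]
      rw [h6]
      exact h5
    · have hadj : adj x l (FreeMagma.mul a b) g.1 = adj x l b (g.1 * evw x a) := if_neg h1
      have h4 := ihb (Gr_m h hg (evw x a)) h2
      have h6 : ((adj x l (FreeMagma.mul a b) g.1,
          fun y z => g.2 (evw (Function.update x l y) (FreeMagma.mul a b)) z) : B × (B → B → B))
          = (adj x l b (g.1 * evw x a),
            fun y z => g.2 (evw x a * evw (Function.update x l y) b) z) := by
        refine Prod.ext hadj ?_
        funext y z
        show g.2 (evw (Function.update x l y) a * evw (Function.update x l y) b) z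
          = g.2 (evw x a * evw (Function.update x l y) b) z
        rw [AdjAux.evw_update x l y a h1]
      rw [h6]
      exact h4

end Pool.Agent.Malc
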