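import Pool.Agent.Malc.EDefs

/-! # Definitions for the finite identities used in part C -/

set_option autoImplicit false

open scoped BigOperators

namespace Pool.Agent.Malc

universe u v

section

variable {A : Type v} [NonUnitalNonAssocRing A]

/-- `zt q b c = q (b c) - (q b) c - (q c) b` -/
def zt (q b c : A) : A := q * (b * c) - (q * b) * c - (q * c) * b

end

variable (F : Type u) [Field F] {A : Type v} [NonUnitalNonAssocRing A] [Module F A]
  [IsScalarTower F A A] [SMulCommClass F A A]

/-- the span of the `e'(y0,..,y4;y5) y6` for all orders of the seven elements -/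
noncomputable def Fsp (y : Fin 7 → A) : Submodule F A :=
  Submodule.span F (Set.range fun s : Equiv.Perm (Fin 7) =>
    ee F (y (s 0)) (y (s 1)) (y (s 2)) (y (s 3)) (y (s 4)) (y (s 5)) * y (s 6))

end Pool.Agent.Malc
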