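import Pool.Agent.Malc.Check4
import Pool.Agent.Malc.AlBeEx
import Pool.Agent.Malc.CertPar

/-! # Certificate of AlEx -/

set_option autoImplicit false
set_option maxRecDepth 100000

namespace Pool.Agent.Malc

universe u

namespace Chk

noncomputable def dAl_c289 : Cm := .mk (nat_lit 14) (nat_lit 289) (nat_lit 17) (nat_lit 4) (.c (nat_lit 5) (nat_lit 1) (nat_lit 3) (nat_lit 1) (nat_lit 4) (.c (nat_lit 7) (nat_lit 1) (nat_lit 2) (nat_lit 1) (nat_lit 5) (.c (nat_lit 8) (nat_lit 3) (nat_lit 1) (nat_lit 1) (nat_lit 6) (.c (nat_lit 11) (nat_lit 1) (nat_lit 0) (nat_lit 1) (nat_lit 9) (.c (nat_lit 2032) (nat_lit 0) (nat_lit 4) (nat_lit 1) (nat_lit 10) .nil)))))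

noncomputable def dAl_c274 : Cm := .mk (nat_lit 20) (nat_lit 274) (nat_lit 21) (nat_lit 6) (.c (nat_lit 5) (nat_lit 1) (nat_lit 4) (nat_lit 1) (nat_lit 6) (.c (nat_lit 6) (nat_lit 1) (nat_lit 3) (nat_lit 1) (nat_lit 7) (.c (nat_lit 8) (nat_lit 3) (nat_lit 2) (nat_lit 1) (nat_lit 8) (.c (nat_lit 12) (nat_lit 2) (nat_lit 1) (nat_lit 1) (nat_lit 11) (.c (nat_lit 14) (nat_lit 2) (nat_lit 0) (nat_lit 1) (nat_lit 13) .nil)))))

noncomputable def dAl_c34 : Cm := .mk (nat_lit 29) (nat_lit 34) (nat_lit 27) (nat_lit 3) (.c (nat_lit 5) (nat_lit 1) (nat_lit 5) (nat_lit 1) (nat_lit 3) (.c (nat_lit 11) (nat_lit 1) (nat_lit 2) (nat_lit 1) (nat_lit 4) (.c (nat_lit 14) (nat_lit 2) (nat_lit 1) (nat_lit 1) (nat_lit 5) (.c (nat_lit 2032) (nat_lit 0) (nat_lit 6) (nat_lit 1) (nat_lit 7) .nil))))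

noncomputable def dAl_c259 : Cm := .mk (nat_lit 33) (nat_lit 259) (nat_lit 30) (nat_lit 3) (.c (nat_lit 6) (nat_lit 1) (nat_lit 4) (nat_lit 1) (nat_lit 3) (.c (nat_lit 12) (nat_lit 2) (nat_lit 2) (nat_lit 1) (nat_lit 4) (.c (nat_lit 16) (nat_lit 1) (nat_lit 0) (nat_lit 1) (nat_lit 6) .nil)))

noncomputable def dAl_c19 : Cm := .mk (nat_lit 37) (nat_lit 19) (nat_lit 33) (nat_lit 3) (.c (nat_lit 6) (nat_lit 1) (nat_lit 5) (nat_lit 1) (nat_lit 3) (.c (nat_lit 14) (nat_lit 2) (nat_lit 2) (nat_lit 1) (nat_lit 4) (.c (nat_lit 16) (nat_lit 1) (nat_lit 1) (nat_lit 1) (nat_lit 6) .nil)))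

noncomputable def dAl_c290 : Cm := .mk (nat_lit 42) (nat_lit 290) (nat_lit 37) (nat_lit 11) (.c (nat_lit 7) (nat_lit 1) (nat_lit 6) (nat_lit 1) (nat_lit 11) (.c (nat_lit 8) (nat_lit 3) (nat_lit 5) (nat_lit 1) (nat_lit 12) (.c (nat_lit 11) (nat_lit 1) (nat_lit 4) (nat_lit 1) (nat_lit 15) (.c (nat_lit 14) (nat_lit 2) (nat_lit 3) (nat_lit 1) (nat_lit 16) (.c (nat_lit 17) (nat_lit 4) (nat_lit 2) (nat_lit 1) (nat_lit 18) (.c (nat_lit 21) (nat_lit 6) (nat_lit 1) (nat_lit 1) (nat_lit 22) (.c (nat_lit 27) (nat_lit 3) (nat_lit 0) (nat_lit 1) (nat_lit 28) (.c (nat_lit 2032) (nat_lit 0) (nat_lit 12) (nat_lit 2) (nat_lit 31) .nil))))))))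

noncomputable def dAl_c275 : Cm := .mk (nat_lit 62) (nat_lit 275) (nat_lit 48) (nat_lit 11) (.c (nat_lit 8) (nat_lit 3) (nat_lit 6) (nat_lit 1) (nat_lit 11) (.c (nat_lit 12) (nat_lit 2) (nat_lit 5) (nat_lit 1) (nat_lit 14) (.c (nat_lit 14) (nat_lit 2) (nat_lit 4) (nat_lit 1) (nat_lit 16) (.c (nat_lit 16) (nat_lit 1) (nat_lit 3) (nat_lit 1) (nat_lit 18) (.c (nat_lit 21) (nat_lit 6) (nat_lit 2) (nat_lit 1) (nat_lit 19) (.c (nat_lit 30) (nat_lit 3) (nat_lit 1) (nat_lit 1) (nat_lit 25) (.c (nat_lit 33) (nat_lit 3) (nat_lit 0) (nat_lit 1) (nat_lit 28) .nil)))))))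

noncomputable def dAl_c35 : Cm := .mk (nat_lit 82) (nat_lit 35) (nat_lit 59) (nat_lit 5) (.c (nat_lit 11) (nat_lit 1) (nat_lit 6) (nat_lit 1) (nat_lit 5) (.c (nat_lit 14) (nat_lit 2) (nat_lit 5) (nat_lit 1) (nat_lit 6) (.c (nat_lit 27) (nat_lit 3) (nat_lit 2) (nat_lit 1) (nat_lit 8) (.c (nat_lit 33) (nat_lit 3) (nat_lit 1) (nat_lit 1) (nat_lit 11) (.c (nat_lit 2032) (nat_lit 0) (nat_lit 16) (nat_lit 1) (nat_lit 14) .nil)))))

noncomputable def dAl_c260 : Cm := .mk (nat_lit 91) (nat_lit 260) (nat_lit 64) (nat_lit 4) (.c (nat_lit 12) (nat_lit 2) (nat_lit 6) (nat_lit 1) (nat_lit 4) (.c (nat_lit 16) (nat_lit 1) (nat_lit 4) (nat_lit 1) (nat_lit 6) (.c (nat_lit 30) (nat_lit 3) (nat_lit 2) (nat_lit 1) (nat_lit 7) (.c (nat_lit 36) (nat_lit 1) (nat_lit 0) (nat_lit 1) (nat_lit 10) .nil))))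

noncomputable def dAl_c20 : Cm := .mk (nat_lit 98) (nat_lit 20) (nat_lit 68) (nat_lit 4) (.c (nat_lit 14) (nat_lit 2) (nat_lit 6) (nat_lit 1) (nat_lit 4) (.c (nat_lit 16) (nat_lit 1) (nat_lit 5) (nat_lit 1) (nat_lit 6) (.c (nat_lit 33) (nat_lit 3) (nat_lit 2) (nat_lit 1) (nat_lit 7) (.c (nat_lit 36) (nat_lit 1) (nat_lit 1) (nat_lit 1) (nat_lit 10) .nil))))

noncomputable def dAl_c291 : Cm := .mk (nat_lit 105) (nat_lit 291) (nat_lit 72) (nat_lit 21) (.c (nat_lit 12) (nat_lit 2) (nat_lit 11) (nat_lit 1) (nat_lit 21) (.c (nat_lit 14) (nat_lit 2) (nat_lit 8) (nat_lit 3) (nat_lit 23) (.c (nat_lit 16) (nat_lit 1) (nat_lit 7) (nat_lit 1) (nat_lit 29) (.c (nat_lit 17) (nat_lit 4) (nat_lit 6) (nat_lit 1) (nat_lit 30) (.c (nat_lit 21) (nat_lit 6) (nat_lit 5) (nat_lit 1) (nat_lit 34) (.c (nat_lit 27) (nat_lit 3) (nat_lit 4) (nat_lit 1) (nat_lit 40) (.c (nat_lit 33) (nat_lit 3) (nat_lit 3) (nat_lit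 1) (nat_lit 43) (.c (nat_lit 37) (nat_lit 11) (nat_lit 2) (nat_lit 1) (nat_lit 46) (.c (nat_lit 48) (nat_lit 11) (nat_lit 1) (nat_lit 1) (nat_lit 57) (.c (nat_lit 59) (nat_lit 5) (nat_lit 0) (nat_lit 1) (nat_lit 68) (.c (nat_lit 2032) (nat_lit 0) (nat_lit 30) (nat_lit 3) (nat_lit 73) .nil)))))))))))

noncomputable def dAl_c276 : Cm := .mk (nat_lit 155) (nat_lit 276) (nat_lit 93) (nat_lit 16) (.c (nat_lit 14) (nat_lit 2) (nat_lit 12) (nat_lit 2) (nat_lit 16) (.c (nat_lit 16) (nat_lit 1) (nat_lit 8) (nat_lit 3) (nat_lit 20) (.c (nat_lit 21) (nat_lit 6) (nat_lit 6) (nat_lit 1) (nat_lit 23) (.c (nat_lit 30) (nat_lit 3) (nat_lit 5) (nat_lit 1) (nat_lit 29) (.c (nat_lit 33) (nat_lit 3) (nat_lit 4) (nat_lit 1) (nat_lit 32) (.c (nat_lit 36) (nat_lit 1) (nat_lit 3) (nat_lit 1) (nat_lit 35) (.c (nat_lit 48) (nat_lit 11) (nat_lit 2) (nat_lit 1) (nat_lit 36) (.c (nat_lit 64) (nat_lit 4) (nat_lit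 1) (nat_lit 1) (nat_lit 47) (.c (nat_lit 68) (nat_lit 4) (nat_lit 0) (nat_lit 1) (nat_lit 51) .nil)))))))))

noncomputable def dAl_c36 : Cm := .mk (nat_lit 194) (nat_lit 36) (nat_lit 109) (nat_lit 6) (.c (nat_lit 14) (nat_lit 2) (nat_lit 14) (nat_lit 2) (nat_lit 6) (.c (nat_lit 16) (nat_lit 1) (nat_lit 11) (nat_lit 1) (nat_lit 10) (.c (nat_lit 27) (nat_lit 3) (nat_lit 6) (nat_lit 1) (nat_lit 11) (.c (nat_lit 33) (nat_lit 3) (nat_lit 5) (nat_lit 1) (nat_lit 14) (.c (nat_lit 59) (nat_lit 5) (nat_lit 2) (nat_lit 1) (nat_lit 17) (.c (nat_lit 68) (nat_lit 4) (nat_lit 1) (nat_lit 1) (nat_lit 22) (.c (nat_lit 2032) (nat_lit 0) (nat_lit 36) (nat_lit 1) (nat_lit 26) .nil)))))))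

noncomputable def dAl_i0 : IL := (.s true (nat_lit 4) (nat_lit 5) (nat_lit 1) (nat_lit 4) (nat_lit 2) true (nat_lit 4) true (nat_lit 7) true (nat_lit 4) true (nat_lit 8) true (nat_lit 5) (.s false (nat_lit 2) (nat_lit 5) (nat_lit 2) (nat_lit 1) (nat_lit 4) false (nat_lit 0) true (nat_lit 5) true (nat_lit 4) true (nat_lit 7) true (nat_lit 8) (.s true (nat_lit 2) (nat_lit 5) (nat_lit 3) (nat_lit 2) (nat_lit 2) true (nat_lit 1) true (nat_lit 7) true (nat_lit 4) true (nat_lit 6) true (nat_lit 7) (.s true (nat_lit 1) (nat_lit 6) (nat_lit 1) (nat_lit 2) (nat_lit 3) true (nat_lit 2) true (nat_lit 6) true (nat_lit 3) true (nat_lit 8) true (nat_lit 7) (.s true (nat_lit 2) (nat_lit 6) (nat_lit 3) (nat_lit 2) (nat_lit 1) true (nat_lit 2) true (nat_lit 8) true (nat_lit 3) true (nat_lit 6) true (nat_lit 7) (.s true (nat_lit 1) (nat_lit 7) (nat_lit 2) (nat_lit 2) (nat_lit 2) true (nat_lit 3) true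 (nat_lit 7) true (nat_lit 2) true (nat_lit 7) true (nat_lit 7) (.s false (nat_lit 2) (nat_lit 8) (nat_lit 1) (nat_lit 2) (nat_lit 2) true (nat_lit 4) true (nat_lit 7) true (nat_lit 1) true (nat_lit 8) true (nat_lit 7) (.s true (nat_lit 2) (nat_lit 10) (nat_lit 1) (nat_lit 2) (nat_lit 2) true (nat_lit 4) true (nat_lit 7) true (nat_lit 1) true (nat_lit 8) true (nat_lit 7) (.s true (nat_lit 2) (nat_lit 8) (nat_lit 2) (nat_lit 1) (nat_lit 2) true (nat_lit 3) true (nat_lit 7) true (nat_lit 1) true (nat_lit 7) true (nat_lit 8) (.s true (nat_lit 2) (nat_lit 12) (nat_lit 1) (nat_lit 2) (nat_lit 1) false (nat_lit 10) true (nat_lit 8) false (nat_lit 0) true (nat_lit 8) true (nat_lit 7) (.s false (nat_lit 2) (nat_lit 14) (nat_lit 0) (nat_lit 1) (nat_lit 2) true (nat_lit 5) true (nat_lit 7) false (nat_lit 1) true (nat_lit 9) true (nat_lit 8) (.e false (nat_lit 16) (nat_lit 22) (nat_lit 5) (nat_lit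 4) (.e false (nat_lit 20) (nat_lit 41) (nat_lit 2) (nat_lit 7) (.e true (nat_lit 20) (nat_lit 42) (nat_lit 2) (nat_lit 7) (.e false (nat_lit 4) (nat_lit 43) (nat_lit 2) (nat_lit 7) (.e true (nat_lit 4) (nat_lit 44) (nat_lit 2) (nat_lit 7) (.e true (nat_lit 4) (nat_lit 45) (nat_lit 2) (nat_lit 7) (.e false (nat_lit 4) (nat_lit 47) (nat_lit 2) (nat_lit 7) (.e true (nat_lit 8) (nat_lit 48) (nat_lit 1) (nat_lit 8) (.e false (nat_lit 8) (nat_lit 49) (nat_lit 1) (nat_lit 8) (.e true (nat_lit 4) (nat_lit 34) (nat_lit 3) (nat_lit 6) (.e true (nat_lit 4) (nat_lit 19) (nat_lit 6) (nat_lit 3) (.e false (nat_lit 4) (nat_lit 20) (nat_lit 6) (nat_lit 3) (.e true (nat_lit 4) (nat_lit 57) (nat_lit 1) (nat_lit 8) (.e true (nat_lit 8) (nat_lit 50) (nat_lit 1) (nat_lit 8) .nil)))))))))))))))))))))))))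

noncomputable def dAl_i1 : IL := (.s false (nat_lit 1) (nat_lit 5) (nat_lit 1) (nat_lit 4) (nat_lit 2) true (nat_lit 4) true (nat_lit 7) true (nat_lit 4) true (nat_lit 8) true (nat_lit 5) (.s true (nat_lit 1) (nat_lit 5) (nat_lit 2) (nat_lit 1) (nat_lit 4) false (nat_lit 0) true (nat_lit 5) true (nat_lit 4) true (nat_lit 7) true (nat_lit 8) (.s false (nat_lit 1) (nat_lit 5) (nat_lit 2) (nat_lit 4) (nat_lit 1) true (nat_lit 4) true (nat_lit 8) true (nat_lit 4) true (nat_lit 7) true (nat_lit 5) (.s true (nat_lit 1) (nat_lit 5) (nat_lit 3) (nat_lit 2) (nat_lit 2) true (nat_lit 1) true (nat_lit 7) true (nat_lit 4) true (nat_lit 6) true (nat_lit 7) (.s false (nat_lit 1) (nat_lit 5) (nat_lit 4) (nat_lit 1) (nat_lit 2) false (nat_lit 0) true (nat_lit 7) true (nat_lit 4) true (nat_lit 5) true (nat_lit 8) (.s false (nat_lit 1) (nat_lit 8) (nat_lit 1) (nat_lit 2) (nat_lit 2) true (nat_lit 4)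 true (nat_lit 7) true (nat_lit 1) true (nat_lit 8) true (nat_lit 7) (.s true (nat_lit 1) (nat_lit 9) (nat_lit 2) (nat_lit 1) (nat_lit 2) true (nat_lit 3) true (nat_lit 7) true (nat_lit 1) true (nat_lit 7) true (nat_lit 8) (.s false (nat_lit 1) (nat_lit 10) (nat_lit 2) (nat_lit 1) (nat_lit 2) true (nat_lit 3) true (nat_lit 7) true (nat_lit 1) true (nat_lit 7) true (nat_lit 8) (.s true (nat_lit 1) (nat_lit 12) (nat_lit 1) (nat_lit 1) (nat_lit 2) true (nat_lit 4) true (nat_lit 7) false (nat_lit 0) true (nat_lit 8) true (nat_lit 8) (.s true (nat_lit 1) (nat_lit 13) (nat_lit 1) (nat_lit 1) (nat_lit 2) true (nat_lit 4) true (nat_lit 7) false (nat_lit 0) true (nat_lit 8) true (nat_lit 8) (.s false (nat_lit 1) (nat_lit 16) (nat_lit 1) (nat_lit 1) (nat_lit 0) true (nat_lit 6) true (nat_lit 9) false (nat_lit 2) true (nat_lit 8) true (nat_lit 8) (.e true (nat_lit 8) (nat_lit 23) (nat_lit 5) (nat_lit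 4) (.e true (nat_lit 4) (nat_lit 21) (nat_lit 5) (nat_lit 4) (.e true (nat_lit 4) (nat_lit 22) (nat_lit 5) (nat_lit 4) (.e false (nat_lit 4) (nat_lit 63) (nat_lit 0) (nat_lit 9) (.e true (nat_lit 12) (nat_lit 41) (nat_lit 2) (nat_lit 7) (.e false (nat_lit 12) (nat_lit 43) (nat_lit 2) (nat_lit 7) (.e true (nat_lit 12) (nat_lit 45) (nat_lit 2) (nat_lit 7) (.e false (nat_lit 8) (nat_lit 58) (nat_lit 1) (nat_lit 8) (.e true (nat_lit 12) (nat_lit 55) (nat_lit 1) (nat_lit 8) (.e false (nat_lit 4) (nat_lit 34) (nat_lit 3) (nat_lit 6) (.e false (nat_lit 4) (nat_lit 19) (nat_lit 6) (nat_lit 3) (.e true (nat_lit 4) (nat_lit 20) (nat_lit 6) (nat_lit 3) (.e false (nat_lit 4) (nat_lit 50) (nat_lit 1) (nat_lit 8) (.e false (nat_lit 4) (nat_lit 56) (nat_lit 1) (nat_lit 8) .nil)))))))))))))))))))))))))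

noncomputable def dAl_t0 : Tr := (.nd (.nd (.nd (.nd (.nd (.nd (.nd .leaf (nat_lit 1024) (nat_lit 0) (.p (nat_lit 3) (nat_lit 4) .z) .df .leaf) (nat_lit 2048) (nat_lit 1) (.p (nat_lit 4) (nat_lit 4) .z) .df (.nd .leaf (nat_lit 2049) (nat_lit 2) (.p (nat_lit 5) (nat_lit 4) .z) .df .leaf)) (nat_lit 2050) (nat_lit 3) (.p (nat_lit 6) (nat_lit 4) .z) .df (.nd (.nd .leaf (nat_lit 3073) (nat_lit 4) (.p (nat_lit 7) (nat_lit 4) .z) .df .leaf) (nat_lit 3074) (nat_lit 5) (.p (nat_lit 8) (nat_lit 4) .z) .df .leaf)) (nat_lit 4097) (nat_lit 6) (.p (nat_lit 9) (nat_lit 4) .z) .df (.nd (.nd (.nd .leaf (nat_lit 4098) (nat_lit 9) (.p (nat_lit 12) (nat_lit 4) .z) .df .leaf) (nat_lit 5120) (nat_lit 7) (.p (nat_lit 10) (nat_lit 4) .z) .df (.nd .leaf (nat_lit 5121) (nat_lit 8) (.p (nat_lit 11) (nat_lit 4) .z) .df .leaf)) (nat_lit 5122) (nat_lit 11) (.p (nat_lit 14) (nat_lit 4) .z) .df (.nd (.nd .leaf (nat_lit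 5123) (nat_lit 19) (.p (nat_lit 17) (nat_lit 4) (.n (nat_lit 19) (nat_lit 4) (.p (nat_lit 20) (nat_lit 4) .z))) (.ct dAl_c289 (nat_lit 4) (nat_lit 0) (.s true (nat_lit 1) (nat_lit 2) (nat_lit 0) (nat_lit 1) (nat_lit 1) true (nat_lit 0) true (nat_lit 2) true (nat_lit 1) true (nat_lit 3) true (nat_lit 2) (.e true (nat_lit 4) (nat_lit 9) (nat_lit 1) (nat_lit 2) (.e false (nat_lit 4) (nat_lit 7) (nat_lit 2) (nat_lit 1) (.e false (nat_lit 4) (nat_lit 10) (nat_lit 1) (nat_lit 2) .nil))))) .leaf) (nat_lit 5124) (nat_lit 26) (.n (nat_lit 21) (nat_lit 4) (.n (nat_lit 22) (nat_lit 4) (.p (nat_lit 25) (nat_lit 4) (.n (nat_lit 26) (nat_lit 4) .z)))) (.ct dAl_c274 (nat_lit 4) (nat_lit 0) (.s true (nat_lit 1) (nat_lit 2) (nat_lit 0) (nat_lit 1) (nat_lit 2) true (nat_lit 0) true (nat_lit 2) true (nat_lit 2) true (nat_lit 4) true (nat_lit 3) (.e true (nat_lit 4) (nat_lit 9) (nat_lit 2) (nat_lit 2)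 (.e true (nat_lit 4) (nat_lit 8) (nat_lit 2) (nat_lit 2) (.e true (nat_lit 4) (nat_lit 14) (nat_lit 0) (nat_lit 4) (.e false (nat_lit 4) (nat_lit 13) (nat_lit 1) (nat_lit 3) .nil)))))) .leaf))) (nat_lit 5125) (nat_lit 32) (.n (nat_lit 27) (nat_lit 4) (.n (nat_lit 28) (nat_lit 4) (.p (nat_lit 29) (nat_lit 4) .z))) (.ct dAl_c34 (nat_lit 4) (nat_lit 0) (.s true (nat_lit 1) (nat_lit 2) (nat_lit 1) (nat_lit 1) (nat_lit 2) true (nat_lit 0) true (nat_lit 1) true (nat_lit 1) true (nat_lit 2) true (nat_lit 2) (.e true (nat_lit 4) (nat_lit 11) (nat_lit 2) (nat_lit 1) (.e true (nat_lit 4) (nat_lit 14) (nat_lit 1) (nat_lit 2) (.e false (nat_lit 4) (nat_lit 15) (nat_lit 1) (nat_lit 2) .nil))))) (.nd (.nd (.nd (.nd .leaf (nat_lit 6144) (nat_lit 10) (.p (nat_lit 13) (nat_lit 4) .z) .df .leaf) (nat_lit 6145) (nat_lit 12) (.p (nat_lit 15) (nat_lit 4) .z) .df (.nd .leaf (nat_lit 6146) (nat_lit 13) (.p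 (nat_lit 16) (nat_lit 4) .z) .df .leaf)) (nat_lit 6147) (nat_lit 28) (.n (nat_lit 22) (nat_lit 4) (.p (nat_lit 23) (nat_lit 4) (.n (nat_lit 24) (nat_lit 4) (.p (nat_lit 26) (nat_lit 4) .z)))) (.ct dAl_c274 (nat_lit 4) (nat_lit 1) (.s true (nat_lit 1) (nat_lit 2) (nat_lit 0) (nat_lit 2) (nat_lit 1) true (nat_lit 1) true (nat_lit 3) true (nat_lit 2) true (nat_lit 4) true (nat_lit 2) (.e true (nat_lit 4) (nat_lit 12) (nat_lit 1) (nat_lit 3) (.e true (nat_lit 4) (nat_lit 9) (nat_lit 2) (nat_lit 2) (.e false (nat_lit 4) (nat_lit 14) (nat_lit 0) (nat_lit 4) (.e false (nat_lit 4) (nat_lit 10) (nat_lit 2) (nat_lit 2) .nil)))))) (.nd (.nd .leaf (nat_lit 6148) (nat_lit 36) (.n (nat_lit 31) (nat_lit 4) (.n (nat_lit 32) (nat_lit 4) .z)) (.ct dAl_c259 (nat_lit 4) (nat_lit 0) (.s true (nat_lit 1) (nat_lit 2) (nat_lit 0) (nat_lit 2) (nat_lit 2) true (nat_lit 0) true (nat_lit 1) true (nat_lit 1) true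 (nat_lit 2) true (nat_lit 1) (.e true (nat_lit 4) (nat_lit 16) (nat_lit 0) (nat_lit 2) (.e true (nat_lit 4) (nat_lit 13) (nat_lit 2) (nat_lit 1) .nil)))) .leaf) (nat_lit 6149) (nat_lit 40) (.n (nat_lit 34) (nat_lit 4) (.n (nat_lit 35) (nat_lit 4) .z)) (.ct dAl_c19 (nat_lit 4) (nat_lit 0) (.s true (nat_lit 1) (nat_lit 2) (nat_lit 1) (nat_lit 2) (nat_lit 2) true (nat_lit 0) true (nat_lit 1) true (nat_lit 1) true (nat_lit 2) true (nat_lit 1) (.e true (nat_lit 4) (nat_lit 16) (nat_lit 1) (nat_lit 2) (.e true (nat_lit 4) (nat_lit 15) (nat_lit 2) (nat_lit 1) .nil)))) .leaf)) (nat_lit 7170) (nat_lit 14) (.p (nat_lit 17) (nat_lit 4) .z) .df (.nd (.nd (.nd .leaf (nat_lit 7174) (nat_lit 59) (.p (nat_lit 40) (nat_lit 8) (.p (nat_lit 41) (nat_lit 8) (.n (nat_lit 42) (nat_lit 8) (.n (nat_lit 44) (nat_lit 4) (.p (nat_lit 47) (nat_lit 4) .z))))) (.ct dAl_c290 (nat_lit 4) (nat_lit 0) (.s true (nat_lit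 1) (nat_lit 6) (nat_lit 1) (nat_lit 0) (nat_lit 1) false (nat_lit 7) true (nat_lit 5) true (nat_lit 0) true (nat_lit 5) true (nat_lit 6) (.e false (nat_lit 8) (nat_lit 21) (nat_lit 1) (nat_lit 5) (.e false (nat_lit 8) (nat_lit 22) (nat_lit 1) (nat_lit 5) (.e true (nat_lit 8) (nat_lit 23) (nat_lit 1) (nat_lit 5) (.e true (nat_lit 4) (nat_lit 25) (nat_lit 1) (nat_lit 5) (.e false (nat_lit 4) (nat_lit 29) (nat_lit 0) (nat_lit 6) .nil))))))) .leaf) (nat_lit 8193) (nat_lit 15) (.p (nat_lit 18) (nat_lit 4) .z) .df .leaf) (nat_lit 8194) (nat_lit 20) (.p (nat_lit 21) (nat_lit 4) .z) .df (.nd (.nd .leaf (nat_lit 8197) (nat_lit 53) (.p (nat_lit 37) (nat_lit 8) (.n (nat_lit 38) (nat_lit 4) (.p (nat_lit 39) (nat_lit 4) (.n (nat_lit 40) (nat_lit 4) (.n (nat_lit 41) (nat_lit 4) (.p (nat_lit 42) (nat_lit 4) (.n (nat_lit 43) (nat_lit 4) (.p (nat_lit 44) (nat_lit 4) (.p (nat_lit 45) (nat_lit 4) (.n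 (nat_lit 47) (nat_lit 4) .z)))))))))) (.ct dAl_c290 (nat_lit 4) (nat_lit 1) (.s true (nat_lit 1) (nat_lit 3) (nat_lit 2) (nat_lit 2) (nat_lit 1) true (nat_lit 1) true (nat_lit 5) true (nat_lit 3) true (nat_lit 4) true (nat_lit 4) (.s true (nat_lit 1) (nat_lit 6) (nat_lit 1) (nat_lit 1) (nat_lit 0) true (nat_lit 3) true (nat_lit 6) true (nat_lit 0) true (nat_lit 5) true (nat_lit 5) (.e true (nat_lit 4) (nat_lit 21) (nat_lit 1) (nat_lit 5) (.e false (nat_lit 8) (nat_lit 17) (nat_lit 2) (nat_lit 4) (.e true (nat_lit 4) (nat_lit 19) (nat_lit 2) (nat_lit 4) (.e false (nat_lit 4) (nat_lit 20) (nat_lit 2) (nat_lit 4) (.e true (nat_lit 4) (nat_lit 29) (nat_lit 0) (nat_lit 6) (.e true (nat_lit 4) (nat_lit 22) (nat_lit 1) (nat_lit 5) (.e false (nat_lit 4) (nat_lit 23) (nat_lit 1) (nat_lit 5) (.e true (nat_lit 4) (nat_lit 24) (nat_lit 1) (nat_lit 5) (.e false (nat_lit 4) (nat_lit 26) (nat_lit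 1) (nat_lit 5) (.e false (nat_lit 4) (nat_lit 25) (nat_lit 1) (nat_lit 5) .nil))))))))))))) .leaf) (nat_lit 8198) (nat_lit 71) (.p (nat_lit 57) (nat_lit 4) .z) .df .leaf)))) (nat_lit 9217) (nat_lit 16) (.p (nat_lit 19) (nat_lit 4) .z) .df (.nd (.nd (.nd (.nd (.nd .leaf (nat_lit 9218) (nat_lit 21) (.p (nat_lit 22) (nat_lit 4) .z) .df .leaf) (nat_lit 9221) (nat_lit 54) (.n (nat_lit 38) (nat_lit 4) (.p (nat_lit 40) (nat_lit 4) (.p (nat_lit 41) (nat_lit 4) (.p (nat_lit 43) (nat_lit 4) (.n (nat_lit 44) (nat_lit 4) (.p (nat_lit 45) (nat_lit 4) .z)))))) (.ct dAl_c290 (nat_lit 4) (nat_lit 1) (.s true (nat_lit 1) (nat_lit 4) (nat_lit 1) (nat_lit 1) (nat_lit 2) true (nat_lit 1) true (nat_lit 4) true (nat_lit 2) true (nat_lit 5) true (nat_lit 5) (.e true (nat_lit 4) (nat_lit 19) (nat_lit 2) (nat_lit 4) (.e false (nat_lit 4) (nat_lit 21) (nat_lit 1) (nat_lit 5) (.e false (nat_lit 4) (nat_lit 22)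 (nat_lit 1) (nat_lit 5) (.e true (nat_lit 4) (nat_lit 25) (nat_lit 1) (nat_lit 5) (.e false (nat_lit 4) (nat_lit 26) (nat_lit 1) (nat_lit 5) (.e false (nat_lit 4) (nat_lit 24) (nat_lit 1) (nat_lit 5) .nil)))))))) (.nd .leaf (nat_lit 9222) (nat_lit 73) (.p (nat_lit 48) (nat_lit 8) (.p (nat_lit 49) (nat_lit 12) (.n (nat_lit 50) (nat_lit 4) (.p (nat_lit 51) (nat_lit 4) (.n (nat_lit 52) (nat_lit 4) (.p (nat_lit 53) (nat_lit 4) (.n (nat_lit 55) (nat_lit 4) (.n (nat_lit 57) (nat_lit 4) .z)))))))) (.ct dAl_c275 (nat_lit 4) (nat_lit 0) (.s false (nat_lit 1) (nat_lit 4) (nat_lit 2) (nat_lit 1) (nat_lit 2) true (nat_lit 0) true (nat_lit 4) true (nat_lit 2) true (nat_lit 4) true (nat_lit 5) (.s true (nat_lit 1) (nat_lit 4) (nat_lit 2) (nat_lit 2) (nat_lit 1) true (nat_lit 1) true (nat_lit 5) true (nat_lit 2) true (nat_lit 4) true (nat_lit 4) (.s true (nat_lit 1) (nat_lit 5) (nat_lit 0) (nat_lit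 2) (nat_lit 2) true (nat_lit 2) true (nat_lit 4) true (nat_lit 1) true (nat_lit 6) true (nat_lit 4) (.s false (nat_lit 1) (nat_lit 6) (nat_lit 0) (nat_lit 1) (nat_lit 2) true (nat_lit 2) true (nat_lit 4) true (nat_lit 0) true (nat_lit 6) true (nat_lit 5) (.e false (nat_lit 4) (nat_lit 24) (nat_lit 2) (nat_lit 4) (.e false (nat_lit 8) (nat_lit 21) (nat_lit 2) (nat_lit 4) (.e false (nat_lit 12) (nat_lit 22) (nat_lit 2) (nat_lit 4) (.e true (nat_lit 4) (nat_lit 25) (nat_lit 2) (nat_lit 4) (.e false (nat_lit 4) (nat_lit 26) (nat_lit 2) (nat_lit 4) (.e true (nat_lit 4) (nat_lit 23) (nat_lit 2) (nat_lit 4) (.e true (nat_lit 4) (nat_lit 8) (nat_lit 6) (nat_lit 0) (.e true (nat_lit 4) (nat_lit 32) (nat_lit 1) (nat_lit 5) .nil))))))))))))) .leaf)) (nat_lit 10241) (nat_lit 17) (.p (nat_lit 20) (nat_lit 4) .z) .df (.nd (.nd .leaf (nat_lit 10242) (nat_lit 22) (.p (nat_lit 23) (nat_lit 4) .z) .df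 .leaf) (nat_lit 10245) (nat_lit 58) (.p (nat_lit 37) (nat_lit 4) (.p (nat_lit 39) (nat_lit 4) (.n (nat_lit 40) (nat_lit 4) (.n (nat_lit 41) (nat_lit 4) (.n (nat_lit 43) (nat_lit 4) (.p (nat_lit 44) (nat_lit 4) (.n (nat_lit 46) (nat_lit 4) .z))))))) (.ct dAl_c290 (nat_lit 4) (nat_lit 1) (.s false (nat_lit 1) (nat_lit 5) (nat_lit 2) (nat_lit 0) (nat_lit 1) true (nat_lit 1) true (nat_lit 5) true (nat_lit 1) true (nat_lit 4) true (nat_lit 6) (.e false (nat_lit 4) (nat_lit 26) (nat_lit 1) (nat_lit 5) (.e true (nat_lit 4) (nat_lit 9) (nat_lit 5) (nat_lit 1) (.e false (nat_lit 4) (nat_lit 17) (nat_lit 2) (nat_lit 4) (.e true (nat_lit 4) (nat_lit 19) (nat_lit 2) (nat_lit 4) (.e false (nat_lit 4) (nat_lit 20) (nat_lit 2) (nat_lit 4) (.e true (nat_lit 4) (nat_lit 27) (nat_lit 0) (nat_lit 6) .nil)))))))) .leaf)) (nat_lit 10246) (nat_lit 75) (.n (nat_lit 49) (nat_lit 4) (.p (nat_lit 50) (nat_lit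 4) (.n (nat_lit 51) (nat_lit 4) (.n (nat_lit 52) (nat_lit 4) (.p (nat_lit 53) (nat_lit 4) (.p (nat_lit 54) (nat_lit 4) (.p (nat_lit 55) (nat_lit 4) (.p (nat_lit 56) (nat_lit 4) (.p (nat_lit 57) (nat_lit 4) .z))))))))) (.ct dAl_c275 (nat_lit 4) (nat_lit 0) (.s true (nat_lit 1) (nat_lit 4) (nat_lit 1) (nat_lit 2) (nat_lit 2) true (nat_lit 1) true (nat_lit 4) true (nat_lit 2) true (nat_lit 5) true (nat_lit 4) (.s false (nat_lit 1) (nat_lit 5) (nat_lit 2) (nat_lit 0) (nat_lit 2) true (nat_lit 0) true (nat_lit 4) true (nat_lit 1) true (nat_lit 4) true (nat_lit 6) (.s true (nat_lit 1) (nat_lit 5) (nat_lit 2) (nat_lit 2) (nat_lit 0) true (nat_lit 2) true (nat_lit 6) true (nat_lit 1) true (nat_lit 4) true (nat_lit 4) (.s true (nat_lit 1) (nat_lit 6) (nat_lit 2) (nat_lit 0) (nat_lit 1) true (nat_lit 1) true (nat_lit 5) true (nat_lit 0) true (nat_lit 4) true (nat_lit 6) (.e false (nat_lit 8)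 (nat_lit 22) (nat_lit 2) (nat_lit 4) (.e false (nat_lit 4) (nat_lit 31) (nat_lit 1) (nat_lit 5) (.e false (nat_lit 8) (nat_lit 26) (nat_lit 2) (nat_lit 4) (.e false (nat_lit 8) (nat_lit 21) (nat_lit 2) (nat_lit 4) (.e true (nat_lit 8) (nat_lit 25) (nat_lit 2) (nat_lit 4) (.e true (nat_lit 4) (nat_lit 9) (nat_lit 6) (nat_lit 0) (.e false (nat_lit 4) (nat_lit 34) (nat_lit 0) (nat_lit 6) .nil)))))))))))) (.nd (.nd (.nd .leaf (nat_lit 11264) (nat_lit 18) (.p (nat_lit 17) (nat_lit 4) (.n (nat_lit 18) (nat_lit 4) (.p (nat_lit 20) (nat_lit 4) .z))) (.ct dAl_c289 (nat_lit 4) (nat_lit 3) (.s false (nat_lit 1) (nat_lit 2) (nat_lit 1) (nat_lit 0) (nat_lit 1) false (nat_lit 4) true (nat_lit 2) true (nat_lit 1) true (nat_lit 2) true (nat_lit 3) (.e false (nat_lit 4) (nat_lit 10) (nat_lit 1) (nat_lit 2) (.e false (nat_lit 4) (nat_lit 7) (nat_lit 2) (nat_lit 1) (.e true (nat_lit 4) (nat_lit 8) (nat_lit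 1) (nat_lit 2) .nil))))) .leaf) (nat_lit 11266) (nat_lit 29) (.p (nat_lit 27) (nat_lit 4) .z) .df .leaf) (nat_lit 11268) (nat_lit 61) (.p (nat_lit 38) (nat_lit 4) (.n (nat_lit 40) (nat_lit 4) (.n (nat_lit 41) (nat_lit 8) (.p (nat_lit 44) (nat_lit 4) (.n (nat_lit 45) (nat_lit 4) .z))))) (.ct dAl_c290 (nat_lit 4) (nat_lit 2) (.s false (nat_lit 1) (nat_lit 4) (nat_lit 2) (nat_lit 1) (nat_lit 1) true (nat_lit 1) true (nat_lit 5) true (nat_lit 2) true (nat_lit 4) true (nat_lit 5) (.e true (nat_lit 4) (nat_lit 9) (nat_lit 5) (nat_lit 1) (.e false (nat_lit 4) (nat_lit 24) (nat_lit 1) (nat_lit 5) (.e true (nat_lit 4) (nat_lit 22) (nat_lit 1) (nat_lit 5) .nil))))) (.nd (.nd .leaf (nat_lit 11270) (nat_lit 87) (.n (nat_lit 60) (nat_lit 4) (.p (nat_lit 62) (nat_lit 8) (.p (nat_lit 63) (nat_lit 4) .z))) (.ct dAl_c35 (nat_lit 4) (nat_lit 0) (.s false (nat_lit 1) (nat_lit 6) (nat_lit 1) (nat_lit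 2) (nat_lit 1) false (nat_lit 4) true (nat_lit 3) true (nat_lit 0) true (nat_lit 3) true (nat_lit 2) (.e false (nat_lit 8) (nat_lit 34) (nat_lit 1) (nat_lit 3) (.e false (nat_lit 4) (nat_lit 35) (nat_lit 1) (nat_lit 3) (.e true (nat_lit 4) (nat_lit 29) (nat_lit 2) (nat_lit 2) .nil))))) .leaf) (nat_lit 12289) (nat_lit 23) (.p (nat_lit 24) (nat_lit 4) .z) .df .leaf))) (nat_lit 12290) (nat_lit 33) (.p (nat_lit 30) (nat_lit 4) .z) .df (.nd (.nd (.nd (.nd .leaf (nat_lit 12293) (nat_lit 72) (.p (nat_lit 58) (nat_lit 4) .z) .df .leaf) (nat_lit 12294) (nat_lit 95) (.p (nat_lit 65) (nat_lit 4) (.n (nat_lit 67) (nat_lit 4) .z)) (.ct dAl_c260 (nat_lit 8) (nat_lit 0) (.s true (nat_lit 1) (nat_lit 4) (nat_lit 2) (nat_lit 2) (nat_lit 2) true (nat_lit 0) true (nat_lit 2) true (nat_lit 1) true (nat_lit 2) true (nat_lit 2) (.s true (nat_lit 1) (nat_lit 6) (nat_lit 2) (nat_lit 0) (nat_lit 2) true (nat_lit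 0) true (nat_lit 2) true (nat_lit 0) true (nat_lit 2) true (nat_lit 3) (.s true (nat_lit 1) (nat_lit 6) (nat_lit 2) (nat_lit 2) (nat_lit 0) true (nat_lit 1) true (nat_lit 3) true (nat_lit 0) true (nat_lit 2) true (nat_lit 2) (.e false (nat_lit 8) (nat_lit 31) (nat_lit 2) (nat_lit 2) (.e true (nat_lit 8) (nat_lit 36) (nat_lit 0) (nat_lit 3) .nil)))))) (.nd .leaf (nat_lit 12299) (nat_lit 154) (.p (nat_lit 75) (nat_lit 4) (.n (nat_lit 82) (nat_lit 4) (.p (nat_lit 88) (nat_lit 4) .z))) (.ct dAl_c291 (nat_lit 4) (nat_lit 0) (.s true (nat_lit 1) (nat_lit 12) (nat_lit 1) (nat_lit 2) (nat_lit 1) false (nat_lit 10) true (nat_lit 8) false (nat_lit 0) true (nat_lit 8) true (nat_lit 7) (.e true (nat_lit 4) (nat_lit 51) (nat_lit 1) (nat_lit 8) (.e false (nat_lit 4) (nat_lit 58) (nat_lit 1) (nat_lit 8) (.e false (nat_lit 4) (nat_lit 43) (nat_lit 2) (nat_lit 7) .nil))))) .leaf)) (nat_lit 13313) (nat_lit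 24) (.p (nat_lit 25) (nat_lit 4) .z) .df (.nd (.nd .leaf (nat_lit 13314) (nat_lit 34) (.p (nat_lit 31) (nat_lit 4) .z) .df .leaf) (nat_lit 13317) (nat_lit 77) (.p (nat_lit 48) (nat_lit 8) (.p (nat_lit 49) (nat_lit 8) (.n (nat_lit 52) (nat_lit 4) (.p (nat_lit 53) (nat_lit 8) (.n (nat_lit 56) (nat_lit 4) (.n (nat_lit 57) (nat_lit 4) .z)))))) (.ct dAl_c275 (nat_lit 4) (nat_lit 1) (.s false (nat_lit 1) (nat_lit 6) (nat_lit 2) (nat_lit 0) (nat_lit 1) true (nat_lit 1) true (nat_lit 5) true (nat_lit 0) true (nat_lit 4) true (nat_lit 6) (.e false (nat_lit 4) (nat_lit 32) (nat_lit 1) (nat_lit 5) (.e false (nat_lit 4) (nat_lit 9) (nat_lit 6) (nat_lit 0) (.e true (nat_lit 4) (nat_lit 22) (nat_lit 2) (nat_lit 4) (.e false (nat_lit 4) (nat_lit 23) (nat_lit 2) (nat_lit 4) (.e true (nat_lit 4) (nat_lit 24) (nat_lit 2) (nat_lit 4) (.e false (nat_lit 4) (nat_lit 26) (nat_lit 2) (nat_lit 4) (.e true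 (nat_lit 4) (nat_lit 34) (nat_lit 0) (nat_lit 6) .nil))))))))) .leaf)) (nat_lit 13318) (nat_lit 96) (.p (nat_lit 65) (nat_lit 8) (.p (nat_lit 66) (nat_lit 8) .z)) (.ct dAl_c260 (nat_lit 4) (nat_lit 0) (.s false (nat_lit 1) (nat_lit 6) (nat_lit 2) (nat_lit 0) (nat_lit 2) true (nat_lit 0) true (nat_lit 2) true (nat_lit 0) true (nat_lit 2) true (nat_lit 3) (.e false (nat_lit 8) (nat_lit 32) (nat_lit 2) (nat_lit 2) (.e false (nat_lit 4) (nat_lit 12) (nat_lit 6) (nat_lit 0) (.e false (nat_lit 4) (nat_lit 31) (nat_lit 2) (nat_lit 2) (.e false (nat_lit 4) (nat_lit 36) (nat_lit 0) (nat_lit 3) .nil)))))) (.nd (.nd (.nd .leaf (nat_lit 14336) (nat_lit 25) (.p (nat_lit 26) (nat_lit 4) .z) .df .leaf) (nat_lit 14337) (nat_lit 30) (.p (nat_lit 28) (nat_lit 4) .z) .df .leaf) (nat_lit 14338) (nat_lit 37) (.p (nat_lit 33) (nat_lit 4) .z) .df (.nd (.nd .leaf (nat_lit 14339) (nat_lit 57) (.p (nat_lit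 37) (nat_lit 4) (.n (nat_lit 43) (nat_lit 4) (.p (nat_lit 45) (nat_lit 4) .z))) (.ct dAl_c290 (nat_lit 4) (nat_lit 3) (.s false (nat_lit 1) (nat_lit 3) (nat_lit 1) (nat_lit 2) (nat_lit 2) true (nat_lit 1) true (nat_lit 4) true (nat_lit 3) true (nat_lit 5) true (nat_lit 4) (.e false (nat_lit 4) (nat_lit 8) (nat_lit 5) (nat_lit 1) (.e false (nat_lit 4) (nat_lit 17) (nat_lit 2) (nat_lit 4) (.e true (nat_lit 4) (nat_lit 22) (nat_lit 1) (nat_lit 5) (.e false (nat_lit 4) (nat_lit 23) (nat_lit 1) (nat_lit 5) (.e true (nat_lit 4) (nat_lit 24) (nat_lit 1) (nat_lit 5) (.e false (nat_lit 4) (nat_lit 26) (nat_lit 1) (nat_lit 5) (.e false (nat_lit 4) (nat_lit 18) (nat_lit 2) (nat_lit 4) .nil))))))))) .leaf) (nat_lit 14340) (nat_lit 76) (.p (nat_lit 49) (nat_lit 4) (.p (nat_lit 51) (nat_lit 4) (.n (nat_lit 54) (nat_lit 4) (.n (nat_lit 55) (nat_lit 4) (.p (nat_lit 58) (nat_lit 4) .z))))) (.ct dAl_c275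 (nat_lit 4) (nat_lit 2) (.s false (nat_lit 1) (nat_lit 4) (nat_lit 1) (nat_lit 2) (nat_lit 2) true (nat_lit 1) true (nat_lit 4) true (nat_lit 2) true (nat_lit 5) true (nat_lit 4) (.e false (nat_lit 4) (nat_lit 12) (nat_lit 5) (nat_lit 1) (.e false (nat_lit 4) (nat_lit 22) (nat_lit 2) (nat_lit 4) (.e true (nat_lit 4) (nat_lit 31) (nat_lit 1) (nat_lit 5) (.e true (nat_lit 4) (nat_lit 32) (nat_lit 1) (nat_lit 5) (.e false (nat_lit 4) (nat_lit 24) (nat_lit 2) (nat_lit 4) .nil))))))) .leaf))))) (nat_lit 14341) (nat_lit 90) (.p (nat_lit 59) (nat_lit 4) (.n (nat_lit 61) (nat_lit 4) (.n (nat_lit 63) (nat_lit 4) .z))) (.ct dAl_c35 (nat_lit 4) (nat_lit 1) (.s true (nat_lit 1) (nat_lit 5) (nat_lit 2) (nat_lit 1) (nat_lit 2) true (nat_lit 0) true (nat_lit 2) true (nat_lit 1) true (nat_lit 2) true (nat_lit 3) (.e false (nat_lit 4) (nat_lit 11) (nat_lit 6) (nat_lit 0) (.e true (nat_lit 8) (nat_lit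 28) (nat_lit 2) (nat_lit 2) (.e true (nat_lit 4) (nat_lit 27) (nat_lit 2) (nat_lit 2) (.e false (nat_lit 4) (nat_lit 29) (nat_lit 2) (nat_lit 2) (.e true (nat_lit 4) (nat_lit 33) (nat_lit 1) (nat_lit 3) .nil))))))) (.nd (.nd (.nd (.nd (.nd (.nd .leaf (nat_lit 14342) (nat_lit 102) (.p (nat_lit 69) (nat_lit 4) (.n (nat_lit 71) (nat_lit 4) .z)) (.ct dAl_c20 (nat_lit 8) (nat_lit 0) (.s true (nat_lit 1) (nat_lit 5) (nat_lit 2) (nat_lit 2) (nat_lit 2) true (nat_lit 0) true (nat_lit 2) true (nat_lit 1) true (nat_lit 2) true (nat_lit 2) (.s true (nat_lit 1) (nat_lit 6) (nat_lit 2) (nat_lit 1) (nat_lit 2) true (nat_lit 0) true (nat_lit 2) true (nat_lit 0) true (nat_lit 2) true (nat_lit 3) (.s true (nat_lit 1) (nat_lit 6) (nat_lit 2) (nat_lit 2) (nat_lit 1) true (nat_lit 1) true (nat_lit 3) true (nat_lit 0) true (nat_lit 2) true (nat_lit 2) (.e false (nat_lit 8) (nat_lit 34) (nat_lit 2) (nat_lit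 2) (.e true (nat_lit 8) (nat_lit 36) (nat_lit 1) (nat_lit 3) .nil)))))) .leaf) (nat_lit 14344) (nat_lit 147) (.n (nat_lit 72) (nat_lit 8) (.p (nat_lit 73) (nat_lit 2) (.n (nat_lit 74) (nat_lit 2) (.p (nat_lit 75) (nat_lit 6) (.n (nat_lit 77) (nat_lit 6) (.n (nat_lit 79) (nat_lit 4) (.p (nat_lit 80) (nat_lit 22) (.n (nat_lit 81) (nat_lit 6) (.p (nat_lit 82) (nat_lit 22) (.n (nat_lit 83) (nat_lit 6) (.n (nat_lit 84) (nat_lit 8) (.n (nat_lit 85) (nat_lit 6) (.n (nat_lit 86) (nat_lit 8) (.n (nat_lit 87) (nat_lit 14) (.n (nat_lit 89) (nat_lit 10) (.p (nat_lit 90) (nat_lit 2) (.n (nat_lit 91) (nat_lit 2) .z))))))))))))))))) (.ct dAl_c291 (nat_lit 4) (nat_lit 1) (.s false (nat_lit 1) (nat_lit 5) (nat_lit 3) (nat_lit 2) (nat_lit 2) true (nat_lit 1) true (nat_lit 7) true (nat_lit 4) true (nat_lit 6) true (nat_lit 7) (.e false (nat_lit 8) (nat_lit 37) (nat_lit 2) (nat_lit 7) (.e true (nat_lit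 4) (nat_lit 38) (nat_lit 2) (nat_lit 7) (.e false (nat_lit 4) (nat_lit 39) (nat_lit 2) (nat_lit 7) (.e false (nat_lit 4) (nat_lit 21) (nat_lit 5) (nat_lit 4) (.e true (nat_lit 4) (nat_lit 34) (nat_lit 3) (nat_lit 6) (.e true (nat_lit 4) (nat_lit 35) (nat_lit 3) (nat_lit 6) (.e true (nat_lit 4) (nat_lit 43) (nat_lit 2) (nat_lit 7) (.e false (nat_lit 4) (nat_lit 45) (nat_lit 2) (nat_lit 7) .nil)))))))))) (.nd .leaf (nat_lit 14345) (nat_lit 148) (.p (nat_lit 72) (nat_lit 2) (.p (nat_lit 75) (nat_lit 2) (.n (nat_lit 76) (nat_lit 2) (.p (nat_lit 77) (nat_lit 2) (.n (nat_lit 79) (nat_lit 2) (.n (nat_lit 80) (nat_lit 6) (.p (nat_lit 81) (nat_lit 2) (.p (nat_lit 85) (nat_lit 2) (.p (nat_lit 87) (nat_lit 2) (.p (nat_lit 90) (nat_lit 2) .z)))))))))) (.ct dAl_c291 (nat_lit 4) (nat_lit 1) (.s true (nat_lit 1) (nat_lit 9) (nat_lit 2) (nat_lit 1) (nat_lit 2) true (nat_lit 3) true (nat_lit 7) true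 (nat_lit 1) true (nat_lit 7) true (nat_lit 8) (.e false (nat_lit 4) (nat_lit 19) (nat_lit 6) (nat_lit 3) (.e true (nat_lit 4) (nat_lit 38) (nat_lit 2) (nat_lit 7) (.e false (nat_lit 4) (nat_lit 40) (nat_lit 2) (nat_lit 7) (.e false (nat_lit 4) (nat_lit 43) (nat_lit 2) (nat_lit 7) (.e true (nat_lit 4) (nat_lit 44) (nat_lit 2) (nat_lit 7) (.e false (nat_lit 4) (nat_lit 45) (nat_lit 2) (nat_lit 7) (.e true (nat_lit 4) (nat_lit 49) (nat_lit 1) (nat_lit 8) .nil))))))))) .leaf)) (nat_lit 14346) (nat_lit 142) (.n (nat_lit 72) (nat_lit 12) (.p (nat_lit 73) (nat_lit 22) (.n (nat_lit 74) (nat_lit 10) (.p (nat_lit 75) (nat_lit 6) (.n (nat_lit 76) (nat_lit 2) (.n (nat_lit 77) (nat_lit 2) (.n (nat_lit 79) (nat_lit 4) (.p (nat_lit 80) (nat_lit 46) (.n (nat_lit 81) (nat_lit 18) (.p (nat_lit 82) (nat_lit 38) (.n (nat_lit 83) (nat_lit 2) (.n (nat_lit 84) (nat_lit 18) (.n (nat_lit 85) (nat_lit 10) (.n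 (nat_lit 86) (nat_lit 22) (.n (nat_lit 87) (nat_lit 28) (.n (nat_lit 88) (nat_lit 8) (.n (nat_lit 89) (nat_lit 16) (.p (nat_lit 91) (nat_lit 2) (.p (nat_lit 92) (nat_lit 12) .z))))))))))))))))))) (.ct dAl_c291 (nat_lit 4) (nat_lit 1) (.s true (nat_lit 1) (nat_lit 10) (nat_lit 2) (nat_lit 1) (nat_lit 2) true (nat_lit 3) true (nat_lit 7) true (nat_lit 1) true (nat_lit 7) true (nat_lit 8) (.e false (nat_lit 4) (nat_lit 20) (nat_lit 6) (nat_lit 3) (.e true (nat_lit 4) (nat_lit 42) (nat_lit 2) (nat_lit 7) (.e false (nat_lit 4) (nat_lit 37) (nat_lit 2) (nat_lit 7) (.e false (nat_lit 4) (nat_lit 39) (nat_lit 2) (nat_lit 7) (.e true (nat_lit 4) (nat_lit 40) (nat_lit 2) (nat_lit 7) (.e true (nat_lit 4) (nat_lit 41) (nat_lit 2) (nat_lit 7) (.e true (nat_lit 4) (nat_lit 43) (nat_lit 2) (nat_lit 7) (.e false (nat_lit 4) (nat_lit 44) (nat_lit 2) (nat_lit 7) (.e true (nat_lit 4) (nat_lit 46) (nat_lit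 2) (nat_lit 7) (.e true (nat_lit 4) (nat_lit 50) (nat_lit 1) (nat_lit 8) .nil)))))))))))) (.nd (.nd .leaf (nat_lit 14348) (nat_lit 186) (.p (nat_lit 93) (nat_lit 6) (.n (nat_lit 94) (nat_lit 2) (.p (nat_lit 95) (nat_lit 4) (.n (nat_lit 96) (nat_lit 8) (.n (nat_lit 97) (nat_lit 6) (.p (nat_lit 98) (nat_lit 10) (.p (nat_lit 99) (nat_lit 1) (.p (nat_lit 100) (nat_lit 5) (.n (nat_lit 101) (nat_lit 1) (.p (nat_lit 102) (nat_lit 4) (.n (nat_lit 103) (nat_lit 3) (.p (nat_lit 104) (nat_lit 1) (.p (nat_lit 105) (nat_lit 1) (.p (nat_lit 106) (nat_lit 3) (.p (nat_lit 107) (nat_lit 4) (.p (nat_lit 108) (nat_lit 3) .z)))))))))))))))) (.ct dAl_c276 (nat_lit 4) (nat_lit 0) (.s false (nat_lit 1) (nat_lit 12) (nat_lit 1) (nat_lit 2) (nat_lit 2) true (nat_lit 3) true (nat_lit 6) true (nat_lit 0) true (nat_lit 7) true (nat_lit 6) (.e false (nat_lit 4) (nat_lit 30) (nat_lit 5) (nat_lit 3) (.e true (nat_lit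 4) (nat_lit 65) (nat_lit 1) (nat_lit 7) (.e false (nat_lit 4) (nat_lit 67) (nat_lit 1) (nat_lit 7) (.e false (nat_lit 4) (nat_lit 48) (nat_lit 2) (nat_lit 6) (.e false (nat_lit 4) (nat_lit 49) (nat_lit 2) (nat_lit 6) (.e true (nat_lit 4) (nat_lit 50) (nat_lit 2) (nat_lit 6) (.e false (nat_lit 4) (nat_lit 54) (nat_lit 2) (nat_lit 6) (.e true (nat_lit 4) (nat_lit 57) (nat_lit 2) (nat_lit 6) (.e true (nat_lit 4) (nat_lit 58) (nat_lit 2) (nat_lit 6) .nil))))))))))) .leaf) (nat_lit 14349) (nat_lit 188) (.p (nat_lit 93) (nat_lit 8) (.p (nat_lit 94) (nat_lit 8) (.n (nat_lit 97) (nat_lit 4) (.p (nat_lit 98) (nat_lit 8) (.n (nat_lit 99) (nat_lit 4) (.n (nat_lit 101) (nat_lit 4) (.n (nat_lit 102) (nat_lit 4) (.n (nat_lit 103) (nat_lit 4) (.p (nat_lit 106) (nat_lit 4) .z))))))))) (.ct dAl_c276 (nat_lit 4) (nat_lit 0) (.s false (nat_lit 1) (nat_lit 13) (nat_lit 1) (nat_lit 2) (nat_lit 2) true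 (nat_lit 3) true (nat_lit 6) true (nat_lit 0) true (nat_lit 7) true (nat_lit 6) (.e false (nat_lit 4) (nat_lit 31) (nat_lit 5) (nat_lit 3) (.e false (nat_lit 4) (nat_lit 52) (nat_lit 2) (nat_lit 6) (.e true (nat_lit 8) (nat_lit 65) (nat_lit 1) (nat_lit 7) (.e true (nat_lit 8) (nat_lit 66) (nat_lit 1) (nat_lit 7) (.e false (nat_lit 4) (nat_lit 54) (nat_lit 2) (nat_lit 6) .nil))))))) .leaf)) (nat_lit 15360) (nat_lit 27) (.n (nat_lit 21) (nat_lit 8) (.n (nat_lit 22) (nat_lit 4) (.p (nat_lit 23) (nat_lit 4) (.p (nat_lit 24) (nat_lit 4) (.p (nat_lit 25) (nat_lit 4) (.n (nat_lit 26) (nat_lit 4) .z)))))) (.ct dAl_c274 (nat_lit 4) (nat_lit 4) (.s false (nat_lit 1) (nat_lit 2) (nat_lit 1) (nat_lit 0) (nat_lit 2) false (nat_lit 0) true (nat_lit 2) true (nat_lit 2) true (nat_lit 3) true (nat_lit 4) (.e false (nat_lit 4) (nat_lit 5) (nat_lit 4) (nat_lit 0) (.e false (nat_lit 4) (nat_lit 10) (nat_lit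 2) (nat_lit 2) (.e true (nat_lit 4) (nat_lit 8) (nat_lit 2) (nat_lit 2) (.e false (nat_lit 4) (nat_lit 12) (nat_lit 1) (nat_lit 3) .nil)))))) (.nd (.nd (.nd .leaf (nat_lit 15361) (nat_lit 31) (.p (nat_lit 29) (nat_lit 4) .z) .df .leaf) (nat_lit 15362) (nat_lit 38) (.p (nat_lit 34) (nat_lit 4) .z) .df (.nd .leaf (nat_lit 15363) (nat_lit 60) (.p (nat_lit 41) (nat_lit 4) (.n (nat_lit 42) (nat_lit 4) (.p (nat_lit 43) (nat_lit 4) (.n (nat_lit 44) (nat_lit 4) (.n (nat_lit 45) (nat_lit 4) (.p (nat_lit 47) (nat_lit 4) .z)))))) (.ct dAl_c290 (nat_lit 4) (nat_lit 3) (.s true (nat_lit 1) (nat_lit 3) (nat_lit 2) (nat_lit 2) (nat_lit 1) true (nat_lit 1) true (nat_lit 5) true (nat_lit 3) true (nat_lit 4) true (nat_lit 4) (.e true (nat_lit 4) (nat_lit 8) (nat_lit 5) (nat_lit 1) (.e true (nat_lit 4) (nat_lit 21) (nat_lit 1) (nat_lit 5) (.e false (nat_lit 8) (nat_lit 17) (nat_lit 2) (nat_lit 4) (.e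 true (nat_lit 4) (nat_lit 19) (nat_lit 2) (nat_lit 4) (.e false (nat_lit 4) (nat_lit 20) (nat_lit 2) (nat_lit 4) .nil))))))) .leaf)) (nat_lit 15364) (nat_lit 78) (.p (nat_lit 49) (nat_lit 4) (.p (nat_lit 50) (nat_lit 4) (.p (nat_lit 51) (nat_lit 4) (.n (nat_lit 52) (nat_lit 4) (.p (nat_lit 53) (nat_lit 4) (.n (nat_lit 54) (nat_lit 4) (.p (nat_lit 57) (nat_lit 4) .z))))))) (.ct dAl_c275 (nat_lit 4) (nat_lit 2) (.s true (nat_lit 1) (nat_lit 6) (nat_lit 0) (nat_lit 1) (nat_lit 2) true (nat_lit 2) true (nat_lit 4) true (nat_lit 0) true (nat_lit 6) true (nat_lit 5) (.e true (nat_lit 4) (nat_lit 25) (nat_lit 2) (nat_lit 4) (.e false (nat_lit 4) (nat_lit 8) (nat_lit 6) (nat_lit 0) (.e false (nat_lit 4) (nat_lit 34) (nat_lit 0) (nat_lit 6) (.e false (nat_lit 4) (nat_lit 35) (nat_lit 0) (nat_lit 6) (.e false (nat_lit 4) (nat_lit 32) (nat_lit 1) (nat_lit 5) .nil))))))) (.nd (.nd .leaf (nat_lit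 15365) (nat_lit 88) (.n (nat_lit 60) (nat_lit 4) (.p (nat_lit 62) (nat_lit 4) (.p (nat_lit 63) (nat_lit 8) .z))) (.ct dAl_c35 (nat_lit 4) (nat_lit 1) (.s true (nat_lit 1) (nat_lit 6) (nat_lit 1) (nat_lit 1) (nat_lit 2) true (nat_lit 1) true (nat_lit 2) true (nat_lit 0) true (nat_lit 3) true (nat_lit 3) (.e true (nat_lit 4) (nat_lit 29) (nat_lit 2) (nat_lit 2) (.e false (nat_lit 4) (nat_lit 34) (nat_lit 1) (nat_lit 3) (.e false (nat_lit 8) (nat_lit 35) (nat_lit 1) (nat_lit 3) .nil))))) .leaf) (nat_lit 15366) (nat_lit 103) (.p (nat_lit 69) (nat_lit 8) (.p (nat_lit 70) (nat_lit 8) .z)) (.ct dAl_c20 (nat_lit 4) (nat_lit 0) (.s false (nat_lit 1) (nat_lit 6) (nat_lit 2) (nat_lit 1) (nat_lit 2) true (nat_lit 0) true (nat_lit 2) true (nat_lit 0) true (nat_lit 2) true (nat_lit 3) (.e false (nat_lit 8) (nat_lit 35) (nat_lit 2) (nat_lit 2) (.e false (nat_lit 4) (nat_lit 14) (nat_lit 6) (nat_lit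 0) (.e false (nat_lit 4) (nat_lit 34) (nat_lit 2) (nat_lit 2) (.e false (nat_lit 4) (nat_lit 36) (nat_lit 1) (nat_lit 3) .nil)))))) .leaf))) (nat_lit 15369) (nat_lit 149) (.n (nat_lit 73) (nat_lit 4) (.p (nat_lit 79) (nat_lit 4) (.n (nat_lit 81) (nat_lit 4) (.n (nat_lit 85) (nat_lit 4) (.n (nat_lit 87) (nat_lit 4) (.p (nat_lit 90) (nat_lit 4) (.n (nat_lit 92) (nat_lit 4) .z))))))) (.ct dAl_c291 (nat_lit 4) (nat_lit 1) (.s false (nat_lit 1) (nat_lit 6) (nat_lit 4) (nat_lit 1) (nat_lit 1) true (nat_lit 1) true (nat_lit 8) true (nat_lit 3) true (nat_lit 5) true (nat_lit 8) (.e true (nat_lit 4) (nat_lit 55) (nat_lit 1) (nat_lit 8) (.e false (nat_lit 4) (nat_lit 19) (nat_lit 6) (nat_lit 3) (.e true (nat_lit 4) (nat_lit 49) (nat_lit 1) (nat_lit 8) (.e true (nat_lit 4) (nat_lit 50) (nat_lit 1) (nat_lit 8) (.e true (nat_lit 4) (nat_lit 51) (nat_lit 1) (nat_lit 8) (.e false (nat_lit 4) (nat_lit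 52) (nat_lit 1) (nat_lit 8) (.e true (nat_lit 4) (nat_lit 53) (nat_lit 1) (nat_lit 8) (.e true (nat_lit 4) (nat_lit 57) (nat_lit 1) (nat_lit 8) .nil)))))))))) (.nd (.nd (.nd (.nd .leaf (nat_lit 15370) (nat_lit 150) (.p (nat_lit 72) (nat_lit 4) (.n (nat_lit 73) (nat_lit 4) (.n (nat_lit 75) (nat_lit 4) (.p (nat_lit 77) (nat_lit 4) (.n (nat_lit 80) (nat_lit 20) (.n (nat_lit 82) (nat_lit 16) (.p (nat_lit 84) (nat_lit 8) (.p (nat_lit 85) (nat_lit 8) (.p (nat_lit 86) (nat_lit 8) (.p (nat_lit 87) (nat_lit 12) (.p (nat_lit 89) (nat_lit 4) (.p (nat_lit 91) (nat_lit 4) (.n (nat_lit 92) (nat_lit 4) .z))))))))))))) (.ct dAl_c291 (nat_lit 4) (nat_lit 1) (.s true (nat_lit 1) (nat_lit 10) (nat_lit 2) (nat_lit 2) (nat_lit 1) true (nat_lit 4) true (nat_lit 8) true (nat_lit 1) true (nat_lit 7) true (nat_lit 7) (.e true (nat_lit 4) (nat_lit 23) (nat_lit 5) (nat_lit 4) (.e true (nat_lit 4) (nat_lit 50)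 (nat_lit 1) (nat_lit 8) (.e true (nat_lit 4) (nat_lit 37) (nat_lit 2) (nat_lit 7) (.e false (nat_lit 4) (nat_lit 40) (nat_lit 2) (nat_lit 7) (.e false (nat_lit 4) (nat_lit 41) (nat_lit 2) (nat_lit 7) (.e false (nat_lit 4) (nat_lit 43) (nat_lit 2) (nat_lit 7) (.e true (nat_lit 4) (nat_lit 44) (nat_lit 2) (nat_lit 7) (.e false (nat_lit 4) (nat_lit 46) (nat_lit 2) (nat_lit 7) .nil)))))))))) .leaf) (nat_lit 15372) (nat_lit 185) (.p (nat_lit 93) (nat_lit 16) (.p (nat_lit 94) (nat_lit 12) (.n (nat_lit 95) (nat_lit 4) (.n (nat_lit 96) (nat_lit 4) (.n (nat_lit 97) (nat_lit 12) (.p (nat_lit 98) (nat_lit 12) (.n (nat_lit 99) (nat_lit 4) (.n (nat_lit 101) (nat_lit 4) (.n (nat_lit 102) (nat_lit 4) (.p (nat_lit 104) (nat_lit 4) (.p (nat_lit 106) (nat_lit 4) .z))))))))))) (.ct dAl_c276 (nat_lit 4) (nat_lit 0) (.s false (nat_lit 1) (nat_lit 6) (nat_lit 4) (nat_lit 1) (nat_lit 2) true (nat_lit 0)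 true (nat_lit 6) true (nat_lit 2) true (nat_lit 4) true (nat_lit 7) (.e true (nat_lit 4) (nat_lit 54) (nat_lit 2) (nat_lit 6) (.e true (nat_lit 4) (nat_lit 55) (nat_lit 2) (nat_lit 6) (.e false (nat_lit 4) (nat_lit 22) (nat_lit 6) (nat_lit 2) (.e false (nat_lit 4) (nat_lit 34) (nat_lit 4) (nat_lit 4) (.e false (nat_lit 4) (nat_lit 35) (nat_lit 4) (nat_lit 4) (.e true (nat_lit 4) (nat_lit 66) (nat_lit 1) (nat_lit 7) (.e true (nat_lit 4) (nat_lit 67) (nat_lit 1) (nat_lit 7) .nil))))))))) (.nd .leaf (nat_lit 15373) (nat_lit 189) (.p (nat_lit 102) (nat_lit 8) (.p (nat_lit 104) (nat_lit 8) (.p (nat_lit 105) (nat_lit 8) (.n (nat_lit 106) (nat_lit 4) .z)))) (.ct dAl_c276 (nat_lit 4) (nat_lit 0) (.s false (nat_lit 1) (nat_lit 6) (nat_lit 1) (nat_lit 0) (nat_lit 6) false (nat_lit 0) true (nat_lit 2) true (nat_lit 2) true (nat_lit 7) true (nat_lit 8) (.e true (nat_lit 8) (nat_lit 21) (nat_lit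 6) (nat_lit 2) (.e false (nat_lit 8) (nat_lit 24) (nat_lit 6) (nat_lit 2) (.e false (nat_lit 4) (nat_lit 25) (nat_lit 6) (nat_lit 2) (.e true (nat_lit 8) (nat_lit 26) (nat_lit 6) (nat_lit 2) (.e true (nat_lit 8) (nat_lit 65) (nat_lit 1) (nat_lit 7) (.e true (nat_lit 8) (nat_lit 66) (nat_lit 1) (nat_lit 7) .nil)))))))) .leaf)) (nat_lit 15374) (nat_lit 205) (.n (nat_lit 110) (nat_lit 2) (.n (nat_lit 112) (nat_lit 12) (.n (nat_lit 113) (nat_lit 6) (.p (nat_lit 114) (nat_lit 2) .z)))) (.ct dAl_c36 (nat_lit 4) (nat_lit 0) (.s false (nat_lit 1) (nat_lit 6) (nat_lit 1) (nat_lit 1) (nat_lit 6) true (nat_lit 0) true (nat_lit 2) true (nat_lit 2) true (nat_lit 5) true (nat_lit 5) (.s false (nat_lit 1) (nat_lit 15) (nat_lit 2) (nat_lit 1) (nat_lit 2) true (nat_lit 2) true (nat_lit 4) true (nat_lit 0) true (nat_lit 4) true (nat_lit 5) (.a false (nat_lit 8) (nat_lit 15) (nat_lit 15) (nat_lit 0)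 (nat_lit 0) (.a false (nat_lit 16) (nat_lit 14) (nat_lit 15) (nat_lit 0) (nat_lit 0) (.e true (nat_lit 4) (nat_lit 69) (nat_lit 1) (nat_lit 5) (.e true (nat_lit 8) (nat_lit 70) (nat_lit 1) (nat_lit 5) (.e false (nat_lit 4) (nat_lit 60) (nat_lit 2) (nat_lit 4) (.e true (nat_lit 8) (nat_lit 63) (nat_lit 2) (nat_lit 4) .nil))))))))) (.nd (.nd .leaf (nat_lit 16384) (nat_lit 35) (.p (nat_lit 32) (nat_lit 4) .z) .df .leaf) (nat_lit 16385) (nat_lit 39) (.p (nat_lit 35) (nat_lit 4) .z) .df .leaf)) (nat_lit 16386) (nat_lit 41) (.p (nat_lit 36) (nat_lit 4) .z) .df (.nd (.nd (.nd .leaf (nat_lit 16387) (nat_lit 79) (.p (nat_lit 49) (nat_lit 4) (.n (nat_lit 50) (nat_lit 4) (.p (nat_lit 51) (nat_lit 4) (.n (nat_lit 53) (nat_lit 4) (.n (nat_lit 57) (nat_lit 4) .z))))) (.ct dAl_c275 (nat_lit 4) (nat_lit 3) (.s true (nat_lit 1) (nat_lit 3) (nat_lit 2) (nat_lit 2) (nat_lit 2) true (nat_lit 0) true (nat_lit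 4) true (nat_lit 3) true (nat_lit 4) true (nat_lit 4) (.e true (nat_lit 4) (nat_lit 8) (nat_lit 6) (nat_lit 0) (.e false (nat_lit 4) (nat_lit 22) (nat_lit 2) (nat_lit 4) (.e true (nat_lit 4) (nat_lit 23) (nat_lit 2) (nat_lit 4) (.e false (nat_lit 4) (nat_lit 24) (nat_lit 2) (nat_lit 4) (.e true (nat_lit 4) (nat_lit 26) (nat_lit 2) (nat_lit 4) .nil))))))) .leaf) (nat_lit 16388) (nat_lit 97) (.n (nat_lit 66) (nat_lit 4) (.n (nat_lit 67) (nat_lit 4) .z)) (.ct dAl_c260 (nat_lit 4) (nat_lit 1) (.s false (nat_lit 1) (nat_lit 4) (nat_lit 2) (nat_lit 2) (nat_lit 2) true (nat_lit 0) true (nat_lit 2) true (nat_lit 1) true (nat_lit 2) true (nat_lit 2) (.e false (nat_lit 4) (nat_lit 12) (nat_lit 6) (nat_lit 0) (.e true (nat_lit 4) (nat_lit 31) (nat_lit 2) (nat_lit 2) (.e true (nat_lit 4) (nat_lit 32) (nat_lit 2) (nat_lit 2) .nil))))) .leaf) (nat_lit 16389) (nat_lit 104) (.n (nat_lit 70) (nat_lit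 4) (.n (nat_lit 71) (nat_lit 4) .z)) (.ct dAl_c20 (nat_lit 4) (nat_lit 1) (.s false (nat_lit 1) (nat_lit 5) (nat_lit 2) (nat_lit 2) (nat_lit 2) true (nat_lit 0) true (nat_lit 2) true (nat_lit 1) true (nat_lit 2) true (nat_lit 2) (.e false (nat_lit 4) (nat_lit 14) (nat_lit 6) (nat_lit 0) (.e true (nat_lit 4) (nat_lit 34) (nat_lit 2) (nat_lit 2) (.e true (nat_lit 4) (nat_lit 35) (nat_lit 2) (nat_lit 2) .nil))))) (.nd (.nd .leaf (nat_lit 16391) (nat_lit 153) (.p (nat_lit 80) (nat_lit 8) (.p (nat_lit 82) (nat_lit 8) (.n (nat_lit 84) (nat_lit 4) (.n (nat_lit 85) (nat_lit 4) (.n (nat_lit 86) (nat_lit 4) (.n (nat_lit 87) (nat_lit 4) (.n (nat_lit 89) (nat_lit 4) .z))))))) (.ct dAl_c291 (nat_lit 4) (nat_lit 2) (.s true (nat_lit 1) (nat_lit 7) (nat_lit 2) (nat_lit 2) (nat_lit 2) true (nat_lit 3) true (nat_lit 7) true (nat_lit 2) true (nat_lit 7) true (nat_lit 7) (.e true (nat_lit 4) (nat_lit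 17) (nat_lit 6) (nat_lit 3) (.e false (nat_lit 8) (nat_lit 40) (nat_lit 2) (nat_lit 7) (.e false (nat_lit 8) (nat_lit 41) (nat_lit 2) (nat_lit 7) (.e true (nat_lit 8) (nat_lit 42) (nat_lit 2) (nat_lit 7) (.e true (nat_lit 4) (nat_lit 44) (nat_lit 2) (nat_lit 7) (.e false (nat_lit 4) (nat_lit 47) (nat_lit 2) (nat_lit 7) .nil)))))))) .leaf) (nat_lit 16392) (nat_lit 192) (.p (nat_lit 94) (nat_lit 8) (.p (nat_lit 96) (nat_lit 8) (.n (nat_lit 99) (nat_lit 4) (.n (nat_lit 100) (nat_lit 8) (.n (nat_lit 101) (nat_lit 4) (.p (nat_lit 103) (nat_lit 4) (.p (nat_lit 104) (nat_lit 4) (.p (nat_lit 105) (nat_lit 8) (.n (nat_lit 106) (nat_lit 4) .z))))))))) (.ct dAl_c276 (nat_lit 4) (nat_lit 1) (.s false (nat_lit 1) (nat_lit 6) (nat_lit 3) (nat_lit 2) (nat_lit 2) true (nat_lit 1) true (nat_lit 6) true (nat_lit 2) true (nat_lit 5) true (nat_lit 6) (.e false (nat_lit 4) (nat_lit 21) (nat_lit 6) (nat_lit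 2) (.e true (nat_lit 4) (nat_lit 57) (nat_lit 2) (nat_lit 6) .nil)))) .leaf)))) (nat_lit 16393) (nat_lit 184) (.p (nat_lit 93) (nat_lit 4) (.p (nat_lit 95) (nat_lit 4) (.n (nat_lit 96) (nat_lit 4) (.n (nat_lit 97) (nat_lit 8) (.p (nat_lit 98) (nat_lit 8) (.n (nat_lit 99) (nat_lit 2) (.p (nat_lit 100) (nat_lit 6) (.n (nat_lit 101) (nat_lit 2) (.p (nat_lit 102) (nat_lit 4) (.p (nat_lit 103) (nat_lit 2) (.p (nat_lit 104) (nat_lit 2) (.n (nat_lit 105) (nat_lit 2) (.p (nat_lit 106) (nat_lit 2) (.n (nat_lit 108) (nat_lit 2) .z)))))))))))))) (.ct dAl_c276 (nat_lit 4) (nat_lit 1) (.s false (nat_lit 1) (nat_lit 16) (nat_lit 2) (nat_lit 0) (nat_lit 1) true (nat_lit 3) true (nat_lit 7) false (nat_lit 1) true (nat_lit 6) true (nat_lit 8) (.e true (nat_lit 4) (nat_lit 32) (nat_lit 5) (nat_lit 3) (.e false (nat_lit 4) (nat_lit 67) (nat_lit 1) (nat_lit 7) (.e false (nat_lit 4) (nat_lit 49) (nat_lit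 2) (nat_lit 6) (.e true (nat_lit 4) (nat_lit 50) (nat_lit 2) (nat_lit 6) (.e false (nat_lit 4) (nat_lit 51) (nat_lit 2) (nat_lit 6) (.e true (nat_lit 4) (nat_lit 53) (nat_lit 2) (nat_lit 6) (.e true (nat_lit 4) (nat_lit 57) (nat_lit 2) (nat_lit 6) (.e true (nat_lit 4) (nat_lit 70) (nat_lit 0) (nat_lit 8) .nil)))))))))) (.nd (.nd (.nd (.nd (.nd .leaf (nat_lit 16394) (nat_lit 183) (.p (nat_lit 93) (nat_lit 4) (.p (nat_lit 94) (nat_lit 16) (.n (nat_lit 95) (nat_lit 4) (.p (nat_lit 96) (nat_lit 12) (.n (nat_lit 99) (nat_lit 6) (.n (nat_lit 100) (nat_lit 10) (.n (nat_lit 101) (nat_lit 6) (.n (nat_lit 102) (nat_lit 4) (.p (nat_lit 103) (nat_lit 6) (.p (nat_lit 104) (nat_lit 6) (.p (nat_lit 105) (nat_lit 6) (.n (nat_lit 106) (nat_lit 6) (.n (nat_lit 108) (nat_lit 2) .z))))))))))))) (.ct dAl_c276 (nat_lit 4) (nat_lit 1) (.s false (nat_lit 1) (nat_lit 16) (nat_lit 2) (nat_lit 1) (nat_lit 0)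 true (nat_lit 4) true (nat_lit 8) false (nat_lit 1) true (nat_lit 6) true (nat_lit 7) (.e true (nat_lit 4) (nat_lit 35) (nat_lit 4) (nat_lit 4) (.e false (nat_lit 4) (nat_lit 71) (nat_lit 0) (nat_lit 8) (.e true (nat_lit 4) (nat_lit 49) (nat_lit 2) (nat_lit 6) (.e false (nat_lit 4) (nat_lit 50) (nat_lit 2) (nat_lit 6) (.e true (nat_lit 4) (nat_lit 51) (nat_lit 2) (nat_lit 6) (.e false (nat_lit 4) (nat_lit 53) (nat_lit 2) (nat_lit 6) (.e false (nat_lit 4) (nat_lit 57) (nat_lit 2) (nat_lit 6) (.e true (nat_lit 4) (nat_lit 66) (nat_lit 1) (nat_lit 7) .nil)))))))))) .leaf) (nat_lit 16395) (nat_lit 208) (.p (nat_lit 110) (nat_lit 2) (.p (nat_lit 113) (nat_lit 2) (.n (nat_lit 114) (nat_lit 2) .z))) (.ct dAl_c36 (nat_lit 4) (nat_lit 1) (.s true (nat_lit 1) (nat_lit 16) (nat_lit 1) (nat_lit 2) (nat_lit 1) false (nat_lit 6) true (nat_lit 5) false (nat_lit 1) true (nat_lit 5) true (nat_lit 4)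 (.e true (nat_lit 8) (nat_lit 70) (nat_lit 1) (nat_lit 5) (.e true (nat_lit 4) (nat_lit 71) (nat_lit 1) (nat_lit 5) (.e false (nat_lit 4) (nat_lit 63) (nat_lit 2) (nat_lit 4) .nil))))) (.nd .leaf (nat_lit 17410) (nat_lit 42) (.p (nat_lit 37) (nat_lit 4) .z) .df .leaf)) (nat_lit 17414) (nat_lit 137) (.p (nat_lit 72) (nat_lit 8) (.p (nat_lit 73) (nat_lit 8) (.n (nat_lit 74) (nat_lit 8) (.n (nat_lit 76) (nat_lit 4) (.p (nat_lit 78) (nat_lit 4) (.n (nat_lit 80) (nat_lit 8) (.n (nat_lit 82) (nat_lit 8) (.p (nat_lit 84) (nat_lit 4) (.p (nat_lit 85) (nat_lit 4) (.p (nat_lit 86) (nat_lit 4) (.p (nat_lit 87) (nat_lit 4) (.p (nat_lit 89) (nat_lit 4) .z)))))))))))) (.ct dAl_c291 (nat_lit 8) (nat_lit 3) (.s false (nat_lit 1) (nat_lit 6) (nat_lit 1) (nat_lit 2) (nat_lit 3) true (nat_lit 2) true (nat_lit 6) true (nat_lit 3) true (nat_lit 8) true (nat_lit 7) (.s true (nat_lit 1) (nat_lit 7) (nat_lit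 2) (nat_lit 2) (nat_lit 2) true (nat_lit 3) true (nat_lit 7) true (nat_lit 2) true (nat_lit 7) true (nat_lit 7) (.e false (nat_lit 4) (nat_lit 34) (nat_lit 3) (nat_lit 6) (.e false (nat_lit 4) (nat_lit 19) (nat_lit 6) (nat_lit 3) (.e true (nat_lit 4) (nat_lit 20) (nat_lit 6) (nat_lit 3) (.e true (nat_lit 4) (nat_lit 57) (nat_lit 1) (nat_lit 8) (.e false (nat_lit 12) (nat_lit 41) (nat_lit 2) (nat_lit 7) (.e true (nat_lit 12) (nat_lit 42) (nat_lit 2) (nat_lit 7) (.e false (nat_lit 4) (nat_lit 43) (nat_lit 2) (nat_lit 7) (.e true (nat_lit 4) (nat_lit 45) (nat_lit 2) (nat_lit 7) (.e false (nat_lit 8) (nat_lit 40) (nat_lit 2) (nat_lit 7) (.e true (nat_lit 4) (nat_lit 44) (nat_lit 2) (nat_lit 7) (.e false (nat_lit 4) (nat_lit 47) (nat_lit 2) (nat_lit 7) .nil)))))))))))))) (.nd (.nd .leaf (nat_lit 18434) (nat_lit 55) (.n (nat_lit 37) (nat_lit 8) (.p (nat_lit 38) (nat_lit 4) (.n (nat_lit 39)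 (nat_lit 4) (.p (nat_lit 40) (nat_lit 4) (.p (nat_lit 41) (nat_lit 8) (.n (nat_lit 42) (nat_lit 8) (.p (nat_lit 43) (nat_lit 4) (.n (nat_lit 44) (nat_lit 4) (.n (nat_lit 45) (nat_lit 4) (.p (nat_lit 47) (nat_lit 4) .z)))))))))) (.ct dAl_c290 (nat_lit 8) (nat_lit 4) (.s true (nat_lit 1) (nat_lit 3) (nat_lit 1) (nat_lit 2) (nat_lit 2) true (nat_lit 1) true (nat_lit 4) true (nat_lit 3) true (nat_lit 5) true (nat_lit 4) (.s true (nat_lit 1) (nat_lit 4) (nat_lit 2) (nat_lit 1) (nat_lit 1) true (nat_lit 1) true (nat_lit 5) true (nat_lit 2) true (nat_lit 4) true (nat_lit 5) (.s true (nat_lit 1) (nat_lit 5) (nat_lit 0) (nat_lit 1) (nat_lit 2) true (nat_lit 2) true (nat_lit 4) true (nat_lit 1) true (nat_lit 6) true (nat_lit 5) (.s true (nat_lit 1) (nat_lit 5) (nat_lit 0) (nat_lit 2) (nat_lit 1) true (nat_lit 3) true (nat_lit 5) true (nat_lit 1) true (nat_lit 6) true (nat_lit 4) (.e true (nat_lit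 8) (nat_lit 8) (nat_lit 5) (nat_lit 1) (.e false (nat_lit 8) (nat_lit 22) (nat_lit 1) (nat_lit 5) (.e true (nat_lit 8) (nat_lit 23) (nat_lit 1) (nat_lit 5) .nil)))))))) .leaf) (nat_lit 18438) (nat_lit 146) (.n (nat_lit 72) (nat_lit 8) (.p (nat_lit 75) (nat_lit 8) (.n (nat_lit 77) (nat_lit 8) (.p (nat_lit 80) (nat_lit 32) (.n (nat_lit 81) (nat_lit 8) (.p (nat_lit 82) (nat_lit 32) (.n (nat_lit 83) (nat_lit 8) (.n (nat_lit 84) (nat_lit 12) (.n (nat_lit 85) (nat_lit 8) (.n (nat_lit 86) (nat_lit 12) (.n (nat_lit 87) (nat_lit 20) (.n (nat_lit 89) (nat_lit 16) (.p (nat_lit 90) (nat_lit 4) (.n (nat_lit 91) (nat_lit 4) .z)))))))))))))) (.ct dAl_c291 (nat_lit 4) (nat_lit 3) (.s false (nat_lit 1) (nat_lit 5) (nat_lit 3) (nat_lit 2) (nat_lit 2) true (nat_lit 1) true (nat_lit 7) true (nat_lit 4) true (nat_lit 6) true (nat_lit 7) (.s false (nat_lit 1) (nat_lit 8) (nat_lit 2) (nat_lit 1) (nat_lit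 2) true (nat_lit 3) true (nat_lit 7) true (nat_lit 1) true (nat_lit 7) true (nat_lit 8) (.e false (nat_lit 4) (nat_lit 21) (nat_lit 5) (nat_lit 4) (.e true (nat_lit 4) (nat_lit 34) (nat_lit 3) (nat_lit 6) (.e true (nat_lit 4) (nat_lit 35) (nat_lit 3) (nat_lit 6) (.e false (nat_lit 8) (nat_lit 40) (nat_lit 2) (nat_lit 7) (.e false (nat_lit 4) (nat_lit 41) (nat_lit 2) (nat_lit 7) (.e true (nat_lit 4) (nat_lit 42) (nat_lit 2) (nat_lit 7) (.e true (nat_lit 4) (nat_lit 44) (nat_lit 2) (nat_lit 7) (.e false (nat_lit 4) (nat_lit 47) (nat_lit 2) (nat_lit 7) (.e false (nat_lit 4) (nat_lit 48) (nat_lit 1) (nat_lit 8) .nil)))))))))))) .leaf)) (nat_lit 19458) (nat_lit 43) (.p (nat_lit 38) (nat_lit 4) .z) .df (.nd (.nd (.nd .leaf (nat_lit 19462) (nat_lit 123) (.p (nat_lit 90) (nat_lit 4) .z) .df .leaf) (nat_lit 20482) (nat_lit 44) (.p (nat_lit 39) (nat_lit 4) .z) .df .leaf) (nat_lit 20486) (nat_lit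 124) (.p (nat_lit 91) (nat_lit 4) .z) .df (.nd (.nd .leaf (nat_lit 21505) (nat_lit 45) (.p (nat_lit 40) (nat_lit 4) .z) .df .leaf) (nat_lit 21506) (nat_lit 62) (.p (nat_lit 48) (nat_lit 4) .z) .df .leaf))) (nat_lit 21509) (nat_lit 130) (.n (nat_lit 72) (nat_lit 8) (.p (nat_lit 75) (nat_lit 4) (.n (nat_lit 77) (nat_lit 4) (.n (nat_lit 79) (nat_lit 4) (.p (nat_lit 80) (nat_lit 12) (.n (nat_lit 81) (nat_lit 4) (.p (nat_lit 82) (nat_lit 12) (.n (nat_lit 83) (nat_lit 4) (.n (nat_lit 84) (nat_lit 4) (.n (nat_lit 85) (nat_lit 4) (.n (nat_lit 86) (nat_lit 4) (.n (nat_lit 87) (nat_lit 4) (.n (nat_lit 89) (nat_lit 4) .z))))))))))))) (.ct dAl_c291 (nat_lit 4) (nat_lit 4) (.s false (nat_lit 1) (nat_lit 5) (nat_lit 0) (nat_lit 2) (nat_lit 5) true (nat_lit 1) true (nat_lit 4) true (nat_lit 4) true (nat_lit 9) true (nat_lit 7) (.s false (nat_lit 2) (nat_lit 5) (nat_lit 1) (nat_lit 4) (nat_lit 2)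 true (nat_lit 4) true (nat_lit 7) true (nat_lit 4) true (nat_lit 8) true (nat_lit 5) (.s true (nat_lit 1) (nat_lit 5) (nat_lit 2) (nat_lit 1) (nat_lit 4) false (nat_lit 0) true (nat_lit 5) true (nat_lit 4) true (nat_lit 7) true (nat_lit 8) (.s true (nat_lit 1) (nat_lit 8) (nat_lit 1) (nat_lit 2) (nat_lit 2) true (nat_lit 4) true (nat_lit 7) true (nat_lit 1) true (nat_lit 8) true (nat_lit 7) (.s false (nat_lit 1) (nat_lit 10) (nat_lit 1) (nat_lit 2) (nat_lit 2) true (nat_lit 4) true (nat_lit 7) true (nat_lit 1) true (nat_lit 8) true (nat_lit 7) (.s false (nat_lit 1) (nat_lit 12) (nat_lit 1) (nat_lit 2) (nat_lit 1) false (nat_lit 10) true (nat_lit 8) false (nat_lit 0) true (nat_lit 8) true (nat_lit 7) (.s true (nat_lit 1) (nat_lit 14) (nat_lit 0) (nat_lit 1) (nat_lit 2) true (nat_lit 5) true (nat_lit 7) false (nat_lit 1) true (nat_lit 9) true (nat_lit 8) (.e false (nat_lit 8) (nat_lit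 23) (nat_lit 5) (nat_lit 4) (.e true (nat_lit 8) (nat_lit 22) (nat_lit 5) (nat_lit 4) (.e true (nat_lit 4) (nat_lit 40) (nat_lit 2) (nat_lit 7) (.e true (nat_lit 8) (nat_lit 41) (nat_lit 2) (nat_lit 7) (.e false (nat_lit 8) (nat_lit 42) (nat_lit 2) (nat_lit 7) (.e true (nat_lit 4) (nat_lit 53) (nat_lit 1) (nat_lit 8) (.e false (nat_lit 4) (nat_lit 57) (nat_lit 1) (nat_lit 8) (.e false (nat_lit 4) (nat_lit 51) (nat_lit 1) (nat_lit 8) .nil)))))))))))))))) (.nd (.nd (.nd (.nd .leaf (nat_lit 21510) (nat_lit 174) (.p (nat_lit 94) (nat_lit 8) (.p (nat_lit 96) (nat_lit 8) (.n (nat_lit 99) (nat_lit 4) (.n (nat_lit 100) (nat_lit 8) (.n (nat_lit 101) (nat_lit 4) (.p (nat_lit 102) (nat_lit 4) (.p (nat_lit 103) (nat_lit 4) (.p (nat_lit 104) (nat_lit 4) (.p (nat_lit 105) (nat_lit 8) (.n (nat_lit 106) (nat_lit 4) .z)))))))))) (.ct dAl_c276 (nat_lit 8) (nat_lit 2) (.s true (nat_lit 2) (nat_lit 6)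 (nat_lit 3) (nat_lit 2) (nat_lit 2) true (nat_lit 1) true (nat_lit 6) true (nat_lit 2) true (nat_lit 5) true (nat_lit 6) (.s true (nat_lit 1) (nat_lit 16) (nat_lit 0) (nat_lit 1) (nat_lit 2) true (nat_lit 4) true (nat_lit 6) false (nat_lit 1) true (nat_lit 8) true (nat_lit 7) (.s false (nat_lit 1) (nat_lit 16) (nat_lit 1) (nat_lit 0) (nat_lit 2) true (nat_lit 3) true (nat_lit 6) false (nat_lit 1) true (nat_lit 7) true (nat_lit 8) (.e false (nat_lit 4) (nat_lit 49) (nat_lit 2) (nat_lit 6) (.e false (nat_lit 4) (nat_lit 50) (nat_lit 2) (nat_lit 6) (.e false (nat_lit 4) (nat_lit 51) (nat_lit 2) (nat_lit 6) (.e false (nat_lit 4) (nat_lit 53) (nat_lit 2) (nat_lit 6) (.e false (nat_lit 8) (nat_lit 57) (nat_lit 2) (nat_lit 6) (.e true (nat_lit 4) (nat_lit 35) (nat_lit 4) (nat_lit 4) (.e true (nat_lit 8) (nat_lit 55) (nat_lit 2) (nat_lit 6) (.e false (nat_lit 4) (nat_lit 70) (nat_lit 0) (nat_lit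 8) (.e false (nat_lit 4) (nat_lit 32) (nat_lit 5) (nat_lit 3) (.e true (nat_lit 4) (nat_lit 54) (nat_lit 2) (nat_lit 6) (.e true (nat_lit 4) (nat_lit 56) (nat_lit 2) (nat_lit 6) (.e true (nat_lit 4) (nat_lit 66) (nat_lit 1) (nat_lit 7) .nil)))))))))))))))) .leaf) (nat_lit 22529) (nat_lit 46) (.p (nat_lit 41) (nat_lit 4) .z) .df (.nd .leaf (nat_lit 22530) (nat_lit 63) (.p (nat_lit 49) (nat_lit 4) .z) .df .leaf)) (nat_lit 22533) (nat_lit 125) (.p (nat_lit 92) (nat_lit 4) .z) .df (.nd (.nd .leaf (nat_lit 22534) (nat_lit 177) (.p (nat_lit 93) (nat_lit 12) (.p (nat_lit 94) (nat_lit 12) (.n (nat_lit 97) (nat_lit 12) (.p (nat_lit 98) (nat_lit 12) (.n (nat_lit 99) (nat_lit 2) (.p (nat_lit 100) (nat_lit 2) (.n (nat_lit 101) (nat_lit 2) (.p (nat_lit 103) (nat_lit 2) (.p (nat_lit 104) (nat_lit 2) (.n (nat_lit 105) (nat_lit 2) (.p (nat_lit 106) (nat_lit 2) (.n (nat_lit 108) (nat_lit 2) .z))))))))))))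 (.ct dAl_c276 (nat_lit 4) (nat_lit 2) (.s true (nat_lit 1) (nat_lit 9) (nat_lit 2) (nat_lit 2) (nat_lit 2) true (nat_lit 2) true (nat_lit 6) true (nat_lit 1) true (nat_lit 6) true (nat_lit 6) (.s false (nat_lit 1) (nat_lit 16) (nat_lit 2) (nat_lit 0) (nat_lit 1) true (nat_lit 3) true (nat_lit 7) false (nat_lit 1) true (nat_lit 6) true (nat_lit 8) (.e false (nat_lit 16) (nat_lit 49) (nat_lit 2) (nat_lit 6) (.e false (nat_lit 8) (nat_lit 48) (nat_lit 2) (nat_lit 6) (.e true (nat_lit 8) (nat_lit 50) (nat_lit 2) (nat_lit 6) (.e false (nat_lit 8) (nat_lit 51) (nat_lit 2) (nat_lit 6) (.e true (nat_lit 4) (nat_lit 52) (nat_lit 2) (nat_lit 6) (.e true (nat_lit 4) (nat_lit 55) (nat_lit 2) (nat_lit 6) (.e true (nat_lit 8) (nat_lit 57) (nat_lit 2) (nat_lit 6) (.e true (nat_lit 4) (nat_lit 32) (nat_lit 5) (nat_lit 3) (.e false (nat_lit 4) (nat_lit 67) (nat_lit 1) (nat_lit 7) (.e true (nat_lit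 4) (nat_lit 70) (nat_lit 0) (nat_lit 8) .nil))))))))))))) .leaf) (nat_lit 23553) (nat_lit 47) (.p (nat_lit 42) (nat_lit 4) .z) .df .leaf)) (nat_lit 23554) (nat_lit 64) (.p (nat_lit 50) (nat_lit 4) .z) .df (.nd (.nd (.nd .leaf (nat_lit 23557) (nat_lit 127) (.n (nat_lit 72) (nat_lit 2) (.p (nat_lit 73) (nat_lit 4) (.n (nat_lit 74) (nat_lit 4) (.p (nat_lit 75) (nat_lit 2) (.n (nat_lit 77) (nat_lit 2) (.n (nat_lit 79) (nat_lit 2) (.p (nat_lit 80) (nat_lit 6) (.n (nat_lit 81) (nat_lit 2) (.p (nat_lit 82) (nat_lit 4) (.n (nat_lit 84) (nat_lit 2) (.n (nat_lit 85) (nat_lit 2) (.n (nat_lit 86) (nat_lit 2) (.n (nat_lit 87) (nat_lit 4) (.n (nat_lit 89) (nat_lit 2) (.p (nat_lit 92) (nat_lit 4) .z))))))))))))))) (.ct dAl_c291 (nat_lit 16) (nat_lit 4) (.s true (nat_lit 2) (nat_lit 5) (nat_lit 0) (nat_lit 2) (nat_lit 5) true (nat_lit 1) true (nat_lit 4) true (nat_lit 4) true (nat_lit 9) true (nat_lit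 7) dAl_i0)) .leaf) (nat_lit 23558) (nat_lit 181) (.p (nat_lit 93) (nat_lit 4) (.p (nat_lit 94) (nat_lit 12) (.p (nat_lit 96) (nat_lit 8) (.n (nat_lit 97) (nat_lit 4) (.p (nat_lit 98) (nat_lit 4) (.n (nat_lit 99) (nat_lit 2) (.n (nat_lit 100) (nat_lit 6) (.n (nat_lit 101) (nat_lit 2) (.p (nat_lit 103) (nat_lit 6) (.p (nat_lit 104) (nat_lit 6) (.p (nat_lit 105) (nat_lit 6) (.n (nat_lit 106) (nat_lit 6) (.n (nat_lit 108) (nat_lit 2) .z))))))))))))) (.ct dAl_c276 (nat_lit 4) (nat_lit 2) (.s false (nat_lit 1) (nat_lit 6) (nat_lit 0) (nat_lit 6) (nat_lit 1) true (nat_lit 5) true (nat_lit 7) true (nat_lit 2) true (nat_lit 8) true (nat_lit 2) (.e false (nat_lit 8) (nat_lit 65) (nat_lit 1) (nat_lit 7) (.e false (nat_lit 8) (nat_lit 66) (nat_lit 1) (nat_lit 7) (.e true (nat_lit 8) (nat_lit 25) (nat_lit 6) (nat_lit 2) (.e false (nat_lit 8) (nat_lit 69) (nat_lit 0) (nat_lit 8) (.e false (nat_lit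 8) (nat_lit 70) (nat_lit 0) (nat_lit 8) (.e false (nat_lit 8) (nat_lit 21) (nat_lit 6) (nat_lit 2) (.e false (nat_lit 4) (nat_lit 22) (nat_lit 6) (nat_lit 2) (.e true (nat_lit 4) (nat_lit 24) (nat_lit 6) (nat_lit 2) (.e false (nat_lit 4) (nat_lit 26) (nat_lit 6) (nat_lit 2) .nil))))))))))) .leaf) (nat_lit 24577) (nat_lit 48) (.p (nat_lit 43) (nat_lit 4) .z) .df (.nd (.nd .leaf (nat_lit 24578) (nat_lit 65) (.p (nat_lit 51) (nat_lit 4) .z) .df .leaf) (nat_lit 24581) (nat_lit 139) (.n (nat_lit 75) (nat_lit 4) (.p (nat_lit 79) (nat_lit 4) (.p (nat_lit 80) (nat_lit 4) (.n (nat_lit 81) (nat_lit 4) (.n (nat_lit 82) (nat_lit 4) (.p (nat_lit 84) (nat_lit 4) (.n (nat_lit 87) (nat_lit 4) (.n (nat_lit 88) (nat_lit 8) .z)))))))) (.ct dAl_c291 (nat_lit 4) (nat_lit 4) (.s true (nat_lit 1) (nat_lit 12) (nat_lit 1) (nat_lit 1) (nat_lit 2) true (nat_lit 4) true (nat_lit 7) false (nat_lit 0) true (nat_lit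 8) true (nat_lit 8) (.e true (nat_lit 4) (nat_lit 43) (nat_lit 2) (nat_lit 7) (.e true (nat_lit 8) (nat_lit 58) (nat_lit 1) (nat_lit 8) (.e false (nat_lit 4) (nat_lit 48) (nat_lit 1) (nat_lit 8) (.e false (nat_lit 4) (nat_lit 49) (nat_lit 1) (nat_lit 8) (.e true (nat_lit 4) (nat_lit 50) (nat_lit 1) (nat_lit 8) (.e true (nat_lit 4) (nat_lit 51) (nat_lit 1) (nat_lit 8) (.e false (nat_lit 4) (nat_lit 54) (nat_lit 1) (nat_lit 8) (.e true (nat_lit 4) (nat_lit 57) (nat_lit 1) (nat_lit 8) .nil)))))))))) .leaf))))))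

noncomputable def dAl_t1 : Tr := (.nd (.nd (.nd (.nd (.nd (.nd (.nd .leaf (nat_lit 25601) (nat_lit 49) (.p (nat_lit 44) (nat_lit 4) .z) .df .leaf) (nat_lit 25602) (nat_lit 66) (.p (nat_lit 52) (nat_lit 4) .z) .df (.nd .leaf (nat_lit 25605) (nat_lit 140) (.n (nat_lit 73) (nat_lit 4) (.n (nat_lit 76) (nat_lit 4) (.n (nat_lit 79) (nat_lit 4) (.n (nat_lit 80) (nat_lit 4) (.p (nat_lit 82) (nat_lit 4) (.n (nat_lit 83) (nat_lit 4) (.p (nat_lit 84) (nat_lit 4) (.p (nat_lit 86) (nat_lit 4) (.p (nat_lit 87) (nat_lit 4) (.n (nat_lit 92) (nat_lit 4) .z)))))))))) (.ct dAl_c291 (nat_lit 4) (nat_lit 4) (.s true (nat_lit 1) (nat_lit 13) (nat_lit 1) (nat_lit 1) (nat_lit 2) true (nat_lit 4) true (nat_lit 7) false (nat_lit 0) true (nat_lit 8) true (nat_lit 8) (.e true (nat_lit 4) (nat_lit 44) (nat_lit 2) (nat_lit 7) (.e true (nat_lit 8) (nat_lit 48) (nat_lit 1) (nat_lit 8) (.e true (nat_lit 8) (nat_lit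 49) (nat_lit 1) (nat_lit 8) (.e false (nat_lit 4) (nat_lit 52) (nat_lit 1) (nat_lit 8) (.e true (nat_lit 8) (nat_lit 53) (nat_lit 1) (nat_lit 8) (.e false (nat_lit 4) (nat_lit 56) (nat_lit 1) (nat_lit 8) (.e false (nat_lit 4) (nat_lit 57) (nat_lit 1) (nat_lit 8) (.e false (nat_lit 4) (nat_lit 54) (nat_lit 1) (nat_lit 8) .nil)))))))))) .leaf)) (nat_lit 25606) (nat_lit 168) (.p (nat_lit 106) (nat_lit 4) .z) .df (.nd (.nd .leaf (nat_lit 26625) (nat_lit 50) (.p (nat_lit 45) (nat_lit 4) .z) .df .leaf) (nat_lit 26626) (nat_lit 67) (.p (nat_lit 53) (nat_lit 4) .z) .df .leaf)) (nat_lit 26629) (nat_lit 128) (.p (nat_lit 72) (nat_lit 10) (.n (nat_lit 75) (nat_lit 10) (.p (nat_lit 77) (nat_lit 6) (.p (nat_lit 79) (nat_lit 6) (.n (nat_lit 80) (nat_lit 14) (.p (nat_lit 81) (nat_lit 2) (.n (nat_lit 82) (nat_lit 20) (.p (nat_lit 83) (nat_lit 4) (.p (nat_lit 84) (nat_lit 10) (.p (nat_lit 85) (nat_lit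 2) (.p (nat_lit 86) (nat_lit 6) (.p (nat_lit 87) (nat_lit 4) (.n (nat_lit 88) (nat_lit 8) (.p (nat_lit 89) (nat_lit 10) .z)))))))))))))) (.ct dAl_c291 (nat_lit 4) (nat_lit 4) (.s false (nat_lit 1) (nat_lit 6) (nat_lit 4) (nat_lit 1) (nat_lit 1) true (nat_lit 1) true (nat_lit 8) true (nat_lit 3) true (nat_lit 5) true (nat_lit 8) (.s true (nat_lit 1) (nat_lit 6) (nat_lit 5) (nat_lit 0) (nat_lit 1) true (nat_lit 0) true (nat_lit 8) true (nat_lit 3) true (nat_lit 4) true (nat_lit 9) (.s true (nat_lit 1) (nat_lit 12) (nat_lit 1) (nat_lit 1) (nat_lit 2) true (nat_lit 4) true (nat_lit 7) false (nat_lit 0) true (nat_lit 8) true (nat_lit 8) (.s false (nat_lit 1) (nat_lit 13) (nat_lit 1) (nat_lit 1) (nat_lit 2) true (nat_lit 4) true (nat_lit 7) false (nat_lit 0) true (nat_lit 8) true (nat_lit 8) (.s false (nat_lit 1) (nat_lit 13) (nat_lit 2) (nat_lit 1) (nat_lit 1) true (nat_lit 4) true (nat_lit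 8) false (nat_lit 0) true (nat_lit 7) true (nat_lit 8) (.s false (nat_lit 1) (nat_lit 15) (nat_lit 0) (nat_lit 2) (nat_lit 1) true (nat_lit 6) true (nat_lit 8) false (nat_lit 1) true (nat_lit 9) true (nat_lit 7) (.e true (nat_lit 8) (nat_lit 55) (nat_lit 1) (nat_lit 8) (.e false (nat_lit 4) (nat_lit 19) (nat_lit 6) (nat_lit 3) (.e false (nat_lit 8) (nat_lit 49) (nat_lit 1) (nat_lit 8) (.e false (nat_lit 4) (nat_lit 53) (nat_lit 1) (nat_lit 8) (.e true (nat_lit 12) (nat_lit 57) (nat_lit 1) (nat_lit 8) (.e true (nat_lit 4) (nat_lit 20) (nat_lit 6) (nat_lit 3) (.e false (nat_lit 4) (nat_lit 22) (nat_lit 5) (nat_lit 4) (.e true (nat_lit 4) (nat_lit 23) (nat_lit 5) (nat_lit 4) (.e true (nat_lit 4) (nat_lit 43) (nat_lit 2) (nat_lit 7) (.e true (nat_lit 8) (nat_lit 58) (nat_lit 1) (nat_lit 8) (.e false (nat_lit 4) (nat_lit 48) (nat_lit 1) (nat_lit 8) (.e false (nat_lit 4) (nat_lit 44) (nat_lit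 2) (nat_lit 7) (.e true (nat_lit 4) (nat_lit 56) (nat_lit 1) (nat_lit 8) (.e false (nat_lit 4) (nat_lit 34) (nat_lit 3) (nat_lit 6) (.e true (nat_lit 4) (nat_lit 47) (nat_lit 2) (nat_lit 7) .nil)))))))))))))))))))))) (.nd (.nd (.nd .leaf (nat_lit 26630) (nat_lit 175) (.n (nat_lit 93) (nat_lit 4) (.n (nat_lit 94) (nat_lit 16) (.p (nat_lit 95) (nat_lit 4) (.n (nat_lit 96) (nat_lit 12) (.p (nat_lit 97) (nat_lit 4) (.p (nat_lit 99) (nat_lit 6) (.p (nat_lit 100) (nat_lit 10) (.p (nat_lit 101) (nat_lit 6) (.n (nat_lit 102) (nat_lit 4) (.n (nat_lit 103) (nat_lit 10) (.n (nat_lit 104) (nat_lit 10) (.n (nat_lit 105) (nat_lit 10) (.p (nat_lit 106) (nat_lit 10) (.p (nat_lit 108) (nat_lit 6) .z)))))))))))))) (.ct dAl_c276 (nat_lit 8) (nat_lit 2) (.s false (nat_lit 1) (nat_lit 6) (nat_lit 0) (nat_lit 6) (nat_lit 1) true (nat_lit 5) true (nat_lit 7) true (nat_lit 2) true (nat_lit 8) true (nat_lit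 2) (.s false (nat_lit 2) (nat_lit 6) (nat_lit 1) (nat_lit 0) (nat_lit 6) false (nat_lit 0) true (nat_lit 2) true (nat_lit 2) true (nat_lit 7) true (nat_lit 8) (.s false (nat_lit 1) (nat_lit 6) (nat_lit 2) (nat_lit 2) (nat_lit 3) true (nat_lit 1) true (nat_lit 5) true (nat_lit 2) true (nat_lit 6) true (nat_lit 6) (.s true (nat_lit 2) (nat_lit 6) (nat_lit 4) (nat_lit 2) (nat_lit 1) true (nat_lit 1) true (nat_lit 7) true (nat_lit 2) true (nat_lit 4) true (nat_lit 6) (.s true (nat_lit 2) (nat_lit 15) (nat_lit 2) (nat_lit 2) (nat_lit 0) true (nat_lit 4) true (nat_lit 8) false (nat_lit 0) true (nat_lit 6) true (nat_lit 6) (.s false (nat_lit 1) (nat_lit 16) (nat_lit 0) (nat_lit 1) (nat_lit 2) true (nat_lit 4) true (nat_lit 6) false (nat_lit 1) true (nat_lit 8) true (nat_lit 7) (.s false (nat_lit 1) (nat_lit 16) (nat_lit 1) (nat_lit 2) (nat_lit 0) true (nat_lit 5) true (nat_lit 8) false (nat_lit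 1) true (nat_lit 7) true (nat_lit 6) (.s true (nat_lit 2) (nat_lit 16) (nat_lit 2) (nat_lit 0) (nat_lit 1) true (nat_lit 3) true (nat_lit 7) false (nat_lit 1) true (nat_lit 6) true (nat_lit 8) (.s false (nat_lit 1) (nat_lit 16) (nat_lit 2) (nat_lit 1) (nat_lit 0) true (nat_lit 4) true (nat_lit 8) false (nat_lit 1) true (nat_lit 6) true (nat_lit 7) (.e false (nat_lit 16) (nat_lit 70) (nat_lit 0) (nat_lit 8) (.e true (nat_lit 8) (nat_lit 21) (nat_lit 6) (nat_lit 2) (.e false (nat_lit 16) (nat_lit 57) (nat_lit 2) (nat_lit 6) (.e true (nat_lit 16) (nat_lit 49) (nat_lit 2) (nat_lit 6) (.e false (nat_lit 16) (nat_lit 50) (nat_lit 2) (nat_lit 6) (.e false (nat_lit 8) (nat_lit 35) (nat_lit 4) (nat_lit 4) (.e false (nat_lit 8) (nat_lit 52) (nat_lit 2) (nat_lit 6) (.e true (nat_lit 16) (nat_lit 48) (nat_lit 2) (nat_lit 6) (.e true (nat_lit 8) (nat_lit 67) (nat_lit 1) (nat_lit 7) (.e false (nat_lit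 8) (nat_lit 32) (nat_lit 5) (nat_lit 3) .nil)))))))))))))))))))) .leaf) (nat_lit 27648) (nat_lit 51) (.p (nat_lit 46) (nat_lit 4) .z) .df (.nd .leaf (nat_lit 27650) (nat_lit 82) (.p (nat_lit 59) (nat_lit 4) .z) .df .leaf)) (nat_lit 27652) (nat_lit 145) (.p (nat_lit 75) (nat_lit 4) (.n (nat_lit 76) (nat_lit 6) (.n (nat_lit 79) (nat_lit 4) (.p (nat_lit 80) (nat_lit 4) (.p (nat_lit 82) (nat_lit 12) (.n (nat_lit 83) (nat_lit 4) (.n (nat_lit 84) (nat_lit 2) (.p (nat_lit 86) (nat_lit 2) (.p (nat_lit 87) (nat_lit 2) (.p (nat_lit 88) (nat_lit 4) (.n (nat_lit 89) (nat_lit 6) (.n (nat_lit 90) (nat_lit 2) (.n (nat_lit 92) (nat_lit 8) .z))))))))))))) (.ct dAl_c291 (nat_lit 4) (nat_lit 5) (.s true (nat_lit 1) (nat_lit 5) (nat_lit 1) (nat_lit 2) (nat_lit 4) true (nat_lit 1) true (nat_lit 5) true (nat_lit 4) true (nat_lit 8) true (nat_lit 7) (.s false (nat_lit 1) (nat_lit 9) (nat_lit 2) (nat_lit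 1) (nat_lit 2) true (nat_lit 3) true (nat_lit 7) true (nat_lit 1) true (nat_lit 7) true (nat_lit 8) (.e true (nat_lit 4) (nat_lit 21) (nat_lit 5) (nat_lit 4) (.e true (nat_lit 4) (nat_lit 22) (nat_lit 5) (nat_lit 4) (.e false (nat_lit 4) (nat_lit 25) (nat_lit 5) (nat_lit 4) (.e true (nat_lit 4) (nat_lit 26) (nat_lit 5) (nat_lit 4) (.e true (nat_lit 4) (nat_lit 58) (nat_lit 1) (nat_lit 8) (.e false (nat_lit 4) (nat_lit 41) (nat_lit 2) (nat_lit 7) (.e true (nat_lit 4) (nat_lit 19) (nat_lit 6) (nat_lit 3) (.e false (nat_lit 4) (nat_lit 38) (nat_lit 2) (nat_lit 7) (.e true (nat_lit 4) (nat_lit 43) (nat_lit 2) (nat_lit 7) (.e false (nat_lit 4) (nat_lit 49) (nat_lit 1) (nat_lit 8) .nil))))))))))))) (.nd (.nd .leaf (nat_lit 27654) (nat_lit 202) (.p (nat_lit 111) (nat_lit 8) (.p (nat_lit 112) (nat_lit 8) (.p (nat_lit 113) (nat_lit 8) (.n (nat_lit 114) (nat_lit 4) .z)))) (.ct dAl_c36 (nat_lit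 4) (nat_lit 2) (.s false (nat_lit 1) (nat_lit 6) (nat_lit 1) (nat_lit 5) (nat_lit 2) true (nat_lit 3) true (nat_lit 4) true (nat_lit 2) true (nat_lit 5) true (nat_lit 3) (.s true (nat_lit 1) (nat_lit 15) (nat_lit 2) (nat_lit 2) (nat_lit 1) true (nat_lit 3) true (nat_lit 5) true (nat_lit 0) true (nat_lit 4) true (nat_lit 4) (.a true (nat_lit 8) (nat_lit 15) (nat_lit 15) (nat_lit 0) (nat_lit 0) (.e true (nat_lit 8) (nat_lit 34) (nat_lit 5) (nat_lit 3) (.e false (nat_lit 4) (nat_lit 60) (nat_lit 2) (nat_lit 4) (.e true (nat_lit 4) (nat_lit 71) (nat_lit 1) (nat_lit 5) .nil))))))) .leaf) (nat_lit 28672) (nat_lit 56) (.p (nat_lit 37) (nat_lit 8) (.p (nat_lit 39) (nat_lit 8) (.n (nat_lit 40) (nat_lit 8) (.n (nat_lit 41) (nat_lit 12) (.p (nat_lit 42) (nat_lit 4) (.n (nat_lit 43) (nat_lit 4) (.p (nat_lit 44) (nat_lit 8) (.n (nat_lit 45) (nat_lit 4) (.n (nat_lit 46) (nat_lit 4) .z))))))))) (.ct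 dAl_c290 (nat_lit 4) (nat_lit 6) (.s false (nat_lit 1) (nat_lit 4) (nat_lit 2) (nat_lit 1) (nat_lit 1) true (nat_lit 1) true (nat_lit 5) true (nat_lit 2) true (nat_lit 4) true (nat_lit 5) (.s false (nat_lit 1) (nat_lit 5) (nat_lit 0) (nat_lit 1) (nat_lit 2) true (nat_lit 2) true (nat_lit 4) true (nat_lit 1) true (nat_lit 6) true (nat_lit 5) (.e true (nat_lit 4) (nat_lit 9) (nat_lit 5) (nat_lit 1) (.e false (nat_lit 4) (nat_lit 24) (nat_lit 1) (nat_lit 5) (.e true (nat_lit 4) (nat_lit 22) (nat_lit 1) (nat_lit 5) (.e false (nat_lit 4) (nat_lit 20) (nat_lit 2) (nat_lit 4) (.e false (nat_lit 4) (nat_lit 8) (nat_lit 5) (nat_lit 1) (.e true (nat_lit 4) (nat_lit 27) (nat_lit 0) (nat_lit 6) (.e false (nat_lit 4) (nat_lit 29) (nat_lit 0) (nat_lit 6) (.e true (nat_lit 4) (nat_lit 26) (nat_lit 1) (nat_lit 5) .nil))))))))))) .leaf))) (nat_lit 28674) (nat_lit 89) (.n (nat_lit 59) (nat_lit 4) (.p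 (nat_lit 62) (nat_lit 4) (.p (nat_lit 63) (nat_lit 4) .z))) (.ct dAl_c35 (nat_lit 4) (nat_lit 2) (.s true (nat_lit 1) (nat_lit 5) (nat_lit 1) (nat_lit 2) (nat_lit 2) true (nat_lit 1) true (nat_lit 2) true (nat_lit 1) true (nat_lit 3) true (nat_lit 2) (.e true (nat_lit 4) (nat_lit 27) (nat_lit 2) (nat_lit 2) (.e false (nat_lit 4) (nat_lit 34) (nat_lit 1) (nat_lit 3) (.e false (nat_lit 4) (nat_lit 35) (nat_lit 1) (nat_lit 3) .nil))))) (.nd (.nd (.nd (.nd .leaf (nat_lit 28676) (nat_lit 144) (.p (nat_lit 72) (nat_lit 4) (.p (nat_lit 73) (nat_lit 12) (.n (nat_lit 75) (nat_lit 8) (.p (nat_lit 76) (nat_lit 2) (.p (nat_lit 77) (nat_lit 4) (.p (nat_lit 79) (nat_lit 4) (.n (nat_lit 82) (nat_lit 12) (.p (nat_lit 83) (nat_lit 4) (.p (nat_lit 84) (nat_lit 2) (.n (nat_lit 86) (nat_lit 2) (.n (nat_lit 87) (nat_lit 2) (.n (nat_lit 88) (nat_lit 12) (.p (nat_lit 89) (nat_lit 6) (.n (nat_lit 90) (nat_lit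 2) (.p (nat_lit 92) (nat_lit 12) .z))))))))))))))) (.ct dAl_c291 (nat_lit 4) (nat_lit 5) (.s true (nat_lit 1) (nat_lit 5) (nat_lit 1) (nat_lit 4) (nat_lit 2) true (nat_lit 4) true (nat_lit 7) true (nat_lit 4) true (nat_lit 8) true (nat_lit 5) (.e false (nat_lit 4) (nat_lit 21) (nat_lit 5) (nat_lit 4) (.e false (nat_lit 8) (nat_lit 22) (nat_lit 5) (nat_lit 4) (.e true (nat_lit 4) (nat_lit 25) (nat_lit 5) (nat_lit 4) (.e false (nat_lit 4) (nat_lit 26) (nat_lit 5) (nat_lit 4) (.e true (nat_lit 4) (nat_lit 38) (nat_lit 2) (nat_lit 7) (.e false (nat_lit 4) (nat_lit 40) (nat_lit 2) (nat_lit 7) (.e false (nat_lit 8) (nat_lit 41) (nat_lit 2) (nat_lit 7) (.e true (nat_lit 4) (nat_lit 44) (nat_lit 2) (nat_lit 7) (.e false (nat_lit 4) (nat_lit 45) (nat_lit 2) (nat_lit 7) (.e true (nat_lit 4) (nat_lit 58) (nat_lit 1) (nat_lit 8) .nil)))))))))))) .leaf) (nat_lit 28678) (nat_lit 199) (.p (nat_lit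 114) (nat_lit 4) .z) .df (.nd .leaf (nat_lit 29696) (nat_lit 52) (.p (nat_lit 47) (nat_lit 4) .z) .df .leaf)) (nat_lit 29698) (nat_lit 83) (.p (nat_lit 60) (nat_lit 4) .z) .df (.nd (.nd .leaf (nat_lit 29700) (nat_lit 143) (.p (nat_lit 73) (nat_lit 8) (.p (nat_lit 80) (nat_lit 8) (.n (nat_lit 84) (nat_lit 4) (.n (nat_lit 85) (nat_lit 4) (.n (nat_lit 90) (nat_lit 4) (.p (nat_lit 92) (nat_lit 8) .z)))))) (.ct dAl_c291 (nat_lit 4) (nat_lit 5) (.s true (nat_lit 1) (nat_lit 5) (nat_lit 1) (nat_lit 2) (nat_lit 4) true (nat_lit 1) true (nat_lit 5) true (nat_lit 4) true (nat_lit 8) true (nat_lit 7) (.s true (nat_lit 1) (nat_lit 5) (nat_lit 1) (nat_lit 4) (nat_lit 2) true (nat_lit 4) true (nat_lit 7) true (nat_lit 4) true (nat_lit 8) true (nat_lit 5) (.s false (nat_lit 1) (nat_lit 5) (nat_lit 4) (nat_lit 1) (nat_lit 2) false (nat_lit 0) true (nat_lit 7) true (nat_lit 4) true (nat_lit 5) true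 (nat_lit 8) (.s false (nat_lit 1) (nat_lit 9) (nat_lit 2) (nat_lit 1) (nat_lit 2) true (nat_lit 3) true (nat_lit 7) true (nat_lit 1) true (nat_lit 7) true (nat_lit 8) (.s true (nat_lit 1) (nat_lit 12) (nat_lit 1) (nat_lit 2) (nat_lit 1) false (nat_lit 10) true (nat_lit 8) false (nat_lit 0) true (nat_lit 8) true (nat_lit 7) (.e false (nat_lit 8) (nat_lit 22) (nat_lit 5) (nat_lit 4) (.e false (nat_lit 8) (nat_lit 41) (nat_lit 2) (nat_lit 7) (.e false (nat_lit 8) (nat_lit 49) (nat_lit 1) (nat_lit 8) (.e true (nat_lit 4) (nat_lit 54) (nat_lit 1) (nat_lit 8) (.e true (nat_lit 4) (nat_lit 55) (nat_lit 1) (nat_lit 8) (.e true (nat_lit 4) (nat_lit 19) (nat_lit 6) (nat_lit 3) .nil)))))))))))) .leaf) (nat_lit 29702) (nat_lit 209) (.p (nat_lit 110) (nat_lit 4) (.n (nat_lit 112) (nat_lit 16) (.n (nat_lit 113) (nat_lit 12) (.p (nat_lit 114) (nat_lit 4) .z)))) (.ct dAl_c36 (nat_lit 4) (nat_lit 2)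 (.s true (nat_lit 1) (nat_lit 6) (nat_lit 1) (nat_lit 1) (nat_lit 6) true (nat_lit 0) true (nat_lit 2) true (nat_lit 2) true (nat_lit 5) true (nat_lit 5) (.a true (nat_lit 8) (nat_lit 15) (nat_lit 15) (nat_lit 0) (nat_lit 0) (.e false (nat_lit 8) (nat_lit 69) (nat_lit 1) (nat_lit 5) (.e false (nat_lit 8) (nat_lit 70) (nat_lit 1) (nat_lit 5) .nil))))) .leaf)) (nat_lit 30721) (nat_lit 80) (.p (nat_lit 48) (nat_lit 4) (.p (nat_lit 49) (nat_lit 4) (.n (nat_lit 50) (nat_lit 4) (.n (nat_lit 51) (nat_lit 4) (.p (nat_lit 54) (nat_lit 4) (.n (nat_lit 57) (nat_lit 4) (.n (nat_lit 58) (nat_lit 4) .z))))))) (.ct dAl_c275 (nat_lit 4) (nat_lit 5) (.s true (nat_lit 1) (nat_lit 4) (nat_lit 2) (nat_lit 2) (nat_lit 1) true (nat_lit 1) true (nat_lit 5) true (nat_lit 2) true (nat_lit 4) true (nat_lit 4) (.e true (nat_lit 4) (nat_lit 12) (nat_lit 5) (nat_lit 1) (.e true (nat_lit 4) (nat_lit 15) (nat_lit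 4) (nat_lit 2) (.e false (nat_lit 4) (nat_lit 21) (nat_lit 2) (nat_lit 4) (.e false (nat_lit 8) (nat_lit 22) (nat_lit 2) (nat_lit 4) (.e true (nat_lit 4) (nat_lit 25) (nat_lit 2) (nat_lit 4) (.e false (nat_lit 4) (nat_lit 26) (nat_lit 2) (nat_lit 4) .nil)))))))) (.nd (.nd (.nd .leaf (nat_lit 30722) (nat_lit 91) (.p (nat_lit 64) (nat_lit 4) .z) .df .leaf) (nat_lit 30725) (nat_lit 169) (.p (nat_lit 107) (nat_lit 4) .z) .df .leaf) (nat_lit 31745) (nat_lit 68) (.p (nat_lit 54) (nat_lit 4) .z) .df (.nd (.nd .leaf (nat_lit 31746) (nat_lit 92) (.p (nat_lit 65) (nat_lit 4) .z) .df .leaf) (nat_lit 31749) (nat_lit 178) (.n (nat_lit 93) (nat_lit 8) (.n (nat_lit 94) (nat_lit 8) (.p (nat_lit 97) (nat_lit 8) (.n (nat_lit 98) (nat_lit 8) (.p (nat_lit 101) (nat_lit 4) (.n (nat_lit 102) (nat_lit 4) (.n (nat_lit 103) (nat_lit 4) (.n (nat_lit 104) (nat_lit 8) (.n (nat_lit 105) (nat_lit 8) (.p (nat_lit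 106) (nat_lit 4) .z)))))))))) (.ct dAl_c276 (nat_lit 4) (nat_lit 3) (.s true (nat_lit 1) (nat_lit 13) (nat_lit 1) (nat_lit 2) (nat_lit 2) true (nat_lit 3) true (nat_lit 6) true (nat_lit 0) true (nat_lit 7) true (nat_lit 6) (.s true (nat_lit 1) (nat_lit 13) (nat_lit 2) (nat_lit 1) (nat_lit 2) true (nat_lit 2) true (nat_lit 6) true (nat_lit 0) true (nat_lit 6) true (nat_lit 7) (.e true (nat_lit 8) (nat_lit 52) (nat_lit 2) (nat_lit 6) (.e false (nat_lit 4) (nat_lit 65) (nat_lit 1) (nat_lit 7) (.e false (nat_lit 8) (nat_lit 66) (nat_lit 1) (nat_lit 7) (.e true (nat_lit 8) (nat_lit 54) (nat_lit 2) (nat_lit 6) (.e false (nat_lit 4) (nat_lit 25) (nat_lit 6) (nat_lit 2) (.e false (nat_lit 8) (nat_lit 48) (nat_lit 2) (nat_lit 6) (.e false (nat_lit 8) (nat_lit 49) (nat_lit 2) (nat_lit 6) (.e false (nat_lit 8) (nat_lit 53) (nat_lit 2) (nat_lit 6) (.e true (nat_lit 4) (nat_lit 56) (nat_lit 2)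 (nat_lit 6) (.e true (nat_lit 4) (nat_lit 57) (nat_lit 2) (nat_lit 6) .nil))))))))))))) .leaf)))) (nat_lit 32769) (nat_lit 69) (.p (nat_lit 55) (nat_lit 4) .z) .df (.nd (.nd (.nd (.nd (.nd .leaf (nat_lit 32770) (nat_lit 93) (.p (nat_lit 66) (nat_lit 4) .z) .df .leaf) (nat_lit 32773) (nat_lit 170) (.p (nat_lit 108) (nat_lit 4) .z) .df (.nd .leaf (nat_lit 33792) (nat_lit 81) (.n (nat_lit 48) (nat_lit 4) (.n (nat_lit 49) (nat_lit 8) (.p (nat_lit 50) (nat_lit 4) (.n (nat_lit 51) (nat_lit 4) (.n (nat_lit 53) (nat_lit 4) (.p (nat_lit 54) (nat_lit 4) (.p (nat_lit 55) (nat_lit 4) (.p (nat_lit 56) (nat_lit 4) (.p (nat_lit 57) (nat_lit 4) (.n (nat_lit 58) (nat_lit 4) .z)))))))))) (.ct dAl_c275 (nat_lit 4) (nat_lit 6) (.s true (nat_lit 1) (nat_lit 5) (nat_lit 2) (nat_lit 0) (nat_lit 2) true (nat_lit 0) true (nat_lit 4) true (nat_lit 1) true (nat_lit 4) true (nat_lit 6) (.e false (nat_lit 4) (nat_lit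 10) (nat_lit 6) (nat_lit 0) (.e true (nat_lit 8) (nat_lit 26) (nat_lit 2) (nat_lit 4) (.e true (nat_lit 4) (nat_lit 12) (nat_lit 5) (nat_lit 1) (.e true (nat_lit 4) (nat_lit 21) (nat_lit 2) (nat_lit 4) (.e true (nat_lit 4) (nat_lit 22) (nat_lit 2) (nat_lit 4) (.e false (nat_lit 4) (nat_lit 25) (nat_lit 2) (nat_lit 4) .nil)))))))) .leaf)) (nat_lit 33793) (nat_lit 84) (.p (nat_lit 61) (nat_lit 4) .z) .df (.nd (.nd .leaf (nat_lit 33794) (nat_lit 98) (.p (nat_lit 68) (nat_lit 4) .z) .df .leaf) (nat_lit 33795) (nat_lit 152) (.n (nat_lit 72) (nat_lit 14) (.p (nat_lit 73) (nat_lit 14) (.n (nat_lit 74) (nat_lit 8) (.p (nat_lit 75) (nat_lit 10) (.n (nat_lit 76) (nat_lit 2) (.n (nat_lit 77) (nat_lit 10) (.p (nat_lit 78) (nat_lit 2) (.n (nat_lit 79) (nat_lit 8) (.p (nat_lit 80) (nat_lit 34) (.n (nat_lit 81) (nat_lit 12) (.p (nat_lit 82) (nat_lit 32) (.n (nat_lit 83) (nat_lit 8) (.n (nat_lit 84)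 (nat_lit 12) (.n (nat_lit 85) (nat_lit 4) (.n (nat_lit 86) (nat_lit 14) (.n (nat_lit 87) (nat_lit 18) (.n (nat_lit 88) (nat_lit 4) (.n (nat_lit 89) (nat_lit 16) (.n (nat_lit 90) (nat_lit 2) (.p (nat_lit 91) (nat_lit 2) (.p (nat_lit 92) (nat_lit 6) .z))))))))))))))))))))) (.ct dAl_c291 (nat_lit 4) (nat_lit 6) (.s false (nat_lit 1) (nat_lit 14) (nat_lit 1) (nat_lit 2) (nat_lit 0) true (nat_lit 6) true (nat_lit 9) false (nat_lit 1) true (nat_lit 8) true (nat_lit 7) (.e true (nat_lit 4) (nat_lit 59) (nat_lit 0) (nat_lit 9) (.e false (nat_lit 4) (nat_lit 62) (nat_lit 0) (nat_lit 9) (.e false (nat_lit 4) (nat_lit 63) (nat_lit 0) (nat_lit 9) (.e false (nat_lit 4) (nat_lit 14) (nat_lit 10) (nat_lit 1) (.e true (nat_lit 4) (nat_lit 49) (nat_lit 1) (nat_lit 8) (.e true (nat_lit 4) (nat_lit 51) (nat_lit 1) (nat_lit 8) (.e false (nat_lit 4) (nat_lit 54) (nat_lit 1) (nat_lit 8) (.e false (nat_lit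 4) (nat_lit 55) (nat_lit 1) (nat_lit 8) (.e true (nat_lit 4) (nat_lit 58) (nat_lit 1) (nat_lit 8) (.e true (nat_lit 4) (nat_lit 45) (nat_lit 2) (nat_lit 7) .nil)))))))))))) .leaf)) (nat_lit 33796) (nat_lit 187) (.n (nat_lit 93) (nat_lit 4) (.p (nat_lit 94) (nat_lit 4) (.n (nat_lit 95) (nat_lit 4) (.p (nat_lit 96) (nat_lit 8) (.p (nat_lit 97) (nat_lit 4) (.n (nat_lit 98) (nat_lit 8) (.n (nat_lit 99) (nat_lit 2) (.n (nat_lit 100) (nat_lit 6) (.n (nat_lit 101) (nat_lit 2) (.p (nat_lit 103) (nat_lit 6) (.p (nat_lit 104) (nat_lit 6) (.p (nat_lit 105) (nat_lit 6) (.n (nat_lit 106) (nat_lit 6) (.n (nat_lit 107) (nat_lit 4) (.n (nat_lit 108) (nat_lit 6) .z))))))))))))))) (.ct dAl_c276 (nat_lit 4) (nat_lit 4) (.s true (nat_lit 1) (nat_lit 5) (nat_lit 2) (nat_lit 2) (nat_lit 4) true (nat_lit 0) true (nat_lit 4) true (nat_lit 3) true (nat_lit 6) true (nat_lit 6) (.e true (nat_lit 4) (nat_lit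 14) (nat_lit 12) (nat_lit 0) (.e true (nat_lit 4) (nat_lit 31) (nat_lit 5) (nat_lit 3) (.e true (nat_lit 4) (nat_lit 32) (nat_lit 5) (nat_lit 3) (.e true (nat_lit 4) (nat_lit 58) (nat_lit 2) (nat_lit 6) (.e true (nat_lit 4) (nat_lit 48) (nat_lit 2) (nat_lit 6) (.e true (nat_lit 4) (nat_lit 49) (nat_lit 2) (nat_lit 6) (.e false (nat_lit 4) (nat_lit 52) (nat_lit 2) (nat_lit 6) (.e true (nat_lit 4) (nat_lit 53) (nat_lit 2) (nat_lit 6) .nil)))))))))) (.nd (.nd (.nd .leaf (nat_lit 33797) (nat_lit 207) (.p (nat_lit 110) (nat_lit 2) (.n (nat_lit 111) (nat_lit 2) (.n (nat_lit 112) (nat_lit 6) (.n (nat_lit 113) (nat_lit 6) .z)))) (.ct dAl_c36 (nat_lit 4) (nat_lit 3) (.s true (nat_lit 1) (nat_lit 5) (nat_lit 2) (nat_lit 2) (nat_lit 5) true (nat_lit 0) true (nat_lit 3) true (nat_lit 3) true (nat_lit 4) true (nat_lit 4) (.a true (nat_lit 8) (nat_lit 14) (nat_lit 14) (nat_lit 0) (nat_lit 0) (.e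 true (nat_lit 4) (nat_lit 34) (nat_lit 5) (nat_lit 3) (.e true (nat_lit 4) (nat_lit 35) (nat_lit 5) (nat_lit 3) (.e true (nat_lit 4) (nat_lit 59) (nat_lit 2) (nat_lit 4) (.e false (nat_lit 4) (nat_lit 61) (nat_lit 2) (nat_lit 4) (.e true (nat_lit 4) (nat_lit 62) (nat_lit 2) (nat_lit 4) (.e false (nat_lit 4) (nat_lit 60) (nat_lit 2) (nat_lit 4) .nil))))))))) .leaf) (nat_lit 34816) (nat_lit 70) (.p (nat_lit 56) (nat_lit 4) .z) .df .leaf) (nat_lit 34817) (nat_lit 85) (.p (nat_lit 62) (nat_lit 4) .z) .df (.nd (.nd .leaf (nat_lit 34818) (nat_lit 99) (.p (nat_lit 69) (nat_lit 4) .z) .df .leaf) (nat_lit 34819) (nat_lit 126) (.p (nat_lit 72) (nat_lit 8) (.p (nat_lit 73) (nat_lit 4) (.n (nat_lit 74) (nat_lit 4) (.n (nat_lit 75) (nat_lit 4) (.n (nat_lit 76) (nat_lit 4) (.p (nat_lit 77) (nat_lit 4) (.p (nat_lit 78) (nat_lit 4) (.n (nat_lit 80) (nat_lit 16) (.n (nat_lit 82) (nat_lit 16) (.p (nat_lit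 84) (nat_lit 8) (.p (nat_lit 85) (nat_lit 8) (.p (nat_lit 86) (nat_lit 8) (.p (nat_lit 87) (nat_lit 12) (.p (nat_lit 89) (nat_lit 8) (.n (nat_lit 90) (nat_lit 4) (.p (nat_lit 91) (nat_lit 4) .z)))))))))))))))) (.ct dAl_c291 (nat_lit 4) (nat_lit 6) (.s true (nat_lit 1) (nat_lit 6) (nat_lit 1) (nat_lit 2) (nat_lit 3) true (nat_lit 2) true (nat_lit 6) true (nat_lit 3) true (nat_lit 8) true (nat_lit 7) (.s true (nat_lit 1) (nat_lit 7) (nat_lit 2) (nat_lit 2) (nat_lit 2) true (nat_lit 3) true (nat_lit 7) true (nat_lit 2) true (nat_lit 7) true (nat_lit 7) (.s true (nat_lit 2) (nat_lit 16) (nat_lit 1) (nat_lit 0) (nat_lit 1) false (nat_lit 10) true (nat_lit 8) false (nat_lit 2) true (nat_lit 8) true (nat_lit 9) (.e true (nat_lit 4) (nat_lit 19) (nat_lit 6) (nat_lit 3) (.e false (nat_lit 4) (nat_lit 20) (nat_lit 6) (nat_lit 3) (.e false (nat_lit 12) (nat_lit 57) (nat_lit 1) (nat_lit 8) (.e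 false (nat_lit 4) (nat_lit 41) (nat_lit 2) (nat_lit 7) (.e true (nat_lit 4) (nat_lit 42) (nat_lit 2) (nat_lit 7) (.e true (nat_lit 4) (nat_lit 43) (nat_lit 2) (nat_lit 7) (.e false (nat_lit 4) (nat_lit 45) (nat_lit 2) (nat_lit 7) (.e false (nat_lit 8) (nat_lit 40) (nat_lit 2) (nat_lit 7) (.e true (nat_lit 4) (nat_lit 44) (nat_lit 2) (nat_lit 7) (.e false (nat_lit 4) (nat_lit 47) (nat_lit 2) (nat_lit 7) (.e true (nat_lit 16) (nat_lit 49) (nat_lit 1) (nat_lit 8) (.e true (nat_lit 16) (nat_lit 51) (nat_lit 1) (nat_lit 8) (.e false (nat_lit 8) (nat_lit 54) (nat_lit 1) (nat_lit 8) (.e false (nat_lit 8) (nat_lit 55) (nat_lit 1) (nat_lit 8) (.e false (nat_lit 8) (nat_lit 56) (nat_lit 1) (nat_lit 8) (.e false (nat_lit 8) (nat_lit 63) (nat_lit 0) (nat_lit 9) .nil)))))))))))))))))))) .leaf))) (nat_lit 34820) (nat_lit 176) (.n (nat_lit 93) (nat_lit 8) (.n (nat_lit 94) (nat_lit 8) (.p (nat_lit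 97) (nat_lit 8) (.n (nat_lit 98) (nat_lit 8) (.p (nat_lit 99) (nat_lit 4) (.p (nat_lit 102) (nat_lit 4) (.p (nat_lit 104) (nat_lit 4) (.p (nat_lit 105) (nat_lit 8) (.n (nat_lit 106) (nat_lit 4) .z))))))))) (.ct dAl_c276 (nat_lit 4) (nat_lit 4) (.s false (nat_lit 1) (nat_lit 6) (nat_lit 0) (nat_lit 6) (nat_lit 1) true (nat_lit 5) true (nat_lit 7) true (nat_lit 2) true (nat_lit 8) true (nat_lit 2) (.s false (nat_lit 1) (nat_lit 6) (nat_lit 1) (nat_lit 0) (nat_lit 6) false (nat_lit 0) true (nat_lit 2) true (nat_lit 2) true (nat_lit 7) true (nat_lit 8) (.s false (nat_lit 1) (nat_lit 6) (nat_lit 2) (nat_lit 2) (nat_lit 3) true (nat_lit 1) true (nat_lit 5) true (nat_lit 2) true (nat_lit 6) true (nat_lit 6) (.s true (nat_lit 1) (nat_lit 15) (nat_lit 2) (nat_lit 2) (nat_lit 0) true (nat_lit 4) true (nat_lit 8) false (nat_lit 0) true (nat_lit 6) true (nat_lit 6) (.s false (nat_lit 1) (nat_lit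 16) (nat_lit 0) (nat_lit 1) (nat_lit 2) true (nat_lit 4) true (nat_lit 6) false (nat_lit 1) true (nat_lit 8) true (nat_lit 7) (.s false (nat_lit 1) (nat_lit 16) (nat_lit 1) (nat_lit 2) (nat_lit 0) true (nat_lit 5) true (nat_lit 8) false (nat_lit 1) true (nat_lit 7) true (nat_lit 6) (.s false (nat_lit 1) (nat_lit 16) (nat_lit 2) (nat_lit 1) (nat_lit 0) true (nat_lit 4) true (nat_lit 8) false (nat_lit 1) true (nat_lit 6) true (nat_lit 7) (.e true (nat_lit 4) (nat_lit 25) (nat_lit 6) (nat_lit 2) (.e false (nat_lit 4) (nat_lit 69) (nat_lit 0) (nat_lit 8) (.e false (nat_lit 8) (nat_lit 70) (nat_lit 0) (nat_lit 8) (.e false (nat_lit 4) (nat_lit 57) (nat_lit 2) (nat_lit 6) (.e true (nat_lit 8) (nat_lit 49) (nat_lit 2) (nat_lit 6) (.e true (nat_lit 8) (nat_lit 53) (nat_lit 2) (nat_lit 6) (.e false (nat_lit 8) (nat_lit 52) (nat_lit 2) (nat_lit 6) (.e false (nat_lit 4) (nat_lit 54) (nat_lit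 2) (nat_lit 6) (.e true (nat_lit 8) (nat_lit 48) (nat_lit 2) (nat_lit 6) .nil))))))))))))))))) (.nd (.nd (.nd (.nd .leaf (nat_lit 34821) (nat_lit 200) (.p (nat_lit 110) (nat_lit 2) (.n (nat_lit 111) (nat_lit 4) (.n (nat_lit 112) (nat_lit 4) (.n (nat_lit 113) (nat_lit 6) (.p (nat_lit 114) (nat_lit 2) .z))))) (.ct dAl_c36 (nat_lit 8) (nat_lit 3) (.s false (nat_lit 1) (nat_lit 6) (nat_lit 2) (nat_lit 5) (nat_lit 1) true (nat_lit 3) true (nat_lit 5) true (nat_lit 2) true (nat_lit 4) true (nat_lit 3) (.s false (nat_lit 1) (nat_lit 16) (nat_lit 1) (nat_lit 1) (nat_lit 2) true (nat_lit 3) true (nat_lit 4) false (nat_lit 1) true (nat_lit 5) true (nat_lit 5) (.e true (nat_lit 8) (nat_lit 70) (nat_lit 1) (nat_lit 5) (.e true (nat_lit 12) (nat_lit 71) (nat_lit 1) (nat_lit 5) (.e false (nat_lit 4) (nat_lit 28) (nat_lit 6) (nat_lit 2) (.e false (nat_lit 4) (nat_lit 60) (nat_lit 2) (nat_lit 4) (.e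 true (nat_lit 8) (nat_lit 62) (nat_lit 2) (nat_lit 4) .nil)))))))) .leaf) (nat_lit 35840) (nat_lit 74) (.p (nat_lit 49) (nat_lit 4) (.p (nat_lit 50) (nat_lit 4) (.p (nat_lit 51) (nat_lit 4) (.p (nat_lit 53) (nat_lit 4) (.n (nat_lit 54) (nat_lit 4) (.n (nat_lit 55) (nat_lit 4) (.n (nat_lit 56) (nat_lit 4) .z))))))) (.ct dAl_c275 (nat_lit 4) (nat_lit 6) (.s false (nat_lit 1) (nat_lit 4) (nat_lit 1) (nat_lit 2) (nat_lit 2) true (nat_lit 1) true (nat_lit 4) true (nat_lit 2) true (nat_lit 5) true (nat_lit 4) (.s false (nat_lit 1) (nat_lit 5) (nat_lit 0) (nat_lit 2) (nat_lit 2) true (nat_lit 2) true (nat_lit 4) true (nat_lit 1) true (nat_lit 6) true (nat_lit 4) (.e false (nat_lit 4) (nat_lit 22) (nat_lit 2) (nat_lit 4) (.e true (nat_lit 4) (nat_lit 31) (nat_lit 1) (nat_lit 5) (.e true (nat_lit 4) (nat_lit 32) (nat_lit 1) (nat_lit 5) (.e false (nat_lit 4) (nat_lit 24) (nat_lit 2) (nat_lit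 4) (.e false (nat_lit 4) (nat_lit 23) (nat_lit 2) (nat_lit 4) (.e true (nat_lit 4) (nat_lit 34) (nat_lit 0) (nat_lit 6) (.e false (nat_lit 4) (nat_lit 26) (nat_lit 2) (nat_lit 4) .nil)))))))))) (.nd .leaf (nat_lit 35841) (nat_lit 86) (.p (nat_lit 63) (nat_lit 4) .z) .df .leaf)) (nat_lit 35842) (nat_lit 100) (.p (nat_lit 70) (nat_lit 4) .z) .df (.nd (.nd .leaf (nat_lit 35843) (nat_lit 138) (.n (nat_lit 80) (nat_lit 4) (.p (nat_lit 81) (nat_lit 4) (.n (nat_lit 82) (nat_lit 4) (.p (nat_lit 83) (nat_lit 4) (.n (nat_lit 85) (nat_lit 4) (.p (nat_lit 87) (nat_lit 4) (.p (nat_lit 89) (nat_lit 4) .z))))))) (.ct dAl_c291 (nat_lit 4) (nat_lit 6) (.s false (nat_lit 1) (nat_lit 16) (nat_lit 1) (nat_lit 1) (nat_lit 0) true (nat_lit 6) true (nat_lit 9) false (nat_lit 2) true (nat_lit 8) true (nat_lit 8) (.e false (nat_lit 4) (nat_lit 63) (nat_lit 0) (nat_lit 9) (.e true (nat_lit 4) (nat_lit 49) (nat_lit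 1) (nat_lit 8) (.e false (nat_lit 4) (nat_lit 50) (nat_lit 1) (nat_lit 8) (.e true (nat_lit 4) (nat_lit 51) (nat_lit 1) (nat_lit 8) (.e false (nat_lit 4) (nat_lit 53) (nat_lit 1) (nat_lit 8) (.e false (nat_lit 4) (nat_lit 57) (nat_lit 1) (nat_lit 8) (.e true (nat_lit 4) (nat_lit 55) (nat_lit 1) (nat_lit 8) .nil))))))))) .leaf) (nat_lit 35844) (nat_lit 171) (.p (nat_lit 93) (nat_lit 8) (.n (nat_lit 94) (nat_lit 4) (.p (nat_lit 95) (nat_lit 4) (.n (nat_lit 96) (nat_lit 12) (.n (nat_lit 97) (nat_lit 8) (.p (nat_lit 98) (nat_lit 12) (.p (nat_lit 100) (nat_lit 8) (.n (nat_lit 103) (nat_lit 4) (.n (nat_lit 104) (nat_lit 4) (.n (nat_lit 105) (nat_lit 8) (.p (nat_lit 106) (nat_lit 8) (.p (nat_lit 108) (nat_lit 4) .z)))))))))))) (.ct dAl_c276 (nat_lit 8) (nat_lit 4) (.s true (nat_lit 1) (nat_lit 6) (nat_lit 0) (nat_lit 6) (nat_lit 1) true (nat_lit 5) true (nat_lit 7) true (nat_lit 2) true (nat_lit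 8) true (nat_lit 2) (.s true (nat_lit 2) (nat_lit 6) (nat_lit 1) (nat_lit 4) (nat_lit 2) true (nat_lit 3) true (nat_lit 6) true (nat_lit 2) true (nat_lit 7) true (nat_lit 4) (.s false (nat_lit 1) (nat_lit 6) (nat_lit 2) (nat_lit 2) (nat_lit 3) true (nat_lit 1) true (nat_lit 5) true (nat_lit 2) true (nat_lit 6) true (nat_lit 6) (.s false (nat_lit 2) (nat_lit 6) (nat_lit 3) (nat_lit 2) (nat_lit 2) true (nat_lit 1) true (nat_lit 6) true (nat_lit 2) true (nat_lit 5) true (nat_lit 6) (.s true (nat_lit 2) (nat_lit 10) (nat_lit 2) (nat_lit 2) (nat_lit 2) true (nat_lit 2) true (nat_lit 6) true (nat_lit 1) true (nat_lit 6) true (nat_lit 6) (.s true (nat_lit 2) (nat_lit 13) (nat_lit 1) (nat_lit 2) (nat_lit 2) true (nat_lit 3) true (nat_lit 6) true (nat_lit 0) true (nat_lit 7) true (nat_lit 6) (.s true (nat_lit 2) (nat_lit 13) (nat_lit 2) (nat_lit 1) (nat_lit 2) true (nat_lit 2) true (nat_lit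 6) true (nat_lit 0) true (nat_lit 6) true (nat_lit 7) (.s false (nat_lit 3) (nat_lit 16) (nat_lit 0) (nat_lit 1) (nat_lit 2) true (nat_lit 4) true (nat_lit 6) false (nat_lit 1) true (nat_lit 8) true (nat_lit 7) (.s false (nat_lit 1) (nat_lit 16) (nat_lit 1) (nat_lit 2) (nat_lit 0) true (nat_lit 5) true (nat_lit 8) false (nat_lit 1) true (nat_lit 7) true (nat_lit 6) (.s false (nat_lit 3) (nat_lit 16) (nat_lit 2) (nat_lit 1) (nat_lit 0) true (nat_lit 4) true (nat_lit 8) false (nat_lit 1) true (nat_lit 6) true (nat_lit 7) (.e true (nat_lit 8) (nat_lit 65) (nat_lit 1) (nat_lit 7) (.e false (nat_lit 16) (nat_lit 25) (nat_lit 6) (nat_lit 2) (.e true (nat_lit 8) (nat_lit 69) (nat_lit 0) (nat_lit 8) (.e true (nat_lit 16) (nat_lit 70) (nat_lit 0) (nat_lit 8) (.e false (nat_lit 8) (nat_lit 32) (nat_lit 5) (nat_lit 3) (.e true (nat_lit 8) (nat_lit 49) (nat_lit 2) (nat_lit 6) (.e false (nat_lit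 8) (nat_lit 50) (nat_lit 2) (nat_lit 6) (.e true (nat_lit 24) (nat_lit 51) (nat_lit 2) (nat_lit 6) (.e true (nat_lit 16) (nat_lit 52) (nat_lit 2) (nat_lit 6) (.e false (nat_lit 24) (nat_lit 53) (nat_lit 2) (nat_lit 6) (.e false (nat_lit 16) (nat_lit 55) (nat_lit 2) (nat_lit 6) (.e false (nat_lit 16) (nat_lit 48) (nat_lit 2) (nat_lit 6) .nil))))))))))))))))))))))) .leaf)) (nat_lit 35845) (nat_lit 204) (.n (nat_lit 110) (nat_lit 2) (.n (nat_lit 112) (nat_lit 4) (.p (nat_lit 113) (nat_lit 2) (.p (nat_lit 114) (nat_lit 2) .z)))) (.ct dAl_c36 (nat_lit 4) (nat_lit 3) (.s true (nat_lit 1) (nat_lit 16) (nat_lit 1) (nat_lit 1) (nat_lit 2) true (nat_lit 3) true (nat_lit 4) false (nat_lit 1) true (nat_lit 5) true (nat_lit 5) (.e true (nat_lit 4) (nat_lit 63) (nat_lit 2) (nat_lit 4) (.e false (nat_lit 4) (nat_lit 70) (nat_lit 1) (nat_lit 5) (.e false (nat_lit 8) (nat_lit 71) (nat_lit 1) (nat_lit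 5) .nil))))) (.nd (.nd (.nd .leaf (nat_lit 36864) (nat_lit 94) (.p (nat_lit 67) (nat_lit 4) .z) .df .leaf) (nat_lit 36865) (nat_lit 101) (.p (nat_lit 71) (nat_lit 4) .z) .df .leaf) (nat_lit 36867) (nat_lit 190) (.p (nat_lit 94) (nat_lit 4) (.p (nat_lit 95) (nat_lit 4) (.p (nat_lit 96) (nat_lit 4) (.p (nat_lit 98) (nat_lit 4) (.n (nat_lit 99) (nat_lit 4) (.n (nat_lit 100) (nat_lit 8) (.n (nat_lit 101) (nat_lit 4) (.p (nat_lit 102) (nat_lit 4) (.p (nat_lit 103) (nat_lit 4) (.p (nat_lit 104) (nat_lit 4) (.p (nat_lit 105) (nat_lit 8) (.n (nat_lit 106) (nat_lit 4) .z)))))))))))) (.ct dAl_c276 (nat_lit 4) (nat_lit 5) (.s false (nat_lit 1) (nat_lit 16) (nat_lit 1) (nat_lit 2) (nat_lit 0) true (nat_lit 5) true (nat_lit 8) false (nat_lit 1) true (nat_lit 7) true (nat_lit 6) (.e false (nat_lit 4) (nat_lit 70) (nat_lit 0) (nat_lit 8) (.e false (nat_lit 4) (nat_lit 16) (nat_lit 10) (nat_lit 1)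 (.e false (nat_lit 4) (nat_lit 66) (nat_lit 1) (nat_lit 7) (.e false (nat_lit 4) (nat_lit 67) (nat_lit 1) (nat_lit 7) (.e true (nat_lit 4) (nat_lit 55) (nat_lit 2) (nat_lit 6) .nil))))))) (.nd (.nd .leaf (nat_lit 37890) (nat_lit 131) (.p (nat_lit 72) (nat_lit 10) (.n (nat_lit 73) (nat_lit 8) (.p (nat_lit 74) (nat_lit 2) (.n (nat_lit 76) (nat_lit 2) (.p (nat_lit 78) (nat_lit 2) (.p (nat_lit 79) (nat_lit 4) (.n (nat_lit 80) (nat_lit 20) (.p (nat_lit 81) (nat_lit 6) (.n (nat_lit 82) (nat_lit 18) (.p (nat_lit 83) (nat_lit 2) (.p (nat_lit 84) (nat_lit 8) (.p (nat_lit 85) (nat_lit 2) (.p (nat_lit 86) (nat_lit 10) (.p (nat_lit 87) (nat_lit 12) (.p (nat_lit 88) (nat_lit 4) (.p (nat_lit 89) (nat_lit 10) (.n (nat_lit 92) (nat_lit 6) .z))))))))))))))))) (.ct dAl_c291 (nat_lit 8) (nat_lit 7) (.s true (nat_lit 1) (nat_lit 5) (nat_lit 0) (nat_lit 2) (nat_lit 5) true (nat_lit 1) true (nat_lit 4)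 true (nat_lit 4) true (nat_lit 9) true (nat_lit 7) (.s false (nat_lit 1) (nat_lit 5) (nat_lit 0) (nat_lit 5) (nat_lit 2) true (nat_lit 5) true (nat_lit 7) true (nat_lit 4) true (nat_lit 9) true (nat_lit 4) (.s false (nat_lit 1) (nat_lit 5) (nat_lit 1) (nat_lit 2) (nat_lit 4) true (nat_lit 1) true (nat_lit 5) true (nat_lit 4) true (nat_lit 8) true (nat_lit 7) dAl_i1)))) .leaf) (nat_lit 38914) (nat_lit 133) (.p (nat_lit 72) (nat_lit 2) (.p (nat_lit 75) (nat_lit 2) (.n (nat_lit 76) (nat_lit 2) (.p (nat_lit 77) (nat_lit 2) (.p (nat_lit 79) (nat_lit 2) (.p (nat_lit 80) (nat_lit 2) (.n (nat_lit 81) (nat_lit 2) (.n (nat_lit 85) (nat_lit 2) (.n (nat_lit 87) (nat_lit 2) (.p (nat_lit 90) (nat_lit 2) .z)))))))))) (.ct dAl_c291 (nat_lit 8) (nat_lit 7) (.s false (nat_lit 1) (nat_lit 5) (nat_lit 1) (nat_lit 2) (nat_lit 4) true (nat_lit 1) true (nat_lit 5) true (nat_lit 4) true (nat_lit 8) true (nat_lit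 7) (.s false (nat_lit 1) (nat_lit 5) (nat_lit 2) (nat_lit 4) (nat_lit 1) true (nat_lit 4) true (nat_lit 8) true (nat_lit 4) true (nat_lit 7) true (nat_lit 5) (.s true (nat_lit 1) (nat_lit 9) (nat_lit 2) (nat_lit 1) (nat_lit 2) true (nat_lit 3) true (nat_lit 7) true (nat_lit 1) true (nat_lit 7) true (nat_lit 8) (.s true (nat_lit 1) (nat_lit 12) (nat_lit 1) (nat_lit 1) (nat_lit 2) true (nat_lit 4) true (nat_lit 7) false (nat_lit 0) true (nat_lit 8) true (nat_lit 8) (.e false (nat_lit 4) (nat_lit 40) (nat_lit 2) (nat_lit 7) (.e true (nat_lit 4) (nat_lit 44) (nat_lit 2) (nat_lit 7) (.e false (nat_lit 4) (nat_lit 45) (nat_lit 2) (nat_lit 7) (.e false (nat_lit 4) (nat_lit 49) (nat_lit 1) (nat_lit 8) (.e true (nat_lit 4) (nat_lit 55) (nat_lit 1) (nat_lit 8) (.e false (nat_lit 4) (nat_lit 43) (nat_lit 2) (nat_lit 7) (.e false (nat_lit 4) (nat_lit 19) (nat_lit 6) (nat_lit 3) (.e false (nat_lit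 4) (nat_lit 48) (nat_lit 1) (nat_lit 8) (.e true (nat_lit 4) (nat_lit 50) (nat_lit 1) (nat_lit 8) (.e true (nat_lit 4) (nat_lit 57) (nat_lit 1) (nat_lit 8) .nil))))))))))))))) .leaf))))) (nat_lit 39938) (nat_lit 141) (.n (nat_lit 72) (nat_lit 10) (.p (nat_lit 73) (nat_lit 22) (.n (nat_lit 74) (nat_lit 10) (.p (nat_lit 75) (nat_lit 4) (.n (nat_lit 76) (nat_lit 2) (.n (nat_lit 79) (nat_lit 6) (.p (nat_lit 80) (nat_lit 32) (.n (nat_lit 81) (nat_lit 12) (.p (nat_lit 82) (nat_lit 26) (.n (nat_lit 83) (nat_lit 2) (.n (nat_lit 84) (nat_lit 12) (.n (nat_lit 85) (nat_lit 4) (.n (nat_lit 86) (nat_lit 16) (.n (nat_lit 87) (nat_lit 20) (.n (nat_lit 88) (nat_lit 8) (.n (nat_lit 89) (nat_lit 14) (.p (nat_lit 91) (nat_lit 2) (.p (nat_lit 92) (nat_lit 12) .z)))))))))))))))))) (.ct dAl_c291 (nat_lit 8) (nat_lit 7) (.s true (nat_lit 1) (nat_lit 5) (nat_lit 3) (nat_lit 2) (nat_lit 2) true (nat_lit 1)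 true (nat_lit 7) true (nat_lit 4) true (nat_lit 6) true (nat_lit 7) (.s false (nat_lit 1) (nat_lit 8) (nat_lit 1) (nat_lit 2) (nat_lit 2) true (nat_lit 4) true (nat_lit 7) true (nat_lit 1) true (nat_lit 8) true (nat_lit 7) (.e true (nat_lit 16) (nat_lit 37) (nat_lit 2) (nat_lit 7) (.e false (nat_lit 8) (nat_lit 38) (nat_lit 2) (nat_lit 7) (.e false (nat_lit 4) (nat_lit 34) (nat_lit 3) (nat_lit 6) (.e false (nat_lit 4) (nat_lit 35) (nat_lit 3) (nat_lit 6) (.e false (nat_lit 8) (nat_lit 43) (nat_lit 2) (nat_lit 7) (.e true (nat_lit 8) (nat_lit 45) (nat_lit 2) (nat_lit 7) (.e false (nat_lit 8) (nat_lit 40) (nat_lit 2) (nat_lit 7) (.e false (nat_lit 8) (nat_lit 41) (nat_lit 2) (nat_lit 7) (.e true (nat_lit 8) (nat_lit 42) (nat_lit 2) (nat_lit 7) (.e true (nat_lit 4) (nat_lit 44) (nat_lit 2) (nat_lit 7) (.e false (nat_lit 4) (nat_lit 47) (nat_lit 2) (nat_lit 7) (.e true (nat_lit 4) (nat_lit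 57) (nat_lit 1) (nat_lit 8) .nil))))))))))))))) (.nd (.nd (.nd (.nd (.nd (.nd .leaf (nat_lit 40962) (nat_lit 105) (.p (nat_lit 72) (nat_lit 4) .z) .df .leaf) (nat_lit 41986) (nat_lit 106) (.p (nat_lit 73) (nat_lit 4) .z) .df (.nd .leaf (nat_lit 43010) (nat_lit 107) (.p (nat_lit 74) (nat_lit 4) .z) .df .leaf)) (nat_lit 44034) (nat_lit 108) (.p (nat_lit 75) (nat_lit 4) .z) .df (.nd (.nd .leaf (nat_lit 45058) (nat_lit 109) (.p (nat_lit 76) (nat_lit 4) .z) .df .leaf) (nat_lit 46082) (nat_lit 110) (.p (nat_lit 77) (nat_lit 4) .z) .df .leaf)) (nat_lit 47106) (nat_lit 132) (.p (nat_lit 72) (nat_lit 8) (.n (nat_lit 73) (nat_lit 12) (.n (nat_lit 74) (nat_lit 2) (.n (nat_lit 75) (nat_lit 6) (.p (nat_lit 76) (nat_lit 2) (.p (nat_lit 77) (nat_lit 2) (.p (nat_lit 78) (nat_lit 2) (.p (nat_lit 79) (nat_lit 2) (.n (nat_lit 80) (nat_lit 34) (.p (nat_lit 81) (nat_lit 8) (.n (nat_lit 82) (nat_lit 30)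 (.p (nat_lit 83) (nat_lit 2) (.p (nat_lit 84) (nat_lit 14) (.p (nat_lit 85) (nat_lit 8) (.p (nat_lit 86) (nat_lit 16) (.p (nat_lit 87) (nat_lit 20) (.p (nat_lit 88) (nat_lit 4) (.p (nat_lit 89) (nat_lit 12) (.p (nat_lit 91) (nat_lit 4) (.n (nat_lit 92) (nat_lit 6) .z)))))))))))))))))))) (.ct dAl_c291 (nat_lit 4) (nat_lit 7) (.s true (nat_lit 1) (nat_lit 5) (nat_lit 1) (nat_lit 4) (nat_lit 2) true (nat_lit 4) true (nat_lit 7) true (nat_lit 4) true (nat_lit 8) true (nat_lit 5) (.s false (nat_lit 1) (nat_lit 5) (nat_lit 2) (nat_lit 1) (nat_lit 4) false (nat_lit 0) true (nat_lit 5) true (nat_lit 4) true (nat_lit 7) true (nat_lit 8) (.s true (nat_lit 1) (nat_lit 10) (nat_lit 1) (nat_lit 2) (nat_lit 2) true (nat_lit 4) true (nat_lit 7) true (nat_lit 1) true (nat_lit 8) true (nat_lit 7) (.s true (nat_lit 1) (nat_lit 10) (nat_lit 2) (nat_lit 1) (nat_lit 2) true (nat_lit 3) true (nat_lit 7)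 true (nat_lit 1) true (nat_lit 7) true (nat_lit 8) (.s true (nat_lit 1) (nat_lit 12) (nat_lit 1) (nat_lit 2) (nat_lit 1) false (nat_lit 10) true (nat_lit 8) false (nat_lit 0) true (nat_lit 8) true (nat_lit 7) (.e false (nat_lit 4) (nat_lit 22) (nat_lit 5) (nat_lit 4) (.e true (nat_lit 4) (nat_lit 40) (nat_lit 2) (nat_lit 7) (.e false (nat_lit 4) (nat_lit 44) (nat_lit 2) (nat_lit 7) (.e true (nat_lit 4) (nat_lit 43) (nat_lit 2) (nat_lit 7) (.e true (nat_lit 4) (nat_lit 48) (nat_lit 1) (nat_lit 8) (.e true (nat_lit 8) (nat_lit 49) (nat_lit 1) (nat_lit 8) (.e true (nat_lit 4) (nat_lit 23) (nat_lit 5) (nat_lit 4) (.e true (nat_lit 8) (nat_lit 51) (nat_lit 1) (nat_lit 8) (.e false (nat_lit 4) (nat_lit 54) (nat_lit 1) (nat_lit 8) (.e false (nat_lit 4) (nat_lit 55) (nat_lit 1) (nat_lit 8) (.e false (nat_lit 4) (nat_lit 56) (nat_lit 1) (nat_lit 8) (.e false (nat_lit 4) (nat_lit 57) (nat_lit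 1) (nat_lit 8) (.e true (nat_lit 8) (nat_lit 42) (nat_lit 2) (nat_lit 7) (.e false (nat_lit 4) (nat_lit 20) (nat_lit 6) (nat_lit 3) (.e false (nat_lit 4) (nat_lit 37) (nat_lit 2) (nat_lit 7) .nil))))))))))))))))))))) (.nd (.nd (.nd .leaf (nat_lit 48130) (nat_lit 111) (.p (nat_lit 78) (nat_lit 4) .z) .df .leaf) (nat_lit 49153) (nat_lit 112) (.p (nat_lit 79) (nat_lit 4) .z) .df (.nd .leaf (nat_lit 49154) (nat_lit 155) (.p (nat_lit 93) (nat_lit 4) .z) .df .leaf)) (nat_lit 50177) (nat_lit 113) (.p (nat_lit 80) (nat_lit 4) .z) .df (.nd (.nd .leaf (nat_lit 50178) (nat_lit 156) (.p (nat_lit 94) (nat_lit 4) .z) .df .leaf) (nat_lit 51201) (nat_lit 114) (.p (nat_lit 81) (nat_lit 4) .z) .df .leaf))) (nat_lit 51202) (nat_lit 157) (.p (nat_lit 95) (nat_lit 4) .z) .df (.nd (.nd (.nd (.nd .leaf (nat_lit 52225) (nat_lit 115) (.p (nat_lit 82) (nat_lit 4) .z) .df .leaf) (nat_lit 52226) (nat_lit 158)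 (.p (nat_lit 96) (nat_lit 4) .z) .df (.nd .leaf (nat_lit 53249) (nat_lit 135) (.n (nat_lit 73) (nat_lit 4) (.p (nat_lit 79) (nat_lit 4) (.p (nat_lit 80) (nat_lit 4) (.p (nat_lit 82) (nat_lit 4) (.p (nat_lit 83) (nat_lit 4) (.n (nat_lit 92) (nat_lit 4) .z)))))) (.ct dAl_c291 (nat_lit 4) (nat_lit 8) (.s false (nat_lit 1) (nat_lit 5) (nat_lit 1) (nat_lit 4) (nat_lit 2) true (nat_lit 4) true (nat_lit 7) true (nat_lit 4) true (nat_lit 8) true (nat_lit 5) (.s true (nat_lit 1) (nat_lit 5) (nat_lit 2) (nat_lit 1) (nat_lit 4) false (nat_lit 0) true (nat_lit 5) true (nat_lit 4) true (nat_lit 7) true (nat_lit 8) (.s false (nat_lit 1) (nat_lit 12) (nat_lit 1) (nat_lit 2) (nat_lit 1) false (nat_lit 10) true (nat_lit 8) false (nat_lit 0) true (nat_lit 8) true (nat_lit 7) (.e true (nat_lit 4) (nat_lit 22) (nat_lit 5) (nat_lit 4) (.e true (nat_lit 4) (nat_lit 41) (nat_lit 2) (nat_lit 7) (.e false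 (nat_lit 4) (nat_lit 48) (nat_lit 1) (nat_lit 8) (.e false (nat_lit 4) (nat_lit 49) (nat_lit 1) (nat_lit 8) (.e false (nat_lit 4) (nat_lit 53) (nat_lit 1) (nat_lit 8) (.e false (nat_lit 4) (nat_lit 51) (nat_lit 1) (nat_lit 8) .nil)))))))))) .leaf)) (nat_lit 53250) (nat_lit 159) (.p (nat_lit 97) (nat_lit 4) .z) .df (.nd (.nd .leaf (nat_lit 54273) (nat_lit 116) (.p (nat_lit 83) (nat_lit 4) .z) .df .leaf) (nat_lit 54274) (nat_lit 160) (.p (nat_lit 98) (nat_lit 4) .z) .df .leaf)) (nat_lit 55297) (nat_lit 117) (.p (nat_lit 84) (nat_lit 4) .z) .df (.nd (.nd (.nd .leaf (nat_lit 55298) (nat_lit 161) (.p (nat_lit 99) (nat_lit 4) .z) .df .leaf) (nat_lit 56321) (nat_lit 118) (.p (nat_lit 85) (nat_lit 4) .z) .df .leaf) (nat_lit 56322) (nat_lit 162) (.p (nat_lit 100) (nat_lit 4) .z) .df (.nd (.nd .leaf (nat_lit 57345) (nat_lit 119) (.p (nat_lit 86) (nat_lit 4) .z) .df .leaf) (nat_lit 57346) (nat_lit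 163) (.p (nat_lit 101) (nat_lit 4) .z) .df .leaf)))) (nat_lit 58369) (nat_lit 120) (.p (nat_lit 87) (nat_lit 4) .z) .df (.nd (.nd (.nd (.nd (.nd .leaf (nat_lit 58370) (nat_lit 164) (.p (nat_lit 102) (nat_lit 4) .z) .df .leaf) (nat_lit 59393) (nat_lit 121) (.p (nat_lit 88) (nat_lit 4) .z) .df (.nd .leaf (nat_lit 59394) (nat_lit 182) (.p (nat_lit 93) (nat_lit 2) (.p (nat_lit 94) (nat_lit 2) (.n (nat_lit 97) (nat_lit 2) (.p (nat_lit 98) (nat_lit 2) (.p (nat_lit 99) (nat_lit 1) (.p (nat_lit 100) (nat_lit 1) (.n (nat_lit 101) (nat_lit 1) (.p (nat_lit 103) (nat_lit 1) (.p (nat_lit 104) (nat_lit 1) (.p (nat_lit 105) (nat_lit 1) (.n (nat_lit 106) (nat_lit 1) (.n (nat_lit 108) (nat_lit 1) .z)))))))))))) (.ct dAl_c276 (nat_lit 8) (nat_lit 6) (.s false (nat_lit 1) (nat_lit 5) (nat_lit 4) (nat_lit 2) (nat_lit 2) true (nat_lit 0) true (nat_lit 6) true (nat_lit 3) true (nat_lit 4) true (nat_lit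 6) (.s false (nat_lit 1) (nat_lit 12) (nat_lit 1) (nat_lit 2) (nat_lit 2) true (nat_lit 3) true (nat_lit 6) true (nat_lit 0) true (nat_lit 7) true (nat_lit 6) (.e true (nat_lit 4) (nat_lit 49) (nat_lit 2) (nat_lit 6) (.e false (nat_lit 4) (nat_lit 52) (nat_lit 2) (nat_lit 6) (.e true (nat_lit 4) (nat_lit 53) (nat_lit 2) (nat_lit 6) (.e true (nat_lit 4) (nat_lit 34) (nat_lit 4) (nat_lit 4) (.e true (nat_lit 4) (nat_lit 35) (nat_lit 4) (nat_lit 4) (.e true (nat_lit 4) (nat_lit 51) (nat_lit 2) (nat_lit 6) (.e false (nat_lit 8) (nat_lit 54) (nat_lit 2) (nat_lit 6) (.e false (nat_lit 4) (nat_lit 55) (nat_lit 2) (nat_lit 6) (.e true (nat_lit 4) (nat_lit 65) (nat_lit 1) (nat_lit 7) (.e false (nat_lit 4) (nat_lit 67) (nat_lit 1) (nat_lit 7) (.e true (nat_lit 4) (nat_lit 50) (nat_lit 2) (nat_lit 6) (.e true (nat_lit 4) (nat_lit 57) (nat_lit 2) (nat_lit 6) .nil))))))))))))))) .leaf)) (nat_lit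 60416) (nat_lit 134) (.p (nat_lit 72) (nat_lit 6) (.p (nat_lit 73) (nat_lit 12) (.n (nat_lit 74) (nat_lit 6) (.n (nat_lit 75) (nat_lit 4) (.n (nat_lit 76) (nat_lit 4) (.p (nat_lit 77) (nat_lit 4) (.p (nat_lit 78) (nat_lit 2) (.n (nat_lit 80) (nat_lit 4) (.n (nat_lit 81) (nat_lit 2) (.n (nat_lit 82) (nat_lit 6) (.p (nat_lit 83) (nat_lit 6) (.p (nat_lit 84) (nat_lit 2) (.p (nat_lit 85) (nat_lit 2) (.p (nat_lit 87) (nat_lit 2) (.n (nat_lit 88) (nat_lit 8) (.p (nat_lit 89) (nat_lit 8) (.n (nat_lit 90) (nat_lit 2) (.p (nat_lit 91) (nat_lit 4) (.p (nat_lit 92) (nat_lit 6) .z))))))))))))))))))) (.ct dAl_c291 (nat_lit 4) (nat_lit 9) (.s true (nat_lit 1) (nat_lit 5) (nat_lit 0) (nat_lit 2) (nat_lit 5) true (nat_lit 1) true (nat_lit 4) true (nat_lit 4) true (nat_lit 9) true (nat_lit 7) (.s true (nat_lit 1) (nat_lit 5) (nat_lit 1) (nat_lit 4) (nat_lit 2) true (nat_lit 4) true (nat_lit 7) true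 (nat_lit 4) true (nat_lit 8) true (nat_lit 5) (.s true (nat_lit 1) (nat_lit 5) (nat_lit 3) (nat_lit 2) (nat_lit 2) true (nat_lit 1) true (nat_lit 7) true (nat_lit 4) true (nat_lit 6) true (nat_lit 7) (.s false (nat_lit 1) (nat_lit 8) (nat_lit 1) (nat_lit 2) (nat_lit 2) true (nat_lit 4) true (nat_lit 7) true (nat_lit 1) true (nat_lit 8) true (nat_lit 7) (.s true (nat_lit 1) (nat_lit 14) (nat_lit 2) (nat_lit 1) (nat_lit 0) true (nat_lit 5) true (nat_lit 9) false (nat_lit 1) true (nat_lit 7) true (nat_lit 8) (.s false (nat_lit 1) (nat_lit 16) (nat_lit 1) (nat_lit 1) (nat_lit 0) true (nat_lit 6) true (nat_lit 9) false (nat_lit 2) true (nat_lit 8) true (nat_lit 8) (.e true (nat_lit 4) (nat_lit 23) (nat_lit 5) (nat_lit 4) (.e false (nat_lit 4) (nat_lit 22) (nat_lit 5) (nat_lit 4) (.e false (nat_lit 8) (nat_lit 63) (nat_lit 0) (nat_lit 9) (.e true (nat_lit 4) (nat_lit 37) (nat_lit 2) (nat_lit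 7) (.e false (nat_lit 4) (nat_lit 40) (nat_lit 2) (nat_lit 7) (.e false (nat_lit 4) (nat_lit 41) (nat_lit 2) (nat_lit 7) (.e true (nat_lit 4) (nat_lit 42) (nat_lit 2) (nat_lit 7) (.e true (nat_lit 4) (nat_lit 45) (nat_lit 2) (nat_lit 7) (.e false (nat_lit 4) (nat_lit 38) (nat_lit 2) (nat_lit 7) (.e true (nat_lit 4) (nat_lit 58) (nat_lit 1) (nat_lit 8) (.e false (nat_lit 4) (nat_lit 34) (nat_lit 3) (nat_lit 6) (.e false (nat_lit 8) (nat_lit 53) (nat_lit 1) (nat_lit 8) (.e true (nat_lit 4) (nat_lit 49) (nat_lit 1) (nat_lit 8) (.e false (nat_lit 4) (nat_lit 50) (nat_lit 1) (nat_lit 8) (.e true (nat_lit 4) (nat_lit 51) (nat_lit 1) (nat_lit 8) (.e true (nat_lit 4) (nat_lit 55) (nat_lit 1) (nat_lit 8) .nil))))))))))))))))))))))) (.nd (.nd .leaf (nat_lit 60418) (nat_lit 194) (.p (nat_lit 109) (nat_lit 4) .z) .df .leaf) (nat_lit 61440) (nat_lit 136) (.n (nat_lit 72) (nat_lit 4) (.p (nat_lit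 73) (nat_lit 8) (.p (nat_lit 75) (nat_lit 4) (.n (nat_lit 77) (nat_lit 4) (.p (nat_lit 78) (nat_lit 4) (.n (nat_lit 79) (nat_lit 4) (.p (nat_lit 80) (nat_lit 4) (.p (nat_lit 81) (nat_lit 4) (.n (nat_lit 84) (nat_lit 4) (.p (nat_lit 87) (nat_lit 4) (.p (nat_lit 89) (nat_lit 4) (.n (nat_lit 90) (nat_lit 4) (.p (nat_lit 92) (nat_lit 8) .z))))))))))))) (.ct dAl_c291 (nat_lit 4) (nat_lit 9) (.s true (nat_lit 1) (nat_lit 6) (nat_lit 4) (nat_lit 1) (nat_lit 1) true (nat_lit 1) true (nat_lit 8) true (nat_lit 3) true (nat_lit 5) true (nat_lit 8) (.s true (nat_lit 1) (nat_lit 15) (nat_lit 0) (nat_lit 2) (nat_lit 1) true (nat_lit 6) true (nat_lit 8) false (nat_lit 1) true (nat_lit 9) true (nat_lit 7) (.e false (nat_lit 4) (nat_lit 55) (nat_lit 1) (nat_lit 8) (.e true (nat_lit 4) (nat_lit 19) (nat_lit 6) (nat_lit 3) (.e false (nat_lit 8) (nat_lit 49) (nat_lit 1) (nat_lit 8) (.e true (nat_lit 8)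 (nat_lit 52) (nat_lit 1) (nat_lit 8) (.e false (nat_lit 8) (nat_lit 53) (nat_lit 1) (nat_lit 8) (.e false (nat_lit 4) (nat_lit 57) (nat_lit 1) (nat_lit 8) (.e true (nat_lit 4) (nat_lit 34) (nat_lit 3) (nat_lit 6) (.e false (nat_lit 8) (nat_lit 48) (nat_lit 1) (nat_lit 8) (.e false (nat_lit 4) (nat_lit 62) (nat_lit 0) (nat_lit 9) (.e false (nat_lit 8) (nat_lit 63) (nat_lit 0) (nat_lit 9) (.e false (nat_lit 4) (nat_lit 47) (nat_lit 2) (nat_lit 7) .nil)))))))))))))) .leaf)) (nat_lit 61442) (nat_lit 195) (.p (nat_lit 110) (nat_lit 4) .z) .df (.nd (.nd (.nd .leaf (nat_lit 62464) (nat_lit 151) (.p (nat_lit 72) (nat_lit 2) (.p (nat_lit 73) (nat_lit 26) (.n (nat_lit 74) (nat_lit 8) (.n (nat_lit 75) (nat_lit 6) (.n (nat_lit 76) (nat_lit 2) (.p (nat_lit 77) (nat_lit 6) (.p (nat_lit 78) (nat_lit 2) (.p (nat_lit 79) (nat_lit 4) (.p (nat_lit 80) (nat_lit 26) (.n (nat_lit 81) (nat_lit 12) (.p (nat_lit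 82) (nat_lit 8) (.p (nat_lit 83) (nat_lit 8) (.n (nat_lit 84) (nat_lit 8) (.n (nat_lit 85) (nat_lit 8) (.n (nat_lit 86) (nat_lit 14) (.n (nat_lit 87) (nat_lit 18) (.n (nat_lit 88) (nat_lit 16) (.n (nat_lit 90) (nat_lit 2) (.p (nat_lit 91) (nat_lit 2) (.p (nat_lit 92) (nat_lit 18) .z)))))))))))))))))))) (.ct dAl_c291 (nat_lit 4) (nat_lit 9) (.s true (nat_lit 1) (nat_lit 14) (nat_lit 2) (nat_lit 1) (nat_lit 0) true (nat_lit 5) true (nat_lit 9) false (nat_lit 1) true (nat_lit 7) true (nat_lit 8) (.e false (nat_lit 4) (nat_lit 28) (nat_lit 4) (nat_lit 5) (.e false (nat_lit 4) (nat_lit 14) (nat_lit 10) (nat_lit 1) (.e false (nat_lit 4) (nat_lit 37) (nat_lit 2) (nat_lit 7) (.e true (nat_lit 4) (nat_lit 43) (nat_lit 2) (nat_lit 7) (.e false (nat_lit 4) (nat_lit 45) (nat_lit 2) (nat_lit 7) (.e false (nat_lit 4) (nat_lit 53) (nat_lit 1) (nat_lit 8) .nil)))))))) .leaf) (nat_lit 62466) (nat_lit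 206) (.p (nat_lit 109) (nat_lit 4) (.n (nat_lit 110) (nat_lit 2) (.n (nat_lit 111) (nat_lit 2) (.n (nat_lit 112) (nat_lit 14) (.n (nat_lit 113) (nat_lit 10) (.p (nat_lit 114) (nat_lit 4) .z)))))) (.ct dAl_c36 (nat_lit 8) (nat_lit 4) (.s false (nat_lit 1) (nat_lit 5) (nat_lit 2) (nat_lit 2) (nat_lit 5) true (nat_lit 0) true (nat_lit 3) true (nat_lit 3) true (nat_lit 4) true (nat_lit 4) (.s true (nat_lit 1) (nat_lit 14) (nat_lit 1) (nat_lit 2) (nat_lit 2) true (nat_lit 3) true (nat_lit 4) true (nat_lit 0) true (nat_lit 5) true (nat_lit 4) (.a false (nat_lit 16) (nat_lit 14) (nat_lit 14) (nat_lit 0) (nat_lit 0) (.e false (nat_lit 4) (nat_lit 34) (nat_lit 5) (nat_lit 3) (.e false (nat_lit 4) (nat_lit 35) (nat_lit 5) (nat_lit 3) (.e false (nat_lit 8) (nat_lit 59) (nat_lit 2) (nat_lit 4) (.e true (nat_lit 4) (nat_lit 63) (nat_lit 2) (nat_lit 4) (.e true (nat_lit 4) (nat_lit 60) (nat_lit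 2) (nat_lit 4) (.e false (nat_lit 4) (nat_lit 69) (nat_lit 1) (nat_lit 5) (.e true (nat_lit 4) (nat_lit 71) (nat_lit 1) (nat_lit 5) .nil))))))))))) .leaf) (nat_lit 63488) (nat_lit 129) (.p (nat_lit 72) (nat_lit 4) (.p (nat_lit 73) (nat_lit 4) (.n (nat_lit 74) (nat_lit 4) (.n (nat_lit 76) (nat_lit 4) (.p (nat_lit 78) (nat_lit 4) (.n (nat_lit 79) (nat_lit 4) (.n (nat_lit 80) (nat_lit 12) (.p (nat_lit 81) (nat_lit 4) (.n (nat_lit 82) (nat_lit 8) (.p (nat_lit 84) (nat_lit 4) (.p (nat_lit 85) (nat_lit 4) (.p (nat_lit 86) (nat_lit 8) (.p (nat_lit 87) (nat_lit 12) (.p (nat_lit 89) (nat_lit 4) (.n (nat_lit 90) (nat_lit 4) (.p (nat_lit 91) (nat_lit 4) .z)))))))))))))))) (.ct dAl_c291 (nat_lit 4) (nat_lit 9) (.s true (nat_lit 1) (nat_lit 5) (nat_lit 1) (nat_lit 2) (nat_lit 4) true (nat_lit 1) true (nat_lit 5) true (nat_lit 4) true (nat_lit 8) true (nat_lit 7) (.s true (nat_lit 1) (nat_lit 5)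 (nat_lit 1) (nat_lit 4) (nat_lit 2) true (nat_lit 4) true (nat_lit 7) true (nat_lit 4) true (nat_lit 8) true (nat_lit 5) (.s false (nat_lit 1) (nat_lit 5) (nat_lit 4) (nat_lit 1) (nat_lit 2) false (nat_lit 0) true (nat_lit 7) true (nat_lit 4) true (nat_lit 5) true (nat_lit 8) (.s true (nat_lit 1) (nat_lit 10) (nat_lit 1) (nat_lit 2) (nat_lit 2) true (nat_lit 4) true (nat_lit 7) true (nat_lit 1) true (nat_lit 8) true (nat_lit 7) (.s false (nat_lit 1) (nat_lit 9) (nat_lit 2) (nat_lit 1) (nat_lit 2) true (nat_lit 3) true (nat_lit 7) true (nat_lit 1) true (nat_lit 7) true (nat_lit 8) (.s true (nat_lit 1) (nat_lit 10) (nat_lit 2) (nat_lit 1) (nat_lit 2) true (nat_lit 3) true (nat_lit 7) true (nat_lit 1) true (nat_lit 7) true (nat_lit 8) (.s true (nat_lit 1) (nat_lit 10) (nat_lit 2) (nat_lit 2) (nat_lit 1) true (nat_lit 4) true (nat_lit 8) true (nat_lit 1) true (nat_lit 7) true (nat_lit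 7) (.s true (nat_lit 1) (nat_lit 12) (nat_lit 1) (nat_lit 2) (nat_lit 1) false (nat_lit 10) true (nat_lit 8) false (nat_lit 0) true (nat_lit 8) true (nat_lit 7) (.s true (nat_lit 1) (nat_lit 15) (nat_lit 2) (nat_lit 1) (nat_lit 0) true (nat_lit 5) true (nat_lit 9) false (nat_lit 1) true (nat_lit 7) true (nat_lit 8) (.e false (nat_lit 8) (nat_lit 22) (nat_lit 5) (nat_lit 4) (.e false (nat_lit 12) (nat_lit 41) (nat_lit 2) (nat_lit 7) (.e true (nat_lit 4) (nat_lit 44) (nat_lit 2) (nat_lit 7) (.e true (nat_lit 4) (nat_lit 45) (nat_lit 2) (nat_lit 7) (.e true (nat_lit 8) (nat_lit 23) (nat_lit 5) (nat_lit 4) (.e false (nat_lit 4) (nat_lit 56) (nat_lit 1) (nat_lit 8) (.e false (nat_lit 4) (nat_lit 57) (nat_lit 1) (nat_lit 8) (.e true (nat_lit 12) (nat_lit 42) (nat_lit 2) (nat_lit 7) (.e true (nat_lit 4) (nat_lit 19) (nat_lit 6) (nat_lit 3) (.e false (nat_lit 4) (nat_lit 43) (nat_lit 2) (nat_lit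 7) (.e false (nat_lit 4) (nat_lit 20) (nat_lit 6) (nat_lit 3) (.e false (nat_lit 4) (nat_lit 47) (nat_lit 2) (nat_lit 7) (.e true (nat_lit 8) (nat_lit 48) (nat_lit 1) (nat_lit 8) .nil))))))))))))))))))))))) (.nd (.nd .leaf (nat_lit 63490) (nat_lit 196) (.p (nat_lit 111) (nat_lit 4) .z) .df .leaf) (nat_lit 64512) (nat_lit 122) (.p (nat_lit 89) (nat_lit 4) .z) .df .leaf))) (nat_lit 64514) (nat_lit 203) (.p (nat_lit 110) (nat_lit 2) (.p (nat_lit 112) (nat_lit 8) (.p (nat_lit 113) (nat_lit 6) (.n (nat_lit 114) (nat_lit 2) .z)))) (.ct dAl_c36 (nat_lit 8) (nat_lit 4) (.s true (nat_lit 1) (nat_lit 15) (nat_lit 2) (nat_lit 2) (nat_lit 1) true (nat_lit 3) true (nat_lit 5) true (nat_lit 0) true (nat_lit 4) true (nat_lit 4) (.a true (nat_lit 8) (nat_lit 15) (nat_lit 15) (nat_lit 0) (nat_lit 0) (.e true (nat_lit 4) (nat_lit 34) (nat_lit 5) (nat_lit 3) (.e true (nat_lit 4) (nat_lit 69) (nat_lit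 1) (nat_lit 5) (.e false (nat_lit 8) (nat_lit 60) (nat_lit 2) (nat_lit 4) (.e true (nat_lit 4) (nat_lit 62) (nat_lit 2) (nat_lit 4) .nil))))))) (.nd (.nd (.nd (.nd .leaf (nat_lit 65537) (nat_lit 193) (.n (nat_lit 93) (nat_lit 18) (.n (nat_lit 94) (nat_lit 14) (.p (nat_lit 95) (nat_lit 4) (.p (nat_lit 96) (nat_lit 8) (.p (nat_lit 97) (nat_lit 14) (.n (nat_lit 98) (nat_lit 14) (.p (nat_lit 99) (nat_lit 3) (.n (nat_lit 100) (nat_lit 1) (.p (nat_lit 101) (nat_lit 5) (.p (nat_lit 102) (nat_lit 4) (.n (nat_lit 103) (nat_lit 1) (.n (nat_lit 104) (nat_lit 5) (.n (nat_lit 105) (nat_lit 1) (.n (nat_lit 106) (nat_lit 3) (.n (nat_lit 107) (nat_lit 4) (.p (nat_lit 108) (nat_lit 1) .z)))))))))))))))) (.ct dAl_c276 (nat_lit 4) (nat_lit 7) (.s true (nat_lit 1) (nat_lit 12) (nat_lit 2) (nat_lit 2) (nat_lit 1) true (nat_lit 3) true (nat_lit 7) true (nat_lit 0) true (nat_lit 6) true (nat_lit 6) (.e true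 (nat_lit 4) (nat_lit 30) (nat_lit 5) (nat_lit 3) (.e true (nat_lit 4) (nat_lit 15) (nat_lit 12) (nat_lit 0) (.e true (nat_lit 4) (nat_lit 58) (nat_lit 2) (nat_lit 6) (.e false (nat_lit 4) (nat_lit 51) (nat_lit 2) (nat_lit 6) .nil)))))) .leaf) (nat_lit 66561) (nat_lit 165) (.p (nat_lit 103) (nat_lit 4) .z) .df (.nd .leaf (nat_lit 67585) (nat_lit 172) (.n (nat_lit 93) (nat_lit 8) (.n (nat_lit 94) (nat_lit 8) (.p (nat_lit 97) (nat_lit 8) (.n (nat_lit 98) (nat_lit 8) (.p (nat_lit 99) (nat_lit 4) (.p (nat_lit 101) (nat_lit 4) (.n (nat_lit 103) (nat_lit 4) (.n (nat_lit 104) (nat_lit 4) (.n (nat_lit 105) (nat_lit 4) .z))))))))) (.ct dAl_c276 (nat_lit 8) (nat_lit 7) (.s true (nat_lit 1) (nat_lit 6) (nat_lit 0) (nat_lit 6) (nat_lit 1) true (nat_lit 5) true (nat_lit 7) true (nat_lit 2) true (nat_lit 8) true (nat_lit 2) (.s true (nat_lit 2) (nat_lit 6) (nat_lit 1) (nat_lit 4) (nat_lit 2) true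 (nat_lit 3) true (nat_lit 6) true (nat_lit 2) true (nat_lit 7) true (nat_lit 4) (.s false (nat_lit 1) (nat_lit 6) (nat_lit 2) (nat_lit 2) (nat_lit 3) true (nat_lit 1) true (nat_lit 5) true (nat_lit 2) true (nat_lit 6) true (nat_lit 6) (.s false (nat_lit 2) (nat_lit 6) (nat_lit 3) (nat_lit 2) (nat_lit 2) true (nat_lit 1) true (nat_lit 6) true (nat_lit 2) true (nat_lit 5) true (nat_lit 6) (.s true (nat_lit 2) (nat_lit 6) (nat_lit 5) (nat_lit 0) (nat_lit 2) false (nat_lit 0) true (nat_lit 6) true (nat_lit 2) true (nat_lit 3) true (nat_lit 8) (.s false (nat_lit 2) (nat_lit 13) (nat_lit 2) (nat_lit 1) (nat_lit 2) true (nat_lit 2) true (nat_lit 6) true (nat_lit 0) true (nat_lit 6) true (nat_lit 7) (.s false (nat_lit 3) (nat_lit 16) (nat_lit 0) (nat_lit 1) (nat_lit 2) true (nat_lit 4) true (nat_lit 6) false (nat_lit 1) true (nat_lit 8) true (nat_lit 7) (.s false (nat_lit 1) (nat_lit 16) (nat_lit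 1) (nat_lit 2) (nat_lit 0) true (nat_lit 5) true (nat_lit 8) false (nat_lit 1) true (nat_lit 7) true (nat_lit 6) (.s false (nat_lit 1) (nat_lit 16) (nat_lit 2) (nat_lit 1) (nat_lit 0) true (nat_lit 4) true (nat_lit 8) false (nat_lit 1) true (nat_lit 6) true (nat_lit 7) (.e true (nat_lit 8) (nat_lit 65) (nat_lit 1) (nat_lit 7) (.e true (nat_lit 8) (nat_lit 69) (nat_lit 0) (nat_lit 8) (.e true (nat_lit 8) (nat_lit 70) (nat_lit 0) (nat_lit 8) (.e true (nat_lit 16) (nat_lit 49) (nat_lit 2) (nat_lit 6) (.e false (nat_lit 16) (nat_lit 52) (nat_lit 2) (nat_lit 6) (.e true (nat_lit 16) (nat_lit 53) (nat_lit 2) (nat_lit 6) (.e false (nat_lit 8) (nat_lit 54) (nat_lit 2) (nat_lit 6) (.e true (nat_lit 16) (nat_lit 48) (nat_lit 2) (nat_lit 6) (.e false (nat_lit 8) (nat_lit 56) (nat_lit 2) (nat_lit 6) .nil))))))))))))))))))) .leaf)) (nat_lit 68609) (nat_lit 173) (.p (nat_lit 93) (nat_lit 4) (.n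 (nat_lit 94) (nat_lit 4) (.p (nat_lit 95) (nat_lit 8) (.n (nat_lit 96) (nat_lit 8) (.n (nat_lit 97) (nat_lit 8) (.p (nat_lit 98) (nat_lit 12) (.n (nat_lit 99) (nat_lit 2) (.p (nat_lit 100) (nat_lit 6) (.n (nat_lit 101) (nat_lit 2) (.p (nat_lit 102) (nat_lit 8) (.p (nat_lit 103) (nat_lit 2) (.p (nat_lit 104) (nat_lit 2) (.p (nat_lit 105) (nat_lit 2) (.p (nat_lit 106) (nat_lit 2) (.p (nat_lit 108) (nat_lit 2) .z))))))))))))))) (.ct dAl_c276 (nat_lit 8) (nat_lit 7) (.s false (nat_lit 1) (nat_lit 6) (nat_lit 1) (nat_lit 4) (nat_lit 2) true (nat_lit 3) true (nat_lit 6) true (nat_lit 2) true (nat_lit 7) true (nat_lit 4) (.s false (nat_lit 1) (nat_lit 9) (nat_lit 2) (nat_lit 2) (nat_lit 2) true (nat_lit 2) true (nat_lit 6) true (nat_lit 1) true (nat_lit 6) true (nat_lit 6) (.s false (nat_lit 1) (nat_lit 13) (nat_lit 1) (nat_lit 2) (nat_lit 2) true (nat_lit 3) true (nat_lit 6) true (nat_lit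 0) true (nat_lit 7) true (nat_lit 6) (.s false (nat_lit 1) (nat_lit 13) (nat_lit 2) (nat_lit 1) (nat_lit 2) true (nat_lit 2) true (nat_lit 6) true (nat_lit 0) true (nat_lit 6) true (nat_lit 7) (.s true (nat_lit 1) (nat_lit 16) (nat_lit 2) (nat_lit 0) (nat_lit 1) true (nat_lit 3) true (nat_lit 7) false (nat_lit 1) true (nat_lit 6) true (nat_lit 8) (.e true (nat_lit 20) (nat_lit 49) (nat_lit 2) (nat_lit 6) (.e false (nat_lit 12) (nat_lit 50) (nat_lit 2) (nat_lit 6) (.e true (nat_lit 4) (nat_lit 51) (nat_lit 2) (nat_lit 6) (.e false (nat_lit 8) (nat_lit 52) (nat_lit 2) (nat_lit 6) (.e true (nat_lit 4) (nat_lit 53) (nat_lit 2) (nat_lit 6) (.e false (nat_lit 4) (nat_lit 54) (nat_lit 2) (nat_lit 6) (.e false (nat_lit 16) (nat_lit 57) (nat_lit 2) (nat_lit 6) (.e false (nat_lit 4) (nat_lit 35) (nat_lit 4) (nat_lit 4) (.e true (nat_lit 16) (nat_lit 48) (nat_lit 2) (nat_lit 6) (.e false (nat_lit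 4) (nat_lit 55) (nat_lit 2) (nat_lit 6) (.e true (nat_lit 8) (nat_lit 66) (nat_lit 1) (nat_lit 7) (.e true (nat_lit 4) (nat_lit 25) (nat_lit 6) (nat_lit 2) (.e false (nat_lit 4) (nat_lit 56) (nat_lit 2) (nat_lit 6) (.e false (nat_lit 4) (nat_lit 70) (nat_lit 0) (nat_lit 8) .nil)))))))))))))))))))) (.nd (.nd .leaf (nat_lit 69632) (nat_lit 191) (.p (nat_lit 93) (nat_lit 10) (.n (nat_lit 94) (nat_lit 2) (.p (nat_lit 95) (nat_lit 4) (.n (nat_lit 96) (nat_lit 12) (.n (nat_lit 97) (nat_lit 6) (.p (nat_lit 98) (nat_lit 18) (.p (nat_lit 99) (nat_lit 1) (.p (nat_lit 100) (nat_lit 9) (.n (nat_lit 101) (nat_lit 1) (.n (nat_lit 102) (nat_lit 4) (.n (nat_lit 103) (nat_lit 11) (.n (nat_lit 104) (nat_lit 7) (.n (nat_lit 105) (nat_lit 7) (.p (nat_lit 106) (nat_lit 11) (.p (nat_lit 107) (nat_lit 4) (.p (nat_lit 108) (nat_lit 7) .z)))))))))))))))) (.ct dAl_c276 (nat_lit 4) (nat_lit 8) (.s true (nat_lit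 1) (nat_lit 14) (nat_lit 2) (nat_lit 2) (nat_lit 0) true (nat_lit 4) true (nat_lit 8) false (nat_lit 0) true (nat_lit 6) true (nat_lit 6) (.e true (nat_lit 4) (nat_lit 33) (nat_lit 4) (nat_lit 4) (.e false (nat_lit 4) (nat_lit 14) (nat_lit 13) (nat_lit 0) (.e true (nat_lit 4) (nat_lit 49) (nat_lit 2) (nat_lit 6) (.e true (nat_lit 4) (nat_lit 51) (nat_lit 2) (nat_lit 6) (.e false (nat_lit 4) (nat_lit 54) (nat_lit 2) (nat_lit 6) (.e false (nat_lit 4) (nat_lit 55) (nat_lit 2) (nat_lit 6) (.e true (nat_lit 4) (nat_lit 58) (nat_lit 2) (nat_lit 6) (.e false (nat_lit 4) (nat_lit 53) (nat_lit 2) (nat_lit 6) .nil)))))))))) .leaf) (nat_lit 69633) (nat_lit 210) (.n (nat_lit 109) (nat_lit 4) (.p (nat_lit 110) (nat_lit 2) (.p (nat_lit 111) (nat_lit 4) (.p (nat_lit 112) (nat_lit 20) (.p (nat_lit 113) (nat_lit 14) (.n (nat_lit 114) (nat_lit 2) .z)))))) (.ct dAl_c36 (nat_lit 4) (nat_lit 5) (.s true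 (nat_lit 1) (nat_lit 14) (nat_lit 2) (nat_lit 1) (nat_lit 2) true (nat_lit 2) true (nat_lit 4) true (nat_lit 0) true (nat_lit 4) true (nat_lit 5) (.a true (nat_lit 8) (nat_lit 14) (nat_lit 14) (nat_lit 0) (nat_lit 0) (.e false (nat_lit 4) (nat_lit 28) (nat_lit 6) (nat_lit 2) (.e true (nat_lit 8) (nat_lit 61) (nat_lit 2) (nat_lit 4) (.e false (nat_lit 4) (nat_lit 59) (nat_lit 2) (nat_lit 4) (.e true (nat_lit 4) (nat_lit 63) (nat_lit 2) (nat_lit 4) .nil))))))) .leaf)) (nat_lit 70656) (nat_lit 166) (.p (nat_lit 104) (nat_lit 4) .z) .df (.nd (.nd (.nd .leaf (nat_lit 70657) (nat_lit 201) (.p (nat_lit 110) (nat_lit 2) (.n (nat_lit 112) (nat_lit 12) (.n (nat_lit 113) (nat_lit 6) (.p (nat_lit 114) (nat_lit 2) .z)))) (.ct dAl_c36 (nat_lit 4) (nat_lit 5) (.s true (nat_lit 1) (nat_lit 6) (nat_lit 1) (nat_lit 5) (nat_lit 2) true (nat_lit 3) true (nat_lit 4) true (nat_lit 2) true (nat_lit 5) true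 (nat_lit 3) (.s true (nat_lit 1) (nat_lit 11) (nat_lit 2) (nat_lit 2) (nat_lit 2) true (nat_lit 2) true (nat_lit 4) true (nat_lit 1) true (nat_lit 4) true (nat_lit 4) (.s true (nat_lit 1) (nat_lit 16) (nat_lit 1) (nat_lit 2) (nat_lit 1) false (nat_lit 6) true (nat_lit 5) false (nat_lit 1) true (nat_lit 5) true (nat_lit 4) (.e false (nat_lit 4) (nat_lit 34) (nat_lit 5) (nat_lit 3) (.e false (nat_lit 4) (nat_lit 62) (nat_lit 2) (nat_lit 4) (.e true (nat_lit 8) (nat_lit 70) (nat_lit 1) (nat_lit 5) .nil))))))) .leaf) (nat_lit 71680) (nat_lit 167) (.p (nat_lit 105) (nat_lit 4) .z) .df .leaf) (nat_lit 71681) (nat_lit 197) (.p (nat_lit 112) (nat_lit 4) .z) .df (.nd (.nd .leaf (nat_lit 72704) (nat_lit 180) (.p (nat_lit 93) (nat_lit 4) (.p (nat_lit 94) (nat_lit 8) (.n (nat_lit 95) (nat_lit 4) (.p (nat_lit 96) (nat_lit 4) (.n (nat_lit 99) (nat_lit 2) (.n (nat_lit 100) (nat_lit 2) (.n (nat_lit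 101) (nat_lit 2) (.n (nat_lit 102) (nat_lit 8) (.n (nat_lit 103) (nat_lit 2) (.n (nat_lit 104) (nat_lit 2) (.n (nat_lit 105) (nat_lit 6) (.p (nat_lit 106) (nat_lit 2) (.p (nat_lit 108) (nat_lit 2) .z))))))))))))) (.ct dAl_c276 (nat_lit 4) (nat_lit 8) (.s false (nat_lit 1) (nat_lit 6) (nat_lit 3) (nat_lit 2) (nat_lit 2) true (nat_lit 1) true (nat_lit 6) true (nat_lit 2) true (nat_lit 5) true (nat_lit 6) (.s false (nat_lit 1) (nat_lit 16) (nat_lit 0) (nat_lit 1) (nat_lit 2) true (nat_lit 4) true (nat_lit 6) false (nat_lit 1) true (nat_lit 8) true (nat_lit 7) (.e false (nat_lit 4) (nat_lit 21) (nat_lit 6) (nat_lit 2) (.e true (nat_lit 4) (nat_lit 57) (nat_lit 2) (nat_lit 6) (.e false (nat_lit 4) (nat_lit 35) (nat_lit 4) (nat_lit 4) (.e false (nat_lit 4) (nat_lit 55) (nat_lit 2) (nat_lit 6) (.e true (nat_lit 4) (nat_lit 70) (nat_lit 0) (nat_lit 8) (.e true (nat_lit 4) (nat_lit 67) (nat_lit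 1) (nat_lit 7) .nil))))))))) .leaf) (nat_lit 72705) (nat_lit 198) (.p (nat_lit 113) (nat_lit 4) .z) .df .leaf))))))

noncomputable def dAl_t2 : Tr := (.nd dAl_t0 (nat_lit 24582) (nat_lit 179) (.n (nat_lit 93) (nat_lit 12) (.n (nat_lit 94) (nat_lit 16) (.p (nat_lit 95) (nat_lit 4) (.n (nat_lit 96) (nat_lit 4) (.p (nat_lit 97) (nat_lit 12) (.n (nat_lit 98) (nat_lit 8) (.p (nat_lit 99) (nat_lit 6) (.p (nat_lit 100) (nat_lit 2) (.p (nat_lit 101) (nat_lit 6) (.p (nat_lit 102) (nat_lit 4) (.n (nat_lit 103) (nat_lit 6) (.n (nat_lit 104) (nat_lit 6) (.n (nat_lit 105) (nat_lit 2) (.p (nat_lit 106) (nat_lit 2) (.p (nat_lit 108) (nat_lit 6) .z))))))))))))))) (.ct dAl_c276 (nat_lit 8) (nat_lit 2) (.s false (nat_lit 1) (nat_lit 6) (nat_lit 0) (nat_lit 6) (nat_lit 1) true (nat_lit 5) true (nat_lit 7) true (nat_lit 2) true (nat_lit 8) true (nat_lit 2) (.s false (nat_lit 1) (nat_lit 6) (nat_lit 2)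 (nat_lit 2) (nat_lit 3) true (nat_lit 1) true (nat_lit 5) true (nat_lit 2) true (nat_lit 6) true (nat_lit 6) (.s false (nat_lit 1) (nat_lit 16) (nat_lit 0) (nat_lit 1) (nat_lit 2) true (nat_lit 4) true (nat_lit 6) false (nat_lit 1) true (nat_lit 8) true (nat_lit 7) (.s false (nat_lit 1) (nat_lit 16) (nat_lit 1) (nat_lit 2) (nat_lit 0) true (nat_lit 5) true (nat_lit 8) false (nat_lit 1) true (nat_lit 7) true (nat_lit 6) (.s false (nat_lit 1) (nat_lit 16) (nat_lit 2) (nat_lit 1) (nat_lit 0) true (nat_lit 4) true (nat_lit 8) false (nat_lit 1) true (nat_lit 6) true (nat_lit 7) (.e false (nat_lit 8) (nat_lit 65) (nat_lit 1) (nat_lit 7) (.e false (nat_lit 8) (nat_lit 66) (nat_lit 1) (nat_lit 7) (.e true (nat_lit 8) (nat_lit 25) (nat_lit 6) (nat_lit 2) (.e false (nat_lit 8) (nat_lit 69) (nat_lit 0) (nat_lit 8) (.e false (nat_lit 8) (nat_lit 70) (nat_lit 0) (nat_lit 8) (.e false (nat_lit 8)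 (nat_lit 21) (nat_lit 6) (nat_lit 2) (.e false (nat_lit 8) (nat_lit 26) (nat_lit 6) (nat_lit 2) (.e false (nat_lit 8) (nat_lit 57) (nat_lit 2) (nat_lit 6) .nil)))))))))))))) dAl_t1)

noncomputable def dAl_cl : CL := (.c (nat_lit 256) (nat_lit 0) (nat_lit 1) (.c (nat_lit 16) (nat_lit 1) (nat_lit 1) (.c (nat_lit 1) (nat_lit 2) (nat_lit 1) (.c (nat_lit 272) (nat_lit 3) (nat_lit 1) (.c (nat_lit 32) (nat_lit 2032) (nat_lit 0) (.c (nat_lit 257) (nat_lit 4) (nat_lit 1) (.c (nat_lit 17) (nat_lit 5) (nat_lit 1) (.c (nat_lit 2) (nat_lit 6) (nat_lit 1) (.c (nat_lit 288) (nat_lit 7) (nat_lit 1) (.c (nat_lit 273) (nat_lit 8) (nat_lit 3) (.c (nat_lit 33) (nat_lit 11) (nat_lit 1) (.c (nat_lit 258) (nat_lit 12) (nat_lit 2) (.c (nat_lit 18) (nat_lit 14) (nat_lit 2) (.c (nat_lit 3) (nat_lit 16) (nat_lit 1) (.c (nat_lit 289) (nat_lit 17) (nat_lit 4) (.c (nat_lit 274) (nat_lit 21) (nat_lit 6) (.c (nat_lit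 34) (nat_lit 27) (nat_lit 3) (.c (nat_lit 259) (nat_lit 30) (nat_lit 3) (.c (nat_lit 19) (nat_lit 33) (nat_lit 3) (.c (nat_lit 4) (nat_lit 36) (nat_lit 1) (.c (nat_lit 290) (nat_lit 37) (nat_lit 11) (.c (nat_lit 275) (nat_lit 48) (nat_lit 11) (.c (nat_lit 35) (nat_lit 59) (nat_lit 5) (.c (nat_lit 260) (nat_lit 64) (nat_lit 4) (.c (nat_lit 20) (nat_lit 68) (nat_lit 4) (.c (nat_lit 291) (nat_lit 72) (nat_lit 21) (.c (nat_lit 276) (nat_lit 93) (nat_lit 16) (.c (nat_lit 36) (nat_lit 109) (nat_lit 6) .nil))))))))))))))))))))))))))))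

noncomputable def dAl_D : Dt := ⟨(nat_lit 18446744073709551616), (nat_lit 9223372036854775808), (nat_lit 4), (nat_lit 115), (nat_lit 2380384196809455609976040201221752205612016193116624353806909993808443399102346434230574646824402333757272670521628623539808834927735517560054527366355208641411089902909448020159010138822003792918368893774049437175343799982683090872798053075754128158781474822602460000338915490161411233802739216033890411698306694727365657403499943679117243781047443598615567608206549309178840230154969798363970413391188349031224348245795083872579201826350700402404047047620233238743872620004822388998721679487885236524064827535826703635874228377192114275180604146886360019695215400114673706609618388425610005039307892077735220279672194023348262484803331394254940501362032667594055609807448128134992370755416147899714122235873401663821007932201144657439541413472127118470517007698944333364298934706570186643873504099610773892088711432178581372933),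 (nat_lit 9903515610363021995928391476), dAl_t2, dAl_cl⟩

noncomputable def dAl_gs : BL := (.c (nat_lit 17) (nat_lit 4) (nat_lit 16) (nat_lit 1) (nat_lit 0) (.c (nat_lit 21) (nat_lit 6) (nat_lit 14) (nat_lit 2) (nat_lit 4) (.c (nat_lit 27) (nat_lit 3) (nat_lit 12) (nat_lit 2) (nat_lit 16) (.c (nat_lit 30) (nat_lit 3) (nat_lit 11) (nat_lit 1) (nat_lit 22) (.c (nat_lit 33) (nat_lit 3) (nat_lit 8) (nat_lit 3) (nat_lit 25) (.c (nat_lit 36) (nat_lit 1) (nat_lit 7) (nat_lit 1) (nat_lit 34) (.c (nat_lit 37) (nat_lit 11) (nat_lit 6) (nat_lit 1) (nat_lit 35) (.c (nat_lit 48) (nat_lit 11) (nat_lit 5) (nat_lit 1) (nat_lit 46) (.c (nat_lit 59) (nat_lit 5) (nat_lit 4) (nat_lit 1) (nat_lit 57) (.c (nat_lit 68) (nat_lit 4) (nat_lit 3) (nat_lit 1) (nat_lit 62) (.c (nat_lit 72) (nat_lit 21) (nat_lit 2) (nat_lit 1) (nat_lit 66) (.c (nat_lit 93) (nat_lit 16) (nat_lit 1) (nat_lit 1) (nat_lit 87) (.c (nat_lit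 109) (nat_lit 6) (nat_lit 0) (nat_lit 1) (nat_lit 103) (.c (nat_lit 2032) (nat_lit 0) (nat_lit 64) (nat_lit 4) (nat_lit 109) .nil))))))))))))))

noncomputable def dAl_i2 : IL := (.s false (nat_lit 14048) (nat_lit 25) (nat_lit 2) (nat_lit 1) (nat_lit 2) true (nat_lit 6) true (nat_lit 10) false (nat_lit 1) true (nat_lit 10) true (nat_lit 11) (.s false (nat_lit 2496) (nat_lit 26) (nat_lit 2) (nat_lit 1) (nat_lit 2) true (nat_lit 6) true (nat_lit 10) false (nat_lit 1) true (nat_lit 10) true (nat_lit 11) (.s true (nat_lit 109536) (nat_lit 22) (nat_lit 2) (nat_lit 2) (nat_lit 1) true (nat_lit 7) true (nat_lit 11) false (nat_lit 1) true (nat_lit 10) true (nat_lit 10) (.s false (nat_lit 40032) (nat_lit 23) (nat_lit 2) (nat_lit 2) (nat_lit 1) true (nat_lit 7) true (nat_lit 11) false (nat_lit 1) true (nat_lit 10) true (nat_lit 10) (.s true (nat_lit 103040) (nat_lit 24) (nat_lit 2) (nat_lit 2)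 (nat_lit 1) true (nat_lit 7) true (nat_lit 11) false (nat_lit 1) true (nat_lit 10) true (nat_lit 10) (.s false (nat_lit 41504) (nat_lit 26) (nat_lit 2) (nat_lit 2) (nat_lit 1) true (nat_lit 7) true (nat_lit 11) false (nat_lit 1) true (nat_lit 10) true (nat_lit 10) (.s false (nat_lit 5056) (nat_lit 28) (nat_lit 0) (nat_lit 2) (nat_lit 2) true (nat_lit 8) true (nat_lit 10) false (nat_lit 2) true (nat_lit 12) true (nat_lit 10) (.s true (nat_lit 8640) (nat_lit 29) (nat_lit 0) (nat_lit 2) (nat_lit 2) true (nat_lit 8) true (nat_lit 10) false (nat_lit 2) true (nat_lit 12) true (nat_lit 10) (.s true (nat_lit 5120) (nat_lit 27) (nat_lit 2) (nat_lit 0) (nat_lit 2) true (nat_lit 6) true (nat_lit 10) false (nat_lit 2) true (nat_lit 10) true (nat_lit 12) (.s true (nat_lit 8640) (nat_lit 29) (nat_lit 2) (nat_lit 0) (nat_lit 2) true (nat_lit 6) true (nat_lit 10) false (nat_lit 2) true (nat_lit 10)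 true (nat_lit 12) (.s false (nat_lit 28320) (nat_lit 29) (nat_lit 2) (nat_lit 2) (nat_lit 0) true (nat_lit 8) true (nat_lit 12) false (nat_lit 2) true (nat_lit 10) true (nat_lit 10) (.s true (nat_lit 163328) (nat_lit 30) (nat_lit 1) (nat_lit 1) (nat_lit 2) true (nat_lit 7) true (nat_lit 10) false (nat_lit 3) true (nat_lit 11) true (nat_lit 11) (.s false (nat_lit 85376) (nat_lit 31) (nat_lit 1) (nat_lit 1) (nat_lit 2) true (nat_lit 7) true (nat_lit 10) false (nat_lit 3) true (nat_lit 11) true (nat_lit 11) (.s false (nat_lit 217888) (nat_lit 32) (nat_lit 1) (nat_lit 1) (nat_lit 2) true (nat_lit 7) true (nat_lit 10) false (nat_lit 3) true (nat_lit 11) true (nat_lit 11) (.s false (nat_lit 146784) (nat_lit 32) (nat_lit 1) (nat_lit 2) (nat_lit 1) false (nat_lit 13) true (nat_lit 11) false (nat_lit 3) true (nat_lit 11) true (nat_lit 10) (.s true (nat_lit 93664) (nat_lit 30) (nat_lit 2) (nat_lit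 1) (nat_lit 1) true (nat_lit 7) true (nat_lit 11) false (nat_lit 3) true (nat_lit 10) true (nat_lit 11) (.s true (nat_lit 94368) (nat_lit 31) (nat_lit 2) (nat_lit 1) (nat_lit 1) true (nat_lit 7) true (nat_lit 11) false (nat_lit 3) true (nat_lit 10) true (nat_lit 11) (.s false (nat_lit 2688) (nat_lit 34) (nat_lit 0) (nat_lit 1) (nat_lit 2) true (nat_lit 8) true (nat_lit 10) false (nat_lit 4) true (nat_lit 12) true (nat_lit 11) (.s true (nat_lit 16992) (nat_lit 35) (nat_lit 0) (nat_lit 1) (nat_lit 2) true (nat_lit 8) true (nat_lit 10) false (nat_lit 4) true (nat_lit 12) true (nat_lit 11) (.s true (nat_lit 11520) (nat_lit 35) (nat_lit 0) (nat_lit 2) (nat_lit 1) true (nat_lit 9) true (nat_lit 11) false (nat_lit 4) true (nat_lit 12) true (nat_lit 10) (.s true (nat_lit 14560) (nat_lit 35) (nat_lit 1) (nat_lit 0) (nat_lit 2) true (nat_lit 7) true (nat_lit 10) false (nat_lit 4) true (nat_lit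 11) true (nat_lit 12) (.s false (nat_lit 82784) (nat_lit 34) (nat_lit 2) (nat_lit 0) (nat_lit 1) true (nat_lit 7) true (nat_lit 11) false (nat_lit 4) true (nat_lit 10) true (nat_lit 12) (.s false (nat_lit 7392) (nat_lit 35) (nat_lit 2) (nat_lit 0) (nat_lit 1) true (nat_lit 7) true (nat_lit 11) false (nat_lit 4) true (nat_lit 10) true (nat_lit 12) (.s true (nat_lit 1280) (nat_lit 35) (nat_lit 2) (nat_lit 1) (nat_lit 0) true (nat_lit 8) true (nat_lit 12) false (nat_lit 4) true (nat_lit 10) true (nat_lit 11) (.s false (nat_lit 2560) (nat_lit 36) (nat_lit 0) (nat_lit 1) (nat_lit 1) true (nat_lit 9) true (nat_lit 11) false (nat_lit 5) true (nat_lit 12) true (nat_lit 11) .nil)))))))))))))))))))))))))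

noncomputable def dAl_i3 : IL := (.s true (nat_lit 3552) (nat_lit 15) (nat_lit 0) (nat_lit 5) (nat_lit 2) true (nat_lit 8) true (nat_lit 10) true (nat_lit 1) true (nat_lit 12) true (nat_lit 7) (.s false (nat_lit 76512) (nat_lit 15) (nat_lit 1) (nat_lit 4) (nat_lit 2) true (nat_lit 7) true (nat_lit 10) true (nat_lit 1) true (nat_lit 11) true (nat_lit 8) (.s false (nat_lit 3648) (nat_lit 14) (nat_lit 2) (nat_lit 2) (nat_lit 3) true (nat_lit 4) true (nat_lit 9) true (nat_lit 1) true (nat_lit 10) true (nat_lit 10) (.s true (nat_lit 3648) (nat_lit 14) (nat_lit 2) (nat_lit 3) (nat_lit 2) true (nat_lit 6) true (nat_lit 10) true (nat_lit 1) true (nat_lit 10) true (nat_lit 9) (.s false (nat_lit 179712) (nat_lit 14) (nat_lit 2) (nat_lit 4) (nat_lit 1) true (nat_lit 7) true (nat_lit 11) true (nat_lit 1) true (nat_lit 10) true (nat_lit 8) (.s true (nat_lit 70016) (nat_lit 15) (nat_lit 2) (nat_lit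 4) (nat_lit 1) true (nat_lit 7) true (nat_lit 11) true (nat_lit 1) true (nat_lit 10) true (nat_lit 8) (.s false (nat_lit 8480) (nat_lit 15) (nat_lit 2) (nat_lit 5) (nat_lit 0) true (nat_lit 8) true (nat_lit 12) true (nat_lit 1) true (nat_lit 10) true (nat_lit 7) (.s false (nat_lit 1536) (nat_lit 14) (nat_lit 5) (nat_lit 0) (nat_lit 2) true (nat_lit 1) true (nat_lit 10) true (nat_lit 1) true (nat_lit 7) true (nat_lit 12) (.s true (nat_lit 11520) (nat_lit 16) (nat_lit 0) (nat_lit 5) (nat_lit 1) true (nat_lit 9) true (nat_lit 11) true (nat_lit 0) true (nat_lit 12) true (nat_lit 7) (.s true (nat_lit 20928) (nat_lit 16) (nat_lit 1) (nat_lit 0) (nat_lit 5) true (nat_lit 3) true (nat_lit 7) true (nat_lit 0) true (nat_lit 11) true (nat_lit 12) (.s false (nat_lit 23264) (nat_lit 16) (nat_lit 1) (nat_lit 1) (nat_lit 4) true (nat_lit 4) true (nat_lit 8) true (nat_lit 0) true (nat_lit 11) true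 (nat_lit 11) (.s false (nat_lit 14080) (nat_lit 16) (nat_lit 1) (nat_lit 3) (nat_lit 2) true (nat_lit 7) true (nat_lit 10) true (nat_lit 0) true (nat_lit 11) true (nat_lit 9) (.s false (nat_lit 6528) (nat_lit 16) (nat_lit 1) (nat_lit 4) (nat_lit 1) false (nat_lit 13) true (nat_lit 11) true (nat_lit 0) true (nat_lit 11) true (nat_lit 8) (.s true (nat_lit 25792) (nat_lit 16) (nat_lit 5) (nat_lit 0) (nat_lit 1) true (nat_lit 3) true (nat_lit 11) true (nat_lit 0) true (nat_lit 7) true (nat_lit 12) (.s false (nat_lit 5120) (nat_lit 16) (nat_lit 5) (nat_lit 1) (nat_lit 0) true (nat_lit 4) true (nat_lit 12) true (nat_lit 0) true (nat_lit 7) true (nat_lit 11) (.s true (nat_lit 47136) (nat_lit 19) (nat_lit 2) (nat_lit 2) (nat_lit 2) true (nat_lit 6) true (nat_lit 10) false (nat_lit 0) true (nat_lit 10) true (nat_lit 10) (.s true (nat_lit 6656) (nat_lit 20) (nat_lit 2) (nat_lit 2) (nat_lit 2)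 true (nat_lit 6) true (nat_lit 10) false (nat_lit 0) true (nat_lit 10) true (nat_lit 10) (.s true (nat_lit 48512) (nat_lit 21) (nat_lit 1) (nat_lit 2) (nat_lit 2) true (nat_lit 7) true (nat_lit 10) false (nat_lit 1) true (nat_lit 11) true (nat_lit 10) (.s false (nat_lit 35584) (nat_lit 22) (nat_lit 1) (nat_lit 2) (nat_lit 2) true (nat_lit 7) true (nat_lit 10) false (nat_lit 1) true (nat_lit 11) true (nat_lit 10) (.s false (nat_lit 51392) (nat_lit 23) (nat_lit 1) (nat_lit 2) (nat_lit 2) true (nat_lit 7) true (nat_lit 10) false (nat_lit 1) true (nat_lit 11) true (nat_lit 10) (.s false (nat_lit 24800) (nat_lit 25) (nat_lit 1) (nat_lit 2) (nat_lit 2) true (nat_lit 7) true (nat_lit 10) false (nat_lit 1) true (nat_lit 11) true (nat_lit 10) (.s true (nat_lit 48896) (nat_lit 21) (nat_lit 2) (nat_lit 1) (nat_lit 2) true (nat_lit 6) true (nat_lit 10) false (nat_lit 1) true (nat_lit 10) true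 (nat_lit 11) (.s true (nat_lit 133760) (nat_lit 22) (nat_lit 2) (nat_lit 1) (nat_lit 2) true (nat_lit 6) true (nat_lit 10) false (nat_lit 1) true (nat_lit 10) true (nat_lit 11) (.s false (nat_lit 42624) (nat_lit 23) (nat_lit 2) (nat_lit 1) (nat_lit 2) true (nat_lit 6) true (nat_lit 10) false (nat_lit 1) true (nat_lit 10) true (nat_lit 11) (.s true (nat_lit 72480) (nat_lit 24) (nat_lit 2) (nat_lit 1) (nat_lit 2) true (nat_lit 6) true (nat_lit 10) false (nat_lit 1) true (nat_lit 10) true (nat_lit 11) dAl_i2)))))))))))))))))))))))))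

noncomputable def dAl_il : IL := (.s true (nat_lit 5120) (nat_lit 6) (nat_lit 0) (nat_lit 5) (nat_lit 5) true (nat_lit 4) true (nat_lit 7) true (nat_lit 6) true (nat_lit 12) true (nat_lit 7) (.s false (nat_lit 2880) (nat_lit 6) (nat_lit 1) (nat_lit 6) (nat_lit 3) true (nat_lit 5) true (nat_lit 9) true (nat_lit 6) true (nat_lit 11) true (nat_lit 6) (.s true (nat_lit 73248) (nat_lit 6) (nat_lit 5) (nat_lit 4) (nat_lit 1) true (nat_lit 3) true (nat_lit 11) true (nat_lit 6) true (nat_lit 7) true (nat_lit 8) (.s true (nat_lit 6848) (nat_lit 7) (nat_lit 2) (nat_lit 2) (nat_lit 6) true (nat_lit 0) true (nat_lit 6) true (nat_lit 5) true (nat_lit 10) true (nat_lit 10) (.s false (nat_lit 3456) (nat_lit 10) (nat_lit 1) (nat_lit 2) (nat_lit 6) true (nat_lit 1) true (nat_lit 6) true (nat_lit 4) true (nat_lit 11) true (nat_lit 10) (.s true (nat_lit 161728) (nat_lit 9) (nat_lit 2) (nat_lit 1) (nat_lit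 6) true (nat_lit 0) true (nat_lit 6) true (nat_lit 4) true (nat_lit 10) true (nat_lit 11) (.s true (nat_lit 128) (nat_lit 8) (nat_lit 2) (nat_lit 2) (nat_lit 5) true (nat_lit 1) true (nat_lit 7) true (nat_lit 4) true (nat_lit 10) true (nat_lit 10) (.s true (nat_lit 166080) (nat_lit 9) (nat_lit 2) (nat_lit 2) (nat_lit 5) true (nat_lit 1) true (nat_lit 7) true (nat_lit 4) true (nat_lit 10) true (nat_lit 10) (.s true (nat_lit 6656) (nat_lit 10) (nat_lit 2) (nat_lit 2) (nat_lit 5) true (nat_lit 1) true (nat_lit 7) true (nat_lit 4) true (nat_lit 10) true (nat_lit 10) (.s false (nat_lit 1472) (nat_lit 8) (nat_lit 5) (nat_lit 2) (nat_lit 2) true (nat_lit 1) true (nat_lit 10) true (nat_lit 4) true (nat_lit 7) true (nat_lit 10) (.s true (nat_lit 1536) (nat_lit 10) (nat_lit 5) (nat_lit 2) (nat_lit 2) true (nat_lit 1) true (nat_lit 10) true (nat_lit 4) true (nat_lit 7) true (nat_lit 10) (.s true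 (nat_lit 87136) (nat_lit 9) (nat_lit 6) (nat_lit 1) (nat_lit 2) true (nat_lit 0) true (nat_lit 10) true (nat_lit 4) true (nat_lit 6) true (nat_lit 11) (.s true (nat_lit 174656) (nat_lit 11) (nat_lit 2) (nat_lit 2) (nat_lit 4) true (nat_lit 2) true (nat_lit 8) true (nat_lit 3) true (nat_lit 10) true (nat_lit 10) (.s true (nat_lit 5120) (nat_lit 11) (nat_lit 6) (nat_lit 0) (nat_lit 2) true (nat_lit 0) true (nat_lit 10) true (nat_lit 3) true (nat_lit 6) true (nat_lit 12) (.s false (nat_lit 48320) (nat_lit 11) (nat_lit 6) (nat_lit 2) (nat_lit 0) true (nat_lit 2) true (nat_lit 12) true (nat_lit 3) true (nat_lit 6) true (nat_lit 10) (.s false (nat_lit 73248) (nat_lit 12) (nat_lit 1) (nat_lit 5) (nat_lit 2) true (nat_lit 7) true (nat_lit 10) true (nat_lit 2) true (nat_lit 11) true (nat_lit 7) (.s true (nat_lit 32192) (nat_lit 13) (nat_lit 1) (nat_lit 5) (nat_lit 2) true (nat_lit 7) true (nat_lit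 10) true (nat_lit 2) true (nat_lit 11) true (nat_lit 7) (.s false (nat_lit 4704) (nat_lit 13) (nat_lit 1) (nat_lit 6) (nat_lit 1) false (nat_lit 13) true (nat_lit 11) true (nat_lit 2) true (nat_lit 11) true (nat_lit 6) (.s false (nat_lit 84768) (nat_lit 12) (nat_lit 2) (nat_lit 5) (nat_lit 1) true (nat_lit 7) true (nat_lit 11) true (nat_lit 2) true (nat_lit 10) true (nat_lit 7) (.s false (nat_lit 242784) (nat_lit 12) (nat_lit 5) (nat_lit 1) (nat_lit 2) true (nat_lit 1) true (nat_lit 10) true (nat_lit 2) true (nat_lit 7) true (nat_lit 11) (.s false (nat_lit 16128) (nat_lit 13) (nat_lit 5) (nat_lit 1) (nat_lit 2) true (nat_lit 1) true (nat_lit 10) true (nat_lit 2) true (nat_lit 7) true (nat_lit 11) (.s true (nat_lit 89824) (nat_lit 12) (nat_lit 5) (nat_lit 2) (nat_lit 1) true (nat_lit 3) true (nat_lit 11) true (nat_lit 2) true (nat_lit 7) true (nat_lit 10) (.s false (nat_lit 33024) (nat_lit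 15) (nat_lit 0) (nat_lit 1) (nat_lit 6) true (nat_lit 2) true (nat_lit 6) true (nat_lit 1) true (nat_lit 12) true (nat_lit 11) (.s true (nat_lit 5376) (nat_lit 14) (nat_lit 0) (nat_lit 2) (nat_lit 5) true (nat_lit 4) true (nat_lit 7) true (nat_lit 1) true (nat_lit 12) true (nat_lit 10) dAl_i3))))))))))))))))))))))))

theorem dAl_chk : chk idsM dAl_D par1 (clsL [0,0,0,0,1,1,2]) AlEx (.c (nat_lit 2) (nat_lit 1) (.c (nat_lit 2) (nat_lit 1) (.c (nat_lit 2) (nat_lit 1) (.c (nat_lit 2) (nat_lit 1) (.c (nat_lit 1) (nat_lit 16) (.c (nat_lit 1) (nat_lit 16) (.c (nat_lit 0) (nat_lit 256) .nil))))))) (nat_lit 211) (nat_lit 292) (nat_lit 1) dAl_gs dAl_il = true := by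
  decide +kernel

end Chk

/-- certificate of `AlEx` -/
theorem cert_AlEx : Cert.{u} idsM par1 (clsL [0,0,0,0,1,1,2]) AlEx :=
  Chk.chk_sound _ (by simp [idsM]) (by simp [idsM]) _ _ _ _ _ _ _ _ _ _ Chk.dAl_chk

end Pool.Agent.Malc
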