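import Pool.Agent.Malc.Check4
import Pool.Agent.Malc.CertPar

/-! # Certificate of Z8Ex -/

set_option autoImplicit false
set_option maxRecDepth 100000

namespace Pool.Agent.Malc

universe u

namespace Chk

noncomputable def dZ8b_c34 : Cm := .mk (nat_lit 8) (nat_lit 34) (nat_lit 10) (nat_lit 3) (.c (nat_lit 3) (nat_lit 1) (nat_lit 3) (nat_lit 1) (nat_lit 3) (.c (nat_lit 4) (nat_lit 1) (nat_lit 2) (nat_lit 1) (nat_lit 4) (.c (nat_lit 5) (nat_lit 2) (nat_lit 1) (nat_lit 1) (nat_lit 5) (.c (nat_lit 7) (nat_lit 2) (nat_lit 0) (nat_lit 1) (nat_lit 7) .nil))))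

noncomputable def dZ8b_c19 : Cm := .mk (nat_lit 13) (nat_lit 19) (nat_lit 13) (nat_lit 3) (.c (nat_lit 4) (nat_lit 1) (nat_lit 3) (nat_lit 1) (nat_lit 3) (.c (nat_lit 7) (nat_lit 2) (nat_lit 1) (nat_lit 1) (nat_lit 4) (.c (nat_lit 9) (nat_lit 1) (nat_lit 0) (nat_lit 1) (nat_lit 6) .nil)))

noncomputable def dZ8b_c35 : Cm := .mk (nat_lit 18) (nat_lit 35) (nat_lit 17) (nat_lit 6) (.c (nat_lit 5) (nat_lit 2) (nat_lit 4) (nat_lit 1) (nat_lit 6) (.c (nat_lit 7) (nat_lit 2) (nat_lit 3) (nat_lit 1) (nat_lit 8) (.c (nat_lit 9) (nat_lit 1) (nat_lit 2) (nat_lit 1) (nat_lit 10) (.c (nat_lit 10) (nat_lit 3) (nat_lit 1) (nat_lit 1) (nat_lit 11) (.c (nat_lit 13) (nat_lit 3) (nat_lit 0) (nat_lit 1) (nat_lit 14) .nil)))))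

noncomputable def dZ8b_c20 : Cm := .mk (nat_lit 29) (nat_lit 20) (nat_lit 23) (nat_lit 4) (.c (nat_lit 7) (nat_lit 2) (nat_lit 4) (nat_lit 1) (nat_lit 4) (.c (nat_lit 9) (nat_lit 1) (nat_lit 3) (nat_lit 1) (nat_lit 6) (.c (nat_lit 13) (nat_lit 3) (nat_lit 1) (nat_lit 1) (nat_lit 7) (.c (nat_lit 16) (nat_lit 1) (nat_lit 0) (nat_lit 1) (nat_lit 10) .nil))))

noncomputable def dZ8b_c5 : Cm := .mk (nat_lit 36) (nat_lit 5) (nat_lit 27) (nat_lit 1) (.c (nat_lit 9) (nat_lit 1) (nat_lit 4) (nat_lit 1) (nat_lit 1) (.c (nat_lit 16) (nat_lit 1) (nat_lit 1) (nat_lit 1) (nat_lit 2) .nil))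

noncomputable def dZ8b_c36 : Cm := .mk (nat_lit 38) (nat_lit 36) (nat_lit 28) (nat_lit 10) (.c (nat_lit 7) (nat_lit 2) (nat_lit 7) (nat_lit 2) (nat_lit 10) (.c (nat_lit 9) (nat_lit 1) (nat_lit 5) (nat_lit 2) (nat_lit 14) (.c (nat_lit 10) (nat_lit 3) (nat_lit 4) (nat_lit 1) (nat_lit 16) (.c (nat_lit 13) (nat_lit 3) (nat_lit 3) (nat_lit 1) (nat_lit 19) (.c (nat_lit 16) (nat_lit 1) (nat_lit 2) (nat_lit 1) (nat_lit 22) (.c (nat_lit 17) (nat_lit 6) (nat_lit 1) (nat_lit 1) (nat_lit 23) (.c (nat_lit 23) (nat_lit 4) (nat_lit 0) (nat_lit 1) (nat_lit 29) .nil)))))))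

noncomputable def dZ8b_c21 : Cm := .mk (nat_lit 59) (nat_lit 21) (nat_lit 38) (nat_lit 5) (.c (nat_lit 9) (nat_lit 1) (nat_lit 7) (nat_lit 2) (nat_lit 5) (.c (nat_lit 13) (nat_lit 3) (nat_lit 4) (nat_lit 1) (nat_lit 7) (.c (nat_lit 16) (nat_lit 1) (nat_lit 3) (nat_lit 1) (nat_lit 10) (.c (nat_lit 23) (nat_lit 4) (nat_lit 1) (nat_lit 1) (nat_lit 11) (.c (nat_lit 27) (nat_lit 1) (nat_lit 0) (nat_lit 1) (nat_lit 15) .nil)))))

noncomputable def dZ8b_c6 : Cm := .mk (nat_lit 70) (nat_lit 6) (nat_lit 43) (nat_lit 2) (.c (nat_lit 9) (nat_lit 1) (nat_lit 9) (nat_lit 1) (nat_lit 2) (.c (nat_lit 16) (nat_lit 1) (nat_lit 4) (nat_lit 1) (nat_lit 3) (.c (nat_lit 27) (nat_lit 1) (nat_lit 1) (nat_lit 1) (nat_lit 4) .nil)))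

noncomputable def dZ8b_c37 : Cm := .mk (nat_lit 72) (nat_lit 37) (nat_lit 45) (nat_lit 11) (.c (nat_lit 10) (nat_lit 3) (nat_lit 9) (nat_lit 1) (nat_lit 11) (.c (nat_lit 13) (nat_lit 3) (nat_lit 7) (nat_lit 2) (nat_lit 14) (.c (nat_lit 16) (nat_lit 1) (nat_lit 5) (nat_lit 2) (nat_lit 20) (.c (nat_lit 17) (nat_lit 6) (nat_lit 4) (nat_lit 1) (nat_lit 22) (.c (nat_lit 23) (nat_lit 4) (nat_lit 3) (nat_lit 1) (nat_lit 28) (.c (nat_lit 27) (nat_lit 1) (nat_lit 2) (nat_lit 1) (nat_lit 32) (.c (nat_lit 28) (nat_lit 10) (nat_lit 1) (nat_lit 1) (nat_lit 33) (.c (nat_lit 38) (nat_lit 5) (nat_lit 0) (nat_lit 1) (nat_lit 43) .nil))))))))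

noncomputable def dZ8b_c22 : Cm := .mk (nat_lit 105) (nat_lit 22) (nat_lit 56) (nat_lit 6) (.c (nat_lit 13) (nat_lit 3) (nat_lit 9) (nat_lit 1) (nat_lit 6) (.c (nat_lit 16) (nat_lit 1) (nat_lit 7) (nat_lit 2) (nat_lit 9) (.c (nat_lit 23) (nat_lit 4) (nat_lit 4) (nat_lit 1) (nat_lit 11) (.c (nat_lit 27) (nat_lit 1) (nat_lit 3) (nat_lit 1) (nat_lit 15) (.c (nat_lit 38) (nat_lit 5) (nat_lit 1) (nat_lit 1) (nat_lit 16) (.c (nat_lit 43) (nat_lit 2) (nat_lit 0) (nat_lit 1) (nat_lit 21) .nil))))))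

noncomputable def dZ8b_t0 : Tr := (.nd (.nd (.nd (.nd (.nd (.nd .leaf (nat_lit 0) (nat_lit 0) (.p (nat_lit 2) (nat_lit 4) .z) .df .leaf) (nat_lit 1024) (nat_lit 1) (.p (nat_lit 3) (nat_lit 4) .z) .df (.nd .leaf (nat_lit 1025) (nat_lit 2) (.p (nat_lit 4) (nat_lit 4) .z) .df .leaf)) (nat_lit 2049) (nat_lit 3) (.p (nat_lit 5) (nat_lit 4) .z) .df (.nd (.nd .leaf (nat_lit 3072) (nat_lit 4) (.p (nat_lit 6) (nat_lit 4) .z) .df .leaf) (nat_lit 3073) (nat_lit 5) (.p (nat_lit 7) (nat_lit 4) .z) .df (.nd .leaf (nat_lit 4096) (nat_lit 6) (.p (nat_lit 8) (nat_lit 4) .z) .df .leaf))) (nat_lit 4097) (nat_lit 7) (.p (nat_lit 9) (nat_lit 4) .z) .df (.nd (.nd (.nd .leaf (nat_lit 4098) (nat_lit 12) (.p (nat_lit 11) (nat_lit 8) (.n (nat_lit 12) (nat_lit 8) .z)) (.ct dZ8b_c34 (nat_lit 4) (nat_lit 1) (.s true (nat_lit 1) (nat_lit 1) (nat_lit 0) (nat_lit 1) (nat_lit 0) true (nat_lit 1) true (nat_lit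 3) true (nat_lit 2) true (nat_lit 3) true (nat_lit 2) (.e true (nat_lit 8) (nat_lit 7) (nat_lit 0) (nat_lit 3) (.e false (nat_lit 8) (nat_lit 6) (nat_lit 1) (nat_lit 2) .nil)))) .leaf) (nat_lit 4099) (nat_lit 16) (.p (nat_lit 14) (nat_lit 4) (.n (nat_lit 15) (nat_lit 4) .z)) (.ct dZ8b_c19 (nat_lit 4) (nat_lit 0) (.s true (nat_lit 1) (nat_lit 1) (nat_lit 0) (nat_lit 1) (nat_lit 1) true (nat_lit 0) true (nat_lit 1) true (nat_lit 1) true (nat_lit 2) true (nat_lit 1) (.e true (nat_lit 4) (nat_lit 9) (nat_lit 0) (nat_lit 2) (.e false (nat_lit 4) (nat_lit 8) (nat_lit 1) (nat_lit 1) .nil)))) (.nd .leaf (nat_lit 5121) (nat_lit 8) (.p (nat_lit 10) (nat_lit 4) .z) .df .leaf)) (nat_lit 5124) (nat_lit 25) (.p (nat_lit 17) (nat_lit 4) (.n (nat_lit 18) (nat_lit 12) (.p (nat_lit 19) (nat_lit 4) (.p (nat_lit 21) (nat_lit 4) (.p (nat_lit 22) (nat_lit 4) .z))))) (.ct dZ8b_c35 (nat_lit 4) (nat_lit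 0) (.s true (nat_lit 1) (nat_lit 4) (nat_lit 0) (nat_lit 0) (nat_lit 1) true (nat_lit 1) true (nat_lit 3) true (nat_lit 0) true (nat_lit 4) true (nat_lit 4) (.e true (nat_lit 4) (nat_lit 8) (nat_lit 3) (nat_lit 1) (.e false (nat_lit 4) (nat_lit 10) (nat_lit 1) (nat_lit 3) (.e true (nat_lit 4) (nat_lit 11) (nat_lit 1) (nat_lit 3) (.e true (nat_lit 4) (nat_lit 12) (nat_lit 1) (nat_lit 3) (.e false (nat_lit 4) (nat_lit 14) (nat_lit 0) (nat_lit 4) .nil))))))) (.nd (.nd .leaf (nat_lit 6145) (nat_lit 9) (.p (nat_lit 11) (nat_lit 4) .z) .df .leaf) (nat_lit 6148) (nat_lit 23) (.p (nat_lit 22) (nat_lit 4) .z) .df (.nd .leaf (nat_lit 7168) (nat_lit 10) (.p (nat_lit 12) (nat_lit 4) .z) .df .leaf)))) (nat_lit 7169) (nat_lit 13) (.p (nat_lit 13) (nat_lit 4) .z) .df (.nd (.nd (.nd (.nd .leaf (nat_lit 7171) (nat_lit 26) (.n (nat_lit 18) (nat_lit 2) (.p (nat_lit 19) (nat_lit 2) (.n (nat_lit 20)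 (nat_lit 2) (.p (nat_lit 21) (nat_lit 2) .z)))) (.ct dZ8b_c35 (nat_lit 8) (nat_lit 1) (.s true (nat_lit 1) (nat_lit 3) (nat_lit 0) (nat_lit 1) (nat_lit 1) true (nat_lit 1) true (nat_lit 3) true (nat_lit 1) true (nat_lit 4) true (nat_lit 3) (.e true (nat_lit 4) (nat_lit 11) (nat_lit 1) (nat_lit 3) (.e true (nat_lit 4) (nat_lit 14) (nat_lit 0) (nat_lit 4) (.e false (nat_lit 4) (nat_lit 15) (nat_lit 0) (nat_lit 4) (.e false (nat_lit 4) (nat_lit 12) (nat_lit 1) (nat_lit 3) .nil)))))) .leaf) (nat_lit 7172) (nat_lit 33) (.n (nat_lit 24) (nat_lit 4) (.p (nat_lit 26) (nat_lit 4) .z)) (.ct dZ8b_c20 (nat_lit 8) (nat_lit 0) (.s true (nat_lit 1) (nat_lit 3) (nat_lit 1) (nat_lit 1) (nat_lit 1) true (nat_lit 0) true (nat_lit 2) true (nat_lit 1) true (nat_lit 2) true (nat_lit 2) (.s true (nat_lit 1) (nat_lit 4) (nat_lit 1) (nat_lit 0) (nat_lit 1) true (nat_lit 0) true (nat_lit 2) true (nat_lit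 0) true (nat_lit 2) true (nat_lit 3) (.s false (nat_lit 1) (nat_lit 4) (nat_lit 1) (nat_lit 1) (nat_lit 0) true (nat_lit 1) true (nat_lit 3) true (nat_lit 0) true (nat_lit 2) true (nat_lit 2) (.e true (nat_lit 8) (nat_lit 14) (nat_lit 1) (nat_lit 2) (.e false (nat_lit 8) (nat_lit 16) (nat_lit 0) (nat_lit 3) .nil)))))) (.nd .leaf (nat_lit 7175) (nat_lit 54) (.p (nat_lit 29) (nat_lit 2) (.n (nat_lit 30) (nat_lit 2) (.p (nat_lit 31) (nat_lit 2) (.n (nat_lit 32) (nat_lit 2) (.n (nat_lit 33) (nat_lit 4) (.p (nat_lit 34) (nat_lit 4) (.n (nat_lit 35) (nat_lit 4) (.p (nat_lit 37) (nat_lit 4) .z)))))))) (.ct dZ8b_c36 (nat_lit 4) (nat_lit 0) (.s false (nat_lit 1) (nat_lit 3) (nat_lit 1) (nat_lit 1) (nat_lit 3) true (nat_lit 0) true (nat_lit 3) true (nat_lit 3) true (nat_lit 5) true (nat_lit 5) (.e false (nat_lit 4) (nat_lit 13) (nat_lit 3) (nat_lit 3) (.e false (nat_lit 4) (nat_lit 14) (nat_lit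 3) (nat_lit 3) (.e true (nat_lit 4) (nat_lit 15) (nat_lit 3) (nat_lit 3) (.e true (nat_lit 2) (nat_lit 18) (nat_lit 1) (nat_lit 5) (.e false (nat_lit 2) (nat_lit 19) (nat_lit 1) (nat_lit 5) (.e true (nat_lit 2) (nat_lit 20) (nat_lit 1) (nat_lit 5) (.e false (nat_lit 2) (nat_lit 21) (nat_lit 1) (nat_lit 5) .nil))))))))) .leaf)) (nat_lit 8192) (nat_lit 11) (.n (nat_lit 10) (nat_lit 4) (.p (nat_lit 11) (nat_lit 4) (.p (nat_lit 12) (nat_lit 4) .z))) (.ct dZ8b_c34 (nat_lit 4) (nat_lit 3) (.s false (nat_lit 1) (nat_lit 1) (nat_lit 0) (nat_lit 0) (nat_lit 1) true (nat_lit 0) true (nat_lit 2) true (nat_lit 2) true (nat_lit 3) true (nat_lit 3) (.a false (nat_lit 8) (nat_lit 3) (nat_lit 3) (nat_lit 0) (nat_lit 0) (.e false (nat_lit 4) (nat_lit 6) (nat_lit 1) (nat_lit 2) (.e true (nat_lit 4) (nat_lit 5) (nat_lit 1) (nat_lit 2) (.e false (nat_lit 4) (nat_lit 7) (nat_lit 0) (nat_lit 3) .nil))))))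 (.nd (.nd .leaf (nat_lit 8193) (nat_lit 14) (.p (nat_lit 14) (nat_lit 4) .z) .df .leaf) (nat_lit 8195) (nat_lit 24) (.p (nat_lit 18) (nat_lit 8) (.n (nat_lit 19) (nat_lit 8) (.p (nat_lit 20) (nat_lit 4) (.n (nat_lit 21) (nat_lit 4) (.n (nat_lit 22) (nat_lit 4) .z))))) (.ct dZ8b_c35 (nat_lit 4) (nat_lit 1) (.s true (nat_lit 1) (nat_lit 4) (nat_lit 1) (nat_lit 0) (nat_lit 0) true (nat_lit 1) true (nat_lit 4) true (nat_lit 0) true (nat_lit 3) true (nat_lit 4) (.e true (nat_lit 4) (nat_lit 15) (nat_lit 0) (nat_lit 4) (.e true (nat_lit 4) (nat_lit 6) (nat_lit 4) (nat_lit 0) (.e false (nat_lit 8) (nat_lit 11) (nat_lit 1) (nat_lit 3) (.e true (nat_lit 8) (nat_lit 12) (nat_lit 1) (nat_lit 3) (.e false (nat_lit 4) (nat_lit 14) (nat_lit 0) (nat_lit 4) .nil))))))) (.nd .leaf (nat_lit 8196) (nat_lit 34) (.p (nat_lit 24) (nat_lit 8) (.n (nat_lit 25) (nat_lit 8) .z)) (.ct dZ8b_c20 (nat_lit 4)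 (nat_lit 0) (.s true (nat_lit 1) (nat_lit 4) (nat_lit 1) (nat_lit 0) (nat_lit 1) true (nat_lit 0) true (nat_lit 2) true (nat_lit 0) true (nat_lit 2) true (nat_lit 3) (.e true (nat_lit 8) (nat_lit 15) (nat_lit 1) (nat_lit 2) (.e true (nat_lit 4) (nat_lit 7) (nat_lit 4) (nat_lit 0) (.e false (nat_lit 4) (nat_lit 14) (nat_lit 1) (nat_lit 2) (.e false (nat_lit 4) (nat_lit 16) (nat_lit 0) (nat_lit 3) .nil)))))) .leaf))) (nat_lit 8199) (nat_lit 53) (.p (nat_lit 28) (nat_lit 4) (.n (nat_lit 29) (nat_lit 12) (.p (nat_lit 30) (nat_lit 4) (.p (nat_lit 32) (nat_lit 4) (.p (nat_lit 33) (nat_lit 12) (.n (nat_lit 34) (nat_lit 4) (.p (nat_lit 35) (nat_lit 4) (.p (nat_lit 36) (nat_lit 4) .z)))))))) (.ct dZ8b_c36 (nat_lit 4) (nat_lit 0) (.s false (nat_lit 1) (nat_lit 4) (nat_lit 1) (nat_lit 0) (nat_lit 3) true (nat_lit 0) true (nat_lit 3) true (nat_lit 2) true (nat_lit 5) true (nat_lit 6) (.e false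 (nat_lit 4) (nat_lit 15) (nat_lit 3) (nat_lit 3) (.e false (nat_lit 4) (nat_lit 22) (nat_lit 1) (nat_lit 5) (.e true (nat_lit 4) (nat_lit 24) (nat_lit 0) (nat_lit 6) (.e false (nat_lit 4) (nat_lit 25) (nat_lit 0) (nat_lit 6) .nil)))))) (.nd (.nd (.nd .leaf (nat_lit 8200) (nat_lit 57) (.p (nat_lit 28) (nat_lit 4) (.n (nat_lit 29) (nat_lit 12) (.p (nat_lit 30) (nat_lit 4) (.p (nat_lit 34) (nat_lit 8) (.n (nat_lit 35) (nat_lit 4) (.p (nat_lit 36) (nat_lit 4) .z)))))) (.ct dZ8b_c36 (nat_lit 4) (nat_lit 0) (.s false (nat_lit 1) (nat_lit 4) (nat_lit 0) (nat_lit 0) (nat_lit 4) true (nat_lit 0) true (nat_lit 2) true (nat_lit 2) true (nat_lit 6) true (nat_lit 6) (.e true (nat_lit 4) (nat_lit 10) (nat_lit 4) (nat_lit 2) (.e true (nat_lit 4) (nat_lit 11) (nat_lit 4) (nat_lit 2) (.e false (nat_lit 12) (nat_lit 12) (nat_lit 4) (nat_lit 2) (.e false (nat_lit 8) (nat_lit 24) (nat_lit 0) (nat_lit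 6) (.e true (nat_lit 8) (nat_lit 25) (nat_lit 0) (nat_lit 6) .nil))))))) .leaf) (nat_lit 9216) (nat_lit 15) (.p (nat_lit 15) (nat_lit 4) .z) .df (.nd .leaf (nat_lit 9217) (nat_lit 17) (.p (nat_lit 16) (nat_lit 4) .z) .df .leaf)) (nat_lit 9218) (nat_lit 28) (.n (nat_lit 17) (nat_lit 4) (.p (nat_lit 18) (nat_lit 4) (.p (nat_lit 19) (nat_lit 4) (.n (nat_lit 21) (nat_lit 4) (.n (nat_lit 22) (nat_lit 4) .z))))) (.ct dZ8b_c35 (nat_lit 4) (nat_lit 2) (.s true (nat_lit 1) (nat_lit 2) (nat_lit 1) (nat_lit 1) (nat_lit 1) true (nat_lit 0) true (nat_lit 3) true (nat_lit 2) true (nat_lit 3) true (nat_lit 3) (.e true (nat_lit 4) (nat_lit 5) (nat_lit 4) (nat_lit 0) (.e true (nat_lit 8) (nat_lit 11) (nat_lit 1) (nat_lit 3) (.e false (nat_lit 8) (nat_lit 12) (nat_lit 1) (nat_lit 3) .nil))))) (.nd (.nd .leaf (nat_lit 9219) (nat_lit 35) (.p (nat_lit 25) (nat_lit 4) (.n (nat_lit 26) (nat_lit 4) .z))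 (.ct dZ8b_c20 (nat_lit 4) (nat_lit 1) (.s true (nat_lit 1) (nat_lit 3) (nat_lit 1) (nat_lit 1) (nat_lit 1) true (nat_lit 0) true (nat_lit 2) true (nat_lit 1) true (nat_lit 2) true (nat_lit 2) (.e true (nat_lit 4) (nat_lit 7) (nat_lit 4) (nat_lit 0) (.e true (nat_lit 4) (nat_lit 14) (nat_lit 1) (nat_lit 2) (.e false (nat_lit 4) (nat_lit 15) (nat_lit 1) (nat_lit 2) .nil))))) .leaf) (nat_lit 9220) (nat_lit 37) .z (.ct dZ8b_c5 (nat_lit 8) (nat_lit 0) (.s true (nat_lit 1) (nat_lit 4) (nat_lit 1) (nat_lit 1) (nat_lit 1) true (nat_lit 0) true (nat_lit 1) true (nat_lit 0) true (nat_lit 1) true (nat_lit 1) .nil)) .leaf)))) (nat_lit 9222) (nat_lit 55) (.n (nat_lit 33) (nat_lit 4) (.p (nat_lit 36) (nat_lit 4) .z)) (.ct dZ8b_c36 (nat_lit 4) (nat_lit 1) (.s false (nat_lit 1) (nat_lit 6) (nat_lit 1) (nat_lit 1) (nat_lit 1) true (nat_lit 2) true (nat_lit 5) true (nat_lit 1) true (nat_lit 5) true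 (nat_lit 5) (.e false (nat_lit 4) (nat_lit 11) (nat_lit 4) (nat_lit 2) (.e true (nat_lit 4) (nat_lit 22) (nat_lit 1) (nat_lit 5) .nil)))) (.nd (.nd (.nd (.nd (.nd .leaf (nat_lit 9223) (nat_lit 66) (.p (nat_lit 42) (nat_lit 4) .z) (.ct dZ8b_c21 (nat_lit 4) (nat_lit 0) (.s false (nat_lit 1) (nat_lit 9) (nat_lit 0) (nat_lit 1) (nat_lit 1) true (nat_lit 2) true (nat_lit 3) false (nat_lit 0) true (nat_lit 4) true (nat_lit 3) (.e false (nat_lit 4) (nat_lit 16) (nat_lit 3) (nat_lit 2) (.e false (nat_lit 4) (nat_lit 25) (nat_lit 1) (nat_lit 3) (.e true (nat_lit 4) (nat_lit 26) (nat_lit 1) (nat_lit 3) .nil))))) .leaf) (nat_lit 9224) (nat_lit 68) (.n (nat_lit 39) (nat_lit 8) (.p (nat_lit 40) (nat_lit 8) (.p (nat_lit 41) (nat_lit 4) .z))) (.ct dZ8b_c21 (nat_lit 4) (nat_lit 0) (.s false (nat_lit 1) (nat_lit 4) (nat_lit 0) (nat_lit 1) (nat_lit 4) true (nat_lit 0) true (nat_lit 1) true (nat_lit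 1) true (nat_lit 4) true (nat_lit 3) (.e false (nat_lit 4) (nat_lit 15) (nat_lit 4) (nat_lit 1) .nil))) (.nd .leaf (nat_lit 9225) (nat_lit 71) (.p (nat_lit 44) (nat_lit 4) .z) (.ct dZ8b_c6 (nat_lit 4) (nat_lit 0) (.s false (nat_lit 1) (nat_lit 4) (nat_lit 1) (nat_lit 1) (nat_lit 4) true (nat_lit 0) true (nat_lit 1) true (nat_lit 1) true (nat_lit 2) true (nat_lit 2) (.e false (nat_lit 4) (nat_lit 16) (nat_lit 4) (nat_lit 1) .nil))) .leaf)) (nat_lit 10241) (nat_lit 18) (.p (nat_lit 17) (nat_lit 4) .z) .df (.nd (.nd .leaf (nat_lit 10244) (nat_lit 52) (.n (nat_lit 29) (nat_lit 8) (.p (nat_lit 30) (nat_lit 8) (.p (nat_lit 32) (nat_lit 4) (.n (nat_lit 33) (nat_lit 4) (.n (nat_lit 35) (nat_lit 4) (.p (nat_lit 36) (nat_lit 4) .z)))))) (.ct dZ8b_c36 (nat_lit 4) (nat_lit 2) (.s true (nat_lit 1) (nat_lit 4) (nat_lit 2) (nat_lit 1) (nat_lit 1) true (nat_lit 1) true (nat_lit 5) true (nat_lit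 2) true (nat_lit 4) true (nat_lit 5) (.s false (nat_lit 1) (nat_lit 9) (nat_lit 0) (nat_lit 0) (nat_lit 1) true (nat_lit 3) true (nat_lit 5) false (nat_lit 1) true (nat_lit 6) true (nat_lit 6) (.e true (nat_lit 12) (nat_lit 18) (nat_lit 1) (nat_lit 5) (.e false (nat_lit 4) (nat_lit 19) (nat_lit 1) (nat_lit 5) (.e false (nat_lit 4) (nat_lit 17) (nat_lit 1) (nat_lit 5) (.e false (nat_lit 8) (nat_lit 21) (nat_lit 1) (nat_lit 5) (.e false (nat_lit 4) (nat_lit 22) (nat_lit 1) (nat_lit 5) (.e false (nat_lit 4) (nat_lit 15) (nat_lit 3) (nat_lit 3) (.e true (nat_lit 4) (nat_lit 25) (nat_lit 0) (nat_lit 6) .nil)))))))))) .leaf) (nat_lit 11265) (nat_lit 19) (.p (nat_lit 18) (nat_lit 4) .z) .df (.nd .leaf (nat_lit 11268) (nat_lit 46) (.p (nat_lit 36) (nat_lit 4) .z) .df .leaf))) (nat_lit 11273) (nat_lit 101) (.n (nat_lit 50) (nat_lit 4) (.p (nat_lit 54) (nat_lit 4) .z)) (.ct dZ8b_c37 (nat_lit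 4) (nat_lit 0) (.s false (nat_lit 1) (nat_lit 6) (nat_lit 1) (nat_lit 1) (nat_lit 4) true (nat_lit 0) true (nat_lit 3) true (nat_lit 2) true (nat_lit 6) true (nat_lit 6) (.e false (nat_lit 4) (nat_lit 18) (nat_lit 4) (nat_lit 3) (.e true (nat_lit 4) (nat_lit 36) (nat_lit 1) (nat_lit 6) .nil)))) (.nd (.nd (.nd .leaf (nat_lit 12289) (nat_lit 20) (.p (nat_lit 19) (nat_lit 4) .z) .df .leaf) (nat_lit 12292) (nat_lit 51) (.p (nat_lit 28) (nat_lit 4) (.n (nat_lit 29) (nat_lit 12) (.p (nat_lit 30) (nat_lit 4) (.p (nat_lit 32) (nat_lit 4) (.p (nat_lit 33) (nat_lit 4) (.p (nat_lit 36) (nat_lit 4) .z)))))) (.ct dZ8b_c36 (nat_lit 4) (nat_lit 2) (.s false (nat_lit 1) (nat_lit 4) (nat_lit 1) (nat_lit 3) (nat_lit 0) true (nat_lit 3) true (nat_lit 6) true (nat_lit 2) true (nat_lit 5) true (nat_lit 3) (.e false (nat_lit 4) (nat_lit 15) (nat_lit 3) (nat_lit 3) (.e false (nat_lit 4) (nat_lit 25) (nat_lit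 0) (nat_lit 6) (.e true (nat_lit 4) (nat_lit 26) (nat_lit 0) (nat_lit 6) (.e true (nat_lit 4) (nat_lit 22) (nat_lit 1) (nat_lit 5) .nil)))))) (.nd .leaf (nat_lit 12297) (nat_lit 85) (.n (nat_lit 50) (nat_lit 4) (.n (nat_lit 51) (nat_lit 8) (.p (nat_lit 52) (nat_lit 8) (.p (nat_lit 53) (nat_lit 4) (.p (nat_lit 54) (nat_lit 4) .z))))) (.ct dZ8b_c37 (nat_lit 8) (nat_lit 0) (.s false (nat_lit 1) (nat_lit 4) (nat_lit 0) (nat_lit 4) (nat_lit 3) true (nat_lit 2) true (nat_lit 4) true (nat_lit 3) true (nat_lit 7) true (nat_lit 3) (.s false (nat_lit 2) (nat_lit 6) (nat_lit 1) (nat_lit 1) (nat_lit 4) true (nat_lit 0) true (nat_lit 3) true (nat_lit 2) true (nat_lit 6) true (nat_lit 6) (.s true (nat_lit 1) (nat_lit 8) (nat_lit 4) (nat_lit 0) (nat_lit 1) true (nat_lit 0) true (nat_lit 6) true (nat_lit 1) true (nat_lit 3) true (nat_lit 7) (.s true (nat_lit 2) (nat_lit 9) (nat_lit 0) (nat_lit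 3) (nat_lit 1) true (nat_lit 4) true (nat_lit 6) true (nat_lit 0) true (nat_lit 7) true (nat_lit 4) (.s false (nat_lit 1) (nat_lit 9) (nat_lit 0) (nat_lit 4) (nat_lit 0) true (nat_lit 5) true (nat_lit 7) true (nat_lit 0) true (nat_lit 7) true (nat_lit 3) (.s false (nat_lit 2) (nat_lit 9) (nat_lit 1) (nat_lit 0) (nat_lit 3) true (nat_lit 1) true (nat_lit 4) true (nat_lit 0) true (nat_lit 6) true (nat_lit 7) (.s false (nat_lit 2) (nat_lit 9) (nat_lit 1) (nat_lit 3) (nat_lit 0) true (nat_lit 4) true (nat_lit 7) true (nat_lit 0) true (nat_lit 6) true (nat_lit 4) (.s true (nat_lit 1) (nat_lit 14) (nat_lit 0) (nat_lit 1) (nat_lit 1) true (nat_lit 4) true (nat_lit 6) false (nat_lit 1) true (nat_lit 7) true (nat_lit 6) (.s false (nat_lit 1) (nat_lit 14) (nat_lit 1) (nat_lit 0) (nat_lit 1) true (nat_lit 3) true (nat_lit 6) false (nat_lit 1) true (nat_lit 6) true (nat_lit 7) (.s true (nat_lit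 2) (nat_lit 15) (nat_lit 1) (nat_lit 0) (nat_lit 1) true (nat_lit 3) true (nat_lit 6) false (nat_lit 1) true (nat_lit 6) true (nat_lit 7) (.s true (nat_lit 1) (nat_lit 14) (nat_lit 1) (nat_lit 1) (nat_lit 0) true (nat_lit 4) true (nat_lit 7) false (nat_lit 1) true (nat_lit 6) true (nat_lit 6) (.e false (nat_lit 8) (nat_lit 18) (nat_lit 4) (nat_lit 3) (.e true (nat_lit 16) (nat_lit 39) (nat_lit 0) (nat_lit 7) (.e false (nat_lit 16) (nat_lit 40) (nat_lit 0) (nat_lit 7) (.e true (nat_lit 8) (nat_lit 36) (nat_lit 1) (nat_lit 6) (.e false (nat_lit 8) (nat_lit 41) (nat_lit 0) (nat_lit 7) .nil))))))))))))))))) .leaf)) (nat_lit 13312) (nat_lit 27) (.n (nat_lit 18) (nat_lit 2) (.p (nat_lit 19) (nat_lit 6) (.n (nat_lit 20) (nat_lit 2) (.p (nat_lit 21) (nat_lit 2) (.p (nat_lit 22) (nat_lit 4) .z))))) (.ct dZ8b_c35 (nat_lit 4) (nat_lit 4) (.s false (nat_lit 1) (nat_lit 3) (nat_lit 1) (nat_lit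 0) (nat_lit 1) true (nat_lit 0) true (nat_lit 3) true (nat_lit 1) true (nat_lit 3) true (nat_lit 4) (.e false (nat_lit 4) (nat_lit 6) (nat_lit 4) (nat_lit 0) (.e false (nat_lit 4) (nat_lit 12) (nat_lit 1) (nat_lit 3) (.e false (nat_lit 4) (nat_lit 7) (nat_lit 3) (nat_lit 1) .nil))))) (.nd (.nd .leaf (nat_lit 13313) (nat_lit 29) (.p (nat_lit 23) (nat_lit 4) .z) .df .leaf) (nat_lit 13315) (nat_lit 47) (.p (nat_lit 37) (nat_lit 4) .z) .df .leaf))) (nat_lit 13316) (nat_lit 69) (.n (nat_lit 39) (nat_lit 4) (.p (nat_lit 40) (nat_lit 4) (.p (nat_lit 42) (nat_lit 4) .z))) (.ct dZ8b_c21 (nat_lit 4) (nat_lit 1) (.s true (nat_lit 1) (nat_lit 4) (nat_lit 3) (nat_lit 1) (nat_lit 1) true (nat_lit 0) true (nat_lit 3) true (nat_lit 1) true (nat_lit 2) true (nat_lit 3) (.e false (nat_lit 4) (nat_lit 9) (nat_lit 7) (nat_lit 0) (.e true (nat_lit 4) (nat_lit 24) (nat_lit 1) (nat_lit 3) (.e false (nat_lit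 4) (nat_lit 26) (nat_lit 1) (nat_lit 3) .nil))))) (.nd (.nd (.nd (.nd .leaf (nat_lit 13319) (nat_lit 103) (.n (nat_lit 45) (nat_lit 1) (.p (nat_lit 46) (nat_lit 1) (.n (nat_lit 47) (nat_lit 3) (.p (nat_lit 48) (nat_lit 1) (.n (nat_lit 49) (nat_lit 1) (.p (nat_lit 50) (nat_lit 5) (.p (nat_lit 53) (nat_lit 1) (.p (nat_lit 55) (nat_lit 4) .z)))))))) (.ct dZ8b_c37 (nat_lit 4) (nat_lit 1) (.s false (nat_lit 1) (nat_lit 7) (nat_lit 1) (nat_lit 1) (nat_lit 3) true (nat_lit 1) true (nat_lit 4) true (nat_lit 1) true (nat_lit 6) true (nat_lit 6) (.e false (nat_lit 4) (nat_lit 23) (nat_lit 3) (nat_lit 4) (.e false (nat_lit 4) (nat_lit 14) (nat_lit 7) (nat_lit 1) (.e true (nat_lit 4) (nat_lit 15) (nat_lit 7) (nat_lit 1) (.e false (nat_lit 4) (nat_lit 33) (nat_lit 1) (nat_lit 6) (.e true (nat_lit 4) (nat_lit 34) (nat_lit 1) (nat_lit 6) (.e false (nat_lit 4) (nat_lit 35) (nat_lit 1) (nat_lit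 6) (.e true (nat_lit 4) (nat_lit 37) (nat_lit 1) (nat_lit 6) .nil))))))))) .leaf) (nat_lit 13320) (nat_lit 100) (.p (nat_lit 45) (nat_lit 26) (.n (nat_lit 46) (nat_lit 26) (.n (nat_lit 47) (nat_lit 10) (.p (nat_lit 48) (nat_lit 2) (.n (nat_lit 49) (nat_lit 2) (.n (nat_lit 50) (nat_lit 22) (.p (nat_lit 51) (nat_lit 44) (.n (nat_lit 52) (nat_lit 44) (.n (nat_lit 53) (nat_lit 22) (.p (nat_lit 54) (nat_lit 4) .z)))))))))) (.ct dZ8b_c37 (nat_lit 4) (nat_lit 1) (.s false (nat_lit 1) (nat_lit 7) (nat_lit 0) (nat_lit 1) (nat_lit 4) true (nat_lit 1) true (nat_lit 3) true (nat_lit 1) true (nat_lit 7) true (nat_lit 6) (.e false (nat_lit 4) (nat_lit 19) (nat_lit 4) (nat_lit 3) (.e true (nat_lit 4) (nat_lit 14) (nat_lit 7) (nat_lit 1) (.e false (nat_lit 4) (nat_lit 15) (nat_lit 7) (nat_lit 1) (.e true (nat_lit 4) (nat_lit 42) (nat_lit 0) (nat_lit 7) (.e false (nat_lit 4) (nat_lit 34) (nat_lit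 1) (nat_lit 6) (.e true (nat_lit 4) (nat_lit 35) (nat_lit 1) (nat_lit 6) .nil)))))))) (.nd .leaf (nat_lit 13321) (nat_lit 119) (.n (nat_lit 57) (nat_lit 8) (.p (nat_lit 58) (nat_lit 8) (.p (nat_lit 59) (nat_lit 4) (.p (nat_lit 61) (nat_lit 4) .z)))) (.ct dZ8b_c22 (nat_lit 4) (nat_lit 0) (.s true (nat_lit 1) (nat_lit 9) (nat_lit 3) (nat_lit 1) (nat_lit 1) true (nat_lit 1) true (nat_lit 4) true (nat_lit 0) true (nat_lit 3) true (nat_lit 4) (.e false (nat_lit 4) (nat_lit 16) (nat_lit 7) (nat_lit 1) (.e true (nat_lit 4) (nat_lit 42) (nat_lit 1) (nat_lit 4) .nil)))) .leaf)) (nat_lit 14336) (nat_lit 21) (.p (nat_lit 20) (nat_lit 4) .z) .df (.nd (.nd .leaf (nat_lit 14337) (nat_lit 30) (.p (nat_lit 24) (nat_lit 4) .z) .df .leaf) (nat_lit 14339) (nat_lit 48) (.p (nat_lit 31) (nat_lit 4) (.n (nat_lit 32) (nat_lit 4) (.n (nat_lit 33) (nat_lit 4) (.p (nat_lit 34) (nat_lit 4) (.n (nat_lit 35)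 (nat_lit 4) (.p (nat_lit 36) (nat_lit 4) .z)))))) (.ct dZ8b_c36 (nat_lit 4) (nat_lit 3) (.s true (nat_lit 1) (nat_lit 4) (nat_lit 0) (nat_lit 1) (nat_lit 3) true (nat_lit 1) true (nat_lit 3) true (nat_lit 2) true (nat_lit 6) true (nat_lit 5) (.s false (nat_lit 1) (nat_lit 6) (nat_lit 1) (nat_lit 1) (nat_lit 1) true (nat_lit 2) true (nat_lit 5) true (nat_lit 1) true (nat_lit 5) true (nat_lit 5) (.e false (nat_lit 4) (nat_lit 24) (nat_lit 0) (nat_lit 6) (.e true (nat_lit 4) (nat_lit 26) (nat_lit 0) (nat_lit 6) (.e false (nat_lit 4) (nat_lit 20) (nat_lit 1) (nat_lit 5) (.e true (nat_lit 4) (nat_lit 21) (nat_lit 1) (nat_lit 5) (.e false (nat_lit 4) (nat_lit 11) (nat_lit 4) (nat_lit 2) (.e true (nat_lit 4) (nat_lit 22) (nat_lit 1) (nat_lit 5) .nil))))))))) (.nd .leaf (nat_lit 14340) (nat_lit 62) (.p (nat_lit 41) (nat_lit 4) .z) .df .leaf))) (nat_lit 14343) (nat_lit 88) (.p (nat_lit 45)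 (nat_lit 14) (.n (nat_lit 46) (nat_lit 14) (.n (nat_lit 47) (nat_lit 6) (.p (nat_lit 48) (nat_lit 2) (.n (nat_lit 49) (nat_lit 2) (.n (nat_lit 50) (nat_lit 14) (.p (nat_lit 51) (nat_lit 20) (.n (nat_lit 52) (nat_lit 20) (.n (nat_lit 53) (nat_lit 10) (.p (nat_lit 54) (nat_lit 4) .z)))))))))) (.ct dZ8b_c37 (nat_lit 32) (nat_lit 1) (.s false (nat_lit 2) (nat_lit 4) (nat_lit 0) (nat_lit 4) (nat_lit 3) true (nat_lit 2) true (nat_lit 4) true (nat_lit 3) true (nat_lit 7) true (nat_lit 3) (.s false (nat_lit 3) (nat_lit 6) (nat_lit 1) (nat_lit 1) (nat_lit 4) true (nat_lit 0) true (nat_lit 3) true (nat_lit 2) true (nat_lit 6) true (nat_lit 6) (.s false (nat_lit 1) (nat_lit 6) (nat_lit 1) (nat_lit 4) (nat_lit 1) true (nat_lit 3) true (nat_lit 6) true (nat_lit 2) true (nat_lit 6) true (nat_lit 3) (.s false (nat_lit 1) (nat_lit 6) (nat_lit 4) (nat_lit 1) (nat_lit 1) true (nat_lit 0) true (nat_lit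 6) true (nat_lit 2) true (nat_lit 3) true (nat_lit 6) (.s true (nat_lit 4) (nat_lit 9) (nat_lit 0) (nat_lit 3) (nat_lit 1) true (nat_lit 4) true (nat_lit 6) true (nat_lit 0) true (nat_lit 7) true (nat_lit 4) (.s false (nat_lit 4) (nat_lit 9) (nat_lit 1) (nat_lit 0) (nat_lit 3) true (nat_lit 1) true (nat_lit 4) true (nat_lit 0) true (nat_lit 6) true (nat_lit 7) (.s false (nat_lit 4) (nat_lit 9) (nat_lit 1) (nat_lit 3) (nat_lit 0) true (nat_lit 4) true (nat_lit 7) true (nat_lit 0) true (nat_lit 6) true (nat_lit 4) (.s true (nat_lit 4) (nat_lit 12) (nat_lit 1) (nat_lit 1) (nat_lit 1) true (nat_lit 3) true (nat_lit 6) false (nat_lit 0) true (nat_lit 6) true (nat_lit 6) (.s false (nat_lit 4) (nat_lit 14) (nat_lit 0) (nat_lit 1) (nat_lit 1) true (nat_lit 4) true (nat_lit 6) false (nat_lit 1) true (nat_lit 7) true (nat_lit 6) (.s false (nat_lit 4) (nat_lit 14) (nat_lit 1) (nat_lit 0) (nat_lit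 1) true (nat_lit 3) true (nat_lit 6) false (nat_lit 1) true (nat_lit 6) true (nat_lit 7) (.s true (nat_lit 4) (nat_lit 15) (nat_lit 1) (nat_lit 0) (nat_lit 1) true (nat_lit 3) true (nat_lit 6) false (nat_lit 1) true (nat_lit 6) true (nat_lit 7) (.e false (nat_lit 32) (nat_lit 24) (nat_lit 3) (nat_lit 4) (.e true (nat_lit 16) (nat_lit 29) (nat_lit 1) (nat_lit 6) (.e false (nat_lit 16) (nat_lit 30) (nat_lit 1) (nat_lit 6) (.e false (nat_lit 16) (nat_lit 32) (nat_lit 1) (nat_lit 6) (.e true (nat_lit 16) (nat_lit 41) (nat_lit 0) (nat_lit 7) (.e true (nat_lit 16) (nat_lit 34) (nat_lit 1) (nat_lit 6) .nil)))))))))))))))))) (.nd (.nd (.nd .leaf (nat_lit 14344) (nat_lit 93) (.p (nat_lit 45) (nat_lit 8) (.n (nat_lit 46) (nat_lit 8) (.n (nat_lit 48) (nat_lit 4) (.n (nat_lit 50) (nat_lit 8) (.p (nat_lit 51) (nat_lit 8) (.n (nat_lit 52) (nat_lit 4) (.n (nat_lit 53) (nat_lit 4) (.p (nat_lit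 54) (nat_lit 4) .z)))))))) (.ct dZ8b_c37 (nat_lit 4) (nat_lit 1) (.s false (nat_lit 2) (nat_lit 14) (nat_lit 0) (nat_lit 1) (nat_lit 1) true (nat_lit 4) true (nat_lit 6) false (nat_lit 1) true (nat_lit 7) true (nat_lit 6) (.s false (nat_lit 1) (nat_lit 14) (nat_lit 1) (nat_lit 1) (nat_lit 0) true (nat_lit 4) true (nat_lit 7) false (nat_lit 1) true (nat_lit 6) true (nat_lit 6) (.e false (nat_lit 12) (nat_lit 24) (nat_lit 3) (nat_lit 4) (.e true (nat_lit 8) (nat_lit 14) (nat_lit 7) (nat_lit 1) (.e true (nat_lit 8) (nat_lit 41) (nat_lit 0) (nat_lit 7) (.e true (nat_lit 12) (nat_lit 34) (nat_lit 1) (nat_lit 6) (.e false (nat_lit 4) (nat_lit 39) (nat_lit 0) (nat_lit 7) (.e false (nat_lit 4) (nat_lit 32) (nat_lit 1) (nat_lit 6) (.e false (nat_lit 4) (nat_lit 33) (nat_lit 1) (nat_lit 6) (.e false (nat_lit 4) (nat_lit 35) (nat_lit 1) (nat_lit 6) (.e true (nat_lit 4) (nat_lit 36) (nat_lit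 1) (nat_lit 6) .nil)))))))))))) .leaf) (nat_lit 14345) (nat_lit 111) (.p (nat_lit 57) (nat_lit 8) (.n (nat_lit 58) (nat_lit 8) (.n (nat_lit 59) (nat_lit 4) (.p (nat_lit 60) (nat_lit 4) .z)))) (.ct dZ8b_c22 (nat_lit 4) (nat_lit 0) (.s false (nat_lit 1) (nat_lit 9) (nat_lit 1) (nat_lit 0) (nat_lit 4) true (nat_lit 0) true (nat_lit 2) true (nat_lit 0) true (nat_lit 4) true (nat_lit 5) (.e false (nat_lit 4) (nat_lit 26) (nat_lit 4) (nat_lit 2) (.e false (nat_lit 8) (nat_lit 39) (nat_lit 1) (nat_lit 4) (.e true (nat_lit 8) (nat_lit 40) (nat_lit 1) (nat_lit 4) (.e true (nat_lit 4) (nat_lit 41) (nat_lit 1) (nat_lit 4) .nil)))))) (.nd .leaf (nat_lit 15360) (nat_lit 22) (.p (nat_lit 21) (nat_lit 4) .z) .df .leaf)) (nat_lit 15361) (nat_lit 31) (.p (nat_lit 25) (nat_lit 4) .z) .df (.nd (.nd .leaf (nat_lit 15363) (nat_lit 49) (.n (nat_lit 29) (nat_lit 4) (.p (nat_lit 30) (nat_lit 4) (.p (nat_lit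 36) (nat_lit 4) .z))) (.ct dZ8b_c36 (nat_lit 4) (nat_lit 3) (.s false (nat_lit 1) (nat_lit 3) (nat_lit 1) (nat_lit 1) (nat_lit 3) true (nat_lit 0) true (nat_lit 3) true (nat_lit 3) true (nat_lit 5) true (nat_lit 5) (.s true (nat_lit 1) (nat_lit 7) (nat_lit 0) (nat_lit 1) (nat_lit 1) true (nat_lit 3) true (nat_lit 5) true (nat_lit 0) true (nat_lit 6) true (nat_lit 5) (.e false (nat_lit 4) (nat_lit 14) (nat_lit 3) (nat_lit 3) (.e true (nat_lit 4) (nat_lit 18) (nat_lit 1) (nat_lit 5) (.e false (nat_lit 4) (nat_lit 19) (nat_lit 1) (nat_lit 5) (.e true (nat_lit 4) (nat_lit 20) (nat_lit 1) (nat_lit 5) (.e false (nat_lit 4) (nat_lit 21) (nat_lit 1) (nat_lit 5) (.e true (nat_lit 4) (nat_lit 24) (nat_lit 0) (nat_lit 6) (.e false (nat_lit 4) (nat_lit 26) (nat_lit 0) (nat_lit 6) (.e false (nat_lit 4) (nat_lit 22) (nat_lit 1) (nat_lit 5) .nil))))))))))) .leaf) (nat_lit 15364) (nat_lit 64) (.n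 (nat_lit 39) (nat_lit 8) (.p (nat_lit 40) (nat_lit 8) (.p (nat_lit 41) (nat_lit 4) .z))) (.ct dZ8b_c21 (nat_lit 4) (nat_lit 1) (.s true (nat_lit 1) (nat_lit 4) (nat_lit 0) (nat_lit 4) (nat_lit 1) true (nat_lit 2) true (nat_lit 3) true (nat_lit 1) true (nat_lit 4) true (nat_lit 1) (.e true (nat_lit 8) (nat_lit 24) (nat_lit 1) (nat_lit 3) (.e false (nat_lit 8) (nat_lit 25) (nat_lit 1) (nat_lit 3) (.e false (nat_lit 4) (nat_lit 14) (nat_lit 4) (nat_lit 1) .nil))))) .leaf)))))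

noncomputable def dZ8b_t1 : Tr := (.nd dZ8b_t0 (nat_lit 15367) (nat_lit 97) (.p (nat_lit 45) (nat_lit 12) (.n (nat_lit 46) (nat_lit 12) (.n (nat_lit 50) (nat_lit 16) (.p (nat_lit 51) (nat_lit 16) (.n (nat_lit 52) (nat_lit 16) (.n (nat_lit 53) (nat_lit 8) (.p (nat_lit 54) (nat_lit 4) .z))))))) (.ct dZ8b_c37 (nat_lit 4) (nat_lit 1) (.s false (nat_lit 1) (nat_lit 9) (nat_lit 1) (nat_lit 0) (nat_lit 3) true (nat_lit 1) true (nat_lit 4) true (nat_lit 0) true (nat_lit 6) true (nat_lit 7) (.e false (nat_lit 4) (nat_lit 26) (nat_lit 3) (nat_lit 4) (.e false (nat_lit 4) (nat_lit 33) (nat_lit 1) (nat_lit 6) (.e true (nat_lit 4) (nat_lit 36) (nat_lit 1) (nat_lit 6) .nil))))) (.nd (.nd (.nd (.nd (.nd (.nd .leaf (nat_lit 15369) (nat_lit 113) (.p (nat_lit 57) (nat_lit 16) (.n (nat_lit 58) (nat_lit 16) (.n (nat_lit 59) (nat_lit 8) (.p (nat_lit 60) (nat_lit 4) .z)))) (.ct dZ8b_c22 (nat_lit 4)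 (nat_lit 0) (.s true (nat_lit 1) (nat_lit 4) (nat_lit 3) (nat_lit 1) (nat_lit 4) false (nat_lit 0) true (nat_lit 2) true (nat_lit 2) true (nat_lit 3) true (nat_lit 4) (.e false (nat_lit 4) (nat_lit 14) (nat_lit 9) (nat_lit 0) (.e false (nat_lit 4) (nat_lit 25) (nat_lit 4) (nat_lit 2) (.e true (nat_lit 4) (nat_lit 26) (nat_lit 4) (nat_lit 2) .nil))))) .leaf) (nat_lit 16384) (nat_lit 32) (.p (nat_lit 26) (nat_lit 4) .z) .df (.nd .leaf (nat_lit 16385) (nat_lit 36) (.p (nat_lit 27) (nat_lit 4) .z) .df .leaf)) (nat_lit 16386) (nat_lit 56) (.p (nat_lit 32) (nat_lit 4) (.n (nat_lit 33) (nat_lit 4) (.n (nat_lit 35) (nat_lit 4) (.p (nat_lit 36) (nat_lit 4) .z)))) (.ct dZ8b_c36 (nat_lit 4) (nat_lit 4) (.s true (nat_lit 1) (nat_lit 9) (nat_lit 0) (nat_lit 1) (nat_lit 0) true (nat_lit 4) true (nat_lit 6) false (nat_lit 1) true (nat_lit 6) true (nat_lit 5) (.e false (nat_lit 4) (nat_lit 9) (nat_lit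 6) (nat_lit 1) (.e true (nat_lit 4) (nat_lit 26) (nat_lit 0) (nat_lit 6) (.e false (nat_lit 4) (nat_lit 21) (nat_lit 1) (nat_lit 5) .nil))))) (.nd (.nd .leaf (nat_lit 16387) (nat_lit 63) (.p (nat_lit 42) (nat_lit 4) .z) .df .leaf) (nat_lit 16388) (nat_lit 70) (.p (nat_lit 44) (nat_lit 4) .z) .df (.nd .leaf (nat_lit 16390) (nat_lit 99) (.n (nat_lit 47) (nat_lit 4) (.p (nat_lit 54) (nat_lit 4) .z)) (.ct dZ8b_c37 (nat_lit 4) (nat_lit 2) (.s false (nat_lit 1) (nat_lit 6) (nat_lit 1) (nat_lit 4) (nat_lit 1) true (nat_lit 3) true (nat_lit 6) true (nat_lit 2) true (nat_lit 6) true (nat_lit 3) (.e true (nat_lit 4) (nat_lit 22) (nat_lit 4) (nat_lit 3) (.e false (nat_lit 8) (nat_lit 36) (nat_lit 1) (nat_lit 6) (.e true (nat_lit 4) (nat_lit 33) (nat_lit 1) (nat_lit 6) (.e false (nat_lit 4) (nat_lit 18) (nat_lit 4) (nat_lit 3) .nil)))))) .leaf))) (nat_lit 16391) (nat_lit 118) (.n (nat_lit 57)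 (nat_lit 8) (.p (nat_lit 58) (nat_lit 8) (.p (nat_lit 59) (nat_lit 4) (.p (nat_lit 61) (nat_lit 4) .z)))) (.ct dZ8b_c22 (nat_lit 4) (nat_lit 1) (.s false (nat_lit 1) (nat_lit 9) (nat_lit 1) (nat_lit 1) (nat_lit 3) true (nat_lit 1) true (nat_lit 3) true (nat_lit 0) true (nat_lit 4) true (nat_lit 4) (.e false (nat_lit 4) (nat_lit 27) (nat_lit 3) (nat_lit 3) (.e false (nat_lit 4) (nat_lit 14) (nat_lit 9) (nat_lit 0) (.e true (nat_lit 4) (nat_lit 15) (nat_lit 9) (nat_lit 0) (.e true (nat_lit 4) (nat_lit 42) (nat_lit 1) (nat_lit 4) .nil)))))) (.nd (.nd (.nd .leaf (nat_lit 16392) (nat_lit 116) (.p (nat_lit 60) (nat_lit 4) .z) (.ct dZ8b_c22 (nat_lit 4) (nat_lit 1) (.s false (nat_lit 1) (nat_lit 9) (nat_lit 0) (nat_lit 1) (nat_lit 4) true (nat_lit 1) true (nat_lit 2) true (nat_lit 0) true (nat_lit 5) true (nat_lit 4) (.e false (nat_lit 4) (nat_lit 25) (nat_lit 4) (nat_lit 2) (.e true (nat_lit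 4) (nat_lit 14) (nat_lit 9) (nat_lit 0) (.e false (nat_lit 4) (nat_lit 15) (nat_lit 9) (nat_lit 0) (.e true (nat_lit 4) (nat_lit 44) (nat_lit 0) (nat_lit 5) .nil)))))) .leaf) (nat_lit 17409) (nat_lit 38) (.p (nat_lit 28) (nat_lit 4) .z) .df (.nd .leaf (nat_lit 17412) (nat_lit 95) (.p (nat_lit 45) (nat_lit 28) (.n (nat_lit 46) (nat_lit 28) (.n (nat_lit 47) (nat_lit 12) (.p (nat_lit 49) (nat_lit 4) (.n (nat_lit 50) (nat_lit 28) (.p (nat_lit 51) (nat_lit 56) (.n (nat_lit 52) (nat_lit 60) (.n (nat_lit 53) (nat_lit 28) (.p (nat_lit 54) (nat_lit 4) .z))))))))) (.ct dZ8b_c37 (nat_lit 8) (nat_lit 3) (.s true (nat_lit 2) (nat_lit 4) (nat_lit 2) (nat_lit 1) (nat_lit 4) false (nat_lit 0) true (nat_lit 3) true (nat_lit 3) true (nat_lit 5) true (nat_lit 6) (.s false (nat_lit 5) (nat_lit 6) (nat_lit 1) (nat_lit 1) (nat_lit 4) true (nat_lit 0) true (nat_lit 3) true (nat_lit 2) true (nat_lit 6)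 true (nat_lit 6) (.s true (nat_lit 1) (nat_lit 6) (nat_lit 1) (nat_lit 4) (nat_lit 1) true (nat_lit 3) true (nat_lit 6) true (nat_lit 2) true (nat_lit 6) true (nat_lit 3) (.s true (nat_lit 1) (nat_lit 6) (nat_lit 4) (nat_lit 1) (nat_lit 1) true (nat_lit 0) true (nat_lit 6) true (nat_lit 2) true (nat_lit 3) true (nat_lit 6) (.e true (nat_lit 16) (nat_lit 12) (nat_lit 9) (nat_lit 0) (.e false (nat_lit 24) (nat_lit 18) (nat_lit 4) (nat_lit 3) (.e false (nat_lit 8) (nat_lit 19) (nat_lit 4) (nat_lit 3) (.e true (nat_lit 8) (nat_lit 21) (nat_lit 4) (nat_lit 3) (.e true (nat_lit 32) (nat_lit 36) (nat_lit 1) (nat_lit 6) .nil)))))))))) .leaf)) (nat_lit 18433) (nat_lit 39) (.p (nat_lit 29) (nat_lit 4) .z) .df (.nd (.nd .leaf (nat_lit 18436) (nat_lit 81) (.p (nat_lit 54) (nat_lit 4) .z) .df .leaf) (nat_lit 19457) (nat_lit 40) (.p (nat_lit 30) (nat_lit 4) .z) .df .leaf))) (nat_lit 19460) (nat_lit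 92) (.p (nat_lit 45) (nat_lit 16) (.n (nat_lit 46) (nat_lit 16) (.n (nat_lit 47) (nat_lit 8) (.n (nat_lit 50) (nat_lit 16) (.p (nat_lit 51) (nat_lit 24) (.n (nat_lit 52) (nat_lit 24) (.n (nat_lit 53) (nat_lit 12) (.p (nat_lit 54) (nat_lit 4) .z)))))))) (.ct dZ8b_c37 (nat_lit 4) (nat_lit 3) (.s true (nat_lit 1) (nat_lit 12) (nat_lit 1) (nat_lit 1) (nat_lit 1) true (nat_lit 3) true (nat_lit 6) false (nat_lit 0) true (nat_lit 6) true (nat_lit 6) (.e false (nat_lit 4) (nat_lit 30) (nat_lit 1) (nat_lit 6) (.e false (nat_lit 4) (nat_lit 12) (nat_lit 9) (nat_lit 0) (.e false (nat_lit 4) (nat_lit 28) (nat_lit 1) (nat_lit 6) (.e true (nat_lit 12) (nat_lit 29) (nat_lit 1) (nat_lit 6) (.e false (nat_lit 4) (nat_lit 32) (nat_lit 1) (nat_lit 6) (.e false (nat_lit 4) (nat_lit 33) (nat_lit 1) (nat_lit 6) (.e false (nat_lit 4) (nat_lit 36) (nat_lit 1) (nat_lit 6) .nil))))))))) (.nd (.nd (.nd (.nd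 .leaf (nat_lit 20481) (nat_lit 41) (.p (nat_lit 31) (nat_lit 4) .z) .df .leaf) (nat_lit 20484) (nat_lit 90) (.n (nat_lit 47) (nat_lit 8) (.p (nat_lit 48) (nat_lit 4) (.n (nat_lit 49) (nat_lit 8) (.p (nat_lit 51) (nat_lit 8) (.n (nat_lit 52) (nat_lit 4) (.p (nat_lit 54) (nat_lit 4) .z)))))) (.ct dZ8b_c37 (nat_lit 4) (nat_lit 3) (.s true (nat_lit 1) (nat_lit 14) (nat_lit 0) (nat_lit 1) (nat_lit 1) true (nat_lit 4) true (nat_lit 6) false (nat_lit 1) true (nat_lit 7) true (nat_lit 6) (.s true (nat_lit 1) (nat_lit 14) (nat_lit 1) (nat_lit 0) (nat_lit 1) true (nat_lit 3) true (nat_lit 6) false (nat_lit 1) true (nat_lit 6) true (nat_lit 7) (.e true (nat_lit 4) (nat_lit 24) (nat_lit 3) (nat_lit 4) (.e false (nat_lit 8) (nat_lit 14) (nat_lit 7) (nat_lit 1) (.e false (nat_lit 4) (nat_lit 41) (nat_lit 0) (nat_lit 7) (.e false (nat_lit 4) (nat_lit 34) (nat_lit 1) (nat_lit 6) (.e true (nat_lit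 4) (nat_lit 32) (nat_lit 1) (nat_lit 6) (.e true (nat_lit 4) (nat_lit 33) (nat_lit 1) (nat_lit 6) (.e true (nat_lit 4) (nat_lit 35) (nat_lit 1) (nat_lit 6) (.e false (nat_lit 4) (nat_lit 36) (nat_lit 1) (nat_lit 6) (.e false (nat_lit 4) (nat_lit 39) (nat_lit 0) (nat_lit 7) .nil)))))))))))) (.nd .leaf (nat_lit 21505) (nat_lit 42) (.p (nat_lit 32) (nat_lit 4) .z) .df .leaf)) (nat_lit 21508) (nat_lit 89) (.n (nat_lit 45) (nat_lit 12) (.p (nat_lit 46) (nat_lit 12) (.p (nat_lit 47) (nat_lit 4) (.n (nat_lit 49) (nat_lit 4) (.p (nat_lit 50) (nat_lit 4) (.n (nat_lit 51) (nat_lit 16) (.p (nat_lit 52) (nat_lit 20) (.p (nat_lit 53) (nat_lit 8) (.p (nat_lit 54) (nat_lit 4) .z))))))))) (.ct dZ8b_c37 (nat_lit 4) (nat_lit 3) (.s false (nat_lit 1) (nat_lit 9) (nat_lit 1) (nat_lit 0) (nat_lit 3) true (nat_lit 1) true (nat_lit 4) true (nat_lit 0) true (nat_lit 6) true (nat_lit 7) (.s true (nat_lit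 1) (nat_lit 15) (nat_lit 1) (nat_lit 0) (nat_lit 1) true (nat_lit 3) true (nat_lit 6) false (nat_lit 1) true (nat_lit 6) true (nat_lit 7) (.e false (nat_lit 4) (nat_lit 26) (nat_lit 3) (nat_lit 4) (.e true (nat_lit 4) (nat_lit 33) (nat_lit 1) (nat_lit 6) (.e true (nat_lit 4) (nat_lit 28) (nat_lit 1) (nat_lit 6) (.e false (nat_lit 4) (nat_lit 29) (nat_lit 1) (nat_lit 6) (.e true (nat_lit 4) (nat_lit 32) (nat_lit 1) (nat_lit 6) (.e true (nat_lit 4) (nat_lit 35) (nat_lit 1) (nat_lit 6) (.e false (nat_lit 4) (nat_lit 30) (nat_lit 1) (nat_lit 6) (.e false (nat_lit 4) (nat_lit 40) (nat_lit 0) (nat_lit 7) .nil))))))))))) (.nd (.nd .leaf (nat_lit 22529) (nat_lit 43) (.p (nat_lit 33) (nat_lit 4) .z) .df .leaf) (nat_lit 22532) (nat_lit 98) (.p (nat_lit 50) (nat_lit 8) .z) (.ct dZ8b_c37 (nat_lit 8) (nat_lit 3) (.s true (nat_lit 1) (nat_lit 6) (nat_lit 1) (nat_lit 1) (nat_lit 4) true (nat_lit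 0) true (nat_lit 3) true (nat_lit 2) true (nat_lit 6) true (nat_lit 6) (.s false (nat_lit 1) (nat_lit 6) (nat_lit 1) (nat_lit 4) (nat_lit 1) true (nat_lit 3) true (nat_lit 6) true (nat_lit 2) true (nat_lit 6) true (nat_lit 3) (.s false (nat_lit 1) (nat_lit 6) (nat_lit 4) (nat_lit 1) (nat_lit 1) true (nat_lit 0) true (nat_lit 6) true (nat_lit 2) true (nat_lit 3) true (nat_lit 6) (.e false (nat_lit 16) (nat_lit 36) (nat_lit 1) (nat_lit 6) .nil))))) (.nd .leaf (nat_lit 23552) (nat_lit 58) (.p (nat_lit 28) (nat_lit 4) (.n (nat_lit 29) (nat_lit 14) (.p (nat_lit 30) (nat_lit 10) (.n (nat_lit 31) (nat_lit 2) (.p (nat_lit 32) (nat_lit 6) (.p (nat_lit 33) (nat_lit 12) (.n (nat_lit 34) (nat_lit 4) (.p (nat_lit 35) (nat_lit 4) (.p (nat_lit 36) (nat_lit 4) (.n (nat_lit 37) (nat_lit 4) .z)))))))))) (.ct dZ8b_c36 (nat_lit 4) (nat_lit 6) (.s false (nat_lit 1) (nat_lit 7) (nat_lit 1) (nat_lit 0)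 (nat_lit 1) true (nat_lit 2) true (nat_lit 5) true (nat_lit 0) true (nat_lit 5) true (nat_lit 6) (.e false (nat_lit 4) (nat_lit 12) (nat_lit 4) (nat_lit 2) (.e false (nat_lit 4) (nat_lit 19) (nat_lit 1) (nat_lit 5) (.e false (nat_lit 4) (nat_lit 22) (nat_lit 1) (nat_lit 5) (.e true (nat_lit 4) (nat_lit 7) (nat_lit 7) (nat_lit 0) .nil)))))) .leaf))) (nat_lit 23553) (nat_lit 59) (.p (nat_lit 38) (nat_lit 4) .z) .df (.nd (.nd (.nd .leaf (nat_lit 23555) (nat_lit 82) (.p (nat_lit 55) (nat_lit 4) .z) .df .leaf) (nat_lit 24576) (nat_lit 44) (.p (nat_lit 34) (nat_lit 4) .z) .df (.nd .leaf (nat_lit 24577) (nat_lit 60) (.p (nat_lit 39) (nat_lit 4) .z) .df .leaf)) (nat_lit 24579) (nat_lit 83) (.p (nat_lit 45) (nat_lit 4) (.n (nat_lit 46) (nat_lit 4) (.n (nat_lit 47) (nat_lit 4) (.p (nat_lit 48) (nat_lit 4) (.n (nat_lit 49) (nat_lit 4) (.n (nat_lit 50) (nat_lit 4) (.p (nat_lit 51) (nat_lit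 4) (.n (nat_lit 52) (nat_lit 4) (.p (nat_lit 54) (nat_lit 4) .z))))))))) (.ct dZ8b_c37 (nat_lit 8) (nat_lit 4) (.s false (nat_lit 1) (nat_lit 4) (nat_lit 3) (nat_lit 3) (nat_lit 1) true (nat_lit 1) true (nat_lit 6) true (nat_lit 3) true (nat_lit 4) true (nat_lit 4) (.s false (nat_lit 2) (nat_lit 6) (nat_lit 1) (nat_lit 1) (nat_lit 4) true (nat_lit 0) true (nat_lit 3) true (nat_lit 2) true (nat_lit 6) true (nat_lit 6) (.s true (nat_lit 1) (nat_lit 9) (nat_lit 0) (nat_lit 3) (nat_lit 1) true (nat_lit 4) true (nat_lit 6) true (nat_lit 0) true (nat_lit 7) true (nat_lit 4) (.s true (nat_lit 1) (nat_lit 9) (nat_lit 1) (nat_lit 0) (nat_lit 3) true (nat_lit 1) true (nat_lit 4) true (nat_lit 0) true (nat_lit 6) true (nat_lit 7) (.s false (nat_lit 1) (nat_lit 9) (nat_lit 3) (nat_lit 0) (nat_lit 1) true (nat_lit 1) true (nat_lit 6) true (nat_lit 0) true (nat_lit 4) true (nat_lit 7) (.s true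 (nat_lit 1) (nat_lit 14) (nat_lit 0) (nat_lit 1) (nat_lit 1) true (nat_lit 4) true (nat_lit 6) false (nat_lit 1) true (nat_lit 7) true (nat_lit 6) (.s false (nat_lit 1) (nat_lit 15) (nat_lit 0) (nat_lit 1) (nat_lit 1) true (nat_lit 4) true (nat_lit 6) false (nat_lit 1) true (nat_lit 7) true (nat_lit 6) (.e true (nat_lit 8) (nat_lit 33) (nat_lit 1) (nat_lit 6) (.e false (nat_lit 8) (nat_lit 34) (nat_lit 1) (nat_lit 6) (.e true (nat_lit 8) (nat_lit 35) (nat_lit 1) (nat_lit 6) (.e false (nat_lit 8) (nat_lit 29) (nat_lit 1) (nat_lit 6) (.e true (nat_lit 8) (nat_lit 30) (nat_lit 1) (nat_lit 6) (.e false (nat_lit 8) (nat_lit 18) (nat_lit 4) (nat_lit 3) (.e true (nat_lit 8) (nat_lit 36) (nat_lit 1) (nat_lit 6) (.e false (nat_lit 8) (nat_lit 39) (nat_lit 0) (nat_lit 7) (.e true (nat_lit 8) (nat_lit 40) (nat_lit 0) (nat_lit 7) .nil))))))))))))))))) (.nd (.nd .leaf (nat_lit 24580) (nat_lit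 117) (.p (nat_lit 57) (nat_lit 8) (.n (nat_lit 58) (nat_lit 8) (.p (nat_lit 60) (nat_lit 4) .z))) (.ct dZ8b_c22 (nat_lit 4) (nat_lit 2) (.s true (nat_lit 1) (nat_lit 8) (nat_lit 1) (nat_lit 1) (nat_lit 4) true (nat_lit 0) true (nat_lit 2) true (nat_lit 1) true (nat_lit 4) true (nat_lit 4) (.e false (nat_lit 4) (nat_lit 14) (nat_lit 9) (nat_lit 0) (.e false (nat_lit 4) (nat_lit 41) (nat_lit 1) (nat_lit 4) .nil)))) .leaf) (nat_lit 25600) (nat_lit 50) (.p (nat_lit 28) (nat_lit 4) (.n (nat_lit 29) (nat_lit 8) (.p (nat_lit 32) (nat_lit 4) (.p (nat_lit 33) (nat_lit 8) (.p (nat_lit 35) (nat_lit 4) .z))))) (.ct dZ8b_c36 (nat_lit 4) (nat_lit 6) (.s false (nat_lit 1) (nat_lit 4) (nat_lit 1) (nat_lit 0) (nat_lit 3) true (nat_lit 0) true (nat_lit 3) true (nat_lit 2) true (nat_lit 5) true (nat_lit 6) (.s true (nat_lit 1) (nat_lit 8) (nat_lit 0) (nat_lit 1) (nat_lit 1) true (nat_lit 3) true (nat_lit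 5) true (nat_lit 0) true (nat_lit 6) true (nat_lit 5) (.a false (nat_lit 16) (nat_lit 7) (nat_lit 8) (nat_lit 0) (nat_lit 0) (.e false (nat_lit 4) (nat_lit 15) (nat_lit 3) (nat_lit 3) (.e false (nat_lit 4) (nat_lit 22) (nat_lit 1) (nat_lit 5) (.e false (nat_lit 4) (nat_lit 24) (nat_lit 0) (nat_lit 6) (.e true (nat_lit 4) (nat_lit 14) (nat_lit 3) (nat_lit 3) (.e false (nat_lit 4) (nat_lit 17) (nat_lit 1) (nat_lit 5) (.e true (nat_lit 4) (nat_lit 18) (nat_lit 1) (nat_lit 5) (.e true (nat_lit 4) (nat_lit 19) (nat_lit 1) (nat_lit 5) (.e false (nat_lit 4) (nat_lit 20) (nat_lit 1) (nat_lit 5) .nil)))))))))))) .leaf)))) (nat_lit 25601) (nat_lit 61) (.p (nat_lit 40) (nat_lit 4) .z) .df (.nd (.nd (.nd (.nd (.nd .leaf (nat_lit 25603) (nat_lit 91) (.p (nat_lit 45) (nat_lit 8) (.n (nat_lit 46) (nat_lit 8) (.n (nat_lit 50) (nat_lit 12) (.p (nat_lit 51) (nat_lit 8) (.n (nat_lit 52) (nat_lit 8)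 (.n (nat_lit 53) (nat_lit 4) (.p (nat_lit 54) (nat_lit 4) .z))))))) (.ct dZ8b_c37 (nat_lit 4) (nat_lit 4) (.s true (nat_lit 1) (nat_lit 6) (nat_lit 1) (nat_lit 1) (nat_lit 4) true (nat_lit 0) true (nat_lit 3) true (nat_lit 2) true (nat_lit 6) true (nat_lit 6) (.s false (nat_lit 1) (nat_lit 9) (nat_lit 0) (nat_lit 3) (nat_lit 1) true (nat_lit 4) true (nat_lit 6) true (nat_lit 0) true (nat_lit 7) true (nat_lit 4) (.s true (nat_lit 1) (nat_lit 9) (nat_lit 1) (nat_lit 3) (nat_lit 0) true (nat_lit 4) true (nat_lit 7) true (nat_lit 0) true (nat_lit 6) true (nat_lit 4) (.e true (nat_lit 4) (nat_lit 18) (nat_lit 4) (nat_lit 3) (.e false (nat_lit 4) (nat_lit 33) (nat_lit 1) (nat_lit 6) (.e false (nat_lit 4) (nat_lit 36) (nat_lit 1) (nat_lit 6) (.e false (nat_lit 4) (nat_lit 26) (nat_lit 3) (nat_lit 4) (.e true (nat_lit 4) (nat_lit 29) (nat_lit 1) (nat_lit 6) (.e false (nat_lit 4) (nat_lit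 30) (nat_lit 1) (nat_lit 6) (.e false (nat_lit 4) (nat_lit 12) (nat_lit 9) (nat_lit 0) .nil))))))))))) .leaf) (nat_lit 25604) (nat_lit 112) (.p (nat_lit 57) (nat_lit 8) (.n (nat_lit 58) (nat_lit 8) (.n (nat_lit 59) (nat_lit 4) (.p (nat_lit 60) (nat_lit 4) .z)))) (.ct dZ8b_c22 (nat_lit 8) (nat_lit 2) (.s true (nat_lit 1) (nat_lit 9) (nat_lit 1) (nat_lit 4) (nat_lit 0) true (nat_lit 3) true (nat_lit 5) true (nat_lit 0) true (nat_lit 4) true (nat_lit 2) (.s false (nat_lit 1) (nat_lit 9) (nat_lit 4) (nat_lit 0) (nat_lit 1) true (nat_lit 0) true (nat_lit 4) true (nat_lit 0) true (nat_lit 2) true (nat_lit 5) (.e false (nat_lit 8) (nat_lit 39) (nat_lit 1) (nat_lit 4) (.e true (nat_lit 8) (nat_lit 40) (nat_lit 1) (nat_lit 4) (.e true (nat_lit 4) (nat_lit 41) (nat_lit 1) (nat_lit 4) (.e false (nat_lit 4) (nat_lit 14) (nat_lit 9) (nat_lit 0) (.e false (nat_lit 4) (nat_lit 26) (nat_lit 4)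 (nat_lit 2) .nil)))))))) (.nd .leaf (nat_lit 26624) (nat_lit 45) (.p (nat_lit 35) (nat_lit 4) .z) .df .leaf)) (nat_lit 26625) (nat_lit 65) (.p (nat_lit 40) (nat_lit 4) .z) (.ct dZ8b_c21 (nat_lit 16) (nat_lit 3) (.s false (nat_lit 1) (nat_lit 4) (nat_lit 0) (nat_lit 1) (nat_lit 4) true (nat_lit 0) true (nat_lit 1) true (nat_lit 1) true (nat_lit 4) true (nat_lit 3) (.s false (nat_lit 1) (nat_lit 9) (nat_lit 0) (nat_lit 1) (nat_lit 1) true (nat_lit 2) true (nat_lit 3) false (nat_lit 0) true (nat_lit 4) true (nat_lit 3) (.s true (nat_lit 1) (nat_lit 9) (nat_lit 1) (nat_lit 0) (nat_lit 1) true (nat_lit 1) true (nat_lit 3) false (nat_lit 0) true (nat_lit 3) true (nat_lit 4) (.s true (nat_lit 1) (nat_lit 9) (nat_lit 1) (nat_lit 1) (nat_lit 0) true (nat_lit 2) true (nat_lit 4) false (nat_lit 0) true (nat_lit 3) true (nat_lit 3) (.e false (nat_lit 16) (nat_lit 25) (nat_lit 1) (nat_lit 3)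 .nil)))))) (.nd (.nd .leaf (nat_lit 26627) (nat_lit 86) (.p (nat_lit 45) (nat_lit 12) (.n (nat_lit 46) (nat_lit 12) (.n (nat_lit 47) (nat_lit 4) (.n (nat_lit 50) (nat_lit 12) (.p (nat_lit 51) (nat_lit 16) (.n (nat_lit 52) (nat_lit 16) (.n (nat_lit 53) (nat_lit 8) (.p (nat_lit 54) (nat_lit 4) .z)))))))) (.ct dZ8b_c37 (nat_lit 8) (nat_lit 4) (.s true (nat_lit 1) (nat_lit 7) (nat_lit 0) (nat_lit 1) (nat_lit 4) true (nat_lit 1) true (nat_lit 3) true (nat_lit 1) true (nat_lit 7) true (nat_lit 6) (.s true (nat_lit 1) (nat_lit 8) (nat_lit 3) (nat_lit 1) (nat_lit 1) true (nat_lit 1) true (nat_lit 6) true (nat_lit 1) true (nat_lit 4) true (nat_lit 6) (.s true (nat_lit 1) (nat_lit 9) (nat_lit 0) (nat_lit 3) (nat_lit 1) true (nat_lit 4) true (nat_lit 6) true (nat_lit 0) true (nat_lit 7) true (nat_lit 4) (.s false (nat_lit 1) (nat_lit 9) (nat_lit 1) (nat_lit 3) (nat_lit 0) true (nat_lit 4)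 true (nat_lit 7) true (nat_lit 0) true (nat_lit 6) true (nat_lit 4) (.s true (nat_lit 1) (nat_lit 9) (nat_lit 3) (nat_lit 0) (nat_lit 1) true (nat_lit 1) true (nat_lit 6) true (nat_lit 0) true (nat_lit 4) true (nat_lit 7) (.s false (nat_lit 1) (nat_lit 12) (nat_lit 1) (nat_lit 1) (nat_lit 1) true (nat_lit 3) true (nat_lit 6) false (nat_lit 0) true (nat_lit 6) true (nat_lit 6) (.s false (nat_lit 2) (nat_lit 14) (nat_lit 0) (nat_lit 1) (nat_lit 1) true (nat_lit 4) true (nat_lit 6) false (nat_lit 1) true (nat_lit 7) true (nat_lit 6) (.e true (nat_lit 16) (nat_lit 34) (nat_lit 1) (nat_lit 6) (.e false (nat_lit 8) (nat_lit 35) (nat_lit 1) (nat_lit 6) (.e false (nat_lit 16) (nat_lit 29) (nat_lit 1) (nat_lit 6) (.e true (nat_lit 8) (nat_lit 33) (nat_lit 1) (nat_lit 6) (.e false (nat_lit 16) (nat_lit 24) (nat_lit 3) (nat_lit 4) (.e true (nat_lit 8) (nat_lit 36) (nat_lit 1) (nat_lit 6) (.e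 true (nat_lit 8) (nat_lit 12) (nat_lit 9) (nat_lit 0) (.e true (nat_lit 8) (nat_lit 28) (nat_lit 1) (nat_lit 6) (.e true (nat_lit 8) (nat_lit 41) (nat_lit 0) (nat_lit 7) .nil))))))))))))))))) .leaf) (nat_lit 26628) (nat_lit 109) (.p (nat_lit 60) (nat_lit 4) .z) .df (.nd .leaf (nat_lit 27648) (nat_lit 67) (.n (nat_lit 39) (nat_lit 8) (.p (nat_lit 40) (nat_lit 12) (.p (nat_lit 41) (nat_lit 4) (.n (nat_lit 42) (nat_lit 4) .z)))) (.ct dZ8b_c21 (nat_lit 4) (nat_lit 4) (.s false (nat_lit 1) (nat_lit 9) (nat_lit 1) (nat_lit 0) (nat_lit 1) true (nat_lit 1) true (nat_lit 3) false (nat_lit 0) true (nat_lit 3) true (nat_lit 4) (.e false (nat_lit 4) (nat_lit 15) (nat_lit 4) (nat_lit 1) (.e false (nat_lit 8) (nat_lit 26) (nat_lit 1) (nat_lit 3) (.e true (nat_lit 4) (nat_lit 9) (nat_lit 7) (nat_lit 0) (.e true (nat_lit 4) (nat_lit 25) (nat_lit 1) (nat_lit 3) .nil)))))) .leaf))) (nat_lit 27651)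 (nat_lit 110) (.p (nat_lit 61) (nat_lit 4) .z) .df (.nd (.nd (.nd .leaf (nat_lit 28673) (nat_lit 84) (.p (nat_lit 45) (nat_lit 4) (.p (nat_lit 46) (nat_lit 4) (.n (nat_lit 47) (nat_lit 8) (.n (nat_lit 49) (nat_lit 4) (.p (nat_lit 50) (nat_lit 4) .z))))) (.ct dZ8b_c37 (nat_lit 8) (nat_lit 6) (.s false (nat_lit 1) (nat_lit 4) (nat_lit 0) (nat_lit 4) (nat_lit 3) true (nat_lit 2) true (nat_lit 4) true (nat_lit 3) true (nat_lit 7) true (nat_lit 3) (.s true (nat_lit 1) (nat_lit 8) (nat_lit 4) (nat_lit 0) (nat_lit 1) true (nat_lit 0) true (nat_lit 6) true (nat_lit 1) true (nat_lit 3) true (nat_lit 7) (.s false (nat_lit 1) (nat_lit 9) (nat_lit 0) (nat_lit 4) (nat_lit 0) true (nat_lit 5) true (nat_lit 7) true (nat_lit 0) true (nat_lit 7) true (nat_lit 3) (.s true (nat_lit 1) (nat_lit 14) (nat_lit 0) (nat_lit 1) (nat_lit 1) true (nat_lit 4) true (nat_lit 6) false (nat_lit 1) true (nat_lit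 7) true (nat_lit 6) (.s false (nat_lit 2) (nat_lit 15) (nat_lit 0) (nat_lit 1) (nat_lit 1) true (nat_lit 4) true (nat_lit 6) false (nat_lit 1) true (nat_lit 7) true (nat_lit 6) (.s false (nat_lit 1) (nat_lit 14) (nat_lit 1) (nat_lit 0) (nat_lit 1) true (nat_lit 3) true (nat_lit 6) false (nat_lit 1) true (nat_lit 6) true (nat_lit 7) (.s true (nat_lit 2) (nat_lit 15) (nat_lit 1) (nat_lit 0) (nat_lit 1) true (nat_lit 3) true (nat_lit 6) false (nat_lit 1) true (nat_lit 6) true (nat_lit 7) (.s true (nat_lit 1) (nat_lit 14) (nat_lit 1) (nat_lit 1) (nat_lit 0) true (nat_lit 4) true (nat_lit 7) false (nat_lit 1) true (nat_lit 6) true (nat_lit 6) (.e false (nat_lit 8) (nat_lit 29) (nat_lit 1) (nat_lit 6) (.e true (nat_lit 16) (nat_lit 33) (nat_lit 1) (nat_lit 6) (.e true (nat_lit 8) (nat_lit 35) (nat_lit 1) (nat_lit 6) (.e false (nat_lit 8) (nat_lit 36) (nat_lit 1) (nat_lit 6) (.e false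 (nat_lit 8) (nat_lit 30) (nat_lit 1) (nat_lit 6) .nil)))))))))))))) .leaf) (nat_lit 29697) (nat_lit 72) (.p (nat_lit 45) (nat_lit 4) .z) .df (.nd .leaf (nat_lit 30721) (nat_lit 73) (.p (nat_lit 46) (nat_lit 4) .z) .df .leaf)) (nat_lit 31745) (nat_lit 96) (.p (nat_lit 45) (nat_lit 10) (.n (nat_lit 46) (nat_lit 10) (.n (nat_lit 47) (nat_lit 2) (.p (nat_lit 48) (nat_lit 2) (.p (nat_lit 49) (nat_lit 2) (.n (nat_lit 50) (nat_lit 10) (.p (nat_lit 51) (nat_lit 16) (.n (nat_lit 52) (nat_lit 16) (.n (nat_lit 53) (nat_lit 6) .z))))))))) (.ct dZ8b_c37 (nat_lit 4) (nat_lit 6) (.s true (nat_lit 1) (nat_lit 14) (nat_lit 0) (nat_lit 1) (nat_lit 1) true (nat_lit 4) true (nat_lit 6) false (nat_lit 1) true (nat_lit 7) true (nat_lit 6) (.e true (nat_lit 4) (nat_lit 24) (nat_lit 3) (nat_lit 4) (.e false (nat_lit 4) (nat_lit 14) (nat_lit 7) (nat_lit 1) (.e false (nat_lit 4) (nat_lit 41) (nat_lit 0)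 (nat_lit 7) (.e false (nat_lit 4) (nat_lit 34) (nat_lit 1) (nat_lit 6) .nil)))))) (.nd (.nd .leaf (nat_lit 32769) (nat_lit 87) (.p (nat_lit 45) (nat_lit 24) (.n (nat_lit 46) (nat_lit 24) (.n (nat_lit 47) (nat_lit 4) (.p (nat_lit 49) (nat_lit 4) (.n (nat_lit 50) (nat_lit 20) (.p (nat_lit 51) (nat_lit 32) (.n (nat_lit 52) (nat_lit 32) (.n (nat_lit 53) (nat_lit 16) .z)))))))) (.ct dZ8b_c37 (nat_lit 4) (nat_lit 6) (.s true (nat_lit 2) (nat_lit 6) (nat_lit 1) (nat_lit 1) (nat_lit 4) true (nat_lit 0) true (nat_lit 3) true (nat_lit 2) true (nat_lit 6) true (nat_lit 6) (.s false (nat_lit 1) (nat_lit 9) (nat_lit 0) (nat_lit 3) (nat_lit 1) true (nat_lit 4) true (nat_lit 6) true (nat_lit 0) true (nat_lit 7) true (nat_lit 4) (.s false (nat_lit 1) (nat_lit 9) (nat_lit 1) (nat_lit 0) (nat_lit 3) true (nat_lit 1) true (nat_lit 4) true (nat_lit 0) true (nat_lit 6) true (nat_lit 7) (.s true (nat_lit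 1) (nat_lit 9) (nat_lit 3) (nat_lit 0) (nat_lit 1) true (nat_lit 1) true (nat_lit 6) true (nat_lit 0) true (nat_lit 4) true (nat_lit 7) (.e true (nat_lit 8) (nat_lit 18) (nat_lit 4) (nat_lit 3) (.e true (nat_lit 4) (nat_lit 33) (nat_lit 1) (nat_lit 6) (.e false (nat_lit 8) (nat_lit 36) (nat_lit 1) (nat_lit 6) (.e false (nat_lit 8) (nat_lit 26) (nat_lit 3) (nat_lit 4) (.e false (nat_lit 4) (nat_lit 29) (nat_lit 1) (nat_lit 6) (.e false (nat_lit 4) (nat_lit 30) (nat_lit 1) (nat_lit 6) (.e true (nat_lit 4) (nat_lit 28) (nat_lit 1) (nat_lit 6) .nil)))))))))))) .leaf) (nat_lit 33793) (nat_lit 74) (.p (nat_lit 47) (nat_lit 4) .z) .df .leaf))) (nat_lit 34817) (nat_lit 75) (.p (nat_lit 48) (nat_lit 4) .z) .df (.nd (.nd (.nd (.nd .leaf (nat_lit 35841) (nat_lit 76) (.p (nat_lit 49) (nat_lit 4) .z) .df .leaf) (nat_lit 36865) (nat_lit 77) (.p (nat_lit 50) (nat_lit 4) .z) .df (.nd .leaf (nat_lit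 37889) (nat_lit 102) (.p (nat_lit 45) (nat_lit 3) (.n (nat_lit 46) (nat_lit 3) (.p (nat_lit 47) (nat_lit 1) (.n (nat_lit 48) (nat_lit 3) (.p (nat_lit 49) (nat_lit 3) (.n (nat_lit 50) (nat_lit 3) (.p (nat_lit 51) (nat_lit 4) (.n (nat_lit 52) (nat_lit 4) (.n (nat_lit 53) (nat_lit 3) .z))))))))) (.ct dZ8b_c37 (nat_lit 4) (nat_lit 6) (.s true (nat_lit 1) (nat_lit 7) (nat_lit 3) (nat_lit 1) (nat_lit 1) true (nat_lit 1) true (nat_lit 6) true (nat_lit 1) true (nat_lit 4) true (nat_lit 6) (.e false (nat_lit 2) (nat_lit 29) (nat_lit 1) (nat_lit 6) (.e true (nat_lit 2) (nat_lit 30) (nat_lit 1) (nat_lit 6) (.e false (nat_lit 2) (nat_lit 31) (nat_lit 1) (nat_lit 6) (.e true (nat_lit 2) (nat_lit 32) (nat_lit 1) (nat_lit 6) (.e true (nat_lit 4) (nat_lit 24) (nat_lit 3) (nat_lit 4) (.e false (nat_lit 4) (nat_lit 26) (nat_lit 3) (nat_lit 4) .nil)))))))) .leaf)) (nat_lit 38912) (nat_lit 104) (.p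 (nat_lit 45) (nat_lit 34) (.n (nat_lit 46) (nat_lit 30) (.n (nat_lit 47) (nat_lit 6) (.n (nat_lit 48) (nat_lit 2) (.p (nat_lit 49) (nat_lit 2) (.n (nat_lit 50) (nat_lit 30) (.p (nat_lit 51) (nat_lit 56) (.n (nat_lit 52) (nat_lit 56) (.n (nat_lit 53) (nat_lit 30) (.p (nat_lit 54) (nat_lit 4) (.n (nat_lit 55) (nat_lit 4) .z))))))))))) (.ct dZ8b_c37 (nat_lit 4) (nat_lit 7) (.s true (nat_lit 1) (nat_lit 13) (nat_lit 1) (nat_lit 1) (nat_lit 0) true (nat_lit 4) true (nat_lit 7) false (nat_lit 1) true (nat_lit 6) true (nat_lit 6) (.e true (nat_lit 4) (nat_lit 23) (nat_lit 3) (nat_lit 4) (.e false (nat_lit 4) (nat_lit 13) (nat_lit 8) (nat_lit 1) (.e false (nat_lit 4) (nat_lit 37) (nat_lit 1) (nat_lit 6) (.e true (nat_lit 2) (nat_lit 29) (nat_lit 1) (nat_lit 6) (.e false (nat_lit 6) (nat_lit 30) (nat_lit 1) (nat_lit 6) (.e true (nat_lit 2) (nat_lit 31) (nat_lit 1) (nat_lit 6) (.e false (nat_lit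 2) (nat_lit 32) (nat_lit 1) (nat_lit 6) (.e false (nat_lit 4) (nat_lit 33) (nat_lit 1) (nat_lit 6) .nil)))))))))) (.nd (.nd .leaf (nat_lit 38913) (nat_lit 105) (.p (nat_lit 56) (nat_lit 4) .z) .df .leaf) (nat_lit 39936) (nat_lit 78) (.p (nat_lit 51) (nat_lit 4) .z) .df (.nd .leaf (nat_lit 39937) (nat_lit 106) (.p (nat_lit 57) (nat_lit 4) .z) .df .leaf))) (nat_lit 40960) (nat_lit 79) (.p (nat_lit 52) (nat_lit 4) .z) .df (.nd (.nd (.nd .leaf (nat_lit 40961) (nat_lit 107) (.p (nat_lit 58) (nat_lit 4) .z) .df .leaf) (nat_lit 41984) (nat_lit 80) (.p (nat_lit 53) (nat_lit 4) .z) .df (.nd .leaf (nat_lit 41985) (nat_lit 108) (.p (nat_lit 59) (nat_lit 4) .z) .df .leaf)) (nat_lit 43008) (nat_lit 94) (.n (nat_lit 45) (nat_lit 12) (.p (nat_lit 46) (nat_lit 12) (.p (nat_lit 47) (nat_lit 8) (.p (nat_lit 50) (nat_lit 4) (.n (nat_lit 51) (nat_lit 24) (.p (nat_lit 52) (nat_lit 24) (.p (nat_lit 53)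 (nat_lit 12) .z))))))) (.ct dZ8b_c37 (nat_lit 4) (nat_lit 7) (.s true (nat_lit 1) (nat_lit 9) (nat_lit 1) (nat_lit 3) (nat_lit 0) true (nat_lit 4) true (nat_lit 7) true (nat_lit 0) true (nat_lit 6) true (nat_lit 4) (.e true (nat_lit 4) (nat_lit 26) (nat_lit 3) (nat_lit 4) (.e false (nat_lit 4) (nat_lit 12) (nat_lit 9) (nat_lit 0) (.e false (nat_lit 4) (nat_lit 33) (nat_lit 1) (nat_lit 6) (.e true (nat_lit 4) (nat_lit 36) (nat_lit 1) (nat_lit 6) .nil)))))) (.nd (.nd .leaf (nat_lit 43009) (nat_lit 115) .z (.ct dZ8b_c22 (nat_lit 16) (nat_lit 4) (.s false (nat_lit 1) (nat_lit 9) (nat_lit 1) (nat_lit 1) (nat_lit 3) true (nat_lit 1) true (nat_lit 3) true (nat_lit 0) true (nat_lit 4) true (nat_lit 4) (.s true (nat_lit 1) (nat_lit 9) (nat_lit 1) (nat_lit 3) (nat_lit 1) true (nat_lit 2) true (nat_lit 4) true (nat_lit 0) true (nat_lit 4) true (nat_lit 3) (.s true (nat_lit 1) (nat_lit 9) (nat_lit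 3) (nat_lit 1) (nat_lit 1) true (nat_lit 1) true (nat_lit 4) true (nat_lit 0) true (nat_lit 3) true (nat_lit 4) (.e false (nat_lit 4) (nat_lit 14) (nat_lit 9) (nat_lit 0) (.e true (nat_lit 4) (nat_lit 15) (nat_lit 9) (nat_lit 0) (.e false (nat_lit 4) (nat_lit 25) (nat_lit 4) (nat_lit 2) (.e true (nat_lit 4) (nat_lit 26) (nat_lit 4) (nat_lit 2) .nil)))))))) .leaf) (nat_lit 45056) (nat_lit 114) (.p (nat_lit 57) (nat_lit 16) (.n (nat_lit 58) (nat_lit 16) (.n (nat_lit 59) (nat_lit 8) .z))) (.ct dZ8b_c22 (nat_lit 4) (nat_lit 5) (.s true (nat_lit 1) (nat_lit 9) (nat_lit 4) (nat_lit 0) (nat_lit 1) true (nat_lit 0) true (nat_lit 4) true (nat_lit 0) true (nat_lit 2) true (nat_lit 5) (.e false (nat_lit 4) (nat_lit 15) (nat_lit 9) (nat_lit 0) (.e true (nat_lit 4) (nat_lit 14) (nat_lit 9) (nat_lit 0) (.e false (nat_lit 4) (nat_lit 25) (nat_lit 4) (nat_lit 2) (.e true (nat_lit 4) (nat_lit 26)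 (nat_lit 4) (nat_lit 2) .nil)))))) .leaf))))))

noncomputable def dZ8b_cl : CL := (.c (nat_lit 16) (nat_lit 0) (nat_lit 1) (.c (nat_lit 1) (nat_lit 1) (nat_lit 1) (.c (nat_lit 32) (nat_lit 2) (nat_lit 1) (.c (nat_lit 17) (nat_lit 3) (nat_lit 1) (.c (nat_lit 2) (nat_lit 4) (nat_lit 1) (.c (nat_lit 33) (nat_lit 5) (nat_lit 2) (.c (nat_lit 18) (nat_lit 7) (nat_lit 2) (.c (nat_lit 3) (nat_lit 9) (nat_lit 1) (.c (nat_lit 34) (nat_lit 10) (nat_lit 3) (.c (nat_lit 19) (nat_lit 13) (nat_lit 3) (.c (nat_lit 4) (nat_lit 16) (nat_lit 1) (.c (nat_lit 35) (nat_lit 17) (nat_lit 6) (.c (nat_lit 20) (nat_lit 23) (nat_lit 4) (.c (nat_lit 5) (nat_lit 27) (nat_lit 1) (.c (nat_lit 36) (nat_lit 28) (nat_lit 10) (.c (nat_lit 21) (nat_lit 38) (nat_lit 5) (.c (nat_lit 6) (nat_lit 43) (nat_lit 2) (.c (nat_lit 37) (nat_lit 45) (nat_lit 11) (.c (nat_lit 22) (nat_lit 56) (nat_lit 6) .nil)))))))))))))))))))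

noncomputable def dZ8b_D : Dt := ⟨(nat_lit 4294967296), (nat_lit 2147483648), (nat_lit 4), (nat_lit 62), (nat_lit 28226336513309909169273463501758921530863377595213374999125607381676999555231945034074656633197623083641796343387552137698292822772142000553969152035726891297351499702155681745413189528437632624721914782960396752612156771193795104389782110999047614560130420369891679393802534511852218560652770717694179255426843145726710963657930340271026878113317845909973448205155119751120361857944933119742639136932923537877489472402301631183097471160327077891), (nat_lit 4611650834323604451), dZ8b_t1, dZ8b_cl⟩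

noncomputable def dZ8b_gs : BL := (.c (nat_lit 13) (nat_lit 3) (nat_lit 13) (nat_lit 3) (nat_lit 0) (.c (nat_lit 16) (nat_lit 1) (nat_lit 10) (nat_lit 3) (nat_lit 9) (.c (nat_lit 17) (nat_lit 6) (nat_lit 9) (nat_lit 1) (nat_lit 12) (.c (nat_lit 23) (nat_lit 4) (nat_lit 7) (nat_lit 2) (nat_lit 18) (.c (nat_lit 27) (nat_lit 1) (nat_lit 5) (nat_lit 2) (nat_lit 26) (.c (nat_lit 28) (nat_lit 10) (nat_lit 4) (nat_lit 1) (nat_lit 28) (.c (nat_lit 38) (nat_lit 5) (nat_lit 3) (nat_lit 1) (nat_lit 38) (.c (nat_lit 43) (nat_lit 2) (nat_lit 2) (nat_lit 1) (nat_lit 43) (.c (nat_lit 45) (nat_lit 11) (nat_lit 1) (nat_lit 1) (nat_lit 45) (.c (nat_lit 56) (nat_lit 6) (nat_lit 0) (nat_lit 1) (nat_lit 56) .nil))))))))))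

noncomputable def dZ8b_i0 : IL := (.s true (nat_lit 46848) (nat_lit 11) (nat_lit 1) (nat_lit 1) (nat_lit 4) true (nat_lit 2) true (nat_lit 5) true (nat_lit 1) true (nat_lit 8) true (nat_lit 8) (.s false (nat_lit 46848) (nat_lit 12) (nat_lit 1) (nat_lit 1) (nat_lit 4) true (nat_lit 2) true (nat_lit 5) true (nat_lit 1) true (nat_lit 8) true (nat_lit 8) (.s false (nat_lit 19456) (nat_lit 10) (nat_lit 4) (nat_lit 1) (nat_lit 1) true (nat_lit 2) true (nat_lit 8) true (nat_lit 1) true (nat_lit 5) true (nat_lit 8) (.s true (nat_lit 58880) (nat_lit 11) (nat_lit 4) (nat_lit 1) (nat_lit 1) true (nat_lit 2) true (nat_lit 8) true (nat_lit 1) true (nat_lit 5) true (nat_lit 8) (.s false (nat_lit 27648) (nat_lit 14) (nat_lit 0) (nat_lit 1) (nat_lit 4) true (nat_lit 3) true (nat_lit 5) true (nat_lit 0) true (nat_lit 9) true (nat_lit 8) (.s true (nat_lit 19456) (nat_lit 15) (nat_lit 0) (nat_lit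 1) (nat_lit 4) true (nat_lit 3) true (nat_lit 5) true (nat_lit 0) true (nat_lit 9) true (nat_lit 8) (.s false (nat_lit 2560) (nat_lit 15) (nat_lit 1) (nat_lit 1) (nat_lit 3) true (nat_lit 3) true (nat_lit 6) true (nat_lit 0) true (nat_lit 8) true (nat_lit 8) (.s false (nat_lit 6144) (nat_lit 13) (nat_lit 1) (nat_lit 3) (nat_lit 1) true (nat_lit 5) true (nat_lit 8) true (nat_lit 0) true (nat_lit 8) true (nat_lit 6) (.s true (nat_lit 7680) (nat_lit 14) (nat_lit 1) (nat_lit 4) (nat_lit 0) true (nat_lit 6) true (nat_lit 9) true (nat_lit 0) true (nat_lit 8) true (nat_lit 5) (.s true (nat_lit 9216) (nat_lit 13) (nat_lit 3) (nat_lit 1) (nat_lit 1) true (nat_lit 3) true (nat_lit 8) true (nat_lit 0) true (nat_lit 6) true (nat_lit 8) (.s false (nat_lit 3072) (nat_lit 14) (nat_lit 3) (nat_lit 1) (nat_lit 1) true (nat_lit 3) true (nat_lit 8) true (nat_lit 0) true (nat_lit 6) true (nat_lit 8)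 (.s false (nat_lit 19456) (nat_lit 16) (nat_lit 0) (nat_lit 4) (nat_lit 0) true (nat_lit 7) true (nat_lit 9) false (nat_lit 1) true (nat_lit 9) true (nat_lit 5) (.s true (nat_lit 9728) (nat_lit 16) (nat_lit 1) (nat_lit 0) (nat_lit 3) true (nat_lit 3) true (nat_lit 6) false (nat_lit 1) true (nat_lit 8) true (nat_lit 9) (.s true (nat_lit 17408) (nat_lit 16) (nat_lit 3) (nat_lit 0) (nat_lit 1) true (nat_lit 3) true (nat_lit 8) false (nat_lit 1) true (nat_lit 6) true (nat_lit 9) (.s true (nat_lit 19968) (nat_lit 20) (nat_lit 1) (nat_lit 1) (nat_lit 1) true (nat_lit 5) true (nat_lit 8) false (nat_lit 2) true (nat_lit 8) true (nat_lit 8) (.s false (nat_lit 15104) (nat_lit 22) (nat_lit 1) (nat_lit 1) (nat_lit 1) true (nat_lit 5) true (nat_lit 8) false (nat_lit 2) true (nat_lit 8) true (nat_lit 8) (.s true (nat_lit 6144) (nat_lit 24) (nat_lit 0) (nat_lit 1) (nat_lit 1) true (nat_lit 6)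 true (nat_lit 8) false (nat_lit 3) true (nat_lit 9) true (nat_lit 8) (.s true (nat_lit 13312) (nat_lit 25) (nat_lit 0) (nat_lit 1) (nat_lit 1) true (nat_lit 6) true (nat_lit 8) false (nat_lit 3) true (nat_lit 9) true (nat_lit 8) (.s false (nat_lit 23552) (nat_lit 26) (nat_lit 0) (nat_lit 1) (nat_lit 1) true (nat_lit 6) true (nat_lit 8) false (nat_lit 3) true (nat_lit 9) true (nat_lit 8) (.s true (nat_lit 3072) (nat_lit 23) (nat_lit 1) (nat_lit 1) (nat_lit 0) true (nat_lit 6) true (nat_lit 9) false (nat_lit 3) true (nat_lit 8) true (nat_lit 8) (.s false (nat_lit 1536) (nat_lit 24) (nat_lit 1) (nat_lit 1) (nat_lit 0) true (nat_lit 6) true (nat_lit 9) false (nat_lit 3) true (nat_lit 8) true (nat_lit 8) (.a true (nat_lit 196608) (nat_lit 13) (nat_lit 13) (nat_lit 0) (nat_lit 0) (.a true (nat_lit 143360) (nat_lit 14) (nat_lit 14) (nat_lit 0) (nat_lit 0) (.a true (nat_lit 585728) (nat_lit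 15) (nat_lit 15) (nat_lit 0) (nat_lit 0) (.a false (nat_lit 352256) (nat_lit 14) (nat_lit 15) (nat_lit 0) (nat_lit 0) .nil)))))))))))))))))))))))))

noncomputable def dZ8b_il : IL := (.s true (nat_lit 66048) (nat_lit 6) (nat_lit 4) (nat_lit 1) (nat_lit 4) false (nat_lit 1) true (nat_lit 5) true (nat_lit 4) true (nat_lit 5) true (nat_lit 8) (.s true (nat_lit 9216) (nat_lit 7) (nat_lit 1) (nat_lit 1) (nat_lit 7) true (nat_lit 0) true (nat_lit 3) true (nat_lit 3) true (nat_lit 8) true (nat_lit 8) (.s true (nat_lit 3072) (nat_lit 7) (nat_lit 1) (nat_lit 1) (nat_lit 8) true (nat_lit 0) true (nat_lit 3) true (nat_lit 3) true (nat_lit 8) true (nat_lit 8) (.s false (nat_lit 9728) (nat_lit 8) (nat_lit 1) (nat_lit 1) (nat_lit 8) true (nat_lit 0) true (nat_lit 3) true (nat_lit 3) true (nat_lit 8) true (nat_lit 8) (.s false (nat_lit 6144) (nat_lit 7) (nat_lit 1) (nat_lit 3) (nat_lit 4) true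 (nat_lit 2) true (nat_lit 5) true (nat_lit 3) true (nat_lit 8) true (nat_lit 6) (.s true (nat_lit 46848) (nat_lit 9) (nat_lit 0) (nat_lit 0) (nat_lit 9) true (nat_lit 0) true (nat_lit 2) true (nat_lit 2) true (nat_lit 9) true (nat_lit 9) (.s true (nat_lit 17664) (nat_lit 9) (nat_lit 0) (nat_lit 3) (nat_lit 4) true (nat_lit 3) true (nat_lit 5) true (nat_lit 2) true (nat_lit 9) true (nat_lit 6) (.s false (nat_lit 17408) (nat_lit 9) (nat_lit 0) (nat_lit 7) (nat_lit 1) true (nat_lit 6) true (nat_lit 8) true (nat_lit 2) true (nat_lit 9) true (nat_lit 3) (.s false (nat_lit 5120) (nat_lit 9) (nat_lit 0) (nat_lit 9) (nat_lit 0) true (nat_lit 7) true (nat_lit 9) true (nat_lit 2) true (nat_lit 9) true (nat_lit 2) (.s false (nat_lit 34304) (nat_lit 9) (nat_lit 1) (nat_lit 2) (nat_lit 4) true (nat_lit 2) true (nat_lit 5) true (nat_lit 2) true (nat_lit 8) true (nat_lit 7) (.s false (nat_lit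 23040) (nat_lit 9) (nat_lit 1) (nat_lit 3) (nat_lit 3) true (nat_lit 3) true (nat_lit 6) true (nat_lit 2) true (nat_lit 8) true (nat_lit 6) (.s false (nat_lit 9728) (nat_lit 9) (nat_lit 2) (nat_lit 1) (nat_lit 4) true (nat_lit 1) true (nat_lit 5) true (nat_lit 2) true (nat_lit 7) true (nat_lit 8) (.s true (nat_lit 4608) (nat_lit 9) (nat_lit 2) (nat_lit 4) (nat_lit 1) true (nat_lit 4) true (nat_lit 8) true (nat_lit 2) true (nat_lit 7) true (nat_lit 5) (.s false (nat_lit 9728) (nat_lit 9) (nat_lit 3) (nat_lit 0) (nat_lit 4) true (nat_lit 0) true (nat_lit 5) true (nat_lit 2) true (nat_lit 6) true (nat_lit 9) (.s false (nat_lit 39936) (nat_lit 9) (nat_lit 3) (nat_lit 3) (nat_lit 1) true (nat_lit 3) true (nat_lit 8) true (nat_lit 2) true (nat_lit 6) true (nat_lit 6) (.s false (nat_lit 5376) (nat_lit 9) (nat_lit 4) (nat_lit 0) (nat_lit 3) true (nat_lit 0) true (nat_lit 6) true (nat_lit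 2) true (nat_lit 5) true (nat_lit 9) (.s false (nat_lit 2560) (nat_lit 9) (nat_lit 6) (nat_lit 1) (nat_lit 1) true (nat_lit 1) true (nat_lit 8) true (nat_lit 2) true (nat_lit 4) true (nat_lit 8) (.s true (nat_lit 17664) (nat_lit 9) (nat_lit 8) (nat_lit 0) (nat_lit 1) true (nat_lit 0) true (nat_lit 8) true (nat_lit 2) true (nat_lit 3) true (nat_lit 9) dZ8b_i0))))))))))))))))))

theorem dZ8b_chk : chk idsM dZ8b_D par2 (clsL [0,0,0,0,0,1,0,1]) Z8Ex (.c (nat_lit 1) (nat_lit 1) (.c (nat_lit 1) (nat_lit 1) (.c (nat_lit 1) (nat_lit 1) (.c (nat_lit 1) (nat_lit 1) (.c (nat_lit 1) (nat_lit 1) (.c (nat_lit 0) (nat_lit 16) (.c (nat_lit 1) (nat_lit 1) (.c (nat_lit 0) (nat_lit 16) .nil)))))))) (nat_lit 120) (nat_lit 38) (nat_lit 3) dZ8b_gs dZ8b_il = true := by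
  decide +kernel

end Chk

/-- certificate of `Z8Ex` -/
theorem cert_Z8b : Cert.{u} idsM par2 (clsL [0,0,0,0,0,1,0,1]) Z8Ex :=
  Chk.chk_sound _ (by simp [idsM]) (by simp [idsM]) _ _ _ _ _ _ _ _ _ _ Chk.dZ8b_chk

end Pool.Agent.Malc
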