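import Pool.Agent.Malc.Check4
import Pool.Agent.Malc.CertPar

/-! # Certificate of r2Ex -/

set_option autoImplicit false
set_option maxRecDepth 100000

namespace Pool.Agent.Malc

universe u

namespace Chk

noncomputable def dr2_c4624 : Cm := .mk (nat_lit 29) (nat_lit 4624) (nat_lit 33) (nat_lit 4) (.c (nat_lit 6) (nat_lit 1) (nat_lit 4) (nat_lit 1) (nat_lit 4) (.c (nat_lit 11) (nat_lit 1) (nat_lit 2) (nat_lit 1) (nat_lit 5) (.c (nat_lit 12) (nat_lit 3) (nat_lit 1) (nat_lit 1) (nat_lit 6) (.c (nat_lit 15) (nat_lit 1) (nat_lit 0) (nat_lit 1) (nat_lit 9) (.c (nat_lit 2512) (nat_lit 0) (nat_lit 5) (nat_lit 1) (nat_lit 10) .nil)))))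

noncomputable def dr2_c4609 : Cm := .mk (nat_lit 35) (nat_lit 4609) (nat_lit 37) (nat_lit 4) (.c (nat_lit 8) (nat_lit 1) (nat_lit 4) (nat_lit 1) (nat_lit 4) (.c (nat_lit 11) (nat_lit 1) (nat_lit 3) (nat_lit 1) (nat_lit 5) (.c (nat_lit 16) (nat_lit 3) (nat_lit 1) (nat_lit 1) (nat_lit 6) (.c (nat_lit 19) (nat_lit 1) (nat_lit 0) (nat_lit 1) (nat_lit 9) (.c (nat_lit 2512) (nat_lit 0) (nat_lit 7) (nat_lit 1) (nat_lit 10) .nil)))))

noncomputable def dr2_c4369 : Cm := .mk (nat_lit 41) (nat_lit 4369) (nat_lit 41) (nat_lit 10) (.c (nat_lit 7) (nat_lit 1) (nat_lit 6) (nat_lit 1) (nat_lit 10) (.c (nat_lit 8) (nat_lit 1) (nat_lit 5) (nat_lit 1) (nat_lit 11) (.c (nat_lit 9) (nat_lit 1) (nat_lit 4) (nat_lit 1) (nat_lit 12) (.c (nat_lit 12) (nat_lit 3) (nat_lit 3) (nat_lit 1) (nat_lit 13) (.c (nat_lit 16) (nat_lit 3) (nat_lit 2) (nat_lit 1) (nat_lit 16) (.c (nat_lit 20) (nat_lit 3) (nat_lit 1) (nat_lit 1) (nat_lit 19)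 (.c (nat_lit 23) (nat_lit 3) (nat_lit 0) (nat_lit 1) (nat_lit 22) .nil)))))))

noncomputable def dr2_c529 : Cm := .mk (nat_lit 56) (nat_lit 529) (nat_lit 51) (nat_lit 4) (.c (nat_lit 8) (nat_lit 1) (nat_lit 6) (nat_lit 1) (nat_lit 4) (.c (nat_lit 15) (nat_lit 1) (nat_lit 3) (nat_lit 1) (nat_lit 5) (.c (nat_lit 19) (nat_lit 1) (nat_lit 2) (nat_lit 1) (nat_lit 6) (.c (nat_lit 23) (nat_lit 3) (nat_lit 1) (nat_lit 1) (nat_lit 7) (.c (nat_lit 2512) (nat_lit 0) (nat_lit 9) (nat_lit 1) (nat_lit 10) .nil)))))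

noncomputable def dr2_c4354 : Cm := .mk (nat_lit 62) (nat_lit 4354) (nat_lit 55) (nat_lit 6) (.c (nat_lit 8) (nat_lit 1) (nat_lit 7) (nat_lit 1) (nat_lit 6) (.c (nat_lit 10) (nat_lit 1) (nat_lit 4) (nat_lit 1) (nat_lit 7) (.c (nat_lit 16) (nat_lit 3) (nat_lit 3) (nat_lit 1) (nat_lit 8) (.c (nat_lit 26) (nat_lit 2) (nat_lit 1) (nat_lit 1) (nat_lit 11) (.c (nat_lit 28) (nat_lit 2) (nat_lit 0) (nat_lit 1) (nat_lit 13) .nil)))))

noncomputable def dr2_c514 : Cm := .mk (nat_lit 71) (nat_lit 514) (nat_lit 61) (nat_lit 3) (.c (nat_lit 8) (nat_lit 1) (nat_lit 8) (nat_lit 1) (nat_lit 3) (.c (nat_lit 19) (nat_lit 1) (nat_lit 3) (nat_lit 1) (nat_lit 4) (.c (nat_lit 28) (nat_lit 2) (nat_lit 1) (nat_lit 1) (nat_lit 5) (.c (nat_lit 2512) (nat_lit 0) (nat_lit 10) (nat_lit 1) (nat_lit 7) .nil))))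

noncomputable def dr2_c4114 : Cm := .mk (nat_lit 75) (nat_lit 4114) (nat_lit 64) (nat_lit 6) (.c (nat_lit 9) (nat_lit 1) (nat_lit 7) (nat_lit 1) (nat_lit 6) (.c (nat_lit 10) (nat_lit 1) (nat_lit 5) (nat_lit 1) (nat_lit 7) (.c (nat_lit 20) (nat_lit 3) (nat_lit 3) (nat_lit 1) (nat_lit 8) (.c (nat_lit 26) (nat_lit 2) (nat_lit 2) (nat_lit 1) (nat_lit 11) (.c (nat_lit 30) (nat_lit 2) (nat_lit 0) (nat_lit 1) (nat_lit 13) .nil)))))

noncomputable def dr2_c274 : Cm := .mk (nat_lit 84) (nat_lit 274) (nat_lit 70) (nat_lit 6) (.c (nat_lit 9) (nat_lit 1) (nat_lit 8) (nat_lit 1) (nat_lit 6) (.c (nat_lit 10) (nat_lit 1) (nat_lit 6) (nat_lit 1) (nat_lit 7) (.c (nat_lit 23) (nat_lit 3) (nat_lit 3) (nat_lit 1) (nat_lit 8) (.c (nat_lit 28) (nat_lit 2) (nat_lit 2) (nat_lit 1) (nat_lit 11) (.c (nat_lit 30) (nat_lit 2) (nat_lit 1) (nat_lit 1) (nat_lit 13) .nil)))))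

noncomputable def dr2_c4099 : Cm := .mk (nat_lit 93) (nat_lit 4099) (nat_lit 76) (nat_lit 3) (.c (nat_lit 10) (nat_lit 1) (nat_lit 7) (nat_lit 1) (nat_lit 3) (.c (nat_lit 26) (nat_lit 2) (nat_lit 3) (nat_lit 1) (nat_lit 4) (.c (nat_lit 32) (nat_lit 1) (nat_lit 0) (nat_lit 1) (nat_lit 6) .nil)))

noncomputable def dr2_c259 : Cm := .mk (nat_lit 97) (nat_lit 259) (nat_lit 79) (nat_lit 3) (.c (nat_lit 10) (nat_lit 1) (nat_lit 8) (nat_lit 1) (nat_lit 3) (.c (nat_lit 28) (nat_lit 2) (nat_lit 3) (nat_lit 1) (nat_lit 4) (.c (nat_lit 32) (nat_lit 1) (nat_lit 1) (nat_lit 1) (nat_lit 6) .nil)))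

noncomputable def dr2_c19 : Cm := .mk (nat_lit 101) (nat_lit 19) (nat_lit 82) (nat_lit 3) (.c (nat_lit 10) (nat_lit 1) (nat_lit 9) (nat_lit 1) (nat_lit 3) (.c (nat_lit 30) (nat_lit 2) (nat_lit 3) (nat_lit 1) (nat_lit 4) (.c (nat_lit 32) (nat_lit 1) (nat_lit 2) (nat_lit 1) (nat_lit 6) .nil)))

noncomputable def dr2_c4625 : Cm := .mk (nat_lit 105) (nat_lit 4625) (nat_lit 85) (nat_lit 19) (.c (nat_lit 11) (nat_lit 1) (nat_lit 9) (nat_lit 1) (nat_lit 19) (.c (nat_lit 12) (nat_lit 3) (nat_lit 8) (nat_lit 1) (nat_lit 20) (.c (nat_lit 15) (nat_lit 1) (nat_lit 7) (nat_lit 1) (nat_lit 23) (.c (nat_lit 16) (nat_lit 3) (nat_lit 6) (nat_lit 1) (nat_lit 24) (.c (nat_lit 19) (nat_lit 1) (nat_lit 5) (nat_lit 1) (nat_lit 27) (.c (nat_lit 23) (nat_lit 3) (nat_lit 4) (nat_lit 1) (nat_lit 28) (.c (nat_lit 33) (nat_lit 4) (nat_lit 3) (nat_lit 1) (nat_lit 31) (.c (nat_lit 37) (nat_lit 4) (nat_lit 2) (nat_lit 1) (nat_lit 35) (.c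 (nat_lit 41) (nat_lit 10) (nat_lit 1) (nat_lit 1) (nat_lit 39) (.c (nat_lit 51) (nat_lit 4) (nat_lit 0) (nat_lit 1) (nat_lit 49) (.c (nat_lit 2512) (nat_lit 0) (nat_lit 20) (nat_lit 3) (nat_lit 53) .nil)))))))))))

noncomputable def dr2_c4610 : Cm := .mk (nat_lit 139) (nat_lit 4610) (nat_lit 104) (nat_lit 11) (.c (nat_lit 11) (nat_lit 1) (nat_lit 10) (nat_lit 1) (nat_lit 11) (.c (nat_lit 16) (nat_lit 3) (nat_lit 8) (nat_lit 1) (nat_lit 12) (.c (nat_lit 19) (nat_lit 1) (nat_lit 7) (nat_lit 1) (nat_lit 15) (.c (nat_lit 28) (nat_lit 2) (nat_lit 4) (nat_lit 1) (nat_lit 16) (.c (nat_lit 37) (nat_lit 4) (nat_lit 3) (nat_lit 1) (nat_lit 18) (.c (nat_lit 55) (nat_lit 6) (nat_lit 1) (nat_lit 1) (nat_lit 22) (.c (nat_lit 61) (nat_lit 3) (nat_lit 0) (nat_lit 1) (nat_lit 28) (.c (nat_lit 2512) (nat_lit 0) (nat_lit 26) (nat_lit 2) (nat_lit 31) .nil))))))))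

noncomputable def dr2_c4370 : Cm := .mk (nat_lit 159) (nat_lit 4370) (nat_lit 115) (nat_lit 25) (.c (nat_lit 12) (nat_lit 3) (nat_lit 10) (nat_lit 1) (nat_lit 25) (.c (nat_lit 16) (nat_lit 3) (nat_lit 9) (nat_lit 1) (nat_lit 28) (.c (nat_lit 20) (nat_lit 3) (nat_lit 8) (nat_lit 1) (nat_lit 31) (.c (nat_lit 23) (nat_lit 3) (nat_lit 7) (nat_lit 1) (nat_lit 34) (.c (nat_lit 26) (nat_lit 2) (nat_lit 6) (nat_lit 1) (nat_lit 37) (.c (nat_lit 28) (nat_lit 2) (nat_lit 5) (nat_lit 1) (nat_lit 39) (.c (nat_lit 30) (nat_lit 2) (nat_lit 4) (nat_lit 1) (nat_lit 41) (.c (nat_lit 41) (nat_lit 10) (nat_lit 3) (nat_lit 1) (nat_lit 43) (.c (nat_lit 55) (nat_lit 6) (nat_lit 2) (nat_lit 1) (nat_lit 53) (.c (nat_lit 64) (nat_lit 6) (nat_lit 1) (nat_lit 1) (nat_lit 59) (.c (nat_lit 70) (nat_lit 6) (nat_lit 0) (nat_lit 1) (nat_lit 65) .nil)))))))))))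

noncomputable def dr2_c530 : Cm := .mk (nat_lit 205) (nat_lit 530) (nat_lit 140) (nat_lit 11) (.c (nat_lit 15) (nat_lit 1) (nat_lit 10) (nat_lit 1) (nat_lit 11) (.c (nat_lit 19) (nat_lit 1) (nat_lit 9) (nat_lit 1) (nat_lit 12) (.c (nat_lit 23) (nat_lit 3) (nat_lit 8) (nat_lit 1) (nat_lit 13) (.c (nat_lit 28) (nat_lit 2) (nat_lit 6) (nat_lit 1) (nat_lit 16) (.c (nat_lit 51) (nat_lit 4) (nat_lit 3) (nat_lit 1) (nat_lit 18) (.c (nat_lit 61) (nat_lit 3) (nat_lit 2) (nat_lit 1) (nat_lit 22) (.c (nat_lit 70) (nat_lit 6) (nat_lit 1) (nat_lit 1) (nat_lit 25) (.c (nat_lit 2512) (nat_lit 0) (nat_lit 30) (nat_lit 2) (nat_lit 31) .nil))))))))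

noncomputable def dr2_c4355 : Cm := .mk (nat_lit 225) (nat_lit 4355) (nat_lit 151) (nat_lit 11) (.c (nat_lit 16) (nat_lit 3) (nat_lit 10) (nat_lit 1) (nat_lit 11) (.c (nat_lit 26) (nat_lit 2) (nat_lit 8) (nat_lit 1) (nat_lit 14) (.c (nat_lit 28) (nat_lit 2) (nat_lit 7) (nat_lit 1) (nat_lit 16) (.c (nat_lit 32) (nat_lit 1) (nat_lit 4) (nat_lit 1) (nat_lit 18) (.c (nat_lit 55) (nat_lit 6) (nat_lit 3) (nat_lit 1) (nat_lit 19) (.c (nat_lit 76) (nat_lit 3) (nat_lit 1) (nat_lit 1) (nat_lit 25) (.c (nat_lit 79) (nat_lit 3) (nat_lit 0) (nat_lit 1) (nat_lit 28) .nil)))))))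

noncomputable def dr2_c515 : Cm := .mk (nat_lit 245) (nat_lit 515) (nat_lit 162) (nat_lit 5) (.c (nat_lit 19) (nat_lit 1) (nat_lit 10) (nat_lit 1) (nat_lit 5) (.c (nat_lit 28) (nat_lit 2) (nat_lit 8) (nat_lit 1) (nat_lit 6) (.c (nat_lit 61) (nat_lit 3) (nat_lit 3) (nat_lit 1) (nat_lit 8) (.c (nat_lit 79) (nat_lit 3) (nat_lit 1) (nat_lit 1) (nat_lit 11) (.c (nat_lit 2512) (nat_lit 0) (nat_lit 32) (nat_lit 1) (nat_lit 14) .nil)))))

noncomputable def dr2_c4115 : Cm := .mk (nat_lit 254) (nat_lit 4115) (nat_lit 167) (nat_lit 11) (.c (nat_lit 20) (nat_lit 3) (nat_lit 10) (nat_lit 1) (nat_lit 11) (.c (nat_lit 26) (nat_lit 2) (nat_lit 9) (nat_lit 1) (nat_lit 14) (.c (nat_lit 30) (nat_lit 2) (nat_lit 7) (nat_lit 1) (nat_lit 16) (.c (nat_lit 32) (nat_lit 1) (nat_lit 5) (nat_lit 1) (nat_lit 18) (.c (nat_lit 64) (nat_lit 6) (nat_lit 3) (nat_lit 1) (nat_lit 19) (.c (nat_lit 76) (nat_lit 3) (nat_lit 2) (nat_lit 1) (nat_lit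 25) (.c (nat_lit 82) (nat_lit 3) (nat_lit 0) (nat_lit 1) (nat_lit 28) .nil)))))))

noncomputable def dr2_c275 : Cm := .mk (nat_lit 274) (nat_lit 275) (nat_lit 178) (nat_lit 11) (.c (nat_lit 23) (nat_lit 3) (nat_lit 10) (nat_lit 1) (nat_lit 11) (.c (nat_lit 28) (nat_lit 2) (nat_lit 9) (nat_lit 1) (nat_lit 14) (.c (nat_lit 30) (nat_lit 2) (nat_lit 8) (nat_lit 1) (nat_lit 16) (.c (nat_lit 32) (nat_lit 1) (nat_lit 6) (nat_lit 1) (nat_lit 18) (.c (nat_lit 70) (nat_lit 6) (nat_lit 3) (nat_lit 1) (nat_lit 19) (.c (nat_lit 79) (nat_lit 3) (nat_lit 2) (nat_lit 1) (nat_lit 25) (.c (nat_lit 82) (nat_lit 3) (nat_lit 1) (nat_lit 1) (nat_lit 28) .nil)))))))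

noncomputable def dr2_c4626 : Cm := .mk (nat_lit 294) (nat_lit 4626) (nat_lit 189) (nat_lit 52) (.c (nat_lit 20) (nat_lit 3) (nat_lit 19) (nat_lit 1) (nat_lit 52) (.c (nat_lit 23) (nat_lit 3) (nat_lit 16) (nat_lit 3) (nat_lit 55) (.c (nat_lit 26) (nat_lit 2) (nat_lit 15) (nat_lit 1) (nat_lit 64) (.c (nat_lit 28) (nat_lit 2) (nat_lit 12) (nat_lit 3) (nat_lit 66) (.c (nat_lit 30) (nat_lit 2) (nat_lit 11) (nat_lit 1) (nat_lit 72) (.c (nat_lit 33) (nat_lit 4) (nat_lit 10) (nat_lit 1) (nat_lit 74) (.c (nat_lit 37) (nat_lit 4) (nat_lit 9) (nat_lit 1) (nat_lit 78) (.c (nat_lit 41) (nat_lit 10) (nat_lit 8) (nat_lit 1) (nat_lit 82) (.c (nat_lit 51) (nat_lit 4) (nat_lit 7) (nat_lit 1) (nat_lit 92) (.c (nat_lit 55) (nat_lit 6) (nat_lit 6) (nat_lit 1) (nat_lit 96) (.c (nat_lit 61) (nat_lit 3) (nat_lit 5) (nat_lit 1) (nat_lit 102) (.c (nat_lit 70) (nat_lit 6) (nat_lit 4) (nat_lit 1) (nat_lit 105) (.c (nat_lit 85) (nat_lit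 19) (nat_lit 3) (nat_lit 1) (nat_lit 111) (.c (nat_lit 104) (nat_lit 11) (nat_lit 2) (nat_lit 1) (nat_lit 130) (.c (nat_lit 115) (nat_lit 25) (nat_lit 1) (nat_lit 1) (nat_lit 141) (.c (nat_lit 140) (nat_lit 11) (nat_lit 0) (nat_lit 1) (nat_lit 166) (.c (nat_lit 2512) (nat_lit 0) (nat_lit 64) (nat_lit 6) (nat_lit 177) .nil)))))))))))))))))

noncomputable def dr2_c4611 : Cm := .mk (nat_lit 413) (nat_lit 4611) (nat_lit 241) (nat_lit 21) (.c (nat_lit 26) (nat_lit 2) (nat_lit 19) (nat_lit 1) (nat_lit 21) (.c (nat_lit 28) (nat_lit 2) (nat_lit 16) (nat_lit 3) (nat_lit 23) (.c (nat_lit 32) (nat_lit 1) (nat_lit 11) (nat_lit 1) (nat_lit 29) (.c (nat_lit 37) (nat_lit 4) (nat_lit 10) (nat_lit 1) (nat_lit 30) (.c (nat_lit 55) (nat_lit 6) (nat_lit 8) (nat_lit 1) (nat_lit 34) (.c (nat_lit 61) (nat_lit 3) (nat_lit 7) (nat_lit 1) (nat_lit 40) (.c (nat_lit 79) (nat_lit 3) (nat_lit 4) (nat_lit 1) (nat_lit 43) (.c (nat_lit 104)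 (nat_lit 11) (nat_lit 3) (nat_lit 1) (nat_lit 46) (.c (nat_lit 151) (nat_lit 11) (nat_lit 1) (nat_lit 1) (nat_lit 57) (.c (nat_lit 162) (nat_lit 5) (nat_lit 0) (nat_lit 1) (nat_lit 68) (.c (nat_lit 2512) (nat_lit 0) (nat_lit 76) (nat_lit 3) (nat_lit 73) .nil)))))))))))

noncomputable def dr2_c4371 : Cm := .mk (nat_lit 463) (nat_lit 4371) (nat_lit 262) (nat_lit 47) (.c (nat_lit 26) (nat_lit 2) (nat_lit 23) (nat_lit 3) (nat_lit 47) (.c (nat_lit 28) (nat_lit 2) (nat_lit 20) (nat_lit 3) (nat_lit 53) (.c (nat_lit 30) (nat_lit 2) (nat_lit 16) (nat_lit 3) (nat_lit 59) (.c (nat_lit 32) (nat_lit 1) (nat_lit 12) (nat_lit 3) (nat_lit 65) (.c (nat_lit 41) (nat_lit 10) (nat_lit 10) (nat_lit 1) (nat_lit 68) (.c (nat_lit 55) (nat_lit 6) (nat_lit 9) (nat_lit 1) (nat_lit 78) (.c (nat_lit 64) (nat_lit 6) (nat_lit 8) (nat_lit 1) (nat_lit 84) (.c (nat_lit 70) (nat_lit 6) (nat_lit 7) (nat_lit 1) (nat_lit 90) (.c (nat_lit 76) (nat_lit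 3) (nat_lit 6) (nat_lit 1) (nat_lit 96) (.c (nat_lit 79) (nat_lit 3) (nat_lit 5) (nat_lit 1) (nat_lit 99) (.c (nat_lit 82) (nat_lit 3) (nat_lit 4) (nat_lit 1) (nat_lit 102) (.c (nat_lit 115) (nat_lit 25) (nat_lit 3) (nat_lit 1) (nat_lit 105) (.c (nat_lit 151) (nat_lit 11) (nat_lit 2) (nat_lit 1) (nat_lit 130) (.c (nat_lit 167) (nat_lit 11) (nat_lit 1) (nat_lit 1) (nat_lit 141) (.c (nat_lit 178) (nat_lit 11) (nat_lit 0) (nat_lit 1) (nat_lit 152) .nil)))))))))))))))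

noncomputable def dr2_c531 : Cm := .mk (nat_lit 573) (nat_lit 531) (nat_lit 309) (nat_lit 21) (.c (nat_lit 28) (nat_lit 2) (nat_lit 23) (nat_lit 3) (nat_lit 21) (.c (nat_lit 30) (nat_lit 2) (nat_lit 19) (nat_lit 1) (nat_lit 27) (.c (nat_lit 32) (nat_lit 1) (nat_lit 15) (nat_lit 1) (nat_lit 29) (.c (nat_lit 51) (nat_lit 4) (nat_lit 10) (nat_lit 1) (nat_lit 30) (.c (nat_lit 61) (nat_lit 3) (nat_lit 9) (nat_lit 1) (nat_lit 34) (.c (nat_lit 70) (nat_lit 6) (nat_lit 8) (nat_lit 1) (nat_lit 37) (.c (nat_lit 79) (nat_lit 3) (nat_lit 6) (nat_lit 1) (nat_lit 43) (.c (nat_lit 140) (nat_lit 11) (nat_lit 3) (nat_lit 1) (nat_lit 46) (.c (nat_lit 162) (nat_lit 5) (nat_lit 2) (nat_lit 1) (nat_lit 57) (.c (nat_lit 178) (nat_lit 11) (nat_lit 1) (nat_lit 1) (nat_lit 62) (.c (nat_lit 2512) (nat_lit 0) (nat_lit 82) (nat_lit 3) (nat_lit 73) .nil)))))))))))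

noncomputable def dr2_i0 : IL := (.s false (nat_lit 1) (nat_lit 7) (nat_lit 2) (nat_lit 1) (nat_lit 3) true (nat_lit 1) true (nat_lit 7) true (nat_lit 3) true (nat_lit 8) true (nat_lit 9) (.s false (nat_lit 1) (nat_lit 7) (nat_lit 2) (nat_lit 3) (nat_lit 1) true (nat_lit 4) true (nat_lit 9) true (nat_lit 3) true (nat_lit 8) true (nat_lit 7) (.s false (nat_lit 1) (nat_lit 8) (nat_lit 3) (nat_lit 0) (nat_lit 2) true (nat_lit 1) true (nat_lit 8) true (nat_lit 2) true (nat_lit 7) true (nat_lit 10) (.s true (nat_lit 2) (nat_lit 9) (nat_lit 0) (nat_lit 1) (nat_lit 3) true (nat_lit 3) true (nat_lit 7) true (nat_lit 1) true (nat_lit 10) true (nat_lit 9) (.s true (nat_lit 1) (nat_lit 9) (nat_lit 0) (nat_lit 3) (nat_lit 1) true (nat_lit 6) true (nat_lit 9) true (nat_lit 1) true (nat_lit 10) true (nat_lit 7) (.s true (nat_lit 1) (nat_lit 9) (nat_lit 3) (nat_lit 1) (nat_lit 0) true (nat_lit 3) true (nat_lit 10) true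 (nat_lit 1) true (nat_lit 7) true (nat_lit 9) (.e false (nat_lit 72) (nat_lit 41) (nat_lit 3) (nat_lit 7) (.e true (nat_lit 36) (nat_lit 56) (nat_lit 2) (nat_lit 8) (.e false (nat_lit 36) (nat_lit 57) (nat_lit 2) (nat_lit 8) (.e true (nat_lit 54) (nat_lit 58) (nat_lit 2) (nat_lit 8) (.e false (nat_lit 54) (nat_lit 60) (nat_lit 2) (nat_lit 8) (.e false (nat_lit 18) (nat_lit 44) (nat_lit 3) (nat_lit 7) (.e true (nat_lit 36) (nat_lit 45) (nat_lit 3) (nat_lit 7) (.e true (nat_lit 18) (nat_lit 64) (nat_lit 1) (nat_lit 9) (.e false (nat_lit 18) (nat_lit 68) (nat_lit 1) (nat_lit 9) (.e false (nat_lit 18) (nat_lit 69) (nat_lit 1) (nat_lit 9) (.e false (nat_lit 18) (nat_lit 48) (nat_lit 3) (nat_lit 7) (.e true (nat_lit 18) (nat_lit 67) (nat_lit 1) (nat_lit 9) (.e true (nat_lit 18) (nat_lit 26) (nat_lit 6) (nat_lit 4) (.e false (nat_lit 18) (nat_lit 50) (nat_lit 3) (nat_lit 7) (.e false (nat_lit 18) (nat_lit 70) (nat_lit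 0) (nat_lit 10) (.e true (nat_lit 18) (nat_lit 74) (nat_lit 0) (nat_lit 10) (.e true (nat_lit 18) (nat_lit 43) (nat_lit 3) (nat_lit 7) (.e false (nat_lit 18) (nat_lit 42) (nat_lit 3) (nat_lit 7) (.e false (nat_lit 18) (nat_lit 46) (nat_lit 3) (nat_lit 7) .nil)))))))))))))))))))))))))

noncomputable def dr2_i1 : IL := (.e false (nat_lit 18) (nat_lit 130) (nat_lit 1) (nat_lit 14) (.e true (nat_lit 72) (nat_lit 104) (nat_lit 2) (nat_lit 13) (.e false (nat_lit 18) (nat_lit 106) (nat_lit 2) (nat_lit 13) (.e true (nat_lit 54) (nat_lit 109) (nat_lit 2) (nat_lit 13) (.e false (nat_lit 36) (nat_lit 114) (nat_lit 2) (nat_lit 13) (.e true (nat_lit 54) (nat_lit 41) (nat_lit 8) (nat_lit 7) (.e true (nat_lit 54) (nat_lit 119) (nat_lit 1) (nat_lit 14) (.e false (nat_lit 18) (nat_lit 139) (nat_lit 1) (nat_lit 14) (.e true (nat_lit 36) (nat_lit 117) (nat_lit 1) (nat_lit 14) (.e false (nat_lit 18) (nat_lit 118) (nat_lit 1)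 (nat_lit 14) (.e true (nat_lit 36) (nat_lit 120) (nat_lit 1) (nat_lit 14) (.e false (nat_lit 72) (nat_lit 121) (nat_lit 1) (nat_lit 14) (.e false (nat_lit 72) (nat_lit 123) (nat_lit 1) (nat_lit 14) (.e false (nat_lit 18) (nat_lit 124) (nat_lit 1) (nat_lit 14) (.e false (nat_lit 36) (nat_lit 128) (nat_lit 1) (nat_lit 14) (.e false (nat_lit 36) (nat_lit 131) (nat_lit 1) (nat_lit 14) (.e true (nat_lit 54) (nat_lit 134) (nat_lit 1) (nat_lit 14) (.e false (nat_lit 72) (nat_lit 135) (nat_lit 1) (nat_lit 14) (.e false (nat_lit 72) (nat_lit 116) (nat_lit 1) (nat_lit 14) (.e true (nat_lit 36) (nat_lit 122) (nat_lit 1) (nat_lit 14) (.e false (nat_lit 18) (nat_lit 115) (nat_lit 1) (nat_lit 14) (.e true (nat_lit 18) (nat_lit 133) (nat_lit 1) (nat_lit 14) (.e false (nat_lit 18) (nat_lit 136) (nat_lit 1) (nat_lit 14) (.e true (nat_lit 18) (nat_lit 138) (nat_lit 1) (nat_lit 14) (.e true (nat_lit 36) (nat_lit 102) (nat_lit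 3) (nat_lit 12) .nil)))))))))))))))))))))))))

noncomputable def dr2_i2 : IL := (.s true (nat_lit 1) (nat_lit 24) (nat_lit 3) (nat_lit 1) (nat_lit 0) true (nat_lit 8) true (nat_lit 15) false (nat_lit 1) true (nat_lit 12) true (nat_lit 14) (.s false (nat_lit 1) (nat_lit 25) (nat_lit 3) (nat_lit 1) (nat_lit 0) true (nat_lit 8) true (nat_lit 15) false (nat_lit 1) true (nat_lit 12) true (nat_lit 14) (.s true (nat_lit 1) (nat_lit 26) (nat_lit 1) (nat_lit 1) (nat_lit 2) true (nat_lit 9) true (nat_lit 13) false (nat_lit 2) true (nat_lit 14) true (nat_lit 14) (.e false (nat_lit 18) (nat_lit 70) (nat_lit 4) (nat_lit 11) (.e false (nat_lit 72) (nat_lit 85) (nat_lit 3) (nat_lit 12) (.e true (nat_lit 36) (nat_lit 89) (nat_lit 3) (nat_lit 12) (.e false (nat_lit 18) (nat_lit 94) (nat_lit 3) (nat_lit 12) (.e true (nat_lit 36) (nat_lit 95) (nat_lit 3) (nat_lit 12) (.e false (nat_lit 54) (nat_lit 96) (nat_lit 3) (nat_lit 12)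 (.e true (nat_lit 18) (nat_lit 98) (nat_lit 3) (nat_lit 12) (.e false (nat_lit 36) (nat_lit 103) (nat_lit 3) (nat_lit 12) (.e true (nat_lit 36) (nat_lit 87) (nat_lit 3) (nat_lit 12) (.e false (nat_lit 36) (nat_lit 88) (nat_lit 3) (nat_lit 12) (.e true (nat_lit 36) (nat_lit 53) (nat_lit 7) (nat_lit 8) (.e true (nat_lit 54) (nat_lit 92) (nat_lit 3) (nat_lit 12) (.e false (nat_lit 18) (nat_lit 141) (nat_lit 0) (nat_lit 15) (.e true (nat_lit 36) (nat_lit 146) (nat_lit 0) (nat_lit 15) (.e false (nat_lit 36) (nat_lit 147) (nat_lit 0) (nat_lit 15) (.e false (nat_lit 54) (nat_lit 46) (nat_lit 8) (nat_lit 7) (.e false (nat_lit 36) (nat_lit 108) (nat_lit 2) (nat_lit 13) (.e false (nat_lit 36) (nat_lit 110) (nat_lit 2) (nat_lit 13) (.e true (nat_lit 18) (nat_lit 111) (nat_lit 2) (nat_lit 13) (.e true (nat_lit 72) (nat_lit 112) (nat_lit 2) (nat_lit 13) (.e false (nat_lit 18) (nat_lit 126) (nat_lit 1) (nat_lit 14) (.e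 false (nat_lit 18) (nat_lit 129) (nat_lit 1) (nat_lit 14) dr2_i1)))))))))))))))))))))))))

noncomputable def dr2_i3 : IL := (.s false (nat_lit 1) (nat_lit 9) (nat_lit 4) (nat_lit 3) (nat_lit 1) true (nat_lit 4) true (nat_lit 14) true (nat_lit 6) true (nat_lit 11) true (nat_lit 12) (.s true (nat_lit 1) (nat_lit 10) (nat_lit 1) (nat_lit 2) (nat_lit 4) true (nat_lit 4) true (nat_lit 11) true (nat_lit 5) true (nat_lit 14) true (nat_lit 13) (.s true (nat_lit 1) (nat_lit 10) (nat_lit 2) (nat_lit 1) (nat_lit 4) true (nat_lit 3) true (nat_lit 11) true (nat_lit 5) true (nat_lit 13) true (nat_lit 14) (.s true (nat_lit 1) (nat_lit 10) (nat_lit 4) (nat_lit 2) (nat_lit 1) true (nat_lit 4) true (nat_lit 14) true (nat_lit 5) true (nat_lit 11) true (nat_lit 13) (.s true (nat_lit 1) (nat_lit 11) (nat_lit 2) (nat_lit 3) (nat_lit 3) true (nat_lit 6) true (nat_lit 12) true (nat_lit 4) true (nat_lit 13) true (nat_lit 12) (.s true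 (nat_lit 1) (nat_lit 12) (nat_lit 3) (nat_lit 1) (nat_lit 3) true (nat_lit 5) true (nat_lit 12) true (nat_lit 3) true (nat_lit 12) true (nat_lit 14) (.s false (nat_lit 1) (nat_lit 12) (nat_lit 3) (nat_lit 3) (nat_lit 1) true (nat_lit 7) true (nat_lit 14) true (nat_lit 3) true (nat_lit 12) true (nat_lit 12) (.s false (nat_lit 2) (nat_lit 17) (nat_lit 2) (nat_lit 1) (nat_lit 3) true (nat_lit 6) true (nat_lit 12) true (nat_lit 1) true (nat_lit 13) true (nat_lit 14) (.s true (nat_lit 1) (nat_lit 18) (nat_lit 2) (nat_lit 1) (nat_lit 3) true (nat_lit 6) true (nat_lit 12) true (nat_lit 1) true (nat_lit 13) true (nat_lit 14) (.s false (nat_lit 1) (nat_lit 17) (nat_lit 2) (nat_lit 3) (nat_lit 1) true (nat_lit 9) true (nat_lit 14) true (nat_lit 1) true (nat_lit 13) true (nat_lit 12) (.s true (nat_lit 1) (nat_lit 18) (nat_lit 2) (nat_lit 3) (nat_lit 1) true (nat_lit 9) true (nat_lit 14) true (nat_lit 1) true (nat_lit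 13) true (nat_lit 12) (.s true (nat_lit 2) (nat_lit 16) (nat_lit 3) (nat_lit 1) (nat_lit 2) true (nat_lit 6) true (nat_lit 13) true (nat_lit 1) true (nat_lit 12) true (nat_lit 14) (.s false (nat_lit 1) (nat_lit 18) (nat_lit 3) (nat_lit 1) (nat_lit 2) true (nat_lit 6) true (nat_lit 13) true (nat_lit 1) true (nat_lit 12) true (nat_lit 14) (.s false (nat_lit 1) (nat_lit 17) (nat_lit 3) (nat_lit 2) (nat_lit 1) true (nat_lit 7) true (nat_lit 14) true (nat_lit 1) true (nat_lit 12) true (nat_lit 13) (.s true (nat_lit 2) (nat_lit 18) (nat_lit 3) (nat_lit 2) (nat_lit 1) true (nat_lit 7) true (nat_lit 14) true (nat_lit 1) true (nat_lit 12) true (nat_lit 13) (.s false (nat_lit 1) (nat_lit 19) (nat_lit 2) (nat_lit 0) (nat_lit 3) true (nat_lit 6) true (nat_lit 12) true (nat_lit 0) true (nat_lit 13) true (nat_lit 15) (.s false (nat_lit 1) (nat_lit 19) (nat_lit 3) (nat_lit 2) (nat_lit 0) true (nat_lit 8) true (nat_lit 15)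 true (nat_lit 0) true (nat_lit 12) true (nat_lit 13) (.s false (nat_lit 1) (nat_lit 22) (nat_lit 1) (nat_lit 1) (nat_lit 3) true (nat_lit 7) true (nat_lit 12) false (nat_lit 0) true (nat_lit 14) true (nat_lit 14) (.s false (nat_lit 1) (nat_lit 22) (nat_lit 1) (nat_lit 3) (nat_lit 1) false (nat_lit 16) true (nat_lit 14) false (nat_lit 0) true (nat_lit 14) true (nat_lit 12) (.s true (nat_lit 1) (nat_lit 20) (nat_lit 3) (nat_lit 1) (nat_lit 1) true (nat_lit 7) true (nat_lit 14) false (nat_lit 0) true (nat_lit 12) true (nat_lit 14) (.s true (nat_lit 1) (nat_lit 21) (nat_lit 3) (nat_lit 1) (nat_lit 1) true (nat_lit 7) true (nat_lit 14) false (nat_lit 0) true (nat_lit 12) true (nat_lit 14) (.s true (nat_lit 1) (nat_lit 23) (nat_lit 0) (nat_lit 1) (nat_lit 3) true (nat_lit 8) true (nat_lit 12) false (nat_lit 1) true (nat_lit 15) true (nat_lit 14) (.s false (nat_lit 1) (nat_lit 23) (nat_lit 0) (nat_lit 3) (nat_lit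 1) true (nat_lit 11) true (nat_lit 14) false (nat_lit 1) true (nat_lit 15) true (nat_lit 12) (.s true (nat_lit 1) (nat_lit 23) (nat_lit 1) (nat_lit 3) (nat_lit 0) true (nat_lit 11) true (nat_lit 15) false (nat_lit 1) true (nat_lit 14) true (nat_lit 12) (.s true (nat_lit 1) (nat_lit 23) (nat_lit 3) (nat_lit 0) (nat_lit 1) true (nat_lit 7) true (nat_lit 14) false (nat_lit 1) true (nat_lit 12) true (nat_lit 15) dr2_i2)))))))))))))))))))))))))

noncomputable def dr2_i4 : IL := (.e false (nat_lit 18) (nat_lit 88) (nat_lit 3) (nat_lit 12) (.e true (nat_lit 18) (nat_lit 108) (nat_lit 2) (nat_lit 13) (.e false (nat_lit 18) (nat_lit 109) (nat_lit 2) (nat_lit 13) (.e true (nat_lit 18) (nat_lit 110) (nat_lit 2) (nat_lit 13) (.e false (nat_lit 18) (nat_lit 112) (nat_lit 2) (nat_lit 13) (.e false (nat_lit 36) (nat_lit 92) (nat_lit 3) (nat_lit 12) (.e false (nat_lit 36) (nat_lit 41) (nat_lit 8) (nat_lit 7) (.e true (nat_lit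 36) (nat_lit 116) (nat_lit 1) (nat_lit 14) (.e true (nat_lit 18) (nat_lit 117) (nat_lit 1) (nat_lit 14) (.e true (nat_lit 36) (nat_lit 118) (nat_lit 1) (nat_lit 14) (.e true (nat_lit 36) (nat_lit 120) (nat_lit 1) (nat_lit 14) (.e false (nat_lit 36) (nat_lit 122) (nat_lit 1) (nat_lit 14) (.e false (nat_lit 36) (nat_lit 124) (nat_lit 1) (nat_lit 14) (.e false (nat_lit 18) (nat_lit 125) (nat_lit 1) (nat_lit 14) (.e false (nat_lit 18) (nat_lit 126) (nat_lit 1) (nat_lit 14) (.e true (nat_lit 18) (nat_lit 127) (nat_lit 1) (nat_lit 14) (.e true (nat_lit 18) (nat_lit 131) (nat_lit 1) (nat_lit 14) (.e false (nat_lit 18) (nat_lit 133) (nat_lit 1) (nat_lit 14) (.e true (nat_lit 18) (nat_lit 135) (nat_lit 1) (nat_lit 14) (.e false (nat_lit 36) (nat_lit 136) (nat_lit 1) (nat_lit 14) (.e false (nat_lit 18) (nat_lit 139) (nat_lit 1) (nat_lit 14) (.e true (nat_lit 18) (nat_lit 53) (nat_lit 7) (nat_lit 8) (.e false (nat_lit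 18) (nat_lit 141) (nat_lit 0) (nat_lit 15) (.e true (nat_lit 18) (nat_lit 146) (nat_lit 0) (nat_lit 15) (.e false (nat_lit 18) (nat_lit 147) (nat_lit 0) (nat_lit 15) .nil)))))))))))))))))))))))))

noncomputable def dr2_i5 : IL := (.e false (nat_lit 54) (nat_lit 102) (nat_lit 3) (nat_lit 12) (.e false (nat_lit 18) (nat_lit 87) (nat_lit 3) (nat_lit 12) (.e true (nat_lit 18) (nat_lit 141) (nat_lit 0) (nat_lit 15) (.e false (nat_lit 54) (nat_lit 146) (nat_lit 0) (nat_lit 15) (.e true (nat_lit 54) (nat_lit 147) (nat_lit 0) (nat_lit 15) (.e true (nat_lit 18) (nat_lit 108) (nat_lit 2) (nat_lit 13) (.e true (nat_lit 18) (nat_lit 112) (nat_lit 2) (nat_lit 13) (.e true (nat_lit 12) (nat_lit 126) (nat_lit 1) (nat_lit 14) (.e false (nat_lit 30) (nat_lit 131) (nat_lit 1) (nat_lit 14) (.e true (nat_lit 30) (nat_lit 134) (nat_lit 1) (nat_lit 14) (.e false (nat_lit 42) (nat_lit 135) (nat_lit 1) (nat_lit 14) (.e false (nat_lit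 120) (nat_lit 139) (nat_lit 1) (nat_lit 14) (.e true (nat_lit 54) (nat_lit 125) (nat_lit 1) (nat_lit 14) (.e false (nat_lit 72) (nat_lit 129) (nat_lit 1) (nat_lit 14) (.e true (nat_lit 54) (nat_lit 130) (nat_lit 1) (nat_lit 14) (.e true (nat_lit 54) (nat_lit 128) (nat_lit 1) (nat_lit 14) (.e false (nat_lit 24) (nat_lit 116) (nat_lit 1) (nat_lit 14) (.e false (nat_lit 36) (nat_lit 109) (nat_lit 2) (nat_lit 13) (.e true (nat_lit 6) (nat_lit 127) (nat_lit 1) (nat_lit 14) (.e true (nat_lit 12) (nat_lit 115) (nat_lit 1) (nat_lit 14) (.e true (nat_lit 6) (nat_lit 133) (nat_lit 1) (nat_lit 14) (.e false (nat_lit 24) (nat_lit 136) (nat_lit 1) (nat_lit 14) (.e true (nat_lit 6) (nat_lit 138) (nat_lit 1) (nat_lit 14) (.e true (nat_lit 36) (nat_lit 46) (nat_lit 8) (nat_lit 7) (.e false (nat_lit 18) (nat_lit 110) (nat_lit 2) (nat_lit 13) .nil)))))))))))))))))))))))))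

noncomputable def dr2_i6 : IL := (.s true (nat_lit 2) (nat_lit 21) (nat_lit 3) (nat_lit 1) (nat_lit 1) true (nat_lit 7) true (nat_lit 14) false (nat_lit 0) true (nat_lit 12) true (nat_lit 14) (.s true (nat_lit 2) (nat_lit 23) (nat_lit 0) (nat_lit 3) (nat_lit 1) true (nat_lit 11) true (nat_lit 14) false (nat_lit 1) true (nat_lit 15) true (nat_lit 12) (.s true (nat_lit 1) (nat_lit 25) (nat_lit 1) (nat_lit 0) (nat_lit 3) true (nat_lit 7) true (nat_lit 12) false (nat_lit 1) true (nat_lit 14) true (nat_lit 15) (.s false (nat_lit 1) (nat_lit 23) (nat_lit 1) (nat_lit 3) (nat_lit 0) true (nat_lit 11) true (nat_lit 15) false (nat_lit 1) true (nat_lit 14) true (nat_lit 12) (.s true (nat_lit 1) (nat_lit 23) (nat_lit 3) (nat_lit 0) (nat_lit 1) true (nat_lit 7) true (nat_lit 14) false (nat_lit 1) true (nat_lit 12) true (nat_lit 15) (.s true (nat_lit 1) (nat_lit 25) (nat_lit 3) (nat_lit 1) (nat_lit 0) true (nat_lit 8)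 true (nat_lit 15) false (nat_lit 1) true (nat_lit 12) true (nat_lit 14) (.s true (nat_lit 1) (nat_lit 27) (nat_lit 1) (nat_lit 1) (nat_lit 2) true (nat_lit 9) true (nat_lit 13) false (nat_lit 2) true (nat_lit 14) true (nat_lit 14) (.s true (nat_lit 1) (nat_lit 26) (nat_lit 1) (nat_lit 2) (nat_lit 1) false (nat_lit 16) true (nat_lit 14) false (nat_lit 2) true (nat_lit 14) true (nat_lit 13) (.s false (nat_lit 1) (nat_lit 30) (nat_lit 0) (nat_lit 1) (nat_lit 1) true (nat_lit 11) true (nat_lit 14) false (nat_lit 4) true (nat_lit 15) true (nat_lit 14) (.s false (nat_lit 1) (nat_lit 31) (nat_lit 0) (nat_lit 1) (nat_lit 1) true (nat_lit 11) true (nat_lit 14) false (nat_lit 4) true (nat_lit 15) true (nat_lit 14) (.e false (nat_lit 18) (nat_lit 90) (nat_lit 3) (nat_lit 12) (.e true (nat_lit 36) (nat_lit 91) (nat_lit 3) (nat_lit 12) (.e true (nat_lit 18) (nat_lit 85) (nat_lit 3) (nat_lit 12) (.e true (nat_lit 18) (nat_lit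 96) (nat_lit 3) (nat_lit 12) (.e true (nat_lit 72) (nat_lit 70) (nat_lit 4) (nat_lit 11) (.e false (nat_lit 30) (nat_lit 117) (nat_lit 1) (nat_lit 14) (.e false (nat_lit 24) (nat_lit 118) (nat_lit 1) (nat_lit 14) (.e false (nat_lit 114) (nat_lit 119) (nat_lit 1) (nat_lit 14) (.e false (nat_lit 60) (nat_lit 120) (nat_lit 1) (nat_lit 14) (.e true (nat_lit 72) (nat_lit 121) (nat_lit 1) (nat_lit 14) (.e true (nat_lit 66) (nat_lit 122) (nat_lit 1) (nat_lit 14) (.e true (nat_lit 72) (nat_lit 123) (nat_lit 1) (nat_lit 14) (.e true (nat_lit 120) (nat_lit 124) (nat_lit 1) (nat_lit 14) (.e false (nat_lit 36) (nat_lit 53) (nat_lit 7) (nat_lit 8) (.e true (nat_lit 18) (nat_lit 88) (nat_lit 3) (nat_lit 12) dr2_i5)))))))))))))))))))))))))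

noncomputable def dr2_i7 : IL := (.e true (nat_lit 36) (nat_lit 130) (nat_lit 1) (nat_lit 14) (.e false (nat_lit 18) (nat_lit 117) (nat_lit 1) (nat_lit 14) (.e true (nat_lit 18) (nat_lit 118) (nat_lit 1) (nat_lit 14) (.e true (nat_lit 36) (nat_lit 121) (nat_lit 1) (nat_lit 14) (.e true (nat_lit 36) (nat_lit 123) (nat_lit 1) (nat_lit 14) (.e true (nat_lit 54) (nat_lit 124) (nat_lit 1) (nat_lit 14) (.e true (nat_lit 18) (nat_lit 128) (nat_lit 1) (nat_lit 14) (.e false (nat_lit 18) (nat_lit 92) (nat_lit 3) (nat_lit 12) (.e false (nat_lit 18) (nat_lit 94) (nat_lit 3) (nat_lit 12) (.e true (nat_lit 18) (nat_lit 98) (nat_lit 3) (nat_lit 12) (.e true (nat_lit 36) (nat_lit 100) (nat_lit 3) (nat_lit 12) (.e false (nat_lit 18) (nat_lit 85) (nat_lit 3) (nat_lit 12) (.e false (nat_lit 72) (nat_lit 109) (nat_lit 2) (nat_lit 13) (.e true (nat_lit 18) (nat_lit 114) (nat_lit 2) (nat_lit 13) (.e true (nat_lit 18) (nat_lit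 46) (nat_lit 8) (nat_lit 7) (.e true (nat_lit 18) (nat_lit 115) (nat_lit 1) (nat_lit 14) (.e false (nat_lit 18) (nat_lit 106) (nat_lit 2) (nat_lit 13) (.e true (nat_lit 18) (nat_lit 40) (nat_lit 9) (nat_lit 6) (.e true (nat_lit 18) (nat_lit 87) (nat_lit 3) (nat_lit 12) (.e false (nat_lit 18) (nat_lit 88) (nat_lit 3) (nat_lit 12) (.e false (nat_lit 18) (nat_lit 102) (nat_lit 3) (nat_lit 12) (.e true (nat_lit 18) (nat_lit 127) (nat_lit 1) (nat_lit 14) (.e false (nat_lit 18) (nat_lit 136) (nat_lit 1) (nat_lit 14) (.e false (nat_lit 18) (nat_lit 146) (nat_lit 0) (nat_lit 15) (.e true (nat_lit 18) (nat_lit 147) (nat_lit 0) (nat_lit 15) .nil)))))))))))))))))))))))))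

noncomputable def dr2_i8 : IL := (.s false (nat_lit 1) (nat_lit 20) (nat_lit 1) (nat_lit 1) (nat_lit 3) true (nat_lit 7) true (nat_lit 12) false (nat_lit 0) true (nat_lit 14) true (nat_lit 14) (.s true (nat_lit 1) (nat_lit 21) (nat_lit 1) (nat_lit 1) (nat_lit 3) true (nat_lit 7) true (nat_lit 12) false (nat_lit 0) true (nat_lit 14) true (nat_lit 14) (.s true (nat_lit 1) (nat_lit 22) (nat_lit 1) (nat_lit 3) (nat_lit 1) false (nat_lit 16) true (nat_lit 14) false (nat_lit 0) true (nat_lit 14) true (nat_lit 12) (.s false (nat_lit 1) (nat_lit 20) (nat_lit 3) (nat_lit 1) (nat_lit 1) true (nat_lit 7) true (nat_lit 14) false (nat_lit 0) true (nat_lit 12) true (nat_lit 14) (.s true (nat_lit 1) (nat_lit 21) (nat_lit 3) (nat_lit 1) (nat_lit 1) true (nat_lit 7) true (nat_lit 14) false (nat_lit 0) true (nat_lit 12) true (nat_lit 14) (.s true (nat_lit 1) (nat_lit 23) (nat_lit 0) (nat_lit 1) (nat_lit 3) true (nat_lit 8)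 true (nat_lit 12) false (nat_lit 1) true (nat_lit 15) true (nat_lit 14) (.s true (nat_lit 2) (nat_lit 23) (nat_lit 0) (nat_lit 3) (nat_lit 1) true (nat_lit 11) true (nat_lit 14) false (nat_lit 1) true (nat_lit 15) true (nat_lit 12) (.s false (nat_lit 1) (nat_lit 23) (nat_lit 1) (nat_lit 3) (nat_lit 0) true (nat_lit 11) true (nat_lit 15) false (nat_lit 1) true (nat_lit 14) true (nat_lit 12) (.e false (nat_lit 18) (nat_lit 90) (nat_lit 3) (nat_lit 12) (.e true (nat_lit 36) (nat_lit 91) (nat_lit 3) (nat_lit 12) (.e false (nat_lit 18) (nat_lit 41) (nat_lit 8) (nat_lit 7) (.e true (nat_lit 54) (nat_lit 70) (nat_lit 4) (nat_lit 11) (.e false (nat_lit 36) (nat_lit 104) (nat_lit 2) (nat_lit 13) (.e true (nat_lit 36) (nat_lit 110) (nat_lit 2) (nat_lit 13) (.e true (nat_lit 72) (nat_lit 108) (nat_lit 2) (nat_lit 13) (.e false (nat_lit 36) (nat_lit 111) (nat_lit 2) (nat_lit 13) (.e true (nat_lit 18) (nat_lit 122) (nat_lit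 1) (nat_lit 14) (.e false (nat_lit 18) (nat_lit 126) (nat_lit 1) (nat_lit 14) (.e false (nat_lit 18) (nat_lit 131) (nat_lit 1) (nat_lit 14) (.e true (nat_lit 18) (nat_lit 134) (nat_lit 1) (nat_lit 14) (.e false (nat_lit 18) (nat_lit 135) (nat_lit 1) (nat_lit 14) (.e false (nat_lit 54) (nat_lit 139) (nat_lit 1) (nat_lit 14) (.e false (nat_lit 72) (nat_lit 119) (nat_lit 1) (nat_lit 14) (.e true (nat_lit 18) (nat_lit 125) (nat_lit 1) (nat_lit 14) (.e false (nat_lit 36) (nat_lit 129) (nat_lit 1) (nat_lit 14) dr2_i7)))))))))))))))))))))))))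

noncomputable def dr2_i9 : IL := (.e false (nat_lit 18) (nat_lit 123) (nat_lit 1) (nat_lit 14) (.e false (nat_lit 12) (nat_lit 124) (nat_lit 1) (nat_lit 14) (.e false (nat_lit 18) (nat_lit 53) (nat_lit 7) (nat_lit 8) (.e false (nat_lit 36) (nat_lit 92) (nat_lit 3) (nat_lit 12) (.e false (nat_lit 54) (nat_lit 102) (nat_lit 3) (nat_lit 12) (.e true (nat_lit 54) (nat_lit 141) (nat_lit 0) (nat_lit 15) (.e false (nat_lit 54) (nat_lit 146) (nat_lit 0) (nat_lit 15) (.e true (nat_lit 54) (nat_lit 147) (nat_lit 0) (nat_lit 15) (.e false (nat_lit 36) (nat_lit 41) (nat_lit 8) (nat_lit 7) (.e true (nat_lit 36) (nat_lit 108) (nat_lit 2) (nat_lit 13) (.e false (nat_lit 48) (nat_lit 126) (nat_lit 1) (nat_lit 14) (.e false (nat_lit 60) (nat_lit 131) (nat_lit 1) (nat_lit 14) (.e true (nat_lit 60) (nat_lit 134) (nat_lit 1) (nat_lit 14) (.e false (nat_lit 48) (nat_lit 135) (nat_lit 1) (nat_lit 14) (.e false (nat_lit 132) (nat_lit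 139) (nat_lit 1) (nat_lit 14) (.e true (nat_lit 42) (nat_lit 116) (nat_lit 1) (nat_lit 14) (.e true (nat_lit 54) (nat_lit 125) (nat_lit 1) (nat_lit 14) (.e false (nat_lit 54) (nat_lit 129) (nat_lit 1) (nat_lit 14) (.e true (nat_lit 54) (nat_lit 130) (nat_lit 1) (nat_lit 14) (.e true (nat_lit 12) (nat_lit 127) (nat_lit 1) (nat_lit 14) (.e false (nat_lit 18) (nat_lit 128) (nat_lit 1) (nat_lit 14) (.e true (nat_lit 6) (nat_lit 115) (nat_lit 1) (nat_lit 14) (.e true (nat_lit 12) (nat_lit 133) (nat_lit 1) (nat_lit 14) (.e false (nat_lit 30) (nat_lit 136) (nat_lit 1) (nat_lit 14) (.e false (nat_lit 6) (nat_lit 138) (nat_lit 1) (nat_lit 14) .nil)))))))))))))))))))))))))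

noncomputable def dr2_i10 : IL := (.s true (nat_lit 1) (nat_lit 9) (nat_lit 7) (nat_lit 1) (nat_lit 1) true (nat_lit 1) true (nat_lit 14) true (nat_lit 6) true (nat_lit 8) true (nat_lit 14) (.s true (nat_lit 1) (nat_lit 10) (nat_lit 2) (nat_lit 1) (nat_lit 4) true (nat_lit 3) true (nat_lit 11) true (nat_lit 5) true (nat_lit 13) true (nat_lit 14) (.s false (nat_lit 1) (nat_lit 11) (nat_lit 2) (nat_lit 3) (nat_lit 3) true (nat_lit 6) true (nat_lit 12) true (nat_lit 4) true (nat_lit 13) true (nat_lit 12) (.s true (nat_lit 1) (nat_lit 11) (nat_lit 3) (nat_lit 3) (nat_lit 2) true (nat_lit 6) true (nat_lit 13) true (nat_lit 4) true (nat_lit 12) true (nat_lit 12) (.s false (nat_lit 1) (nat_lit 12) (nat_lit 3) (nat_lit 3) (nat_lit 1) true (nat_lit 7) true (nat_lit 14) true (nat_lit 3) true (nat_lit 12) true (nat_lit 12) (.s false (nat_lit 1) (nat_lit 17) (nat_lit 1) (nat_lit 2) (nat_lit 3) true (nat_lit 7) true (nat_lit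 12) true (nat_lit 1) true (nat_lit 14) true (nat_lit 13) (.s true (nat_lit 1) (nat_lit 17) (nat_lit 2) (nat_lit 1) (nat_lit 3) true (nat_lit 6) true (nat_lit 12) true (nat_lit 1) true (nat_lit 13) true (nat_lit 14) (.s true (nat_lit 1) (nat_lit 17) (nat_lit 2) (nat_lit 3) (nat_lit 1) true (nat_lit 9) true (nat_lit 14) true (nat_lit 1) true (nat_lit 13) true (nat_lit 12) (.s false (nat_lit 1) (nat_lit 16) (nat_lit 3) (nat_lit 1) (nat_lit 2) true (nat_lit 6) true (nat_lit 13) true (nat_lit 1) true (nat_lit 12) true (nat_lit 14) (.s true (nat_lit 1) (nat_lit 21) (nat_lit 1) (nat_lit 1) (nat_lit 3) true (nat_lit 7) true (nat_lit 12) false (nat_lit 0) true (nat_lit 14) true (nat_lit 14) (.s true (nat_lit 1) (nat_lit 21) (nat_lit 3) (nat_lit 1) (nat_lit 1) true (nat_lit 7) true (nat_lit 14) false (nat_lit 0) true (nat_lit 12) true (nat_lit 14) (.s true (nat_lit 2) (nat_lit 23) (nat_lit 0) (nat_lit 3) (nat_lit 1)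 true (nat_lit 11) true (nat_lit 14) false (nat_lit 1) true (nat_lit 15) true (nat_lit 12) (.s true (nat_lit 1) (nat_lit 27) (nat_lit 1) (nat_lit 1) (nat_lit 2) true (nat_lit 9) true (nat_lit 13) false (nat_lit 2) true (nat_lit 14) true (nat_lit 14) (.s true (nat_lit 1) (nat_lit 26) (nat_lit 1) (nat_lit 2) (nat_lit 1) false (nat_lit 16) true (nat_lit 14) false (nat_lit 2) true (nat_lit 14) true (nat_lit 13) (.s false (nat_lit 1) (nat_lit 31) (nat_lit 0) (nat_lit 1) (nat_lit 1) true (nat_lit 11) true (nat_lit 14) false (nat_lit 4) true (nat_lit 15) true (nat_lit 14) (.e false (nat_lit 36) (nat_lit 90) (nat_lit 3) (nat_lit 12) (.e true (nat_lit 18) (nat_lit 94) (nat_lit 3) (nat_lit 12) (.e true (nat_lit 36) (nat_lit 96) (nat_lit 3) (nat_lit 12) (.e true (nat_lit 54) (nat_lit 70) (nat_lit 4) (nat_lit 11) (.e true (nat_lit 48) (nat_lit 117) (nat_lit 1) (nat_lit 14) (.e true (nat_lit 60) (nat_lit 118) (nat_lit 1)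 (nat_lit 14) (.e false (nat_lit 12) (nat_lit 119) (nat_lit 1) (nat_lit 14) (.e true (nat_lit 60) (nat_lit 120) (nat_lit 1) (nat_lit 14) (.e false (nat_lit 18) (nat_lit 121) (nat_lit 1) (nat_lit 14) (.e false (nat_lit 30) (nat_lit 122) (nat_lit 1) (nat_lit 14) dr2_i9)))))))))))))))))))))))))

noncomputable def dr2_i11 : IL := (.e false (nat_lit 18) (nat_lit 111) (nat_lit 2) (nat_lit 13) (.e true (nat_lit 18) (nat_lit 112) (nat_lit 2) (nat_lit 13) (.e false (nat_lit 36) (nat_lit 122) (nat_lit 1) (nat_lit 14) (.e false (nat_lit 36) (nat_lit 126) (nat_lit 1) (nat_lit 14) (.e false (nat_lit 36) (nat_lit 131) (nat_lit 1) (nat_lit 14) (.e true (nat_lit 36) (nat_lit 134) (nat_lit 1) (nat_lit 14) (.e false (nat_lit 36) (nat_lit 135) (nat_lit 1) (nat_lit 14) (.e false (nat_lit 36) (nat_lit 139) (nat_lit 1) (nat_lit 14) (.e true (nat_lit 36) (nat_lit 119) (nat_lit 1) (nat_lit 14) (.e true (nat_lit 18) (nat_lit 125) (nat_lit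 1) (nat_lit 14) (.e false (nat_lit 18) (nat_lit 129) (nat_lit 1) (nat_lit 14) (.e true (nat_lit 18) (nat_lit 130) (nat_lit 1) (nat_lit 14) (.e true (nat_lit 54) (nat_lit 117) (nat_lit 1) (nat_lit 14) (.e true (nat_lit 54) (nat_lit 118) (nat_lit 1) (nat_lit 14) (.e true (nat_lit 72) (nat_lit 120) (nat_lit 1) (nat_lit 14) (.e false (nat_lit 54) (nat_lit 121) (nat_lit 1) (nat_lit 14) (.e false (nat_lit 54) (nat_lit 123) (nat_lit 1) (nat_lit 14) (.e false (nat_lit 54) (nat_lit 124) (nat_lit 1) (nat_lit 14) (.e false (nat_lit 36) (nat_lit 128) (nat_lit 1) (nat_lit 14) (.e true (nat_lit 18) (nat_lit 110) (nat_lit 2) (nat_lit 13) (.e true (nat_lit 18) (nat_lit 40) (nat_lit 9) (nat_lit 6) (.e false (nat_lit 18) (nat_lit 106) (nat_lit 2) (nat_lit 13) (.e false (nat_lit 18) (nat_lit 46) (nat_lit 8) (nat_lit 7) (.e true (nat_lit 18) (nat_lit 133) (nat_lit 1) (nat_lit 14) (.e false (nat_lit 18) (nat_lit 136) (nat_lit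 1) (nat_lit 14) .nil)))))))))))))))))))))))))

noncomputable def dr2_i12 : IL := (.s false (nat_lit 1) (nat_lit 17) (nat_lit 1) (nat_lit 2) (nat_lit 3) true (nat_lit 7) true (nat_lit 12) true (nat_lit 1) true (nat_lit 14) true (nat_lit 13) (.s false (nat_lit 1) (nat_lit 17) (nat_lit 2) (nat_lit 1) (nat_lit 3) true (nat_lit 6) true (nat_lit 12) true (nat_lit 1) true (nat_lit 13) true (nat_lit 14) (.s true (nat_lit 1) (nat_lit 18) (nat_lit 2) (nat_lit 1) (nat_lit 3) true (nat_lit 6) true (nat_lit 12) true (nat_lit 1) true (nat_lit 13) true (nat_lit 14) (.s false (nat_lit 1) (nat_lit 17) (nat_lit 2) (nat_lit 3) (nat_lit 1) true (nat_lit 9) true (nat_lit 14) true (nat_lit 1) true (nat_lit 13) true (nat_lit 12) (.s true (nat_lit 1) (nat_lit 18) (nat_lit 2) (nat_lit 3) (nat_lit 1) true (nat_lit 9) true (nat_lit 14) true (nat_lit 1) true (nat_lit 13) true (nat_lit 12) (.s true (nat_lit 1) (nat_lit 18) (nat_lit 3)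 (nat_lit 2) (nat_lit 1) true (nat_lit 7) true (nat_lit 14) true (nat_lit 1) true (nat_lit 12) true (nat_lit 13) (.s true (nat_lit 1) (nat_lit 21) (nat_lit 1) (nat_lit 1) (nat_lit 3) true (nat_lit 7) true (nat_lit 12) false (nat_lit 0) true (nat_lit 14) true (nat_lit 14) (.s true (nat_lit 1) (nat_lit 21) (nat_lit 3) (nat_lit 1) (nat_lit 1) true (nat_lit 7) true (nat_lit 14) false (nat_lit 0) true (nat_lit 12) true (nat_lit 14) (.s true (nat_lit 1) (nat_lit 23) (nat_lit 0) (nat_lit 1) (nat_lit 3) true (nat_lit 8) true (nat_lit 12) false (nat_lit 1) true (nat_lit 15) true (nat_lit 14) (.s true (nat_lit 1) (nat_lit 23) (nat_lit 1) (nat_lit 3) (nat_lit 0) true (nat_lit 11) true (nat_lit 15) false (nat_lit 1) true (nat_lit 14) true (nat_lit 12) (.s true (nat_lit 1) (nat_lit 26) (nat_lit 1) (nat_lit 1) (nat_lit 2) true (nat_lit 9) true (nat_lit 13) false (nat_lit 2) true (nat_lit 14) true (nat_lit 14) (.e false (nat_lit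 36) (nat_lit 85) (nat_lit 3) (nat_lit 12) (.e true (nat_lit 18) (nat_lit 89) (nat_lit 3) (nat_lit 12) (.e false (nat_lit 18) (nat_lit 90) (nat_lit 3) (nat_lit 12) (.e true (nat_lit 18) (nat_lit 94) (nat_lit 3) (nat_lit 12) (.e true (nat_lit 18) (nat_lit 95) (nat_lit 3) (nat_lit 12) (.e false (nat_lit 18) (nat_lit 100) (nat_lit 3) (nat_lit 12) (.e false (nat_lit 18) (nat_lit 103) (nat_lit 3) (nat_lit 12) (.e true (nat_lit 18) (nat_lit 87) (nat_lit 3) (nat_lit 12) (.e false (nat_lit 18) (nat_lit 88) (nat_lit 3) (nat_lit 12) (.e true (nat_lit 18) (nat_lit 53) (nat_lit 7) (nat_lit 8) (.e true (nat_lit 18) (nat_lit 43) (nat_lit 8) (nat_lit 7) (.e true (nat_lit 18) (nat_lit 141) (nat_lit 0) (nat_lit 15) (.e true (nat_lit 18) (nat_lit 107) (nat_lit 2) (nat_lit 13) (.e true (nat_lit 36) (nat_lit 108) (nat_lit 2) (nat_lit 13) dr2_i11)))))))))))))))))))))))))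

noncomputable def dr2_i13 : IL := (.e true (nat_lit 18) (nat_lit 125) (nat_lit 1) (nat_lit 14) (.e false (nat_lit 6) (nat_lit 126) (nat_lit 1) (nat_lit 14) (.e false (nat_lit 66) (nat_lit 139) (nat_lit 1) (nat_lit 14) (.e true (nat_lit 78) (nat_lit 117) (nat_lit 1) (nat_lit 14) (.e true (nat_lit 66) (nat_lit 118) (nat_lit 1) (nat_lit 14) (.e true (nat_lit 66) (nat_lit 120) (nat_lit 1) (nat_lit 14) (.e false (nat_lit 36) (nat_lit 121) (nat_lit 1) (nat_lit 14) (.e false (nat_lit 36) (nat_lit 123) (nat_lit 1) (nat_lit 14) (.e false (nat_lit 78) (nat_lit 124) (nat_lit 1) (nat_lit 14) (.e true (nat_lit 6) (nat_lit 131) (nat_lit 1) (nat_lit 14) (.e true (nat_lit 12) (nat_lit 134) (nat_lit 1) (nat_lit 14) (.e true (nat_lit 30) (nat_lit 135) (nat_lit 1) (nat_lit 14) (.e true (nat_lit 66) (nat_lit 116) (nat_lit 1) (nat_lit 14) (.e false (nat_lit 78) (nat_lit 122) (nat_lit 1) (nat_lit 14) (.e false (nat_lit 30) (nat_lit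 127) (nat_lit 1) (nat_lit 14) (.e false (nat_lit 24) (nat_lit 115) (nat_lit 1) (nat_lit 14) (.e false (nat_lit 30) (nat_lit 133) (nat_lit 1) (nat_lit 14) (.e false (nat_lit 6) (nat_lit 136) (nat_lit 1) (nat_lit 14) (.e false (nat_lit 12) (nat_lit 138) (nat_lit 1) (nat_lit 14) (.e false (nat_lit 72) (nat_lit 102) (nat_lit 3) (nat_lit 12) (.e false (nat_lit 36) (nat_lit 53) (nat_lit 7) (nat_lit 8) (.e true (nat_lit 72) (nat_lit 141) (nat_lit 0) (nat_lit 15) (.e false (nat_lit 72) (nat_lit 146) (nat_lit 0) (nat_lit 15) (.e true (nat_lit 72) (nat_lit 147) (nat_lit 0) (nat_lit 15) (.e true (nat_lit 36) (nat_lit 43) (nat_lit 8) (nat_lit 7) .nil)))))))))))))))))))))))))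

noncomputable def dr2_i14 : IL := (.s true (nat_lit 2) (nat_lit 24) (nat_lit 1) (nat_lit 0) (nat_lit 3) true (nat_lit 7) true (nat_lit 12) false (nat_lit 1) true (nat_lit 14) true (nat_lit 15) (.s true (nat_lit 2) (nat_lit 23) (nat_lit 1) (nat_lit 3) (nat_lit 0) true (nat_lit 11) true (nat_lit 15) false (nat_lit 1) true (nat_lit 14) true (nat_lit 12) (.s true (nat_lit 2) (nat_lit 25) (nat_lit 3) (nat_lit 1) (nat_lit 0) true (nat_lit 8) true (nat_lit 15) false (nat_lit 1) true (nat_lit 12) true (nat_lit 14) (.s false (nat_lit 2) (nat_lit 30) (nat_lit 0) (nat_lit 1) (nat_lit 1) true (nat_lit 11) true (nat_lit 14) false (nat_lit 4) true (nat_lit 15) true (nat_lit 14) (.s false (nat_lit 3) (nat_lit 31) (nat_lit 0) (nat_lit 1) (nat_lit 1) true (nat_lit 11) true (nat_lit 14) false (nat_lit 4) true (nat_lit 15) true (nat_lit 14) (.e false (nat_lit 36) (nat_lit 104) (nat_lit 2) (nat_lit 13) (.e false (nat_lit 54)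 (nat_lit 107) (nat_lit 2) (nat_lit 13) (.e true (nat_lit 36) (nat_lit 109) (nat_lit 2) (nat_lit 13) (.e true (nat_lit 54) (nat_lit 110) (nat_lit 2) (nat_lit 13) (.e false (nat_lit 54) (nat_lit 112) (nat_lit 2) (nat_lit 13) (.e true (nat_lit 54) (nat_lit 89) (nat_lit 3) (nat_lit 12) (.e false (nat_lit 36) (nat_lit 90) (nat_lit 3) (nat_lit 12) (.e true (nat_lit 18) (nat_lit 85) (nat_lit 3) (nat_lit 12) (.e false (nat_lit 36) (nat_lit 87) (nat_lit 3) (nat_lit 12) (.e true (nat_lit 36) (nat_lit 88) (nat_lit 3) (nat_lit 12) (.e false (nat_lit 54) (nat_lit 92) (nat_lit 3) (nat_lit 12) (.e true (nat_lit 144) (nat_lit 94) (nat_lit 3) (nat_lit 12) (.e true (nat_lit 108) (nat_lit 96) (nat_lit 3) (nat_lit 12) (.e false (nat_lit 108) (nat_lit 98) (nat_lit 3) (nat_lit 12) (.e false (nat_lit 108) (nat_lit 100) (nat_lit 3) (nat_lit 12) (.e false (nat_lit 54) (nat_lit 103) (nat_lit 3) (nat_lit 12) (.e false (nat_lit 54) (nat_lit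 41) (nat_lit 8) (nat_lit 7) (.e true (nat_lit 36) (nat_lit 95) (nat_lit 3) (nat_lit 12) (.e true (nat_lit 36) (nat_lit 97) (nat_lit 3) (nat_lit 12) (.e true (nat_lit 48) (nat_lit 119) (nat_lit 1) (nat_lit 14) dr2_i13)))))))))))))))))))))))))

noncomputable def dr2_i15 : IL := (.e true (nat_lit 18) (nat_lit 128) (nat_lit 1) (nat_lit 14) (.e false (nat_lit 18) (nat_lit 130) (nat_lit 1) (nat_lit 14) (.e true (nat_lit 18) (nat_lit 131) (nat_lit 1) (nat_lit 14) (.e false (nat_lit 18) (nat_lit 133) (nat_lit 1) (nat_lit 14) (.e true (nat_lit 18) (nat_lit 135) (nat_lit 1) (nat_lit 14) (.e false (nat_lit 18) (nat_lit 136) (nat_lit 1) (nat_lit 14) (.e false (nat_lit 18) (nat_lit 139) (nat_lit 1) (nat_lit 14) (.e false (nat_lit 18) (nat_lit 108) (nat_lit 2) (nat_lit 13) (.e true (nat_lit 18) (nat_lit 109) (nat_lit 2) (nat_lit 13) (.e true (nat_lit 18) (nat_lit 110) (nat_lit 2) (nat_lit 13) (.e false (nat_lit 18) (nat_lit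 112) (nat_lit 2) (nat_lit 13) (.e false (nat_lit 36) (nat_lit 107) (nat_lit 2) (nat_lit 13) (.e true (nat_lit 18) (nat_lit 111) (nat_lit 2) (nat_lit 13) (.e false (nat_lit 18) (nat_lit 114) (nat_lit 2) (nat_lit 13) (.e false (nat_lit 18) (nat_lit 41) (nat_lit 8) (nat_lit 7) (.e false (nat_lit 18) (nat_lit 85) (nat_lit 3) (nat_lit 12) (.e true (nat_lit 18) (nat_lit 87) (nat_lit 3) (nat_lit 12) (.e false (nat_lit 18) (nat_lit 88) (nat_lit 3) (nat_lit 12) (.e true (nat_lit 18) (nat_lit 89) (nat_lit 3) (nat_lit 12) (.e false (nat_lit 18) (nat_lit 92) (nat_lit 3) (nat_lit 12) (.e true (nat_lit 18) (nat_lit 94) (nat_lit 3) (nat_lit 12) (.e true (nat_lit 18) (nat_lit 96) (nat_lit 3) (nat_lit 12) (.e false (nat_lit 18) (nat_lit 98) (nat_lit 3) (nat_lit 12) (.e false (nat_lit 18) (nat_lit 100) (nat_lit 3) (nat_lit 12) (.e false (nat_lit 18) (nat_lit 103) (nat_lit 3) (nat_lit 12) .nil)))))))))))))))))))))))))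

noncomputable def dr2_i16 : IL := (.e true (nat_lit 72) (nat_lit 96) (nat_lit 3) (nat_lit 12) (.e false (nat_lit 90) (nat_lit 98) (nat_lit 3) (nat_lit 12) (.e false (nat_lit 72) (nat_lit 100) (nat_lit 3) (nat_lit 12) (.e false (nat_lit 54) (nat_lit 103) (nat_lit 3) (nat_lit 12) (.e true (nat_lit 36) (nat_lit 119) (nat_lit 1) (nat_lit 14) (.e false (nat_lit 18) (nat_lit 139) (nat_lit 1) (nat_lit 14) (.e true (nat_lit 36) (nat_lit 117) (nat_lit 1) (nat_lit 14) (.e true (nat_lit 18) (nat_lit 118) (nat_lit 1) (nat_lit 14) (.e true (nat_lit 18) (nat_lit 120) (nat_lit 1) (nat_lit 14) (.e false (nat_lit 18) (nat_lit 121) (nat_lit 1) (nat_lit 14) (.e false (nat_lit 18) (nat_lit 123) (nat_lit 1) (nat_lit 14) (.e false (nat_lit 36) (nat_lit 124) (nat_lit 1) (nat_lit 14) (.e true (nat_lit 18) (nat_lit 116) (nat_lit 1) (nat_lit 14) (.e false (nat_lit 36) (nat_lit 122) (nat_lit 1) (nat_lit 14) (.e true (nat_lit 54) (nat_lit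 95) (nat_lit 3) (nat_lit 12) (.e false (nat_lit 18) (nat_lit 127) (nat_lit 1) (nat_lit 14) (.e false (nat_lit 18) (nat_lit 115) (nat_lit 1) (nat_lit 14) (.e true (nat_lit 36) (nat_lit 97) (nat_lit 3) (nat_lit 12) (.e false (nat_lit 36) (nat_lit 102) (nat_lit 3) (nat_lit 12) (.e false (nat_lit 18) (nat_lit 136) (nat_lit 1) (nat_lit 14) (.e true (nat_lit 18) (nat_lit 43) (nat_lit 8) (nat_lit 7) (.e false (nat_lit 18) (nat_lit 86) (nat_lit 3) (nat_lit 12) (.e false (nat_lit 18) (nat_lit 146) (nat_lit 0) (nat_lit 15) (.e true (nat_lit 18) (nat_lit 141) (nat_lit 0) (nat_lit 15) (.e true (nat_lit 18) (nat_lit 147) (nat_lit 0) (nat_lit 15) .nil)))))))))))))))))))))))))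

noncomputable def dr2_i17 : IL := (.s true (nat_lit 2) (nat_lit 8) (nat_lit 3) (nat_lit 2) (nat_lit 4) true (nat_lit 1) true (nat_lit 11) true (nat_lit 7) true (nat_lit 12) true (nat_lit 13) (.s false (nat_lit 1) (nat_lit 9) (nat_lit 1) (nat_lit 7) (nat_lit 1) false (nat_lit 16) true (nat_lit 14) true (nat_lit 6) true (nat_lit 14) true (nat_lit 8) (.s false (nat_lit 1) (nat_lit 9) (nat_lit 4) (nat_lit 3) (nat_lit 1) true (nat_lit 4) true (nat_lit 14) true (nat_lit 6) true (nat_lit 11) true (nat_lit 12) (.s false (nat_lit 1) (nat_lit 9) (nat_lit 7) (nat_lit 1) (nat_lit 1) true (nat_lit 1) true (nat_lit 14) true (nat_lit 6) true (nat_lit 8) true (nat_lit 14) (.s false (nat_lit 1) (nat_lit 10) (nat_lit 4) (nat_lit 2) (nat_lit 1) true (nat_lit 4) true (nat_lit 14) true (nat_lit 5) true (nat_lit 11) true (nat_lit 13) (.s false (nat_lit 1) (nat_lit 12) (nat_lit 3) (nat_lit 1) (nat_lit 3) true (nat_lit 5) true (nat_lit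 12) true (nat_lit 3) true (nat_lit 12) true (nat_lit 14) (.s false (nat_lit 1) (nat_lit 18) (nat_lit 1) (nat_lit 2) (nat_lit 3) true (nat_lit 7) true (nat_lit 12) true (nat_lit 1) true (nat_lit 14) true (nat_lit 13) (.s true (nat_lit 1) (nat_lit 16) (nat_lit 3) (nat_lit 1) (nat_lit 2) true (nat_lit 6) true (nat_lit 13) true (nat_lit 1) true (nat_lit 12) true (nat_lit 14) (.s true (nat_lit 1) (nat_lit 17) (nat_lit 3) (nat_lit 2) (nat_lit 1) true (nat_lit 7) true (nat_lit 14) true (nat_lit 1) true (nat_lit 12) true (nat_lit 13) (.s false (nat_lit 1) (nat_lit 18) (nat_lit 3) (nat_lit 2) (nat_lit 1) true (nat_lit 7) true (nat_lit 14) true (nat_lit 1) true (nat_lit 12) true (nat_lit 13) (.s true (nat_lit 1) (nat_lit 20) (nat_lit 1) (nat_lit 1) (nat_lit 3) true (nat_lit 7) true (nat_lit 12) false (nat_lit 0) true (nat_lit 14) true (nat_lit 14) (.s true (nat_lit 1) (nat_lit 24) (nat_lit 1) (nat_lit 0) (nat_lit 3)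 true (nat_lit 7) true (nat_lit 12) false (nat_lit 1) true (nat_lit 14) true (nat_lit 15) (.s true (nat_lit 1) (nat_lit 23) (nat_lit 1) (nat_lit 3) (nat_lit 0) true (nat_lit 11) true (nat_lit 15) false (nat_lit 1) true (nat_lit 14) true (nat_lit 12) (.s true (nat_lit 1) (nat_lit 25) (nat_lit 3) (nat_lit 1) (nat_lit 0) true (nat_lit 8) true (nat_lit 15) false (nat_lit 1) true (nat_lit 12) true (nat_lit 14) (.s false (nat_lit 1) (nat_lit 30) (nat_lit 0) (nat_lit 1) (nat_lit 1) true (nat_lit 11) true (nat_lit 14) false (nat_lit 4) true (nat_lit 15) true (nat_lit 14) (.s false (nat_lit 1) (nat_lit 31) (nat_lit 0) (nat_lit 1) (nat_lit 1) true (nat_lit 11) true (nat_lit 14) false (nat_lit 4) true (nat_lit 15) true (nat_lit 14) (.e true (nat_lit 18) (nat_lit 109) (nat_lit 2) (nat_lit 13) (.e true (nat_lit 54) (nat_lit 89) (nat_lit 3) (nat_lit 12) (.e false (nat_lit 36) (nat_lit 90) (nat_lit 3) (nat_lit 12) (.e true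 (nat_lit 18) (nat_lit 91) (nat_lit 3) (nat_lit 12) (.e false (nat_lit 18) (nat_lit 85) (nat_lit 3) (nat_lit 12) (.e false (nat_lit 18) (nat_lit 87) (nat_lit 3) (nat_lit 12) (.e true (nat_lit 18) (nat_lit 88) (nat_lit 3) (nat_lit 12) (.e false (nat_lit 18) (nat_lit 92) (nat_lit 3) (nat_lit 12) (.e true (nat_lit 90) (nat_lit 94) (nat_lit 3) (nat_lit 12) dr2_i16)))))))))))))))))))))))))

noncomputable def dr2_i18 : IL := (.e false (nat_lit 18) (nat_lit 92) (nat_lit 3) (nat_lit 12) (.e true (nat_lit 18) (nat_lit 100) (nat_lit 3) (nat_lit 12) (.e true (nat_lit 18) (nat_lit 46) (nat_lit 8) (nat_lit 7) (.e true (nat_lit 12) (nat_lit 115) (nat_lit 1) (nat_lit 14) (.e false (nat_lit 30) (nat_lit 117) (nat_lit 1) (nat_lit 14) (.e false (nat_lit 6) (nat_lit 118) (nat_lit 1) (nat_lit 14) (.e false (nat_lit 42) (nat_lit 119) (nat_lit 1) (nat_lit 14) (.e true (nat_lit 36) (nat_lit 121) (nat_lit 1) (nat_lit 14) (.e true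 (nat_lit 36) (nat_lit 123) (nat_lit 1) (nat_lit 14) (.e false (nat_lit 18) (nat_lit 125) (nat_lit 1) (nat_lit 14) (.e true (nat_lit 18) (nat_lit 129) (nat_lit 1) (nat_lit 14) (.e false (nat_lit 30) (nat_lit 133) (nat_lit 1) (nat_lit 14) (.e true (nat_lit 24) (nat_lit 139) (nat_lit 1) (nat_lit 14) (.e false (nat_lit 18) (nat_lit 109) (nat_lit 2) (nat_lit 13) (.e false (nat_lit 18) (nat_lit 107) (nat_lit 2) (nat_lit 13) (.e true (nat_lit 18) (nat_lit 85) (nat_lit 3) (nat_lit 12) (.e false (nat_lit 18) (nat_lit 141) (nat_lit 0) (nat_lit 15) (.e true (nat_lit 18) (nat_lit 128) (nat_lit 1) (nat_lit 14) (.e true (nat_lit 24) (nat_lit 131) (nat_lit 1) (nat_lit 14) (.e false (nat_lit 24) (nat_lit 134) (nat_lit 1) (nat_lit 14) (.e true (nat_lit 48) (nat_lit 135) (nat_lit 1) (nat_lit 14) (.e true (nat_lit 12) (nat_lit 126) (nat_lit 1) (nat_lit 14) (.e true (nat_lit 6) (nat_lit 127) (nat_lit 1) (nat_lit 14) (.e true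 (nat_lit 12) (nat_lit 136) (nat_lit 1) (nat_lit 14) (.e false (nat_lit 12) (nat_lit 138) (nat_lit 1) (nat_lit 14) .nil)))))))))))))))))))))))))

noncomputable def dr2_i19 : IL := (.s true (nat_lit 1) (nat_lit 31) (nat_lit 0) (nat_lit 1) (nat_lit 1) true (nat_lit 11) true (nat_lit 14) false (nat_lit 4) true (nat_lit 15) true (nat_lit 14) (.e true (nat_lit 18) (nat_lit 107) (nat_lit 2) (nat_lit 13) (.e false (nat_lit 18) (nat_lit 110) (nat_lit 2) (nat_lit 13) (.e true (nat_lit 18) (nat_lit 112) (nat_lit 2) (nat_lit 13) (.e true (nat_lit 18) (nat_lit 92) (nat_lit 3) (nat_lit 12) (.e true (nat_lit 18) (nat_lit 41) (nat_lit 8) (nat_lit 7) (.e false (nat_lit 18) (nat_lit 70) (nat_lit 4) (nat_lit 11) (.e false (nat_lit 18) (nat_lit 75) (nat_lit 4) (nat_lit 11) (.e true (nat_lit 12) (nat_lit 126) (nat_lit 1) (nat_lit 14) (.e false (nat_lit 12) (nat_lit 127) (nat_lit 1) (nat_lit 14) (.e false (nat_lit 6) (nat_lit 115)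 (nat_lit 1) (nat_lit 14) (.e false (nat_lit 12) (nat_lit 131) (nat_lit 1) (nat_lit 14) (.e false (nat_lit 24) (nat_lit 116) (nat_lit 1) (nat_lit 14) (.e false (nat_lit 12) (nat_lit 117) (nat_lit 1) (nat_lit 14) (.e false (nat_lit 24) (nat_lit 118) (nat_lit 1) (nat_lit 14) (.e true (nat_lit 12) (nat_lit 119) (nat_lit 1) (nat_lit 14) (.e false (nat_lit 24) (nat_lit 120) (nat_lit 1) (nat_lit 14) (.e true (nat_lit 12) (nat_lit 122) (nat_lit 1) (nat_lit 14) (.e true (nat_lit 12) (nat_lit 124) (nat_lit 1) (nat_lit 14) (.e true (nat_lit 24) (nat_lit 133) (nat_lit 1) (nat_lit 14) (.e false (nat_lit 6) (nat_lit 134) (nat_lit 1) (nat_lit 14) (.e false (nat_lit 24) (nat_lit 135) (nat_lit 1) (nat_lit 14) (.e true (nat_lit 12) (nat_lit 136) (nat_lit 1) (nat_lit 14) (.e true (nat_lit 6) (nat_lit 138) (nat_lit 1) (nat_lit 14) (.e true (nat_lit 24) (nat_lit 139) (nat_lit 1) (nat_lit 14) .nil)))))))))))))))))))))))))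

noncomputable def dr2_i20 : IL := (.e true (nat_lit 18) (nat_lit 117) (nat_lit 1) (nat_lit 14) (.e true (nat_lit 18) (nat_lit 118) (nat_lit 1) (nat_lit 14) (.e true (nat_lit 18) (nat_lit 119) (nat_lit 1) (nat_lit 14) (.e true (nat_lit 18) (nat_lit 120) (nat_lit 1) (nat_lit 14) (.e false (nat_lit 18) (nat_lit 121) (nat_lit 1) (nat_lit 14) (.e false (nat_lit 18) (nat_lit 122) (nat_lit 1) (nat_lit 14) (.e false (nat_lit 18) (nat_lit 123) (nat_lit 1) (nat_lit 14) (.e false (nat_lit 36) (nat_lit 124) (nat_lit 1) (nat_lit 14) (.e true (nat_lit 18) (nat_lit 125) (nat_lit 1) (nat_lit 14) (.e false (nat_lit 18) (nat_lit 128) (nat_lit 1) (nat_lit 14) (.e false (nat_lit 18) (nat_lit 129) (nat_lit 1) (nat_lit 14) (.e true (nat_lit 18) (nat_lit 130) (nat_lit 1) (nat_lit 14) (.e false (nat_lit 18) (nat_lit 131) (nat_lit 1) (nat_lit 14) (.e true (nat_lit 18) (nat_lit 133) (nat_lit 1) (nat_lit 14) (.e true (nat_lit 18) (nat_lit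 134) (nat_lit 1) (nat_lit 14) (.e false (nat_lit 18) (nat_lit 135) (nat_lit 1) (nat_lit 14) (.e false (nat_lit 18) (nat_lit 139) (nat_lit 1) (nat_lit 14) (.e false (nat_lit 18) (nat_lit 100) (nat_lit 3) (nat_lit 12) (.e false (nat_lit 18) (nat_lit 53) (nat_lit 7) (nat_lit 8) (.e true (nat_lit 18) (nat_lit 86) (nat_lit 3) (nat_lit 12) (.e false (nat_lit 18) (nat_lit 89) (nat_lit 3) (nat_lit 12) (.e true (nat_lit 18) (nat_lit 90) (nat_lit 3) (nat_lit 12) (.e false (nat_lit 18) (nat_lit 91) (nat_lit 3) (nat_lit 12) (.e false (nat_lit 18) (nat_lit 95) (nat_lit 3) (nat_lit 12) (.e true (nat_lit 18) (nat_lit 103) (nat_lit 3) (nat_lit 12) .nil)))))))))))))))))))))))))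

noncomputable def dr2_i21 : IL := (.e false (nat_lit 36) (nat_lit 121) (nat_lit 1) (nat_lit 14) (.e false (nat_lit 18) (nat_lit 123) (nat_lit 1) (nat_lit 14) (.e false (nat_lit 36) (nat_lit 128) (nat_lit 1) (nat_lit 14) (.e false (nat_lit 54) (nat_lit 131) (nat_lit 1) (nat_lit 14) (.e true (nat_lit 54) (nat_lit 134) (nat_lit 1) (nat_lit 14) (.e false (nat_lit 54) (nat_lit 135) (nat_lit 1) (nat_lit 14) (.e true (nat_lit 18) (nat_lit 95) (nat_lit 3) (nat_lit 12) (.e true (nat_lit 18) (nat_lit 109) (nat_lit 2) (nat_lit 13) (.e true (nat_lit 18) (nat_lit 111) (nat_lit 2) (nat_lit 13) (.e false (nat_lit 18) (nat_lit 114) (nat_lit 2) (nat_lit 13) (.e false (nat_lit 36) (nat_lit 85) (nat_lit 3) (nat_lit 12) (.e false (nat_lit 18) (nat_lit 94) (nat_lit 3) (nat_lit 12) (.e false (nat_lit 18) (nat_lit 96) (nat_lit 3) (nat_lit 12) (.e true (nat_lit 18) (nat_lit 98) (nat_lit 3) (nat_lit 12) (.e true (nat_lit 18) (nat_lit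 100) (nat_lit 3) (nat_lit 12) (.e false (nat_lit 18) (nat_lit 88) (nat_lit 3) (nat_lit 12) (.e true (nat_lit 18) (nat_lit 92) (nat_lit 3) (nat_lit 12) (.e false (nat_lit 18) (nat_lit 46) (nat_lit 8) (nat_lit 7) (.e true (nat_lit 18) (nat_lit 127) (nat_lit 1) (nat_lit 14) (.e true (nat_lit 18) (nat_lit 87) (nat_lit 3) (nat_lit 12) (.e true (nat_lit 18) (nat_lit 53) (nat_lit 7) (nat_lit 8) (.e false (nat_lit 18) (nat_lit 147) (nat_lit 0) (nat_lit 15) (.e false (nat_lit 18) (nat_lit 136) (nat_lit 1) (nat_lit 14) (.e true (nat_lit 18) (nat_lit 115) (nat_lit 1) (nat_lit 14) (.e true (nat_lit 18) (nat_lit 122) (nat_lit 1) (nat_lit 14) .nil)))))))))))))))))))))))))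

noncomputable def dr2_i22 : IL := (.s true (nat_lit 1) (nat_lit 9) (nat_lit 1) (nat_lit 7) (nat_lit 1) false (nat_lit 16) true (nat_lit 14) true (nat_lit 6) true (nat_lit 14) true (nat_lit 8) (.s true (nat_lit 1) (nat_lit 9) (nat_lit 7) (nat_lit 1) (nat_lit 1) true (nat_lit 1) true (nat_lit 14) true (nat_lit 6) true (nat_lit 8) true (nat_lit 14) (.s false (nat_lit 1) (nat_lit 17) (nat_lit 1) (nat_lit 2) (nat_lit 3) true (nat_lit 7) true (nat_lit 12) true (nat_lit 1) true (nat_lit 14) true (nat_lit 13) (.s true (nat_lit 1) (nat_lit 16) (nat_lit 2) (nat_lit 1) (nat_lit 3) true (nat_lit 6) true (nat_lit 12) true (nat_lit 1) true (nat_lit 13) true (nat_lit 14) (.s true (nat_lit 1) (nat_lit 16) (nat_lit 3) (nat_lit 1) (nat_lit 2) true (nat_lit 6) true (nat_lit 13) true (nat_lit 1) true (nat_lit 12) true (nat_lit 14) (.s false (nat_lit 1) (nat_lit 17) (nat_lit 3) (nat_lit 2) (nat_lit 1) true (nat_lit 7) true (nat_lit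 14) true (nat_lit 1) true (nat_lit 12) true (nat_lit 13) (.s true (nat_lit 1) (nat_lit 18) (nat_lit 3) (nat_lit 2) (nat_lit 1) true (nat_lit 7) true (nat_lit 14) true (nat_lit 1) true (nat_lit 12) true (nat_lit 13) (.s true (nat_lit 1) (nat_lit 23) (nat_lit 0) (nat_lit 1) (nat_lit 3) true (nat_lit 8) true (nat_lit 12) false (nat_lit 1) true (nat_lit 15) true (nat_lit 14) (.s true (nat_lit 1) (nat_lit 23) (nat_lit 0) (nat_lit 3) (nat_lit 1) true (nat_lit 11) true (nat_lit 14) false (nat_lit 1) true (nat_lit 15) true (nat_lit 12) (.s false (nat_lit 1) (nat_lit 25) (nat_lit 3) (nat_lit 1) (nat_lit 0) true (nat_lit 8) true (nat_lit 15) false (nat_lit 1) true (nat_lit 12) true (nat_lit 14) (.e false (nat_lit 18) (nat_lit 90) (nat_lit 3) (nat_lit 12) (.e true (nat_lit 18) (nat_lit 41) (nat_lit 8) (nat_lit 7) (.e true (nat_lit 36) (nat_lit 70) (nat_lit 4) (nat_lit 11) (.e false (nat_lit 18) (nat_lit 74) (nat_lit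 4) (nat_lit 11) (.e true (nat_lit 18) (nat_lit 75) (nat_lit 4) (nat_lit 11) (.e true (nat_lit 54) (nat_lit 104) (nat_lit 2) (nat_lit 13) (.e false (nat_lit 36) (nat_lit 110) (nat_lit 2) (nat_lit 13) (.e true (nat_lit 36) (nat_lit 112) (nat_lit 2) (nat_lit 13) (.e true (nat_lit 18) (nat_lit 119) (nat_lit 1) (nat_lit 14) (.e false (nat_lit 18) (nat_lit 125) (nat_lit 1) (nat_lit 14) (.e false (nat_lit 54) (nat_lit 126) (nat_lit 1) (nat_lit 14) (.e false (nat_lit 18) (nat_lit 132) (nat_lit 1) (nat_lit 14) (.e false (nat_lit 36) (nat_lit 139) (nat_lit 1) (nat_lit 14) (.e true (nat_lit 18) (nat_lit 117) (nat_lit 1) (nat_lit 14) (.e true (nat_lit 36) (nat_lit 120) (nat_lit 1) (nat_lit 14) dr2_i21)))))))))))))))))))))))))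

noncomputable def dr2_i23 : IL := (.e false (nat_lit 18) (nat_lit 117) (nat_lit 1) (nat_lit 14) (.e false (nat_lit 18) (nat_lit 118) (nat_lit 1) (nat_lit 14) (.e false (nat_lit 18) (nat_lit 120) (nat_lit 1) (nat_lit 14) (.e true (nat_lit 18) (nat_lit 121) (nat_lit 1) (nat_lit 14) (.e true (nat_lit 18) (nat_lit 123) (nat_lit 1) (nat_lit 14) (.e false (nat_lit 18) (nat_lit 124) (nat_lit 1) (nat_lit 14) (.e true (nat_lit 18) (nat_lit 128) (nat_lit 1) (nat_lit 14) (.e false (nat_lit 36) (nat_lit 108) (nat_lit 2) (nat_lit 13) (.e false (nat_lit 18) (nat_lit 107) (nat_lit 2) (nat_lit 13) (.e false (nat_lit 18) (nat_lit 110) (nat_lit 2) (nat_lit 13) (.e true (nat_lit 18) (nat_lit 111) (nat_lit 2) (nat_lit 13) (.e false (nat_lit 18) (nat_lit 112) (nat_lit 2) (nat_lit 13) (.e true (nat_lit 18) (nat_lit 85) (nat_lit 3) (nat_lit 12) (.e true (nat_lit 18) (nat_lit 88) (nat_lit 3) (nat_lit 12) (.e false (nat_lit 18) (nat_lit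 89) (nat_lit 3) (nat_lit 12) (.e false (nat_lit 18) (nat_lit 91) (nat_lit 3) (nat_lit 12) (.e false (nat_lit 18) (nat_lit 92) (nat_lit 3) (nat_lit 12) (.e false (nat_lit 18) (nat_lit 93) (nat_lit 3) (nat_lit 12) (.e false (nat_lit 18) (nat_lit 97) (nat_lit 3) (nat_lit 12) (.e false (nat_lit 18) (nat_lit 99) (nat_lit 3) (nat_lit 12) (.e true (nat_lit 18) (nat_lit 102) (nat_lit 3) (nat_lit 12) (.e false (nat_lit 36) (nat_lit 70) (nat_lit 4) (nat_lit 11) (.e false (nat_lit 36) (nat_lit 141) (nat_lit 0) (nat_lit 15) (.e true (nat_lit 36) (nat_lit 146) (nat_lit 0) (nat_lit 15) (.e false (nat_lit 36) (nat_lit 147) (nat_lit 0) (nat_lit 15) .nil)))))))))))))))))))))))))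

noncomputable def dr2_i24 : IL := (.s true (nat_lit 1) (nat_lit 14) (nat_lit 1) (nat_lit 3) (nat_lit 3) true (nat_lit 7) true (nat_lit 12) true (nat_lit 3) true (nat_lit 14) true (nat_lit 12) (.s true (nat_lit 1) (nat_lit 14) (nat_lit 3) (nat_lit 1) (nat_lit 3) true (nat_lit 5) true (nat_lit 12) true (nat_lit 3) true (nat_lit 12) true (nat_lit 14) (.s true (nat_lit 1) (nat_lit 14) (nat_lit 3) (nat_lit 3) (nat_lit 1) true (nat_lit 7) true (nat_lit 14) true (nat_lit 3) true (nat_lit 12) true (nat_lit 12) (.s false (nat_lit 2) (nat_lit 16) (nat_lit 3) (nat_lit 1) (nat_lit 2) true (nat_lit 6) true (nat_lit 13) true (nat_lit 1) true (nat_lit 12) true (nat_lit 14) (.s false (nat_lit 1) (nat_lit 27) (nat_lit 1) (nat_lit 1) (nat_lit 2) true (nat_lit 9) true (nat_lit 13) false (nat_lit 2) true (nat_lit 14) true (nat_lit 14) (.s false (nat_lit 1) (nat_lit 29) (nat_lit 0) (nat_lit 2) (nat_lit 1) true (nat_lit 11) true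 (nat_lit 14) false (nat_lit 3) true (nat_lit 15) true (nat_lit 13) (.s true (nat_lit 1) (nat_lit 29) (nat_lit 2) (nat_lit 1) (nat_lit 0) true (nat_lit 10) true (nat_lit 15) false (nat_lit 3) true (nat_lit 13) true (nat_lit 14) (.e false (nat_lit 36) (nat_lit 41) (nat_lit 8) (nat_lit 7) (.e false (nat_lit 18) (nat_lit 74) (nat_lit 4) (nat_lit 11) (.e true (nat_lit 36) (nat_lit 116) (nat_lit 1) (nat_lit 14) (.e true (nat_lit 72) (nat_lit 120) (nat_lit 1) (nat_lit 14) (.e false (nat_lit 72) (nat_lit 122) (nat_lit 1) (nat_lit 14) (.e false (nat_lit 108) (nat_lit 124) (nat_lit 1) (nat_lit 14) (.e false (nat_lit 36) (nat_lit 92) (nat_lit 3) (nat_lit 12) (.e true (nat_lit 36) (nat_lit 94) (nat_lit 3) (nat_lit 12) (.e true (nat_lit 36) (nat_lit 117) (nat_lit 1) (nat_lit 14) (.e true (nat_lit 72) (nat_lit 118) (nat_lit 1) (nat_lit 14) (.e true (nat_lit 36) (nat_lit 119) (nat_lit 1) (nat_lit 14) (.e false (nat_lit 36)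 (nat_lit 121) (nat_lit 1) (nat_lit 14) (.e false (nat_lit 36) (nat_lit 123) (nat_lit 1) (nat_lit 14) (.e false (nat_lit 18) (nat_lit 138) (nat_lit 1) (nat_lit 14) (.e true (nat_lit 36) (nat_lit 125) (nat_lit 1) (nat_lit 14) (.e false (nat_lit 36) (nat_lit 128) (nat_lit 1) (nat_lit 14) (.e true (nat_lit 36) (nat_lit 130) (nat_lit 1) (nat_lit 14) (.e true (nat_lit 36) (nat_lit 43) (nat_lit 8) (nat_lit 7) .nil)))))))))))))))))))))))))

noncomputable def dr2_i25 : IL := (.e false (nat_lit 18) (nat_lit 74) (nat_lit 4) (nat_lit 11) (.e false (nat_lit 12) (nat_lit 115) (nat_lit 1) (nat_lit 14) (.e false (nat_lit 12) (nat_lit 116) (nat_lit 1) (nat_lit 14) (.e false (nat_lit 12) (nat_lit 118) (nat_lit 1) (nat_lit 14) (.e true (nat_lit 24) (nat_lit 119) (nat_lit 1) (nat_lit 14) (.e false (nat_lit 12) (nat_lit 120) (nat_lit 1) (nat_lit 14) (.e false (nat_lit 12) (nat_lit 122) (nat_lit 1) (nat_lit 14) (.e false (nat_lit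 12) (nat_lit 124) (nat_lit 1) (nat_lit 14) (.e false (nat_lit 18) (nat_lit 125) (nat_lit 1) (nat_lit 14) (.e true (nat_lit 6) (nat_lit 126) (nat_lit 1) (nat_lit 14) (.e false (nat_lit 6) (nat_lit 127) (nat_lit 1) (nat_lit 14) (.e true (nat_lit 18) (nat_lit 129) (nat_lit 1) (nat_lit 14) (.e true (nat_lit 30) (nat_lit 131) (nat_lit 1) (nat_lit 14) (.e false (nat_lit 6) (nat_lit 133) (nat_lit 1) (nat_lit 14) (.e false (nat_lit 12) (nat_lit 134) (nat_lit 1) (nat_lit 14) (.e true (nat_lit 6) (nat_lit 135) (nat_lit 1) (nat_lit 14) (.e true (nat_lit 6) (nat_lit 136) (nat_lit 1) (nat_lit 14) (.e false (nat_lit 6) (nat_lit 138) (nat_lit 1) (nat_lit 14) (.e true (nat_lit 30) (nat_lit 139) (nat_lit 1) (nat_lit 14) (.e true (nat_lit 36) (nat_lit 107) (nat_lit 2) (nat_lit 13) (.e true (nat_lit 18) (nat_lit 108) (nat_lit 2) (nat_lit 13) (.e false (nat_lit 18) (nat_lit 109) (nat_lit 2) (nat_lit 13) (.e false (nat_lit 18)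 (nat_lit 110) (nat_lit 2) (nat_lit 13) (.e false (nat_lit 18) (nat_lit 111) (nat_lit 2) (nat_lit 13) (.e true (nat_lit 18) (nat_lit 112) (nat_lit 2) (nat_lit 13) .nil)))))))))))))))))))))))))

noncomputable def dr2_i26 : IL := (.e true (nat_lit 18) (nat_lit 87) (nat_lit 3) (nat_lit 12) (.e false (nat_lit 36) (nat_lit 92) (nat_lit 3) (nat_lit 12) (.e true (nat_lit 18) (nat_lit 96) (nat_lit 3) (nat_lit 12) (.e false (nat_lit 18) (nat_lit 100) (nat_lit 3) (nat_lit 12) (.e false (nat_lit 18) (nat_lit 103) (nat_lit 3) (nat_lit 12) (.e false (nat_lit 18) (nat_lit 116) (nat_lit 1) (nat_lit 14) (.e false (nat_lit 18) (nat_lit 120) (nat_lit 1) (nat_lit 14) (.e true (nat_lit 18) (nat_lit 122) (nat_lit 1) (nat_lit 14) (.e true (nat_lit 18) (nat_lit 124) (nat_lit 1) (nat_lit 14) (.e false (nat_lit 18) (nat_lit 70) (nat_lit 4) (nat_lit 11) (.e true (nat_lit 18) (nat_lit 74) (nat_lit 4) (nat_lit 11) (.e true (nat_lit 18)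 (nat_lit 95) (nat_lit 3) (nat_lit 12) (.e true (nat_lit 36) (nat_lit 126) (nat_lit 1) (nat_lit 14) (.e true (nat_lit 18) (nat_lit 128) (nat_lit 1) (nat_lit 14) (.e false (nat_lit 18) (nat_lit 115) (nat_lit 1) (nat_lit 14) (.e false (nat_lit 18) (nat_lit 118) (nat_lit 1) (nat_lit 14) (.e false (nat_lit 18) (nat_lit 93) (nat_lit 3) (nat_lit 12) (.e false (nat_lit 18) (nat_lit 97) (nat_lit 3) (nat_lit 12) (.e false (nat_lit 36) (nat_lit 99) (nat_lit 3) (nat_lit 12) (.e true (nat_lit 18) (nat_lit 101) (nat_lit 3) (nat_lit 12) (.e false (nat_lit 18) (nat_lit 119) (nat_lit 1) (nat_lit 14) (.e true (nat_lit 18) (nat_lit 125) (nat_lit 1) (nat_lit 14) (.e false (nat_lit 18) (nat_lit 129) (nat_lit 1) (nat_lit 14) (.e true (nat_lit 18) (nat_lit 132) (nat_lit 1) (nat_lit 14) (.e false (nat_lit 18) (nat_lit 139) (nat_lit 1) (nat_lit 14) .nil)))))))))))))))))))))))))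

noncomputable def dr2_i27 : IL := (.e true (nat_lit 36) (nat_lit 96) (nat_lit 3) (nat_lit 12) (.e false (nat_lit 36) (nat_lit 99) (nat_lit 3) (nat_lit 12) (.e false (nat_lit 18) (nat_lit 100) (nat_lit 3) (nat_lit 12) (.e true (nat_lit 18) (nat_lit 101) (nat_lit 3) (nat_lit 12) (.e false (nat_lit 18) (nat_lit 102) (nat_lit 3) (nat_lit 12) (.e true (nat_lit 6) (nat_lit 115) (nat_lit 1) (nat_lit 14) (.e true (nat_lit 6) (nat_lit 116) (nat_lit 1) (nat_lit 14) (.e false (nat_lit 6) (nat_lit 117) (nat_lit 1) (nat_lit 14) (.e false (nat_lit 12) (nat_lit 118) (nat_lit 1) (nat_lit 14) (.e true (nat_lit 6) (nat_lit 119) (nat_lit 1) (nat_lit 14) (.e false (nat_lit 12) (nat_lit 120) (nat_lit 1) (nat_lit 14) (.e false (nat_lit 12) (nat_lit 122) (nat_lit 1) (nat_lit 14) (.e true (nat_lit 18) (nat_lit 123) (nat_lit 1) (nat_lit 14) (.e true (nat_lit 6) (nat_lit 124) (nat_lit 1) (nat_lit 14) (.e false (nat_lit 18) (nat_lit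 125) (nat_lit 1) (nat_lit 14) (.e true (nat_lit 6) (nat_lit 126) (nat_lit 1) (nat_lit 14) (.e false (nat_lit 6) (nat_lit 127) (nat_lit 1) (nat_lit 14) (.e true (nat_lit 18) (nat_lit 129) (nat_lit 1) (nat_lit 14) (.e false (nat_lit 6) (nat_lit 131) (nat_lit 1) (nat_lit 14) (.e false (nat_lit 6) (nat_lit 133) (nat_lit 1) (nat_lit 14) (.e false (nat_lit 12) (nat_lit 134) (nat_lit 1) (nat_lit 14) (.e true (nat_lit 6) (nat_lit 135) (nat_lit 1) (nat_lit 14) (.e true (nat_lit 6) (nat_lit 136) (nat_lit 1) (nat_lit 14) (.e false (nat_lit 6) (nat_lit 138) (nat_lit 1) (nat_lit 14) (.e true (nat_lit 30) (nat_lit 139) (nat_lit 1) (nat_lit 14) .nil)))))))))))))))))))))))))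

noncomputable def dr2_i28 : IL := (.e false (nat_lit 18) (nat_lit 70) (nat_lit 4) (nat_lit 11) (.e false (nat_lit 18) (nat_lit 71) (nat_lit 4) (nat_lit 11) (.e true (nat_lit 18) (nat_lit 74) (nat_lit 4) (nat_lit 11) (.e false (nat_lit 18) (nat_lit 75) (nat_lit 4) (nat_lit 11) (.e false (nat_lit 54) (nat_lit 104) (nat_lit 2) (nat_lit 13) (.e true (nat_lit 36) (nat_lit 110) (nat_lit 2) (nat_lit 13) (.e false (nat_lit 36) (nat_lit 112) (nat_lit 2) (nat_lit 13) (.e false (nat_lit 36) (nat_lit 95) (nat_lit 3) (nat_lit 12) (.e false (nat_lit 18) (nat_lit 106) (nat_lit 2) (nat_lit 13) (.e true (nat_lit 18) (nat_lit 108) (nat_lit 2) (nat_lit 13) (.e false (nat_lit 18) (nat_lit 109) (nat_lit 2) (nat_lit 13) (.e false (nat_lit 18) (nat_lit 111) (nat_lit 2) (nat_lit 13) (.e true (nat_lit 18) (nat_lit 114) (nat_lit 2) (nat_lit 13) (.e true (nat_lit 18) (nat_lit 125) (nat_lit 1) (nat_lit 14) (.e true (nat_lit 18) (nat_lit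 85) (nat_lit 3) (nat_lit 12) (.e false (nat_lit 18) (nat_lit 94) (nat_lit 3) (nat_lit 12) (.e false (nat_lit 18) (nat_lit 96) (nat_lit 3) (nat_lit 12) (.e true (nat_lit 18) (nat_lit 98) (nat_lit 3) (nat_lit 12) (.e true (nat_lit 18) (nat_lit 103) (nat_lit 3) (nat_lit 12) (.e true (nat_lit 18) (nat_lit 118) (nat_lit 1) (nat_lit 14) (.e false (nat_lit 18) (nat_lit 53) (nat_lit 7) (nat_lit 8) (.e true (nat_lit 18) (nat_lit 141) (nat_lit 0) (nat_lit 15) (.e false (nat_lit 18) (nat_lit 146) (nat_lit 0) (nat_lit 15) (.e true (nat_lit 18) (nat_lit 147) (nat_lit 0) (nat_lit 15) (.e true (nat_lit 18) (nat_lit 136) (nat_lit 1) (nat_lit 14) .nil)))))))))))))))))))))))))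

noncomputable def dr2_i29 : IL := (.e false (nat_lit 60) (nat_lit 115) (nat_lit 1) (nat_lit 14) (.e false (nat_lit 24) (nat_lit 116) (nat_lit 1) (nat_lit 14) (.e false (nat_lit 12) (nat_lit 117) (nat_lit 1) (nat_lit 14) (.e false (nat_lit 24) (nat_lit 118) (nat_lit 1) (nat_lit 14) (.e true (nat_lit 48) (nat_lit 119) (nat_lit 1) (nat_lit 14) (.e false (nat_lit 24) (nat_lit 120) (nat_lit 1) (nat_lit 14) (.e false (nat_lit 24) (nat_lit 122) (nat_lit 1) (nat_lit 14) (.e false (nat_lit 24) (nat_lit 124) (nat_lit 1) (nat_lit 14) (.e true (nat_lit 48) (nat_lit 126) (nat_lit 1) (nat_lit 14) (.e false (nat_lit 48) (nat_lit 127) (nat_lit 1) (nat_lit 14) (.e true (nat_lit 24) (nat_lit 131) (nat_lit 1) (nat_lit 14) (.e true (nat_lit 24) (nat_lit 133) (nat_lit 1) (nat_lit 14) (.e false (nat_lit 24) (nat_lit 134) (nat_lit 1) (nat_lit 14) (.e false (nat_lit 60) (nat_lit 135) (nat_lit 1) (nat_lit 14) (.e true (nat_lit 12)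 (nat_lit 136) (nat_lit 1) (nat_lit 14) (.e false (nat_lit 12) (nat_lit 138) (nat_lit 1) (nat_lit 14) (.e true (nat_lit 60) (nat_lit 139) (nat_lit 1) (nat_lit 14) (.e true (nat_lit 36) (nat_lit 125) (nat_lit 1) (nat_lit 14) (.e false (nat_lit 36) (nat_lit 74) (nat_lit 4) (nat_lit 11) (.e false (nat_lit 36) (nat_lit 145) (nat_lit 0) (nat_lit 15) (.e true (nat_lit 36) (nat_lit 149) (nat_lit 0) (nat_lit 15) (.e true (nat_lit 36) (nat_lit 107) (nat_lit 2) (nat_lit 13) (.e false (nat_lit 36) (nat_lit 110) (nat_lit 2) (nat_lit 13) (.e true (nat_lit 36) (nat_lit 112) (nat_lit 2) (nat_lit 13) (.e false (nat_lit 36) (nat_lit 75) (nat_lit 4) (nat_lit 11) .nil)))))))))))))))))))))))))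

noncomputable def dr2_i30 : IL := (.e false (nat_lit 30) (nat_lit 122) (nat_lit 1) (nat_lit 14) (.e false (nat_lit 18) (nat_lit 123) (nat_lit 1) (nat_lit 14) (.e false (nat_lit 12) (nat_lit 124) (nat_lit 1) (nat_lit 14) (.e false (nat_lit 18) (nat_lit 125) (nat_lit 1) (nat_lit 14) (.e true (nat_lit 18) (nat_lit 129) (nat_lit 1) (nat_lit 14) (.e false (nat_lit 6) (nat_lit 133) (nat_lit 1) (nat_lit 14) (.e true (nat_lit 12) (nat_lit 139) (nat_lit 1) (nat_lit 14) (.e true (nat_lit 18) (nat_lit 109) (nat_lit 2) (nat_lit 13) (.e true (nat_lit 18) (nat_lit 99) (nat_lit 3) (nat_lit 12) (.e true (nat_lit 24) (nat_lit 116) (nat_lit 1) (nat_lit 14) (.e false (nat_lit 12) (nat_lit 126) (nat_lit 1) (nat_lit 14) (.e false (nat_lit 6) (nat_lit 127) (nat_lit 1) (nat_lit 14) (.e false (nat_lit 18) (nat_lit 130) (nat_lit 1) (nat_lit 14) (.e true (nat_lit 12) (nat_lit 131) (nat_lit 1) (nat_lit 14) (.e false (nat_lit 12) (nat_lit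 134) (nat_lit 1) (nat_lit 14) (.e true (nat_lit 24) (nat_lit 135) (nat_lit 1) (nat_lit 14) (.e true (nat_lit 6) (nat_lit 136) (nat_lit 1) (nat_lit 14) (.e false (nat_lit 6) (nat_lit 138) (nat_lit 1) (nat_lit 14) (.e true (nat_lit 18) (nat_lit 53) (nat_lit 7) (nat_lit 8) (.e false (nat_lit 18) (nat_lit 145) (nat_lit 0) (nat_lit 15) (.e false (nat_lit 18) (nat_lit 86) (nat_lit 3) (nat_lit 12) (.e true (nat_lit 18) (nat_lit 89) (nat_lit 3) (nat_lit 12) (.e false (nat_lit 18) (nat_lit 90) (nat_lit 3) (nat_lit 12) (.e true (nat_lit 18) (nat_lit 95) (nat_lit 3) (nat_lit 12) (.e false (nat_lit 18) (nat_lit 103) (nat_lit 3) (nat_lit 12) .nil)))))))))))))))))))))))))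

noncomputable def dr2_i31 : IL := (.e true (nat_lit 18) (nat_lit 131) (nat_lit 1) (nat_lit 14) (.e false (nat_lit 18) (nat_lit 134) (nat_lit 1) (nat_lit 14) (.e true (nat_lit 18) (nat_lit 135) (nat_lit 1) (nat_lit 14) (.e false (nat_lit 18) (nat_lit 125) (nat_lit 1) (nat_lit 14) (.e true (nat_lit 18) (nat_lit 129) (nat_lit 1) (nat_lit 14) (.e false (nat_lit 18) (nat_lit 130) (nat_lit 1) (nat_lit 14) (.e true (nat_lit 36) (nat_lit 139) (nat_lit 1) (nat_lit 14) (.e true (nat_lit 18) (nat_lit 110) (nat_lit 2) (nat_lit 13) (.e true (nat_lit 18) (nat_lit 40) (nat_lit 9) (nat_lit 6) (.e false (nat_lit 18) (nat_lit 106) (nat_lit 2) (nat_lit 13) (.e true (nat_lit 18) (nat_lit 120) (nat_lit 1) (nat_lit 14) (.e false (nat_lit 18) (nat_lit 46) (nat_lit 8) (nat_lit 7) (.e false (nat_lit 18) (nat_lit 92) (nat_lit 3) (nat_lit 12) (.e false (nat_lit 18) (nat_lit 93) (nat_lit 3) (nat_lit 12) (.e false (nat_lit 18) (nat_lit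 99) (nat_lit 3) (nat_lit 12) (.e true (nat_lit 18) (nat_lit 101) (nat_lit 3) (nat_lit 12) (.e true (nat_lit 36) (nat_lit 53) (nat_lit 7) (nat_lit 8) (.e false (nat_lit 36) (nat_lit 141) (nat_lit 0) (nat_lit 15) (.e true (nat_lit 36) (nat_lit 146) (nat_lit 0) (nat_lit 15) (.e false (nat_lit 36) (nat_lit 147) (nat_lit 0) (nat_lit 15) (.e false (nat_lit 18) (nat_lit 136) (nat_lit 1) (nat_lit 14) (.e true (nat_lit 18) (nat_lit 102) (nat_lit 3) (nat_lit 12) (.e false (nat_lit 18) (nat_lit 145) (nat_lit 0) (nat_lit 15) (.e false (nat_lit 18) (nat_lit 86) (nat_lit 3) (nat_lit 12) (.e false (nat_lit 18) (nat_lit 133) (nat_lit 1) (nat_lit 14) .nil)))))))))))))))))))))))))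

noncomputable def dr2_i32 : IL := (.e true (nat_lit 18) (nat_lit 94) (nat_lit 3) (nat_lit 12) (.e false (nat_lit 18) (nat_lit 99) (nat_lit 3) (nat_lit 12) (.e false (nat_lit 18) (nat_lit 120) (nat_lit 1) (nat_lit 14) (.e false (nat_lit 18) (nat_lit 71) (nat_lit 4) (nat_lit 11) (.e false (nat_lit 54) (nat_lit 141) (nat_lit 0) (nat_lit 15) (.e false (nat_lit 18) (nat_lit 142) (nat_lit 0) (nat_lit 15) (.e false (nat_lit 18) (nat_lit 144) (nat_lit 0) (nat_lit 15) (.e false (nat_lit 18) (nat_lit 145) (nat_lit 0) (nat_lit 15) (.e true (nat_lit 18) (nat_lit 146) (nat_lit 0) (nat_lit 15) (.e false (nat_lit 18) (nat_lit 147) (nat_lit 0) (nat_lit 15) (.e true (nat_lit 36) (nat_lit 148) (nat_lit 0) (nat_lit 15) (.e true (nat_lit 18) (nat_lit 149) (nat_lit 0) (nat_lit 15) (.e false (nat_lit 36) (nat_lit 150) (nat_lit 0) (nat_lit 15) (.e false (nat_lit 18) (nat_lit 122) (nat_lit 1) (nat_lit 14) (.e true (nat_lit 18) (nat_lit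 126) (nat_lit 1) (nat_lit 14) (.e true (nat_lit 18) (nat_lit 131) (nat_lit 1) (nat_lit 14) (.e true (nat_lit 18) (nat_lit 132) (nat_lit 1) (nat_lit 14) (.e false (nat_lit 18) (nat_lit 134) (nat_lit 1) (nat_lit 14) (.e true (nat_lit 18) (nat_lit 135) (nat_lit 1) (nat_lit 14) (.e true (nat_lit 18) (nat_lit 139) (nat_lit 1) (nat_lit 14) (.e true (nat_lit 18) (nat_lit 96) (nat_lit 3) (nat_lit 12) (.e true (nat_lit 18) (nat_lit 85) (nat_lit 3) (nat_lit 12) (.e true (nat_lit 18) (nat_lit 88) (nat_lit 3) (nat_lit 12) (.e true (nat_lit 18) (nat_lit 95) (nat_lit 3) (nat_lit 12) (.e false (nat_lit 18) (nat_lit 102) (nat_lit 3) (nat_lit 12) .nil)))))))))))))))))))))))))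

noncomputable def dr2_i33 : IL := (.s false (nat_lit 1) (nat_lit 8) (nat_lit 4) (nat_lit 2) (nat_lit 3) true (nat_lit 1) true (nat_lit 12) true (nat_lit 7) true (nat_lit 11) true (nat_lit 13) (.s false (nat_lit 1) (nat_lit 8) (nat_lit 4) (nat_lit 3) (nat_lit 2) true (nat_lit 3) true (nat_lit 13) true (nat_lit 7) true (nat_lit 11) true (nat_lit 12) (.e false (nat_lit 18) (nat_lit 71) (nat_lit 4) (nat_lit 11) (.e false (nat_lit 18) (nat_lit 104) (nat_lit 2) (nat_lit 13) (.e true (nat_lit 18) (nat_lit 105) (nat_lit 2) (nat_lit 13) (.e false (nat_lit 18) (nat_lit 106) (nat_lit 2) (nat_lit 13) (.e true (nat_lit 18) (nat_lit 107) (nat_lit 2) (nat_lit 13) (.e true (nat_lit 18) (nat_lit 108) (nat_lit 2) (nat_lit 13) (.e false (nat_lit 18) (nat_lit 109) (nat_lit 2) (nat_lit 13) (.e false (nat_lit 18) (nat_lit 111) (nat_lit 2) (nat_lit 13) (.e true (nat_lit 18) (nat_lit 114) (nat_lit 2) (nat_lit 13) (.e true (nat_lit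 18) (nat_lit 89) (nat_lit 3) (nat_lit 12) (.e false (nat_lit 18) (nat_lit 90) (nat_lit 3) (nat_lit 12) (.e true (nat_lit 18) (nat_lit 91) (nat_lit 3) (nat_lit 12) (.e false (nat_lit 18) (nat_lit 73) (nat_lit 4) (nat_lit 11) (.e false (nat_lit 18) (nat_lit 87) (nat_lit 3) (nat_lit 12) (.e true (nat_lit 18) (nat_lit 88) (nat_lit 3) (nat_lit 12) (.e true (nat_lit 18) (nat_lit 92) (nat_lit 3) (nat_lit 12) (.e false (nat_lit 18) (nat_lit 98) (nat_lit 3) (nat_lit 12) (.e false (nat_lit 18) (nat_lit 100) (nat_lit 3) (nat_lit 12) (.e true (nat_lit 18) (nat_lit 41) (nat_lit 8) (nat_lit 7) (.e false (nat_lit 18) (nat_lit 86) (nat_lit 3) (nat_lit 12) (.e true (nat_lit 18) (nat_lit 93) (nat_lit 3) (nat_lit 12) (.e true (nat_lit 18) (nat_lit 95) (nat_lit 3) (nat_lit 12) (.e true (nat_lit 18) (nat_lit 97) (nat_lit 3) (nat_lit 12) .nil)))))))))))))))))))))))))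

noncomputable def dr2_i34 : IL := (.e true (nat_lit 36) (nat_lit 107) (nat_lit 2) (nat_lit 13) (.e true (nat_lit 36) (nat_lit 108) (nat_lit 2) (nat_lit 13) (.e false (nat_lit 36) (nat_lit 111) (nat_lit 2) (nat_lit 13) (.e true (nat_lit 36) (nat_lit 112) (nat_lit 2) (nat_lit 13) (.e true (nat_lit 18) (nat_lit 45) (nat_lit 8) (nat_lit 7) (.e false (nat_lit 18) (nat_lit 53) (nat_lit 7) (nat_lit 8) (.e false (nat_lit 18) (nat_lit 122) (nat_lit 1) (nat_lit 14) (.e true (nat_lit 18) (nat_lit 132) (nat_lit 1) (nat_lit 14) (.e false (nat_lit 36) (nat_lit 139) (nat_lit 1) (nat_lit 14) (.e false (nat_lit 36) (nat_lit 119) (nat_lit 1) (nat_lit 14) (.e true (nat_lit 36) (nat_lit 125) (nat_lit 1) (nat_lit 14) (.e false (nat_lit 36) (nat_lit 129) (nat_lit 1) (nat_lit 14) (.e true (nat_lit 36) (nat_lit 130) (nat_lit 1) (nat_lit 14) (.e true (nat_lit 18) (nat_lit 124) (nat_lit 1) (nat_lit 14) (.e true (nat_lit 18) (nat_lit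 128) (nat_lit 1) (nat_lit 14) (.e true (nat_lit 18) (nat_lit 96) (nat_lit 3) (nat_lit 12) (.e false (nat_lit 18) (nat_lit 105) (nat_lit 2) (nat_lit 13) (.e true (nat_lit 18) (nat_lit 110) (nat_lit 2) (nat_lit 13) (.e true (nat_lit 18) (nat_lit 98) (nat_lit 3) (nat_lit 12) (.e true (nat_lit 18) (nat_lit 133) (nat_lit 1) (nat_lit 14) (.e true (nat_lit 18) (nat_lit 70) (nat_lit 4) (nat_lit 11) (.e true (nat_lit 18) (nat_lit 141) (nat_lit 0) (nat_lit 15) (.e false (nat_lit 18) (nat_lit 146) (nat_lit 0) (nat_lit 15) (.e true (nat_lit 18) (nat_lit 147) (nat_lit 0) (nat_lit 15) (.e false (nat_lit 18) (nat_lit 102) (nat_lit 3) (nat_lit 12) .nil)))))))))))))))))))))))))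

noncomputable def dr2_i35 : IL := (.s false (nat_lit 1) (nat_lit 18) (nat_lit 1) (nat_lit 2) (nat_lit 3) true (nat_lit 7) true (nat_lit 12) true (nat_lit 1) true (nat_lit 14) true (nat_lit 13) (.s false (nat_lit 1) (nat_lit 23) (nat_lit 3) (nat_lit 1) (nat_lit 0) true (nat_lit 8) true (nat_lit 15) false (nat_lit 1) true (nat_lit 12) true (nat_lit 14) (.e false (nat_lit 18) (nat_lit 46) (nat_lit 8) (nat_lit 7) (.e false (nat_lit 18) (nat_lit 115) (nat_lit 1) (nat_lit 14) (.e true (nat_lit 18) (nat_lit 117) (nat_lit 1) (nat_lit 14) (.e true (nat_lit 18) (nat_lit 118) (nat_lit 1) (nat_lit 14) (.e true (nat_lit 18) (nat_lit 119) (nat_lit 1) (nat_lit 14) (.e true (nat_lit 18) (nat_lit 120) (nat_lit 1) (nat_lit 14) (.e false (nat_lit 18) (nat_lit 121) (nat_lit 1) (nat_lit 14) (.e false (nat_lit 18) (nat_lit 122) (nat_lit 1) (nat_lit 14) (.e false (nat_lit 36) (nat_lit 123) (nat_lit 1) (nat_lit 14) (.e false (nat_lit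 18) (nat_lit 124) (nat_lit 1) (nat_lit 14) (.e true (nat_lit 18) (nat_lit 125) (nat_lit 1) (nat_lit 14) (.e false (nat_lit 18) (nat_lit 129) (nat_lit 1) (nat_lit 14) (.e true (nat_lit 18) (nat_lit 132) (nat_lit 1) (nat_lit 14) (.e true (nat_lit 18) (nat_lit 133) (nat_lit 1) (nat_lit 14) (.e false (nat_lit 18) (nat_lit 139) (nat_lit 1) (nat_lit 14) (.e true (nat_lit 18) (nat_lit 109) (nat_lit 2) (nat_lit 13) (.e true (nat_lit 18) (nat_lit 53) (nat_lit 7) (nat_lit 8) (.e false (nat_lit 18) (nat_lit 145) (nat_lit 0) (nat_lit 15) (.e false (nat_lit 18) (nat_lit 86) (nat_lit 3) (nat_lit 12) (.e true (nat_lit 18) (nat_lit 89) (nat_lit 3) (nat_lit 12) (.e false (nat_lit 18) (nat_lit 90) (nat_lit 3) (nat_lit 12) (.e true (nat_lit 18) (nat_lit 95) (nat_lit 3) (nat_lit 12) (.e false (nat_lit 18) (nat_lit 103) (nat_lit 3) (nat_lit 12) .nil)))))))))))))))))))))))))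

noncomputable def dr2_i36 : IL := (.e true (nat_lit 18) (nat_lit 46) (nat_lit 8) (nat_lit 7) (.e false (nat_lit 18) (nat_lit 48) (nat_lit 8) (nat_lit 7) (.e false (nat_lit 18) (nat_lit 50) (nat_lit 8) (nat_lit 7) (.e true (nat_lit 18) (nat_lit 85) (nat_lit 3) (nat_lit 12) (.e false (nat_lit 18) (nat_lit 87) (nat_lit 3) (nat_lit 12) (.e true (nat_lit 18) (nat_lit 88) (nat_lit 3) (nat_lit 12) (.e false (nat_lit 36) (nat_lit 89) (nat_lit 3) (nat_lit 12) (.e true (nat_lit 18) (nat_lit 92) (nat_lit 3) (nat_lit 12) (.e false (nat_lit 18) (nat_lit 94) (nat_lit 3) (nat_lit 12) (.e false (nat_lit 18) (nat_lit 96) (nat_lit 3) (nat_lit 12) (.e true (nat_lit 18) (nat_lit 98) (nat_lit 3) (nat_lit 12) (.e true (nat_lit 18) (nat_lit 100) (nat_lit 3) (nat_lit 12) (.e true (nat_lit 18) (nat_lit 103) (nat_lit 3) (nat_lit 12) (.e true (nat_lit 36) (nat_lit 104) (nat_lit 2) (nat_lit 13) (.e false (nat_lit 18) (nat_lit 105) (nat_lit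 2) (nat_lit 13) (.e true (nat_lit 18) (nat_lit 106) (nat_lit 2) (nat_lit 13) (.e true (nat_lit 18) (nat_lit 90) (nat_lit 3) (nat_lit 12) (.e false (nat_lit 18) (nat_lit 91) (nat_lit 3) (nat_lit 12) (.e true (nat_lit 18) (nat_lit 41) (nat_lit 8) (nat_lit 7) (.e true (nat_lit 18) (nat_lit 70) (nat_lit 4) (nat_lit 11) (.e true (nat_lit 18) (nat_lit 71) (nat_lit 4) (nat_lit 11) (.e false (nat_lit 18) (nat_lit 74) (nat_lit 4) (nat_lit 11) (.e true (nat_lit 18) (nat_lit 75) (nat_lit 4) (nat_lit 11) (.e false (nat_lit 18) (nat_lit 110) (nat_lit 2) (nat_lit 13) (.e true (nat_lit 18) (nat_lit 112) (nat_lit 2) (nat_lit 13) .nil)))))))))))))))))))))))))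

noncomputable def dr2_i37 : IL := (.s true (nat_lit 4) (nat_lit 8) (nat_lit 1) (nat_lit 7) (nat_lit 3) true (nat_lit 4) true (nat_lit 7) true (nat_lit 4) true (nat_lit 8) true (nat_lit 5) (.s false (nat_lit 2) (nat_lit 8) (nat_lit 3) (nat_lit 1) (nat_lit 7) false (nat_lit 0) true (nat_lit 5) true (nat_lit 4) true (nat_lit 7) true (nat_lit 8) (.s true (nat_lit 2) (nat_lit 8) (nat_lit 4) (nat_lit 3) (nat_lit 3) true (nat_lit 1) true (nat_lit 7) true (nat_lit 4) true (nat_lit 6) true (nat_lit 7) (.s true (nat_lit 1) (nat_lit 10) (nat_lit 1) (nat_lit 3) (nat_lit 4) true (nat_lit 2) true (nat_lit 6) true (nat_lit 3) true (nat_lit 8) true (nat_lit 7) (.s true (nat_lit 2) (nat_lit 10) (nat_lit 4) (nat_lit 3) (nat_lit 1) true (nat_lit 2) true (nat_lit 8) true (nat_lit 3) true (nat_lit 6) true (nat_lit 7) (.s true (nat_lit 1) (nat_lit 11) (nat_lit 3) (nat_lit 3) (nat_lit 3) true (nat_lit 3) true (nat_lit 7) true (nat_lit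 2) true (nat_lit 7) true (nat_lit 7) (.s false (nat_lit 2) (nat_lit 16) (nat_lit 1) (nat_lit 3) (nat_lit 3) true (nat_lit 4) true (nat_lit 7) true (nat_lit 1) true (nat_lit 8) true (nat_lit 7) (.s true (nat_lit 2) (nat_lit 18) (nat_lit 1) (nat_lit 3) (nat_lit 3) true (nat_lit 4) true (nat_lit 7) true (nat_lit 1) true (nat_lit 8) true (nat_lit 7) (.s true (nat_lit 2) (nat_lit 16) (nat_lit 3) (nat_lit 1) (nat_lit 3) true (nat_lit 3) true (nat_lit 7) true (nat_lit 1) true (nat_lit 7) true (nat_lit 8) (.s true (nat_lit 2) (nat_lit 26) (nat_lit 1) (nat_lit 3) (nat_lit 1) false (nat_lit 10) true (nat_lit 8) false (nat_lit 0) true (nat_lit 8) true (nat_lit 7) (.s false (nat_lit 2) (nat_lit 28) (nat_lit 0) (nat_lit 1) (nat_lit 3) true (nat_lit 5) true (nat_lit 7) false (nat_lit 1) true (nat_lit 9) true (nat_lit 8) (.e false (nat_lit 72) (nat_lit 56) (nat_lit 8) (nat_lit 4) (.e false (nat_lit 90) (nat_lit 108) (nat_lit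 3) (nat_lit 7) (.e true (nat_lit 90) (nat_lit 109) (nat_lit 3) (nat_lit 7) (.e false (nat_lit 18) (nat_lit 110) (nat_lit 3) (nat_lit 7) (.e true (nat_lit 18) (nat_lit 111) (nat_lit 3) (nat_lit 7) (.e true (nat_lit 18) (nat_lit 112) (nat_lit 3) (nat_lit 7) (.e false (nat_lit 18) (nat_lit 114) (nat_lit 3) (nat_lit 7) (.e true (nat_lit 36) (nat_lit 151) (nat_lit 1) (nat_lit 8) (.e false (nat_lit 36) (nat_lit 152) (nat_lit 1) (nat_lit 8) (.e true (nat_lit 18) (nat_lit 80) (nat_lit 4) (nat_lit 6) (.e true (nat_lit 18) (nat_lit 39) (nat_lit 10) (nat_lit 3) (.e false (nat_lit 18) (nat_lit 40) (nat_lit 10) (nat_lit 3) (.e true (nat_lit 18) (nat_lit 160) (nat_lit 1) (nat_lit 8) (.e true (nat_lit 36) (nat_lit 153) (nat_lit 1) (nat_lit 8) .nil)))))))))))))))))))))))))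

noncomputable def dr2_i38 : IL := (.s false (nat_lit 1) (nat_lit 8) (nat_lit 1) (nat_lit 7) (nat_lit 3) true (nat_lit 4) true (nat_lit 7) true (nat_lit 4) true (nat_lit 8) true (nat_lit 5) (.s true (nat_lit 1) (nat_lit 8) (nat_lit 3) (nat_lit 1) (nat_lit 7) false (nat_lit 0) true (nat_lit 5) true (nat_lit 4) true (nat_lit 7) true (nat_lit 8) (.s false (nat_lit 1) (nat_lit 8) (nat_lit 3) (nat_lit 7) (nat_lit 1) true (nat_lit 4) true (nat_lit 8) true (nat_lit 4) true (nat_lit 7) true (nat_lit 5) (.s true (nat_lit 1) (nat_lit 8) (nat_lit 4) (nat_lit 3) (nat_lit 3) true (nat_lit 1) true (nat_lit 7) true (nat_lit 4) true (nat_lit 6) true (nat_lit 7) (.s false (nat_lit 1) (nat_lit 8) (nat_lit 7) (nat_lit 1) (nat_lit 3) false (nat_lit 0) true (nat_lit 7) true (nat_lit 4) true (nat_lit 5) true (nat_lit 8) (.s false (nat_lit 1) (nat_lit 16) (nat_lit 1) (nat_lit 3) (nat_lit 3) true (nat_lit 4) true (nat_lit 7) true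 (nat_lit 1) true (nat_lit 8) true (nat_lit 7) (.s true (nat_lit 1) (nat_lit 17) (nat_lit 3) (nat_lit 1) (nat_lit 3) true (nat_lit 3) true (nat_lit 7) true (nat_lit 1) true (nat_lit 7) true (nat_lit 8) (.s false (nat_lit 1) (nat_lit 18) (nat_lit 3) (nat_lit 1) (nat_lit 3) true (nat_lit 3) true (nat_lit 7) true (nat_lit 1) true (nat_lit 7) true (nat_lit 8) (.s true (nat_lit 1) (nat_lit 26) (nat_lit 1) (nat_lit 1) (nat_lit 3) true (nat_lit 4) true (nat_lit 7) false (nat_lit 0) true (nat_lit 8) true (nat_lit 8) (.s true (nat_lit 1) (nat_lit 27) (nat_lit 1) (nat_lit 1) (nat_lit 3) true (nat_lit 4) true (nat_lit 7) false (nat_lit 0) true (nat_lit 8) true (nat_lit 8) (.s false (nat_lit 1) (nat_lit 32) (nat_lit 1) (nat_lit 1) (nat_lit 0) true (nat_lit 6) true (nat_lit 9) false (nat_lit 2) true (nat_lit 8) true (nat_lit 8) (.e true (nat_lit 36) (nat_lit 57) (nat_lit 8) (nat_lit 4) (.e true (nat_lit 18) (nat_lit 55)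 (nat_lit 8) (nat_lit 4) (.e true (nat_lit 18) (nat_lit 56) (nat_lit 8) (nat_lit 4) (.e false (nat_lit 18) (nat_lit 166) (nat_lit 0) (nat_lit 9) (.e true (nat_lit 54) (nat_lit 108) (nat_lit 3) (nat_lit 7) (.e false (nat_lit 54) (nat_lit 110) (nat_lit 3) (nat_lit 7) (.e true (nat_lit 54) (nat_lit 112) (nat_lit 3) (nat_lit 7) (.e false (nat_lit 36) (nat_lit 161) (nat_lit 1) (nat_lit 8) (.e true (nat_lit 54) (nat_lit 158) (nat_lit 1) (nat_lit 8) (.e false (nat_lit 18) (nat_lit 80) (nat_lit 4) (nat_lit 6) (.e false (nat_lit 18) (nat_lit 39) (nat_lit 10) (nat_lit 3) (.e true (nat_lit 18) (nat_lit 40) (nat_lit 10) (nat_lit 3) (.e false (nat_lit 18) (nat_lit 153) (nat_lit 1) (nat_lit 8) (.e false (nat_lit 18) (nat_lit 159) (nat_lit 1) (nat_lit 8) .nil)))))))))))))))))))))))))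

noncomputable def dr2_i39 : IL := (.e true (nat_lit 138) (nat_lit 135) (nat_lit 3) (nat_lit 11) (.e true (nat_lit 54) (nat_lit 152) (nat_lit 2) (nat_lit 12) (.e false (nat_lit 18) (nat_lit 157) (nat_lit 2) (nat_lit 12) (.e true (nat_lit 18) (nat_lit 158) (nat_lit 2) (nat_lit 12) (.e true (nat_lit 18) (nat_lit 177) (nat_lit 1) (nat_lit 13) (.e true (nat_lit 72) (nat_lit 128) (nat_lit 3) (nat_lit 11) (.e false (nat_lit 84) (nat_lit 133) (nat_lit 3) (nat_lit 11) (.e true (nat_lit 12) (nat_lit 136) (nat_lit 3) (nat_lit 11) (.e true (nat_lit 18) (nat_lit 168) (nat_lit 1) (nat_lit 13) (.e true (nat_lit 18) (nat_lit 170) (nat_lit 1) (nat_lit 13) (.e true (nat_lit 18) (nat_lit 172) (nat_lit 1) (nat_lit 13) (.e false (nat_lit 18) (nat_lit 173) (nat_lit 1) (nat_lit 13) (.e true (nat_lit 72) (nat_lit 151) (nat_lit 2) (nat_lit 12) (.e true (nat_lit 18) (nat_lit 153) (nat_lit 2) (nat_lit 12) (.e false (nat_lit 54) (nat_lit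 155) (nat_lit 2) (nat_lit 12) (.e true (nat_lit 72) (nat_lit 156) (nat_lit 2) (nat_lit 12) (.e false (nat_lit 18) (nat_lit 160) (nat_lit 2) (nat_lit 12) (.e false (nat_lit 18) (nat_lit 179) (nat_lit 0) (nat_lit 14) (.e false (nat_lit 18) (nat_lit 183) (nat_lit 0) (nat_lit 14) (.e true (nat_lit 48) (nat_lit 116) (nat_lit 3) (nat_lit 11) (.e false (nat_lit 24) (nat_lit 115) (nat_lit 3) (nat_lit 11) (.e true (nat_lit 18) (nat_lit 167) (nat_lit 1) (nat_lit 13) (.e false (nat_lit 18) (nat_lit 159) (nat_lit 2) (nat_lit 12) (.e false (nat_lit 12) (nat_lit 127) (nat_lit 3) (nat_lit 11) (.e true (nat_lit 6) (nat_lit 138) (nat_lit 3) (nat_lit 11) .nil)))))))))))))))))))))))))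

noncomputable def dr2_i40 : IL := (.s true (nat_lit 1) (nat_lit 25) (nat_lit 3) (nat_lit 3) (nat_lit 0) true (nat_lit 7) true (nat_lit 14) true (nat_lit 0) true (nat_lit 11) true (nat_lit 11) (.s false (nat_lit 1) (nat_lit 26) (nat_lit 2) (nat_lit 1) (nat_lit 3) true (nat_lit 5) true (nat_lit 11) false (nat_lit 0) true (nat_lit 12) true (nat_lit 13) (.s true (nat_lit 1) (nat_lit 27) (nat_lit 2) (nat_lit 1) (nat_lit 3) true (nat_lit 5) true (nat_lit 11) false (nat_lit 0) true (nat_lit 12) true (nat_lit 13) (.s false (nat_lit 1) (nat_lit 27) (nat_lit 2) (nat_lit 3) (nat_lit 1) true (nat_lit 8) true (nat_lit 13) false (nat_lit 0) true (nat_lit 12) true (nat_lit 11) (.s false (nat_lit 1) (nat_lit 26) (nat_lit 3) (nat_lit 1) (nat_lit 2) true (nat_lit 5) true (nat_lit 12) false (nat_lit 0) true (nat_lit 11) true (nat_lit 13) (.s false (nat_lit 2) (nat_lit 27) (nat_lit 3) (nat_lit 1) (nat_lit 2) true (nat_lit 5)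 true (nat_lit 12) false (nat_lit 0) true (nat_lit 11) true (nat_lit 13) (.s true (nat_lit 1) (nat_lit 28) (nat_lit 3) (nat_lit 0) (nat_lit 2) true (nat_lit 5) true (nat_lit 12) false (nat_lit 1) true (nat_lit 11) true (nat_lit 14) (.e false (nat_lit 30) (nat_lit 117) (nat_lit 3) (nat_lit 11) (.e false (nat_lit 42) (nat_lit 118) (nat_lit 3) (nat_lit 11) (.e true (nat_lit 48) (nat_lit 119) (nat_lit 3) (nat_lit 11) (.e false (nat_lit 24) (nat_lit 120) (nat_lit 3) (nat_lit 11) (.e true (nat_lit 18) (nat_lit 121) (nat_lit 3) (nat_lit 11) (.e false (nat_lit 60) (nat_lit 122) (nat_lit 3) (nat_lit 11) (.e true (nat_lit 36) (nat_lit 123) (nat_lit 3) (nat_lit 11) (.e false (nat_lit 24) (nat_lit 124) (nat_lit 3) (nat_lit 11) (.e true (nat_lit 186) (nat_lit 139) (nat_lit 3) (nat_lit 11) (.e false (nat_lit 18) (nat_lit 161) (nat_lit 2) (nat_lit 12) (.e false (nat_lit 126) (nat_lit 125) (nat_lit 3) (nat_lit 11) (.e false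 (nat_lit 6) (nat_lit 126) (nat_lit 3) (nat_lit 11) (.e true (nat_lit 144) (nat_lit 129) (nat_lit 3) (nat_lit 11) (.e false (nat_lit 126) (nat_lit 130) (nat_lit 3) (nat_lit 11) (.e true (nat_lit 18) (nat_lit 55) (nat_lit 9) (nat_lit 5) (.e false (nat_lit 18) (nat_lit 56) (nat_lit 9) (nat_lit 5) (.e true (nat_lit 132) (nat_lit 131) (nat_lit 3) (nat_lit 11) (.e false (nat_lit 114) (nat_lit 134) (nat_lit 3) (nat_lit 11) dr2_i39)))))))))))))))))))))))))

noncomputable def dr2_i41 : IL := (.e false (nat_lit 180) (nat_lit 135) (nat_lit 3) (nat_lit 11) (.e true (nat_lit 54) (nat_lit 161) (nat_lit 2) (nat_lit 12) (.e true (nat_lit 198) (nat_lit 125) (nat_lit 3) (nat_lit 11) (.e false (nat_lit 198) (nat_lit 129) (nat_lit 3) (nat_lit 11) (.e true (nat_lit 198) (nat_lit 130) (nat_lit 3) (nat_lit 11) (.e true (nat_lit 90) (nat_lit 133) (nat_lit 3) (nat_lit 11) (.e false (nat_lit 108) (nat_lit 151) (nat_lit 2) (nat_lit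 12) (.e false (nat_lit 126) (nat_lit 152) (nat_lit 2) (nat_lit 12) (.e true (nat_lit 72) (nat_lit 155) (nat_lit 2) (nat_lit 12) (.e false (nat_lit 90) (nat_lit 156) (nat_lit 2) (nat_lit 12) (.e false (nat_lit 36) (nat_lit 177) (nat_lit 1) (nat_lit 13) (.e true (nat_lit 72) (nat_lit 115) (nat_lit 3) (nat_lit 11) (.e false (nat_lit 36) (nat_lit 178) (nat_lit 0) (nat_lit 14) (.e false (nat_lit 18) (nat_lit 179) (nat_lit 0) (nat_lit 14) (.e false (nat_lit 18) (nat_lit 170) (nat_lit 1) (nat_lit 13) (.e true (nat_lit 36) (nat_lit 173) (nat_lit 1) (nat_lit 13) (.e true (nat_lit 18) (nat_lit 174) (nat_lit 1) (nat_lit 13) (.e false (nat_lit 18) (nat_lit 116) (nat_lit 3) (nat_lit 11) (.e true (nat_lit 36) (nat_lit 127) (nat_lit 3) (nat_lit 11) (.e false (nat_lit 18) (nat_lit 138) (nat_lit 3) (nat_lit 11) (.e false (nat_lit 108) (nat_lit 128) (nat_lit 3) (nat_lit 11) (.e true (nat_lit 18) (nat_lit 153) (nat_lit 2) (nat_lit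 12) (.e true (nat_lit 54) (nat_lit 160) (nat_lit 2) (nat_lit 12) (.e false (nat_lit 18) (nat_lit 157) (nat_lit 2) (nat_lit 12) (.e true (nat_lit 36) (nat_lit 159) (nat_lit 2) (nat_lit 12) .nil)))))))))))))))))))))))))

noncomputable def dr2_i42 : IL := (.s false (nat_lit 1) (nat_lit 26) (nat_lit 1) (nat_lit 3) (nat_lit 2) true (nat_lit 8) true (nat_lit 12) false (nat_lit 0) true (nat_lit 13) true (nat_lit 11) (.s true (nat_lit 1) (nat_lit 27) (nat_lit 1) (nat_lit 3) (nat_lit 2) true (nat_lit 8) true (nat_lit 12) false (nat_lit 0) true (nat_lit 13) true (nat_lit 11) (.s false (nat_lit 2) (nat_lit 26) (nat_lit 2) (nat_lit 1) (nat_lit 3) true (nat_lit 5) true (nat_lit 11) false (nat_lit 0) true (nat_lit 12) true (nat_lit 13) (.s false (nat_lit 1) (nat_lit 26) (nat_lit 2) (nat_lit 3) (nat_lit 1) true (nat_lit 8) true (nat_lit 13) false (nat_lit 0) true (nat_lit 12) true (nat_lit 11) (.s true (nat_lit 2) (nat_lit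 27) (nat_lit 2) (nat_lit 3) (nat_lit 1) true (nat_lit 8) true (nat_lit 13) false (nat_lit 0) true (nat_lit 12) true (nat_lit 11) (.s false (nat_lit 3) (nat_lit 26) (nat_lit 3) (nat_lit 1) (nat_lit 2) true (nat_lit 5) true (nat_lit 12) false (nat_lit 0) true (nat_lit 11) true (nat_lit 13) (.s true (nat_lit 2) (nat_lit 27) (nat_lit 3) (nat_lit 1) (nat_lit 2) true (nat_lit 5) true (nat_lit 12) false (nat_lit 0) true (nat_lit 11) true (nat_lit 13) (.s false (nat_lit 1) (nat_lit 29) (nat_lit 0) (nat_lit 2) (nat_lit 3) true (nat_lit 7) true (nat_lit 11) false (nat_lit 1) true (nat_lit 14) true (nat_lit 12) (.s false (nat_lit 1) (nat_lit 29) (nat_lit 2) (nat_lit 0) (nat_lit 3) true (nat_lit 5) true (nat_lit 11) false (nat_lit 1) true (nat_lit 12) true (nat_lit 14) (.s true (nat_lit 1) (nat_lit 31) (nat_lit 0) (nat_lit 1) (nat_lit 3) true (nat_lit 7) true (nat_lit 11) false (nat_lit 2) true (nat_lit 14) true (nat_lit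 13) (.s true (nat_lit 1) (nat_lit 31) (nat_lit 1) (nat_lit 0) (nat_lit 3) true (nat_lit 6) true (nat_lit 11) false (nat_lit 2) true (nat_lit 13) true (nat_lit 14) (.e true (nat_lit 72) (nat_lit 117) (nat_lit 3) (nat_lit 11) (.e true (nat_lit 72) (nat_lit 118) (nat_lit 3) (nat_lit 11) (.e false (nat_lit 72) (nat_lit 119) (nat_lit 3) (nat_lit 11) (.e true (nat_lit 90) (nat_lit 120) (nat_lit 3) (nat_lit 11) (.e false (nat_lit 72) (nat_lit 121) (nat_lit 3) (nat_lit 11) (.e true (nat_lit 54) (nat_lit 122) (nat_lit 3) (nat_lit 11) (.e false (nat_lit 54) (nat_lit 123) (nat_lit 3) (nat_lit 11) (.e true (nat_lit 36) (nat_lit 124) (nat_lit 3) (nat_lit 11) (.e false (nat_lit 324) (nat_lit 139) (nat_lit 3) (nat_lit 11) (.e true (nat_lit 18) (nat_lit 55) (nat_lit 9) (nat_lit 5) (.e true (nat_lit 36) (nat_lit 56) (nat_lit 9) (nat_lit 5) (.e false (nat_lit 36) (nat_lit 59) (nat_lit 9) (nat_lit 5) (.e false (nat_lit 216)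 (nat_lit 131) (nat_lit 3) (nat_lit 11) (.e true (nat_lit 180) (nat_lit 134) (nat_lit 3) (nat_lit 11) dr2_i41)))))))))))))))))))))))))

noncomputable def dr2_i43 : IL := (.e true (nat_lit 36) (nat_lit 56) (nat_lit 9) (nat_lit 5) (.e true (nat_lit 36) (nat_lit 59) (nat_lit 9) (nat_lit 5) (.e false (nat_lit 18) (nat_lit 60) (nat_lit 9) (nat_lit 5) (.e false (nat_lit 120) (nat_lit 131) (nat_lit 3) (nat_lit 11) (.e true (nat_lit 120) (nat_lit 134) (nat_lit 3) (nat_lit 11) (.e false (nat_lit 96) (nat_lit 135) (nat_lit 3) (nat_lit 11) (.e true (nat_lit 60) (nat_lit 133) (nat_lit 3) (nat_lit 11) (.e false (nat_lit 54) (nat_lit 151) (nat_lit 2) (nat_lit 12) (.e false (nat_lit 36) (nat_lit 152) (nat_lit 2) (nat_lit 12) (.e true (nat_lit 36) (nat_lit 155) (nat_lit 2) (nat_lit 12) (.e false (nat_lit 36) (nat_lit 156) (nat_lit 2) (nat_lit 12) (.e false (nat_lit 72) (nat_lit 157) (nat_lit 2) (nat_lit 12) (.e false (nat_lit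 18) (nat_lit 158) (nat_lit 2) (nat_lit 12) (.e false (nat_lit 6) (nat_lit 136) (nat_lit 3) (nat_lit 11) (.e false (nat_lit 12) (nat_lit 138) (nat_lit 3) (nat_lit 11) (.e true (nat_lit 30) (nat_lit 115) (nat_lit 3) (nat_lit 11) (.e false (nat_lit 24) (nat_lit 116) (nat_lit 3) (nat_lit 11) (.e true (nat_lit 60) (nat_lit 127) (nat_lit 3) (nat_lit 11) (.e true (nat_lit 18) (nat_lit 179) (nat_lit 0) (nat_lit 14) (.e false (nat_lit 18) (nat_lit 170) (nat_lit 1) (nat_lit 13) (.e true (nat_lit 36) (nat_lit 153) (nat_lit 2) (nat_lit 12) (.e true (nat_lit 18) (nat_lit 160) (nat_lit 2) (nat_lit 12) (.e true (nat_lit 36) (nat_lit 57) (nat_lit 9) (nat_lit 5) (.e false (nat_lit 36) (nat_lit 159) (nat_lit 2) (nat_lit 12) (.e false (nat_lit 18) (nat_lit 128) (nat_lit 3) (nat_lit 11) .nil)))))))))))))))))))))))))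

noncomputable def dr2_i44 : IL := (.s false (nat_lit 1) (nat_lit 21) (nat_lit 1) (nat_lit 3) (nat_lit 3) true (nat_lit 6) true (nat_lit 11) true (nat_lit 1) true (nat_lit 13) true (nat_lit 11) (.s false (nat_lit 1) (nat_lit 22) (nat_lit 1) (nat_lit 3) (nat_lit 3) true (nat_lit 6) true (nat_lit 11) true (nat_lit 1) true (nat_lit 13) true (nat_lit 11) (.s true (nat_lit 4) (nat_lit 21) (nat_lit 3) (nat_lit 1) (nat_lit 3) true (nat_lit 4) true (nat_lit 11) true (nat_lit 1) true (nat_lit 11) true (nat_lit 13) (.s true (nat_lit 1) (nat_lit 24) (nat_lit 3) (nat_lit 3) (nat_lit 0) true (nat_lit 7) true (nat_lit 14) true (nat_lit 0) true (nat_lit 11) true (nat_lit 11) (.s true (nat_lit 1) (nat_lit 27) (nat_lit 1) (nat_lit 2) (nat_lit 3) true (nat_lit 6) true (nat_lit 11) false (nat_lit 0) true (nat_lit 13) true (nat_lit 12) (.s true (nat_lit 4) (nat_lit 26) (nat_lit 2) (nat_lit 1) (nat_lit 3) true (nat_lit 5) true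 (nat_lit 11) false (nat_lit 0) true (nat_lit 12) true (nat_lit 13) (.s true (nat_lit 1) (nat_lit 27) (nat_lit 2) (nat_lit 1) (nat_lit 3) true (nat_lit 5) true (nat_lit 11) false (nat_lit 0) true (nat_lit 12) true (nat_lit 13) (.s true (nat_lit 1) (nat_lit 26) (nat_lit 3) (nat_lit 1) (nat_lit 2) true (nat_lit 5) true (nat_lit 12) false (nat_lit 0) true (nat_lit 11) true (nat_lit 13) (.s true (nat_lit 1) (nat_lit 27) (nat_lit 3) (nat_lit 1) (nat_lit 2) true (nat_lit 5) true (nat_lit 12) false (nat_lit 0) true (nat_lit 11) true (nat_lit 13) (.s false (nat_lit 1) (nat_lit 28) (nat_lit 0) (nat_lit 2) (nat_lit 3) true (nat_lit 7) true (nat_lit 11) false (nat_lit 1) true (nat_lit 14) true (nat_lit 12) (.e true (nat_lit 24) (nat_lit 117) (nat_lit 3) (nat_lit 11) (.e true (nat_lit 48) (nat_lit 118) (nat_lit 3) (nat_lit 11) (.e false (nat_lit 60) (nat_lit 119) (nat_lit 3) (nat_lit 11) (.e true (nat_lit 30) (nat_lit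 120) (nat_lit 3) (nat_lit 11) (.e false (nat_lit 18) (nat_lit 121) (nat_lit 3) (nat_lit 11) (.e true (nat_lit 48) (nat_lit 122) (nat_lit 3) (nat_lit 11) (.e false (nat_lit 36) (nat_lit 123) (nat_lit 3) (nat_lit 11) (.e true (nat_lit 12) (nat_lit 124) (nat_lit 3) (nat_lit 11) (.e false (nat_lit 192) (nat_lit 139) (nat_lit 3) (nat_lit 11) (.e true (nat_lit 90) (nat_lit 161) (nat_lit 2) (nat_lit 12) (.e true (nat_lit 90) (nat_lit 125) (nat_lit 3) (nat_lit 11) (.e true (nat_lit 12) (nat_lit 126) (nat_lit 3) (nat_lit 11) (.e false (nat_lit 72) (nat_lit 129) (nat_lit 3) (nat_lit 11) (.e true (nat_lit 108) (nat_lit 130) (nat_lit 3) (nat_lit 11) (.e false (nat_lit 36) (nat_lit 55) (nat_lit 9) (nat_lit 5) dr2_i43)))))))))))))))))))))))))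

noncomputable def dr2_i45 : IL := (.e true (nat_lit 36) (nat_lit 134) (nat_lit 3) (nat_lit 11) (.e false (nat_lit 18) (nat_lit 135) (nat_lit 3) (nat_lit 11) (.e false (nat_lit 36) (nat_lit 133) (nat_lit 3) (nat_lit 11) (.e false (nat_lit 18) (nat_lit 152) (nat_lit 2) (nat_lit 12) (.e true (nat_lit 18) (nat_lit 155) (nat_lit 2) (nat_lit 12) (.e false (nat_lit 18) (nat_lit 156) (nat_lit 2) (nat_lit 12) (.e true (nat_lit 18) (nat_lit 136) (nat_lit 3) (nat_lit 11) (.e false (nat_lit 18) (nat_lit 138) (nat_lit 3) (nat_lit 11) (.e true (nat_lit 36) (nat_lit 115) (nat_lit 3) (nat_lit 11) (.e true (nat_lit 18) (nat_lit 116) (nat_lit 3) (nat_lit 11) (.e true (nat_lit 18) (nat_lit 127) (nat_lit 3) (nat_lit 11) (.e false (nat_lit 54) (nat_lit 177) (nat_lit 1) (nat_lit 13) (.e false (nat_lit 18) (nat_lit 168) (nat_lit 1) (nat_lit 13) (.e false (nat_lit 36) (nat_lit 170) (nat_lit 1) (nat_lit 13) (.e true (nat_lit 36)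 (nat_lit 173) (nat_lit 1) (nat_lit 13) (.e true (nat_lit 36) (nat_lit 174) (nat_lit 1) (nat_lit 13) (.e false (nat_lit 36) (nat_lit 178) (nat_lit 0) (nat_lit 14) (.e false (nat_lit 36) (nat_lit 179) (nat_lit 0) (nat_lit 14) (.e false (nat_lit 18) (nat_lit 183) (nat_lit 0) (nat_lit 14) (.e false (nat_lit 54) (nat_lit 128) (nat_lit 3) (nat_lit 11) (.e true (nat_lit 18) (nat_lit 57) (nat_lit 9) (nat_lit 5) (.e true (nat_lit 18) (nat_lit 167) (nat_lit 1) (nat_lit 13) (.e true (nat_lit 18) (nat_lit 172) (nat_lit 1) (nat_lit 13) (.e false (nat_lit 18) (nat_lit 157) (nat_lit 2) (nat_lit 12) (.e false (nat_lit 18) (nat_lit 58) (nat_lit 9) (nat_lit 5) .nil)))))))))))))))))))))))))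

noncomputable def dr2_i46 : IL := (.s true (nat_lit 1) (nat_lit 21) (nat_lit 1) (nat_lit 3) (nat_lit 3) true (nat_lit 6) true (nat_lit 11) true (nat_lit 1) true (nat_lit 13) true (nat_lit 11) (.s true (nat_lit 1) (nat_lit 23) (nat_lit 0) (nat_lit 3) (nat_lit 3) true (nat_lit 7) true (nat_lit 11) true (nat_lit 0) true (nat_lit 14) true (nat_lit 11) (.s false (nat_lit 1) (nat_lit 23) (nat_lit 3) (nat_lit 0) (nat_lit 3) true (nat_lit 4) true (nat_lit 11) true (nat_lit 0) true (nat_lit 11) true (nat_lit 14) (.s false (nat_lit 1) (nat_lit 24) (nat_lit 3) (nat_lit 3) (nat_lit 0) true (nat_lit 7) true (nat_lit 14) true (nat_lit 0) true (nat_lit 11) true (nat_lit 11) (.s false (nat_lit 1) (nat_lit 26) (nat_lit 1) (nat_lit 2) (nat_lit 3) true (nat_lit 6) true (nat_lit 11) false (nat_lit 0) true (nat_lit 13) true (nat_lit 12) (.s true (nat_lit 1) (nat_lit 26) (nat_lit 1) (nat_lit 3) (nat_lit 2) true (nat_lit 8) true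 (nat_lit 12) false (nat_lit 0) true (nat_lit 13) true (nat_lit 11) (.s false (nat_lit 1) (nat_lit 26) (nat_lit 2) (nat_lit 1) (nat_lit 3) true (nat_lit 5) true (nat_lit 11) false (nat_lit 0) true (nat_lit 12) true (nat_lit 13) (.s false (nat_lit 1) (nat_lit 27) (nat_lit 2) (nat_lit 1) (nat_lit 3) true (nat_lit 5) true (nat_lit 11) false (nat_lit 0) true (nat_lit 12) true (nat_lit 13) (.s true (nat_lit 1) (nat_lit 26) (nat_lit 2) (nat_lit 3) (nat_lit 1) true (nat_lit 8) true (nat_lit 13) false (nat_lit 0) true (nat_lit 12) true (nat_lit 11) (.s false (nat_lit 1) (nat_lit 27) (nat_lit 3) (nat_lit 1) (nat_lit 2) true (nat_lit 5) true (nat_lit 12) false (nat_lit 0) true (nat_lit 11) true (nat_lit 13) (.s true (nat_lit 1) (nat_lit 28) (nat_lit 0) (nat_lit 2) (nat_lit 3) true (nat_lit 7) true (nat_lit 11) false (nat_lit 1) true (nat_lit 14) true (nat_lit 12) (.s true (nat_lit 1) (nat_lit 31) (nat_lit 1) (nat_lit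 0) (nat_lit 3) true (nat_lit 6) true (nat_lit 11) false (nat_lit 2) true (nat_lit 13) true (nat_lit 14) (.s true (nat_lit 1) (nat_lit 31) (nat_lit 3) (nat_lit 1) (nat_lit 0) true (nat_lit 7) true (nat_lit 14) false (nat_lit 2) true (nat_lit 11) true (nat_lit 13) (.e true (nat_lit 18) (nat_lit 117) (nat_lit 3) (nat_lit 11) (.e true (nat_lit 36) (nat_lit 120) (nat_lit 3) (nat_lit 11) (.e false (nat_lit 36) (nat_lit 121) (nat_lit 3) (nat_lit 11) (.e true (nat_lit 18) (nat_lit 122) (nat_lit 3) (nat_lit 11) (.e true (nat_lit 18) (nat_lit 124) (nat_lit 3) (nat_lit 11) (.e false (nat_lit 54) (nat_lit 139) (nat_lit 3) (nat_lit 11) (.e true (nat_lit 18) (nat_lit 125) (nat_lit 3) (nat_lit 11) (.e false (nat_lit 18) (nat_lit 126) (nat_lit 3) (nat_lit 11) (.e true (nat_lit 36) (nat_lit 130) (nat_lit 3) (nat_lit 11) (.e false (nat_lit 18) (nat_lit 56) (nat_lit 9) (nat_lit 5) (.e true (nat_lit 18) (nat_lit 59) (nat_lit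 9) (nat_lit 5) (.e false (nat_lit 36) (nat_lit 131) (nat_lit 3) (nat_lit 11) dr2_i45)))))))))))))))))))))))))

noncomputable def dr2_i47 : IL := (.e true (nat_lit 12) (nat_lit 124) (nat_lit 3) (nat_lit 11) (.e false (nat_lit 6) (nat_lit 126) (nat_lit 3) (nat_lit 11) (.e true (nat_lit 24) (nat_lit 127) (nat_lit 3) (nat_lit 11) (.e true (nat_lit 6) (nat_lit 131) (nat_lit 3) (nat_lit 11) (.e true (nat_lit 6) (nat_lit 133) (nat_lit 3) (nat_lit 11) (.e false (nat_lit 6) (nat_lit 134) (nat_lit 3) (nat_lit 11) (.e false (nat_lit 24) (nat_lit 135) (nat_lit 3) (nat_lit 11) (.e false (nat_lit 6) (nat_lit 136) (nat_lit 3) (nat_lit 11) (.e true (nat_lit 6) (nat_lit 138) (nat_lit 3) (nat_lit 11) (.e true (nat_lit 6) (nat_lit 139) (nat_lit 3) (nat_lit 11) (.e false (nat_lit 18) (nat_lit 55) (nat_lit 9) (nat_lit 5) (.e false (nat_lit 18) (nat_lit 125) (nat_lit 3) (nat_lit 11) (.e true (nat_lit 18) (nat_lit 152) (nat_lit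 2) (nat_lit 12) (.e false (nat_lit 18) (nat_lit 153) (nat_lit 2) (nat_lit 12) (.e true (nat_lit 18) (nat_lit 155) (nat_lit 2) (nat_lit 12) (.e false (nat_lit 18) (nat_lit 156) (nat_lit 2) (nat_lit 12) (.e false (nat_lit 18) (nat_lit 157) (nat_lit 2) (nat_lit 12) (.e false (nat_lit 18) (nat_lit 158) (nat_lit 2) (nat_lit 12) (.e false (nat_lit 18) (nat_lit 159) (nat_lit 2) (nat_lit 12) (.e true (nat_lit 18) (nat_lit 183) (nat_lit 0) (nat_lit 14) (.e false (nat_lit 18) (nat_lit 168) (nat_lit 1) (nat_lit 13) (.e false (nat_lit 18) (nat_lit 170) (nat_lit 1) (nat_lit 13) (.e true (nat_lit 18) (nat_lit 173) (nat_lit 1) (nat_lit 13) (.e true (nat_lit 18) (nat_lit 174) (nat_lit 1) (nat_lit 13) (.e false (nat_lit 18) (nat_lit 177) (nat_lit 1) (nat_lit 13) .nil)))))))))))))))))))))))))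

noncomputable def dr2_i48 : IL := (.e false (nat_lit 12) (nat_lit 136) (nat_lit 3) (nat_lit 11) (.e true (nat_lit 12) (nat_lit 138) (nat_lit 3) (nat_lit 11) (.e false (nat_lit 30) (nat_lit 115) (nat_lit 3) (nat_lit 11) (.e false (nat_lit 30) (nat_lit 116) (nat_lit 3) (nat_lit 11) (.e true (nat_lit 12) (nat_lit 127) (nat_lit 3) (nat_lit 11) (.e true (nat_lit 30) (nat_lit 131) (nat_lit 3) (nat_lit 11) (.e true (nat_lit 18) (nat_lit 132) (nat_lit 3) (nat_lit 11) (.e true (nat_lit 48) (nat_lit 133) (nat_lit 3) (nat_lit 11) (.e false (nat_lit 30) (nat_lit 134) (nat_lit 3) (nat_lit 11) (.e true (nat_lit 6) (nat_lit 135) (nat_lit 3) (nat_lit 11) (.e true (nat_lit 18) (nat_lit 177) (nat_lit 1) (nat_lit 13) (.e true (nat_lit 36) (nat_lit 128) (nat_lit 3) (nat_lit 11) (.e true (nat_lit 18) (nat_lit 179) (nat_lit 0) (nat_lit 14) (.e true (nat_lit 36) (nat_lit 151) (nat_lit 2) (nat_lit 12) (.e false (nat_lit 36) (nat_lit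 153) (nat_lit 2) (nat_lit 12) (.e false (nat_lit 18) (nat_lit 155) (nat_lit 2) (nat_lit 12) (.e true (nat_lit 18) (nat_lit 156) (nat_lit 2) (nat_lit 12) (.e false (nat_lit 36) (nat_lit 160) (nat_lit 2) (nat_lit 12) (.e false (nat_lit 18) (nat_lit 159) (nat_lit 2) (nat_lit 12) (.e false (nat_lit 18) (nat_lit 167) (nat_lit 1) (nat_lit 13) (.e true (nat_lit 18) (nat_lit 170) (nat_lit 1) (nat_lit 13) (.e false (nat_lit 18) (nat_lit 172) (nat_lit 1) (nat_lit 13) (.e false (nat_lit 18) (nat_lit 174) (nat_lit 1) (nat_lit 13) (.e true (nat_lit 18) (nat_lit 178) (nat_lit 0) (nat_lit 14) (.e false (nat_lit 18) (nat_lit 173) (nat_lit 1) (nat_lit 13) .nil)))))))))))))))))))))))))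

noncomputable def dr2_i49 : IL := (.s true (nat_lit 1) (nat_lit 26) (nat_lit 1) (nat_lit 2) (nat_lit 3) true (nat_lit 6) true (nat_lit 11) false (nat_lit 0) true (nat_lit 13) true (nat_lit 12) (.s true (nat_lit 1) (nat_lit 26) (nat_lit 2) (nat_lit 1) (nat_lit 3) true (nat_lit 5) true (nat_lit 11) false (nat_lit 0) true (nat_lit 12) true (nat_lit 13) (.s true (nat_lit 1) (nat_lit 27) (nat_lit 2) (nat_lit 1) (nat_lit 3) true (nat_lit 5) true (nat_lit 11) false (nat_lit 0) true (nat_lit 12) true (nat_lit 13) (.s true (nat_lit 1) (nat_lit 26) (nat_lit 3) (nat_lit 1) (nat_lit 2) true (nat_lit 5) true (nat_lit 12) false (nat_lit 0) true (nat_lit 11) true (nat_lit 13) (.s true (nat_lit 1) (nat_lit 27) (nat_lit 3) (nat_lit 1) (nat_lit 2) true (nat_lit 5) true (nat_lit 12) false (nat_lit 0) true (nat_lit 11) true (nat_lit 13) (.s false (nat_lit 1) (nat_lit 28) (nat_lit 0) (nat_lit 2) (nat_lit 3) true (nat_lit 7) true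 (nat_lit 11) false (nat_lit 1) true (nat_lit 14) true (nat_lit 12) (.s false (nat_lit 1) (nat_lit 31) (nat_lit 1) (nat_lit 0) (nat_lit 3) true (nat_lit 6) true (nat_lit 11) false (nat_lit 2) true (nat_lit 13) true (nat_lit 14) (.s false (nat_lit 1) (nat_lit 31) (nat_lit 3) (nat_lit 1) (nat_lit 0) true (nat_lit 7) true (nat_lit 14) false (nat_lit 2) true (nat_lit 11) true (nat_lit 13) (.e false (nat_lit 6) (nat_lit 117) (nat_lit 3) (nat_lit 11) (.e true (nat_lit 24) (nat_lit 118) (nat_lit 3) (nat_lit 11) (.e false (nat_lit 12) (nat_lit 119) (nat_lit 3) (nat_lit 11) (.e false (nat_lit 12) (nat_lit 120) (nat_lit 3) (nat_lit 11) (.e true (nat_lit 18) (nat_lit 121) (nat_lit 3) (nat_lit 11) (.e false (nat_lit 12) (nat_lit 122) (nat_lit 3) (nat_lit 11) (.e false (nat_lit 18) (nat_lit 123) (nat_lit 3) (nat_lit 11) (.e false (nat_lit 30) (nat_lit 124) (nat_lit 3) (nat_lit 11) (.e true (nat_lit 30) (nat_lit 139) (nat_lit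 3) (nat_lit 11) (.e false (nat_lit 12) (nat_lit 126) (nat_lit 3) (nat_lit 11) (.e false (nat_lit 18) (nat_lit 129) (nat_lit 3) (nat_lit 11) (.e false (nat_lit 18) (nat_lit 130) (nat_lit 3) (nat_lit 11) (.e true (nat_lit 90) (nat_lit 152) (nat_lit 2) (nat_lit 12) (.e true (nat_lit 36) (nat_lit 154) (nat_lit 2) (nat_lit 12) (.e false (nat_lit 36) (nat_lit 158) (nat_lit 2) (nat_lit 12) (.e false (nat_lit 18) (nat_lit 55) (nat_lit 9) (nat_lit 5) (.e false (nat_lit 18) (nat_lit 56) (nat_lit 9) (nat_lit 5) dr2_i48)))))))))))))))))))))))))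

noncomputable def dr2_i50 : IL := (.e false (nat_lit 72) (nat_lit 155) (nat_lit 2) (nat_lit 12) (.e true (nat_lit 72) (nat_lit 156) (nat_lit 2) (nat_lit 12) (.e true (nat_lit 72) (nat_lit 154) (nat_lit 2) (nat_lit 12) (.e false (nat_lit 18) (nat_lit 157) (nat_lit 2) (nat_lit 12) (.e true (nat_lit 12) (nat_lit 136) (nat_lit 3) (nat_lit 11) (.e true (nat_lit 6) (nat_lit 138) (nat_lit 3) (nat_lit 11) (.e true (nat_lit 66) (nat_lit 115) (nat_lit 3) (nat_lit 11) (.e true (nat_lit 48) (nat_lit 116) (nat_lit 3) (nat_lit 11) (.e true (nat_lit 12) (nat_lit 119) (nat_lit 3) (nat_lit 11) (.e false (nat_lit 30) (nat_lit 127) (nat_lit 3) (nat_lit 11) (.e false (nat_lit 18) (nat_lit 137) (nat_lit 3) (nat_lit 11) (.e false (nat_lit 36) (nat_lit 57) (nat_lit 9) (nat_lit 5) (.e false (nat_lit 54) (nat_lit 177) (nat_lit 1) (nat_lit 13) (.e false (nat_lit 54) (nat_lit 178) (nat_lit 0) (nat_lit 14) (.e false (nat_lit 72) (nat_lit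 179) (nat_lit 0) (nat_lit 14) (.e false (nat_lit 36) (nat_lit 183) (nat_lit 0) (nat_lit 14) (.e false (nat_lit 72) (nat_lit 128) (nat_lit 3) (nat_lit 11) (.e true (nat_lit 18) (nat_lit 168) (nat_lit 1) (nat_lit 13) (.e true (nat_lit 36) (nat_lit 170) (nat_lit 1) (nat_lit 13) (.e false (nat_lit 18) (nat_lit 172) (nat_lit 1) (nat_lit 13) (.e true (nat_lit 36) (nat_lit 173) (nat_lit 1) (nat_lit 13) (.e true (nat_lit 36) (nat_lit 174) (nat_lit 1) (nat_lit 13) (.e true (nat_lit 54) (nat_lit 160) (nat_lit 2) (nat_lit 12) (.e false (nat_lit 36) (nat_lit 58) (nat_lit 9) (nat_lit 5) (.e true (nat_lit 54) (nat_lit 159) (nat_lit 2) (nat_lit 12) .nil)))))))))))))))))))))))))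

noncomputable def dr2_i51 : IL := (.s true (nat_lit 1) (nat_lit 27) (nat_lit 2) (nat_lit 3) (nat_lit 1) true (nat_lit 8) true (nat_lit 13) false (nat_lit 0) true (nat_lit 12) true (nat_lit 11) (.s false (nat_lit 5) (nat_lit 26) (nat_lit 3) (nat_lit 1) (nat_lit 2) true (nat_lit 5) true (nat_lit 12) false (nat_lit 0) true (nat_lit 11) true (nat_lit 13) (.s true (nat_lit 1) (nat_lit 28) (nat_lit 0) (nat_lit 2) (nat_lit 3) true (nat_lit 7) true (nat_lit 11) false (nat_lit 1) true (nat_lit 14) true (nat_lit 12) (.s true (nat_lit 2) (nat_lit 31) (nat_lit 1) (nat_lit 0) (nat_lit 3) true (nat_lit 6) true (nat_lit 11) false (nat_lit 2) true (nat_lit 13) true (nat_lit 14) (.e true (nat_lit 18) (nat_lit 161) (nat_lit 2) (nat_lit 12) (.e false (nat_lit 114) (nat_lit 126) (nat_lit 3) (nat_lit 11) (.e false (nat_lit 36) (nat_lit 129) (nat_lit 3) (nat_lit 11) (.e true (nat_lit 36) (nat_lit 130) (nat_lit 3) (nat_lit 11)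 (.e false (nat_lit 90) (nat_lit 56) (nat_lit 9) (nat_lit 5) (.e true (nat_lit 18) (nat_lit 60) (nat_lit 9) (nat_lit 5) (.e false (nat_lit 24) (nat_lit 122) (nat_lit 3) (nat_lit 11) (.e false (nat_lit 102) (nat_lit 131) (nat_lit 3) (nat_lit 11) (.e false (nat_lit 18) (nat_lit 132) (nat_lit 3) (nat_lit 11) (.e true (nat_lit 66) (nat_lit 134) (nat_lit 3) (nat_lit 11) (.e false (nat_lit 78) (nat_lit 135) (nat_lit 3) (nat_lit 11) (.e false (nat_lit 138) (nat_lit 139) (nat_lit 3) (nat_lit 11) (.e true (nat_lit 78) (nat_lit 117) (nat_lit 3) (nat_lit 11) (.e true (nat_lit 12) (nat_lit 118) (nat_lit 3) (nat_lit 11) (.e true (nat_lit 102) (nat_lit 120) (nat_lit 3) (nat_lit 11) (.e false (nat_lit 108) (nat_lit 121) (nat_lit 3) (nat_lit 11) (.e false (nat_lit 18) (nat_lit 123) (nat_lit 3) (nat_lit 11) (.e false (nat_lit 6) (nat_lit 124) (nat_lit 3) (nat_lit 11) (.e true (nat_lit 6) (nat_lit 133) (nat_lit 3) (nat_lit 11)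 (.e true (nat_lit 54) (nat_lit 151) (nat_lit 2) (nat_lit 12) (.e true (nat_lit 54) (nat_lit 152) (nat_lit 2) (nat_lit 12) dr2_i50)))))))))))))))))))))))))

noncomputable def dr2_i52 : IL := (.s false (nat_lit 1) (nat_lit 10) (nat_lit 0) (nat_lit 6) (nat_lit 3) true (nat_lit 7) true (nat_lit 11) true (nat_lit 4) true (nat_lit 14) true (nat_lit 8) (.s false (nat_lit 1) (nat_lit 10) (nat_lit 1) (nat_lit 9) (nat_lit 0) true (nat_lit 10) true (nat_lit 14) true (nat_lit 4) true (nat_lit 13) true (nat_lit 5) (.s true (nat_lit 3) (nat_lit 10) (nat_lit 2) (nat_lit 7) (nat_lit 1) true (nat_lit 8) true (nat_lit 13) true (nat_lit 4) true (nat_lit 12) true (nat_lit 7) (.s false (nat_lit 1) (nat_lit 10) (nat_lit 4) (nat_lit 2) (nat_lit 3) true (nat_lit 2) true (nat_lit 11) true (nat_lit 4) true (nat_lit 10) true (nat_lit 12) (.s true (nat_lit 2) (nat_lit 10) (nat_lit 6) (nat_lit 0) (nat_lit 3) true (nat_lit 0) true (nat_lit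 11) true (nat_lit 4) true (nat_lit 8) true (nat_lit 14) (.s false (nat_lit 2) (nat_lit 10) (nat_lit 6) (nat_lit 3) (nat_lit 0) true (nat_lit 3) true (nat_lit 14) true (nat_lit 4) true (nat_lit 8) true (nat_lit 11) (.s true (nat_lit 1) (nat_lit 10) (nat_lit 9) (nat_lit 0) (nat_lit 1) true (nat_lit 0) true (nat_lit 13) true (nat_lit 4) true (nat_lit 5) true (nat_lit 14) (.s false (nat_lit 2) (nat_lit 14) (nat_lit 3) (nat_lit 3) (nat_lit 3) true (nat_lit 4) true (nat_lit 11) true (nat_lit 3) true (nat_lit 11) true (nat_lit 11) (.s false (nat_lit 1) (nat_lit 16) (nat_lit 2) (nat_lit 3) (nat_lit 3) true (nat_lit 5) true (nat_lit 11) true (nat_lit 2) true (nat_lit 12) true (nat_lit 11) (.s false (nat_lit 2) (nat_lit 18) (nat_lit 2) (nat_lit 3) (nat_lit 3) true (nat_lit 5) true (nat_lit 11) true (nat_lit 2) true (nat_lit 12) true (nat_lit 11) (.s false (nat_lit 1) (nat_lit 16) (nat_lit 3) (nat_lit 2) (nat_lit 3)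 true (nat_lit 4) true (nat_lit 11) true (nat_lit 2) true (nat_lit 11) true (nat_lit 12) (.s false (nat_lit 1) (nat_lit 17) (nat_lit 3) (nat_lit 2) (nat_lit 3) true (nat_lit 4) true (nat_lit 11) true (nat_lit 2) true (nat_lit 11) true (nat_lit 12) (.s true (nat_lit 1) (nat_lit 16) (nat_lit 3) (nat_lit 3) (nat_lit 2) true (nat_lit 5) true (nat_lit 12) true (nat_lit 2) true (nat_lit 11) true (nat_lit 11) (.s true (nat_lit 1) (nat_lit 20) (nat_lit 1) (nat_lit 3) (nat_lit 3) true (nat_lit 6) true (nat_lit 11) true (nat_lit 1) true (nat_lit 13) true (nat_lit 11) (.s true (nat_lit 2) (nat_lit 21) (nat_lit 1) (nat_lit 3) (nat_lit 3) true (nat_lit 6) true (nat_lit 11) true (nat_lit 1) true (nat_lit 13) true (nat_lit 11) (.s false (nat_lit 2) (nat_lit 21) (nat_lit 3) (nat_lit 1) (nat_lit 3) true (nat_lit 4) true (nat_lit 11) true (nat_lit 1) true (nat_lit 11) true (nat_lit 13) (.s true (nat_lit 2) (nat_lit 22) (nat_lit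 3) (nat_lit 1) (nat_lit 3) true (nat_lit 4) true (nat_lit 11) true (nat_lit 1) true (nat_lit 11) true (nat_lit 13) (.s true (nat_lit 3) (nat_lit 23) (nat_lit 0) (nat_lit 3) (nat_lit 3) true (nat_lit 7) true (nat_lit 11) true (nat_lit 0) true (nat_lit 14) true (nat_lit 11) (.s false (nat_lit 1) (nat_lit 23) (nat_lit 3) (nat_lit 0) (nat_lit 3) true (nat_lit 4) true (nat_lit 11) true (nat_lit 0) true (nat_lit 11) true (nat_lit 14) (.s false (nat_lit 2) (nat_lit 24) (nat_lit 3) (nat_lit 3) (nat_lit 0) true (nat_lit 7) true (nat_lit 14) true (nat_lit 0) true (nat_lit 11) true (nat_lit 11) (.s false (nat_lit 2) (nat_lit 26) (nat_lit 1) (nat_lit 2) (nat_lit 3) true (nat_lit 6) true (nat_lit 11) false (nat_lit 0) true (nat_lit 13) true (nat_lit 12) (.s true (nat_lit 1) (nat_lit 27) (nat_lit 1) (nat_lit 2) (nat_lit 3) true (nat_lit 6) true (nat_lit 11) false (nat_lit 0) true (nat_lit 13) true (nat_lit 12) (.s true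 (nat_lit 2) (nat_lit 27) (nat_lit 1) (nat_lit 3) (nat_lit 2) true (nat_lit 8) true (nat_lit 12) false (nat_lit 0) true (nat_lit 13) true (nat_lit 11) (.s false (nat_lit 6) (nat_lit 26) (nat_lit 2) (nat_lit 1) (nat_lit 3) true (nat_lit 5) true (nat_lit 11) false (nat_lit 0) true (nat_lit 12) true (nat_lit 13) (.s false (nat_lit 1) (nat_lit 27) (nat_lit 2) (nat_lit 1) (nat_lit 3) true (nat_lit 5) true (nat_lit 11) false (nat_lit 0) true (nat_lit 12) true (nat_lit 13) dr2_i51)))))))))))))))))))))))))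

noncomputable def dr2_i53 : IL := (.e true (nat_lit 54) (nat_lit 129) (nat_lit 3) (nat_lit 11) (.e false (nat_lit 54) (nat_lit 130) (nat_lit 3) (nat_lit 11) (.e true (nat_lit 18) (nat_lit 55) (nat_lit 9) (nat_lit 5) (.e false (nat_lit 18) (nat_lit 56) (nat_lit 9) (nat_lit 5) (.e true (nat_lit 18) (nat_lit 60) (nat_lit 9) (nat_lit 5) (.e true (nat_lit 54) (nat_lit 131) (nat_lit 3) (nat_lit 11) (.e false (nat_lit 54) (nat_lit 134) (nat_lit 3) (nat_lit 11) (.e true (nat_lit 54) (nat_lit 135) (nat_lit 3) (nat_lit 11) (.e false (nat_lit 36) (nat_lit 133) (nat_lit 3) (nat_lit 11) (.e true (nat_lit 36) (nat_lit 151) (nat_lit 2) (nat_lit 12) (.e true (nat_lit 36) (nat_lit 152) (nat_lit 2) (nat_lit 12) (.e false (nat_lit 18) (nat_lit 155) (nat_lit 2) (nat_lit 12) (.e true (nat_lit 18) (nat_lit 156) (nat_lit 2) (nat_lit 12) (.e true (nat_lit 18) (nat_lit 154) (nat_lit 2) (nat_lit 12) (.e false (nat_lit 18) (nat_lit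 168) (nat_lit 1) (nat_lit 13) (.e true (nat_lit 18) (nat_lit 169) (nat_lit 1) (nat_lit 13) (.e true (nat_lit 18) (nat_lit 172) (nat_lit 1) (nat_lit 13) (.e false (nat_lit 18) (nat_lit 153) (nat_lit 2) (nat_lit 12) (.e false (nat_lit 18) (nat_lit 160) (nat_lit 2) (nat_lit 12) (.e true (nat_lit 18) (nat_lit 174) (nat_lit 1) (nat_lit 13) (.e false (nat_lit 18) (nat_lit 179) (nat_lit 0) (nat_lit 14) (.e true (nat_lit 18) (nat_lit 116) (nat_lit 3) (nat_lit 11) (.e false (nat_lit 18) (nat_lit 58) (nat_lit 9) (nat_lit 5) (.e true (nat_lit 18) (nat_lit 128) (nat_lit 3) (nat_lit 11) (.e true (nat_lit 18) (nat_lit 136) (nat_lit 3) (nat_lit 11) .nil)))))))))))))))))))))))))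

noncomputable def dr2_i54 : IL := (.e false (nat_lit 18) (nat_lit 135) (nat_lit 3) (nat_lit 11) (.e true (nat_lit 18) (nat_lit 161) (nat_lit 2) (nat_lit 12) (.e true (nat_lit 54) (nat_lit 125) (nat_lit 3) (nat_lit 11) (.e false (nat_lit 18) (nat_lit 129) (nat_lit 3) (nat_lit 11) (.e true (nat_lit 36) (nat_lit 130) (nat_lit 3) (nat_lit 11) (.e false (nat_lit 54) (nat_lit 151) (nat_lit 2) (nat_lit 12) (.e false (nat_lit 126) (nat_lit 152) (nat_lit 2) (nat_lit 12) (.e true (nat_lit 54) (nat_lit 155) (nat_lit 2) (nat_lit 12) (.e false (nat_lit 36) (nat_lit 156) (nat_lit 2) (nat_lit 12) (.e false (nat_lit 72) (nat_lit 154) (nat_lit 2) (nat_lit 12) (.e false (nat_lit 18) (nat_lit 157) (nat_lit 2) (nat_lit 12) (.e true (nat_lit 36) (nat_lit 158) (nat_lit 2) (nat_lit 12) (.e true (nat_lit 18) (nat_lit 177) (nat_lit 1) (nat_lit 13) (.e true (nat_lit 18) (nat_lit 168) (nat_lit 1) (nat_lit 13) (.e false (nat_lit 36)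 (nat_lit 170) (nat_lit 1) (nat_lit 13) (.e false (nat_lit 18) (nat_lit 136) (nat_lit 3) (nat_lit 11) (.e false (nat_lit 18) (nat_lit 178) (nat_lit 0) (nat_lit 14) (.e false (nat_lit 18) (nat_lit 169) (nat_lit 1) (nat_lit 13) (.e true (nat_lit 18) (nat_lit 172) (nat_lit 1) (nat_lit 13) (.e false (nat_lit 18) (nat_lit 176) (nat_lit 1) (nat_lit 13) (.e true (nat_lit 54) (nat_lit 153) (nat_lit 2) (nat_lit 12) (.e true (nat_lit 36) (nat_lit 160) (nat_lit 2) (nat_lit 12) (.e true (nat_lit 18) (nat_lit 127) (nat_lit 3) (nat_lit 11) (.e true (nat_lit 18) (nat_lit 57) (nat_lit 9) (nat_lit 5) (.e true (nat_lit 36) (nat_lit 167) (nat_lit 1) (nat_lit 13) .nil)))))))))))))))))))))))))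

noncomputable def dr2_i55 : IL := (.s true (nat_lit 1) (nat_lit 10) (nat_lit 1) (nat_lit 9) (nat_lit 0) true (nat_lit 10) true (nat_lit 14) true (nat_lit 4) true (nat_lit 13) true (nat_lit 5) (.s false (nat_lit 1) (nat_lit 10) (nat_lit 2) (nat_lit 7) (nat_lit 1) true (nat_lit 8) true (nat_lit 13) true (nat_lit 4) true (nat_lit 12) true (nat_lit 7) (.s true (nat_lit 1) (nat_lit 10) (nat_lit 4) (nat_lit 2) (nat_lit 3) true (nat_lit 2) true (nat_lit 11) true (nat_lit 4) true (nat_lit 10) true (nat_lit 12) (.s true (nat_lit 1) (nat_lit 10) (nat_lit 9) (nat_lit 0) (nat_lit 1) true (nat_lit 0) true (nat_lit 13) true (nat_lit 4) true (nat_lit 5) true (nat_lit 14) (.s true (nat_lit 1) (nat_lit 16) (nat_lit 2) (nat_lit 3) (nat_lit 3) true (nat_lit 5) true (nat_lit 11) true (nat_lit 2) true (nat_lit 12) true (nat_lit 11) (.s true (nat_lit 1) (nat_lit 16) (nat_lit 3) (nat_lit 2) (nat_lit 3) true (nat_lit 4) true (nat_lit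 11) true (nat_lit 2) true (nat_lit 11) true (nat_lit 12) (.s true (nat_lit 1) (nat_lit 17) (nat_lit 3) (nat_lit 2) (nat_lit 3) true (nat_lit 4) true (nat_lit 11) true (nat_lit 2) true (nat_lit 11) true (nat_lit 12) (.s true (nat_lit 1) (nat_lit 16) (nat_lit 3) (nat_lit 3) (nat_lit 2) true (nat_lit 5) true (nat_lit 12) true (nat_lit 2) true (nat_lit 11) true (nat_lit 11) (.s true (nat_lit 1) (nat_lit 23) (nat_lit 0) (nat_lit 3) (nat_lit 3) true (nat_lit 7) true (nat_lit 11) true (nat_lit 0) true (nat_lit 14) true (nat_lit 11) (.s false (nat_lit 1) (nat_lit 23) (nat_lit 3) (nat_lit 0) (nat_lit 3) true (nat_lit 4) true (nat_lit 11) true (nat_lit 0) true (nat_lit 11) true (nat_lit 14) (.s true (nat_lit 1) (nat_lit 27) (nat_lit 1) (nat_lit 2) (nat_lit 3) true (nat_lit 6) true (nat_lit 11) false (nat_lit 0) true (nat_lit 13) true (nat_lit 12) (.s false (nat_lit 2) (nat_lit 26) (nat_lit 1) (nat_lit 3) (nat_lit 2)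 true (nat_lit 8) true (nat_lit 12) false (nat_lit 0) true (nat_lit 13) true (nat_lit 11) (.s true (nat_lit 1) (nat_lit 27) (nat_lit 2) (nat_lit 1) (nat_lit 3) true (nat_lit 5) true (nat_lit 11) false (nat_lit 0) true (nat_lit 12) true (nat_lit 13) (.s false (nat_lit 2) (nat_lit 26) (nat_lit 2) (nat_lit 3) (nat_lit 1) true (nat_lit 8) true (nat_lit 13) false (nat_lit 0) true (nat_lit 12) true (nat_lit 11) (.s true (nat_lit 1) (nat_lit 27) (nat_lit 2) (nat_lit 3) (nat_lit 1) true (nat_lit 8) true (nat_lit 13) false (nat_lit 0) true (nat_lit 12) true (nat_lit 11) (.s false (nat_lit 1) (nat_lit 26) (nat_lit 3) (nat_lit 1) (nat_lit 2) true (nat_lit 5) true (nat_lit 12) false (nat_lit 0) true (nat_lit 11) true (nat_lit 13) (.e true (nat_lit 18) (nat_lit 117) (nat_lit 3) (nat_lit 11) (.e true (nat_lit 18) (nat_lit 124) (nat_lit 3) (nat_lit 11) (.e false (nat_lit 54) (nat_lit 139) (nat_lit 3) (nat_lit 11) (.e true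 (nat_lit 36) (nat_lit 55) (nat_lit 9) (nat_lit 5) (.e true (nat_lit 54) (nat_lit 56) (nat_lit 9) (nat_lit 5) (.e true (nat_lit 18) (nat_lit 60) (nat_lit 9) (nat_lit 5) (.e true (nat_lit 54) (nat_lit 126) (nat_lit 3) (nat_lit 11) (.e false (nat_lit 18) (nat_lit 131) (nat_lit 3) (nat_lit 11) (.e true (nat_lit 36) (nat_lit 134) (nat_lit 3) (nat_lit 11) dr2_i54)))))))))))))))))))))))))

noncomputable def dr2_i56 : IL := (.e false (nat_lit 18) (nat_lit 125) (nat_lit 3) (nat_lit 11) (.e false (nat_lit 18) (nat_lit 126) (nat_lit 3) (nat_lit 11) (.e true (nat_lit 18) (nat_lit 129) (nat_lit 3) (nat_lit 11) (.e false (nat_lit 18) (nat_lit 130) (nat_lit 3) (nat_lit 11) (.e true (nat_lit 54) (nat_lit 152) (nat_lit 2) (nat_lit 12) (.e true (nat_lit 18) (nat_lit 157) (nat_lit 2) (nat_lit 12) (.e false (nat_lit 18) (nat_lit 158) (nat_lit 2) (nat_lit 12) (.e false (nat_lit 36) (nat_lit 161) (nat_lit 2) (nat_lit 12) (.e true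 (nat_lit 18) (nat_lit 131) (nat_lit 3) (nat_lit 11) (.e true (nat_lit 18) (nat_lit 132) (nat_lit 3) (nat_lit 11) (.e false (nat_lit 18) (nat_lit 134) (nat_lit 3) (nat_lit 11) (.e true (nat_lit 18) (nat_lit 135) (nat_lit 3) (nat_lit 11) (.e false (nat_lit 18) (nat_lit 56) (nat_lit 9) (nat_lit 5) (.e false (nat_lit 18) (nat_lit 168) (nat_lit 1) (nat_lit 13) (.e false (nat_lit 36) (nat_lit 170) (nat_lit 1) (nat_lit 13) (.e true (nat_lit 18) (nat_lit 173) (nat_lit 1) (nat_lit 13) (.e true (nat_lit 18) (nat_lit 174) (nat_lit 1) (nat_lit 13) (.e false (nat_lit 36) (nat_lit 177) (nat_lit 1) (nat_lit 13) (.e false (nat_lit 18) (nat_lit 133) (nat_lit 3) (nat_lit 11) (.e false (nat_lit 18) (nat_lit 128) (nat_lit 3) (nat_lit 11) (.e false (nat_lit 36) (nat_lit 58) (nat_lit 9) (nat_lit 5) (.e true (nat_lit 36) (nat_lit 151) (nat_lit 2) (nat_lit 12) (.e false (nat_lit 36) (nat_lit 153) (nat_lit 2) (nat_lit 12) (.e false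 (nat_lit 36) (nat_lit 160) (nat_lit 2) (nat_lit 12) (.e true (nat_lit 36) (nat_lit 139) (nat_lit 3) (nat_lit 11) .nil)))))))))))))))))))))))))

noncomputable def dr2_i57 : IL := (.e true (nat_lit 18) (nat_lit 135) (nat_lit 3) (nat_lit 11) (.e false (nat_lit 18) (nat_lit 120) (nat_lit 3) (nat_lit 11) (.e true (nat_lit 18) (nat_lit 121) (nat_lit 3) (nat_lit 11) (.e false (nat_lit 18) (nat_lit 124) (nat_lit 3) (nat_lit 11) (.e true (nat_lit 36) (nat_lit 151) (nat_lit 2) (nat_lit 12) (.e true (nat_lit 36) (nat_lit 152) (nat_lit 2) (nat_lit 12) (.e false (nat_lit 36) (nat_lit 155) (nat_lit 2) (nat_lit 12) (.e true (nat_lit 72) (nat_lit 156) (nat_lit 2) (nat_lit 12) (.e false (nat_lit 36) (nat_lit 157) (nat_lit 2) (nat_lit 12) (.e true (nat_lit 18) (nat_lit 177) (nat_lit 1) (nat_lit 13) (.e true (nat_lit 36) (nat_lit 128) (nat_lit 3) (nat_lit 11) (.e false (nat_lit 18) (nat_lit 136) (nat_lit 3) (nat_lit 11) (.e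 true (nat_lit 18) (nat_lit 168) (nat_lit 1) (nat_lit 13) (.e false (nat_lit 18) (nat_lit 169) (nat_lit 1) (nat_lit 13) (.e true (nat_lit 18) (nat_lit 170) (nat_lit 1) (nat_lit 13) (.e false (nat_lit 18) (nat_lit 172) (nat_lit 1) (nat_lit 13) (.e false (nat_lit 18) (nat_lit 173) (nat_lit 1) (nat_lit 13) (.e false (nat_lit 18) (nat_lit 176) (nat_lit 1) (nat_lit 13) (.e true (nat_lit 36) (nat_lit 153) (nat_lit 2) (nat_lit 12) (.e true (nat_lit 18) (nat_lit 179) (nat_lit 0) (nat_lit 14) (.e false (nat_lit 18) (nat_lit 183) (nat_lit 0) (nat_lit 14) (.e false (nat_lit 18) (nat_lit 174) (nat_lit 1) (nat_lit 13) (.e false (nat_lit 18) (nat_lit 115) (nat_lit 3) (nat_lit 11) (.e true (nat_lit 36) (nat_lit 58) (nat_lit 9) (nat_lit 5) (.e false (nat_lit 36) (nat_lit 159) (nat_lit 2) (nat_lit 12) .nil)))))))))))))))))))))))))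

noncomputable def dr2_i58 : IL := (.e true (nat_lit 12) (nat_lit 126) (nat_lit 3) (nat_lit 11) (.e true (nat_lit 18) (nat_lit 129) (nat_lit 3) (nat_lit 11) (.e false (nat_lit 36) (nat_lit 130) (nat_lit 3) (nat_lit 11) (.e false (nat_lit 18) (nat_lit 132) (nat_lit 3) (nat_lit 11) (.e true (nat_lit 6) (nat_lit 133) (nat_lit 3) (nat_lit 11) (.e false (nat_lit 36) (nat_lit 151) (nat_lit 2) (nat_lit 12) (.e false (nat_lit 18) (nat_lit 152) (nat_lit 2) (nat_lit 12) (.e true (nat_lit 18) (nat_lit 155) (nat_lit 2) (nat_lit 12) (.e false (nat_lit 36) (nat_lit 156) (nat_lit 2) (nat_lit 12) (.e true (nat_lit 18) (nat_lit 154) (nat_lit 2) (nat_lit 12) (.e false (nat_lit 18) (nat_lit 59) (nat_lit 9) (nat_lit 5) (.e true (nat_lit 18) (nat_lit 60) (nat_lit 9) (nat_lit 5) (.e true (nat_lit 12) (nat_lit 136) (nat_lit 3) (nat_lit 11) (.e true (nat_lit 6) (nat_lit 138) (nat_lit 3) (nat_lit 11) (.e false (nat_lit 24) (nat_lit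 115) (nat_lit 3) (nat_lit 11) (.e false (nat_lit 24) (nat_lit 116) (nat_lit 3) (nat_lit 11) (.e true (nat_lit 6) (nat_lit 127) (nat_lit 3) (nat_lit 11) (.e true (nat_lit 24) (nat_lit 131) (nat_lit 3) (nat_lit 11) (.e false (nat_lit 42) (nat_lit 134) (nat_lit 3) (nat_lit 11) (.e true (nat_lit 12) (nat_lit 135) (nat_lit 3) (nat_lit 11) (.e true (nat_lit 36) (nat_lit 177) (nat_lit 1) (nat_lit 13) (.e false (nat_lit 18) (nat_lit 168) (nat_lit 1) (nat_lit 13) (.e true (nat_lit 18) (nat_lit 176) (nat_lit 1) (nat_lit 13) (.e true (nat_lit 18) (nat_lit 57) (nat_lit 9) (nat_lit 5) (.e true (nat_lit 36) (nat_lit 128) (nat_lit 3) (nat_lit 11) .nil)))))))))))))))))))))))))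

noncomputable def dr2_i59 : IL := (.s true (nat_lit 1) (nat_lit 7) (nat_lit 6) (nat_lit 3) (nat_lit 3) true (nat_lit 0) true (nat_lit 11) true (nat_lit 7) true (nat_lit 8) true (nat_lit 11) (.s true (nat_lit 1) (nat_lit 8) (nat_lit 2) (nat_lit 3) (nat_lit 7) true (nat_lit 1) true (nat_lit 7) true (nat_lit 6) true (nat_lit 12) true (nat_lit 11) (.s true (nat_lit 1) (nat_lit 8) (nat_lit 3) (nat_lit 2) (nat_lit 7) false (nat_lit 0) true (nat_lit 7) true (nat_lit 6) true (nat_lit 11) true (nat_lit 12) (.s false (nat_lit 1) (nat_lit 8) (nat_lit 7) (nat_lit 2) (nat_lit 3) false (nat_lit 0) true (nat_lit 11) true (nat_lit 6) true (nat_lit 7) true (nat_lit 12) (.s true (nat_lit 1) (nat_lit 9) (nat_lit 0) (nat_lit 3) (nat_lit 8) true (nat_lit 2) true (nat_lit 6) true (nat_lit 5) true (nat_lit 14) true (nat_lit 11) (.s true (nat_lit 1) (nat_lit 9) (nat_lit 1) (nat_lit 7) (nat_lit 3) true (nat_lit 6) true (nat_lit 11)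 true (nat_lit 5) true (nat_lit 13) true (nat_lit 7) (.s true (nat_lit 1) (nat_lit 10) (nat_lit 2) (nat_lit 7) (nat_lit 1) true (nat_lit 8) true (nat_lit 13) true (nat_lit 4) true (nat_lit 12) true (nat_lit 7) (.s true (nat_lit 1) (nat_lit 18) (nat_lit 2) (nat_lit 3) (nat_lit 3) true (nat_lit 5) true (nat_lit 11) true (nat_lit 2) true (nat_lit 12) true (nat_lit 11) (.s false (nat_lit 1) (nat_lit 16) (nat_lit 3) (nat_lit 3) (nat_lit 2) true (nat_lit 5) true (nat_lit 12) true (nat_lit 2) true (nat_lit 11) true (nat_lit 11) (.s false (nat_lit 1) (nat_lit 20) (nat_lit 1) (nat_lit 3) (nat_lit 3) true (nat_lit 6) true (nat_lit 11) true (nat_lit 1) true (nat_lit 13) true (nat_lit 11) (.s false (nat_lit 1) (nat_lit 21) (nat_lit 3) (nat_lit 1) (nat_lit 3) true (nat_lit 4) true (nat_lit 11) true (nat_lit 1) true (nat_lit 11) true (nat_lit 13) (.s true (nat_lit 1) (nat_lit 26) (nat_lit 1) (nat_lit 2) (nat_lit 3) true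 (nat_lit 6) true (nat_lit 11) false (nat_lit 0) true (nat_lit 13) true (nat_lit 12) (.s false (nat_lit 1) (nat_lit 28) (nat_lit 0) (nat_lit 2) (nat_lit 3) true (nat_lit 7) true (nat_lit 11) false (nat_lit 1) true (nat_lit 14) true (nat_lit 12) (.s false (nat_lit 1) (nat_lit 31) (nat_lit 1) (nat_lit 0) (nat_lit 3) true (nat_lit 6) true (nat_lit 11) false (nat_lit 2) true (nat_lit 13) true (nat_lit 14) (.e false (nat_lit 30) (nat_lit 117) (nat_lit 3) (nat_lit 11) (.e false (nat_lit 6) (nat_lit 118) (nat_lit 3) (nat_lit 11) (.e true (nat_lit 12) (nat_lit 119) (nat_lit 3) (nat_lit 11) (.e false (nat_lit 42) (nat_lit 120) (nat_lit 3) (nat_lit 11) (.e true (nat_lit 18) (nat_lit 121) (nat_lit 3) (nat_lit 11) (.e true (nat_lit 12) (nat_lit 122) (nat_lit 3) (nat_lit 11) (.e true (nat_lit 18) (nat_lit 123) (nat_lit 3) (nat_lit 11) (.e true (nat_lit 30) (nat_lit 124) (nat_lit 3) (nat_lit 11) (.e true (nat_lit 78) (nat_lit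 139) (nat_lit 3) (nat_lit 11) (.e false (nat_lit 18) (nat_lit 65) (nat_lit 8) (nat_lit 6) (.e false (nat_lit 18) (nat_lit 125) (nat_lit 3) (nat_lit 11) dr2_i58)))))))))))))))))))))))))

noncomputable def dr2_i60 : IL := (.s true (nat_lit 1) (nat_lit 30) (nat_lit 1) (nat_lit 3) (nat_lit 0) true (nat_lit 10) true (nat_lit 14) false (nat_lit 2) true (nat_lit 13) true (nat_lit 11) (.e false (nat_lit 18) (nat_lit 116) (nat_lit 3) (nat_lit 11) (.e true (nat_lit 18) (nat_lit 122) (nat_lit 3) (nat_lit 11) (.e true (nat_lit 18) (nat_lit 124) (nat_lit 3) (nat_lit 11) (.e true (nat_lit 18) (nat_lit 127) (nat_lit 3) (nat_lit 11) (.e false (nat_lit 18) (nat_lit 135) (nat_lit 3) (nat_lit 11) (.e false (nat_lit 36) (nat_lit 55) (nat_lit 9) (nat_lit 5) (.e false (nat_lit 18) (nat_lit 125) (nat_lit 3) (nat_lit 11) (.e true (nat_lit 36) (nat_lit 152) (nat_lit 2) (nat_lit 12) (.e false (nat_lit 36) (nat_lit 153) (nat_lit 2)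 (nat_lit 12) (.e true (nat_lit 36) (nat_lit 154) (nat_lit 2) (nat_lit 12) (.e false (nat_lit 36) (nat_lit 156) (nat_lit 2) (nat_lit 12) (.e true (nat_lit 18) (nat_lit 57) (nat_lit 9) (nat_lit 5) (.e true (nat_lit 18) (nat_lit 155) (nat_lit 2) (nat_lit 12) (.e false (nat_lit 18) (nat_lit 157) (nat_lit 2) (nat_lit 12) (.e false (nat_lit 18) (nat_lit 158) (nat_lit 2) (nat_lit 12) (.e false (nat_lit 18) (nat_lit 159) (nat_lit 2) (nat_lit 12) (.e false (nat_lit 18) (nat_lit 160) (nat_lit 2) (nat_lit 12) (.e false (nat_lit 18) (nat_lit 151) (nat_lit 2) (nat_lit 12) (.e true (nat_lit 18) (nat_lit 183) (nat_lit 0) (nat_lit 14) (.e false (nat_lit 18) (nat_lit 168) (nat_lit 1) (nat_lit 13) (.e false (nat_lit 18) (nat_lit 170) (nat_lit 1) (nat_lit 13) (.e true (nat_lit 18) (nat_lit 173) (nat_lit 1) (nat_lit 13) (.e true (nat_lit 18) (nat_lit 174) (nat_lit 1) (nat_lit 13) (.e false (nat_lit 18) (nat_lit 177) (nat_lit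 1) (nat_lit 13) .nil)))))))))))))))))))))))))

noncomputable def dr2_i61 : IL := (.e true (nat_lit 18) (nat_lit 68) (nat_lit 8) (nat_lit 6) (.e true (nat_lit 36) (nat_lit 161) (nat_lit 2) (nat_lit 12) (.e true (nat_lit 36) (nat_lit 125) (nat_lit 3) (nat_lit 11) (.e true (nat_lit 36) (nat_lit 126) (nat_lit 3) (nat_lit 11) (.e false (nat_lit 18) (nat_lit 129) (nat_lit 3) (nat_lit 11) (.e true (nat_lit 36) (nat_lit 130) (nat_lit 3) (nat_lit 11) (.e true (nat_lit 36) (nat_lit 56) (nat_lit 9) (nat_lit 5) (.e false (nat_lit 36) (nat_lit 131) (nat_lit 3) (nat_lit 11) (.e true (nat_lit 36) (nat_lit 134) (nat_lit 3) (nat_lit 11) (.e false (nat_lit 36) (nat_lit 135) (nat_lit 3) (nat_lit 11) (.e true (nat_lit 36) (nat_lit 133) (nat_lit 3) (nat_lit 11) (.e false (nat_lit 36) (nat_lit 151) (nat_lit 2) (nat_lit 12) (.e false (nat_lit 54) (nat_lit 152) (nat_lit 2) (nat_lit 12) (.e true (nat_lit 18) (nat_lit 155) (nat_lit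 2) (nat_lit 12) (.e true (nat_lit 18) (nat_lit 156) (nat_lit 2) (nat_lit 12) (.e false (nat_lit 18) (nat_lit 154) (nat_lit 2) (nat_lit 12) (.e false (nat_lit 36) (nat_lit 157) (nat_lit 2) (nat_lit 12) (.e true (nat_lit 36) (nat_lit 177) (nat_lit 1) (nat_lit 13) (.e false (nat_lit 18) (nat_lit 173) (nat_lit 1) (nat_lit 13) (.e true (nat_lit 54) (nat_lit 153) (nat_lit 2) (nat_lit 12) (.e true (nat_lit 36) (nat_lit 160) (nat_lit 2) (nat_lit 12) (.e false (nat_lit 18) (nat_lit 174) (nat_lit 1) (nat_lit 13) (.e true (nat_lit 36) (nat_lit 58) (nat_lit 9) (nat_lit 5) (.e false (nat_lit 18) (nat_lit 159) (nat_lit 2) (nat_lit 12) (.e false (nat_lit 18) (nat_lit 84) (nat_lit 4) (nat_lit 10) .nil)))))))))))))))))))))))))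

noncomputable def dr2_i62 : IL := (.e true (nat_lit 30) (nat_lit 133) (nat_lit 3) (nat_lit 11) (.e false (nat_lit 60) (nat_lit 139) (nat_lit 3) (nat_lit 11) (.e false (nat_lit 18) (nat_lit 155) (nat_lit 2) (nat_lit 12) (.e true (nat_lit 36) (nat_lit 156) (nat_lit 2) (nat_lit 12) (.e true (nat_lit 24) (nat_lit 126) (nat_lit 3) (nat_lit 11) (.e true (nat_lit 36) (nat_lit 154) (nat_lit 2) (nat_lit 12) (.e false (nat_lit 36) (nat_lit 157) (nat_lit 2) (nat_lit 12) (.e true (nat_lit 36) (nat_lit 161) (nat_lit 2) (nat_lit 12) (.e true (nat_lit 6) (nat_lit 115) (nat_lit 3) (nat_lit 11) (.e false (nat_lit 12) (nat_lit 116) (nat_lit 3) (nat_lit 11) (.e false (nat_lit 12) (nat_lit 119) (nat_lit 3) (nat_lit 11) (.e true (nat_lit 12) (nat_lit 127) (nat_lit 3) (nat_lit 11) (.e true (nat_lit 12) (nat_lit 131) (nat_lit 3) (nat_lit 11) (.e true (nat_lit 6) (nat_lit 134) (nat_lit 3) (nat_lit 11) (.e false (nat_lit 12) (nat_lit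 135) (nat_lit 3) (nat_lit 11) (.e true (nat_lit 6) (nat_lit 136) (nat_lit 3) (nat_lit 11) (.e true (nat_lit 18) (nat_lit 137) (nat_lit 3) (nat_lit 11) (.e false (nat_lit 6) (nat_lit 138) (nat_lit 3) (nat_lit 11) (.e true (nat_lit 18) (nat_lit 57) (nat_lit 9) (nat_lit 5) (.e false (nat_lit 18) (nat_lit 176) (nat_lit 1) (nat_lit 13) (.e true (nat_lit 36) (nat_lit 58) (nat_lit 9) (nat_lit 5) (.e true (nat_lit 18) (nat_lit 153) (nat_lit 2) (nat_lit 12) (.e true (nat_lit 18) (nat_lit 160) (nat_lit 2) (nat_lit 12) (.e true (nat_lit 36) (nat_lit 170) (nat_lit 1) (nat_lit 13) (.e false (nat_lit 18) (nat_lit 159) (nat_lit 2) (nat_lit 12) .nil)))))))))))))))))))))))))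

noncomputable def dr2_i63 : IL := (.e false (nat_lit 18) (nat_lit 131) (nat_lit 3) (nat_lit 11) (.e true (nat_lit 18) (nat_lit 134) (nat_lit 3) (nat_lit 11) (.e false (nat_lit 18) (nat_lit 135) (nat_lit 3) (nat_lit 11) (.e false (nat_lit 54) (nat_lit 139) (nat_lit 3) (nat_lit 11) (.e true (nat_lit 36) (nat_lit 161) (nat_lit 2) (nat_lit 12) (.e true (nat_lit 18) (nat_lit 64) (nat_lit 8) (nat_lit 6) (.e false (nat_lit 18) (nat_lit 68) (nat_lit 8) (nat_lit 6) (.e true (nat_lit 18) (nat_lit 117) (nat_lit 3) (nat_lit 11) (.e true (nat_lit 18) (nat_lit 118) (nat_lit 3) (nat_lit 11) (.e true (nat_lit 18) (nat_lit 120) (nat_lit 3) (nat_lit 11) (.e false (nat_lit 18) (nat_lit 121) (nat_lit 3) (nat_lit 11) (.e false (nat_lit 18) (nat_lit 123) (nat_lit 3) (nat_lit 11) (.e false (nat_lit 18) (nat_lit 124) (nat_lit 3) (nat_lit 11) (.e true (nat_lit 18) (nat_lit 125) (nat_lit 3) (nat_lit 11) (.e false (nat_lit 18) (nat_lit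 129) (nat_lit 3) (nat_lit 11) (.e true (nat_lit 18) (nat_lit 130) (nat_lit 3) (nat_lit 11) (.e true (nat_lit 18) (nat_lit 133) (nat_lit 3) (nat_lit 11) (.e false (nat_lit 18) (nat_lit 155) (nat_lit 2) (nat_lit 12) (.e true (nat_lit 18) (nat_lit 156) (nat_lit 2) (nat_lit 12) (.e true (nat_lit 18) (nat_lit 58) (nat_lit 9) (nat_lit 5) (.e true (nat_lit 18) (nat_lit 153) (nat_lit 2) (nat_lit 12) (.e true (nat_lit 18) (nat_lit 154) (nat_lit 2) (nat_lit 12) (.e false (nat_lit 18) (nat_lit 157) (nat_lit 2) (nat_lit 12) (.e true (nat_lit 18) (nat_lit 160) (nat_lit 2) (nat_lit 12) (.e true (nat_lit 18) (nat_lit 170) (nat_lit 1) (nat_lit 13) .nil)))))))))))))))))))))))))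

noncomputable def dr2_i64 : IL := (.e true (nat_lit 36) (nat_lit 135) (nat_lit 3) (nat_lit 11) (.e true (nat_lit 18) (nat_lit 119) (nat_lit 3) (nat_lit 11) (.e true (nat_lit 36) (nat_lit 151) (nat_lit 2) (nat_lit 12) (.e true (nat_lit 54) (nat_lit 152) (nat_lit 2) (nat_lit 12) (.e false (nat_lit 18) (nat_lit 153) (nat_lit 2) (nat_lit 12) (.e true (nat_lit 18) (nat_lit 154) (nat_lit 2) (nat_lit 12) (.e false (nat_lit 36) (nat_lit 155) (nat_lit 2) (nat_lit 12) (.e true (nat_lit 18) (nat_lit 156) (nat_lit 2) (nat_lit 12) (.e false (nat_lit 18) (nat_lit 158) (nat_lit 2) (nat_lit 12) (.e false (nat_lit 18) (nat_lit 160) (nat_lit 2) (nat_lit 12) (.e false (nat_lit 36) (nat_lit 126) (nat_lit 3) (nat_lit 11) (.e false (nat_lit 36) (nat_lit 125) (nat_lit 3) (nat_lit 11) (.e true (nat_lit 36) (nat_lit 129) (nat_lit 3) (nat_lit 11) (.e false (nat_lit 36) (nat_lit 130) (nat_lit 3) (nat_lit 11) (.e true (nat_lit 36) (nat_lit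 139) (nat_lit 3) (nat_lit 11) (.e false (nat_lit 18) (nat_lit 115) (nat_lit 3) (nat_lit 11) (.e true (nat_lit 18) (nat_lit 118) (nat_lit 3) (nat_lit 11) (.e false (nat_lit 18) (nat_lit 122) (nat_lit 3) (nat_lit 11) (.e false (nat_lit 18) (nat_lit 123) (nat_lit 3) (nat_lit 11) (.e false (nat_lit 18) (nat_lit 124) (nat_lit 3) (nat_lit 11) (.e false (nat_lit 18) (nat_lit 68) (nat_lit 8) (nat_lit 6) (.e true (nat_lit 18) (nat_lit 173) (nat_lit 1) (nat_lit 13) (.e true (nat_lit 18) (nat_lit 128) (nat_lit 3) (nat_lit 11) (.e false (nat_lit 18) (nat_lit 133) (nat_lit 3) (nat_lit 11) (.e true (nat_lit 18) (nat_lit 136) (nat_lit 3) (nat_lit 11) .nil)))))))))))))))))))))))))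

noncomputable def dr2_i65 : IL := (.e false (nat_lit 18) (nat_lit 126) (nat_lit 3) (nat_lit 11) (.e false (nat_lit 36) (nat_lit 152) (nat_lit 2) (nat_lit 12) (.e true (nat_lit 18) (nat_lit 157) (nat_lit 2) (nat_lit 12) (.e true (nat_lit 18) (nat_lit 158) (nat_lit 2) (nat_lit 12) (.e false (nat_lit 18) (nat_lit 132) (nat_lit 3) (nat_lit 11) (.e false (nat_lit 18) (nat_lit 56) (nat_lit 9) (nat_lit 5) (.e false (nat_lit 18) (nat_lit 168) (nat_lit 1) (nat_lit 13) (.e true (nat_lit 18) (nat_lit 173) (nat_lit 1) (nat_lit 13) (.e true (nat_lit 18) (nat_lit 174) (nat_lit 1) (nat_lit 13) (.e false (nat_lit 18) (nat_lit 133) (nat_lit 3) (nat_lit 11) (.e true (nat_lit 18) (nat_lit 136) (nat_lit 3) (nat_lit 11) (.e false (nat_lit 18) (nat_lit 58) (nat_lit 9) (nat_lit 5) (.e false (nat_lit 18) (nat_lit 127) (nat_lit 3) (nat_lit 11) (.e false (nat_lit 18) (nat_lit 128) (nat_lit 3) (nat_lit 11) (.e false (nat_lit 36) (nat_lit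 178) (nat_lit 0) (nat_lit 14) (.e false (nat_lit 36) (nat_lit 179) (nat_lit 0) (nat_lit 14) (.e true (nat_lit 18) (nat_lit 182) (nat_lit 0) (nat_lit 14) (.e false (nat_lit 36) (nat_lit 183) (nat_lit 0) (nat_lit 14) (.e true (nat_lit 18) (nat_lit 186) (nat_lit 0) (nat_lit 14) (.e true (nat_lit 18) (nat_lit 159) (nat_lit 2) (nat_lit 12) (.e true (nat_lit 36) (nat_lit 55) (nat_lit 9) (nat_lit 5) (.e false (nat_lit 18) (nat_lit 57) (nat_lit 9) (nat_lit 5) (.e false (nat_lit 18) (nat_lit 59) (nat_lit 9) (nat_lit 5) (.e true (nat_lit 18) (nat_lit 60) (nat_lit 9) (nat_lit 5) (.e false (nat_lit 18) (nat_lit 138) (nat_lit 3) (nat_lit 11) .nil)))))))))))))))))))))))))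

noncomputable def dr2_i66 : IL := (.s true (nat_lit 1) (nat_lit 23) (nat_lit 3) (nat_lit 0) (nat_lit 3) true (nat_lit 4) true (nat_lit 11) true (nat_lit 0) true (nat_lit 11) true (nat_lit 14) (.s true (nat_lit 1) (nat_lit 26) (nat_lit 2) (nat_lit 1) (nat_lit 3) true (nat_lit 5) true (nat_lit 11) false (nat_lit 0) true (nat_lit 12) true (nat_lit 13) (.s true (nat_lit 1) (nat_lit 32) (nat_lit 1) (nat_lit 2) (nat_lit 0) true (nat_lit 10) true (nat_lit 14) false (nat_lit 3) true (nat_lit 13) true (nat_lit 12) (.e false (nat_lit 18) (nat_lit 117) (nat_lit 3) (nat_lit 11) (.e false (nat_lit 18) (nat_lit 124) (nat_lit 3) (nat_lit 11) (.e true (nat_lit 18) (nat_lit 139) (nat_lit 3) (nat_lit 11) (.e false (nat_lit 18) (nat_lit 179) (nat_lit 0) (nat_lit 14) (.e true (nat_lit 18) (nat_lit 180) (nat_lit 0) (nat_lit 14) (.e false (nat_lit 18) (nat_lit 181) (nat_lit 0) (nat_lit 14) (.e true (nat_lit 18) (nat_lit 183) (nat_lit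 0) (nat_lit 14) (.e true (nat_lit 18) (nat_lit 133) (nat_lit 3) (nat_lit 11) (.e true (nat_lit 18) (nat_lit 136) (nat_lit 3) (nat_lit 11) (.e true (nat_lit 18) (nat_lit 178) (nat_lit 0) (nat_lit 14) (.e true (nat_lit 18) (nat_lit 58) (nat_lit 9) (nat_lit 5) (.e true (nat_lit 18) (nat_lit 161) (nat_lit 2) (nat_lit 12) (.e false (nat_lit 18) (nat_lit 167) (nat_lit 1) (nat_lit 13) (.e false (nat_lit 36) (nat_lit 168) (nat_lit 1) (nat_lit 13) (.e true (nat_lit 36) (nat_lit 169) (nat_lit 1) (nat_lit 13) (.e false (nat_lit 18) (nat_lit 173) (nat_lit 1) (nat_lit 13) (.e true (nat_lit 36) (nat_lit 176) (nat_lit 1) (nat_lit 13) (.e true (nat_lit 18) (nat_lit 177) (nat_lit 1) (nat_lit 13) (.e false (nat_lit 18) (nat_lit 84) (nat_lit 4) (nat_lit 10) (.e true (nat_lit 18) (nat_lit 185) (nat_lit 0) (nat_lit 14) (.e true (nat_lit 18) (nat_lit 172) (nat_lit 1) (nat_lit 13) (.e false (nat_lit 18) (nat_lit 158) (nat_lit 2)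 (nat_lit 12) .nil)))))))))))))))))))))))))

noncomputable def dr2_i67 : IL := (.s true (nat_lit 1) (nat_lit 21) (nat_lit 1) (nat_lit 3) (nat_lit 3) true (nat_lit 6) true (nat_lit 11) true (nat_lit 1) true (nat_lit 13) true (nat_lit 11) (.s false (nat_lit 1) (nat_lit 21) (nat_lit 3) (nat_lit 1) (nat_lit 3) true (nat_lit 4) true (nat_lit 11) true (nat_lit 1) true (nat_lit 11) true (nat_lit 13) (.s false (nat_lit 1) (nat_lit 26) (nat_lit 2) (nat_lit 1) (nat_lit 3) true (nat_lit 5) true (nat_lit 11) false (nat_lit 0) true (nat_lit 12) true (nat_lit 13) (.s false (nat_lit 1) (nat_lit 26) (nat_lit 3) (nat_lit 1) (nat_lit 2) true (nat_lit 5) true (nat_lit 12) false (nat_lit 0) true (nat_lit 11) true (nat_lit 13) (.e true (nat_lit 18) (nat_lit 122) (nat_lit 3) (nat_lit 11) (.e true (nat_lit 18) (nat_lit 64) (nat_lit 8) (nat_lit 6) (.e true (nat_lit 18) (nat_lit 65) (nat_lit 8) (nat_lit 6) (.e false (nat_lit 18) (nat_lit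 68) (nat_lit 8) (nat_lit 6) (.e true (nat_lit 18) (nat_lit 69) (nat_lit 8) (nat_lit 6) (.e true (nat_lit 18) (nat_lit 161) (nat_lit 2) (nat_lit 12) (.e false (nat_lit 18) (nat_lit 125) (nat_lit 3) (nat_lit 11) (.e false (nat_lit 36) (nat_lit 126) (nat_lit 3) (nat_lit 11) (.e true (nat_lit 18) (nat_lit 129) (nat_lit 3) (nat_lit 11) (.e false (nat_lit 18) (nat_lit 130) (nat_lit 3) (nat_lit 11) (.e true (nat_lit 18) (nat_lit 152) (nat_lit 2) (nat_lit 12) (.e true (nat_lit 18) (nat_lit 154) (nat_lit 2) (nat_lit 12) (.e false (nat_lit 18) (nat_lit 56) (nat_lit 9) (nat_lit 5) (.e false (nat_lit 36) (nat_lit 168) (nat_lit 1) (nat_lit 13) (.e true (nat_lit 18) (nat_lit 169) (nat_lit 1) (nat_lit 13) (.e true (nat_lit 18) (nat_lit 176) (nat_lit 1) (nat_lit 13) (.e true (nat_lit 18) (nat_lit 151) (nat_lit 2) (nat_lit 12) (.e false (nat_lit 18) (nat_lit 155) (nat_lit 2) (nat_lit 12) (.e true (nat_lit 18) (nat_lit 156)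 (nat_lit 2) (nat_lit 12) (.e false (nat_lit 18) (nat_lit 167) (nat_lit 1) (nat_lit 13) (.e true (nat_lit 18) (nat_lit 174) (nat_lit 1) (nat_lit 13) .nil)))))))))))))))))))))))))

noncomputable def dr2_i68 : IL := (.e false (nat_lit 18) (nat_lit 119) (nat_lit 3) (nat_lit 11) (.e false (nat_lit 18) (nat_lit 120) (nat_lit 3) (nat_lit 11) (.e true (nat_lit 18) (nat_lit 121) (nat_lit 3) (nat_lit 11) (.e true (nat_lit 18) (nat_lit 122) (nat_lit 3) (nat_lit 11) (.e true (nat_lit 18) (nat_lit 123) (nat_lit 3) (nat_lit 11) (.e true (nat_lit 18) (nat_lit 124) (nat_lit 3) (nat_lit 11) (.e false (nat_lit 18) (nat_lit 125) (nat_lit 3) (nat_lit 11) (.e true (nat_lit 18) (nat_lit 128) (nat_lit 3) (nat_lit 11) (.e true (nat_lit 18) (nat_lit 129) (nat_lit 3) (nat_lit 11) (.e false (nat_lit 18) (nat_lit 130) (nat_lit 3) (nat_lit 11) (.e true (nat_lit 18) (nat_lit 131) (nat_lit 3) (nat_lit 11) (.e false (nat_lit 36) (nat_lit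 133) (nat_lit 3) (nat_lit 11) (.e false (nat_lit 18) (nat_lit 134) (nat_lit 3) (nat_lit 11) (.e true (nat_lit 18) (nat_lit 135) (nat_lit 3) (nat_lit 11) (.e true (nat_lit 18) (nat_lit 139) (nat_lit 3) (nat_lit 11) (.e false (nat_lit 18) (nat_lit 178) (nat_lit 0) (nat_lit 14) (.e false (nat_lit 18) (nat_lit 58) (nat_lit 9) (nat_lit 5) (.e false (nat_lit 18) (nat_lit 161) (nat_lit 2) (nat_lit 12) (.e true (nat_lit 18) (nat_lit 167) (nat_lit 1) (nat_lit 13) (.e true (nat_lit 18) (nat_lit 168) (nat_lit 1) (nat_lit 13) (.e false (nat_lit 18) (nat_lit 169) (nat_lit 1) (nat_lit 13) (.e false (nat_lit 18) (nat_lit 170) (nat_lit 1) (nat_lit 13) (.e true (nat_lit 18) (nat_lit 173) (nat_lit 1) (nat_lit 13) (.e false (nat_lit 18) (nat_lit 176) (nat_lit 1) (nat_lit 13) (.e false (nat_lit 18) (nat_lit 177) (nat_lit 1) (nat_lit 13) .nil)))))))))))))))))))))))))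

noncomputable def dr2_i69 : IL := (.e false (nat_lit 18) (nat_lit 172) (nat_lit 1) (nat_lit 13) (.e true (nat_lit 18) (nat_lit 174) (nat_lit 1) (nat_lit 13) (.e false (nat_lit 18) (nat_lit 56) (nat_lit 9) (nat_lit 5) (.e true (nat_lit 18) (nat_lit 57) (nat_lit 9) (nat_lit 5) (.e false (nat_lit 18) (nat_lit 58) (nat_lit 9) (nat_lit 5) (.e true (nat_lit 18) (nat_lit 60) (nat_lit 9) (nat_lit 5) (.e false (nat_lit 36) (nat_lit 178) (nat_lit 0) (nat_lit 14) (.e false (nat_lit 36) (nat_lit 179) (nat_lit 0) (nat_lit 14) (.e true (nat_lit 18) (nat_lit 182) (nat_lit 0) (nat_lit 14) (.e false (nat_lit 36) (nat_lit 183) (nat_lit 0) (nat_lit 14) (.e true (nat_lit 18) (nat_lit 186) (nat_lit 0) (nat_lit 14) (.e true (nat_lit 18) (nat_lit 187) (nat_lit 0) (nat_lit 14) (.e true (nat_lit 18) (nat_lit 68) (nat_lit 8) (nat_lit 6) (.e false (nat_lit 18) (nat_lit 129) (nat_lit 3) (nat_lit 11) (.e true (nat_lit 18) (nat_lit 155)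 (nat_lit 2) (nat_lit 12) (.e true (nat_lit 18) (nat_lit 134) (nat_lit 3) (nat_lit 11) (.e true (nat_lit 18) (nat_lit 117) (nat_lit 3) (nat_lit 11) (.e true (nat_lit 18) (nat_lit 125) (nat_lit 3) (nat_lit 11) (.e false (nat_lit 18) (nat_lit 128) (nat_lit 3) (nat_lit 11) (.e true (nat_lit 18) (nat_lit 130) (nat_lit 3) (nat_lit 11) (.e false (nat_lit 18) (nat_lit 131) (nat_lit 3) (nat_lit 11) (.e true (nat_lit 18) (nat_lit 133) (nat_lit 3) (nat_lit 11) (.e false (nat_lit 18) (nat_lit 135) (nat_lit 3) (nat_lit 11) (.e false (nat_lit 18) (nat_lit 136) (nat_lit 3) (nat_lit 11) (.e false (nat_lit 18) (nat_lit 139) (nat_lit 3) (nat_lit 11) .nil)))))))))))))))))))))))))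

noncomputable def dr2_i70 : IL := (.e false (nat_lit 18) (nat_lit 57) (nat_lit 9) (nat_lit 5) (.e false (nat_lit 36) (nat_lit 120) (nat_lit 3) (nat_lit 11) (.e false (nat_lit 18) (nat_lit 152) (nat_lit 2) (nat_lit 12) (.e false (nat_lit 18) (nat_lit 154) (nat_lit 2) (nat_lit 12) (.e false (nat_lit 18) (nat_lit 155) (nat_lit 2) (nat_lit 12) (.e true (nat_lit 18) (nat_lit 156) (nat_lit 2) (nat_lit 12) (.e true (nat_lit 18) (nat_lit 157) (nat_lit 2) (nat_lit 12) (.e true (nat_lit 18) (nat_lit 158) (nat_lit 2) (nat_lit 12) (.e true (nat_lit 18) (nat_lit 159) (nat_lit 2) (nat_lit 12) (.e true (nat_lit 18) (nat_lit 160) (nat_lit 2) (nat_lit 12) (.e false (nat_lit 36) (nat_lit 127) (nat_lit 3) (nat_lit 11) (.e true (nat_lit 18) (nat_lit 115) (nat_lit 3) (nat_lit 11) (.e false (nat_lit 18) (nat_lit 117) (nat_lit 3) (nat_lit 11) (.e false (nat_lit 18) (nat_lit 118) (nat_lit 3) (nat_lit 11) (.e false (nat_lit 18) (nat_lit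 119) (nat_lit 3) (nat_lit 11) (.e true (nat_lit 18) (nat_lit 121) (nat_lit 3) (nat_lit 11) (.e true (nat_lit 18) (nat_lit 122) (nat_lit 3) (nat_lit 11) (.e true (nat_lit 36) (nat_lit 123) (nat_lit 3) (nat_lit 11) (.e true (nat_lit 36) (nat_lit 124) (nat_lit 3) (nat_lit 11) (.e false (nat_lit 18) (nat_lit 125) (nat_lit 3) (nat_lit 11) (.e true (nat_lit 18) (nat_lit 129) (nat_lit 3) (nat_lit 11) (.e false (nat_lit 18) (nat_lit 132) (nat_lit 3) (nat_lit 11) (.e false (nat_lit 18) (nat_lit 133) (nat_lit 3) (nat_lit 11) (.e false (nat_lit 18) (nat_lit 137) (nat_lit 3) (nat_lit 11) (.e true (nat_lit 18) (nat_lit 139) (nat_lit 3) (nat_lit 11) .nil)))))))))))))))))))))))))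

noncomputable def dr2_i71 : IL := (.e false (nat_lit 30) (nat_lit 116) (nat_lit 3) (nat_lit 11) (.e true (nat_lit 12) (nat_lit 117) (nat_lit 3) (nat_lit 11) (.e true (nat_lit 6) (nat_lit 118) (nat_lit 3) (nat_lit 11) (.e true (nat_lit 24) (nat_lit 119) (nat_lit 3) (nat_lit 11) (.e false (nat_lit 30) (nat_lit 120) (nat_lit 3) (nat_lit 11) (.e true (nat_lit 6) (nat_lit 122) (nat_lit 3) (nat_lit 11) (.e true (nat_lit 6) (nat_lit 124) (nat_lit 3) (nat_lit 11) (.e false (nat_lit 18) (nat_lit 125) (nat_lit 3) (nat_lit 11) (.e true (nat_lit 6) (nat_lit 126) (nat_lit 3) (nat_lit 11) (.e false (nat_lit 6) (nat_lit 127) (nat_lit 3) (nat_lit 11) (.e true (nat_lit 18) (nat_lit 128) (nat_lit 3) (nat_lit 11) (.e false (nat_lit 18) (nat_lit 130) (nat_lit 3) (nat_lit 11) (.e true (nat_lit 12) (nat_lit 131) (nat_lit 3) (nat_lit 11) (.e true (nat_lit 12) (nat_lit 133) (nat_lit 3) (nat_lit 11) (.e false (nat_lit 12) (nat_lit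 134) (nat_lit 3) (nat_lit 11) (.e false (nat_lit 12) (nat_lit 135) (nat_lit 3) (nat_lit 11) (.e false (nat_lit 12) (nat_lit 136) (nat_lit 3) (nat_lit 11) (.e true (nat_lit 12) (nat_lit 138) (nat_lit 3) (nat_lit 11) (.e true (nat_lit 12) (nat_lit 139) (nat_lit 3) (nat_lit 11) (.e true (nat_lit 18) (nat_lit 152) (nat_lit 2) (nat_lit 12) (.e false (nat_lit 18) (nat_lit 153) (nat_lit 2) (nat_lit 12) (.e true (nat_lit 18) (nat_lit 154) (nat_lit 2) (nat_lit 12) (.e false (nat_lit 18) (nat_lit 156) (nat_lit 2) (nat_lit 12) (.e false (nat_lit 18) (nat_lit 55) (nat_lit 9) (nat_lit 5) (.e false (nat_lit 18) (nat_lit 151) (nat_lit 2) (nat_lit 12) .nil)))))))))))))))))))))))))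

noncomputable def dr2_i72 : IL := (.e false (nat_lit 6) (nat_lit 135) (nat_lit 3) (nat_lit 11) (.e false (nat_lit 30) (nat_lit 139) (nat_lit 3) (nat_lit 11) (.e false (nat_lit 18) (nat_lit 65) (nat_lit 8) (nat_lit 6) (.e false (nat_lit 6) (nat_lit 136) (nat_lit 3) (nat_lit 11) (.e true (nat_lit 6) (nat_lit 138) (nat_lit 3) (nat_lit 11) (.e false (nat_lit 6) (nat_lit 115) (nat_lit 3) (nat_lit 11) (.e false (nat_lit 6) (nat_lit 116) (nat_lit 3) (nat_lit 11) (.e true (nat_lit 6) (nat_lit 117) (nat_lit 3) (nat_lit 11) (.e true (nat_lit 12) (nat_lit 118) (nat_lit 3) (nat_lit 11) (.e false (nat_lit 6) (nat_lit 119) (nat_lit 3) (nat_lit 11) (.e true (nat_lit 12) (nat_lit 120) (nat_lit 3) (nat_lit 11) (.e false (nat_lit 18) (nat_lit 123) (nat_lit 3) (nat_lit 11) (.e false (nat_lit 6) (nat_lit 124) (nat_lit 3) (nat_lit 11) (.e true (nat_lit 18) (nat_lit 125) (nat_lit 3) (nat_lit 11) (.e true (nat_lit 24) (nat_lit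 127) (nat_lit 3) (nat_lit 11) (.e false (nat_lit 18) (nat_lit 129) (nat_lit 3) (nat_lit 11) (.e true (nat_lit 6) (nat_lit 133) (nat_lit 3) (nat_lit 11) (.e true (nat_lit 18) (nat_lit 57) (nat_lit 9) (nat_lit 5) (.e false (nat_lit 18) (nat_lit 152) (nat_lit 2) (nat_lit 12) (.e true (nat_lit 18) (nat_lit 155) (nat_lit 2) (nat_lit 12) (.e false (nat_lit 36) (nat_lit 156) (nat_lit 2) (nat_lit 12) (.e false (nat_lit 18) (nat_lit 64) (nat_lit 8) (nat_lit 6) (.e false (nat_lit 18) (nat_lit 121) (nat_lit 3) (nat_lit 11) (.e true (nat_lit 18) (nat_lit 176) (nat_lit 1) (nat_lit 13) (.e false (nat_lit 18) (nat_lit 151) (nat_lit 2) (nat_lit 12) .nil)))))))))))))))))))))))))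

noncomputable def dr2_i73 : IL := (.s true (nat_lit 1) (nat_lit 32) (nat_lit 1) (nat_lit 2) (nat_lit 0) true (nat_lit 10) true (nat_lit 14) false (nat_lit 3) true (nat_lit 13) true (nat_lit 12) (.s true (nat_lit 1) (nat_lit 32) (nat_lit 2) (nat_lit 1) (nat_lit 0) true (nat_lit 9) true (nat_lit 14) false (nat_lit 3) true (nat_lit 12) true (nat_lit 13) (.e false (nat_lit 36) (nat_lit 168) (nat_lit 1) (nat_lit 13) (.e true (nat_lit 36) (nat_lit 169) (nat_lit 1) (nat_lit 13) (.e false (nat_lit 36) (nat_lit 170) (nat_lit 1) (nat_lit 13) (.e true (nat_lit 36) (nat_lit 172) (nat_lit 1) (nat_lit 13) (.e false (nat_lit 18) (nat_lit 115) (nat_lit 3) (nat_lit 11) (.e false (nat_lit 18) (nat_lit 116) (nat_lit 3) (nat_lit 11) (.e true (nat_lit 18) (nat_lit 119) (nat_lit 3) (nat_lit 11) (.e false (nat_lit 18) (nat_lit 124) (nat_lit 3) (nat_lit 11) (.e true (nat_lit 54) (nat_lit 131) (nat_lit 3) (nat_lit 11) (.e true (nat_lit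 18) (nat_lit 64) (nat_lit 8) (nat_lit 6) (.e true (nat_lit 18) (nat_lit 121) (nat_lit 3) (nat_lit 11) (.e false (nat_lit 18) (nat_lit 123) (nat_lit 3) (nat_lit 11) (.e true (nat_lit 18) (nat_lit 167) (nat_lit 1) (nat_lit 13) (.e true (nat_lit 36) (nat_lit 180) (nat_lit 0) (nat_lit 14) (.e true (nat_lit 36) (nat_lit 183) (nat_lit 0) (nat_lit 14) (.e true (nat_lit 18) (nat_lit 187) (nat_lit 0) (nat_lit 14) (.e false (nat_lit 36) (nat_lit 152) (nat_lit 2) (nat_lit 12) (.e false (nat_lit 36) (nat_lit 154) (nat_lit 2) (nat_lit 12) (.e true (nat_lit 18) (nat_lit 157) (nat_lit 2) (nat_lit 12) (.e true (nat_lit 18) (nat_lit 159) (nat_lit 2) (nat_lit 12) (.e false (nat_lit 18) (nat_lit 184) (nat_lit 0) (nat_lit 14) (.e false (nat_lit 18) (nat_lit 186) (nat_lit 0) (nat_lit 14) (.e true (nat_lit 18) (nat_lit 160) (nat_lit 2) (nat_lit 12) .nil)))))))))))))))))))))))))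

noncomputable def dr2_i74 : IL := (.s false (nat_lit 1) (nat_lit 20) (nat_lit 3) (nat_lit 1) (nat_lit 3) true (nat_lit 4) true (nat_lit 11) true (nat_lit 1) true (nat_lit 11) true (nat_lit 13) (.e false (nat_lit 18) (nat_lit 64) (nat_lit 8) (nat_lit 6) (.e false (nat_lit 18) (nat_lit 121) (nat_lit 3) (nat_lit 11) (.e true (nat_lit 18) (nat_lit 176) (nat_lit 1) (nat_lit 13) (.e false (nat_lit 24) (nat_lit 131) (nat_lit 3) (nat_lit 11) (.e true (nat_lit 6) (nat_lit 115) (nat_lit 3) (nat_lit 11) (.e true (nat_lit 6) (nat_lit 116) (nat_lit 3) (nat_lit 11) (.e false (nat_lit 6) (nat_lit 117) (nat_lit 3) (nat_lit 11) (.e false (nat_lit 12) (nat_lit 118) (nat_lit 3) (nat_lit 11) (.e true (nat_lit 6) (nat_lit 119) (nat_lit 3) (nat_lit 11) (.e false (nat_lit 12) (nat_lit 120) (nat_lit 3) (nat_lit 11) (.e false (nat_lit 12) (nat_lit 122) (nat_lit 3) (nat_lit 11) (.e true (nat_lit 18) (nat_lit 123) (nat_lit 3) (nat_lit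 11) (.e true (nat_lit 6) (nat_lit 124) (nat_lit 3) (nat_lit 11) (.e false (nat_lit 18) (nat_lit 125) (nat_lit 3) (nat_lit 11) (.e true (nat_lit 6) (nat_lit 126) (nat_lit 3) (nat_lit 11) (.e false (nat_lit 6) (nat_lit 127) (nat_lit 3) (nat_lit 11) (.e true (nat_lit 18) (nat_lit 129) (nat_lit 3) (nat_lit 11) (.e false (nat_lit 6) (nat_lit 133) (nat_lit 3) (nat_lit 11) (.e false (nat_lit 12) (nat_lit 134) (nat_lit 3) (nat_lit 11) (.e true (nat_lit 6) (nat_lit 135) (nat_lit 3) (nat_lit 11) (.e true (nat_lit 6) (nat_lit 136) (nat_lit 3) (nat_lit 11) (.e false (nat_lit 6) (nat_lit 138) (nat_lit 3) (nat_lit 11) (.e true (nat_lit 30) (nat_lit 139) (nat_lit 3) (nat_lit 11) (.e false (nat_lit 18) (nat_lit 167) (nat_lit 1) (nat_lit 13) .nil)))))))))))))))))))))))))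

noncomputable def dr2_i75 : IL := (.s true (nat_lit 1) (nat_lit 9) (nat_lit 3) (nat_lit 0) (nat_lit 8) false (nat_lit 1) true (nat_lit 6) true (nat_lit 5) true (nat_lit 11) true (nat_lit 14) (.e true (nat_lit 18) (nat_lit 69) (nat_lit 8) (nat_lit 6) (.e false (nat_lit 18) (nat_lit 55) (nat_lit 9) (nat_lit 5) (.e false (nat_lit 18) (nat_lit 56) (nat_lit 9) (nat_lit 5) (.e true (nat_lit 18) (nat_lit 59) (nat_lit 9) (nat_lit 5) (.e false (nat_lit 18) (nat_lit 60) (nat_lit 9) (nat_lit 5) (.e false (nat_lit 18) (nat_lit 115) (nat_lit 3) (nat_lit 11) (.e true (nat_lit 18) (nat_lit 117) (nat_lit 3) (nat_lit 11) (.e true (nat_lit 18) (nat_lit 118) (nat_lit 3) (nat_lit 11) (.e true (nat_lit 18) (nat_lit 119) (nat_lit 3) (nat_lit 11) (.e true (nat_lit 18) (nat_lit 120) (nat_lit 3) (nat_lit 11) (.e false (nat_lit 18) (nat_lit 121) (nat_lit 3) (nat_lit 11) (.e false (nat_lit 18) (nat_lit 122) (nat_lit 3) (nat_lit 11)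 (.e false (nat_lit 36) (nat_lit 123) (nat_lit 3) (nat_lit 11) (.e false (nat_lit 36) (nat_lit 124) (nat_lit 3) (nat_lit 11) (.e true (nat_lit 18) (nat_lit 125) (nat_lit 3) (nat_lit 11) (.e false (nat_lit 18) (nat_lit 129) (nat_lit 3) (nat_lit 11) (.e true (nat_lit 18) (nat_lit 132) (nat_lit 3) (nat_lit 11) (.e true (nat_lit 18) (nat_lit 133) (nat_lit 3) (nat_lit 11) (.e true (nat_lit 18) (nat_lit 137) (nat_lit 3) (nat_lit 11) (.e false (nat_lit 18) (nat_lit 139) (nat_lit 3) (nat_lit 11) (.e false (nat_lit 18) (nat_lit 178) (nat_lit 0) (nat_lit 14) (.e false (nat_lit 18) (nat_lit 179) (nat_lit 0) (nat_lit 14) (.e true (nat_lit 18) (nat_lit 182) (nat_lit 0) (nat_lit 14) (.e false (nat_lit 18) (nat_lit 183) (nat_lit 0) (nat_lit 14) .nil)))))))))))))))))))))))))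

noncomputable def dr2_i76 : IL := (.s true (nat_lit 1) (nat_lit 23) (nat_lit 1) (nat_lit 3) (nat_lit 3) true (nat_lit 5) true (nat_lit 7) true (nat_lit 0) true (nat_lit 9) true (nat_lit 7) (.s true (nat_lit 1) (nat_lit 23) (nat_lit 3) (nat_lit 1) (nat_lit 3) true (nat_lit 3) true (nat_lit 7) true (nat_lit 0) true (nat_lit 7) true (nat_lit 9) (.s true (nat_lit 1) (nat_lit 23) (nat_lit 3) (nat_lit 3) (nat_lit 1) true (nat_lit 5) true (nat_lit 9) true (nat_lit 0) true (nat_lit 7) true (nat_lit 7) (.s true (nat_lit 1) (nat_lit 29) (nat_lit 2) (nat_lit 1) (nat_lit 3) true (nat_lit 4) true (nat_lit 7) false (nat_lit 0) true (nat_lit 8) true (nat_lit 9) (.s true (nat_lit 1) (nat_lit 29) (nat_lit 2) (nat_lit 3) (nat_lit 1) true (nat_lit 6) true (nat_lit 9) false (nat_lit 0) true (nat_lit 8) true (nat_lit 7) (.s true (nat_lit 1) (nat_lit 29) (nat_lit 3) (nat_lit 1) (nat_lit 2) true (nat_lit 4) true (nat_lit 8) false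 (nat_lit 0) true (nat_lit 7) true (nat_lit 9) (.s true (nat_lit 1) (nat_lit 29) (nat_lit 3) (nat_lit 2) (nat_lit 1) true (nat_lit 5) true (nat_lit 9) false (nat_lit 0) true (nat_lit 7) true (nat_lit 8) (.s true (nat_lit 1) (nat_lit 31) (nat_lit 1) (nat_lit 3) (nat_lit 1) false (nat_lit 10) true (nat_lit 9) false (nat_lit 1) true (nat_lit 9) true (nat_lit 7) (.e true (nat_lit 72) (nat_lit 70) (nat_lit 8) (nat_lit 5) (.e false (nat_lit 54) (nat_lit 74) (nat_lit 8) (nat_lit 5) (.e true (nat_lit 36) (nat_lit 142) (nat_lit 3) (nat_lit 7) (.e true (nat_lit 36) (nat_lit 145) (nat_lit 3) (nat_lit 7) (.e false (nat_lit 36) (nat_lit 146) (nat_lit 3) (nat_lit 7) (.e true (nat_lit 18) (nat_lit 149) (nat_lit 3) (nat_lit 7) (.e false (nat_lit 36) (nat_lit 150) (nat_lit 3) (nat_lit 7) (.e false (nat_lit 36) (nat_lit 188) (nat_lit 1) (nat_lit 9) (.e false (nat_lit 36) (nat_lit 179) (nat_lit 1) (nat_lit 9) (.e true (nat_lit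 36) (nat_lit 180) (nat_lit 1) (nat_lit 9) (.e false (nat_lit 36) (nat_lit 148) (nat_lit 3) (nat_lit 7) (.e true (nat_lit 72) (nat_lit 165) (nat_lit 2) (nat_lit 8) (.e true (nat_lit 36) (nat_lit 166) (nat_lit 2) (nat_lit 8) (.e true (nat_lit 18) (nat_lit 182) (nat_lit 1) (nat_lit 9) (.e false (nat_lit 36) (nat_lit 163) (nat_lit 2) (nat_lit 8) (.e false (nat_lit 36) (nat_lit 143) (nat_lit 3) (nat_lit 7) (.e false (nat_lit 36) (nat_lit 162) (nat_lit 2) (nat_lit 8) .nil)))))))))))))))))))))))))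

noncomputable def dr2_i77 : IL := (.s true (nat_lit 2) (nat_lit 23) (nat_lit 1) (nat_lit 3) (nat_lit 3) true (nat_lit 5) true (nat_lit 7) true (nat_lit 0) true (nat_lit 9) true (nat_lit 7) (.s true (nat_lit 2) (nat_lit 23) (nat_lit 3) (nat_lit 1) (nat_lit 3) true (nat_lit 3) true (nat_lit 7) true (nat_lit 0) true (nat_lit 7) true (nat_lit 9) (.s false (nat_lit 1) (nat_lit 25) (nat_lit 3) (nat_lit 1) (nat_lit 3) true (nat_lit 3) true (nat_lit 7) true (nat_lit 0) true (nat_lit 7) true (nat_lit 9) (.s false (nat_lit 2) (nat_lit 25) (nat_lit 3) (nat_lit 3) (nat_lit 1) true (nat_lit 5) true (nat_lit 9) true (nat_lit 0) true (nat_lit 7) true (nat_lit 7) (.s true (nat_lit 2) (nat_lit 29) (nat_lit 2) (nat_lit 3) (nat_lit 1) true (nat_lit 6) true (nat_lit 9) false (nat_lit 0) true (nat_lit 8) true (nat_lit 7) (.s false (nat_lit 1) (nat_lit 28) (nat_lit 3) (nat_lit 1) (nat_lit 2) true (nat_lit 4) true (nat_lit 8) false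 (nat_lit 0) true (nat_lit 7) true (nat_lit 9) (.e false (nat_lit 126) (nat_lit 71) (nat_lit 8) (nat_lit 5) (.e true (nat_lit 36) (nat_lit 74) (nat_lit 8) (nat_lit 5) (.e false (nat_lit 18) (nat_lit 162) (nat_lit 2) (nat_lit 8) (.e false (nat_lit 72) (nat_lit 166) (nat_lit 2) (nat_lit 8) (.e true (nat_lit 54) (nat_lit 140) (nat_lit 3) (nat_lit 7) (.e false (nat_lit 18) (nat_lit 145) (nat_lit 3) (nat_lit 7) (.e false (nat_lit 162) (nat_lit 146) (nat_lit 3) (nat_lit 7) (.e true (nat_lit 36) (nat_lit 147) (nat_lit 3) (nat_lit 7) (.e false (nat_lit 18) (nat_lit 148) (nat_lit 3) (nat_lit 7) (.e true (nat_lit 54) (nat_lit 149) (nat_lit 3) (nat_lit 7) (.e false (nat_lit 108) (nat_lit 150) (nat_lit 3) (nat_lit 7) (.e false (nat_lit 18) (nat_lit 144) (nat_lit 3) (nat_lit 7) (.e false (nat_lit 54) (nat_lit 165) (nat_lit 2) (nat_lit 8) (.e true (nat_lit 54) (nat_lit 163) (nat_lit 2) (nat_lit 8) (.e false (nat_lit 18)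 (nat_lit 181) (nat_lit 1) (nat_lit 9) (.e true (nat_lit 18) (nat_lit 188) (nat_lit 1) (nat_lit 9) (.e true (nat_lit 72) (nat_lit 178) (nat_lit 1) (nat_lit 9) (.e true (nat_lit 90) (nat_lit 183) (nat_lit 1) (nat_lit 9) (.e true (nat_lit 72) (nat_lit 142) (nat_lit 3) (nat_lit 7) .nil)))))))))))))))))))))))))

noncomputable def dr2_t0 : Tr := (.nd (.nd (.nd (.nd (.nd (.nd (.nd .leaf (nat_lit 1024) (nat_lit 0) (.p (nat_lit 4) (nat_lit 18) .z) .df .leaf) (nat_lit 2048) (nat_lit 1) (.p (nat_lit 5) (nat_lit 18) .z) .df .leaf) (nat_lit 2049) (nat_lit 2) (.p (nat_lit 6) (nat_lit 18) .z) .df (.nd .leaf (nat_lit 3072) (nat_lit 3) (.p (nat_lit 7) (nat_lit 18) .z) .df .leaf)) (nat_lit 3073) (nat_lit 4) (.p (nat_lit 8) (nat_lit 18) .z) .df (.nd (.nd (.nd .leaf (nat_lit 3074) (nat_lit 5) (.p (nat_lit 9) (nat_lit 18) .z) .df .leaf) (nat_lit 3075) (nat_lit 6) (.p (nat_lit 10) (nat_lit 18) .z) .df .leaf) (nat_lit 4097) (nat_lit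 7) (.p (nat_lit 11) (nat_lit 18) .z) .df (.nd .leaf (nat_lit 4098) (nat_lit 8) (.p (nat_lit 12) (nat_lit 18) .z) .df .leaf))) (nat_lit 4099) (nat_lit 12) (.p (nat_lit 16) (nat_lit 18) .z) .df (.nd (.nd (.nd (.nd .leaf (nat_lit 5121) (nat_lit 9) (.p (nat_lit 13) (nat_lit 18) .z) .df .leaf) (nat_lit 5123) (nat_lit 16) (.p (nat_lit 20) (nat_lit 18) .z) .df .leaf) (nat_lit 6144) (nat_lit 10) (.p (nat_lit 14) (nat_lit 18) .z) .df (.nd .leaf (nat_lit 6145) (nat_lit 11) (.p (nat_lit 15) (nat_lit 18) .z) .df .leaf)) (nat_lit 6147) (nat_lit 19) (.p (nat_lit 23) (nat_lit 18) .z) .df (.nd (.nd (.nd .leaf (nat_lit 6148) (nat_lit 34) (.p (nat_lit 33) (nat_lit 18) (.n (nat_lit 35) (nat_lit 18) (.p (nat_lit 36) (nat_lit 18) .z))) (.ct dr2_c4624 (nat_lit 18) (nat_lit 0) (.s true (nat_lit 1) (nat_lit 2) (nat_lit 0) (nat_lit 1) (nat_lit 1) true (nat_lit 0) true (nat_lit 2) true (nat_lit 1) true (nat_lit 3) true (nat_lit 2)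 (.e true (nat_lit 18) (nat_lit 13) (nat_lit 1) (nat_lit 2) (.e false (nat_lit 18) (nat_lit 11) (nat_lit 2) (nat_lit 1) (.e false (nat_lit 18) (nat_lit 14) (nat_lit 1) (nat_lit 2) .nil))))) .leaf) (nat_lit 7169) (nat_lit 13) (.p (nat_lit 17) (nat_lit 18) .z) .df .leaf) (nat_lit 7170) (nat_lit 17) (.p (nat_lit 21) (nat_lit 18) .z) .df (.nd .leaf (nat_lit 7171) (nat_lit 22) (.p (nat_lit 26) (nat_lit 18) .z) .df .leaf)))) (nat_lit 7174) (nat_lit 53) (.n (nat_lit 43) (nat_lit 18) (.n (nat_lit 44) (nat_lit 18) (.n (nat_lit 45) (nat_lit 18) (.n (nat_lit 46) (nat_lit 18) (.p (nat_lit 47) (nat_lit 18) (.p (nat_lit 48) (nat_lit 18) (.p (nat_lit 49) (nat_lit 18) (.p (nat_lit 50) (nat_lit 18) .z)))))))) (.ct dr2_c4369 (nat_lit 18) (nat_lit 0) (.s true (nat_lit 1) (nat_lit 3) (nat_lit 1) (nat_lit 0) (nat_lit 2) true (nat_lit 0) true (nat_lit 4) true (nat_lit 3) true (nat_lit 5) true (nat_lit 6) (.e true (nat_lit 18) (nat_lit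 18) (nat_lit 2) (nat_lit 4) (.e true (nat_lit 18) (nat_lit 12) (nat_lit 3) (nat_lit 3) (.e false (nat_lit 18) (nat_lit 20) (nat_lit 1) (nat_lit 5) (.e false (nat_lit 18) (nat_lit 25) (nat_lit 0) (nat_lit 6) .nil)))))) (.nd (.nd (.nd (.nd (.nd .leaf (nat_lit 8192) (nat_lit 14) (.p (nat_lit 18) (nat_lit 18) .z) .df .leaf) (nat_lit 8193) (nat_lit 15) (.p (nat_lit 19) (nat_lit 18) .z) .df .leaf) (nat_lit 8194) (nat_lit 20) (.p (nat_lit 24) (nat_lit 18) .z) .df (.nd .leaf (nat_lit 8195) (nat_lit 24) (.p (nat_lit 28) (nat_lit 18) .z) .df .leaf)) (nat_lit 8196) (nat_lit 40) (.p (nat_lit 37) (nat_lit 18) (.n (nat_lit 39) (nat_lit 18) (.p (nat_lit 40) (nat_lit 18) .z))) (.ct dr2_c4609 (nat_lit 18) (nat_lit 0) (.s true (nat_lit 1) (nat_lit 3) (nat_lit 0) (nat_lit 1) (nat_lit 1) true (nat_lit 0) true (nat_lit 2) true (nat_lit 1) true (nat_lit 3) true (nat_lit 2) (.e true (nat_lit 18) (nat_lit 17) (nat_lit 1) (nat_lit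 2) (.e false (nat_lit 18) (nat_lit 11) (nat_lit 3) (nat_lit 1) (.e false (nat_lit 18) (nat_lit 18) (nat_lit 1) (nat_lit 2) .nil))))) (.nd (.nd (.nd .leaf (nat_lit 8197) (nat_lit 54) (.p (nat_lit 41) (nat_lit 18) (.n (nat_lit 45) (nat_lit 18) (.p (nat_lit 49) (nat_lit 18) (.p (nat_lit 50) (nat_lit 18) .z)))) (.ct dr2_c4369 (nat_lit 18) (nat_lit 1) (.s true (nat_lit 1) (nat_lit 3) (nat_lit 0) (nat_lit 1) (nat_lit 2) true (nat_lit 1) true (nat_lit 4) true (nat_lit 3) true (nat_lit 6) true (nat_lit 5) (.e true (nat_lit 18) (nat_lit 17) (nat_lit 2) (nat_lit 4) (.e false (nat_lit 18) (nat_lit 12) (nat_lit 3) (nat_lit 3) (.e false (nat_lit 18) (nat_lit 23) (nat_lit 0) (nat_lit 6) (.e false (nat_lit 18) (nat_lit 22) (nat_lit 1) (nat_lit 5) .nil)))))) .leaf) (nat_lit 8198) (nat_lit 61) (.n (nat_lit 52) (nat_lit 18) (.p (nat_lit 53) (nat_lit 18) (.p (nat_lit 54) (nat_lit 18) .z))) (.ct dr2_c529 (nat_lit 18) (nat_lit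 0) (.s true (nat_lit 1) (nat_lit 3) (nat_lit 1) (nat_lit 1) (nat_lit 2) true (nat_lit 0) true (nat_lit 2) true (nat_lit 1) true (nat_lit 3) true (nat_lit 3) (.e true (nat_lit 18) (nat_lit 19) (nat_lit 2) (nat_lit 2) (.e false (nat_lit 18) (nat_lit 23) (nat_lit 1) (nat_lit 3) (.e false (nat_lit 18) (nat_lit 25) (nat_lit 1) (nat_lit 3) .nil))))) .leaf) (nat_lit 8199) (nat_lit 68) (.n (nat_lit 55) (nat_lit 18) (.n (nat_lit 56) (nat_lit 18) (.p (nat_lit 59) (nat_lit 18) (.n (nat_lit 60) (nat_lit 18) .z)))) (.ct dr2_c4354 (nat_lit 18) (nat_lit 0) (.s true (nat_lit 1) (nat_lit 3) (nat_lit 0) (nat_lit 1) (nat_lit 3) true (nat_lit 0) true (nat_lit 2) true (nat_lit 2) true (nat_lit 4) true (nat_lit 3) (.e true (nat_lit 18) (nat_lit 17) (nat_lit 3) (nat_lit 2) (.e true (nat_lit 18) (nat_lit 16) (nat_lit 3) (nat_lit 2) (.e true (nat_lit 18) (nat_lit 28) (nat_lit 0) (nat_lit 4) (.e false (nat_lit 18) (nat_lit 27) (nat_lit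 1) (nat_lit 3) .nil)))))) (.nd .leaf (nat_lit 8200) (nat_lit 74) (.n (nat_lit 61) (nat_lit 18) (.n (nat_lit 62) (nat_lit 18) (.p (nat_lit 63) (nat_lit 18) .z))) (.ct dr2_c514 (nat_lit 18) (nat_lit 0) (.s true (nat_lit 1) (nat_lit 3) (nat_lit 1) (nat_lit 1) (nat_lit 3) true (nat_lit 0) true (nat_lit 1) true (nat_lit 1) true (nat_lit 2) true (nat_lit 2) (.e true (nat_lit 18) (nat_lit 19) (nat_lit 3) (nat_lit 1) (.e true (nat_lit 18) (nat_lit 28) (nat_lit 1) (nat_lit 2) (.e false (nat_lit 18) (nat_lit 29) (nat_lit 1) (nat_lit 2) .nil))))) .leaf))) (nat_lit 9216) (nat_lit 18) (.p (nat_lit 22) (nat_lit 18) .z) .df (.nd (.nd (.nd (.nd .leaf (nat_lit 9217) (nat_lit 21) (.p (nat_lit 25) (nat_lit 18) .z) .df .leaf) (nat_lit 9219) (nat_lit 26) (.p (nat_lit 30) (nat_lit 18) .z) .df .leaf) (nat_lit 9220) (nat_lit 55) (.p (nat_lit 42) (nat_lit 18) (.p (nat_lit 46) (nat_lit 18) (.n (nat_lit 48) (nat_lit 18) (.n (nat_lit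 50) (nat_lit 18) .z)))) (.ct dr2_c4369 (nat_lit 18) (nat_lit 2) (.s true (nat_lit 1) (nat_lit 3) (nat_lit 0) (nat_lit 2) (nat_lit 1) true (nat_lit 2) true (nat_lit 5) true (nat_lit 3) true (nat_lit 6) true (nat_lit 4) (.e true (nat_lit 18) (nat_lit 21) (nat_lit 1) (nat_lit 5) (.e false (nat_lit 18) (nat_lit 13) (nat_lit 3) (nat_lit 3) (.e true (nat_lit 18) (nat_lit 23) (nat_lit 0) (nat_lit 6) (.e false (nat_lit 18) (nat_lit 18) (nat_lit 2) (nat_lit 4) .nil)))))) (.nd .leaf (nat_lit 9223) (nat_lit 81) (.n (nat_lit 64) (nat_lit 18) (.n (nat_lit 65) (nat_lit 18) (.p (nat_lit 68) (nat_lit 18) (.n (nat_lit 69) (nat_lit 18) .z)))) (.ct dr2_c4114 (nat_lit 18) (nat_lit 0) (.s true (nat_lit 1) (nat_lit 3) (nat_lit 0) (nat_lit 2) (nat_lit 3) true (nat_lit 0) true (nat_lit 2) true (nat_lit 2) true (nat_lit 4) true (nat_lit 3) (.e true (nat_lit 18) (nat_lit 21) (nat_lit 3) (nat_lit 2) (.e true (nat_lit 18) (nat_lit 20)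 (nat_lit 3) (nat_lit 2) (.e true (nat_lit 18) (nat_lit 30) (nat_lit 0) (nat_lit 4) (.e false (nat_lit 18) (nat_lit 27) (nat_lit 2) (nat_lit 3) .nil)))))) .leaf)) (nat_lit 9224) (nat_lit 90) (.n (nat_lit 70) (nat_lit 18) (.n (nat_lit 71) (nat_lit 18) (.p (nat_lit 74) (nat_lit 18) (.n (nat_lit 75) (nat_lit 18) .z)))) (.ct dr2_c274 (nat_lit 18) (nat_lit 0) (.s true (nat_lit 1) (nat_lit 3) (nat_lit 1) (nat_lit 2) (nat_lit 3) true (nat_lit 0) true (nat_lit 2) true (nat_lit 2) true (nat_lit 4) true (nat_lit 3) (.e true (nat_lit 18) (nat_lit 24) (nat_lit 3) (nat_lit 2) (.e true (nat_lit 18) (nat_lit 23) (nat_lit 3) (nat_lit 2) (.e true (nat_lit 18) (nat_lit 30) (nat_lit 1) (nat_lit 4) (.e false (nat_lit 18) (nat_lit 29) (nat_lit 2) (nat_lit 3) .nil)))))) (.nd (.nd .leaf (nat_lit 10240) (nat_lit 23) (.p (nat_lit 27) (nat_lit 18) .z) .df .leaf) (nat_lit 10241) (nat_lit 25) (.p (nat_lit 29) (nat_lit 18) .z) .df (.nd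 .leaf (nat_lit 10242) (nat_lit 27) (.p (nat_lit 31) (nat_lit 18) .z) .df .leaf))))) (nat_lit 10243) (nat_lit 28) (.p (nat_lit 32) (nat_lit 18) .z) .df (.nd (.nd (.nd (.nd (.nd (.nd .leaf (nat_lit 10244) (nat_lit 70) (.n (nat_lit 56) (nat_lit 18) (.p (nat_lit 57) (nat_lit 18) (.n (nat_lit 58) (nat_lit 18) (.p (nat_lit 60) (nat_lit 18) .z)))) (.ct dr2_c4354 (nat_lit 18) (nat_lit 1) (.s true (nat_lit 1) (nat_lit 3) (nat_lit 0) (nat_lit 3) (nat_lit 1) true (nat_lit 1) true (nat_lit 3) true (nat_lit 2) true (nat_lit 4) true (nat_lit 2) (.e true (nat_lit 18) (nat_lit 26) (nat_lit 1) (nat_lit 3) (.e true (nat_lit 18) (nat_lit 17) (nat_lit 3) (nat_lit 2) (.e false (nat_lit 18) (nat_lit 28) (nat_lit 0) (nat_lit 4) (.e false (nat_lit 18) (nat_lit 18) (nat_lit 3) (nat_lit 2) .nil)))))) .leaf) (nat_lit 10245) (nat_lit 83) (.n (nat_lit 65) (nat_lit 18) (.p (nat_lit 66) (nat_lit 18) (.n (nat_lit 67) (nat_lit 18) (.p (nat_lit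 69) (nat_lit 18) .z)))) (.ct dr2_c4114 (nat_lit 18) (nat_lit 1) (.s true (nat_lit 1) (nat_lit 3) (nat_lit 0) (nat_lit 3) (nat_lit 2) true (nat_lit 1) true (nat_lit 3) true (nat_lit 2) true (nat_lit 4) true (nat_lit 2) (.e true (nat_lit 18) (nat_lit 26) (nat_lit 2) (nat_lit 3) (.e true (nat_lit 18) (nat_lit 21) (nat_lit 3) (nat_lit 2) (.e false (nat_lit 18) (nat_lit 30) (nat_lit 0) (nat_lit 4) (.e false (nat_lit 18) (nat_lit 22) (nat_lit 3) (nat_lit 2) .nil)))))) .leaf) (nat_lit 10246) (nat_lit 92) (.n (nat_lit 71) (nat_lit 18) (.p (nat_lit 72) (nat_lit 18) (.n (nat_lit 73) (nat_lit 18) (.p (nat_lit 75) (nat_lit 18) .z)))) (.ct dr2_c274 (nat_lit 18) (nat_lit 1) (.s true (nat_lit 1) (nat_lit 3) (nat_lit 1) (nat_lit 3) (nat_lit 2) true (nat_lit 1) true (nat_lit 3) true (nat_lit 2) true (nat_lit 4) true (nat_lit 2) (.e true (nat_lit 18) (nat_lit 28) (nat_lit 2) (nat_lit 3) (.e true (nat_lit 18) (nat_lit 24) (nat_lit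 3) (nat_lit 2) (.e false (nat_lit 18) (nat_lit 30) (nat_lit 1) (nat_lit 4) (.e false (nat_lit 18) (nat_lit 25) (nat_lit 3) (nat_lit 2) .nil)))))) (.nd .leaf (nat_lit 10247) (nat_lit 96) (.n (nat_lit 77) (nat_lit 18) (.n (nat_lit 78) (nat_lit 18) .z)) (.ct dr2_c4099 (nat_lit 18) (nat_lit 0) (.s true (nat_lit 1) (nat_lit 3) (nat_lit 0) (nat_lit 3) (nat_lit 3) true (nat_lit 0) true (nat_lit 1) true (nat_lit 1) true (nat_lit 2) true (nat_lit 1) (.e true (nat_lit 18) (nat_lit 32) (nat_lit 0) (nat_lit 2) (.e true (nat_lit 18) (nat_lit 27) (nat_lit 3) (nat_lit 1) .nil)))) .leaf)) (nat_lit 10248) (nat_lit 100) (.n (nat_lit 80) (nat_lit 18) (.n (nat_lit 81) (nat_lit 18) .z)) (.ct dr2_c259 (nat_lit 18) (nat_lit 0) (.s true (nat_lit 1) (nat_lit 3) (nat_lit 1) (nat_lit 3) (nat_lit 3) true (nat_lit 0) true (nat_lit 1) true (nat_lit 1) true (nat_lit 2) true (nat_lit 1) (.e true (nat_lit 18) (nat_lit 32) (nat_lit 1) (nat_lit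 2) (.e true (nat_lit 18) (nat_lit 29) (nat_lit 3) (nat_lit 1) .nil)))) (.nd (.nd (.nd .leaf (nat_lit 10249) (nat_lit 104) (.n (nat_lit 83) (nat_lit 18) (.n (nat_lit 84) (nat_lit 18) .z)) (.ct dr2_c19 (nat_lit 18) (nat_lit 0) (.s true (nat_lit 1) (nat_lit 3) (nat_lit 2) (nat_lit 3) (nat_lit 3) true (nat_lit 0) true (nat_lit 1) true (nat_lit 1) true (nat_lit 2) true (nat_lit 1) (.e true (nat_lit 18) (nat_lit 32) (nat_lit 2) (nat_lit 2) (.e true (nat_lit 18) (nat_lit 31) (nat_lit 3) (nat_lit 1) .nil)))) .leaf) (nat_lit 11266) (nat_lit 29) (.p (nat_lit 33) (nat_lit 18) .z) .df .leaf) (nat_lit 11267) (nat_lit 35) (.p (nat_lit 37) (nat_lit 18) .z) .df (.nd .leaf (nat_lit 11273) (nat_lit 123) (.p (nat_lit 103) (nat_lit 18) .z) .df .leaf))) (nat_lit 11274) (nat_lit 156) (.p (nat_lit 107) (nat_lit 36) (.p (nat_lit 108) (nat_lit 36) (.n (nat_lit 109) (nat_lit 36) (.n (nat_lit 111) (nat_lit 18) (.p (nat_lit 114) (nat_lit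 18) .z))))) (.ct dr2_c4610 (nat_lit 18) (nat_lit 0) (.s true (nat_lit 1) (nat_lit 10) (nat_lit 1) (nat_lit 0) (nat_lit 1) false (nat_lit 7) true (nat_lit 5) true (nat_lit 0) true (nat_lit 5) true (nat_lit 6) (.e false (nat_lit 36) (nat_lit 55) (nat_lit 1) (nat_lit 5) (.e false (nat_lit 36) (nat_lit 56) (nat_lit 1) (nat_lit 5) (.e true (nat_lit 36) (nat_lit 57) (nat_lit 1) (nat_lit 5) (.e true (nat_lit 18) (nat_lit 59) (nat_lit 1) (nat_lit 5) (.e false (nat_lit 18) (nat_lit 63) (nat_lit 0) (nat_lit 6) .nil))))))) (.nd (.nd (.nd (.nd .leaf (nat_lit 12289) (nat_lit 30) (.p (nat_lit 34) (nat_lit 18) .z) .df .leaf) (nat_lit 12291) (nat_lit 41) (.p (nat_lit 41) (nat_lit 18) .z) .df .leaf) (nat_lit 12296) (nat_lit 132) (.p (nat_lit 85) (nat_lit 18) (.n (nat_lit 87) (nat_lit 18) (.p (nat_lit 88) (nat_lit 18) (.n (nat_lit 89) (nat_lit 18) (.p (nat_lit 92) (nat_lit 18) (.n (nat_lit 94) (nat_lit 18) (.n (nat_lit 96)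 (nat_lit 18) (.p (nat_lit 98) (nat_lit 18) (.p (nat_lit 100) (nat_lit 18) (.p (nat_lit 103) (nat_lit 18) .z)))))))))) (.ct dr2_c4625 (nat_lit 18) (nat_lit 1) (.s false (nat_lit 1) (nat_lit 4) (nat_lit 2) (nat_lit 3) (nat_lit 1) true (nat_lit 3) true (nat_lit 8) true (nat_lit 5) true (nat_lit 7) true (nat_lit 6) (.s false (nat_lit 1) (nat_lit 4) (nat_lit 3) (nat_lit 2) (nat_lit 1) true (nat_lit 1) true (nat_lit 8) true (nat_lit 5) true (nat_lit 6) true (nat_lit 7) (.e true (nat_lit 18) (nat_lit 16) (nat_lit 6) (nat_lit 3) (.e false (nat_lit 18) (nat_lit 41) (nat_lit 1) (nat_lit 8) (.e true (nat_lit 18) (nat_lit 39) (nat_lit 2) (nat_lit 7) (.e false (nat_lit 18) (nat_lit 40) (nat_lit 2) (nat_lit 7) (.e false (nat_lit 18) (nat_lit 44) (nat_lit 1) (nat_lit 8) (.e true (nat_lit 18) (nat_lit 35) (nat_lit 3) (nat_lit 6) (.e false (nat_lit 18) (nat_lit 36) (nat_lit 3) (nat_lit 6) .nil)))))))))) (.nd .leaf (nat_lit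 12298) (nat_lit 201) (.p (nat_lit 115) (nat_lit 24) (.p (nat_lit 116) (nat_lit 24) (.n (nat_lit 117) (nat_lit 6) (.p (nat_lit 118) (nat_lit 24) (.n (nat_lit 119) (nat_lit 12) (.p (nat_lit 120) (nat_lit 24) (.n (nat_lit 122) (nat_lit 12) (.n (nat_lit 124) (nat_lit 12) (.p (nat_lit 125) (nat_lit 18) (.n (nat_lit 126) (nat_lit 12) (.p (nat_lit 127) (nat_lit 12) (.n (nat_lit 128) (nat_lit 18) (.p (nat_lit 130) (nat_lit 18) (.n (nat_lit 131) (nat_lit 6) (.n (nat_lit 133) (nat_lit 6) (.p (nat_lit 134) (nat_lit 6) (.p (nat_lit 135) (nat_lit 6) (.p (nat_lit 136) (nat_lit 6) (.n (nat_lit 138) (nat_lit 6) (.n (nat_lit 139) (nat_lit 6) .z)))))))))))))))))))) (.ct dr2_c4370 (nat_lit 18) (nat_lit 0) (.s false (nat_lit 1) (nat_lit 4) (nat_lit 3) (nat_lit 2) (nat_lit 3) true (nat_lit 0) true (nat_lit 7) true (nat_lit 6) true (nat_lit 7) true (nat_lit 8) (.e false (nat_lit 18) (nat_lit 44) (nat_lit 3) (nat_lit 7) (.e false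 (nat_lit 18) (nat_lit 30) (nat_lit 4) (nat_lit 6) (.e false (nat_lit 18) (nat_lit 42) (nat_lit 3) (nat_lit 7) (.e false (nat_lit 18) (nat_lit 46) (nat_lit 3) (nat_lit 7) (.e true (nat_lit 18) (nat_lit 48) (nat_lit 3) (nat_lit 7) (.e true (nat_lit 18) (nat_lit 50) (nat_lit 3) (nat_lit 7) (.e false (nat_lit 18) (nat_lit 55) (nat_lit 2) (nat_lit 8) .nil))))))))) .leaf)) (nat_lit 13313) (nat_lit 31) (.p (nat_lit 35) (nat_lit 18) .z) .df (.nd (.nd (.nd .leaf (nat_lit 13315) (nat_lit 42) (.p (nat_lit 42) (nat_lit 18) .z) .df .leaf) (nat_lit 13320) (nat_lit 130) (.p (nat_lit 85) (nat_lit 18) (.n (nat_lit 87) (nat_lit 18) (.p (nat_lit 88) (nat_lit 18) (.n (nat_lit 89) (nat_lit 18) (.n (nat_lit 91) (nat_lit 18) (.n (nat_lit 93) (nat_lit 18) (.p (nat_lit 94) (nat_lit 18) (.p (nat_lit 95) (nat_lit 18) (.p (nat_lit 96) (nat_lit 18) (.n (nat_lit 99) (nat_lit 18) (.p (nat_lit 101) (nat_lit 18) (.n (nat_lit 102) (nat_lit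 18) .z)))))))))))) (.ct dr2_c4625 (nat_lit 18) (nat_lit 1) (.s true (nat_lit 1) (nat_lit 5) (nat_lit 1) (nat_lit 1) (nat_lit 3) true (nat_lit 1) true (nat_lit 6) true (nat_lit 4) true (nat_lit 8) true (nat_lit 8) (.e true (nat_lit 18) (nat_lit 35) (nat_lit 3) (nat_lit 6) (.e false (nat_lit 18) (nat_lit 41) (nat_lit 1) (nat_lit 8) (.e true (nat_lit 18) (nat_lit 45) (nat_lit 1) (nat_lit 8) (.e false (nat_lit 18) (nat_lit 49) (nat_lit 1) (nat_lit 8) (.e false (nat_lit 18) (nat_lit 50) (nat_lit 1) (nat_lit 8) (.e false (nat_lit 18) (nat_lit 47) (nat_lit 1) (nat_lit 8) .nil)))))))) .leaf) (nat_lit 13322) (nat_lit 202) (.p (nat_lit 115) (nat_lit 12) (.p (nat_lit 116) (nat_lit 12) (.p (nat_lit 117) (nat_lit 6) (.n (nat_lit 118) (nat_lit 6) (.n (nat_lit 119) (nat_lit 6) (.n (nat_lit 120) (nat_lit 6) (.p (nat_lit 121) (nat_lit 18) (.n (nat_lit 122) (nat_lit 6) (.p (nat_lit 123) (nat_lit 18) (.p (nat_lit 124) (nat_lit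 12) (.p (nat_lit 126) (nat_lit 12) (.n (nat_lit 127) (nat_lit 12) (.p (nat_lit 131) (nat_lit 24) (.n (nat_lit 133) (nat_lit 12) (.n (nat_lit 134) (nat_lit 6) (.p (nat_lit 135) (nat_lit 12) (.n (nat_lit 136) (nat_lit 6) (.p (nat_lit 138) (nat_lit 6) (.p (nat_lit 139) (nat_lit 6) .z))))))))))))))))))) (.ct dr2_c4370 (nat_lit 18) (nat_lit 0) (.s false (nat_lit 1) (nat_lit 5) (nat_lit 3) (nat_lit 1) (nat_lit 3) true (nat_lit 0) true (nat_lit 7) true (nat_lit 5) true (nat_lit 7) true (nat_lit 9) (.e false (nat_lit 18) (nat_lit 47) (nat_lit 3) (nat_lit 7) (.e false (nat_lit 18) (nat_lit 28) (nat_lit 5) (nat_lit 5) (.e false (nat_lit 18) (nat_lit 41) (nat_lit 3) (nat_lit 7) (.e true (nat_lit 18) (nat_lit 45) (nat_lit 3) (nat_lit 7) (.e false (nat_lit 18) (nat_lit 49) (nat_lit 3) (nat_lit 7) (.e false (nat_lit 18) (nat_lit 50) (nat_lit 3) (nat_lit 7) (.e false (nat_lit 18) (nat_lit 64) (nat_lit 1) (nat_lit 9) .nil)))))))))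 (.nd .leaf (nat_lit 14337) (nat_lit 32) (.p (nat_lit 36) (nat_lit 18) .z) .df .leaf)))) (nat_lit 14339) (nat_lit 43) (.p (nat_lit 43) (nat_lit 18) .z) .df (.nd (.nd (.nd (.nd (.nd .leaf (nat_lit 14344) (nat_lit 131) (.p (nat_lit 85) (nat_lit 18) (.p (nat_lit 86) (nat_lit 18) (.n (nat_lit 89) (nat_lit 36) (.p (nat_lit 90) (nat_lit 18) (.n (nat_lit 91) (nat_lit 36) (.n (nat_lit 92) (nat_lit 18) (.n (nat_lit 93) (nat_lit 18) (.n (nat_lit 94) (nat_lit 18) (.n (nat_lit 95) (nat_lit 18) (.n (nat_lit 97) (nat_lit 18) (.p (nat_lit 98) (nat_lit 36) (.n (nat_lit 99) (nat_lit 18) (.p (nat_lit 100) (nat_lit 18) (.p (nat_lit 101) (nat_lit 18) (.p (nat_lit 103) (nat_lit 18) .z))))))))))))))) (.ct dr2_c4625 (nat_lit 18) (nat_lit 1) (.s false (nat_lit 1) (nat_lit 6) (nat_lit 3) (nat_lit 0) (nat_lit 1) true (nat_lit 1) true (nat_lit 8) true (nat_lit 3) true (nat_lit 6) true (nat_lit 9) (.s false (nat_lit 1) (nat_lit 7) (nat_lit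 2) (nat_lit 1) (nat_lit 1) true (nat_lit 3) true (nat_lit 8) true (nat_lit 2) true (nat_lit 7) true (nat_lit 8) (.e false (nat_lit 18) (nat_lit 50) (nat_lit 1) (nat_lit 8) (.e false (nat_lit 18) (nat_lit 33) (nat_lit 3) (nat_lit 6) (.e true (nat_lit 18) (nat_lit 35) (nat_lit 3) (nat_lit 6) (.e false (nat_lit 18) (nat_lit 36) (nat_lit 3) (nat_lit 6) (.e true (nat_lit 18) (nat_lit 51) (nat_lit 0) (nat_lit 9) (.e false (nat_lit 18) (nat_lit 48) (nat_lit 1) (nat_lit 8) (.e false (nat_lit 18) (nat_lit 15) (nat_lit 7) (nat_lit 2) (.e true (nat_lit 18) (nat_lit 45) (nat_lit 1) (nat_lit 8) .nil))))))))))) .leaf) (nat_lit 14346) (nat_lit 199) (.n (nat_lit 117) (nat_lit 18) (.n (nat_lit 118) (nat_lit 18) (.n (nat_lit 119) (nat_lit 18) (.n (nat_lit 120) (nat_lit 18) (.p (nat_lit 121) (nat_lit 18) (.p (nat_lit 122) (nat_lit 18) (.p (nat_lit 123) (nat_lit 18) (.p (nat_lit 124) (nat_lit 36) (.p (nat_lit 136) (nat_lit 18)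 (.p (nat_lit 139) (nat_lit 18) .z)))))))))) (.ct dr2_c4370 (nat_lit 18) (nat_lit 0) (.s false (nat_lit 1) (nat_lit 6) (nat_lit 3) (nat_lit 0) (nat_lit 3) true (nat_lit 0) true (nat_lit 7) true (nat_lit 4) true (nat_lit 7) true (nat_lit 10) (.e false (nat_lit 36) (nat_lit 50) (nat_lit 3) (nat_lit 7) (.e false (nat_lit 18) (nat_lit 26) (nat_lit 6) (nat_lit 4) (.e true (nat_lit 18) (nat_lit 43) (nat_lit 3) (nat_lit 7) (.e true (nat_lit 18) (nat_lit 44) (nat_lit 3) (nat_lit 7) (.e true (nat_lit 18) (nat_lit 45) (nat_lit 3) (nat_lit 7) (.e true (nat_lit 18) (nat_lit 46) (nat_lit 3) (nat_lit 7) (.e false (nat_lit 18) (nat_lit 47) (nat_lit 3) (nat_lit 7) (.e false (nat_lit 18) (nat_lit 48) (nat_lit 3) (nat_lit 7) (.e false (nat_lit 18) (nat_lit 49) (nat_lit 3) (nat_lit 7) (.e false (nat_lit 18) (nat_lit 70) (nat_lit 0) (nat_lit 10) .nil)))))))))))) .leaf) (nat_lit 15360) (nat_lit 33) (.p (nat_lit 33) (nat_lit 18)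 (.n (nat_lit 34) (nat_lit 18) (.p (nat_lit 36) (nat_lit 18) .z))) (.ct dr2_c4624 (nat_lit 18) (nat_lit 3) (.s false (nat_lit 1) (nat_lit 2) (nat_lit 1) (nat_lit 0) (nat_lit 1) false (nat_lit 4) true (nat_lit 2) true (nat_lit 1) true (nat_lit 2) true (nat_lit 3) (.e false (nat_lit 18) (nat_lit 14) (nat_lit 1) (nat_lit 2) (.e false (nat_lit 18) (nat_lit 11) (nat_lit 2) (nat_lit 1) (.e true (nat_lit 18) (nat_lit 12) (nat_lit 1) (nat_lit 2) .nil))))) (.nd .leaf (nat_lit 15363) (nat_lit 56) (.p (nat_lit 51) (nat_lit 18) .z) .df .leaf)) (nat_lit 15367) (nat_lit 124) (.n (nat_lit 85) (nat_lit 18) (.n (nat_lit 88) (nat_lit 18) (.p (nat_lit 89) (nat_lit 18) (.n (nat_lit 90) (nat_lit 18) (.p (nat_lit 91) (nat_lit 18) (.p (nat_lit 92) (nat_lit 18) (.p (nat_lit 93) (nat_lit 18) (.p (nat_lit 97) (nat_lit 18) (.n (nat_lit 98) (nat_lit 18) (.p (nat_lit 99) (nat_lit 18) (.n (nat_lit 101) (nat_lit 18) (.p (nat_lit 102) (nat_lit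 18) .z)))))))))))) (.ct dr2_c4625 (nat_lit 18) (nat_lit 2) (.s true (nat_lit 1) (nat_lit 5) (nat_lit 1) (nat_lit 1) (nat_lit 3) true (nat_lit 1) true (nat_lit 6) true (nat_lit 4) true (nat_lit 8) true (nat_lit 8) (.s false (nat_lit 1) (nat_lit 6) (nat_lit 3) (nat_lit 1) (nat_lit 0) true (nat_lit 2) true (nat_lit 9) true (nat_lit 3) true (nat_lit 6) true (nat_lit 8) (.s false (nat_lit 1) (nat_lit 8) (nat_lit 2) (nat_lit 0) (nat_lit 1) true (nat_lit 3) true (nat_lit 8) true (nat_lit 1) true (nat_lit 7) true (nat_lit 9) (.e false (nat_lit 18) (nat_lit 41) (nat_lit 1) (nat_lit 8) (.e false (nat_lit 18) (nat_lit 49) (nat_lit 1) (nat_lit 8) (.e false (nat_lit 18) (nat_lit 53) (nat_lit 0) (nat_lit 9) (.e true (nat_lit 18) (nat_lit 33) (nat_lit 3) (nat_lit 6) (.e true (nat_lit 18) (nat_lit 36) (nat_lit 3) (nat_lit 6) (.e false (nat_lit 18) (nat_lit 42) (nat_lit 1) (nat_lit 8) (.e false (nat_lit 18) (nat_lit 46) (nat_lit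 1) (nat_lit 8) (.e true (nat_lit 18) (nat_lit 48) (nat_lit 1) (nat_lit 8) (.e false (nat_lit 18) (nat_lit 37) (nat_lit 2) (nat_lit 7) (.e true (nat_lit 18) (nat_lit 39) (nat_lit 2) (nat_lit 7) (.e false (nat_lit 18) (nat_lit 40) (nat_lit 2) (nat_lit 7) (.e true (nat_lit 18) (nat_lit 52) (nat_lit 0) (nat_lit 9) .nil)))))))))))))))) (.nd (.nd (.nd .leaf (nat_lit 15370) (nat_lit 222) (.n (nat_lit 144) (nat_lit 18) (.p (nat_lit 146) (nat_lit 18) (.n (nat_lit 147) (nat_lit 18) (.p (nat_lit 148) (nat_lit 18) (.p (nat_lit 149) (nat_lit 18) (.n (nat_lit 150) (nat_lit 18) .z)))))) (.ct dr2_c530 (nat_lit 18) (nat_lit 0) (.s false (nat_lit 1) (nat_lit 6) (nat_lit 3) (nat_lit 1) (nat_lit 3) true (nat_lit 0) true (nat_lit 4) true (nat_lit 3) true (nat_lit 4) true (nat_lit 6) (.e false (nat_lit 36) (nat_lit 53) (nat_lit 3) (nat_lit 4) (.e false (nat_lit 18) (nat_lit 28) (nat_lit 6) (nat_lit 3) (.e true (nat_lit 18) (nat_lit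 52) (nat_lit 3) (nat_lit 4) (.e false (nat_lit 18) (nat_lit 54) (nat_lit 3) (nat_lit 4) (.e false (nat_lit 18) (nat_lit 70) (nat_lit 1) (nat_lit 6) .nil))))))) .leaf) (nat_lit 16385) (nat_lit 36) (.p (nat_lit 38) (nat_lit 18) .z) .df .leaf) (nat_lit 16386) (nat_lit 44) (.p (nat_lit 44) (nat_lit 18) .z) .df (.nd .leaf (nat_lit 16387) (nat_lit 62) (.p (nat_lit 55) (nat_lit 18) .z) .df .leaf))) (nat_lit 16390) (nat_lit 125) (.n (nat_lit 85) (nat_lit 18) (.p (nat_lit 89) (nat_lit 18) (.n (nat_lit 90) (nat_lit 18) (.p (nat_lit 91) (nat_lit 18) (.p (nat_lit 94) (nat_lit 18) (.p (nat_lit 95) (nat_lit 18) (.p (nat_lit 96) (nat_lit 18) (.n (nat_lit 98) (nat_lit 18) (.n (nat_lit 100) (nat_lit 18) (.n (nat_lit 103) (nat_lit 18) .z)))))))))) (.ct dr2_c4625 (nat_lit 18) (nat_lit 3) (.s false (nat_lit 1) (nat_lit 4) (nat_lit 2) (nat_lit 3) (nat_lit 1) true (nat_lit 3) true (nat_lit 8) true (nat_lit 5) true (nat_lit 7) true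 (nat_lit 6) (.s false (nat_lit 1) (nat_lit 9) (nat_lit 0) (nat_lit 1) (nat_lit 1) true (nat_lit 5) true (nat_lit 8) true (nat_lit 0) true (nat_lit 9) true (nat_lit 8) (.e false (nat_lit 18) (nat_lit 37) (nat_lit 2) (nat_lit 7) (.e true (nat_lit 18) (nat_lit 39) (nat_lit 2) (nat_lit 7) (.e false (nat_lit 18) (nat_lit 40) (nat_lit 2) (nat_lit 7) (.e true (nat_lit 18) (nat_lit 33) (nat_lit 3) (nat_lit 6) (.e true (nat_lit 18) (nat_lit 11) (nat_lit 9) (nat_lit 0) (.e false (nat_lit 18) (nat_lit 43) (nat_lit 1) (nat_lit 8) (.e false (nat_lit 18) (nat_lit 44) (nat_lit 1) (nat_lit 8) (.e false (nat_lit 18) (nat_lit 45) (nat_lit 1) (nat_lit 8) (.e true (nat_lit 18) (nat_lit 48) (nat_lit 1) (nat_lit 8) (.e true (nat_lit 18) (nat_lit 50) (nat_lit 1) (nat_lit 8) .nil))))))))))))) (.nd (.nd (.nd (.nd .leaf (nat_lit 16392) (nat_lit 150) (.p (nat_lit 104) (nat_lit 36) (.n (nat_lit 105) (nat_lit 18) (.p (nat_lit 106) (nat_lit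 18) (.n (nat_lit 107) (nat_lit 18) (.n (nat_lit 108) (nat_lit 18) (.p (nat_lit 109) (nat_lit 18) (.n (nat_lit 110) (nat_lit 18) (.p (nat_lit 111) (nat_lit 18) (.p (nat_lit 112) (nat_lit 18) (.n (nat_lit 114) (nat_lit 18) .z)))))))))) (.ct dr2_c4610 (nat_lit 18) (nat_lit 1) (.s true (nat_lit 1) (nat_lit 4) (nat_lit 3) (nat_lit 3) (nat_lit 1) true (nat_lit 1) true (nat_lit 5) true (nat_lit 3) true (nat_lit 4) true (nat_lit 4) (.s true (nat_lit 1) (nat_lit 10) (nat_lit 1) (nat_lit 1) (nat_lit 0) true (nat_lit 3) true (nat_lit 6) true (nat_lit 0) true (nat_lit 5) true (nat_lit 5) (.e true (nat_lit 18) (nat_lit 55) (nat_lit 1) (nat_lit 5) (.e false (nat_lit 36) (nat_lit 37) (nat_lit 3) (nat_lit 4) (.e true (nat_lit 18) (nat_lit 39) (nat_lit 3) (nat_lit 4) (.e false (nat_lit 18) (nat_lit 40) (nat_lit 3) (nat_lit 4) (.e true (nat_lit 18) (nat_lit 63) (nat_lit 0) (nat_lit 6) (.e true (nat_lit 18) (nat_lit 56) (nat_lit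 1) (nat_lit 5) (.e false (nat_lit 18) (nat_lit 57) (nat_lit 1) (nat_lit 5) (.e true (nat_lit 18) (nat_lit 58) (nat_lit 1) (nat_lit 5) (.e false (nat_lit 18) (nat_lit 60) (nat_lit 1) (nat_lit 5) (.e false (nat_lit 18) (nat_lit 59) (nat_lit 1) (nat_lit 5) .nil))))))))))))) .leaf) (nat_lit 16393) (nat_lit 191) (.p (nat_lit 115) (nat_lit 6) (.p (nat_lit 116) (nat_lit 6) (.n (nat_lit 117) (nat_lit 6) (.n (nat_lit 118) (nat_lit 12) (.n (nat_lit 119) (nat_lit 12) (.p (nat_lit 120) (nat_lit 6) (.p (nat_lit 122) (nat_lit 6) (.p (nat_lit 124) (nat_lit 6) (.p (nat_lit 126) (nat_lit 6) (.n (nat_lit 127) (nat_lit 6) (.n (nat_lit 131) (nat_lit 6) (.n (nat_lit 133) (nat_lit 6) (.p (nat_lit 134) (nat_lit 6) (.p (nat_lit 135) (nat_lit 6) (.p (nat_lit 136) (nat_lit 6) (.n (nat_lit 138) (nat_lit 6) (.n (nat_lit 139) (nat_lit 6) .z))))))))))))))))) (.ct dr2_c4370 (nat_lit 18) (nat_lit 1) (.s true (nat_lit 1) (nat_lit 4) (nat_lit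 2) (nat_lit 3) (nat_lit 3) true (nat_lit 1) true (nat_lit 7) true (nat_lit 6) true (nat_lit 8) true (nat_lit 7) (.e true (nat_lit 18) (nat_lit 41) (nat_lit 3) (nat_lit 7) (.e false (nat_lit 18) (nat_lit 30) (nat_lit 4) (nat_lit 6) (.e false (nat_lit 18) (nat_lit 56) (nat_lit 2) (nat_lit 8) (.e true (nat_lit 18) (nat_lit 57) (nat_lit 2) (nat_lit 8) (.e false (nat_lit 18) (nat_lit 58) (nat_lit 2) (nat_lit 8) (.e true (nat_lit 18) (nat_lit 60) (nat_lit 2) (nat_lit 8) (.e true (nat_lit 18) (nat_lit 44) (nat_lit 3) (nat_lit 7) .nil))))))))) .leaf) (nat_lit 16394) (nat_lit 234) (.p (nat_lit 160) (nat_lit 18) .z) .df (.nd .leaf (nat_lit 17409) (nat_lit 37) (.p (nat_lit 39) (nat_lit 18) .z) .df .leaf)) (nat_lit 17410) (nat_lit 45) (.p (nat_lit 45) (nat_lit 18) .z) .df (.nd (.nd .leaf (nat_lit 17411) (nat_lit 63) (.p (nat_lit 56) (nat_lit 18) .z) .df .leaf) (nat_lit 17414) (nat_lit 137) (.n (nat_lit 85) (nat_lit 18)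 (.n (nat_lit 88) (nat_lit 18) (.p (nat_lit 89) (nat_lit 18) (.n (nat_lit 90) (nat_lit 18) (.p (nat_lit 91) (nat_lit 18) (.p (nat_lit 92) (nat_lit 18) (.p (nat_lit 93) (nat_lit 18) (.n (nat_lit 96) (nat_lit 18) (.p (nat_lit 97) (nat_lit 18) (.p (nat_lit 99) (nat_lit 18) (.n (nat_lit 101) (nat_lit 18) (.p (nat_lit 102) (nat_lit 18) .z)))))))))))) (.ct dr2_c4625 (nat_lit 18) (nat_lit 3) (.s false (nat_lit 1) (nat_lit 7) (nat_lit 2) (nat_lit 1) (nat_lit 1) true (nat_lit 3) true (nat_lit 8) true (nat_lit 2) true (nat_lit 7) true (nat_lit 8) (.e false (nat_lit 18) (nat_lit 48) (nat_lit 1) (nat_lit 8) (.e false (nat_lit 18) (nat_lit 15) (nat_lit 7) (nat_lit 2) (.e true (nat_lit 18) (nat_lit 45) (nat_lit 1) (nat_lit 8) .nil))))) (.nd .leaf (nat_lit 17416) (nat_lit 151) (.n (nat_lit 105) (nat_lit 18) (.p (nat_lit 107) (nat_lit 18) (.p (nat_lit 108) (nat_lit 18) (.p (nat_lit 110) (nat_lit 18) (.n (nat_lit 111) (nat_lit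 18) (.p (nat_lit 112) (nat_lit 18) .z)))))) (.ct dr2_c4610 (nat_lit 18) (nat_lit 1) (.s true (nat_lit 1) (nat_lit 7) (nat_lit 1) (nat_lit 1) (nat_lit 3) true (nat_lit 1) true (nat_lit 4) true (nat_lit 2) true (nat_lit 5) true (nat_lit 5) (.e true (nat_lit 18) (nat_lit 39) (nat_lit 3) (nat_lit 4) (.e false (nat_lit 18) (nat_lit 55) (nat_lit 1) (nat_lit 5) (.e false (nat_lit 18) (nat_lit 56) (nat_lit 1) (nat_lit 5) (.e true (nat_lit 18) (nat_lit 59) (nat_lit 1) (nat_lit 5) (.e false (nat_lit 18) (nat_lit 60) (nat_lit 1) (nat_lit 5) (.e false (nat_lit 18) (nat_lit 58) (nat_lit 1) (nat_lit 5) .nil)))))))) .leaf))))))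

noncomputable def dr2_t1 : Tr := (.nd (.nd (.nd (.nd (.nd (.nd (.nd .leaf (nat_lit 17418) (nat_lit 236) (.p (nat_lit 151) (nat_lit 36) (.p (nat_lit 152) (nat_lit 54) (.n (nat_lit 153) (nat_lit 18) (.p (nat_lit 154) (nat_lit 18) (.n (nat_lit 155) (nat_lit 18) (.p (nat_lit 156) (nat_lit 18) (.n (nat_lit 158) (nat_lit 18) (.n (nat_lit 160) (nat_lit 18) .z)))))))) (.ct dr2_c4355 (nat_lit 18) (nat_lit 0) (.s false (nat_lit 1) (nat_lit 7) (nat_lit 3) (nat_lit 1) (nat_lit 3) true (nat_lit 0) true (nat_lit 4) true (nat_lit 2) true (nat_lit 4) true (nat_lit 5) (.s true (nat_lit 1) (nat_lit 7) (nat_lit 3) (nat_lit 3) (nat_lit 1) true (nat_lit 1) true (nat_lit 5) true (nat_lit 2) true (nat_lit 4) true (nat_lit 4) (.s true (nat_lit 1) (nat_lit 8) (nat_lit 0) (nat_lit 3) (nat_lit 3) true (nat_lit 2) true (nat_lit 4) true (nat_lit 1) true (nat_lit 6) true (nat_lit 4) (.s false (nat_lit 1) (nat_lit 10) (nat_lit 0) (nat_lit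 1) (nat_lit 3) true (nat_lit 2) true (nat_lit 4) true (nat_lit 0) true (nat_lit 6) true (nat_lit 5) (.e false (nat_lit 18) (nat_lit 58) (nat_lit 3) (nat_lit 4) (.e false (nat_lit 36) (nat_lit 55) (nat_lit 3) (nat_lit 4) (.e false (nat_lit 54) (nat_lit 56) (nat_lit 3) (nat_lit 4) (.e true (nat_lit 18) (nat_lit 59) (nat_lit 3) (nat_lit 4) (.e false (nat_lit 18) (nat_lit 60) (nat_lit 3) (nat_lit 4) (.e true (nat_lit 18) (nat_lit 57) (nat_lit 3) (nat_lit 4) (.e true (nat_lit 18) (nat_lit 16) (nat_lit 10) (nat_lit 0) (.e true (nat_lit 18) (nat_lit 78) (nat_lit 1) (nat_lit 5) .nil))))))))))))) .leaf) (nat_lit 18433) (nat_lit 38) (.p (nat_lit 40) (nat_lit 18) .z) .df .leaf) (nat_lit 18434) (nat_lit 46) (.p (nat_lit 46) (nat_lit 18) .z) .df (.nd .leaf (nat_lit 18435) (nat_lit 64) (.p (nat_lit 57) (nat_lit 18) .z) .df .leaf)) (nat_lit 18438) (nat_lit 133) (.n (nat_lit 87) (nat_lit 18) (.p (nat_lit 89) (nat_lit 18)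 (.n (nat_lit 90) (nat_lit 18) (.p (nat_lit 91) (nat_lit 18) (.p (nat_lit 92) (nat_lit 18) (.p (nat_lit 93) (nat_lit 18) (.p (nat_lit 94) (nat_lit 18) (.p (nat_lit 97) (nat_lit 18) (.n (nat_lit 98) (nat_lit 18) (.p (nat_lit 99) (nat_lit 18) (.n (nat_lit 101) (nat_lit 18) .z))))))))))) (.ct dr2_c4625 (nat_lit 18) (nat_lit 3) (.s true (nat_lit 1) (nat_lit 6) (nat_lit 3) (nat_lit 1) (nat_lit 0) true (nat_lit 2) true (nat_lit 9) true (nat_lit 3) true (nat_lit 6) true (nat_lit 8) (.e false (nat_lit 18) (nat_lit 15) (nat_lit 7) (nat_lit 2) (.e true (nat_lit 18) (nat_lit 53) (nat_lit 0) (nat_lit 9) (.e false (nat_lit 18) (nat_lit 33) (nat_lit 3) (nat_lit 6) (.e true (nat_lit 18) (nat_lit 35) (nat_lit 3) (nat_lit 6) (.e false (nat_lit 18) (nat_lit 36) (nat_lit 3) (nat_lit 6) (.e false (nat_lit 18) (nat_lit 43) (nat_lit 1) (nat_lit 8) .nil)))))))) (.nd (.nd (.nd .leaf (nat_lit 18440) (nat_lit 155) (.p (nat_lit 104)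 (nat_lit 18) (.p (nat_lit 106) (nat_lit 18) (.n (nat_lit 107) (nat_lit 18) (.n (nat_lit 108) (nat_lit 18) (.n (nat_lit 110) (nat_lit 18) (.p (nat_lit 111) (nat_lit 18) (.n (nat_lit 113) (nat_lit 18) .z))))))) (.ct dr2_c4610 (nat_lit 18) (nat_lit 1) (.s false (nat_lit 1) (nat_lit 8) (nat_lit 3) (nat_lit 0) (nat_lit 1) true (nat_lit 1) true (nat_lit 5) true (nat_lit 1) true (nat_lit 4) true (nat_lit 6) (.e false (nat_lit 18) (nat_lit 60) (nat_lit 1) (nat_lit 5) (.e true (nat_lit 18) (nat_lit 17) (nat_lit 8) (nat_lit 1) (.e false (nat_lit 18) (nat_lit 37) (nat_lit 3) (nat_lit 4) (.e true (nat_lit 18) (nat_lit 39) (nat_lit 3) (nat_lit 4) (.e false (nat_lit 18) (nat_lit 40) (nat_lit 3) (nat_lit 4) (.e true (nat_lit 18) (nat_lit 61) (nat_lit 0) (nat_lit 6) .nil)))))))) .leaf) (nat_lit 18441) (nat_lit 194) (.p (nat_lit 115) (nat_lit 18) (.n (nat_lit 117) (nat_lit 18) (.n (nat_lit 118) (nat_lit 18) (.n (nat_lit 119)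 (nat_lit 18) (.n (nat_lit 120) (nat_lit 18) (.p (nat_lit 121) (nat_lit 18) (.p (nat_lit 122) (nat_lit 18) (.p (nat_lit 123) (nat_lit 36) (.p (nat_lit 124) (nat_lit 36) (.n (nat_lit 125) (nat_lit 18) (.p (nat_lit 129) (nat_lit 18) (.n (nat_lit 132) (nat_lit 18) (.n (nat_lit 133) (nat_lit 18) (.n (nat_lit 137) (nat_lit 18) (.p (nat_lit 139) (nat_lit 18) .z))))))))))))))) (.ct dr2_c4370 (nat_lit 18) (nat_lit 1) (.s true (nat_lit 1) (nat_lit 9) (nat_lit 1) (nat_lit 3) (nat_lit 0) true (nat_lit 6) true (nat_lit 10) true (nat_lit 1) true (nat_lit 9) true (nat_lit 7) (.e false (nat_lit 18) (nat_lit 30) (nat_lit 4) (nat_lit 6) (.e true (nat_lit 18) (nat_lit 72) (nat_lit 0) (nat_lit 10) (.e true (nat_lit 18) (nat_lit 64) (nat_lit 1) (nat_lit 9) (.e true (nat_lit 18) (nat_lit 65) (nat_lit 1) (nat_lit 9) (.e false (nat_lit 18) (nat_lit 68) (nat_lit 1) (nat_lit 9) (.e true (nat_lit 18) (nat_lit 69) (nat_lit 1) (nat_lit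 9) (.e false (nat_lit 18) (nat_lit 49) (nat_lit 3) (nat_lit 7) .nil))))))))) .leaf) (nat_lit 18442) (nat_lit 238) (.n (nat_lit 152) (nat_lit 18) (.p (nat_lit 153) (nat_lit 18) (.n (nat_lit 154) (nat_lit 18) (.n (nat_lit 155) (nat_lit 18) (.p (nat_lit 156) (nat_lit 18) (.p (nat_lit 157) (nat_lit 18) (.p (nat_lit 158) (nat_lit 18) (.p (nat_lit 159) (nat_lit 18) (.p (nat_lit 160) (nat_lit 18) .z))))))))) (.ct dr2_c4355 (nat_lit 18) (nat_lit 0) (.s true (nat_lit 1) (nat_lit 7) (nat_lit 1) (nat_lit 3) (nat_lit 3) true (nat_lit 1) true (nat_lit 4) true (nat_lit 2) true (nat_lit 5) true (nat_lit 4) (.s false (nat_lit 1) (nat_lit 8) (nat_lit 3) (nat_lit 0) (nat_lit 3) true (nat_lit 0) true (nat_lit 4) true (nat_lit 1) true (nat_lit 4) true (nat_lit 6) (.s true (nat_lit 1) (nat_lit 8) (nat_lit 3) (nat_lit 3) (nat_lit 0) true (nat_lit 2) true (nat_lit 6) true (nat_lit 1) true (nat_lit 4) true (nat_lit 4) (.s true (nat_lit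 1) (nat_lit 10) (nat_lit 3) (nat_lit 0) (nat_lit 1) true (nat_lit 1) true (nat_lit 5) true (nat_lit 0) true (nat_lit 4) true (nat_lit 6) (.e false (nat_lit 36) (nat_lit 56) (nat_lit 3) (nat_lit 4) (.e false (nat_lit 18) (nat_lit 77) (nat_lit 1) (nat_lit 5) (.e false (nat_lit 36) (nat_lit 60) (nat_lit 3) (nat_lit 4) (.e false (nat_lit 36) (nat_lit 55) (nat_lit 3) (nat_lit 4) (.e true (nat_lit 36) (nat_lit 59) (nat_lit 3) (nat_lit 4) (.e true (nat_lit 18) (nat_lit 17) (nat_lit 10) (nat_lit 0) (.e false (nat_lit 18) (nat_lit 80) (nat_lit 0) (nat_lit 6) .nil)))))))))))) (.nd .leaf (nat_lit 19456) (nat_lit 39) (.p (nat_lit 37) (nat_lit 18) (.n (nat_lit 38) (nat_lit 18) (.p (nat_lit 40) (nat_lit 18) .z))) (.ct dr2_c4609 (nat_lit 18) (nat_lit 3) (.s false (nat_lit 1) (nat_lit 3) (nat_lit 1) (nat_lit 0) (nat_lit 1) false (nat_lit 4) true (nat_lit 2) true (nat_lit 1) true (nat_lit 2) true (nat_lit 3) (.e false (nat_lit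 18) (nat_lit 18) (nat_lit 1) (nat_lit 2) (.e false (nat_lit 18) (nat_lit 11) (nat_lit 3) (nat_lit 1) (.e true (nat_lit 18) (nat_lit 16) (nat_lit 1) (nat_lit 2) .nil))))) .leaf))) (nat_lit 19458) (nat_lit 57) (.p (nat_lit 52) (nat_lit 18) .z) .df (.nd (.nd (.nd (.nd .leaf (nat_lit 19459) (nat_lit 71) (.p (nat_lit 61) (nat_lit 18) .z) .df .leaf) (nat_lit 19461) (nat_lit 138) (.n (nat_lit 87) (nat_lit 18) (.p (nat_lit 92) (nat_lit 18) (.p (nat_lit 93) (nat_lit 18) (.n (nat_lit 96) (nat_lit 18) (.p (nat_lit 99) (nat_lit 18) (.p (nat_lit 100) (nat_lit 18) .z)))))) (.ct dr2_c4625 (nat_lit 18) (nat_lit 4) (.s true (nat_lit 1) (nat_lit 5) (nat_lit 3) (nat_lit 1) (nat_lit 1) true (nat_lit 1) true (nat_lit 8) true (nat_lit 4) true (nat_lit 6) true (nat_lit 8) (.e false (nat_lit 18) (nat_lit 13) (nat_lit 8) (nat_lit 1) (.e true (nat_lit 18) (nat_lit 47) (nat_lit 1) (nat_lit 8) (.e false (nat_lit 18) (nat_lit 42) (nat_lit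 1) (nat_lit 8) .nil))))) .leaf) (nat_lit 19463) (nat_lit 158) (.p (nat_lit 105) (nat_lit 18) (.n (nat_lit 107) (nat_lit 18) (.n (nat_lit 108) (nat_lit 36) (.p (nat_lit 111) (nat_lit 18) (.n (nat_lit 112) (nat_lit 18) .z))))) (.ct dr2_c4610 (nat_lit 18) (nat_lit 2) (.s false (nat_lit 1) (nat_lit 7) (nat_lit 3) (nat_lit 1) (nat_lit 1) true (nat_lit 1) true (nat_lit 5) true (nat_lit 2) true (nat_lit 4) true (nat_lit 5) (.e true (nat_lit 18) (nat_lit 17) (nat_lit 8) (nat_lit 1) (.e false (nat_lit 18) (nat_lit 58) (nat_lit 1) (nat_lit 5) (.e true (nat_lit 18) (nat_lit 56) (nat_lit 1) (nat_lit 5) .nil))))) (.nd .leaf (nat_lit 19465) (nat_lit 217) (.p (nat_lit 142) (nat_lit 18) (.n (nat_lit 145) (nat_lit 18) (.n (nat_lit 146) (nat_lit 18) (.n (nat_lit 147) (nat_lit 18) (.p (nat_lit 149) (nat_lit 18) (.n (nat_lit 150) (nat_lit 18) .z)))))) (.ct dr2_c530 (nat_lit 18) (nat_lit 1) (.s true (nat_lit 1) (nat_lit 9) (nat_lit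 1) (nat_lit 3) (nat_lit 1) false (nat_lit 7) true (nat_lit 6) true (nat_lit 1) true (nat_lit 6) true (nat_lit 4) (.e true (nat_lit 18) (nat_lit 72) (nat_lit 1) (nat_lit 6) (.e true (nat_lit 18) (nat_lit 70) (nat_lit 1) (nat_lit 6) (.e true (nat_lit 18) (nat_lit 71) (nat_lit 1) (nat_lit 6) (.e false (nat_lit 18) (nat_lit 74) (nat_lit 1) (nat_lit 6) (.e true (nat_lit 18) (nat_lit 75) (nat_lit 1) (nat_lit 6) (.e false (nat_lit 18) (nat_lit 54) (nat_lit 3) (nat_lit 4) .nil)))))))) .leaf)) (nat_lit 19466) (nat_lit 250) (.n (nat_lit 163) (nat_lit 18) (.p (nat_lit 165) (nat_lit 36) (.p (nat_lit 166) (nat_lit 18) .z))) (.ct dr2_c515 (nat_lit 18) (nat_lit 0) (.s false (nat_lit 1) (nat_lit 10) (nat_lit 1) (nat_lit 3) (nat_lit 1) false (nat_lit 4) true (nat_lit 3) true (nat_lit 0) true (nat_lit 3) true (nat_lit 2) (.e false (nat_lit 36) (nat_lit 80) (nat_lit 1) (nat_lit 3) (.e false (nat_lit 18) (nat_lit 81) (nat_lit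 1) (nat_lit 3) (.e true (nat_lit 18) (nat_lit 63) (nat_lit 3) (nat_lit 2) .nil))))) (.nd (.nd (.nd .leaf (nat_lit 20481) (nat_lit 47) (.p (nat_lit 47) (nat_lit 18) .z) .df .leaf) (nat_lit 20483) (nat_lit 75) (.p (nat_lit 64) (nat_lit 18) .z) .df .leaf) (nat_lit 20488) (nat_lit 192) (.p (nat_lit 115) (nat_lit 6) (.p (nat_lit 116) (nat_lit 6) (.n (nat_lit 117) (nat_lit 6) (.n (nat_lit 118) (nat_lit 12) (.p (nat_lit 119) (nat_lit 6) (.n (nat_lit 120) (nat_lit 12) (.n (nat_lit 122) (nat_lit 12) (.p (nat_lit 123) (nat_lit 18) (.p (nat_lit 124) (nat_lit 6) (.n (nat_lit 125) (nat_lit 18) (.p (nat_lit 126) (nat_lit 6) (.n (nat_lit 127) (nat_lit 6) (.p (nat_lit 129) (nat_lit 18) (.p (nat_lit 131) (nat_lit 12) (.n (nat_lit 133) (nat_lit 6) (.n (nat_lit 134) (nat_lit 12) (.p (nat_lit 135) (nat_lit 6) (.p (nat_lit 136) (nat_lit 6) (.n (nat_lit 138) (nat_lit 6) (.p (nat_lit 139) (nat_lit 30) .z)))))))))))))))))))) (.ct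 dr2_c4370 (nat_lit 18) (nat_lit 2) (.s true (nat_lit 1) (nat_lit 5) (nat_lit 1) (nat_lit 3) (nat_lit 3) true (nat_lit 2) true (nat_lit 7) true (nat_lit 5) true (nat_lit 9) true (nat_lit 7) (.e true (nat_lit 18) (nat_lit 42) (nat_lit 3) (nat_lit 7) (.e false (nat_lit 18) (nat_lit 28) (nat_lit 5) (nat_lit 5) (.e false (nat_lit 18) (nat_lit 65) (nat_lit 1) (nat_lit 9) (.e true (nat_lit 18) (nat_lit 66) (nat_lit 1) (nat_lit 9) (.e false (nat_lit 18) (nat_lit 67) (nat_lit 1) (nat_lit 9) (.e true (nat_lit 18) (nat_lit 69) (nat_lit 1) (nat_lit 9) (.e true (nat_lit 18) (nat_lit 47) (nat_lit 3) (nat_lit 7) .nil))))))))) (.nd .leaf (nat_lit 20490) (nat_lit 263) (.p (nat_lit 176) (nat_lit 18) .z) .df .leaf)))) (nat_lit 21505) (nat_lit 48) (.p (nat_lit 48) (nat_lit 18) .z) .df (.nd (.nd (.nd (.nd (.nd .leaf (nat_lit 21507) (nat_lit 76) (.p (nat_lit 65) (nat_lit 18) .z) .df .leaf) (nat_lit 21512) (nat_lit 195) (.p (nat_lit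 117) (nat_lit 18) (.p (nat_lit 118) (nat_lit 18) (.p (nat_lit 120) (nat_lit 18) (.n (nat_lit 121) (nat_lit 18) (.n (nat_lit 122) (nat_lit 18) (.n (nat_lit 123) (nat_lit 18) (.n (nat_lit 124) (nat_lit 18) (.p (nat_lit 125) (nat_lit 18) (.n (nat_lit 129) (nat_lit 18) (.p (nat_lit 130) (nat_lit 18) (.p (nat_lit 132) (nat_lit 18) (.p (nat_lit 133) (nat_lit 18) (.n (nat_lit 139) (nat_lit 18) .z))))))))))))) (.ct dr2_c4370 (nat_lit 18) (nat_lit 2) (.s true (nat_lit 1) (nat_lit 7) (nat_lit 1) (nat_lit 2) (nat_lit 3) true (nat_lit 2) true (nat_lit 7) true (nat_lit 3) true (nat_lit 9) true (nat_lit 8) (.e true (nat_lit 18) (nat_lit 45) (nat_lit 3) (nat_lit 7) (.e true (nat_lit 18) (nat_lit 23) (nat_lit 7) (nat_lit 3) (.e false (nat_lit 18) (nat_lit 64) (nat_lit 1) (nat_lit 9) (.e false (nat_lit 18) (nat_lit 65) (nat_lit 1) (nat_lit 9) (.e true (nat_lit 18) (nat_lit 68) (nat_lit 1) (nat_lit 9) (.e false (nat_lit 18)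 (nat_lit 69) (nat_lit 1) (nat_lit 9) (.e false (nat_lit 18) (nat_lit 58) (nat_lit 2) (nat_lit 8) .nil))))))))) .leaf) (nat_lit 21514) (nat_lit 265) (.p (nat_lit 167) (nat_lit 36) (.p (nat_lit 168) (nat_lit 54) (.n (nat_lit 169) (nat_lit 18) (.p (nat_lit 170) (nat_lit 18) (.n (nat_lit 171) (nat_lit 18) (.p (nat_lit 172) (nat_lit 18) (.n (nat_lit 174) (nat_lit 18) (.n (nat_lit 176) (nat_lit 18) .z)))))))) (.ct dr2_c4115 (nat_lit 18) (nat_lit 0) (.s false (nat_lit 1) (nat_lit 7) (nat_lit 3) (nat_lit 2) (nat_lit 3) true (nat_lit 0) true (nat_lit 4) true (nat_lit 2) true (nat_lit 4) true (nat_lit 5) (.s true (nat_lit 1) (nat_lit 7) (nat_lit 3) (nat_lit 3) (nat_lit 2) true (nat_lit 1) true (nat_lit 5) true (nat_lit 2) true (nat_lit 4) true (nat_lit 4) (.s true (nat_lit 1) (nat_lit 9) (nat_lit 0) (nat_lit 3) (nat_lit 3) true (nat_lit 2) true (nat_lit 4) true (nat_lit 1) true (nat_lit 6) true (nat_lit 4) (.s false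 (nat_lit 1) (nat_lit 10) (nat_lit 0) (nat_lit 2) (nat_lit 3) true (nat_lit 2) true (nat_lit 4) true (nat_lit 0) true (nat_lit 6) true (nat_lit 5) (.e false (nat_lit 18) (nat_lit 67) (nat_lit 3) (nat_lit 4) (.e false (nat_lit 36) (nat_lit 64) (nat_lit 3) (nat_lit 4) (.e false (nat_lit 54) (nat_lit 65) (nat_lit 3) (nat_lit 4) (.e true (nat_lit 18) (nat_lit 68) (nat_lit 3) (nat_lit 4) (.e false (nat_lit 18) (nat_lit 69) (nat_lit 3) (nat_lit 4) (.e true (nat_lit 18) (nat_lit 66) (nat_lit 3) (nat_lit 4) (.e true (nat_lit 18) (nat_lit 20) (nat_lit 10) (nat_lit 0) (.e true (nat_lit 18) (nat_lit 78) (nat_lit 2) (nat_lit 5) .nil))))))))))))) (.nd .leaf (nat_lit 21523) (nat_lit 410) (.p (nat_lit 194) (nat_lit 18) (.p (nat_lit 195) (nat_lit 18) (.p (nat_lit 197) (nat_lit 18) (.n (nat_lit 198) (nat_lit 18) (.n (nat_lit 199) (nat_lit 36) (.n (nat_lit 200) (nat_lit 18) (.n (nat_lit 201) (nat_lit 18) (.p (nat_lit 202) (nat_lit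 18) (.n (nat_lit 206) (nat_lit 18) (.p (nat_lit 207) (nat_lit 18) (.p (nat_lit 209) (nat_lit 18) (.p (nat_lit 210) (nat_lit 18) (.n (nat_lit 215) (nat_lit 18) (.p (nat_lit 233) (nat_lit 18) .z)))))))))))))) (.ct dr2_c4626 (nat_lit 18) (nat_lit 0) (.s false (nat_lit 1) (nat_lit 21) (nat_lit 3) (nat_lit 1) (nat_lit 1) true (nat_lit 7) true (nat_lit 14) false (nat_lit 0) true (nat_lit 12) true (nat_lit 14) (.e true (nat_lit 18) (nat_lit 48) (nat_lit 8) (nat_lit 7) (.e false (nat_lit 18) (nat_lit 132) (nat_lit 1) (nat_lit 14) (.e true (nat_lit 18) (nat_lit 122) (nat_lit 1) (nat_lit 14) .nil))))) .leaf)) (nat_lit 22529) (nat_lit 49) (.p (nat_lit 49) (nat_lit 18) .z) .df (.nd (.nd (.nd .leaf (nat_lit 22531) (nat_lit 77) (.p (nat_lit 66) (nat_lit 18) .z) .df .leaf) (nat_lit 22536) (nat_lit 196) (.n (nat_lit 115) (nat_lit 6) (.p (nat_lit 116) (nat_lit 12) (.p (nat_lit 117) (nat_lit 6) (.n (nat_lit 118) (nat_lit 6)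 (.p (nat_lit 119) (nat_lit 12) (.p (nat_lit 120) (nat_lit 12) (.n (nat_lit 122) (nat_lit 6) (.n (nat_lit 124) (nat_lit 6) (.n (nat_lit 125) (nat_lit 18) (.n (nat_lit 126) (nat_lit 6) (.n (nat_lit 127) (nat_lit 12) (.p (nat_lit 129) (nat_lit 18) (.n (nat_lit 130) (nat_lit 18) (.p (nat_lit 131) (nat_lit 6) (.n (nat_lit 133) (nat_lit 12) (.n (nat_lit 134) (nat_lit 6) (.p (nat_lit 135) (nat_lit 12) (.n (nat_lit 136) (nat_lit 6) (.n (nat_lit 137) (nat_lit 18) (.p (nat_lit 138) (nat_lit 6) (.p (nat_lit 139) (nat_lit 6) .z))))))))))))))))))))) (.ct dr2_c4370 (nat_lit 18) (nat_lit 2) (.s true (nat_lit 1) (nat_lit 8) (nat_lit 2) (nat_lit 3) (nat_lit 0) true (nat_lit 5) true (nat_lit 10) true (nat_lit 2) true (nat_lit 8) true (nat_lit 7) (.e false (nat_lit 18) (nat_lit 28) (nat_lit 5) (nat_lit 5) (.e true (nat_lit 18) (nat_lit 71) (nat_lit 0) (nat_lit 10) (.e true (nat_lit 18) (nat_lit 55) (nat_lit 2) (nat_lit 8) (.e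 true (nat_lit 18) (nat_lit 56) (nat_lit 2) (nat_lit 8) (.e false (nat_lit 18) (nat_lit 59) (nat_lit 2) (nat_lit 8) (.e true (nat_lit 18) (nat_lit 60) (nat_lit 2) (nat_lit 8) (.e false (nat_lit 18) (nat_lit 46) (nat_lit 3) (nat_lit 7) .nil))))))))) .leaf) (nat_lit 22538) (nat_lit 267) (.n (nat_lit 168) (nat_lit 18) (.p (nat_lit 169) (nat_lit 18) (.n (nat_lit 170) (nat_lit 18) (.n (nat_lit 171) (nat_lit 18) (.p (nat_lit 172) (nat_lit 18) (.p (nat_lit 173) (nat_lit 18) (.p (nat_lit 174) (nat_lit 18) (.p (nat_lit 175) (nat_lit 18) (.p (nat_lit 176) (nat_lit 18) .z))))))))) (.ct dr2_c4115 (nat_lit 18) (nat_lit 0) (.s true (nat_lit 1) (nat_lit 7) (nat_lit 2) (nat_lit 3) (nat_lit 3) true (nat_lit 1) true (nat_lit 4) true (nat_lit 2) true (nat_lit 5) true (nat_lit 4) (.s false (nat_lit 1) (nat_lit 9) (nat_lit 3) (nat_lit 0) (nat_lit 3) true (nat_lit 0) true (nat_lit 4) true (nat_lit 1) true (nat_lit 4) true (nat_lit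 6) (.s true (nat_lit 1) (nat_lit 9) (nat_lit 3) (nat_lit 3) (nat_lit 0) true (nat_lit 2) true (nat_lit 6) true (nat_lit 1) true (nat_lit 4) true (nat_lit 4) (.s true (nat_lit 1) (nat_lit 10) (nat_lit 3) (nat_lit 0) (nat_lit 2) true (nat_lit 1) true (nat_lit 5) true (nat_lit 0) true (nat_lit 4) true (nat_lit 6) (.e false (nat_lit 36) (nat_lit 65) (nat_lit 3) (nat_lit 4) (.e false (nat_lit 18) (nat_lit 77) (nat_lit 2) (nat_lit 5) (.e false (nat_lit 36) (nat_lit 69) (nat_lit 3) (nat_lit 4) (.e false (nat_lit 36) (nat_lit 64) (nat_lit 3) (nat_lit 4) (.e true (nat_lit 36) (nat_lit 68) (nat_lit 3) (nat_lit 4) (.e true (nat_lit 18) (nat_lit 21) (nat_lit 10) (nat_lit 0) (.e false (nat_lit 18) (nat_lit 83) (nat_lit 0) (nat_lit 6) .nil)))))))))))) (.nd .leaf (nat_lit 23552) (nat_lit 50) (.p (nat_lit 50) (nat_lit 18) .z) .df .leaf))) (nat_lit 23553) (nat_lit 58) (.p (nat_lit 53) (nat_lit 18) .z) .df (.nd (.nd (.nd (.nd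 .leaf (nat_lit 23555) (nat_lit 84) (.p (nat_lit 70) (nat_lit 18) .z) .df .leaf) (nat_lit 23556) (nat_lit 134) (.n (nat_lit 86) (nat_lit 18) (.p (nat_lit 89) (nat_lit 18) (.n (nat_lit 90) (nat_lit 18) (.p (nat_lit 91) (nat_lit 18) (.p (nat_lit 95) (nat_lit 18) (.n (nat_lit 103) (nat_lit 18) .z)))))) (.ct dr2_c4625 (nat_lit 18) (nat_lit 5) (.s true (nat_lit 1) (nat_lit 4) (nat_lit 2) (nat_lit 1) (nat_lit 3) true (nat_lit 0) true (nat_lit 6) true (nat_lit 5) true (nat_lit 7) true (nat_lit 8) (.e true (nat_lit 18) (nat_lit 11) (nat_lit 9) (nat_lit 0) (.e true (nat_lit 18) (nat_lit 34) (nat_lit 3) (nat_lit 6) (.e false (nat_lit 18) (nat_lit 37) (nat_lit 2) (nat_lit 7) (.e true (nat_lit 18) (nat_lit 39) (nat_lit 2) (nat_lit 7) (.e false (nat_lit 18) (nat_lit 40) (nat_lit 2) (nat_lit 7) (.e false (nat_lit 18) (nat_lit 44) (nat_lit 1) (nat_lit 8) .nil)))))))) .leaf) (nat_lit 23559) (nat_lit 185) (.n (nat_lit 117)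 (nat_lit 18) (.n (nat_lit 118) (nat_lit 18) (.n (nat_lit 119) (nat_lit 18) (.n (nat_lit 120) (nat_lit 18) (.p (nat_lit 121) (nat_lit 18) (.p (nat_lit 122) (nat_lit 18) (.p (nat_lit 123) (nat_lit 18) (.p (nat_lit 124) (nat_lit 18) (.n (nat_lit 125) (nat_lit 18) (.p (nat_lit 128) (nat_lit 18) (.p (nat_lit 129) (nat_lit 18) (.n (nat_lit 130) (nat_lit 18) (.p (nat_lit 131) (nat_lit 18) (.n (nat_lit 133) (nat_lit 18) (.n (nat_lit 134) (nat_lit 18) (.p (nat_lit 135) (nat_lit 18) (.p (nat_lit 139) (nat_lit 18) .z))))))))))))))))) (.ct dr2_c4370 (nat_lit 18) (nat_lit 3) (.s false (nat_lit 1) (nat_lit 7) (nat_lit 1) (nat_lit 3) (nat_lit 2) true (nat_lit 4) true (nat_lit 8) true (nat_lit 3) true (nat_lit 9) true (nat_lit 7) (.s false (nat_lit 1) (nat_lit 7) (nat_lit 2) (nat_lit 1) (nat_lit 3) true (nat_lit 1) true (nat_lit 7) true (nat_lit 3) true (nat_lit 8) true (nat_lit 9) (.s false (nat_lit 1) (nat_lit 7) (nat_lit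 3) (nat_lit 1) (nat_lit 2) true (nat_lit 1) true (nat_lit 8) true (nat_lit 3) true (nat_lit 7) true (nat_lit 9) (.e false (nat_lit 18) (nat_lit 26) (nat_lit 6) (nat_lit 4) (.e false (nat_lit 18) (nat_lit 64) (nat_lit 1) (nat_lit 9) (.e true (nat_lit 18) (nat_lit 68) (nat_lit 1) (nat_lit 9) (.e false (nat_lit 18) (nat_lit 69) (nat_lit 1) (nat_lit 9) (.e false (nat_lit 18) (nat_lit 48) (nat_lit 3) (nat_lit 7) (.e true (nat_lit 18) (nat_lit 55) (nat_lit 2) (nat_lit 8) (.e false (nat_lit 18) (nat_lit 59) (nat_lit 2) (nat_lit 8) (.e true (nat_lit 18) (nat_lit 60) (nat_lit 2) (nat_lit 8) (.e true (nat_lit 18) (nat_lit 67) (nat_lit 1) (nat_lit 9) (.e false (nat_lit 18) (nat_lit 58) (nat_lit 2) (nat_lit 8) (.e true (nat_lit 18) (nat_lit 43) (nat_lit 3) (nat_lit 7) (.e true (nat_lit 18) (nat_lit 44) (nat_lit 3) (nat_lit 7) (.e true (nat_lit 18) (nat_lit 45) (nat_lit 3) (nat_lit 7) (.e true (nat_lit 18) (nat_lit 46)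 (nat_lit 3) (nat_lit 7) (.e false (nat_lit 18) (nat_lit 47) (nat_lit 3) (nat_lit 7) (.e false (nat_lit 18) (nat_lit 49) (nat_lit 3) (nat_lit 7) (.e false (nat_lit 18) (nat_lit 50) (nat_lit 3) (nat_lit 7) .nil))))))))))))))))))))) (.nd .leaf (nat_lit 23560) (nat_lit 220) (.n (nat_lit 141) (nat_lit 18) (.p (nat_lit 146) (nat_lit 18) (.n (nat_lit 147) (nat_lit 18) .z))) (.ct dr2_c530 (nat_lit 18) (nat_lit 2) (.s true (nat_lit 1) (nat_lit 6) (nat_lit 1) (nat_lit 3) (nat_lit 3) true (nat_lit 2) true (nat_lit 4) true (nat_lit 3) true (nat_lit 6) true (nat_lit 4) (.e true (nat_lit 18) (nat_lit 51) (nat_lit 3) (nat_lit 4) (.e false (nat_lit 18) (nat_lit 28) (nat_lit 6) (nat_lit 3) (.e false (nat_lit 18) (nat_lit 71) (nat_lit 1) (nat_lit 6) (.e true (nat_lit 18) (nat_lit 72) (nat_lit 1) (nat_lit 6) (.e false (nat_lit 18) (nat_lit 73) (nat_lit 1) (nat_lit 6) (.e true (nat_lit 18) (nat_lit 75) (nat_lit 1) (nat_lit 6)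 (.e true (nat_lit 18) (nat_lit 53) (nat_lit 3) (nat_lit 4) .nil))))))))) .leaf)) (nat_lit 23562) (nat_lit 283) (.p (nat_lit 187) (nat_lit 18) .z) .df (.nd (.nd .leaf (nat_lit 23568) (nat_lit 406) (.p (nat_lit 189) (nat_lit 45) (.n (nat_lit 190) (nat_lit 63) (.p (nat_lit 191) (nat_lit 63) (.p (nat_lit 192) (nat_lit 6) (.n (nat_lit 193) (nat_lit 48) (.n (nat_lit 194) (nat_lit 33) (.n (nat_lit 195) (nat_lit 48) (.n (nat_lit 196) (nat_lit 57) (.n (nat_lit 197) (nat_lit 66) (.p (nat_lit 198) (nat_lit 36) (.p (nat_lit 199) (nat_lit 69) (.p (nat_lit 200) (nat_lit 36) (.p (nat_lit 201) (nat_lit 96) (.p (nat_lit 202) (nat_lit 45) (.p (nat_lit 203) (nat_lit 24) (.n (nat_lit 204) (nat_lit 15) (.p (nat_lit 205) (nat_lit 27) (.n (nat_lit 206) (nat_lit 36) (.p (nat_lit 207) (nat_lit 27) (.n (nat_lit 208) (nat_lit 33) (.p (nat_lit 210) (nat_lit 21) (.p (nat_lit 211) (nat_lit 15) (.n (nat_lit 212) (nat_lit 39) (.p (nat_lit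 213) (nat_lit 42) (.p (nat_lit 214) (nat_lit 3) (.n (nat_lit 215) (nat_lit 42) (.n (nat_lit 218) (nat_lit 9) (.n (nat_lit 220) (nat_lit 27) (.p (nat_lit 222) (nat_lit 27) (.p (nat_lit 224) (nat_lit 45) (.n (nat_lit 225) (nat_lit 27) (.p (nat_lit 226) (nat_lit 27) (.n (nat_lit 227) (nat_lit 18) (.p (nat_lit 228) (nat_lit 9) (.p (nat_lit 229) (nat_lit 36) (.n (nat_lit 230) (nat_lit 18) (.n (nat_lit 231) (nat_lit 18) (.n (nat_lit 232) (nat_lit 9) (.p (nat_lit 233) (nat_lit 18) (.n (nat_lit 235) (nat_lit 27) (.p (nat_lit 236) (nat_lit 18) (.n (nat_lit 237) (nat_lit 54) (.p (nat_lit 238) (nat_lit 18) (.p (nat_lit 239) (nat_lit 36) (.p (nat_lit 240) (nat_lit 18) .z))))))))))))))))))))))))))))))))))))))))))))) (.ct dr2_c4626 (nat_lit 18) (nat_lit 1) (.s true (nat_lit 1) (nat_lit 23) (nat_lit 0) (nat_lit 1) (nat_lit 3) true (nat_lit 8) true (nat_lit 12) false (nat_lit 1) true (nat_lit 15) true (nat_lit 14) (.e true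 (nat_lit 18) (nat_lit 53) (nat_lit 7) (nat_lit 8) (.e true (nat_lit 18) (nat_lit 100) (nat_lit 3) (nat_lit 12) (.e false (nat_lit 18) (nat_lit 141) (nat_lit 0) (nat_lit 15) (.e true (nat_lit 18) (nat_lit 146) (nat_lit 0) (nat_lit 15) (.e false (nat_lit 18) (nat_lit 147) (nat_lit 0) (nat_lit 15) (.e false (nat_lit 18) (nat_lit 136) (nat_lit 1) (nat_lit 14) .nil)))))))) .leaf) (nat_lit 23569) (nat_lit 407) (.n (nat_lit 189) (nat_lit 18) (.p (nat_lit 190) (nat_lit 18) (.n (nat_lit 191) (nat_lit 18) (.n (nat_lit 201) (nat_lit 18) (.p (nat_lit 235) (nat_lit 18) (.n (nat_lit 238) (nat_lit 18) .z)))))) (.ct dr2_c4626 (nat_lit 18) (nat_lit 1) (.s true (nat_lit 1) (nat_lit 23) (nat_lit 0) (nat_lit 3) (nat_lit 1) true (nat_lit 11) true (nat_lit 14) false (nat_lit 1) true (nat_lit 15) true (nat_lit 12) (.e true (nat_lit 18) (nat_lit 70) (nat_lit 4) (nat_lit 11) (.e true (nat_lit 18) (nat_lit 124) (nat_lit 1) (nat_lit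 14) (.e true (nat_lit 18) (nat_lit 141) (nat_lit 0) (nat_lit 15) (.e false (nat_lit 18) (nat_lit 146) (nat_lit 0) (nat_lit 15) (.e true (nat_lit 18) (nat_lit 147) (nat_lit 0) (nat_lit 15) (.e false (nat_lit 18) (nat_lit 102) (nat_lit 3) (nat_lit 12) .nil)))))))) (.nd .leaf (nat_lit 23570) (nat_lit 401) (.n (nat_lit 189) (nat_lit 45) (.p (nat_lit 190) (nat_lit 45) (.n (nat_lit 191) (nat_lit 45) (.n (nat_lit 192) (nat_lit 6) (.p (nat_lit 193) (nat_lit 48) (.p (nat_lit 194) (nat_lit 15) (.p (nat_lit 195) (nat_lit 30) (.p (nat_lit 196) (nat_lit 39) (.p (nat_lit 197) (nat_lit 48) (.n (nat_lit 198) (nat_lit 18) (.n (nat_lit 199) (nat_lit 51) (.n (nat_lit 200) (nat_lit 18) (.n (nat_lit 201) (nat_lit 78) (.n (nat_lit 202) (nat_lit 63) (.n (nat_lit 203) (nat_lit 24) (.p (nat_lit 204) (nat_lit 15) (.n (nat_lit 205) (nat_lit 9) (.p (nat_lit 206) (nat_lit 54) (.n (nat_lit 207) (nat_lit 45) (.p (nat_lit 208) (nat_lit 51)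 (.n (nat_lit 210) (nat_lit 39) (.n (nat_lit 211) (nat_lit 33) (.p (nat_lit 212) (nat_lit 57) (.n (nat_lit 213) (nat_lit 24) (.n (nat_lit 214) (nat_lit 3) (.p (nat_lit 215) (nat_lit 60) (.p (nat_lit 218) (nat_lit 9) (.p (nat_lit 220) (nat_lit 27) (.n (nat_lit 222) (nat_lit 27) (.n (nat_lit 224) (nat_lit 45) (.p (nat_lit 225) (nat_lit 27) (.n (nat_lit 226) (nat_lit 27) (.p (nat_lit 227) (nat_lit 18) (.n (nat_lit 228) (nat_lit 9) (.n (nat_lit 229) (nat_lit 36) (.p (nat_lit 230) (nat_lit 18) (.p (nat_lit 231) (nat_lit 18) (.p (nat_lit 232) (nat_lit 9) (.n (nat_lit 233) (nat_lit 18) (.p (nat_lit 235) (nat_lit 27) (.n (nat_lit 236) (nat_lit 18) (.p (nat_lit 237) (nat_lit 36) (.n (nat_lit 239) (nat_lit 36) (.n (nat_lit 240) (nat_lit 18) .z)))))))))))))))))))))))))))))))))))))))))))) (.ct dr2_c4626 (nat_lit 18) (nat_lit 1) (.s false (nat_lit 1) (nat_lit 23) (nat_lit 3) (nat_lit 1) (nat_lit 0) true (nat_lit 8) true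 (nat_lit 15) false (nat_lit 1) true (nat_lit 12) true (nat_lit 14) (.e true (nat_lit 18) (nat_lit 53) (nat_lit 7) (nat_lit 8) (.e false (nat_lit 18) (nat_lit 145) (nat_lit 0) (nat_lit 15) (.e false (nat_lit 18) (nat_lit 86) (nat_lit 3) (nat_lit 12) (.e true (nat_lit 18) (nat_lit 89) (nat_lit 3) (nat_lit 12) (.e false (nat_lit 18) (nat_lit 90) (nat_lit 3) (nat_lit 12) (.e true (nat_lit 18) (nat_lit 91) (nat_lit 3) (nat_lit 12) (.e true (nat_lit 18) (nat_lit 95) (nat_lit 3) (nat_lit 12) (.e false (nat_lit 18) (nat_lit 103) (nat_lit 3) (nat_lit 12) (.e true (nat_lit 18) (nat_lit 124) (nat_lit 1) (nat_lit 14) .nil))))))))))) .leaf))))) (nat_lit 24576) (nat_lit 51) (.p (nat_lit 42) (nat_lit 18) (.p (nat_lit 43) (nat_lit 18) (.p (nat_lit 45) (nat_lit 18) (.p (nat_lit 46) (nat_lit 18) (.n (nat_lit 47) (nat_lit 18) (.n (nat_lit 48) (nat_lit 18) (.n (nat_lit 50) (nat_lit 18) .z))))))) (.ct dr2_c4369 (nat_lit 18) (nat_lit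 6) (.s true (nat_lit 1) (nat_lit 3) (nat_lit 0) (nat_lit 2) (nat_lit 1) true (nat_lit 2) true (nat_lit 5) true (nat_lit 3) true (nat_lit 6) true (nat_lit 4) (.s true (nat_lit 1) (nat_lit 3) (nat_lit 1) (nat_lit 2) (nat_lit 0) true (nat_lit 2) true (nat_lit 6) true (nat_lit 3) true (nat_lit 5) true (nat_lit 4) (.e true (nat_lit 18) (nat_lit 21) (nat_lit 1) (nat_lit 5) (.e false (nat_lit 18) (nat_lit 13) (nat_lit 3) (nat_lit 3) (.e true (nat_lit 18) (nat_lit 23) (nat_lit 0) (nat_lit 6) (.e false (nat_lit 18) (nat_lit 18) (nat_lit 2) (nat_lit 4) (.e false (nat_lit 18) (nat_lit 14) (nat_lit 3) (nat_lit 3) (.e true (nat_lit 18) (nat_lit 20) (nat_lit 1) (nat_lit 5) (.e false (nat_lit 18) (nat_lit 17) (nat_lit 2) (nat_lit 4) .nil)))))))))) (.nd (.nd (.nd (.nd (.nd (.nd .leaf (nat_lit 24577) (nat_lit 60) (.p (nat_lit 51) (nat_lit 18) (.p (nat_lit 52) (nat_lit 18) (.n (nat_lit 53) (nat_lit 18) .z))) (.ct dr2_c529 (nat_lit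 18) (nat_lit 3) (.s true (nat_lit 1) (nat_lit 3) (nat_lit 1) (nat_lit 2) (nat_lit 1) false (nat_lit 4) true (nat_lit 3) true (nat_lit 1) true (nat_lit 3) true (nat_lit 2) (.e false (nat_lit 18) (nat_lit 15) (nat_lit 3) (nat_lit 1) (.e true (nat_lit 18) (nat_lit 23) (nat_lit 1) (nat_lit 3) (.e false (nat_lit 18) (nat_lit 19) (nat_lit 2) (nat_lit 2) .nil))))) .leaf) (nat_lit 24579) (nat_lit 85) (.p (nat_lit 71) (nat_lit 18) .z) .df .leaf) (nat_lit 24580) (nat_lit 135) (.n (nat_lit 85) (nat_lit 18) (.n (nat_lit 86) (nat_lit 18) (.p (nat_lit 89) (nat_lit 36) (.n (nat_lit 90) (nat_lit 18) (.p (nat_lit 91) (nat_lit 18) (.p (nat_lit 93) (nat_lit 18) (.p (nat_lit 94) (nat_lit 18) (.p (nat_lit 95) (nat_lit 18) (.p (nat_lit 96) (nat_lit 18) (.p (nat_lit 97) (nat_lit 18) (.n (nat_lit 98) (nat_lit 36) (.n (nat_lit 100) (nat_lit 36) (.n (nat_lit 103) (nat_lit 18) .z))))))))))))) (.ct dr2_c4625 (nat_lit 18) (nat_lit 5)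 (.s true (nat_lit 1) (nat_lit 4) (nat_lit 3) (nat_lit 1) (nat_lit 2) true (nat_lit 0) true (nat_lit 7) true (nat_lit 5) true (nat_lit 6) true (nat_lit 8) (.e false (nat_lit 18) (nat_lit 11) (nat_lit 9) (nat_lit 0) (.e true (nat_lit 18) (nat_lit 38) (nat_lit 2) (nat_lit 7) (.e false (nat_lit 18) (nat_lit 33) (nat_lit 3) (nat_lit 6) (.e true (nat_lit 18) (nat_lit 35) (nat_lit 3) (nat_lit 6) (.e false (nat_lit 18) (nat_lit 36) (nat_lit 3) (nat_lit 6) (.e false (nat_lit 18) (nat_lit 41) (nat_lit 1) (nat_lit 8) .nil)))))))) (.nd .leaf (nat_lit 24583) (nat_lit 197) (.p (nat_lit 122) (nat_lit 18) (.n (nat_lit 126) (nat_lit 18) (.n (nat_lit 131) (nat_lit 18) (.n (nat_lit 132) (nat_lit 18) (.p (nat_lit 134) (nat_lit 18) (.n (nat_lit 135) (nat_lit 18) (.n (nat_lit 139) (nat_lit 18) .z))))))) (.ct dr2_c4370 (nat_lit 18) (nat_lit 3) (.s true (nat_lit 1) (nat_lit 7) (nat_lit 1) (nat_lit 3) (nat_lit 2) true (nat_lit 4)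 true (nat_lit 8) true (nat_lit 3) true (nat_lit 9) true (nat_lit 7) (.e true (nat_lit 18) (nat_lit 26) (nat_lit 6) (nat_lit 4) (.e true (nat_lit 18) (nat_lit 56) (nat_lit 2) (nat_lit 8) (.e true (nat_lit 18) (nat_lit 64) (nat_lit 1) (nat_lit 9) (.e true (nat_lit 18) (nat_lit 65) (nat_lit 1) (nat_lit 9) (.e false (nat_lit 18) (nat_lit 68) (nat_lit 1) (nat_lit 9) (.e true (nat_lit 18) (nat_lit 69) (nat_lit 1) (nat_lit 9) (.e false (nat_lit 18) (nat_lit 48) (nat_lit 3) (nat_lit 7) .nil))))))))) .leaf)) (nat_lit 24584) (nat_lit 221) (.p (nat_lit 140) (nat_lit 18) (.n (nat_lit 141) (nat_lit 18) (.n (nat_lit 143) (nat_lit 18) (.n (nat_lit 145) (nat_lit 18) (.n (nat_lit 146) (nat_lit 18) (.p (nat_lit 148) (nat_lit 18) (.p (nat_lit 149) (nat_lit 18) (.n (nat_lit 150) (nat_lit 36) .z)))))))) (.ct dr2_c530 (nat_lit 18) (nat_lit 2) (.s false (nat_lit 1) (nat_lit 8) (nat_lit 3) (nat_lit 1) (nat_lit 2) true (nat_lit 1)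 true (nat_lit 5) true (nat_lit 2) true (nat_lit 4) true (nat_lit 6) (.e true (nat_lit 18) (nat_lit 19) (nat_lit 9) (nat_lit 1) (.e false (nat_lit 18) (nat_lit 62) (nat_lit 2) (nat_lit 5) (.e true (nat_lit 18) (nat_lit 52) (nat_lit 3) (nat_lit 4) (.e false (nat_lit 18) (nat_lit 53) (nat_lit 3) (nat_lit 4) (.e false (nat_lit 18) (nat_lit 54) (nat_lit 3) (nat_lit 4) (.e true (nat_lit 18) (nat_lit 71) (nat_lit 1) (nat_lit 6) .nil)))))))) (.nd (.nd (.nd .leaf (nat_lit 24586) (nat_lit 285) (.p (nat_lit 178) (nat_lit 36) (.p (nat_lit 179) (nat_lit 54) (.n (nat_lit 180) (nat_lit 18) (.p (nat_lit 181) (nat_lit 18) (.n (nat_lit 182) (nat_lit 18) (.p (nat_lit 183) (nat_lit 18) (.n (nat_lit 185) (nat_lit 18) (.n (nat_lit 187) (nat_lit 18) .z)))))))) (.ct dr2_c275 (nat_lit 18) (nat_lit 0) (.s false (nat_lit 1) (nat_lit 8) (nat_lit 3) (nat_lit 2) (nat_lit 3) true (nat_lit 0) true (nat_lit 4) true (nat_lit 2) true (nat_lit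 4) true (nat_lit 5) (.s true (nat_lit 1) (nat_lit 8) (nat_lit 3) (nat_lit 3) (nat_lit 2) true (nat_lit 1) true (nat_lit 5) true (nat_lit 2) true (nat_lit 4) true (nat_lit 4) (.s true (nat_lit 1) (nat_lit 9) (nat_lit 1) (nat_lit 3) (nat_lit 3) true (nat_lit 2) true (nat_lit 4) true (nat_lit 1) true (nat_lit 6) true (nat_lit 4) (.s false (nat_lit 1) (nat_lit 10) (nat_lit 1) (nat_lit 2) (nat_lit 3) true (nat_lit 2) true (nat_lit 4) true (nat_lit 0) true (nat_lit 6) true (nat_lit 5) (.e false (nat_lit 18) (nat_lit 73) (nat_lit 3) (nat_lit 4) (.e false (nat_lit 36) (nat_lit 70) (nat_lit 3) (nat_lit 4) (.e false (nat_lit 54) (nat_lit 71) (nat_lit 3) (nat_lit 4) (.e true (nat_lit 18) (nat_lit 74) (nat_lit 3) (nat_lit 4) (.e false (nat_lit 18) (nat_lit 75) (nat_lit 3) (nat_lit 4) (.e true (nat_lit 18) (nat_lit 72) (nat_lit 3) (nat_lit 4) (.e true (nat_lit 18) (nat_lit 23) (nat_lit 10) (nat_lit 0) (.e true (nat_lit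 18) (nat_lit 81) (nat_lit 2) (nat_lit 5) .nil))))))))))))) .leaf) (nat_lit 24592) (nat_lit 399) (.n (nat_lit 189) (nat_lit 9) (.p (nat_lit 190) (nat_lit 27) (.n (nat_lit 191) (nat_lit 45) (.p (nat_lit 192) (nat_lit 12) (.p (nat_lit 193) (nat_lit 12) (.p (nat_lit 194) (nat_lit 33) (.p (nat_lit 195) (nat_lit 12) (.p (nat_lit 196) (nat_lit 75) (.p (nat_lit 197) (nat_lit 66) (.n (nat_lit 198) (nat_lit 72) (.n (nat_lit 199) (nat_lit 15) (.n (nat_lit 200) (nat_lit 54) (.n (nat_lit 201) (nat_lit 60) (.n (nat_lit 202) (nat_lit 45) (.n (nat_lit 203) (nat_lit 60) (.p (nat_lit 204) (nat_lit 15) (.n (nat_lit 205) (nat_lit 63) (.p (nat_lit 206) (nat_lit 36) (.n (nat_lit 207) (nat_lit 27) (.n (nat_lit 208) (nat_lit 39) (.n (nat_lit 209) (nat_lit 18) (.n (nat_lit 210) (nat_lit 3) (.p (nat_lit 211) (nat_lit 39) (.n (nat_lit 212) (nat_lit 33) (.n (nat_lit 213) (nat_lit 6) (.n (nat_lit 214) (nat_lit 3) (.p (nat_lit 215) (nat_lit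 24) (.p (nat_lit 216) (nat_lit 36) (.n (nat_lit 218) (nat_lit 9) (.p (nat_lit 219) (nat_lit 36) (.n (nat_lit 220) (nat_lit 9) (.p (nat_lit 221) (nat_lit 18) (.p (nat_lit 222) (nat_lit 9) (.n (nat_lit 223) (nat_lit 18) (.n (nat_lit 224) (nat_lit 45) (.p (nat_lit 225) (nat_lit 27) (.n (nat_lit 226) (nat_lit 27) (.p (nat_lit 227) (nat_lit 18) (.n (nat_lit 228) (nat_lit 27) (.p (nat_lit 229) (nat_lit 18) (.n (nat_lit 230) (nat_lit 18) (.p (nat_lit 231) (nat_lit 18) (.n (nat_lit 232) (nat_lit 27) (.p (nat_lit 233) (nat_lit 18) (.p (nat_lit 235) (nat_lit 27) (.p (nat_lit 237) (nat_lit 36) (.n (nat_lit 238) (nat_lit 18) (.n (nat_lit 240) (nat_lit 36) .z)))))))))))))))))))))))))))))))))))))))))))))))) (.ct dr2_c4626 (nat_lit 18) (nat_lit 1) (.s false (nat_lit 1) (nat_lit 8) (nat_lit 4) (nat_lit 2) (nat_lit 3) true (nat_lit 1) true (nat_lit 12) true (nat_lit 7) true (nat_lit 11) true (nat_lit 13) (.e false (nat_lit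 18) (nat_lit 89) (nat_lit 3) (nat_lit 12) (.e true (nat_lit 18) (nat_lit 90) (nat_lit 3) (nat_lit 12) (.e false (nat_lit 18) (nat_lit 91) (nat_lit 3) (nat_lit 12) (.e true (nat_lit 18) (nat_lit 41) (nat_lit 8) (nat_lit 7) (.e true (nat_lit 18) (nat_lit 70) (nat_lit 4) (nat_lit 11) (.e true (nat_lit 18) (nat_lit 71) (nat_lit 4) (nat_lit 11) (.e false (nat_lit 18) (nat_lit 74) (nat_lit 4) (nat_lit 11) (.e true (nat_lit 18) (nat_lit 75) (nat_lit 4) (nat_lit 11) (.e true (nat_lit 18) (nat_lit 104) (nat_lit 2) (nat_lit 13) (.e false (nat_lit 18) (nat_lit 110) (nat_lit 2) (nat_lit 13) (.e true (nat_lit 18) (nat_lit 112) (nat_lit 2) (nat_lit 13) .nil))))))))))))) .leaf) (nat_lit 24593) (nat_lit 396) (.n (nat_lit 189) (nat_lit 27) (.p (nat_lit 190) (nat_lit 45) (.n (nat_lit 191) (nat_lit 63) (.p (nat_lit 192) (nat_lit 12) (.p (nat_lit 193) (nat_lit 48) (.p (nat_lit 194) (nat_lit 33) (.p (nat_lit 195) (nat_lit 48)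 (.p (nat_lit 196) (nat_lit 57) (.p (nat_lit 197) (nat_lit 84) (.n (nat_lit 198) (nat_lit 54) (.n (nat_lit 199) (nat_lit 51) (.n (nat_lit 200) (nat_lit 36) (.n (nat_lit 201) (nat_lit 96) (.n (nat_lit 202) (nat_lit 63) (.n (nat_lit 203) (nat_lit 60) (.p (nat_lit 204) (nat_lit 33) (.n (nat_lit 205) (nat_lit 45) (.p (nat_lit 206) (nat_lit 54) (.n (nat_lit 207) (nat_lit 45) (.p (nat_lit 208) (nat_lit 15) (.n (nat_lit 209) (nat_lit 18) (.n (nat_lit 210) (nat_lit 21) (.p (nat_lit 211) (nat_lit 3) (.p (nat_lit 212) (nat_lit 21) (.n (nat_lit 213) (nat_lit 24) (.n (nat_lit 214) (nat_lit 3) (.p (nat_lit 215) (nat_lit 42) (.n (nat_lit 217) (nat_lit 18) (.p (nat_lit 218) (nat_lit 27) (.p (nat_lit 220) (nat_lit 27) (.n (nat_lit 222) (nat_lit 27) (.n (nat_lit 224) (nat_lit 63) (.p (nat_lit 225) (nat_lit 45) (.n (nat_lit 226) (nat_lit 45) (.p (nat_lit 227) (nat_lit 18) (.n (nat_lit 228) (nat_lit 9) (.n (nat_lit 229) (nat_lit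 18) (.n (nat_lit 230) (nat_lit 18) (.n (nat_lit 232) (nat_lit 27) (.p (nat_lit 233) (nat_lit 18) (.p (nat_lit 235) (nat_lit 45) (.p (nat_lit 237) (nat_lit 36) (.n (nat_lit 238) (nat_lit 18) (.n (nat_lit 239) (nat_lit 36) (.n (nat_lit 240) (nat_lit 36) .z))))))))))))))))))))))))))))))))))))))))))))) (.ct dr2_c4626 (nat_lit 18) (nat_lit 1) (.s false (nat_lit 1) (nat_lit 8) (nat_lit 7) (nat_lit 2) (nat_lit 1) true (nat_lit 1) true (nat_lit 14) true (nat_lit 7) true (nat_lit 8) true (nat_lit 13) (.e true (nat_lit 18) (nat_lit 125) (nat_lit 1) (nat_lit 14) (.e true (nat_lit 18) (nat_lit 126) (nat_lit 1) (nat_lit 14) (.e false (nat_lit 18) (nat_lit 129) (nat_lit 1) (nat_lit 14) (.e true (nat_lit 18) (nat_lit 130) (nat_lit 1) (nat_lit 14) (.e true (nat_lit 18) (nat_lit 48) (nat_lit 8) (nat_lit 7) (.e false (nat_lit 18) (nat_lit 52) (nat_lit 7) (nat_lit 8) (.e true (nat_lit 18) (nat_lit 53) (nat_lit 7) (nat_lit 8)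 (.e true (nat_lit 18) (nat_lit 54) (nat_lit 7) (nat_lit 8) (.e true (nat_lit 18) (nat_lit 105) (nat_lit 2) (nat_lit 13) (.e false (nat_lit 18) (nat_lit 107) (nat_lit 2) (nat_lit 13) (.e false (nat_lit 36) (nat_lit 108) (nat_lit 2) (nat_lit 13) (.e true (nat_lit 18) (nat_lit 111) (nat_lit 2) (nat_lit 13) (.e false (nat_lit 18) (nat_lit 112) (nat_lit 2) (nat_lit 13) .nil))))))))))))))) (.nd .leaf (nat_lit 24594) (nat_lit 395) (.n (nat_lit 189) (nat_lit 54) (.p (nat_lit 190) (nat_lit 72) (.n (nat_lit 191) (nat_lit 72) (.n (nat_lit 192) (nat_lit 6) (.n (nat_lit 193) (nat_lit 24) (.p (nat_lit 194) (nat_lit 6) (.n (nat_lit 195) (nat_lit 6) (.p (nat_lit 196) (nat_lit 48) (.p (nat_lit 197) (nat_lit 12) (.n (nat_lit 198) (nat_lit 36) (.n (nat_lit 199) (nat_lit 6) (.n (nat_lit 200) (nat_lit 36) (.n (nat_lit 201) (nat_lit 60) (.n (nat_lit 202) (nat_lit 36) (.p (nat_lit 203) (nat_lit 12) (.p (nat_lit 204) (nat_lit 6)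 (.n (nat_lit 205) (nat_lit 18) (.p (nat_lit 206) (nat_lit 27) (.n (nat_lit 207) (nat_lit 36) (.p (nat_lit 208) (nat_lit 24) (.p (nat_lit 210) (nat_lit 6) (.n (nat_lit 211) (nat_lit 15) (.p (nat_lit 212) (nat_lit 12) (.n (nat_lit 213) (nat_lit 6) (.p (nat_lit 214) (nat_lit 6) (.p (nat_lit 215) (nat_lit 60) (.p (nat_lit 216) (nat_lit 18) (.n (nat_lit 217) (nat_lit 18) (.n (nat_lit 218) (nat_lit 27) (.p (nat_lit 219) (nat_lit 27) (.n (nat_lit 220) (nat_lit 9) (.p (nat_lit 221) (nat_lit 9) (.p (nat_lit 222) (nat_lit 9) (.n (nat_lit 223) (nat_lit 9) (.n (nat_lit 224) (nat_lit 36) (.p (nat_lit 225) (nat_lit 18) (.n (nat_lit 226) (nat_lit 18) (.p (nat_lit 227) (nat_lit 18) (.p (nat_lit 228) (nat_lit 18) (.p (nat_lit 229) (nat_lit 18) (.p (nat_lit 231) (nat_lit 18) (.n (nat_lit 232) (nat_lit 36) (.p (nat_lit 235) (nat_lit 54) (.n (nat_lit 236) (nat_lit 18) (.p (nat_lit 237) (nat_lit 36) (.n (nat_lit 238) (nat_lit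 54) (.p (nat_lit 239) (nat_lit 18) (.n (nat_lit 240) (nat_lit 36) .z)))))))))))))))))))))))))))))))))))))))))))))))) (.ct dr2_c4626 (nat_lit 18) (nat_lit 1) (.s false (nat_lit 1) (nat_lit 18) (nat_lit 3) (nat_lit 1) (nat_lit 2) true (nat_lit 6) true (nat_lit 13) true (nat_lit 1) true (nat_lit 12) true (nat_lit 14) (.e true (nat_lit 18) (nat_lit 40) (nat_lit 9) (nat_lit 6) (.e false (nat_lit 18) (nat_lit 109) (nat_lit 2) (nat_lit 13) (.e true (nat_lit 18) (nat_lit 87) (nat_lit 3) (nat_lit 12) (.e false (nat_lit 18) (nat_lit 89) (nat_lit 3) (nat_lit 12) (.e true (nat_lit 18) (nat_lit 90) (nat_lit 3) (nat_lit 12) (.e false (nat_lit 18) (nat_lit 91) (nat_lit 3) (nat_lit 12) (.e false (nat_lit 18) (nat_lit 92) (nat_lit 3) (nat_lit 12) (.e false (nat_lit 18) (nat_lit 93) (nat_lit 3) (nat_lit 12) (.e false (nat_lit 18) (nat_lit 94) (nat_lit 3) (nat_lit 12) (.e false (nat_lit 18) (nat_lit 97) (nat_lit 3) (nat_lit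 12) (.e true (nat_lit 18) (nat_lit 98) (nat_lit 3) (nat_lit 12) (.e false (nat_lit 18) (nat_lit 99) (nat_lit 3) (nat_lit 12) (.e true (nat_lit 18) (nat_lit 101) (nat_lit 3) (nat_lit 12) (.e true (nat_lit 18) (nat_lit 120) (nat_lit 1) (nat_lit 14) .nil)))))))))))))))) .leaf))) (nat_lit 25600) (nat_lit 52) (.p (nat_lit 41) (nat_lit 18) (.n (nat_lit 43) (nat_lit 18) (.n (nat_lit 44) (nat_lit 18) (.n (nat_lit 45) (nat_lit 18) (.p (nat_lit 48) (nat_lit 18) (.p (nat_lit 49) (nat_lit 18) (.p (nat_lit 50) (nat_lit 18) .z))))))) (.ct dr2_c4369 (nat_lit 18) (nat_lit 6) (.s false (nat_lit 1) (nat_lit 3) (nat_lit 1) (nat_lit 0) (nat_lit 2) true (nat_lit 0) true (nat_lit 4) true (nat_lit 3) true (nat_lit 5) true (nat_lit 6) (.s false (nat_lit 1) (nat_lit 3) (nat_lit 2) (nat_lit 0) (nat_lit 1) true (nat_lit 0) true (nat_lit 5) true (nat_lit 3) true (nat_lit 4) true (nat_lit 6) (.e false (nat_lit 18) (nat_lit 18) (nat_lit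 2) (nat_lit 4) (.e false (nat_lit 18) (nat_lit 12) (nat_lit 3) (nat_lit 3) (.e true (nat_lit 18) (nat_lit 20) (nat_lit 1) (nat_lit 5) (.e false (nat_lit 18) (nat_lit 22) (nat_lit 1) (nat_lit 5) (.e false (nat_lit 18) (nat_lit 13) (nat_lit 3) (nat_lit 3) (.e true (nat_lit 18) (nat_lit 16) (nat_lit 2) (nat_lit 4) (.e true (nat_lit 18) (nat_lit 24) (nat_lit 0) (nat_lit 6) .nil)))))))))) (.nd (.nd (.nd (.nd .leaf (nat_lit 25601) (nat_lit 59) (.p (nat_lit 54) (nat_lit 18) .z) .df .leaf) (nat_lit 25603) (nat_lit 86) (.p (nat_lit 72) (nat_lit 18) .z) .df .leaf) (nat_lit 25604) (nat_lit 136) (.p (nat_lit 92) (nat_lit 18) (.n (nat_lit 94) (nat_lit 18) (.n (nat_lit 95) (nat_lit 18) (.n (nat_lit 96) (nat_lit 18) (.p (nat_lit 98) (nat_lit 18) (.p (nat_lit 100) (nat_lit 18) (.p (nat_lit 103) (nat_lit 18) .z))))))) (.ct dr2_c4625 (nat_lit 18) (nat_lit 5) (.s false (nat_lit 1) (nat_lit 4) (nat_lit 2) (nat_lit 3) (nat_lit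 1) true (nat_lit 3) true (nat_lit 8) true (nat_lit 5) true (nat_lit 7) true (nat_lit 6) (.e true (nat_lit 18) (nat_lit 16) (nat_lit 6) (nat_lit 3) (.e false (nat_lit 18) (nat_lit 41) (nat_lit 1) (nat_lit 8) (.e false (nat_lit 18) (nat_lit 37) (nat_lit 2) (nat_lit 7) (.e true (nat_lit 18) (nat_lit 39) (nat_lit 2) (nat_lit 7) (.e false (nat_lit 18) (nat_lit 40) (nat_lit 2) (nat_lit 7) (.e true (nat_lit 18) (nat_lit 33) (nat_lit 3) (nat_lit 6) .nil)))))))) (.nd .leaf (nat_lit 25607) (nat_lit 198) (.p (nat_lit 119) (nat_lit 18) (.n (nat_lit 125) (nat_lit 18) (.n (nat_lit 126) (nat_lit 18) (.p (nat_lit 129) (nat_lit 18) (.n (nat_lit 130) (nat_lit 18) (.n (nat_lit 132) (nat_lit 18) (.p (nat_lit 139) (nat_lit 18) .z))))))) (.ct dr2_c4370 (nat_lit 18) (nat_lit 3) (.s true (nat_lit 1) (nat_lit 7) (nat_lit 2) (nat_lit 3) (nat_lit 1) true (nat_lit 4) true (nat_lit 9) true (nat_lit 3) true (nat_lit 8) true (nat_lit 7)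 (.e false (nat_lit 18) (nat_lit 26) (nat_lit 6) (nat_lit 4) (.e true (nat_lit 18) (nat_lit 65) (nat_lit 1) (nat_lit 9) (.e true (nat_lit 18) (nat_lit 55) (nat_lit 2) (nat_lit 8) (.e true (nat_lit 18) (nat_lit 56) (nat_lit 2) (nat_lit 8) (.e false (nat_lit 18) (nat_lit 59) (nat_lit 2) (nat_lit 8) (.e true (nat_lit 18) (nat_lit 60) (nat_lit 2) (nat_lit 8) (.e false (nat_lit 18) (nat_lit 45) (nat_lit 3) (nat_lit 7) .nil))))))))) .leaf)) (nat_lit 25608) (nat_lit 224) (.n (nat_lit 142) (nat_lit 18) (.p (nat_lit 145) (nat_lit 18) (.p (nat_lit 146) (nat_lit 18) (.n (nat_lit 149) (nat_lit 18) (.p (nat_lit 150) (nat_lit 36) .z))))) (.ct dr2_c530 (nat_lit 18) (nat_lit 2) (.s false (nat_lit 1) (nat_lit 9) (nat_lit 3) (nat_lit 1) (nat_lit 1) true (nat_lit 2) true (nat_lit 6) true (nat_lit 1) true (nat_lit 4) true (nat_lit 6) (.e false (nat_lit 18) (nat_lit 75) (nat_lit 1) (nat_lit 6) (.e true (nat_lit 18) (nat_lit 19)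 (nat_lit 9) (nat_lit 1) (.e true (nat_lit 18) (nat_lit 72) (nat_lit 1) (nat_lit 6) .nil))))) (.nd (.nd (.nd .leaf (nat_lit 25610) (nat_lit 287) (.n (nat_lit 179) (nat_lit 18) (.p (nat_lit 180) (nat_lit 18) (.n (nat_lit 181) (nat_lit 18) (.n (nat_lit 182) (nat_lit 18) (.p (nat_lit 183) (nat_lit 18) (.p (nat_lit 184) (nat_lit 18) (.p (nat_lit 185) (nat_lit 18) (.p (nat_lit 186) (nat_lit 18) (.p (nat_lit 187) (nat_lit 18) .z))))))))) (.ct dr2_c275 (nat_lit 18) (nat_lit 0) (.s true (nat_lit 1) (nat_lit 8) (nat_lit 2) (nat_lit 3) (nat_lit 3) true (nat_lit 1) true (nat_lit 4) true (nat_lit 2) true (nat_lit 5) true (nat_lit 4) (.s false (nat_lit 1) (nat_lit 9) (nat_lit 3) (nat_lit 1) (nat_lit 3) true (nat_lit 0) true (nat_lit 4) true (nat_lit 1) true (nat_lit 4) true (nat_lit 6) (.s true (nat_lit 1) (nat_lit 9) (nat_lit 3) (nat_lit 3) (nat_lit 1) true (nat_lit 2) true (nat_lit 6) true (nat_lit 1) true (nat_lit 4)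 true (nat_lit 4) (.s true (nat_lit 1) (nat_lit 10) (nat_lit 3) (nat_lit 1) (nat_lit 2) true (nat_lit 1) true (nat_lit 5) true (nat_lit 0) true (nat_lit 4) true (nat_lit 6) (.e false (nat_lit 36) (nat_lit 71) (nat_lit 3) (nat_lit 4) (.e false (nat_lit 18) (nat_lit 80) (nat_lit 2) (nat_lit 5) (.e false (nat_lit 36) (nat_lit 75) (nat_lit 3) (nat_lit 4) (.e false (nat_lit 36) (nat_lit 70) (nat_lit 3) (nat_lit 4) (.e true (nat_lit 36) (nat_lit 74) (nat_lit 3) (nat_lit 4) (.e true (nat_lit 18) (nat_lit 24) (nat_lit 10) (nat_lit 0) (.e false (nat_lit 18) (nat_lit 83) (nat_lit 1) (nat_lit 6) .nil)))))))))))) .leaf) (nat_lit 25616) (nat_lit 402) (.n (nat_lit 191) (nat_lit 18) (.p (nat_lit 192) (nat_lit 24) (.p (nat_lit 193) (nat_lit 132) (.p (nat_lit 194) (nat_lit 12) (.p (nat_lit 195) (nat_lit 78) (.p (nat_lit 196) (nat_lit 42) (.p (nat_lit 197) (nat_lit 96) (.n (nat_lit 198) (nat_lit 18) (.n (nat_lit 199) (nat_lit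 102) (.n (nat_lit 201) (nat_lit 102) (.n (nat_lit 202) (nat_lit 72) (.n (nat_lit 203) (nat_lit 66) (.p (nat_lit 204) (nat_lit 30) (.n (nat_lit 205) (nat_lit 36) (.p (nat_lit 206) (nat_lit 81) (.n (nat_lit 207) (nat_lit 36) (.p (nat_lit 208) (nat_lit 30) (.n (nat_lit 209) (nat_lit 18) (.n (nat_lit 210) (nat_lit 60) (.n (nat_lit 211) (nat_lit 21) (.p (nat_lit 212) (nat_lit 78) (.p (nat_lit 213) (nat_lit 6) (.n (nat_lit 214) (nat_lit 24) (.p (nat_lit 215) (nat_lit 66) (.n (nat_lit 216) (nat_lit 54) (.p (nat_lit 218) (nat_lit 63) (.n (nat_lit 219) (nat_lit 45) (.p (nat_lit 220) (nat_lit 81) (.n (nat_lit 221) (nat_lit 27) (.n (nat_lit 222) (nat_lit 81) (.p (nat_lit 223) (nat_lit 27) (.p (nat_lit 225) (nat_lit 18) (.n (nat_lit 226) (nat_lit 18) (.n (nat_lit 227) (nat_lit 18) (.n (nat_lit 228) (nat_lit 18) (.n (nat_lit 229) (nat_lit 72) (.n (nat_lit 231) (nat_lit 18) (.p (nat_lit 232) (nat_lit 18) (.p (nat_lit 236)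 (nat_lit 36) (.p (nat_lit 237) (nat_lit 18) (.p (nat_lit 238) (nat_lit 18) (.n (nat_lit 239) (nat_lit 90) .z)))))))))))))))))))))))))))))))))))))))))) (.ct dr2_c4626 (nat_lit 18) (nat_lit 1) (.s true (nat_lit 1) (nat_lit 9) (nat_lit 3) (nat_lit 1) (nat_lit 4) true (nat_lit 1) true (nat_lit 11) true (nat_lit 6) true (nat_lit 12) true (nat_lit 14) (.e true (nat_lit 18) (nat_lit 75) (nat_lit 4) (nat_lit 11) (.e false (nat_lit 18) (nat_lit 37) (nat_lit 9) (nat_lit 6) (.e true (nat_lit 18) (nat_lit 39) (nat_lit 9) (nat_lit 6) (.e false (nat_lit 18) (nat_lit 40) (nat_lit 9) (nat_lit 6) (.e false (nat_lit 18) (nat_lit 103) (nat_lit 3) (nat_lit 12) (.e false (nat_lit 18) (nat_lit 116) (nat_lit 1) (nat_lit 14) (.e false (nat_lit 18) (nat_lit 120) (nat_lit 1) (nat_lit 14) (.e true (nat_lit 18) (nat_lit 122) (nat_lit 1) (nat_lit 14) (.e true (nat_lit 18) (nat_lit 124) (nat_lit 1) (nat_lit 14) .nil))))))))))) .leaf) (nat_lit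 25617) (nat_lit 403) (.p (nat_lit 189) (nat_lit 9) (.p (nat_lit 190) (nat_lit 9) (.n (nat_lit 191) (nat_lit 27) (.p (nat_lit 194) (nat_lit 63) (.p (nat_lit 195) (nat_lit 36) (.p (nat_lit 196) (nat_lit 63) (.p (nat_lit 197) (nat_lit 90) (.n (nat_lit 198) (nat_lit 90) (.n (nat_lit 199) (nat_lit 9) (.n (nat_lit 200) (nat_lit 72) (.n (nat_lit 201) (nat_lit 54) (.n (nat_lit 202) (nat_lit 9) (.n (nat_lit 203) (nat_lit 72) (.p (nat_lit 204) (nat_lit 27) (.n (nat_lit 205) (nat_lit 63) (.n (nat_lit 206) (nat_lit 9) (.n (nat_lit 207) (nat_lit 9) (.n (nat_lit 208) (nat_lit 63) (.n (nat_lit 209) (nat_lit 18) (.n (nat_lit 210) (nat_lit 9) (.p (nat_lit 211) (nat_lit 90) (.n (nat_lit 212) (nat_lit 81) (.n (nat_lit 213) (nat_lit 36) (.p (nat_lit 214) (nat_lit 9) (.n (nat_lit 215) (nat_lit 54) (.p (nat_lit 216) (nat_lit 54) (.n (nat_lit 217) (nat_lit 18) (.p (nat_lit 219) (nat_lit 45) (.p (nat_lit 221) (nat_lit 9) (.p (nat_lit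 222) (nat_lit 36) (.n (nat_lit 223) (nat_lit 27) (.n (nat_lit 224) (nat_lit 81) (.p (nat_lit 225) (nat_lit 45) (.n (nat_lit 226) (nat_lit 45) (.p (nat_lit 227) (nat_lit 36) (.n (nat_lit 228) (nat_lit 27) (.p (nat_lit 229) (nat_lit 18) (.n (nat_lit 230) (nat_lit 18) (.p (nat_lit 231) (nat_lit 18) (.n (nat_lit 232) (nat_lit 27) (.p (nat_lit 233) (nat_lit 18) (.p (nat_lit 235) (nat_lit 9) (.n (nat_lit 236) (nat_lit 18) (.p (nat_lit 237) (nat_lit 36) (.p (nat_lit 238) (nat_lit 18) (.n (nat_lit 240) (nat_lit 54) .z)))))))))))))))))))))))))))))))))))))))))))))) (.ct dr2_c4626 (nat_lit 18) (nat_lit 1) (.s true (nat_lit 1) (nat_lit 17) (nat_lit 2) (nat_lit 3) (nat_lit 1) true (nat_lit 9) true (nat_lit 14) true (nat_lit 1) true (nat_lit 13) true (nat_lit 12) (.e false (nat_lit 18) (nat_lit 56) (nat_lit 6) (nat_lit 9) (.e true (nat_lit 18) (nat_lit 119) (nat_lit 1) (nat_lit 14) (.e true (nat_lit 18) (nat_lit 105) (nat_lit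 2) (nat_lit 13) (.e false (nat_lit 18) (nat_lit 107) (nat_lit 2) (nat_lit 13) (.e false (nat_lit 18) (nat_lit 108) (nat_lit 2) (nat_lit 13) (.e false (nat_lit 18) (nat_lit 110) (nat_lit 2) (nat_lit 13) (.e true (nat_lit 18) (nat_lit 111) (nat_lit 2) (nat_lit 13) (.e false (nat_lit 18) (nat_lit 112) (nat_lit 2) (nat_lit 13) (.e false (nat_lit 18) (nat_lit 90) (nat_lit 3) (nat_lit 12) .nil))))))))))) (.nd .leaf (nat_lit 26625) (nat_lit 65) (.p (nat_lit 58) (nat_lit 18) .z) .df .leaf)))) (nat_lit 26626) (nat_lit 78) (.p (nat_lit 67) (nat_lit 18) .z) .df (.nd (.nd (.nd (.nd (.nd .leaf (nat_lit 26627) (nat_lit 93) (.p (nat_lit 76) (nat_lit 18) .z) .df .leaf) (nat_lit 26630) (nat_lit 183) (.p (nat_lit 139) (nat_lit 18) .z) .df .leaf) (nat_lit 26632) (nat_lit 235) (.p (nat_lit 161) (nat_lit 18) .z) .df (.nd .leaf (nat_lit 26633) (nat_lit 264) (.p (nat_lit 177) (nat_lit 18) .z) .df .leaf)) (nat_lit 26639) (nat_lit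 411) (.n (nat_lit 205) (nat_lit 18) (.p (nat_lit 215) (nat_lit 18) (.p (nat_lit 220) (nat_lit 18) .z))) (.ct dr2_c4626 (nat_lit 18) (nat_lit 2) (.s true (nat_lit 1) (nat_lit 26) (nat_lit 1) (nat_lit 2) (nat_lit 1) false (nat_lit 16) true (nat_lit 14) false (nat_lit 2) true (nat_lit 14) true (nat_lit 13) (.e true (nat_lit 18) (nat_lit 128) (nat_lit 1) (nat_lit 14) (.e false (nat_lit 18) (nat_lit 139) (nat_lit 1) (nat_lit 14) (.e false (nat_lit 18) (nat_lit 110) (nat_lit 2) (nat_lit 13) .nil))))) (.nd (.nd (.nd .leaf (nat_lit 26643) (nat_lit 461) (.p (nat_lit 244) (nat_lit 18) (.n (nat_lit 251) (nat_lit 18) (.p (nat_lit 257) (nat_lit 18) .z))) (.ct dr2_c4611 (nat_lit 18) (nat_lit 0) (.s true (nat_lit 1) (nat_lit 26) (nat_lit 1) (nat_lit 3) (nat_lit 1) false (nat_lit 10) true (nat_lit 8) false (nat_lit 0) true (nat_lit 8) true (nat_lit 7) (.e true (nat_lit 18) (nat_lit 154) (nat_lit 1) (nat_lit 8) (.e false (nat_lit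 18) (nat_lit 161) (nat_lit 1) (nat_lit 8) (.e false (nat_lit 18) (nat_lit 110) (nat_lit 3) (nat_lit 7) .nil))))) .leaf) (nat_lit 26647) (nat_lit 570) (.n (nat_lit 262) (nat_lit 40) (.n (nat_lit 263) (nat_lit 28) (.n (nat_lit 264) (nat_lit 8) (.n (nat_lit 265) (nat_lit 28) (.p (nat_lit 266) (nat_lit 38) (.n (nat_lit 267) (nat_lit 46) (.p (nat_lit 268) (nat_lit 30) (.n (nat_lit 269) (nat_lit 4) (.p (nat_lit 270) (nat_lit 12) (.n (nat_lit 271) (nat_lit 4) (.n (nat_lit 272) (nat_lit 60) (.p (nat_lit 273) (nat_lit 8) (.n (nat_lit 274) (nat_lit 8) (.p (nat_lit 275) (nat_lit 24) (.p (nat_lit 276) (nat_lit 36) (.n (nat_lit 277) (nat_lit 48) (.p (nat_lit 278) (nat_lit 64) (.p (nat_lit 280) (nat_lit 10) (.n (nat_lit 281) (nat_lit 52) (.p (nat_lit 282) (nat_lit 14) (.n (nat_lit 283) (nat_lit 22) (.p (nat_lit 284) (nat_lit 16) (.p (nat_lit 285) (nat_lit 88) (.p (nat_lit 286) (nat_lit 18) (.p (nat_lit 287) (nat_lit 36)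 (.n (nat_lit 288) (nat_lit 18) (.p (nat_lit 290) (nat_lit 6) (.p (nat_lit 291) (nat_lit 12) (.n (nat_lit 292) (nat_lit 12) (.n (nat_lit 293) (nat_lit 18) (.n (nat_lit 294) (nat_lit 6) (.n (nat_lit 295) (nat_lit 12) (.n (nat_lit 296) (nat_lit 18) (.n (nat_lit 297) (nat_lit 18) (.p (nat_lit 298) (nat_lit 12) (.n (nat_lit 299) (nat_lit 18) (.n (nat_lit 300) (nat_lit 12) (.n (nat_lit 301) (nat_lit 6) (.p (nat_lit 302) (nat_lit 12) (.p (nat_lit 303) (nat_lit 12) (.p (nat_lit 304) (nat_lit 18) (.p (nat_lit 305) (nat_lit 18) (.n (nat_lit 306) (nat_lit 30) (.n (nat_lit 307) (nat_lit 24) (.p (nat_lit 308) (nat_lit 24) .z))))))))))))))))))))))))))))))))))))))))))))) (.ct dr2_c4371 (nat_lit 18) (nat_lit 0) (.s false (nat_lit 1) (nat_lit 23) (nat_lit 0) (nat_lit 3) (nat_lit 3) true (nat_lit 7) true (nat_lit 11) true (nat_lit 0) true (nat_lit 14) true (nat_lit 11) (.e false (nat_lit 18) (nat_lit 70) (nat_lit 7) (nat_lit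 7) (.e false (nat_lit 18) (nat_lit 124) (nat_lit 3) (nat_lit 11) (.e true (nat_lit 18) (nat_lit 187) (nat_lit 0) (nat_lit 14) (.e false (nat_lit 18) (nat_lit 136) (nat_lit 3) (nat_lit 11) .nil)))))) .leaf) (nat_lit 26648) (nat_lit 555) (.p (nat_lit 262) (nat_lit 14) (.n (nat_lit 263) (nat_lit 82) (.p (nat_lit 264) (nat_lit 28) (.p (nat_lit 265) (nat_lit 44) (.n (nat_lit 266) (nat_lit 52) (.p (nat_lit 267) (nat_lit 8) (.n (nat_lit 268) (nat_lit 6) (.p (nat_lit 269) (nat_lit 86) (.n (nat_lit 270) (nat_lit 42) (.p (nat_lit 271) (nat_lit 32) (.p (nat_lit 272) (nat_lit 102) (.p (nat_lit 273) (nat_lit 8) (.p (nat_lit 274) (nat_lit 64) (.n (nat_lit 275) (nat_lit 48) (.n (nat_lit 276) (nat_lit 126) (.p (nat_lit 277) (nat_lit 132) (.n (nat_lit 278) (nat_lit 134) (.p (nat_lit 280) (nat_lit 100) (.p (nat_lit 281) (nat_lit 128) (.n (nat_lit 282) (nat_lit 166) (.n (nat_lit 283) (nat_lit 22) (.n (nat_lit 284) (nat_lit 2)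 (.n (nat_lit 285) (nat_lit 182) (.n (nat_lit 286) (nat_lit 54) (.n (nat_lit 288) (nat_lit 36) (.p (nat_lit 289) (nat_lit 72) (.n (nat_lit 290) (nat_lit 84) (.n (nat_lit 291) (nat_lit 24) (.n (nat_lit 292) (nat_lit 48) (.n (nat_lit 293) (nat_lit 36) (.n (nat_lit 294) (nat_lit 6) (.p (nat_lit 295) (nat_lit 42) (.n (nat_lit 296) (nat_lit 18) (.n (nat_lit 297) (nat_lit 36) (.n (nat_lit 298) (nat_lit 60) (.n (nat_lit 299) (nat_lit 18) (.p (nat_lit 300) (nat_lit 24) (.p (nat_lit 301) (nat_lit 12) (.n (nat_lit 302) (nat_lit 24) (.p (nat_lit 303) (nat_lit 12) (.p (nat_lit 304) (nat_lit 36) (.p (nat_lit 305) (nat_lit 36) (.n (nat_lit 306) (nat_lit 66) (.p (nat_lit 307) (nat_lit 12) (.p (nat_lit 308) (nat_lit 60) .z))))))))))))))))))))))))))))))))))))))))))))) (.ct dr2_c4371 (nat_lit 18) (nat_lit 0) (.s false (nat_lit 1) (nat_lit 26) (nat_lit 3) (nat_lit 1) (nat_lit 2) true (nat_lit 5) true (nat_lit 12) false (nat_lit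 0) true (nat_lit 11) true (nat_lit 13) (.e true (nat_lit 18) (nat_lit 58) (nat_lit 9) (nat_lit 5) (.e false (nat_lit 18) (nat_lit 151) (nat_lit 2) (nat_lit 12) (.e false (nat_lit 18) (nat_lit 152) (nat_lit 2) (nat_lit 12) (.e true (nat_lit 18) (nat_lit 153) (nat_lit 2) (nat_lit 12) (.e true (nat_lit 18) (nat_lit 154) (nat_lit 2) (nat_lit 12) (.e false (nat_lit 18) (nat_lit 157) (nat_lit 2) (nat_lit 12) (.e true (nat_lit 18) (nat_lit 160) (nat_lit 2) (nat_lit 12) (.e true (nat_lit 18) (nat_lit 161) (nat_lit 2) (nat_lit 12) (.e false (nat_lit 18) (nat_lit 139) (nat_lit 3) (nat_lit 11) (.e true (nat_lit 18) (nat_lit 170) (nat_lit 1) (nat_lit 13) .nil)))))))))))) (.nd .leaf (nat_lit 26649) (nat_lit 564) (.n (nat_lit 262) (nat_lit 34) (.p (nat_lit 263) (nat_lit 14) (.n (nat_lit 264) (nat_lit 32) (.n (nat_lit 265) (nat_lit 40) (.p (nat_lit 266) (nat_lit 44) (.n (nat_lit 267) (nat_lit 40) (.p (nat_lit 268) (nat_lit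 30) (.n (nat_lit 269) (nat_lit 34) (.p (nat_lit 270) (nat_lit 30) (.n (nat_lit 271) (nat_lit 16) (.n (nat_lit 272) (nat_lit 96) (.n (nat_lit 273) (nat_lit 4) (.n (nat_lit 274) (nat_lit 32) (.p (nat_lit 275) (nat_lit 60) (.p (nat_lit 276) (nat_lit 90) (.n (nat_lit 277) (nat_lit 102) (.p (nat_lit 278) (nat_lit 112) (.n (nat_lit 280) (nat_lit 32) (.n (nat_lit 281) (nat_lit 100) (.p (nat_lit 282) (nat_lit 92) (.p (nat_lit 283) (nat_lit 2) (.p (nat_lit 284) (nat_lit 10) (.p (nat_lit 285) (nat_lit 154) (.p (nat_lit 286) (nat_lit 36) (.p (nat_lit 287) (nat_lit 36) (.n (nat_lit 289) (nat_lit 36) (.p (nat_lit 290) (nat_lit 42) (.p (nat_lit 291) (nat_lit 12) (.p (nat_lit 292) (nat_lit 6) (.n (nat_lit 294) (nat_lit 6) (.n (nat_lit 295) (nat_lit 12) (.p (nat_lit 298) (nat_lit 12) (.n (nat_lit 300) (nat_lit 12) (.n (nat_lit 301) (nat_lit 6) (.p (nat_lit 302) (nat_lit 30) (.p (nat_lit 303) (nat_lit 12) (.p (nat_lit 306)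 (nat_lit 6) (.n (nat_lit 307) (nat_lit 24) (.n (nat_lit 308) (nat_lit 12) .z))))))))))))))))))))))))))))))))))))))) (.ct dr2_c4371 (nat_lit 18) (nat_lit 0) (.s true (nat_lit 1) (nat_lit 26) (nat_lit 1) (nat_lit 3) (nat_lit 2) true (nat_lit 8) true (nat_lit 12) false (nat_lit 0) true (nat_lit 13) true (nat_lit 11) (.s true (nat_lit 1) (nat_lit 26) (nat_lit 2) (nat_lit 3) (nat_lit 1) true (nat_lit 8) true (nat_lit 13) false (nat_lit 0) true (nat_lit 12) true (nat_lit 11) (.e true (nat_lit 18) (nat_lit 154) (nat_lit 2) (nat_lit 12) (.e true (nat_lit 18) (nat_lit 26) (nat_lit 24) (nat_lit 0) (.e false (nat_lit 18) (nat_lit 177) (nat_lit 1) (nat_lit 13) (.e false (nat_lit 18) (nat_lit 133) (nat_lit 3) (nat_lit 11) (.e true (nat_lit 18) (nat_lit 170) (nat_lit 1) (nat_lit 13) (.e false (nat_lit 18) (nat_lit 161) (nat_lit 2) (nat_lit 12) (.e false (nat_lit 18) (nat_lit 128) (nat_lit 3) (nat_lit 11) .nil))))))))))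 .leaf))) (nat_lit 27649) (nat_lit 66) (.p (nat_lit 59) (nat_lit 18) .z) .df (.nd (.nd (.nd (.nd .leaf (nat_lit 27650) (nat_lit 79) (.p (nat_lit 68) (nat_lit 18) .z) .df .leaf) (nat_lit 27651) (nat_lit 94) (.p (nat_lit 77) (nat_lit 18) .z) .df .leaf) (nat_lit 27654) (nat_lit 200) (.p (nat_lit 117) (nat_lit 18) (.p (nat_lit 125) (nat_lit 18) (.n (nat_lit 128) (nat_lit 18) (.n (nat_lit 129) (nat_lit 18) (.p (nat_lit 130) (nat_lit 18) (.n (nat_lit 131) (nat_lit 18) (.p (nat_lit 133) (nat_lit 18) (.p (nat_lit 134) (nat_lit 18) (.n (nat_lit 135) (nat_lit 18) (.n (nat_lit 136) (nat_lit 18) (.n (nat_lit 139) (nat_lit 18) .z))))))))))) (.ct dr2_c4370 (nat_lit 18) (nat_lit 4) (.s true (nat_lit 1) (nat_lit 6) (nat_lit 3) (nat_lit 3) (nat_lit 0) true (nat_lit 3) true (nat_lit 10) true (nat_lit 4) true (nat_lit 7) true (nat_lit 7) (.e true (nat_lit 18) (nat_lit 23) (nat_lit 7) (nat_lit 3) (.e true (nat_lit 18) (nat_lit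 70) (nat_lit 0) (nat_lit 10) (.e true (nat_lit 18) (nat_lit 44) (nat_lit 3) (nat_lit 7) (.e true (nat_lit 18) (nat_lit 45) (nat_lit 3) (nat_lit 7) (.e true (nat_lit 18) (nat_lit 46) (nat_lit 3) (nat_lit 7) (.e false (nat_lit 18) (nat_lit 47) (nat_lit 3) (nat_lit 7) (.e false (nat_lit 18) (nat_lit 48) (nat_lit 3) (nat_lit 7) (.e false (nat_lit 18) (nat_lit 49) (nat_lit 3) (nat_lit 7) (.e false (nat_lit 18) (nat_lit 50) (nat_lit 3) (nat_lit 7) .nil))))))))))) (.nd .leaf (nat_lit 27656) (nat_lit 240) (.p (nat_lit 151) (nat_lit 36) (.p (nat_lit 152) (nat_lit 36) (.n (nat_lit 155) (nat_lit 18) (.p (nat_lit 156) (nat_lit 36) (.n (nat_lit 159) (nat_lit 18) (.n (nat_lit 160) (nat_lit 18) .z)))))) (.ct dr2_c4355 (nat_lit 18) (nat_lit 1) (.s false (nat_lit 1) (nat_lit 10) (nat_lit 3) (nat_lit 0) (nat_lit 1) true (nat_lit 1) true (nat_lit 5) true (nat_lit 0) true (nat_lit 4) true (nat_lit 6) (.e false (nat_lit 18) (nat_lit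 78) (nat_lit 1) (nat_lit 5) (.e false (nat_lit 18) (nat_lit 17) (nat_lit 10) (nat_lit 0) (.e true (nat_lit 18) (nat_lit 56) (nat_lit 3) (nat_lit 4) (.e false (nat_lit 18) (nat_lit 57) (nat_lit 3) (nat_lit 4) (.e true (nat_lit 18) (nat_lit 58) (nat_lit 3) (nat_lit 4) (.e false (nat_lit 18) (nat_lit 60) (nat_lit 3) (nat_lit 4) (.e true (nat_lit 18) (nat_lit 80) (nat_lit 0) (nat_lit 6) .nil))))))))) .leaf)) (nat_lit 27657) (nat_lit 269) (.p (nat_lit 167) (nat_lit 36) (.p (nat_lit 168) (nat_lit 36) (.n (nat_lit 171) (nat_lit 18) (.p (nat_lit 172) (nat_lit 36) (.n (nat_lit 175) (nat_lit 18) (.n (nat_lit 176) (nat_lit 18) .z)))))) (.ct dr2_c4115 (nat_lit 18) (nat_lit 1) (.s false (nat_lit 1) (nat_lit 10) (nat_lit 3) (nat_lit 0) (nat_lit 2) true (nat_lit 1) true (nat_lit 5) true (nat_lit 0) true (nat_lit 4) true (nat_lit 6) (.e false (nat_lit 18) (nat_lit 78) (nat_lit 2) (nat_lit 5) (.e false (nat_lit 18) (nat_lit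 21) (nat_lit 10) (nat_lit 0) (.e true (nat_lit 18) (nat_lit 65) (nat_lit 3) (nat_lit 4) (.e false (nat_lit 18) (nat_lit 66) (nat_lit 3) (nat_lit 4) (.e true (nat_lit 18) (nat_lit 67) (nat_lit 3) (nat_lit 4) (.e false (nat_lit 18) (nat_lit 69) (nat_lit 3) (nat_lit 4) (.e true (nat_lit 18) (nat_lit 83) (nat_lit 0) (nat_lit 6) .nil))))))))) (.nd (.nd .leaf (nat_lit 27663) (nat_lit 412) (.p (nat_lit 194) (nat_lit 18) (.p (nat_lit 202) (nat_lit 18) (.n (nat_lit 205) (nat_lit 18) (.n (nat_lit 206) (nat_lit 36) (.p (nat_lit 207) (nat_lit 18) (.n (nat_lit 208) (nat_lit 18) (.p (nat_lit 210) (nat_lit 18) (.p (nat_lit 211) (nat_lit 18) (.n (nat_lit 212) (nat_lit 18) (.n (nat_lit 213) (nat_lit 18) (.n (nat_lit 215) (nat_lit 18) (.p (nat_lit 221) (nat_lit 18) .z)))))))))))) (.ct dr2_c4626 (nat_lit 18) (nat_lit 2) (.s false (nat_lit 1) (nat_lit 27) (nat_lit 2) (nat_lit 1) (nat_lit 1) true (nat_lit 9) true (nat_lit 14)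 false (nat_lit 2) true (nat_lit 13) true (nat_lit 14) (.e true (nat_lit 18) (nat_lit 59) (nat_lit 6) (nat_lit 9) (.e false (nat_lit 18) (nat_lit 134) (nat_lit 1) (nat_lit 14) (.e true (nat_lit 18) (nat_lit 129) (nat_lit 1) (nat_lit 14) .nil))))) .leaf) (nat_lit 27667) (nat_lit 462) (.p (nat_lit 242) (nat_lit 36) (.p (nat_lit 245) (nat_lit 18) (.n (nat_lit 251) (nat_lit 36) (.n (nat_lit 255) (nat_lit 18) (.n (nat_lit 256) (nat_lit 18) (.p (nat_lit 261) (nat_lit 36) .z)))))) (.ct dr2_c4611 (nat_lit 18) (nat_lit 0) (.s false (nat_lit 1) (nat_lit 27) (nat_lit 3) (nat_lit 1) (nat_lit 1) true (nat_lit 4) true (nat_lit 8) false (nat_lit 0) true (nat_lit 7) true (nat_lit 8) (.e true (nat_lit 18) (nat_lit 59) (nat_lit 8) (nat_lit 4) (.e false (nat_lit 18) (nat_lit 157) (nat_lit 1) (nat_lit 8) (.e true (nat_lit 18) (nat_lit 155) (nat_lit 1) (nat_lit 8) .nil))))) (.nd .leaf (nat_lit 27671) (nat_lit 565) (.p (nat_lit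 262) (nat_lit 12) (.n (nat_lit 263) (nat_lit 24) (.p (nat_lit 264) (nat_lit 15) (.p (nat_lit 265) (nat_lit 21) (.n (nat_lit 266) (nat_lit 24) (.p (nat_lit 267) (nat_lit 12) (.n (nat_lit 268) (nat_lit 9) (.p (nat_lit 269) (nat_lit 30) (.n (nat_lit 270) (nat_lit 18) (.p (nat_lit 271) (nat_lit 12) (.p (nat_lit 272) (nat_lit 63) (.p (nat_lit 273) (nat_lit 3) (.p (nat_lit 274) (nat_lit 6) (.n (nat_lit 275) (nat_lit 36) (.n (nat_lit 276) (nat_lit 72) (.p (nat_lit 277) (nat_lit 63) (.n (nat_lit 278) (nat_lit 66) (.p (nat_lit 280) (nat_lit 42) (.p (nat_lit 281) (nat_lit 75) (.n (nat_lit 282) (nat_lit 69) (.n (nat_lit 283) (nat_lit 6) (.n (nat_lit 284) (nat_lit 3) (.n (nat_lit 285) (nat_lit 93) (.p (nat_lit 287) (nat_lit 9) (.n (nat_lit 288) (nat_lit 9) (.p (nat_lit 289) (nat_lit 9) (.p (nat_lit 291) (nat_lit 9) (.n (nat_lit 292) (nat_lit 9) (.n (nat_lit 293) (nat_lit 9) (.n (nat_lit 294) (nat_lit 9) (.p (nat_lit 295)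 (nat_lit 9) (.n (nat_lit 296) (nat_lit 9) (.n (nat_lit 297) (nat_lit 9) (.n (nat_lit 298) (nat_lit 9) (.n (nat_lit 299) (nat_lit 9) (.n (nat_lit 300) (nat_lit 9) (.n (nat_lit 302) (nat_lit 9) (.p (nat_lit 304) (nat_lit 9) (.p (nat_lit 305) (nat_lit 9) (.n (nat_lit 306) (nat_lit 9) (.p (nat_lit 307) (nat_lit 9) .z))))))))))))))))))))))))))))))))))))))))) (.ct dr2_c4371 (nat_lit 18) (nat_lit 0) (.s true (nat_lit 1) (nat_lit 27) (nat_lit 1) (nat_lit 2) (nat_lit 3) true (nat_lit 6) true (nat_lit 11) false (nat_lit 0) true (nat_lit 13) true (nat_lit 12) (.e true (nat_lit 18) (nat_lit 68) (nat_lit 8) (nat_lit 6) (.e true (nat_lit 18) (nat_lit 129) (nat_lit 3) (nat_lit 11) (.e true (nat_lit 36) (nat_lit 167) (nat_lit 1) (nat_lit 13) (.e true (nat_lit 36) (nat_lit 168) (nat_lit 1) (nat_lit 13) (.e false (nat_lit 18) (nat_lit 171) (nat_lit 1) (nat_lit 13) (.e true (nat_lit 36) (nat_lit 172) (nat_lit 1) (nat_lit 13)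 (.e false (nat_lit 18) (nat_lit 175) (nat_lit 1) (nat_lit 13) (.e false (nat_lit 18) (nat_lit 176) (nat_lit 1) (nat_lit 13) (.e false (nat_lit 18) (nat_lit 157) (nat_lit 2) (nat_lit 12) .nil))))))))))) .leaf))))))

noncomputable def dr2_t2 : Tr := (.nd dr2_t0 (nat_lit 17417) (nat_lit 193) (.n (nat_lit 117) (nat_lit 18) (.n (nat_lit 118) (nat_lit 18) (.n (nat_lit 119) (nat_lit 18) (.n (nat_lit 120) (nat_lit 18) (.p (nat_lit 121) (nat_lit 18) (.p (nat_lit 123) (nat_lit 18) (.p (nat_lit 124) (nat_lit 18) (.p (nat_lit 126) (nat_lit 18) (.p (nat_lit 128) (nat_lit 18) (.p (nat_lit 131) (nat_lit 18) (.n (nat_lit 134) (nat_lit 18) (.p (nat_lit 135) (nat_lit 18) (.p (nat_lit 139) (nat_lit 18) .z))))))))))))) (.ct dr2_c4370 (nat_lit 18) (nat_lit 1) (.s true (nat_lit 1) (nat_lit 7) (nat_lit 2) (nat_lit 1) (nat_lit 3) true (nat_lit 1) true (nat_lit 7) true (nat_lit 3) true (nat_lit 8) true (nat_lit 9) (.e true (nat_lit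 18) (nat_lit 48) (nat_lit 3) (nat_lit 7) (.e false (nat_lit 18) (nat_lit 23) (nat_lit 7) (nat_lit 3) (.e false (nat_lit 18) (nat_lit 55) (nat_lit 2) (nat_lit 8) (.e false (nat_lit 18) (nat_lit 56) (nat_lit 2) (nat_lit 8) (.e true (nat_lit 18) (nat_lit 59) (nat_lit 2) (nat_lit 8) (.e false (nat_lit 18) (nat_lit 60) (nat_lit 2) (nat_lit 8) (.e false (nat_lit 18) (nat_lit 67) (nat_lit 1) (nat_lit 9) .nil))))))))) dr2_t1)

noncomputable def dr2_t3 : Tr := (.nd (.nd (.nd (.nd (.nd (.nd (.nd .leaf (nat_lit 28672) (nat_lit 67) (.p (nat_lit 60) (nat_lit 18) .z) .df .leaf) (nat_lit 28673) (nat_lit 72) (.p (nat_lit 62) (nat_lit 18) .z) .df .leaf) (nat_lit 28674) (nat_lit 87) (.p (nat_lit 73) (nat_lit 18) .z) .df (.nd .leaf (nat_lit 28675) (nat_lit 97) (.p (nat_lit 79) (nat_lit 18) .z) .df .leaf)) (nat_lit 28676) (nat_lit 154) (.p (nat_lit 104) (nat_lit 18) (.n (nat_lit 110) (nat_lit 18) (.p (nat_lit 112) (nat_lit 18)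 .z))) (.ct dr2_c4610 (nat_lit 18) (nat_lit 3) (.s false (nat_lit 1) (nat_lit 4) (nat_lit 1) (nat_lit 3) (nat_lit 3) true (nat_lit 1) true (nat_lit 4) true (nat_lit 3) true (nat_lit 5) true (nat_lit 4) (.e false (nat_lit 18) (nat_lit 16) (nat_lit 8) (nat_lit 1) (.e false (nat_lit 18) (nat_lit 37) (nat_lit 3) (nat_lit 4) (.e true (nat_lit 18) (nat_lit 56) (nat_lit 1) (nat_lit 5) (.e false (nat_lit 18) (nat_lit 57) (nat_lit 1) (nat_lit 5) (.e true (nat_lit 18) (nat_lit 58) (nat_lit 1) (nat_lit 5) (.e false (nat_lit 18) (nat_lit 60) (nat_lit 1) (nat_lit 5) (.e false (nat_lit 18) (nat_lit 38) (nat_lit 3) (nat_lit 4) .nil))))))))) (.nd (.nd (.nd .leaf (nat_lit 28677) (nat_lit 188) (.n (nat_lit 115) (nat_lit 6) (.p (nat_lit 116) (nat_lit 12) (.p (nat_lit 117) (nat_lit 6) (.n (nat_lit 118) (nat_lit 6) (.p (nat_lit 119) (nat_lit 12) (.n (nat_lit 120) (nat_lit 6) (.n (nat_lit 122) (nat_lit 6) (.n (nat_lit 124) (nat_lit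 6) (.p (nat_lit 126) (nat_lit 12) (.n (nat_lit 127) (nat_lit 12) (.p (nat_lit 131) (nat_lit 6) (.n (nat_lit 133) (nat_lit 12) (.n (nat_lit 134) (nat_lit 6) (.p (nat_lit 135) (nat_lit 12) (.n (nat_lit 136) (nat_lit 6) (.p (nat_lit 138) (nat_lit 6) (.p (nat_lit 139) (nat_lit 6) .z))))))))))))))))) (.ct dr2_c4370 (nat_lit 18) (nat_lit 5) (.s false (nat_lit 1) (nat_lit 7) (nat_lit 1) (nat_lit 2) (nat_lit 3) true (nat_lit 2) true (nat_lit 7) true (nat_lit 3) true (nat_lit 9) true (nat_lit 8) (.s false (nat_lit 1) (nat_lit 7) (nat_lit 2) (nat_lit 1) (nat_lit 3) true (nat_lit 1) true (nat_lit 7) true (nat_lit 3) true (nat_lit 8) true (nat_lit 9) (.s false (nat_lit 1) (nat_lit 8) (nat_lit 2) (nat_lit 3) (nat_lit 0) true (nat_lit 5) true (nat_lit 10) true (nat_lit 2) true (nat_lit 8) true (nat_lit 7) (.s false (nat_lit 1) (nat_lit 8) (nat_lit 3) (nat_lit 0) (nat_lit 2) true (nat_lit 1) true (nat_lit 8) true (nat_lit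 2) true (nat_lit 7) true (nat_lit 10) (.s false (nat_lit 1) (nat_lit 9) (nat_lit 1) (nat_lit 3) (nat_lit 0) true (nat_lit 6) true (nat_lit 10) true (nat_lit 1) true (nat_lit 9) true (nat_lit 7) (.s false (nat_lit 1) (nat_lit 9) (nat_lit 3) (nat_lit 0) (nat_lit 1) true (nat_lit 2) true (nat_lit 9) true (nat_lit 1) true (nat_lit 7) true (nat_lit 10) (.e false (nat_lit 18) (nat_lit 69) (nat_lit 1) (nat_lit 9) (.e true (nat_lit 18) (nat_lit 58) (nat_lit 2) (nat_lit 8) (.e false (nat_lit 18) (nat_lit 60) (nat_lit 2) (nat_lit 8) (.e true (nat_lit 18) (nat_lit 67) (nat_lit 1) (nat_lit 9) (.e false (nat_lit 18) (nat_lit 41) (nat_lit 3) (nat_lit 7) (.e true (nat_lit 18) (nat_lit 30) (nat_lit 4) (nat_lit 6) (.e false (nat_lit 18) (nat_lit 42) (nat_lit 3) (nat_lit 7) .nil)))))))))))))) .leaf) (nat_lit 28678) (nat_lit 216) (.p (nat_lit 140) (nat_lit 18) (.n (nat_lit 141) (nat_lit 36) (.n (nat_lit 142) (nat_lit 18) (.n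 (nat_lit 144) (nat_lit 18) (.n (nat_lit 145) (nat_lit 18) (.p (nat_lit 146) (nat_lit 18) (.n (nat_lit 147) (nat_lit 18) (.p (nat_lit 148) (nat_lit 18) (.p (nat_lit 149) (nat_lit 18) (.n (nat_lit 150) (nat_lit 18) .z)))))))))) (.ct dr2_c530 (nat_lit 18) (nat_lit 3) (.s true (nat_lit 1) (nat_lit 6) (nat_lit 3) (nat_lit 1) (nat_lit 3) true (nat_lit 0) true (nat_lit 4) true (nat_lit 3) true (nat_lit 4) true (nat_lit 6) (.s false (nat_lit 1) (nat_lit 10) (nat_lit 1) (nat_lit 2) (nat_lit 1) false (nat_lit 7) true (nat_lit 6) true (nat_lit 0) true (nat_lit 6) true (nat_lit 5) (.e true (nat_lit 36) (nat_lit 53) (nat_lit 3) (nat_lit 4) (.e false (nat_lit 18) (nat_lit 52) (nat_lit 3) (nat_lit 4) (.e true (nat_lit 18) (nat_lit 54) (nat_lit 3) (nat_lit 4) (.e true (nat_lit 18) (nat_lit 70) (nat_lit 1) (nat_lit 6) (.e false (nat_lit 18) (nat_lit 74) (nat_lit 1) (nat_lit 6) (.e false (nat_lit 18) (nat_lit 71) (nat_lit 1)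 (nat_lit 6) (.e true (nat_lit 18) (nat_lit 72) (nat_lit 1) (nat_lit 6) (.e false (nat_lit 18) (nat_lit 73) (nat_lit 1) (nat_lit 6) (.e true (nat_lit 18) (nat_lit 75) (nat_lit 1) (nat_lit 6) (.e true (nat_lit 18) (nat_lit 63) (nat_lit 2) (nat_lit 5) .nil))))))))))))) .leaf) (nat_lit 28679) (nat_lit 239) (.p (nat_lit 152) (nat_lit 18) (.p (nat_lit 154) (nat_lit 18) (.n (nat_lit 157) (nat_lit 18) (.n (nat_lit 158) (nat_lit 18) (.p (nat_lit 161) (nat_lit 18) .z))))) (.ct dr2_c4355 (nat_lit 18) (nat_lit 2) (.s false (nat_lit 1) (nat_lit 7) (nat_lit 1) (nat_lit 3) (nat_lit 3) true (nat_lit 1) true (nat_lit 4) true (nat_lit 2) true (nat_lit 5) true (nat_lit 4) (.e false (nat_lit 18) (nat_lit 26) (nat_lit 8) (nat_lit 1) (.e false (nat_lit 18) (nat_lit 56) (nat_lit 3) (nat_lit 4) (.e true (nat_lit 18) (nat_lit 77) (nat_lit 1) (nat_lit 5) (.e true (nat_lit 18) (nat_lit 78) (nat_lit 1) (nat_lit 5) (.e false (nat_lit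 18) (nat_lit 58) (nat_lit 3) (nat_lit 4) .nil))))))) (.nd .leaf (nat_lit 28680) (nat_lit 253) (.p (nat_lit 162) (nat_lit 18) (.n (nat_lit 164) (nat_lit 18) (.n (nat_lit 166) (nat_lit 18) .z))) (.ct dr2_c515 (nat_lit 18) (nat_lit 1) (.s true (nat_lit 1) (nat_lit 8) (nat_lit 3) (nat_lit 1) (nat_lit 3) true (nat_lit 0) true (nat_lit 2) true (nat_lit 1) true (nat_lit 2) true (nat_lit 3) (.e false (nat_lit 18) (nat_lit 19) (nat_lit 10) (nat_lit 0) (.e true (nat_lit 36) (nat_lit 62) (nat_lit 3) (nat_lit 2) (.e true (nat_lit 18) (nat_lit 61) (nat_lit 3) (nat_lit 2) (.e false (nat_lit 18) (nat_lit 63) (nat_lit 3) (nat_lit 2) (.e true (nat_lit 18) (nat_lit 79) (nat_lit 1) (nat_lit 3) .nil))))))) .leaf))) (nat_lit 28681) (nat_lit 284) (.p (nat_lit 188) (nat_lit 18) .z) .df (.nd (.nd (.nd (.nd .leaf (nat_lit 28684) (nat_lit 398) (.p (nat_lit 189) (nat_lit 81) (.n (nat_lit 190) (nat_lit 135) (.p (nat_lit 191) (nat_lit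 135) (.n (nat_lit 192) (nat_lit 12) (.n (nat_lit 193) (nat_lit 102) (.n (nat_lit 194) (nat_lit 105) (.n (nat_lit 195) (nat_lit 156) (.n (nat_lit 196) (nat_lit 93) (.n (nat_lit 197) (nat_lit 192) (.p (nat_lit 198) (nat_lit 90) (.p (nat_lit 199) (nat_lit 159) (.p (nat_lit 200) (nat_lit 90) (.p (nat_lit 201) (nat_lit 222) (.p (nat_lit 202) (nat_lit 63) (.p (nat_lit 203) (nat_lit 96) (.n (nat_lit 204) (nat_lit 69) (.p (nat_lit 205) (nat_lit 81) (.n (nat_lit 206) (nat_lit 27) (.p (nat_lit 207) (nat_lit 9) (.n (nat_lit 208) (nat_lit 33) (.p (nat_lit 210) (nat_lit 21) (.n (nat_lit 211) (nat_lit 12) (.n (nat_lit 212) (nat_lit 39) (.p (nat_lit 213) (nat_lit 114) (.p (nat_lit 214) (nat_lit 3) (.n (nat_lit 215) (nat_lit 6) (.n (nat_lit 216) (nat_lit 54) (.n (nat_lit 218) (nat_lit 18) (.n (nat_lit 219) (nat_lit 9) (.n (nat_lit 220) (nat_lit 18) (.n (nat_lit 221) (nat_lit 27) (.p (nat_lit 222) (nat_lit 18) (.p (nat_lit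 223) (nat_lit 27) (.p (nat_lit 224) (nat_lit 153) (.n (nat_lit 225) (nat_lit 99) (.p (nat_lit 226) (nat_lit 99) (.n (nat_lit 227) (nat_lit 36) (.p (nat_lit 228) (nat_lit 27) (.p (nat_lit 229) (nat_lit 90) (.n (nat_lit 231) (nat_lit 36) (.p (nat_lit 232) (nat_lit 9) (.n (nat_lit 235) (nat_lit 81) (.p (nat_lit 236) (nat_lit 36) (.n (nat_lit 237) (nat_lit 108) (.p (nat_lit 238) (nat_lit 18) (.p (nat_lit 239) (nat_lit 90) (.p (nat_lit 240) (nat_lit 36) .z))))))))))))))))))))))))))))))))))))))))))))))) (.ct dr2_c4626 (nat_lit 18) (nat_lit 3) (.s true (nat_lit 1) (nat_lit 12) (nat_lit 3) (nat_lit 1) (nat_lit 3) true (nat_lit 5) true (nat_lit 12) true (nat_lit 3) true (nat_lit 12) true (nat_lit 14) (.e false (nat_lit 18) (nat_lit 34) (nat_lit 10) (nat_lit 5) (.e false (nat_lit 18) (nat_lit 85) (nat_lit 3) (nat_lit 12) (.e true (nat_lit 18) (nat_lit 87) (nat_lit 3) (nat_lit 12) (.e false (nat_lit 18) (nat_lit 88)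 (nat_lit 3) (nat_lit 12) (.e true (nat_lit 18) (nat_lit 89) (nat_lit 3) (nat_lit 12) (.e true (nat_lit 18) (nat_lit 94) (nat_lit 3) (nat_lit 12) (.e true (nat_lit 18) (nat_lit 96) (nat_lit 3) (nat_lit 12) (.e false (nat_lit 18) (nat_lit 98) (nat_lit 3) (nat_lit 12) (.e false (nat_lit 18) (nat_lit 100) (nat_lit 3) (nat_lit 12) (.e false (nat_lit 18) (nat_lit 103) (nat_lit 3) (nat_lit 12) (.e true (nat_lit 18) (nat_lit 115) (nat_lit 1) (nat_lit 14) .nil))))))))))))) .leaf) (nat_lit 28685) (nat_lit 394) (.p (nat_lit 192) (nat_lit 6) (.n (nat_lit 193) (nat_lit 12) (.n (nat_lit 194) (nat_lit 6) (.p (nat_lit 195) (nat_lit 6) (.n (nat_lit 196) (nat_lit 12) (.p (nat_lit 197) (nat_lit 6) (.p (nat_lit 199) (nat_lit 6) (.p (nat_lit 201) (nat_lit 6) (.n (nat_lit 203) (nat_lit 12) (.p (nat_lit 204) (nat_lit 12) (.n (nat_lit 208) (nat_lit 24) (.p (nat_lit 210) (nat_lit 12) (.p (nat_lit 211) (nat_lit 6) (.n (nat_lit 212)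 (nat_lit 12) (.p (nat_lit 213) (nat_lit 6) (.n (nat_lit 214) (nat_lit 6) (.n (nat_lit 215) (nat_lit 6) (.p (nat_lit 225) (nat_lit 18) .z)))))))))))))))))) (.ct dr2_c4626 (nat_lit 18) (nat_lit 3) (.s false (nat_lit 1) (nat_lit 8) (nat_lit 5) (nat_lit 3) (nat_lit 1) true (nat_lit 3) true (nat_lit 14) true (nat_lit 7) true (nat_lit 10) true (nat_lit 12) (.e false (nat_lit 18) (nat_lit 115) (nat_lit 1) (nat_lit 14) (.e true (nat_lit 18) (nat_lit 119) (nat_lit 1) (nat_lit 14) (.e false (nat_lit 18) (nat_lit 123) (nat_lit 1) (nat_lit 14) (.e false (nat_lit 18) (nat_lit 124) (nat_lit 1) (nat_lit 14) (.e true (nat_lit 18) (nat_lit 47) (nat_lit 8) (nat_lit 7) (.e false (nat_lit 18) (nat_lit 61) (nat_lit 5) (nat_lit 10) (.e false (nat_lit 18) (nat_lit 62) (nat_lit 5) (nat_lit 10) (.e true (nat_lit 18) (nat_lit 63) (nat_lit 5) (nat_lit 10) (.e false (nat_lit 18) (nat_lit 87) (nat_lit 3) (nat_lit 12) (.e true (nat_lit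 18) (nat_lit 92) (nat_lit 3) (nat_lit 12) (.e true (nat_lit 18) (nat_lit 93) (nat_lit 3) (nat_lit 12) (.e false (nat_lit 18) (nat_lit 96) (nat_lit 3) (nat_lit 12) (.e true (nat_lit 18) (nat_lit 99) (nat_lit 3) (nat_lit 12) (.e true (nat_lit 18) (nat_lit 100) (nat_lit 3) (nat_lit 12) .nil)))))))))))))))) .leaf) (nat_lit 28686) (nat_lit 405) (.n (nat_lit 189) (nat_lit 54) (.p (nat_lit 190) (nat_lit 54) (.n (nat_lit 191) (nat_lit 54) (.n (nat_lit 192) (nat_lit 6) (.n (nat_lit 193) (nat_lit 42) (.n (nat_lit 194) (nat_lit 30) (.n (nat_lit 195) (nat_lit 42) (.p (nat_lit 196) (nat_lit 30) (.n (nat_lit 197) (nat_lit 42) (.p (nat_lit 199) (nat_lit 12) (.n (nat_lit 201) (nat_lit 24) (.n (nat_lit 202) (nat_lit 54) (.p (nat_lit 203) (nat_lit 48) (.n (nat_lit 204) (nat_lit 12) (.p (nat_lit 205) (nat_lit 18) (.p (nat_lit 206) (nat_lit 54) (.n (nat_lit 207) (nat_lit 54) (.p (nat_lit 208) (nat_lit 60) (.n (nat_lit 210) (nat_lit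 12) (.n (nat_lit 211) (nat_lit 60) (.p (nat_lit 212) (nat_lit 48) (.p (nat_lit 213) (nat_lit 12) (.p (nat_lit 214) (nat_lit 6) (.p (nat_lit 215) (nat_lit 114) (.n (nat_lit 218) (nat_lit 36) (.p (nat_lit 226) (nat_lit 18) (.p (nat_lit 228) (nat_lit 36) (.p (nat_lit 229) (nat_lit 36) (.n (nat_lit 232) (nat_lit 36) (.p (nat_lit 235) (nat_lit 54) (.p (nat_lit 237) (nat_lit 18) (.n (nat_lit 238) (nat_lit 54) (.p (nat_lit 239) (nat_lit 36) .z))))))))))))))))))))))))))))))))) (.ct dr2_c4626 (nat_lit 18) (nat_lit 3) (.s false (nat_lit 1) (nat_lit 28) (nat_lit 2) (nat_lit 1) (nat_lit 0) true (nat_lit 10) true (nat_lit 15) false (nat_lit 3) true (nat_lit 13) true (nat_lit 14) (.e true (nat_lit 18) (nat_lit 62) (nat_lit 5) (nat_lit 10) (.e false (nat_lit 18) (nat_lit 148) (nat_lit 0) (nat_lit 15) (.e true (nat_lit 18) (nat_lit 104) (nat_lit 2) (nat_lit 13) (.e false (nat_lit 18) (nat_lit 110) (nat_lit 2) (nat_lit 13)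 (.e true (nat_lit 18) (nat_lit 112) (nat_lit 2) (nat_lit 13) (.e true (nat_lit 18) (nat_lit 130) (nat_lit 1) (nat_lit 14) .nil)))))))) (.nd .leaf (nat_lit 28688) (nat_lit 456) (.n (nat_lit 241) (nat_lit 36) (.p (nat_lit 242) (nat_lit 9) (.n (nat_lit 243) (nat_lit 9) (.p (nat_lit 244) (nat_lit 27) (.n (nat_lit 246) (nat_lit 27) (.n (nat_lit 248) (nat_lit 18) (.p (nat_lit 249) (nat_lit 99) (.n (nat_lit 250) (nat_lit 27) (.p (nat_lit 251) (nat_lit 99) (.n (nat_lit 252) (nat_lit 27) (.n (nat_lit 253) (nat_lit 36) (.n (nat_lit 254) (nat_lit 27) (.n (nat_lit 255) (nat_lit 36) (.n (nat_lit 256) (nat_lit 63) (.n (nat_lit 258) (nat_lit 45) (.p (nat_lit 259) (nat_lit 9) (.n (nat_lit 260) (nat_lit 9) .z))))))))))))))))) (.ct dr2_c4611 (nat_lit 18) (nat_lit 1) (.s false (nat_lit 1) (nat_lit 8) (nat_lit 4) (nat_lit 3) (nat_lit 3) true (nat_lit 1) true (nat_lit 7) true (nat_lit 4) true (nat_lit 6) true (nat_lit 7) (.e false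 (nat_lit 36) (nat_lit 104) (nat_lit 3) (nat_lit 7) (.e true (nat_lit 18) (nat_lit 105) (nat_lit 3) (nat_lit 7) (.e false (nat_lit 18) (nat_lit 106) (nat_lit 3) (nat_lit 7) (.e false (nat_lit 18) (nat_lit 55) (nat_lit 8) (nat_lit 4) (.e true (nat_lit 18) (nat_lit 80) (nat_lit 4) (nat_lit 6) (.e true (nat_lit 18) (nat_lit 81) (nat_lit 4) (nat_lit 6) (.e true (nat_lit 18) (nat_lit 110) (nat_lit 3) (nat_lit 7) (.e false (nat_lit 18) (nat_lit 112) (nat_lit 3) (nat_lit 7) .nil)))))))))) .leaf)) (nat_lit 28689) (nat_lit 457) (.p (nat_lit 241) (nat_lit 9) (.p (nat_lit 244) (nat_lit 9) (.n (nat_lit 245) (nat_lit 9) (.p (nat_lit 246) (nat_lit 9) (.n (nat_lit 248) (nat_lit 9) (.n (nat_lit 249) (nat_lit 27) (.p (nat_lit 250) (nat_lit 9) (.p (nat_lit 254) (nat_lit 9) (.p (nat_lit 256) (nat_lit 9) (.p (nat_lit 259) (nat_lit 9) .z)))))))))) (.ct dr2_c4611 (nat_lit 18) (nat_lit 1) (.s true (nat_lit 1) (nat_lit 17) (nat_lit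 3) (nat_lit 1) (nat_lit 3) true (nat_lit 3) true (nat_lit 7) true (nat_lit 1) true (nat_lit 7) true (nat_lit 8) (.e false (nat_lit 18) (nat_lit 39) (nat_lit 10) (nat_lit 3) (.e true (nat_lit 18) (nat_lit 105) (nat_lit 3) (nat_lit 7) (.e false (nat_lit 18) (nat_lit 107) (nat_lit 3) (nat_lit 7) (.e false (nat_lit 18) (nat_lit 110) (nat_lit 3) (nat_lit 7) (.e true (nat_lit 18) (nat_lit 111) (nat_lit 3) (nat_lit 7) (.e false (nat_lit 18) (nat_lit 112) (nat_lit 3) (nat_lit 7) (.e true (nat_lit 18) (nat_lit 152) (nat_lit 1) (nat_lit 8) .nil))))))))) (.nd (.nd (.nd .leaf (nat_lit 28690) (nat_lit 450) (.n (nat_lit 241) (nat_lit 54) (.p (nat_lit 242) (nat_lit 99) (.n (nat_lit 243) (nat_lit 45) (.p (nat_lit 244) (nat_lit 27) (.n (nat_lit 245) (nat_lit 9) (.n (nat_lit 246) (nat_lit 9) (.n (nat_lit 248) (nat_lit 18) (.p (nat_lit 249) (nat_lit 207) (.n (nat_lit 250) (nat_lit 81) (.p (nat_lit 251) (nat_lit 171) (.n (nat_lit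 252) (nat_lit 9) (.n (nat_lit 253) (nat_lit 81) (.n (nat_lit 254) (nat_lit 45) (.n (nat_lit 255) (nat_lit 99) (.n (nat_lit 256) (nat_lit 126) (.n (nat_lit 257) (nat_lit 36) (.n (nat_lit 258) (nat_lit 72) (.p (nat_lit 260) (nat_lit 9) (.p (nat_lit 261) (nat_lit 54) .z))))))))))))))))))) (.ct dr2_c4611 (nat_lit 18) (nat_lit 1) (.s true (nat_lit 1) (nat_lit 18) (nat_lit 3) (nat_lit 1) (nat_lit 3) true (nat_lit 3) true (nat_lit 7) true (nat_lit 1) true (nat_lit 7) true (nat_lit 8) (.e false (nat_lit 18) (nat_lit 40) (nat_lit 10) (nat_lit 3) (.e true (nat_lit 18) (nat_lit 109) (nat_lit 3) (nat_lit 7) (.e false (nat_lit 18) (nat_lit 104) (nat_lit 3) (nat_lit 7) (.e false (nat_lit 18) (nat_lit 106) (nat_lit 3) (nat_lit 7) (.e true (nat_lit 18) (nat_lit 107) (nat_lit 3) (nat_lit 7) (.e true (nat_lit 18) (nat_lit 108) (nat_lit 3) (nat_lit 7) (.e true (nat_lit 18) (nat_lit 110) (nat_lit 3) (nat_lit 7) (.e false (nat_lit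 18) (nat_lit 111) (nat_lit 3) (nat_lit 7) (.e true (nat_lit 18) (nat_lit 113) (nat_lit 3) (nat_lit 7) (.e true (nat_lit 18) (nat_lit 153) (nat_lit 1) (nat_lit 8) .nil)))))))))))) .leaf) (nat_lit 28694) (nat_lit 552) (.p (nat_lit 262) (nat_lit 136) (.p (nat_lit 263) (nat_lit 178) (.p (nat_lit 264) (nat_lit 101) (.p (nat_lit 265) (nat_lit 97) (.n (nat_lit 266) (nat_lit 86) (.p (nat_lit 267) (nat_lit 214) (.n (nat_lit 268) (nat_lit 165) (.n (nat_lit 269) (nat_lit 98) (.n (nat_lit 270) (nat_lit 30) (.n (nat_lit 271) (nat_lit 44) (.p (nat_lit 272) (nat_lit 177) (.n (nat_lit 273) (nat_lit 101) (.n (nat_lit 274) (nat_lit 52) (.n (nat_lit 275) (nat_lit 78) (.n (nat_lit 276) (nat_lit 90) (.p (nat_lit 277) (nat_lit 93) (.n (nat_lit 278) (nat_lit 178) (.n (nat_lit 280) (nat_lit 16) (.p (nat_lit 281) (nat_lit 121) (.p (nat_lit 282) (nat_lit 19) (.p (nat_lit 283) (nat_lit 46) (.n (nat_lit 284) (nat_lit 31) (.n (nat_lit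 285) (nat_lit 283) (.p (nat_lit 286) (nat_lit 36) (.n (nat_lit 287) (nat_lit 81) (.p (nat_lit 288) (nat_lit 99) (.n (nat_lit 289) (nat_lit 99) (.p (nat_lit 290) (nat_lit 102) (.n (nat_lit 291) (nat_lit 3) (.p (nat_lit 292) (nat_lit 75) (.p (nat_lit 293) (nat_lit 135) (.p (nat_lit 294) (nat_lit 51) (.p (nat_lit 295) (nat_lit 57) (.p (nat_lit 296) (nat_lit 45) (.p (nat_lit 297) (nat_lit 117) (.p (nat_lit 298) (nat_lit 87) (.p (nat_lit 299) (nat_lit 27) (.n (nat_lit 300) (nat_lit 15) (.n (nat_lit 301) (nat_lit 12) (.n (nat_lit 302) (nat_lit 3) (.n (nat_lit 303) (nat_lit 102) (.n (nat_lit 304) (nat_lit 117) (.n (nat_lit 305) (nat_lit 135) (.p (nat_lit 306) (nat_lit 165) (.p (nat_lit 307) (nat_lit 15) (.n (nat_lit 308) (nat_lit 168) .z)))))))))))))))))))))))))))))))))))))))))))))) (.ct dr2_c4371 (nat_lit 18) (nat_lit 1) dr2_i75) .leaf) (nat_lit 28695) (nat_lit 620) (.p (nat_lit 309) (nat_lit 54) (.n (nat_lit 311)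 (nat_lit 36) (.n (nat_lit 312) (nat_lit 99) (.n (nat_lit 313) (nat_lit 27) (.p (nat_lit 314) (nat_lit 27) (.p (nat_lit 315) (nat_lit 72) (.p (nat_lit 316) (nat_lit 36) (.n (nat_lit 317) (nat_lit 126) (.n (nat_lit 318) (nat_lit 18) (.p (nat_lit 319) (nat_lit 18) (.p (nat_lit 320) (nat_lit 27) (.p (nat_lit 321) (nat_lit 36) (.n (nat_lit 322) (nat_lit 45) (.n (nat_lit 323) (nat_lit 9) (.n (nat_lit 324) (nat_lit 45) (.p (nat_lit 325) (nat_lit 54) (.p (nat_lit 326) (nat_lit 9) (.n (nat_lit 327) (nat_lit 54) (.n (nat_lit 328) (nat_lit 18) (.n (nat_lit 329) (nat_lit 36) .z)))))))))))))))))))) (.ct dr2_c531 (nat_lit 18) (nat_lit 0) (.s false (nat_lit 1) (nat_lit 23) (nat_lit 1) (nat_lit 3) (nat_lit 3) true (nat_lit 5) true (nat_lit 7) true (nat_lit 0) true (nat_lit 9) true (nat_lit 7) (.e false (nat_lit 18) (nat_lit 70) (nat_lit 8) (nat_lit 5) (.e false (nat_lit 18) (nat_lit 141) (nat_lit 3) (nat_lit 7) (.e true (nat_lit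 18) (nat_lit 187) (nat_lit 1) (nat_lit 9) (.e false (nat_lit 18) (nat_lit 145) (nat_lit 3) (nat_lit 7) .nil)))))) (.nd .leaf (nat_lit 28696) (nat_lit 607) (.n (nat_lit 309) (nat_lit 306) (.p (nat_lit 310) (nat_lit 36) (.p (nat_lit 311) (nat_lit 135) (.p (nat_lit 312) (nat_lit 486) (.p (nat_lit 313) (nat_lit 216) (.n (nat_lit 314) (nat_lit 144) (.n (nat_lit 315) (nat_lit 270) (.n (nat_lit 316) (nat_lit 207) (.p (nat_lit 317) (nat_lit 630) (.p (nat_lit 318) (nat_lit 126) (.n (nat_lit 319) (nat_lit 63) (.n (nat_lit 320) (nat_lit 153) (.n (nat_lit 321) (nat_lit 216) (.p (nat_lit 322) (nat_lit 144) (.p (nat_lit 323) (nat_lit 18) (.p (nat_lit 324) (nat_lit 216) (.n (nat_lit 325) (nat_lit 216) (.n (nat_lit 326) (nat_lit 45) (.p (nat_lit 327) (nat_lit 234) (.p (nat_lit 328) (nat_lit 63) (.p (nat_lit 329) (nat_lit 180) .z))))))))))))))))))))) (.ct dr2_c531 (nat_lit 18) (nat_lit 0) (.s true (nat_lit 1) (nat_lit 8) (nat_lit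 3) (nat_lit 2) (nat_lit 8) false (nat_lit 0) true (nat_lit 5) true (nat_lit 5) true (nat_lit 7) true (nat_lit 8) (.e true (nat_lit 18) (nat_lit 73) (nat_lit 8) (nat_lit 5) (.e false (nat_lit 18) (nat_lit 70) (nat_lit 8) (nat_lit 5) (.e false (nat_lit 18) (nat_lit 71) (nat_lit 8) (nat_lit 5) (.e true (nat_lit 18) (nat_lit 74) (nat_lit 8) (nat_lit 5) (.e false (nat_lit 18) (nat_lit 75) (nat_lit 8) (nat_lit 5) (.e false (nat_lit 18) (nat_lit 140) (nat_lit 3) (nat_lit 7) (.e true (nat_lit 18) (nat_lit 141) (nat_lit 3) (nat_lit 7) (.e true (nat_lit 18) (nat_lit 143) (nat_lit 3) (nat_lit 7) (.e true (nat_lit 18) (nat_lit 145) (nat_lit 3) (nat_lit 7) (.e true (nat_lit 18) (nat_lit 146) (nat_lit 3) (nat_lit 7) (.e false (nat_lit 18) (nat_lit 148) (nat_lit 3) (nat_lit 7) (.e false (nat_lit 18) (nat_lit 149) (nat_lit 3) (nat_lit 7) (.e true (nat_lit 36) (nat_lit 150) (nat_lit 3) (nat_lit 7) (.e false (nat_lit 18) (nat_lit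 165) (nat_lit 2) (nat_lit 8) (.e false (nat_lit 18) (nat_lit 166) (nat_lit 2) (nat_lit 8) (.e true (nat_lit 18) (nat_lit 163) (nat_lit 2) (nat_lit 8) .nil)))))))))))))))))) .leaf)))) (nat_lit 29696) (nat_lit 69) (.n (nat_lit 55) (nat_lit 36) (.n (nat_lit 56) (nat_lit 18) (.p (nat_lit 57) (nat_lit 18) (.p (nat_lit 58) (nat_lit 18) (.p (nat_lit 59) (nat_lit 18) (.n (nat_lit 60) (nat_lit 18) .z)))))) (.ct dr2_c4354 (nat_lit 18) (nat_lit 4) (.s false (nat_lit 1) (nat_lit 3) (nat_lit 1) (nat_lit 0) (nat_lit 3) false (nat_lit 0) true (nat_lit 2) true (nat_lit 2) true (nat_lit 3) true (nat_lit 4) (.e false (nat_lit 18) (nat_lit 8) (nat_lit 7) (nat_lit 0) (.e false (nat_lit 18) (nat_lit 18) (nat_lit 3) (nat_lit 2) (.e true (nat_lit 18) (nat_lit 16) (nat_lit 3) (nat_lit 2) (.e false (nat_lit 18) (nat_lit 26) (nat_lit 1) (nat_lit 3) .nil)))))) (.nd (.nd (.nd (.nd (.nd .leaf (nat_lit 29697) (nat_lit 73) (.p (nat_lit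 63) (nat_lit 18) .z) .df .leaf) (nat_lit 29698) (nat_lit 88) (.p (nat_lit 74) (nat_lit 18) .z) .df .leaf) (nat_lit 29699) (nat_lit 98) (.p (nat_lit 80) (nat_lit 18) .z) .df (.nd .leaf (nat_lit 29700) (nat_lit 157) (.p (nat_lit 108) (nat_lit 18) (.n (nat_lit 109) (nat_lit 18) (.p (nat_lit 110) (nat_lit 18) (.n (nat_lit 111) (nat_lit 18) (.n (nat_lit 112) (nat_lit 18) (.p (nat_lit 114) (nat_lit 18) .z)))))) (.ct dr2_c4610 (nat_lit 18) (nat_lit 3) (.s true (nat_lit 1) (nat_lit 4) (nat_lit 3) (nat_lit 3) (nat_lit 1) true (nat_lit 1) true (nat_lit 5) true (nat_lit 3) true (nat_lit 4) true (nat_lit 4) (.e true (nat_lit 18) (nat_lit 16) (nat_lit 8) (nat_lit 1) (.e true (nat_lit 18) (nat_lit 55) (nat_lit 1) (nat_lit 5) (.e false (nat_lit 36) (nat_lit 37) (nat_lit 3) (nat_lit 4) (.e true (nat_lit 18) (nat_lit 39) (nat_lit 3) (nat_lit 4) (.e false (nat_lit 18) (nat_lit 40) (nat_lit 3) (nat_lit 4) .nil))))))) .leaf))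 (nat_lit 29701) (nat_lit 203) (.p (nat_lit 115) (nat_lit 12) (.p (nat_lit 116) (nat_lit 12) (.p (nat_lit 117) (nat_lit 6) (.p (nat_lit 118) (nat_lit 12) (.n (nat_lit 119) (nat_lit 24) (.p (nat_lit 120) (nat_lit 12) (.p (nat_lit 122) (nat_lit 12) (.p (nat_lit 124) (nat_lit 12) (.p (nat_lit 125) (nat_lit 18) (.n (nat_lit 126) (nat_lit 6) (.p (nat_lit 127) (nat_lit 6) (.n (nat_lit 129) (nat_lit 18) (.n (nat_lit 131) (nat_lit 30) (.p (nat_lit 133) (nat_lit 6) (.p (nat_lit 134) (nat_lit 12) (.n (nat_lit 135) (nat_lit 6) (.n (nat_lit 136) (nat_lit 6) (.p (nat_lit 138) (nat_lit 6) (.n (nat_lit 139) (nat_lit 30) .z))))))))))))))))))) (.ct dr2_c4370 (nat_lit 18) (nat_lit 5) (.s true (nat_lit 1) (nat_lit 5) (nat_lit 3) (nat_lit 3) (nat_lit 1) true (nat_lit 2) true (nat_lit 9) true (nat_lit 5) true (nat_lit 7) true (nat_lit 7) (.e true (nat_lit 18) (nat_lit 20) (nat_lit 8) (nat_lit 2) (.e true (nat_lit 18) (nat_lit 64)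 (nat_lit 1) (nat_lit 9) (.e false (nat_lit 18) (nat_lit 41) (nat_lit 3) (nat_lit 7) (.e true (nat_lit 18) (nat_lit 45) (nat_lit 3) (nat_lit 7) (.e false (nat_lit 18) (nat_lit 49) (nat_lit 3) (nat_lit 7) (.e false (nat_lit 18) (nat_lit 50) (nat_lit 3) (nat_lit 7) (.e false (nat_lit 18) (nat_lit 42) (nat_lit 3) (nat_lit 7) .nil))))))))) (.nd (.nd (.nd .leaf (nat_lit 29702) (nat_lit 223) (.n (nat_lit 144) (nat_lit 18) (.n (nat_lit 145) (nat_lit 36) (.p (nat_lit 148) (nat_lit 36) (.p (nat_lit 149) (nat_lit 18) (.n (nat_lit 150) (nat_lit 36) .z))))) (.ct dr2_c530 (nat_lit 18) (nat_lit 3) (.s true (nat_lit 1) (nat_lit 10) (nat_lit 1) (nat_lit 1) (nat_lit 2) true (nat_lit 3) true (nat_lit 5) true (nat_lit 0) true (nat_lit 6) true (nat_lit 6) (.e true (nat_lit 18) (nat_lit 63) (nat_lit 2) (nat_lit 5) (.e false (nat_lit 36) (nat_lit 73) (nat_lit 1) (nat_lit 6) (.e true (nat_lit 36) (nat_lit 75) (nat_lit 1) (nat_lit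 6) (.e true (nat_lit 36) (nat_lit 70) (nat_lit 1) (nat_lit 6) (.e false (nat_lit 18) (nat_lit 74) (nat_lit 1) (nat_lit 6) .nil))))))) .leaf) (nat_lit 29703) (nat_lit 241) (.p (nat_lit 152) (nat_lit 18) (.p (nat_lit 153) (nat_lit 18) (.p (nat_lit 154) (nat_lit 18) (.n (nat_lit 155) (nat_lit 18) (.p (nat_lit 156) (nat_lit 18) (.n (nat_lit 157) (nat_lit 18) (.p (nat_lit 160) (nat_lit 18) .z))))))) (.ct dr2_c4355 (nat_lit 18) (nat_lit 2) (.s true (nat_lit 1) (nat_lit 10) (nat_lit 0) (nat_lit 1) (nat_lit 3) true (nat_lit 2) true (nat_lit 4) true (nat_lit 0) true (nat_lit 6) true (nat_lit 5) (.e true (nat_lit 18) (nat_lit 59) (nat_lit 3) (nat_lit 4) (.e false (nat_lit 18) (nat_lit 16) (nat_lit 10) (nat_lit 0) (.e false (nat_lit 18) (nat_lit 80) (nat_lit 0) (nat_lit 6) (.e false (nat_lit 18) (nat_lit 81) (nat_lit 0) (nat_lit 6) (.e false (nat_lit 18) (nat_lit 78) (nat_lit 1) (nat_lit 5) .nil))))))) .leaf) (nat_lit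 29704) (nat_lit 251) (.n (nat_lit 163) (nat_lit 18) (.p (nat_lit 165) (nat_lit 18) (.p (nat_lit 166) (nat_lit 36) .z))) (.ct dr2_c515 (nat_lit 18) (nat_lit 1) (.s true (nat_lit 1) (nat_lit 10) (nat_lit 1) (nat_lit 1) (nat_lit 3) true (nat_lit 1) true (nat_lit 2) true (nat_lit 0) true (nat_lit 3) true (nat_lit 3) (.e true (nat_lit 18) (nat_lit 63) (nat_lit 3) (nat_lit 2) (.e false (nat_lit 18) (nat_lit 80) (nat_lit 1) (nat_lit 3) (.e false (nat_lit 36) (nat_lit 81) (nat_lit 1) (nat_lit 3) .nil))))) (.nd .leaf (nat_lit 29705) (nat_lit 289) (.p (nat_lit 178) (nat_lit 36) (.p (nat_lit 179) (nat_lit 36) (.n (nat_lit 182) (nat_lit 18) (.p (nat_lit 183) (nat_lit 36) (.n (nat_lit 186) (nat_lit 18) (.n (nat_lit 187) (nat_lit 18) .z)))))) (.ct dr2_c275 (nat_lit 18) (nat_lit 1) (.s false (nat_lit 1) (nat_lit 10) (nat_lit 3) (nat_lit 1) (nat_lit 2) true (nat_lit 1) true (nat_lit 5) true (nat_lit 0) true (nat_lit 4) true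 (nat_lit 6) (.e false (nat_lit 18) (nat_lit 81) (nat_lit 2) (nat_lit 5) (.e false (nat_lit 18) (nat_lit 24) (nat_lit 10) (nat_lit 0) (.e true (nat_lit 18) (nat_lit 71) (nat_lit 3) (nat_lit 4) (.e false (nat_lit 18) (nat_lit 72) (nat_lit 3) (nat_lit 4) (.e true (nat_lit 18) (nat_lit 73) (nat_lit 3) (nat_lit 4) (.e false (nat_lit 18) (nat_lit 75) (nat_lit 3) (nat_lit 4) (.e true (nat_lit 18) (nat_lit 83) (nat_lit 1) (nat_lit 6) .nil))))))))) .leaf))) (nat_lit 29709) (nat_lit 400) (.n (nat_lit 189) (nat_lit 18) (.n (nat_lit 190) (nat_lit 18) (.p (nat_lit 191) (nat_lit 18) (.p (nat_lit 192) (nat_lit 24) (.p (nat_lit 193) (nat_lit 6) (.n (nat_lit 194) (nat_lit 132) (.n (nat_lit 195) (nat_lit 48) (.n (nat_lit 196) (nat_lit 84) (.n (nat_lit 197) (nat_lit 138) (.p (nat_lit 198) (nat_lit 126) (.p (nat_lit 199) (nat_lit 6) (.p (nat_lit 200) (nat_lit 126) (.p (nat_lit 201) (nat_lit 42) (.n (nat_lit 202) (nat_lit 18)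 (.p (nat_lit 203) (nat_lit 132) (.n (nat_lit 204) (nat_lit 42) (.p (nat_lit 205) (nat_lit 90) (.p (nat_lit 206) (nat_lit 81) (.n (nat_lit 207) (nat_lit 18) (.p (nat_lit 208) (nat_lit 120) (.n (nat_lit 210) (nat_lit 24) (.n (nat_lit 211) (nat_lit 165) (.p (nat_lit 212) (nat_lit 168) (.p (nat_lit 213) (nat_lit 114) (.n (nat_lit 214) (nat_lit 24) (.p (nat_lit 215) (nat_lit 192) (.n (nat_lit 216) (nat_lit 162) (.p (nat_lit 218) (nat_lit 27) (.n (nat_lit 219) (nat_lit 117) (.p (nat_lit 220) (nat_lit 81) (.n (nat_lit 221) (nat_lit 63) (.n (nat_lit 222) (nat_lit 117) (.p (nat_lit 223) (nat_lit 81) (.p (nat_lit 224) (nat_lit 162) (.n (nat_lit 225) (nat_lit 54) (.p (nat_lit 226) (nat_lit 90) (.n (nat_lit 227) (nat_lit 72) (.p (nat_lit 228) (nat_lit 90) (.n (nat_lit 229) (nat_lit 18) (.n (nat_lit 231) (nat_lit 90) (.p (nat_lit 235) (nat_lit 18) (.p (nat_lit 236) (nat_lit 72) (.n (nat_lit 237) (nat_lit 72) (.n (nat_lit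 238) (nat_lit 72) (.n (nat_lit 239) (nat_lit 18) (.p (nat_lit 240) (nat_lit 90) .z)))))))))))))))))))))))))))))))))))))))))))))) (.ct dr2_c4626 (nat_lit 18) (nat_lit 3) (.s true (nat_lit 1) (nat_lit 10) (nat_lit 1) (nat_lit 1) (nat_lit 5) true (nat_lit 3) true (nat_lit 10) true (nat_lit 5) true (nat_lit 14) true (nat_lit 14) (.e true (nat_lit 18) (nat_lit 63) (nat_lit 5) (nat_lit 10) (.e false (nat_lit 18) (nat_lit 117) (nat_lit 1) (nat_lit 14) (.e false (nat_lit 18) (nat_lit 126) (nat_lit 1) (nat_lit 14) (.e true (nat_lit 18) (nat_lit 127) (nat_lit 1) (nat_lit 14) (.e false (nat_lit 18) (nat_lit 131) (nat_lit 1) (nat_lit 14) (.e true (nat_lit 18) (nat_lit 133) (nat_lit 1) (nat_lit 14) (.e false (nat_lit 18) (nat_lit 135) (nat_lit 1) (nat_lit 14) (.e true (nat_lit 18) (nat_lit 136) (nat_lit 1) (nat_lit 14) (.e false (nat_lit 18) (nat_lit 138) (nat_lit 1) (nat_lit 14) (.e true (nat_lit 18) (nat_lit 139) (nat_lit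 1) (nat_lit 14) (.e false (nat_lit 18) (nat_lit 125) (nat_lit 1) (nat_lit 14) (.e true (nat_lit 18) (nat_lit 129) (nat_lit 1) (nat_lit 14) .nil)))))))))))))) (.nd (.nd (.nd (.nd .leaf (nat_lit 29710) (nat_lit 397) (.n (nat_lit 189) (nat_lit 18) (.p (nat_lit 190) (nat_lit 54) (.n (nat_lit 191) (nat_lit 54) (.p (nat_lit 192) (nat_lit 12) (.p (nat_lit 193) (nat_lit 84) (.p (nat_lit 194) (nat_lit 60) (.p (nat_lit 195) (nat_lit 120) (.p (nat_lit 196) (nat_lit 30) (.p (nat_lit 197) (nat_lit 120) (.n (nat_lit 198) (nat_lit 36) (.n (nat_lit 199) (nat_lit 114) (.n (nat_lit 200) (nat_lit 36) (.n (nat_lit 201) (nat_lit 132) (.n (nat_lit 203) (nat_lit 60) (.p (nat_lit 204) (nat_lit 42) (.n (nat_lit 205) (nat_lit 36) (.n (nat_lit 206) (nat_lit 18) (.p (nat_lit 207) (nat_lit 36) (.n (nat_lit 208) (nat_lit 12) (.p (nat_lit 210) (nat_lit 24) (.p (nat_lit 211) (nat_lit 12) (.p (nat_lit 212) (nat_lit 12) (.n (nat_lit 213) (nat_lit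 78) (.n (nat_lit 214) (nat_lit 12) (.n (nat_lit 215) (nat_lit 66) (.p (nat_lit 218) (nat_lit 36) (.n (nat_lit 219) (nat_lit 18) (.p (nat_lit 221) (nat_lit 18) (.n (nat_lit 222) (nat_lit 36) (.n (nat_lit 224) (nat_lit 54) (.p (nat_lit 225) (nat_lit 54) (.n (nat_lit 226) (nat_lit 18) (.n (nat_lit 228) (nat_lit 18) (.n (nat_lit 229) (nat_lit 72) (.p (nat_lit 232) (nat_lit 18) (.p (nat_lit 235) (nat_lit 18) (.p (nat_lit 237) (nat_lit 36) (.n (nat_lit 239) (nat_lit 72) .z)))))))))))))))))))))))))))))))))))))) (.ct dr2_c4626 (nat_lit 18) (nat_lit 3) (.s false (nat_lit 1) (nat_lit 29) (nat_lit 2) (nat_lit 1) (nat_lit 0) true (nat_lit 10) true (nat_lit 15) false (nat_lit 3) true (nat_lit 13) true (nat_lit 14) (.e true (nat_lit 18) (nat_lit 63) (nat_lit 5) (nat_lit 10) (.e false (nat_lit 18) (nat_lit 149) (nat_lit 0) (nat_lit 15) (.e true (nat_lit 18) (nat_lit 108) (nat_lit 2) (nat_lit 13) (.e false (nat_lit 18) (nat_lit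 109) (nat_lit 2) (nat_lit 13) (.e true (nat_lit 18) (nat_lit 110) (nat_lit 2) (nat_lit 13) (.e false (nat_lit 18) (nat_lit 111) (nat_lit 2) (nat_lit 13) (.e false (nat_lit 18) (nat_lit 112) (nat_lit 2) (nat_lit 13) (.e true (nat_lit 18) (nat_lit 114) (nat_lit 2) (nat_lit 13) (.e false (nat_lit 36) (nat_lit 125) (nat_lit 1) (nat_lit 14) (.e false (nat_lit 18) (nat_lit 126) (nat_lit 1) (nat_lit 14) (.e true (nat_lit 18) (nat_lit 127) (nat_lit 1) (nat_lit 14) (.e true (nat_lit 18) (nat_lit 128) (nat_lit 1) (nat_lit 14) (.e true (nat_lit 18) (nat_lit 129) (nat_lit 1) (nat_lit 14) (.e false (nat_lit 18) (nat_lit 130) (nat_lit 1) (nat_lit 14) .nil)))))))))))))))) .leaf) (nat_lit 29712) (nat_lit 455) (.p (nat_lit 249) (nat_lit 36) (.p (nat_lit 251) (nat_lit 36) (.n (nat_lit 253) (nat_lit 18) (.n (nat_lit 255) (nat_lit 18) (.n (nat_lit 256) (nat_lit 36) (.n (nat_lit 258) (nat_lit 36) (.p (nat_lit 259) (nat_lit 18)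 (.n (nat_lit 260) (nat_lit 18) .z)))))))) (.ct dr2_c4611 (nat_lit 18) (nat_lit 1) (.s true (nat_lit 1) (nat_lit 29) (nat_lit 0) (nat_lit 1) (nat_lit 3) true (nat_lit 5) true (nat_lit 7) false (nat_lit 1) true (nat_lit 9) true (nat_lit 8) (.e true (nat_lit 18) (nat_lit 63) (nat_lit 7) (nat_lit 5) (.e false (nat_lit 36) (nat_lit 107) (nat_lit 3) (nat_lit 7) (.e false (nat_lit 18) (nat_lit 108) (nat_lit 3) (nat_lit 7) (.e true (nat_lit 18) (nat_lit 109) (nat_lit 3) (nat_lit 7) (.e true (nat_lit 18) (nat_lit 110) (nat_lit 3) (nat_lit 7) (.e true (nat_lit 18) (nat_lit 111) (nat_lit 3) (nat_lit 7) (.e false (nat_lit 18) (nat_lit 112) (nat_lit 3) (nat_lit 7) (.e false (nat_lit 18) (nat_lit 163) (nat_lit 0) (nat_lit 9) (.e true (nat_lit 18) (nat_lit 165) (nat_lit 0) (nat_lit 9) (.e true (nat_lit 36) (nat_lit 166) (nat_lit 0) (nat_lit 9) (.e false (nat_lit 18) (nat_lit 159) (nat_lit 1) (nat_lit 8) .nil)))))))))))))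 .leaf) (nat_lit 29717) (nat_lit 559) (.p (nat_lit 262) (nat_lit 68) (.n (nat_lit 263) (nat_lit 28) (.p (nat_lit 264) (nat_lit 46) (.p (nat_lit 265) (nat_lit 62) (.n (nat_lit 266) (nat_lit 88) (.p (nat_lit 267) (nat_lit 62) (.n (nat_lit 268) (nat_lit 42) (.p (nat_lit 269) (nat_lit 104) (.n (nat_lit 270) (nat_lit 42) (.p (nat_lit 271) (nat_lit 50) (.p (nat_lit 272) (nat_lit 156) (.n (nat_lit 273) (nat_lit 10) (.p (nat_lit 274) (nat_lit 64) (.n (nat_lit 275) (nat_lit 102) (.n (nat_lit 276) (nat_lit 144) (.p (nat_lit 277) (nat_lit 168) (.n (nat_lit 278) (nat_lit 206) (.p (nat_lit 280) (nat_lit 64) (.p (nat_lit 281) (nat_lit 182) (.n (nat_lit 282) (nat_lit 166) (.n (nat_lit 283) (nat_lit 4) (.n (nat_lit 284) (nat_lit 20) (.n (nat_lit 285) (nat_lit 290) (.n (nat_lit 286) (nat_lit 72) (.n (nat_lit 287) (nat_lit 54) (.p (nat_lit 289) (nat_lit 72) (.n (nat_lit 290) (nat_lit 84) (.n (nat_lit 291) (nat_lit 42) (.n (nat_lit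 292) (nat_lit 30) (.p (nat_lit 294) (nat_lit 12) (.p (nat_lit 295) (nat_lit 60) (.n (nat_lit 297) (nat_lit 36) (.n (nat_lit 298) (nat_lit 60) (.p (nat_lit 300) (nat_lit 42) (.p (nat_lit 301) (nat_lit 30) (.n (nat_lit 302) (nat_lit 60) (.n (nat_lit 303) (nat_lit 24) (.n (nat_lit 306) (nat_lit 12) (.p (nat_lit 307) (nat_lit 30) (.p (nat_lit 308) (nat_lit 24) .z)))))))))))))))))))))))))))))))))))))))) (.ct dr2_c4371 (nat_lit 18) (nat_lit 1) (.s false (nat_lit 1) (nat_lit 10) (nat_lit 7) (nat_lit 1) (nat_lit 2) true (nat_lit 1) true (nat_lit 12) true (nat_lit 4) true (nat_lit 7) true (nat_lit 13) (.e true (nat_lit 18) (nat_lit 157) (nat_lit 2) (nat_lit 12) (.e true (nat_lit 18) (nat_lit 158) (nat_lit 2) (nat_lit 12) (.e false (nat_lit 18) (nat_lit 45) (nat_lit 10) (nat_lit 4) (.e true (nat_lit 18) (nat_lit 71) (nat_lit 7) (nat_lit 7) (.e false (nat_lit 18) (nat_lit 72) (nat_lit 7) (nat_lit 7) (.e true (nat_lit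 18) (nat_lit 73) (nat_lit 7) (nat_lit 7) (.e false (nat_lit 18) (nat_lit 75) (nat_lit 7) (nat_lit 7) (.e true (nat_lit 18) (nat_lit 168) (nat_lit 1) (nat_lit 13) (.e true (nat_lit 18) (nat_lit 169) (nat_lit 1) (nat_lit 13) (.e true (nat_lit 18) (nat_lit 170) (nat_lit 1) (nat_lit 13) (.e false (nat_lit 18) (nat_lit 171) (nat_lit 1) (nat_lit 13) (.e true (nat_lit 18) (nat_lit 172) (nat_lit 1) (nat_lit 13) (.e false (nat_lit 18) (nat_lit 173) (nat_lit 1) (nat_lit 13) (.e true (nat_lit 18) (nat_lit 176) (nat_lit 1) (nat_lit 13) .nil)))))))))))))))) (.nd .leaf (nat_lit 29718) (nat_lit 558) (.p (nat_lit 262) (nat_lit 242) (.p (nat_lit 263) (nat_lit 272) (.p (nat_lit 264) (nat_lit 196) (.p (nat_lit 265) (nat_lit 128) (.n (nat_lit 266) (nat_lit 94) (.p (nat_lit 267) (nat_lit 344) (.n (nat_lit 268) (nat_lit 312) (.n (nat_lit 269) (nat_lit 136) (.n (nat_lit 270) (nat_lit 60) (.n (nat_lit 271) (nat_lit 46) (.p (nat_lit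 272) (nat_lit 282) (.n (nat_lit 273) (nat_lit 142) (.n (nat_lit 274) (nat_lit 74) (.n (nat_lit 275) (nat_lit 192) (.n (nat_lit 276) (nat_lit 180) (.p (nat_lit 277) (nat_lit 222) (.n (nat_lit 278) (nat_lit 344) (.n (nat_lit 280) (nat_lit 38) (.p (nat_lit 281) (nat_lit 248) (.n (nat_lit 282) (nat_lit 46) (.p (nat_lit 283) (nat_lit 80) (.n (nat_lit 284) (nat_lit 50) (.n (nat_lit 285) (nat_lit 536) (.p (nat_lit 286) (nat_lit 18) (.n (nat_lit 287) (nat_lit 198) (.p (nat_lit 288) (nat_lit 180) (.n (nat_lit 289) (nat_lit 144) (.p (nat_lit 290) (nat_lit 150) (.n (nat_lit 291) (nat_lit 24) (.p (nat_lit 292) (nat_lit 150) (.p (nat_lit 293) (nat_lit 216) (.p (nat_lit 294) (nat_lit 156) (.p (nat_lit 295) (nat_lit 78) (.p (nat_lit 296) (nat_lit 72) (.p (nat_lit 297) (nat_lit 162) (.p (nat_lit 298) (nat_lit 120) (.p (nat_lit 299) (nat_lit 36) (.p (nat_lit 300) (nat_lit 24) (.p (nat_lit 301) (nat_lit 30) (.n (nat_lit 302)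 (nat_lit 60) (.n (nat_lit 303) (nat_lit 186) (.n (nat_lit 304) (nat_lit 216) (.n (nat_lit 305) (nat_lit 198) (.p (nat_lit 306) (nat_lit 222) (.n (nat_lit 307) (nat_lit 6) (.n (nat_lit 308) (nat_lit 210) .z)))))))))))))))))))))))))))))))))))))))))))))) (.ct dr2_c4371 (nat_lit 18) (nat_lit 1) (.s true (nat_lit 1) (nat_lit 29) (nat_lit 2) (nat_lit 3) (nat_lit 0) true (nat_lit 9) true (nat_lit 14) false (nat_lit 1) true (nat_lit 12) true (nat_lit 11) (.e false (nat_lit 18) (nat_lit 80) (nat_lit 5) (nat_lit 9) (.e true (nat_lit 18) (nat_lit 182) (nat_lit 0) (nat_lit 14) (.e false (nat_lit 18) (nat_lit 152) (nat_lit 2) (nat_lit 12) (.e false (nat_lit 18) (nat_lit 153) (nat_lit 2) (nat_lit 12) (.e false (nat_lit 18) (nat_lit 154) (nat_lit 2) (nat_lit 12) (.e true (nat_lit 18) (nat_lit 155) (nat_lit 2) (nat_lit 12) (.e false (nat_lit 18) (nat_lit 156) (nat_lit 2) (nat_lit 12) (.e true (nat_lit 18) (nat_lit 157) (nat_lit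 2) (nat_lit 12) (.e false (nat_lit 18) (nat_lit 160) (nat_lit 2) (nat_lit 12) (.e true (nat_lit 36) (nat_lit 125) (nat_lit 3) (nat_lit 11) (.e true (nat_lit 18) (nat_lit 126) (nat_lit 3) (nat_lit 11) (.e false (nat_lit 18) (nat_lit 127) (nat_lit 3) (nat_lit 11) (.e false (nat_lit 18) (nat_lit 128) (nat_lit 3) (nat_lit 11) (.e false (nat_lit 18) (nat_lit 129) (nat_lit 3) (nat_lit 11) (.e true (nat_lit 18) (nat_lit 130) (nat_lit 3) (nat_lit 11) .nil))))))))))))))))) .leaf)) (nat_lit 29719) (nat_lit 621) (.p (nat_lit 309) (nat_lit 306) (.n (nat_lit 310) (nat_lit 90) (.n (nat_lit 311) (nat_lit 126) (.n (nat_lit 312) (nat_lit 594) (.n (nat_lit 313) (nat_lit 306) (.p (nat_lit 314) (nat_lit 126) (.p (nat_lit 315) (nat_lit 324) (.p (nat_lit 316) (nat_lit 306) (.n (nat_lit 317) (nat_lit 720) (.n (nat_lit 318) (nat_lit 126) (.p (nat_lit 320) (nat_lit 234) (.p (nat_lit 321) (nat_lit 324) (.n (nat_lit 322) (nat_lit 72)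 (.p (nat_lit 323) (nat_lit 90) (.n (nat_lit 324) (nat_lit 216) (.p (nat_lit 325) (nat_lit 234) (.n (nat_lit 326) (nat_lit 54) (.n (nat_lit 327) (nat_lit 162) (.n (nat_lit 328) (nat_lit 90) (.n (nat_lit 329) (nat_lit 162) .z)))))))))))))))))))) (.ct dr2_c531 (nat_lit 18) (nat_lit 0) (.s true (nat_lit 1) (nat_lit 23) (nat_lit 3) (nat_lit 3) (nat_lit 1) true (nat_lit 5) true (nat_lit 9) true (nat_lit 0) true (nat_lit 7) true (nat_lit 7) (.e true (nat_lit 18) (nat_lit 70) (nat_lit 8) (nat_lit 5) (.e true (nat_lit 18) (nat_lit 178) (nat_lit 1) (nat_lit 9) (.e false (nat_lit 36) (nat_lit 141) (nat_lit 3) (nat_lit 7) (.e true (nat_lit 18) (nat_lit 146) (nat_lit 3) (nat_lit 7) (.e false (nat_lit 18) (nat_lit 147) (nat_lit 3) (nat_lit 7) .nil))))))) (.nd (.nd .leaf (nat_lit 29720) (nat_lit 617) (.n (nat_lit 309) (nat_lit 306) (.p (nat_lit 310) (nat_lit 90) (.p (nat_lit 311) (nat_lit 108) (.p (nat_lit 312) (nat_lit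 558) (.p (nat_lit 313) (nat_lit 306) (.n (nat_lit 314) (nat_lit 126) (.n (nat_lit 315) (nat_lit 288) (.n (nat_lit 316) (nat_lit 270) (.p (nat_lit 317) (nat_lit 684) (.p (nat_lit 318) (nat_lit 126) (.n (nat_lit 319) (nat_lit 18) (.n (nat_lit 320) (nat_lit 198) (.n (nat_lit 321) (nat_lit 288) (.p (nat_lit 322) (nat_lit 72) (.n (nat_lit 323) (nat_lit 90) (.p (nat_lit 324) (nat_lit 216) (.n (nat_lit 325) (nat_lit 234) (.p (nat_lit 326) (nat_lit 36) (.p (nat_lit 327) (nat_lit 162) (.p (nat_lit 328) (nat_lit 72) (.p (nat_lit 329) (nat_lit 162) .z))))))))))))))))))))) (.ct dr2_c531 (nat_lit 18) (nat_lit 0) (.s false (nat_lit 1) (nat_lit 29) (nat_lit 3) (nat_lit 1) (nat_lit 2) true (nat_lit 4) true (nat_lit 8) false (nat_lit 0) true (nat_lit 7) true (nat_lit 9) (.e true (nat_lit 18) (nat_lit 63) (nat_lit 9) (nat_lit 4) (.e false (nat_lit 18) (nat_lit 165) (nat_lit 2) (nat_lit 8) (.e true (nat_lit 18) (nat_lit 144)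 (nat_lit 3) (nat_lit 7) (.e true (nat_lit 36) (nat_lit 145) (nat_lit 3) (nat_lit 7) (.e false (nat_lit 36) (nat_lit 148) (nat_lit 3) (nat_lit 7) (.e false (nat_lit 18) (nat_lit 149) (nat_lit 3) (nat_lit 7) (.e true (nat_lit 36) (nat_lit 150) (nat_lit 3) (nat_lit 7) (.e true (nat_lit 18) (nat_lit 182) (nat_lit 1) (nat_lit 9) .nil)))))))))) .leaf) (nat_lit 30720) (nat_lit 80) (.p (nat_lit 69) (nat_lit 18) .z) .df (.nd .leaf (nat_lit 30721) (nat_lit 89) (.p (nat_lit 75) (nat_lit 18) .z) .df .leaf))))) (nat_lit 30723) (nat_lit 101) (.p (nat_lit 82) (nat_lit 18) .z) .df (.nd (.nd (.nd (.nd (.nd (.nd .leaf (nat_lit 30724) (nat_lit 184) (.p (nat_lit 115) (nat_lit 24) (.p (nat_lit 116) (nat_lit 6) (.n (nat_lit 117) (nat_lit 6) (.p (nat_lit 118) (nat_lit 6) (.n (nat_lit 119) (nat_lit 12) (.p (nat_lit 120) (nat_lit 6) (.p (nat_lit 122) (nat_lit 6) (.p (nat_lit 124) (nat_lit 6) (.n (nat_lit 126) (nat_lit 12) (.p (nat_lit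 127) (nat_lit 12) (.n (nat_lit 128) (nat_lit 18) (.p (nat_lit 130) (nat_lit 18) (.n (nat_lit 131) (nat_lit 6) (.n (nat_lit 133) (nat_lit 6) (.p (nat_lit 134) (nat_lit 6) (.p (nat_lit 135) (nat_lit 6) (.p (nat_lit 136) (nat_lit 6) (.n (nat_lit 138) (nat_lit 6) (.n (nat_lit 139) (nat_lit 6) .z))))))))))))))))))) (.ct dr2_c4370 (nat_lit 54) (nat_lit 6) (.s false (nat_lit 2) (nat_lit 4) (nat_lit 2) (nat_lit 3) (nat_lit 3) true (nat_lit 1) true (nat_lit 7) true (nat_lit 6) true (nat_lit 8) true (nat_lit 7) (.s false (nat_lit 1) (nat_lit 7) (nat_lit 1) (nat_lit 2) (nat_lit 3) true (nat_lit 2) true (nat_lit 7) true (nat_lit 3) true (nat_lit 9) true (nat_lit 8) dr2_i0))) .leaf) (nat_lit 30727) (nat_lit 268) (.p (nat_lit 168) (nat_lit 18) (.p (nat_lit 170) (nat_lit 18) (.n (nat_lit 173) (nat_lit 18) (.n (nat_lit 174) (nat_lit 18) (.p (nat_lit 177) (nat_lit 18) .z))))) (.ct dr2_c4115 (nat_lit 18) (nat_lit 2) (.s false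 (nat_lit 1) (nat_lit 7) (nat_lit 2) (nat_lit 3) (nat_lit 3) true (nat_lit 1) true (nat_lit 4) true (nat_lit 2) true (nat_lit 5) true (nat_lit 4) (.e false (nat_lit 18) (nat_lit 26) (nat_lit 9) (nat_lit 1) (.e false (nat_lit 18) (nat_lit 65) (nat_lit 3) (nat_lit 4) (.e true (nat_lit 18) (nat_lit 77) (nat_lit 2) (nat_lit 5) (.e true (nat_lit 18) (nat_lit 78) (nat_lit 2) (nat_lit 5) (.e false (nat_lit 18) (nat_lit 67) (nat_lit 3) (nat_lit 4) .nil))))))) .leaf) (nat_lit 30728) (nat_lit 288) (.p (nat_lit 179) (nat_lit 18) (.p (nat_lit 181) (nat_lit 18) (.n (nat_lit 184) (nat_lit 18) (.n (nat_lit 185) (nat_lit 18) (.p (nat_lit 188) (nat_lit 18) .z))))) (.ct dr2_c275 (nat_lit 18) (nat_lit 2) (.s false (nat_lit 1) (nat_lit 8) (nat_lit 2) (nat_lit 3) (nat_lit 3) true (nat_lit 1) true (nat_lit 4) true (nat_lit 2) true (nat_lit 5) true (nat_lit 4) (.e false (nat_lit 18) (nat_lit 28) (nat_lit 9) (nat_lit 1) (.e false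 (nat_lit 18) (nat_lit 71) (nat_lit 3) (nat_lit 4) (.e true (nat_lit 18) (nat_lit 80) (nat_lit 2) (nat_lit 5) (.e true (nat_lit 18) (nat_lit 81) (nat_lit 2) (nat_lit 5) (.e false (nat_lit 18) (nat_lit 73) (nat_lit 3) (nat_lit 4) .nil))))))) (.nd .leaf (nat_lit 30731) (nat_lit 408) (.p (nat_lit 192) (nat_lit 12) (.p (nat_lit 193) (nat_lit 66) (.n (nat_lit 194) (nat_lit 12) (.p (nat_lit 195) (nat_lit 48) (.n (nat_lit 196) (nat_lit 6) (.p (nat_lit 197) (nat_lit 30) (.p (nat_lit 198) (nat_lit 18) (.n (nat_lit 199) (nat_lit 60) (.p (nat_lit 200) (nat_lit 18) (.n (nat_lit 201) (nat_lit 42) (.n (nat_lit 202) (nat_lit 18) (.n (nat_lit 203) (nat_lit 6) (.p (nat_lit 204) (nat_lit 6) (.p (nat_lit 206) (nat_lit 27) (.p (nat_lit 208) (nat_lit 24) (.n (nat_lit 210) (nat_lit 12) (.n (nat_lit 211) (nat_lit 33) (.p (nat_lit 212) (nat_lit 48) (.p (nat_lit 213) (nat_lit 12) (.n (nat_lit 214) (nat_lit 12) (.p (nat_lit 215) (nat_lit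 42) (.n (nat_lit 216) (nat_lit 72) (.p (nat_lit 218) (nat_lit 45) (.n (nat_lit 219) (nat_lit 45) (.p (nat_lit 220) (nat_lit 63) (.n (nat_lit 221) (nat_lit 27) (.n (nat_lit 222) (nat_lit 63) (.p (nat_lit 223) (nat_lit 27) (.p (nat_lit 224) (nat_lit 36) (.n (nat_lit 227) (nat_lit 18) (.n (nat_lit 229) (nat_lit 54) (.n (nat_lit 231) (nat_lit 18) (.p (nat_lit 232) (nat_lit 18) (.p (nat_lit 236) (nat_lit 18) (.n (nat_lit 239) (nat_lit 54) (.p (nat_lit 240) (nat_lit 18) .z)))))))))))))))))))))))))))))))))))) (.ct dr2_c4626 (nat_lit 18) (nat_lit 4) (.s true (nat_lit 1) (nat_lit 11) (nat_lit 3) (nat_lit 2) (nat_lit 3) true (nat_lit 5) true (nat_lit 12) true (nat_lit 4) true (nat_lit 12) true (nat_lit 13) (.e false (nat_lit 18) (nat_lit 33) (nat_lit 10) (nat_lit 5) (.e true (nat_lit 18) (nat_lit 89) (nat_lit 3) (nat_lit 12) (.e false (nat_lit 18) (nat_lit 103) (nat_lit 3) (nat_lit 12) (.e true (nat_lit 18) (nat_lit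 104) (nat_lit 2) (nat_lit 13) .nil)))))) .leaf)) (nat_lit 30736) (nat_lit 571) (.p (nat_lit 265) (nat_lit 18) (.p (nat_lit 272) (nat_lit 18) (.n (nat_lit 294) (nat_lit 18) (.p (nat_lit 306) (nat_lit 18) .z)))) (.ct dr2_c4371 (nat_lit 18) (nat_lit 2) (.s false (nat_lit 1) (nat_lit 16) (nat_lit 2) (nat_lit 3) (nat_lit 3) true (nat_lit 5) true (nat_lit 11) true (nat_lit 2) true (nat_lit 12) true (nat_lit 11) (.e false (nat_lit 18) (nat_lit 55) (nat_lit 9) (nat_lit 5) (.e false (nat_lit 18) (nat_lit 118) (nat_lit 3) (nat_lit 11) (.e true (nat_lit 18) (nat_lit 160) (nat_lit 2) (nat_lit 12) (.e false (nat_lit 18) (nat_lit 125) (nat_lit 3) (nat_lit 11) .nil)))))) (.nd (.nd (.nd .leaf (nat_lit 30737) (nat_lit 562) (.n (nat_lit 262) (nat_lit 20) (.n (nat_lit 263) (nat_lit 68) (.n (nat_lit 264) (nat_lit 4) (.p (nat_lit 265) (nat_lit 4) (.p (nat_lit 266) (nat_lit 10) (.n (nat_lit 267) (nat_lit 32) (.p (nat_lit 268) (nat_lit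 24) (.p (nat_lit 269) (nat_lit 52) (.n (nat_lit 270) (nat_lit 12) (.p (nat_lit 271) (nat_lit 16) (.p (nat_lit 272) (nat_lit 6) (.p (nat_lit 273) (nat_lit 22) (.p (nat_lit 274) (nat_lit 32) (.n (nat_lit 275) (nat_lit 6) (.n (nat_lit 276) (nat_lit 36) (.p (nat_lit 277) (nat_lit 30) (.n (nat_lit 278) (nat_lit 22) (.p (nat_lit 280) (nat_lit 50) (.p (nat_lit 281) (nat_lit 28) (.n (nat_lit 282) (nat_lit 74) (.n (nat_lit 283) (nat_lit 20) (.p (nat_lit 284) (nat_lit 8) (.n (nat_lit 285) (nat_lit 28) (.n (nat_lit 286) (nat_lit 54) (.n (nat_lit 287) (nat_lit 18) (.n (nat_lit 288) (nat_lit 18) (.p (nat_lit 289) (nat_lit 54) (.n (nat_lit 290) (nat_lit 60) (.n (nat_lit 291) (nat_lit 12) (.n (nat_lit 292) (nat_lit 24) (.n (nat_lit 293) (nat_lit 36) (.p (nat_lit 294) (nat_lit 6) (.p (nat_lit 295) (nat_lit 12) (.n (nat_lit 296) (nat_lit 18) (.n (nat_lit 297) (nat_lit 36) (.n (nat_lit 298) (nat_lit 30) (.n (nat_lit 299) (nat_lit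 18) (.p (nat_lit 300) (nat_lit 12) (.p (nat_lit 301) (nat_lit 6) (.n (nat_lit 302) (nat_lit 12) (.p (nat_lit 303) (nat_lit 24) (.p (nat_lit 304) (nat_lit 36) (.p (nat_lit 305) (nat_lit 36) (.n (nat_lit 306) (nat_lit 60) (.p (nat_lit 307) (nat_lit 6) (.p (nat_lit 308) (nat_lit 48) .z)))))))))))))))))))))))))))))))))))))))))))))) (.ct dr2_c4371 (nat_lit 18) (nat_lit 2) (.s true (nat_lit 1) (nat_lit 9) (nat_lit 1) (nat_lit 3) (nat_lit 7) true (nat_lit 2) true (nat_lit 7) true (nat_lit 5) true (nat_lit 13) true (nat_lit 11) (.e true (nat_lit 18) (nat_lit 72) (nat_lit 7) (nat_lit 7) (.e true (nat_lit 18) (nat_lit 55) (nat_lit 9) (nat_lit 5) (.e true (nat_lit 18) (nat_lit 56) (nat_lit 9) (nat_lit 5) (.e false (nat_lit 18) (nat_lit 59) (nat_lit 9) (nat_lit 5) (.e true (nat_lit 18) (nat_lit 60) (nat_lit 9) (nat_lit 5) (.e true (nat_lit 18) (nat_lit 177) (nat_lit 1) (nat_lit 13) (.e false (nat_lit 18) (nat_lit 131)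 (nat_lit 3) (nat_lit 11) (.e false (nat_lit 18) (nat_lit 132) (nat_lit 3) (nat_lit 11) (.e true (nat_lit 18) (nat_lit 134) (nat_lit 3) (nat_lit 11) (.e false (nat_lit 18) (nat_lit 135) (nat_lit 3) (nat_lit 11) .nil)))))))))))) .leaf) (nat_lit 30738) (nat_lit 557) (.p (nat_lit 262) (nat_lit 20) (.p (nat_lit 263) (nat_lit 68) (.p (nat_lit 264) (nat_lit 4) (.n (nat_lit 265) (nat_lit 4) (.p (nat_lit 266) (nat_lit 8) (.p (nat_lit 267) (nat_lit 50) (.n (nat_lit 268) (nat_lit 24) (.n (nat_lit 269) (nat_lit 52) (.p (nat_lit 270) (nat_lit 12) (.n (nat_lit 271) (nat_lit 16) (.n (nat_lit 272) (nat_lit 6) (.n (nat_lit 273) (nat_lit 4) (.n (nat_lit 274) (nat_lit 14) (.p (nat_lit 275) (nat_lit 6) (.p (nat_lit 276) (nat_lit 36) (.n (nat_lit 277) (nat_lit 30) (.p (nat_lit 278) (nat_lit 22) (.n (nat_lit 280) (nat_lit 50) (.n (nat_lit 281) (nat_lit 28) (.p (nat_lit 282) (nat_lit 74) (.p (nat_lit 283) (nat_lit 20) (.n (nat_lit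 284) (nat_lit 8) (.p (nat_lit 285) (nat_lit 28) (.p (nat_lit 286) (nat_lit 18) (.n (nat_lit 287) (nat_lit 18) (.p (nat_lit 288) (nat_lit 18) (.n (nat_lit 289) (nat_lit 18) (.p (nat_lit 290) (nat_lit 24) (.n (nat_lit 291) (nat_lit 6) (.p (nat_lit 292) (nat_lit 24) (.p (nat_lit 293) (nat_lit 18) (.n (nat_lit 294) (nat_lit 6) (.n (nat_lit 295) (nat_lit 12) (.p (nat_lit 296) (nat_lit 18) (.p (nat_lit 297) (nat_lit 36) (.p (nat_lit 298) (nat_lit 30) (.p (nat_lit 299) (nat_lit 18) (.n (nat_lit 300) (nat_lit 12) (.n (nat_lit 301) (nat_lit 6) (.p (nat_lit 302) (nat_lit 12) (.n (nat_lit 303) (nat_lit 24) (.n (nat_lit 304) (nat_lit 36) (.n (nat_lit 305) (nat_lit 36) (.p (nat_lit 306) (nat_lit 60) (.p (nat_lit 307) (nat_lit 12) (.n (nat_lit 308) (nat_lit 30) .z)))))))))))))))))))))))))))))))))))))))))))))) (.ct dr2_c4371 (nat_lit 18) (nat_lit 2) (.s false (nat_lit 1) (nat_lit 18) (nat_lit 2) (nat_lit 3) (nat_lit 3) true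 (nat_lit 5) true (nat_lit 11) true (nat_lit 2) true (nat_lit 12) true (nat_lit 11) (.e false (nat_lit 18) (nat_lit 57) (nat_lit 9) (nat_lit 5) (.e false (nat_lit 18) (nat_lit 120) (nat_lit 3) (nat_lit 11) (.e false (nat_lit 18) (nat_lit 152) (nat_lit 2) (nat_lit 12) (.e true (nat_lit 18) (nat_lit 153) (nat_lit 2) (nat_lit 12) (.e false (nat_lit 18) (nat_lit 154) (nat_lit 2) (nat_lit 12) (.e false (nat_lit 18) (nat_lit 155) (nat_lit 2) (nat_lit 12) (.e true (nat_lit 18) (nat_lit 156) (nat_lit 2) (nat_lit 12) (.e true (nat_lit 18) (nat_lit 157) (nat_lit 2) (nat_lit 12) (.e true (nat_lit 18) (nat_lit 158) (nat_lit 2) (nat_lit 12) (.e true (nat_lit 18) (nat_lit 159) (nat_lit 2) (nat_lit 12) (.e true (nat_lit 18) (nat_lit 160) (nat_lit 2) (nat_lit 12) (.e false (nat_lit 18) (nat_lit 127) (nat_lit 3) (nat_lit 11) .nil)))))))))))))) .leaf) (nat_lit 30739) (nat_lit 618) (.n (nat_lit 309) (nat_lit 36) (.p (nat_lit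 311) (nat_lit 18) (.p (nat_lit 312) (nat_lit 36) (.p (nat_lit 313) (nat_lit 18) (.n (nat_lit 314) (nat_lit 18) (.n (nat_lit 315) (nat_lit 18) (.n (nat_lit 316) (nat_lit 18) (.p (nat_lit 317) (nat_lit 72) (.n (nat_lit 319) (nat_lit 18) (.p (nat_lit 321) (nat_lit 18) (.p (nat_lit 322) (nat_lit 36) (.p (nat_lit 323) (nat_lit 36) (.p (nat_lit 324) (nat_lit 18) (.n (nat_lit 326) (nat_lit 36) (.p (nat_lit 327) (nat_lit 36) (.p (nat_lit 329) (nat_lit 18) .z)))))))))))))))) (.ct dr2_c531 (nat_lit 18) (nat_lit 1) (.s false (nat_lit 1) (nat_lit 19) (nat_lit 2) (nat_lit 3) (nat_lit 3) true (nat_lit 4) true (nat_lit 7) true (nat_lit 1) true (nat_lit 8) true (nat_lit 7) (.e false (nat_lit 18) (nat_lit 61) (nat_lit 9) (nat_lit 4) (.e false (nat_lit 18) (nat_lit 140) (nat_lit 3) (nat_lit 7) (.e false (nat_lit 18) (nat_lit 163) (nat_lit 2) (nat_lit 8) (.e true (nat_lit 36) (nat_lit 165) (nat_lit 2) (nat_lit 8) (.e true (nat_lit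 18) (nat_lit 166) (nat_lit 2) (nat_lit 8) (.e false (nat_lit 18) (nat_lit 143) (nat_lit 3) (nat_lit 7) .nil)))))))) (.nd .leaf (nat_lit 31744) (nat_lit 82) (.n (nat_lit 64) (nat_lit 36) (.n (nat_lit 65) (nat_lit 18) (.p (nat_lit 66) (nat_lit 18) (.p (nat_lit 67) (nat_lit 18) (.p (nat_lit 68) (nat_lit 18) (.n (nat_lit 69) (nat_lit 18) .z)))))) (.ct dr2_c4114 (nat_lit 18) (nat_lit 4) (.s false (nat_lit 1) (nat_lit 3) (nat_lit 2) (nat_lit 0) (nat_lit 3) false (nat_lit 0) true (nat_lit 2) true (nat_lit 2) true (nat_lit 3) true (nat_lit 4) (.e false (nat_lit 18) (nat_lit 9) (nat_lit 7) (nat_lit 0) (.e false (nat_lit 18) (nat_lit 22) (nat_lit 3) (nat_lit 2) (.e true (nat_lit 18) (nat_lit 20) (nat_lit 3) (nat_lit 2) (.e false (nat_lit 18) (nat_lit 26) (nat_lit 2) (nat_lit 3) .nil)))))) .leaf))) (nat_lit 31745) (nat_lit 91) (.n (nat_lit 70) (nat_lit 36) (.n (nat_lit 71) (nat_lit 18) (.p (nat_lit 72) (nat_lit 18) (.p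 (nat_lit 73) (nat_lit 18) (.p (nat_lit 74) (nat_lit 18) (.n (nat_lit 75) (nat_lit 18) .z)))))) (.ct dr2_c274 (nat_lit 18) (nat_lit 4) (.s false (nat_lit 1) (nat_lit 3) (nat_lit 2) (nat_lit 1) (nat_lit 3) false (nat_lit 0) true (nat_lit 2) true (nat_lit 2) true (nat_lit 3) true (nat_lit 4) (.e false (nat_lit 18) (nat_lit 9) (nat_lit 8) (nat_lit 0) (.e false (nat_lit 18) (nat_lit 25) (nat_lit 3) (nat_lit 2) (.e true (nat_lit 18) (nat_lit 23) (nat_lit 3) (nat_lit 2) (.e false (nat_lit 18) (nat_lit 28) (nat_lit 2) (nat_lit 3) .nil)))))) (.nd (.nd (.nd (.nd .leaf (nat_lit 31747) (nat_lit 102) (.p (nat_lit 83) (nat_lit 18) .z) .df .leaf) (nat_lit 31748) (nat_lit 204) (.p (nat_lit 115) (nat_lit 12) (.p (nat_lit 116) (nat_lit 12) (.p (nat_lit 117) (nat_lit 6) (.p (nat_lit 118) (nat_lit 12) (.p (nat_lit 119) (nat_lit 12) (.p (nat_lit 120) (nat_lit 12) (.n (nat_lit 122) (nat_lit 24) (.n (nat_lit 124) (nat_lit 24) (.n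 (nat_lit 125) (nat_lit 18) (.n (nat_lit 126) (nat_lit 6) (.p (nat_lit 127) (nat_lit 6) (.p (nat_lit 131) (nat_lit 6) (.p (nat_lit 133) (nat_lit 6) (.n (nat_lit 134) (nat_lit 6) (.n (nat_lit 135) (nat_lit 6) (.n (nat_lit 136) (nat_lit 6) (.p (nat_lit 138) (nat_lit 6) (.p (nat_lit 139) (nat_lit 6) .z)))))))))))))))))) (.ct dr2_c4370 (nat_lit 18) (nat_lit 6) (.s true (nat_lit 1) (nat_lit 4) (nat_lit 3) (nat_lit 3) (nat_lit 2) true (nat_lit 1) true (nat_lit 8) true (nat_lit 6) true (nat_lit 7) true (nat_lit 7) (.e true (nat_lit 18) (nat_lit 16) (nat_lit 9) (nat_lit 1) (.e true (nat_lit 18) (nat_lit 55) (nat_lit 2) (nat_lit 8) (.e false (nat_lit 18) (nat_lit 42) (nat_lit 3) (nat_lit 7) (.e false (nat_lit 18) (nat_lit 46) (nat_lit 3) (nat_lit 7) (.e true (nat_lit 18) (nat_lit 48) (nat_lit 3) (nat_lit 7) (.e true (nat_lit 18) (nat_lit 50) (nat_lit 3) (nat_lit 7) (.e false (nat_lit 18) (nat_lit 41) (nat_lit 3) (nat_lit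 7) .nil))))))))) .leaf) (nat_lit 31751) (nat_lit 270) (.p (nat_lit 168) (nat_lit 18) (.p (nat_lit 169) (nat_lit 18) (.p (nat_lit 170) (nat_lit 18) (.n (nat_lit 171) (nat_lit 18) (.p (nat_lit 172) (nat_lit 18) (.n (nat_lit 173) (nat_lit 18) (.p (nat_lit 176) (nat_lit 18) .z))))))) (.ct dr2_c4115 (nat_lit 18) (nat_lit 2) (.s true (nat_lit 1) (nat_lit 10) (nat_lit 0) (nat_lit 2) (nat_lit 3) true (nat_lit 2) true (nat_lit 4) true (nat_lit 0) true (nat_lit 6) true (nat_lit 5) (.e true (nat_lit 18) (nat_lit 68) (nat_lit 3) (nat_lit 4) (.e false (nat_lit 18) (nat_lit 20) (nat_lit 10) (nat_lit 0) (.e false (nat_lit 18) (nat_lit 83) (nat_lit 0) (nat_lit 6) (.e false (nat_lit 18) (nat_lit 84) (nat_lit 0) (nat_lit 6) (.e false (nat_lit 18) (nat_lit 78) (nat_lit 2) (nat_lit 5) .nil))))))) (.nd .leaf (nat_lit 31752) (nat_lit 290) (.p (nat_lit 179) (nat_lit 18) (.p (nat_lit 180) (nat_lit 18) (.p (nat_lit 181) (nat_lit 18)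 (.n (nat_lit 182) (nat_lit 18) (.p (nat_lit 183) (nat_lit 18) (.n (nat_lit 184) (nat_lit 18) (.p (nat_lit 187) (nat_lit 18) .z))))))) (.ct dr2_c275 (nat_lit 18) (nat_lit 2) (.s true (nat_lit 1) (nat_lit 10) (nat_lit 1) (nat_lit 2) (nat_lit 3) true (nat_lit 2) true (nat_lit 4) true (nat_lit 0) true (nat_lit 6) true (nat_lit 5) (.e true (nat_lit 18) (nat_lit 74) (nat_lit 3) (nat_lit 4) (.e false (nat_lit 18) (nat_lit 23) (nat_lit 10) (nat_lit 0) (.e false (nat_lit 18) (nat_lit 83) (nat_lit 1) (nat_lit 6) (.e false (nat_lit 18) (nat_lit 84) (nat_lit 1) (nat_lit 6) (.e false (nat_lit 18) (nat_lit 81) (nat_lit 2) (nat_lit 5) .nil))))))) .leaf)) (nat_lit 31755) (nat_lit 409) (.p (nat_lit 192) (nat_lit 12) (.p (nat_lit 193) (nat_lit 30) (.n (nat_lit 194) (nat_lit 12) (.p (nat_lit 195) (nat_lit 12) (.n (nat_lit 196) (nat_lit 6) (.n (nat_lit 197) (nat_lit 6) (.p (nat_lit 198) (nat_lit 18) (.n (nat_lit 199) (nat_lit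 24) (.p (nat_lit 200) (nat_lit 18) (.n (nat_lit 201) (nat_lit 6) (.n (nat_lit 202) (nat_lit 18) (.n (nat_lit 203) (nat_lit 6) (.p (nat_lit 204) (nat_lit 6) (.p (nat_lit 206) (nat_lit 27) (.p (nat_lit 208) (nat_lit 24) (.n (nat_lit 210) (nat_lit 12) (.n (nat_lit 211) (nat_lit 33) (.p (nat_lit 212) (nat_lit 48) (.p (nat_lit 213) (nat_lit 12) (.n (nat_lit 214) (nat_lit 12) (.p (nat_lit 215) (nat_lit 42) (.n (nat_lit 216) (nat_lit 54) (.p (nat_lit 218) (nat_lit 9) (.n (nat_lit 219) (nat_lit 9) (.p (nat_lit 220) (nat_lit 27) (.n (nat_lit 221) (nat_lit 9) (.n (nat_lit 222) (nat_lit 27) (.p (nat_lit 223) (nat_lit 9) (.p (nat_lit 224) (nat_lit 36) (.n (nat_lit 229) (nat_lit 18) (.n (nat_lit 231) (nat_lit 18) (.p (nat_lit 232) (nat_lit 18) (.n (nat_lit 239) (nat_lit 18) (.p (nat_lit 240) (nat_lit 18) .z)))))))))))))))))))))))))))))))))) (.ct dr2_c4626 (nat_lit 18) (nat_lit 4) (.s true (nat_lit 1) (nat_lit 11) (nat_lit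 3) (nat_lit 3) (nat_lit 2) true (nat_lit 6) true (nat_lit 13) true (nat_lit 4) true (nat_lit 12) true (nat_lit 12) (.e true (nat_lit 18) (nat_lit 37) (nat_lit 9) (nat_lit 6) (.e true (nat_lit 18) (nat_lit 104) (nat_lit 2) (nat_lit 13) (.e true (nat_lit 18) (nat_lit 103) (nat_lit 3) (nat_lit 12) (.e false (nat_lit 18) (nat_lit 85) (nat_lit 3) (nat_lit 12) .nil)))))) (.nd (.nd (.nd .leaf (nat_lit 31760) (nat_lit 563) (.n (nat_lit 262) (nat_lit 6) (.n (nat_lit 263) (nat_lit 6) (.p (nat_lit 264) (nat_lit 6) (.p (nat_lit 265) (nat_lit 30) (.p (nat_lit 266) (nat_lit 12) (.n (nat_lit 267) (nat_lit 6) (.n (nat_lit 269) (nat_lit 6) (.n (nat_lit 271) (nat_lit 6) (.n (nat_lit 273) (nat_lit 6) (.p (nat_lit 274) (nat_lit 6) (.p (nat_lit 278) (nat_lit 6) (.p (nat_lit 280) (nat_lit 6) (.n (nat_lit 281) (nat_lit 6) (.n (nat_lit 282) (nat_lit 6) (.n (nat_lit 283) (nat_lit 6) (.p (nat_lit 284) (nat_lit 6) (.p (nat_lit 285)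 (nat_lit 6) (.n (nat_lit 286) (nat_lit 18) (.n (nat_lit 306) (nat_lit 18) .z))))))))))))))))))) (.ct dr2_c4371 (nat_lit 18) (nat_lit 2) (.s false (nat_lit 1) (nat_lit 10) (nat_lit 4) (nat_lit 2) (nat_lit 3) true (nat_lit 2) true (nat_lit 11) true (nat_lit 4) true (nat_lit 10) true (nat_lit 12) (.e true (nat_lit 18) (nat_lit 126) (nat_lit 3) (nat_lit 11) (.e false (nat_lit 18) (nat_lit 127) (nat_lit 3) (nat_lit 11) (.e true (nat_lit 18) (nat_lit 128) (nat_lit 3) (nat_lit 11) (.e false (nat_lit 18) (nat_lit 130) (nat_lit 3) (nat_lit 11) (.e false (nat_lit 18) (nat_lit 41) (nat_lit 10) (nat_lit 4) (.e true (nat_lit 18) (nat_lit 83) (nat_lit 4) (nat_lit 10) (.e true (nat_lit 18) (nat_lit 84) (nat_lit 4) (nat_lit 10) (.e true (nat_lit 18) (nat_lit 152) (nat_lit 2) (nat_lit 12) (.e false (nat_lit 18) (nat_lit 153) (nat_lit 2) (nat_lit 12) (.e true (nat_lit 18) (nat_lit 154) (nat_lit 2) (nat_lit 12) (.e false (nat_lit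 18) (nat_lit 156) (nat_lit 2) (nat_lit 12) (.e false (nat_lit 18) (nat_lit 160) (nat_lit 2) (nat_lit 12) .nil)))))))))))))) .leaf) (nat_lit 31761) (nat_lit 560) (.p (nat_lit 264) (nat_lit 18) (.p (nat_lit 265) (nat_lit 18) (.p (nat_lit 266) (nat_lit 36) (.p (nat_lit 267) (nat_lit 18) (.n (nat_lit 268) (nat_lit 18) (.n (nat_lit 270) (nat_lit 18) (.n (nat_lit 271) (nat_lit 18) (.n (nat_lit 273) (nat_lit 18) (.n (nat_lit 275) (nat_lit 18) (.n (nat_lit 278) (nat_lit 18) (.p (nat_lit 281) (nat_lit 18) (.n (nat_lit 282) (nat_lit 18) (.n (nat_lit 285) (nat_lit 18) (.n (nat_lit 287) (nat_lit 18) (.n (nat_lit 307) (nat_lit 18) .z))))))))))))))) (.ct dr2_c4371 (nat_lit 18) (nat_lit 2) (.s false (nat_lit 1) (nat_lit 10) (nat_lit 7) (nat_lit 2) (nat_lit 1) true (nat_lit 2) true (nat_lit 13) true (nat_lit 4) true (nat_lit 7) true (nat_lit 12) (.e true (nat_lit 18) (nat_lit 173) (nat_lit 1) (nat_lit 13) (.e true (nat_lit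 18) (nat_lit 174) (nat_lit 1) (nat_lit 13) (.e false (nat_lit 18) (nat_lit 48) (nat_lit 10) (nat_lit 4) (.e false (nat_lit 18) (nat_lit 71) (nat_lit 7) (nat_lit 7) (.e true (nat_lit 18) (nat_lit 72) (nat_lit 7) (nat_lit 7) (.e false (nat_lit 18) (nat_lit 73) (nat_lit 7) (nat_lit 7) (.e true (nat_lit 18) (nat_lit 75) (nat_lit 7) (nat_lit 7) (.e true (nat_lit 18) (nat_lit 152) (nat_lit 2) (nat_lit 12) (.e true (nat_lit 18) (nat_lit 153) (nat_lit 2) (nat_lit 12) (.e true (nat_lit 18) (nat_lit 154) (nat_lit 2) (nat_lit 12) (.e false (nat_lit 18) (nat_lit 155) (nat_lit 2) (nat_lit 12) (.e true (nat_lit 18) (nat_lit 156) (nat_lit 2) (nat_lit 12) (.e false (nat_lit 18) (nat_lit 157) (nat_lit 2) (nat_lit 12) (.e true (nat_lit 18) (nat_lit 160) (nat_lit 2) (nat_lit 12) .nil)))))))))))))))) .leaf) (nat_lit 31763) (nat_lit 616) (.p (nat_lit 309) (nat_lit 18) (.n (nat_lit 310) (nat_lit 18) (.n (nat_lit 312) (nat_lit 108)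 (.n (nat_lit 313) (nat_lit 54) (.p (nat_lit 314) (nat_lit 18) (.p (nat_lit 315) (nat_lit 54) (.p (nat_lit 316) (nat_lit 54) (.n (nat_lit 317) (nat_lit 90) (.n (nat_lit 318) (nat_lit 18) (.n (nat_lit 319) (nat_lit 18) (.p (nat_lit 320) (nat_lit 36) (.p (nat_lit 321) (nat_lit 72) (.p (nat_lit 322) (nat_lit 54) (.p (nat_lit 323) (nat_lit 90) (.n (nat_lit 324) (nat_lit 36) (.p (nat_lit 325) (nat_lit 36) (.n (nat_lit 326) (nat_lit 72) (.p (nat_lit 327) (nat_lit 36) (.n (nat_lit 328) (nat_lit 18) (.n (nat_lit 329) (nat_lit 18) .z)))))))))))))))))))) (.ct dr2_c531 (nat_lit 18) (nat_lit 1) (.s true (nat_lit 1) (nat_lit 19) (nat_lit 3) (nat_lit 3) (nat_lit 2) true (nat_lit 4) true (nat_lit 8) true (nat_lit 1) true (nat_lit 7) true (nat_lit 7) (.e true (nat_lit 18) (nat_lit 61) (nat_lit 9) (nat_lit 4) (.e true (nat_lit 18) (nat_lit 162) (nat_lit 2) (nat_lit 8) (.e true (nat_lit 18) (nat_lit 142) (nat_lit 3) (nat_lit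 7) (.e false (nat_lit 18) (nat_lit 145) (nat_lit 3) (nat_lit 7) (.e false (nat_lit 18) (nat_lit 146) (nat_lit 3) (nat_lit 7) (.e false (nat_lit 18) (nat_lit 147) (nat_lit 3) (nat_lit 7) (.e true (nat_lit 18) (nat_lit 149) (nat_lit 3) (nat_lit 7) (.e false (nat_lit 18) (nat_lit 150) (nat_lit 3) (nat_lit 7) (.e false (nat_lit 18) (nat_lit 140) (nat_lit 3) (nat_lit 7) .nil))))))))))) (.nd .leaf (nat_lit 32768) (nat_lit 95) (.p (nat_lit 78) (nat_lit 18) .z) .df .leaf)))) (nat_lit 32769) (nat_lit 99) (.p (nat_lit 81) (nat_lit 18) .z) .df (.nd (.nd (.nd (.nd (.nd .leaf (nat_lit 32770) (nat_lit 103) (.p (nat_lit 84) (nat_lit 18) .z) .df .leaf) (nat_lit 32772) (nat_lit 242) (.p (nat_lit 152) (nat_lit 18) (.n (nat_lit 153) (nat_lit 18) (.p (nat_lit 154) (nat_lit 18) (.n (nat_lit 156) (nat_lit 18) (.n (nat_lit 160) (nat_lit 18) .z))))) (.ct dr2_c4355 (nat_lit 18) (nat_lit 3) (.s true (nat_lit 1) (nat_lit 4) (nat_lit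 3) (nat_lit 3) (nat_lit 3) true (nat_lit 0) true (nat_lit 4) true (nat_lit 3) true (nat_lit 4) true (nat_lit 4) (.e true (nat_lit 18) (nat_lit 16) (nat_lit 10) (nat_lit 0) (.e false (nat_lit 18) (nat_lit 56) (nat_lit 3) (nat_lit 4) (.e true (nat_lit 18) (nat_lit 57) (nat_lit 3) (nat_lit 4) (.e false (nat_lit 18) (nat_lit 58) (nat_lit 3) (nat_lit 4) (.e true (nat_lit 18) (nat_lit 60) (nat_lit 3) (nat_lit 4) .nil))))))) .leaf) (nat_lit 32773) (nat_lit 271) (.p (nat_lit 168) (nat_lit 18) (.n (nat_lit 169) (nat_lit 18) (.p (nat_lit 170) (nat_lit 18) (.n (nat_lit 172) (nat_lit 18) (.n (nat_lit 176) (nat_lit 18) .z))))) (.ct dr2_c4115 (nat_lit 18) (nat_lit 3) (.s true (nat_lit 1) (nat_lit 5) (nat_lit 3) (nat_lit 3) (nat_lit 3) true (nat_lit 0) true (nat_lit 4) true (nat_lit 3) true (nat_lit 4) true (nat_lit 4) (.e true (nat_lit 18) (nat_lit 20) (nat_lit 10) (nat_lit 0) (.e false (nat_lit 18) (nat_lit 65) (nat_lit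 3) (nat_lit 4) (.e true (nat_lit 18) (nat_lit 66) (nat_lit 3) (nat_lit 4) (.e false (nat_lit 18) (nat_lit 67) (nat_lit 3) (nat_lit 4) (.e true (nat_lit 18) (nat_lit 69) (nat_lit 3) (nat_lit 4) .nil))))))) (.nd .leaf (nat_lit 32774) (nat_lit 291) (.p (nat_lit 179) (nat_lit 18) (.n (nat_lit 180) (nat_lit 18) (.p (nat_lit 181) (nat_lit 18) (.n (nat_lit 183) (nat_lit 18) (.n (nat_lit 187) (nat_lit 18) .z))))) (.ct dr2_c275 (nat_lit 18) (nat_lit 3) (.s true (nat_lit 1) (nat_lit 6) (nat_lit 3) (nat_lit 3) (nat_lit 3) true (nat_lit 0) true (nat_lit 4) true (nat_lit 3) true (nat_lit 4) true (nat_lit 4) (.e true (nat_lit 18) (nat_lit 23) (nat_lit 10) (nat_lit 0) (.e false (nat_lit 18) (nat_lit 71) (nat_lit 3) (nat_lit 4) (.e true (nat_lit 18) (nat_lit 72) (nat_lit 3) (nat_lit 4) (.e false (nat_lit 18) (nat_lit 73) (nat_lit 3) (nat_lit 4) (.e true (nat_lit 18) (nat_lit 75) (nat_lit 3) (nat_lit 4) .nil))))))) .leaf))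 (nat_lit 32779) (nat_lit 460) (.p (nat_lit 249) (nat_lit 36) (.p (nat_lit 251) (nat_lit 36) (.n (nat_lit 253) (nat_lit 18) (.n (nat_lit 254) (nat_lit 18) (.n (nat_lit 255) (nat_lit 18) (.n (nat_lit 256) (nat_lit 18) (.n (nat_lit 258) (nat_lit 18) .z))))))) (.ct dr2_c4611 (nat_lit 18) (nat_lit 2) (.s true (nat_lit 1) (nat_lit 11) (nat_lit 3) (nat_lit 3) (nat_lit 3) true (nat_lit 3) true (nat_lit 7) true (nat_lit 2) true (nat_lit 7) true (nat_lit 7) (.e true (nat_lit 18) (nat_lit 37) (nat_lit 10) (nat_lit 3) (.e false (nat_lit 36) (nat_lit 107) (nat_lit 3) (nat_lit 7) (.e false (nat_lit 36) (nat_lit 108) (nat_lit 3) (nat_lit 7) (.e true (nat_lit 36) (nat_lit 109) (nat_lit 3) (nat_lit 7) (.e true (nat_lit 18) (nat_lit 111) (nat_lit 3) (nat_lit 7) (.e false (nat_lit 18) (nat_lit 114) (nat_lit 3) (nat_lit 7) .nil)))))))) (.nd (.nd (.nd .leaf (nat_lit 32781) (nat_lit 561) (.n (nat_lit 262) (nat_lit 20) (.n (nat_lit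 263) (nat_lit 104) (.p (nat_lit 264) (nat_lit 14) (.p (nat_lit 265) (nat_lit 22) (.n (nat_lit 266) (nat_lit 26) (.n (nat_lit 267) (nat_lit 32) (.p (nat_lit 268) (nat_lit 24) (.p (nat_lit 269) (nat_lit 88) (.n (nat_lit 270) (nat_lit 30) (.p (nat_lit 271) (nat_lit 34) (.p (nat_lit 272) (nat_lit 60) (.p (nat_lit 273) (nat_lit 40) (.p (nat_lit 274) (nat_lit 68) (.n (nat_lit 275) (nat_lit 24) (.n (nat_lit 276) (nat_lit 90) (.p (nat_lit 277) (nat_lit 84) (.n (nat_lit 278) (nat_lit 58) (.p (nat_lit 280) (nat_lit 68) (.p (nat_lit 281) (nat_lit 82) (.n (nat_lit 282) (nat_lit 128) (.n (nat_lit 283) (nat_lit 38) (.p (nat_lit 284) (nat_lit 8) (.n (nat_lit 285) (nat_lit 118) (.n (nat_lit 286) (nat_lit 90) (.n (nat_lit 287) (nat_lit 18) (.n (nat_lit 288) (nat_lit 36) (.p (nat_lit 289) (nat_lit 108) (.n (nat_lit 290) (nat_lit 132) (.n (nat_lit 291) (nat_lit 30) (.n (nat_lit 292) (nat_lit 60) (.n (nat_lit 293) (nat_lit 54)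 (.n (nat_lit 294) (nat_lit 12) (.p (nat_lit 295) (nat_lit 30) (.n (nat_lit 297) (nat_lit 54) (.n (nat_lit 298) (nat_lit 84) (.p (nat_lit 300) (nat_lit 30) (.p (nat_lit 301) (nat_lit 6) (.n (nat_lit 302) (nat_lit 30) (.p (nat_lit 303) (nat_lit 24) (.p (nat_lit 304) (nat_lit 54) (.p (nat_lit 305) (nat_lit 54) (.n (nat_lit 306) (nat_lit 78) (.p (nat_lit 307) (nat_lit 24) (.p (nat_lit 308) (nat_lit 84) .z)))))))))))))))))))))))))))))))))))))))))))) (.ct dr2_c4371 (nat_lit 18) (nat_lit 3) (.s true (nat_lit 1) (nat_lit 32) (nat_lit 0) (nat_lit 2) (nat_lit 1) true (nat_lit 10) true (nat_lit 13) false (nat_lit 3) true (nat_lit 14) true (nat_lit 12) (.e true (nat_lit 18) (nat_lit 84) (nat_lit 4) (nat_lit 10) (.e true (nat_lit 18) (nat_lit 174) (nat_lit 1) (nat_lit 13) (.e false (nat_lit 18) (nat_lit 179) (nat_lit 0) (nat_lit 14) (.e true (nat_lit 18) (nat_lit 180) (nat_lit 0) (nat_lit 14) (.e false (nat_lit 18) (nat_lit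 181) (nat_lit 0) (nat_lit 14) (.e true (nat_lit 18) (nat_lit 183) (nat_lit 0) (nat_lit 14) (.e true (nat_lit 18) (nat_lit 187) (nat_lit 0) (nat_lit 14) (.e false (nat_lit 18) (nat_lit 152) (nat_lit 2) (nat_lit 12) (.e false (nat_lit 18) (nat_lit 153) (nat_lit 2) (nat_lit 12) (.e false (nat_lit 18) (nat_lit 154) (nat_lit 2) (nat_lit 12) (.e false (nat_lit 18) (nat_lit 156) (nat_lit 2) (nat_lit 12) (.e true (nat_lit 18) (nat_lit 157) (nat_lit 2) (nat_lit 12) (.e true (nat_lit 18) (nat_lit 158) (nat_lit 2) (nat_lit 12) (.e true (nat_lit 18) (nat_lit 159) (nat_lit 2) (nat_lit 12) .nil)))))))))))))))) .leaf) (nat_lit 32782) (nat_lit 567) (.p (nat_lit 262) (nat_lit 40) (.p (nat_lit 263) (nat_lit 262) (.n (nat_lit 264) (nat_lit 28) (.n (nat_lit 265) (nat_lit 62) (.p (nat_lit 266) (nat_lit 88) (.p (nat_lit 267) (nat_lit 82) (.n (nat_lit 268) (nat_lit 66) (.n (nat_lit 269) (nat_lit 230) (.p (nat_lit 270) (nat_lit 78)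 (.n (nat_lit 271) (nat_lit 86) (.n (nat_lit 272) (nat_lit 156) (.n (nat_lit 273) (nat_lit 44) (.n (nat_lit 274) (nat_lit 154) (.p (nat_lit 275) (nat_lit 66) (.p (nat_lit 276) (nat_lit 234) (.n (nat_lit 277) (nat_lit 222) (.p (nat_lit 278) (nat_lit 188) (.n (nat_lit 280) (nat_lit 208) (.n (nat_lit 281) (nat_lit 218) (.p (nat_lit 282) (nat_lit 346) (.p (nat_lit 283) (nat_lit 94) (.n (nat_lit 284) (nat_lit 16) (.p (nat_lit 285) (nat_lit 308) (.p (nat_lit 286) (nat_lit 144) (.p (nat_lit 288) (nat_lit 108) (.n (nat_lit 289) (nat_lit 198) (.p (nat_lit 290) (nat_lit 246) (.p (nat_lit 291) (nat_lit 42) (.p (nat_lit 292) (nat_lit 138) (.p (nat_lit 293) (nat_lit 108) (.p (nat_lit 294) (nat_lit 24) (.n (nat_lit 295) (nat_lit 78) (.p (nat_lit 296) (nat_lit 36) (.p (nat_lit 297) (nat_lit 126) (.p (nat_lit 298) (nat_lit 168) (.p (nat_lit 299) (nat_lit 36) (.n (nat_lit 300) (nat_lit 60) (.n (nat_lit 301) (nat_lit 30) (.p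 (nat_lit 302) (nat_lit 60) (.n (nat_lit 303) (nat_lit 66) (.n (nat_lit 304) (nat_lit 144) (.n (nat_lit 305) (nat_lit 126) (.p (nat_lit 306) (nat_lit 192) (.n (nat_lit 307) (nat_lit 12) (.n (nat_lit 308) (nat_lit 186) .z))))))))))))))))))))))))))))))))))))))))))))) (.ct dr2_c4371 (nat_lit 18) (nat_lit 3) (.s true (nat_lit 1) (nat_lit 32) (nat_lit 1) (nat_lit 2) (nat_lit 0) true (nat_lit 10) true (nat_lit 14) false (nat_lit 3) true (nat_lit 13) true (nat_lit 12) (.e false (nat_lit 18) (nat_lit 84) (nat_lit 4) (nat_lit 10) (.e true (nat_lit 18) (nat_lit 185) (nat_lit 0) (nat_lit 14) (.e false (nat_lit 18) (nat_lit 168) (nat_lit 1) (nat_lit 13) (.e true (nat_lit 18) (nat_lit 169) (nat_lit 1) (nat_lit 13) (.e false (nat_lit 18) (nat_lit 170) (nat_lit 1) (nat_lit 13) (.e true (nat_lit 18) (nat_lit 172) (nat_lit 1) (nat_lit 13) (.e true (nat_lit 18) (nat_lit 176) (nat_lit 1) (nat_lit 13) (.e false (nat_lit 18) (nat_lit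 158) (nat_lit 2) (nat_lit 12) .nil)))))))))) .leaf) (nat_lit 32783) (nat_lit 619) (.n (nat_lit 309) (nat_lit 54) (.p (nat_lit 310) (nat_lit 18) (.p (nat_lit 311) (nat_lit 18) (.p (nat_lit 312) (nat_lit 108) (.p (nat_lit 313) (nat_lit 54) (.n (nat_lit 314) (nat_lit 18) (.n (nat_lit 315) (nat_lit 54) (.n (nat_lit 316) (nat_lit 54) (.p (nat_lit 317) (nat_lit 126) (.p (nat_lit 318) (nat_lit 18) (.n (nat_lit 320) (nat_lit 36) (.n (nat_lit 321) (nat_lit 36) (.p (nat_lit 322) (nat_lit 18) (.n (nat_lit 323) (nat_lit 18) (.p (nat_lit 324) (nat_lit 36) (.n (nat_lit 325) (nat_lit 36) (.p (nat_lit 327) (nat_lit 36) (.p (nat_lit 328) (nat_lit 18) (.p (nat_lit 329) (nat_lit 18) .z))))))))))))))))))) (.ct dr2_c531 (nat_lit 18) (nat_lit 2) (.s true (nat_lit 1) (nat_lit 15) (nat_lit 3) (nat_lit 3) (nat_lit 3) true (nat_lit 3) true (nat_lit 7) true (nat_lit 2) true (nat_lit 7) true (nat_lit 7) (.e true (nat_lit 18) (nat_lit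 51) (nat_lit 10) (nat_lit 3) (.e true (nat_lit 18) (nat_lit 144) (nat_lit 3) (nat_lit 7) (.e false (nat_lit 18) (nat_lit 146) (nat_lit 3) (nat_lit 7) (.e true (nat_lit 18) (nat_lit 147) (nat_lit 3) (nat_lit 7) (.e false (nat_lit 18) (nat_lit 148) (nat_lit 3) (nat_lit 7) (.e false (nat_lit 18) (nat_lit 149) (nat_lit 3) (nat_lit 7) (.e true (nat_lit 18) (nat_lit 150) (nat_lit 3) (nat_lit 7) .nil))))))))) (.nd .leaf (nat_lit 33795) (nat_lit 105) (.p (nat_lit 85) (nat_lit 18) .z) .df .leaf))) (nat_lit 33802) (nat_lit 392) (.p (nat_lit 192) (nat_lit 12) (.p (nat_lit 193) (nat_lit 66) (.n (nat_lit 194) (nat_lit 12) (.p (nat_lit 195) (nat_lit 48) (.n (nat_lit 196) (nat_lit 6) (.p (nat_lit 197) (nat_lit 30) (.p (nat_lit 198) (nat_lit 18) (.n (nat_lit 199) (nat_lit 60) (.p (nat_lit 200) (nat_lit 18) (.n (nat_lit 201) (nat_lit 42) (.n (nat_lit 202) (nat_lit 18) (.n (nat_lit 203) (nat_lit 6) (.p (nat_lit 204) (nat_lit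 6) (.p (nat_lit 206) (nat_lit 27) (.p (nat_lit 208) (nat_lit 24) (.n (nat_lit 210) (nat_lit 12) (.n (nat_lit 211) (nat_lit 33) (.p (nat_lit 212) (nat_lit 48) (.p (nat_lit 213) (nat_lit 12) (.n (nat_lit 214) (nat_lit 12) (.p (nat_lit 215) (nat_lit 42) (.n (nat_lit 216) (nat_lit 54) (.p (nat_lit 218) (nat_lit 45) (.n (nat_lit 219) (nat_lit 45) (.p (nat_lit 220) (nat_lit 63) (.n (nat_lit 221) (nat_lit 27) (.n (nat_lit 222) (nat_lit 63) (.p (nat_lit 223) (nat_lit 27) (.p (nat_lit 224) (nat_lit 36) (.n (nat_lit 229) (nat_lit 54) (.n (nat_lit 231) (nat_lit 18) (.p (nat_lit 232) (nat_lit 18) (.n (nat_lit 239) (nat_lit 54) (.p (nat_lit 240) (nat_lit 18) .z)))))))))))))))))))))))))))))))))) (.ct dr2_c4626 (nat_lit 18) (nat_lit 5) (.s false (nat_lit 1) (nat_lit 11) (nat_lit 2) (nat_lit 3) (nat_lit 3) true (nat_lit 6) true (nat_lit 12) true (nat_lit 4) true (nat_lit 13) true (nat_lit 12) (.s false (nat_lit 1) (nat_lit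 11) (nat_lit 3) (nat_lit 2) (nat_lit 3) true (nat_lit 5) true (nat_lit 12) true (nat_lit 4) true (nat_lit 12) true (nat_lit 13) (.e false (nat_lit 18) (nat_lit 37) (nat_lit 9) (nat_lit 6) (.e false (nat_lit 18) (nat_lit 85) (nat_lit 3) (nat_lit 12) (.e true (nat_lit 36) (nat_lit 107) (nat_lit 2) (nat_lit 13) (.e true (nat_lit 36) (nat_lit 108) (nat_lit 2) (nat_lit 13) (.e false (nat_lit 36) (nat_lit 109) (nat_lit 2) (nat_lit 13) (.e false (nat_lit 18) (nat_lit 111) (nat_lit 2) (nat_lit 13) (.e true (nat_lit 18) (nat_lit 114) (nat_lit 2) (nat_lit 13) (.e false (nat_lit 36) (nat_lit 89) (nat_lit 3) (nat_lit 12) (.e true (nat_lit 18) (nat_lit 103) (nat_lit 3) (nat_lit 12) (.e false (nat_lit 18) (nat_lit 104) (nat_lit 2) (nat_lit 13) .nil))))))))))))) (.nd (.nd (.nd (.nd .leaf (nat_lit 34819) (nat_lit 106) (.p (nat_lit 86) (nat_lit 18) .z) .df .leaf) (nat_lit 34826) (nat_lit 389) (.p (nat_lit 189) (nat_lit 108)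 (.n (nat_lit 190) (nat_lit 180) (.p (nat_lit 191) (nat_lit 180) (.p (nat_lit 192) (nat_lit 12) (.n (nat_lit 193) (nat_lit 150) (.n (nat_lit 194) (nat_lit 138) (.n (nat_lit 195) (nat_lit 204) (.n (nat_lit 196) (nat_lit 150) (.n (nat_lit 197) (nat_lit 258) (.p (nat_lit 198) (nat_lit 126) (.p (nat_lit 199) (nat_lit 228) (.p (nat_lit 200) (nat_lit 126) (.p (nat_lit 201) (nat_lit 318) (.p (nat_lit 202) (nat_lit 108) (.p (nat_lit 203) (nat_lit 120) (.n (nat_lit 204) (nat_lit 84) (.p (nat_lit 205) (nat_lit 108) (.n (nat_lit 206) (nat_lit 63) (.p (nat_lit 207) (nat_lit 36) (.n (nat_lit 208) (nat_lit 66) (.p (nat_lit 210) (nat_lit 42) (.p (nat_lit 211) (nat_lit 3) (.n (nat_lit 212) (nat_lit 78) (.p (nat_lit 213) (nat_lit 138) (.p (nat_lit 214) (nat_lit 6) (.n (nat_lit 215) (nat_lit 48) (.n (nat_lit 216) (nat_lit 54) (.n (nat_lit 218) (nat_lit 27) (.n (nat_lit 219) (nat_lit 9) (.n (nat_lit 220) (nat_lit 45) (.n (nat_lit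 221) (nat_lit 27) (.p (nat_lit 222) (nat_lit 45) (.p (nat_lit 223) (nat_lit 27) (.p (nat_lit 224) (nat_lit 180) (.n (nat_lit 225) (nat_lit 108) (.p (nat_lit 226) (nat_lit 108) (.n (nat_lit 227) (nat_lit 36) (.p (nat_lit 228) (nat_lit 36) (.p (nat_lit 229) (nat_lit 126) (.n (nat_lit 231) (nat_lit 54) (.p (nat_lit 232) (nat_lit 18) (.n (nat_lit 235) (nat_lit 108) (.p (nat_lit 236) (nat_lit 36) (.n (nat_lit 237) (nat_lit 144) (.p (nat_lit 238) (nat_lit 36) (.p (nat_lit 239) (nat_lit 126) (.p (nat_lit 240) (nat_lit 54) .z))))))))))))))))))))))))))))))))))))))))))))))) (.ct dr2_c4626 (nat_lit 18) (nat_lit 5) (.s true (nat_lit 1) (nat_lit 10) (nat_lit 4) (nat_lit 2) (nat_lit 1) true (nat_lit 4) true (nat_lit 14) true (nat_lit 5) true (nat_lit 11) true (nat_lit 13) (.s true (nat_lit 1) (nat_lit 11) (nat_lit 3) (nat_lit 3) (nat_lit 2) true (nat_lit 6) true (nat_lit 13) true (nat_lit 4) true (nat_lit 12) true (nat_lit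 12) (.e false (nat_lit 18) (nat_lit 126) (nat_lit 1) (nat_lit 14) (.e true (nat_lit 18) (nat_lit 127) (nat_lit 1) (nat_lit 14) (.e false (nat_lit 18) (nat_lit 128) (nat_lit 1) (nat_lit 14) (.e true (nat_lit 18) (nat_lit 130) (nat_lit 1) (nat_lit 14) (.e true (nat_lit 18) (nat_lit 71) (nat_lit 4) (nat_lit 11) (.e false (nat_lit 18) (nat_lit 72) (nat_lit 4) (nat_lit 11) (.e true (nat_lit 18) (nat_lit 73) (nat_lit 4) (nat_lit 11) (.e false (nat_lit 18) (nat_lit 75) (nat_lit 4) (nat_lit 11) (.e false (nat_lit 18) (nat_lit 108) (nat_lit 2) (nat_lit 13) (.e true (nat_lit 18) (nat_lit 109) (nat_lit 2) (nat_lit 13) (.e false (nat_lit 18) (nat_lit 110) (nat_lit 2) (nat_lit 13) (.e true (nat_lit 18) (nat_lit 111) (nat_lit 2) (nat_lit 13) (.e true (nat_lit 18) (nat_lit 112) (nat_lit 2) (nat_lit 13) (.e false (nat_lit 18) (nat_lit 114) (nat_lit 2) (nat_lit 13) (.e true (nat_lit 18) (nat_lit 37) (nat_lit 9) (nat_lit 6)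 (.e true (nat_lit 18) (nat_lit 104) (nat_lit 2) (nat_lit 13) (.e true (nat_lit 18) (nat_lit 103) (nat_lit 3) (nat_lit 12) (.e false (nat_lit 18) (nat_lit 85) (nat_lit 3) (nat_lit 12) .nil))))))))))))))))))))) .leaf) (nat_lit 35843) (nat_lit 107) (.p (nat_lit 87) (nat_lit 18) .z) .df (.nd .leaf (nat_lit 35850) (nat_lit 393) (.n (nat_lit 189) (nat_lit 18) (.n (nat_lit 190) (nat_lit 18) (.p (nat_lit 191) (nat_lit 18) (.p (nat_lit 192) (nat_lit 48) (.p (nat_lit 193) (nat_lit 30) (.n (nat_lit 194) (nat_lit 138) (.n (nat_lit 195) (nat_lit 42) (.n (nat_lit 196) (nat_lit 114) (.n (nat_lit 197) (nat_lit 132) (.p (nat_lit 198) (nat_lit 144) (.p (nat_lit 199) (nat_lit 12) (.p (nat_lit 200) (nat_lit 144) (.p (nat_lit 201) (nat_lit 66) (.n (nat_lit 202) (nat_lit 18) (.p (nat_lit 203) (nat_lit 120) (.n (nat_lit 204) (nat_lit 30) (.p (nat_lit 205) (nat_lit 90) (.p (nat_lit 206) (nat_lit 81) (.n (nat_lit 207) (nat_lit 18)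 (.p (nat_lit 208) (nat_lit 96) (.n (nat_lit 210) (nat_lit 12) (.n (nat_lit 211) (nat_lit 159) (.p (nat_lit 212) (nat_lit 156) (.p (nat_lit 213) (nat_lit 120) (.n (nat_lit 214) (nat_lit 30) (.p (nat_lit 215) (nat_lit 186) (.n (nat_lit 216) (nat_lit 162) (.p (nat_lit 218) (nat_lit 27) (.n (nat_lit 219) (nat_lit 117) (.p (nat_lit 220) (nat_lit 81) (.n (nat_lit 221) (nat_lit 63) (.n (nat_lit 222) (nat_lit 117) (.p (nat_lit 223) (nat_lit 81) (.p (nat_lit 224) (nat_lit 162) (.n (nat_lit 225) (nat_lit 54) (.p (nat_lit 226) (nat_lit 90) (.n (nat_lit 227) (nat_lit 72) (.p (nat_lit 228) (nat_lit 90) (.n (nat_lit 229) (nat_lit 18) (.n (nat_lit 231) (nat_lit 90) (.p (nat_lit 235) (nat_lit 18) (.p (nat_lit 236) (nat_lit 72) (.n (nat_lit 237) (nat_lit 72) (.n (nat_lit 238) (nat_lit 72) (.n (nat_lit 239) (nat_lit 18) (.p (nat_lit 240) (nat_lit 90) .z)))))))))))))))))))))))))))))))))))))))))))))) (.ct dr2_c4626 (nat_lit 18)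 (nat_lit 5) (.s true (nat_lit 1) (nat_lit 6) (nat_lit 3) (nat_lit 4) (nat_lit 3) true (nat_lit 5) true (nat_lit 12) true (nat_lit 9) true (nat_lit 12) true (nat_lit 11) (.e false (nat_lit 18) (nat_lit 33) (nat_lit 10) (nat_lit 5) (.e false (nat_lit 18) (nat_lit 36) (nat_lit 10) (nat_lit 5) (.e false (nat_lit 18) (nat_lit 86) (nat_lit 3) (nat_lit 12) (.e false (nat_lit 18) (nat_lit 55) (nat_lit 6) (nat_lit 9) (.e true (nat_lit 18) (nat_lit 85) (nat_lit 3) (nat_lit 12) (.e false (nat_lit 18) (nat_lit 94) (nat_lit 3) (nat_lit 12) (.e false (nat_lit 18) (nat_lit 96) (nat_lit 3) (nat_lit 12) (.e true (nat_lit 18) (nat_lit 98) (nat_lit 3) (nat_lit 12) (.e true (nat_lit 18) (nat_lit 100) (nat_lit 3) (nat_lit 12) (.e true (nat_lit 18) (nat_lit 70) (nat_lit 4) (nat_lit 11) .nil)))))))))))) .leaf)) (nat_lit 36867) (nat_lit 108) (.p (nat_lit 88) (nat_lit 18) .z) .df (.nd (.nd .leaf (nat_lit 36874) (nat_lit 387) (.n (nat_lit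 189) (nat_lit 126) (.p (nat_lit 190) (nat_lit 162) (.n (nat_lit 191) (nat_lit 162) (.p (nat_lit 194) (nat_lit 18) (.p (nat_lit 195) (nat_lit 18) (.p (nat_lit 196) (nat_lit 72) (.p (nat_lit 197) (nat_lit 18) (.n (nat_lit 198) (nat_lit 18) (.n (nat_lit 199) (nat_lit 72) (.n (nat_lit 200) (nat_lit 18) (.n (nat_lit 201) (nat_lit 144) (.n (nat_lit 202) (nat_lit 108) (.p (nat_lit 203) (nat_lit 36) (.p (nat_lit 204) (nat_lit 18) (.p (nat_lit 206) (nat_lit 90) (.n (nat_lit 207) (nat_lit 72) (.p (nat_lit 208) (nat_lit 108) (.n (nat_lit 211) (nat_lit 108) (.p (nat_lit 212) (nat_lit 108) (.n (nat_lit 213) (nat_lit 36) (.p (nat_lit 215) (nat_lit 180) (.n (nat_lit 218) (nat_lit 36) (.n (nat_lit 219) (nat_lit 18) (.p (nat_lit 221) (nat_lit 18) (.n (nat_lit 222) (nat_lit 36) (.n (nat_lit 224) (nat_lit 54) (.p (nat_lit 225) (nat_lit 54) (.n (nat_lit 226) (nat_lit 18) (.p (nat_lit 228) (nat_lit 54) (.n (nat_lit 232) (nat_lit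 54) (.p (nat_lit 235) (nat_lit 126) (.p (nat_lit 237) (nat_lit 72) (.n (nat_lit 238) (nat_lit 108) .z))))))))))))))))))))))))))))))))) (.ct dr2_c4626 (nat_lit 18) (nat_lit 5) (.s false (nat_lit 1) (nat_lit 14) (nat_lit 3) (nat_lit 1) (nat_lit 3) true (nat_lit 5) true (nat_lit 12) true (nat_lit 3) true (nat_lit 12) true (nat_lit 14) (.s false (nat_lit 1) (nat_lit 28) (nat_lit 2) (nat_lit 1) (nat_lit 0) true (nat_lit 10) true (nat_lit 15) false (nat_lit 3) true (nat_lit 13) true (nat_lit 14) (.e false (nat_lit 36) (nat_lit 94) (nat_lit 3) (nat_lit 12) (.e true (nat_lit 18) (nat_lit 85) (nat_lit 3) (nat_lit 12) (.e true (nat_lit 18) (nat_lit 86) (nat_lit 3) (nat_lit 12) (.e false (nat_lit 36) (nat_lit 89) (nat_lit 3) (nat_lit 12) (.e true (nat_lit 18) (nat_lit 90) (nat_lit 3) (nat_lit 12) (.e false (nat_lit 36) (nat_lit 91) (nat_lit 3) (nat_lit 12) (.e false (nat_lit 18) (nat_lit 92) (nat_lit 3) (nat_lit 12)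 (.e false (nat_lit 18) (nat_lit 93) (nat_lit 3) (nat_lit 12) (.e false (nat_lit 18) (nat_lit 95) (nat_lit 3) (nat_lit 12) (.e false (nat_lit 18) (nat_lit 97) (nat_lit 3) (nat_lit 12) (.e true (nat_lit 36) (nat_lit 98) (nat_lit 3) (nat_lit 12) (.e false (nat_lit 18) (nat_lit 99) (nat_lit 3) (nat_lit 12) (.e true (nat_lit 18) (nat_lit 100) (nat_lit 3) (nat_lit 12) (.e true (nat_lit 18) (nat_lit 101) (nat_lit 3) (nat_lit 12) (.e true (nat_lit 18) (nat_lit 103) (nat_lit 3) (nat_lit 12) (.e false (nat_lit 18) (nat_lit 117) (nat_lit 1) (nat_lit 14) (.e true (nat_lit 18) (nat_lit 62) (nat_lit 5) (nat_lit 10) (.e false (nat_lit 18) (nat_lit 148) (nat_lit 0) (nat_lit 15) (.e true (nat_lit 18) (nat_lit 104) (nat_lit 2) (nat_lit 13) (.e false (nat_lit 18) (nat_lit 110) (nat_lit 2) (nat_lit 13) (.e true (nat_lit 18) (nat_lit 112) (nat_lit 2) (nat_lit 13) (.e true (nat_lit 18) (nat_lit 130) (nat_lit 1) (nat_lit 14) .nil)))))))))))))))))))))))))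 .leaf) (nat_lit 37890) (nat_lit 109) (.p (nat_lit 89) (nat_lit 18) .z) .df (.nd .leaf (nat_lit 37891) (nat_lit 139) (.p (nat_lit 104) (nat_lit 18) .z) .df .leaf))))))

noncomputable def dr2_t4 : Tr := (.nd (.nd (.nd (.nd (.nd (.nd (.nd .leaf (nat_lit 37898) (nat_lit 445) (.p (nat_lit 241) (nat_lit 36) (.p (nat_lit 242) (nat_lit 36) (.n (nat_lit 243) (nat_lit 36) (.n (nat_lit 245) (nat_lit 18) (.p (nat_lit 247) (nat_lit 18) (.n (nat_lit 249) (nat_lit 36) (.n (nat_lit 251) (nat_lit 36) (.p (nat_lit 253) (nat_lit 18) (.p (nat_lit 254) (nat_lit 18) (.p (nat_lit 255) (nat_lit 18) (.p (nat_lit 256) (nat_lit 18) (.p (nat_lit 258) (nat_lit 18) .z)))))))))))) (.ct dr2_c4611 (nat_lit 36) (nat_lit 3) (.s false (nat_lit 1) (nat_lit 10) (nat_lit 1) (nat_lit 3) (nat_lit 4) true (nat_lit 2) true (nat_lit 6) true (nat_lit 3) true (nat_lit 8) true (nat_lit 7) (.s true (nat_lit 1) (nat_lit 11) (nat_lit 3) (nat_lit 3) (nat_lit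 3) true (nat_lit 3) true (nat_lit 7) true (nat_lit 2) true (nat_lit 7) true (nat_lit 7) (.e false (nat_lit 18) (nat_lit 80) (nat_lit 4) (nat_lit 6) (.e false (nat_lit 18) (nat_lit 39) (nat_lit 10) (nat_lit 3) (.e true (nat_lit 18) (nat_lit 40) (nat_lit 10) (nat_lit 3) (.e true (nat_lit 18) (nat_lit 160) (nat_lit 1) (nat_lit 8) (.e false (nat_lit 54) (nat_lit 108) (nat_lit 3) (nat_lit 7) (.e true (nat_lit 54) (nat_lit 109) (nat_lit 3) (nat_lit 7) (.e false (nat_lit 18) (nat_lit 110) (nat_lit 3) (nat_lit 7) (.e true (nat_lit 18) (nat_lit 112) (nat_lit 3) (nat_lit 7) (.e false (nat_lit 36) (nat_lit 107) (nat_lit 3) (nat_lit 7) (.e true (nat_lit 18) (nat_lit 111) (nat_lit 3) (nat_lit 7) (.e false (nat_lit 18) (nat_lit 114) (nat_lit 3) (nat_lit 7) .nil)))))))))))))) .leaf) (nat_lit 38914) (nat_lit 128) (.p (nat_lit 85) (nat_lit 36) (.p (nat_lit 86) (nat_lit 18) (.n (nat_lit 87) (nat_lit 18) (.p (nat_lit 88) (nat_lit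 18) (.n (nat_lit 89) (nat_lit 36) (.p (nat_lit 90) (nat_lit 18) (.n (nat_lit 91) (nat_lit 18) (.p (nat_lit 92) (nat_lit 18) (.n (nat_lit 93) (nat_lit 18) (.n (nat_lit 94) (nat_lit 18) (.n (nat_lit 95) (nat_lit 18) (.n (nat_lit 96) (nat_lit 18) (.n (nat_lit 97) (nat_lit 18) (.p (nat_lit 98) (nat_lit 36) (.p (nat_lit 100) (nat_lit 36) (.p (nat_lit 103) (nat_lit 36) .z)))))))))))))))) (.ct dr2_c4625 (nat_lit 18) (nat_lit 7) (.s true (nat_lit 1) (nat_lit 4) (nat_lit 1) (nat_lit 3) (nat_lit 2) true (nat_lit 3) true (nat_lit 7) true (nat_lit 5) true (nat_lit 8) true (nat_lit 6) (.s true (nat_lit 1) (nat_lit 4) (nat_lit 3) (nat_lit 1) (nat_lit 2) true (nat_lit 0) true (nat_lit 7) true (nat_lit 5) true (nat_lit 6) true (nat_lit 8) (.e true (nat_lit 18) (nat_lit 16) (nat_lit 6) (nat_lit 3) (.e true (nat_lit 18) (nat_lit 37) (nat_lit 2) (nat_lit 7) (.e true (nat_lit 18) (nat_lit 42) (nat_lit 1) (nat_lit 8) (.e true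 (nat_lit 18) (nat_lit 46) (nat_lit 1) (nat_lit 8) (.e false (nat_lit 18) (nat_lit 48) (nat_lit 1) (nat_lit 8) (.e false (nat_lit 18) (nat_lit 50) (nat_lit 1) (nat_lit 8) (.e false (nat_lit 18) (nat_lit 34) (nat_lit 3) (nat_lit 6) (.e false (nat_lit 18) (nat_lit 11) (nat_lit 9) (nat_lit 0) (.e false (nat_lit 18) (nat_lit 33) (nat_lit 3) (nat_lit 6) (.e true (nat_lit 18) (nat_lit 35) (nat_lit 3) (nat_lit 6) (.e false (nat_lit 18) (nat_lit 36) (nat_lit 3) (nat_lit 6) (.e false (nat_lit 18) (nat_lit 41) (nat_lit 1) (nat_lit 8) .nil))))))))))))))) .leaf) (nat_lit 38915) (nat_lit 152) (.n (nat_lit 104) (nat_lit 36) (.p (nat_lit 105) (nat_lit 18) (.n (nat_lit 106) (nat_lit 18) (.p (nat_lit 107) (nat_lit 18) (.p (nat_lit 108) (nat_lit 36) (.n (nat_lit 109) (nat_lit 36) (.p (nat_lit 110) (nat_lit 18) (.n (nat_lit 111) (nat_lit 18) (.n (nat_lit 112) (nat_lit 18) (.p (nat_lit 114) (nat_lit 18) .z)))))))))) (.ct dr2_c4610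 (nat_lit 36) (nat_lit 4) (.s true (nat_lit 1) (nat_lit 4) (nat_lit 1) (nat_lit 3) (nat_lit 3) true (nat_lit 1) true (nat_lit 4) true (nat_lit 3) true (nat_lit 5) true (nat_lit 4) (.s true (nat_lit 1) (nat_lit 7) (nat_lit 3) (nat_lit 1) (nat_lit 1) true (nat_lit 1) true (nat_lit 5) true (nat_lit 2) true (nat_lit 4) true (nat_lit 5) (.s true (nat_lit 1) (nat_lit 8) (nat_lit 0) (nat_lit 1) (nat_lit 3) true (nat_lit 2) true (nat_lit 4) true (nat_lit 1) true (nat_lit 6) true (nat_lit 5) (.s true (nat_lit 1) (nat_lit 8) (nat_lit 0) (nat_lit 3) (nat_lit 1) true (nat_lit 3) true (nat_lit 5) true (nat_lit 1) true (nat_lit 6) true (nat_lit 4) (.e true (nat_lit 36) (nat_lit 16) (nat_lit 8) (nat_lit 1) (.e false (nat_lit 36) (nat_lit 56) (nat_lit 1) (nat_lit 5) (.e true (nat_lit 36) (nat_lit 57) (nat_lit 1) (nat_lit 5) .nil)))))))) (.nd .leaf (nat_lit 38922) (nat_lit 454) (.n (nat_lit 241) (nat_lit 36) (.p (nat_lit 244)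 (nat_lit 36) (.n (nat_lit 246) (nat_lit 36) (.p (nat_lit 249) (nat_lit 144) (.n (nat_lit 250) (nat_lit 36) (.p (nat_lit 251) (nat_lit 144) (.n (nat_lit 252) (nat_lit 36) (.n (nat_lit 253) (nat_lit 54) (.n (nat_lit 254) (nat_lit 36) (.n (nat_lit 255) (nat_lit 54) (.n (nat_lit 256) (nat_lit 90) (.n (nat_lit 258) (nat_lit 72) (.p (nat_lit 259) (nat_lit 18) (.n (nat_lit 260) (nat_lit 18) .z)))))))))))))) (.ct dr2_c4611 (nat_lit 18) (nat_lit 3) (.s false (nat_lit 1) (nat_lit 8) (nat_lit 4) (nat_lit 3) (nat_lit 3) true (nat_lit 1) true (nat_lit 7) true (nat_lit 4) true (nat_lit 6) true (nat_lit 7) (.s false (nat_lit 1) (nat_lit 16) (nat_lit 3) (nat_lit 1) (nat_lit 3) true (nat_lit 3) true (nat_lit 7) true (nat_lit 1) true (nat_lit 7) true (nat_lit 8) (.e false (nat_lit 18) (nat_lit 55) (nat_lit 8) (nat_lit 4) (.e true (nat_lit 18) (nat_lit 80) (nat_lit 4) (nat_lit 6) (.e true (nat_lit 18) (nat_lit 81) (nat_lit 4)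 (nat_lit 6) (.e false (nat_lit 36) (nat_lit 107) (nat_lit 3) (nat_lit 7) (.e false (nat_lit 18) (nat_lit 108) (nat_lit 3) (nat_lit 7) (.e true (nat_lit 18) (nat_lit 109) (nat_lit 3) (nat_lit 7) (.e true (nat_lit 18) (nat_lit 111) (nat_lit 3) (nat_lit 7) (.e false (nat_lit 18) (nat_lit 114) (nat_lit 3) (nat_lit 7) (.e false (nat_lit 18) (nat_lit 151) (nat_lit 1) (nat_lit 8) .nil)))))))))))) .leaf)) (nat_lit 39938) (nat_lit 110) (.p (nat_lit 90) (nat_lit 18) .z) .df (.nd (.nd (.nd .leaf (nat_lit 39939) (nat_lit 140) (.p (nat_lit 105) (nat_lit 18) .z) .df .leaf) (nat_lit 39945) (nat_lit 385) (.n (nat_lit 189) (nat_lit 9) (.n (nat_lit 190) (nat_lit 9) (.p (nat_lit 191) (nat_lit 27) (.n (nat_lit 194) (nat_lit 63) (.n (nat_lit 195) (nat_lit 36) (.n (nat_lit 196) (nat_lit 81) (.n (nat_lit 197) (nat_lit 90) (.p (nat_lit 198) (nat_lit 90) (.p (nat_lit 199) (nat_lit 9) (.p (nat_lit 200) (nat_lit 72) (.p (nat_lit 201)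 (nat_lit 54) (.p (nat_lit 202) (nat_lit 27) (.p (nat_lit 203) (nat_lit 90) (.n (nat_lit 204) (nat_lit 27) (.p (nat_lit 205) (nat_lit 63) (.n (nat_lit 206) (nat_lit 9) (.p (nat_lit 207) (nat_lit 27) (.p (nat_lit 208) (nat_lit 45) (.p (nat_lit 209) (nat_lit 18) (.p (nat_lit 210) (nat_lit 9) (.n (nat_lit 211) (nat_lit 72) (.p (nat_lit 212) (nat_lit 63) (.p (nat_lit 213) (nat_lit 36) (.n (nat_lit 214) (nat_lit 9) (.p (nat_lit 215) (nat_lit 36) (.n (nat_lit 216) (nat_lit 54) (.p (nat_lit 217) (nat_lit 18) (.n (nat_lit 219) (nat_lit 45) (.n (nat_lit 221) (nat_lit 9) (.n (nat_lit 222) (nat_lit 36) (.p (nat_lit 223) (nat_lit 27) (.p (nat_lit 224) (nat_lit 81) (.n (nat_lit 225) (nat_lit 45) (.p (nat_lit 226) (nat_lit 45) (.n (nat_lit 227) (nat_lit 36) (.p (nat_lit 228) (nat_lit 27) (.n (nat_lit 229) (nat_lit 18) (.p (nat_lit 230) (nat_lit 18) (.n (nat_lit 231) (nat_lit 18) (.p (nat_lit 232) (nat_lit 27) (.n (nat_lit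 233) (nat_lit 18) (.n (nat_lit 235) (nat_lit 9) (.p (nat_lit 236) (nat_lit 18) (.n (nat_lit 237) (nat_lit 36) (.n (nat_lit 238) (nat_lit 18) (.p (nat_lit 240) (nat_lit 54) .z)))))))))))))))))))))))))))))))))))))))))))))) (.ct dr2_c4626 (nat_lit 18) (nat_lit 6) (.s true (nat_lit 1) (nat_lit 17) (nat_lit 2) (nat_lit 1) (nat_lit 3) true (nat_lit 6) true (nat_lit 12) true (nat_lit 1) true (nat_lit 13) true (nat_lit 14) (.s true (nat_lit 1) (nat_lit 23) (nat_lit 0) (nat_lit 3) (nat_lit 1) true (nat_lit 11) true (nat_lit 14) false (nat_lit 1) true (nat_lit 15) true (nat_lit 12) (.e true (nat_lit 18) (nat_lit 96) (nat_lit 3) (nat_lit 12) (.e false (nat_lit 18) (nat_lit 105) (nat_lit 2) (nat_lit 13) (.e true (nat_lit 18) (nat_lit 107) (nat_lit 2) (nat_lit 13) (.e true (nat_lit 18) (nat_lit 108) (nat_lit 2) (nat_lit 13) (.e true (nat_lit 18) (nat_lit 110) (nat_lit 2) (nat_lit 13) (.e false (nat_lit 18) (nat_lit 111)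 (nat_lit 2) (nat_lit 13) (.e true (nat_lit 18) (nat_lit 112) (nat_lit 2) (nat_lit 13) (.e false (nat_lit 18) (nat_lit 126) (nat_lit 1) (nat_lit 14) (.e true (nat_lit 18) (nat_lit 70) (nat_lit 4) (nat_lit 11) (.e true (nat_lit 18) (nat_lit 124) (nat_lit 1) (nat_lit 14) (.e true (nat_lit 18) (nat_lit 141) (nat_lit 0) (nat_lit 15) (.e false (nat_lit 18) (nat_lit 146) (nat_lit 0) (nat_lit 15) (.e true (nat_lit 18) (nat_lit 147) (nat_lit 0) (nat_lit 15) (.e false (nat_lit 18) (nat_lit 102) (nat_lit 3) (nat_lit 12) .nil))))))))))))))))) .leaf) (nat_lit 39946) (nat_lit 431) (.p (nat_lit 259) (nat_lit 18) .z) .df (.nd .leaf (nat_lit 40962) (nat_lit 111) (.p (nat_lit 91) (nat_lit 18) .z) .df .leaf))) (nat_lit 40963) (nat_lit 141) (.p (nat_lit 106) (nat_lit 18) .z) .df (.nd (.nd (.nd (.nd .leaf (nat_lit 40969) (nat_lit 346) (.p (nat_lit 189) (nat_lit 18) (.n (nat_lit 190) (nat_lit 36) (.p (nat_lit 191) (nat_lit 36)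 (.p (nat_lit 192) (nat_lit 18) (.p (nat_lit 193) (nat_lit 72) (.n (nat_lit 194) (nat_lit 36) (.p (nat_lit 195) (nat_lit 18) (.n (nat_lit 196) (nat_lit 54) (.n (nat_lit 197) (nat_lit 36) (.p (nat_lit 198) (nat_lit 72) (.n (nat_lit 199) (nat_lit 36) (.p (nat_lit 200) (nat_lit 72) (.p (nat_lit 201) (nat_lit 18) (.p (nat_lit 203) (nat_lit 18) (.p (nat_lit 205) (nat_lit 36) (.p (nat_lit 206) (nat_lit 18) (.p (nat_lit 207) (nat_lit 18) (.p (nat_lit 208) (nat_lit 36) (.n (nat_lit 210) (nat_lit 18) (.n (nat_lit 211) (nat_lit 54) (.p (nat_lit 212) (nat_lit 72) (.p (nat_lit 213) (nat_lit 18) (.n (nat_lit 214) (nat_lit 18) (.p (nat_lit 215) (nat_lit 18) (.n (nat_lit 216) (nat_lit 72) (.p (nat_lit 217) (nat_lit 18) (.p (nat_lit 218) (nat_lit 36) (.n (nat_lit 219) (nat_lit 54) (.p (nat_lit 220) (nat_lit 36) (.n (nat_lit 221) (nat_lit 18) (.n (nat_lit 222) (nat_lit 72) (.p (nat_lit 223) (nat_lit 36) (.p (nat_lit 224) (nat_lit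 72) (.n (nat_lit 225) (nat_lit 36) (.p (nat_lit 226) (nat_lit 36) (.n (nat_lit 227) (nat_lit 36) (.n (nat_lit 229) (nat_lit 54) (.p (nat_lit 230) (nat_lit 18) (.n (nat_lit 231) (nat_lit 36) (.p (nat_lit 232) (nat_lit 54) (.n (nat_lit 233) (nat_lit 18) (.n (nat_lit 235) (nat_lit 36) (.p (nat_lit 236) (nat_lit 36) (.n (nat_lit 237) (nat_lit 36) (.p (nat_lit 238) (nat_lit 18) (.n (nat_lit 239) (nat_lit 54) (.p (nat_lit 240) (nat_lit 54) .z))))))))))))))))))))))))))))))))))))))))))))))) (.ct dr2_c4626 (nat_lit 18) (nat_lit 6) (.s true (nat_lit 1) (nat_lit 6) (nat_lit 3) (nat_lit 3) (nat_lit 4) true (nat_lit 1) true (nat_lit 11) true (nat_lit 9) true (nat_lit 12) true (nat_lit 12) (.s true (nat_lit 1) (nat_lit 8) (nat_lit 0) (nat_lit 6) (nat_lit 3) true (nat_lit 8) true (nat_lit 12) true (nat_lit 7) true (nat_lit 15) true (nat_lit 9) (.s true (nat_lit 1) (nat_lit 8) (nat_lit 2) (nat_lit 1) (nat_lit 7) false (nat_lit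 0) true (nat_lit 8) true (nat_lit 7) true (nat_lit 13) true (nat_lit 14) (.s false (nat_lit 2) (nat_lit 8) (nat_lit 2) (nat_lit 3) (nat_lit 4) true (nat_lit 3) true (nat_lit 11) true (nat_lit 7) true (nat_lit 13) true (nat_lit 12) (.s false (nat_lit 2) (nat_lit 8) (nat_lit 3) (nat_lit 2) (nat_lit 4) true (nat_lit 1) true (nat_lit 11) true (nat_lit 7) true (nat_lit 12) true (nat_lit 13) (.s false (nat_lit 4) (nat_lit 8) (nat_lit 4) (nat_lit 2) (nat_lit 3) true (nat_lit 1) true (nat_lit 12) true (nat_lit 7) true (nat_lit 11) true (nat_lit 13) (.s false (nat_lit 1) (nat_lit 8) (nat_lit 4) (nat_lit 3) (nat_lit 2) true (nat_lit 3) true (nat_lit 13) true (nat_lit 7) true (nat_lit 11) true (nat_lit 12) (.s true (nat_lit 2) (nat_lit 9) (nat_lit 1) (nat_lit 7) (nat_lit 1) false (nat_lit 16) true (nat_lit 14) true (nat_lit 6) true (nat_lit 14) true (nat_lit 8) dr2_i3))))))))) .leaf) (nat_lit 40970) (nat_lit 432) (.p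 (nat_lit 260) (nat_lit 18) .z) .df .leaf) (nat_lit 41985) (nat_lit 112) (.p (nat_lit 92) (nat_lit 18) .z) .df (.nd .leaf (nat_lit 41987) (nat_lit 159) (.p (nat_lit 115) (nat_lit 18) .z) .df .leaf)) (nat_lit 41992) (nat_lit 344) (.p (nat_lit 239) (nat_lit 18) .z) .df (.nd (.nd (.nd .leaf (nat_lit 41994) (nat_lit 542) (.p (nat_lit 262) (nat_lit 38) (.p (nat_lit 263) (nat_lit 86) (.p (nat_lit 264) (nat_lit 4) (.p (nat_lit 265) (nat_lit 14) (.p (nat_lit 266) (nat_lit 8) (.p (nat_lit 267) (nat_lit 50) (.n (nat_lit 268) (nat_lit 24) (.n (nat_lit 269) (nat_lit 70) (.p (nat_lit 270) (nat_lit 12) (.n (nat_lit 271) (nat_lit 34) (.n (nat_lit 272) (nat_lit 24) (.n (nat_lit 273) (nat_lit 4) (.n (nat_lit 274) (nat_lit 32) (.p (nat_lit 275) (nat_lit 6) (.p (nat_lit 276) (nat_lit 36) (.n (nat_lit 277) (nat_lit 30) (.p (nat_lit 278) (nat_lit 22) (.n (nat_lit 280) (nat_lit 50) (.n (nat_lit 281) (nat_lit 28) (.p (nat_lit 282)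 (nat_lit 74) (.p (nat_lit 283) (nat_lit 20) (.n (nat_lit 284) (nat_lit 8) (.p (nat_lit 285) (nat_lit 28) (.n (nat_lit 287) (nat_lit 18) (.p (nat_lit 288) (nat_lit 18) (.n (nat_lit 289) (nat_lit 36) (.p (nat_lit 290) (nat_lit 24) (.p (nat_lit 291) (nat_lit 12) (.p (nat_lit 292) (nat_lit 42) (.p (nat_lit 293) (nat_lit 36) (.p (nat_lit 294) (nat_lit 12) (.n (nat_lit 295) (nat_lit 12) (.p (nat_lit 296) (nat_lit 18) (.p (nat_lit 297) (nat_lit 36) (.p (nat_lit 298) (nat_lit 30) (.p (nat_lit 299) (nat_lit 18) (.n (nat_lit 300) (nat_lit 12) (.n (nat_lit 301) (nat_lit 6) (.p (nat_lit 302) (nat_lit 12) (.n (nat_lit 303) (nat_lit 24) (.n (nat_lit 304) (nat_lit 36) (.n (nat_lit 305) (nat_lit 36) (.p (nat_lit 306) (nat_lit 42) (.p (nat_lit 307) (nat_lit 12) (.n (nat_lit 308) (nat_lit 48) .z))))))))))))))))))))))))))))))))))))))))))))) (.ct dr2_c4371 (nat_lit 18) (nat_lit 4) (.s false (nat_lit 1) (nat_lit 9) (nat_lit 4)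 (nat_lit 3) (nat_lit 3) true (nat_lit 2) true (nat_lit 11) true (nat_lit 5) true (nat_lit 10) true (nat_lit 11) (.s true (nat_lit 1) (nat_lit 10) (nat_lit 4) (nat_lit 2) (nat_lit 3) true (nat_lit 2) true (nat_lit 11) true (nat_lit 4) true (nat_lit 10) true (nat_lit 12) (.s true (nat_lit 1) (nat_lit 16) (nat_lit 2) (nat_lit 3) (nat_lit 3) true (nat_lit 5) true (nat_lit 11) true (nat_lit 2) true (nat_lit 12) true (nat_lit 11) (.s true (nat_lit 1) (nat_lit 16) (nat_lit 3) (nat_lit 3) (nat_lit 2) true (nat_lit 5) true (nat_lit 12) true (nat_lit 2) true (nat_lit 11) true (nat_lit 11) (.e false (nat_lit 18) (nat_lit 116) (nat_lit 3) (nat_lit 11) (.e false (nat_lit 18) (nat_lit 120) (nat_lit 3) (nat_lit 11) (.e true (nat_lit 18) (nat_lit 122) (nat_lit 3) (nat_lit 11) (.e true (nat_lit 18) (nat_lit 124) (nat_lit 3) (nat_lit 11) (.e true (nat_lit 18) (nat_lit 55) (nat_lit 9) (nat_lit 5) (.e false (nat_lit 18) (nat_lit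 115) (nat_lit 3) (nat_lit 11) (.e false (nat_lit 18) (nat_lit 118) (nat_lit 3) (nat_lit 11) (.e false (nat_lit 18) (nat_lit 152) (nat_lit 2) (nat_lit 12) (.e true (nat_lit 18) (nat_lit 153) (nat_lit 2) (nat_lit 12) (.e false (nat_lit 18) (nat_lit 154) (nat_lit 2) (nat_lit 12) (.e true (nat_lit 18) (nat_lit 156) (nat_lit 2) (nat_lit 12) (.e true (nat_lit 18) (nat_lit 125) (nat_lit 3) (nat_lit 11) (.e true (nat_lit 18) (nat_lit 151) (nat_lit 2) (nat_lit 12) .nil)))))))))))))))))) .leaf) (nat_lit 43009) (nat_lit 113) (.p (nat_lit 93) (nat_lit 18) .z) .df .leaf) (nat_lit 43011) (nat_lit 160) (.p (nat_lit 116) (nat_lit 18) .z) .df (.nd .leaf (nat_lit 43016) (nat_lit 381) (.n (nat_lit 189) (nat_lit 9) (.p (nat_lit 190) (nat_lit 27) (.n (nat_lit 191) (nat_lit 27) (.n (nat_lit 192) (nat_lit 6) (.n (nat_lit 193) (nat_lit 42) (.p (nat_lit 194) (nat_lit 51) (.n (nat_lit 195) (nat_lit 6) (.p (nat_lit 196) (nat_lit 21)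 (.p (nat_lit 197) (nat_lit 30) (.n (nat_lit 198) (nat_lit 36) (.p (nat_lit 199) (nat_lit 21) (.n (nat_lit 200) (nat_lit 36) (.p (nat_lit 201) (nat_lit 12) (.p (nat_lit 202) (nat_lit 9) (.n (nat_lit 203) (nat_lit 42) (.p (nat_lit 204) (nat_lit 15) (.n (nat_lit 205) (nat_lit 27) (.n (nat_lit 206) (nat_lit 45) (.p (nat_lit 207) (nat_lit 9) (.n (nat_lit 208) (nat_lit 57) (.p (nat_lit 210) (nat_lit 33) (.p (nat_lit 211) (nat_lit 66) (.n (nat_lit 212) (nat_lit 87) (.n (nat_lit 213) (nat_lit 60) (.p (nat_lit 214) (nat_lit 15) (.n (nat_lit 215) (nat_lit 84) (.p (nat_lit 216) (nat_lit 90) (.n (nat_lit 218) (nat_lit 36) (.p (nat_lit 219) (nat_lit 63) (.n (nat_lit 220) (nat_lit 72) (.p (nat_lit 221) (nat_lit 45) (.p (nat_lit 222) (nat_lit 72) (.n (nat_lit 223) (nat_lit 45) (.n (nat_lit 224) (nat_lit 81) (.p (nat_lit 225) (nat_lit 45) (.n (nat_lit 226) (nat_lit 45) (.p (nat_lit 227) (nat_lit 36) (.n (nat_lit 228) (nat_lit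 27) (.p (nat_lit 229) (nat_lit 18) (.n (nat_lit 230) (nat_lit 18) (.p (nat_lit 231) (nat_lit 36) (.n (nat_lit 232) (nat_lit 9) (.p (nat_lit 235) (nat_lit 9) (.n (nat_lit 236) (nat_lit 36) (.p (nat_lit 237) (nat_lit 36) (.p (nat_lit 238) (nat_lit 18) (.p (nat_lit 239) (nat_lit 36) (.n (nat_lit 240) (nat_lit 36) .z)))))))))))))))))))))))))))))))))))))))))))))))) (.ct dr2_c4626 (nat_lit 18) (nat_lit 7) (.s false (nat_lit 1) (nat_lit 8) (nat_lit 3) (nat_lit 2) (nat_lit 4) true (nat_lit 1) true (nat_lit 11) true (nat_lit 7) true (nat_lit 12) true (nat_lit 13) (.s false (nat_lit 1) (nat_lit 8) (nat_lit 4) (nat_lit 2) (nat_lit 3) true (nat_lit 1) true (nat_lit 12) true (nat_lit 7) true (nat_lit 11) true (nat_lit 13) (.e false (nat_lit 18) (nat_lit 73) (nat_lit 4) (nat_lit 11) dr2_i36)))) .leaf)))) (nat_lit 43018) (nat_lit 536) (.p (nat_lit 262) (nat_lit 32) (.p (nat_lit 263) (nat_lit 116) (.n (nat_lit 264) (nat_lit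 8) (.n (nat_lit 265) (nat_lit 28) (.p (nat_lit 266) (nat_lit 20) (.p (nat_lit 267) (nat_lit 26) (.n (nat_lit 268) (nat_lit 6) (.n (nat_lit 269) (nat_lit 94) (.p (nat_lit 270) (nat_lit 48) (.n (nat_lit 271) (nat_lit 22) (.n (nat_lit 272) (nat_lit 60) (.n (nat_lit 273) (nat_lit 28) (.n (nat_lit 274) (nat_lit 80) (.p (nat_lit 275) (nat_lit 24) (.p (nat_lit 276) (nat_lit 90) (.n (nat_lit 277) (nat_lit 84) (.p (nat_lit 278) (nat_lit 82) (.n (nat_lit 280) (nat_lit 80) (.n (nat_lit 281) (nat_lit 88) (.p (nat_lit 282) (nat_lit 140) (.p (nat_lit 283) (nat_lit 32) (.n (nat_lit 284) (nat_lit 2) (.p (nat_lit 285) (nat_lit 124) (.p (nat_lit 286) (nat_lit 90) (.p (nat_lit 287) (nat_lit 18) (.p (nat_lit 288) (nat_lit 36) (.n (nat_lit 289) (nat_lit 108) (.p (nat_lit 290) (nat_lit 132) (.p (nat_lit 291) (nat_lit 30) (.p (nat_lit 292) (nat_lit 60) (.p (nat_lit 293) (nat_lit 54) (.p (nat_lit 294) (nat_lit 12) (.n (nat_lit 295)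 (nat_lit 30) (.p (nat_lit 297) (nat_lit 54) (.p (nat_lit 298) (nat_lit 84) (.n (nat_lit 300) (nat_lit 30) (.n (nat_lit 301) (nat_lit 6) (.p (nat_lit 302) (nat_lit 30) (.n (nat_lit 303) (nat_lit 24) (.n (nat_lit 304) (nat_lit 54) (.n (nat_lit 305) (nat_lit 54) (.p (nat_lit 306) (nat_lit 78) (.n (nat_lit 307) (nat_lit 24) (.n (nat_lit 308) (nat_lit 84) .z)))))))))))))))))))))))))))))))))))))))))))) (.ct dr2_c4371 (nat_lit 18) (nat_lit 4) (.s true (nat_lit 1) (nat_lit 10) (nat_lit 3) (nat_lit 2) (nat_lit 4) true (nat_lit 2) true (nat_lit 10) true (nat_lit 4) true (nat_lit 11) true (nat_lit 12) (.s false (nat_lit 1) (nat_lit 16) (nat_lit 3) (nat_lit 3) (nat_lit 2) true (nat_lit 5) true (nat_lit 12) true (nat_lit 2) true (nat_lit 11) true (nat_lit 11) (.e true (nat_lit 18) (nat_lit 84) (nat_lit 4) (nat_lit 10) (.e true (nat_lit 18) (nat_lit 46) (nat_lit 10) (nat_lit 4) (.e false (nat_lit 18) (nat_lit 48) (nat_lit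 10) (nat_lit 4) (.e false (nat_lit 18) (nat_lit 50) (nat_lit 10) (nat_lit 4) (.e false (nat_lit 30) (nat_lit 115) (nat_lit 3) (nat_lit 11) dr2_i71)))))))) (.nd (.nd (.nd (.nd (.nd .leaf (nat_lit 44033) (nat_lit 114) (.p (nat_lit 94) (nat_lit 18) .z) .df .leaf) (nat_lit 44035) (nat_lit 161) (.p (nat_lit 117) (nat_lit 18) .z) .df .leaf) (nat_lit 44040) (nat_lit 350) (.n (nat_lit 189) (nat_lit 54) (.p (nat_lit 190) (nat_lit 54) (.n (nat_lit 191) (nat_lit 54) (.n (nat_lit 192) (nat_lit 6) (.n (nat_lit 193) (nat_lit 42) (.n (nat_lit 194) (nat_lit 48) (.n (nat_lit 195) (nat_lit 60) (.p (nat_lit 196) (nat_lit 12) (.n (nat_lit 197) (nat_lit 60) (.p (nat_lit 198) (nat_lit 18) (.p (nat_lit 199) (nat_lit 30) (.p (nat_lit 200) (nat_lit 18) (.p (nat_lit 201) (nat_lit 12) (.n (nat_lit 202) (nat_lit 54) (.p (nat_lit 203) (nat_lit 48) (.n (nat_lit 204) (nat_lit 12) (.p (nat_lit 205) (nat_lit 18) (.p (nat_lit 206) (nat_lit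 54) (.n (nat_lit 207) (nat_lit 54) (.p (nat_lit 208) (nat_lit 60) (.n (nat_lit 210) (nat_lit 12) (.n (nat_lit 211) (nat_lit 60) (.p (nat_lit 212) (nat_lit 48) (.p (nat_lit 213) (nat_lit 30) (.p (nat_lit 214) (nat_lit 6) (.p (nat_lit 215) (nat_lit 132) (.n (nat_lit 218) (nat_lit 36) (.p (nat_lit 228) (nat_lit 36) (.p (nat_lit 229) (nat_lit 36) (.n (nat_lit 230) (nat_lit 18) (.n (nat_lit 232) (nat_lit 36) (.p (nat_lit 235) (nat_lit 54) (.p (nat_lit 237) (nat_lit 18) (.n (nat_lit 238) (nat_lit 54) (.p (nat_lit 239) (nat_lit 36) .z))))))))))))))))))))))))))))))))))) (.ct dr2_c4626 (nat_lit 18) (nat_lit 7) (.s true (nat_lit 1) (nat_lit 6) (nat_lit 3) (nat_lit 4) (nat_lit 3) true (nat_lit 5) true (nat_lit 12) true (nat_lit 9) true (nat_lit 12) true (nat_lit 11) (.s true (nat_lit 1) (nat_lit 7) (nat_lit 6) (nat_lit 3) (nat_lit 1) true (nat_lit 2) true (nat_lit 14) true (nat_lit 8) true (nat_lit 9) true (nat_lit 12)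 (.s true (nat_lit 1) (nat_lit 8) (nat_lit 0) (nat_lit 6) (nat_lit 3) true (nat_lit 8) true (nat_lit 12) true (nat_lit 7) true (nat_lit 15) true (nat_lit 9) (.s true (nat_lit 1) (nat_lit 8) (nat_lit 4) (nat_lit 2) (nat_lit 3) true (nat_lit 1) true (nat_lit 12) true (nat_lit 7) true (nat_lit 11) true (nat_lit 13) (.s false (nat_lit 1) (nat_lit 8) (nat_lit 7) (nat_lit 1) (nat_lit 2) false (nat_lit 0) true (nat_lit 13) true (nat_lit 7) true (nat_lit 8) true (nat_lit 14) (.s true (nat_lit 1) (nat_lit 9) (nat_lit 4) (nat_lit 3) (nat_lit 1) true (nat_lit 4) true (nat_lit 14) true (nat_lit 6) true (nat_lit 11) true (nat_lit 12) dr2_i10))))))) (.nd .leaf (nat_lit 44042) (nat_lit 548) (.n (nat_lit 262) (nat_lit 40) (.n (nat_lit 263) (nat_lit 262) (.p (nat_lit 264) (nat_lit 10) (.p (nat_lit 265) (nat_lit 44) (.n (nat_lit 266) (nat_lit 106) (.n (nat_lit 267) (nat_lit 100) (.p (nat_lit 268) (nat_lit 84) (.p (nat_lit 269)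 (nat_lit 248) (.n (nat_lit 270) (nat_lit 60) (.p (nat_lit 271) (nat_lit 122) (.p (nat_lit 272) (nat_lit 156) (.p (nat_lit 273) (nat_lit 44) (.p (nat_lit 274) (nat_lit 154) (.n (nat_lit 275) (nat_lit 66) (.n (nat_lit 276) (nat_lit 234) (.p (nat_lit 277) (nat_lit 222) (.n (nat_lit 278) (nat_lit 188) (.p (nat_lit 280) (nat_lit 208) (.p (nat_lit 281) (nat_lit 218) (.n (nat_lit 282) (nat_lit 346) (.n (nat_lit 283) (nat_lit 76) (.p (nat_lit 284) (nat_lit 16) (.n (nat_lit 285) (nat_lit 290) (.n (nat_lit 286) (nat_lit 144) (.n (nat_lit 288) (nat_lit 108) (.p (nat_lit 289) (nat_lit 198) (.n (nat_lit 290) (nat_lit 246) (.n (nat_lit 291) (nat_lit 42) (.n (nat_lit 292) (nat_lit 138) (.n (nat_lit 293) (nat_lit 108) (.n (nat_lit 294) (nat_lit 24) (.p (nat_lit 295) (nat_lit 78) (.n (nat_lit 296) (nat_lit 36) (.n (nat_lit 297) (nat_lit 126) (.n (nat_lit 298) (nat_lit 168) (.n (nat_lit 299) (nat_lit 36) (.p (nat_lit 300) (nat_lit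 60) (.p (nat_lit 301) (nat_lit 30) (.n (nat_lit 302) (nat_lit 60) (.p (nat_lit 303) (nat_lit 66) (.p (nat_lit 304) (nat_lit 144) (.p (nat_lit 305) (nat_lit 126) (.n (nat_lit 306) (nat_lit 192) (.p (nat_lit 307) (nat_lit 12) (.p (nat_lit 308) (nat_lit 186) .z))))))))))))))))))))))))))))))))))))))))))))) (.ct dr2_c4371 (nat_lit 18) (nat_lit 4) (.s true (nat_lit 1) (nat_lit 14) (nat_lit 3) (nat_lit 3) (nat_lit 3) true (nat_lit 4) true (nat_lit 11) true (nat_lit 3) true (nat_lit 11) true (nat_lit 11) (.s false (nat_lit 1) (nat_lit 32) (nat_lit 1) (nat_lit 2) (nat_lit 0) true (nat_lit 10) true (nat_lit 14) false (nat_lit 3) true (nat_lit 13) true (nat_lit 12) (.e true (nat_lit 18) (nat_lit 117) (nat_lit 3) (nat_lit 11) (.e true (nat_lit 18) (nat_lit 118) (nat_lit 3) (nat_lit 11) (.e true (nat_lit 18) (nat_lit 119) (nat_lit 3) (nat_lit 11) (.e true (nat_lit 18) (nat_lit 120) (nat_lit 3) (nat_lit 11) (.e false (nat_lit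 18) (nat_lit 121) (nat_lit 3) (nat_lit 11) (.e false (nat_lit 18) (nat_lit 122) (nat_lit 3) (nat_lit 11) (.e false (nat_lit 18) (nat_lit 123) (nat_lit 3) (nat_lit 11) (.e false (nat_lit 36) (nat_lit 124) (nat_lit 3) (nat_lit 11) (.e false (nat_lit 18) (nat_lit 136) (nat_lit 3) (nat_lit 11) (.e false (nat_lit 18) (nat_lit 139) (nat_lit 3) (nat_lit 11) (.e true (nat_lit 18) (nat_lit 84) (nat_lit 4) (nat_lit 10) (.e false (nat_lit 18) (nat_lit 185) (nat_lit 0) (nat_lit 14) (.e true (nat_lit 18) (nat_lit 168) (nat_lit 1) (nat_lit 13) (.e false (nat_lit 18) (nat_lit 169) (nat_lit 1) (nat_lit 13) (.e true (nat_lit 18) (nat_lit 170) (nat_lit 1) (nat_lit 13) (.e false (nat_lit 18) (nat_lit 172) (nat_lit 1) (nat_lit 13) (.e false (nat_lit 18) (nat_lit 176) (nat_lit 1) (nat_lit 13) (.e true (nat_lit 18) (nat_lit 158) (nat_lit 2) (nat_lit 12) .nil))))))))))))))))))))) .leaf)) (nat_lit 45057) (nat_lit 115) (.p (nat_lit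 95) (nat_lit 18) .z) .df (.nd (.nd (.nd .leaf (nat_lit 45059) (nat_lit 162) (.p (nat_lit 118) (nat_lit 18) .z) .df .leaf) (nat_lit 45064) (nat_lit 372) (.n (nat_lit 189) (nat_lit 54) (.p (nat_lit 190) (nat_lit 90) (.n (nat_lit 191) (nat_lit 90) (.n (nat_lit 192) (nat_lit 6) (.p (nat_lit 193) (nat_lit 48) (.p (nat_lit 194) (nat_lit 78) (.p (nat_lit 195) (nat_lit 102) (.p (nat_lit 196) (nat_lit 84) (.p (nat_lit 197) (nat_lit 120) (.n (nat_lit 198) (nat_lit 72) (.n (nat_lit 199) (nat_lit 96) (.n (nat_lit 200) (nat_lit 72) (.n (nat_lit 201) (nat_lit 150) (.n (nat_lit 202) (nat_lit 36) (.n (nat_lit 203) (nat_lit 60) (.p (nat_lit 204) (nat_lit 42) (.n (nat_lit 205) (nat_lit 54) (.p (nat_lit 206) (nat_lit 18) (.n (nat_lit 207) (nat_lit 18) (.p (nat_lit 208) (nat_lit 24) (.n (nat_lit 210) (nat_lit 12) (.p (nat_lit 211) (nat_lit 12) (.p (nat_lit 212) (nat_lit 12) (.n (nat_lit 213) (nat_lit 78) (.p (nat_lit 214) (nat_lit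 6) (.p (nat_lit 215) (nat_lit 6) (.p (nat_lit 216) (nat_lit 36) (.p (nat_lit 219) (nat_lit 18) (.p (nat_lit 220) (nat_lit 18) (.p (nat_lit 221) (nat_lit 18) (.n (nat_lit 222) (nat_lit 18) (.n (nat_lit 223) (nat_lit 18) (.n (nat_lit 224) (nat_lit 108) (.p (nat_lit 225) (nat_lit 72) (.n (nat_lit 226) (nat_lit 72) (.p (nat_lit 227) (nat_lit 36) (.n (nat_lit 228) (nat_lit 18) (.n (nat_lit 229) (nat_lit 54) (.p (nat_lit 231) (nat_lit 18) (.n (nat_lit 232) (nat_lit 18) (.p (nat_lit 235) (nat_lit 54) (.n (nat_lit 236) (nat_lit 36) (.p (nat_lit 237) (nat_lit 72) (.n (nat_lit 238) (nat_lit 18) (.n (nat_lit 239) (nat_lit 54) (.n (nat_lit 240) (nat_lit 36) .z)))))))))))))))))))))))))))))))))))))))))))))) (.ct dr2_c4626 (nat_lit 18) (nat_lit 7) (.s false (nat_lit 1) (nat_lit 8) (nat_lit 2) (nat_lit 3) (nat_lit 4) true (nat_lit 3) true (nat_lit 11) true (nat_lit 7) true (nat_lit 13) true (nat_lit 12) (.s false (nat_lit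 1) (nat_lit 8) (nat_lit 3) (nat_lit 2) (nat_lit 4) true (nat_lit 1) true (nat_lit 11) true (nat_lit 7) true (nat_lit 12) true (nat_lit 13) dr2_i33))) .leaf) (nat_lit 45066) (nat_lit 550) (.n (nat_lit 262) (nat_lit 6) (.n (nat_lit 263) (nat_lit 6) (.p (nat_lit 264) (nat_lit 6) (.p (nat_lit 265) (nat_lit 30) (.p (nat_lit 266) (nat_lit 12) (.n (nat_lit 267) (nat_lit 6) (.n (nat_lit 269) (nat_lit 6) (.n (nat_lit 271) (nat_lit 6) (.p (nat_lit 272) (nat_lit 36) (.n (nat_lit 273) (nat_lit 6) (.p (nat_lit 274) (nat_lit 6) (.p (nat_lit 278) (nat_lit 6) (.p (nat_lit 280) (nat_lit 6) (.n (nat_lit 281) (nat_lit 6) (.n (nat_lit 282) (nat_lit 6) (.n (nat_lit 283) (nat_lit 6) (.p (nat_lit 284) (nat_lit 6) (.p (nat_lit 285) (nat_lit 6) (.p (nat_lit 286) (nat_lit 18) (.n (nat_lit 294) (nat_lit 18) (.p (nat_lit 306) (nat_lit 18) .z))))))))))))))))))))) (.ct dr2_c4371 (nat_lit 18) (nat_lit 4) (.s false (nat_lit 1) (nat_lit 16)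 (nat_lit 2) (nat_lit 3) (nat_lit 3) true (nat_lit 5) true (nat_lit 11) true (nat_lit 2) true (nat_lit 12) true (nat_lit 11) (.s false (nat_lit 1) (nat_lit 16) (nat_lit 3) (nat_lit 2) (nat_lit 3) true (nat_lit 4) true (nat_lit 11) true (nat_lit 2) true (nat_lit 11) true (nat_lit 12) (.e false (nat_lit 18) (nat_lit 55) (nat_lit 9) (nat_lit 5) (.e false (nat_lit 30) (nat_lit 118) (nat_lit 3) (nat_lit 11) (.e true (nat_lit 18) (nat_lit 160) (nat_lit 2) (nat_lit 12) (.e false (nat_lit 36) (nat_lit 125) (nat_lit 3) (nat_lit 11) (.e true (nat_lit 6) (nat_lit 115) (nat_lit 3) (nat_lit 11) (.e true (nat_lit 6) (nat_lit 116) (nat_lit 3) (nat_lit 11) (.e false (nat_lit 6) (nat_lit 117) (nat_lit 3) (nat_lit 11) (.e false (nat_lit 12) (nat_lit 119) (nat_lit 3) (nat_lit 11) (.e true (nat_lit 6) (nat_lit 120) (nat_lit 3) (nat_lit 11) (.e true (nat_lit 6) (nat_lit 122) (nat_lit 3) (nat_lit 11) (.e true (nat_lit 6) (nat_lit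 124) (nat_lit 3) (nat_lit 11) (.e true (nat_lit 6) (nat_lit 126) (nat_lit 3) (nat_lit 11) (.e false (nat_lit 6) (nat_lit 127) (nat_lit 3) (nat_lit 11) (.e false (nat_lit 6) (nat_lit 131) (nat_lit 3) (nat_lit 11) (.e false (nat_lit 6) (nat_lit 133) (nat_lit 3) (nat_lit 11) (.e true (nat_lit 6) (nat_lit 134) (nat_lit 3) (nat_lit 11) (.e true (nat_lit 6) (nat_lit 135) (nat_lit 3) (nat_lit 11) (.e true (nat_lit 6) (nat_lit 136) (nat_lit 3) (nat_lit 11) (.e false (nat_lit 6) (nat_lit 138) (nat_lit 3) (nat_lit 11) (.e false (nat_lit 6) (nat_lit 139) (nat_lit 3) (nat_lit 11) (.e false (nat_lit 18) (nat_lit 151) (nat_lit 2) (nat_lit 12) .nil)))))))))))))))))))))))) (.nd .leaf (nat_lit 46081) (nat_lit 116) (.p (nat_lit 96) (nat_lit 18) .z) .df .leaf))) (nat_lit 46083) (nat_lit 163) (.p (nat_lit 119) (nat_lit 18) .z) .df (.nd (.nd (.nd (.nd .leaf (nat_lit 46088) (nat_lit 369) (.p (nat_lit 189) (nat_lit 18) (.n (nat_lit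 190) (nat_lit 18) (.p (nat_lit 191) (nat_lit 18) (.p (nat_lit 194) (nat_lit 18) (.p (nat_lit 195) (nat_lit 18) (.p (nat_lit 196) (nat_lit 18) (.p (nat_lit 197) (nat_lit 18) (.n (nat_lit 198) (nat_lit 18) (.n (nat_lit 200) (nat_lit 18) (.n (nat_lit 203) (nat_lit 18) (.n (nat_lit 205) (nat_lit 18) (.n (nat_lit 208) (nat_lit 18) (.p (nat_lit 211) (nat_lit 18) (.n (nat_lit 212) (nat_lit 18) (.n (nat_lit 215) (nat_lit 18) (.p (nat_lit 218) (nat_lit 18) (.n (nat_lit 228) (nat_lit 18) (.n (nat_lit 235) (nat_lit 18) (.p (nat_lit 238) (nat_lit 18) .z))))))))))))))))))) (.ct dr2_c4626 (nat_lit 18) (nat_lit 7) (.s true (nat_lit 1) (nat_lit 17) (nat_lit 1) (nat_lit 2) (nat_lit 3) true (nat_lit 7) true (nat_lit 12) true (nat_lit 1) true (nat_lit 14) true (nat_lit 13) (.s false (nat_lit 1) (nat_lit 23) (nat_lit 0) (nat_lit 3) (nat_lit 1) true (nat_lit 11) true (nat_lit 14) false (nat_lit 1) true (nat_lit 15) true (nat_lit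 12) (.e true (nat_lit 18) (nat_lit 90) (nat_lit 3) (nat_lit 12) (.e false (nat_lit 18) (nat_lit 117) (nat_lit 1) (nat_lit 14) (.e false (nat_lit 18) (nat_lit 118) (nat_lit 1) (nat_lit 14) (.e false (nat_lit 18) (nat_lit 119) (nat_lit 1) (nat_lit 14) (.e false (nat_lit 18) (nat_lit 120) (nat_lit 1) (nat_lit 14) (.e true (nat_lit 18) (nat_lit 121) (nat_lit 1) (nat_lit 14) (.e true (nat_lit 18) (nat_lit 123) (nat_lit 1) (nat_lit 14) (.e true (nat_lit 18) (nat_lit 126) (nat_lit 1) (nat_lit 14) (.e true (nat_lit 18) (nat_lit 128) (nat_lit 1) (nat_lit 14) (.e true (nat_lit 18) (nat_lit 131) (nat_lit 1) (nat_lit 14) (.e false (nat_lit 18) (nat_lit 134) (nat_lit 1) (nat_lit 14) (.e true (nat_lit 18) (nat_lit 135) (nat_lit 1) (nat_lit 14) (.e true (nat_lit 18) (nat_lit 139) (nat_lit 1) (nat_lit 14) (.e false (nat_lit 18) (nat_lit 108) (nat_lit 2) (nat_lit 13) (.e false (nat_lit 18) (nat_lit 70) (nat_lit 4) (nat_lit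 11) (.e false (nat_lit 18) (nat_lit 141) (nat_lit 0) (nat_lit 15) (.e true (nat_lit 18) (nat_lit 146) (nat_lit 0) (nat_lit 15) (.e false (nat_lit 18) (nat_lit 147) (nat_lit 0) (nat_lit 15) (.e true (nat_lit 18) (nat_lit 102) (nat_lit 3) (nat_lit 12) .nil)))))))))))))))))))))) .leaf) (nat_lit 46090) (nat_lit 540) (.n (nat_lit 262) (nat_lit 20) (.n (nat_lit 263) (nat_lit 68) (.p (nat_lit 264) (nat_lit 14) (.p (nat_lit 265) (nat_lit 22) (.p (nat_lit 266) (nat_lit 28) (.n (nat_lit 267) (nat_lit 14) (.p (nat_lit 268) (nat_lit 6) (.p (nat_lit 269) (nat_lit 52) (.n (nat_lit 270) (nat_lit 30) (.n (nat_lit 271) (nat_lit 2) (.p (nat_lit 272) (nat_lit 6) (.p (nat_lit 273) (nat_lit 22) (.p (nat_lit 274) (nat_lit 32) (.n (nat_lit 275) (nat_lit 24) (.n (nat_lit 276) (nat_lit 36) (.p (nat_lit 277) (nat_lit 30) (.n (nat_lit 278) (nat_lit 40) (.p (nat_lit 280) (nat_lit 50) (.p (nat_lit 281) (nat_lit 46) (.n (nat_lit 282) (nat_lit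 92) (.n (nat_lit 283) (nat_lit 20) (.p (nat_lit 284) (nat_lit 8) (.n (nat_lit 285) (nat_lit 46) (.n (nat_lit 286) (nat_lit 54) (.n (nat_lit 288) (nat_lit 18) (.p (nat_lit 289) (nat_lit 54) (.n (nat_lit 290) (nat_lit 60) (.n (nat_lit 291) (nat_lit 12) (.n (nat_lit 292) (nat_lit 24) (.n (nat_lit 293) (nat_lit 36) (.p (nat_lit 294) (nat_lit 6) (.p (nat_lit 295) (nat_lit 12) (.n (nat_lit 296) (nat_lit 18) (.n (nat_lit 297) (nat_lit 36) (.n (nat_lit 298) (nat_lit 30) (.n (nat_lit 299) (nat_lit 18) (.p (nat_lit 300) (nat_lit 12) (.p (nat_lit 301) (nat_lit 6) (.n (nat_lit 302) (nat_lit 12) (.p (nat_lit 303) (nat_lit 24) (.p (nat_lit 304) (nat_lit 36) (.p (nat_lit 305) (nat_lit 36) (.n (nat_lit 306) (nat_lit 60) (.p (nat_lit 307) (nat_lit 6) (.p (nat_lit 308) (nat_lit 48) .z))))))))))))))))))))))))))))))))))))))))))))) (.ct dr2_c4371 (nat_lit 18) (nat_lit 4) (.s true (nat_lit 1) (nat_lit 9) (nat_lit 1) (nat_lit 3)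 (nat_lit 7) true (nat_lit 2) true (nat_lit 7) true (nat_lit 5) true (nat_lit 13) true (nat_lit 11) (.s false (nat_lit 1) (nat_lit 17) (nat_lit 3) (nat_lit 2) (nat_lit 3) true (nat_lit 4) true (nat_lit 11) true (nat_lit 2) true (nat_lit 11) true (nat_lit 12) (.e true (nat_lit 18) (nat_lit 72) (nat_lit 7) (nat_lit 7) (.e true (nat_lit 18) (nat_lit 55) (nat_lit 9) (nat_lit 5) (.e true (nat_lit 18) (nat_lit 56) (nat_lit 9) (nat_lit 5) (.e false (nat_lit 18) (nat_lit 59) (nat_lit 9) (nat_lit 5) (.e true (nat_lit 18) (nat_lit 60) (nat_lit 9) (nat_lit 5) (.e true (nat_lit 18) (nat_lit 177) (nat_lit 1) (nat_lit 13) (.e false (nat_lit 18) (nat_lit 132) (nat_lit 3) (nat_lit 11) (.e false (nat_lit 18) (nat_lit 117) (nat_lit 3) (nat_lit 11) (.e false (nat_lit 18) (nat_lit 118) (nat_lit 3) (nat_lit 11) (.e false (nat_lit 18) (nat_lit 119) (nat_lit 3) (nat_lit 11) (.e false (nat_lit 18) (nat_lit 120) (nat_lit 3) (nat_lit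 11) (.e true (nat_lit 18) (nat_lit 121) (nat_lit 3) (nat_lit 11) (.e true (nat_lit 18) (nat_lit 123) (nat_lit 3) (nat_lit 11) (.e true (nat_lit 18) (nat_lit 124) (nat_lit 3) (nat_lit 11) (.e true (nat_lit 18) (nat_lit 128) (nat_lit 3) (nat_lit 11) (.e true (nat_lit 18) (nat_lit 139) (nat_lit 3) (nat_lit 11) (.e false (nat_lit 18) (nat_lit 152) (nat_lit 2) (nat_lit 12) .nil)))))))))))))))))))) .leaf) (nat_lit 47105) (nat_lit 117) (.p (nat_lit 97) (nat_lit 18) .z) .df (.nd .leaf (nat_lit 47107) (nat_lit 164) (.p (nat_lit 120) (nat_lit 18) .z) .df .leaf)) (nat_lit 47112) (nat_lit 345) (.p (nat_lit 240) (nat_lit 18) .z) .df (.nd (.nd .leaf (nat_lit 47114) (nat_lit 535) (.n (nat_lit 262) (nat_lit 8) (.n (nat_lit 263) (nat_lit 38) (.p (nat_lit 264) (nat_lit 20) (.n (nat_lit 265) (nat_lit 2) (.p (nat_lit 266) (nat_lit 22) (.p (nat_lit 267) (nat_lit 16) (.n (nat_lit 268) (nat_lit 12) (.p (nat_lit 269) (nat_lit 46)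 (.n (nat_lit 270) (nat_lit 30) (.p (nat_lit 271) (nat_lit 10) (.p (nat_lit 272) (nat_lit 24) (.p (nat_lit 273) (nat_lit 16) (.p (nat_lit 274) (nat_lit 56) (.n (nat_lit 275) (nat_lit 42) (.n (nat_lit 276) (nat_lit 36) (.p (nat_lit 277) (nat_lit 48) (.n (nat_lit 278) (nat_lit 52) (.p (nat_lit 280) (nat_lit 20) (.p (nat_lit 281) (nat_lit 58) (.n (nat_lit 282) (nat_lit 80) (.n (nat_lit 283) (nat_lit 8) (.n (nat_lit 284) (nat_lit 4) (.n (nat_lit 285) (nat_lit 76) (.n (nat_lit 286) (nat_lit 54) (.n (nat_lit 287) (nat_lit 36) (.p (nat_lit 289) (nat_lit 72) (.n (nat_lit 290) (nat_lit 78) (.n (nat_lit 291) (nat_lit 30) (.n (nat_lit 292) (nat_lit 24) (.n (nat_lit 293) (nat_lit 36) (.p (nat_lit 294) (nat_lit 6) (.p (nat_lit 295) (nat_lit 12) (.n (nat_lit 297) (nat_lit 36) (.n (nat_lit 298) (nat_lit 48) (.p (nat_lit 300) (nat_lit 30) (.p (nat_lit 301) (nat_lit 24) (.n (nat_lit 302) (nat_lit 30) (.p (nat_lit 303) (nat_lit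 6) (.p (nat_lit 304) (nat_lit 18) (.p (nat_lit 305) (nat_lit 36) (.n (nat_lit 306) (nat_lit 42) (.p (nat_lit 307) (nat_lit 6) (.p (nat_lit 308) (nat_lit 66) .z))))))))))))))))))))))))))))))))))))))))))) (.ct dr2_c4371 (nat_lit 18) (nat_lit 4) (.s false (nat_lit 1) (nat_lit 18) (nat_lit 2) (nat_lit 3) (nat_lit 3) true (nat_lit 5) true (nat_lit 11) true (nat_lit 2) true (nat_lit 12) true (nat_lit 11) (.s false (nat_lit 1) (nat_lit 18) (nat_lit 3) (nat_lit 2) (nat_lit 3) true (nat_lit 4) true (nat_lit 11) true (nat_lit 2) true (nat_lit 11) true (nat_lit 12) dr2_i70))) .leaf) (nat_lit 48129) (nat_lit 126) (.p (nat_lit 85) (nat_lit 18) (.p (nat_lit 88) (nat_lit 18) (.n (nat_lit 89) (nat_lit 18) (.n (nat_lit 91) (nat_lit 18) (.n (nat_lit 92) (nat_lit 18) (.n (nat_lit 93) (nat_lit 18) (.p (nat_lit 94) (nat_lit 18) (.p (nat_lit 95) (nat_lit 18) (.p (nat_lit 96) (nat_lit 36) (.n (nat_lit 99) (nat_lit 36) (.n (nat_lit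 100) (nat_lit 18) (.p (nat_lit 101) (nat_lit 18) (.n (nat_lit 102) (nat_lit 18) .z))))))))))))) (.ct dr2_c4625 (nat_lit 18) (nat_lit 8) (.s false (nat_lit 1) (nat_lit 7) (nat_lit 1) (nat_lit 2) (nat_lit 1) false (nat_lit 10) true (nat_lit 8) true (nat_lit 2) true (nat_lit 8) true (nat_lit 7) (.e false (nat_lit 36) (nat_lit 45) (nat_lit 1) (nat_lit 8) (.e true (nat_lit 18) (nat_lit 15) (nat_lit 7) (nat_lit 2) (.e false (nat_lit 18) (nat_lit 43) (nat_lit 1) (nat_lit 8) (.e false (nat_lit 18) (nat_lit 44) (nat_lit 1) (nat_lit 8) (.e false (nat_lit 18) (nat_lit 46) (nat_lit 1) (nat_lit 8) (.e true (nat_lit 18) (nat_lit 48) (nat_lit 1) (nat_lit 8) (.e true (nat_lit 18) (nat_lit 49) (nat_lit 1) (nat_lit 8) (.e true (nat_lit 18) (nat_lit 50) (nat_lit 1) (nat_lit 8) (.e true (nat_lit 18) (nat_lit 39) (nat_lit 2) (nat_lit 7) .nil))))))))))) (.nd .leaf (nat_lit 48131) (nat_lit 165) (.p (nat_lit 121) (nat_lit 18) .z)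 .df .leaf))))) (nat_lit 48136) (nat_lit 363) (.n (nat_lit 189) (nat_lit 54) (.p (nat_lit 190) (nat_lit 54) (.n (nat_lit 191) (nat_lit 54) (.p (nat_lit 192) (nat_lit 6) (.p (nat_lit 193) (nat_lit 24) (.n (nat_lit 194) (nat_lit 42) (.p (nat_lit 195) (nat_lit 6) (.n (nat_lit 196) (nat_lit 12) (.n (nat_lit 197) (nat_lit 30) (.p (nat_lit 198) (nat_lit 54) (.n (nat_lit 199) (nat_lit 30) (.p (nat_lit 200) (nat_lit 36) (.n (nat_lit 201) (nat_lit 48) (.n (nat_lit 202) (nat_lit 36) (.p (nat_lit 203) (nat_lit 60) (.n (nat_lit 204) (nat_lit 6) (.p (nat_lit 205) (nat_lit 36) (.p (nat_lit 206) (nat_lit 54) (.n (nat_lit 207) (nat_lit 36) (.p (nat_lit 208) (nat_lit 102) (.n (nat_lit 210) (nat_lit 6) (.n (nat_lit 211) (nat_lit 102) (.p (nat_lit 212) (nat_lit 114) (.p (nat_lit 213) (nat_lit 24) (.n (nat_lit 214) (nat_lit 6) (.p (nat_lit 215) (nat_lit 120) (.n (nat_lit 216) (nat_lit 72) (.n (nat_lit 219) (nat_lit 54) (.p (nat_lit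 220) (nat_lit 36) (.n (nat_lit 221) (nat_lit 18) (.n (nat_lit 222) (nat_lit 72) (.p (nat_lit 223) (nat_lit 36) (.p (nat_lit 224) (nat_lit 36) (.n (nat_lit 225) (nat_lit 18) (.p (nat_lit 226) (nat_lit 18) (.n (nat_lit 227) (nat_lit 18) (.p (nat_lit 228) (nat_lit 54) (.n (nat_lit 229) (nat_lit 18) (.n (nat_lit 231) (nat_lit 36) (.n (nat_lit 232) (nat_lit 18) (.n (nat_lit 233) (nat_lit 18) (.p (nat_lit 234) (nat_lit 18) (.p (nat_lit 235) (nat_lit 54) (.p (nat_lit 236) (nat_lit 18) (.n (nat_lit 238) (nat_lit 72) (.n (nat_lit 239) (nat_lit 18) (.p (nat_lit 240) (nat_lit 36) .z))))))))))))))))))))))))))))))))))))))))))))))) (.ct dr2_c4626 (nat_lit 18) (nat_lit 7) (.s true (nat_lit 1) (nat_lit 20) (nat_lit 1) (nat_lit 1) (nat_lit 3) true (nat_lit 7) true (nat_lit 12) false (nat_lit 0) true (nat_lit 14) true (nat_lit 14) (.e true (nat_lit 18) (nat_lit 85) (nat_lit 3) (nat_lit 12) (.e true (nat_lit 18) (nat_lit 88)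 (nat_lit 3) (nat_lit 12) (.e false (nat_lit 18) (nat_lit 89) (nat_lit 3) (nat_lit 12) (.e false (nat_lit 18) (nat_lit 91) (nat_lit 3) (nat_lit 12) (.e false (nat_lit 18) (nat_lit 92) (nat_lit 3) (nat_lit 12) (.e false (nat_lit 18) (nat_lit 93) (nat_lit 3) (nat_lit 12) (.e true (nat_lit 18) (nat_lit 94) (nat_lit 3) (nat_lit 12) (.e true (nat_lit 18) (nat_lit 95) (nat_lit 3) (nat_lit 12) dr2_i27)))))))))) (.nd (.nd (.nd (.nd (.nd (.nd .leaf (nat_lit 48138) (nat_lit 547) (.n (nat_lit 262) (nat_lit 14) (.n (nat_lit 263) (nat_lit 62) (.n (nat_lit 264) (nat_lit 10) (.p (nat_lit 265) (nat_lit 28) (.n (nat_lit 266) (nat_lit 38) (.n (nat_lit 267) (nat_lit 8) (.p (nat_lit 268) (nat_lit 42) (.p (nat_lit 269) (nat_lit 76) (.n (nat_lit 270) (nat_lit 30) (.p (nat_lit 271) (nat_lit 22) (.p (nat_lit 272) (nat_lit 42) (.p (nat_lit 273) (nat_lit 10) (.p (nat_lit 274) (nat_lit 62) (.n (nat_lit 275) (nat_lit 6) (.n (nat_lit 276)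 (nat_lit 54) (.p (nat_lit 277) (nat_lit 30) (.n (nat_lit 278) (nat_lit 28) (.p (nat_lit 280) (nat_lit 44) (.p (nat_lit 281) (nat_lit 52) (.n (nat_lit 282) (nat_lit 68) (.n (nat_lit 283) (nat_lit 14) (.p (nat_lit 284) (nat_lit 2) (.n (nat_lit 285) (nat_lit 70) (.n (nat_lit 286) (nat_lit 54) (.n (nat_lit 288) (nat_lit 36) (.p (nat_lit 289) (nat_lit 72) (.n (nat_lit 290) (nat_lit 96) (.n (nat_lit 291) (nat_lit 12) (.n (nat_lit 292) (nat_lit 42) (.n (nat_lit 293) (nat_lit 36) (.n (nat_lit 294) (nat_lit 30) (.p (nat_lit 295) (nat_lit 12) (.n (nat_lit 297) (nat_lit 36) (.n (nat_lit 298) (nat_lit 48) (.p (nat_lit 300) (nat_lit 12) (.p (nat_lit 301) (nat_lit 6) (.n (nat_lit 302) (nat_lit 12) (.p (nat_lit 303) (nat_lit 24) (.p (nat_lit 304) (nat_lit 36) (.p (nat_lit 305) (nat_lit 36) (.n (nat_lit 306) (nat_lit 42) (.p (nat_lit 307) (nat_lit 24) (.p (nat_lit 308) (nat_lit 48) .z)))))))))))))))))))))))))))))))))))))))))))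 (.ct dr2_c4371 (nat_lit 18) (nat_lit 4) (.s false (nat_lit 1) (nat_lit 20) (nat_lit 1) (nat_lit 3) (nat_lit 3) true (nat_lit 6) true (nat_lit 11) true (nat_lit 1) true (nat_lit 13) true (nat_lit 11) dr2_i74)) .leaf) (nat_lit 49153) (nat_lit 118) (.p (nat_lit 98) (nat_lit 18) .z) .df .leaf) (nat_lit 49155) (nat_lit 166) (.p (nat_lit 122) (nat_lit 18) .z) .df (.nd .leaf (nat_lit 49160) (nat_lit 374) (.n (nat_lit 194) (nat_lit 18) (.n (nat_lit 195) (nat_lit 18) (.n (nat_lit 197) (nat_lit 18) (.p (nat_lit 198) (nat_lit 18) (.p (nat_lit 199) (nat_lit 18) (.p (nat_lit 200) (nat_lit 18) (.p (nat_lit 201) (nat_lit 18) (.n (nat_lit 202) (nat_lit 18) (.p (nat_lit 206) (nat_lit 18) (.n (nat_lit 207) (nat_lit 18) (.n (nat_lit 210) (nat_lit 18) (.p (nat_lit 215) (nat_lit 18) (.n (nat_lit 233) (nat_lit 18) .z))))))))))))) (.ct dr2_c4626 (nat_lit 18) (nat_lit 7) (.s true (nat_lit 1) (nat_lit 21) (nat_lit 1) (nat_lit 1) (nat_lit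 3) true (nat_lit 7) true (nat_lit 12) false (nat_lit 0) true (nat_lit 14) true (nat_lit 14) (.e true (nat_lit 18) (nat_lit 98) (nat_lit 3) (nat_lit 12) (.e true (nat_lit 18) (nat_lit 117) (nat_lit 1) (nat_lit 14) (.e true (nat_lit 18) (nat_lit 118) (nat_lit 1) (nat_lit 14) (.e true (nat_lit 18) (nat_lit 120) (nat_lit 1) (nat_lit 14) (.e false (nat_lit 18) (nat_lit 121) (nat_lit 1) (nat_lit 14) (.e false (nat_lit 18) (nat_lit 122) (nat_lit 1) (nat_lit 14) (.e false (nat_lit 18) (nat_lit 123) (nat_lit 1) (nat_lit 14) (.e false (nat_lit 18) (nat_lit 124) (nat_lit 1) (nat_lit 14) (.e true (nat_lit 18) (nat_lit 125) (nat_lit 1) (nat_lit 14) (.e false (nat_lit 18) (nat_lit 129) (nat_lit 1) (nat_lit 14) (.e true (nat_lit 18) (nat_lit 130) (nat_lit 1) (nat_lit 14) (.e true (nat_lit 18) (nat_lit 133) (nat_lit 1) (nat_lit 14) (.e false (nat_lit 18) (nat_lit 139) (nat_lit 1) (nat_lit 14) .nil))))))))))))))) .leaf)) (nat_lit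 49162) (nat_lit 534) (.p (nat_lit 262) (nat_lit 14) (.p (nat_lit 263) (nat_lit 26) (.p (nat_lit 264) (nat_lit 10) (.n (nat_lit 265) (nat_lit 10) (.p (nat_lit 266) (nat_lit 2) (.p (nat_lit 267) (nat_lit 8) (.n (nat_lit 268) (nat_lit 6) (.p (nat_lit 269) (nat_lit 14) (.p (nat_lit 270) (nat_lit 12) (.p (nat_lit 271) (nat_lit 14) (.p (nat_lit 272) (nat_lit 12) (.n (nat_lit 273) (nat_lit 10) (.n (nat_lit 274) (nat_lit 8) (.n (nat_lit 275) (nat_lit 12) (.p (nat_lit 277) (nat_lit 6) (.n (nat_lit 278) (nat_lit 26) (.n (nat_lit 280) (nat_lit 26) (.p (nat_lit 281) (nat_lit 20) (.n (nat_lit 282) (nat_lit 4) (.n (nat_lit 283) (nat_lit 4) (.n (nat_lit 284) (nat_lit 2) (.n (nat_lit 285) (nat_lit 38) (.n (nat_lit 287) (nat_lit 36) (.p (nat_lit 288) (nat_lit 36) (.n (nat_lit 289) (nat_lit 18) (.p (nat_lit 290) (nat_lit 24) (.n (nat_lit 291) (nat_lit 6) (.p (nat_lit 292) (nat_lit 24) (.p (nat_lit 293) (nat_lit 18) (.p (nat_lit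 294) (nat_lit 30) (.p (nat_lit 295) (nat_lit 6) (.p (nat_lit 297) (nat_lit 18) (.p (nat_lit 298) (nat_lit 12) (.p (nat_lit 300) (nat_lit 6) (.p (nat_lit 301) (nat_lit 12) (.n (nat_lit 302) (nat_lit 6) (.n (nat_lit 303) (nat_lit 24) (.n (nat_lit 304) (nat_lit 18) (.n (nat_lit 305) (nat_lit 18) (.p (nat_lit 306) (nat_lit 24) (.n (nat_lit 307) (nat_lit 6) (.n (nat_lit 308) (nat_lit 12) .z)))))))))))))))))))))))))))))))))))))))))) (.ct dr2_c4371 (nat_lit 18) (nat_lit 4) (.s true (nat_lit 1) (nat_lit 8) (nat_lit 2) (nat_lit 3) (nat_lit 7) true (nat_lit 1) true (nat_lit 7) true (nat_lit 6) true (nat_lit 12) true (nat_lit 11) (.s false (nat_lit 1) (nat_lit 21) (nat_lit 3) (nat_lit 1) (nat_lit 3) true (nat_lit 4) true (nat_lit 11) true (nat_lit 1) true (nat_lit 11) true (nat_lit 13) (.e true (nat_lit 18) (nat_lit 71) (nat_lit 7) (nat_lit 7) (.e true (nat_lit 18) (nat_lit 64) (nat_lit 8) (nat_lit 6) (.e true (nat_lit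 18) (nat_lit 65) (nat_lit 8) (nat_lit 6) (.e false (nat_lit 18) (nat_lit 68) (nat_lit 8) (nat_lit 6) (.e true (nat_lit 18) (nat_lit 69) (nat_lit 8) (nat_lit 6) (.e true (nat_lit 18) (nat_lit 161) (nat_lit 2) (nat_lit 12) (.e false (nat_lit 18) (nat_lit 126) (nat_lit 3) (nat_lit 11) (.e true (nat_lit 18) (nat_lit 117) (nat_lit 3) (nat_lit 11) (.e true (nat_lit 18) (nat_lit 118) (nat_lit 3) (nat_lit 11) (.e true (nat_lit 18) (nat_lit 120) (nat_lit 3) (nat_lit 11) (.e false (nat_lit 18) (nat_lit 121) (nat_lit 3) (nat_lit 11) (.e false (nat_lit 18) (nat_lit 122) (nat_lit 3) (nat_lit 11) (.e false (nat_lit 18) (nat_lit 123) (nat_lit 3) (nat_lit 11) (.e false (nat_lit 18) (nat_lit 124) (nat_lit 3) (nat_lit 11) (.e true (nat_lit 18) (nat_lit 133) (nat_lit 3) (nat_lit 11) (.e false (nat_lit 18) (nat_lit 139) (nat_lit 3) (nat_lit 11) (.e false (nat_lit 18) (nat_lit 168) (nat_lit 1) (nat_lit 13) .nil))))))))))))))))))))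 (.nd (.nd (.nd .leaf (nat_lit 50177) (nat_lit 119) (.p (nat_lit 99) (nat_lit 18) .z) .df .leaf) (nat_lit 50179) (nat_lit 167) (.p (nat_lit 123) (nat_lit 18) .z) .df .leaf) (nat_lit 50184) (nat_lit 368) (.n (nat_lit 189) (nat_lit 27) (.p (nat_lit 190) (nat_lit 27) (.n (nat_lit 191) (nat_lit 27) (.p (nat_lit 192) (nat_lit 6) (.n (nat_lit 193) (nat_lit 12) (.n (nat_lit 194) (nat_lit 15) (.n (nat_lit 195) (nat_lit 12) (.p (nat_lit 196) (nat_lit 15) (.n (nat_lit 197) (nat_lit 12) (.n (nat_lit 198) (nat_lit 18) (.p (nat_lit 199) (nat_lit 15) (.n (nat_lit 201) (nat_lit 12) (.n (nat_lit 202) (nat_lit 27) (.p (nat_lit 203) (nat_lit 6) (.p (nat_lit 204) (nat_lit 3) (.n (nat_lit 205) (nat_lit 9) (.p (nat_lit 206) (nat_lit 36) (.n (nat_lit 207) (nat_lit 27) (.p (nat_lit 208) (nat_lit 21) (.n (nat_lit 210) (nat_lit 15) (.n (nat_lit 211) (nat_lit 21) (.p (nat_lit 212) (nat_lit 15) (.p (nat_lit 213) (nat_lit 6) (.p (nat_lit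 214) (nat_lit 3) (.p (nat_lit 215) (nat_lit 66) (.n (nat_lit 218) (nat_lit 9) (.p (nat_lit 220) (nat_lit 9) (.n (nat_lit 222) (nat_lit 9) (.n (nat_lit 224) (nat_lit 9) (.p (nat_lit 225) (nat_lit 9) (.n (nat_lit 226) (nat_lit 9) (.p (nat_lit 228) (nat_lit 9) (.n (nat_lit 232) (nat_lit 9) (.n (nat_lit 234) (nat_lit 18) (.p (nat_lit 235) (nat_lit 27) (.p (nat_lit 237) (nat_lit 18) (.n (nat_lit 238) (nat_lit 18) .z))))))))))))))))))))))))))))))))))))) (.ct dr2_c4626 (nat_lit 18) (nat_lit 7) (.s false (nat_lit 1) (nat_lit 18) (nat_lit 1) (nat_lit 2) (nat_lit 3) true (nat_lit 7) true (nat_lit 12) true (nat_lit 1) true (nat_lit 14) true (nat_lit 13) (.s true (nat_lit 1) (nat_lit 22) (nat_lit 1) (nat_lit 1) (nat_lit 3) true (nat_lit 7) true (nat_lit 12) false (nat_lit 0) true (nat_lit 14) true (nat_lit 14) (.s false (nat_lit 1) (nat_lit 23) (nat_lit 3) (nat_lit 1) (nat_lit 0) true (nat_lit 8) true (nat_lit 15) false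 (nat_lit 1) true (nat_lit 12) true (nat_lit 14) (.e false (nat_lit 18) (nat_lit 46) (nat_lit 8) (nat_lit 7) (.e false (nat_lit 12) (nat_lit 115) (nat_lit 1) (nat_lit 14) (.e true (nat_lit 12) (nat_lit 117) (nat_lit 1) (nat_lit 14) (.e true (nat_lit 6) (nat_lit 118) (nat_lit 1) (nat_lit 14) (.e true (nat_lit 24) (nat_lit 119) (nat_lit 1) (nat_lit 14) (.e true (nat_lit 24) (nat_lit 120) (nat_lit 1) (nat_lit 14) dr2_i30)))))))))) (.nd .leaf (nat_lit 50186) (nat_lit 533) (.n (nat_lit 262) (nat_lit 56) (.n (nat_lit 263) (nat_lit 320) (.n (nat_lit 264) (nat_lit 13) (.p (nat_lit 265) (nat_lit 31) (.n (nat_lit 266) (nat_lit 80) (.n (nat_lit 267) (nat_lit 140) (.p (nat_lit 268) (nat_lit 87) (.p (nat_lit 269) (nat_lit 304) (.n (nat_lit 270) (nat_lit 48) (.p (nat_lit 271) (nat_lit 124) (.p (nat_lit 272) (nat_lit 141) (.p (nat_lit 273) (nat_lit 67) (.p (nat_lit 274) (nat_lit 176) (.n (nat_lit 275) (nat_lit 78) (.n (nat_lit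 276) (nat_lit 216) (.p (nat_lit 277) (nat_lit 219) (.n (nat_lit 278) (nat_lit 184) (.p (nat_lit 280) (nat_lit 212) (.p (nat_lit 281) (nat_lit 217) (.n (nat_lit 282) (nat_lit 389) (.n (nat_lit 283) (nat_lit 92) (.p (nat_lit 284) (nat_lit 17) (.n (nat_lit 285) (nat_lit 253) (.n (nat_lit 286) (nat_lit 162) (.p (nat_lit 287) (nat_lit 9) (.n (nat_lit 288) (nat_lit 117) (.p (nat_lit 289) (nat_lit 243) (.n (nat_lit 290) (nat_lit 276) (.n (nat_lit 291) (nat_lit 57) (.n (nat_lit 292) (nat_lit 159) (.n (nat_lit 293) (nat_lit 153) (.n (nat_lit 294) (nat_lit 39) (.p (nat_lit 295) (nat_lit 75) (.n (nat_lit 296) (nat_lit 45) (.n (nat_lit 297) (nat_lit 171) (.n (nat_lit 298) (nat_lit 201) (.n (nat_lit 299) (nat_lit 45) (.p (nat_lit 300) (nat_lit 75) (.p (nat_lit 301) (nat_lit 42) (.n (nat_lit 302) (nat_lit 75) (.p (nat_lit 303) (nat_lit 96) (.p (nat_lit 304) (nat_lit 171) (.p (nat_lit 305) (nat_lit 171) (.n (nat_lit 306)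 (nat_lit 231) (.p (nat_lit 307) (nat_lit 15) (.p (nat_lit 308) (nat_lit 228) .z)))))))))))))))))))))))))))))))))))))))))))))) (.ct dr2_c4371 (nat_lit 18) (nat_lit 4) (.s true (nat_lit 1) (nat_lit 10) (nat_lit 9) (nat_lit 0) (nat_lit 1) true (nat_lit 0) true (nat_lit 13) true (nat_lit 4) true (nat_lit 5) true (nat_lit 14) (.s true (nat_lit 1) (nat_lit 27) (nat_lit 1) (nat_lit 2) (nat_lit 3) true (nat_lit 6) true (nat_lit 11) false (nat_lit 0) true (nat_lit 13) true (nat_lit 12) (.s true (nat_lit 1) (nat_lit 27) (nat_lit 1) (nat_lit 3) (nat_lit 2) true (nat_lit 8) true (nat_lit 12) false (nat_lit 0) true (nat_lit 13) true (nat_lit 11) (.s true (nat_lit 1) (nat_lit 27) (nat_lit 2) (nat_lit 1) (nat_lit 3) true (nat_lit 5) true (nat_lit 11) false (nat_lit 0) true (nat_lit 12) true (nat_lit 13) (.s true (nat_lit 1) (nat_lit 27) (nat_lit 2) (nat_lit 3) (nat_lit 1) true (nat_lit 8) true (nat_lit 13) false (nat_lit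 0) true (nat_lit 12) true (nat_lit 11) (.s true (nat_lit 1) (nat_lit 27) (nat_lit 3) (nat_lit 1) (nat_lit 2) true (nat_lit 5) true (nat_lit 12) false (nat_lit 0) true (nat_lit 11) true (nat_lit 13) (.e false (nat_lit 18) (nat_lit 168) (nat_lit 1) (nat_lit 13) (.e false (nat_lit 18) (nat_lit 169) (nat_lit 1) (nat_lit 13) (.e false (nat_lit 18) (nat_lit 170) (nat_lit 1) (nat_lit 13) dr2_i69)))))))))) .leaf))) (nat_lit 51201) (nat_lit 120) (.p (nat_lit 100) (nat_lit 18) .z) .df (.nd (.nd (.nd (.nd .leaf (nat_lit 51203) (nat_lit 168) (.p (nat_lit 124) (nat_lit 18) .z) .df .leaf) (nat_lit 51208) (nat_lit 380) (.n (nat_lit 189) (nat_lit 63) (.p (nat_lit 190) (nat_lit 99) (.n (nat_lit 191) (nat_lit 99) (.n (nat_lit 192) (nat_lit 12) (.p (nat_lit 193) (nat_lit 42) (.p (nat_lit 194) (nat_lit 93) (.p (nat_lit 195) (nat_lit 96) (.p (nat_lit 196) (nat_lit 105) (.p (nat_lit 197) (nat_lit 132) (.n (nat_lit 198) (nat_lit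 90) (.n (nat_lit 199) (nat_lit 111) (.n (nat_lit 200) (nat_lit 90) (.n (nat_lit 201) (nat_lit 156) (.n (nat_lit 202) (nat_lit 63) (.n (nat_lit 203) (nat_lit 66) (.p (nat_lit 204) (nat_lit 39) (.n (nat_lit 205) (nat_lit 63) (.p (nat_lit 206) (nat_lit 27) (.n (nat_lit 207) (nat_lit 27) (.p (nat_lit 208) (nat_lit 21) (.p (nat_lit 210) (nat_lit 3) (.p (nat_lit 211) (nat_lit 6) (.p (nat_lit 212) (nat_lit 15) (.n (nat_lit 213) (nat_lit 66) (.p (nat_lit 214) (nat_lit 3) (.p (nat_lit 215) (nat_lit 30) (.p (nat_lit 216) (nat_lit 54) (.p (nat_lit 219) (nat_lit 27) (.p (nat_lit 221) (nat_lit 27) (.n (nat_lit 223) (nat_lit 27) (.n (nat_lit 224) (nat_lit 117) (.p (nat_lit 225) (nat_lit 81) (.n (nat_lit 226) (nat_lit 81) (.p (nat_lit 227) (nat_lit 36) (.n (nat_lit 228) (nat_lit 27) (.n (nat_lit 229) (nat_lit 36) (.n (nat_lit 230) (nat_lit 18) (.p (nat_lit 231) (nat_lit 36) (.n (nat_lit 232) (nat_lit 27) (.p (nat_lit 233)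 (nat_lit 18) (.p (nat_lit 235) (nat_lit 63) (.n (nat_lit 236) (nat_lit 36) (.p (nat_lit 237) (nat_lit 90) (.n (nat_lit 238) (nat_lit 18) (.n (nat_lit 239) (nat_lit 36) (.n (nat_lit 240) (nat_lit 36) .z)))))))))))))))))))))))))))))))))))))))))))))) (.ct dr2_c4626 (nat_lit 18) (nat_lit 7) (.s false (nat_lit 1) (nat_lit 23) (nat_lit 0) (nat_lit 3) (nat_lit 1) true (nat_lit 11) true (nat_lit 14) false (nat_lit 1) true (nat_lit 15) true (nat_lit 12) (.s false (nat_lit 1) (nat_lit 23) (nat_lit 3) (nat_lit 0) (nat_lit 1) true (nat_lit 7) true (nat_lit 14) false (nat_lit 1) true (nat_lit 12) true (nat_lit 15) (.e false (nat_lit 18) (nat_lit 70) (nat_lit 4) (nat_lit 11) (.e false (nat_lit 18) (nat_lit 124) (nat_lit 1) (nat_lit 14) (.e true (nat_lit 18) (nat_lit 146) (nat_lit 0) (nat_lit 15) (.e false (nat_lit 18) (nat_lit 147) (nat_lit 0) (nat_lit 15) (.e true (nat_lit 18) (nat_lit 102) (nat_lit 3) (nat_lit 12) (.e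 false (nat_lit 18) (nat_lit 136) (nat_lit 1) (nat_lit 14) (.e true (nat_lit 18) (nat_lit 86) (nat_lit 3) (nat_lit 12) (.e false (nat_lit 18) (nat_lit 89) (nat_lit 3) (nat_lit 12) (.e true (nat_lit 18) (nat_lit 90) (nat_lit 3) (nat_lit 12) (.e false (nat_lit 18) (nat_lit 91) (nat_lit 3) (nat_lit 12) (.e false (nat_lit 18) (nat_lit 95) (nat_lit 3) (nat_lit 12) (.e true (nat_lit 18) (nat_lit 103) (nat_lit 3) (nat_lit 12) .nil))))))))))))))) .leaf) (nat_lit 51210) (nat_lit 531) (.n (nat_lit 262) (nat_lit 40) (.n (nat_lit 263) (nat_lit 28) (.p (nat_lit 264) (nat_lit 10) (.n (nat_lit 265) (nat_lit 10) (.p (nat_lit 266) (nat_lit 56) (.n (nat_lit 267) (nat_lit 28) (.p (nat_lit 268) (nat_lit 12) (.n (nat_lit 269) (nat_lit 22) (.n (nat_lit 270) (nat_lit 6) (.n (nat_lit 271) (nat_lit 22) (.n (nat_lit 272) (nat_lit 42) (.p (nat_lit 273) (nat_lit 8) (.n (nat_lit 274) (nat_lit 8) (.p (nat_lit 275) (nat_lit 6) (.p (nat_lit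 276) (nat_lit 18) (.n (nat_lit 277) (nat_lit 30) (.p (nat_lit 278) (nat_lit 46) (.p (nat_lit 280) (nat_lit 28) (.n (nat_lit 281) (nat_lit 34) (.n (nat_lit 282) (nat_lit 4) (.n (nat_lit 283) (nat_lit 4) (.p (nat_lit 284) (nat_lit 16) (.p (nat_lit 285) (nat_lit 70) (.p (nat_lit 286) (nat_lit 18) (.p (nat_lit 287) (nat_lit 36) (.n (nat_lit 288) (nat_lit 18) (.p (nat_lit 290) (nat_lit 6) (.p (nat_lit 291) (nat_lit 12) (.n (nat_lit 292) (nat_lit 12) (.n (nat_lit 293) (nat_lit 18) (.n (nat_lit 294) (nat_lit 6) (.n (nat_lit 295) (nat_lit 12) (.n (nat_lit 296) (nat_lit 18) (.n (nat_lit 297) (nat_lit 18) (.p (nat_lit 298) (nat_lit 12) (.n (nat_lit 299) (nat_lit 18) (.n (nat_lit 300) (nat_lit 12) (.n (nat_lit 301) (nat_lit 6) (.p (nat_lit 302) (nat_lit 12) (.p (nat_lit 303) (nat_lit 30) (.p (nat_lit 304) (nat_lit 18) (.p (nat_lit 305) (nat_lit 18) (.n (nat_lit 306) (nat_lit 30) (.n (nat_lit 307) (nat_lit 24) (.p (nat_lit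 308) (nat_lit 24) .z))))))))))))))))))))))))))))))))))))))))))))) (.ct dr2_c4371 (nat_lit 18) (nat_lit 4) (.s false (nat_lit 1) (nat_lit 23) (nat_lit 3) (nat_lit 0) (nat_lit 3) true (nat_lit 4) true (nat_lit 11) true (nat_lit 0) true (nat_lit 11) true (nat_lit 14) (.s false (nat_lit 1) (nat_lit 26) (nat_lit 2) (nat_lit 1) (nat_lit 3) true (nat_lit 5) true (nat_lit 11) false (nat_lit 0) true (nat_lit 12) true (nat_lit 13) (.e false (nat_lit 18) (nat_lit 136) (nat_lit 3) (nat_lit 11) (.e false (nat_lit 18) (nat_lit 117) (nat_lit 3) (nat_lit 11) (.e false (nat_lit 18) (nat_lit 118) (nat_lit 3) (nat_lit 11) dr2_i68)))))) (.nd .leaf (nat_lit 52224) (nat_lit 127) (.n (nat_lit 85) (nat_lit 18) (.n (nat_lit 86) (nat_lit 18) (.n (nat_lit 87) (nat_lit 18) (.p (nat_lit 89) (nat_lit 54) (.n (nat_lit 90) (nat_lit 36) (.p (nat_lit 91) (nat_lit 54) (.p (nat_lit 92) (nat_lit 36) (.p (nat_lit 93) (nat_lit 36) (.p (nat_lit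 94) (nat_lit 18) (.p (nat_lit 95) (nat_lit 18) (.n (nat_lit 96) (nat_lit 18) (.p (nat_lit 97) (nat_lit 36) (.n (nat_lit 98) (nat_lit 36) (.p (nat_lit 99) (nat_lit 36) (.n (nat_lit 101) (nat_lit 36) (.p (nat_lit 102) (nat_lit 18) (.n (nat_lit 103) (nat_lit 18) .z))))))))))))))))) (.ct dr2_c4625 (nat_lit 18) (nat_lit 9) (.s false (nat_lit 1) (nat_lit 6) (nat_lit 1) (nat_lit 0) (nat_lit 3) true (nat_lit 1) true (nat_lit 6) true (nat_lit 3) true (nat_lit 8) true (nat_lit 9) (.s false (nat_lit 1) (nat_lit 6) (nat_lit 3) (nat_lit 0) (nat_lit 1) true (nat_lit 1) true (nat_lit 8) true (nat_lit 3) true (nat_lit 6) true (nat_lit 9) (.s false (nat_lit 1) (nat_lit 7) (nat_lit 2) (nat_lit 1) (nat_lit 1) true (nat_lit 3) true (nat_lit 8) true (nat_lit 2) true (nat_lit 7) true (nat_lit 8) (.e false (nat_lit 36) (nat_lit 33) (nat_lit 3) (nat_lit 6) (.e true (nat_lit 18) (nat_lit 34) (nat_lit 3) (nat_lit 6) (.e false (nat_lit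 36) (nat_lit 36) (nat_lit 3) (nat_lit 6) (.e false (nat_lit 18) (nat_lit 16) (nat_lit 6) (nat_lit 3) (.e false (nat_lit 18) (nat_lit 43) (nat_lit 1) (nat_lit 8) (.e false (nat_lit 18) (nat_lit 44) (nat_lit 1) (nat_lit 8) (.e false (nat_lit 18) (nat_lit 46) (nat_lit 1) (nat_lit 8) (.e true (nat_lit 18) (nat_lit 47) (nat_lit 1) (nat_lit 8) (.e true (nat_lit 18) (nat_lit 49) (nat_lit 1) (nat_lit 8) (.e true (nat_lit 18) (nat_lit 53) (nat_lit 0) (nat_lit 9) (.e true (nat_lit 18) (nat_lit 35) (nat_lit 3) (nat_lit 6) (.e false (nat_lit 18) (nat_lit 15) (nat_lit 7) (nat_lit 2) .nil)))))))))))))))) .leaf)) (nat_lit 52227) (nat_lit 218) (.p (nat_lit 140) (nat_lit 18) (.n (nat_lit 141) (nat_lit 36) (.n (nat_lit 142) (nat_lit 18) (.n (nat_lit 144) (nat_lit 18) (.n (nat_lit 145) (nat_lit 18) (.p (nat_lit 146) (nat_lit 18) (.n (nat_lit 147) (nat_lit 18) (.p (nat_lit 148) (nat_lit 36) (.p (nat_lit 149) (nat_lit 18) (.n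 (nat_lit 150) (nat_lit 36) .z)))))))))) (.ct dr2_c530 (nat_lit 36) (nat_lit 4) (.s true (nat_lit 1) (nat_lit 6) (nat_lit 1) (nat_lit 3) (nat_lit 3) true (nat_lit 2) true (nat_lit 4) true (nat_lit 3) true (nat_lit 6) true (nat_lit 4) (.s true (nat_lit 1) (nat_lit 8) (nat_lit 2) (nat_lit 1) (nat_lit 3) true (nat_lit 1) true (nat_lit 4) true (nat_lit 2) true (nat_lit 5) true (nat_lit 6) (.s true (nat_lit 1) (nat_lit 8) (nat_lit 2) (nat_lit 3) (nat_lit 1) true (nat_lit 3) true (nat_lit 6) true (nat_lit 2) true (nat_lit 5) true (nat_lit 4) (.s true (nat_lit 1) (nat_lit 9) (nat_lit 3) (nat_lit 1) (nat_lit 1) true (nat_lit 2) true (nat_lit 6) true (nat_lit 1) true (nat_lit 4) true (nat_lit 6) (.e false (nat_lit 36) (nat_lit 28) (nat_lit 6) (nat_lit 3) (.e false (nat_lit 36) (nat_lit 73) (nat_lit 1) (nat_lit 6) (.e true (nat_lit 36) (nat_lit 75) (nat_lit 1) (nat_lit 6) .nil)))))))) (.nd (.nd (.nd .leaf (nat_lit 52231)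 (nat_lit 391) (.p (nat_lit 189) (nat_lit 90) (.n (nat_lit 190) (nat_lit 90) (.p (nat_lit 191) (nat_lit 90) (.n (nat_lit 192) (nat_lit 24) (.n (nat_lit 193) (nat_lit 96) (.p (nat_lit 194) (nat_lit 42) (.n (nat_lit 195) (nat_lit 42) (.n (nat_lit 196) (nat_lit 6) (.n (nat_lit 197) (nat_lit 6) (.n (nat_lit 198) (nat_lit 54) (.p (nat_lit 199) (nat_lit 102) (.n (nat_lit 200) (nat_lit 54) (.p (nat_lit 201) (nat_lit 120) (.p (nat_lit 202) (nat_lit 72) (.n (nat_lit 203) (nat_lit 60) (.n (nat_lit 204) (nat_lit 12) (.n (nat_lit 205) (nat_lit 18) (.n (nat_lit 206) (nat_lit 90) (.p (nat_lit 207) (nat_lit 36) (.n (nat_lit 208) (nat_lit 120) (.p (nat_lit 210) (nat_lit 24) (.p (nat_lit 211) (nat_lit 138) (.n (nat_lit 212) (nat_lit 168) (.n (nat_lit 213) (nat_lit 24) (.p (nat_lit 214) (nat_lit 24) (.n (nat_lit 215) (nat_lit 192) (.p (nat_lit 216) (nat_lit 108) (.n (nat_lit 218) (nat_lit 18) (.p (nat_lit 219) (nat_lit 90) (.n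 (nat_lit 220) (nat_lit 72) (.p (nat_lit 221) (nat_lit 18) (.p (nat_lit 222) (nat_lit 126) (.n (nat_lit 223) (nat_lit 54) (.n (nat_lit 224) (nat_lit 36) (.p (nat_lit 227) (nat_lit 36) (.n (nat_lit 228) (nat_lit 54) (.p (nat_lit 229) (nat_lit 72) (.p (nat_lit 231) (nat_lit 36) (.p (nat_lit 233) (nat_lit 18) (.n (nat_lit 235) (nat_lit 90) (.n (nat_lit 236) (nat_lit 36) (.n (nat_lit 237) (nat_lit 18) (.p (nat_lit 238) (nat_lit 90) (.p (nat_lit 239) (nat_lit 72) (.n (nat_lit 240) (nat_lit 36) .z))))))))))))))))))))))))))))))))))))))))))))) (.ct dr2_c4626 (nat_lit 18) (nat_lit 8) (.s true (nat_lit 1) (nat_lit 8) (nat_lit 2) (nat_lit 1) (nat_lit 7) false (nat_lit 0) true (nat_lit 8) true (nat_lit 7) true (nat_lit 13) true (nat_lit 14) (.s true (nat_lit 1) (nat_lit 21) (nat_lit 3) (nat_lit 1) (nat_lit 1) true (nat_lit 7) true (nat_lit 14) false (nat_lit 0) true (nat_lit 12) true (nat_lit 14) (.e true (nat_lit 18)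 (nat_lit 52) (nat_lit 7) (nat_lit 8) (.e false (nat_lit 18) (nat_lit 53) (nat_lit 7) (nat_lit 8) (.e false (nat_lit 18) (nat_lit 43) (nat_lit 8) (nat_lit 7) (.e false (nat_lit 18) (nat_lit 44) (nat_lit 8) (nat_lit 7) (.e false (nat_lit 18) (nat_lit 45) (nat_lit 8) (nat_lit 7) (.e false (nat_lit 18) (nat_lit 46) (nat_lit 8) (nat_lit 7) (.e true (nat_lit 18) (nat_lit 47) (nat_lit 8) (nat_lit 7) (.e true (nat_lit 18) (nat_lit 49) (nat_lit 8) (nat_lit 7) (.e true (nat_lit 18) (nat_lit 50) (nat_lit 8) (nat_lit 7) (.e false (nat_lit 18) (nat_lit 105) (nat_lit 2) (nat_lit 13) (.e true (nat_lit 18) (nat_lit 107) (nat_lit 2) (nat_lit 13) (.e true (nat_lit 18) (nat_lit 108) (nat_lit 2) (nat_lit 13) (.e true (nat_lit 18) (nat_lit 110) (nat_lit 2) (nat_lit 13) (.e false (nat_lit 18) (nat_lit 111) (nat_lit 2) (nat_lit 13) (.e true (nat_lit 18) (nat_lit 112) (nat_lit 2) (nat_lit 13) (.e true (nat_lit 18) (nat_lit 125) (nat_lit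 1) (nat_lit 14) (.e true (nat_lit 18) (nat_lit 126) (nat_lit 1) (nat_lit 14) (.e false (nat_lit 18) (nat_lit 129) (nat_lit 1) (nat_lit 14) (.e true (nat_lit 18) (nat_lit 130) (nat_lit 1) (nat_lit 14) (.e true (nat_lit 18) (nat_lit 132) (nat_lit 1) (nat_lit 14) (.e false (nat_lit 18) (nat_lit 122) (nat_lit 1) (nat_lit 14) .nil)))))))))))))))))))))))) .leaf) (nat_lit 52234) (nat_lit 609) (.p (nat_lit 309) (nat_lit 54) (.n (nat_lit 310) (nat_lit 18) (.n (nat_lit 311) (nat_lit 36) (.n (nat_lit 312) (nat_lit 108) (.n (nat_lit 313) (nat_lit 36) (.p (nat_lit 315) (nat_lit 72) (.p (nat_lit 316) (nat_lit 72) (.n (nat_lit 317) (nat_lit 144) (.n (nat_lit 318) (nat_lit 18) (.p (nat_lit 320) (nat_lit 36) (.p (nat_lit 321) (nat_lit 36) (.n (nat_lit 322) (nat_lit 18) (.p (nat_lit 323) (nat_lit 18) (.n (nat_lit 324) (nat_lit 36) (.p (nat_lit 325) (nat_lit 36) (.n (nat_lit 327) (nat_lit 36) (.n (nat_lit 328) (nat_lit 18) (.n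 (nat_lit 329) (nat_lit 18) .z)))))))))))))))))) (.ct dr2_c531 (nat_lit 18) (nat_lit 3) (.s true (nat_lit 1) (nat_lit 15) (nat_lit 3) (nat_lit 3) (nat_lit 3) true (nat_lit 3) true (nat_lit 7) true (nat_lit 2) true (nat_lit 7) true (nat_lit 7) (.s false (nat_lit 1) (nat_lit 32) (nat_lit 1) (nat_lit 2) (nat_lit 1) false (nat_lit 10) true (nat_lit 9) false (nat_lit 2) true (nat_lit 9) true (nat_lit 8) (.e true (nat_lit 18) (nat_lit 144) (nat_lit 3) (nat_lit 7) (.e false (nat_lit 18) (nat_lit 146) (nat_lit 3) (nat_lit 7) (.e true (nat_lit 18) (nat_lit 147) (nat_lit 3) (nat_lit 7) (.e false (nat_lit 18) (nat_lit 148) (nat_lit 3) (nat_lit 7) (.e false (nat_lit 18) (nat_lit 149) (nat_lit 3) (nat_lit 7) (.e true (nat_lit 18) (nat_lit 150) (nat_lit 3) (nat_lit 7) (.e false (nat_lit 18) (nat_lit 185) (nat_lit 1) (nat_lit 9) (.e true (nat_lit 18) (nat_lit 179) (nat_lit 1) (nat_lit 9) (.e false (nat_lit 18) (nat_lit 180)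 (nat_lit 1) (nat_lit 9) (.e true (nat_lit 18) (nat_lit 181) (nat_lit 1) (nat_lit 9) (.e false (nat_lit 18) (nat_lit 183) (nat_lit 1) (nat_lit 9) (.e false (nat_lit 18) (nat_lit 187) (nat_lit 1) (nat_lit 9) (.e true (nat_lit 18) (nat_lit 166) (nat_lit 2) (nat_lit 8) .nil)))))))))))))))) .leaf) (nat_lit 53248) (nat_lit 121) (.p (nat_lit 101) (nat_lit 18) .z) .df (.nd .leaf (nat_lit 53251) (nat_lit 205) (.p (nat_lit 140) (nat_lit 18) .z) .df .leaf)))) (nat_lit 53255) (nat_lit 373) (.n (nat_lit 189) (nat_lit 27) (.p (nat_lit 190) (nat_lit 9) (.p (nat_lit 191) (nat_lit 9) (.p (nat_lit 192) (nat_lit 12) (.p (nat_lit 193) (nat_lit 48) (.n (nat_lit 194) (nat_lit 93) (.n (nat_lit 195) (nat_lit 24) (.n (nat_lit 196) (nat_lit 69) (.n (nat_lit 197) (nat_lit 96) (.p (nat_lit 198) (nat_lit 126) (.n (nat_lit 199) (nat_lit 15) (.p (nat_lit 200) (nat_lit 108) (.p (nat_lit 201) (nat_lit 30) (.n (nat_lit 202) (nat_lit 27) (.p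 (nat_lit 203) (nat_lit 84) (.n (nat_lit 204) (nat_lit 21) (.p (nat_lit 205) (nat_lit 63) (.p (nat_lit 206) (nat_lit 54) (.n (nat_lit 207) (nat_lit 9) (.p (nat_lit 208) (nat_lit 87) (.n (nat_lit 210) (nat_lit 21) (.n (nat_lit 211) (nat_lit 123) (.p (nat_lit 212) (nat_lit 129) (.p (nat_lit 213) (nat_lit 48) (.n (nat_lit 214) (nat_lit 21) (.p (nat_lit 215) (nat_lit 132) (.n (nat_lit 216) (nat_lit 108) (.p (nat_lit 217) (nat_lit 18) (.p (nat_lit 218) (nat_lit 9) (.n (nat_lit 219) (nat_lit 90) (.p (nat_lit 220) (nat_lit 45) (.n (nat_lit 221) (nat_lit 18) (.n (nat_lit 222) (nat_lit 99) (.p (nat_lit 223) (nat_lit 54) (.p (nat_lit 224) (nat_lit 99) (.n (nat_lit 225) (nat_lit 45) (.p (nat_lit 226) (nat_lit 45) (.n (nat_lit 227) (nat_lit 54) (.p (nat_lit 228) (nat_lit 45) (.n (nat_lit 229) (nat_lit 54) (.p (nat_lit 230) (nat_lit 18) (.n (nat_lit 231) (nat_lit 36) (.p (nat_lit 232) (nat_lit 45) (.n (nat_lit 233) (nat_lit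 36) (.p (nat_lit 235) (nat_lit 9) (.p (nat_lit 236) (nat_lit 36) (.n (nat_lit 237) (nat_lit 18) (.n (nat_lit 238) (nat_lit 36) (.n (nat_lit 239) (nat_lit 36) (.p (nat_lit 240) (nat_lit 72) .z)))))))))))))))))))))))))))))))))))))))))))))))))) (.ct dr2_c4626 (nat_lit 18) (nat_lit 8) (.s false (nat_lit 1) (nat_lit 8) (nat_lit 7) (nat_lit 1) (nat_lit 2) false (nat_lit 0) true (nat_lit 13) true (nat_lit 7) true (nat_lit 8) true (nat_lit 14) (.s false (nat_lit 1) (nat_lit 9) (nat_lit 1) (nat_lit 7) (nat_lit 1) false (nat_lit 16) true (nat_lit 14) true (nat_lit 6) true (nat_lit 14) true (nat_lit 8) (.s true (nat_lit 1) (nat_lit 17) (nat_lit 2) (nat_lit 1) (nat_lit 3) true (nat_lit 6) true (nat_lit 12) true (nat_lit 1) true (nat_lit 13) true (nat_lit 14) (.s true (nat_lit 1) (nat_lit 21) (nat_lit 1) (nat_lit 1) (nat_lit 3) true (nat_lit 7) true (nat_lit 12) false (nat_lit 0) true (nat_lit 14) true (nat_lit 14) (.s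 true (nat_lit 1) (nat_lit 21) (nat_lit 3) (nat_lit 1) (nat_lit 1) true (nat_lit 7) true (nat_lit 14) false (nat_lit 0) true (nat_lit 12) true (nat_lit 14) (.s true (nat_lit 1) (nat_lit 23) (nat_lit 0) (nat_lit 3) (nat_lit 1) true (nat_lit 11) true (nat_lit 14) false (nat_lit 1) true (nat_lit 15) true (nat_lit 12) dr2_i34))))))) (.nd (.nd (.nd (.nd (.nd .leaf (nat_lit 53258) (nat_lit 604) (.n (nat_lit 309) (nat_lit 54) (.p (nat_lit 310) (nat_lit 18) (.p (nat_lit 311) (nat_lit 18) (.p (nat_lit 312) (nat_lit 54) (.p (nat_lit 313) (nat_lit 36) (.n (nat_lit 315) (nat_lit 18) (.n (nat_lit 316) (nat_lit 36) (.p (nat_lit 317) (nat_lit 90) (.p (nat_lit 318) (nat_lit 18) (.n (nat_lit 319) (nat_lit 18) (.p (nat_lit 321) (nat_lit 18) (.p (nat_lit 322) (nat_lit 36) (.p (nat_lit 323) (nat_lit 36) (.p (nat_lit 324) (nat_lit 18) (.n (nat_lit 326) (nat_lit 36) (.p (nat_lit 327) (nat_lit 36) (.p (nat_lit 329) (nat_lit 18) .z)))))))))))))))))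 (.ct dr2_c531 (nat_lit 18) (nat_lit 3) (.s false (nat_lit 1) (nat_lit 9) (nat_lit 1) (nat_lit 8) (nat_lit 3) true (nat_lit 5) true (nat_lit 7) true (nat_lit 4) true (nat_lit 9) true (nat_lit 5) (.s false (nat_lit 1) (nat_lit 19) (nat_lit 2) (nat_lit 3) (nat_lit 3) true (nat_lit 4) true (nat_lit 7) true (nat_lit 1) true (nat_lit 8) true (nat_lit 7) (.s false (nat_lit 1) (nat_lit 19) (nat_lit 3) (nat_lit 2) (nat_lit 3) true (nat_lit 3) true (nat_lit 7) true (nat_lit 1) true (nat_lit 7) true (nat_lit 8) (.e true (nat_lit 18) (nat_lit 70) (nat_lit 8) (nat_lit 5) (.e true (nat_lit 18) (nat_lit 71) (nat_lit 8) (nat_lit 5) (.e false (nat_lit 18) (nat_lit 74) (nat_lit 8) (nat_lit 5) (.e true (nat_lit 36) (nat_lit 142) (nat_lit 3) (nat_lit 7) (.e false (nat_lit 36) (nat_lit 145) (nat_lit 3) (nat_lit 7) (.e false (nat_lit 36) (nat_lit 146) (nat_lit 3) (nat_lit 7) (.e true (nat_lit 36) (nat_lit 149) (nat_lit 3) (nat_lit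 7) (.e false (nat_lit 54) (nat_lit 150) (nat_lit 3) (nat_lit 7) (.e false (nat_lit 18) (nat_lit 188) (nat_lit 1) (nat_lit 9) (.e false (nat_lit 18) (nat_lit 140) (nat_lit 3) (nat_lit 7) (.e false (nat_lit 18) (nat_lit 163) (nat_lit 2) (nat_lit 8) (.e true (nat_lit 36) (nat_lit 165) (nat_lit 2) (nat_lit 8) (.e true (nat_lit 18) (nat_lit 166) (nat_lit 2) (nat_lit 8) (.e false (nat_lit 36) (nat_lit 143) (nat_lit 3) (nat_lit 7) (.e false (nat_lit 18) (nat_lit 147) (nat_lit 3) (nat_lit 7) (.e false (nat_lit 18) (nat_lit 162) (nat_lit 2) (nat_lit 8) .nil)))))))))))))))))))) .leaf) (nat_lit 54272) (nat_lit 122) (.p (nat_lit 102) (nat_lit 18) .z) .df .leaf) (nat_lit 54275) (nat_lit 206) (.p (nat_lit 141) (nat_lit 18) .z) .df (.nd .leaf (nat_lit 54279) (nat_lit 342) (.p (nat_lit 237) (nat_lit 18) .z) .df .leaf)) (nat_lit 54282) (nat_lit 613) (.p (nat_lit 309) (nat_lit 180) (.n (nat_lit 310) (nat_lit 36) (.n (nat_lit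 311) (nat_lit 90) (.n (nat_lit 312) (nat_lit 342) (.n (nat_lit 313) (nat_lit 162) (.p (nat_lit 314) (nat_lit 90) (.p (nat_lit 315) (nat_lit 216) (.p (nat_lit 316) (nat_lit 162) (.n (nat_lit 317) (nat_lit 432) (.n (nat_lit 318) (nat_lit 72) (.p (nat_lit 319) (nat_lit 18) (.p (nat_lit 320) (nat_lit 126) (.p (nat_lit 321) (nat_lit 180) (.n (nat_lit 322) (nat_lit 54) (.p (nat_lit 323) (nat_lit 36) (.n (nat_lit 324) (nat_lit 144) (.p (nat_lit 325) (nat_lit 162) (.n (nat_lit 326) (nat_lit 18) (.n (nat_lit 327) (nat_lit 126) (.n (nat_lit 328) (nat_lit 54) (.n (nat_lit 329) (nat_lit 108) .z))))))))))))))))))))) (.ct dr2_c531 (nat_lit 18) (nat_lit 3) (.s false (nat_lit 1) (nat_lit 23) (nat_lit 1) (nat_lit 3) (nat_lit 3) true (nat_lit 5) true (nat_lit 7) true (nat_lit 0) true (nat_lit 9) true (nat_lit 7) (.s false (nat_lit 1) (nat_lit 23) (nat_lit 3) (nat_lit 1) (nat_lit 3) true (nat_lit 3) true (nat_lit 7) true (nat_lit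 0) true (nat_lit 7) true (nat_lit 9) (.e false (nat_lit 18) (nat_lit 70) (nat_lit 8) (nat_lit 5) (.e false (nat_lit 36) (nat_lit 141) (nat_lit 3) (nat_lit 7) (.e true (nat_lit 18) (nat_lit 187) (nat_lit 1) (nat_lit 9) (.e false (nat_lit 36) (nat_lit 145) (nat_lit 3) (nat_lit 7) (.e true (nat_lit 18) (nat_lit 146) (nat_lit 3) (nat_lit 7) (.e false (nat_lit 18) (nat_lit 147) (nat_lit 3) (nat_lit 7) (.e false (nat_lit 18) (nat_lit 178) (nat_lit 1) (nat_lit 9) .nil)))))))))) (.nd (.nd (.nd .leaf (nat_lit 55296) (nat_lit 129) (.p (nat_lit 92) (nat_lit 18) (.p (nat_lit 93) (nat_lit 18) (.n (nat_lit 94) (nat_lit 18) (.n (nat_lit 95) (nat_lit 18) (.n (nat_lit 96) (nat_lit 18) (.p (nat_lit 97) (nat_lit 18) (.p (nat_lit 99) (nat_lit 18) (.p (nat_lit 103) (nat_lit 18) .z)))))))) (.ct dr2_c4625 (nat_lit 18) (nat_lit 9) (.s false (nat_lit 1) (nat_lit 6) (nat_lit 0) (nat_lit 1) (nat_lit 3) true (nat_lit 2) true (nat_lit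 6) true (nat_lit 3) true (nat_lit 9) true (nat_lit 8) (.e false (nat_lit 18) (nat_lit 15) (nat_lit 7) (nat_lit 2) (.e false (nat_lit 18) (nat_lit 36) (nat_lit 3) (nat_lit 6) (.e true (nat_lit 18) (nat_lit 16) (nat_lit 6) (nat_lit 3) (.e false (nat_lit 18) (nat_lit 52) (nat_lit 0) (nat_lit 9) (.e true (nat_lit 18) (nat_lit 53) (nat_lit 0) (nat_lit 9) (.e true (nat_lit 18) (nat_lit 50) (nat_lit 1) (nat_lit 8) .nil)))))))) .leaf) (nat_lit 55299) (nat_lit 207) (.p (nat_lit 142) (nat_lit 18) .z) .df .leaf) (nat_lit 55303) (nat_lit 388) (.n (nat_lit 189) (nat_lit 9) (.n (nat_lit 190) (nat_lit 9) (.p (nat_lit 191) (nat_lit 27) (.n (nat_lit 194) (nat_lit 45) (.n (nat_lit 195) (nat_lit 18) (.n (nat_lit 196) (nat_lit 45) (.n (nat_lit 197) (nat_lit 72) (.p (nat_lit 198) (nat_lit 72) (.p (nat_lit 199) (nat_lit 9) (.p (nat_lit 200) (nat_lit 54) (.p (nat_lit 201) (nat_lit 36) (.p (nat_lit 202) (nat_lit 9) (.p (nat_lit 203)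 (nat_lit 54) (.n (nat_lit 204) (nat_lit 27) (.p (nat_lit 205) (nat_lit 45) (.p (nat_lit 206) (nat_lit 9) (.p (nat_lit 207) (nat_lit 9) (.p (nat_lit 208) (nat_lit 27) (.p (nat_lit 210) (nat_lit 9) (.n (nat_lit 211) (nat_lit 54) (.p (nat_lit 212) (nat_lit 45) (.p (nat_lit 213) (nat_lit 36) (.n (nat_lit 214) (nat_lit 9) (.p (nat_lit 215) (nat_lit 36) (.n (nat_lit 216) (nat_lit 54) (.p (nat_lit 217) (nat_lit 18) (.n (nat_lit 219) (nat_lit 45) (.n (nat_lit 221) (nat_lit 9) (.n (nat_lit 222) (nat_lit 36) (.p (nat_lit 223) (nat_lit 27) (.p (nat_lit 224) (nat_lit 81) (.n (nat_lit 225) (nat_lit 45) (.p (nat_lit 226) (nat_lit 45) (.n (nat_lit 227) (nat_lit 36) (.p (nat_lit 228) (nat_lit 27) (.n (nat_lit 229) (nat_lit 18) (.p (nat_lit 230) (nat_lit 18) (.n (nat_lit 231) (nat_lit 18) (.p (nat_lit 232) (nat_lit 27) (.n (nat_lit 233) (nat_lit 18) (.n (nat_lit 235) (nat_lit 9) (.p (nat_lit 236) (nat_lit 18) (.n (nat_lit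 237) (nat_lit 36) (.n (nat_lit 238) (nat_lit 18) (.p (nat_lit 240) (nat_lit 54) .z))))))))))))))))))))))))))))))))))))))))))))) (.ct dr2_c4626 (nat_lit 18) (nat_lit 8) (.s true (nat_lit 1) (nat_lit 8) (nat_lit 7) (nat_lit 1) (nat_lit 2) false (nat_lit 0) true (nat_lit 13) true (nat_lit 7) true (nat_lit 8) true (nat_lit 14) (.s false (nat_lit 1) (nat_lit 21) (nat_lit 3) (nat_lit 1) (nat_lit 1) true (nat_lit 7) true (nat_lit 14) false (nat_lit 0) true (nat_lit 12) true (nat_lit 14) (.e false (nat_lit 18) (nat_lit 107) (nat_lit 2) (nat_lit 13) (.e false (nat_lit 18) (nat_lit 108) (nat_lit 2) (nat_lit 13) (.e true (nat_lit 18) (nat_lit 111) (nat_lit 2) (nat_lit 13) (.e false (nat_lit 18) (nat_lit 112) (nat_lit 2) (nat_lit 13) (.e false (nat_lit 18) (nat_lit 45) (nat_lit 8) (nat_lit 7) (.e false (nat_lit 18) (nat_lit 52) (nat_lit 7) (nat_lit 8) (.e true (nat_lit 18) (nat_lit 53) (nat_lit 7) (nat_lit 8) (.e true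 (nat_lit 18) (nat_lit 126) (nat_lit 1) (nat_lit 14) (.e true (nat_lit 18) (nat_lit 131) (nat_lit 1) (nat_lit 14) (.e false (nat_lit 18) (nat_lit 134) (nat_lit 1) (nat_lit 14) (.e true (nat_lit 18) (nat_lit 135) (nat_lit 1) (nat_lit 14) (.e true (nat_lit 18) (nat_lit 139) (nat_lit 1) (nat_lit 14) (.e true (nat_lit 18) (nat_lit 48) (nat_lit 8) (nat_lit 7) .nil)))))))))))))))) (.nd .leaf (nat_lit 55306) (nat_lit 603) (.n (nat_lit 309) (nat_lit 270) (.p (nat_lit 310) (nat_lit 90) (.p (nat_lit 311) (nat_lit 108) (.p (nat_lit 312) (nat_lit 558) (.p (nat_lit 313) (nat_lit 288) (.n (nat_lit 314) (nat_lit 108) (.n (nat_lit 315) (nat_lit 306) (.n (nat_lit 316) (nat_lit 270) (.p (nat_lit 317) (nat_lit 666) (.p (nat_lit 318) (nat_lit 126) (.n (nat_lit 320) (nat_lit 216) (.n (nat_lit 321) (nat_lit 306) (.p (nat_lit 322) (nat_lit 72) (.n (nat_lit 323) (nat_lit 90) (.p (nat_lit 324) (nat_lit 216) (.n (nat_lit 325) (nat_lit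 234) (.p (nat_lit 326) (nat_lit 54) (.p (nat_lit 327) (nat_lit 162) (.p (nat_lit 328) (nat_lit 72) (.p (nat_lit 329) (nat_lit 162) .z)))))))))))))))))))) (.ct dr2_c531 (nat_lit 18) (nat_lit 3) (.s true (nat_lit 1) (nat_lit 9) (nat_lit 1) (nat_lit 8) (nat_lit 3) true (nat_lit 5) true (nat_lit 7) true (nat_lit 4) true (nat_lit 9) true (nat_lit 5) (.s true (nat_lit 1) (nat_lit 9) (nat_lit 8) (nat_lit 1) (nat_lit 3) false (nat_lit 0) true (nat_lit 7) true (nat_lit 4) true (nat_lit 5) true (nat_lit 9) (.s false (nat_lit 1) (nat_lit 25) (nat_lit 3) (nat_lit 1) (nat_lit 3) true (nat_lit 3) true (nat_lit 7) true (nat_lit 0) true (nat_lit 7) true (nat_lit 9) (.e true (nat_lit 18) (nat_lit 75) (nat_lit 8) (nat_lit 5) (.e false (nat_lit 36) (nat_lit 142) (nat_lit 3) (nat_lit 7) (.e true (nat_lit 18) (nat_lit 145) (nat_lit 3) (nat_lit 7) (.e true (nat_lit 18) (nat_lit 146) (nat_lit 3) (nat_lit 7) (.e false (nat_lit 18)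 (nat_lit 149) (nat_lit 3) (nat_lit 7) (.e true (nat_lit 54) (nat_lit 150) (nat_lit 3) (nat_lit 7) (.e true (nat_lit 36) (nat_lit 188) (nat_lit 1) (nat_lit 9) (.e true (nat_lit 18) (nat_lit 179) (nat_lit 1) (nat_lit 9) (.e true (nat_lit 18) (nat_lit 181) (nat_lit 1) (nat_lit 9) (.e false (nat_lit 18) (nat_lit 184) (nat_lit 1) (nat_lit 9) (.e false (nat_lit 18) (nat_lit 185) (nat_lit 1) (nat_lit 9) (.e false (nat_lit 18) (nat_lit 147) (nat_lit 3) (nat_lit 7) (.e false (nat_lit 18) (nat_lit 180) (nat_lit 1) (nat_lit 9) .nil))))))))))))))))) .leaf))) (nat_lit 56321) (nat_lit 142) (.p (nat_lit 107) (nat_lit 18) .z) .df (.nd (.nd (.nd (.nd .leaf (nat_lit 56322) (nat_lit 169) (.p (nat_lit 125) (nat_lit 18) .z) .df .leaf) (nat_lit 56323) (nat_lit 225) (.p (nat_lit 151) (nat_lit 18) .z) .df .leaf) (nat_lit 56326) (nat_lit 378) (.p (nat_lit 192) (nat_lit 18) (.p (nat_lit 193) (nat_lit 90) (.p (nat_lit 195) (nat_lit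 72) (.n (nat_lit 196) (nat_lit 18) (.p (nat_lit 197) (nat_lit 54) (.p (nat_lit 198) (nat_lit 18) (.n (nat_lit 199) (nat_lit 72) (.p (nat_lit 200) (nat_lit 18) (.n (nat_lit 201) (nat_lit 54) (.n (nat_lit 202) (nat_lit 18) (.n (nat_lit 203) (nat_lit 18) (.p (nat_lit 204) (nat_lit 18) (.p (nat_lit 206) (nat_lit 27) (.p (nat_lit 208) (nat_lit 36) (.n (nat_lit 210) (nat_lit 36) (.n (nat_lit 211) (nat_lit 27) (.p (nat_lit 212) (nat_lit 72) (.n (nat_lit 214) (nat_lit 18) (.p (nat_lit 215) (nat_lit 18) (.n (nat_lit 216) (nat_lit 54) (.p (nat_lit 218) (nat_lit 45) (.n (nat_lit 219) (nat_lit 45) (.p (nat_lit 220) (nat_lit 63) (.n (nat_lit 221) (nat_lit 27) (.n (nat_lit 222) (nat_lit 63) (.p (nat_lit 223) (nat_lit 27) (.p (nat_lit 225) (nat_lit 18) (.n (nat_lit 226) (nat_lit 18) (.n (nat_lit 227) (nat_lit 18) (.n (nat_lit 229) (nat_lit 72) (.n (nat_lit 231) (nat_lit 18) (.p (nat_lit 232) (nat_lit 18) (.p (nat_lit 236)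 (nat_lit 18) (.p (nat_lit 238) (nat_lit 18) (.n (nat_lit 239) (nat_lit 72) (.p (nat_lit 240) (nat_lit 18) .z)))))))))))))))))))))))))))))))))))) (.ct dr2_c4626 (nat_lit 18) (nat_lit 9) (.s false (nat_lit 1) (nat_lit 6) (nat_lit 3) (nat_lit 4) (nat_lit 3) true (nat_lit 5) true (nat_lit 12) true (nat_lit 9) true (nat_lit 12) true (nat_lit 11) (.s true (nat_lit 1) (nat_lit 8) (nat_lit 2) (nat_lit 3) (nat_lit 4) true (nat_lit 3) true (nat_lit 11) true (nat_lit 7) true (nat_lit 13) true (nat_lit 12) (.s true (nat_lit 1) (nat_lit 8) (nat_lit 3) (nat_lit 2) (nat_lit 4) true (nat_lit 1) true (nat_lit 11) true (nat_lit 7) true (nat_lit 12) true (nat_lit 13) (.s true (nat_lit 1) (nat_lit 8) (nat_lit 4) (nat_lit 2) (nat_lit 3) true (nat_lit 1) true (nat_lit 12) true (nat_lit 7) true (nat_lit 11) true (nat_lit 13) (.s false (nat_lit 1) (nat_lit 10) (nat_lit 2) (nat_lit 1) (nat_lit 4) true (nat_lit 3) true (nat_lit 11)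 true (nat_lit 5) true (nat_lit 13) true (nat_lit 14) (.s false (nat_lit 1) (nat_lit 10) (nat_lit 4) (nat_lit 2) (nat_lit 1) true (nat_lit 4) true (nat_lit 14) true (nat_lit 5) true (nat_lit 11) true (nat_lit 13) (.s false (nat_lit 1) (nat_lit 11) (nat_lit 3) (nat_lit 3) (nat_lit 2) true (nat_lit 6) true (nat_lit 13) true (nat_lit 4) true (nat_lit 12) true (nat_lit 12) (.s false (nat_lit 1) (nat_lit 12) (nat_lit 3) (nat_lit 1) (nat_lit 3) true (nat_lit 5) true (nat_lit 12) true (nat_lit 3) true (nat_lit 12) true (nat_lit 14) (.s true (nat_lit 1) (nat_lit 12) (nat_lit 3) (nat_lit 3) (nat_lit 1) true (nat_lit 7) true (nat_lit 14) true (nat_lit 3) true (nat_lit 12) true (nat_lit 12) (.e false (nat_lit 18) (nat_lit 89) (nat_lit 3) (nat_lit 12) (.e true (nat_lit 18) (nat_lit 85) (nat_lit 3) (nat_lit 12) (.e false (nat_lit 18) (nat_lit 104) (nat_lit 2) (nat_lit 13) (.e true (nat_lit 18) (nat_lit 107) (nat_lit 2)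 (nat_lit 13) (.e true (nat_lit 36) (nat_lit 108) (nat_lit 2) (nat_lit 13) (.e false (nat_lit 36) (nat_lit 109) (nat_lit 2) (nat_lit 13) (.e true (nat_lit 18) (nat_lit 110) (nat_lit 2) (nat_lit 13) (.e false (nat_lit 18) (nat_lit 111) (nat_lit 2) (nat_lit 13) (.e false (nat_lit 18) (nat_lit 112) (nat_lit 2) (nat_lit 13) (.e true (nat_lit 18) (nat_lit 114) (nat_lit 2) (nat_lit 13) (.e false (nat_lit 18) (nat_lit 73) (nat_lit 4) (nat_lit 11) (.e false (nat_lit 18) (nat_lit 87) (nat_lit 3) (nat_lit 12) (.e true (nat_lit 18) (nat_lit 88) (nat_lit 3) (nat_lit 12) (.e true (nat_lit 18) (nat_lit 75) (nat_lit 4) (nat_lit 11) (.e false (nat_lit 18) (nat_lit 37) (nat_lit 9) (nat_lit 6) .nil))))))))))))))))))))))))) (.nd .leaf (nat_lit 56328) (nat_lit 438) (.n (nat_lit 241) (nat_lit 36) (.p (nat_lit 244) (nat_lit 18) (.n (nat_lit 246) (nat_lit 18) (.n (nat_lit 248) (nat_lit 18) (.p (nat_lit 249) (nat_lit 54) (.n (nat_lit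 250) (nat_lit 18) (.p (nat_lit 251) (nat_lit 54) (.n (nat_lit 252) (nat_lit 18) (.n (nat_lit 253) (nat_lit 18) (.n (nat_lit 254) (nat_lit 18) (.n (nat_lit 255) (nat_lit 18) (.n (nat_lit 256) (nat_lit 18) (.n (nat_lit 258) (nat_lit 18) .z))))))))))))) (.ct dr2_c4611 (nat_lit 18) (nat_lit 4) (.s false (nat_lit 1) (nat_lit 8) (nat_lit 0) (nat_lit 3) (nat_lit 8) true (nat_lit 1) true (nat_lit 4) true (nat_lit 4) true (nat_lit 9) true (nat_lit 7) (.s false (nat_lit 2) (nat_lit 8) (nat_lit 1) (nat_lit 7) (nat_lit 3) true (nat_lit 4) true (nat_lit 7) true (nat_lit 4) true (nat_lit 8) true (nat_lit 5) (.s true (nat_lit 1) (nat_lit 8) (nat_lit 3) (nat_lit 1) (nat_lit 7) false (nat_lit 0) true (nat_lit 5) true (nat_lit 4) true (nat_lit 7) true (nat_lit 8) (.s true (nat_lit 1) (nat_lit 16) (nat_lit 1) (nat_lit 3) (nat_lit 3) true (nat_lit 4) true (nat_lit 7) true (nat_lit 1) true (nat_lit 8) true (nat_lit 7) (.s false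 (nat_lit 1) (nat_lit 18) (nat_lit 1) (nat_lit 3) (nat_lit 3) true (nat_lit 4) true (nat_lit 7) true (nat_lit 1) true (nat_lit 8) true (nat_lit 7) (.s false (nat_lit 1) (nat_lit 26) (nat_lit 1) (nat_lit 3) (nat_lit 1) false (nat_lit 10) true (nat_lit 8) false (nat_lit 0) true (nat_lit 8) true (nat_lit 7) (.s true (nat_lit 1) (nat_lit 28) (nat_lit 0) (nat_lit 1) (nat_lit 3) true (nat_lit 5) true (nat_lit 7) false (nat_lit 1) true (nat_lit 9) true (nat_lit 8) (.e false (nat_lit 36) (nat_lit 57) (nat_lit 8) (nat_lit 4) (.e true (nat_lit 36) (nat_lit 56) (nat_lit 8) (nat_lit 4) (.e true (nat_lit 18) (nat_lit 107) (nat_lit 3) (nat_lit 7) (.e true (nat_lit 36) (nat_lit 108) (nat_lit 3) (nat_lit 7) (.e false (nat_lit 36) (nat_lit 109) (nat_lit 3) (nat_lit 7) (.e true (nat_lit 18) (nat_lit 156) (nat_lit 1) (nat_lit 8) (.e false (nat_lit 18) (nat_lit 160) (nat_lit 1) (nat_lit 8) (.e false (nat_lit 18) (nat_lit 154)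 (nat_lit 1) (nat_lit 8) .nil)))))))))))))))) .leaf)) (nat_lit 56329) (nat_lit 507) (.p (nat_lit 306) (nat_lit 18) .z) .df (.nd (.nd .leaf (nat_lit 57345) (nat_lit 143) (.p (nat_lit 108) (nat_lit 18) .z) .df .leaf) (nat_lit 57346) (nat_lit 170) (.p (nat_lit 126) (nat_lit 18) .z) .df (.nd .leaf (nat_lit 57347) (nat_lit 226) (.p (nat_lit 152) (nat_lit 18) .z) .df .leaf))))))

noncomputable def dr2_t5 : Tr := (.nd dr2_t3 (nat_lit 37897) (nat_lit 364) (.n (nat_lit 192) (nat_lit 12) (.n (nat_lit 193) (nat_lit 30) (.p (nat_lit 194) (nat_lit 12) (.n (nat_lit 195) (nat_lit 12) (.p (nat_lit 196) (nat_lit 6) (.p (nat_lit 197) (nat_lit 6) (.n (nat_lit 198) (nat_lit 18) (.p (nat_lit 199) (nat_lit 24) (.n (nat_lit 200) (nat_lit 18) (.p (nat_lit 201) (nat_lit 6) (.p (nat_lit 202) (nat_lit 18) (.p (nat_lit 203) (nat_lit 6) (.n (nat_lit 204) (nat_lit 6) (.n (nat_lit 206) (nat_lit 27) (.n (nat_lit 208) (nat_lit 24) (.p (nat_lit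 210) (nat_lit 12) (.p (nat_lit 211) (nat_lit 33) (.n (nat_lit 212) (nat_lit 48) (.n (nat_lit 213) (nat_lit 12) (.p (nat_lit 214) (nat_lit 12) (.n (nat_lit 215) (nat_lit 42) (.p (nat_lit 216) (nat_lit 36) (.n (nat_lit 218) (nat_lit 9) (.p (nat_lit 219) (nat_lit 9) (.n (nat_lit 220) (nat_lit 27) (.p (nat_lit 221) (nat_lit 9) (.p (nat_lit 222) (nat_lit 27) (.n (nat_lit 223) (nat_lit 9) (.n (nat_lit 224) (nat_lit 18) (.p (nat_lit 229) (nat_lit 18) (.p (nat_lit 231) (nat_lit 18) (.n (nat_lit 232) (nat_lit 18) (.n (nat_lit 236) (nat_lit 18) (.p (nat_lit 239) (nat_lit 18) (.n (nat_lit 240) (nat_lit 18) .z))))))))))))))))))))))))))))))))))) (.ct dr2_c4626 (nat_lit 18) (nat_lit 6) (.s false (nat_lit 1) (nat_lit 8) (nat_lit 4) (nat_lit 2) (nat_lit 3) true (nat_lit 1) true (nat_lit 12) true (nat_lit 7) true (nat_lit 11) true (nat_lit 13) (.s false (nat_lit 1) (nat_lit 9) (nat_lit 4) (nat_lit 3) (nat_lit 1) true (nat_lit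 4) true (nat_lit 14) true (nat_lit 6) true (nat_lit 11) true (nat_lit 12) (.s true (nat_lit 1) (nat_lit 11) (nat_lit 2) (nat_lit 3) (nat_lit 3) true (nat_lit 6) true (nat_lit 12) true (nat_lit 4) true (nat_lit 13) true (nat_lit 12) (.s true (nat_lit 1) (nat_lit 16) (nat_lit 3) (nat_lit 1) (nat_lit 2) true (nat_lit 6) true (nat_lit 13) true (nat_lit 1) true (nat_lit 12) true (nat_lit 14) (.e true (nat_lit 18) (nat_lit 89) (nat_lit 3) (nat_lit 12) (.e true (nat_lit 18) (nat_lit 41) (nat_lit 8) (nat_lit 7) (.e true (nat_lit 18) (nat_lit 104) (nat_lit 2) (nat_lit 13) (.e false (nat_lit 18) (nat_lit 110) (nat_lit 2) (nat_lit 13) (.e true (nat_lit 18) (nat_lit 112) (nat_lit 2) (nat_lit 13) (.e false (nat_lit 18) (nat_lit 116) (nat_lit 1) (nat_lit 14) (.e false (nat_lit 18) (nat_lit 120) (nat_lit 1) (nat_lit 14) (.e true (nat_lit 18) (nat_lit 122) (nat_lit 1) (nat_lit 14) (.e true (nat_lit 18) (nat_lit 124) (nat_lit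 1) (nat_lit 14) (.e true (nat_lit 18) (nat_lit 92) (nat_lit 3) (nat_lit 12) (.e false (nat_lit 18) (nat_lit 107) (nat_lit 2) (nat_lit 13) (.e false (nat_lit 36) (nat_lit 108) (nat_lit 2) (nat_lit 13) (.e true (nat_lit 36) (nat_lit 109) (nat_lit 2) (nat_lit 13) (.e true (nat_lit 18) (nat_lit 111) (nat_lit 2) (nat_lit 13) (.e false (nat_lit 18) (nat_lit 114) (nat_lit 2) (nat_lit 13) (.e false (nat_lit 18) (nat_lit 118) (nat_lit 1) (nat_lit 14) .nil))))))))))))))))))))) dr2_t4)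

noncomputable def dr2_t6 : Tr := (.nd dr2_t2 (nat_lit 27673) (nat_lit 566) (.n (nat_lit 262) (nat_lit 122) (.n (nat_lit 263) (nat_lit 260) (.n (nat_lit 264) (nat_lit 82) (.n (nat_lit 265) (nat_lit 26) (.n (nat_lit 266) (nat_lit 2) (.n (nat_lit 267) (nat_lit 188) (.p (nat_lit 268) (nat_lit 150) (.p (nat_lit 269) (nat_lit 184) (.n (nat_lit 270) (nat_lit 12) (.p (nat_lit 271) (nat_lit 58) (.n (nat_lit 272) (nat_lit 48) (.p (nat_lit 273) (nat_lit 64) (.p (nat_lit 274) (nat_lit 98) (.p (nat_lit 275) (nat_lit 48) (.n (nat_lit 276) (nat_lit 36) (.p (nat_lit 277) (nat_lit 12) (.p (nat_lit 278) (nat_lit 44) (.p (nat_lit 280) (nat_lit 134) (.p (nat_lit 281) (nat_lit 16) (.n (nat_lit 282) (nat_lit 176) (.n (nat_lit 283) (nat_lit 68) (.p (nat_lit 284) (nat_lit 38) (.p (nat_lit 285) (nat_lit 74) (.n (nat_lit 286) (nat_lit 54) (.p (nat_lit 287) (nat_lit 108) (.n (nat_lit 288) (nat_lit 126) (.p (nat_lit 289) (nat_lit 126)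 (.n (nat_lit 290) (nat_lit 150) (.n (nat_lit 291) (nat_lit 12) (.n (nat_lit 292) (nat_lit 132) (.n (nat_lit 293) (nat_lit 144) (.n (nat_lit 294) (nat_lit 66) (.p (nat_lit 295) (nat_lit 12) (.n (nat_lit 296) (nat_lit 54) (.n (nat_lit 297) (nat_lit 144) (.n (nat_lit 298) (nat_lit 138) (.n (nat_lit 299) (nat_lit 54) (.p (nat_lit 300) (nat_lit 30) (.p (nat_lit 301) (nat_lit 6) (.p (nat_lit 302) (nat_lit 6) (.p (nat_lit 303) (nat_lit 114) (.p (nat_lit 304) (nat_lit 162) (.p (nat_lit 305) (nat_lit 144) (.n (nat_lit 306) (nat_lit 204) (.n (nat_lit 307) (nat_lit 12) (.p (nat_lit 308) (nat_lit 174) .z)))))))))))))))))))))))))))))))))))))))))))))) (.ct dr2_c4371 (nat_lit 18) (nat_lit 0) (.s true (nat_lit 1) (nat_lit 27) (nat_lit 2) (nat_lit 3) (nat_lit 1) true (nat_lit 8) true (nat_lit 13) false (nat_lit 0) true (nat_lit 12) true (nat_lit 11) (.e false (nat_lit 18) (nat_lit 77) (nat_lit 6) (nat_lit 8) (.e true (nat_lit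 18) (nat_lit 171) (nat_lit 1) (nat_lit 13) (.e false (nat_lit 36) (nat_lit 151) (nat_lit 2) (nat_lit 12) (.e false (nat_lit 36) (nat_lit 152) (nat_lit 2) (nat_lit 12) (.e true (nat_lit 18) (nat_lit 155) (nat_lit 2) (nat_lit 12) (.e false (nat_lit 36) (nat_lit 156) (nat_lit 2) (nat_lit 12) (.e true (nat_lit 18) (nat_lit 159) (nat_lit 2) (nat_lit 12) (.e true (nat_lit 18) (nat_lit 160) (nat_lit 2) (nat_lit 12) (.e false (nat_lit 18) (nat_lit 129) (nat_lit 3) (nat_lit 11) .nil))))))))))) dr2_t5)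

noncomputable def dr2_t7 : Tr := (.nd (.nd (.nd (.nd (.nd (.nd (.nd .leaf (nat_lit 57352) (nat_lit 433) (.p (nat_lit 261) (nat_lit 18) .z) .df .leaf) (nat_lit 57353) (nat_lit 508) (.p (nat_lit 307) (nat_lit 18) .z) .df .leaf) (nat_lit 58369) (nat_lit 144) (.p (nat_lit 109) (nat_lit 18) .z) .df (.nd .leaf (nat_lit 58370) (nat_lit 171) (.p (nat_lit 127) (nat_lit 18) .z) .df .leaf)) (nat_lit 58371) (nat_lit 227) (.p (nat_lit 153) (nat_lit 18) .z) .df (.nd (.nd (.nd .leaf (nat_lit 58374) (nat_lit 382) (.p (nat_lit 189) (nat_lit 72) (.n (nat_lit 190) (nat_lit 72) (.p (nat_lit 191) (nat_lit 72) (.p (nat_lit 192) (nat_lit 6) (.p (nat_lit 193) (nat_lit 78) (.p (nat_lit 194) (nat_lit 48) (.p (nat_lit 195) (nat_lit 78) (.n (nat_lit 196) (nat_lit 30) (.p (nat_lit 197) (nat_lit 78) (.n (nat_lit 199) (nat_lit 48) (.p (nat_lit 201) (nat_lit 6) (.p (nat_lit 202) (nat_lit 54) (.n (nat_lit 203) (nat_lit 66) (.p (nat_lit 204)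 (nat_lit 30) (.n (nat_lit 205) (nat_lit 18) (.n (nat_lit 206) (nat_lit 72) (.p (nat_lit 207) (nat_lit 72) (.n (nat_lit 208) (nat_lit 60) (.n (nat_lit 210) (nat_lit 6) (.p (nat_lit 211) (nat_lit 78) (.n (nat_lit 212) (nat_lit 48) (.n (nat_lit 213) (nat_lit 48) (.n (nat_lit 214) (nat_lit 6) (.n (nat_lit 215) (nat_lit 168) (.p (nat_lit 218) (nat_lit 54) (.n (nat_lit 219) (nat_lit 18) (.p (nat_lit 220) (nat_lit 18) (.n (nat_lit 222) (nat_lit 18) (.n (nat_lit 224) (nat_lit 18) (.p (nat_lit 225) (nat_lit 18) (.n (nat_lit 226) (nat_lit 18) (.n (nat_lit 228) (nat_lit 54) (.n (nat_lit 229) (nat_lit 72) (.p (nat_lit 232) (nat_lit 54) (.n (nat_lit 235) (nat_lit 72) (.n (nat_lit 237) (nat_lit 18) (.p (nat_lit 238) (nat_lit 90) (.n (nat_lit 239) (nat_lit 72) .z)))))))))))))))))))))))))))))))))))))) (.ct dr2_c4626 (nat_lit 18) (nat_lit 9) (.s false (nat_lit 1) (nat_lit 18) (nat_lit 2) (nat_lit 1) (nat_lit 3) true (nat_lit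 6) true (nat_lit 12) true (nat_lit 1) true (nat_lit 13) true (nat_lit 14) (.s false (nat_lit 1) (nat_lit 18) (nat_lit 2) (nat_lit 3) (nat_lit 1) true (nat_lit 9) true (nat_lit 14) true (nat_lit 1) true (nat_lit 13) true (nat_lit 12) (.s false (nat_lit 1) (nat_lit 18) (nat_lit 3) (nat_lit 2) (nat_lit 1) true (nat_lit 7) true (nat_lit 14) true (nat_lit 1) true (nat_lit 12) true (nat_lit 13) (.s true (nat_lit 1) (nat_lit 23) (nat_lit 3) (nat_lit 1) (nat_lit 0) true (nat_lit 8) true (nat_lit 15) false (nat_lit 1) true (nat_lit 12) true (nat_lit 14) (.e false (nat_lit 18) (nat_lit 40) (nat_lit 9) (nat_lit 6) (.e true (nat_lit 18) (nat_lit 106) (nat_lit 2) (nat_lit 13) (.e false (nat_lit 18) (nat_lit 120) (nat_lit 1) (nat_lit 14) (.e true (nat_lit 18) (nat_lit 91) (nat_lit 3) (nat_lit 12) (.e true (nat_lit 18) (nat_lit 46) (nat_lit 8) (nat_lit 7) (.e false (nat_lit 18) (nat_lit 87) (nat_lit 3) (nat_lit 12) (.e true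 (nat_lit 18) (nat_lit 92) (nat_lit 3) (nat_lit 12) (.e true (nat_lit 18) (nat_lit 93) (nat_lit 3) (nat_lit 12) (.e true (nat_lit 18) (nat_lit 94) (nat_lit 3) (nat_lit 12) (.e false (nat_lit 18) (nat_lit 98) (nat_lit 3) (nat_lit 12) (.e true (nat_lit 18) (nat_lit 99) (nat_lit 3) (nat_lit 12) (.e false (nat_lit 18) (nat_lit 101) (nat_lit 3) (nat_lit 12) (.e false (nat_lit 18) (nat_lit 53) (nat_lit 7) (nat_lit 8) (.e true (nat_lit 18) (nat_lit 145) (nat_lit 0) (nat_lit 15) (.e true (nat_lit 18) (nat_lit 86) (nat_lit 3) (nat_lit 12) (.e false (nat_lit 18) (nat_lit 95) (nat_lit 3) (nat_lit 12) (.e true (nat_lit 18) (nat_lit 103) (nat_lit 3) (nat_lit 12) (.e false (nat_lit 18) (nat_lit 124) (nat_lit 1) (nat_lit 14) .nil))))))))))))))))))))))) .leaf) (nat_lit 58376) (nat_lit 435) (.n (nat_lit 241) (nat_lit 9) (.p (nat_lit 242) (nat_lit 18) (.n (nat_lit 243) (nat_lit 18) (.p (nat_lit 244) (nat_lit 9) (.n (nat_lit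 246) (nat_lit 9) (.n (nat_lit 248) (nat_lit 9) (.p (nat_lit 249) (nat_lit 27) (.n (nat_lit 250) (nat_lit 9) (.p (nat_lit 251) (nat_lit 18) (.n (nat_lit 253) (nat_lit 9) (.n (nat_lit 254) (nat_lit 9) (.n (nat_lit 255) (nat_lit 9) (.n (nat_lit 256) (nat_lit 18) (.n (nat_lit 258) (nat_lit 9) (.p (nat_lit 261) (nat_lit 18) .z))))))))))))))) (.ct dr2_c4611 (nat_lit 72) (nat_lit 4) (.s true (nat_lit 2) (nat_lit 8) (nat_lit 0) (nat_lit 3) (nat_lit 8) true (nat_lit 1) true (nat_lit 4) true (nat_lit 4) true (nat_lit 9) true (nat_lit 7) dr2_i37)) .leaf) (nat_lit 58377) (nat_lit 509) (.p (nat_lit 308) (nat_lit 18) .z) .df (.nd .leaf (nat_lit 59393) (nat_lit 145) (.p (nat_lit 110) (nat_lit 18) .z) .df .leaf))) (nat_lit 59394) (nat_lit 172) (.p (nat_lit 128) (nat_lit 18) .z) .df (.nd (.nd (.nd (.nd .leaf (nat_lit 59395) (nat_lit 228) (.p (nat_lit 154) (nat_lit 18) .z) .df .leaf) (nat_lit 59398) (nat_lit 404) (.p (nat_lit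 210) (nat_lit 18) (.n (nat_lit 215) (nat_lit 18) (.n (nat_lit 220) (nat_lit 18) .z))) (.ct dr2_c4626 (nat_lit 18) (nat_lit 9) (.s true (nat_lit 1) (nat_lit 26) (nat_lit 1) (nat_lit 1) (nat_lit 2) true (nat_lit 9) true (nat_lit 13) false (nat_lit 2) true (nat_lit 14) true (nat_lit 14) (.e true (nat_lit 18) (nat_lit 110) (nat_lit 2) (nat_lit 13) (.e true (nat_lit 18) (nat_lit 139) (nat_lit 1) (nat_lit 14) (.e false (nat_lit 18) (nat_lit 133) (nat_lit 1) (nat_lit 14) .nil))))) .leaf) (nat_lit 59400) (nat_lit 447) (.n (nat_lit 244) (nat_lit 18) (.p (nat_lit 248) (nat_lit 18) (.p (nat_lit 249) (nat_lit 18) (.n (nat_lit 250) (nat_lit 18) (.n (nat_lit 251) (nat_lit 18) (.p (nat_lit 253) (nat_lit 18) (.n (nat_lit 256) (nat_lit 18) (.n (nat_lit 257) (nat_lit 36) .z)))))))) (.ct dr2_c4611 (nat_lit 18) (nat_lit 4) (.s true (nat_lit 1) (nat_lit 26) (nat_lit 1) (nat_lit 1) (nat_lit 3) true (nat_lit 4) true (nat_lit 7)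 false (nat_lit 0) true (nat_lit 8) true (nat_lit 8) (.e true (nat_lit 18) (nat_lit 110) (nat_lit 3) (nat_lit 7) (.e true (nat_lit 36) (nat_lit 161) (nat_lit 1) (nat_lit 8) (.e false (nat_lit 18) (nat_lit 151) (nat_lit 1) (nat_lit 8) (.e false (nat_lit 18) (nat_lit 152) (nat_lit 1) (nat_lit 8) (.e true (nat_lit 18) (nat_lit 153) (nat_lit 1) (nat_lit 8) (.e true (nat_lit 18) (nat_lit 154) (nat_lit 1) (nat_lit 8) (.e false (nat_lit 18) (nat_lit 157) (nat_lit 1) (nat_lit 8) (.e true (nat_lit 18) (nat_lit 160) (nat_lit 1) (nat_lit 8) .nil)))))))))) (.nd .leaf (nat_lit 59401) (nat_lit 512) (.n (nat_lit 262) (nat_lit 34) (.p (nat_lit 263) (nat_lit 14) (.n (nat_lit 264) (nat_lit 32) (.n (nat_lit 265) (nat_lit 40) (.p (nat_lit 266) (nat_lit 44) (.n (nat_lit 267) (nat_lit 40) (.p (nat_lit 268) (nat_lit 30) (.n (nat_lit 269) (nat_lit 34) (.p (nat_lit 270) (nat_lit 30) (.n (nat_lit 271) (nat_lit 16) (.n (nat_lit 272)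 (nat_lit 96) (.n (nat_lit 273) (nat_lit 4) (.n (nat_lit 274) (nat_lit 32) (.p (nat_lit 275) (nat_lit 42) (.p (nat_lit 276) (nat_lit 90) (.n (nat_lit 277) (nat_lit 102) (.p (nat_lit 278) (nat_lit 112) (.n (nat_lit 280) (nat_lit 50) (.n (nat_lit 281) (nat_lit 100) (.p (nat_lit 282) (nat_lit 92) (.p (nat_lit 283) (nat_lit 2) (.p (nat_lit 284) (nat_lit 10) (.p (nat_lit 285) (nat_lit 172) (.p (nat_lit 286) (nat_lit 54) (.p (nat_lit 287) (nat_lit 54) (.n (nat_lit 288) (nat_lit 18) (.n (nat_lit 289) (nat_lit 36) (.p (nat_lit 290) (nat_lit 42) (.p (nat_lit 291) (nat_lit 30) (.p (nat_lit 292) (nat_lit 6) (.n (nat_lit 294) (nat_lit 24) (.n (nat_lit 295) (nat_lit 48) (.p (nat_lit 298) (nat_lit 12) (.n (nat_lit 300) (nat_lit 12) (.n (nat_lit 301) (nat_lit 6) (.p (nat_lit 302) (nat_lit 12) (.p (nat_lit 303) (nat_lit 12) (.p (nat_lit 306) (nat_lit 6) (.n (nat_lit 307) (nat_lit 24) (.n (nat_lit 308) (nat_lit 12) .z))))))))))))))))))))))))))))))))))))))))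 (.ct dr2_c4371 (nat_lit 54) (nat_lit 5) (.s false (nat_lit 4) (nat_lit 7) (nat_lit 6) (nat_lit 3) (nat_lit 3) true (nat_lit 0) true (nat_lit 11) true (nat_lit 7) true (nat_lit 8) true (nat_lit 11) (.s false (nat_lit 5) (nat_lit 8) (nat_lit 2) (nat_lit 3) (nat_lit 7) true (nat_lit 1) true (nat_lit 7) true (nat_lit 6) true (nat_lit 12) true (nat_lit 11) (.s true (nat_lit 4) (nat_lit 8) (nat_lit 2) (nat_lit 7) (nat_lit 3) true (nat_lit 5) true (nat_lit 11) true (nat_lit 6) true (nat_lit 12) true (nat_lit 7) (.s false (nat_lit 3) (nat_lit 8) (nat_lit 3) (nat_lit 2) (nat_lit 7) false (nat_lit 0) true (nat_lit 7) true (nat_lit 6) true (nat_lit 11) true (nat_lit 12) (.s true (nat_lit 4) (nat_lit 8) (nat_lit 7) (nat_lit 2) (nat_lit 3) false (nat_lit 0) true (nat_lit 11) true (nat_lit 6) true (nat_lit 7) true (nat_lit 12) (.s true (nat_lit 1) (nat_lit 9) (nat_lit 0) (nat_lit 3) (nat_lit 8) true (nat_lit 2) true (nat_lit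 6) true (nat_lit 5) true (nat_lit 14) true (nat_lit 11) (.s false (nat_lit 4) (nat_lit 9) (nat_lit 1) (nat_lit 7) (nat_lit 3) true (nat_lit 6) true (nat_lit 11) true (nat_lit 5) true (nat_lit 13) true (nat_lit 7) (.s false (nat_lit 1) (nat_lit 9) (nat_lit 3) (nat_lit 0) (nat_lit 8) false (nat_lit 1) true (nat_lit 6) true (nat_lit 5) true (nat_lit 11) true (nat_lit 14) (.s true (nat_lit 1) (nat_lit 9) (nat_lit 8) (nat_lit 3) (nat_lit 0) true (nat_lit 2) true (nat_lit 14) true (nat_lit 5) true (nat_lit 6) true (nat_lit 11) (.s false (nat_lit 4) (nat_lit 10) (nat_lit 2) (nat_lit 7) (nat_lit 1) true (nat_lit 8) true (nat_lit 13) true (nat_lit 4) true (nat_lit 12) true (nat_lit 7) (.s true (nat_lit 2) (nat_lit 18) (nat_lit 2) (nat_lit 3) (nat_lit 3) true (nat_lit 5) true (nat_lit 11) true (nat_lit 2) true (nat_lit 12) true (nat_lit 11) (.s false (nat_lit 1) (nat_lit 20) (nat_lit 1) (nat_lit 3) (nat_lit 3) true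 (nat_lit 6) true (nat_lit 11) true (nat_lit 1) true (nat_lit 13) true (nat_lit 11) dr2_i44))))))))))))) .leaf)) (nat_lit 60417) (nat_lit 146) (.p (nat_lit 111) (nat_lit 18) .z) .df (.nd (.nd (.nd .leaf (nat_lit 60418) (nat_lit 173) (.p (nat_lit 129) (nat_lit 18) .z) .df .leaf) (nat_lit 60419) (nat_lit 229) (.p (nat_lit 155) (nat_lit 18) .z) .df .leaf) (nat_lit 60422) (nat_lit 390) (.n (nat_lit 194) (nat_lit 18) (.n (nat_lit 202) (nat_lit 18) (.p (nat_lit 205) (nat_lit 18) (.p (nat_lit 206) (nat_lit 18) (.n (nat_lit 207) (nat_lit 18) (.p (nat_lit 208) (nat_lit 18) (.n (nat_lit 210) (nat_lit 18) (.p (nat_lit 212) (nat_lit 18) (.p (nat_lit 213) (nat_lit 18) (.p (nat_lit 215) (nat_lit 18) (.n (nat_lit 221) (nat_lit 18) .z))))))))))) (.ct dr2_c4626 (nat_lit 18) (nat_lit 9) (.s true (nat_lit 1) (nat_lit 27) (nat_lit 1) (nat_lit 1) (nat_lit 2) true (nat_lit 9) true (nat_lit 13) false (nat_lit 2) true (nat_lit 14)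 true (nat_lit 14) (.e true (nat_lit 18) (nat_lit 111) (nat_lit 2) (nat_lit 13) (.e true (nat_lit 18) (nat_lit 117) (nat_lit 1) (nat_lit 14) (.e true (nat_lit 18) (nat_lit 125) (nat_lit 1) (nat_lit 14) (.e false (nat_lit 18) (nat_lit 128) (nat_lit 1) (nat_lit 14) (.e false (nat_lit 18) (nat_lit 129) (nat_lit 1) (nat_lit 14) (.e true (nat_lit 18) (nat_lit 130) (nat_lit 1) (nat_lit 14) (.e false (nat_lit 18) (nat_lit 131) (nat_lit 1) (nat_lit 14) (.e true (nat_lit 18) (nat_lit 133) (nat_lit 1) (nat_lit 14) (.e false (nat_lit 18) (nat_lit 135) (nat_lit 1) (nat_lit 14) (.e false (nat_lit 18) (nat_lit 136) (nat_lit 1) (nat_lit 14) (.e false (nat_lit 18) (nat_lit 139) (nat_lit 1) (nat_lit 14) .nil))))))))))))) (.nd .leaf (nat_lit 60424) (nat_lit 448) (.n (nat_lit 242) (nat_lit 18) (.n (nat_lit 245) (nat_lit 18) (.n (nat_lit 248) (nat_lit 18) (.n (nat_lit 249) (nat_lit 18) (.p (nat_lit 251) (nat_lit 18) (.n (nat_lit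 252) (nat_lit 18) (.p (nat_lit 253) (nat_lit 18) (.p (nat_lit 255) (nat_lit 18) (.p (nat_lit 256) (nat_lit 18) (.n (nat_lit 261) (nat_lit 18) .z)))))))))) (.ct dr2_c4611 (nat_lit 18) (nat_lit 4) (.s true (nat_lit 1) (nat_lit 27) (nat_lit 1) (nat_lit 1) (nat_lit 3) true (nat_lit 4) true (nat_lit 7) false (nat_lit 0) true (nat_lit 8) true (nat_lit 8) (.e true (nat_lit 18) (nat_lit 111) (nat_lit 3) (nat_lit 7) (.e true (nat_lit 36) (nat_lit 151) (nat_lit 1) (nat_lit 8) (.e true (nat_lit 36) (nat_lit 152) (nat_lit 1) (nat_lit 8) (.e false (nat_lit 18) (nat_lit 155) (nat_lit 1) (nat_lit 8) (.e true (nat_lit 36) (nat_lit 156) (nat_lit 1) (nat_lit 8) (.e false (nat_lit 18) (nat_lit 159) (nat_lit 1) (nat_lit 8) (.e false (nat_lit 18) (nat_lit 160) (nat_lit 1) (nat_lit 8) (.e false (nat_lit 18) (nat_lit 157) (nat_lit 1) (nat_lit 8) .nil)))))))))) .leaf)))) (nat_lit 60425) (nat_lit 510) (.p (nat_lit 262) (nat_lit 12)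 (.n (nat_lit 263) (nat_lit 24) (.p (nat_lit 264) (nat_lit 15) (.p (nat_lit 265) (nat_lit 21) (.n (nat_lit 266) (nat_lit 24) (.p (nat_lit 267) (nat_lit 12) (.n (nat_lit 268) (nat_lit 9) (.p (nat_lit 269) (nat_lit 30) (.n (nat_lit 270) (nat_lit 18) (.p (nat_lit 271) (nat_lit 12) (.p (nat_lit 272) (nat_lit 63) (.p (nat_lit 273) (nat_lit 3) (.p (nat_lit 274) (nat_lit 6) (.n (nat_lit 275) (nat_lit 36) (.n (nat_lit 276) (nat_lit 72) (.p (nat_lit 277) (nat_lit 63) (.n (nat_lit 278) (nat_lit 66) (.p (nat_lit 280) (nat_lit 42) (.p (nat_lit 281) (nat_lit 57) (.n (nat_lit 282) (nat_lit 69) (.n (nat_lit 283) (nat_lit 6) (.n (nat_lit 284) (nat_lit 3) (.n (nat_lit 285) (nat_lit 93) (.n (nat_lit 286) (nat_lit 36) (.n (nat_lit 287) (nat_lit 27) (.n (nat_lit 288) (nat_lit 9) (.p (nat_lit 289) (nat_lit 27) (.n (nat_lit 290) (nat_lit 36) (.p (nat_lit 291) (nat_lit 9) (.n (nat_lit 292) (nat_lit 9) (.p (nat_lit 293) (nat_lit 9)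 (.p (nat_lit 294) (nat_lit 9) (.p (nat_lit 295) (nat_lit 9) (.n (nat_lit 296) (nat_lit 9) (.n (nat_lit 297) (nat_lit 9) (.n (nat_lit 298) (nat_lit 9) (.n (nat_lit 299) (nat_lit 9) (.p (nat_lit 300) (nat_lit 9) (.n (nat_lit 302) (nat_lit 9) (.p (nat_lit 304) (nat_lit 9) (.p (nat_lit 305) (nat_lit 9) (.n (nat_lit 306) (nat_lit 9) (.p (nat_lit 307) (nat_lit 9) .z))))))))))))))))))))))))))))))))))))))))))) (.ct dr2_c4371 (nat_lit 36) (nat_lit 5) (.s true (nat_lit 3) (nat_lit 7) (nat_lit 6) (nat_lit 3) (nat_lit 3) true (nat_lit 0) true (nat_lit 11) true (nat_lit 7) true (nat_lit 8) true (nat_lit 11) (.s true (nat_lit 2) (nat_lit 8) (nat_lit 2) (nat_lit 3) (nat_lit 7) true (nat_lit 1) true (nat_lit 7) true (nat_lit 6) true (nat_lit 12) true (nat_lit 11) (.s false (nat_lit 1) (nat_lit 8) (nat_lit 2) (nat_lit 7) (nat_lit 3) true (nat_lit 5) true (nat_lit 11) true (nat_lit 6) true (nat_lit 12) true (nat_lit 7) (.s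 false (nat_lit 1) (nat_lit 8) (nat_lit 7) (nat_lit 2) (nat_lit 3) false (nat_lit 0) true (nat_lit 11) true (nat_lit 6) true (nat_lit 7) true (nat_lit 12) (.s true (nat_lit 2) (nat_lit 9) (nat_lit 1) (nat_lit 7) (nat_lit 3) true (nat_lit 6) true (nat_lit 11) true (nat_lit 5) true (nat_lit 13) true (nat_lit 7) (.s false (nat_lit 1) (nat_lit 10) (nat_lit 0) (nat_lit 6) (nat_lit 3) true (nat_lit 7) true (nat_lit 11) true (nat_lit 4) true (nat_lit 14) true (nat_lit 8) (.s true (nat_lit 1) (nat_lit 10) (nat_lit 2) (nat_lit 7) (nat_lit 1) true (nat_lit 8) true (nat_lit 13) true (nat_lit 4) true (nat_lit 12) true (nat_lit 7) (.s false (nat_lit 1) (nat_lit 10) (nat_lit 6) (nat_lit 0) (nat_lit 3) true (nat_lit 0) true (nat_lit 11) true (nat_lit 4) true (nat_lit 8) true (nat_lit 14) (.s false (nat_lit 1) (nat_lit 21) (nat_lit 3) (nat_lit 1) (nat_lit 3) true (nat_lit 4) true (nat_lit 11) true (nat_lit 1) true (nat_lit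 11) true (nat_lit 13) (.s false (nat_lit 2) (nat_lit 23) (nat_lit 0) (nat_lit 3) (nat_lit 3) true (nat_lit 7) true (nat_lit 11) true (nat_lit 0) true (nat_lit 14) true (nat_lit 11) (.s false (nat_lit 2) (nat_lit 24) (nat_lit 3) (nat_lit 3) (nat_lit 0) true (nat_lit 7) true (nat_lit 14) true (nat_lit 0) true (nat_lit 11) true (nat_lit 11) dr2_i40)))))))))))) (.nd (.nd (.nd (.nd (.nd .leaf (nat_lit 61441) (nat_lit 147) (.p (nat_lit 112) (nat_lit 18) .z) .df .leaf) (nat_lit 61442) (nat_lit 174) (.p (nat_lit 130) (nat_lit 18) .z) .df .leaf) (nat_lit 61443) (nat_lit 230) (.p (nat_lit 156) (nat_lit 18) .z) .df (.nd .leaf (nat_lit 61446) (nat_lit 370) (.n (nat_lit 189) (nat_lit 54) (.p (nat_lit 190) (nat_lit 54) (.n (nat_lit 191) (nat_lit 54) (.n (nat_lit 192) (nat_lit 6) (.n (nat_lit 193) (nat_lit 42) (.n (nat_lit 194) (nat_lit 30) (.n (nat_lit 195) (nat_lit 42) (.p (nat_lit 196) (nat_lit 30) (.n (nat_lit 197) (nat_lit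 42) (.p (nat_lit 199) (nat_lit 12) (.n (nat_lit 201) (nat_lit 24) (.n (nat_lit 202) (nat_lit 54) (.p (nat_lit 203) (nat_lit 48) (.n (nat_lit 204) (nat_lit 12) (.p (nat_lit 205) (nat_lit 18) (.p (nat_lit 206) (nat_lit 54) (.n (nat_lit 207) (nat_lit 54) (.p (nat_lit 208) (nat_lit 60) (.p (nat_lit 210) (nat_lit 6) (.n (nat_lit 211) (nat_lit 60) (.p (nat_lit 212) (nat_lit 48) (.p (nat_lit 213) (nat_lit 30) (.p (nat_lit 214) (nat_lit 6) (.p (nat_lit 215) (nat_lit 114) (.n (nat_lit 218) (nat_lit 36) (.n (nat_lit 220) (nat_lit 18) (.p (nat_lit 224) (nat_lit 18) (.n (nat_lit 225) (nat_lit 18) (.p (nat_lit 226) (nat_lit 18) (.p (nat_lit 228) (nat_lit 36) (.p (nat_lit 229) (nat_lit 36) (.n (nat_lit 232) (nat_lit 36) (.p (nat_lit 235) (nat_lit 54) (.p (nat_lit 237) (nat_lit 18) (.n (nat_lit 238) (nat_lit 72) (.p (nat_lit 239) (nat_lit 36) .z)))))))))))))))))))))))))))))))))))) (.ct dr2_c4626 (nat_lit 18) (nat_lit 9)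 (.s true (nat_lit 1) (nat_lit 6) (nat_lit 3) (nat_lit 3) (nat_lit 4) true (nat_lit 1) true (nat_lit 11) true (nat_lit 9) true (nat_lit 12) true (nat_lit 12) (.s false (nat_lit 1) (nat_lit 9) (nat_lit 7) (nat_lit 1) (nat_lit 1) true (nat_lit 1) true (nat_lit 14) true (nat_lit 6) true (nat_lit 8) true (nat_lit 14) (.s false (nat_lit 1) (nat_lit 17) (nat_lit 2) (nat_lit 1) (nat_lit 3) true (nat_lit 6) true (nat_lit 12) true (nat_lit 1) true (nat_lit 13) true (nat_lit 14) (.s true (nat_lit 1) (nat_lit 18) (nat_lit 2) (nat_lit 1) (nat_lit 3) true (nat_lit 6) true (nat_lit 12) true (nat_lit 1) true (nat_lit 13) true (nat_lit 14) (.s false (nat_lit 1) (nat_lit 17) (nat_lit 2) (nat_lit 3) (nat_lit 1) true (nat_lit 9) true (nat_lit 14) true (nat_lit 1) true (nat_lit 13) true (nat_lit 12) (.s true (nat_lit 1) (nat_lit 18) (nat_lit 2) (nat_lit 3) (nat_lit 1) true (nat_lit 9) true (nat_lit 14) true (nat_lit 1) true (nat_lit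 13) true (nat_lit 12) (.s true (nat_lit 1) (nat_lit 18) (nat_lit 3) (nat_lit 2) (nat_lit 1) true (nat_lit 7) true (nat_lit 14) true (nat_lit 1) true (nat_lit 12) true (nat_lit 13) (.s true (nat_lit 1) (nat_lit 23) (nat_lit 0) (nat_lit 1) (nat_lit 3) true (nat_lit 8) true (nat_lit 12) false (nat_lit 1) true (nat_lit 15) true (nat_lit 14) (.s false (nat_lit 1) (nat_lit 23) (nat_lit 0) (nat_lit 3) (nat_lit 1) true (nat_lit 11) true (nat_lit 14) false (nat_lit 1) true (nat_lit 15) true (nat_lit 12) (.s false (nat_lit 1) (nat_lit 23) (nat_lit 3) (nat_lit 1) (nat_lit 0) true (nat_lit 8) true (nat_lit 15) false (nat_lit 1) true (nat_lit 12) true (nat_lit 14) (.s true (nat_lit 1) (nat_lit 26) (nat_lit 1) (nat_lit 1) (nat_lit 2) true (nat_lit 9) true (nat_lit 13) false (nat_lit 2) true (nat_lit 14) true (nat_lit 14) (.e false (nat_lit 36) (nat_lit 85) (nat_lit 3) (nat_lit 12) (.e true (nat_lit 18) (nat_lit 89) (nat_lit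 3) (nat_lit 12) (.e true (nat_lit 36) (nat_lit 95) (nat_lit 3) (nat_lit 12) (.e false (nat_lit 36) (nat_lit 103) (nat_lit 3) (nat_lit 12) (.e true (nat_lit 36) (nat_lit 87) (nat_lit 3) (nat_lit 12) (.e false (nat_lit 18) (nat_lit 88) (nat_lit 3) (nat_lit 12) dr2_i31)))))))))))))))))) .leaf)) (nat_lit 61448) (nat_lit 436) (.p (nat_lit 241) (nat_lit 45) (.n (nat_lit 244) (nat_lit 45) (.p (nat_lit 246) (nat_lit 27) (.p (nat_lit 248) (nat_lit 27) (.n (nat_lit 249) (nat_lit 63) (.p (nat_lit 250) (nat_lit 9) (.n (nat_lit 251) (nat_lit 90) (.p (nat_lit 252) (nat_lit 18) (.p (nat_lit 253) (nat_lit 45) (.p (nat_lit 254) (nat_lit 9) (.p (nat_lit 255) (nat_lit 27) (.p (nat_lit 256) (nat_lit 18) (.n (nat_lit 257) (nat_lit 36) (.p (nat_lit 258) (nat_lit 45) .z)))))))))))))) (.ct dr2_c4611 (nat_lit 18) (nat_lit 4) (.s false (nat_lit 1) (nat_lit 10) (nat_lit 7) (nat_lit 1) (nat_lit 1) true (nat_lit 1) true (nat_lit 8) true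 (nat_lit 3) true (nat_lit 5) true (nat_lit 8) (.s true (nat_lit 1) (nat_lit 10) (nat_lit 8) (nat_lit 0) (nat_lit 1) true (nat_lit 0) true (nat_lit 8) true (nat_lit 3) true (nat_lit 4) true (nat_lit 9) (.s true (nat_lit 1) (nat_lit 26) (nat_lit 1) (nat_lit 1) (nat_lit 3) true (nat_lit 4) true (nat_lit 7) false (nat_lit 0) true (nat_lit 8) true (nat_lit 8) (.s false (nat_lit 1) (nat_lit 27) (nat_lit 1) (nat_lit 1) (nat_lit 3) true (nat_lit 4) true (nat_lit 7) false (nat_lit 0) true (nat_lit 8) true (nat_lit 8) (.s false (nat_lit 1) (nat_lit 27) (nat_lit 3) (nat_lit 1) (nat_lit 1) true (nat_lit 4) true (nat_lit 8) false (nat_lit 0) true (nat_lit 7) true (nat_lit 8) (.s false (nat_lit 1) (nat_lit 29) (nat_lit 0) (nat_lit 3) (nat_lit 1) true (nat_lit 6) true (nat_lit 8) false (nat_lit 1) true (nat_lit 9) true (nat_lit 7) (.e true (nat_lit 36) (nat_lit 158) (nat_lit 1) (nat_lit 8) (.e false (nat_lit 18) (nat_lit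 39) (nat_lit 10) (nat_lit 3) (.e false (nat_lit 36) (nat_lit 152) (nat_lit 1) (nat_lit 8) (.e false (nat_lit 18) (nat_lit 156) (nat_lit 1) (nat_lit 8) (.e true (nat_lit 54) (nat_lit 160) (nat_lit 1) (nat_lit 8) (.e true (nat_lit 18) (nat_lit 40) (nat_lit 10) (nat_lit 3) (.e false (nat_lit 18) (nat_lit 56) (nat_lit 8) (nat_lit 4) (.e true (nat_lit 18) (nat_lit 57) (nat_lit 8) (nat_lit 4) (.e true (nat_lit 18) (nat_lit 110) (nat_lit 3) (nat_lit 7) (.e true (nat_lit 36) (nat_lit 161) (nat_lit 1) (nat_lit 8) (.e false (nat_lit 18) (nat_lit 151) (nat_lit 1) (nat_lit 8) (.e false (nat_lit 18) (nat_lit 111) (nat_lit 3) (nat_lit 7) (.e true (nat_lit 18) (nat_lit 159) (nat_lit 1) (nat_lit 8) (.e false (nat_lit 18) (nat_lit 80) (nat_lit 4) (nat_lit 6) (.e true (nat_lit 18) (nat_lit 114) (nat_lit 3) (nat_lit 7) .nil)))))))))))))))))))))) (.nd (.nd (.nd .leaf (nat_lit 61449) (nat_lit 511) (.n (nat_lit 262) (nat_lit 48)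 (.n (nat_lit 263) (nat_lit 30) (.n (nat_lit 264) (nat_lit 42) (.n (nat_lit 265) (nat_lit 30) (.p (nat_lit 266) (nat_lit 24) (.n (nat_lit 267) (nat_lit 66) (.p (nat_lit 268) (nat_lit 54) (.p (nat_lit 269) (nat_lit 6) (.p (nat_lit 270) (nat_lit 18) (.n (nat_lit 271) (nat_lit 12) (.n (nat_lit 272) (nat_lit 72) (.p (nat_lit 273) (nat_lit 6) (.n (nat_lit 274) (nat_lit 24) (.p (nat_lit 275) (nat_lit 36) (.p (nat_lit 276) (nat_lit 54) (.n (nat_lit 277) (nat_lit 72) (.p (nat_lit 278) (nat_lit 84) (.n (nat_lit 280) (nat_lit 6) (.n (nat_lit 281) (nat_lit 66) (.p (nat_lit 282) (nat_lit 42) (.n (nat_lit 283) (nat_lit 12) (.p (nat_lit 284) (nat_lit 12) (.p (nat_lit 285) (nat_lit 138) (.p (nat_lit 286) (nat_lit 36) (.p (nat_lit 287) (nat_lit 72) (.n (nat_lit 288) (nat_lit 36) (.n (nat_lit 289) (nat_lit 18) (.p (nat_lit 290) (nat_lit 18) (.p (nat_lit 291) (nat_lit 36) (.n (nat_lit 292) (nat_lit 18) (.n (nat_lit 293) (nat_lit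 18) (.n (nat_lit 294) (nat_lit 36) (.n (nat_lit 295) (nat_lit 36) (.n (nat_lit 296) (nat_lit 18) (.n (nat_lit 297) (nat_lit 18) (.n (nat_lit 299) (nat_lit 18) (.n (nat_lit 300) (nat_lit 18) (.n (nat_lit 301) (nat_lit 18) (.p (nat_lit 302) (nat_lit 18) (.p (nat_lit 303) (nat_lit 36) (.p (nat_lit 304) (nat_lit 36) (.p (nat_lit 305) (nat_lit 18) (.n (nat_lit 306) (nat_lit 36) (.n (nat_lit 307) (nat_lit 18) .z)))))))))))))))))))))))))))))))))))))))))))) (.ct dr2_c4371 (nat_lit 18) (nat_lit 5) (.s false (nat_lit 3) (nat_lit 7) (nat_lit 6) (nat_lit 3) (nat_lit 3) true (nat_lit 0) true (nat_lit 11) true (nat_lit 7) true (nat_lit 8) true (nat_lit 11) (.s true (nat_lit 2) (nat_lit 8) (nat_lit 2) (nat_lit 7) (nat_lit 3) true (nat_lit 5) true (nat_lit 11) true (nat_lit 6) true (nat_lit 12) true (nat_lit 7) (.s false (nat_lit 2) (nat_lit 8) (nat_lit 3) (nat_lit 2) (nat_lit 7) false (nat_lit 0) true (nat_lit 7) true (nat_lit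 6) true (nat_lit 11) true (nat_lit 12) (.s false (nat_lit 1) (nat_lit 9) (nat_lit 1) (nat_lit 7) (nat_lit 3) true (nat_lit 6) true (nat_lit 11) true (nat_lit 5) true (nat_lit 13) true (nat_lit 7) (.s false (nat_lit 1) (nat_lit 9) (nat_lit 3) (nat_lit 0) (nat_lit 8) false (nat_lit 1) true (nat_lit 6) true (nat_lit 5) true (nat_lit 11) true (nat_lit 14) (.s true (nat_lit 1) (nat_lit 9) (nat_lit 7) (nat_lit 1) (nat_lit 3) false (nat_lit 0) true (nat_lit 11) true (nat_lit 5) true (nat_lit 7) true (nat_lit 13) (.s true (nat_lit 1) (nat_lit 9) (nat_lit 8) (nat_lit 3) (nat_lit 0) true (nat_lit 2) true (nat_lit 14) true (nat_lit 5) true (nat_lit 6) true (nat_lit 11) (.s true (nat_lit 1) (nat_lit 10) (nat_lit 0) (nat_lit 6) (nat_lit 3) true (nat_lit 7) true (nat_lit 11) true (nat_lit 4) true (nat_lit 14) true (nat_lit 8) (.s false (nat_lit 1) (nat_lit 10) (nat_lit 2) (nat_lit 7) (nat_lit 1) true (nat_lit 8) true (nat_lit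 13) true (nat_lit 4) true (nat_lit 12) true (nat_lit 7) (.s true (nat_lit 1) (nat_lit 10) (nat_lit 6) (nat_lit 0) (nat_lit 3) true (nat_lit 0) true (nat_lit 11) true (nat_lit 4) true (nat_lit 8) true (nat_lit 14) (.s true (nat_lit 1) (nat_lit 18) (nat_lit 2) (nat_lit 3) (nat_lit 3) true (nat_lit 5) true (nat_lit 11) true (nat_lit 2) true (nat_lit 12) true (nat_lit 11) (.s true (nat_lit 1) (nat_lit 21) (nat_lit 1) (nat_lit 3) (nat_lit 3) true (nat_lit 6) true (nat_lit 11) true (nat_lit 1) true (nat_lit 13) true (nat_lit 11) (.s false (nat_lit 1) (nat_lit 22) (nat_lit 1) (nat_lit 3) (nat_lit 3) true (nat_lit 6) true (nat_lit 11) true (nat_lit 1) true (nat_lit 13) true (nat_lit 11) (.s true (nat_lit 1) (nat_lit 21) (nat_lit 3) (nat_lit 1) (nat_lit 3) true (nat_lit 4) true (nat_lit 11) true (nat_lit 1) true (nat_lit 11) true (nat_lit 13) (.s true (nat_lit 4) (nat_lit 23) (nat_lit 0) (nat_lit 3) (nat_lit 3) true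 (nat_lit 7) true (nat_lit 11) true (nat_lit 0) true (nat_lit 14) true (nat_lit 11) (.s true (nat_lit 1) (nat_lit 24) (nat_lit 3) (nat_lit 3) (nat_lit 0) true (nat_lit 7) true (nat_lit 14) true (nat_lit 0) true (nat_lit 11) true (nat_lit 11) (.s false (nat_lit 2) (nat_lit 25) (nat_lit 3) (nat_lit 3) (nat_lit 0) true (nat_lit 7) true (nat_lit 14) true (nat_lit 0) true (nat_lit 11) true (nat_lit 11) (.s false (nat_lit 1) (nat_lit 26) (nat_lit 1) (nat_lit 2) (nat_lit 3) true (nat_lit 6) true (nat_lit 11) false (nat_lit 0) true (nat_lit 13) true (nat_lit 12) (.s true (nat_lit 1) (nat_lit 27) (nat_lit 1) (nat_lit 2) (nat_lit 3) true (nat_lit 6) true (nat_lit 11) false (nat_lit 0) true (nat_lit 13) true (nat_lit 12) dr2_i42)))))))))))))))))))) .leaf) (nat_lit 62464) (nat_lit 148) (.p (nat_lit 113) (nat_lit 18) .z) .df .leaf) (nat_lit 62466) (nat_lit 208) (.p (nat_lit 143) (nat_lit 18) .z) .df (.nd .leaf (nat_lit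 62467) (nat_lit 245) (.p (nat_lit 162) (nat_lit 18) .z) .df .leaf))) (nat_lit 62469) (nat_lit 386) (.p (nat_lit 189) (nat_lit 81) (.n (nat_lit 190) (nat_lit 99) (.p (nat_lit 191) (nat_lit 99) (.n (nat_lit 192) (nat_lit 12) (.p (nat_lit 193) (nat_lit 24) (.n (nat_lit 194) (nat_lit 15) (.n (nat_lit 195) (nat_lit 12) (.n (nat_lit 196) (nat_lit 39) (.n (nat_lit 197) (nat_lit 30) (.p (nat_lit 198) (nat_lit 54) (.p (nat_lit 199) (nat_lit 33) (.p (nat_lit 200) (nat_lit 18) (.p (nat_lit 201) (nat_lit 60) (.p (nat_lit 202) (nat_lit 63) (.p (nat_lit 203) (nat_lit 24) (.n (nat_lit 204) (nat_lit 33) (.p (nat_lit 205) (nat_lit 27) (.n (nat_lit 206) (nat_lit 45) (.p (nat_lit 207) (nat_lit 27) (.n (nat_lit 208) (nat_lit 15) (.n (nat_lit 210) (nat_lit 15) (.p (nat_lit 211) (nat_lit 24) (.n (nat_lit 212) (nat_lit 3) (.p (nat_lit 213) (nat_lit 24) (.p (nat_lit 214) (nat_lit 3) (.n (nat_lit 215) (nat_lit 96) (.n (nat_lit 216)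 (nat_lit 54) (.p (nat_lit 218) (nat_lit 36) (.n (nat_lit 219) (nat_lit 27) (.p (nat_lit 220) (nat_lit 18) (.n (nat_lit 221) (nat_lit 27) (.n (nat_lit 222) (nat_lit 18) (.p (nat_lit 223) (nat_lit 27) (.p (nat_lit 224) (nat_lit 81) (.n (nat_lit 225) (nat_lit 81) (.p (nat_lit 226) (nat_lit 63) (.n (nat_lit 227) (nat_lit 18) (.n (nat_lit 228) (nat_lit 9) (.p (nat_lit 229) (nat_lit 18) (.p (nat_lit 230) (nat_lit 36) (.n (nat_lit 231) (nat_lit 18) (.p (nat_lit 232) (nat_lit 27) (.n (nat_lit 233) (nat_lit 36) (.p (nat_lit 234) (nat_lit 36) (.n (nat_lit 235) (nat_lit 81) (.p (nat_lit 236) (nat_lit 18) (.n (nat_lit 237) (nat_lit 72) (.p (nat_lit 238) (nat_lit 36) (.n (nat_lit 239) (nat_lit 18) (.p (nat_lit 240) (nat_lit 18) .z)))))))))))))))))))))))))))))))))))))))))))))))))) (.ct dr2_c4626 (nat_lit 18) (nat_lit 10) (.s true (nat_lit 1) (nat_lit 19) (nat_lit 0) (nat_lit 3) (nat_lit 2) true (nat_lit 10) true (nat_lit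 13) true (nat_lit 0) true (nat_lit 15) true (nat_lit 12) (.s true (nat_lit 1) (nat_lit 21) (nat_lit 3) (nat_lit 1) (nat_lit 1) true (nat_lit 7) true (nat_lit 14) false (nat_lit 0) true (nat_lit 12) true (nat_lit 14) (.e true (nat_lit 54) (nat_lit 104) (nat_lit 2) (nat_lit 13) (.e false (nat_lit 18) (nat_lit 105) (nat_lit 2) (nat_lit 13) (.e true (nat_lit 36) (nat_lit 106) (nat_lit 2) (nat_lit 13) (.e false (nat_lit 18) (nat_lit 107) (nat_lit 2) (nat_lit 13) (.e false (nat_lit 36) (nat_lit 108) (nat_lit 2) (nat_lit 13) (.e true (nat_lit 36) (nat_lit 109) (nat_lit 2) (nat_lit 13) (.e false (nat_lit 18) (nat_lit 110) (nat_lit 2) (nat_lit 13) (.e true (nat_lit 18) (nat_lit 111) (nat_lit 2) (nat_lit 13) (.e true (nat_lit 18) (nat_lit 112) (nat_lit 2) (nat_lit 13) (.e false (nat_lit 18) (nat_lit 114) (nat_lit 2) (nat_lit 13) (.e false (nat_lit 18) (nat_lit 142) (nat_lit 0) (nat_lit 15) (.e true (nat_lit 18) (nat_lit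 145) (nat_lit 0) (nat_lit 15) (.e true (nat_lit 18) (nat_lit 146) (nat_lit 0) (nat_lit 15) (.e true (nat_lit 18) (nat_lit 147) (nat_lit 0) (nat_lit 15) (.e false (nat_lit 18) (nat_lit 149) (nat_lit 0) (nat_lit 15) (.e true (nat_lit 18) (nat_lit 150) (nat_lit 0) (nat_lit 15) (.e false (nat_lit 18) (nat_lit 101) (nat_lit 3) (nat_lit 12) (.e false (nat_lit 18) (nat_lit 48) (nat_lit 8) (nat_lit 7) (.e true (nat_lit 18) (nat_lit 132) (nat_lit 1) (nat_lit 14) (.e false (nat_lit 18) (nat_lit 122) (nat_lit 1) (nat_lit 14) .nil))))))))))))))))))))))) (.nd (.nd (.nd (.nd .leaf (nat_lit 62471) (nat_lit 453) (.p (nat_lit 244) (nat_lit 18) (.n (nat_lit 245) (nat_lit 27) (.n (nat_lit 248) (nat_lit 18) (.p (nat_lit 249) (nat_lit 18) (.p (nat_lit 251) (nat_lit 54) (.n (nat_lit 252) (nat_lit 18) (.n (nat_lit 253) (nat_lit 9) (.p (nat_lit 255) (nat_lit 9) (.p (nat_lit 256) (nat_lit 9) (.p (nat_lit 257) (nat_lit 18) (.n (nat_lit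 258) (nat_lit 27) (.n (nat_lit 259) (nat_lit 9) (.n (nat_lit 261) (nat_lit 36) .z))))))))))))) (.ct dr2_c4611 (nat_lit 18) (nat_lit 5) (.s true (nat_lit 1) (nat_lit 8) (nat_lit 1) (nat_lit 3) (nat_lit 7) true (nat_lit 1) true (nat_lit 5) true (nat_lit 4) true (nat_lit 8) true (nat_lit 7) (.s false (nat_lit 1) (nat_lit 17) (nat_lit 3) (nat_lit 1) (nat_lit 3) true (nat_lit 3) true (nat_lit 7) true (nat_lit 1) true (nat_lit 7) true (nat_lit 8) (.e true (nat_lit 18) (nat_lit 55) (nat_lit 8) (nat_lit 4) (.e true (nat_lit 18) (nat_lit 56) (nat_lit 8) (nat_lit 4) (.e false (nat_lit 18) (nat_lit 59) (nat_lit 8) (nat_lit 4) (.e true (nat_lit 18) (nat_lit 60) (nat_lit 8) (nat_lit 4) (.e true (nat_lit 18) (nat_lit 161) (nat_lit 1) (nat_lit 8) (.e false (nat_lit 18) (nat_lit 108) (nat_lit 3) (nat_lit 7) (.e true (nat_lit 18) (nat_lit 39) (nat_lit 10) (nat_lit 3) (.e false (nat_lit 18) (nat_lit 105) (nat_lit 3) (nat_lit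 7) (.e true (nat_lit 18) (nat_lit 110) (nat_lit 3) (nat_lit 7) (.e false (nat_lit 18) (nat_lit 152) (nat_lit 1) (nat_lit 8) .nil))))))))))))) .leaf) (nat_lit 62473) (nat_lit 608) (.n (nat_lit 309) (nat_lit 36) (.p (nat_lit 311) (nat_lit 9) (.p (nat_lit 312) (nat_lit 81) (.p (nat_lit 313) (nat_lit 45) (.n (nat_lit 314) (nat_lit 9) (.n (nat_lit 315) (nat_lit 36) (.n (nat_lit 316) (nat_lit 45) (.p (nat_lit 317) (nat_lit 90) (.n (nat_lit 319) (nat_lit 9) (.n (nat_lit 321) (nat_lit 18) (.n (nat_lit 322) (nat_lit 9) (.n (nat_lit 323) (nat_lit 27) (.p (nat_lit 324) (nat_lit 27) (.n (nat_lit 325) (nat_lit 18) (.p (nat_lit 326) (nat_lit 18) (.p (nat_lit 328) (nat_lit 9) (.p (nat_lit 329) (nat_lit 18) .z))))))))))))))))) (.ct dr2_c531 (nat_lit 18) (nat_lit 4) (.s false (nat_lit 1) (nat_lit 9) (nat_lit 1) (nat_lit 8) (nat_lit 3) true (nat_lit 5) true (nat_lit 7) true (nat_lit 4) true (nat_lit 9) true (nat_lit 5) (.e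 true (nat_lit 18) (nat_lit 70) (nat_lit 8) (nat_lit 5) (.e true (nat_lit 18) (nat_lit 71) (nat_lit 8) (nat_lit 5) (.e false (nat_lit 18) (nat_lit 74) (nat_lit 8) (nat_lit 5) (.e true (nat_lit 18) (nat_lit 142) (nat_lit 3) (nat_lit 7) (.e false (nat_lit 18) (nat_lit 145) (nat_lit 3) (nat_lit 7) (.e false (nat_lit 18) (nat_lit 146) (nat_lit 3) (nat_lit 7) (.e true (nat_lit 18) (nat_lit 149) (nat_lit 3) (nat_lit 7) (.e false (nat_lit 36) (nat_lit 150) (nat_lit 3) (nat_lit 7) (.e false (nat_lit 18) (nat_lit 188) (nat_lit 1) (nat_lit 9) .nil))))))))))) .leaf) (nat_lit 63488) (nat_lit 153) (.p (nat_lit 104) (nat_lit 36) (.p (nat_lit 106) (nat_lit 36) (.n (nat_lit 107) (nat_lit 36) (.n (nat_lit 108) (nat_lit 54) (.p (nat_lit 109) (nat_lit 18) (.n (nat_lit 110) (nat_lit 18) (.p (nat_lit 111) (nat_lit 36) (.n (nat_lit 112) (nat_lit 18) (.n (nat_lit 113) (nat_lit 18) .z))))))))) (.ct dr2_c4610 (nat_lit 18) (nat_lit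 6) (.s false (nat_lit 1) (nat_lit 7) (nat_lit 3) (nat_lit 1) (nat_lit 1) true (nat_lit 1) true (nat_lit 5) true (nat_lit 2) true (nat_lit 4) true (nat_lit 5) (.s false (nat_lit 1) (nat_lit 8) (nat_lit 0) (nat_lit 1) (nat_lit 3) true (nat_lit 2) true (nat_lit 4) true (nat_lit 1) true (nat_lit 6) true (nat_lit 5) (.e true (nat_lit 18) (nat_lit 17) (nat_lit 8) (nat_lit 1) (.e false (nat_lit 18) (nat_lit 58) (nat_lit 1) (nat_lit 5) (.e true (nat_lit 18) (nat_lit 56) (nat_lit 1) (nat_lit 5) (.e false (nat_lit 18) (nat_lit 40) (nat_lit 3) (nat_lit 4) (.e false (nat_lit 18) (nat_lit 16) (nat_lit 8) (nat_lit 1) (.e true (nat_lit 18) (nat_lit 61) (nat_lit 0) (nat_lit 6) (.e false (nat_lit 18) (nat_lit 63) (nat_lit 0) (nat_lit 6) (.e true (nat_lit 18) (nat_lit 60) (nat_lit 1) (nat_lit 5) .nil))))))))))) (.nd .leaf (nat_lit 63490) (nat_lit 219) (.p (nat_lit 140) (nat_lit 36) (.n (nat_lit 141) (nat_lit 36) (.n (nat_lit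 143) (nat_lit 18) (.n (nat_lit 145) (nat_lit 36) (.n (nat_lit 146) (nat_lit 18) (.n (nat_lit 147) (nat_lit 18) (.p (nat_lit 148) (nat_lit 18) (.p (nat_lit 149) (nat_lit 36) (.n (nat_lit 150) (nat_lit 54) .z))))))))) (.ct dr2_c530 (nat_lit 18) (nat_lit 5) (.s true (nat_lit 1) (nat_lit 8) (nat_lit 2) (nat_lit 3) (nat_lit 1) true (nat_lit 3) true (nat_lit 6) true (nat_lit 2) true (nat_lit 5) true (nat_lit 4) (.s true (nat_lit 1) (nat_lit 9) (nat_lit 3) (nat_lit 1) (nat_lit 1) true (nat_lit 2) true (nat_lit 6) true (nat_lit 1) true (nat_lit 4) true (nat_lit 6) (.e false (nat_lit 18) (nat_lit 28) (nat_lit 6) (nat_lit 3) (.e true (nat_lit 18) (nat_lit 71) (nat_lit 1) (nat_lit 6) (.e true (nat_lit 18) (nat_lit 61) (nat_lit 2) (nat_lit 5) (.e false (nat_lit 18) (nat_lit 63) (nat_lit 2) (nat_lit 5) (.e false (nat_lit 18) (nat_lit 52) (nat_lit 3) (nat_lit 4) (.e true (nat_lit 18) (nat_lit 75) (nat_lit 1) (nat_lit 6)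 (.e false (nat_lit 18) (nat_lit 19) (nat_lit 9) (nat_lit 1) (.e false (nat_lit 18) (nat_lit 72) (nat_lit 1) (nat_lit 6) .nil))))))))))) .leaf)) (nat_lit 63491) (nat_lit 252) (.n (nat_lit 162) (nat_lit 18) (.p (nat_lit 165) (nat_lit 18) (.p (nat_lit 166) (nat_lit 18) .z))) (.ct dr2_c515 (nat_lit 18) (nat_lit 2) (.s true (nat_lit 1) (nat_lit 8) (nat_lit 1) (nat_lit 3) (nat_lit 3) true (nat_lit 1) true (nat_lit 2) true (nat_lit 1) true (nat_lit 3) true (nat_lit 2) (.e true (nat_lit 18) (nat_lit 61) (nat_lit 3) (nat_lit 2) (.e false (nat_lit 18) (nat_lit 80) (nat_lit 1) (nat_lit 3) (.e false (nat_lit 18) (nat_lit 81) (nat_lit 1) (nat_lit 3) .nil))))) (.nd (.nd .leaf (nat_lit 63493) (nat_lit 375) (.n (nat_lit 189) (nat_lit 135) (.p (nat_lit 190) (nat_lit 189) (.n (nat_lit 191) (nat_lit 189) (.p (nat_lit 193) (nat_lit 72) (.p (nat_lit 194) (nat_lit 99) (.p (nat_lit 195) (nat_lit 126) (.p (nat_lit 196) (nat_lit 135)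 (.p (nat_lit 197) (nat_lit 180) (.n (nat_lit 198) (nat_lit 108) (.n (nat_lit 199) (nat_lit 153) (.n (nat_lit 200) (nat_lit 108) (.n (nat_lit 201) (nat_lit 252) (.n (nat_lit 202) (nat_lit 117) (.n (nat_lit 203) (nat_lit 72) (.p (nat_lit 204) (nat_lit 63) (.n (nat_lit 205) (nat_lit 81) (.p (nat_lit 206) (nat_lit 81) (.n (nat_lit 207) (nat_lit 81) (.p (nat_lit 208) (nat_lit 81) (.n (nat_lit 210) (nat_lit 27) (.n (nat_lit 211) (nat_lit 36) (.p (nat_lit 212) (nat_lit 81) (.n (nat_lit 213) (nat_lit 90) (.p (nat_lit 214) (nat_lit 9) (.p (nat_lit 215) (nat_lit 126) (.p (nat_lit 216) (nat_lit 54) (.n (nat_lit 218) (nat_lit 18) (.p (nat_lit 219) (nat_lit 27) (.p (nat_lit 220) (nat_lit 36) (.p (nat_lit 221) (nat_lit 27) (.n (nat_lit 222) (nat_lit 36) (.n (nat_lit 223) (nat_lit 27) (.n (nat_lit 224) (nat_lit 171) (.p (nat_lit 225) (nat_lit 99) (.n (nat_lit 226) (nat_lit 117) (.p (nat_lit 227) (nat_lit 54) (.n (nat_lit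 228) (nat_lit 9) (.n (nat_lit 229) (nat_lit 54) (.p (nat_lit 231) (nat_lit 54) (.n (nat_lit 232) (nat_lit 45) (.p (nat_lit 235) (nat_lit 135) (.n (nat_lit 236) (nat_lit 54) (.p (nat_lit 237) (nat_lit 144) (.n (nat_lit 238) (nat_lit 72) (.n (nat_lit 239) (nat_lit 54) (.n (nat_lit 240) (nat_lit 54) .z)))))))))))))))))))))))))))))))))))))))))))))) (.ct dr2_c4626 (nat_lit 18) (nat_lit 10) (.s true (nat_lit 1) (nat_lit 14) (nat_lit 1) (nat_lit 3) (nat_lit 3) true (nat_lit 7) true (nat_lit 12) true (nat_lit 3) true (nat_lit 14) true (nat_lit 12) (.s false (nat_lit 1) (nat_lit 28) (nat_lit 2) (nat_lit 1) (nat_lit 0) true (nat_lit 10) true (nat_lit 15) false (nat_lit 3) true (nat_lit 13) true (nat_lit 14) (.e true (nat_lit 18) (nat_lit 43) (nat_lit 8) (nat_lit 7) (.e true (nat_lit 18) (nat_lit 88) (nat_lit 3) (nat_lit 12) (.e true (nat_lit 18) (nat_lit 117) (nat_lit 1) (nat_lit 14) (.e true (nat_lit 18) (nat_lit 118)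 (nat_lit 1) (nat_lit 14) (.e true (nat_lit 18) (nat_lit 119) (nat_lit 1) (nat_lit 14) (.e true (nat_lit 18) (nat_lit 120) (nat_lit 1) (nat_lit 14) (.e false (nat_lit 18) (nat_lit 121) (nat_lit 1) (nat_lit 14) (.e false (nat_lit 18) (nat_lit 122) (nat_lit 1) (nat_lit 14) (.e false (nat_lit 18) (nat_lit 123) (nat_lit 1) (nat_lit 14) (.e false (nat_lit 36) (nat_lit 124) (nat_lit 1) (nat_lit 14) (.e false (nat_lit 18) (nat_lit 136) (nat_lit 1) (nat_lit 14) (.e false (nat_lit 18) (nat_lit 139) (nat_lit 1) (nat_lit 14) (.e true (nat_lit 18) (nat_lit 94) (nat_lit 3) (nat_lit 12) (.e false (nat_lit 18) (nat_lit 148) (nat_lit 0) (nat_lit 15) (.e true (nat_lit 18) (nat_lit 104) (nat_lit 2) (nat_lit 13) (.e false (nat_lit 18) (nat_lit 110) (nat_lit 2) (nat_lit 13) (.e true (nat_lit 18) (nat_lit 112) (nat_lit 2) (nat_lit 13) (.e true (nat_lit 18) (nat_lit 130) (nat_lit 1) (nat_lit 14) .nil))))))))))))))))))))) .leaf)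 (nat_lit 63495) (nat_lit 452) (.p (nat_lit 241) (nat_lit 18) (.p (nat_lit 242) (nat_lit 54) (.n (nat_lit 244) (nat_lit 36) (.p (nat_lit 245) (nat_lit 9) (.p (nat_lit 246) (nat_lit 18) (.p (nat_lit 248) (nat_lit 18) (.n (nat_lit 251) (nat_lit 54) (.p (nat_lit 252) (nat_lit 18) (.p (nat_lit 253) (nat_lit 9) (.n (nat_lit 255) (nat_lit 9) (.n (nat_lit 256) (nat_lit 9) (.n (nat_lit 257) (nat_lit 54) (.p (nat_lit 258) (nat_lit 27) (.n (nat_lit 259) (nat_lit 9) (.p (nat_lit 261) (nat_lit 54) .z))))))))))))))) (.ct dr2_c4611 (nat_lit 18) (nat_lit 5) (.s true (nat_lit 1) (nat_lit 8) (nat_lit 1) (nat_lit 7) (nat_lit 3) true (nat_lit 4) true (nat_lit 7) true (nat_lit 4) true (nat_lit 8) true (nat_lit 5) (.e false (nat_lit 18) (nat_lit 55) (nat_lit 8) (nat_lit 4) (.e false (nat_lit 36) (nat_lit 56) (nat_lit 8) (nat_lit 4) (.e true (nat_lit 18) (nat_lit 59) (nat_lit 8) (nat_lit 4) (.e false (nat_lit 18) (nat_lit 60) (nat_lit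 8) (nat_lit 4) (.e true (nat_lit 18) (nat_lit 105) (nat_lit 3) (nat_lit 7) (.e false (nat_lit 18) (nat_lit 107) (nat_lit 3) (nat_lit 7) (.e false (nat_lit 36) (nat_lit 108) (nat_lit 3) (nat_lit 7) (.e true (nat_lit 18) (nat_lit 111) (nat_lit 3) (nat_lit 7) (.e false (nat_lit 18) (nat_lit 112) (nat_lit 3) (nat_lit 7) (.e true (nat_lit 18) (nat_lit 161) (nat_lit 1) (nat_lit 8) .nil)))))))))))) (.nd .leaf (nat_lit 63497) (nat_lit 611) (.p (nat_lit 309) (nat_lit 378) (.n (nat_lit 310) (nat_lit 90) (.n (nat_lit 311) (nat_lit 153) (.n (nat_lit 312) (nat_lit 693) (.n (nat_lit 313) (nat_lit 351) (.p (nat_lit 314) (nat_lit 171) (.p (nat_lit 315) (nat_lit 378) (.p (nat_lit 316) (nat_lit 333) (.n (nat_lit 317) (nat_lit 864) (.n (nat_lit 318) (nat_lit 126) (.p (nat_lit 319) (nat_lit 45) (.p (nat_lit 320) (nat_lit 216) (.p (nat_lit 321) (nat_lit 288) (.n (nat_lit 322) (nat_lit 117) (.p (nat_lit 323) (nat_lit 63) (.n (nat_lit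 324) (nat_lit 261) (.p (nat_lit 325) (nat_lit 252) (.n (nat_lit 326) (nat_lit 18) (.n (nat_lit 327) (nat_lit 234) (.n (nat_lit 328) (nat_lit 81) (.n (nat_lit 329) (nat_lit 216) .z))))))))))))))))))))) (.ct dr2_c531 (nat_lit 18) (nat_lit 4) (.s false (nat_lit 1) (nat_lit 8) (nat_lit 2) (nat_lit 3) (nat_lit 8) true (nat_lit 0) true (nat_lit 5) true (nat_lit 5) true (nat_lit 8) true (nat_lit 7) (.s false (nat_lit 1) (nat_lit 28) (nat_lit 3) (nat_lit 1) (nat_lit 2) true (nat_lit 4) true (nat_lit 8) false (nat_lit 0) true (nat_lit 7) true (nat_lit 9) (.e false (nat_lit 36) (nat_lit 71) (nat_lit 8) (nat_lit 5) (.e false (nat_lit 18) (nat_lit 70) (nat_lit 8) (nat_lit 5) (.e true (nat_lit 18) (nat_lit 74) (nat_lit 8) (nat_lit 5) (.e false (nat_lit 18) (nat_lit 75) (nat_lit 8) (nat_lit 5) (.e false (nat_lit 18) (nat_lit 162) (nat_lit 2) (nat_lit 8) (.e true (nat_lit 18) (nat_lit 166) (nat_lit 2) (nat_lit 8) (.e true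 (nat_lit 18) (nat_lit 140) (nat_lit 3) (nat_lit 7) (.e false (nat_lit 18) (nat_lit 145) (nat_lit 3) (nat_lit 7) (.e false (nat_lit 36) (nat_lit 146) (nat_lit 3) (nat_lit 7) (.e true (nat_lit 18) (nat_lit 149) (nat_lit 3) (nat_lit 7) (.e false (nat_lit 36) (nat_lit 150) (nat_lit 3) (nat_lit 7) (.e true (nat_lit 18) (nat_lit 142) (nat_lit 3) (nat_lit 7) (.e true (nat_lit 18) (nat_lit 181) (nat_lit 1) (nat_lit 9) .nil)))))))))))))))) .leaf))))) (nat_lit 64512) (nat_lit 149) (.p (nat_lit 114) (nat_lit 18) .z) .df (.nd (.nd (.nd (.nd (.nd (.nd .leaf (nat_lit 64514) (nat_lit 209) (.p (nat_lit 144) (nat_lit 18) .z) .df .leaf) (nat_lit 64515) (nat_lit 246) (.p (nat_lit 163) (nat_lit 18) .z) .df .leaf) (nat_lit 64517) (nat_lit 383) (.p (nat_lit 189) (nat_lit 18) (.p (nat_lit 190) (nat_lit 18) (.n (nat_lit 191) (nat_lit 18) (.n (nat_lit 192) (nat_lit 24) (.n (nat_lit 193) (nat_lit 6) (.p (nat_lit 194) (nat_lit 150)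 (.p (nat_lit 195) (nat_lit 48) (.p (nat_lit 196) (nat_lit 84) (.p (nat_lit 197) (nat_lit 138) (.n (nat_lit 198) (nat_lit 126) (.n (nat_lit 199) (nat_lit 6) (.n (nat_lit 200) (nat_lit 126) (.n (nat_lit 201) (nat_lit 42) (.p (nat_lit 202) (nat_lit 36) (.n (nat_lit 203) (nat_lit 114) (.p (nat_lit 204) (nat_lit 24) (.n (nat_lit 205) (nat_lit 90) (.n (nat_lit 206) (nat_lit 99) (.p (nat_lit 207) (nat_lit 18) (.n (nat_lit 208) (nat_lit 102) (.p (nat_lit 210) (nat_lit 6) (.p (nat_lit 211) (nat_lit 165) (.n (nat_lit 212) (nat_lit 150) (.n (nat_lit 213) (nat_lit 132) (.p (nat_lit 214) (nat_lit 42) (.n (nat_lit 215) (nat_lit 210) (.p (nat_lit 216) (nat_lit 162) (.n (nat_lit 218) (nat_lit 27) (.p (nat_lit 219) (nat_lit 117) (.n (nat_lit 220) (nat_lit 81) (.p (nat_lit 221) (nat_lit 63) (.p (nat_lit 222) (nat_lit 117) (.n (nat_lit 223) (nat_lit 81) (.n (nat_lit 224) (nat_lit 162) (.p (nat_lit 225) (nat_lit 54) (.n (nat_lit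 226) (nat_lit 90) (.p (nat_lit 227) (nat_lit 72) (.n (nat_lit 228) (nat_lit 90) (.p (nat_lit 229) (nat_lit 18) (.p (nat_lit 231) (nat_lit 90) (.n (nat_lit 235) (nat_lit 18) (.n (nat_lit 236) (nat_lit 72) (.p (nat_lit 237) (nat_lit 72) (.p (nat_lit 238) (nat_lit 72) (.p (nat_lit 239) (nat_lit 18) (.n (nat_lit 240) (nat_lit 90) .z)))))))))))))))))))))))))))))))))))))))))))))) (.ct dr2_c4626 (nat_lit 18) (nat_lit 10) (.s true (nat_lit 1) (nat_lit 10) (nat_lit 1) (nat_lit 1) (nat_lit 5) true (nat_lit 3) true (nat_lit 10) true (nat_lit 5) true (nat_lit 14) true (nat_lit 14) (.s false (nat_lit 1) (nat_lit 29) (nat_lit 0) (nat_lit 2) (nat_lit 1) true (nat_lit 11) true (nat_lit 14) false (nat_lit 3) true (nat_lit 15) true (nat_lit 13) (.e false (nat_lit 18) (nat_lit 117) (nat_lit 1) (nat_lit 14) (.e false (nat_lit 18) (nat_lit 131) (nat_lit 1) (nat_lit 14) (.e true (nat_lit 18) (nat_lit 133) (nat_lit 1) (nat_lit 14)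 (.e false (nat_lit 18) (nat_lit 135) (nat_lit 1) (nat_lit 14) (.e true (nat_lit 18) (nat_lit 136) (nat_lit 1) (nat_lit 14) (.e false (nat_lit 18) (nat_lit 138) (nat_lit 1) (nat_lit 14) (.e true (nat_lit 18) (nat_lit 139) (nat_lit 1) (nat_lit 14) (.e true (nat_lit 18) (nat_lit 125) (nat_lit 1) (nat_lit 14) (.e false (nat_lit 18) (nat_lit 74) (nat_lit 4) (nat_lit 11) (.e false (nat_lit 18) (nat_lit 128) (nat_lit 1) (nat_lit 14) (.e true (nat_lit 18) (nat_lit 130) (nat_lit 1) (nat_lit 14) (.e false (nat_lit 18) (nat_lit 144) (nat_lit 0) (nat_lit 15) (.e false (nat_lit 36) (nat_lit 145) (nat_lit 0) (nat_lit 15) (.e true (nat_lit 36) (nat_lit 148) (nat_lit 0) (nat_lit 15) (.e true (nat_lit 18) (nat_lit 149) (nat_lit 0) (nat_lit 15) (.e false (nat_lit 36) (nat_lit 150) (nat_lit 0) (nat_lit 15) (.e true (nat_lit 18) (nat_lit 114) (nat_lit 2) (nat_lit 13) .nil)))))))))))))))))))) (.nd .leaf (nat_lit 64519) (nat_lit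 451) (.p (nat_lit 242) (nat_lit 36) (.p (nat_lit 249) (nat_lit 36) (.n (nat_lit 253) (nat_lit 18) (.n (nat_lit 254) (nat_lit 18) (.n (nat_lit 259) (nat_lit 18) (.p (nat_lit 261) (nat_lit 36) .z)))))) (.ct dr2_c4611 (nat_lit 18) (nat_lit 5) (.s true (nat_lit 1) (nat_lit 8) (nat_lit 1) (nat_lit 3) (nat_lit 7) true (nat_lit 1) true (nat_lit 5) true (nat_lit 4) true (nat_lit 8) true (nat_lit 7) (.s true (nat_lit 1) (nat_lit 8) (nat_lit 1) (nat_lit 7) (nat_lit 3) true (nat_lit 4) true (nat_lit 7) true (nat_lit 4) true (nat_lit 8) true (nat_lit 5) (.s false (nat_lit 1) (nat_lit 8) (nat_lit 7) (nat_lit 1) (nat_lit 3) false (nat_lit 0) true (nat_lit 7) true (nat_lit 4) true (nat_lit 5) true (nat_lit 8) (.s false (nat_lit 1) (nat_lit 17) (nat_lit 3) (nat_lit 1) (nat_lit 3) true (nat_lit 3) true (nat_lit 7) true (nat_lit 1) true (nat_lit 7) true (nat_lit 8) (.s true (nat_lit 1) (nat_lit 26) (nat_lit 1) (nat_lit 3) (nat_lit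 1) false (nat_lit 10) true (nat_lit 8) false (nat_lit 0) true (nat_lit 8) true (nat_lit 7) (.e false (nat_lit 36) (nat_lit 56) (nat_lit 8) (nat_lit 4) (.e false (nat_lit 36) (nat_lit 108) (nat_lit 3) (nat_lit 7) (.e false (nat_lit 36) (nat_lit 152) (nat_lit 1) (nat_lit 8) (.e true (nat_lit 18) (nat_lit 157) (nat_lit 1) (nat_lit 8) (.e true (nat_lit 18) (nat_lit 158) (nat_lit 1) (nat_lit 8) (.e true (nat_lit 18) (nat_lit 39) (nat_lit 10) (nat_lit 3) .nil)))))))))))) .leaf)) (nat_lit 64521) (nat_lit 612) (.p (nat_lit 309) (nat_lit 306) (.n (nat_lit 310) (nat_lit 90) (.n (nat_lit 311) (nat_lit 126) (.n (nat_lit 312) (nat_lit 594) (.n (nat_lit 313) (nat_lit 306) (.p (nat_lit 314) (nat_lit 126) (.p (nat_lit 315) (nat_lit 324) (.p (nat_lit 316) (nat_lit 288) (.n (nat_lit 317) (nat_lit 720) (.n (nat_lit 318) (nat_lit 126) (.p (nat_lit 319) (nat_lit 18) (.p (nat_lit 320) (nat_lit 216) (.p (nat_lit 321) (nat_lit 288)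 (.n (nat_lit 322) (nat_lit 72) (.p (nat_lit 323) (nat_lit 90) (.n (nat_lit 324) (nat_lit 216) (.p (nat_lit 325) (nat_lit 234) (.n (nat_lit 326) (nat_lit 54) (.n (nat_lit 327) (nat_lit 162) (.n (nat_lit 328) (nat_lit 72) (.n (nat_lit 329) (nat_lit 162) .z))))))))))))))))))))) (.ct dr2_c531 (nat_lit 18) (nat_lit 4) (.s false (nat_lit 1) (nat_lit 10) (nat_lit 1) (nat_lit 9) (nat_lit 1) false (nat_lit 10) true (nat_lit 9) true (nat_lit 3) true (nat_lit 9) true (nat_lit 4) (.e false (nat_lit 36) (nat_lit 178) (nat_lit 1) (nat_lit 9) (.e false (nat_lit 18) (nat_lit 179) (nat_lit 1) (nat_lit 9) (.e true (nat_lit 36) (nat_lit 182) (nat_lit 1) (nat_lit 9) (.e false (nat_lit 54) (nat_lit 183) (nat_lit 1) (nat_lit 9) (.e true (nat_lit 18) (nat_lit 54) (nat_lit 10) (nat_lit 3) (.e false (nat_lit 18) (nat_lit 180) (nat_lit 1) (nat_lit 9) (.e true (nat_lit 18) (nat_lit 181) (nat_lit 1) (nat_lit 9) (.e false (nat_lit 18)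 (nat_lit 184) (nat_lit 1) (nat_lit 9) (.e false (nat_lit 18) (nat_lit 185) (nat_lit 1) (nat_lit 9) .nil))))))))))) (.nd (.nd (.nd .leaf (nat_lit 65537) (nat_lit 175) (.p (nat_lit 131) (nat_lit 18) .z) .df .leaf) (nat_lit 65539) (nat_lit 254) (.p (nat_lit 167) (nat_lit 18) .z) .df .leaf) (nat_lit 65544) (nat_lit 524) (.p (nat_lit 262) (nat_lit 162) (.p (nat_lit 263) (nat_lit 270) (.p (nat_lit 264) (nat_lit 126) (.p (nat_lit 265) (nat_lit 90) (.n (nat_lit 266) (nat_lit 54) (.p (nat_lit 267) (nat_lit 270) (.n (nat_lit 268) (nat_lit 216) (.n (nat_lit 269) (nat_lit 180) (.n (nat_lit 270) (nat_lit 36) (.n (nat_lit 271) (nat_lit 72) (.p (nat_lit 272) (nat_lit 144) (.n (nat_lit 273) (nat_lit 108) (.n (nat_lit 274) (nat_lit 90) (.n (nat_lit 275) (nat_lit 72) (.n (nat_lit 276) (nat_lit 54) (.p (nat_lit 277) (nat_lit 54) (.n (nat_lit 278) (nat_lit 180) (.n (nat_lit 280) (nat_lit 72) (.p (nat_lit 281) (nat_lit 90) (.p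 (nat_lit 282) (nat_lit 90) (.p (nat_lit 283) (nat_lit 72) (.n (nat_lit 284) (nat_lit 36) (.n (nat_lit 285) (nat_lit 270) (.p (nat_lit 286) (nat_lit 36) (.n (nat_lit 287) (nat_lit 126) (.p (nat_lit 288) (nat_lit 144) (.n (nat_lit 289) (nat_lit 144) (.p (nat_lit 290) (nat_lit 144) (.p (nat_lit 292) (nat_lit 126) (.p (nat_lit 293) (nat_lit 180) (.p (nat_lit 294) (nat_lit 90) (.p (nat_lit 295) (nat_lit 36) (.p (nat_lit 296) (nat_lit 54) (.p (nat_lit 297) (nat_lit 180) (.p (nat_lit 298) (nat_lit 144) (.p (nat_lit 299) (nat_lit 36) (.n (nat_lit 300) (nat_lit 18) (.n (nat_lit 301) (nat_lit 18) (.n (nat_lit 303) (nat_lit 144) (.n (nat_lit 304) (nat_lit 180) (.n (nat_lit 305) (nat_lit 180) (.p (nat_lit 306) (nat_lit 216) (.p (nat_lit 307) (nat_lit 18) (.n (nat_lit 308) (nat_lit 216) .z)))))))))))))))))))))))))))))))))))))))))))) (.ct dr2_c4371 (nat_lit 36) (nat_lit 6) (.s false (nat_lit 1) (nat_lit 8) (nat_lit 3) (nat_lit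 2) (nat_lit 7) false (nat_lit 0) true (nat_lit 7) true (nat_lit 6) true (nat_lit 11) true (nat_lit 12) (.s false (nat_lit 1) (nat_lit 8) (nat_lit 7) (nat_lit 2) (nat_lit 3) false (nat_lit 0) true (nat_lit 11) true (nat_lit 6) true (nat_lit 7) true (nat_lit 12) (.s false (nat_lit 1) (nat_lit 9) (nat_lit 0) (nat_lit 8) (nat_lit 3) true (nat_lit 7) true (nat_lit 11) true (nat_lit 5) true (nat_lit 14) true (nat_lit 6) (.s true (nat_lit 1) (nat_lit 20) (nat_lit 1) (nat_lit 3) (nat_lit 3) true (nat_lit 6) true (nat_lit 11) true (nat_lit 1) true (nat_lit 13) true (nat_lit 11) (.s false (nat_lit 2) (nat_lit 26) (nat_lit 3) (nat_lit 1) (nat_lit 2) true (nat_lit 5) true (nat_lit 12) false (nat_lit 0) true (nat_lit 11) true (nat_lit 13) (.s true (nat_lit 1) (nat_lit 28) (nat_lit 0) (nat_lit 2) (nat_lit 3) true (nat_lit 7) true (nat_lit 11) false (nat_lit 1) true (nat_lit 14) true (nat_lit 12) (.e false (nat_lit 18) (nat_lit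 68) (nat_lit 8) (nat_lit 6) (.e true (nat_lit 12) (nat_lit 117) (nat_lit 3) (nat_lit 11) (.e true (nat_lit 24) (nat_lit 118) (nat_lit 3) (nat_lit 11) (.e true (nat_lit 6) (nat_lit 120) (nat_lit 3) (nat_lit 11) (.e false (nat_lit 12) (nat_lit 122) (nat_lit 3) (nat_lit 11) (.e false (nat_lit 18) (nat_lit 123) (nat_lit 3) (nat_lit 11) (.e false (nat_lit 12) (nat_lit 124) (nat_lit 3) (nat_lit 11) (.e true (nat_lit 54) (nat_lit 125) (nat_lit 3) (nat_lit 11) (.e false (nat_lit 54) (nat_lit 129) (nat_lit 3) (nat_lit 11) (.e true (nat_lit 72) (nat_lit 130) (nat_lit 3) (nat_lit 11) (.e true (nat_lit 18) (nat_lit 132) (nat_lit 3) (nat_lit 11) dr2_i62)))))))))))))))))) (.nd .leaf (nat_lit 66561) (nat_lit 176) (.p (nat_lit 132) (nat_lit 18) .z) .df .leaf))) (nat_lit 66563) (nat_lit 255) (.p (nat_lit 168) (nat_lit 18) .z) .df (.nd (.nd (.nd (.nd .leaf (nat_lit 66568) (nat_lit 519) (.n (nat_lit 262) (nat_lit 68) (.p (nat_lit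 263) (nat_lit 28) (.n (nat_lit 264) (nat_lit 64) (.n (nat_lit 265) (nat_lit 80) (.p (nat_lit 266) (nat_lit 88) (.n (nat_lit 267) (nat_lit 80) (.p (nat_lit 268) (nat_lit 60) (.n (nat_lit 269) (nat_lit 68) (.p (nat_lit 270) (nat_lit 60) (.n (nat_lit 271) (nat_lit 32) (.n (nat_lit 272) (nat_lit 174) (.p (nat_lit 273) (nat_lit 10) (.n (nat_lit 274) (nat_lit 64) (.p (nat_lit 275) (nat_lit 102) (.p (nat_lit 276) (nat_lit 162) (.n (nat_lit 277) (nat_lit 186) (.p (nat_lit 278) (nat_lit 206) (.n (nat_lit 279) (nat_lit 18) (.n (nat_lit 280) (nat_lit 82) (.n (nat_lit 281) (nat_lit 182) (.p (nat_lit 282) (nat_lit 166) (.p (nat_lit 283) (nat_lit 4) (.p (nat_lit 284) (nat_lit 20) (.p (nat_lit 285) (nat_lit 308) (.p (nat_lit 286) (nat_lit 72) (.p (nat_lit 287) (nat_lit 54) (.n (nat_lit 289) (nat_lit 72) (.p (nat_lit 290) (nat_lit 84) (.p (nat_lit 291) (nat_lit 42) (.p (nat_lit 292) (nat_lit 30) (.n (nat_lit 294) (nat_lit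 12) (.n (nat_lit 295) (nat_lit 60) (.p (nat_lit 297) (nat_lit 18) (.p (nat_lit 298) (nat_lit 60) (.n (nat_lit 300) (nat_lit 42) (.n (nat_lit 301) (nat_lit 30) (.p (nat_lit 302) (nat_lit 60) (.p (nat_lit 303) (nat_lit 24) (.p (nat_lit 306) (nat_lit 12) (.n (nat_lit 307) (nat_lit 30) (.n (nat_lit 308) (nat_lit 24) .z))))))))))))))))))))))))))))))))))))))))) (.ct dr2_c4371 (nat_lit 18) (nat_lit 6) (.s true (nat_lit 1) (nat_lit 8) (nat_lit 7) (nat_lit 2) (nat_lit 3) false (nat_lit 0) true (nat_lit 11) true (nat_lit 6) true (nat_lit 7) true (nat_lit 12) (.s false (nat_lit 1) (nat_lit 9) (nat_lit 7) (nat_lit 1) (nat_lit 3) false (nat_lit 0) true (nat_lit 11) true (nat_lit 5) true (nat_lit 7) true (nat_lit 13) (.s true (nat_lit 1) (nat_lit 26) (nat_lit 1) (nat_lit 3) (nat_lit 2) true (nat_lit 8) true (nat_lit 12) false (nat_lit 0) true (nat_lit 13) true (nat_lit 11) (.s true (nat_lit 1) (nat_lit 26) (nat_lit 2) (nat_lit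 3) (nat_lit 1) true (nat_lit 8) true (nat_lit 13) false (nat_lit 0) true (nat_lit 12) true (nat_lit 11) (.s true (nat_lit 2) (nat_lit 26) (nat_lit 3) (nat_lit 1) (nat_lit 2) true (nat_lit 5) true (nat_lit 12) false (nat_lit 0) true (nat_lit 11) true (nat_lit 13) dr2_i56)))))) .leaf) (nat_lit 67585) (nat_lit 186) (.n (nat_lit 115) (nat_lit 12) (.n (nat_lit 116) (nat_lit 12) (.p (nat_lit 117) (nat_lit 12) (.p (nat_lit 118) (nat_lit 6) (.p (nat_lit 119) (nat_lit 6) (.p (nat_lit 120) (nat_lit 6) (.n (nat_lit 121) (nat_lit 18) (.p (nat_lit 122) (nat_lit 6) (.n (nat_lit 123) (nat_lit 18) (.n (nat_lit 124) (nat_lit 12) (.p (nat_lit 125) (nat_lit 18) (.p (nat_lit 126) (nat_lit 6) (.n (nat_lit 127) (nat_lit 6) (.n (nat_lit 129) (nat_lit 18) (.n (nat_lit 131) (nat_lit 6) (.p (nat_lit 132) (nat_lit 18) (.p (nat_lit 133) (nat_lit 12) (.p (nat_lit 134) (nat_lit 6) (.n (nat_lit 135) (nat_lit 12) (.n (nat_lit 136) (nat_lit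 12) (.p (nat_lit 138) (nat_lit 12) (.n (nat_lit 139) (nat_lit 24) .z)))))))))))))))))))))) (.ct dr2_c4370 (nat_lit 18) (nat_lit 9) (.s false (nat_lit 1) (nat_lit 4) (nat_lit 2) (nat_lit 3) (nat_lit 3) true (nat_lit 1) true (nat_lit 7) true (nat_lit 6) true (nat_lit 8) true (nat_lit 7) (.s false (nat_lit 1) (nat_lit 7) (nat_lit 2) (nat_lit 1) (nat_lit 3) true (nat_lit 1) true (nat_lit 7) true (nat_lit 3) true (nat_lit 8) true (nat_lit 9) (.s false (nat_lit 1) (nat_lit 7) (nat_lit 2) (nat_lit 3) (nat_lit 1) true (nat_lit 4) true (nat_lit 9) true (nat_lit 3) true (nat_lit 8) true (nat_lit 7) (.s true (nat_lit 1) (nat_lit 9) (nat_lit 0) (nat_lit 1) (nat_lit 3) true (nat_lit 3) true (nat_lit 7) true (nat_lit 1) true (nat_lit 10) true (nat_lit 9) (.s true (nat_lit 1) (nat_lit 9) (nat_lit 0) (nat_lit 3) (nat_lit 1) true (nat_lit 6) true (nat_lit 9) true (nat_lit 1) true (nat_lit 10) true (nat_lit 7) (.e false (nat_lit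 36) (nat_lit 41) (nat_lit 3) (nat_lit 7) (.e true (nat_lit 36) (nat_lit 30) (nat_lit 4) (nat_lit 6) (.e true (nat_lit 18) (nat_lit 56) (nat_lit 2) (nat_lit 8) (.e false (nat_lit 18) (nat_lit 57) (nat_lit 2) (nat_lit 8) (.e true (nat_lit 18) (nat_lit 58) (nat_lit 2) (nat_lit 8) (.e false (nat_lit 18) (nat_lit 60) (nat_lit 2) (nat_lit 8) (.e false (nat_lit 36) (nat_lit 48) (nat_lit 3) (nat_lit 7) (.e true (nat_lit 18) (nat_lit 23) (nat_lit 7) (nat_lit 3) (.e true (nat_lit 18) (nat_lit 67) (nat_lit 1) (nat_lit 9) (.e true (nat_lit 18) (nat_lit 26) (nat_lit 6) (nat_lit 4) (.e false (nat_lit 18) (nat_lit 65) (nat_lit 1) (nat_lit 9) (.e true (nat_lit 36) (nat_lit 45) (nat_lit 3) (nat_lit 7) (.e false (nat_lit 18) (nat_lit 69) (nat_lit 1) (nat_lit 9) (.e true (nat_lit 18) (nat_lit 43) (nat_lit 3) (nat_lit 7) (.e false (nat_lit 18) (nat_lit 50) (nat_lit 3) (nat_lit 7) .nil))))))))))))))))))))) .leaf) (nat_lit 67587)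 (nat_lit 256) (.p (nat_lit 169) (nat_lit 18) .z) .df (.nd .leaf (nat_lit 67592) (nat_lit 538) (.n (nat_lit 262) (nat_lit 70) (.n (nat_lit 263) (nat_lit 22) (.n (nat_lit 264) (nat_lit 86) (.n (nat_lit 265) (nat_lit 76) (.p (nat_lit 266) (nat_lit 62) (.n (nat_lit 267) (nat_lit 112) (.p (nat_lit 268) (nat_lit 102) (.n (nat_lit 269) (nat_lit 16) (.p (nat_lit 270) (nat_lit 66) (.p (nat_lit 271) (nat_lit 2) (.n (nat_lit 272) (nat_lit 168) (.p (nat_lit 273) (nat_lit 32) (.n (nat_lit 274) (nat_lit 32) (.p (nat_lit 275) (nat_lit 96) (.p (nat_lit 276) (nat_lit 144) (.n (nat_lit 277) (nat_lit 156) (.p (nat_lit 278) (nat_lit 184) (.n (nat_lit 279) (nat_lit 18) (.n (nat_lit 280) (nat_lit 50) (.n (nat_lit 281) (nat_lit 154) (.p (nat_lit 282) (nat_lit 110) (.p (nat_lit 283) (nat_lit 2) (.p (nat_lit 284) (nat_lit 10) (.p (nat_lit 285) (nat_lit 298) (.p (nat_lit 286) (nat_lit 36) (.p (nat_lit 287) (nat_lit 72) (.n (nat_lit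 288) (nat_lit 36) (.n (nat_lit 289) (nat_lit 18) (.p (nat_lit 290) (nat_lit 24) (.p (nat_lit 291) (nat_lit 30) (.n (nat_lit 292) (nat_lit 12) (.n (nat_lit 293) (nat_lit 36) (.n (nat_lit 294) (nat_lit 42) (.n (nat_lit 295) (nat_lit 48) (.n (nat_lit 296) (nat_lit 18) (.n (nat_lit 297) (nat_lit 18) (.p (nat_lit 298) (nat_lit 12) (.n (nat_lit 300) (nat_lit 30) (.n (nat_lit 301) (nat_lit 24) (.p (nat_lit 302) (nat_lit 48) (.p (nat_lit 303) (nat_lit 48) (.p (nat_lit 304) (nat_lit 36) (.p (nat_lit 305) (nat_lit 36) (.n (nat_lit 306) (nat_lit 30) (.n (nat_lit 307) (nat_lit 6) (.p (nat_lit 308) (nat_lit 6) .z)))))))))))))))))))))))))))))))))))))))))))))) (.ct dr2_c4371 (nat_lit 18) (nat_lit 6) (.s true (nat_lit 1) (nat_lit 8) (nat_lit 2) (nat_lit 7) (nat_lit 3) true (nat_lit 5) true (nat_lit 11) true (nat_lit 6) true (nat_lit 12) true (nat_lit 7) (.s true (nat_lit 1) (nat_lit 9) (nat_lit 0) (nat_lit 3) (nat_lit 8)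 true (nat_lit 2) true (nat_lit 6) true (nat_lit 5) true (nat_lit 14) true (nat_lit 11) (.s true (nat_lit 1) (nat_lit 18) (nat_lit 2) (nat_lit 3) (nat_lit 3) true (nat_lit 5) true (nat_lit 11) true (nat_lit 2) true (nat_lit 12) true (nat_lit 11) (.s false (nat_lit 1) (nat_lit 20) (nat_lit 1) (nat_lit 3) (nat_lit 3) true (nat_lit 6) true (nat_lit 11) true (nat_lit 1) true (nat_lit 13) true (nat_lit 11) (.s false (nat_lit 1) (nat_lit 28) (nat_lit 0) (nat_lit 2) (nat_lit 3) true (nat_lit 7) true (nat_lit 11) false (nat_lit 1) true (nat_lit 14) true (nat_lit 12) (.e true (nat_lit 12) (nat_lit 122) (nat_lit 3) (nat_lit 11) (.e false (nat_lit 6) (nat_lit 126) (nat_lit 3) (nat_lit 11) (.e false (nat_lit 30) (nat_lit 131) (nat_lit 3) (nat_lit 11) (.e true (nat_lit 12) (nat_lit 134) (nat_lit 3) (nat_lit 11) dr2_i72)))))))))) .leaf)) (nat_lit 68609) (nat_lit 177) (.p (nat_lit 133) (nat_lit 18) .z) .df (.nd (.nd (.nd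 .leaf (nat_lit 68611) (nat_lit 257) (.p (nat_lit 170) (nat_lit 18) .z) .df .leaf) (nat_lit 68616) (nat_lit 553) (.p (nat_lit 262) (nat_lit 20) (.n (nat_lit 263) (nat_lit 40) (.p (nat_lit 264) (nat_lit 4) (.p (nat_lit 265) (nat_lit 32) (.n (nat_lit 266) (nat_lit 46) (.p (nat_lit 267) (nat_lit 14) (.n (nat_lit 268) (nat_lit 6) (.p (nat_lit 269) (nat_lit 56) (.n (nat_lit 270) (nat_lit 24) (.p (nat_lit 271) (nat_lit 20) (.p (nat_lit 272) (nat_lit 66) (.n (nat_lit 273) (nat_lit 4) (.p (nat_lit 274) (nat_lit 40) (.n (nat_lit 275) (nat_lit 48) (.n (nat_lit 276) (nat_lit 72) (.p (nat_lit 277) (nat_lit 78) (.n (nat_lit 278) (nat_lit 86) (.p (nat_lit 280) (nat_lit 40) (.p (nat_lit 281) (nat_lit 80) (.n (nat_lit 282) (nat_lit 88) (.p (nat_lit 283) (nat_lit 2) (.n (nat_lit 284) (nat_lit 8) (.n (nat_lit 285) (nat_lit 116) (.n (nat_lit 286) (nat_lit 18) (.p (nat_lit 287) (nat_lit 18) (.n (nat_lit 288) (nat_lit 36) (.p (nat_lit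 289) (nat_lit 36) (.n (nat_lit 290) (nat_lit 48) (.n (nat_lit 291) (nat_lit 6) (.n (nat_lit 292) (nat_lit 30) (.n (nat_lit 293) (nat_lit 18) (.n (nat_lit 294) (nat_lit 24) (.p (nat_lit 295) (nat_lit 6) (.n (nat_lit 297) (nat_lit 18) (.n (nat_lit 298) (nat_lit 42) (.p (nat_lit 300) (nat_lit 24) (.p (nat_lit 301) (nat_lit 12) (.n (nat_lit 302) (nat_lit 42) (.p (nat_lit 303) (nat_lit 12) (.p (nat_lit 304) (nat_lit 18) (.p (nat_lit 305) (nat_lit 18) (.n (nat_lit 306) (nat_lit 30) (.p (nat_lit 307) (nat_lit 12) (.p (nat_lit 308) (nat_lit 24) .z)))))))))))))))))))))))))))))))))))))))))))) (.ct dr2_c4371 (nat_lit 18) (nat_lit 6) (.s true (nat_lit 1) (nat_lit 23) (nat_lit 0) (nat_lit 3) (nat_lit 3) true (nat_lit 7) true (nat_lit 11) true (nat_lit 0) true (nat_lit 14) true (nat_lit 11) (.s true (nat_lit 1) (nat_lit 26) (nat_lit 1) (nat_lit 2) (nat_lit 3) true (nat_lit 6) true (nat_lit 11) false (nat_lit 0) true (nat_lit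 13) true (nat_lit 12) (.e true (nat_lit 18) (nat_lit 70) (nat_lit 7) (nat_lit 7) (.e true (nat_lit 18) (nat_lit 124) (nat_lit 3) (nat_lit 11) (.e false (nat_lit 18) (nat_lit 187) (nat_lit 0) (nat_lit 14) (.e true (nat_lit 18) (nat_lit 136) (nat_lit 3) (nat_lit 11) (.e true (nat_lit 18) (nat_lit 128) (nat_lit 3) (nat_lit 11) (.e true (nat_lit 18) (nat_lit 177) (nat_lit 1) (nat_lit 13) (.e false (nat_lit 18) (nat_lit 151) (nat_lit 2) (nat_lit 12) (.e false (nat_lit 18) (nat_lit 152) (nat_lit 2) (nat_lit 12) (.e true (nat_lit 18) (nat_lit 153) (nat_lit 2) (nat_lit 12) (.e true (nat_lit 18) (nat_lit 154) (nat_lit 2) (nat_lit 12) (.e false (nat_lit 18) (nat_lit 157) (nat_lit 2) (nat_lit 12) (.e true (nat_lit 18) (nat_lit 160) (nat_lit 2) (nat_lit 12) (.e true (nat_lit 18) (nat_lit 161) (nat_lit 2) (nat_lit 12) .nil)))))))))))))))) .leaf) (nat_lit 69633) (nat_lit 178) (.p (nat_lit 134) (nat_lit 18) .z) .df (.nd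 .leaf (nat_lit 69635) (nat_lit 258) (.p (nat_lit 171) (nat_lit 18) .z) .df .leaf)))) (nat_lit 69640) (nat_lit 518) (.p (nat_lit 262) (nat_lit 122) (.p (nat_lit 263) (nat_lit 260) (.p (nat_lit 264) (nat_lit 64) (.p (nat_lit 265) (nat_lit 26) (.p (nat_lit 266) (nat_lit 2) (.p (nat_lit 267) (nat_lit 188) (.n (nat_lit 268) (nat_lit 150) (.n (nat_lit 269) (nat_lit 184) (.p (nat_lit 270) (nat_lit 12) (.n (nat_lit 271) (nat_lit 58) (.p (nat_lit 272) (nat_lit 30) (.n (nat_lit 273) (nat_lit 64) (.n (nat_lit 274) (nat_lit 98) (.n (nat_lit 275) (nat_lit 30) (.p (nat_lit 276) (nat_lit 54) (.n (nat_lit 277) (nat_lit 30) (.n (nat_lit 278) (nat_lit 26) (.n (nat_lit 280) (nat_lit 152) (.n (nat_lit 281) (nat_lit 34) (.p (nat_lit 282) (nat_lit 194) (.p (nat_lit 283) (nat_lit 86) (.n (nat_lit 284) (nat_lit 38) (.n (nat_lit 285) (nat_lit 56) (.p (nat_lit 286) (nat_lit 54) (.n (nat_lit 287) (nat_lit 108) (.p (nat_lit 288) (nat_lit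 126) (.n (nat_lit 289) (nat_lit 144) (.p (nat_lit 290) (nat_lit 150) (.p (nat_lit 291) (nat_lit 12) (.p (nat_lit 292) (nat_lit 132) (.p (nat_lit 293) (nat_lit 144) (.p (nat_lit 294) (nat_lit 66) (.n (nat_lit 295) (nat_lit 12) (.p (nat_lit 296) (nat_lit 54) (.p (nat_lit 297) (nat_lit 144) (.p (nat_lit 298) (nat_lit 138) (.p (nat_lit 299) (nat_lit 54) (.n (nat_lit 300) (nat_lit 12) (.n (nat_lit 301) (nat_lit 6) (.n (nat_lit 302) (nat_lit 6) (.n (nat_lit 303) (nat_lit 114) (.n (nat_lit 304) (nat_lit 162) (.n (nat_lit 305) (nat_lit 144) (.p (nat_lit 306) (nat_lit 204) (.p (nat_lit 307) (nat_lit 12) (.n (nat_lit 308) (nat_lit 174) .z)))))))))))))))))))))))))))))))))))))))))))))) (.ct dr2_c4371 (nat_lit 18) (nat_lit 6) (.s false (nat_lit 2) (nat_lit 7) (nat_lit 6) (nat_lit 3) (nat_lit 3) true (nat_lit 0) true (nat_lit 11) true (nat_lit 7) true (nat_lit 8) true (nat_lit 11) (.s false (nat_lit 1) (nat_lit 8) (nat_lit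 2) (nat_lit 7) (nat_lit 3) true (nat_lit 5) true (nat_lit 11) true (nat_lit 6) true (nat_lit 12) true (nat_lit 7) (.s true (nat_lit 2) (nat_lit 8) (nat_lit 3) (nat_lit 2) (nat_lit 7) false (nat_lit 0) true (nat_lit 7) true (nat_lit 6) true (nat_lit 11) true (nat_lit 12) (.s false (nat_lit 1) (nat_lit 8) (nat_lit 7) (nat_lit 2) (nat_lit 3) false (nat_lit 0) true (nat_lit 11) true (nat_lit 6) true (nat_lit 7) true (nat_lit 12) (.s false (nat_lit 1) (nat_lit 9) (nat_lit 1) (nat_lit 3) (nat_lit 7) true (nat_lit 2) true (nat_lit 7) true (nat_lit 5) true (nat_lit 13) true (nat_lit 11) (.s false (nat_lit 2) (nat_lit 9) (nat_lit 1) (nat_lit 7) (nat_lit 3) true (nat_lit 6) true (nat_lit 11) true (nat_lit 5) true (nat_lit 13) true (nat_lit 7) (.s true (nat_lit 2) (nat_lit 9) (nat_lit 7) (nat_lit 1) (nat_lit 3) false (nat_lit 0) true (nat_lit 11) true (nat_lit 5) true (nat_lit 7) true (nat_lit 13) (.s true (nat_lit 1)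 (nat_lit 10) (nat_lit 0) (nat_lit 6) (nat_lit 3) true (nat_lit 7) true (nat_lit 11) true (nat_lit 4) true (nat_lit 14) true (nat_lit 8) dr2_i55))))))))) (.nd (.nd (.nd (.nd (.nd .leaf (nat_lit 70657) (nat_lit 179) (.p (nat_lit 135) (nat_lit 18) .z) .df .leaf) (nat_lit 70659) (nat_lit 259) (.p (nat_lit 172) (nat_lit 18) .z) .df .leaf) (nat_lit 70664) (nat_lit 525) (.n (nat_lit 262) (nat_lit 86) (.n (nat_lit 263) (nat_lit 98) (.n (nat_lit 264) (nat_lit 109) (.n (nat_lit 265) (nat_lit 89) (.p (nat_lit 266) (nat_lit 52) (.n (nat_lit 267) (nat_lit 170) (.p (nat_lit 268) (nat_lit 141) (.p (nat_lit 269) (nat_lit 58) (.p (nat_lit 270) (nat_lit 60) (.p (nat_lit 271) (nat_lit 40) (.n (nat_lit 272) (nat_lit 165) (.p (nat_lit 273) (nat_lit 73) (.p (nat_lit 274) (nat_lit 26) (.p (nat_lit 275) (nat_lit 66) (.p (nat_lit 276) (nat_lit 126) (.n (nat_lit 277) (nat_lit 105) (.p (nat_lit 278) (nat_lit 188) (.n (nat_lit 280) (nat_lit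 46) (.n (nat_lit 281) (nat_lit 137) (.p (nat_lit 282) (nat_lit 67) (.n (nat_lit 283) (nat_lit 14) (.p (nat_lit 284) (nat_lit 11) (.p (nat_lit 285) (nat_lit 299) (.p (nat_lit 286) (nat_lit 18) (.p (nat_lit 287) (nat_lit 99) (.n (nat_lit 288) (nat_lit 81) (.p (nat_lit 289) (nat_lit 45) (.n (nat_lit 290) (nat_lit 42) (.p (nat_lit 291) (nat_lit 15) (.n (nat_lit 292) (nat_lit 51) (.n (nat_lit 293) (nat_lit 99) (.n (nat_lit 294) (nat_lit 75) (.n (nat_lit 295) (nat_lit 69) (.n (nat_lit 296) (nat_lit 27) (.n (nat_lit 297) (nat_lit 81) (.n (nat_lit 298) (nat_lit 57) (.n (nat_lit 299) (nat_lit 9) (.p (nat_lit 300) (nat_lit 3) (.p (nat_lit 301) (nat_lit 6) (.n (nat_lit 302) (nat_lit 3) (.p (nat_lit 303) (nat_lit 78) (.p (nat_lit 304) (nat_lit 81) (.p (nat_lit 305) (nat_lit 81) (.n (nat_lit 306) (nat_lit 87) (.n (nat_lit 307) (nat_lit 3) (.p (nat_lit 308) (nat_lit 102) .z))))))))))))))))))))))))))))))))))))))))))))))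 (.ct dr2_c4371 (nat_lit 18) (nat_lit 6) (.s true (nat_lit 1) (nat_lit 8) (nat_lit 2) (nat_lit 7) (nat_lit 3) true (nat_lit 5) true (nat_lit 11) true (nat_lit 6) true (nat_lit 12) true (nat_lit 7) (.s false (nat_lit 1) (nat_lit 8) (nat_lit 3) (nat_lit 2) (nat_lit 7) false (nat_lit 0) true (nat_lit 7) true (nat_lit 6) true (nat_lit 11) true (nat_lit 12) (.s false (nat_lit 1) (nat_lit 26) (nat_lit 3) (nat_lit 1) (nat_lit 2) true (nat_lit 5) true (nat_lit 12) false (nat_lit 0) true (nat_lit 11) true (nat_lit 13) (.e false (nat_lit 18) (nat_lit 55) (nat_lit 9) (nat_lit 5) (.e false (nat_lit 18) (nat_lit 56) (nat_lit 9) (nat_lit 5) (.e true (nat_lit 18) (nat_lit 59) (nat_lit 9) (nat_lit 5) (.e false (nat_lit 18) (nat_lit 60) (nat_lit 9) (nat_lit 5) (.e false (nat_lit 18) (nat_lit 126) (nat_lit 3) (nat_lit 11) dr2_i63))))))))) (.nd .leaf (nat_lit 71680) (nat_lit 180) (.p (nat_lit 136) (nat_lit 18) .z) .df .leaf))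 (nat_lit 71681) (nat_lit 210) (.p (nat_lit 145) (nat_lit 18) .z) .df (.nd (.nd (.nd .leaf (nat_lit 71683) (nat_lit 274) (.p (nat_lit 178) (nat_lit 18) .z) .df .leaf) (nat_lit 71684) (nat_lit 343) (.p (nat_lit 238) (nat_lit 18) .z) .df .leaf) (nat_lit 71687) (nat_lit 539) (.n (nat_lit 262) (nat_lit 12) (.p (nat_lit 263) (nat_lit 24) (.p (nat_lit 264) (nat_lit 3) (.n (nat_lit 265) (nat_lit 3) (.p (nat_lit 266) (nat_lit 42) (.p (nat_lit 267) (nat_lit 6) (.n (nat_lit 268) (nat_lit 9) (.n (nat_lit 269) (nat_lit 48) (.n (nat_lit 271) (nat_lit 12) (.n (nat_lit 272) (nat_lit 45) (.n (nat_lit 273) (nat_lit 3) (.n (nat_lit 274) (nat_lit 6) (.p (nat_lit 275) (nat_lit 18) (.p (nat_lit 276) (nat_lit 54) (.n (nat_lit 277) (nat_lit 45) (.p (nat_lit 278) (nat_lit 48) (.n (nat_lit 280) (nat_lit 24) (.n (nat_lit 281) (nat_lit 57) (.p (nat_lit 282) (nat_lit 51) (.p (nat_lit 283) (nat_lit 6) (.p (nat_lit 284) (nat_lit 3) (.p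 (nat_lit 285) (nat_lit 75) (.n (nat_lit 287) (nat_lit 9) (.p (nat_lit 288) (nat_lit 9) (.n (nat_lit 289) (nat_lit 9) (.n (nat_lit 291) (nat_lit 9) (.p (nat_lit 292) (nat_lit 9) (.p (nat_lit 293) (nat_lit 9) (.p (nat_lit 294) (nat_lit 9) (.n (nat_lit 295) (nat_lit 9) (.p (nat_lit 296) (nat_lit 9) (.p (nat_lit 297) (nat_lit 9) (.p (nat_lit 298) (nat_lit 9) (.p (nat_lit 299) (nat_lit 9) (.p (nat_lit 300) (nat_lit 9) (.p (nat_lit 302) (nat_lit 9) (.n (nat_lit 303) (nat_lit 18) (.n (nat_lit 304) (nat_lit 9) (.n (nat_lit 305) (nat_lit 9) (.p (nat_lit 306) (nat_lit 9) (.n (nat_lit 307) (nat_lit 9) .z))))))))))))))))))))))))))))))))))))))))) (.ct dr2_c4371 (nat_lit 18) (nat_lit 7) (.s true (nat_lit 1) (nat_lit 23) (nat_lit 0) (nat_lit 3) (nat_lit 3) true (nat_lit 7) true (nat_lit 11) true (nat_lit 0) true (nat_lit 14) true (nat_lit 11) (.s false (nat_lit 1) (nat_lit 26) (nat_lit 2) (nat_lit 1) (nat_lit 3) true (nat_lit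 5) true (nat_lit 11) false (nat_lit 0) true (nat_lit 12) true (nat_lit 13) (.e true (nat_lit 18) (nat_lit 124) (nat_lit 3) (nat_lit 11) (.e false (nat_lit 18) (nat_lit 187) (nat_lit 0) (nat_lit 14) (.e true (nat_lit 18) (nat_lit 136) (nat_lit 3) (nat_lit 11) (.e false (nat_lit 18) (nat_lit 58) (nat_lit 9) (nat_lit 5) (.e false (nat_lit 18) (nat_lit 133) (nat_lit 3) (nat_lit 11) (.e false (nat_lit 18) (nat_lit 161) (nat_lit 2) (nat_lit 12) (.e true (nat_lit 18) (nat_lit 167) (nat_lit 1) (nat_lit 13) (.e true (nat_lit 18) (nat_lit 168) (nat_lit 1) (nat_lit 13) (.e false (nat_lit 18) (nat_lit 169) (nat_lit 1) (nat_lit 13) (.e false (nat_lit 18) (nat_lit 170) (nat_lit 1) (nat_lit 13) (.e true (nat_lit 18) (nat_lit 173) (nat_lit 1) (nat_lit 13) (.e false (nat_lit 18) (nat_lit 176) (nat_lit 1) (nat_lit 13) (.e false (nat_lit 18) (nat_lit 177) (nat_lit 1) (nat_lit 13) .nil)))))))))))))))) (.nd .leaf (nat_lit 71688)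 (nat_lit 595) (.n (nat_lit 309) (nat_lit 54) (.p (nat_lit 310) (nat_lit 18) (.p (nat_lit 311) (nat_lit 18) (.p (nat_lit 312) (nat_lit 72) (.p (nat_lit 313) (nat_lit 54) (.n (nat_lit 314) (nat_lit 18) (.n (nat_lit 315) (nat_lit 36) (.n (nat_lit 316) (nat_lit 54) (.p (nat_lit 317) (nat_lit 108) (.p (nat_lit 318) (nat_lit 18) (.n (nat_lit 320) (nat_lit 36) (.n (nat_lit 321) (nat_lit 36) (.p (nat_lit 324) (nat_lit 18) (.n (nat_lit 325) (nat_lit 18) (.p (nat_lit 327) (nat_lit 18) (.p (nat_lit 328) (nat_lit 18) (.p (nat_lit 329) (nat_lit 18) .z))))))))))))))))) (.ct dr2_c531 (nat_lit 18) (nat_lit 5) (.s false (nat_lit 1) (nat_lit 8) (nat_lit 2) (nat_lit 3) (nat_lit 8) true (nat_lit 0) true (nat_lit 5) true (nat_lit 5) true (nat_lit 8) true (nat_lit 7) (.s false (nat_lit 1) (nat_lit 9) (nat_lit 1) (nat_lit 8) (nat_lit 3) true (nat_lit 5) true (nat_lit 7) true (nat_lit 4) true (nat_lit 9) true (nat_lit 5) (.s false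 (nat_lit 1) (nat_lit 9) (nat_lit 8) (nat_lit 3) (nat_lit 1) true (nat_lit 1) true (nat_lit 9) true (nat_lit 4) true (nat_lit 5) true (nat_lit 7) (.s false (nat_lit 1) (nat_lit 19) (nat_lit 2) (nat_lit 3) (nat_lit 3) true (nat_lit 4) true (nat_lit 7) true (nat_lit 1) true (nat_lit 8) true (nat_lit 7) (.s false (nat_lit 1) (nat_lit 28) (nat_lit 3) (nat_lit 1) (nat_lit 2) true (nat_lit 4) true (nat_lit 8) false (nat_lit 0) true (nat_lit 7) true (nat_lit 9) (.e false (nat_lit 18) (nat_lit 74) (nat_lit 8) (nat_lit 5) (.e false (nat_lit 18) (nat_lit 162) (nat_lit 2) (nat_lit 8) (.e true (nat_lit 36) (nat_lit 166) (nat_lit 2) (nat_lit 8) (.e false (nat_lit 18) (nat_lit 145) (nat_lit 3) (nat_lit 7) (.e false (nat_lit 36) (nat_lit 146) (nat_lit 3) (nat_lit 7) (.e true (nat_lit 18) (nat_lit 149) (nat_lit 3) (nat_lit 7) (.e false (nat_lit 36) (nat_lit 150) (nat_lit 3) (nat_lit 7) (.e true (nat_lit 18) (nat_lit 142) (nat_lit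 3) (nat_lit 7) (.e false (nat_lit 18) (nat_lit 188) (nat_lit 1) (nat_lit 9) (.e true (nat_lit 18) (nat_lit 178) (nat_lit 1) (nat_lit 9) (.e true (nat_lit 18) (nat_lit 179) (nat_lit 1) (nat_lit 9) (.e false (nat_lit 18) (nat_lit 182) (nat_lit 1) (nat_lit 9) (.e true (nat_lit 18) (nat_lit 183) (nat_lit 1) (nat_lit 9) (.e false (nat_lit 18) (nat_lit 163) (nat_lit 2) (nat_lit 8) (.e true (nat_lit 36) (nat_lit 165) (nat_lit 2) (nat_lit 8) (.e false (nat_lit 18) (nat_lit 143) (nat_lit 3) (nat_lit 7) (.e true (nat_lit 18) (nat_lit 181) (nat_lit 1) (nat_lit 9) .nil))))))))))))))))))))))) .leaf))) (nat_lit 72704) (nat_lit 181) (.p (nat_lit 137) (nat_lit 18) .z) .df (.nd (.nd (.nd (.nd .leaf (nat_lit 72705) (nat_lit 211) (.p (nat_lit 146) (nat_lit 18) .z) .df .leaf) (nat_lit 72707) (nat_lit 275) (.p (nat_lit 179) (nat_lit 18) .z) .df .leaf) (nat_lit 72708) (nat_lit 358) (.n (nat_lit 189) (nat_lit 108) (.p (nat_lit 190)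 (nat_lit 162) (.n (nat_lit 191) (nat_lit 144) (.n (nat_lit 192) (nat_lit 18) (.p (nat_lit 193) (nat_lit 54) (.p (nat_lit 194) (nat_lit 72) (.p (nat_lit 195) (nat_lit 108) (.p (nat_lit 196) (nat_lit 108) (.p (nat_lit 197) (nat_lit 126) (.n (nat_lit 198) (nat_lit 72) (.n (nat_lit 199) (nat_lit 144) (.n (nat_lit 200) (nat_lit 90) (.n (nat_lit 201) (nat_lit 216) (.n (nat_lit 202) (nat_lit 72) (.n (nat_lit 203) (nat_lit 18) (.p (nat_lit 204) (nat_lit 36) (.n (nat_lit 205) (nat_lit 54) (.p (nat_lit 206) (nat_lit 54) (.n (nat_lit 207) (nat_lit 36) (.p (nat_lit 208) (nat_lit 90) (.p (nat_lit 209) (nat_lit 18) (.n (nat_lit 210) (nat_lit 18) (.n (nat_lit 211) (nat_lit 54) (.p (nat_lit 212) (nat_lit 90) (.n (nat_lit 213) (nat_lit 72) (.p (nat_lit 215) (nat_lit 108) (.p (nat_lit 216) (nat_lit 36) (.n (nat_lit 218) (nat_lit 18) (.p (nat_lit 219) (nat_lit 18) (.p (nat_lit 220) (nat_lit 18) (.p (nat_lit 221) (nat_lit 18)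 (.n (nat_lit 222) (nat_lit 18) (.n (nat_lit 223) (nat_lit 18) (.n (nat_lit 224) (nat_lit 108) (.p (nat_lit 225) (nat_lit 72) (.n (nat_lit 226) (nat_lit 72) (.p (nat_lit 227) (nat_lit 36) (.n (nat_lit 229) (nat_lit 54) (.p (nat_lit 231) (nat_lit 36) (.n (nat_lit 232) (nat_lit 36) (.p (nat_lit 235) (nat_lit 108) (.n (nat_lit 236) (nat_lit 36) (.p (nat_lit 237) (nat_lit 108) (.n (nat_lit 238) (nat_lit 72) (.n (nat_lit 239) (nat_lit 54) (.n (nat_lit 240) (nat_lit 36) .z)))))))))))))))))))))))))))))))))))))))))))))) (.ct dr2_c4626 (nat_lit 18) (nat_lit 11) (.s false (nat_lit 1) (nat_lit 8) (nat_lit 4) (nat_lit 2) (nat_lit 3) true (nat_lit 1) true (nat_lit 12) true (nat_lit 7) true (nat_lit 11) true (nat_lit 13) dr2_i22)) (.nd .leaf (nat_lit 72711) (nat_lit 529) (.p (nat_lit 262) (nat_lit 100) (.p (nat_lit 263) (nat_lit 34) (.p (nat_lit 264) (nat_lit 83) (.p (nat_lit 265) (nat_lit 97) (.n (nat_lit 266) (nat_lit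 86) (.p (nat_lit 267) (nat_lit 142) (.n (nat_lit 268) (nat_lit 111) (.p (nat_lit 269) (nat_lit 10) (.n (nat_lit 270) (nat_lit 66) (.p (nat_lit 271) (nat_lit 10) (.p (nat_lit 272) (nat_lit 213) (.n (nat_lit 273) (nat_lit 11) (.p (nat_lit 274) (nat_lit 38) (.n (nat_lit 275) (nat_lit 114) (.n (nat_lit 276) (nat_lit 180) (.p (nat_lit 277) (nat_lit 201) (.n (nat_lit 278) (nat_lit 214) (.p (nat_lit 279) (nat_lit 18) (.p (nat_lit 280) (nat_lit 56) (.p (nat_lit 281) (nat_lit 175) (.n (nat_lit 282) (nat_lit 125) (.p (nat_lit 283) (nat_lit 28) (.n (nat_lit 284) (nat_lit 31) (.n (nat_lit 285) (nat_lit 337) (.n (nat_lit 286) (nat_lit 72) (.n (nat_lit 287) (nat_lit 99) (.p (nat_lit 288) (nat_lit 27) (.p (nat_lit 289) (nat_lit 45) (.n (nat_lit 290) (nat_lit 60) (.n (nat_lit 291) (nat_lit 39) (.p (nat_lit 292) (nat_lit 3) (.p (nat_lit 293) (nat_lit 45) (.p (nat_lit 294) (nat_lit 33) (.p (nat_lit 295) (nat_lit 57) (.p (nat_lit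 296) (nat_lit 27) (.p (nat_lit 297) (nat_lit 27) (.n (nat_lit 298) (nat_lit 21) (.p (nat_lit 299) (nat_lit 27) (.p (nat_lit 300) (nat_lit 39) (.p (nat_lit 301) (nat_lit 24) (.n (nat_lit 302) (nat_lit 57) (.n (nat_lit 303) (nat_lit 48) (.n (nat_lit 304) (nat_lit 45) (.n (nat_lit 305) (nat_lit 27) (.p (nat_lit 306) (nat_lit 39) (.p (nat_lit 307) (nat_lit 33) (.n (nat_lit 308) (nat_lit 24) .z))))))))))))))))))))))))))))))))))))))))))))))) (.ct dr2_c4371 (nat_lit 18) (nat_lit 7) (.s true (nat_lit 1) (nat_lit 7) (nat_lit 6) (nat_lit 3) (nat_lit 3) true (nat_lit 0) true (nat_lit 11) true (nat_lit 7) true (nat_lit 8) true (nat_lit 11) (.s true (nat_lit 2) (nat_lit 8) (nat_lit 2) (nat_lit 3) (nat_lit 7) true (nat_lit 1) true (nat_lit 7) true (nat_lit 6) true (nat_lit 12) true (nat_lit 11) (.s false (nat_lit 1) (nat_lit 8) (nat_lit 7) (nat_lit 2) (nat_lit 3) false (nat_lit 0) true (nat_lit 11) true (nat_lit 6) true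 (nat_lit 7) true (nat_lit 12) (.s true (nat_lit 1) (nat_lit 9) (nat_lit 1) (nat_lit 7) (nat_lit 3) true (nat_lit 6) true (nat_lit 11) true (nat_lit 5) true (nat_lit 13) true (nat_lit 7) (.s true (nat_lit 1) (nat_lit 10) (nat_lit 2) (nat_lit 7) (nat_lit 1) true (nat_lit 8) true (nat_lit 13) true (nat_lit 4) true (nat_lit 12) true (nat_lit 7) dr2_i67)))))) .leaf)) (nat_lit 72712) (nat_lit 596) (.p (nat_lit 309) (nat_lit 36) (.n (nat_lit 310) (nat_lit 18) (.n (nat_lit 311) (nat_lit 9) (.n (nat_lit 312) (nat_lit 81) (.n (nat_lit 313) (nat_lit 63) (.p (nat_lit 314) (nat_lit 9) (.p (nat_lit 315) (nat_lit 36) (.p (nat_lit 316) (nat_lit 45) (.n (nat_lit 317) (nat_lit 90) (.n (nat_lit 318) (nat_lit 18) (.n (nat_lit 319) (nat_lit 9) (.p (nat_lit 320) (nat_lit 36) (.p (nat_lit 321) (nat_lit 54) (.p (nat_lit 322) (nat_lit 27) (.p (nat_lit 323) (nat_lit 45) (.n (nat_lit 324) (nat_lit 27) (.p (nat_lit 325) (nat_lit 36)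 (.n (nat_lit 326) (nat_lit 36) (.p (nat_lit 327) (nat_lit 18) (.n (nat_lit 328) (nat_lit 9) (.n (nat_lit 329) (nat_lit 18) .z))))))))))))))))))))) (.ct dr2_c531 (nat_lit 36) (nat_lit 5) (.s false (nat_lit 2) (nat_lit 9) (nat_lit 1) (nat_lit 8) (nat_lit 3) true (nat_lit 5) true (nat_lit 7) true (nat_lit 4) true (nat_lit 9) true (nat_lit 5) (.s false (nat_lit 1) (nat_lit 10) (nat_lit 3) (nat_lit 6) (nat_lit 1) true (nat_lit 5) true (nat_lit 9) true (nat_lit 3) true (nat_lit 7) true (nat_lit 6) (.s false (nat_lit 1) (nat_lit 10) (nat_lit 8) (nat_lit 1) (nat_lit 2) true (nat_lit 0) true (nat_lit 8) true (nat_lit 3) true (nat_lit 5) true (nat_lit 9) (.s false (nat_lit 1) (nat_lit 19) (nat_lit 2) (nat_lit 3) (nat_lit 3) true (nat_lit 4) true (nat_lit 7) true (nat_lit 1) true (nat_lit 8) true (nat_lit 7) (.s false (nat_lit 1) (nat_lit 19) (nat_lit 3) (nat_lit 2) (nat_lit 3) true (nat_lit 3) true (nat_lit 7) true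 (nat_lit 1) true (nat_lit 7) true (nat_lit 8) (.s false (nat_lit 1) (nat_lit 19) (nat_lit 3) (nat_lit 3) (nat_lit 2) true (nat_lit 4) true (nat_lit 8) true (nat_lit 1) true (nat_lit 7) true (nat_lit 7) dr2_i76))))))) (.nd (.nd .leaf (nat_lit 73728) (nat_lit 189) (.p (nat_lit 115) (nat_lit 6) (.p (nat_lit 116) (nat_lit 6) (.p (nat_lit 117) (nat_lit 12) (.p (nat_lit 118) (nat_lit 24) (.p (nat_lit 119) (nat_lit 6) (.p (nat_lit 120) (nat_lit 24) (.n (nat_lit 121) (nat_lit 18) (.n (nat_lit 122) (nat_lit 12) (.n (nat_lit 123) (nat_lit 18) (.n (nat_lit 124) (nat_lit 30) (.p (nat_lit 125) (nat_lit 18) (.n (nat_lit 126) (nat_lit 12) (.p (nat_lit 127) (nat_lit 12) (.n (nat_lit 128) (nat_lit 18) (.n (nat_lit 129) (nat_lit 18) (.p (nat_lit 130) (nat_lit 18) (.n (nat_lit 131) (nat_lit 24) (.p (nat_lit 133) (nat_lit 12) (.p (nat_lit 134) (nat_lit 24) (.n (nat_lit 135) (nat_lit 12) (.p (nat_lit 136) (nat_lit 6) (.p (nat_lit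 137) (nat_lit 18) (.n (nat_lit 138) (nat_lit 6) (.n (nat_lit 139) (nat_lit 24) .z)))))))))))))))))))))))) (.ct dr2_c4370 (nat_lit 18) (nat_lit 10) (.s true (nat_lit 1) (nat_lit 7) (nat_lit 1) (nat_lit 2) (nat_lit 3) true (nat_lit 2) true (nat_lit 7) true (nat_lit 3) true (nat_lit 9) true (nat_lit 8) (.s true (nat_lit 1) (nat_lit 8) (nat_lit 3) (nat_lit 0) (nat_lit 2) true (nat_lit 1) true (nat_lit 8) true (nat_lit 2) true (nat_lit 7) true (nat_lit 10) (.s true (nat_lit 1) (nat_lit 9) (nat_lit 1) (nat_lit 3) (nat_lit 0) true (nat_lit 6) true (nat_lit 10) true (nat_lit 1) true (nat_lit 9) true (nat_lit 7) (.e true (nat_lit 18) (nat_lit 23) (nat_lit 7) (nat_lit 3) (.e false (nat_lit 18) (nat_lit 58) (nat_lit 2) (nat_lit 8) (.e true (nat_lit 18) (nat_lit 60) (nat_lit 2) (nat_lit 8) (.e true (nat_lit 18) (nat_lit 41) (nat_lit 3) (nat_lit 7) (.e true (nat_lit 18) (nat_lit 50) (nat_lit 3) (nat_lit 7) (.e false (nat_lit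 18) (nat_lit 71) (nat_lit 0) (nat_lit 10) (.e false (nat_lit 18) (nat_lit 30) (nat_lit 4) (nat_lit 6) .nil))))))))))) .leaf) (nat_lit 73729) (nat_lit 212) (.p (nat_lit 147) (nat_lit 18) .z) .df (.nd .leaf (nat_lit 73731) (nat_lit 276) (.p (nat_lit 180) (nat_lit 18) .z) .df .leaf))))))

noncomputable def dr2_t8 : Tr := (.nd (.nd (.nd (.nd (.nd (.nd (.nd .leaf (nat_lit 73735) (nat_lit 530) (.p (nat_lit 262) (nat_lit 80) (.p (nat_lit 263) (nat_lit 74) (.p (nat_lit 264) (nat_lit 61) (.p (nat_lit 265) (nat_lit 47) (.n (nat_lit 266) (nat_lit 58) (.p (nat_lit 267) (nat_lit 110) (.n (nat_lit 268) (nat_lit 87) (.n (nat_lit 269) (nat_lit 28) (.n (nat_lit 270) (nat_lit 24) (.p (nat_lit 271) (nat_lit 8) (.p (nat_lit 272) (nat_lit 129) (.n (nat_lit 273) (nat_lit 25) (.n (nat_lit 274) (nat_lit 2) (.n (nat_lit 275) (nat_lit 66) (.n (nat_lit 276) (nat_lit 90) (.p (nat_lit 277) (nat_lit 105) (.n (nat_lit 278) (nat_lit 110)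 (.p (nat_lit 279) (nat_lit 18) (.n (nat_lit 280) (nat_lit 2) (.p (nat_lit 281) (nat_lit 77) (.n (nat_lit 282) (nat_lit 19) (.p (nat_lit 283) (nat_lit 26) (.n (nat_lit 284) (nat_lit 23) (.n (nat_lit 285) (nat_lit 203) (.n (nat_lit 286) (nat_lit 18) (.n (nat_lit 287) (nat_lit 81) (.p (nat_lit 288) (nat_lit 45) (.n (nat_lit 289) (nat_lit 9) (.p (nat_lit 290) (nat_lit 6) (.n (nat_lit 291) (nat_lit 15) (.p (nat_lit 292) (nat_lit 33) (.p (nat_lit 293) (nat_lit 63) (.p (nat_lit 294) (nat_lit 39) (.p (nat_lit 295) (nat_lit 33) (.p (nat_lit 296) (nat_lit 27) (.p (nat_lit 297) (nat_lit 45) (.p (nat_lit 298) (nat_lit 21) (.p (nat_lit 299) (nat_lit 27) (.p (nat_lit 300) (nat_lit 15) (.p (nat_lit 301) (nat_lit 12) (.n (nat_lit 302) (nat_lit 33) (.n (nat_lit 303) (nat_lit 60) (.n (nat_lit 304) (nat_lit 63) (.n (nat_lit 305) (nat_lit 45) (.p (nat_lit 306) (nat_lit 69) (.p (nat_lit 307) (nat_lit 3) (.n (nat_lit 308) (nat_lit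 48) .z))))))))))))))))))))))))))))))))))))))))))))))) (.ct dr2_c4371 (nat_lit 18) (nat_lit 7) (.s true (nat_lit 1) (nat_lit 9) (nat_lit 1) (nat_lit 3) (nat_lit 7) true (nat_lit 2) true (nat_lit 7) true (nat_lit 5) true (nat_lit 13) true (nat_lit 11) (.s true (nat_lit 1) (nat_lit 17) (nat_lit 2) (nat_lit 3) (nat_lit 3) true (nat_lit 5) true (nat_lit 11) true (nat_lit 2) true (nat_lit 12) true (nat_lit 11) (.e true (nat_lit 18) (nat_lit 55) (nat_lit 9) (nat_lit 5) (.e true (nat_lit 36) (nat_lit 56) (nat_lit 9) (nat_lit 5) (.e false (nat_lit 18) (nat_lit 59) (nat_lit 9) (nat_lit 5) (.e true (nat_lit 18) (nat_lit 60) (nat_lit 9) (nat_lit 5) (.e true (nat_lit 18) (nat_lit 177) (nat_lit 1) (nat_lit 13) (.e false (nat_lit 18) (nat_lit 131) (nat_lit 3) (nat_lit 11) (.e false (nat_lit 18) (nat_lit 132) (nat_lit 3) (nat_lit 11) (.e true (nat_lit 18) (nat_lit 134) (nat_lit 3) (nat_lit 11) (.e false (nat_lit 18) (nat_lit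 135) (nat_lit 3) (nat_lit 11) (.e true (nat_lit 18) (nat_lit 119) (nat_lit 3) (nat_lit 11) (.e false (nat_lit 36) (nat_lit 151) (nat_lit 2) (nat_lit 12) (.e false (nat_lit 54) (nat_lit 152) (nat_lit 2) (nat_lit 12) (.e true (nat_lit 18) (nat_lit 153) (nat_lit 2) (nat_lit 12) (.e false (nat_lit 18) (nat_lit 154) (nat_lit 2) (nat_lit 12) (.e true (nat_lit 18) (nat_lit 155) (nat_lit 2) (nat_lit 12) (.e false (nat_lit 18) (nat_lit 156) (nat_lit 2) (nat_lit 12) (.e true (nat_lit 18) (nat_lit 158) (nat_lit 2) (nat_lit 12) (.e true (nat_lit 18) (nat_lit 160) (nat_lit 2) (nat_lit 12) (.e true (nat_lit 18) (nat_lit 126) (nat_lit 3) (nat_lit 11) .nil)))))))))))))))))))))) .leaf) (nat_lit 73736) (nat_lit 606) (.n (nat_lit 314) (nat_lit 18) (.p (nat_lit 322) (nat_lit 18) (.p (nat_lit 323) (nat_lit 18) (.n (nat_lit 326) (nat_lit 18) (.p (nat_lit 327) (nat_lit 36) .z))))) (.ct dr2_c531 (nat_lit 18) (nat_lit 5) (.s true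 (nat_lit 1) (nat_lit 25) (nat_lit 3) (nat_lit 3) (nat_lit 1) true (nat_lit 5) true (nat_lit 9) true (nat_lit 0) true (nat_lit 7) true (nat_lit 7) (.s true (nat_lit 1) (nat_lit 29) (nat_lit 3) (nat_lit 2) (nat_lit 1) true (nat_lit 5) true (nat_lit 9) false (nat_lit 0) true (nat_lit 7) true (nat_lit 8) (.e true (nat_lit 18) (nat_lit 180) (nat_lit 1) (nat_lit 9) (.e false (nat_lit 36) (nat_lit 142) (nat_lit 3) (nat_lit 7) (.e true (nat_lit 54) (nat_lit 145) (nat_lit 3) (nat_lit 7) (.e true (nat_lit 18) (nat_lit 146) (nat_lit 3) (nat_lit 7) (.e false (nat_lit 36) (nat_lit 149) (nat_lit 3) (nat_lit 7) (.e true (nat_lit 72) (nat_lit 150) (nat_lit 3) (nat_lit 7) (.e false (nat_lit 18) (nat_lit 74) (nat_lit 8) (nat_lit 5) (.e true (nat_lit 18) (nat_lit 184) (nat_lit 1) (nat_lit 9) (.e true (nat_lit 18) (nat_lit 144) (nat_lit 3) (nat_lit 7) (.e false (nat_lit 36) (nat_lit 148) (nat_lit 3) (nat_lit 7) (.e false (nat_lit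 18) (nat_lit 163) (nat_lit 2) (nat_lit 8) .nil)))))))))))))) .leaf) (nat_lit 74752) (nat_lit 190) (.p (nat_lit 115) (nat_lit 12) (.p (nat_lit 116) (nat_lit 12) (.p (nat_lit 117) (nat_lit 6) (.n (nat_lit 118) (nat_lit 6) (.n (nat_lit 119) (nat_lit 6) (.p (nat_lit 120) (nat_lit 12) (.p (nat_lit 122) (nat_lit 12) (.p (nat_lit 123) (nat_lit 18) (.p (nat_lit 124) (nat_lit 12) (.n (nat_lit 125) (nat_lit 18) (.n (nat_lit 126) (nat_lit 24) (.p (nat_lit 127) (nat_lit 6) (.p (nat_lit 129) (nat_lit 18) (.n (nat_lit 130) (nat_lit 18) (.n (nat_lit 131) (nat_lit 12) (.n (nat_lit 132) (nat_lit 18) (.n (nat_lit 133) (nat_lit 12) (.p (nat_lit 134) (nat_lit 12) (.n (nat_lit 135) (nat_lit 6) (.n (nat_lit 136) (nat_lit 6) (.n (nat_lit 137) (nat_lit 18) (.p (nat_lit 138) (nat_lit 6) (.n (nat_lit 139) (nat_lit 12) .z))))))))))))))))))))))) (.ct dr2_c4370 (nat_lit 18) (nat_lit 10) (.s false (nat_lit 1) (nat_lit 6) (nat_lit 0) (nat_lit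 3) (nat_lit 3) true (nat_lit 3) true (nat_lit 7) true (nat_lit 4) true (nat_lit 10) true (nat_lit 7) (.e false (nat_lit 18) (nat_lit 23) (nat_lit 7) (nat_lit 3) (.e false (nat_lit 18) (nat_lit 43) (nat_lit 3) (nat_lit 7) (.e true (nat_lit 18) (nat_lit 26) (nat_lit 6) (nat_lit 4) (.e true (nat_lit 18) (nat_lit 71) (nat_lit 0) (nat_lit 10) (.e false (nat_lit 18) (nat_lit 72) (nat_lit 0) (nat_lit 10) (.e false (nat_lit 18) (nat_lit 75) (nat_lit 0) (nat_lit 10) (.e false (nat_lit 18) (nat_lit 50) (nat_lit 3) (nat_lit 7) .nil))))))))) (.nd .leaf (nat_lit 74753) (nat_lit 213) (.p (nat_lit 148) (nat_lit 18) .z) .df .leaf)) (nat_lit 74755) (nat_lit 277) (.p (nat_lit 181) (nat_lit 18) .z) .df (.nd (.nd (.nd .leaf (nat_lit 74756) (nat_lit 356) (.p (nat_lit 189) (nat_lit 27) (.n (nat_lit 190) (nat_lit 27) (.p (nat_lit 191) (nat_lit 27) (.p (nat_lit 194) (nat_lit 27) (.p (nat_lit 195) (nat_lit 18) (.n (nat_lit 196) (nat_lit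 27) (.p (nat_lit 197) (nat_lit 18) (.p (nat_lit 199) (nat_lit 9) (.p (nat_lit 201) (nat_lit 18) (.p (nat_lit 202) (nat_lit 45) (.n (nat_lit 203) (nat_lit 18) (.p (nat_lit 204) (nat_lit 9) (.p (nat_lit 205) (nat_lit 9) (.n (nat_lit 206) (nat_lit 54) (.p (nat_lit 207) (nat_lit 27) (.n (nat_lit 208) (nat_lit 27) (.p (nat_lit 210) (nat_lit 9) (.p (nat_lit 211) (nat_lit 45) (.n (nat_lit 212) (nat_lit 45) (.n (nat_lit 213) (nat_lit 36) (.p (nat_lit 214) (nat_lit 9) (.n (nat_lit 215) (nat_lit 108) (.p (nat_lit 216) (nat_lit 18) (.p (nat_lit 218) (nat_lit 9) (.n (nat_lit 220) (nat_lit 9) (.p (nat_lit 222) (nat_lit 9) (.n (nat_lit 224) (nat_lit 9) (.n (nat_lit 225) (nat_lit 9) (.p (nat_lit 226) (nat_lit 9) (.n (nat_lit 228) (nat_lit 9) (.p (nat_lit 232) (nat_lit 9) (.n (nat_lit 235) (nat_lit 27) (.n (nat_lit 237) (nat_lit 18) (.p (nat_lit 238) (nat_lit 36) .z)))))))))))))))))))))))))))))))))) (.ct dr2_c4626 (nat_lit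 18) (nat_lit 11) (.s false (nat_lit 1) (nat_lit 8) (nat_lit 2) (nat_lit 3) (nat_lit 4) true (nat_lit 3) true (nat_lit 11) true (nat_lit 7) true (nat_lit 13) true (nat_lit 12) (.s false (nat_lit 1) (nat_lit 8) (nat_lit 3) (nat_lit 2) (nat_lit 4) true (nat_lit 1) true (nat_lit 11) true (nat_lit 7) true (nat_lit 12) true (nat_lit 13) (.s false (nat_lit 1) (nat_lit 8) (nat_lit 4) (nat_lit 2) (nat_lit 3) true (nat_lit 1) true (nat_lit 12) true (nat_lit 7) true (nat_lit 11) true (nat_lit 13) (.s true (nat_lit 1) (nat_lit 10) (nat_lit 4) (nat_lit 2) (nat_lit 1) true (nat_lit 4) true (nat_lit 14) true (nat_lit 5) true (nat_lit 11) true (nat_lit 13) (.s true (nat_lit 1) (nat_lit 12) (nat_lit 3) (nat_lit 1) (nat_lit 3) true (nat_lit 5) true (nat_lit 12) true (nat_lit 3) true (nat_lit 12) true (nat_lit 14) dr2_i19)))))) .leaf) (nat_lit 74759) (nat_lit 541) (.n (nat_lit 262) (nat_lit 128) (.p (nat_lit 263) (nat_lit 22)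 (.n (nat_lit 264) (nat_lit 121) (.n (nat_lit 265) (nat_lit 131) (.p (nat_lit 266) (nat_lit 136) (.n (nat_lit 267) (nat_lit 158) (.p (nat_lit 268) (nat_lit 123) (.n (nat_lit 269) (nat_lit 110) (.p (nat_lit 270) (nat_lit 96) (.n (nat_lit 271) (nat_lit 56) (.n (nat_lit 272) (nat_lit 309) (.p (nat_lit 273) (nat_lit 31) (.n (nat_lit 274) (nat_lit 94) (.p (nat_lit 275) (nat_lit 174) (.p (nat_lit 276) (nat_lit 288) (.n (nat_lit 277) (nat_lit 321) (.p (nat_lit 278) (nat_lit 374) (.n (nat_lit 280) (nat_lit 130) (.n (nat_lit 281) (nat_lit 323) (.p (nat_lit 282) (nat_lit 295) (.n (nat_lit 283) (nat_lit 2) (.p (nat_lit 284) (nat_lit 35) (.p (nat_lit 285) (nat_lit 557) (.p (nat_lit 286) (nat_lit 144) (.p (nat_lit 287) (nat_lit 153) (.n (nat_lit 288) (nat_lit 27) (.n (nat_lit 289) (nat_lit 117) (.p (nat_lit 290) (nat_lit 138) (.p (nat_lit 291) (nat_lit 69) (.p (nat_lit 292) (nat_lit 21) (.n (nat_lit 293) (nat_lit 27) (.n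 (nat_lit 294) (nat_lit 57) (.n (nat_lit 295) (nat_lit 123) (.n (nat_lit 296) (nat_lit 9) (.p (nat_lit 297) (nat_lit 9) (.p (nat_lit 298) (nat_lit 69) (.n (nat_lit 299) (nat_lit 9) (.n (nat_lit 300) (nat_lit 69) (.n (nat_lit 301) (nat_lit 48) (.p (nat_lit 302) (nat_lit 87) (.p (nat_lit 303) (nat_lit 60) (.p (nat_lit 304) (nat_lit 27) (.p (nat_lit 305) (nat_lit 9) (.p (nat_lit 306) (nat_lit 3) (.n (nat_lit 307) (nat_lit 39) (.n (nat_lit 308) (nat_lit 24) .z)))))))))))))))))))))))))))))))))))))))))))))) (.ct dr2_c4371 (nat_lit 18) (nat_lit 7) (.s true (nat_lit 1) (nat_lit 8) (nat_lit 2) (nat_lit 7) (nat_lit 3) true (nat_lit 5) true (nat_lit 11) true (nat_lit 6) true (nat_lit 12) true (nat_lit 7) (.e false (nat_lit 18) (nat_lit 55) (nat_lit 9) (nat_lit 5) (.e false (nat_lit 18) (nat_lit 56) (nat_lit 9) (nat_lit 5) (.e true (nat_lit 18) (nat_lit 59) (nat_lit 9) (nat_lit 5) (.e false (nat_lit 18) (nat_lit 60) (nat_lit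 9) (nat_lit 5) (.e true (nat_lit 18) (nat_lit 122) (nat_lit 3) (nat_lit 11) (.e false (nat_lit 18) (nat_lit 126) (nat_lit 3) (nat_lit 11) (.e false (nat_lit 18) (nat_lit 131) (nat_lit 3) (nat_lit 11) (.e false (nat_lit 18) (nat_lit 132) (nat_lit 3) (nat_lit 11) (.e true (nat_lit 18) (nat_lit 134) (nat_lit 3) (nat_lit 11) (.e false (nat_lit 18) (nat_lit 135) (nat_lit 3) (nat_lit 11) (.e false (nat_lit 18) (nat_lit 139) (nat_lit 3) (nat_lit 11) (.e false (nat_lit 18) (nat_lit 65) (nat_lit 8) (nat_lit 6) (.e true (nat_lit 18) (nat_lit 161) (nat_lit 2) (nat_lit 12) .nil))))))))))))))) .leaf) (nat_lit 74760) (nat_lit 601) (.p (nat_lit 309) (nat_lit 540) (.n (nat_lit 310) (nat_lit 126) (.n (nat_lit 311) (nat_lit 207) (.n (nat_lit 312) (nat_lit 963) (.n (nat_lit 313) (nat_lit 495) (.p (nat_lit 314) (nat_lit 243) (.p (nat_lit 315) (nat_lit 522) (.p (nat_lit 316) (nat_lit 459) (.n (nat_lit 317) (nat_lit 1206) (.n (nat_lit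 318) (nat_lit 198) (.p (nat_lit 319) (nat_lit 45) (.p (nat_lit 320) (nat_lit 324) (.p (nat_lit 321) (nat_lit 450) (.n (nat_lit 322) (nat_lit 171) (.p (nat_lit 323) (nat_lit 81) (.n (nat_lit 324) (nat_lit 369) (.p (nat_lit 325) (nat_lit 378) (.n (nat_lit 326) (nat_lit 18) (.n (nat_lit 327) (nat_lit 342) (.n (nat_lit 328) (nat_lit 117) (.n (nat_lit 329) (nat_lit 306) .z))))))))))))))))))))) (.ct dr2_c531 (nat_lit 36) (nat_lit 5) (.s false (nat_lit 1) (nat_lit 8) (nat_lit 2) (nat_lit 3) (nat_lit 8) true (nat_lit 0) true (nat_lit 5) true (nat_lit 5) true (nat_lit 8) true (nat_lit 7) (.s true (nat_lit 1) (nat_lit 8) (nat_lit 3) (nat_lit 2) (nat_lit 8) false (nat_lit 0) true (nat_lit 5) true (nat_lit 5) true (nat_lit 7) true (nat_lit 8) (.s true (nat_lit 1) (nat_lit 23) (nat_lit 1) (nat_lit 3) (nat_lit 3) true (nat_lit 5) true (nat_lit 7) true (nat_lit 0) true (nat_lit 9) true (nat_lit 7) (.s true (nat_lit 1) (nat_lit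 28) (nat_lit 1) (nat_lit 2) (nat_lit 3) true (nat_lit 5) true (nat_lit 7) false (nat_lit 0) true (nat_lit 9) true (nat_lit 8) (.e false (nat_lit 54) (nat_lit 71) (nat_lit 8) (nat_lit 5) (.e false (nat_lit 18) (nat_lit 70) (nat_lit 8) (nat_lit 5) (.e true (nat_lit 36) (nat_lit 74) (nat_lit 8) (nat_lit 5) (.e false (nat_lit 36) (nat_lit 75) (nat_lit 8) (nat_lit 5) (.e false (nat_lit 18) (nat_lit 162) (nat_lit 2) (nat_lit 8) (.e true (nat_lit 54) (nat_lit 140) (nat_lit 3) (nat_lit 7) (.e false (nat_lit 36) (nat_lit 141) (nat_lit 3) (nat_lit 7) (.e false (nat_lit 36) (nat_lit 145) (nat_lit 3) (nat_lit 7) (.e false (nat_lit 18) (nat_lit 146) (nat_lit 3) (nat_lit 7) (.e false (nat_lit 36) (nat_lit 147) (nat_lit 3) (nat_lit 7) (.e true (nat_lit 18) (nat_lit 148) (nat_lit 3) (nat_lit 7) (.e true (nat_lit 54) (nat_lit 149) (nat_lit 3) (nat_lit 7) (.e false (nat_lit 72) (nat_lit 150) (nat_lit 3) (nat_lit 7) (.e false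 (nat_lit 18) (nat_lit 144) (nat_lit 3) (nat_lit 7) (.e false (nat_lit 18) (nat_lit 165) (nat_lit 2) (nat_lit 8) (.e true (nat_lit 18) (nat_lit 163) (nat_lit 2) (nat_lit 8) (.e false (nat_lit 18) (nat_lit 187) (nat_lit 1) (nat_lit 9) (.e true (nat_lit 18) (nat_lit 188) (nat_lit 1) (nat_lit 9) .nil))))))))))))))))))))))) (.nd .leaf (nat_lit 75776) (nat_lit 182) (.p (nat_lit 138) (nat_lit 18) .z) .df .leaf))) (nat_lit 75777) (nat_lit 214) (.p (nat_lit 149) (nat_lit 18) .z) .df (.nd (.nd (.nd (.nd .leaf (nat_lit 75779) (nat_lit 278) (.p (nat_lit 182) (nat_lit 18) .z) .df .leaf) (nat_lit 75780) (nat_lit 352) (.n (nat_lit 189) (nat_lit 108) (.p (nat_lit 190) (nat_lit 180) (.n (nat_lit 191) (nat_lit 180) (.n (nat_lit 192) (nat_lit 24) (.p (nat_lit 193) (nat_lit 30) (.p (nat_lit 194) (nat_lit 150) (.p (nat_lit 195) (nat_lit 120) (.p (nat_lit 196) (nat_lit 174) (.p (nat_lit 197) (nat_lit 210) (.n (nat_lit 198) (nat_lit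 162) (.n (nat_lit 199) (nat_lit 132) (.n (nat_lit 200) (nat_lit 162) (.n (nat_lit 201) (nat_lit 258) (.n (nat_lit 202) (nat_lit 72) (.n (nat_lit 203) (nat_lit 96) (.p (nat_lit 204) (nat_lit 60) (.n (nat_lit 205) (nat_lit 108) (.p (nat_lit 206) (nat_lit 9) (.n (nat_lit 207) (nat_lit 36) (.p (nat_lit 208) (nat_lit 6) (.p (nat_lit 210) (nat_lit 6) (.p (nat_lit 211) (nat_lit 57) (.n (nat_lit 212) (nat_lit 42) (.n (nat_lit 213) (nat_lit 150) (.p (nat_lit 214) (nat_lit 24) (.n (nat_lit 215) (nat_lit 12) (.p (nat_lit 216) (nat_lit 162) (.n (nat_lit 218) (nat_lit 45) (.p (nat_lit 219) (nat_lit 81) (.n (nat_lit 220) (nat_lit 63) (.p (nat_lit 221) (nat_lit 63) (.p (nat_lit 222) (nat_lit 63) (.n (nat_lit 223) (nat_lit 63) (.n (nat_lit 224) (nat_lit 216) (.p (nat_lit 225) (nat_lit 108) (.n (nat_lit 226) (nat_lit 108) (.p (nat_lit 227) (nat_lit 72) (.n (nat_lit 228) (nat_lit 36) (.n (nat_lit 229) (nat_lit 18) (.p (nat_lit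 231) (nat_lit 90) (.n (nat_lit 232) (nat_lit 54) (.p (nat_lit 235) (nat_lit 108) (.n (nat_lit 236) (nat_lit 72) (.p (nat_lit 237) (nat_lit 144) (.n (nat_lit 238) (nat_lit 36) (.n (nat_lit 239) (nat_lit 18) (.n (nat_lit 240) (nat_lit 90) .z))))))))))))))))))))))))))))))))))))))))))))))) (.ct dr2_c4626 (nat_lit 18) (nat_lit 11) (.s true (nat_lit 4) (nat_lit 8) (nat_lit 2) (nat_lit 3) (nat_lit 4) true (nat_lit 3) true (nat_lit 11) true (nat_lit 7) true (nat_lit 13) true (nat_lit 12) (.s true (nat_lit 6) (nat_lit 8) (nat_lit 3) (nat_lit 2) (nat_lit 4) true (nat_lit 1) true (nat_lit 11) true (nat_lit 7) true (nat_lit 12) true (nat_lit 13) (.s true (nat_lit 3) (nat_lit 8) (nat_lit 4) (nat_lit 2) (nat_lit 3) true (nat_lit 1) true (nat_lit 12) true (nat_lit 7) true (nat_lit 11) true (nat_lit 13) (.s true (nat_lit 1) (nat_lit 8) (nat_lit 4) (nat_lit 3) (nat_lit 2) true (nat_lit 3) true (nat_lit 13) true (nat_lit 7)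 true (nat_lit 11) true (nat_lit 12) (.s false (nat_lit 2) (nat_lit 9) (nat_lit 1) (nat_lit 7) (nat_lit 1) false (nat_lit 16) true (nat_lit 14) true (nat_lit 6) true (nat_lit 14) true (nat_lit 8) (.s false (nat_lit 2) (nat_lit 9) (nat_lit 4) (nat_lit 3) (nat_lit 1) true (nat_lit 4) true (nat_lit 14) true (nat_lit 6) true (nat_lit 11) true (nat_lit 12) (.s false (nat_lit 2) (nat_lit 9) (nat_lit 7) (nat_lit 1) (nat_lit 1) true (nat_lit 1) true (nat_lit 14) true (nat_lit 6) true (nat_lit 8) true (nat_lit 14) (.s false (nat_lit 3) (nat_lit 10) (nat_lit 4) (nat_lit 2) (nat_lit 1) true (nat_lit 4) true (nat_lit 14) true (nat_lit 5) true (nat_lit 11) true (nat_lit 13) (.s false (nat_lit 3) (nat_lit 12) (nat_lit 3) (nat_lit 1) (nat_lit 3) true (nat_lit 5) true (nat_lit 12) true (nat_lit 3) true (nat_lit 12) true (nat_lit 14) (.s true (nat_lit 1) (nat_lit 16) (nat_lit 1) (nat_lit 2) (nat_lit 3) true (nat_lit 7) true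 (nat_lit 12) true (nat_lit 1) true (nat_lit 14) true (nat_lit 13) (.s false (nat_lit 2) (nat_lit 18) (nat_lit 1) (nat_lit 2) (nat_lit 3) true (nat_lit 7) true (nat_lit 12) true (nat_lit 1) true (nat_lit 14) true (nat_lit 13) (.s false (nat_lit 1) (nat_lit 16) (nat_lit 2) (nat_lit 1) (nat_lit 3) true (nat_lit 6) true (nat_lit 12) true (nat_lit 1) true (nat_lit 13) true (nat_lit 14) (.s true (nat_lit 1) (nat_lit 16) (nat_lit 3) (nat_lit 1) (nat_lit 2) true (nat_lit 6) true (nat_lit 13) true (nat_lit 1) true (nat_lit 12) true (nat_lit 14) (.s true (nat_lit 2) (nat_lit 17) (nat_lit 3) (nat_lit 2) (nat_lit 1) true (nat_lit 7) true (nat_lit 14) true (nat_lit 1) true (nat_lit 12) true (nat_lit 13) (.s false (nat_lit 2) (nat_lit 18) (nat_lit 3) (nat_lit 2) (nat_lit 1) true (nat_lit 7) true (nat_lit 14) true (nat_lit 1) true (nat_lit 12) true (nat_lit 13) (.s true (nat_lit 2) (nat_lit 20) (nat_lit 1) (nat_lit 1) (nat_lit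 3) true (nat_lit 7) true (nat_lit 12) false (nat_lit 0) true (nat_lit 14) true (nat_lit 14) (.s false (nat_lit 2) (nat_lit 23) (nat_lit 0) (nat_lit 1) (nat_lit 3) true (nat_lit 8) true (nat_lit 12) false (nat_lit 1) true (nat_lit 15) true (nat_lit 14) dr2_i14)))))))))))))))))) .leaf) (nat_lit 75783) (nat_lit 546) (.n (nat_lit 262) (nat_lit 60) (.p (nat_lit 263) (nat_lit 12) (.n (nat_lit 264) (nat_lit 57) (.n (nat_lit 265) (nat_lit 51) (.p (nat_lit 266) (nat_lit 66) (.n (nat_lit 267) (nat_lit 60) (.p (nat_lit 268) (nat_lit 45) (.n (nat_lit 269) (nat_lit 78) (.p (nat_lit 270) (nat_lit 36) (.n (nat_lit 271) (nat_lit 24) (.n (nat_lit 272) (nat_lit 135) (.p (nat_lit 273) (nat_lit 39) (.n (nat_lit 274) (nat_lit 30) (.p (nat_lit 275) (nat_lit 90) (.p (nat_lit 276) (nat_lit 126) (.n (nat_lit 277) (nat_lit 135) (.p (nat_lit 278) (nat_lit 168) (.n (nat_lit 280) (nat_lit 48) (.n (nat_lit 281) (nat_lit 159) (.p (nat_lit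 282) (nat_lit 129) (.p (nat_lit 283) (nat_lit 12) (.p (nat_lit 284) (nat_lit 15) (.p (nat_lit 285) (nat_lit 267) (.p (nat_lit 286) (nat_lit 36) (.p (nat_lit 287) (nat_lit 63) (.n (nat_lit 288) (nat_lit 27) (.n (nat_lit 289) (nat_lit 27) (.p (nat_lit 290) (nat_lit 18) (.p (nat_lit 291) (nat_lit 9) (.n (nat_lit 292) (nat_lit 9) (.n (nat_lit 293) (nat_lit 9) (.n (nat_lit 294) (nat_lit 27) (.n (nat_lit 295) (nat_lit 45) (.p (nat_lit 296) (nat_lit 9) (.p (nat_lit 297) (nat_lit 27) (.p (nat_lit 298) (nat_lit 27) (.p (nat_lit 299) (nat_lit 9) (.n (nat_lit 300) (nat_lit 27) (.n (nat_lit 301) (nat_lit 36) (.p (nat_lit 302) (nat_lit 45) (.p (nat_lit 303) (nat_lit 18) (.p (nat_lit 304) (nat_lit 9) (.p (nat_lit 305) (nat_lit 9) (.n (nat_lit 306) (nat_lit 9) (.p (nat_lit 307) (nat_lit 9) .z))))))))))))))))))))))))))))))))))))))))))))) (.ct dr2_c4371 (nat_lit 18) (nat_lit 7) (.s false (nat_lit 1) (nat_lit 8) (nat_lit 7)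 (nat_lit 2) (nat_lit 3) false (nat_lit 0) true (nat_lit 11) true (nat_lit 6) true (nat_lit 7) true (nat_lit 12) (.s false (nat_lit 1) (nat_lit 26) (nat_lit 3) (nat_lit 1) (nat_lit 2) true (nat_lit 5) true (nat_lit 12) false (nat_lit 0) true (nat_lit 11) true (nat_lit 13) (.e true (nat_lit 18) (nat_lit 125) (nat_lit 3) (nat_lit 11) (.e true (nat_lit 18) (nat_lit 126) (nat_lit 3) (nat_lit 11) (.e false (nat_lit 18) (nat_lit 129) (nat_lit 3) (nat_lit 11) (.e true (nat_lit 18) (nat_lit 130) (nat_lit 3) (nat_lit 11) (.e false (nat_lit 18) (nat_lit 65) (nat_lit 8) (nat_lit 6) (.e false (nat_lit 18) (nat_lit 70) (nat_lit 7) (nat_lit 7) (.e false (nat_lit 18) (nat_lit 71) (nat_lit 7) (nat_lit 7) (.e false (nat_lit 18) (nat_lit 75) (nat_lit 7) (nat_lit 7) (.e false (nat_lit 36) (nat_lit 152) (nat_lit 2) (nat_lit 12) (.e true (nat_lit 18) (nat_lit 158) (nat_lit 2) (nat_lit 12) (.e true (nat_lit 18) (nat_lit 58) (nat_lit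 9) (nat_lit 5) (.e false (nat_lit 18) (nat_lit 151) (nat_lit 2) (nat_lit 12) (.e true (nat_lit 18) (nat_lit 153) (nat_lit 2) (nat_lit 12) (.e true (nat_lit 18) (nat_lit 160) (nat_lit 2) (nat_lit 12) (.e false (nat_lit 18) (nat_lit 139) (nat_lit 3) (nat_lit 11) (.e true (nat_lit 18) (nat_lit 170) (nat_lit 1) (nat_lit 13) .nil))))))))))))))))))) (.nd .leaf (nat_lit 75784) (nat_lit 594) (.n (nat_lit 309) (nat_lit 36) (.p (nat_lit 311) (nat_lit 18) (.p (nat_lit 312) (nat_lit 54) (.p (nat_lit 313) (nat_lit 18) (.n (nat_lit 314) (nat_lit 18) (.n (nat_lit 315) (nat_lit 36) (.n (nat_lit 316) (nat_lit 36) (.p (nat_lit 317) (nat_lit 72) (.n (nat_lit 319) (nat_lit 18) (.p (nat_lit 322) (nat_lit 18) (.p (nat_lit 323) (nat_lit 18) (.p (nat_lit 324) (nat_lit 18) (.n (nat_lit 326) (nat_lit 18) (.p (nat_lit 327) (nat_lit 36) (.p (nat_lit 328) (nat_lit 18) .z))))))))))))))) (.ct dr2_c531 (nat_lit 18) (nat_lit 5) (.s false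 (nat_lit 1) (nat_lit 9) (nat_lit 1) (nat_lit 8) (nat_lit 3) true (nat_lit 5) true (nat_lit 7) true (nat_lit 4) true (nat_lit 9) true (nat_lit 5) (.s false (nat_lit 1) (nat_lit 9) (nat_lit 8) (nat_lit 1) (nat_lit 3) false (nat_lit 0) true (nat_lit 7) true (nat_lit 4) true (nat_lit 5) true (nat_lit 9) (.s true (nat_lit 1) (nat_lit 10) (nat_lit 9) (nat_lit 1) (nat_lit 1) true (nat_lit 0) true (nat_lit 9) true (nat_lit 3) true (nat_lit 4) true (nat_lit 9) (.s true (nat_lit 1) (nat_lit 25) (nat_lit 3) (nat_lit 1) (nat_lit 3) true (nat_lit 3) true (nat_lit 7) true (nat_lit 0) true (nat_lit 7) true (nat_lit 9) (.s false (nat_lit 1) (nat_lit 29) (nat_lit 3) (nat_lit 2) (nat_lit 1) true (nat_lit 5) true (nat_lit 9) false (nat_lit 0) true (nat_lit 7) true (nat_lit 8) (.s true (nat_lit 1) (nat_lit 30) (nat_lit 1) (nat_lit 1) (nat_lit 3) true (nat_lit 5) true (nat_lit 7) false (nat_lit 1) true (nat_lit 9) true (nat_lit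 9) (.e true (nat_lit 36) (nat_lit 142) (nat_lit 3) (nat_lit 7) (.e false (nat_lit 54) (nat_lit 145) (nat_lit 3) (nat_lit 7) (.e false (nat_lit 18) (nat_lit 146) (nat_lit 3) (nat_lit 7) (.e true (nat_lit 36) (nat_lit 149) (nat_lit 3) (nat_lit 7) (.e false (nat_lit 72) (nat_lit 150) (nat_lit 3) (nat_lit 7) (.e false (nat_lit 18) (nat_lit 179) (nat_lit 1) (nat_lit 9) (.e false (nat_lit 18) (nat_lit 184) (nat_lit 1) (nat_lit 9) (.e false (nat_lit 18) (nat_lit 180) (nat_lit 1) (nat_lit 9) (.e false (nat_lit 36) (nat_lit 183) (nat_lit 1) (nat_lit 9) (.e false (nat_lit 18) (nat_lit 178) (nat_lit 1) (nat_lit 9) (.e true (nat_lit 18) (nat_lit 182) (nat_lit 1) (nat_lit 9) (.e true (nat_lit 18) (nat_lit 147) (nat_lit 3) (nat_lit 7) (.e false (nat_lit 18) (nat_lit 144) (nat_lit 3) (nat_lit 7) (.e true (nat_lit 36) (nat_lit 148) (nat_lit 3) (nat_lit 7) (.e true (nat_lit 18) (nat_lit 163) (nat_lit 2) (nat_lit 8) .nil))))))))))))))))))))))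 .leaf)) (nat_lit 76800) (nat_lit 187) (.p (nat_lit 115) (nat_lit 6) (.p (nat_lit 116) (nat_lit 6) (.n (nat_lit 117) (nat_lit 6) (.n (nat_lit 118) (nat_lit 12) (.p (nat_lit 119) (nat_lit 6) (.p (nat_lit 120) (nat_lit 6) (.p (nat_lit 122) (nat_lit 6) (.p (nat_lit 123) (nat_lit 18) (.p (nat_lit 124) (nat_lit 6) (.n (nat_lit 125) (nat_lit 18) (.n (nat_lit 126) (nat_lit 12) (.n (nat_lit 127) (nat_lit 6) (.p (nat_lit 129) (nat_lit 18) (.n (nat_lit 130) (nat_lit 18) (.n (nat_lit 131) (nat_lit 6) (.n (nat_lit 132) (nat_lit 18) (.n (nat_lit 133) (nat_lit 6) (.p (nat_lit 134) (nat_lit 6) (.n (nat_lit 135) (nat_lit 12) (.n (nat_lit 136) (nat_lit 12) (.n (nat_lit 137) (nat_lit 18) (.p (nat_lit 138) (nat_lit 12) (.p (nat_lit 139) (nat_lit 12) .z))))))))))))))))))))))) (.ct dr2_c4370 (nat_lit 18) (nat_lit 10) (.s true (nat_lit 1) (nat_lit 4) (nat_lit 2) (nat_lit 3) (nat_lit 3) true (nat_lit 1) true (nat_lit 7) true (nat_lit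 6) true (nat_lit 8) true (nat_lit 7) (.s true (nat_lit 1) (nat_lit 7) (nat_lit 2) (nat_lit 3) (nat_lit 1) true (nat_lit 4) true (nat_lit 9) true (nat_lit 3) true (nat_lit 8) true (nat_lit 7) (.s false (nat_lit 1) (nat_lit 9) (nat_lit 0) (nat_lit 1) (nat_lit 3) true (nat_lit 3) true (nat_lit 7) true (nat_lit 1) true (nat_lit 10) true (nat_lit 9) (.e true (nat_lit 18) (nat_lit 41) (nat_lit 3) (nat_lit 7) (.e false (nat_lit 18) (nat_lit 30) (nat_lit 4) (nat_lit 6) (.e true (nat_lit 18) (nat_lit 57) (nat_lit 2) (nat_lit 8) (.e false (nat_lit 18) (nat_lit 58) (nat_lit 2) (nat_lit 8) (.e true (nat_lit 36) (nat_lit 60) (nat_lit 2) (nat_lit 8) (.e true (nat_lit 18) (nat_lit 44) (nat_lit 3) (nat_lit 7) (.e false (nat_lit 18) (nat_lit 26) (nat_lit 6) (nat_lit 4) (.e true (nat_lit 18) (nat_lit 65) (nat_lit 1) (nat_lit 9) (.e true (nat_lit 18) (nat_lit 55) (nat_lit 2) (nat_lit 8) (.e false (nat_lit 18) (nat_lit 59) (nat_lit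 2) (nat_lit 8) (.e false (nat_lit 18) (nat_lit 45) (nat_lit 3) (nat_lit 7) (.e false (nat_lit 18) (nat_lit 49) (nat_lit 3) (nat_lit 7) (.e true (nat_lit 18) (nat_lit 70) (nat_lit 0) (nat_lit 10) (.e true (nat_lit 18) (nat_lit 71) (nat_lit 0) (nat_lit 10) (.e false (nat_lit 18) (nat_lit 74) (nat_lit 0) (nat_lit 10) (.e true (nat_lit 18) (nat_lit 69) (nat_lit 1) (nat_lit 9) .nil)))))))))))))))))))) (.nd (.nd (.nd .leaf (nat_lit 76801) (nat_lit 215) (.p (nat_lit 150) (nat_lit 18) .z) .df .leaf) (nat_lit 76803) (nat_lit 279) (.p (nat_lit 183) (nat_lit 18) .z) .df .leaf) (nat_lit 76804) (nat_lit 355) (.p (nat_lit 189) (nat_lit 27) (.n (nat_lit 190) (nat_lit 27) (.p (nat_lit 191) (nat_lit 27) (.n (nat_lit 192) (nat_lit 18) (.n (nat_lit 193) (nat_lit 72) (.p (nat_lit 194) (nat_lit 27) (.n (nat_lit 195) (nat_lit 36) (.n (nat_lit 196) (nat_lit 9) (.n (nat_lit 197) (nat_lit 18) (.n (nat_lit 198) (nat_lit 18) (.p (nat_lit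 199) (nat_lit 63) (.n (nat_lit 200) (nat_lit 18) (.p (nat_lit 201) (nat_lit 54) (.p (nat_lit 202) (nat_lit 63) (.n (nat_lit 204) (nat_lit 9) (.p (nat_lit 205) (nat_lit 9) (.n (nat_lit 206) (nat_lit 81) (.p (nat_lit 207) (nat_lit 27) (.n (nat_lit 208) (nat_lit 63) (.p (nat_lit 210) (nat_lit 45) (.p (nat_lit 211) (nat_lit 72) (.n (nat_lit 212) (nat_lit 117) (.n (nat_lit 213) (nat_lit 36) (.p (nat_lit 214) (nat_lit 27) (.n (nat_lit 215) (nat_lit 126) (.p (nat_lit 216) (nat_lit 72) (.n (nat_lit 218) (nat_lit 36) (.p (nat_lit 219) (nat_lit 45) (.n (nat_lit 220) (nat_lit 72) (.p (nat_lit 221) (nat_lit 27) (.p (nat_lit 222) (nat_lit 72) (.n (nat_lit 223) (nat_lit 27) (.n (nat_lit 224) (nat_lit 27) (.n (nat_lit 225) (nat_lit 9) (.p (nat_lit 226) (nat_lit 9) (.p (nat_lit 227) (nat_lit 18) (.n (nat_lit 228) (nat_lit 9) (.p (nat_lit 229) (nat_lit 54) (.p (nat_lit 231) (nat_lit 18) (.n (nat_lit 232) (nat_lit 9) (.n (nat_lit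 235) (nat_lit 27) (.n (nat_lit 236) (nat_lit 18) (.n (nat_lit 237) (nat_lit 18) (.p (nat_lit 238) (nat_lit 18) (.p (nat_lit 239) (nat_lit 54) (.n (nat_lit 240) (nat_lit 18) .z)))))))))))))))))))))))))))))))))))))))))))))) (.ct dr2_c4626 (nat_lit 18) (nat_lit 11) (.s true (nat_lit 1) (nat_lit 8) (nat_lit 4) (nat_lit 2) (nat_lit 3) true (nat_lit 1) true (nat_lit 12) true (nat_lit 7) true (nat_lit 11) true (nat_lit 13) (.s true (nat_lit 1) (nat_lit 9) (nat_lit 4) (nat_lit 3) (nat_lit 1) true (nat_lit 4) true (nat_lit 14) true (nat_lit 6) true (nat_lit 11) true (nat_lit 12) (.s true (nat_lit 1) (nat_lit 18) (nat_lit 1) (nat_lit 2) (nat_lit 3) true (nat_lit 7) true (nat_lit 12) true (nat_lit 1) true (nat_lit 14) true (nat_lit 13) (.s false (nat_lit 1) (nat_lit 16) (nat_lit 3) (nat_lit 1) (nat_lit 2) true (nat_lit 6) true (nat_lit 13) true (nat_lit 1) true (nat_lit 12) true (nat_lit 14) (.s false (nat_lit 1) (nat_lit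 23) (nat_lit 1) (nat_lit 3) (nat_lit 0) true (nat_lit 11) true (nat_lit 15) false (nat_lit 1) true (nat_lit 14) true (nat_lit 12) (.s true (nat_lit 1) (nat_lit 30) (nat_lit 0) (nat_lit 1) (nat_lit 1) true (nat_lit 11) true (nat_lit 14) false (nat_lit 4) true (nat_lit 15) true (nat_lit 14) (.e true (nat_lit 18) (nat_lit 91) (nat_lit 3) (nat_lit 12) (.e false (nat_lit 18) (nat_lit 41) (nat_lit 8) (nat_lit 7) (.e true (nat_lit 18) (nat_lit 70) (nat_lit 4) (nat_lit 11) (.e false (nat_lit 18) (nat_lit 104) (nat_lit 2) (nat_lit 13) (.e true (nat_lit 18) (nat_lit 110) (nat_lit 2) (nat_lit 13) (.e false (nat_lit 18) (nat_lit 112) (nat_lit 2) (nat_lit 13) (.e true (nat_lit 12) (nat_lit 116) (nat_lit 1) (nat_lit 14) (.e false (nat_lit 24) (nat_lit 120) (nat_lit 1) (nat_lit 14) (.e true (nat_lit 12) (nat_lit 122) (nat_lit 1) (nat_lit 14) (.e true (nat_lit 30) (nat_lit 124) (nat_lit 1) (nat_lit 14) dr2_i18)))))))))))))))))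 (.nd .leaf (nat_lit 76807) (nat_lit 545) (.n (nat_lit 262) (nat_lit 114) (.n (nat_lit 263) (nat_lit 60) (.n (nat_lit 264) (nat_lit 111) (.n (nat_lit 265) (nat_lit 105) (.p (nat_lit 266) (nat_lit 66) (.n (nat_lit 267) (nat_lit 168) (.p (nat_lit 268) (nat_lit 135) (.n (nat_lit 269) (nat_lit 6) (.p (nat_lit 270) (nat_lit 72) (.n (nat_lit 271) (nat_lit 6) (.n (nat_lit 272) (nat_lit 207) (.p (nat_lit 273) (nat_lit 57) (.n (nat_lit 274) (nat_lit 30) (.p (nat_lit 275) (nat_lit 126) (.p (nat_lit 276) (nat_lit 162) (.n (nat_lit 277) (nat_lit 189) (.p (nat_lit 278) (nat_lit 240) (.n (nat_lit 280) (nat_lit 48) (.n (nat_lit 281) (nat_lit 195) (.p (nat_lit 282) (nat_lit 129) (.n (nat_lit 283) (nat_lit 24) (.p (nat_lit 284) (nat_lit 33) (.p (nat_lit 285) (nat_lit 375) (.p (nat_lit 286) (nat_lit 72) (.p (nat_lit 287) (nat_lit 135) (.n (nat_lit 288) (nat_lit 63) (.n (nat_lit 289) (nat_lit 27) (.p (nat_lit 290) (nat_lit 36)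 (.p (nat_lit 291) (nat_lit 45) (.n (nat_lit 292) (nat_lit 27) (.n (nat_lit 293) (nat_lit 63) (.n (nat_lit 294) (nat_lit 63) (.n (nat_lit 295) (nat_lit 81) (.n (nat_lit 296) (nat_lit 27) (.n (nat_lit 297) (nat_lit 27) (.p (nat_lit 298) (nat_lit 9) (.n (nat_lit 299) (nat_lit 27) (.n (nat_lit 300) (nat_lit 45) (.n (nat_lit 301) (nat_lit 36) (.p (nat_lit 302) (nat_lit 45) (.p (nat_lit 303) (nat_lit 72) (.p (nat_lit 304) (nat_lit 63) (.p (nat_lit 305) (nat_lit 45) (.n (nat_lit 306) (nat_lit 63) (.n (nat_lit 307) (nat_lit 9) (.p (nat_lit 308) (nat_lit 36) .z)))))))))))))))))))))))))))))))))))))))))))))) (.ct dr2_c4371 (nat_lit 18) (nat_lit 7) (.s true (nat_lit 1) (nat_lit 9) (nat_lit 1) (nat_lit 7) (nat_lit 3) true (nat_lit 6) true (nat_lit 11) true (nat_lit 5) true (nat_lit 13) true (nat_lit 7) (.e false (nat_lit 18) (nat_lit 64) (nat_lit 8) (nat_lit 6) (.e false (nat_lit 18) (nat_lit 65) (nat_lit 8) (nat_lit 6)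 (.e true (nat_lit 18) (nat_lit 68) (nat_lit 8) (nat_lit 6) (.e false (nat_lit 18) (nat_lit 69) (nat_lit 8) (nat_lit 6) (.e true (nat_lit 18) (nat_lit 119) (nat_lit 3) (nat_lit 11) (.e false (nat_lit 18) (nat_lit 125) (nat_lit 3) (nat_lit 11) (.e false (nat_lit 18) (nat_lit 126) (nat_lit 3) (nat_lit 11) (.e true (nat_lit 18) (nat_lit 129) (nat_lit 3) (nat_lit 11) (.e false (nat_lit 18) (nat_lit 130) (nat_lit 3) (nat_lit 11) (.e false (nat_lit 18) (nat_lit 132) (nat_lit 3) (nat_lit 11) (.e true (nat_lit 18) (nat_lit 139) (nat_lit 3) (nat_lit 11) (.e false (nat_lit 18) (nat_lit 56) (nat_lit 9) (nat_lit 5) (.e true (nat_lit 18) (nat_lit 177) (nat_lit 1) (nat_lit 13) .nil))))))))))))))) .leaf)))) (nat_lit 76808) (nat_lit 599) (.p (nat_lit 309) (nat_lit 342) (.n (nat_lit 310) (nat_lit 90) (.n (nat_lit 311) (nat_lit 126) (.n (nat_lit 312) (nat_lit 612) (.n (nat_lit 313) (nat_lit 324) (.p (nat_lit 314) (nat_lit 144)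 (.p (nat_lit 315) (nat_lit 324) (.p (nat_lit 316) (nat_lit 306) (.n (nat_lit 317) (nat_lit 774) (.n (nat_lit 318) (nat_lit 126) (.p (nat_lit 319) (nat_lit 18) (.p (nat_lit 320) (nat_lit 216) (.p (nat_lit 321) (nat_lit 288) (.n (nat_lit 322) (nat_lit 108) (.p (nat_lit 323) (nat_lit 54) (.n (nat_lit 324) (nat_lit 216) (.p (nat_lit 325) (nat_lit 234) (.n (nat_lit 326) (nat_lit 18) (.n (nat_lit 327) (nat_lit 216) (.n (nat_lit 328) (nat_lit 72) (.n (nat_lit 329) (nat_lit 198) .z))))))))))))))))))))) (.ct dr2_c531 (nat_lit 18) (nat_lit 5) (.s true (nat_lit 1) (nat_lit 9) (nat_lit 1) (nat_lit 8) (nat_lit 3) true (nat_lit 5) true (nat_lit 7) true (nat_lit 4) true (nat_lit 9) true (nat_lit 5) (.s true (nat_lit 1) (nat_lit 9) (nat_lit 8) (nat_lit 1) (nat_lit 3) false (nat_lit 0) true (nat_lit 7) true (nat_lit 4) true (nat_lit 5) true (nat_lit 9) (.s true (nat_lit 1) (nat_lit 10) (nat_lit 1) (nat_lit 9) (nat_lit 1) false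 (nat_lit 10) true (nat_lit 9) true (nat_lit 3) true (nat_lit 9) true (nat_lit 4) (.s false (nat_lit 1) (nat_lit 25) (nat_lit 3) (nat_lit 1) (nat_lit 3) true (nat_lit 3) true (nat_lit 7) true (nat_lit 0) true (nat_lit 7) true (nat_lit 9) (.s true (nat_lit 1) (nat_lit 23) (nat_lit 3) (nat_lit 3) (nat_lit 1) true (nat_lit 5) true (nat_lit 9) true (nat_lit 0) true (nat_lit 7) true (nat_lit 7) (.s true (nat_lit 1) (nat_lit 29) (nat_lit 2) (nat_lit 1) (nat_lit 3) true (nat_lit 4) true (nat_lit 7) false (nat_lit 0) true (nat_lit 8) true (nat_lit 9) (.e true (nat_lit 18) (nat_lit 70) (nat_lit 8) (nat_lit 5) (.e false (nat_lit 36) (nat_lit 142) (nat_lit 3) (nat_lit 7) (.e true (nat_lit 18) (nat_lit 145) (nat_lit 3) (nat_lit 7) (.e true (nat_lit 36) (nat_lit 146) (nat_lit 3) (nat_lit 7) (.e true (nat_lit 54) (nat_lit 150) (nat_lit 3) (nat_lit 7) (.e true (nat_lit 36) (nat_lit 188) (nat_lit 1) (nat_lit 9) (.e true (nat_lit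 36) (nat_lit 179) (nat_lit 1) (nat_lit 9) (.e false (nat_lit 18) (nat_lit 184) (nat_lit 1) (nat_lit 9) (.e true (nat_lit 54) (nat_lit 178) (nat_lit 1) (nat_lit 9) (.e false (nat_lit 36) (nat_lit 182) (nat_lit 1) (nat_lit 9) (.e true (nat_lit 54) (nat_lit 183) (nat_lit 1) (nat_lit 9) (.e false (nat_lit 36) (nat_lit 147) (nat_lit 3) (nat_lit 7) (.e false (nat_lit 36) (nat_lit 141) (nat_lit 3) (nat_lit 7) (.e false (nat_lit 18) (nat_lit 163) (nat_lit 2) (nat_lit 8) (.e true (nat_lit 18) (nat_lit 165) (nat_lit 2) (nat_lit 8) (.e true (nat_lit 36) (nat_lit 166) (nat_lit 2) (nat_lit 8) .nil))))))))))))))))))))))) (.nd (.nd (.nd (.nd (.nd .leaf (nat_lit 77825) (nat_lit 243) (.p (nat_lit 151) (nat_lit 18) (.p (nat_lit 152) (nat_lit 18) (.n (nat_lit 153) (nat_lit 18) (.n (nat_lit 154) (nat_lit 18) (.p (nat_lit 157) (nat_lit 18) (.n (nat_lit 160) (nat_lit 18) (.n (nat_lit 161) (nat_lit 18) .z))))))) (.ct dr2_c4355 (nat_lit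 18) (nat_lit 5) (.s true (nat_lit 1) (nat_lit 7) (nat_lit 3) (nat_lit 3) (nat_lit 1) true (nat_lit 1) true (nat_lit 5) true (nat_lit 2) true (nat_lit 4) true (nat_lit 4) (.e true (nat_lit 18) (nat_lit 26) (nat_lit 8) (nat_lit 1) (.e true (nat_lit 18) (nat_lit 29) (nat_lit 7) (nat_lit 2) (.e false (nat_lit 18) (nat_lit 55) (nat_lit 3) (nat_lit 4) (.e false (nat_lit 36) (nat_lit 56) (nat_lit 3) (nat_lit 4) (.e true (nat_lit 18) (nat_lit 59) (nat_lit 3) (nat_lit 4) (.e false (nat_lit 18) (nat_lit 60) (nat_lit 3) (nat_lit 4) .nil)))))))) .leaf) (nat_lit 77826) (nat_lit 272) (.p (nat_lit 167) (nat_lit 18) (.p (nat_lit 168) (nat_lit 18) (.n (nat_lit 169) (nat_lit 18) (.n (nat_lit 170) (nat_lit 18) (.p (nat_lit 173) (nat_lit 18) (.n (nat_lit 176) (nat_lit 18) (.n (nat_lit 177) (nat_lit 18) .z))))))) (.ct dr2_c4115 (nat_lit 18) (nat_lit 5) (.s true (nat_lit 1) (nat_lit 7) (nat_lit 3) (nat_lit 3) (nat_lit 2) true (nat_lit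 1) true (nat_lit 5) true (nat_lit 2) true (nat_lit 4) true (nat_lit 4) (.e true (nat_lit 18) (nat_lit 26) (nat_lit 9) (nat_lit 1) (.e true (nat_lit 18) (nat_lit 31) (nat_lit 7) (nat_lit 2) (.e false (nat_lit 18) (nat_lit 64) (nat_lit 3) (nat_lit 4) (.e false (nat_lit 36) (nat_lit 65) (nat_lit 3) (nat_lit 4) (.e true (nat_lit 18) (nat_lit 68) (nat_lit 3) (nat_lit 4) (.e false (nat_lit 18) (nat_lit 69) (nat_lit 3) (nat_lit 4) .nil)))))))) .leaf) (nat_lit 77830) (nat_lit 572) (.n (nat_lit 262) (nat_lit 34) (.p (nat_lit 263) (nat_lit 14) (.n (nat_lit 264) (nat_lit 32) (.n (nat_lit 265) (nat_lit 40) (.p (nat_lit 266) (nat_lit 44) (.n (nat_lit 267) (nat_lit 40) (.p (nat_lit 268) (nat_lit 30) (.n (nat_lit 269) (nat_lit 34) (.p (nat_lit 270) (nat_lit 30) (.n (nat_lit 271) (nat_lit 16) (.n (nat_lit 272) (nat_lit 96) (.n (nat_lit 273) (nat_lit 4) (.n (nat_lit 274) (nat_lit 32) (.p (nat_lit 275) (nat_lit 42) (.p (nat_lit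 276) (nat_lit 90) (.n (nat_lit 277) (nat_lit 102) (.p (nat_lit 278) (nat_lit 112) (.n (nat_lit 280) (nat_lit 32) (.n (nat_lit 281) (nat_lit 100) (.p (nat_lit 282) (nat_lit 92) (.p (nat_lit 283) (nat_lit 2) (.p (nat_lit 284) (nat_lit 10) (.p (nat_lit 285) (nat_lit 154) (.p (nat_lit 286) (nat_lit 36) (.p (nat_lit 287) (nat_lit 36) (.n (nat_lit 289) (nat_lit 36) (.p (nat_lit 290) (nat_lit 42) (.p (nat_lit 291) (nat_lit 12) (.p (nat_lit 292) (nat_lit 6) (.n (nat_lit 294) (nat_lit 6) (.n (nat_lit 295) (nat_lit 30) (.p (nat_lit 298) (nat_lit 30) (.n (nat_lit 300) (nat_lit 12) (.n (nat_lit 301) (nat_lit 6) (.p (nat_lit 302) (nat_lit 30) (.p (nat_lit 303) (nat_lit 12) (.p (nat_lit 306) (nat_lit 6) (.n (nat_lit 307) (nat_lit 24) (.n (nat_lit 308) (nat_lit 12) .z))))))))))))))))))))))))))))))))))))))) (.ct dr2_c4371 (nat_lit 18) (nat_lit 8) (.s true (nat_lit 1) (nat_lit 26) (nat_lit 1) (nat_lit 3) (nat_lit 2) true (nat_lit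 8) true (nat_lit 12) false (nat_lit 0) true (nat_lit 13) true (nat_lit 11) (.e true (nat_lit 18) (nat_lit 154) (nat_lit 2) (nat_lit 12) (.e true (nat_lit 18) (nat_lit 26) (nat_lit 24) (nat_lit 0) (.e false (nat_lit 18) (nat_lit 177) (nat_lit 1) (nat_lit 13) (.e false (nat_lit 18) (nat_lit 133) (nat_lit 3) (nat_lit 11) .nil)))))) (.nd .leaf (nat_lit 78849) (nat_lit 231) (.p (nat_lit 157) (nat_lit 18) .z) .df .leaf)) (nat_lit 78850) (nat_lit 260) (.p (nat_lit 173) (nat_lit 18) .z) .df (.nd (.nd (.nd .leaf (nat_lit 78854) (nat_lit 549) (.n (nat_lit 262) (nat_lit 34) (.n (nat_lit 263) (nat_lit 220) (.n (nat_lit 264) (nat_lit 14) (.p (nat_lit 265) (nat_lit 50) (.n (nat_lit 266) (nat_lit 82) (.n (nat_lit 267) (nat_lit 76) (.p (nat_lit 268) (nat_lit 66) (.p (nat_lit 269) (nat_lit 200) (.n (nat_lit 270) (nat_lit 60) (.p (nat_lit 271) (nat_lit 74) (.p (nat_lit 272) (nat_lit 120) (.p (nat_lit 273) (nat_lit 32) (.p (nat_lit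 274) (nat_lit 130) (.n (nat_lit 275) (nat_lit 48) (.n (nat_lit 276) (nat_lit 180) (.p (nat_lit 277) (nat_lit 168) (.n (nat_lit 278) (nat_lit 140) (.p (nat_lit 280) (nat_lit 166) (.p (nat_lit 281) (nat_lit 170) (.n (nat_lit 282) (nat_lit 268) (.n (nat_lit 283) (nat_lit 52) (.p (nat_lit 284) (nat_lit 10) (.n (nat_lit 285) (nat_lit 206) (.n (nat_lit 286) (nat_lit 126) (.n (nat_lit 288) (nat_lit 90) (.p (nat_lit 289) (nat_lit 162) (.n (nat_lit 290) (nat_lit 210) (.n (nat_lit 291) (nat_lit 42) (.n (nat_lit 292) (nat_lit 120) (.n (nat_lit 293) (nat_lit 90) (.n (nat_lit 294) (nat_lit 24) (.p (nat_lit 295) (nat_lit 60) (.n (nat_lit 296) (nat_lit 18) (.n (nat_lit 297) (nat_lit 108) (.n (nat_lit 298) (nat_lit 150) (.n (nat_lit 299) (nat_lit 18) (.p (nat_lit 300) (nat_lit 60) (.p (nat_lit 301) (nat_lit 30) (.n (nat_lit 302) (nat_lit 42) (.p (nat_lit 303) (nat_lit 66) (.p (nat_lit 304) (nat_lit 126) (.p (nat_lit 305)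 (nat_lit 108) (.n (nat_lit 306) (nat_lit 156) (.p (nat_lit 307) (nat_lit 12) (.p (nat_lit 308) (nat_lit 150) .z))))))))))))))))))))))))))))))))))))))))))))) (.ct dr2_c4371 (nat_lit 18) (nat_lit 8) (.s true (nat_lit 1) (nat_lit 27) (nat_lit 1) (nat_lit 3) (nat_lit 2) true (nat_lit 8) true (nat_lit 12) false (nat_lit 0) true (nat_lit 13) true (nat_lit 11) (.s true (nat_lit 1) (nat_lit 27) (nat_lit 3) (nat_lit 1) (nat_lit 2) true (nat_lit 5) true (nat_lit 12) false (nat_lit 0) true (nat_lit 11) true (nat_lit 13) (.e true (nat_lit 18) (nat_lit 155) (nat_lit 2) (nat_lit 12) (.e false (nat_lit 36) (nat_lit 167) (nat_lit 1) (nat_lit 13) (.e false (nat_lit 36) (nat_lit 168) (nat_lit 1) (nat_lit 13) (.e false (nat_lit 36) (nat_lit 172) (nat_lit 1) (nat_lit 13) (.e true (nat_lit 18) (nat_lit 175) (nat_lit 1) (nat_lit 13) (.e true (nat_lit 18) (nat_lit 176) (nat_lit 1) (nat_lit 13) (.e false (nat_lit 18) (nat_lit 59)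 (nat_lit 9) (nat_lit 5) (.e true (nat_lit 18) (nat_lit 157) (nat_lit 2) (nat_lit 12) (.e true (nat_lit 18) (nat_lit 117) (nat_lit 3) (nat_lit 11) (.e true (nat_lit 18) (nat_lit 125) (nat_lit 3) (nat_lit 11) (.e false (nat_lit 18) (nat_lit 128) (nat_lit 3) (nat_lit 11) (.e false (nat_lit 18) (nat_lit 129) (nat_lit 3) (nat_lit 11) (.e true (nat_lit 18) (nat_lit 130) (nat_lit 3) (nat_lit 11) (.e false (nat_lit 18) (nat_lit 131) (nat_lit 3) (nat_lit 11) (.e true (nat_lit 18) (nat_lit 133) (nat_lit 3) (nat_lit 11) (.e false (nat_lit 18) (nat_lit 135) (nat_lit 3) (nat_lit 11) (.e false (nat_lit 18) (nat_lit 136) (nat_lit 3) (nat_lit 11) (.e false (nat_lit 18) (nat_lit 139) (nat_lit 3) (nat_lit 11) .nil))))))))))))))))))))) .leaf) (nat_lit 79873) (nat_lit 232) (.p (nat_lit 158) (nat_lit 18) .z) .df .leaf) (nat_lit 79874) (nat_lit 261) (.p (nat_lit 174) (nat_lit 18) .z) .df (.nd .leaf (nat_lit 79878) (nat_lit 556)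 (.p (nat_lit 262) (nat_lit 62) (.p (nat_lit 263) (nat_lit 272) (.p (nat_lit 264) (nat_lit 7) (.n (nat_lit 265) (nat_lit 43) (.p (nat_lit 266) (nat_lit 68) (.p (nat_lit 267) (nat_lit 110) (.n (nat_lit 268) (nat_lit 87) (.n (nat_lit 269) (nat_lit 226) (.p (nat_lit 270) (nat_lit 66) (.n (nat_lit 271) (nat_lit 64) (.n (nat_lit 272) (nat_lit 105) (.n (nat_lit 273) (nat_lit 43) (.n (nat_lit 274) (nat_lit 128) (.p (nat_lit 275) (nat_lit 42) (.p (nat_lit 276) (nat_lit 198) (.n (nat_lit 277) (nat_lit 165) (.p (nat_lit 278) (nat_lit 124) (.n (nat_lit 280) (nat_lit 200) (.n (nat_lit 281) (nat_lit 175) (.p (nat_lit 282) (nat_lit 305) (.p (nat_lit 283) (nat_lit 80) (.n (nat_lit 284) (nat_lit 23) (.p (nat_lit 285) (nat_lit 211) (.p (nat_lit 286) (nat_lit 108) (.n (nat_lit 287) (nat_lit 45) (.p (nat_lit 288) (nat_lit 117) (.n (nat_lit 289) (nat_lit 171) (.p (nat_lit 290) (nat_lit 204) (.p (nat_lit 291) (nat_lit 21) (.p (nat_lit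 292) (nat_lit 141) (.p (nat_lit 293) (nat_lit 117) (.p (nat_lit 294) (nat_lit 39) (.n (nat_lit 295) (nat_lit 57) (.p (nat_lit 296) (nat_lit 45) (.p (nat_lit 297) (nat_lit 135) (.p (nat_lit 298) (nat_lit 147) (.p (nat_lit 299) (nat_lit 45) (.n (nat_lit 300) (nat_lit 39) (.n (nat_lit 301) (nat_lit 24) (.p (nat_lit 302) (nat_lit 39) (.n (nat_lit 303) (nat_lit 96) (.n (nat_lit 304) (nat_lit 153) (.n (nat_lit 305) (nat_lit 135) (.p (nat_lit 306) (nat_lit 195) (.p (nat_lit 307) (nat_lit 3) (.n (nat_lit 308) (nat_lit 174) .z)))))))))))))))))))))))))))))))))))))))))))))) (.ct dr2_c4371 (nat_lit 18) (nat_lit 8) (.s false (nat_lit 1) (nat_lit 7) (nat_lit 6) (nat_lit 3) (nat_lit 3) true (nat_lit 0) true (nat_lit 11) true (nat_lit 7) true (nat_lit 8) true (nat_lit 11) (.s true (nat_lit 1) (nat_lit 23) (nat_lit 0) (nat_lit 3) (nat_lit 3) true (nat_lit 7) true (nat_lit 11) true (nat_lit 0) true (nat_lit 14) true (nat_lit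 11) (.e true (nat_lit 18) (nat_lit 117) (nat_lit 3) (nat_lit 11) (.e true (nat_lit 18) (nat_lit 118) (nat_lit 3) (nat_lit 11) (.e true (nat_lit 18) (nat_lit 119) (nat_lit 3) (nat_lit 11) (.e true (nat_lit 18) (nat_lit 120) (nat_lit 3) (nat_lit 11) (.e false (nat_lit 18) (nat_lit 121) (nat_lit 3) (nat_lit 11) (.e false (nat_lit 18) (nat_lit 122) (nat_lit 3) (nat_lit 11) (.e false (nat_lit 18) (nat_lit 123) (nat_lit 3) (nat_lit 11) (.e true (nat_lit 18) (nat_lit 77) (nat_lit 6) (nat_lit 8) (.e false (nat_lit 18) (nat_lit 139) (nat_lit 3) (nat_lit 11) (.e false (nat_lit 18) (nat_lit 187) (nat_lit 0) (nat_lit 14) (.e true (nat_lit 18) (nat_lit 136) (nat_lit 3) (nat_lit 11) .nil)))))))))))))) .leaf))) (nat_lit 80896) (nat_lit 244) (.n (nat_lit 151) (nat_lit 18) (.n (nat_lit 152) (nat_lit 36) (.p (nat_lit 153) (nat_lit 18) (.n (nat_lit 154) (nat_lit 18) (.n (nat_lit 156) (nat_lit 18) (.p (nat_lit 157) (nat_lit 18)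 (.p (nat_lit 158) (nat_lit 18) (.p (nat_lit 159) (nat_lit 18) (.p (nat_lit 160) (nat_lit 18) (.n (nat_lit 161) (nat_lit 18) .z)))))))))) (.ct dr2_c4355 (nat_lit 18) (nat_lit 6) (.s true (nat_lit 1) (nat_lit 8) (nat_lit 3) (nat_lit 0) (nat_lit 3) true (nat_lit 0) true (nat_lit 4) true (nat_lit 1) true (nat_lit 4) true (nat_lit 6) (.e false (nat_lit 18) (nat_lit 18) (nat_lit 10) (nat_lit 0) (.e true (nat_lit 36) (nat_lit 60) (nat_lit 3) (nat_lit 4) (.e true (nat_lit 18) (nat_lit 26) (nat_lit 8) (nat_lit 1) (.e true (nat_lit 18) (nat_lit 55) (nat_lit 3) (nat_lit 4) (.e true (nat_lit 18) (nat_lit 56) (nat_lit 3) (nat_lit 4) (.e false (nat_lit 18) (nat_lit 59) (nat_lit 3) (nat_lit 4) .nil)))))))) (.nd (.nd (.nd (.nd .leaf (nat_lit 80897) (nat_lit 247) (.p (nat_lit 164) (nat_lit 18) .z) .df .leaf) (nat_lit 80898) (nat_lit 292) (.p (nat_lit 178) (nat_lit 18) (.p (nat_lit 179) (nat_lit 18) (.n (nat_lit 180) (nat_lit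 18) (.n (nat_lit 181) (nat_lit 18) (.p (nat_lit 184) (nat_lit 18) (.n (nat_lit 187) (nat_lit 18) (.n (nat_lit 188) (nat_lit 18) .z))))))) (.ct dr2_c275 (nat_lit 18) (nat_lit 5) (.s true (nat_lit 1) (nat_lit 8) (nat_lit 3) (nat_lit 3) (nat_lit 2) true (nat_lit 1) true (nat_lit 5) true (nat_lit 2) true (nat_lit 4) true (nat_lit 4) (.e true (nat_lit 18) (nat_lit 28) (nat_lit 9) (nat_lit 1) (.e true (nat_lit 18) (nat_lit 31) (nat_lit 8) (nat_lit 2) (.e false (nat_lit 18) (nat_lit 70) (nat_lit 3) (nat_lit 4) (.e false (nat_lit 36) (nat_lit 71) (nat_lit 3) (nat_lit 4) (.e true (nat_lit 18) (nat_lit 74) (nat_lit 3) (nat_lit 4) (.e false (nat_lit 18) (nat_lit 75) (nat_lit 3) (nat_lit 4) .nil)))))))) .leaf) (nat_lit 80900) (nat_lit 459) (.n (nat_lit 241) (nat_lit 63) (.p (nat_lit 242) (nat_lit 63) (.n (nat_lit 243) (nat_lit 36) (.p (nat_lit 244) (nat_lit 45) (.n (nat_lit 245) (nat_lit 9) (.n (nat_lit 246) (nat_lit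 45) (.p (nat_lit 247) (nat_lit 9) (.n (nat_lit 248) (nat_lit 36) (.p (nat_lit 249) (nat_lit 153) (.n (nat_lit 250) (nat_lit 54) (.p (nat_lit 251) (nat_lit 144) (.n (nat_lit 252) (nat_lit 36) (.n (nat_lit 253) (nat_lit 54) (.n (nat_lit 254) (nat_lit 18) (.n (nat_lit 255) (nat_lit 63) (.n (nat_lit 256) (nat_lit 81) (.n (nat_lit 257) (nat_lit 18) (.n (nat_lit 258) (nat_lit 72) (.n (nat_lit 259) (nat_lit 9) (.p (nat_lit 260) (nat_lit 9) (.p (nat_lit 261) (nat_lit 27) .z))))))))))))))))))))) (.ct dr2_c4611 (nat_lit 18) (nat_lit 6) (.s false (nat_lit 1) (nat_lit 28) (nat_lit 1) (nat_lit 3) (nat_lit 0) true (nat_lit 6) true (nat_lit 9) false (nat_lit 1) true (nat_lit 8) true (nat_lit 7) (.e true (nat_lit 18) (nat_lit 162) (nat_lit 0) (nat_lit 9) (.e false (nat_lit 18) (nat_lit 165) (nat_lit 0) (nat_lit 9) (.e false (nat_lit 18) (nat_lit 166) (nat_lit 0) (nat_lit 9) (.e false (nat_lit 18) (nat_lit 28) (nat_lit 18)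 (nat_lit 1) (.e true (nat_lit 18) (nat_lit 152) (nat_lit 1) (nat_lit 8) (.e true (nat_lit 18) (nat_lit 154) (nat_lit 1) (nat_lit 8) (.e false (nat_lit 18) (nat_lit 157) (nat_lit 1) (nat_lit 8) (.e false (nat_lit 18) (nat_lit 158) (nat_lit 1) (nat_lit 8) (.e true (nat_lit 18) (nat_lit 161) (nat_lit 1) (nat_lit 8) (.e true (nat_lit 18) (nat_lit 112) (nat_lit 3) (nat_lit 7) .nil)))))))))))) (.nd .leaf (nat_lit 80901) (nat_lit 568) (.p (nat_lit 262) (nat_lit 124) (.p (nat_lit 263) (nat_lit 58) (.p (nat_lit 264) (nat_lit 113) (.p (nat_lit 265) (nat_lit 121) (.n (nat_lit 266) (nat_lit 116) (.p (nat_lit 267) (nat_lit 184) (.n (nat_lit 268) (nat_lit 147) (.n (nat_lit 269) (nat_lit 2) (.n (nat_lit 270) (nat_lit 66) (.n (nat_lit 271) (nat_lit 2) (.p (nat_lit 272) (nat_lit 231) (.n (nat_lit 273) (nat_lit 77) (.p (nat_lit 274) (nat_lit 32) (.n (nat_lit 275) (nat_lit 114) (.n (nat_lit 276) (nat_lit 198) (.p (nat_lit 277)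 (nat_lit 183) (.n (nat_lit 278) (nat_lit 274) (.p (nat_lit 280) (nat_lit 86) (.p (nat_lit 281) (nat_lit 217) (.n (nat_lit 282) (nat_lit 155) (.p (nat_lit 283) (nat_lit 16) (.n (nat_lit 284) (nat_lit 19) (.n (nat_lit 285) (nat_lit 415) (.n (nat_lit 286) (nat_lit 54) (.n (nat_lit 287) (nat_lit 99) (.p (nat_lit 288) (nat_lit 45) (.p (nat_lit 289) (nat_lit 9) (.n (nat_lit 290) (nat_lit 42) (.n (nat_lit 291) (nat_lit 21) (.p (nat_lit 292) (nat_lit 21) (.p (nat_lit 293) (nat_lit 81) (.p (nat_lit 294) (nat_lit 51) (.p (nat_lit 295) (nat_lit 75) (.p (nat_lit 296) (nat_lit 27) (.p (nat_lit 297) (nat_lit 63) (.p (nat_lit 298) (nat_lit 15) (.p (nat_lit 299) (nat_lit 9) (.p (nat_lit 300) (nat_lit 21) (.p (nat_lit 301) (nat_lit 6) (.n (nat_lit 302) (nat_lit 39) (.n (nat_lit 303) (nat_lit 66) (.n (nat_lit 304) (nat_lit 63) (.n (nat_lit 305) (nat_lit 63) (.p (nat_lit 306) (nat_lit 57) (.p (nat_lit 307) (nat_lit 15) (.n (nat_lit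 308) (nat_lit 60) .z)))))))))))))))))))))))))))))))))))))))))))))) (.ct dr2_c4371 (nat_lit 18) (nat_lit 9) (.s false (nat_lit 1) (nat_lit 28) (nat_lit 2) (nat_lit 3) (nat_lit 0) true (nat_lit 9) true (nat_lit 14) false (nat_lit 1) true (nat_lit 12) true (nat_lit 11) (.e false (nat_lit 18) (nat_lit 181) (nat_lit 0) (nat_lit 14) (.e false (nat_lit 18) (nat_lit 28) (nat_lit 22) (nat_lit 1) (.e true (nat_lit 18) (nat_lit 152) (nat_lit 2) (nat_lit 12) (.e true (nat_lit 18) (nat_lit 154) (nat_lit 2) (nat_lit 12) (.e false (nat_lit 18) (nat_lit 157) (nat_lit 2) (nat_lit 12) (.e false (nat_lit 18) (nat_lit 158) (nat_lit 2) (nat_lit 12) (.e true (nat_lit 18) (nat_lit 161) (nat_lit 2) (nat_lit 12) (.e true (nat_lit 18) (nat_lit 130) (nat_lit 3) (nat_lit 11) .nil)))))))))) .leaf)) (nat_lit 80902) (nat_lit 622) (.p (nat_lit 309) (nat_lit 306) (.n (nat_lit 310) (nat_lit 36) (.n (nat_lit 311) (nat_lit 135) (.n (nat_lit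 312) (nat_lit 486) (.n (nat_lit 313) (nat_lit 216) (.p (nat_lit 314) (nat_lit 144) (.p (nat_lit 315) (nat_lit 288) (.p (nat_lit 316) (nat_lit 207) (.n (nat_lit 317) (nat_lit 630) (.n (nat_lit 318) (nat_lit 108) (.p (nat_lit 319) (nat_lit 63) (.p (nat_lit 320) (nat_lit 135) (.p (nat_lit 321) (nat_lit 198) (.n (nat_lit 322) (nat_lit 144) (.n (nat_lit 323) (nat_lit 18) (.n (nat_lit 324) (nat_lit 216) (.p (nat_lit 325) (nat_lit 216) (.p (nat_lit 326) (nat_lit 45) (.n (nat_lit 327) (nat_lit 234) (.n (nat_lit 328) (nat_lit 63) (.n (nat_lit 329) (nat_lit 162) .z))))))))))))))))))))) (.ct dr2_c531 (nat_lit 18) (nat_lit 6) (.s true (nat_lit 1) (nat_lit 28) (nat_lit 1) (nat_lit 3) (nat_lit 2) true (nat_lit 6) true (nat_lit 8) false (nat_lit 0) true (nat_lit 9) true (nat_lit 7) (.e false (nat_lit 18) (nat_lit 162) (nat_lit 2) (nat_lit 8) (.e true (nat_lit 18) (nat_lit 165) (nat_lit 2) (nat_lit 8) (.e true (nat_lit 18)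 (nat_lit 166) (nat_lit 2) (nat_lit 8) (.e true (nat_lit 18) (nat_lit 28) (nat_lit 24) (nat_lit 0) (.e false (nat_lit 18) (nat_lit 188) (nat_lit 1) (nat_lit 9) (.e false (nat_lit 18) (nat_lit 148) (nat_lit 3) (nat_lit 7) .nil)))))))) (.nd (.nd .leaf (nat_lit 81920) (nat_lit 233) (.p (nat_lit 159) (nat_lit 18) .z) .df .leaf) (nat_lit 81921) (nat_lit 248) (.p (nat_lit 165) (nat_lit 18) .z) .df (.nd .leaf (nat_lit 81922) (nat_lit 280) (.p (nat_lit 184) (nat_lit 18) .z) .df .leaf))))) (nat_lit 81924) (nat_lit 434) (.p (nat_lit 241) (nat_lit 36) (.p (nat_lit 242) (nat_lit 18) (.n (nat_lit 243) (nat_lit 18) (.n (nat_lit 244) (nat_lit 18) (.n (nat_lit 245) (nat_lit 18) (.p (nat_lit 246) (nat_lit 18) (.p (nat_lit 247) (nat_lit 18) (.n (nat_lit 249) (nat_lit 72) (.n (nat_lit 251) (nat_lit 72) (.p (nat_lit 253) (nat_lit 36) (.p (nat_lit 254) (nat_lit 36) (.p (nat_lit 255) (nat_lit 36) (.p (nat_lit 256) (nat_lit 54) (.p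 (nat_lit 258) (nat_lit 36) (.n (nat_lit 259) (nat_lit 18) (.p (nat_lit 260) (nat_lit 18) .z)))))))))))))))) (.ct dr2_c4611 (nat_lit 18) (nat_lit 6) (.s true (nat_lit 1) (nat_lit 10) (nat_lit 1) (nat_lit 3) (nat_lit 4) true (nat_lit 2) true (nat_lit 6) true (nat_lit 3) true (nat_lit 8) true (nat_lit 7) (.s true (nat_lit 1) (nat_lit 11) (nat_lit 3) (nat_lit 3) (nat_lit 3) true (nat_lit 3) true (nat_lit 7) true (nat_lit 2) true (nat_lit 7) true (nat_lit 7) (.s true (nat_lit 2) (nat_lit 32) (nat_lit 1) (nat_lit 0) (nat_lit 1) false (nat_lit 10) true (nat_lit 8) false (nat_lit 2) true (nat_lit 8) true (nat_lit 9) (.e true (nat_lit 18) (nat_lit 39) (nat_lit 10) (nat_lit 3) (.e false (nat_lit 18) (nat_lit 40) (nat_lit 10) (nat_lit 3) (.e false (nat_lit 54) (nat_lit 160) (nat_lit 1) (nat_lit 8) (.e false (nat_lit 18) (nat_lit 108) (nat_lit 3) (nat_lit 7) (.e true (nat_lit 18) (nat_lit 109) (nat_lit 3) (nat_lit 7)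 (.e true (nat_lit 18) (nat_lit 110) (nat_lit 3) (nat_lit 7) (.e false (nat_lit 18) (nat_lit 112) (nat_lit 3) (nat_lit 7) (.e false (nat_lit 36) (nat_lit 107) (nat_lit 3) (nat_lit 7) (.e true (nat_lit 18) (nat_lit 111) (nat_lit 3) (nat_lit 7) (.e false (nat_lit 18) (nat_lit 114) (nat_lit 3) (nat_lit 7) (.e true (nat_lit 72) (nat_lit 152) (nat_lit 1) (nat_lit 8) (.e true (nat_lit 72) (nat_lit 154) (nat_lit 1) (nat_lit 8) (.e false (nat_lit 36) (nat_lit 157) (nat_lit 1) (nat_lit 8) (.e false (nat_lit 36) (nat_lit 158) (nat_lit 1) (nat_lit 8) (.e false (nat_lit 36) (nat_lit 159) (nat_lit 1) (nat_lit 8) (.e false (nat_lit 36) (nat_lit 166) (nat_lit 0) (nat_lit 9) .nil)))))))))))))))))))) (.nd (.nd (.nd (.nd (.nd (.nd .leaf (nat_lit 81925) (nat_lit 544) (.p (nat_lit 262) (nat_lit 140) (.p (nat_lit 263) (nat_lit 224) (.p (nat_lit 264) (nat_lit 127) (.p (nat_lit 265) (nat_lit 71) (.n (nat_lit 266) (nat_lit 34) (.p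 (nat_lit 267) (nat_lit 224) (.n (nat_lit 268) (nat_lit 213) (.n (nat_lit 269) (nat_lit 166) (.n (nat_lit 270) (nat_lit 24) (.n (nat_lit 271) (nat_lit 76) (.p (nat_lit 272) (nat_lit 147) (.n (nat_lit 273) (nat_lit 109) (.n (nat_lit 274) (nat_lit 116) (.n (nat_lit 275) (nat_lit 84) (.n (nat_lit 276) (nat_lit 72) (.p (nat_lit 277) (nat_lit 69) (.n (nat_lit 278) (nat_lit 152) (.n (nat_lit 280) (nat_lit 44) (.p (nat_lit 281) (nat_lit 83) (.p (nat_lit 282) (nat_lit 59) (.p (nat_lit 283) (nat_lit 50) (.n (nat_lit 284) (nat_lit 11) (.n (nat_lit 285) (nat_lit 245) (.p (nat_lit 286) (nat_lit 90) (.n (nat_lit 287) (nat_lit 81) (.p (nat_lit 288) (nat_lit 117) (.n (nat_lit 289) (nat_lit 171) (.p (nat_lit 290) (nat_lit 186) (.p (nat_lit 291) (nat_lit 21) (.p (nat_lit 292) (nat_lit 123) (.p (nat_lit 293) (nat_lit 171) (.p (nat_lit 294) (nat_lit 93) (.p (nat_lit 295) (nat_lit 33) (.p (nat_lit 296) (nat_lit 45) (.p (nat_lit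 297) (nat_lit 153) (.p (nat_lit 298) (nat_lit 147) (.p (nat_lit 299) (nat_lit 9) (.n (nat_lit 300) (nat_lit 21) (.n (nat_lit 301) (nat_lit 6) (.p (nat_lit 302) (nat_lit 3) (.n (nat_lit 303) (nat_lit 114) (.n (nat_lit 304) (nat_lit 153) (.n (nat_lit 305) (nat_lit 153) (.p (nat_lit 306) (nat_lit 177) (.n (nat_lit 307) (nat_lit 33) (.n (nat_lit 308) (nat_lit 192) .z)))))))))))))))))))))))))))))))))))))))))))))) (.ct dr2_c4371 (nat_lit 18) (nat_lit 9) (.s true (nat_lit 1) (nat_lit 10) (nat_lit 5) (nat_lit 3) (nat_lit 1) true (nat_lit 3) true (nat_lit 13) true (nat_lit 4) true (nat_lit 9) true (nat_lit 11) (.s true (nat_lit 1) (nat_lit 20) (nat_lit 1) (nat_lit 3) (nat_lit 3) true (nat_lit 6) true (nat_lit 11) true (nat_lit 1) true (nat_lit 13) true (nat_lit 11) (.s true (nat_lit 1) (nat_lit 20) (nat_lit 3) (nat_lit 1) (nat_lit 3) true (nat_lit 4) true (nat_lit 11) true (nat_lit 1) true (nat_lit 11) true (nat_lit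 13) (.s true (nat_lit 1) (nat_lit 32) (nat_lit 0) (nat_lit 2) (nat_lit 1) true (nat_lit 10) true (nat_lit 13) false (nat_lit 3) true (nat_lit 14) true (nat_lit 12) dr2_i73))))) .leaf) (nat_lit 81926) (nat_lit 610) (.p (nat_lit 309) (nat_lit 36) (.n (nat_lit 311) (nat_lit 18) (.n (nat_lit 312) (nat_lit 18) (.n (nat_lit 313) (nat_lit 18) (.p (nat_lit 314) (nat_lit 18) (.p (nat_lit 316) (nat_lit 18) (.n (nat_lit 317) (nat_lit 36) (.p (nat_lit 319) (nat_lit 18) (.n (nat_lit 320) (nat_lit 18) (.n (nat_lit 321) (nat_lit 36) (.n (nat_lit 322) (nat_lit 18) (.n (nat_lit 323) (nat_lit 18) (.n (nat_lit 324) (nat_lit 18) (.p (nat_lit 326) (nat_lit 36) (.n (nat_lit 327) (nat_lit 36) .z))))))))))))))) (.ct dr2_c531 (nat_lit 18) (nat_lit 6) (.s false (nat_lit 1) (nat_lit 29) (nat_lit 2) (nat_lit 3) (nat_lit 1) true (nat_lit 6) true (nat_lit 9) false (nat_lit 0) true (nat_lit 8) true (nat_lit 7) (.s false (nat_lit 1) (nat_lit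 29) (nat_lit 3) (nat_lit 2) (nat_lit 1) true (nat_lit 5) true (nat_lit 9) false (nat_lit 0) true (nat_lit 7) true (nat_lit 8) (.e false (nat_lit 18) (nat_lit 182) (nat_lit 1) (nat_lit 9) (.e true (nat_lit 18) (nat_lit 165) (nat_lit 2) (nat_lit 8) (.e true (nat_lit 36) (nat_lit 166) (nat_lit 2) (nat_lit 8) (.e true (nat_lit 18) (nat_lit 74) (nat_lit 8) (nat_lit 5) (.e false (nat_lit 18) (nat_lit 184) (nat_lit 1) (nat_lit 9) (.e false (nat_lit 36) (nat_lit 145) (nat_lit 3) (nat_lit 7) (.e true (nat_lit 36) (nat_lit 148) (nat_lit 3) (nat_lit 7) (.e true (nat_lit 18) (nat_lit 149) (nat_lit 3) (nat_lit 7) (.e false (nat_lit 36) (nat_lit 150) (nat_lit 3) (nat_lit 7) .nil)))))))))))) .leaf) (nat_lit 82944) (nat_lit 237) (.p (nat_lit 152) (nat_lit 18) (.p (nat_lit 153) (nat_lit 18) (.p (nat_lit 154) (nat_lit 18) (.p (nat_lit 156) (nat_lit 18) (.n (nat_lit 157) (nat_lit 18) (.n (nat_lit 158) (nat_lit 18) (.n (nat_lit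 159) (nat_lit 18) .z))))))) (.ct dr2_c4355 (nat_lit 18) (nat_lit 6) (.s false (nat_lit 1) (nat_lit 7) (nat_lit 1) (nat_lit 3) (nat_lit 3) true (nat_lit 1) true (nat_lit 4) true (nat_lit 2) true (nat_lit 5) true (nat_lit 4) (.s false (nat_lit 1) (nat_lit 8) (nat_lit 0) (nat_lit 3) (nat_lit 3) true (nat_lit 2) true (nat_lit 4) true (nat_lit 1) true (nat_lit 6) true (nat_lit 4) (.e false (nat_lit 18) (nat_lit 56) (nat_lit 3) (nat_lit 4) (.e true (nat_lit 18) (nat_lit 77) (nat_lit 1) (nat_lit 5) (.e true (nat_lit 18) (nat_lit 78) (nat_lit 1) (nat_lit 5) (.e false (nat_lit 18) (nat_lit 58) (nat_lit 3) (nat_lit 4) (.e false (nat_lit 18) (nat_lit 57) (nat_lit 3) (nat_lit 4) (.e true (nat_lit 18) (nat_lit 80) (nat_lit 0) (nat_lit 6) (.e false (nat_lit 18) (nat_lit 60) (nat_lit 3) (nat_lit 4) .nil)))))))))) (.nd .leaf (nat_lit 82945) (nat_lit 249) (.p (nat_lit 166) (nat_lit 18) .z) .df .leaf)) (nat_lit 82946) (nat_lit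 281) (.p (nat_lit 185) (nat_lit 18) .z) .df (.nd (.nd (.nd .leaf (nat_lit 82948) (nat_lit 446) (.n (nat_lit 249) (nat_lit 18) (.p (nat_lit 250) (nat_lit 18) (.n (nat_lit 251) (nat_lit 18) (.p (nat_lit 252) (nat_lit 18) (.n (nat_lit 254) (nat_lit 18) (.p (nat_lit 256) (nat_lit 18) (.p (nat_lit 258) (nat_lit 18) .z))))))) (.ct dr2_c4611 (nat_lit 18) (nat_lit 6) (.s false (nat_lit 1) (nat_lit 32) (nat_lit 1) (nat_lit 1) (nat_lit 0) true (nat_lit 6) true (nat_lit 9) false (nat_lit 2) true (nat_lit 8) true (nat_lit 8) (.e false (nat_lit 18) (nat_lit 166) (nat_lit 0) (nat_lit 9) (.e true (nat_lit 18) (nat_lit 152) (nat_lit 1) (nat_lit 8) (.e false (nat_lit 18) (nat_lit 153) (nat_lit 1) (nat_lit 8) (.e true (nat_lit 18) (nat_lit 154) (nat_lit 1) (nat_lit 8) (.e false (nat_lit 18) (nat_lit 156) (nat_lit 1) (nat_lit 8) (.e false (nat_lit 18) (nat_lit 160) (nat_lit 1) (nat_lit 8) (.e true (nat_lit 18) (nat_lit 158)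 (nat_lit 1) (nat_lit 8) .nil))))))))) .leaf) (nat_lit 82949) (nat_lit 554) (.p (nat_lit 262) (nat_lit 42) (.p (nat_lit 263) (nat_lit 114) (.p (nat_lit 264) (nat_lit 21) (.n (nat_lit 265) (nat_lit 3) (.p (nat_lit 266) (nat_lit 6) (.p (nat_lit 267) (nat_lit 60) (.n (nat_lit 268) (nat_lit 45) (.n (nat_lit 269) (nat_lit 84) (.p (nat_lit 270) (nat_lit 18) (.n (nat_lit 271) (nat_lit 12) (.n (nat_lit 272) (nat_lit 27) (.n (nat_lit 273) (nat_lit 3) (.n (nat_lit 274) (nat_lit 42) (.p (nat_lit 275) (nat_lit 18) (.p (nat_lit 276) (nat_lit 54) (.n (nat_lit 277) (nat_lit 45) (.p (nat_lit 278) (nat_lit 12) (.n (nat_lit 280) (nat_lit 78) (.n (nat_lit 281) (nat_lit 39) (.p (nat_lit 282) (nat_lit 105) (.p (nat_lit 283) (nat_lit 24) (.n (nat_lit 284) (nat_lit 15) (.p (nat_lit 285) (nat_lit 21) (.n (nat_lit 287) (nat_lit 45) (.p (nat_lit 288) (nat_lit 63) (.n (nat_lit 289) (nat_lit 45) (.p (nat_lit 290) (nat_lit 54) (.n (nat_lit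 291) (nat_lit 9) (.p (nat_lit 292) (nat_lit 45) (.p (nat_lit 293) (nat_lit 45) (.p (nat_lit 294) (nat_lit 27) (.n (nat_lit 295) (nat_lit 9) (.p (nat_lit 296) (nat_lit 27) (.p (nat_lit 297) (nat_lit 63) (.p (nat_lit 298) (nat_lit 45) (.p (nat_lit 299) (nat_lit 27) (.n (nat_lit 300) (nat_lit 9) (.n (nat_lit 301) (nat_lit 18) (.p (nat_lit 302) (nat_lit 9) (.n (nat_lit 303) (nat_lit 54) (.n (nat_lit 304) (nat_lit 63) (.n (nat_lit 305) (nat_lit 63) (.p (nat_lit 306) (nat_lit 81) (.p (nat_lit 307) (nat_lit 27) (.n (nat_lit 308) (nat_lit 72) .z))))))))))))))))))))))))))))))))))))))))))))) (.ct dr2_c4371 (nat_lit 18) (nat_lit 9) (.s false (nat_lit 1) (nat_lit 32) (nat_lit 1) (nat_lit 2) (nat_lit 0) true (nat_lit 10) true (nat_lit 14) false (nat_lit 3) true (nat_lit 13) true (nat_lit 12) (.s false (nat_lit 1) (nat_lit 32) (nat_lit 2) (nat_lit 1) (nat_lit 0) true (nat_lit 9) true (nat_lit 14) false (nat_lit 3) true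 (nat_lit 12) true (nat_lit 13) (.e true (nat_lit 18) (nat_lit 84) (nat_lit 4) (nat_lit 10) (.e true (nat_lit 18) (nat_lit 168) (nat_lit 1) (nat_lit 13) (.e false (nat_lit 18) (nat_lit 169) (nat_lit 1) (nat_lit 13) (.e true (nat_lit 18) (nat_lit 170) (nat_lit 1) (nat_lit 13) (.e false (nat_lit 18) (nat_lit 172) (nat_lit 1) (nat_lit 13) (.e false (nat_lit 18) (nat_lit 176) (nat_lit 1) (nat_lit 13) (.e true (nat_lit 18) (nat_lit 158) (nat_lit 2) (nat_lit 12) (.e false (nat_lit 18) (nat_lit 179) (nat_lit 0) (nat_lit 14) (.e false (nat_lit 18) (nat_lit 180) (nat_lit 0) (nat_lit 14) (.e false (nat_lit 18) (nat_lit 181) (nat_lit 0) (nat_lit 14) (.e false (nat_lit 18) (nat_lit 183) (nat_lit 0) (nat_lit 14) (.e true (nat_lit 18) (nat_lit 184) (nat_lit 0) (nat_lit 14) (.e true (nat_lit 18) (nat_lit 186) (nat_lit 0) (nat_lit 14) (.e true (nat_lit 18) (nat_lit 152) (nat_lit 2) (nat_lit 12) (.e false (nat_lit 18) (nat_lit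 153) (nat_lit 2) (nat_lit 12) (.e true (nat_lit 18) (nat_lit 154) (nat_lit 2) (nat_lit 12) (.e false (nat_lit 18) (nat_lit 156) (nat_lit 2) (nat_lit 12) (.e false (nat_lit 18) (nat_lit 160) (nat_lit 2) (nat_lit 12) (.e true (nat_lit 18) (nat_lit 174) (nat_lit 1) (nat_lit 13) .nil)))))))))))))))))))))) .leaf) (nat_lit 82950) (nat_lit 615) (.n (nat_lit 309) (nat_lit 270) (.p (nat_lit 310) (nat_lit 54) (.p (nat_lit 311) (nat_lit 108) (.p (nat_lit 312) (nat_lit 432) (.p (nat_lit 313) (nat_lit 234) (.n (nat_lit 314) (nat_lit 126) (.n (nat_lit 315) (nat_lit 234) (.n (nat_lit 316) (nat_lit 216) (.p (nat_lit 317) (nat_lit 558) (.p (nat_lit 318) (nat_lit 90) (.n (nat_lit 319) (nat_lit 36) (.n (nat_lit 320) (nat_lit 144) (.n (nat_lit 321) (nat_lit 180) (.p (nat_lit 322) (nat_lit 90) (.n (nat_lit 323) (nat_lit 18) (.p (nat_lit 324) (nat_lit 180) (.n (nat_lit 325) (nat_lit 180) (.n (nat_lit 326) (nat_lit 18) (.p (nat_lit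 327) (nat_lit 180) (.p (nat_lit 328) (nat_lit 72) (.p (nat_lit 329) (nat_lit 126) .z))))))))))))))))))))) (.ct dr2_c531 (nat_lit 18) (nat_lit 6) (.s true (nat_lit 1) (nat_lit 32) (nat_lit 1) (nat_lit 1) (nat_lit 2) true (nat_lit 6) true (nat_lit 8) false (nat_lit 2) true (nat_lit 9) true (nat_lit 9) (.e true (nat_lit 18) (nat_lit 166) (nat_lit 2) (nat_lit 8) (.e false (nat_lit 36) (nat_lit 180) (nat_lit 1) (nat_lit 9) (.e false (nat_lit 36) (nat_lit 183) (nat_lit 1) (nat_lit 9) (.e false (nat_lit 18) (nat_lit 187) (nat_lit 1) (nat_lit 9) (.e true (nat_lit 18) (nat_lit 184) (nat_lit 1) (nat_lit 9) (.e true (nat_lit 18) (nat_lit 185) (nat_lit 1) (nat_lit 9) (.e true (nat_lit 18) (nat_lit 186) (nat_lit 1) (nat_lit 9) .nil))))))))) (.nd .leaf (nat_lit 83968) (nat_lit 273) (.n (nat_lit 167) (nat_lit 18) (.n (nat_lit 168) (nat_lit 36) (.p (nat_lit 169) (nat_lit 18) (.n (nat_lit 170) (nat_lit 18) (.n (nat_lit 172)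 (nat_lit 18) (.p (nat_lit 173) (nat_lit 18) (.p (nat_lit 174) (nat_lit 18) (.p (nat_lit 175) (nat_lit 18) (.p (nat_lit 176) (nat_lit 18) (.n (nat_lit 177) (nat_lit 18) .z)))))))))) (.ct dr2_c4115 (nat_lit 18) (nat_lit 6) (.s true (nat_lit 1) (nat_lit 9) (nat_lit 3) (nat_lit 0) (nat_lit 3) true (nat_lit 0) true (nat_lit 4) true (nat_lit 1) true (nat_lit 4) true (nat_lit 6) (.e false (nat_lit 18) (nat_lit 22) (nat_lit 10) (nat_lit 0) (.e true (nat_lit 36) (nat_lit 69) (nat_lit 3) (nat_lit 4) (.e true (nat_lit 18) (nat_lit 26) (nat_lit 9) (nat_lit 1) (.e true (nat_lit 18) (nat_lit 64) (nat_lit 3) (nat_lit 4) (.e true (nat_lit 18) (nat_lit 65) (nat_lit 3) (nat_lit 4) (.e false (nat_lit 18) (nat_lit 68) (nat_lit 3) (nat_lit 4) .nil)))))))) .leaf))) (nat_lit 83969) (nat_lit 293) (.n (nat_lit 178) (nat_lit 18) (.n (nat_lit 179) (nat_lit 36) (.p (nat_lit 180) (nat_lit 18) (.n (nat_lit 181) (nat_lit 18) (.n (nat_lit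 183) (nat_lit 18) (.p (nat_lit 184) (nat_lit 18) (.p (nat_lit 185) (nat_lit 18) (.p (nat_lit 186) (nat_lit 18) (.p (nat_lit 187) (nat_lit 18) (.n (nat_lit 188) (nat_lit 18) .z)))))))))) (.ct dr2_c275 (nat_lit 18) (nat_lit 6) (.s true (nat_lit 1) (nat_lit 9) (nat_lit 3) (nat_lit 1) (nat_lit 3) true (nat_lit 0) true (nat_lit 4) true (nat_lit 1) true (nat_lit 4) true (nat_lit 6) (.e false (nat_lit 18) (nat_lit 25) (nat_lit 10) (nat_lit 0) (.e true (nat_lit 36) (nat_lit 75) (nat_lit 3) (nat_lit 4) (.e true (nat_lit 18) (nat_lit 28) (nat_lit 9) (nat_lit 1) (.e true (nat_lit 18) (nat_lit 70) (nat_lit 3) (nat_lit 4) (.e true (nat_lit 18) (nat_lit 71) (nat_lit 3) (nat_lit 4) (.e false (nat_lit 18) (nat_lit 74) (nat_lit 3) (nat_lit 4) .nil)))))))) (.nd (.nd (.nd (.nd .leaf (nat_lit 83972) (nat_lit 569) (.p (nat_lit 262) (nat_lit 20) (.p (nat_lit 263) (nat_lit 68) (.p (nat_lit 264) (nat_lit 4) (.n (nat_lit 265) (nat_lit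 4) (.p (nat_lit 266) (nat_lit 8) (.p (nat_lit 267) (nat_lit 50) (.n (nat_lit 268) (nat_lit 24) (.n (nat_lit 269) (nat_lit 52) (.p (nat_lit 270) (nat_lit 12) (.n (nat_lit 271) (nat_lit 16) (.n (nat_lit 272) (nat_lit 6) (.n (nat_lit 273) (nat_lit 4) (.n (nat_lit 274) (nat_lit 14) (.p (nat_lit 275) (nat_lit 6) (.p (nat_lit 276) (nat_lit 36) (.n (nat_lit 277) (nat_lit 30) (.p (nat_lit 278) (nat_lit 22) (.n (nat_lit 280) (nat_lit 50) (.n (nat_lit 281) (nat_lit 28) (.p (nat_lit 282) (nat_lit 56) (.p (nat_lit 283) (nat_lit 20) (.n (nat_lit 284) (nat_lit 8) (.p (nat_lit 285) (nat_lit 28) (.p (nat_lit 286) (nat_lit 18) (.n (nat_lit 287) (nat_lit 18) (.p (nat_lit 288) (nat_lit 18) (.n (nat_lit 289) (nat_lit 18) (.p (nat_lit 290) (nat_lit 24) (.n (nat_lit 291) (nat_lit 6) (.p (nat_lit 292) (nat_lit 24) (.p (nat_lit 293) (nat_lit 18) (.n (nat_lit 294) (nat_lit 6) (.n (nat_lit 295) (nat_lit 12) (.p (nat_lit 296) (nat_lit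 18) (.p (nat_lit 297) (nat_lit 18) (.p (nat_lit 298) (nat_lit 12) (.p (nat_lit 299) (nat_lit 18) (.p (nat_lit 300) (nat_lit 6) (.p (nat_lit 301) (nat_lit 12) (.n (nat_lit 302) (nat_lit 6) (.n (nat_lit 303) (nat_lit 24) (.n (nat_lit 304) (nat_lit 36) (.n (nat_lit 305) (nat_lit 18) (.p (nat_lit 306) (nat_lit 60) (.p (nat_lit 307) (nat_lit 12) (.n (nat_lit 308) (nat_lit 30) .z)))))))))))))))))))))))))))))))))))))))))))))) (.ct dr2_c4371 (nat_lit 18) (nat_lit 10) (.s false (nat_lit 1) (nat_lit 30) (nat_lit 1) (nat_lit 3) (nat_lit 0) true (nat_lit 10) true (nat_lit 14) false (nat_lit 2) true (nat_lit 13) true (nat_lit 11) (.e false (nat_lit 18) (nat_lit 183) (nat_lit 0) (nat_lit 14) (.e false (nat_lit 18) (nat_lit 30) (nat_lit 18) (nat_lit 2) (.e true (nat_lit 18) (nat_lit 168) (nat_lit 1) (nat_lit 13) (.e true (nat_lit 18) (nat_lit 170) (nat_lit 1) (nat_lit 13) (.e false (nat_lit 18) (nat_lit 173) (nat_lit 1)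 (nat_lit 13) (.e false (nat_lit 18) (nat_lit 174) (nat_lit 1) (nat_lit 13) (.e true (nat_lit 18) (nat_lit 177) (nat_lit 1) (nat_lit 13) (.e true (nat_lit 18) (nat_lit 135) (nat_lit 3) (nat_lit 11) .nil)))))))))) .leaf) (nat_lit 84992) (nat_lit 262) (.p (nat_lit 175) (nat_lit 18) .z) .df .leaf) (nat_lit 84993) (nat_lit 282) (.p (nat_lit 186) (nat_lit 18) .z) .df (.nd .leaf (nat_lit 84996) (nat_lit 543) (.p (nat_lit 262) (nat_lit 64) (.p (nat_lit 263) (nat_lit 142) (.p (nat_lit 264) (nat_lit 2) (.n (nat_lit 265) (nat_lit 20) (.p (nat_lit 266) (nat_lit 4) (.p (nat_lit 267) (nat_lit 88) (.n (nat_lit 268) (nat_lit 48) (.n (nat_lit 269) (nat_lit 98) (.p (nat_lit 270) (nat_lit 24) (.n (nat_lit 271) (nat_lit 26) (.n (nat_lit 272) (nat_lit 48) (.n (nat_lit 273) (nat_lit 20) (.n (nat_lit 274) (nat_lit 34) (.n (nat_lit 275) (nat_lit 6) (.p (nat_lit 276) (nat_lit 72) (.n (nat_lit 277) (nat_lit 42) (.p (nat_lit 278) (nat_lit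 38) (.n (nat_lit 280) (nat_lit 106) (.n (nat_lit 281) (nat_lit 50) (.p (nat_lit 282) (nat_lit 136) (.p (nat_lit 283) (nat_lit 46) (.n (nat_lit 284) (nat_lit 22) (.p (nat_lit 285) (nat_lit 50) (.p (nat_lit 286) (nat_lit 18) (.n (nat_lit 287) (nat_lit 36) (.p (nat_lit 288) (nat_lit 36) (.n (nat_lit 289) (nat_lit 54) (.p (nat_lit 290) (nat_lit 48) (.p (nat_lit 291) (nat_lit 6) (.p (nat_lit 292) (nat_lit 66) (.p (nat_lit 293) (nat_lit 54) (.p (nat_lit 294) (nat_lit 24) (.n (nat_lit 295) (nat_lit 24) (.p (nat_lit 296) (nat_lit 36) (.p (nat_lit 297) (nat_lit 54) (.p (nat_lit 298) (nat_lit 42) (.p (nat_lit 299) (nat_lit 36) (.n (nat_lit 300) (nat_lit 6) (.p (nat_lit 301) (nat_lit 6) (.p (nat_lit 302) (nat_lit 6) (.n (nat_lit 303) (nat_lit 48) (.n (nat_lit 304) (nat_lit 72) (.n (nat_lit 305) (nat_lit 54) (.p (nat_lit 306) (nat_lit 84) (.p (nat_lit 307) (nat_lit 24) (.n (nat_lit 308) (nat_lit 78) .z))))))))))))))))))))))))))))))))))))))))))))))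 (.ct dr2_c4371 (nat_lit 18) (nat_lit 10) (.s false (nat_lit 1) (nat_lit 9) (nat_lit 4) (nat_lit 3) (nat_lit 3) true (nat_lit 2) true (nat_lit 11) true (nat_lit 5) true (nat_lit 10) true (nat_lit 11) (.s true (nat_lit 1) (nat_lit 16) (nat_lit 2) (nat_lit 3) (nat_lit 3) true (nat_lit 5) true (nat_lit 11) true (nat_lit 2) true (nat_lit 12) true (nat_lit 11) (.e false (nat_lit 24) (nat_lit 116) (nat_lit 3) (nat_lit 11) (.e false (nat_lit 24) (nat_lit 120) (nat_lit 3) (nat_lit 11) (.e true (nat_lit 12) (nat_lit 122) (nat_lit 3) (nat_lit 11) (.e true (nat_lit 12) (nat_lit 124) (nat_lit 3) (nat_lit 11) (.e true (nat_lit 18) (nat_lit 84) (nat_lit 4) (nat_lit 10) (.e false (nat_lit 24) (nat_lit 115) (nat_lit 3) (nat_lit 11) (.e true (nat_lit 6) (nat_lit 117) (nat_lit 3) (nat_lit 11) (.e true (nat_lit 12) (nat_lit 118) (nat_lit 3) (nat_lit 11) (.e true (nat_lit 12) (nat_lit 119) (nat_lit 3) (nat_lit 11) (.e true (nat_lit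 12) (nat_lit 126) (nat_lit 3) (nat_lit 11) (.e false (nat_lit 12) (nat_lit 127) (nat_lit 3) (nat_lit 11) (.e true (nat_lit 18) (nat_lit 128) (nat_lit 3) (nat_lit 11) (.e false (nat_lit 18) (nat_lit 130) (nat_lit 3) (nat_lit 11) (.e true (nat_lit 6) (nat_lit 131) (nat_lit 3) (nat_lit 11) (.e true (nat_lit 6) (nat_lit 133) (nat_lit 3) (nat_lit 11) (.e false (nat_lit 6) (nat_lit 134) (nat_lit 3) (nat_lit 11) (.e false (nat_lit 6) (nat_lit 135) (nat_lit 3) (nat_lit 11) (.e false (nat_lit 6) (nat_lit 136) (nat_lit 3) (nat_lit 11) (.e true (nat_lit 6) (nat_lit 138) (nat_lit 3) (nat_lit 11) (.e true (nat_lit 6) (nat_lit 139) (nat_lit 3) (nat_lit 11) (.e false (nat_lit 18) (nat_lit 160) (nat_lit 2) (nat_lit 12) (.e true (nat_lit 18) (nat_lit 125) (nat_lit 3) (nat_lit 11) .nil))))))))))))))))))))))))) .leaf)) (nat_lit 86016) (nat_lit 266) (.p (nat_lit 168) (nat_lit 18) (.p (nat_lit 169) (nat_lit 18) (.p (nat_lit 170)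 (nat_lit 18) (.p (nat_lit 172) (nat_lit 18) (.n (nat_lit 173) (nat_lit 18) (.n (nat_lit 174) (nat_lit 18) (.n (nat_lit 175) (nat_lit 18) .z))))))) (.ct dr2_c4115 (nat_lit 18) (nat_lit 6) (.s false (nat_lit 1) (nat_lit 7) (nat_lit 2) (nat_lit 3) (nat_lit 3) true (nat_lit 1) true (nat_lit 4) true (nat_lit 2) true (nat_lit 5) true (nat_lit 4) (.s false (nat_lit 1) (nat_lit 9) (nat_lit 0) (nat_lit 3) (nat_lit 3) true (nat_lit 2) true (nat_lit 4) true (nat_lit 1) true (nat_lit 6) true (nat_lit 4) (.e false (nat_lit 18) (nat_lit 65) (nat_lit 3) (nat_lit 4) (.e true (nat_lit 18) (nat_lit 77) (nat_lit 2) (nat_lit 5) (.e true (nat_lit 18) (nat_lit 78) (nat_lit 2) (nat_lit 5) (.e false (nat_lit 18) (nat_lit 67) (nat_lit 3) (nat_lit 4) (.e false (nat_lit 18) (nat_lit 66) (nat_lit 3) (nat_lit 4) (.e true (nat_lit 18) (nat_lit 83) (nat_lit 0) (nat_lit 6) (.e false (nat_lit 18) (nat_lit 69) (nat_lit 3) (nat_lit 4) .nil))))))))))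 (.nd (.nd (.nd .leaf (nat_lit 86017) (nat_lit 286) (.p (nat_lit 179) (nat_lit 18) (.p (nat_lit 180) (nat_lit 18) (.p (nat_lit 181) (nat_lit 18) (.p (nat_lit 183) (nat_lit 18) (.n (nat_lit 184) (nat_lit 18) (.n (nat_lit 185) (nat_lit 18) (.n (nat_lit 186) (nat_lit 18) .z))))))) (.ct dr2_c275 (nat_lit 18) (nat_lit 6) (.s false (nat_lit 1) (nat_lit 8) (nat_lit 2) (nat_lit 3) (nat_lit 3) true (nat_lit 1) true (nat_lit 4) true (nat_lit 2) true (nat_lit 5) true (nat_lit 4) (.s false (nat_lit 1) (nat_lit 9) (nat_lit 1) (nat_lit 3) (nat_lit 3) true (nat_lit 2) true (nat_lit 4) true (nat_lit 1) true (nat_lit 6) true (nat_lit 4) (.e false (nat_lit 18) (nat_lit 71) (nat_lit 3) (nat_lit 4) (.e true (nat_lit 18) (nat_lit 80) (nat_lit 2) (nat_lit 5) (.e true (nat_lit 18) (nat_lit 81) (nat_lit 2) (nat_lit 5) (.e false (nat_lit 18) (nat_lit 73) (nat_lit 3) (nat_lit 4) (.e false (nat_lit 18) (nat_lit 72) (nat_lit 3) (nat_lit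 4) (.e true (nat_lit 18) (nat_lit 83) (nat_lit 1) (nat_lit 6) (.e false (nat_lit 18) (nat_lit 75) (nat_lit 3) (nat_lit 4) .nil)))))))))) .leaf) (nat_lit 86020) (nat_lit 522) (.n (nat_lit 262) (nat_lit 40) (.n (nat_lit 263) (nat_lit 118) (.n (nat_lit 264) (nat_lit 8) (.p (nat_lit 265) (nat_lit 8) (.n (nat_lit 266) (nat_lit 16) (.n (nat_lit 267) (nat_lit 64) (.p (nat_lit 268) (nat_lit 48) (.p (nat_lit 269) (nat_lit 86) (.n (nat_lit 270) (nat_lit 24) (.p (nat_lit 271) (nat_lit 14) (.p (nat_lit 272) (nat_lit 30) (.p (nat_lit 273) (nat_lit 8) (.p (nat_lit 274) (nat_lit 46) (.n (nat_lit 275) (nat_lit 12) (.n (nat_lit 276) (nat_lit 72) (.p (nat_lit 277) (nat_lit 60) (.n (nat_lit 278) (nat_lit 44) (.p (nat_lit 280) (nat_lit 100) (.p (nat_lit 281) (nat_lit 56) (.n (nat_lit 282) (nat_lit 130) (.n (nat_lit 283) (nat_lit 40) (.p (nat_lit 284) (nat_lit 16) (.n (nat_lit 285) (nat_lit 56) (.n (nat_lit 286) (nat_lit 18) (.p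 (nat_lit 287) (nat_lit 36) (.n (nat_lit 288) (nat_lit 36) (.p (nat_lit 289) (nat_lit 54) (.n (nat_lit 290) (nat_lit 48) (.n (nat_lit 291) (nat_lit 6) (.n (nat_lit 292) (nat_lit 66) (.n (nat_lit 293) (nat_lit 54) (.n (nat_lit 294) (nat_lit 6) (.p (nat_lit 295) (nat_lit 24) (.n (nat_lit 296) (nat_lit 36) (.n (nat_lit 297) (nat_lit 54) (.n (nat_lit 298) (nat_lit 42) (.n (nat_lit 299) (nat_lit 36) (.p (nat_lit 300) (nat_lit 6) (.n (nat_lit 301) (nat_lit 6) (.n (nat_lit 302) (nat_lit 6) (.p (nat_lit 303) (nat_lit 48) (.p (nat_lit 304) (nat_lit 72) (.p (nat_lit 305) (nat_lit 54) (.n (nat_lit 306) (nat_lit 84) (.n (nat_lit 307) (nat_lit 24) (.p (nat_lit 308) (nat_lit 78) .z)))))))))))))))))))))))))))))))))))))))))))))) (.ct dr2_c4371 (nat_lit 18) (nat_lit 10) (.s true (nat_lit 1) (nat_lit 9) (nat_lit 3) (nat_lit 4) (nat_lit 3) true (nat_lit 4) true (nat_lit 11) true (nat_lit 5) true (nat_lit 11) true (nat_lit 10)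 (.s true (nat_lit 1) (nat_lit 10) (nat_lit 3) (nat_lit 2) (nat_lit 4) true (nat_lit 2) true (nat_lit 10) true (nat_lit 4) true (nat_lit 11) true (nat_lit 12) (.s true (nat_lit 1) (nat_lit 18) (nat_lit 2) (nat_lit 3) (nat_lit 3) true (nat_lit 5) true (nat_lit 11) true (nat_lit 2) true (nat_lit 12) true (nat_lit 11) (.s false (nat_lit 1) (nat_lit 16) (nat_lit 3) (nat_lit 3) (nat_lit 2) true (nat_lit 5) true (nat_lit 12) true (nat_lit 2) true (nat_lit 11) true (nat_lit 11) dr2_i60))))) .leaf) (nat_lit 87043) (nat_lit 329) (.p (nat_lit 224) (nat_lit 18) .z) .df (.nd .leaf (nat_lit 88067) (nat_lit 353) (.p (nat_lit 189) (nat_lit 81) (.n (nat_lit 190) (nat_lit 135) (.p (nat_lit 191) (nat_lit 135) (.p (nat_lit 192) (nat_lit 12) (.n (nat_lit 193) (nat_lit 78) (.n (nat_lit 194) (nat_lit 111) (.n (nat_lit 195) (nat_lit 132) (.n (nat_lit 196) (nat_lit 105) (.n (nat_lit 197) (nat_lit 168) (.p (nat_lit 198) (nat_lit 90)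 (.p (nat_lit 199) (nat_lit 147) (.p (nat_lit 200) (nat_lit 90) (.p (nat_lit 201) (nat_lit 210) (.p (nat_lit 202) (nat_lit 81) (.p (nat_lit 203) (nat_lit 84) (.n (nat_lit 204) (nat_lit 57) (.p (nat_lit 205) (nat_lit 63) (.n (nat_lit 206) (nat_lit 27) (.p (nat_lit 207) (nat_lit 27) (.n (nat_lit 208) (nat_lit 39) (.p (nat_lit 210) (nat_lit 15) (.n (nat_lit 211) (nat_lit 6) (.n (nat_lit 212) (nat_lit 33) (.p (nat_lit 213) (nat_lit 120) (.n (nat_lit 214) (nat_lit 3) (.n (nat_lit 215) (nat_lit 12) (.n (nat_lit 216) (nat_lit 54) (.n (nat_lit 218) (nat_lit 18) (.n (nat_lit 219) (nat_lit 9) (.n (nat_lit 220) (nat_lit 18) (.n (nat_lit 221) (nat_lit 27) (.p (nat_lit 222) (nat_lit 18) (.p (nat_lit 223) (nat_lit 27) (.p (nat_lit 224) (nat_lit 153) (.n (nat_lit 225) (nat_lit 99) (.p (nat_lit 226) (nat_lit 99) (.n (nat_lit 227) (nat_lit 36) (.p (nat_lit 228) (nat_lit 27) (.p (nat_lit 229) (nat_lit 72) (.n (nat_lit 231) (nat_lit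 36) (.p (nat_lit 232) (nat_lit 9) (.n (nat_lit 235) (nat_lit 81) (.p (nat_lit 236) (nat_lit 36) (.n (nat_lit 237) (nat_lit 108) (.p (nat_lit 238) (nat_lit 18) (.p (nat_lit 239) (nat_lit 72) (.p (nat_lit 240) (nat_lit 36) .z))))))))))))))))))))))))))))))))))))))))))))))) (.ct dr2_c4626 (nat_lit 18) (nat_lit 12) (.s true (nat_lit 1) (nat_lit 10) (nat_lit 1) (nat_lit 2) (nat_lit 4) true (nat_lit 4) true (nat_lit 11) true (nat_lit 5) true (nat_lit 14) true (nat_lit 13) (.s true (nat_lit 1) (nat_lit 10) (nat_lit 2) (nat_lit 1) (nat_lit 4) true (nat_lit 3) true (nat_lit 11) true (nat_lit 5) true (nat_lit 13) true (nat_lit 14) (.s false (nat_lit 1) (nat_lit 12) (nat_lit 3) (nat_lit 3) (nat_lit 1) true (nat_lit 7) true (nat_lit 14) true (nat_lit 3) true (nat_lit 12) true (nat_lit 12) (.s false (nat_lit 1) (nat_lit 31) (nat_lit 0) (nat_lit 1) (nat_lit 1) true (nat_lit 11) true (nat_lit 14) false (nat_lit 4) true (nat_lit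 15) true (nat_lit 14) (.e true (nat_lit 18) (nat_lit 74) (nat_lit 4) (nat_lit 11) (.e false (nat_lit 18) (nat_lit 115) (nat_lit 1) (nat_lit 14) (.e true (nat_lit 18) (nat_lit 117) (nat_lit 1) (nat_lit 14) (.e false (nat_lit 18) (nat_lit 125) (nat_lit 1) (nat_lit 14) dr2_i15))))))))) .leaf)))) (nat_lit 89091) (nat_lit 330) (.p (nat_lit 225) (nat_lit 18) .z) .df (.nd (.nd (.nd (.nd (.nd .leaf (nat_lit 90115) (nat_lit 331) (.p (nat_lit 226) (nat_lit 18) .z) .df .leaf) (nat_lit 91139) (nat_lit 332) (.p (nat_lit 227) (nat_lit 18) .z) .df .leaf) (nat_lit 92163) (nat_lit 333) (.p (nat_lit 228) (nat_lit 18) .z) .df (.nd .leaf (nat_lit 93187) (nat_lit 347) (.p (nat_lit 189) (nat_lit 18) (.n (nat_lit 190) (nat_lit 18) (.p (nat_lit 191) (nat_lit 18) (.n (nat_lit 193) (nat_lit 36) (.n (nat_lit 194) (nat_lit 18) (.n (nat_lit 195) (nat_lit 36) (.n (nat_lit 197) (nat_lit 36) (.p (nat_lit 199) (nat_lit 36) (.p (nat_lit 201)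 (nat_lit 36) (.p (nat_lit 202) (nat_lit 18) (.p (nat_lit 203) (nat_lit 18) (.n (nat_lit 204) (nat_lit 18) (.n (nat_lit 208) (nat_lit 18) (.p (nat_lit 210) (nat_lit 18) (.n (nat_lit 212) (nat_lit 18) (.p (nat_lit 213) (nat_lit 36) (.p (nat_lit 215) (nat_lit 18) (.n (nat_lit 218) (nat_lit 18) (.p (nat_lit 219) (nat_lit 18) (.n (nat_lit 220) (nat_lit 18) (.p (nat_lit 222) (nat_lit 18) (.p (nat_lit 224) (nat_lit 36) (.n (nat_lit 225) (nat_lit 18) (.p (nat_lit 226) (nat_lit 18) (.n (nat_lit 227) (nat_lit 18) (.p (nat_lit 228) (nat_lit 18) (.p (nat_lit 229) (nat_lit 36) (.n (nat_lit 230) (nat_lit 18) (.n (nat_lit 231) (nat_lit 18) (.n (nat_lit 232) (nat_lit 18) (.p (nat_lit 233) (nat_lit 18) (.p (nat_lit 236) (nat_lit 18) (.n (nat_lit 237) (nat_lit 18) (.n (nat_lit 238) (nat_lit 18) (.p (nat_lit 239) (nat_lit 36) .z))))))))))))))))))))))))))))))))))) (.ct dr2_c4626 (nat_lit 18) (nat_lit 12) (.s true (nat_lit 1)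 (nat_lit 6) (nat_lit 3) (nat_lit 3) (nat_lit 4) true (nat_lit 1) true (nat_lit 11) true (nat_lit 9) true (nat_lit 12) true (nat_lit 12) (.s true (nat_lit 2) (nat_lit 8) (nat_lit 2) (nat_lit 3) (nat_lit 4) true (nat_lit 3) true (nat_lit 11) true (nat_lit 7) true (nat_lit 13) true (nat_lit 12) (.s true (nat_lit 2) (nat_lit 8) (nat_lit 3) (nat_lit 2) (nat_lit 4) true (nat_lit 1) true (nat_lit 11) true (nat_lit 7) true (nat_lit 12) true (nat_lit 13) (.s true (nat_lit 2) (nat_lit 8) (nat_lit 4) (nat_lit 2) (nat_lit 3) true (nat_lit 1) true (nat_lit 12) true (nat_lit 7) true (nat_lit 11) true (nat_lit 13) (.s true (nat_lit 1) (nat_lit 10) (nat_lit 2) (nat_lit 4) (nat_lit 1) true (nat_lit 9) true (nat_lit 14) true (nat_lit 5) true (nat_lit 13) true (nat_lit 11) (.s false (nat_lit 1) (nat_lit 10) (nat_lit 4) (nat_lit 2) (nat_lit 1) true (nat_lit 4) true (nat_lit 14) true (nat_lit 5) true (nat_lit 11) true (nat_lit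 13) (.s false (nat_lit 2) (nat_lit 12) (nat_lit 3) (nat_lit 1) (nat_lit 3) true (nat_lit 5) true (nat_lit 12) true (nat_lit 3) true (nat_lit 12) true (nat_lit 14) (.s true (nat_lit 1) (nat_lit 23) (nat_lit 0) (nat_lit 1) (nat_lit 3) true (nat_lit 8) true (nat_lit 12) false (nat_lit 1) true (nat_lit 15) true (nat_lit 14) (.s false (nat_lit 1) (nat_lit 31) (nat_lit 0) (nat_lit 1) (nat_lit 1) true (nat_lit 11) true (nat_lit 14) false (nat_lit 4) true (nat_lit 15) true (nat_lit 14) (.e true (nat_lit 18) (nat_lit 70) (nat_lit 4) (nat_lit 11) (.e false (nat_lit 36) (nat_lit 85) (nat_lit 3) (nat_lit 12) (.e true (nat_lit 18) (nat_lit 89) (nat_lit 3) (nat_lit 12) (.e false (nat_lit 18) (nat_lit 90) (nat_lit 3) (nat_lit 12) (.e true (nat_lit 18) (nat_lit 94) (nat_lit 3) (nat_lit 12) (.e true (nat_lit 18) (nat_lit 95) (nat_lit 3) (nat_lit 12) (.e true (nat_lit 18) (nat_lit 96) (nat_lit 3) (nat_lit 12) (.e false (nat_lit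 18) (nat_lit 98) (nat_lit 3) (nat_lit 12) (.e false (nat_lit 18) (nat_lit 103) (nat_lit 3) (nat_lit 12) (.e true (nat_lit 18) (nat_lit 87) (nat_lit 3) (nat_lit 12) dr2_i4)))))))))))))))))))) .leaf)) (nat_lit 94211) (nat_lit 334) (.p (nat_lit 229) (nat_lit 18) .z) .df (.nd (.nd (.nd .leaf (nat_lit 95235) (nat_lit 354) (.p (nat_lit 189) (nat_lit 9) (.n (nat_lit 190) (nat_lit 27) (.p (nat_lit 191) (nat_lit 27) (.p (nat_lit 192) (nat_lit 24) (.p (nat_lit 193) (nat_lit 42) (.n (nat_lit 194) (nat_lit 51) (.p (nat_lit 195) (nat_lit 6) (.n (nat_lit 196) (nat_lit 39) (.n (nat_lit 197) (nat_lit 30) (.p (nat_lit 198) (nat_lit 54) (.n (nat_lit 199) (nat_lit 21) (.p (nat_lit 200) (nat_lit 54) (.p (nat_lit 201) (nat_lit 6) (.n (nat_lit 202) (nat_lit 9) (.p (nat_lit 203) (nat_lit 42) (.n (nat_lit 204) (nat_lit 15) (.p (nat_lit 205) (nat_lit 27) (.p (nat_lit 206) (nat_lit 45) (.n (nat_lit 207) (nat_lit 9) (.p (nat_lit 208)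 (nat_lit 57) (.n (nat_lit 210) (nat_lit 33) (.n (nat_lit 211) (nat_lit 66) (.p (nat_lit 212) (nat_lit 87) (.p (nat_lit 213) (nat_lit 60) (.n (nat_lit 214) (nat_lit 15) (.p (nat_lit 215) (nat_lit 84) (.n (nat_lit 216) (nat_lit 90) (.p (nat_lit 218) (nat_lit 36) (.n (nat_lit 219) (nat_lit 63) (.p (nat_lit 220) (nat_lit 72) (.n (nat_lit 221) (nat_lit 45) (.n (nat_lit 222) (nat_lit 72) (.p (nat_lit 223) (nat_lit 45) (.p (nat_lit 224) (nat_lit 81) (.n (nat_lit 225) (nat_lit 45) (.p (nat_lit 226) (nat_lit 45) (.n (nat_lit 227) (nat_lit 36) (.p (nat_lit 228) (nat_lit 27) (.n (nat_lit 229) (nat_lit 18) (.p (nat_lit 230) (nat_lit 18) (.n (nat_lit 231) (nat_lit 36) (.p (nat_lit 232) (nat_lit 9) (.n (nat_lit 235) (nat_lit 9) (.p (nat_lit 236) (nat_lit 36) (.n (nat_lit 237) (nat_lit 36) (.n (nat_lit 238) (nat_lit 18) (.n (nat_lit 239) (nat_lit 36) (.p (nat_lit 240) (nat_lit 36) .z))))))))))))))))))))))))))))))))))))))))))))))))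 (.ct dr2_c4626 (nat_lit 18) (nat_lit 12) (.s true (nat_lit 1) (nat_lit 8) (nat_lit 2) (nat_lit 3) (nat_lit 4) true (nat_lit 3) true (nat_lit 11) true (nat_lit 7) true (nat_lit 13) true (nat_lit 12) dr2_i17)) .leaf) (nat_lit 96259) (nat_lit 335) (.p (nat_lit 230) (nat_lit 18) .z) .df .leaf) (nat_lit 97283) (nat_lit 336) (.p (nat_lit 231) (nat_lit 18) .z) .df (.nd .leaf (nat_lit 98307) (nat_lit 337) (.p (nat_lit 232) (nat_lit 18) .z) .df .leaf))) (nat_lit 99331) (nat_lit 351) (.n (nat_lit 189) (nat_lit 9) (.p (nat_lit 190) (nat_lit 27) (.n (nat_lit 191) (nat_lit 27) (.n (nat_lit 192) (nat_lit 6) (.p (nat_lit 193) (nat_lit 66) (.p (nat_lit 194) (nat_lit 51) (.p (nat_lit 195) (nat_lit 66) (.p (nat_lit 196) (nat_lit 57) (.p (nat_lit 197) (nat_lit 102) (.n (nat_lit 198) (nat_lit 54) (.n (nat_lit 199) (nat_lit 69) (.n (nat_lit 200) (nat_lit 54) (.n (nat_lit 201) (nat_lit 96) (.n (nat_lit 202) (nat_lit 27) (.n (nat_lit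 203) (nat_lit 60) (.p (nat_lit 204) (nat_lit 33) (.n (nat_lit 205) (nat_lit 45) (.p (nat_lit 206) (nat_lit 9) (.n (nat_lit 207) (nat_lit 9) (.n (nat_lit 208) (nat_lit 3) (.n (nat_lit 210) (nat_lit 21) (.p (nat_lit 211) (nat_lit 30) (.p (nat_lit 212) (nat_lit 3) (.n (nat_lit 213) (nat_lit 42) (.n (nat_lit 214) (nat_lit 3) (.n (nat_lit 215) (nat_lit 30) (.p (nat_lit 216) (nat_lit 18) (.p (nat_lit 218) (nat_lit 18) (.p (nat_lit 219) (nat_lit 9) (.p (nat_lit 220) (nat_lit 18) (.p (nat_lit 221) (nat_lit 9) (.n (nat_lit 222) (nat_lit 18) (.n (nat_lit 223) (nat_lit 9) (.n (nat_lit 224) (nat_lit 63) (.p (nat_lit 225) (nat_lit 45) (.n (nat_lit 226) (nat_lit 45) (.p (nat_lit 227) (nat_lit 18) (.n (nat_lit 228) (nat_lit 27) (.n (nat_lit 229) (nat_lit 54) (.p (nat_lit 231) (nat_lit 18) (.p (nat_lit 232) (nat_lit 9) (.p (nat_lit 235) (nat_lit 9) (.n (nat_lit 236) (nat_lit 18) (.p (nat_lit 237) (nat_lit 36) (.p (nat_lit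 238) (nat_lit 18) (.n (nat_lit 239) (nat_lit 54) (.n (nat_lit 240) (nat_lit 36) .z))))))))))))))))))))))))))))))))))))))))))))))) (.ct dr2_c4626 (nat_lit 18) (nat_lit 12) (.s true (nat_lit 1) (nat_lit 6) (nat_lit 3) (nat_lit 3) (nat_lit 4) true (nat_lit 1) true (nat_lit 11) true (nat_lit 9) true (nat_lit 12) true (nat_lit 12) (.s true (nat_lit 1) (nat_lit 8) (nat_lit 0) (nat_lit 6) (nat_lit 3) true (nat_lit 8) true (nat_lit 12) true (nat_lit 7) true (nat_lit 15) true (nat_lit 9) (.s false (nat_lit 1) (nat_lit 8) (nat_lit 7) (nat_lit 1) (nat_lit 2) false (nat_lit 0) true (nat_lit 13) true (nat_lit 7) true (nat_lit 8) true (nat_lit 14) (.s false (nat_lit 1) (nat_lit 9) (nat_lit 7) (nat_lit 1) (nat_lit 1) true (nat_lit 1) true (nat_lit 14) true (nat_lit 6) true (nat_lit 8) true (nat_lit 14) dr2_i12))))) (.nd (.nd (.nd (.nd .leaf (nat_lit 100355) (nat_lit 338) (.p (nat_lit 233) (nat_lit 18) .z) .df .leaf) (nat_lit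 101379) (nat_lit 339) (.p (nat_lit 234) (nat_lit 18) .z) .df .leaf) (nat_lit 102403) (nat_lit 348) (.n (nat_lit 189) (nat_lit 27) (.p (nat_lit 190) (nat_lit 45) (.n (nat_lit 191) (nat_lit 45) (.n (nat_lit 192) (nat_lit 6) (.p (nat_lit 193) (nat_lit 48) (.p (nat_lit 194) (nat_lit 33) (.p (nat_lit 195) (nat_lit 48) (.p (nat_lit 196) (nat_lit 57) (.p (nat_lit 197) (nat_lit 66) (.n (nat_lit 198) (nat_lit 36) (.n (nat_lit 199) (nat_lit 69) (.n (nat_lit 200) (nat_lit 36) (.n (nat_lit 201) (nat_lit 96) (.n (nat_lit 202) (nat_lit 45) (.n (nat_lit 203) (nat_lit 24) (.p (nat_lit 204) (nat_lit 15) (.n (nat_lit 205) (nat_lit 27) (.p (nat_lit 206) (nat_lit 36) (.n (nat_lit 207) (nat_lit 27) (.p (nat_lit 208) (nat_lit 33) (.n (nat_lit 210) (nat_lit 21) (.n (nat_lit 211) (nat_lit 15) (.p (nat_lit 212) (nat_lit 39) (.n (nat_lit 213) (nat_lit 24) (.n (nat_lit 214) (nat_lit 3) (.p (nat_lit 215) (nat_lit 42) (.p (nat_lit 218)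 (nat_lit 9) (.p (nat_lit 220) (nat_lit 27) (.n (nat_lit 222) (nat_lit 27) (.n (nat_lit 224) (nat_lit 45) (.p (nat_lit 225) (nat_lit 27) (.n (nat_lit 226) (nat_lit 27) (.p (nat_lit 227) (nat_lit 18) (.n (nat_lit 228) (nat_lit 9) (.n (nat_lit 229) (nat_lit 36) (.p (nat_lit 230) (nat_lit 18) (.p (nat_lit 231) (nat_lit 18) (.p (nat_lit 232) (nat_lit 9) (.n (nat_lit 233) (nat_lit 18) (.p (nat_lit 235) (nat_lit 27) (.n (nat_lit 236) (nat_lit 18) (.p (nat_lit 237) (nat_lit 36) (.n (nat_lit 238) (nat_lit 18) (.n (nat_lit 239) (nat_lit 36) (.n (nat_lit 240) (nat_lit 18) .z))))))))))))))))))))))))))))))))))))))))))))) (.ct dr2_c4626 (nat_lit 36) (nat_lit 12) (.s true (nat_lit 1) (nat_lit 6) (nat_lit 3) (nat_lit 4) (nat_lit 3) true (nat_lit 5) true (nat_lit 12) true (nat_lit 9) true (nat_lit 12) true (nat_lit 11) (.s true (nat_lit 1) (nat_lit 7) (nat_lit 6) (nat_lit 3) (nat_lit 1) true (nat_lit 2) true (nat_lit 14) true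 (nat_lit 8) true (nat_lit 9) true (nat_lit 12) (.s true (nat_lit 1) (nat_lit 8) (nat_lit 0) (nat_lit 6) (nat_lit 3) true (nat_lit 8) true (nat_lit 12) true (nat_lit 7) true (nat_lit 15) true (nat_lit 9) (.s false (nat_lit 2) (nat_lit 8) (nat_lit 7) (nat_lit 1) (nat_lit 2) false (nat_lit 0) true (nat_lit 13) true (nat_lit 7) true (nat_lit 8) true (nat_lit 14) (.s false (nat_lit 2) (nat_lit 9) (nat_lit 1) (nat_lit 7) (nat_lit 1) false (nat_lit 16) true (nat_lit 14) true (nat_lit 6) true (nat_lit 14) true (nat_lit 8) (.s true (nat_lit 1) (nat_lit 9) (nat_lit 3) (nat_lit 1) (nat_lit 4) true (nat_lit 1) true (nat_lit 11) true (nat_lit 6) true (nat_lit 12) true (nat_lit 14) (.s true (nat_lit 1) (nat_lit 10) (nat_lit 2) (nat_lit 1) (nat_lit 4) true (nat_lit 3) true (nat_lit 11) true (nat_lit 5) true (nat_lit 13) true (nat_lit 14) (.s false (nat_lit 1) (nat_lit 11) (nat_lit 2) (nat_lit 3) (nat_lit 3) true (nat_lit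 6) true (nat_lit 12) true (nat_lit 4) true (nat_lit 13) true (nat_lit 12) (.s true (nat_lit 1) (nat_lit 11) (nat_lit 3) (nat_lit 3) (nat_lit 2) true (nat_lit 6) true (nat_lit 13) true (nat_lit 4) true (nat_lit 12) true (nat_lit 12) (.s false (nat_lit 1) (nat_lit 12) (nat_lit 3) (nat_lit 3) (nat_lit 1) true (nat_lit 7) true (nat_lit 14) true (nat_lit 3) true (nat_lit 12) true (nat_lit 12) (.s true (nat_lit 1) (nat_lit 16) (nat_lit 1) (nat_lit 2) (nat_lit 3) true (nat_lit 7) true (nat_lit 12) true (nat_lit 1) true (nat_lit 14) true (nat_lit 13) (.s true (nat_lit 1) (nat_lit 18) (nat_lit 1) (nat_lit 2) (nat_lit 3) true (nat_lit 7) true (nat_lit 12) true (nat_lit 1) true (nat_lit 14) true (nat_lit 13) (.s true (nat_lit 1) (nat_lit 16) (nat_lit 2) (nat_lit 1) (nat_lit 3) true (nat_lit 6) true (nat_lit 12) true (nat_lit 1) true (nat_lit 13) true (nat_lit 14) (.s true (nat_lit 1) (nat_lit 17) (nat_lit 2) (nat_lit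 1) (nat_lit 3) true (nat_lit 6) true (nat_lit 12) true (nat_lit 1) true (nat_lit 13) true (nat_lit 14) (.s true (nat_lit 1) (nat_lit 17) (nat_lit 2) (nat_lit 3) (nat_lit 1) true (nat_lit 9) true (nat_lit 14) true (nat_lit 1) true (nat_lit 13) true (nat_lit 12) (.s true (nat_lit 1) (nat_lit 17) (nat_lit 3) (nat_lit 2) (nat_lit 1) true (nat_lit 7) true (nat_lit 14) true (nat_lit 1) true (nat_lit 12) true (nat_lit 13) (.s false (nat_lit 1) (nat_lit 18) (nat_lit 3) (nat_lit 2) (nat_lit 1) true (nat_lit 7) true (nat_lit 14) true (nat_lit 1) true (nat_lit 12) true (nat_lit 13) (.s true (nat_lit 1) (nat_lit 19) (nat_lit 2) (nat_lit 0) (nat_lit 3) true (nat_lit 6) true (nat_lit 12) true (nat_lit 0) true (nat_lit 13) true (nat_lit 15) (.s true (nat_lit 1) (nat_lit 19) (nat_lit 3) (nat_lit 2) (nat_lit 0) true (nat_lit 8) true (nat_lit 15) true (nat_lit 0) true (nat_lit 12) true (nat_lit 13) (.s false (nat_lit 1) (nat_lit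 20) (nat_lit 1) (nat_lit 1) (nat_lit 3) true (nat_lit 7) true (nat_lit 12) false (nat_lit 0) true (nat_lit 14) true (nat_lit 14) (.s true (nat_lit 1) (nat_lit 21) (nat_lit 1) (nat_lit 1) (nat_lit 3) true (nat_lit 7) true (nat_lit 12) false (nat_lit 0) true (nat_lit 14) true (nat_lit 14) (.s false (nat_lit 1) (nat_lit 22) (nat_lit 1) (nat_lit 1) (nat_lit 3) true (nat_lit 7) true (nat_lit 12) false (nat_lit 0) true (nat_lit 14) true (nat_lit 14) (.s true (nat_lit 1) (nat_lit 22) (nat_lit 1) (nat_lit 3) (nat_lit 1) false (nat_lit 16) true (nat_lit 14) false (nat_lit 0) true (nat_lit 14) true (nat_lit 12) (.s false (nat_lit 1) (nat_lit 20) (nat_lit 3) (nat_lit 1) (nat_lit 1) true (nat_lit 7) true (nat_lit 14) false (nat_lit 0) true (nat_lit 12) true (nat_lit 14) dr2_i6))))))))))))))))))))))))) (.nd .leaf (nat_lit 103427) (nat_lit 359) (.p (nat_lit 189) (nat_lit 54) (.n (nat_lit 190) (nat_lit 54) (.p (nat_lit 191)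 (nat_lit 54) (.p (nat_lit 192) (nat_lit 6) (.p (nat_lit 193) (nat_lit 24) (.p (nat_lit 194) (nat_lit 12) (.p (nat_lit 195) (nat_lit 24) (.p (nat_lit 196) (nat_lit 24) (.p (nat_lit 197) (nat_lit 42) (.n (nat_lit 198) (nat_lit 36) (.n (nat_lit 199) (nat_lit 12) (.n (nat_lit 200) (nat_lit 36) (.n (nat_lit 201) (nat_lit 12) (.p (nat_lit 202) (nat_lit 18) (.n (nat_lit 203) (nat_lit 30) (.n (nat_lit 204) (nat_lit 6) (.n (nat_lit 205) (nat_lit 36) (.p (nat_lit 206) (nat_lit 9) (.n (nat_lit 208) (nat_lit 24) (.n (nat_lit 210) (nat_lit 24) (.p (nat_lit 211) (nat_lit 33) (.n (nat_lit 212) (nat_lit 12) (.p (nat_lit 213) (nat_lit 42) (.n (nat_lit 214) (nat_lit 6) (.n (nat_lit 215) (nat_lit 6) (.n (nat_lit 216) (nat_lit 18) (.p (nat_lit 218) (nat_lit 27) (.p (nat_lit 219) (nat_lit 9) (.p (nat_lit 220) (nat_lit 45) (.n (nat_lit 221) (nat_lit 27) (.n (nat_lit 222) (nat_lit 9) (.p (nat_lit 223) (nat_lit 9) (.p (nat_lit 224)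 (nat_lit 18) (.n (nat_lit 225) (nat_lit 18) (.n (nat_lit 228) (nat_lit 18) (.p (nat_lit 229) (nat_lit 18) (.n (nat_lit 231) (nat_lit 18) (.n (nat_lit 232) (nat_lit 18) (.p (nat_lit 233) (nat_lit 18) (.p (nat_lit 234) (nat_lit 18) (.n (nat_lit 235) (nat_lit 18) (.p (nat_lit 236) (nat_lit 18) (.n (nat_lit 237) (nat_lit 18) (.p (nat_lit 238) (nat_lit 18) (.n (nat_lit 239) (nat_lit 18) (.n (nat_lit 240) (nat_lit 18) .z)))))))))))))))))))))))))))))))))))))))))))))) (.ct dr2_c4626 (nat_lit 18) (nat_lit 12) (.s false (nat_lit 1) (nat_lit 9) (nat_lit 7) (nat_lit 1) (nat_lit 1) true (nat_lit 1) true (nat_lit 14) true (nat_lit 6) true (nat_lit 8) true (nat_lit 14) (.s true (nat_lit 1) (nat_lit 17) (nat_lit 1) (nat_lit 2) (nat_lit 3) true (nat_lit 7) true (nat_lit 12) true (nat_lit 1) true (nat_lit 14) true (nat_lit 13) (.s false (nat_lit 1) (nat_lit 17) (nat_lit 2) (nat_lit 1) (nat_lit 3) true (nat_lit 6) true (nat_lit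 12) true (nat_lit 1) true (nat_lit 13) true (nat_lit 14) (.s true (nat_lit 1) (nat_lit 17) (nat_lit 3) (nat_lit 2) (nat_lit 1) true (nat_lit 7) true (nat_lit 14) true (nat_lit 1) true (nat_lit 12) true (nat_lit 13) (.s false (nat_lit 2) (nat_lit 23) (nat_lit 0) (nat_lit 3) (nat_lit 1) true (nat_lit 11) true (nat_lit 14) false (nat_lit 1) true (nat_lit 15) true (nat_lit 12) (.e true (nat_lit 36) (nat_lit 131) (nat_lit 1) (nat_lit 14) (.e false (nat_lit 36) (nat_lit 134) (nat_lit 1) (nat_lit 14) (.e true (nat_lit 36) (nat_lit 135) (nat_lit 1) (nat_lit 14) (.e false (nat_lit 18) (nat_lit 125) (nat_lit 1) (nat_lit 14) (.e true (nat_lit 36) (nat_lit 126) (nat_lit 1) (nat_lit 14) (.e true (nat_lit 18) (nat_lit 129) (nat_lit 1) (nat_lit 14) (.e false (nat_lit 18) (nat_lit 130) (nat_lit 1) (nat_lit 14) (.e true (nat_lit 36) (nat_lit 139) (nat_lit 1) (nat_lit 14) (.e true (nat_lit 36) (nat_lit 90) (nat_lit 3) (nat_lit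 12) dr2_i23))))))))))))))) .leaf)) (nat_lit 104451) (nat_lit 340) (.p (nat_lit 235) (nat_lit 18) .z) .df (.nd (.nd .leaf (nat_lit 105475) (nat_lit 341) (.p (nat_lit 236) (nat_lit 18) .z) .df .leaf) (nat_lit 106498) (nat_lit 321) (.p (nat_lit 216) (nat_lit 18) .z) .df (.nd .leaf (nat_lit 106499) (nat_lit 439) (.p (nat_lit 241) (nat_lit 45) (.n (nat_lit 242) (nat_lit 36) (.p (nat_lit 243) (nat_lit 9) (.n (nat_lit 245) (nat_lit 9) (.p (nat_lit 247) (nat_lit 9) (.p (nat_lit 248) (nat_lit 18) (.n (nat_lit 249) (nat_lit 90) (.p (nat_lit 250) (nat_lit 27) (.n (nat_lit 251) (nat_lit 81) (.p (nat_lit 252) (nat_lit 9) (.p (nat_lit 253) (nat_lit 36) (.p (nat_lit 254) (nat_lit 9) (.p (nat_lit 255) (nat_lit 45) (.p (nat_lit 256) (nat_lit 54) (.p (nat_lit 257) (nat_lit 18) (.p (nat_lit 258) (nat_lit 45) (.n (nat_lit 261) (nat_lit 27) .z))))))))))))))))) (.ct dr2_c4611 (nat_lit 36) (nat_lit 7) (.s true (nat_lit 1) (nat_lit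 8) (nat_lit 0) (nat_lit 3) (nat_lit 8) true (nat_lit 1) true (nat_lit 4) true (nat_lit 4) true (nat_lit 9) true (nat_lit 7) (.s false (nat_lit 1) (nat_lit 8) (nat_lit 0) (nat_lit 8) (nat_lit 3) true (nat_lit 5) true (nat_lit 7) true (nat_lit 4) true (nat_lit 9) true (nat_lit 4) (.s false (nat_lit 1) (nat_lit 8) (nat_lit 1) (nat_lit 3) (nat_lit 7) true (nat_lit 1) true (nat_lit 5) true (nat_lit 4) true (nat_lit 8) true (nat_lit 7) dr2_i38)))) .leaf))))))

noncomputable def dr2_t9 : Tr := (.nd dr2_t7 (nat_lit 73732) (nat_lit 379) (.n (nat_lit 190) (nat_lit 18) (.p (nat_lit 191) (nat_lit 36) (.n (nat_lit 193) (nat_lit 54) (.n (nat_lit 194) (nat_lit 54) (.n (nat_lit 195) (nat_lit 54) (.n (nat_lit 196) (nat_lit 54) (.n (nat_lit 197) (nat_lit 90) (.p (nat_lit 198) (nat_lit 54) (.p (nat_lit 199) (nat_lit 54) (.p (nat_lit 200) (nat_lit 36) (.p (nat_lit 201) (nat_lit 72) (.p (nat_lit 202) (nat_lit 36) (.p (nat_lit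 203) (nat_lit 72) (.n (nat_lit 204) (nat_lit 18) (.p (nat_lit 205) (nat_lit 36) (.n (nat_lit 206) (nat_lit 9) (.p (nat_lit 207) (nat_lit 18) (.p (nat_lit 208) (nat_lit 36) (.p (nat_lit 209) (nat_lit 18) (.n (nat_lit 211) (nat_lit 45) (.p (nat_lit 212) (nat_lit 36) (.p (nat_lit 213) (nat_lit 54) (.p (nat_lit 215) (nat_lit 36) (.n (nat_lit 216) (nat_lit 18) (.n (nat_lit 218) (nat_lit 27) (.n (nat_lit 219) (nat_lit 9) (.n (nat_lit 220) (nat_lit 9) (.n (nat_lit 221) (nat_lit 9) (.p (nat_lit 222) (nat_lit 9) (.p (nat_lit 223) (nat_lit 9) (.p (nat_lit 224) (nat_lit 54) (.n (nat_lit 225) (nat_lit 36) (.p (nat_lit 226) (nat_lit 36) (.n (nat_lit 227) (nat_lit 18) (.p (nat_lit 228) (nat_lit 36) (.p (nat_lit 229) (nat_lit 36) (.n (nat_lit 231) (nat_lit 18) (.n (nat_lit 232) (nat_lit 18) (.p (nat_lit 236) (nat_lit 18) (.n (nat_lit 237) (nat_lit 36) (.n (nat_lit 238) (nat_lit 18) (.p (nat_lit 239) (nat_lit 36) (.p (nat_lit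 240) (nat_lit 18) .z))))))))))))))))))))))))))))))))))))))))))) (.ct dr2_c4626 (nat_lit 18) (nat_lit 11) (.s true (nat_lit 1) (nat_lit 8) (nat_lit 2) (nat_lit 3) (nat_lit 4) true (nat_lit 3) true (nat_lit 11) true (nat_lit 7) true (nat_lit 13) true (nat_lit 12) (.s true (nat_lit 1) (nat_lit 8) (nat_lit 3) (nat_lit 2) (nat_lit 4) true (nat_lit 1) true (nat_lit 11) true (nat_lit 7) true (nat_lit 12) true (nat_lit 13) (.s true (nat_lit 1) (nat_lit 8) (nat_lit 4) (nat_lit 2) (nat_lit 3) true (nat_lit 1) true (nat_lit 12) true (nat_lit 7) true (nat_lit 11) true (nat_lit 13) (.s false (nat_lit 1) (nat_lit 10) (nat_lit 4) (nat_lit 2) (nat_lit 1) true (nat_lit 4) true (nat_lit 14) true (nat_lit 5) true (nat_lit 11) true (nat_lit 13) (.s false (nat_lit 1) (nat_lit 11) (nat_lit 3) (nat_lit 3) (nat_lit 2) true (nat_lit 6) true (nat_lit 13) true (nat_lit 4) true (nat_lit 12) true (nat_lit 12) (.s false (nat_lit 1) (nat_lit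 12) (nat_lit 3) (nat_lit 1) (nat_lit 3) true (nat_lit 5) true (nat_lit 12) true (nat_lit 3) true (nat_lit 12) true (nat_lit 14) (.e false (nat_lit 18) (nat_lit 71) (nat_lit 4) (nat_lit 11) (.e false (nat_lit 18) (nat_lit 104) (nat_lit 2) (nat_lit 13) (.e false (nat_lit 18) (nat_lit 107) (nat_lit 2) (nat_lit 13) (.e true (nat_lit 18) (nat_lit 110) (nat_lit 2) (nat_lit 13) (.e false (nat_lit 18) (nat_lit 112) (nat_lit 2) (nat_lit 13) (.e true (nat_lit 18) (nat_lit 85) (nat_lit 3) (nat_lit 12) (.e false (nat_lit 18) (nat_lit 92) (nat_lit 3) (nat_lit 12) (.e false (nat_lit 18) (nat_lit 103) (nat_lit 3) (nat_lit 12) (.e false (nat_lit 18) (nat_lit 41) (nat_lit 8) (nat_lit 7) (.e false (nat_lit 18) (nat_lit 70) (nat_lit 4) (nat_lit 11) (.e true (nat_lit 18) (nat_lit 74) (nat_lit 4) (nat_lit 11) (.e true (nat_lit 18) (nat_lit 126) (nat_lit 1) (nat_lit 14) (.e false (nat_lit 18) (nat_lit 127) (nat_lit 1) (nat_lit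 14) (.e true (nat_lit 18) (nat_lit 128) (nat_lit 1) (nat_lit 14) (.e false (nat_lit 18) (nat_lit 130) (nat_lit 1) (nat_lit 14) (.e false (nat_lit 18) (nat_lit 37) (nat_lit 9) (nat_lit 6) (.e false (nat_lit 18) (nat_lit 115) (nat_lit 1) (nat_lit 14) .nil)))))))))))))))))))))))) dr2_t8)

noncomputable def dr2_t10 : Tr := (.nd (.nd (.nd (.nd (.nd (.nd (.nd .leaf (nat_lit 107523) (nat_lit 441) (.p (nat_lit 241) (nat_lit 9) (.p (nat_lit 244) (nat_lit 9) (.n (nat_lit 245) (nat_lit 9) (.p (nat_lit 246) (nat_lit 9) (.p (nat_lit 248) (nat_lit 9) (.p (nat_lit 249) (nat_lit 9) (.n (nat_lit 250) (nat_lit 9) (.n (nat_lit 254) (nat_lit 9) (.n (nat_lit 256) (nat_lit 9) (.p (nat_lit 259) (nat_lit 9) .z)))))))))) (.ct dr2_c4611 (nat_lit 36) (nat_lit 7) (.s false (nat_lit 1) (nat_lit 8) (nat_lit 1) (nat_lit 3) (nat_lit 7) true (nat_lit 1) true (nat_lit 5) true (nat_lit 4) true (nat_lit 8) true (nat_lit 7) (.s false (nat_lit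 1) (nat_lit 8) (nat_lit 3) (nat_lit 7) (nat_lit 1) true (nat_lit 4) true (nat_lit 8) true (nat_lit 4) true (nat_lit 7) true (nat_lit 5) (.s true (nat_lit 1) (nat_lit 17) (nat_lit 3) (nat_lit 1) (nat_lit 3) true (nat_lit 3) true (nat_lit 7) true (nat_lit 1) true (nat_lit 7) true (nat_lit 8) (.s true (nat_lit 1) (nat_lit 26) (nat_lit 1) (nat_lit 1) (nat_lit 3) true (nat_lit 4) true (nat_lit 7) false (nat_lit 0) true (nat_lit 8) true (nat_lit 8) (.e false (nat_lit 18) (nat_lit 107) (nat_lit 3) (nat_lit 7) (.e true (nat_lit 18) (nat_lit 111) (nat_lit 3) (nat_lit 7) (.e false (nat_lit 18) (nat_lit 112) (nat_lit 3) (nat_lit 7) (.e false (nat_lit 18) (nat_lit 152) (nat_lit 1) (nat_lit 8) (.e true (nat_lit 18) (nat_lit 158) (nat_lit 1) (nat_lit 8) (.e false (nat_lit 18) (nat_lit 110) (nat_lit 3) (nat_lit 7) (.e false (nat_lit 18) (nat_lit 39) (nat_lit 10) (nat_lit 3) (.e false (nat_lit 18) (nat_lit 151) (nat_lit 1)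 (nat_lit 8) (.e true (nat_lit 18) (nat_lit 153) (nat_lit 1) (nat_lit 8) (.e true (nat_lit 18) (nat_lit 160) (nat_lit 1) (nat_lit 8) .nil))))))))))))))) .leaf) (nat_lit 108546) (nat_lit 322) (.p (nat_lit 217) (nat_lit 18) .z) .df .leaf) (nat_lit 108547) (nat_lit 449) (.n (nat_lit 241) (nat_lit 45) (.p (nat_lit 242) (nat_lit 99) (.n (nat_lit 243) (nat_lit 45) (.p (nat_lit 244) (nat_lit 18) (.n (nat_lit 245) (nat_lit 9) (.n (nat_lit 248) (nat_lit 27) (.p (nat_lit 249) (nat_lit 144) (.n (nat_lit 250) (nat_lit 54) (.p (nat_lit 251) (nat_lit 117) (.n (nat_lit 252) (nat_lit 9) (.n (nat_lit 253) (nat_lit 54) (.n (nat_lit 254) (nat_lit 18) (.n (nat_lit 255) (nat_lit 72) (.n (nat_lit 256) (nat_lit 90) (.n (nat_lit 257) (nat_lit 36) (.n (nat_lit 258) (nat_lit 63) (.p (nat_lit 260) (nat_lit 9) (.p (nat_lit 261) (nat_lit 54) .z)))))))))))))))))) (.ct dr2_c4611 (nat_lit 36) (nat_lit 7) (.s true (nat_lit 1) (nat_lit 8) (nat_lit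 4) (nat_lit 3) (nat_lit 3) true (nat_lit 1) true (nat_lit 7) true (nat_lit 4) true (nat_lit 6) true (nat_lit 7) (.s false (nat_lit 1) (nat_lit 16) (nat_lit 1) (nat_lit 3) (nat_lit 3) true (nat_lit 4) true (nat_lit 7) true (nat_lit 1) true (nat_lit 8) true (nat_lit 7) (.e true (nat_lit 72) (nat_lit 104) (nat_lit 3) (nat_lit 7) (.e false (nat_lit 36) (nat_lit 105) (nat_lit 3) (nat_lit 7) (.e false (nat_lit 18) (nat_lit 80) (nat_lit 4) (nat_lit 6) (.e false (nat_lit 18) (nat_lit 81) (nat_lit 4) (nat_lit 6) (.e false (nat_lit 36) (nat_lit 110) (nat_lit 3) (nat_lit 7) (.e true (nat_lit 36) (nat_lit 112) (nat_lit 3) (nat_lit 7) (.e false (nat_lit 36) (nat_lit 107) (nat_lit 3) (nat_lit 7) (.e false (nat_lit 36) (nat_lit 108) (nat_lit 3) (nat_lit 7) (.e true (nat_lit 36) (nat_lit 109) (nat_lit 3) (nat_lit 7) (.e true (nat_lit 18) (nat_lit 111) (nat_lit 3) (nat_lit 7) (.e false (nat_lit 18) (nat_lit 114) (nat_lit 3)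 (nat_lit 7) (.e true (nat_lit 18) (nat_lit 160) (nat_lit 1) (nat_lit 8) .nil))))))))))))))) (.nd .leaf (nat_lit 109570) (nat_lit 349) (.n (nat_lit 192) (nat_lit 12) (.n (nat_lit 193) (nat_lit 48) (.p (nat_lit 194) (nat_lit 12) (.n (nat_lit 195) (nat_lit 30) (.p (nat_lit 196) (nat_lit 6) (.n (nat_lit 197) (nat_lit 12) (.n (nat_lit 198) (nat_lit 18) (.p (nat_lit 199) (nat_lit 42) (.n (nat_lit 200) (nat_lit 18) (.p (nat_lit 201) (nat_lit 24) (.p (nat_lit 202) (nat_lit 18) (.p (nat_lit 203) (nat_lit 6) (.n (nat_lit 204) (nat_lit 6) (.n (nat_lit 206) (nat_lit 27) (.n (nat_lit 208) (nat_lit 24) (.p (nat_lit 210) (nat_lit 12) (.p (nat_lit 211) (nat_lit 33) (.n (nat_lit 212) (nat_lit 48) (.n (nat_lit 213) (nat_lit 12) (.p (nat_lit 214) (nat_lit 12) (.n (nat_lit 215) (nat_lit 42) (.p (nat_lit 216) (nat_lit 54) (.n (nat_lit 218) (nat_lit 45) (.p (nat_lit 219) (nat_lit 45) (.n (nat_lit 220) (nat_lit 45) (.p (nat_lit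 221) (nat_lit 27) (.p (nat_lit 222) (nat_lit 45) (.n (nat_lit 223) (nat_lit 27) (.n (nat_lit 224) (nat_lit 18) (.p (nat_lit 227) (nat_lit 18) (.p (nat_lit 229) (nat_lit 36) (.p (nat_lit 231) (nat_lit 18) (.n (nat_lit 232) (nat_lit 18) (.n (nat_lit 236) (nat_lit 18) (.p (nat_lit 239) (nat_lit 36) (.n (nat_lit 240) (nat_lit 18) .z)))))))))))))))))))))))))))))))))))) (.ct dr2_c4626 (nat_lit 36) (nat_lit 13) (.s true (nat_lit 1) (nat_lit 8) (nat_lit 4) (nat_lit 2) (nat_lit 3) true (nat_lit 1) true (nat_lit 12) true (nat_lit 7) true (nat_lit 11) true (nat_lit 13) (.s false (nat_lit 1) (nat_lit 8) (nat_lit 7) (nat_lit 1) (nat_lit 2) false (nat_lit 0) true (nat_lit 13) true (nat_lit 7) true (nat_lit 8) true (nat_lit 14) (.s false (nat_lit 1) (nat_lit 9) (nat_lit 1) (nat_lit 7) (nat_lit 1) false (nat_lit 16) true (nat_lit 14) true (nat_lit 6) true (nat_lit 14) true (nat_lit 8) (.s true (nat_lit 1) (nat_lit 9) (nat_lit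 4) (nat_lit 3) (nat_lit 1) true (nat_lit 4) true (nat_lit 14) true (nat_lit 6) true (nat_lit 11) true (nat_lit 12) (.s false (nat_lit 1) (nat_lit 11) (nat_lit 2) (nat_lit 3) (nat_lit 3) true (nat_lit 6) true (nat_lit 12) true (nat_lit 4) true (nat_lit 13) true (nat_lit 12) (.s false (nat_lit 1) (nat_lit 17) (nat_lit 1) (nat_lit 2) (nat_lit 3) true (nat_lit 7) true (nat_lit 12) true (nat_lit 1) true (nat_lit 14) true (nat_lit 13) (.s true (nat_lit 1) (nat_lit 18) (nat_lit 1) (nat_lit 2) (nat_lit 3) true (nat_lit 7) true (nat_lit 12) true (nat_lit 1) true (nat_lit 14) true (nat_lit 13) (.s true (nat_lit 1) (nat_lit 16) (nat_lit 2) (nat_lit 1) (nat_lit 3) true (nat_lit 6) true (nat_lit 12) true (nat_lit 1) true (nat_lit 13) true (nat_lit 14) (.s true (nat_lit 1) (nat_lit 17) (nat_lit 2) (nat_lit 1) (nat_lit 3) true (nat_lit 6) true (nat_lit 12) true (nat_lit 1) true (nat_lit 13) true (nat_lit 14) (.s false (nat_lit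 1) (nat_lit 16) (nat_lit 3) (nat_lit 1) (nat_lit 2) true (nat_lit 6) true (nat_lit 13) true (nat_lit 1) true (nat_lit 12) true (nat_lit 14) (.s true (nat_lit 1) (nat_lit 19) (nat_lit 2) (nat_lit 0) (nat_lit 3) true (nat_lit 6) true (nat_lit 12) true (nat_lit 0) true (nat_lit 13) true (nat_lit 15) (.s true (nat_lit 1) (nat_lit 19) (nat_lit 3) (nat_lit 2) (nat_lit 0) true (nat_lit 8) true (nat_lit 15) true (nat_lit 0) true (nat_lit 12) true (nat_lit 13) dr2_i8))))))))))))) .leaf)) (nat_lit 109571) (nat_lit 413) (.p (nat_lit 241) (nat_lit 18) .z) .df (.nd (.nd (.nd .leaf (nat_lit 110594) (nat_lit 323) (.p (nat_lit 218) (nat_lit 18) .z) .df .leaf) (nat_lit 110595) (nat_lit 414) (.p (nat_lit 242) (nat_lit 18) .z) .df .leaf) (nat_lit 111618) (nat_lit 324) (.p (nat_lit 219) (nat_lit 18) .z) .df (.nd .leaf (nat_lit 111619) (nat_lit 415) (.p (nat_lit 243) (nat_lit 18) .z) .df .leaf))) (nat_lit 112642) (nat_lit 325)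 (.p (nat_lit 220) (nat_lit 18) .z) .df (.nd (.nd (.nd (.nd .leaf (nat_lit 112643) (nat_lit 416) (.p (nat_lit 244) (nat_lit 18) .z) .df .leaf) (nat_lit 113666) (nat_lit 326) (.p (nat_lit 221) (nat_lit 18) .z) .df .leaf) (nat_lit 113667) (nat_lit 417) (.p (nat_lit 245) (nat_lit 18) .z) .df (.nd .leaf (nat_lit 114690) (nat_lit 327) (.p (nat_lit 222) (nat_lit 18) .z) .df .leaf)) (nat_lit 114691) (nat_lit 418) (.p (nat_lit 246) (nat_lit 18) .z) .df (.nd (.nd (.nd .leaf (nat_lit 115714) (nat_lit 384) (.p (nat_lit 189) (nat_lit 54) (.n (nat_lit 190) (nat_lit 54) (.p (nat_lit 191) (nat_lit 54) (.p (nat_lit 192) (nat_lit 30) (.p (nat_lit 193) (nat_lit 138) (.n (nat_lit 194) (nat_lit 12) (.p (nat_lit 195) (nat_lit 84) (.n (nat_lit 196) (nat_lit 42) (.p (nat_lit 197) (nat_lit 30) (.p (nat_lit 198) (nat_lit 54) (.n (nat_lit 199) (nat_lit 96) (.p (nat_lit 200) (nat_lit 54) (.n (nat_lit 201) (nat_lit 24) (.p (nat_lit 202)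 (nat_lit 18) (.n (nat_lit 203) (nat_lit 24) (.p (nat_lit 204) (nat_lit 6) (.p (nat_lit 207) (nat_lit 54) (.p (nat_lit 208) (nat_lit 6) (.n (nat_lit 210) (nat_lit 12) (.n (nat_lit 211) (nat_lit 24) (.p (nat_lit 212) (nat_lit 66) (.p (nat_lit 213) (nat_lit 12) (.n (nat_lit 214) (nat_lit 30) (.n (nat_lit 215) (nat_lit 30) (.n (nat_lit 216) (nat_lit 90) (.p (nat_lit 217) (nat_lit 36) (.p (nat_lit 218) (nat_lit 72) (.n (nat_lit 219) (nat_lit 90) (.p (nat_lit 220) (nat_lit 54) (.n (nat_lit 221) (nat_lit 18) (.n (nat_lit 222) (nat_lit 108) (.p (nat_lit 223) (nat_lit 54) (.p (nat_lit 224) (nat_lit 72) (.n (nat_lit 225) (nat_lit 18) (.p (nat_lit 226) (nat_lit 18) (.n (nat_lit 227) (nat_lit 54) (.n (nat_lit 228) (nat_lit 18) (.n (nat_lit 229) (nat_lit 108) (.n (nat_lit 231) (nat_lit 54) (.p (nat_lit 232) (nat_lit 72) (.n (nat_lit 235) (nat_lit 54) (.p (nat_lit 236) (nat_lit 54) (.n (nat_lit 237) (nat_lit 36) (.p (nat_lit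 238) (nat_lit 36) (.n (nat_lit 239) (nat_lit 108) (.p (nat_lit 240) (nat_lit 54) .z)))))))))))))))))))))))))))))))))))))))))))))) (.ct dr2_c4626 (nat_lit 18) (nat_lit 13) (.s false (nat_lit 1) (nat_lit 18) (nat_lit 2) (nat_lit 1) (nat_lit 3) true (nat_lit 6) true (nat_lit 12) true (nat_lit 1) true (nat_lit 13) true (nat_lit 14) (.s true (nat_lit 1) (nat_lit 23) (nat_lit 3) (nat_lit 1) (nat_lit 0) true (nat_lit 8) true (nat_lit 15) false (nat_lit 1) true (nat_lit 12) true (nat_lit 14) (.e false (nat_lit 18) (nat_lit 40) (nat_lit 9) (nat_lit 6) (.e false (nat_lit 18) (nat_lit 97) (nat_lit 3) (nat_lit 12) (.e false (nat_lit 18) (nat_lit 104) (nat_lit 2) (nat_lit 13) (.e false (nat_lit 18) (nat_lit 106) (nat_lit 2) (nat_lit 13) (.e true (nat_lit 18) (nat_lit 107) (nat_lit 2) (nat_lit 13) (.e true (nat_lit 18) (nat_lit 108) (nat_lit 2) (nat_lit 13) (.e true (nat_lit 18) (nat_lit 110) (nat_lit 2) (nat_lit 13) (.e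 false (nat_lit 18) (nat_lit 111) (nat_lit 2) (nat_lit 13) (.e true (nat_lit 18) (nat_lit 127) (nat_lit 1) (nat_lit 14) (.e false (nat_lit 18) (nat_lit 53) (nat_lit 7) (nat_lit 8) (.e true (nat_lit 18) (nat_lit 145) (nat_lit 0) (nat_lit 15) (.e true (nat_lit 18) (nat_lit 86) (nat_lit 3) (nat_lit 12) (.e false (nat_lit 18) (nat_lit 89) (nat_lit 3) (nat_lit 12) (.e true (nat_lit 18) (nat_lit 90) (nat_lit 3) (nat_lit 12) (.e false (nat_lit 18) (nat_lit 91) (nat_lit 3) (nat_lit 12) (.e false (nat_lit 18) (nat_lit 95) (nat_lit 3) (nat_lit 12) (.e true (nat_lit 18) (nat_lit 103) (nat_lit 3) (nat_lit 12) (.e false (nat_lit 18) (nat_lit 124) (nat_lit 1) (nat_lit 14) .nil))))))))))))))))))))) .leaf) (nat_lit 115715) (nat_lit 440) (.p (nat_lit 241) (nat_lit 36) (.n (nat_lit 242) (nat_lit 54) (.n (nat_lit 243) (nat_lit 9) (.n (nat_lit 244) (nat_lit 27) (.p (nat_lit 245) (nat_lit 9) (.p (nat_lit 246) (nat_lit 9) (.p (nat_lit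 247) (nat_lit 9) (.p (nat_lit 248) (nat_lit 9) (.n (nat_lit 249) (nat_lit 153) (.p (nat_lit 250) (nat_lit 36) (.n (nat_lit 251) (nat_lit 135) (.p (nat_lit 252) (nat_lit 9) (.p (nat_lit 253) (nat_lit 63) (.p (nat_lit 254) (nat_lit 36) (.p (nat_lit 255) (nat_lit 72) (.p (nat_lit 256) (nat_lit 90) (.p (nat_lit 257) (nat_lit 18) (.p (nat_lit 258) (nat_lit 54) (.p (nat_lit 260) (nat_lit 18) (.n (nat_lit 261) (nat_lit 27) .z)))))))))))))))))))) (.ct dr2_c4611 (nat_lit 18) (nat_lit 7) (.s true (nat_lit 1) (nat_lit 8) (nat_lit 1) (nat_lit 7) (nat_lit 3) true (nat_lit 4) true (nat_lit 7) true (nat_lit 4) true (nat_lit 8) true (nat_lit 5) (.s false (nat_lit 1) (nat_lit 8) (nat_lit 3) (nat_lit 1) (nat_lit 7) false (nat_lit 0) true (nat_lit 5) true (nat_lit 4) true (nat_lit 7) true (nat_lit 8) (.s true (nat_lit 1) (nat_lit 18) (nat_lit 1) (nat_lit 3) (nat_lit 3) true (nat_lit 4) true (nat_lit 7) true (nat_lit 1) true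 (nat_lit 8) true (nat_lit 7) (.s true (nat_lit 1) (nat_lit 18) (nat_lit 3) (nat_lit 1) (nat_lit 3) true (nat_lit 3) true (nat_lit 7) true (nat_lit 1) true (nat_lit 7) true (nat_lit 8) (.s true (nat_lit 1) (nat_lit 26) (nat_lit 1) (nat_lit 3) (nat_lit 1) false (nat_lit 10) true (nat_lit 8) false (nat_lit 0) true (nat_lit 8) true (nat_lit 7) (.e false (nat_lit 18) (nat_lit 56) (nat_lit 8) (nat_lit 4) (.e true (nat_lit 18) (nat_lit 107) (nat_lit 3) (nat_lit 7) (.e false (nat_lit 18) (nat_lit 111) (nat_lit 3) (nat_lit 7) (.e true (nat_lit 18) (nat_lit 110) (nat_lit 3) (nat_lit 7) (.e true (nat_lit 18) (nat_lit 151) (nat_lit 1) (nat_lit 8) (.e true (nat_lit 36) (nat_lit 152) (nat_lit 1) (nat_lit 8) (.e true (nat_lit 18) (nat_lit 57) (nat_lit 8) (nat_lit 4) (.e true (nat_lit 36) (nat_lit 154) (nat_lit 1) (nat_lit 8) (.e false (nat_lit 18) (nat_lit 157) (nat_lit 1) (nat_lit 8) (.e false (nat_lit 18) (nat_lit 158)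 (nat_lit 1) (nat_lit 8) (.e false (nat_lit 18) (nat_lit 159) (nat_lit 1) (nat_lit 8) (.e false (nat_lit 18) (nat_lit 160) (nat_lit 1) (nat_lit 8) (.e true (nat_lit 36) (nat_lit 109) (nat_lit 3) (nat_lit 7) (.e false (nat_lit 18) (nat_lit 40) (nat_lit 10) (nat_lit 3) (.e false (nat_lit 18) (nat_lit 104) (nat_lit 3) (nat_lit 7) .nil))))))))))))))))))))) .leaf) (nat_lit 116738) (nat_lit 328) (.p (nat_lit 223) (nat_lit 18) .z) .df (.nd .leaf (nat_lit 116739) (nat_lit 419) (.p (nat_lit 247) (nat_lit 18) .z) .df .leaf)))) (nat_lit 117761) (nat_lit 297) (.p (nat_lit 192) (nat_lit 18) .z) .df (.nd (.nd (.nd (.nd (.nd .leaf (nat_lit 117763) (nat_lit 463) (.p (nat_lit 262) (nat_lit 18) .z) .df .leaf) (nat_lit 118785) (nat_lit 298) (.p (nat_lit 193) (nat_lit 18) .z) .df .leaf) (nat_lit 118787) (nat_lit 464) (.p (nat_lit 263) (nat_lit 18) .z) .df (.nd .leaf (nat_lit 119809) (nat_lit 299) (.p (nat_lit 194) (nat_lit 18)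 .z) .df .leaf)) (nat_lit 119811) (nat_lit 465) (.p (nat_lit 264) (nat_lit 18) .z) .df (.nd (.nd (.nd .leaf (nat_lit 120833) (nat_lit 300) (.p (nat_lit 195) (nat_lit 18) .z) .df .leaf) (nat_lit 120835) (nat_lit 466) (.p (nat_lit 265) (nat_lit 18) .z) .df .leaf) (nat_lit 121857) (nat_lit 301) (.p (nat_lit 196) (nat_lit 18) .z) .df (.nd .leaf (nat_lit 121859) (nat_lit 467) (.p (nat_lit 266) (nat_lit 18) .z) .df .leaf))) (nat_lit 122881) (nat_lit 302) (.p (nat_lit 197) (nat_lit 18) .z) .df (.nd (.nd (.nd (.nd .leaf (nat_lit 122883) (nat_lit 468) (.p (nat_lit 267) (nat_lit 18) .z) .df .leaf) (nat_lit 123905) (nat_lit 303) (.p (nat_lit 198) (nat_lit 18) .z) .df .leaf) (nat_lit 123907) (nat_lit 469) (.p (nat_lit 268) (nat_lit 18) .z) .df (.nd .leaf (nat_lit 124929) (nat_lit 304) (.p (nat_lit 199) (nat_lit 18) .z) .df .leaf)) (nat_lit 124931) (nat_lit 470) (.p (nat_lit 269) (nat_lit 18) .z) .df (.nd (.nd .leaf (nat_lit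 125953) (nat_lit 305) (.p (nat_lit 200) (nat_lit 18) .z) .df .leaf) (nat_lit 125955) (nat_lit 471) (.p (nat_lit 270) (nat_lit 18) .z) .df (.nd .leaf (nat_lit 126977) (nat_lit 306) (.p (nat_lit 201) (nat_lit 18) .z) .df .leaf))))) (nat_lit 126979) (nat_lit 472) (.p (nat_lit 271) (nat_lit 18) .z) .df (.nd (.nd (.nd (.nd (.nd (.nd .leaf (nat_lit 128001) (nat_lit 307) (.p (nat_lit 202) (nat_lit 18) .z) .df .leaf) (nat_lit 128003) (nat_lit 473) (.p (nat_lit 272) (nat_lit 18) .z) .df .leaf) (nat_lit 129025) (nat_lit 308) (.p (nat_lit 203) (nat_lit 18) .z) .df (.nd .leaf (nat_lit 129027) (nat_lit 474) (.p (nat_lit 273) (nat_lit 18) .z) .df .leaf)) (nat_lit 130049) (nat_lit 309) (.p (nat_lit 204) (nat_lit 18) .z) .df (.nd (.nd (.nd .leaf (nat_lit 130051) (nat_lit 475) (.p (nat_lit 274) (nat_lit 18) .z) .df .leaf) (nat_lit 131073) (nat_lit 310) (.p (nat_lit 205) (nat_lit 18) .z) .df .leaf) (nat_lit 131075) (nat_lit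 476) (.p (nat_lit 275) (nat_lit 18) .z) .df (.nd .leaf (nat_lit 132097) (nat_lit 311) (.p (nat_lit 206) (nat_lit 18) .z) .df .leaf))) (nat_lit 132099) (nat_lit 477) (.p (nat_lit 276) (nat_lit 18) .z) .df (.nd (.nd (.nd (.nd .leaf (nat_lit 133121) (nat_lit 312) (.p (nat_lit 207) (nat_lit 18) .z) .df .leaf) (nat_lit 133123) (nat_lit 478) (.p (nat_lit 277) (nat_lit 18) .z) .df .leaf) (nat_lit 134145) (nat_lit 313) (.p (nat_lit 208) (nat_lit 18) .z) .df (.nd .leaf (nat_lit 134147) (nat_lit 479) (.p (nat_lit 278) (nat_lit 18) .z) .df .leaf)) (nat_lit 135169) (nat_lit 314) (.p (nat_lit 209) (nat_lit 18) .z) .df (.nd (.nd (.nd .leaf (nat_lit 135171) (nat_lit 480) (.p (nat_lit 279) (nat_lit 18) .z) .df .leaf) (nat_lit 136193) (nat_lit 315) (.p (nat_lit 210) (nat_lit 18) .z) .df .leaf) (nat_lit 136195) (nat_lit 481) (.p (nat_lit 280) (nat_lit 18) .z) .df (.nd .leaf (nat_lit 137217) (nat_lit 316) (.p (nat_lit 211) (nat_lit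 18) .z) .df .leaf)))) (nat_lit 137219) (nat_lit 482) (.p (nat_lit 281) (nat_lit 18) .z) .df (.nd (.nd (.nd (.nd (.nd .leaf (nat_lit 138241) (nat_lit 317) (.p (nat_lit 212) (nat_lit 18) .z) .df .leaf) (nat_lit 138243) (nat_lit 483) (.p (nat_lit 282) (nat_lit 18) .z) .df .leaf) (nat_lit 139265) (nat_lit 318) (.p (nat_lit 213) (nat_lit 18) .z) .df (.nd .leaf (nat_lit 139267) (nat_lit 484) (.p (nat_lit 283) (nat_lit 18) .z) .df .leaf)) (nat_lit 140289) (nat_lit 376) (.n (nat_lit 189) (nat_lit 27) (.p (nat_lit 190) (nat_lit 27) (.n (nat_lit 191) (nat_lit 27) (.p (nat_lit 192) (nat_lit 12) (.p (nat_lit 193) (nat_lit 12) (.n (nat_lit 194) (nat_lit 21) (.n (nat_lit 195) (nat_lit 24) (.p (nat_lit 196) (nat_lit 21) (.n (nat_lit 197) (nat_lit 6) (.p (nat_lit 199) (nat_lit 3) (.p (nat_lit 200) (nat_lit 18) (.n (nat_lit 201) (nat_lit 6) (.n (nat_lit 202) (nat_lit 63) (.n (nat_lit 203) (nat_lit 6) (.n (nat_lit 204) (nat_lit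 3) (.n (nat_lit 205) (nat_lit 9) (.p (nat_lit 206) (nat_lit 72) (.n (nat_lit 207) (nat_lit 45) (.p (nat_lit 208) (nat_lit 33) (.n (nat_lit 209) (nat_lit 18) (.n (nat_lit 210) (nat_lit 39) (.n (nat_lit 211) (nat_lit 33) (.p (nat_lit 212) (nat_lit 39) (.p (nat_lit 213) (nat_lit 12) (.n (nat_lit 214) (nat_lit 3) (.p (nat_lit 215) (nat_lit 96) (.n (nat_lit 218) (nat_lit 9) (.p (nat_lit 220) (nat_lit 9) (.n (nat_lit 222) (nat_lit 9) (.n (nat_lit 224) (nat_lit 9) (.p (nat_lit 225) (nat_lit 9) (.n (nat_lit 226) (nat_lit 9) (.p (nat_lit 228) (nat_lit 9) (.n (nat_lit 232) (nat_lit 9) (.p (nat_lit 235) (nat_lit 27) (.p (nat_lit 237) (nat_lit 18) (.n (nat_lit 238) (nat_lit 18) .z))))))))))))))))))))))))))))))))))))) (.ct dr2_c4626 (nat_lit 18) (nat_lit 14) dr2_i35) (.nd (.nd (.nd .leaf (nat_lit 140291) (nat_lit 515) (.n (nat_lit 262) (nat_lit 10) (.n (nat_lit 263) (nat_lit 106) (.n (nat_lit 264) (nat_lit 2) (.n (nat_lit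 265) (nat_lit 16) (.n (nat_lit 266) (nat_lit 4) (.n (nat_lit 267) (nat_lit 52) (.p (nat_lit 268) (nat_lit 30) (.p (nat_lit 269) (nat_lit 116) (.n (nat_lit 270) (nat_lit 6) (.p (nat_lit 271) (nat_lit 62) (.p (nat_lit 272) (nat_lit 12) (.p (nat_lit 273) (nat_lit 20) (.p (nat_lit 274) (nat_lit 52) (.n (nat_lit 275) (nat_lit 48) (.n (nat_lit 276) (nat_lit 54) (.p (nat_lit 277) (nat_lit 78) (.n (nat_lit 278) (nat_lit 74) (.n (nat_lit 279) (nat_lit 18) (.p (nat_lit 280) (nat_lit 52) (.p (nat_lit 281) (nat_lit 86) (.n (nat_lit 282) (nat_lit 154) (.n (nat_lit 283) (nat_lit 28) (.p (nat_lit 284) (nat_lit 4) (.n (nat_lit 285) (nat_lit 86) (.n (nat_lit 286) (nat_lit 72) (.n (nat_lit 287) (nat_lit 18) (.n (nat_lit 288) (nat_lit 36) (.p (nat_lit 289) (nat_lit 90) (.n (nat_lit 290) (nat_lit 102) (.n (nat_lit 291) (nat_lit 24) (.n (nat_lit 292) (nat_lit 48) (.n (nat_lit 293) (nat_lit 54) (.p (nat_lit 294) (nat_lit 12) (.p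 (nat_lit 295) (nat_lit 24) (.n (nat_lit 296) (nat_lit 18) (.n (nat_lit 297) (nat_lit 72) (.n (nat_lit 298) (nat_lit 78) (.n (nat_lit 299) (nat_lit 18) (.p (nat_lit 300) (nat_lit 42) (.p (nat_lit 301) (nat_lit 30) (.n (nat_lit 302) (nat_lit 42) (.p (nat_lit 303) (nat_lit 30) (.p (nat_lit 304) (nat_lit 54) (.p (nat_lit 305) (nat_lit 72) (.n (nat_lit 306) (nat_lit 102) (.n (nat_lit 307) (nat_lit 6) (.p (nat_lit 308) (nat_lit 96) .z))))))))))))))))))))))))))))))))))))))))))))))) (.ct dr2_c4371 (nat_lit 18) (nat_lit 11) (.s true (nat_lit 2) (nat_lit 7) (nat_lit 6) (nat_lit 3) (nat_lit 3) true (nat_lit 0) true (nat_lit 11) true (nat_lit 7) true (nat_lit 8) true (nat_lit 11) (.s false (nat_lit 1) (nat_lit 8) (nat_lit 2) (nat_lit 3) (nat_lit 7) true (nat_lit 1) true (nat_lit 7) true (nat_lit 6) true (nat_lit 12) true (nat_lit 11) (.s true (nat_lit 1) (nat_lit 8) (nat_lit 7) (nat_lit 2) (nat_lit 3) false (nat_lit 0)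 true (nat_lit 11) true (nat_lit 6) true (nat_lit 7) true (nat_lit 12) (.s true (nat_lit 1) (nat_lit 9) (nat_lit 0) (nat_lit 3) (nat_lit 8) true (nat_lit 2) true (nat_lit 6) true (nat_lit 5) true (nat_lit 14) true (nat_lit 11) (.s false (nat_lit 1) (nat_lit 9) (nat_lit 1) (nat_lit 3) (nat_lit 7) true (nat_lit 2) true (nat_lit 7) true (nat_lit 5) true (nat_lit 13) true (nat_lit 11) (.s false (nat_lit 1) (nat_lit 10) (nat_lit 6) (nat_lit 0) (nat_lit 3) true (nat_lit 0) true (nat_lit 11) true (nat_lit 4) true (nat_lit 8) true (nat_lit 14) (.s true (nat_lit 1) (nat_lit 10) (nat_lit 6) (nat_lit 3) (nat_lit 0) true (nat_lit 3) true (nat_lit 14) true (nat_lit 4) true (nat_lit 8) true (nat_lit 11) (.s true (nat_lit 1) (nat_lit 14) (nat_lit 3) (nat_lit 3) (nat_lit 3) true (nat_lit 4) true (nat_lit 11) true (nat_lit 3) true (nat_lit 11) true (nat_lit 11) (.s false (nat_lit 1) (nat_lit 17) (nat_lit 2) (nat_lit 3) (nat_lit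 3) true (nat_lit 5) true (nat_lit 11) true (nat_lit 2) true (nat_lit 12) true (nat_lit 11) (.s true (nat_lit 1) (nat_lit 18) (nat_lit 2) (nat_lit 3) (nat_lit 3) true (nat_lit 5) true (nat_lit 11) true (nat_lit 2) true (nat_lit 12) true (nat_lit 11) (.s false (nat_lit 1) (nat_lit 16) (nat_lit 3) (nat_lit 3) (nat_lit 2) true (nat_lit 5) true (nat_lit 12) true (nat_lit 2) true (nat_lit 11) true (nat_lit 11) (.s false (nat_lit 1) (nat_lit 18) (nat_lit 3) (nat_lit 3) (nat_lit 2) true (nat_lit 5) true (nat_lit 12) true (nat_lit 2) true (nat_lit 11) true (nat_lit 11) (.s false (nat_lit 1) (nat_lit 20) (nat_lit 1) (nat_lit 3) (nat_lit 3) true (nat_lit 6) true (nat_lit 11) true (nat_lit 1) true (nat_lit 13) true (nat_lit 11) (.s false (nat_lit 1) (nat_lit 21) (nat_lit 1) (nat_lit 3) (nat_lit 3) true (nat_lit 6) true (nat_lit 11) true (nat_lit 1) true (nat_lit 13) true (nat_lit 11) (.s false (nat_lit 1) (nat_lit 23)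 (nat_lit 0) (nat_lit 3) (nat_lit 3) true (nat_lit 7) true (nat_lit 11) true (nat_lit 0) true (nat_lit 14) true (nat_lit 11) (.s true (nat_lit 1) (nat_lit 23) (nat_lit 3) (nat_lit 0) (nat_lit 3) true (nat_lit 4) true (nat_lit 11) true (nat_lit 0) true (nat_lit 11) true (nat_lit 14) (.s true (nat_lit 1) (nat_lit 24) (nat_lit 3) (nat_lit 3) (nat_lit 0) true (nat_lit 7) true (nat_lit 14) true (nat_lit 0) true (nat_lit 11) true (nat_lit 11) dr2_i49)))))))))))))))))) .leaf) (nat_lit 141313) (nat_lit 319) (.p (nat_lit 214) (nat_lit 18) .z) .df .leaf) (nat_lit 141315) (nat_lit 485) (.p (nat_lit 284) (nat_lit 18) .z) .df (.nd .leaf (nat_lit 142337) (nat_lit 320) (.p (nat_lit 215) (nat_lit 18) .z) .df .leaf))) (nat_lit 142339) (nat_lit 486) (.p (nat_lit 285) (nat_lit 18) .z) .df (.nd (.nd (.nd (.nd .leaf (nat_lit 143360) (nat_lit 371) (.p (nat_lit 189) (nat_lit 72) (.n (nat_lit 190) (nat_lit 90) (.p (nat_lit 191) (nat_lit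 108) (.p (nat_lit 192) (nat_lit 24) (.p (nat_lit 193) (nat_lit 42) (.n (nat_lit 194) (nat_lit 96) (.n (nat_lit 195) (nat_lit 30) (.n (nat_lit 196) (nat_lit 102) (.n (nat_lit 197) (nat_lit 102) (.p (nat_lit 198) (nat_lit 126) (.p (nat_lit 199) (nat_lit 24) (.p (nat_lit 200) (nat_lit 108) (.p (nat_lit 201) (nat_lit 96) (.p (nat_lit 202) (nat_lit 54) (.p (nat_lit 203) (nat_lit 78) (.n (nat_lit 204) (nat_lit 42) (.p (nat_lit 205) (nat_lit 54) (.p (nat_lit 206) (nat_lit 9) (.p (nat_lit 207) (nat_lit 36) (.p (nat_lit 208) (nat_lit 48) (.n (nat_lit 210) (nat_lit 24) (.n (nat_lit 211) (nat_lit 75) (.p (nat_lit 212) (nat_lit 96) (.p (nat_lit 213) (nat_lit 96) (.n (nat_lit 214) (nat_lit 24) (.p (nat_lit 215) (nat_lit 48) (.n (nat_lit 216) (nat_lit 126) (.p (nat_lit 217) (nat_lit 18) (.p (nat_lit 218) (nat_lit 27) (.n (nat_lit 219) (nat_lit 81) (.p (nat_lit 220) (nat_lit 63) (.n (nat_lit 221) (nat_lit 45) (.n (nat_lit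 222) (nat_lit 81) (.p (nat_lit 223) (nat_lit 63) (.p (nat_lit 224) (nat_lit 144) (.n (nat_lit 225) (nat_lit 90) (.p (nat_lit 226) (nat_lit 72) (.n (nat_lit 227) (nat_lit 54) (.p (nat_lit 228) (nat_lit 36) (.n (nat_lit 229) (nat_lit 18) (.p (nat_lit 230) (nat_lit 18) (.n (nat_lit 231) (nat_lit 72) (.p (nat_lit 232) (nat_lit 36) (.n (nat_lit 233) (nat_lit 18) (.p (nat_lit 234) (nat_lit 18) (.n (nat_lit 235) (nat_lit 54) (.p (nat_lit 236) (nat_lit 54) (.n (nat_lit 237) (nat_lit 90) (.n (nat_lit 239) (nat_lit 36) (.p (nat_lit 240) (nat_lit 72) .z)))))))))))))))))))))))))))))))))))))))))))))))))) (.ct dr2_c4626 (nat_lit 36) (nat_lit 15) (.s true (nat_lit 1) (nat_lit 18) (nat_lit 3) (nat_lit 1) (nat_lit 2) true (nat_lit 6) true (nat_lit 13) true (nat_lit 1) true (nat_lit 12) true (nat_lit 14) (.s true (nat_lit 1) (nat_lit 24) (nat_lit 1) (nat_lit 3) (nat_lit 0) true (nat_lit 11) true (nat_lit 15) false (nat_lit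 1) true (nat_lit 14) true (nat_lit 12) (.e false (nat_lit 18) (nat_lit 40) (nat_lit 9) (nat_lit 6) (.e true (nat_lit 18) (nat_lit 109) (nat_lit 2) (nat_lit 13) (.e false (nat_lit 18) (nat_lit 87) (nat_lit 3) (nat_lit 12) (.e false (nat_lit 18) (nat_lit 90) (nat_lit 3) (nat_lit 12) (.e false (nat_lit 18) (nat_lit 93) (nat_lit 3) (nat_lit 12) dr2_i32)))))))) .leaf) (nat_lit 143363) (nat_lit 597) (.n (nat_lit 310) (nat_lit 18) (.p (nat_lit 311) (nat_lit 9) (.n (nat_lit 312) (nat_lit 45) (.n (nat_lit 313) (nat_lit 27) (.n (nat_lit 314) (nat_lit 9) (.p (nat_lit 315) (nat_lit 18) (.p (nat_lit 316) (nat_lit 27) (.n (nat_lit 317) (nat_lit 18) (.n (nat_lit 319) (nat_lit 27) (.p (nat_lit 320) (nat_lit 36) (.p (nat_lit 321) (nat_lit 54) (.p (nat_lit 322) (nat_lit 45) (.p (nat_lit 323) (nat_lit 63) (.n (nat_lit 324) (nat_lit 9) (.p (nat_lit 325) (nat_lit 18) (.n (nat_lit 326) (nat_lit 54) (.p (nat_lit 327) (nat_lit 36)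 (.n (nat_lit 328) (nat_lit 9) .z)))))))))))))))))) (.ct dr2_c531 (nat_lit 18) (nat_lit 7) (.s false (nat_lit 1) (nat_lit 8) (nat_lit 2) (nat_lit 3) (nat_lit 8) true (nat_lit 0) true (nat_lit 5) true (nat_lit 5) true (nat_lit 8) true (nat_lit 7) (.s true (nat_lit 1) (nat_lit 8) (nat_lit 2) (nat_lit 8) (nat_lit 3) true (nat_lit 4) true (nat_lit 7) true (nat_lit 5) true (nat_lit 8) true (nat_lit 5) (.s false (nat_lit 1) (nat_lit 9) (nat_lit 1) (nat_lit 8) (nat_lit 3) true (nat_lit 5) true (nat_lit 7) true (nat_lit 4) true (nat_lit 9) true (nat_lit 5) (.s true (nat_lit 1) (nat_lit 9) (nat_lit 8) (nat_lit 1) (nat_lit 3) false (nat_lit 0) true (nat_lit 7) true (nat_lit 4) true (nat_lit 5) true (nat_lit 9) (.s true (nat_lit 1) (nat_lit 10) (nat_lit 1) (nat_lit 9) (nat_lit 1) false (nat_lit 10) true (nat_lit 9) true (nat_lit 3) true (nat_lit 9) true (nat_lit 4) (.s false (nat_lit 1) (nat_lit 19) (nat_lit 3) (nat_lit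 3) (nat_lit 2) true (nat_lit 4) true (nat_lit 8) true (nat_lit 1) true (nat_lit 7) true (nat_lit 7) (.s false (nat_lit 1) (nat_lit 23) (nat_lit 1) (nat_lit 3) (nat_lit 3) true (nat_lit 5) true (nat_lit 7) true (nat_lit 0) true (nat_lit 9) true (nat_lit 7) (.s false (nat_lit 1) (nat_lit 25) (nat_lit 3) (nat_lit 1) (nat_lit 3) true (nat_lit 3) true (nat_lit 7) true (nat_lit 0) true (nat_lit 7) true (nat_lit 9) (.s false (nat_lit 1) (nat_lit 28) (nat_lit 1) (nat_lit 2) (nat_lit 3) true (nat_lit 5) true (nat_lit 7) false (nat_lit 0) true (nat_lit 9) true (nat_lit 8) (.s false (nat_lit 1) (nat_lit 28) (nat_lit 3) (nat_lit 1) (nat_lit 2) true (nat_lit 4) true (nat_lit 8) false (nat_lit 0) true (nat_lit 7) true (nat_lit 9) (.s true (nat_lit 1) (nat_lit 31) (nat_lit 1) (nat_lit 3) (nat_lit 1) false (nat_lit 10) true (nat_lit 9) false (nat_lit 1) true (nat_lit 9) true (nat_lit 7) (.e false (nat_lit 18) (nat_lit 71)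 (nat_lit 8) (nat_lit 5) (.e false (nat_lit 18) (nat_lit 74) (nat_lit 8) (nat_lit 5) (.e false (nat_lit 18) (nat_lit 162) (nat_lit 2) (nat_lit 8) (.e true (nat_lit 18) (nat_lit 145) (nat_lit 3) (nat_lit 7) (.e false (nat_lit 18) (nat_lit 146) (nat_lit 3) (nat_lit 7) (.e false (nat_lit 18) (nat_lit 148) (nat_lit 3) (nat_lit 7) (.e false (nat_lit 18) (nat_lit 149) (nat_lit 3) (nat_lit 7) (.e false (nat_lit 18) (nat_lit 188) (nat_lit 1) (nat_lit 9) (.e true (nat_lit 18) (nat_lit 181) (nat_lit 1) (nat_lit 9) (.e true (nat_lit 18) (nat_lit 184) (nat_lit 1) (nat_lit 9) (.e true (nat_lit 18) (nat_lit 183) (nat_lit 1) (nat_lit 9) .nil))))))))))))))))))))))) .leaf) (nat_lit 144384) (nat_lit 294) (.p (nat_lit 189) (nat_lit 18) .z) .df (.nd .leaf (nat_lit 144387) (nat_lit 598) (.p (nat_lit 309) (nat_lit 126) (.n (nat_lit 310) (nat_lit 36) (.n (nat_lit 311) (nat_lit 54) (.n (nat_lit 312) (nat_lit 261) (.n (nat_lit 313)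 (nat_lit 117) (.p (nat_lit 314) (nat_lit 45) (.p (nat_lit 315) (nat_lit 144) (.p (nat_lit 316) (nat_lit 126) (.n (nat_lit 317) (nat_lit 306) (.n (nat_lit 318) (nat_lit 54) (.p (nat_lit 320) (nat_lit 99) (.p (nat_lit 321) (nat_lit 144) (.n (nat_lit 322) (nat_lit 27) (.p (nat_lit 323) (nat_lit 45) (.n (nat_lit 324) (nat_lit 99) (.p (nat_lit 325) (nat_lit 108) (.n (nat_lit 326) (nat_lit 27) (.n (nat_lit 327) (nat_lit 72) (.n (nat_lit 328) (nat_lit 36) (.n (nat_lit 329) (nat_lit 72) .z)))))))))))))))))))) (.ct dr2_c531 (nat_lit 36) (nat_lit 7) (.s false (nat_lit 2) (nat_lit 8) (nat_lit 2) (nat_lit 3) (nat_lit 8) true (nat_lit 0) true (nat_lit 5) true (nat_lit 5) true (nat_lit 8) true (nat_lit 7) (.s true (nat_lit 1) (nat_lit 8) (nat_lit 2) (nat_lit 8) (nat_lit 3) true (nat_lit 4) true (nat_lit 7) true (nat_lit 5) true (nat_lit 8) true (nat_lit 5) (.s true (nat_lit 1) (nat_lit 8) (nat_lit 3) (nat_lit 2) (nat_lit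 8) false (nat_lit 0) true (nat_lit 5) true (nat_lit 5) true (nat_lit 7) true (nat_lit 8) (.s true (nat_lit 1) (nat_lit 9) (nat_lit 8) (nat_lit 1) (nat_lit 3) false (nat_lit 0) true (nat_lit 7) true (nat_lit 4) true (nat_lit 5) true (nat_lit 9) (.s true (nat_lit 1) (nat_lit 10) (nat_lit 1) (nat_lit 9) (nat_lit 1) false (nat_lit 10) true (nat_lit 9) true (nat_lit 3) true (nat_lit 9) true (nat_lit 4) (.s false (nat_lit 2) (nat_lit 10) (nat_lit 3) (nat_lit 6) (nat_lit 1) true (nat_lit 5) true (nat_lit 9) true (nat_lit 3) true (nat_lit 7) true (nat_lit 6) dr2_i77))))))) .leaf)) (nat_lit 145408) (nat_lit 362) (.n (nat_lit 189) (nat_lit 63) (.p (nat_lit 190) (nat_lit 63) (.n (nat_lit 191) (nat_lit 45) (.p (nat_lit 192) (nat_lit 6) (.p (nat_lit 193) (nat_lit 42) (.n (nat_lit 194) (nat_lit 51) (.p (nat_lit 195) (nat_lit 6) (.p (nat_lit 196) (nat_lit 15) (.n (nat_lit 197) (nat_lit 30) (.p (nat_lit 198) (nat_lit 54)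 (.n (nat_lit 199) (nat_lit 57) (.p (nat_lit 200) (nat_lit 36) (.n (nat_lit 201) (nat_lit 66) (.n (nat_lit 202) (nat_lit 63) (.p (nat_lit 203) (nat_lit 60) (.n (nat_lit 204) (nat_lit 15) (.p (nat_lit 205) (nat_lit 27) (.p (nat_lit 206) (nat_lit 90) (.n (nat_lit 207) (nat_lit 45) (.p (nat_lit 208) (nat_lit 129) (.n (nat_lit 210) (nat_lit 33) (.n (nat_lit 211) (nat_lit 129) (.p (nat_lit 212) (nat_lit 159) (.p (nat_lit 213) (nat_lit 42) (.n (nat_lit 214) (nat_lit 15) (.p (nat_lit 215) (nat_lit 174) (.n (nat_lit 216) (nat_lit 72) (.p (nat_lit 217) (nat_lit 18) (.n (nat_lit 218) (nat_lit 9) (.n (nat_lit 219) (nat_lit 54) (.p (nat_lit 220) (nat_lit 45) (.n (nat_lit 221) (nat_lit 18) (.n (nat_lit 222) (nat_lit 81) (.p (nat_lit 223) (nat_lit 36) (.p (nat_lit 224) (nat_lit 45) (.n (nat_lit 225) (nat_lit 27) (.p (nat_lit 226) (nat_lit 27) (.n (nat_lit 227) (nat_lit 18) (.p (nat_lit 228) (nat_lit 45) (.n (nat_lit 229)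 (nat_lit 18) (.p (nat_lit 230) (nat_lit 18) (.n (nat_lit 231) (nat_lit 36) (.n (nat_lit 232) (nat_lit 9) (.n (nat_lit 233) (nat_lit 18) (.p (nat_lit 234) (nat_lit 18) (.p (nat_lit 235) (nat_lit 45) (.p (nat_lit 236) (nat_lit 18) (.n (nat_lit 238) (nat_lit 72) (.n (nat_lit 239) (nat_lit 36) (.p (nat_lit 240) (nat_lit 36) .z)))))))))))))))))))))))))))))))))))))))))))))))))) (.ct dr2_c4626 (nat_lit 18) (nat_lit 15) (.s true (nat_lit 1) (nat_lit 8) (nat_lit 2) (nat_lit 3) (nat_lit 4) true (nat_lit 3) true (nat_lit 11) true (nat_lit 7) true (nat_lit 13) true (nat_lit 12) (.s true (nat_lit 1) (nat_lit 8) (nat_lit 3) (nat_lit 2) (nat_lit 4) true (nat_lit 1) true (nat_lit 11) true (nat_lit 7) true (nat_lit 12) true (nat_lit 13) (.s false (nat_lit 1) (nat_lit 9) (nat_lit 4) (nat_lit 3) (nat_lit 1) true (nat_lit 4) true (nat_lit 14) true (nat_lit 6) true (nat_lit 11) true (nat_lit 12) (.s false (nat_lit 1) (nat_lit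 10) (nat_lit 4) (nat_lit 2) (nat_lit 1) true (nat_lit 4) true (nat_lit 14) true (nat_lit 5) true (nat_lit 11) true (nat_lit 13) (.s true (nat_lit 1) (nat_lit 11) (nat_lit 2) (nat_lit 3) (nat_lit 3) true (nat_lit 6) true (nat_lit 12) true (nat_lit 4) true (nat_lit 13) true (nat_lit 12) (.s false (nat_lit 1) (nat_lit 11) (nat_lit 3) (nat_lit 3) (nat_lit 2) true (nat_lit 6) true (nat_lit 13) true (nat_lit 4) true (nat_lit 12) true (nat_lit 12) (.s false (nat_lit 1) (nat_lit 12) (nat_lit 3) (nat_lit 1) (nat_lit 3) true (nat_lit 5) true (nat_lit 12) true (nat_lit 3) true (nat_lit 12) true (nat_lit 14) (.s true (nat_lit 1) (nat_lit 16) (nat_lit 3) (nat_lit 1) (nat_lit 2) true (nat_lit 6) true (nat_lit 13) true (nat_lit 1) true (nat_lit 12) true (nat_lit 14) (.s true (nat_lit 1) (nat_lit 18) (nat_lit 3) (nat_lit 2) (nat_lit 1) true (nat_lit 7) true (nat_lit 14) true (nat_lit 1) true (nat_lit 12) true (nat_lit 13)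 (.s true (nat_lit 1) (nat_lit 25) (nat_lit 1) (nat_lit 3) (nat_lit 0) true (nat_lit 11) true (nat_lit 15) false (nat_lit 1) true (nat_lit 14) true (nat_lit 12) (.e false (nat_lit 18) (nat_lit 71) (nat_lit 4) (nat_lit 11) (.e false (nat_lit 18) (nat_lit 46) (nat_lit 8) (nat_lit 7) (.e false (nat_lit 18) (nat_lit 106) (nat_lit 2) (nat_lit 13) (.e false (nat_lit 36) (nat_lit 107) (nat_lit 2) (nat_lit 13) (.e false (nat_lit 36) (nat_lit 108) (nat_lit 2) (nat_lit 13) (.e true (nat_lit 36) (nat_lit 109) (nat_lit 2) (nat_lit 13) (.e true (nat_lit 18) (nat_lit 111) (nat_lit 2) (nat_lit 13) (.e false (nat_lit 18) (nat_lit 114) (nat_lit 2) (nat_lit 13) (.e true (nat_lit 18) (nat_lit 90) (nat_lit 3) (nat_lit 12) (.e false (nat_lit 18) (nat_lit 91) (nat_lit 3) (nat_lit 12) (.e true (nat_lit 18) (nat_lit 85) (nat_lit 3) (nat_lit 12) dr2_i26)))))))))))))))))))))) (.nd (.nd .leaf (nat_lit 145411) (nat_lit 573) (.p (nat_lit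 309) (nat_lit 18) .z) .df .leaf) (nat_lit 146435) (nat_lit 574) (.p (nat_lit 310) (nat_lit 18) .z) .df (.nd .leaf (nat_lit 147456) (nat_lit 361) (.n (nat_lit 189) (nat_lit 90) (.p (nat_lit 190) (nat_lit 126) (.n (nat_lit 191) (nat_lit 126) (.p (nat_lit 193) (nat_lit 54) (.p (nat_lit 194) (nat_lit 72) (.p (nat_lit 195) (nat_lit 72) (.p (nat_lit 196) (nat_lit 108) (.p (nat_lit 197) (nat_lit 126) (.n (nat_lit 198) (nat_lit 90) (.n (nat_lit 199) (nat_lit 90) (.n (nat_lit 200) (nat_lit 90) (.n (nat_lit 201) (nat_lit 162) (.n (nat_lit 202) (nat_lit 90) (.n (nat_lit 203) (nat_lit 54) (.p (nat_lit 204) (nat_lit 36) (.n (nat_lit 205) (nat_lit 72) (.p (nat_lit 206) (nat_lit 63) (.n (nat_lit 207) (nat_lit 72) (.p (nat_lit 208) (nat_lit 36) (.n (nat_lit 210) (nat_lit 36) (.n (nat_lit 211) (nat_lit 9) (.p (nat_lit 212) (nat_lit 36) (.n (nat_lit 213) (nat_lit 54) (.p (nat_lit 214) (nat_lit 18) (.p (nat_lit 215) (nat_lit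 108) (.p (nat_lit 216) (nat_lit 54) (.n (nat_lit 218) (nat_lit 9) (.p (nat_lit 219) (nat_lit 27) (.p (nat_lit 220) (nat_lit 45) (.p (nat_lit 221) (nat_lit 9) (.n (nat_lit 222) (nat_lit 9) (.n (nat_lit 223) (nat_lit 9) (.n (nat_lit 224) (nat_lit 126) (.p (nat_lit 225) (nat_lit 54) (.n (nat_lit 226) (nat_lit 90) (.p (nat_lit 227) (nat_lit 36) (.n (nat_lit 228) (nat_lit 18) (.n (nat_lit 229) (nat_lit 18) (.p (nat_lit 231) (nat_lit 54) (.n (nat_lit 232) (nat_lit 36) (.p (nat_lit 235) (nat_lit 90) (.n (nat_lit 236) (nat_lit 36) (.p (nat_lit 237) (nat_lit 108) (.n (nat_lit 238) (nat_lit 36) (.n (nat_lit 239) (nat_lit 18) (.n (nat_lit 240) (nat_lit 54) .z)))))))))))))))))))))))))))))))))))))))))))))) (.ct dr2_c4626 (nat_lit 18) (nat_lit 15) (.s false (nat_lit 1) (nat_lit 14) (nat_lit 3) (nat_lit 3) (nat_lit 1) true (nat_lit 7) true (nat_lit 14) true (nat_lit 3) true (nat_lit 12) true (nat_lit 12) (.s true (nat_lit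 1) (nat_lit 29) (nat_lit 1) (nat_lit 2) (nat_lit 0) true (nat_lit 11) true (nat_lit 15) false (nat_lit 3) true (nat_lit 14) true (nat_lit 13) (.e false (nat_lit 18) (nat_lit 43) (nat_lit 8) (nat_lit 7) (.e false (nat_lit 24) (nat_lit 117) (nat_lit 1) (nat_lit 14) (.e false (nat_lit 18) (nat_lit 85) (nat_lit 3) (nat_lit 12) (.e false (nat_lit 18) (nat_lit 86) (nat_lit 3) (nat_lit 12) (.e true (nat_lit 36) (nat_lit 89) (nat_lit 3) (nat_lit 12) (.e false (nat_lit 18) (nat_lit 90) (nat_lit 3) (nat_lit 12) (.e true (nat_lit 36) (nat_lit 91) (nat_lit 3) (nat_lit 12) (.e true (nat_lit 18) (nat_lit 92) (nat_lit 3) (nat_lit 12) (.e true (nat_lit 18) (nat_lit 93) (nat_lit 3) (nat_lit 12) (.e true (nat_lit 18) (nat_lit 94) (nat_lit 3) (nat_lit 12) (.e true (nat_lit 18) (nat_lit 95) (nat_lit 3) (nat_lit 12) (.e true (nat_lit 18) (nat_lit 97) (nat_lit 3) (nat_lit 12) (.e false (nat_lit 36) (nat_lit 98) (nat_lit 3) (nat_lit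 12) (.e true (nat_lit 18) (nat_lit 99) (nat_lit 3) (nat_lit 12) (.e false (nat_lit 18) (nat_lit 100) (nat_lit 3) (nat_lit 12) (.e false (nat_lit 18) (nat_lit 101) (nat_lit 3) (nat_lit 12) (.e false (nat_lit 18) (nat_lit 103) (nat_lit 3) (nat_lit 12) (.e true (nat_lit 18) (nat_lit 88) (nat_lit 3) (nat_lit 12) dr2_i25))))))))))))))))))))) .leaf))))))

noncomputable def dr2_t11 : Tr := (.nd (.nd (.nd (.nd (.nd (.nd (.nd .leaf (nat_lit 148480) (nat_lit 357) (.n (nat_lit 189) (nat_lit 108) (.p (nat_lit 190) (nat_lit 162) (.n (nat_lit 191) (nat_lit 162) (.n (nat_lit 192) (nat_lit 18) (.p (nat_lit 193) (nat_lit 90) (.p (nat_lit 194) (nat_lit 108) (.p (nat_lit 195) (nat_lit 126) (.p (nat_lit 196) (nat_lit 144) (.p (nat_lit 197) (nat_lit 180) (.n (nat_lit 198) (nat_lit 108) (.n (nat_lit 199) (nat_lit 162) (.n (nat_lit 200) (nat_lit 108) (.n (nat_lit 201) (nat_lit 234) (.n (nat_lit 202) (nat_lit 126) (.n (nat_lit 203)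 (nat_lit 90) (.p (nat_lit 204) (nat_lit 54) (.n (nat_lit 205) (nat_lit 72) (.p (nat_lit 206) (nat_lit 81) (.n (nat_lit 207) (nat_lit 72) (.p (nat_lit 208) (nat_lit 72) (.n (nat_lit 210) (nat_lit 36) (.n (nat_lit 211) (nat_lit 27) (.p (nat_lit 212) (nat_lit 72) (.n (nat_lit 213) (nat_lit 108) (.p (nat_lit 215) (nat_lit 90) (.p (nat_lit 216) (nat_lit 54) (.p (nat_lit 218) (nat_lit 9) (.p (nat_lit 219) (nat_lit 27) (.p (nat_lit 220) (nat_lit 27) (.p (nat_lit 221) (nat_lit 27) (.n (nat_lit 222) (nat_lit 27) (.n (nat_lit 223) (nat_lit 27) (.n (nat_lit 224) (nat_lit 162) (.p (nat_lit 225) (nat_lit 108) (.n (nat_lit 226) (nat_lit 108) (.p (nat_lit 227) (nat_lit 54) (.n (nat_lit 228) (nat_lit 36) (.n (nat_lit 229) (nat_lit 72) (.p (nat_lit 231) (nat_lit 54) (.n (nat_lit 232) (nat_lit 18) (.p (nat_lit 235) (nat_lit 108) (.n (nat_lit 236) (nat_lit 54) (.p (nat_lit 237) (nat_lit 144) (.n (nat_lit 238) (nat_lit 36) (.n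 (nat_lit 239) (nat_lit 72) (.n (nat_lit 240) (nat_lit 54) .z)))))))))))))))))))))))))))))))))))))))))))))) (.ct dr2_c4626 (nat_lit 18) (nat_lit 15) (.s true (nat_lit 1) (nat_lit 23) (nat_lit 1) (nat_lit 3) (nat_lit 0) true (nat_lit 11) true (nat_lit 15) false (nat_lit 1) true (nat_lit 14) true (nat_lit 12) (.s true (nat_lit 1) (nat_lit 23) (nat_lit 3) (nat_lit 1) (nat_lit 0) true (nat_lit 8) true (nat_lit 15) false (nat_lit 1) true (nat_lit 12) true (nat_lit 14) (.e false (nat_lit 18) (nat_lit 70) (nat_lit 4) (nat_lit 11) (.e true (nat_lit 18) (nat_lit 141) (nat_lit 0) (nat_lit 15) dr2_i20))))) .leaf) (nat_lit 148483) (nat_lit 576) (.p (nat_lit 312) (nat_lit 18) .z) .df .leaf) (nat_lit 149504) (nat_lit 295) (.p (nat_lit 190) (nat_lit 18) .z) .df (.nd .leaf (nat_lit 149507) (nat_lit 577) (.p (nat_lit 313) (nat_lit 18) .z) .df .leaf)) (nat_lit 150528) (nat_lit 296) (.p (nat_lit 191) (nat_lit 18) .z) .df (.nd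 (.nd (.nd .leaf (nat_lit 150531) (nat_lit 578) (.p (nat_lit 314) (nat_lit 18) .z) .df .leaf) (nat_lit 151552) (nat_lit 366) (.n (nat_lit 189) (nat_lit 189) (.p (nat_lit 190) (nat_lit 243) (.n (nat_lit 191) (nat_lit 243) (.n (nat_lit 192) (nat_lit 6) (.p (nat_lit 193) (nat_lit 30) (.p (nat_lit 194) (nat_lit 69) (.p (nat_lit 195) (nat_lit 84) (.p (nat_lit 196) (nat_lit 165) (.p (nat_lit 197) (nat_lit 138) (.n (nat_lit 198) (nat_lit 108) (.n (nat_lit 199) (nat_lit 141) (.n (nat_lit 200) (nat_lit 108) (.n (nat_lit 201) (nat_lit 276) (.n (nat_lit 202) (nat_lit 171) (.n (nat_lit 203) (nat_lit 24) (.p (nat_lit 204) (nat_lit 51) (.n (nat_lit 205) (nat_lit 63) (.p (nat_lit 206) (nat_lit 135) (.n (nat_lit 207) (nat_lit 117) (.p (nat_lit 208) (nat_lit 141) (.n (nat_lit 210) (nat_lit 39) (.n (nat_lit 211) (nat_lit 96) (.p (nat_lit 212) (nat_lit 129) (.n (nat_lit 213) (nat_lit 78) (.p (nat_lit 214) (nat_lit 15) (.p (nat_lit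 215) (nat_lit 240) (.p (nat_lit 216) (nat_lit 72) (.n (nat_lit 218) (nat_lit 54) (.p (nat_lit 219) (nat_lit 27) (.p (nat_lit 220) (nat_lit 18) (.p (nat_lit 221) (nat_lit 27) (.n (nat_lit 222) (nat_lit 18) (.n (nat_lit 223) (nat_lit 27) (.n (nat_lit 224) (nat_lit 171) (.p (nat_lit 225) (nat_lit 99) (.n (nat_lit 226) (nat_lit 99) (.p (nat_lit 227) (nat_lit 54) (.p (nat_lit 228) (nat_lit 27) (.n (nat_lit 229) (nat_lit 18) (.p (nat_lit 231) (nat_lit 54) (.n (nat_lit 232) (nat_lit 81) (.p (nat_lit 235) (nat_lit 189) (.n (nat_lit 236) (nat_lit 54) (.p (nat_lit 237) (nat_lit 162) (.n (nat_lit 238) (nat_lit 126) (.n (nat_lit 239) (nat_lit 18) (.n (nat_lit 240) (nat_lit 54) .z))))))))))))))))))))))))))))))))))))))))))))))) (.ct dr2_c4626 (nat_lit 36) (nat_lit 15) (.s true (nat_lit 1) (nat_lit 10) (nat_lit 1) (nat_lit 1) (nat_lit 5) true (nat_lit 3) true (nat_lit 10) true (nat_lit 5) true (nat_lit 14) true (nat_lit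 14) (.s false (nat_lit 1) (nat_lit 29) (nat_lit 0) (nat_lit 2) (nat_lit 1) true (nat_lit 11) true (nat_lit 14) false (nat_lit 3) true (nat_lit 15) true (nat_lit 13) (.s true (nat_lit 1) (nat_lit 29) (nat_lit 1) (nat_lit 2) (nat_lit 0) true (nat_lit 11) true (nat_lit 15) false (nat_lit 3) true (nat_lit 14) true (nat_lit 13) (.s true (nat_lit 1) (nat_lit 29) (nat_lit 2) (nat_lit 1) (nat_lit 0) true (nat_lit 10) true (nat_lit 15) false (nat_lit 3) true (nat_lit 13) true (nat_lit 14) (.s true (nat_lit 2) (nat_lit 30) (nat_lit 1) (nat_lit 1) (nat_lit 0) true (nat_lit 11) true (nat_lit 15) false (nat_lit 4) true (nat_lit 14) true (nat_lit 14) dr2_i29)))))) .leaf) (nat_lit 151555) (nat_lit 579) (.p (nat_lit 315) (nat_lit 18) .z) .df (.nd .leaf (nat_lit 152576) (nat_lit 360) (.p (nat_lit 190) (nat_lit 72) (.n (nat_lit 191) (nat_lit 72) (.n (nat_lit 192) (nat_lit 12) (.p (nat_lit 193) (nat_lit 78) (.p (nat_lit 194)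 (nat_lit 210) (.p (nat_lit 195) (nat_lit 168) (.p (nat_lit 196) (nat_lit 114) (.p (nat_lit 197) (nat_lit 258) (.n (nat_lit 198) (nat_lit 162) (.n (nat_lit 199) (nat_lit 120) (.n (nat_lit 200) (nat_lit 162) (.n (nat_lit 201) (nat_lit 174) (.n (nat_lit 203) (nat_lit 192) (.p (nat_lit 204) (nat_lit 84) (.n (nat_lit 205) (nat_lit 108) (.n (nat_lit 206) (nat_lit 99) (.p (nat_lit 207) (nat_lit 36) (.n (nat_lit 208) (nat_lit 114) (.p (nat_lit 210) (nat_lit 30) (.p (nat_lit 211) (nat_lit 177) (.n (nat_lit 212) (nat_lit 138) (.n (nat_lit 213) (nat_lit 210) (.p (nat_lit 214) (nat_lit 30) (.n (nat_lit 215) (nat_lit 276) (.p (nat_lit 216) (nat_lit 162) (.p (nat_lit 218) (nat_lit 27) (.p (nat_lit 219) (nat_lit 81) (.n (nat_lit 220) (nat_lit 63) (.p (nat_lit 221) (nat_lit 63) (.p (nat_lit 222) (nat_lit 63) (.n (nat_lit 223) (nat_lit 63) (.n (nat_lit 224) (nat_lit 216) (.p (nat_lit 225) (nat_lit 108) (.n (nat_lit 226) (nat_lit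 108) (.p (nat_lit 227) (nat_lit 72) (.n (nat_lit 228) (nat_lit 108) (.n (nat_lit 229) (nat_lit 54) (.p (nat_lit 231) (nat_lit 90) (.p (nat_lit 232) (nat_lit 18) (.n (nat_lit 236) (nat_lit 72) (.p (nat_lit 237) (nat_lit 108) (.p (nat_lit 238) (nat_lit 72) (.n (nat_lit 239) (nat_lit 54) (.n (nat_lit 240) (nat_lit 90) .z)))))))))))))))))))))))))))))))))))))))))))) (.ct dr2_c4626 (nat_lit 18) (nat_lit 15) (.s true (nat_lit 2) (nat_lit 8) (nat_lit 4) (nat_lit 2) (nat_lit 3) true (nat_lit 1) true (nat_lit 12) true (nat_lit 7) true (nat_lit 11) true (nat_lit 13) (.s true (nat_lit 2) (nat_lit 9) (nat_lit 4) (nat_lit 3) (nat_lit 1) true (nat_lit 4) true (nat_lit 14) true (nat_lit 6) true (nat_lit 11) true (nat_lit 12) (.s true (nat_lit 1) (nat_lit 10) (nat_lit 1) (nat_lit 1) (nat_lit 5) true (nat_lit 3) true (nat_lit 10) true (nat_lit 5) true (nat_lit 14) true (nat_lit 14) (.s false (nat_lit 1) (nat_lit 10) (nat_lit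 1) (nat_lit 6) (nat_lit 0) true (nat_lit 11) true (nat_lit 15) true (nat_lit 5) true (nat_lit 14) true (nat_lit 9) (.s true (nat_lit 1) (nat_lit 10) (nat_lit 4) (nat_lit 2) (nat_lit 1) true (nat_lit 4) true (nat_lit 14) true (nat_lit 5) true (nat_lit 11) true (nat_lit 13) (.s false (nat_lit 1) (nat_lit 11) (nat_lit 2) (nat_lit 3) (nat_lit 3) true (nat_lit 6) true (nat_lit 12) true (nat_lit 4) true (nat_lit 13) true (nat_lit 12) (.s true (nat_lit 1) (nat_lit 11) (nat_lit 3) (nat_lit 2) (nat_lit 3) true (nat_lit 5) true (nat_lit 12) true (nat_lit 4) true (nat_lit 12) true (nat_lit 13) (.s true (nat_lit 1) (nat_lit 11) (nat_lit 3) (nat_lit 3) (nat_lit 2) true (nat_lit 6) true (nat_lit 13) true (nat_lit 4) true (nat_lit 12) true (nat_lit 12) dr2_i24))))))))) .leaf))) (nat_lit 152579) (nat_lit 580) (.p (nat_lit 316) (nat_lit 18) .z) .df (.nd (.nd (.nd (.nd .leaf (nat_lit 153600) (nat_lit 367) (.p (nat_lit 189)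 (nat_lit 27) (.n (nat_lit 190) (nat_lit 27) (.p (nat_lit 191) (nat_lit 27) (.p (nat_lit 192) (nat_lit 6) (.n (nat_lit 193) (nat_lit 66) (.p (nat_lit 194) (nat_lit 21) (.n (nat_lit 195) (nat_lit 30) (.n (nat_lit 196) (nat_lit 21) (.n (nat_lit 197) (nat_lit 12) (.n (nat_lit 198) (nat_lit 18) (.p (nat_lit 199) (nat_lit 69) (.n (nat_lit 200) (nat_lit 18) (.p (nat_lit 201) (nat_lit 60) (.p (nat_lit 202) (nat_lit 63) (.n (nat_lit 203) (nat_lit 12) (.p (nat_lit 204) (nat_lit 3) (.n (nat_lit 205) (nat_lit 9) (.n (nat_lit 206) (nat_lit 81) (.p (nat_lit 207) (nat_lit 45) (.n (nat_lit 208) (nat_lit 69) (.p (nat_lit 210) (nat_lit 39) (.p (nat_lit 211) (nat_lit 78) (.n (nat_lit 212) (nat_lit 93) (.n (nat_lit 213) (nat_lit 30) (.p (nat_lit 214) (nat_lit 21) (.n (nat_lit 215) (nat_lit 132) (.p (nat_lit 216) (nat_lit 72) (.n (nat_lit 218) (nat_lit 36) (.p (nat_lit 219) (nat_lit 45) (.n (nat_lit 220) (nat_lit 72) (.p (nat_lit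 221) (nat_lit 27) (.p (nat_lit 222) (nat_lit 72) (.n (nat_lit 223) (nat_lit 27) (.n (nat_lit 224) (nat_lit 27) (.n (nat_lit 225) (nat_lit 9) (.p (nat_lit 226) (nat_lit 9) (.p (nat_lit 227) (nat_lit 18) (.n (nat_lit 228) (nat_lit 9) (.p (nat_lit 229) (nat_lit 54) (.p (nat_lit 231) (nat_lit 18) (.n (nat_lit 232) (nat_lit 9) (.n (nat_lit 235) (nat_lit 27) (.n (nat_lit 236) (nat_lit 18) (.n (nat_lit 237) (nat_lit 18) (.p (nat_lit 238) (nat_lit 18) (.p (nat_lit 239) (nat_lit 54) (.n (nat_lit 240) (nat_lit 18) .z))))))))))))))))))))))))))))))))))))))))))))))) (.ct dr2_c4626 (nat_lit 18) (nat_lit 15) (.s true (nat_lit 1) (nat_lit 30) (nat_lit 1) (nat_lit 1) (nat_lit 0) true (nat_lit 11) true (nat_lit 15) false (nat_lit 4) true (nat_lit 14) true (nat_lit 14) (.e false (nat_lit 18) (nat_lit 75) (nat_lit 4) (nat_lit 11) (.e false (nat_lit 24) (nat_lit 115) (nat_lit 1) (nat_lit 14) (.e false (nat_lit 6) (nat_lit 116)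 (nat_lit 1) (nat_lit 14) (.e true (nat_lit 6) (nat_lit 117) (nat_lit 1) (nat_lit 14) (.e false (nat_lit 6) (nat_lit 118) (nat_lit 1) (nat_lit 14) (.e true (nat_lit 12) (nat_lit 119) (nat_lit 1) (nat_lit 14) (.e false (nat_lit 6) (nat_lit 120) (nat_lit 1) (nat_lit 14) (.e false (nat_lit 6) (nat_lit 122) (nat_lit 1) (nat_lit 14) (.e false (nat_lit 6) (nat_lit 124) (nat_lit 1) (nat_lit 14) (.e true (nat_lit 12) (nat_lit 126) (nat_lit 1) (nat_lit 14) (.e false (nat_lit 12) (nat_lit 127) (nat_lit 1) (nat_lit 14) (.e true (nat_lit 18) (nat_lit 128) (nat_lit 1) (nat_lit 14) (.e false (nat_lit 18) (nat_lit 130) (nat_lit 1) (nat_lit 14) (.e true (nat_lit 6) (nat_lit 131) (nat_lit 1) (nat_lit 14) (.e true (nat_lit 6) (nat_lit 133) (nat_lit 1) (nat_lit 14) (.e false (nat_lit 6) (nat_lit 134) (nat_lit 1) (nat_lit 14) (.e false (nat_lit 24) (nat_lit 135) (nat_lit 1) (nat_lit 14) (.e false (nat_lit 6) (nat_lit 136) (nat_lit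 1) (nat_lit 14) (.e true (nat_lit 6) (nat_lit 138) (nat_lit 1) (nat_lit 14) (.e true (nat_lit 6) (nat_lit 139) (nat_lit 1) (nat_lit 14) .nil)))))))))))))))))))))) .leaf) (nat_lit 153603) (nat_lit 581) (.p (nat_lit 317) (nat_lit 18) .z) .df .leaf) (nat_lit 154625) (nat_lit 420) (.p (nat_lit 248) (nat_lit 18) .z) .df (.nd .leaf (nat_lit 154626) (nat_lit 487) (.p (nat_lit 286) (nat_lit 18) .z) .df .leaf)) (nat_lit 155649) (nat_lit 421) (.p (nat_lit 249) (nat_lit 18) .z) .df (.nd (.nd (.nd .leaf (nat_lit 155650) (nat_lit 488) (.p (nat_lit 287) (nat_lit 18) .z) .df .leaf) (nat_lit 156673) (nat_lit 422) (.p (nat_lit 250) (nat_lit 18) .z) .df .leaf) (nat_lit 156674) (nat_lit 489) (.p (nat_lit 288) (nat_lit 18) .z) .df (.nd .leaf (nat_lit 157697) (nat_lit 423) (.p (nat_lit 251) (nat_lit 18) .z) .df .leaf)))) (nat_lit 157698) (nat_lit 514) (.p (nat_lit 262) (nat_lit 20) (.p (nat_lit 263) (nat_lit 68) (.p (nat_lit 264)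 (nat_lit 4) (.n (nat_lit 265) (nat_lit 4) (.p (nat_lit 266) (nat_lit 8) (.p (nat_lit 267) (nat_lit 32) (.n (nat_lit 268) (nat_lit 24) (.n (nat_lit 269) (nat_lit 52) (.p (nat_lit 270) (nat_lit 12) (.n (nat_lit 271) (nat_lit 16) (.n (nat_lit 272) (nat_lit 6) (.n (nat_lit 273) (nat_lit 4) (.n (nat_lit 274) (nat_lit 32) (.p (nat_lit 275) (nat_lit 6) (.p (nat_lit 276) (nat_lit 36) (.n (nat_lit 277) (nat_lit 30) (.p (nat_lit 278) (nat_lit 22) (.n (nat_lit 280) (nat_lit 50) (.n (nat_lit 281) (nat_lit 28) (.p (nat_lit 282) (nat_lit 74) (.p (nat_lit 283) (nat_lit 20) (.n (nat_lit 284) (nat_lit 8) (.p (nat_lit 285) (nat_lit 28) (.p (nat_lit 286) (nat_lit 18) (.n (nat_lit 287) (nat_lit 36) (.p (nat_lit 288) (nat_lit 36) (.n (nat_lit 289) (nat_lit 36) (.p (nat_lit 290) (nat_lit 42) (.p (nat_lit 291) (nat_lit 12) (.p (nat_lit 292) (nat_lit 42) (.p (nat_lit 293) (nat_lit 36) (.p (nat_lit 294) (nat_lit 12) (.n (nat_lit 295)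 (nat_lit 12) (.p (nat_lit 296) (nat_lit 18) (.p (nat_lit 297) (nat_lit 36) (.p (nat_lit 298) (nat_lit 30) (.p (nat_lit 299) (nat_lit 18) (.n (nat_lit 300) (nat_lit 12) (.n (nat_lit 301) (nat_lit 6) (.p (nat_lit 302) (nat_lit 12) (.n (nat_lit 303) (nat_lit 24) (.n (nat_lit 304) (nat_lit 36) (.n (nat_lit 305) (nat_lit 36) (.p (nat_lit 306) (nat_lit 60) (.p (nat_lit 307) (nat_lit 12) (.n (nat_lit 308) (nat_lit 48) .z)))))))))))))))))))))))))))))))))))))))))))))) (.ct dr2_c4371 (nat_lit 18) (nat_lit 12) (.s true (nat_lit 1) (nat_lit 9) (nat_lit 3) (nat_lit 3) (nat_lit 4) true (nat_lit 2) true (nat_lit 10) true (nat_lit 5) true (nat_lit 11) true (nat_lit 11) (.s false (nat_lit 1) (nat_lit 16) (nat_lit 2) (nat_lit 3) (nat_lit 3) true (nat_lit 5) true (nat_lit 11) true (nat_lit 2) true (nat_lit 12) true (nat_lit 11) (.s true (nat_lit 1) (nat_lit 18) (nat_lit 2) (nat_lit 3) (nat_lit 3) true (nat_lit 5) true (nat_lit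 11) true (nat_lit 2) true (nat_lit 12) true (nat_lit 11) (.s true (nat_lit 1) (nat_lit 30) (nat_lit 1) (nat_lit 3) (nat_lit 0) true (nat_lit 10) true (nat_lit 14) false (nat_lit 2) true (nat_lit 13) true (nat_lit 11) (.e false (nat_lit 18) (nat_lit 56) (nat_lit 9) (nat_lit 5) (.e true (nat_lit 36) (nat_lit 57) (nat_lit 9) (nat_lit 5) (.e false (nat_lit 18) (nat_lit 58) (nat_lit 9) (nat_lit 5) (.e true (nat_lit 18) (nat_lit 60) (nat_lit 9) (nat_lit 5) (.e false (nat_lit 6) (nat_lit 115) (nat_lit 3) (nat_lit 11) (.e false (nat_lit 24) (nat_lit 116) (nat_lit 3) (nat_lit 11) (.e true (nat_lit 6) (nat_lit 117) (nat_lit 3) (nat_lit 11) (.e false (nat_lit 6) (nat_lit 118) (nat_lit 3) (nat_lit 11) (.e true (nat_lit 12) (nat_lit 119) (nat_lit 3) (nat_lit 11) (.e false (nat_lit 6) (nat_lit 120) (nat_lit 3) (nat_lit 11) (.e true (nat_lit 12) (nat_lit 122) (nat_lit 3) (nat_lit 11) dr2_i47)))))))))))))))) (.nd (.nd (.nd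 (.nd (.nd .leaf (nat_lit 158721) (nat_lit 443) (.n (nat_lit 242) (nat_lit 18) (.p (nat_lit 248) (nat_lit 18) (.p (nat_lit 249) (nat_lit 18) (.p (nat_lit 251) (nat_lit 18) (.p (nat_lit 252) (nat_lit 18) (.n (nat_lit 261) (nat_lit 18) .z)))))) (.ct dr2_c4611 (nat_lit 18) (nat_lit 8) (.s false (nat_lit 1) (nat_lit 8) (nat_lit 1) (nat_lit 7) (nat_lit 3) true (nat_lit 4) true (nat_lit 7) true (nat_lit 4) true (nat_lit 8) true (nat_lit 5) (.s true (nat_lit 1) (nat_lit 8) (nat_lit 3) (nat_lit 1) (nat_lit 7) false (nat_lit 0) true (nat_lit 5) true (nat_lit 4) true (nat_lit 7) true (nat_lit 8) (.s false (nat_lit 1) (nat_lit 26) (nat_lit 1) (nat_lit 3) (nat_lit 1) false (nat_lit 10) true (nat_lit 8) false (nat_lit 0) true (nat_lit 8) true (nat_lit 7) (.e true (nat_lit 18) (nat_lit 56) (nat_lit 8) (nat_lit 4) (.e true (nat_lit 18) (nat_lit 108) (nat_lit 3) (nat_lit 7) (.e false (nat_lit 18) (nat_lit 151) (nat_lit 1)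 (nat_lit 8) (.e false (nat_lit 18) (nat_lit 152) (nat_lit 1) (nat_lit 8) (.e false (nat_lit 18) (nat_lit 156) (nat_lit 1) (nat_lit 8) (.e false (nat_lit 18) (nat_lit 154) (nat_lit 1) (nat_lit 8) .nil)))))))))) .leaf) (nat_lit 158722) (nat_lit 490) (.p (nat_lit 289) (nat_lit 18) .z) .df .leaf) (nat_lit 159745) (nat_lit 424) (.p (nat_lit 252) (nat_lit 18) .z) .df (.nd .leaf (nat_lit 159746) (nat_lit 491) (.p (nat_lit 290) (nat_lit 18) .z) .df .leaf)) (nat_lit 160769) (nat_lit 425) (.p (nat_lit 253) (nat_lit 18) .z) .df (.nd (.nd (.nd .leaf (nat_lit 160770) (nat_lit 492) (.p (nat_lit 291) (nat_lit 18) .z) .df .leaf) (nat_lit 161793) (nat_lit 426) (.p (nat_lit 254) (nat_lit 18) .z) .df .leaf) (nat_lit 161794) (nat_lit 493) (.p (nat_lit 292) (nat_lit 18) .z) .df (.nd .leaf (nat_lit 162817) (nat_lit 427) (.p (nat_lit 255) (nat_lit 18) .z) .df .leaf))) (nat_lit 162818) (nat_lit 494) (.p (nat_lit 293) (nat_lit 18)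 .z) .df (.nd (.nd (.nd (.nd .leaf (nat_lit 163841) (nat_lit 428) (.p (nat_lit 256) (nat_lit 18) .z) .df .leaf) (nat_lit 163842) (nat_lit 495) (.p (nat_lit 294) (nat_lit 18) .z) .df .leaf) (nat_lit 164865) (nat_lit 429) (.p (nat_lit 257) (nat_lit 18) .z) .df (.nd .leaf (nat_lit 164866) (nat_lit 496) (.p (nat_lit 295) (nat_lit 18) .z) .df .leaf)) (nat_lit 165888) (nat_lit 442) (.p (nat_lit 241) (nat_lit 27) (.p (nat_lit 242) (nat_lit 54) (.n (nat_lit 243) (nat_lit 27) (.n (nat_lit 244) (nat_lit 18) (.n (nat_lit 245) (nat_lit 18) (.p (nat_lit 246) (nat_lit 18) (.p (nat_lit 247) (nat_lit 9) (.n (nat_lit 249) (nat_lit 18) (.n (nat_lit 250) (nat_lit 9) (.n (nat_lit 251) (nat_lit 27) (.p (nat_lit 252) (nat_lit 27) (.p (nat_lit 253) (nat_lit 9) (.p (nat_lit 254) (nat_lit 9) (.p (nat_lit 256) (nat_lit 9) (.n (nat_lit 257) (nat_lit 36) (.p (nat_lit 258) (nat_lit 36) (.n (nat_lit 259) (nat_lit 9) (.p (nat_lit 260) (nat_lit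 18) (.p (nat_lit 261) (nat_lit 27) .z))))))))))))))))))) (.ct dr2_c4611 (nat_lit 18) (nat_lit 9) (.s true (nat_lit 1) (nat_lit 8) (nat_lit 0) (nat_lit 3) (nat_lit 8) true (nat_lit 1) true (nat_lit 4) true (nat_lit 4) true (nat_lit 9) true (nat_lit 7) (.s true (nat_lit 1) (nat_lit 8) (nat_lit 1) (nat_lit 7) (nat_lit 3) true (nat_lit 4) true (nat_lit 7) true (nat_lit 4) true (nat_lit 8) true (nat_lit 5) (.s true (nat_lit 1) (nat_lit 8) (nat_lit 4) (nat_lit 3) (nat_lit 3) true (nat_lit 1) true (nat_lit 7) true (nat_lit 4) true (nat_lit 6) true (nat_lit 7) (.s false (nat_lit 1) (nat_lit 16) (nat_lit 1) (nat_lit 3) (nat_lit 3) true (nat_lit 4) true (nat_lit 7) true (nat_lit 1) true (nat_lit 8) true (nat_lit 7) (.s true (nat_lit 1) (nat_lit 28) (nat_lit 3) (nat_lit 1) (nat_lit 0) true (nat_lit 5) true (nat_lit 9) false (nat_lit 1) true (nat_lit 7) true (nat_lit 8) (.s false (nat_lit 1) (nat_lit 32) (nat_lit 1) (nat_lit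 1) (nat_lit 0) true (nat_lit 6) true (nat_lit 9) false (nat_lit 2) true (nat_lit 8) true (nat_lit 8) (.e true (nat_lit 18) (nat_lit 57) (nat_lit 8) (nat_lit 4) (.e false (nat_lit 18) (nat_lit 56) (nat_lit 8) (nat_lit 4) (.e false (nat_lit 36) (nat_lit 166) (nat_lit 0) (nat_lit 9) (.e true (nat_lit 18) (nat_lit 104) (nat_lit 3) (nat_lit 7) (.e false (nat_lit 18) (nat_lit 107) (nat_lit 3) (nat_lit 7) (.e false (nat_lit 18) (nat_lit 108) (nat_lit 3) (nat_lit 7) (.e true (nat_lit 18) (nat_lit 109) (nat_lit 3) (nat_lit 7) (.e true (nat_lit 18) (nat_lit 112) (nat_lit 3) (nat_lit 7) (.e false (nat_lit 18) (nat_lit 105) (nat_lit 3) (nat_lit 7) (.e true (nat_lit 18) (nat_lit 161) (nat_lit 1) (nat_lit 8) (.e false (nat_lit 18) (nat_lit 80) (nat_lit 4) (nat_lit 6) (.e false (nat_lit 36) (nat_lit 156) (nat_lit 1) (nat_lit 8) (.e true (nat_lit 18) (nat_lit 152) (nat_lit 1) (nat_lit 8) (.e false (nat_lit 18) (nat_lit 153)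 (nat_lit 1) (nat_lit 8) (.e true (nat_lit 18) (nat_lit 154) (nat_lit 1) (nat_lit 8) (.e true (nat_lit 18) (nat_lit 158) (nat_lit 1) (nat_lit 8) .nil))))))))))))))))))))))) (.nd (.nd .leaf (nat_lit 165890) (nat_lit 582) (.p (nat_lit 318) (nat_lit 18) .z) .df .leaf) (nat_lit 166912) (nat_lit 444) (.n (nat_lit 241) (nat_lit 18) (.p (nat_lit 242) (nat_lit 36) (.p (nat_lit 244) (nat_lit 18) (.n (nat_lit 246) (nat_lit 18) (.p (nat_lit 247) (nat_lit 18) (.n (nat_lit 248) (nat_lit 18) (.p (nat_lit 249) (nat_lit 18) (.p (nat_lit 250) (nat_lit 18) (.n (nat_lit 253) (nat_lit 18) (.p (nat_lit 256) (nat_lit 18) (.p (nat_lit 258) (nat_lit 18) (.n (nat_lit 259) (nat_lit 18) (.p (nat_lit 261) (nat_lit 36) .z))))))))))))) (.ct dr2_c4611 (nat_lit 18) (nat_lit 9) (.s true (nat_lit 1) (nat_lit 10) (nat_lit 7) (nat_lit 1) (nat_lit 1) true (nat_lit 1) true (nat_lit 8) true (nat_lit 3) true (nat_lit 5) true (nat_lit 8) (.s true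 (nat_lit 1) (nat_lit 29) (nat_lit 0) (nat_lit 3) (nat_lit 1) true (nat_lit 6) true (nat_lit 8) false (nat_lit 1) true (nat_lit 9) true (nat_lit 7) (.e false (nat_lit 18) (nat_lit 158) (nat_lit 1) (nat_lit 8) (.e true (nat_lit 18) (nat_lit 39) (nat_lit 10) (nat_lit 3) (.e false (nat_lit 36) (nat_lit 152) (nat_lit 1) (nat_lit 8) (.e true (nat_lit 36) (nat_lit 155) (nat_lit 1) (nat_lit 8) (.e false (nat_lit 36) (nat_lit 156) (nat_lit 1) (nat_lit 8) (.e false (nat_lit 18) (nat_lit 160) (nat_lit 1) (nat_lit 8) (.e true (nat_lit 18) (nat_lit 80) (nat_lit 4) (nat_lit 6) (.e false (nat_lit 36) (nat_lit 151) (nat_lit 1) (nat_lit 8) (.e false (nat_lit 18) (nat_lit 165) (nat_lit 0) (nat_lit 9) (.e false (nat_lit 36) (nat_lit 166) (nat_lit 0) (nat_lit 9) (.e false (nat_lit 18) (nat_lit 114) (nat_lit 3) (nat_lit 7) .nil)))))))))))))) (.nd .leaf (nat_lit 166914) (nat_lit 583) (.p (nat_lit 319) (nat_lit 18) .z) .df .leaf)))))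 (nat_lit 167936) (nat_lit 458) (.p (nat_lit 241) (nat_lit 9) (.p (nat_lit 242) (nat_lit 117) (.n (nat_lit 243) (nat_lit 36) (.n (nat_lit 244) (nat_lit 27) (.n (nat_lit 245) (nat_lit 9) (.p (nat_lit 246) (nat_lit 27) (.p (nat_lit 247) (nat_lit 9) (.p (nat_lit 248) (nat_lit 18) (.p (nat_lit 249) (nat_lit 117) (.n (nat_lit 250) (nat_lit 54) (.p (nat_lit 251) (nat_lit 36) (.p (nat_lit 252) (nat_lit 36) (.n (nat_lit 253) (nat_lit 36) (.n (nat_lit 254) (nat_lit 36) (.n (nat_lit 255) (nat_lit 63) (.n (nat_lit 256) (nat_lit 81) (.n (nat_lit 257) (nat_lit 72) (.n (nat_lit 259) (nat_lit 9) (.p (nat_lit 260) (nat_lit 9) (.p (nat_lit 261) (nat_lit 81) .z)))))))))))))))))))) (.ct dr2_c4611 (nat_lit 18) (nat_lit 9) (.s true (nat_lit 1) (nat_lit 28) (nat_lit 3) (nat_lit 1) (nat_lit 0) true (nat_lit 5) true (nat_lit 9) false (nat_lit 1) true (nat_lit 7) true (nat_lit 8) (.e false (nat_lit 18) (nat_lit 62) (nat_lit 7) (nat_lit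 5) (.e false (nat_lit 18) (nat_lit 28) (nat_lit 18) (nat_lit 1) (.e false (nat_lit 18) (nat_lit 104) (nat_lit 3) (nat_lit 7) (.e true (nat_lit 18) (nat_lit 110) (nat_lit 3) (nat_lit 7) (.e false (nat_lit 18) (nat_lit 112) (nat_lit 3) (nat_lit 7) (.e false (nat_lit 18) (nat_lit 156) (nat_lit 1) (nat_lit 8) .nil)))))))) (.nd (.nd (.nd (.nd (.nd (.nd .leaf (nat_lit 167938) (nat_lit 614) (.p (nat_lit 309) (nat_lit 342) (.n (nat_lit 310) (nat_lit 108) (.n (nat_lit 311) (nat_lit 117) (.n (nat_lit 312) (nat_lit 666) (.n (nat_lit 313) (nat_lit 360) (.p (nat_lit 314) (nat_lit 144) (.p (nat_lit 315) (nat_lit 360) (.p (nat_lit 316) (nat_lit 333) (.n (nat_lit 317) (nat_lit 810) (.n (nat_lit 318) (nat_lit 108) (.p (nat_lit 319) (nat_lit 9) (.p (nat_lit 320) (nat_lit 225) (.p (nat_lit 321) (nat_lit 306) (.n (nat_lit 322) (nat_lit 72) (.p (nat_lit 323) (nat_lit 108) (.n (nat_lit 324) (nat_lit 234) (.p (nat_lit 325) (nat_lit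 252) (.n (nat_lit 326) (nat_lit 63) (.n (nat_lit 327) (nat_lit 180) (.n (nat_lit 328) (nat_lit 81) (.n (nat_lit 329) (nat_lit 180) .z))))))))))))))))))))) (.ct dr2_c531 (nat_lit 18) (nat_lit 8) (.s true (nat_lit 1) (nat_lit 28) (nat_lit 3) (nat_lit 1) (nat_lit 2) true (nat_lit 4) true (nat_lit 8) false (nat_lit 0) true (nat_lit 7) true (nat_lit 9) (.e false (nat_lit 18) (nat_lit 62) (nat_lit 9) (nat_lit 4) (.e false (nat_lit 18) (nat_lit 28) (nat_lit 24) (nat_lit 0) (.e true (nat_lit 18) (nat_lit 140) (nat_lit 3) (nat_lit 7) (.e false (nat_lit 36) (nat_lit 141) (nat_lit 3) (nat_lit 7) (.e false (nat_lit 18) (nat_lit 142) (nat_lit 3) (nat_lit 7) (.e false (nat_lit 18) (nat_lit 144) (nat_lit 3) (nat_lit 7) (.e false (nat_lit 18) (nat_lit 145) (nat_lit 3) (nat_lit 7) (.e true (nat_lit 18) (nat_lit 146) (nat_lit 3) (nat_lit 7) (.e false (nat_lit 18) (nat_lit 147) (nat_lit 3) (nat_lit 7) (.e true (nat_lit 18) (nat_lit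 148) (nat_lit 3) (nat_lit 7) (.e true (nat_lit 18) (nat_lit 149) (nat_lit 3) (nat_lit 7) (.e false (nat_lit 18) (nat_lit 150) (nat_lit 3) (nat_lit 7) (.e false (nat_lit 18) (nat_lit 181) (nat_lit 1) (nat_lit 9) .nil))))))))))))))) .leaf) (nat_lit 168960) (nat_lit 437) (.p (nat_lit 241) (nat_lit 18) (.p (nat_lit 242) (nat_lit 18) (.n (nat_lit 243) (nat_lit 18) (.n (nat_lit 245) (nat_lit 18) (.p (nat_lit 247) (nat_lit 18) (.n (nat_lit 248) (nat_lit 18) (.n (nat_lit 249) (nat_lit 54) (.p (nat_lit 250) (nat_lit 18) (.n (nat_lit 251) (nat_lit 36) (.p (nat_lit 253) (nat_lit 18) (.p (nat_lit 254) (nat_lit 18) (.p (nat_lit 255) (nat_lit 36) (.p (nat_lit 256) (nat_lit 54) (.p (nat_lit 258) (nat_lit 18) (.n (nat_lit 259) (nat_lit 18) (.p (nat_lit 260) (nat_lit 18) .z)))))))))))))))) (.ct dr2_c4611 (nat_lit 18) (nat_lit 9) (.s true (nat_lit 1) (nat_lit 8) (nat_lit 1) (nat_lit 3) (nat_lit 7) true (nat_lit 1) true (nat_lit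 5) true (nat_lit 4) true (nat_lit 8) true (nat_lit 7) (.s true (nat_lit 1) (nat_lit 8) (nat_lit 1) (nat_lit 7) (nat_lit 3) true (nat_lit 4) true (nat_lit 7) true (nat_lit 4) true (nat_lit 8) true (nat_lit 5) (.s false (nat_lit 1) (nat_lit 8) (nat_lit 7) (nat_lit 1) (nat_lit 3) false (nat_lit 0) true (nat_lit 7) true (nat_lit 4) true (nat_lit 5) true (nat_lit 8) (.s true (nat_lit 1) (nat_lit 18) (nat_lit 1) (nat_lit 3) (nat_lit 3) true (nat_lit 4) true (nat_lit 7) true (nat_lit 1) true (nat_lit 8) true (nat_lit 7) (.s false (nat_lit 1) (nat_lit 17) (nat_lit 3) (nat_lit 1) (nat_lit 3) true (nat_lit 3) true (nat_lit 7) true (nat_lit 1) true (nat_lit 7) true (nat_lit 8) (.s true (nat_lit 1) (nat_lit 18) (nat_lit 3) (nat_lit 1) (nat_lit 3) true (nat_lit 3) true (nat_lit 7) true (nat_lit 1) true (nat_lit 7) true (nat_lit 8) (.s true (nat_lit 1) (nat_lit 18) (nat_lit 3) (nat_lit 3) (nat_lit 1) true (nat_lit 4) true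 (nat_lit 8) true (nat_lit 1) true (nat_lit 7) true (nat_lit 7) (.s true (nat_lit 1) (nat_lit 26) (nat_lit 1) (nat_lit 3) (nat_lit 1) false (nat_lit 10) true (nat_lit 8) false (nat_lit 0) true (nat_lit 8) true (nat_lit 7) (.s true (nat_lit 1) (nat_lit 29) (nat_lit 3) (nat_lit 1) (nat_lit 0) true (nat_lit 5) true (nat_lit 9) false (nat_lit 1) true (nat_lit 7) true (nat_lit 8) (.e false (nat_lit 36) (nat_lit 56) (nat_lit 8) (nat_lit 4) (.e false (nat_lit 54) (nat_lit 108) (nat_lit 3) (nat_lit 7) (.e true (nat_lit 18) (nat_lit 111) (nat_lit 3) (nat_lit 7) (.e true (nat_lit 18) (nat_lit 112) (nat_lit 3) (nat_lit 7) (.e true (nat_lit 36) (nat_lit 57) (nat_lit 8) (nat_lit 4) (.e false (nat_lit 18) (nat_lit 159) (nat_lit 1) (nat_lit 8) (.e false (nat_lit 18) (nat_lit 160) (nat_lit 1) (nat_lit 8) (.e true (nat_lit 54) (nat_lit 109) (nat_lit 3) (nat_lit 7) (.e true (nat_lit 18) (nat_lit 39) (nat_lit 10) (nat_lit 3)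 (.e false (nat_lit 18) (nat_lit 110) (nat_lit 3) (nat_lit 7) (.e false (nat_lit 18) (nat_lit 40) (nat_lit 10) (nat_lit 3) (.e false (nat_lit 18) (nat_lit 114) (nat_lit 3) (nat_lit 7) (.e true (nat_lit 36) (nat_lit 151) (nat_lit 1) (nat_lit 8) .nil))))))))))))))))))))))) .leaf) (nat_lit 168962) (nat_lit 584) (.p (nat_lit 320) (nat_lit 18) .z) .df (.nd .leaf (nat_lit 169984) (nat_lit 430) (.p (nat_lit 258) (nat_lit 18) .z) .df .leaf)) (nat_lit 169986) (nat_lit 585) (.p (nat_lit 321) (nat_lit 18) .z) .df (.nd (.nd (.nd .leaf (nat_lit 171009) (nat_lit 497) (.p (nat_lit 296) (nat_lit 18) .z) .df .leaf) (nat_lit 172033) (nat_lit 498) (.p (nat_lit 297) (nat_lit 18) .z) .df .leaf) (nat_lit 173057) (nat_lit 516) (.n (nat_lit 262) (nat_lit 176) (.n (nat_lit 263) (nat_lit 368) (.n (nat_lit 264) (nat_lit 118) (.n (nat_lit 265) (nat_lit 62) (.p (nat_lit 266) (nat_lit 16) (.n (nat_lit 267) (nat_lit 296) (.p (nat_lit 268)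 (nat_lit 240) (.p (nat_lit 269) (nat_lit 274) (.p (nat_lit 270) (nat_lit 6) (.p (nat_lit 271) (nat_lit 112) (.n (nat_lit 272) (nat_lit 84) (.p (nat_lit 273) (nat_lit 136) (.p (nat_lit 274) (nat_lit 170) (.p (nat_lit 275) (nat_lit 48) (.n (nat_lit 276) (nat_lit 36) (.p (nat_lit 277) (nat_lit 30) (.p (nat_lit 278) (nat_lit 80) (.p (nat_lit 280) (nat_lit 152) (.n (nat_lit 281) (nat_lit 2) (.n (nat_lit 282) (nat_lit 230) (.n (nat_lit 283) (nat_lit 104) (.p (nat_lit 284) (nat_lit 38) (.p (nat_lit 285) (nat_lit 146) (.n (nat_lit 286) (nat_lit 126) (.p (nat_lit 287) (nat_lit 108) (.n (nat_lit 288) (nat_lit 180) (.p (nat_lit 289) (nat_lit 252) (.n (nat_lit 290) (nat_lit 276) (.n (nat_lit 291) (nat_lit 30) (.n (nat_lit 292) (nat_lit 186) (.n (nat_lit 293) (nat_lit 234) (.n (nat_lit 294) (nat_lit 102) (.n (nat_lit 295) (nat_lit 6) (.n (nat_lit 296) (nat_lit 72) (.n (nat_lit 297) (nat_lit 216) (.n (nat_lit 298) (nat_lit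 210) (.n (nat_lit 299) (nat_lit 54) (.p (nat_lit 300) (nat_lit 48) (.p (nat_lit 301) (nat_lit 24) (.n (nat_lit 302) (nat_lit 30) (.p (nat_lit 303) (nat_lit 168) (.p (nat_lit 304) (nat_lit 234) (.p (nat_lit 305) (nat_lit 234) (.n (nat_lit 306) (nat_lit 294) (.p (nat_lit 307) (nat_lit 6) (.p (nat_lit 308) (nat_lit 300) .z)))))))))))))))))))))))))))))))))))))))))))))) (.ct dr2_c4371 (nat_lit 18) (nat_lit 13) (.s true (nat_lit 4) (nat_lit 8) (nat_lit 2) (nat_lit 3) (nat_lit 7) true (nat_lit 1) true (nat_lit 7) true (nat_lit 6) true (nat_lit 12) true (nat_lit 11) (.s true (nat_lit 1) (nat_lit 8) (nat_lit 2) (nat_lit 7) (nat_lit 3) true (nat_lit 5) true (nat_lit 11) true (nat_lit 6) true (nat_lit 12) true (nat_lit 7) (.s false (nat_lit 3) (nat_lit 8) (nat_lit 3) (nat_lit 2) (nat_lit 7) false (nat_lit 0) true (nat_lit 7) true (nat_lit 6) true (nat_lit 11) true (nat_lit 12) (.s false (nat_lit 2) (nat_lit 8) (nat_lit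 7) (nat_lit 2) (nat_lit 3) false (nat_lit 0) true (nat_lit 11) true (nat_lit 6) true (nat_lit 7) true (nat_lit 12) (.s false (nat_lit 2) (nat_lit 9) (nat_lit 0) (nat_lit 3) (nat_lit 8) true (nat_lit 2) true (nat_lit 6) true (nat_lit 5) true (nat_lit 14) true (nat_lit 11) (.s true (nat_lit 1) (nat_lit 9) (nat_lit 0) (nat_lit 8) (nat_lit 3) true (nat_lit 7) true (nat_lit 11) true (nat_lit 5) true (nat_lit 14) true (nat_lit 6) (.s true (nat_lit 1) (nat_lit 9) (nat_lit 1) (nat_lit 3) (nat_lit 7) true (nat_lit 2) true (nat_lit 7) true (nat_lit 5) true (nat_lit 13) true (nat_lit 11) (.s true (nat_lit 4) (nat_lit 9) (nat_lit 1) (nat_lit 7) (nat_lit 3) true (nat_lit 6) true (nat_lit 11) true (nat_lit 5) true (nat_lit 13) true (nat_lit 7) (.s false (nat_lit 2) (nat_lit 9) (nat_lit 3) (nat_lit 0) (nat_lit 8) false (nat_lit 1) true (nat_lit 6) true (nat_lit 5) true (nat_lit 11) true (nat_lit 14) dr2_i52)))))))))) (.nd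 .leaf (nat_lit 174081) (nat_lit 499) (.p (nat_lit 298) (nat_lit 18) .z) .df .leaf))) (nat_lit 175105) (nat_lit 532) (.p (nat_lit 262) (nat_lit 88) (.p (nat_lit 263) (nat_lit 40) (.p (nat_lit 264) (nat_lit 68) (.p (nat_lit 265) (nat_lit 76) (.n (nat_lit 266) (nat_lit 80) (.p (nat_lit 267) (nat_lit 112) (.n (nat_lit 268) (nat_lit 84) (.p (nat_lit 269) (nat_lit 16) (.n (nat_lit 270) (nat_lit 48) (.p (nat_lit 271) (nat_lit 16) (.p (nat_lit 272) (nat_lit 168) (.n (nat_lit 273) (nat_lit 32) (.p (nat_lit 274) (nat_lit 32) (.n (nat_lit 275) (nat_lit 96) (.n (nat_lit 276) (nat_lit 126) (.p (nat_lit 277) (nat_lit 156) (.n (nat_lit 278) (nat_lit 184) (.p (nat_lit 280) (nat_lit 32) (.p (nat_lit 281) (nat_lit 154) (.n (nat_lit 282) (nat_lit 92) (.p (nat_lit 283) (nat_lit 16) (.n (nat_lit 284) (nat_lit 28) (.n (nat_lit 285) (nat_lit 280) (.n (nat_lit 286) (nat_lit 36) (.n (nat_lit 287) (nat_lit 72) (.p (nat_lit 288) (nat_lit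 36) (.p (nat_lit 289) (nat_lit 18) (.n (nat_lit 290) (nat_lit 24) (.n (nat_lit 291) (nat_lit 30) (.p (nat_lit 292) (nat_lit 12) (.p (nat_lit 293) (nat_lit 36) (.p (nat_lit 294) (nat_lit 24) (.p (nat_lit 295) (nat_lit 48) (.p (nat_lit 296) (nat_lit 36) (.p (nat_lit 297) (nat_lit 36) (.n (nat_lit 298) (nat_lit 12) (.p (nat_lit 299) (nat_lit 36) (.p (nat_lit 300) (nat_lit 30) (.p (nat_lit 301) (nat_lit 24) (.n (nat_lit 302) (nat_lit 48) (.n (nat_lit 303) (nat_lit 48) (.n (nat_lit 304) (nat_lit 36) (.n (nat_lit 305) (nat_lit 36) (.p (nat_lit 306) (nat_lit 48) (.p (nat_lit 307) (nat_lit 24) (.n (nat_lit 308) (nat_lit 24) .z)))))))))))))))))))))))))))))))))))))))))))))) (.ct dr2_c4371 (nat_lit 18) (nat_lit 13) (.s false (nat_lit 1) (nat_lit 7) (nat_lit 6) (nat_lit 3) (nat_lit 3) true (nat_lit 0) true (nat_lit 11) true (nat_lit 7) true (nat_lit 8) true (nat_lit 11) (.s false (nat_lit 1) (nat_lit 8) (nat_lit 2) (nat_lit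 3) (nat_lit 7) true (nat_lit 1) true (nat_lit 7) true (nat_lit 6) true (nat_lit 12) true (nat_lit 11) (.s true (nat_lit 1) (nat_lit 8) (nat_lit 7) (nat_lit 2) (nat_lit 3) false (nat_lit 0) true (nat_lit 11) true (nat_lit 6) true (nat_lit 7) true (nat_lit 12) (.s false (nat_lit 1) (nat_lit 9) (nat_lit 1) (nat_lit 7) (nat_lit 3) true (nat_lit 6) true (nat_lit 11) true (nat_lit 5) true (nat_lit 13) true (nat_lit 7) (.s false (nat_lit 1) (nat_lit 10) (nat_lit 2) (nat_lit 7) (nat_lit 1) true (nat_lit 8) true (nat_lit 13) true (nat_lit 4) true (nat_lit 12) true (nat_lit 7) (.s true (nat_lit 1) (nat_lit 21) (nat_lit 3) (nat_lit 1) (nat_lit 3) true (nat_lit 4) true (nat_lit 11) true (nat_lit 1) true (nat_lit 11) true (nat_lit 13) (.s true (nat_lit 1) (nat_lit 26) (nat_lit 2) (nat_lit 1) (nat_lit 3) true (nat_lit 5) true (nat_lit 11) false (nat_lit 0) true (nat_lit 12) true (nat_lit 13) (.s true (nat_lit 1) (nat_lit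 26) (nat_lit 3) (nat_lit 1) (nat_lit 2) true (nat_lit 5) true (nat_lit 12) false (nat_lit 0) true (nat_lit 11) true (nat_lit 13) (.e true (nat_lit 18) (nat_lit 65) (nat_lit 8) (nat_lit 6) (.e true (nat_lit 18) (nat_lit 126) (nat_lit 3) (nat_lit 11) (.e false (nat_lit 18) (nat_lit 152) (nat_lit 2) (nat_lit 12) (.e false (nat_lit 18) (nat_lit 154) (nat_lit 2) (nat_lit 12) (.e true (nat_lit 18) (nat_lit 132) (nat_lit 3) (nat_lit 11) (.e true (nat_lit 18) (nat_lit 56) (nat_lit 9) (nat_lit 5) (.e false (nat_lit 18) (nat_lit 168) (nat_lit 1) (nat_lit 13) (.e false (nat_lit 18) (nat_lit 170) (nat_lit 1) (nat_lit 13) (.e false (nat_lit 18) (nat_lit 172) (nat_lit 1) (nat_lit 13) (.e false (nat_lit 18) (nat_lit 151) (nat_lit 2) (nat_lit 12) (.e true (nat_lit 18) (nat_lit 155) (nat_lit 2) (nat_lit 12) (.e false (nat_lit 18) (nat_lit 156) (nat_lit 2) (nat_lit 12) (.e false (nat_lit 18) (nat_lit 167) (nat_lit 1) (nat_lit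 13) .nil)))))))))))))))))))))) (.nd (.nd (.nd (.nd .leaf (nat_lit 176129) (nat_lit 500) (.p (nat_lit 299) (nat_lit 18) .z) .df .leaf) (nat_lit 177153) (nat_lit 501) (.p (nat_lit 300) (nat_lit 18) .z) .df .leaf) (nat_lit 178177) (nat_lit 502) (.p (nat_lit 301) (nat_lit 18) .z) .df (.nd .leaf (nat_lit 179201) (nat_lit 537) (.n (nat_lit 262) (nat_lit 124) (.n (nat_lit 263) (nat_lit 130) (.n (nat_lit 264) (nat_lit 131) (.n (nat_lit 265) (nat_lit 103) (.p (nat_lit 266) (nat_lit 80) (.n (nat_lit 267) (nat_lit 202) (.p (nat_lit 268) (nat_lit 165) (.p (nat_lit 269) (nat_lit 74) (.p (nat_lit 270) (nat_lit 66) (.p (nat_lit 271) (nat_lit 38) (.n (nat_lit 272) (nat_lit 195) (.p (nat_lit 273) (nat_lit 95) (.p (nat_lit 274) (nat_lit 22) (.p (nat_lit 275) (nat_lit 96) (.p (nat_lit 276) (nat_lit 144) (.n (nat_lit 277) (nat_lit 147) (.p (nat_lit 278) (nat_lit 220) (.n (nat_lit 280) (nat_lit 32) (.n (nat_lit 281) (nat_lit 163)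 (.p (nat_lit 282) (nat_lit 65) (.n (nat_lit 283) (nat_lit 16) (.p (nat_lit 284) (nat_lit 19) (.p (nat_lit 285) (nat_lit 361) (.p (nat_lit 287) (nat_lit 99) (.n (nat_lit 288) (nat_lit 99) (.p (nat_lit 289) (nat_lit 63) (.n (nat_lit 290) (nat_lit 66) (.p (nat_lit 291) (nat_lit 21) (.n (nat_lit 292) (nat_lit 57) (.n (nat_lit 293) (nat_lit 117) (.n (nat_lit 294) (nat_lit 87) (.n (nat_lit 295) (nat_lit 75) (.n (nat_lit 296) (nat_lit 27) (.n (nat_lit 297) (nat_lit 81) (.n (nat_lit 298) (nat_lit 51) (.p (nat_lit 299) (nat_lit 9) (.n (nat_lit 300) (nat_lit 21) (.n (nat_lit 301) (nat_lit 6) (.p (nat_lit 302) (nat_lit 21) (.p (nat_lit 303) (nat_lit 102) (.p (nat_lit 304) (nat_lit 99) (.p (nat_lit 305) (nat_lit 117) (.n (nat_lit 306) (nat_lit 111) (.p (nat_lit 307) (nat_lit 3) (.p (nat_lit 308) (nat_lit 114) .z))))))))))))))))))))))))))))))))))))))))))))) (.ct dr2_c4371 (nat_lit 18) (nat_lit 13) (.s false (nat_lit 1)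 (nat_lit 27) (nat_lit 1) (nat_lit 2) (nat_lit 3) true (nat_lit 6) true (nat_lit 11) false (nat_lit 0) true (nat_lit 13) true (nat_lit 12) (.s false (nat_lit 1) (nat_lit 27) (nat_lit 2) (nat_lit 1) (nat_lit 3) true (nat_lit 5) true (nat_lit 11) false (nat_lit 0) true (nat_lit 12) true (nat_lit 13) (.e false (nat_lit 18) (nat_lit 68) (nat_lit 8) (nat_lit 6) (.e false (nat_lit 18) (nat_lit 129) (nat_lit 3) (nat_lit 11) (.e false (nat_lit 36) (nat_lit 167) (nat_lit 1) (nat_lit 13) (.e false (nat_lit 36) (nat_lit 168) (nat_lit 1) (nat_lit 13) (.e true (nat_lit 18) (nat_lit 171) (nat_lit 1) (nat_lit 13) (.e false (nat_lit 36) (nat_lit 172) (nat_lit 1) (nat_lit 13) (.e true (nat_lit 18) (nat_lit 176) (nat_lit 1) (nat_lit 13) (.e true (nat_lit 18) (nat_lit 157) (nat_lit 2) (nat_lit 12) (.e false (nat_lit 18) (nat_lit 59) (nat_lit 9) (nat_lit 5) (.e false (nat_lit 18) (nat_lit 134) (nat_lit 3) (nat_lit 11) (.e false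 (nat_lit 36) (nat_lit 151) (nat_lit 2) (nat_lit 12) (.e false (nat_lit 36) (nat_lit 152) (nat_lit 2) (nat_lit 12) (.e true (nat_lit 18) (nat_lit 155) (nat_lit 2) (nat_lit 12) (.e false (nat_lit 36) (nat_lit 156) (nat_lit 2) (nat_lit 12) (.e true (nat_lit 18) (nat_lit 159) (nat_lit 2) (nat_lit 12) (.e true (nat_lit 18) (nat_lit 160) (nat_lit 2) (nat_lit 12) (.e true (nat_lit 18) (nat_lit 173) (nat_lit 1) (nat_lit 13) .nil)))))))))))))))))))) .leaf)) (nat_lit 180225) (nat_lit 517) (.p (nat_lit 262) (nat_lit 170) (.p (nat_lit 263) (nat_lit 326) (.p (nat_lit 264) (nat_lit 142) (.p (nat_lit 265) (nat_lit 74) (.n (nat_lit 266) (nat_lit 22) (.p (nat_lit 267) (nat_lit 290) (.n (nat_lit 268) (nat_lit 240) (.n (nat_lit 269) (nat_lit 244) (.n (nat_lit 270) (nat_lit 24) (.n (nat_lit 271) (nat_lit 100) (.p (nat_lit 272) (nat_lit 120) (.n (nat_lit 273) (nat_lit 124) (.n (nat_lit 274) (nat_lit 146) (.n (nat_lit 275) (nat_lit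 66) (.n (nat_lit 276) (nat_lit 18) (.p (nat_lit 277) (nat_lit 24) (.n (nat_lit 278) (nat_lit 128) (.n (nat_lit 280) (nat_lit 110) (.p (nat_lit 281) (nat_lit 50) (.p (nat_lit 282) (nat_lit 152) (.p (nat_lit 283) (nat_lit 80) (.n (nat_lit 284) (nat_lit 32) (.n (nat_lit 285) (nat_lit 230) (.p (nat_lit 286) (nat_lit 90) (.n (nat_lit 287) (nat_lit 126) (.p (nat_lit 288) (nat_lit 180) (.n (nat_lit 289) (nat_lit 216) (.p (nat_lit 290) (nat_lit 240) (.p (nat_lit 291) (nat_lit 12) (.p (nat_lit 292) (nat_lit 168) (.p (nat_lit 293) (nat_lit 216) (.p (nat_lit 294) (nat_lit 120) (.p (nat_lit 295) (nat_lit 24) (.p (nat_lit 296) (nat_lit 72) (.p (nat_lit 297) (nat_lit 216) (.p (nat_lit 298) (nat_lit 192) (.p (nat_lit 299) (nat_lit 36) (.n (nat_lit 300) (nat_lit 30) (.n (nat_lit 301) (nat_lit 24) (.p (nat_lit 302) (nat_lit 12) (.n (nat_lit 303) (nat_lit 168) (.n (nat_lit 304) (nat_lit 216) (.n (nat_lit 305) (nat_lit 216)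 (.p (nat_lit 306) (nat_lit 258) (.n (nat_lit 307) (nat_lit 6) (.n (nat_lit 308) (nat_lit 264) .z)))))))))))))))))))))))))))))))))))))))))))))) (.ct dr2_c4371 (nat_lit 18) (nat_lit 13) (.s true (nat_lit 2) (nat_lit 7) (nat_lit 6) (nat_lit 3) (nat_lit 3) true (nat_lit 0) true (nat_lit 11) true (nat_lit 7) true (nat_lit 8) true (nat_lit 11) (.s true (nat_lit 3) (nat_lit 8) (nat_lit 2) (nat_lit 3) (nat_lit 7) true (nat_lit 1) true (nat_lit 7) true (nat_lit 6) true (nat_lit 12) true (nat_lit 11) (.s false (nat_lit 1) (nat_lit 8) (nat_lit 2) (nat_lit 7) (nat_lit 3) true (nat_lit 5) true (nat_lit 11) true (nat_lit 6) true (nat_lit 12) true (nat_lit 7) (.s true (nat_lit 1) (nat_lit 8) (nat_lit 3) (nat_lit 2) (nat_lit 7) false (nat_lit 0) true (nat_lit 7) true (nat_lit 6) true (nat_lit 11) true (nat_lit 12) (.s false (nat_lit 2) (nat_lit 8) (nat_lit 7) (nat_lit 2) (nat_lit 3) false (nat_lit 0) true (nat_lit 11) true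 (nat_lit 6) true (nat_lit 7) true (nat_lit 12) (.s true (nat_lit 2) (nat_lit 9) (nat_lit 1) (nat_lit 7) (nat_lit 3) true (nat_lit 6) true (nat_lit 11) true (nat_lit 5) true (nat_lit 13) true (nat_lit 7) (.s true (nat_lit 2) (nat_lit 10) (nat_lit 2) (nat_lit 7) (nat_lit 1) true (nat_lit 8) true (nat_lit 13) true (nat_lit 4) true (nat_lit 12) true (nat_lit 7) (.s true (nat_lit 1) (nat_lit 21) (nat_lit 1) (nat_lit 3) (nat_lit 3) true (nat_lit 6) true (nat_lit 11) true (nat_lit 1) true (nat_lit 13) true (nat_lit 11) (.s false (nat_lit 2) (nat_lit 21) (nat_lit 3) (nat_lit 1) (nat_lit 3) true (nat_lit 4) true (nat_lit 11) true (nat_lit 1) true (nat_lit 11) true (nat_lit 13) (.s false (nat_lit 1) (nat_lit 24) (nat_lit 3) (nat_lit 3) (nat_lit 0) true (nat_lit 7) true (nat_lit 14) true (nat_lit 0) true (nat_lit 11) true (nat_lit 11) (.s false (nat_lit 2) (nat_lit 26) (nat_lit 2) (nat_lit 1) (nat_lit 3) true (nat_lit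 5) true (nat_lit 11) false (nat_lit 0) true (nat_lit 12) true (nat_lit 13) (.s false (nat_lit 1) (nat_lit 26) (nat_lit 3) (nat_lit 1) (nat_lit 2) true (nat_lit 5) true (nat_lit 12) false (nat_lit 0) true (nat_lit 11) true (nat_lit 13) (.s false (nat_lit 1) (nat_lit 27) (nat_lit 3) (nat_lit 1) (nat_lit 2) true (nat_lit 5) true (nat_lit 12) false (nat_lit 0) true (nat_lit 11) true (nat_lit 13) (.e false (nat_lit 18) (nat_lit 117) (nat_lit 3) (nat_lit 11) (.e false (nat_lit 18) (nat_lit 118) (nat_lit 3) (nat_lit 11) (.e true (nat_lit 18) (nat_lit 119) (nat_lit 3) (nat_lit 11) (.e false (nat_lit 18) (nat_lit 122) (nat_lit 3) (nat_lit 11) (.e true (nat_lit 18) (nat_lit 123) (nat_lit 3) (nat_lit 11) (.e true (nat_lit 90) (nat_lit 139) (nat_lit 3) (nat_lit 11) (.e false (nat_lit 18) (nat_lit 161) (nat_lit 2) (nat_lit 12) (.e false (nat_lit 54) (nat_lit 125) (nat_lit 3) (nat_lit 11) (.e false (nat_lit 18) (nat_lit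 126) (nat_lit 3) (nat_lit 11) dr2_i53))))))))))))))))))))))) (.nd (.nd (.nd .leaf (nat_lit 181249) (nat_lit 503) (.p (nat_lit 302) (nat_lit 18) .z) .df .leaf) (nat_lit 182272) (nat_lit 504) (.p (nat_lit 303) (nat_lit 18) .z) .df .leaf) (nat_lit 182273) (nat_lit 586) (.p (nat_lit 322) (nat_lit 18) .z) .df (.nd .leaf (nat_lit 183296) (nat_lit 505) (.p (nat_lit 304) (nat_lit 18) .z) .df .leaf)))) (nat_lit 183297) (nat_lit 587) (.p (nat_lit 323) (nat_lit 18) .z) .df (.nd (.nd (.nd (.nd (.nd .leaf (nat_lit 184320) (nat_lit 526) (.p (nat_lit 262) (nat_lit 60) (.p (nat_lit 263) (nat_lit 186) (.p (nat_lit 264) (nat_lit 3) (.n (nat_lit 265) (nat_lit 39) (.p (nat_lit 266) (nat_lit 24) (.p (nat_lit 267) (nat_lit 78) (.n (nat_lit 268) (nat_lit 63) (.n (nat_lit 269) (nat_lit 138) (.p (nat_lit 270) (nat_lit 54) (.n (nat_lit 271) (nat_lit 48) (.n (nat_lit 272) (nat_lit 63) (.n (nat_lit 273) (nat_lit 21) (.n (nat_lit 274)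 (nat_lit 96) (.p (nat_lit 275) (nat_lit 18) (.p (nat_lit 276) (nat_lit 108) (.n (nat_lit 277) (nat_lit 99) (.p (nat_lit 278) (nat_lit 66) (.n (nat_lit 280) (nat_lit 132) (.n (nat_lit 281) (nat_lit 93) (.p (nat_lit 282) (nat_lit 195) (.p (nat_lit 283) (nat_lit 42) (.n (nat_lit 284) (nat_lit 15) (.p (nat_lit 285) (nat_lit 111) (.p (nat_lit 286) (nat_lit 72) (.n (nat_lit 287) (nat_lit 27) (.p (nat_lit 288) (nat_lit 81) (.n (nat_lit 289) (nat_lit 117) (.p (nat_lit 290) (nat_lit 144) (.p (nat_lit 291) (nat_lit 27) (.p (nat_lit 292) (nat_lit 99) (.p (nat_lit 293) (nat_lit 81) (.p (nat_lit 294) (nat_lit 27) (.n (nat_lit 295) (nat_lit 45) (.p (nat_lit 296) (nat_lit 27) (.p (nat_lit 297) (nat_lit 99) (.p (nat_lit 298) (nat_lit 117) (.p (nat_lit 299) (nat_lit 27) (.n (nat_lit 300) (nat_lit 45) (.n (nat_lit 301) (nat_lit 18) (.p (nat_lit 302) (nat_lit 27) (.n (nat_lit 303) (nat_lit 54) (.n (nat_lit 304) (nat_lit 99)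 (.n (nat_lit 305) (nat_lit 99) (.p (nat_lit 306) (nat_lit 135) (.p (nat_lit 307) (nat_lit 9) (.n (nat_lit 308) (nat_lit 126) .z)))))))))))))))))))))))))))))))))))))))))))))) (.ct dr2_c4371 (nat_lit 18) (nat_lit 14) (.s false (nat_lit 1) (nat_lit 9) (nat_lit 1) (nat_lit 3) (nat_lit 7) true (nat_lit 2) true (nat_lit 7) true (nat_lit 5) true (nat_lit 13) true (nat_lit 11) (.s false (nat_lit 1) (nat_lit 17) (nat_lit 2) (nat_lit 3) (nat_lit 3) true (nat_lit 5) true (nat_lit 11) true (nat_lit 2) true (nat_lit 12) true (nat_lit 11) (.s true (nat_lit 1) (nat_lit 25) (nat_lit 3) (nat_lit 3) (nat_lit 0) true (nat_lit 7) true (nat_lit 14) true (nat_lit 0) true (nat_lit 11) true (nat_lit 11) (.s false (nat_lit 1) (nat_lit 27) (nat_lit 1) (nat_lit 2) (nat_lit 3) true (nat_lit 6) true (nat_lit 11) false (nat_lit 0) true (nat_lit 13) true (nat_lit 12) (.s false (nat_lit 1) (nat_lit 27) (nat_lit 1) (nat_lit 3) (nat_lit 2)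 true (nat_lit 8) true (nat_lit 12) false (nat_lit 0) true (nat_lit 13) true (nat_lit 11) (.s false (nat_lit 1) (nat_lit 27) (nat_lit 2) (nat_lit 1) (nat_lit 3) true (nat_lit 5) true (nat_lit 11) false (nat_lit 0) true (nat_lit 12) true (nat_lit 13) (.s false (nat_lit 1) (nat_lit 27) (nat_lit 2) (nat_lit 3) (nat_lit 1) true (nat_lit 8) true (nat_lit 13) false (nat_lit 0) true (nat_lit 12) true (nat_lit 11) (.s false (nat_lit 1) (nat_lit 27) (nat_lit 3) (nat_lit 1) (nat_lit 2) true (nat_lit 5) true (nat_lit 12) false (nat_lit 0) true (nat_lit 11) true (nat_lit 13) (.e false (nat_lit 18) (nat_lit 55) (nat_lit 9) (nat_lit 5) (.e false (nat_lit 36) (nat_lit 56) (nat_lit 9) (nat_lit 5) (.e true (nat_lit 18) (nat_lit 59) (nat_lit 9) (nat_lit 5) (.e false (nat_lit 18) (nat_lit 60) (nat_lit 9) (nat_lit 5) (.e false (nat_lit 18) (nat_lit 177) (nat_lit 1) (nat_lit 13) (.e true (nat_lit 36) (nat_lit 131) (nat_lit 3) (nat_lit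 11) (.e false (nat_lit 36) (nat_lit 134) (nat_lit 3) (nat_lit 11) dr2_i64)))))))))))))))) .leaf) (nat_lit 184321) (nat_lit 588) (.p (nat_lit 324) (nat_lit 18) .z) .df .leaf) (nat_lit 185344) (nat_lit 520) (.p (nat_lit 262) (nat_lit 8) (.n (nat_lit 263) (nat_lit 52) (.p (nat_lit 264) (nat_lit 16) (.p (nat_lit 265) (nat_lit 20) (.n (nat_lit 266) (nat_lit 22) (.p (nat_lit 267) (nat_lit 2) (.n (nat_lit 268) (nat_lit 6) (.p (nat_lit 269) (nat_lit 44) (.n (nat_lit 270) (nat_lit 24) (.p (nat_lit 271) (nat_lit 26) (.p (nat_lit 272) (nat_lit 48) (.p (nat_lit 273) (nat_lit 20) (.p (nat_lit 274) (nat_lit 52) (.n (nat_lit 275) (nat_lit 30) (.n (nat_lit 276) (nat_lit 72) (.p (nat_lit 277) (nat_lit 78) (.n (nat_lit 278) (nat_lit 74) (.p (nat_lit 280) (nat_lit 52) (.p (nat_lit 281) (nat_lit 68) (.n (nat_lit 282) (nat_lit 100) (.n (nat_lit 283) (nat_lit 10) (.p (nat_lit 284) (nat_lit 4) (.n (nat_lit 285) (nat_lit 104) (.n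 (nat_lit 286) (nat_lit 72) (.n (nat_lit 287) (nat_lit 36) (.n (nat_lit 288) (nat_lit 18) (.p (nat_lit 289) (nat_lit 72) (.n (nat_lit 290) (nat_lit 102) (.n (nat_lit 291) (nat_lit 24) (.n (nat_lit 292) (nat_lit 30) (.n (nat_lit 293) (nat_lit 18) (.p (nat_lit 294) (nat_lit 12) (.p (nat_lit 295) (nat_lit 24) (.n (nat_lit 297) (nat_lit 18) (.n (nat_lit 298) (nat_lit 42) (.p (nat_lit 300) (nat_lit 24) (.p (nat_lit 301) (nat_lit 12) (.n (nat_lit 302) (nat_lit 24) (.p (nat_lit 303) (nat_lit 12) (.p (nat_lit 304) (nat_lit 18) (.p (nat_lit 305) (nat_lit 36) (.n (nat_lit 306) (nat_lit 48) (.p (nat_lit 307) (nat_lit 12) (.p (nat_lit 308) (nat_lit 60) .z)))))))))))))))))))))))))))))))))))))))))))) (.ct dr2_c4371 (nat_lit 18) (nat_lit 14) (.s false (nat_lit 3) (nat_lit 8) (nat_lit 2) (nat_lit 3) (nat_lit 7) true (nat_lit 1) true (nat_lit 7) true (nat_lit 6) true (nat_lit 12) true (nat_lit 11) (.s true (nat_lit 1) (nat_lit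 8) (nat_lit 2) (nat_lit 7) (nat_lit 3) true (nat_lit 5) true (nat_lit 11) true (nat_lit 6) true (nat_lit 12) true (nat_lit 7) (.s false (nat_lit 2) (nat_lit 8) (nat_lit 3) (nat_lit 2) (nat_lit 7) false (nat_lit 0) true (nat_lit 7) true (nat_lit 6) true (nat_lit 11) true (nat_lit 12) (.s true (nat_lit 2) (nat_lit 8) (nat_lit 7) (nat_lit 2) (nat_lit 3) false (nat_lit 0) true (nat_lit 11) true (nat_lit 6) true (nat_lit 7) true (nat_lit 12) (.s false (nat_lit 1) (nat_lit 9) (nat_lit 1) (nat_lit 7) (nat_lit 3) true (nat_lit 6) true (nat_lit 11) true (nat_lit 5) true (nat_lit 13) true (nat_lit 7) (.s false (nat_lit 1) (nat_lit 10) (nat_lit 0) (nat_lit 6) (nat_lit 3) true (nat_lit 7) true (nat_lit 11) true (nat_lit 4) true (nat_lit 14) true (nat_lit 8) (.s false (nat_lit 2) (nat_lit 10) (nat_lit 2) (nat_lit 7) (nat_lit 1) true (nat_lit 8) true (nat_lit 13) true (nat_lit 4) true (nat_lit 12) true (nat_lit 7) (.s false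 (nat_lit 1) (nat_lit 10) (nat_lit 6) (nat_lit 0) (nat_lit 3) true (nat_lit 0) true (nat_lit 11) true (nat_lit 4) true (nat_lit 8) true (nat_lit 14) (.s false (nat_lit 1) (nat_lit 21) (nat_lit 1) (nat_lit 3) (nat_lit 3) true (nat_lit 6) true (nat_lit 11) true (nat_lit 1) true (nat_lit 13) true (nat_lit 11) (.s true (nat_lit 2) (nat_lit 21) (nat_lit 3) (nat_lit 1) (nat_lit 3) true (nat_lit 4) true (nat_lit 11) true (nat_lit 1) true (nat_lit 11) true (nat_lit 13) (.s false (nat_lit 2) (nat_lit 23) (nat_lit 0) (nat_lit 3) (nat_lit 3) true (nat_lit 7) true (nat_lit 11) true (nat_lit 0) true (nat_lit 14) true (nat_lit 11) (.s true (nat_lit 1) (nat_lit 25) (nat_lit 3) (nat_lit 3) (nat_lit 0) true (nat_lit 7) true (nat_lit 14) true (nat_lit 0) true (nat_lit 11) true (nat_lit 11) (.s true (nat_lit 2) (nat_lit 26) (nat_lit 2) (nat_lit 1) (nat_lit 3) true (nat_lit 5) true (nat_lit 11) false (nat_lit 0) true (nat_lit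 12) true (nat_lit 13) (.s true (nat_lit 1) (nat_lit 27) (nat_lit 2) (nat_lit 1) (nat_lit 3) true (nat_lit 5) true (nat_lit 11) false (nat_lit 0) true (nat_lit 12) true (nat_lit 13) (.s false (nat_lit 1) (nat_lit 27) (nat_lit 2) (nat_lit 3) (nat_lit 1) true (nat_lit 8) true (nat_lit 13) false (nat_lit 0) true (nat_lit 12) true (nat_lit 11) (.e true (nat_lit 36) (nat_lit 161) (nat_lit 2) (nat_lit 12) (.e false (nat_lit 18) (nat_lit 125) (nat_lit 3) (nat_lit 11) (.e true (nat_lit 36) (nat_lit 129) (nat_lit 3) (nat_lit 11) (.e false (nat_lit 18) (nat_lit 130) (nat_lit 3) (nat_lit 11) (.e false (nat_lit 18) (nat_lit 55) (nat_lit 9) (nat_lit 5) (.e true (nat_lit 36) (nat_lit 59) (nat_lit 9) (nat_lit 5) (.e false (nat_lit 18) (nat_lit 60) (nat_lit 9) (nat_lit 5) (.e true (nat_lit 18) (nat_lit 131) (nat_lit 3) (nat_lit 11) dr2_i57)))))))))))))))))))))))) (.nd .leaf (nat_lit 185345) (nat_lit 589) (.p (nat_lit 325)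 (nat_lit 18) .z) .df .leaf)) (nat_lit 186368) (nat_lit 513) (.n (nat_lit 262) (nat_lit 82) (.p (nat_lit 263) (nat_lit 20) (.n (nat_lit 264) (nat_lit 65) (.n (nat_lit 265) (nat_lit 61) (.p (nat_lit 266) (nat_lit 68) (.n (nat_lit 267) (nat_lit 88) (.p (nat_lit 268) (nat_lit 75) (.n (nat_lit 269) (nat_lit 82) (.p (nat_lit 270) (nat_lit 48) (.n (nat_lit 271) (nat_lit 46) (.n (nat_lit 272) (nat_lit 177) (.p (nat_lit 273) (nat_lit 11) (.n (nat_lit 274) (nat_lit 56) (.p (nat_lit 275) (nat_lit 132) (.p (nat_lit 276) (nat_lit 162) (.n (nat_lit 277) (nat_lit 201) (.p (nat_lit 278) (nat_lit 214) (.n (nat_lit 280) (nat_lit 56) (.n (nat_lit 281) (nat_lit 193) (.p (nat_lit 282) (nat_lit 179) (.n (nat_lit 283) (nat_lit 10) (.p (nat_lit 284) (nat_lit 31) (.p (nat_lit 285) (nat_lit 319) (.p (nat_lit 286) (nat_lit 90) (.p (nat_lit 287) (nat_lit 99) (.n (nat_lit 288) (nat_lit 9) (.n (nat_lit 289) (nat_lit 81) (.p (nat_lit 290)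 (nat_lit 96) (.p (nat_lit 291) (nat_lit 39) (.p (nat_lit 292) (nat_lit 15) (.n (nat_lit 293) (nat_lit 9) (.n (nat_lit 294) (nat_lit 33) (.n (nat_lit 295) (nat_lit 57) (.n (nat_lit 296) (nat_lit 9) (.p (nat_lit 297) (nat_lit 27) (.p (nat_lit 298) (nat_lit 57) (.n (nat_lit 299) (nat_lit 9) (.n (nat_lit 300) (nat_lit 57) (.n (nat_lit 301) (nat_lit 42) (.p (nat_lit 302) (nat_lit 75) (.p (nat_lit 303) (nat_lit 48) (.p (nat_lit 304) (nat_lit 27) (.p (nat_lit 305) (nat_lit 9) (.p (nat_lit 306) (nat_lit 15) (.n (nat_lit 307) (nat_lit 15) (.n (nat_lit 308) (nat_lit 30) .z)))))))))))))))))))))))))))))))))))))))))))))) (.ct dr2_c4371 (nat_lit 18) (nat_lit 14) (.s false (nat_lit 2) (nat_lit 7) (nat_lit 6) (nat_lit 3) (nat_lit 3) true (nat_lit 0) true (nat_lit 11) true (nat_lit 7) true (nat_lit 8) true (nat_lit 11) (.s true (nat_lit 1) (nat_lit 8) (nat_lit 2) (nat_lit 3) (nat_lit 7) true (nat_lit 1) true (nat_lit 7) true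 (nat_lit 6) true (nat_lit 12) true (nat_lit 11) (.s true (nat_lit 1) (nat_lit 8) (nat_lit 2) (nat_lit 7) (nat_lit 3) true (nat_lit 5) true (nat_lit 11) true (nat_lit 6) true (nat_lit 12) true (nat_lit 7) (.s false (nat_lit 1) (nat_lit 8) (nat_lit 3) (nat_lit 2) (nat_lit 7) false (nat_lit 0) true (nat_lit 7) true (nat_lit 6) true (nat_lit 11) true (nat_lit 12) (.s false (nat_lit 1) (nat_lit 9) (nat_lit 0) (nat_lit 3) (nat_lit 8) true (nat_lit 2) true (nat_lit 6) true (nat_lit 5) true (nat_lit 14) true (nat_lit 11) (.s true (nat_lit 1) (nat_lit 9) (nat_lit 1) (nat_lit 3) (nat_lit 7) true (nat_lit 2) true (nat_lit 7) true (nat_lit 5) true (nat_lit 13) true (nat_lit 11) (.s false (nat_lit 1) (nat_lit 9) (nat_lit 7) (nat_lit 1) (nat_lit 3) false (nat_lit 0) true (nat_lit 11) true (nat_lit 5) true (nat_lit 7) true (nat_lit 13) (.s true (nat_lit 1) (nat_lit 9) (nat_lit 8) (nat_lit 3) (nat_lit 0) true (nat_lit 2)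 true (nat_lit 14) true (nat_lit 5) true (nat_lit 6) true (nat_lit 11) (.s true (nat_lit 1) (nat_lit 10) (nat_lit 6) (nat_lit 0) (nat_lit 3) true (nat_lit 0) true (nat_lit 11) true (nat_lit 4) true (nat_lit 8) true (nat_lit 14) (.s false (nat_lit 1) (nat_lit 10) (nat_lit 6) (nat_lit 3) (nat_lit 0) true (nat_lit 3) true (nat_lit 14) true (nat_lit 4) true (nat_lit 8) true (nat_lit 11) (.s false (nat_lit 1) (nat_lit 14) (nat_lit 3) (nat_lit 3) (nat_lit 3) true (nat_lit 4) true (nat_lit 11) true (nat_lit 3) true (nat_lit 11) true (nat_lit 11) (.s true (nat_lit 1) (nat_lit 17) (nat_lit 2) (nat_lit 3) (nat_lit 3) true (nat_lit 5) true (nat_lit 11) true (nat_lit 2) true (nat_lit 12) true (nat_lit 11) (.s true (nat_lit 1) (nat_lit 16) (nat_lit 3) (nat_lit 3) (nat_lit 2) true (nat_lit 5) true (nat_lit 12) true (nat_lit 2) true (nat_lit 11) true (nat_lit 11) (.s true (nat_lit 1) (nat_lit 18) (nat_lit 3) (nat_lit 3) (nat_lit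 2) true (nat_lit 5) true (nat_lit 12) true (nat_lit 2) true (nat_lit 11) true (nat_lit 11) (.s true (nat_lit 1) (nat_lit 20) (nat_lit 1) (nat_lit 3) (nat_lit 3) true (nat_lit 6) true (nat_lit 11) true (nat_lit 1) true (nat_lit 13) true (nat_lit 11) dr2_i46)))))))))))))))) (.nd (.nd (.nd .leaf (nat_lit 186369) (nat_lit 590) (.p (nat_lit 326) (nat_lit 18) .z) .df .leaf) (nat_lit 187392) (nat_lit 506) (.p (nat_lit 305) (nat_lit 18) .z) .df .leaf) (nat_lit 187393) (nat_lit 591) (.p (nat_lit 327) (nat_lit 18) .z) .df (.nd .leaf (nat_lit 188416) (nat_lit 527) (.p (nat_lit 262) (nat_lit 214) (.p (nat_lit 263) (nat_lit 364) (.p (nat_lit 264) (nat_lit 149) (.p (nat_lit 265) (nat_lit 85) (.n (nat_lit 266) (nat_lit 44) (.p (nat_lit 267) (nat_lit 328) (.n (nat_lit 268) (nat_lit 291) (.n (nat_lit 269) (nat_lit 254) (.n (nat_lit 270) (nat_lit 12) (.n (nat_lit 271) (nat_lit 74) (.p (nat_lit 272) (nat_lit 159) (.n (nat_lit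 273) (nat_lit 113) (.n (nat_lit 274) (nat_lit 130) (.n (nat_lit 275) (nat_lit 96) (.n (nat_lit 276) (nat_lit 36) (.p (nat_lit 277) (nat_lit 57) (.n (nat_lit 278) (nat_lit 184) (.n (nat_lit 280) (nat_lit 130) (.p (nat_lit 281) (nat_lit 73) (.p (nat_lit 282) (nat_lit 151) (.p (nat_lit 283) (nat_lit 106) (.n (nat_lit 284) (nat_lit 37) (.n (nat_lit 285) (nat_lit 271) (.p (nat_lit 286) (nat_lit 36) (.n (nat_lit 287) (nat_lit 189) (.p (nat_lit 288) (nat_lit 207) (.n (nat_lit 289) (nat_lit 189) (.p (nat_lit 290) (nat_lit 192) (.n (nat_lit 291) (nat_lit 3) (.p (nat_lit 292) (nat_lit 183) (.p (nat_lit 293) (nat_lit 243) (.p (nat_lit 294) (nat_lit 141) (.p (nat_lit 295) (nat_lit 21) (.p (nat_lit 296) (nat_lit 99) (.p (nat_lit 297) (nat_lit 225) (.p (nat_lit 298) (nat_lit 177) (.p (nat_lit 299) (nat_lit 63) (.n (nat_lit 300) (nat_lit 15) (.n (nat_lit 301) (nat_lit 12) (.n (nat_lit 302) (nat_lit 3) (.n (nat_lit 303) (nat_lit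 192) (.n (nat_lit 304) (nat_lit 243) (.n (nat_lit 305) (nat_lit 225) (.p (nat_lit 306) (nat_lit 273) (.p (nat_lit 307) (nat_lit 15) (.n (nat_lit 308) (nat_lit 258) .z)))))))))))))))))))))))))))))))))))))))))))))) (.ct dr2_c4371 (nat_lit 18) (nat_lit 14) (.s true (nat_lit 1) (nat_lit 7) (nat_lit 6) (nat_lit 3) (nat_lit 3) true (nat_lit 0) true (nat_lit 11) true (nat_lit 7) true (nat_lit 8) true (nat_lit 11) (.s true (nat_lit 2) (nat_lit 8) (nat_lit 2) (nat_lit 3) (nat_lit 7) true (nat_lit 1) true (nat_lit 7) true (nat_lit 6) true (nat_lit 12) true (nat_lit 11) (.s false (nat_lit 2) (nat_lit 8) (nat_lit 7) (nat_lit 2) (nat_lit 3) false (nat_lit 0) true (nat_lit 11) true (nat_lit 6) true (nat_lit 7) true (nat_lit 12) (.s true (nat_lit 2) (nat_lit 9) (nat_lit 1) (nat_lit 7) (nat_lit 3) true (nat_lit 6) true (nat_lit 11) true (nat_lit 5) true (nat_lit 13) true (nat_lit 7) (.s true (nat_lit 1) (nat_lit 10) (nat_lit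 2) (nat_lit 7) (nat_lit 1) true (nat_lit 8) true (nat_lit 13) true (nat_lit 4) true (nat_lit 12) true (nat_lit 7) (.s true (nat_lit 1) (nat_lit 21) (nat_lit 1) (nat_lit 3) (nat_lit 3) true (nat_lit 6) true (nat_lit 11) true (nat_lit 1) true (nat_lit 13) true (nat_lit 11) (.s false (nat_lit 1) (nat_lit 21) (nat_lit 3) (nat_lit 1) (nat_lit 3) true (nat_lit 4) true (nat_lit 11) true (nat_lit 1) true (nat_lit 11) true (nat_lit 13) (.s true (nat_lit 1) (nat_lit 23) (nat_lit 0) (nat_lit 3) (nat_lit 3) true (nat_lit 7) true (nat_lit 11) true (nat_lit 0) true (nat_lit 14) true (nat_lit 11) (.s false (nat_lit 2) (nat_lit 26) (nat_lit 2) (nat_lit 1) (nat_lit 3) true (nat_lit 5) true (nat_lit 11) false (nat_lit 0) true (nat_lit 12) true (nat_lit 13) (.s false (nat_lit 2) (nat_lit 26) (nat_lit 3) (nat_lit 1) (nat_lit 2) true (nat_lit 5) true (nat_lit 12) false (nat_lit 0) true (nat_lit 11) true (nat_lit 13) (.s false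 (nat_lit 1) (nat_lit 29) (nat_lit 0) (nat_lit 2) (nat_lit 3) true (nat_lit 7) true (nat_lit 11) false (nat_lit 1) true (nat_lit 14) true (nat_lit 12) (.s false (nat_lit 1) (nat_lit 29) (nat_lit 2) (nat_lit 0) (nat_lit 3) true (nat_lit 5) true (nat_lit 11) false (nat_lit 1) true (nat_lit 12) true (nat_lit 14) (.e true (nat_lit 18) (nat_lit 119) (nat_lit 3) (nat_lit 11) (.e true (nat_lit 18) (nat_lit 122) (nat_lit 3) (nat_lit 11) (.e true (nat_lit 18) (nat_lit 124) (nat_lit 3) (nat_lit 11) (.e false (nat_lit 18) (nat_lit 65) (nat_lit 8) (nat_lit 6) (.e true (nat_lit 18) (nat_lit 125) (nat_lit 3) (nat_lit 11) dr2_i65)))))))))))))))))) .leaf))) (nat_lit 188417) (nat_lit 592) (.p (nat_lit 328) (nat_lit 18) .z) .df (.nd (.nd (.nd (.nd .leaf (nat_lit 189440) (nat_lit 523) (.n (nat_lit 262) (nat_lit 74) (.n (nat_lit 263) (nat_lit 338) (.n (nat_lit 264) (nat_lit 4) (.p (nat_lit 265) (nat_lit 58) (.n (nat_lit 266) (nat_lit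 98) (.n (nat_lit 267) (nat_lit 140) (.p (nat_lit 268) (nat_lit 114) (.p (nat_lit 269) (nat_lit 286) (.n (nat_lit 270) (nat_lit 84) (.p (nat_lit 271) (nat_lit 88) (.p (nat_lit 272) (nat_lit 150) (.p (nat_lit 273) (nat_lit 40) (.p (nat_lit 274) (nat_lit 176) (.n (nat_lit 275) (nat_lit 60) (.n (nat_lit 276) (nat_lit 252) (.p (nat_lit 277) (nat_lit 228) (.n (nat_lit 278) (nat_lit 184) (.p (nat_lit 280) (nat_lit 266) (.p (nat_lit 281) (nat_lit 226) (.n (nat_lit 282) (nat_lit 398) (.n (nat_lit 283) (nat_lit 110) (.p (nat_lit 284) (nat_lit 26) (.n (nat_lit 285) (nat_lit 280) (.n (nat_lit 286) (nat_lit 126) (.p (nat_lit 287) (nat_lit 54) (.n (nat_lit 288) (nat_lit 144) (.p (nat_lit 289) (nat_lit 216) (.n (nat_lit 290) (nat_lit 258) (.n (nat_lit 291) (nat_lit 30) (.n (nat_lit 292) (nat_lit 168) (.n (nat_lit 293) (nat_lit 144) (.n (nat_lit 294) (nat_lit 48) (.p (nat_lit 295) (nat_lit 84) (.n (nat_lit 296) (nat_lit 72)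 (.n (nat_lit 297) (nat_lit 162) (.n (nat_lit 298) (nat_lit 174) (.n (nat_lit 299) (nat_lit 72) (.p (nat_lit 300) (nat_lit 48) (.p (nat_lit 301) (nat_lit 24) (.n (nat_lit 302) (nat_lit 48) (.p (nat_lit 303) (nat_lit 114) (.p (nat_lit 304) (nat_lit 198) (.p (nat_lit 305) (nat_lit 162) (.n (nat_lit 306) (nat_lit 240) (.n (nat_lit 307) (nat_lit 12) (.p (nat_lit 308) (nat_lit 228) .z)))))))))))))))))))))))))))))))))))))))))))))) (.ct dr2_c4371 (nat_lit 18) (nat_lit 14) (.s false (nat_lit 1) (nat_lit 7) (nat_lit 6) (nat_lit 3) (nat_lit 3) true (nat_lit 0) true (nat_lit 11) true (nat_lit 7) true (nat_lit 8) true (nat_lit 11) (.s false (nat_lit 3) (nat_lit 8) (nat_lit 2) (nat_lit 3) (nat_lit 7) true (nat_lit 1) true (nat_lit 7) true (nat_lit 6) true (nat_lit 12) true (nat_lit 11) (.s true (nat_lit 1) (nat_lit 8) (nat_lit 2) (nat_lit 7) (nat_lit 3) true (nat_lit 5) true (nat_lit 11) true (nat_lit 6) true (nat_lit 12)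 true (nat_lit 7) (.s false (nat_lit 2) (nat_lit 8) (nat_lit 3) (nat_lit 2) (nat_lit 7) false (nat_lit 0) true (nat_lit 7) true (nat_lit 6) true (nat_lit 11) true (nat_lit 12) (.s true (nat_lit 2) (nat_lit 8) (nat_lit 7) (nat_lit 2) (nat_lit 3) false (nat_lit 0) true (nat_lit 11) true (nat_lit 6) true (nat_lit 7) true (nat_lit 12) (.s true (nat_lit 1) (nat_lit 9) (nat_lit 1) (nat_lit 3) (nat_lit 7) true (nat_lit 2) true (nat_lit 7) true (nat_lit 5) true (nat_lit 13) true (nat_lit 11) (.s false (nat_lit 1) (nat_lit 9) (nat_lit 1) (nat_lit 7) (nat_lit 3) true (nat_lit 6) true (nat_lit 11) true (nat_lit 5) true (nat_lit 13) true (nat_lit 7) (.s false (nat_lit 1) (nat_lit 10) (nat_lit 0) (nat_lit 6) (nat_lit 3) true (nat_lit 7) true (nat_lit 11) true (nat_lit 4) true (nat_lit 14) true (nat_lit 8) (.s false (nat_lit 2) (nat_lit 10) (nat_lit 2) (nat_lit 7) (nat_lit 1) true (nat_lit 8) true (nat_lit 13) true (nat_lit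 4) true (nat_lit 12) true (nat_lit 7) (.s false (nat_lit 1) (nat_lit 14) (nat_lit 3) (nat_lit 3) (nat_lit 3) true (nat_lit 4) true (nat_lit 11) true (nat_lit 3) true (nat_lit 11) true (nat_lit 11) (.s true (nat_lit 1) (nat_lit 17) (nat_lit 2) (nat_lit 3) (nat_lit 3) true (nat_lit 5) true (nat_lit 11) true (nat_lit 2) true (nat_lit 12) true (nat_lit 11) (.s false (nat_lit 1) (nat_lit 21) (nat_lit 1) (nat_lit 3) (nat_lit 3) true (nat_lit 6) true (nat_lit 11) true (nat_lit 1) true (nat_lit 13) true (nat_lit 11) (.s true (nat_lit 2) (nat_lit 21) (nat_lit 3) (nat_lit 1) (nat_lit 3) true (nat_lit 4) true (nat_lit 11) true (nat_lit 1) true (nat_lit 11) true (nat_lit 13) (.s false (nat_lit 1) (nat_lit 23) (nat_lit 0) (nat_lit 3) (nat_lit 3) true (nat_lit 7) true (nat_lit 11) true (nat_lit 0) true (nat_lit 14) true (nat_lit 11) (.s true (nat_lit 1) (nat_lit 27) (nat_lit 1) (nat_lit 2) (nat_lit 3) true (nat_lit 6) true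 (nat_lit 11) false (nat_lit 0) true (nat_lit 13) true (nat_lit 12) (.s true (nat_lit 1) (nat_lit 27) (nat_lit 1) (nat_lit 3) (nat_lit 2) true (nat_lit 8) true (nat_lit 12) false (nat_lit 0) true (nat_lit 13) true (nat_lit 11) (.s true (nat_lit 2) (nat_lit 26) (nat_lit 2) (nat_lit 1) (nat_lit 3) true (nat_lit 5) true (nat_lit 11) false (nat_lit 0) true (nat_lit 12) true (nat_lit 13) (.s true (nat_lit 1) (nat_lit 27) (nat_lit 2) (nat_lit 1) (nat_lit 3) true (nat_lit 5) true (nat_lit 11) false (nat_lit 0) true (nat_lit 12) true (nat_lit 13) (.s true (nat_lit 1) (nat_lit 27) (nat_lit 3) (nat_lit 1) (nat_lit 2) true (nat_lit 5) true (nat_lit 12) false (nat_lit 0) true (nat_lit 11) true (nat_lit 13) (.s true (nat_lit 1) (nat_lit 32) (nat_lit 1) (nat_lit 2) (nat_lit 0) true (nat_lit 10) true (nat_lit 14) false (nat_lit 3) true (nat_lit 13) true (nat_lit 12) (.e false (nat_lit 36) (nat_lit 139) (nat_lit 3) (nat_lit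 11) dr2_i61)))))))))))))))))))))) .leaf) (nat_lit 189441) (nat_lit 602) (.p (nat_lit 309) (nat_lit 36) (.n (nat_lit 311) (nat_lit 18) (.n (nat_lit 312) (nat_lit 36) (.n (nat_lit 313) (nat_lit 18) (.p (nat_lit 314) (nat_lit 18) (.p (nat_lit 315) (nat_lit 18) (.p (nat_lit 316) (nat_lit 18) (.n (nat_lit 317) (nat_lit 54) (.p (nat_lit 319) (nat_lit 18) (.n (nat_lit 321) (nat_lit 18) (.n (nat_lit 322) (nat_lit 36) (.n (nat_lit 323) (nat_lit 18) (.n (nat_lit 324) (nat_lit 18) (.p (nat_lit 325) (nat_lit 18) (.p (nat_lit 326) (nat_lit 36) (.n (nat_lit 327) (nat_lit 54) (.n (nat_lit 328) (nat_lit 18) .z))))))))))))))))) (.ct dr2_c531 (nat_lit 18) (nat_lit 9) (.s false (nat_lit 1) (nat_lit 8) (nat_lit 2) (nat_lit 3) (nat_lit 8) true (nat_lit 0) true (nat_lit 5) true (nat_lit 5) true (nat_lit 8) true (nat_lit 7) (.s false (nat_lit 1) (nat_lit 9) (nat_lit 1) (nat_lit 8) (nat_lit 3) true (nat_lit 5) true (nat_lit 7) true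 (nat_lit 4) true (nat_lit 9) true (nat_lit 5) (.s true (nat_lit 1) (nat_lit 9) (nat_lit 3) (nat_lit 1) (nat_lit 8) false (nat_lit 0) true (nat_lit 5) true (nat_lit 4) true (nat_lit 7) true (nat_lit 9) (.s true (nat_lit 1) (nat_lit 10) (nat_lit 1) (nat_lit 9) (nat_lit 1) false (nat_lit 10) true (nat_lit 9) true (nat_lit 3) true (nat_lit 9) true (nat_lit 4) (.s false (nat_lit 1) (nat_lit 25) (nat_lit 3) (nat_lit 1) (nat_lit 3) true (nat_lit 3) true (nat_lit 7) true (nat_lit 0) true (nat_lit 7) true (nat_lit 9) (.s false (nat_lit 1) (nat_lit 28) (nat_lit 3) (nat_lit 1) (nat_lit 2) true (nat_lit 4) true (nat_lit 8) false (nat_lit 0) true (nat_lit 7) true (nat_lit 9) (.e false (nat_lit 18) (nat_lit 71) (nat_lit 8) (nat_lit 5) (.e false (nat_lit 18) (nat_lit 162) (nat_lit 2) (nat_lit 8) (.e true (nat_lit 18) (nat_lit 166) (nat_lit 2) (nat_lit 8) (.e true (nat_lit 18) (nat_lit 140) (nat_lit 3) (nat_lit 7) (.e false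 (nat_lit 18) (nat_lit 146) (nat_lit 3) (nat_lit 7) (.e false (nat_lit 18) (nat_lit 150) (nat_lit 3) (nat_lit 7) (.e false (nat_lit 18) (nat_lit 188) (nat_lit 1) (nat_lit 9) (.e true (nat_lit 18) (nat_lit 178) (nat_lit 1) (nat_lit 9) (.e false (nat_lit 18) (nat_lit 182) (nat_lit 1) (nat_lit 9) (.e true (nat_lit 36) (nat_lit 183) (nat_lit 1) (nat_lit 9) (.e true (nat_lit 18) (nat_lit 184) (nat_lit 1) (nat_lit 9) .nil)))))))))))))))))) .leaf) (nat_lit 190464) (nat_lit 521) (.n (nat_lit 262) (nat_lit 174) (.n (nat_lit 263) (nat_lit 336) (.n (nat_lit 264) (nat_lit 123) (.n (nat_lit 265) (nat_lit 93) (.p (nat_lit 266) (nat_lit 42) (.n (nat_lit 267) (nat_lit 282) (.p (nat_lit 268) (nat_lit 243) (.p (nat_lit 269) (nat_lit 240) (.p (nat_lit 270) (nat_lit 18) (.p (nat_lit 271) (nat_lit 78) (.n (nat_lit 272) (nat_lit 135) (.p (nat_lit 273) (nat_lit 123) (.p (nat_lit 274) (nat_lit 138) (.p (nat_lit 275) (nat_lit 54) (.n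 (nat_lit 277) (nat_lit 9) (.p (nat_lit 278) (nat_lit 138) (.p (nat_lit 280) (nat_lit 120) (.n (nat_lit 281) (nat_lit 39) (.n (nat_lit 282) (nat_lit 183) (.n (nat_lit 283) (nat_lit 102) (.p (nat_lit 284) (nat_lit 39) (.p (nat_lit 285) (nat_lit 201) (.n (nat_lit 286) (nat_lit 72) (.p (nat_lit 287) (nat_lit 135) (.n (nat_lit 288) (nat_lit 189) (.p (nat_lit 289) (nat_lit 207) (.n (nat_lit 290) (nat_lit 216) (.n (nat_lit 291) (nat_lit 9) (.n (nat_lit 292) (nat_lit 171) (.n (nat_lit 293) (nat_lit 225) (.n (nat_lit 294) (nat_lit 99) (.n (nat_lit 295) (nat_lit 27) (.n (nat_lit 296) (nat_lit 81) (.n (nat_lit 297) (nat_lit 207) (.n (nat_lit 298) (nat_lit 171) (.n (nat_lit 299) (nat_lit 45) (.p (nat_lit 300) (nat_lit 27) (.p (nat_lit 301) (nat_lit 18) (.n (nat_lit 302) (nat_lit 27) (.p (nat_lit 303) (nat_lit 180) (.p (nat_lit 304) (nat_lit 225) (.p (nat_lit 305) (nat_lit 243) (.n (nat_lit 306) (nat_lit 279) (.n (nat_lit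 307) (nat_lit 9) (.p (nat_lit 308) (nat_lit 270) .z))))))))))))))))))))))))))))))))))))))))))))) (.ct dr2_c4371 (nat_lit 18) (nat_lit 14) dr2_i59) (.nd .leaf (nat_lit 190465) (nat_lit 605) (.p (nat_lit 309) (nat_lit 252) (.n (nat_lit 310) (nat_lit 72) (.n (nat_lit 311) (nat_lit 90) (.n (nat_lit 312) (nat_lit 468) (.n (nat_lit 313) (nat_lit 252) (.p (nat_lit 314) (nat_lit 108) (.p (nat_lit 315) (nat_lit 252) (.p (nat_lit 316) (nat_lit 234) (.n (nat_lit 317) (nat_lit 576) (.n (nat_lit 318) (nat_lit 108) (.p (nat_lit 320) (nat_lit 180) (.p (nat_lit 321) (nat_lit 252) (.n (nat_lit 322) (nat_lit 36) (.p (nat_lit 323) (nat_lit 90) (.n (nat_lit 324) (nat_lit 162) (.p (nat_lit 325) (nat_lit 198) (.n (nat_lit 326) (nat_lit 54) (.n (nat_lit 327) (nat_lit 90) (.n (nat_lit 328) (nat_lit 72) (.n (nat_lit 329) (nat_lit 144) .z)))))))))))))))))))) (.ct dr2_c531 (nat_lit 18) (nat_lit 9) (.s false (nat_lit 1) (nat_lit 30)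 (nat_lit 1) (nat_lit 1) (nat_lit 3) true (nat_lit 5) true (nat_lit 7) false (nat_lit 1) true (nat_lit 9) true (nat_lit 9) (.e false (nat_lit 18) (nat_lit 75) (nat_lit 8) (nat_lit 5) (.e false (nat_lit 18) (nat_lit 150) (nat_lit 3) (nat_lit 7) (.e false (nat_lit 54) (nat_lit 179) (nat_lit 1) (nat_lit 9) (.e false (nat_lit 36) (nat_lit 181) (nat_lit 1) (nat_lit 9) (.e true (nat_lit 36) (nat_lit 184) (nat_lit 1) (nat_lit 9) (.e true (nat_lit 36) (nat_lit 185) (nat_lit 1) (nat_lit 9) (.e false (nat_lit 36) (nat_lit 188) (nat_lit 1) (nat_lit 9) (.e false (nat_lit 18) (nat_lit 178) (nat_lit 1) (nat_lit 9) (.e true (nat_lit 18) (nat_lit 180) (nat_lit 1) (nat_lit 9) (.e false (nat_lit 18) (nat_lit 183) (nat_lit 1) (nat_lit 9) (.e true (nat_lit 18) (nat_lit 187) (nat_lit 1) (nat_lit 9) .nil))))))))))))) .leaf)) (nat_lit 191488) (nat_lit 528) (.p (nat_lit 262) (nat_lit 28) (.p (nat_lit 263) (nat_lit 52) (.p (nat_lit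 264) (nat_lit 11) (.p (nat_lit 265) (nat_lit 25) (.p (nat_lit 266) (nat_lit 4) (.p (nat_lit 267) (nat_lit 52) (.n (nat_lit 268) (nat_lit 39) (.n (nat_lit 269) (nat_lit 44) (.n (nat_lit 270) (nat_lit 12) (.p (nat_lit 271) (nat_lit 10) (.p (nat_lit 272) (nat_lit 15) (.n (nat_lit 273) (nat_lit 11) (.p (nat_lit 274) (nat_lit 2) (.n (nat_lit 275) (nat_lit 6) (.p (nat_lit 276) (nat_lit 18) (.p (nat_lit 277) (nat_lit 3) (.n (nat_lit 278) (nat_lit 16) (.n (nat_lit 280) (nat_lit 34) (.n (nat_lit 281) (nat_lit 5) (.p (nat_lit 282) (nat_lit 37) (.p (nat_lit 283) (nat_lit 46) (.n (nat_lit 284) (nat_lit 13) (.n (nat_lit 285) (nat_lit 13) (.n (nat_lit 286) (nat_lit 18) (.n (nat_lit 287) (nat_lit 45) (.p (nat_lit 288) (nat_lit 27) (.n (nat_lit 289) (nat_lit 9) (.n (nat_lit 290) (nat_lit 6) (.n (nat_lit 291) (nat_lit 21) (.p (nat_lit 292) (nat_lit 21) (.p (nat_lit 293) (nat_lit 27) (.p (nat_lit 294) (nat_lit 15) (.p (nat_lit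 295) (nat_lit 3) (.p (nat_lit 296) (nat_lit 27) (.p (nat_lit 297) (nat_lit 27) (.n (nat_lit 298) (nat_lit 3) (.p (nat_lit 299) (nat_lit 27) (.p (nat_lit 300) (nat_lit 21) (.p (nat_lit 301) (nat_lit 6) (.n (nat_lit 302) (nat_lit 3) (.n (nat_lit 303) (nat_lit 30) (.n (nat_lit 304) (nat_lit 27) (.n (nat_lit 305) (nat_lit 27) (.p (nat_lit 306) (nat_lit 39) (.p (nat_lit 307) (nat_lit 15) (.n (nat_lit 308) (nat_lit 24) .z)))))))))))))))))))))))))))))))))))))))))))))) (.ct dr2_c4371 (nat_lit 18) (nat_lit 14) (.s true (nat_lit 1) (nat_lit 7) (nat_lit 6) (nat_lit 3) (nat_lit 3) true (nat_lit 0) true (nat_lit 11) true (nat_lit 7) true (nat_lit 8) true (nat_lit 11) (.s true (nat_lit 1) (nat_lit 10) (nat_lit 6) (nat_lit 3) (nat_lit 0) true (nat_lit 3) true (nat_lit 14) true (nat_lit 4) true (nat_lit 8) true (nat_lit 11) (.s false (nat_lit 1) (nat_lit 23) (nat_lit 0) (nat_lit 3) (nat_lit 3) true (nat_lit 7) true (nat_lit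 11) true (nat_lit 0) true (nat_lit 14) true (nat_lit 11) dr2_i66)))) (.nd (.nd .leaf (nat_lit 191489) (nat_lit 600) (.p (nat_lit 309) (nat_lit 18) (.n (nat_lit 310) (nat_lit 18) (.n (nat_lit 312) (nat_lit 72) (.n (nat_lit 313) (nat_lit 36) (.p (nat_lit 315) (nat_lit 36) (.p (nat_lit 316) (nat_lit 36) (.n (nat_lit 317) (nat_lit 72) (.n (nat_lit 318) (nat_lit 18) (.n (nat_lit 319) (nat_lit 18) (.p (nat_lit 320) (nat_lit 36) (.p (nat_lit 321) (nat_lit 72) (.p (nat_lit 322) (nat_lit 18) (.p (nat_lit 323) (nat_lit 54) (.n (nat_lit 324) (nat_lit 36) (.p (nat_lit 325) (nat_lit 36) (.n (nat_lit 326) (nat_lit 36) (.n (nat_lit 329) (nat_lit 18) .z))))))))))))))))) (.ct dr2_c531 (nat_lit 18) (nat_lit 9) (.s false (nat_lit 1) (nat_lit 8) (nat_lit 2) (nat_lit 3) (nat_lit 8) true (nat_lit 0) true (nat_lit 5) true (nat_lit 5) true (nat_lit 8) true (nat_lit 7) (.s true (nat_lit 1) (nat_lit 8) (nat_lit 2) (nat_lit 8) (nat_lit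 3) true (nat_lit 4) true (nat_lit 7) true (nat_lit 5) true (nat_lit 8) true (nat_lit 5) (.s true (nat_lit 1) (nat_lit 9) (nat_lit 8) (nat_lit 1) (nat_lit 3) false (nat_lit 0) true (nat_lit 7) true (nat_lit 4) true (nat_lit 5) true (nat_lit 9) (.s true (nat_lit 1) (nat_lit 10) (nat_lit 1) (nat_lit 9) (nat_lit 1) false (nat_lit 10) true (nat_lit 9) true (nat_lit 3) true (nat_lit 9) true (nat_lit 4) (.s false (nat_lit 1) (nat_lit 23) (nat_lit 1) (nat_lit 3) (nat_lit 3) true (nat_lit 5) true (nat_lit 7) true (nat_lit 0) true (nat_lit 9) true (nat_lit 7) (.s false (nat_lit 1) (nat_lit 25) (nat_lit 3) (nat_lit 1) (nat_lit 3) true (nat_lit 3) true (nat_lit 7) true (nat_lit 0) true (nat_lit 7) true (nat_lit 9) (.s false (nat_lit 1) (nat_lit 28) (nat_lit 1) (nat_lit 2) (nat_lit 3) true (nat_lit 5) true (nat_lit 7) false (nat_lit 0) true (nat_lit 9) true (nat_lit 8) (.s false (nat_lit 1) (nat_lit 28) (nat_lit 3) (nat_lit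 1) (nat_lit 2) true (nat_lit 4) true (nat_lit 8) false (nat_lit 0) true (nat_lit 7) true (nat_lit 9) (.e false (nat_lit 36) (nat_lit 71) (nat_lit 8) (nat_lit 5) (.e false (nat_lit 18) (nat_lit 70) (nat_lit 8) (nat_lit 5) (.e false (nat_lit 18) (nat_lit 145) (nat_lit 3) (nat_lit 7) (.e false (nat_lit 36) (nat_lit 146) (nat_lit 3) (nat_lit 7) (.e true (nat_lit 36) (nat_lit 179) (nat_lit 1) (nat_lit 9) (.e true (nat_lit 18) (nat_lit 181) (nat_lit 1) (nat_lit 9) (.e true (nat_lit 36) (nat_lit 178) (nat_lit 1) (nat_lit 9) (.e false (nat_lit 36) (nat_lit 182) (nat_lit 1) (nat_lit 9) (.e true (nat_lit 54) (nat_lit 183) (nat_lit 1) (nat_lit 9) .nil)))))))))))))))))) .leaf) (nat_lit 192512) (nat_lit 551) (.p (nat_lit 262) (nat_lit 116) (.n (nat_lit 263) (nat_lit 34) (.p (nat_lit 264) (nat_lit 133) (.p (nat_lit 265) (nat_lit 119) (.n (nat_lit 266) (nat_lit 112) (.p (nat_lit 267) (nat_lit 146) (.n (nat_lit 268) (nat_lit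 141) (.p (nat_lit 269) (nat_lit 98) (.n (nat_lit 270) (nat_lit 96) (.p (nat_lit 271) (nat_lit 44) (.p (nat_lit 272) (nat_lit 291) (.n (nat_lit 273) (nat_lit 43) (.p (nat_lit 274) (nat_lit 70) (.n (nat_lit 275) (nat_lit 174) (.n (nat_lit 276) (nat_lit 288) (.p (nat_lit 277) (nat_lit 303) (.n (nat_lit 278) (nat_lit 362) (.p (nat_lit 280) (nat_lit 142) (.p (nat_lit 281) (nat_lit 311) (.n (nat_lit 282) (nat_lit 307) (.n (nat_lit 283) (nat_lit 10) (.n (nat_lit 284) (nat_lit 23) (.n (nat_lit 285) (nat_lit 545) (.n (nat_lit 286) (nat_lit 126) (.n (nat_lit 287) (nat_lit 153) (.p (nat_lit 288) (nat_lit 45) (.p (nat_lit 289) (nat_lit 81) (.n (nat_lit 290) (nat_lit 102) (.n (nat_lit 291) (nat_lit 51) (.n (nat_lit 292) (nat_lit 3) (.p (nat_lit 293) (nat_lit 45) (.p (nat_lit 294) (nat_lit 93) (.p (nat_lit 295) (nat_lit 105) (.p (nat_lit 296) (nat_lit 9) (.n (nat_lit 297) (nat_lit 9) (.n (nat_lit 298) (nat_lit 51) (.n (nat_lit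 299) (nat_lit 9) (.p (nat_lit 300) (nat_lit 69) (.p (nat_lit 301) (nat_lit 48) (.n (nat_lit 302) (nat_lit 87) (.n (nat_lit 303) (nat_lit 60) (.n (nat_lit 304) (nat_lit 27) (.n (nat_lit 305) (nat_lit 9) (.n (nat_lit 306) (nat_lit 21) (.p (nat_lit 307) (nat_lit 3) (.p (nat_lit 308) (nat_lit 24) .z)))))))))))))))))))))))))))))))))))))))))))))) (.ct dr2_c4371 (nat_lit 18) (nat_lit 14) (.s true (nat_lit 1) (nat_lit 20) (nat_lit 1) (nat_lit 3) (nat_lit 3) true (nat_lit 6) true (nat_lit 11) true (nat_lit 1) true (nat_lit 13) true (nat_lit 11) (.s true (nat_lit 1) (nat_lit 28) (nat_lit 0) (nat_lit 2) (nat_lit 3) true (nat_lit 7) true (nat_lit 11) false (nat_lit 1) true (nat_lit 14) true (nat_lit 12) (.e true (nat_lit 18) (nat_lit 64) (nat_lit 8) (nat_lit 6) (.e true (nat_lit 18) (nat_lit 121) (nat_lit 3) (nat_lit 11) (.e false (nat_lit 18) (nat_lit 176) (nat_lit 1) (nat_lit 13) (.e true (nat_lit 18) (nat_lit 131)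 (nat_lit 3) (nat_lit 11) (.e true (nat_lit 18) (nat_lit 73) (nat_lit 7) (nat_lit 7) (.e true (nat_lit 18) (nat_lit 130) (nat_lit 3) (nat_lit 11) (.e true (nat_lit 18) (nat_lit 151) (nat_lit 2) (nat_lit 12) (.e true (nat_lit 36) (nat_lit 152) (nat_lit 2) (nat_lit 12) (.e false (nat_lit 18) (nat_lit 153) (nat_lit 2) (nat_lit 12) (.e true (nat_lit 18) (nat_lit 154) (nat_lit 2) (nat_lit 12) (.e true (nat_lit 18) (nat_lit 156) (nat_lit 2) (nat_lit 12) (.e false (nat_lit 18) (nat_lit 157) (nat_lit 2) (nat_lit 12) (.e false (nat_lit 18) (nat_lit 158) (nat_lit 2) (nat_lit 12) (.e false (nat_lit 18) (nat_lit 159) (nat_lit 2) (nat_lit 12) (.e false (nat_lit 18) (nat_lit 160) (nat_lit 2) (nat_lit 12) (.e true (nat_lit 18) (nat_lit 161) (nat_lit 2) (nat_lit 12) .nil))))))))))))))))))) (.nd .leaf (nat_lit 192513) (nat_lit 593) (.p (nat_lit 329) (nat_lit 18) .z) .df .leaf))))))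

noncomputable def dr2_t12 : Tr := (.nd dr2_t10 (nat_lit 147459) (nat_lit 575) (.p (nat_lit 311) (nat_lit 18) .z) .df dr2_t11)

noncomputable def dr2_t13 : Tr := (.nd dr2_t9 (nat_lit 107522) (nat_lit 365) (.p (nat_lit 189) (nat_lit 9) (.n (nat_lit 190) (nat_lit 27) (.p (nat_lit 191) (nat_lit 45) (.n (nat_lit 192) (nat_lit 12) (.n (nat_lit 193) (nat_lit 48) (.n (nat_lit 194) (nat_lit 51) (.n (nat_lit 195) (nat_lit 66) (.n (nat_lit 196) (nat_lit 75) (.n (nat_lit 197) (nat_lit 102) (.p (nat_lit 198) (nat_lit 72) (.p (nat_lit 199) (nat_lit 51) (.p (nat_lit 200) (nat_lit 54) (.p (nat_lit 201) (nat_lit 96) (.p (nat_lit 202) (nat_lit 45) (.p (nat_lit 203) (nat_lit 78) (.n (nat_lit 204) (nat_lit 33) (.p (nat_lit 205) (nat_lit 63) (.n (nat_lit 206) (nat_lit 36) (.p (nat_lit 207) (nat_lit 27) (.p (nat_lit 208) (nat_lit 21) (.p (nat_lit 209) (nat_lit 18) (.p (nat_lit 210) (nat_lit 21) (.n (nat_lit 211) (nat_lit 39) (.p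 (nat_lit 212) (nat_lit 15) (.p (nat_lit 213) (nat_lit 24) (.p (nat_lit 214) (nat_lit 3) (.n (nat_lit 215) (nat_lit 6) (.p (nat_lit 217) (nat_lit 18) (.n (nat_lit 218) (nat_lit 27) (.n (nat_lit 220) (nat_lit 27) (.p (nat_lit 222) (nat_lit 27) (.p (nat_lit 224) (nat_lit 63) (.n (nat_lit 225) (nat_lit 45) (.p (nat_lit 226) (nat_lit 45) (.n (nat_lit 227) (nat_lit 18) (.p (nat_lit 228) (nat_lit 27) (.p (nat_lit 229) (nat_lit 18) (.p (nat_lit 230) (nat_lit 18) (.p (nat_lit 232) (nat_lit 27) (.n (nat_lit 233) (nat_lit 18) (.n (nat_lit 235) (nat_lit 27) (.n (nat_lit 237) (nat_lit 36) (.p (nat_lit 239) (nat_lit 36) (.p (nat_lit 240) (nat_lit 36) .z)))))))))))))))))))))))))))))))))))))))))))) (.ct dr2_c4626 (nat_lit 18) (nat_lit 13) (.s true (nat_lit 1) (nat_lit 8) (nat_lit 4) (nat_lit 2) (nat_lit 3) true (nat_lit 1) true (nat_lit 12) true (nat_lit 7) true (nat_lit 11) true (nat_lit 13) (.s false (nat_lit 1) (nat_lit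 16) (nat_lit 2) (nat_lit 1) (nat_lit 3) true (nat_lit 6) true (nat_lit 12) true (nat_lit 1) true (nat_lit 13) true (nat_lit 14) (.s false (nat_lit 1) (nat_lit 16) (nat_lit 3) (nat_lit 1) (nat_lit 2) true (nat_lit 6) true (nat_lit 13) true (nat_lit 1) true (nat_lit 12) true (nat_lit 14) (.s false (nat_lit 1) (nat_lit 23) (nat_lit 0) (nat_lit 1) (nat_lit 3) true (nat_lit 8) true (nat_lit 12) false (nat_lit 1) true (nat_lit 15) true (nat_lit 14) (.e false (nat_lit 18) (nat_lit 41) (nat_lit 8) (nat_lit 7) dr2_i28)))))) dr2_t12)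

noncomputable def dr2_t14 : Tr := (.nd dr2_t6 (nat_lit 57350) (nat_lit 377) (.p (nat_lit 189) (nat_lit 18) (.n (nat_lit 190) (nat_lit 18) (.p (nat_lit 191) (nat_lit 18) (.p (nat_lit 201) (nat_lit 18) (.p (nat_lit 202) (nat_lit 18) (.n (nat_lit 206) (nat_lit 18) (.p (nat_lit 207) (nat_lit 18) (.n (nat_lit 208) (nat_lit 18) (.p (nat_lit 211) (nat_lit 18) (.n (nat_lit 212) (nat_lit 18) (.n (nat_lit 215) (nat_lit 18) (.n (nat_lit 228) (nat_lit 18) (.p (nat_lit 232) (nat_lit 18) (.n (nat_lit 235) (nat_lit 18) (.p (nat_lit 238) (nat_lit 18) .z))))))))))))))) (.ct dr2_c4626 (nat_lit 18) (nat_lit 9) (.s false (nat_lit 1) (nat_lit 9) (nat_lit 7) (nat_lit 1) (nat_lit 1) true (nat_lit 1) true (nat_lit 14) true (nat_lit 6) true (nat_lit 8) true (nat_lit 14) (.s false (nat_lit 1) (nat_lit 17) (nat_lit 2) (nat_lit 1) (nat_lit 3) true (nat_lit 6) true (nat_lit 12) true (nat_lit 1) true (nat_lit 13) true (nat_lit 14) (.s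 false (nat_lit 1) (nat_lit 17) (nat_lit 2) (nat_lit 3) (nat_lit 1) true (nat_lit 9) true (nat_lit 14) true (nat_lit 1) true (nat_lit 13) true (nat_lit 12) (.s false (nat_lit 1) (nat_lit 23) (nat_lit 0) (nat_lit 3) (nat_lit 1) true (nat_lit 11) true (nat_lit 14) false (nat_lit 1) true (nat_lit 15) true (nat_lit 12) (.e true (nat_lit 18) (nat_lit 131) (nat_lit 1) (nat_lit 14) (.e false (nat_lit 18) (nat_lit 134) (nat_lit 1) (nat_lit 14) (.e true (nat_lit 18) (nat_lit 135) (nat_lit 1) (nat_lit 14) (.e false (nat_lit 18) (nat_lit 125) (nat_lit 1) (nat_lit 14) (.e true (nat_lit 18) (nat_lit 129) (nat_lit 1) (nat_lit 14) (.e false (nat_lit 18) (nat_lit 130) (nat_lit 1) (nat_lit 14) (.e true (nat_lit 18) (nat_lit 139) (nat_lit 1) (nat_lit 14) (.e false (nat_lit 18) (nat_lit 96) (nat_lit 3) (nat_lit 12) (.e true (nat_lit 18) (nat_lit 90) (nat_lit 3) (nat_lit 12) (.e false (nat_lit 18) (nat_lit 70) (nat_lit 4) (nat_lit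 11) (.e false (nat_lit 18) (nat_lit 124) (nat_lit 1) (nat_lit 14) (.e false (nat_lit 18) (nat_lit 141) (nat_lit 0) (nat_lit 15) (.e true (nat_lit 18) (nat_lit 146) (nat_lit 0) (nat_lit 15) (.e false (nat_lit 18) (nat_lit 147) (nat_lit 0) (nat_lit 15) (.e true (nat_lit 18) (nat_lit 102) (nat_lit 3) (nat_lit 12) .nil)))))))))))))))))))) dr2_t13)

noncomputable def dr2_cl : CL := (.c (nat_lit 4096) (nat_lit 0) (nat_lit 1) (.c (nat_lit 256) (nat_lit 1) (nat_lit 1) (.c (nat_lit 16) (nat_lit 2) (nat_lit 1) (.c (nat_lit 1) (nat_lit 3) (nat_lit 1) (.c (nat_lit 4352) (nat_lit 4) (nat_lit 1) (.c (nat_lit 512) (nat_lit 2512) (nat_lit 0) (.c (nat_lit 4112) (nat_lit 5) (nat_lit 1) (.c (nat_lit 272) (nat_lit 6) (nat_lit 1) (.c (nat_lit 4097) (nat_lit 7) (nat_lit 1) (.c (nat_lit 257) (nat_lit 8) (nat_lit 1) (.c (nat_lit 17) (nat_lit 9) (nat_lit 1) (.c (nat_lit 2) (nat_lit 10) (nat_lit 1) (.c (nat_lit 4608) (nat_lit 11) (nat_lit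 1) (.c (nat_lit 4368) (nat_lit 12) (nat_lit 3) (.c (nat_lit 528) (nat_lit 15) (nat_lit 1) (.c (nat_lit 4353) (nat_lit 16) (nat_lit 3) (.c (nat_lit 513) (nat_lit 19) (nat_lit 1) (.c (nat_lit 4113) (nat_lit 20) (nat_lit 3) (.c (nat_lit 273) (nat_lit 23) (nat_lit 3) (.c (nat_lit 4098) (nat_lit 26) (nat_lit 2) (.c (nat_lit 258) (nat_lit 28) (nat_lit 2) (.c (nat_lit 18) (nat_lit 30) (nat_lit 2) (.c (nat_lit 3) (nat_lit 32) (nat_lit 1) (.c (nat_lit 4624) (nat_lit 33) (nat_lit 4) (.c (nat_lit 4609) (nat_lit 37) (nat_lit 4) (.c (nat_lit 4369) (nat_lit 41) (nat_lit 10) (.c (nat_lit 529) (nat_lit 51) (nat_lit 4) (.c (nat_lit 4354) (nat_lit 55) (nat_lit 6) (.c (nat_lit 514) (nat_lit 61) (nat_lit 3) (.c (nat_lit 4114) (nat_lit 64) (nat_lit 6) (.c (nat_lit 274) (nat_lit 70) (nat_lit 6) (.c (nat_lit 4099) (nat_lit 76) (nat_lit 3) (.c (nat_lit 259) (nat_lit 79) (nat_lit 3) (.c (nat_lit 19) (nat_lit 82) (nat_lit 3) (.c (nat_lit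 4625) (nat_lit 85) (nat_lit 19) (.c (nat_lit 4610) (nat_lit 104) (nat_lit 11) (.c (nat_lit 4370) (nat_lit 115) (nat_lit 25) (.c (nat_lit 530) (nat_lit 140) (nat_lit 11) (.c (nat_lit 4355) (nat_lit 151) (nat_lit 11) (.c (nat_lit 515) (nat_lit 162) (nat_lit 5) (.c (nat_lit 4115) (nat_lit 167) (nat_lit 11) (.c (nat_lit 275) (nat_lit 178) (nat_lit 11) (.c (nat_lit 4626) (nat_lit 189) (nat_lit 52) (.c (nat_lit 4611) (nat_lit 241) (nat_lit 21) (.c (nat_lit 4371) (nat_lit 262) (nat_lit 47) (.c (nat_lit 531) (nat_lit 309) (nat_lit 21) .nil))))))))))))))))))))))))))))))))))))))))))))))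

noncomputable def dr2_D : Dt := ⟨(nat_lit 18446744073709551616), (nat_lit 9223372036854775808), (nat_lit 18), (nat_lit 330), (nat_lit 329864702277913190007838801077579180927748520826313200676469624708957991333535560079816015714400998902586643113710920040420184596871780191984890731542289478502324587743384740491523337424298560358183931291055297570003991219127499828240520974318636063661440368206484014945946099535565331910387060757472423805161742733011910819732360977692888915382626395859412917325130536007894393696605324514412692920120065633800262088548661379181958651073714228019393160586627070340676510796876984255508396425065186132697571985877887020765881107533805888190565674778463806316183111523498397568985883963912659209642322319249870247697099760165342889743171362673881661691244073910652564800454028202518819016887332634044061268536768244545248168631589745629934150640326902292332611856740889906798889484875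5514681148846244059145076339696307858730362456906985148973740663578133097798616283011007911851828485783324373874317210327924657630992742461664088248827961152076861720142970109350800186648339616115258539491851460506146378735177580171447252280998141147105377076028266791286932892443725507054026837326107198123906312008905344146945605773581837129350924066421985549956061470219686646166168130264077915826150550292150469471365375962177107351991406263731942463403587507139080444593091936319934499543846052928590613020090249448322752736552890761047902601939496944806807564463394292221678915806586798304528087104799184508722577481686727650336676432983107633860163191111179168925929025666977527108575894817848333592110732279657269846031859473160956326729752209497882334859582628545398812329570919556058584975880691575801913798292075719942372944098991476792088105776642246938110951537213139410233753193966521188477731825305937075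101949757943230701188536104790216454396432430435554670655176770397337879499268262252076911127762747120925580378497826811186882816810886899158560188996598157687050322468988597056426762952368095046066301500282926511825752237842668340544465438485067998639012041998308966039642756602524223325865802360666792849975213927553155620974783544525065262452680050187561036586571034487759268451670402809338688687684867056879546519516855912231391695726713095667911571351535857251364278892043420169985151708097949476415923083028758926033795725209993927254515927059364461633815094731296925876150161954196843130672494881431757755804172569740140231870645465670834486804944580708899546838922187243527), (nat_lit 2187250724783011924372502223583927235796401556364334355420533668816763626699396174718467756546524040), dr2_t14, dr2_cl⟩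

noncomputable def dr2_gs : BL := (.c (nat_lit 33) (nat_lit 4) (nat_lit 32) (nat_lit 1) (nat_lit 0) (.c (nat_lit 37) (nat_lit 4) (nat_lit 30) (nat_lit 2) (nat_lit 4) (.c (nat_lit 41) (nat_lit 10) (nat_lit 28) (nat_lit 2) (nat_lit 12) (.c (nat_lit 51) (nat_lit 4) (nat_lit 26) (nat_lit 2) (nat_lit 32) (.c (nat_lit 55) (nat_lit 6) (nat_lit 23) (nat_lit 3) (nat_lit 40) (.c (nat_lit 61) (nat_lit 3) (nat_lit 20) (nat_lit 3) (nat_lit 58) (.c (nat_lit 64) (nat_lit 6) (nat_lit 19) (nat_lit 1) (nat_lit 67) (.c (nat_lit 70) (nat_lit 6) (nat_lit 16) (nat_lit 3) (nat_lit 73) (.c (nat_lit 76) (nat_lit 3) (nat_lit 15) (nat_lit 1) (nat_lit 91) (.c (nat_lit 79) (nat_lit 3) (nat_lit 12) (nat_lit 3) (nat_lit 94) (.c (nat_lit 82) (nat_lit 3) (nat_lit 11) (nat_lit 1) (nat_lit 103) (.c (nat_lit 85) (nat_lit 19) (nat_lit 10) (nat_lit 1) (nat_lit 106) (.c (nat_lit 104) (nat_lit 11) (nat_lit 9) (nat_lit 1) (nat_lit 125) (.c (nat_lit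 115) (nat_lit 25) (nat_lit 8) (nat_lit 1) (nat_lit 136) (.c (nat_lit 140) (nat_lit 11) (nat_lit 7) (nat_lit 1) (nat_lit 161) (.c (nat_lit 151) (nat_lit 11) (nat_lit 6) (nat_lit 1) (nat_lit 172) (.c (nat_lit 162) (nat_lit 5) (nat_lit 5) (nat_lit 1) (nat_lit 183) (.c (nat_lit 178) (nat_lit 11) (nat_lit 4) (nat_lit 1) (nat_lit 188) (.c (nat_lit 189) (nat_lit 52) (nat_lit 3) (nat_lit 1) (nat_lit 199) (.c (nat_lit 241) (nat_lit 21) (nat_lit 2) (nat_lit 1) (nat_lit 251) (.c (nat_lit 262) (nat_lit 47) (nat_lit 1) (nat_lit 1) (nat_lit 272) (.c (nat_lit 309) (nat_lit 21) (nat_lit 0) (nat_lit 1) (nat_lit 319) (.c (nat_lit 2512) (nat_lit 0) (nat_lit 167) (nat_lit 11) (nat_lit 340) .nil)))))))))))))))))))))))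

noncomputable def dr2_i78 : IL := (.s true (nat_lit 752119506) (nat_lit 67) (nat_lit 3) (nat_lit 1) (nat_lit 1) true (nat_lit 13) true (nat_lit 20) false (nat_lit 6) true (nat_lit 18) true (nat_lit 20) (.s false (nat_lit 4256881776) (nat_lit 70) (nat_lit 0) (nat_lit 1) (nat_lit 3) true (nat_lit 14) true (nat_lit 18) false (nat_lit 7) true (nat_lit 21) true (nat_lit 20) (.s true (nat_lit 576539856) (nat_lit 74) (nat_lit 0) (nat_lit 1) (nat_lit 3) true (nat_lit 14) true (nat_lit 18) false (nat_lit 7) true (nat_lit 21) true (nat_lit 20) (.s false (nat_lit 143117280) (nat_lit 72) (nat_lit 0) (nat_lit 3) (nat_lit 1) true (nat_lit 17) true (nat_lit 20) false (nat_lit 7) true (nat_lit 21) true (nat_lit 18) (.s true (nat_lit 385028640) (nat_lit 74) (nat_lit 1) (nat_lit 0) (nat_lit 3) true (nat_lit 13) true (nat_lit 18) false (nat_lit 7) true (nat_lit 20) true (nat_lit 21) (.s false (nat_lit 1536026328) (nat_lit 70)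 (nat_lit 1) (nat_lit 3) (nat_lit 0) true (nat_lit 17) true (nat_lit 21) false (nat_lit 7) true (nat_lit 20) true (nat_lit 18) (.s false (nat_lit 664673040) (nat_lit 72) (nat_lit 1) (nat_lit 3) (nat_lit 0) true (nat_lit 17) true (nat_lit 21) false (nat_lit 7) true (nat_lit 20) true (nat_lit 18) (.s true (nat_lit 5388110442) (nat_lit 70) (nat_lit 3) (nat_lit 0) (nat_lit 1) true (nat_lit 13) true (nat_lit 20) false (nat_lit 7) true (nat_lit 18) true (nat_lit 21) (.s false (nat_lit 440129376) (nat_lit 71) (nat_lit 3) (nat_lit 0) (nat_lit 1) true (nat_lit 13) true (nat_lit 20) false (nat_lit 7) true (nat_lit 18) true (nat_lit 21) (.s true (nat_lit 290713536) (nat_lit 74) (nat_lit 3) (nat_lit 0) (nat_lit 1) true (nat_lit 13) true (nat_lit 20) false (nat_lit 7) true (nat_lit 18) true (nat_lit 21) (.s false (nat_lit 2333120760) (nat_lit 70) (nat_lit 3) (nat_lit 1) (nat_lit 0) true (nat_lit 14) true (nat_lit 21) false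 (nat_lit 7) true (nat_lit 18) true (nat_lit 20) (.s false (nat_lit 2920378374) (nat_lit 78) (nat_lit 1) (nat_lit 1) (nat_lit 2) true (nat_lit 15) true (nat_lit 19) false (nat_lit 8) true (nat_lit 20) true (nat_lit 20) (.s false (nat_lit 2078300268) (nat_lit 77) (nat_lit 2) (nat_lit 1) (nat_lit 1) true (nat_lit 15) true (nat_lit 20) false (nat_lit 8) true (nat_lit 19) true (nat_lit 20) (.s false (nat_lit 2203772832) (nat_lit 78) (nat_lit 2) (nat_lit 1) (nat_lit 1) true (nat_lit 15) true (nat_lit 20) false (nat_lit 8) true (nat_lit 19) true (nat_lit 20) (.s false (nat_lit 1192247424) (nat_lit 80) (nat_lit 0) (nat_lit 2) (nat_lit 1) true (nat_lit 17) true (nat_lit 20) false (nat_lit 9) true (nat_lit 21) true (nat_lit 19) (.s false (nat_lit 2010150432) (nat_lit 81) (nat_lit 0) (nat_lit 2) (nat_lit 1) true (nat_lit 17) true (nat_lit 20) false (nat_lit 9) true (nat_lit 21) true (nat_lit 19) (.s false (nat_lit 1350714528)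 (nat_lit 80) (nat_lit 1) (nat_lit 2) (nat_lit 0) true (nat_lit 17) true (nat_lit 21) false (nat_lit 9) true (nat_lit 20) true (nat_lit 19) (.s false (nat_lit 2349992736) (nat_lit 81) (nat_lit 1) (nat_lit 2) (nat_lit 0) true (nat_lit 17) true (nat_lit 21) false (nat_lit 9) true (nat_lit 20) true (nat_lit 19) (.s false (nat_lit 1095354576) (nat_lit 80) (nat_lit 2) (nat_lit 0) (nat_lit 1) true (nat_lit 15) true (nat_lit 20) false (nat_lit 9) true (nat_lit 19) true (nat_lit 21) (.s false (nat_lit 1659839688) (nat_lit 81) (nat_lit 2) (nat_lit 0) (nat_lit 1) true (nat_lit 15) true (nat_lit 20) false (nat_lit 9) true (nat_lit 19) true (nat_lit 21) (.s false (nat_lit 206966016) (nat_lit 80) (nat_lit 2) (nat_lit 1) (nat_lit 0) true (nat_lit 16) true (nat_lit 21) false (nat_lit 9) true (nat_lit 19) true (nat_lit 20) (.s false (nat_lit 276349320) (nat_lit 81) (nat_lit 2) (nat_lit 1) (nat_lit 0) true (nat_lit 16) true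 (nat_lit 21) false (nat_lit 9) true (nat_lit 19) true (nat_lit 20) (.s true (nat_lit 5482080) (nat_lit 82) (nat_lit 1) (nat_lit 0) (nat_lit 1) false (nat_lit 22) true (nat_lit 20) false (nat_lit 10) true (nat_lit 20) true (nat_lit 21) (.s true (nat_lit 328294944) (nat_lit 83) (nat_lit 1) (nat_lit 0) (nat_lit 1) false (nat_lit 22) true (nat_lit 20) false (nat_lit 10) true (nat_lit 20) true (nat_lit 21) (.s false (nat_lit 297128736) (nat_lit 84) (nat_lit 1) (nat_lit 0) (nat_lit 1) false (nat_lit 22) true (nat_lit 20) false (nat_lit 10) true (nat_lit 20) true (nat_lit 21) .nil)))))))))))))))))))))))))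

noncomputable def dr2_i79 : IL := (.s false (nat_lit 1620359964) (nat_lit 56) (nat_lit 2) (nat_lit 1) (nat_lit 3) true (nat_lit 12) true (nat_lit 18) false (nat_lit 4) true (nat_lit 19) true (nat_lit 20) (.s false (nat_lit 978457968) (nat_lit 57) (nat_lit 2) (nat_lit 1) (nat_lit 3) true (nat_lit 12) true (nat_lit 18) false (nat_lit 4) true (nat_lit 19) true (nat_lit 20) (.s false (nat_lit 981780750) (nat_lit 59) (nat_lit 2) (nat_lit 1) (nat_lit 3) true (nat_lit 12) true (nat_lit 18) false (nat_lit 4) true (nat_lit 19) true (nat_lit 20) (.s false (nat_lit 1348160112) (nat_lit 60) (nat_lit 2) (nat_lit 1) (nat_lit 3) true (nat_lit 12) true (nat_lit 18) false (nat_lit 4) true (nat_lit 19) true (nat_lit 20) (.s false (nat_lit 3935986182) (nat_lit 55) (nat_lit 2) (nat_lit 3) (nat_lit 1) true (nat_lit 15) true (nat_lit 20) false (nat_lit 4) true (nat_lit 19) true (nat_lit 18) (.s false (nat_lit 2853269550) (nat_lit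 56) (nat_lit 2) (nat_lit 3) (nat_lit 1) true (nat_lit 15) true (nat_lit 20) false (nat_lit 4) true (nat_lit 19) true (nat_lit 18) (.s true (nat_lit 2925191232) (nat_lit 57) (nat_lit 2) (nat_lit 3) (nat_lit 1) true (nat_lit 15) true (nat_lit 20) false (nat_lit 4) true (nat_lit 19) true (nat_lit 18) (.s false (nat_lit 2155915440) (nat_lit 58) (nat_lit 2) (nat_lit 3) (nat_lit 1) true (nat_lit 15) true (nat_lit 20) false (nat_lit 4) true (nat_lit 19) true (nat_lit 18) (.s false (nat_lit 851466168) (nat_lit 59) (nat_lit 2) (nat_lit 3) (nat_lit 1) true (nat_lit 15) true (nat_lit 20) false (nat_lit 4) true (nat_lit 19) true (nat_lit 18) (.s false (nat_lit 711643968) (nat_lit 60) (nat_lit 2) (nat_lit 3) (nat_lit 1) true (nat_lit 15) true (nat_lit 20) false (nat_lit 4) true (nat_lit 19) true (nat_lit 18) (.s true (nat_lit 3358104966) (nat_lit 58) (nat_lit 3) (nat_lit 1) (nat_lit 2) true (nat_lit 12) true (nat_lit 19)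 false (nat_lit 4) true (nat_lit 18) true (nat_lit 20) (.s true (nat_lit 942276240) (nat_lit 59) (nat_lit 3) (nat_lit 1) (nat_lit 2) true (nat_lit 12) true (nat_lit 19) false (nat_lit 4) true (nat_lit 18) true (nat_lit 20) (.s false (nat_lit 851969178) (nat_lit 60) (nat_lit 3) (nat_lit 1) (nat_lit 2) true (nat_lit 12) true (nat_lit 19) false (nat_lit 4) true (nat_lit 18) true (nat_lit 20) (.s false (nat_lit 2899196550) (nat_lit 55) (nat_lit 3) (nat_lit 2) (nat_lit 1) true (nat_lit 13) true (nat_lit 20) false (nat_lit 4) true (nat_lit 18) true (nat_lit 19) (.s false (nat_lit 5028127326) (nat_lit 56) (nat_lit 3) (nat_lit 2) (nat_lit 1) true (nat_lit 13) true (nat_lit 20) false (nat_lit 4) true (nat_lit 18) true (nat_lit 19) (.s true (nat_lit 2715974064) (nat_lit 57) (nat_lit 3) (nat_lit 2) (nat_lit 1) true (nat_lit 13) true (nat_lit 20) false (nat_lit 4) true (nat_lit 18) true (nat_lit 19) (.s true (nat_lit 716621580)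 (nat_lit 59) (nat_lit 3) (nat_lit 2) (nat_lit 1) true (nat_lit 13) true (nat_lit 20) false (nat_lit 4) true (nat_lit 18) true (nat_lit 19) (.s false (nat_lit 195651936) (nat_lit 60) (nat_lit 3) (nat_lit 2) (nat_lit 1) true (nat_lit 13) true (nat_lit 20) false (nat_lit 4) true (nat_lit 18) true (nat_lit 19) (.s false (nat_lit 1002660768) (nat_lit 63) (nat_lit 3) (nat_lit 0) (nat_lit 2) true (nat_lit 12) true (nat_lit 19) false (nat_lit 5) true (nat_lit 18) true (nat_lit 21) (.s true (nat_lit 619631046) (nat_lit 64) (nat_lit 1) (nat_lit 1) (nat_lit 3) true (nat_lit 13) true (nat_lit 18) false (nat_lit 6) true (nat_lit 20) true (nat_lit 20) (.s false (nat_lit 4409264646) (nat_lit 65) (nat_lit 1) (nat_lit 1) (nat_lit 3) true (nat_lit 13) true (nat_lit 18) false (nat_lit 6) true (nat_lit 20) true (nat_lit 20) (.s false (nat_lit 2363960376) (nat_lit 67) (nat_lit 1) (nat_lit 1) (nat_lit 3) true (nat_lit 13) true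 (nat_lit 18) false (nat_lit 6) true (nat_lit 20) true (nat_lit 20) (.s false (nat_lit 2323923696) (nat_lit 68) (nat_lit 1) (nat_lit 1) (nat_lit 3) true (nat_lit 13) true (nat_lit 18) false (nat_lit 6) true (nat_lit 20) true (nat_lit 20) (.s true (nat_lit 701815590) (nat_lit 69) (nat_lit 1) (nat_lit 1) (nat_lit 3) true (nat_lit 13) true (nat_lit 18) false (nat_lit 6) true (nat_lit 20) true (nat_lit 20) (.s false (nat_lit 5339277648) (nat_lit 65) (nat_lit 3) (nat_lit 1) (nat_lit 1) true (nat_lit 13) true (nat_lit 20) false (nat_lit 6) true (nat_lit 18) true (nat_lit 20) dr2_i78)))))))))))))))))))))))))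

noncomputable def dr2_i80 : IL := (.s true (nat_lit 209419830) (nat_lit 49) (nat_lit 3) (nat_lit 1) (nat_lit 3) true (nat_lit 11) true (nat_lit 18) false (nat_lit 2) true (nat_lit 18) true (nat_lit 20) (.s false (nat_lit 247813344) (nat_lit 41) (nat_lit 3) (nat_lit 3) (nat_lit 1) true (nat_lit 13) true (nat_lit 20) false (nat_lit 2) true (nat_lit 18) true (nat_lit 18) (.s false (nat_lit 354189024) (nat_lit 42) (nat_lit 3) (nat_lit 3) (nat_lit 1) true (nat_lit 13) true (nat_lit 20) false (nat_lit 2) true (nat_lit 18) true (nat_lit 18) (.s true (nat_lit 1579209372) (nat_lit 43) (nat_lit 3) (nat_lit 3) (nat_lit 1) true (nat_lit 13) true (nat_lit 20) false (nat_lit 2) true (nat_lit 18) true (nat_lit 18) (.s false (nat_lit 143047296) (nat_lit 44) (nat_lit 3) (nat_lit 3) (nat_lit 1) true (nat_lit 13) true (nat_lit 20) false (nat_lit 2) true (nat_lit 18) true (nat_lit 18) (.s true (nat_lit 1165363362) (nat_lit 45)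 (nat_lit 3) (nat_lit 3) (nat_lit 1) true (nat_lit 13) true (nat_lit 20) false (nat_lit 2) true (nat_lit 18) true (nat_lit 18) (.s false (nat_lit 881961696) (nat_lit 46) (nat_lit 3) (nat_lit 3) (nat_lit 1) true (nat_lit 13) true (nat_lit 20) false (nat_lit 2) true (nat_lit 18) true (nat_lit 18) (.s true (nat_lit 3238369632) (nat_lit 48) (nat_lit 3) (nat_lit 3) (nat_lit 1) true (nat_lit 13) true (nat_lit 20) false (nat_lit 2) true (nat_lit 18) true (nat_lit 18) (.s true (nat_lit 41168088) (nat_lit 49) (nat_lit 3) (nat_lit 3) (nat_lit 1) true (nat_lit 13) true (nat_lit 20) false (nat_lit 2) true (nat_lit 18) true (nat_lit 18) (.s false (nat_lit 4447973088) (nat_lit 50) (nat_lit 3) (nat_lit 3) (nat_lit 1) true (nat_lit 13) true (nat_lit 20) false (nat_lit 2) true (nat_lit 18) true (nat_lit 18) (.s true (nat_lit 26445204) (nat_lit 53) (nat_lit 0) (nat_lit 3) (nat_lit 3) true (nat_lit 14) true (nat_lit 18) false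 (nat_lit 3) true (nat_lit 21) true (nat_lit 18) (.s false (nat_lit 4674608982) (nat_lit 53) (nat_lit 3) (nat_lit 0) (nat_lit 3) true (nat_lit 11) true (nat_lit 18) false (nat_lit 3) true (nat_lit 18) true (nat_lit 21) (.s false (nat_lit 450242064) (nat_lit 54) (nat_lit 3) (nat_lit 0) (nat_lit 3) true (nat_lit 11) true (nat_lit 18) false (nat_lit 3) true (nat_lit 18) true (nat_lit 21) (.s false (nat_lit 224499924) (nat_lit 53) (nat_lit 3) (nat_lit 3) (nat_lit 0) true (nat_lit 14) true (nat_lit 21) false (nat_lit 3) true (nat_lit 18) true (nat_lit 18) (.s false (nat_lit 2895580710) (nat_lit 55) (nat_lit 1) (nat_lit 2) (nat_lit 3) true (nat_lit 13) true (nat_lit 18) false (nat_lit 4) true (nat_lit 20) true (nat_lit 19) (.s false (nat_lit 3237631884) (nat_lit 56) (nat_lit 1) (nat_lit 2) (nat_lit 3) true (nat_lit 13) true (nat_lit 18) false (nat_lit 4) true (nat_lit 20) true (nat_lit 19) (.s true (nat_lit 3042682704)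 (nat_lit 57) (nat_lit 1) (nat_lit 2) (nat_lit 3) true (nat_lit 13) true (nat_lit 18) false (nat_lit 4) true (nat_lit 20) true (nat_lit 19) (.s false (nat_lit 1357909758) (nat_lit 58) (nat_lit 1) (nat_lit 2) (nat_lit 3) true (nat_lit 13) true (nat_lit 18) false (nat_lit 4) true (nat_lit 20) true (nat_lit 19) (.s true (nat_lit 713005740) (nat_lit 59) (nat_lit 1) (nat_lit 2) (nat_lit 3) true (nat_lit 13) true (nat_lit 18) false (nat_lit 4) true (nat_lit 20) true (nat_lit 19) (.s false (nat_lit 825830154) (nat_lit 55) (nat_lit 1) (nat_lit 3) (nat_lit 2) true (nat_lit 15) true (nat_lit 19) false (nat_lit 4) true (nat_lit 20) true (nat_lit 18) (.s false (nat_lit 1799642934) (nat_lit 56) (nat_lit 1) (nat_lit 3) (nat_lit 2) true (nat_lit 15) true (nat_lit 19) false (nat_lit 4) true (nat_lit 20) true (nat_lit 18) (.s true (nat_lit 52488000) (nat_lit 57) (nat_lit 1) (nat_lit 3) (nat_lit 2) true (nat_lit 15) true (nat_lit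 19) false (nat_lit 4) true (nat_lit 20) true (nat_lit 18) (.s false (nat_lit 858766374) (nat_lit 58) (nat_lit 1) (nat_lit 3) (nat_lit 2) true (nat_lit 15) true (nat_lit 19) false (nat_lit 4) true (nat_lit 20) true (nat_lit 18) (.s false (nat_lit 1370231316) (nat_lit 60) (nat_lit 1) (nat_lit 3) (nat_lit 2) true (nat_lit 15) true (nat_lit 19) false (nat_lit 4) true (nat_lit 20) true (nat_lit 18) (.s true (nat_lit 788796954) (nat_lit 55) (nat_lit 2) (nat_lit 1) (nat_lit 3) true (nat_lit 12) true (nat_lit 18) false (nat_lit 4) true (nat_lit 19) true (nat_lit 20) dr2_i79)))))))))))))))))))))))))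

noncomputable def dr2_i81 : IL := (.s false (nat_lit 53601912) (nat_lit 32) (nat_lit 1) (nat_lit 1) (nat_lit 5) true (nat_lit 9) true (nat_lit 16) true (nat_lit 0) true (nat_lit 20) true (nat_lit 20) (.s true (nat_lit 813785616) (nat_lit 32) (nat_lit 1) (nat_lit 5) (nat_lit 1) false (nat_lit 22) true (nat_lit 20) true (nat_lit 0) true (nat_lit 20) true (nat_lit 16) (.s false (nat_lit 2253286512) (nat_lit 32) (nat_lit 1) (nat_lit 6) (nat_lit 0) true (nat_lit 17) true (nat_lit 21) true (nat_lit 0) true (nat_lit 20) true (nat_lit 15) (.s false (nat_lit 813785616) (nat_lit 36) (nat_lit 3) (nat_lit 3) (nat_lit 3) true (nat_lit 11) true (nat_lit 18) false (nat_lit 0) true (nat_lit 18) true (nat_lit 18) (.s true (nat_lit 106492320) (nat_lit 37) (nat_lit 2) (nat_lit 3) (nat_lit 3) true (nat_lit 12) true (nat_lit 18) false (nat_lit 1) true (nat_lit 19) true (nat_lit 18) (.s false (nat_lit 598386528) (nat_lit 40) (nat_lit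 2) (nat_lit 3) (nat_lit 3) true (nat_lit 12) true (nat_lit 18) false (nat_lit 1) true (nat_lit 19) true (nat_lit 18) (.s true (nat_lit 1084821984) (nat_lit 37) (nat_lit 3) (nat_lit 2) (nat_lit 3) true (nat_lit 11) true (nat_lit 18) false (nat_lit 1) true (nat_lit 18) true (nat_lit 19) (.s true (nat_lit 241339824) (nat_lit 40) (nat_lit 3) (nat_lit 2) (nat_lit 3) true (nat_lit 11) true (nat_lit 18) false (nat_lit 1) true (nat_lit 18) true (nat_lit 19) (.s true (nat_lit 591038208) (nat_lit 40) (nat_lit 3) (nat_lit 3) (nat_lit 2) true (nat_lit 12) true (nat_lit 19) false (nat_lit 1) true (nat_lit 18) true (nat_lit 18) (.s false (nat_lit 49676976) (nat_lit 41) (nat_lit 1) (nat_lit 3) (nat_lit 3) true (nat_lit 13) true (nat_lit 18) false (nat_lit 2) true (nat_lit 20) true (nat_lit 18) (.s false (nat_lit 15174864) (nat_lit 42) (nat_lit 1) (nat_lit 3) (nat_lit 3) true (nat_lit 13) true (nat_lit 18) false (nat_lit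 2) true (nat_lit 20) true (nat_lit 18) (.s true (nat_lit 344080710) (nat_lit 43) (nat_lit 1) (nat_lit 3) (nat_lit 3) true (nat_lit 13) true (nat_lit 18) false (nat_lit 2) true (nat_lit 20) true (nat_lit 18) (.s true (nat_lit 2112707610) (nat_lit 44) (nat_lit 1) (nat_lit 3) (nat_lit 3) true (nat_lit 13) true (nat_lit 18) false (nat_lit 2) true (nat_lit 20) true (nat_lit 18) (.s true (nat_lit 3323320002) (nat_lit 45) (nat_lit 1) (nat_lit 3) (nat_lit 3) true (nat_lit 13) true (nat_lit 18) false (nat_lit 2) true (nat_lit 20) true (nat_lit 18) (.s true (nat_lit 2753644410) (nat_lit 46) (nat_lit 1) (nat_lit 3) (nat_lit 3) true (nat_lit 13) true (nat_lit 18) false (nat_lit 2) true (nat_lit 20) true (nat_lit 18) (.s false (nat_lit 2285451450) (nat_lit 47) (nat_lit 1) (nat_lit 3) (nat_lit 3) true (nat_lit 13) true (nat_lit 18) false (nat_lit 2) true (nat_lit 20) true (nat_lit 18) (.s false (nat_lit 2469736818) (nat_lit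 49) (nat_lit 1) (nat_lit 3) (nat_lit 3) true (nat_lit 13) true (nat_lit 18) false (nat_lit 2) true (nat_lit 20) true (nat_lit 18) (.s true (nat_lit 139046544) (nat_lit 41) (nat_lit 3) (nat_lit 1) (nat_lit 3) true (nat_lit 11) true (nat_lit 18) false (nat_lit 2) true (nat_lit 18) true (nat_lit 20) (.s true (nat_lit 670854960) (nat_lit 42) (nat_lit 3) (nat_lit 1) (nat_lit 3) true (nat_lit 11) true (nat_lit 18) false (nat_lit 2) true (nat_lit 18) true (nat_lit 20) (.s true (nat_lit 1259952570) (nat_lit 43) (nat_lit 3) (nat_lit 1) (nat_lit 3) true (nat_lit 11) true (nat_lit 18) false (nat_lit 2) true (nat_lit 18) true (nat_lit 20) (.s false (nat_lit 403036398) (nat_lit 44) (nat_lit 3) (nat_lit 1) (nat_lit 3) true (nat_lit 11) true (nat_lit 18) false (nat_lit 2) true (nat_lit 18) true (nat_lit 20) (.s true (nat_lit 880639290) (nat_lit 45) (nat_lit 3) (nat_lit 1) (nat_lit 3) true (nat_lit 11) true (nat_lit 18) false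 (nat_lit 2) true (nat_lit 18) true (nat_lit 20) (.s true (nat_lit 849362274) (nat_lit 46) (nat_lit 3) (nat_lit 1) (nat_lit 3) true (nat_lit 11) true (nat_lit 18) false (nat_lit 2) true (nat_lit 18) true (nat_lit 20) (.s true (nat_lit 157229262) (nat_lit 47) (nat_lit 3) (nat_lit 1) (nat_lit 3) true (nat_lit 11) true (nat_lit 18) false (nat_lit 2) true (nat_lit 18) true (nat_lit 20) (.s true (nat_lit 1956770136) (nat_lit 48) (nat_lit 3) (nat_lit 1) (nat_lit 3) true (nat_lit 11) true (nat_lit 18) false (nat_lit 2) true (nat_lit 18) true (nat_lit 20) dr2_i80)))))))))))))))))))))))))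

noncomputable def dr2_i82 : IL := (.s true (nat_lit 53982450) (nat_lit 26) (nat_lit 2) (nat_lit 8) (nat_lit 1) true (nat_lit 15) true (nat_lit 20) true (nat_lit 3) true (nat_lit 19) true (nat_lit 13) (.s true (nat_lit 6427196424) (nat_lit 26) (nat_lit 3) (nat_lit 1) (nat_lit 6) true (nat_lit 4) true (nat_lit 15) true (nat_lit 3) true (nat_lit 18) true (nat_lit 20) (.s false (nat_lit 862831278) (nat_lit 27) (nat_lit 3) (nat_lit 1) (nat_lit 6) true (nat_lit 4) true (nat_lit 15) true (nat_lit 3) true (nat_lit 18) true (nat_lit 20) (.s false (nat_lit 4536322056) (nat_lit 26) (nat_lit 3) (nat_lit 6) (nat_lit 1) true (nat_lit 13) true (nat_lit 20) true (nat_lit 3) true (nat_lit 18) true (nat_lit 15) (.s false (nat_lit 224499924) (nat_lit 27) (nat_lit 6) (nat_lit 3) (nat_lit 1) true (nat_lit 8) true (nat_lit 20) true (nat_lit 3) true (nat_lit 15) true (nat_lit 18) (.s true (nat_lit 1236335886) (nat_lit 26) (nat_lit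 8) (nat_lit 2) (nat_lit 1) true (nat_lit 6) true (nat_lit 20) true (nat_lit 3) true (nat_lit 13) true (nat_lit 19) (.s false (nat_lit 3432744360) (nat_lit 28) (nat_lit 0) (nat_lit 3) (nat_lit 6) true (nat_lit 9) true (nat_lit 15) true (nat_lit 2) true (nat_lit 21) true (nat_lit 18) (.s true (nat_lit 399002112) (nat_lit 29) (nat_lit 0) (nat_lit 8) (nat_lit 2) true (nat_lit 16) true (nat_lit 19) true (nat_lit 2) true (nat_lit 21) true (nat_lit 13) (.s true (nat_lit 477512496) (nat_lit 29) (nat_lit 1) (nat_lit 7) (nat_lit 2) true (nat_lit 15) true (nat_lit 19) true (nat_lit 2) true (nat_lit 20) true (nat_lit 14) (.s false (nat_lit 34385472) (nat_lit 29) (nat_lit 1) (nat_lit 9) (nat_lit 0) true (nat_lit 17) true (nat_lit 21) true (nat_lit 2) true (nat_lit 20) true (nat_lit 12) (.s false (nat_lit 168766416) (nat_lit 28) (nat_lit 2) (nat_lit 3) (nat_lit 4) true (nat_lit 9) true (nat_lit 17) true (nat_lit 2) true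 (nat_lit 19) true (nat_lit 18) (.s true (nat_lit 135768960) (nat_lit 28) (nat_lit 2) (nat_lit 4) (nat_lit 3) true (nat_lit 12) true (nat_lit 18) true (nat_lit 2) true (nat_lit 19) true (nat_lit 17) (.s false (nat_lit 693051552) (nat_lit 28) (nat_lit 3) (nat_lit 0) (nat_lit 6) true (nat_lit 4) true (nat_lit 15) true (nat_lit 2) true (nat_lit 18) true (nat_lit 21) (.s true (nat_lit 317144160) (nat_lit 28) (nat_lit 3) (nat_lit 2) (nat_lit 4) true (nat_lit 7) true (nat_lit 17) true (nat_lit 2) true (nat_lit 18) true (nat_lit 19) (.s false (nat_lit 223948800) (nat_lit 28) (nat_lit 3) (nat_lit 4) (nat_lit 2) true (nat_lit 12) true (nat_lit 19) true (nat_lit 2) true (nat_lit 18) true (nat_lit 17) (.s true (nat_lit 324492480) (nat_lit 28) (nat_lit 4) (nat_lit 2) (nat_lit 3) true (nat_lit 7) true (nat_lit 18) true (nat_lit 2) true (nat_lit 17) true (nat_lit 19) (.s false (nat_lit 879069024) (nat_lit 29) (nat_lit 4)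 (nat_lit 2) (nat_lit 3) true (nat_lit 7) true (nat_lit 18) true (nat_lit 2) true (nat_lit 17) true (nat_lit 19) (.s true (nat_lit 2210465052) (nat_lit 29) (nat_lit 6) (nat_lit 0) (nat_lit 3) true (nat_lit 4) true (nat_lit 18) true (nat_lit 2) true (nat_lit 15) true (nat_lit 21) (.s false (nat_lit 577814148) (nat_lit 29) (nat_lit 6) (nat_lit 3) (nat_lit 0) true (nat_lit 9) true (nat_lit 21) true (nat_lit 2) true (nat_lit 15) true (nat_lit 18) (.s false (nat_lit 60536160) (nat_lit 28) (nat_lit 9) (nat_lit 0) (nat_lit 1) true (nat_lit 4) true (nat_lit 20) true (nat_lit 2) true (nat_lit 12) true (nat_lit 21) (.s false (nat_lit 143117280) (nat_lit 30) (nat_lit 0) (nat_lit 8) (nat_lit 1) true (nat_lit 17) true (nat_lit 20) true (nat_lit 1) true (nat_lit 21) true (nat_lit 13) (.s false (nat_lit 198054720) (nat_lit 30) (nat_lit 1) (nat_lit 1) (nat_lit 7) true (nat_lit 7) true (nat_lit 14) true (nat_lit 1) true (nat_lit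 20) true (nat_lit 20) (.s false (nat_lit 696609072) (nat_lit 30) (nat_lit 1) (nat_lit 3) (nat_lit 4) true (nat_lit 10) true (nat_lit 17) true (nat_lit 1) true (nat_lit 20) true (nat_lit 18) (.s false (nat_lit 853414056) (nat_lit 30) (nat_lit 7) (nat_lit 1) (nat_lit 1) true (nat_lit 7) true (nat_lit 20) true (nat_lit 1) true (nat_lit 14) true (nat_lit 20) (.s false (nat_lit 1231155612) (nat_lit 32) (nat_lit 0) (nat_lit 1) (nat_lit 6) true (nat_lit 9) true (nat_lit 15) true (nat_lit 0) true (nat_lit 21) true (nat_lit 20) dr2_i81)))))))))))))))))))))))))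

noncomputable def dr2_i83 : IL := (.s false (nat_lit 4984374204) (nat_lit 23) (nat_lit 1) (nat_lit 0) (nat_lit 10) true (nat_lit 2) true (nat_lit 11) true (nat_lit 4) true (nat_lit 20) true (nat_lit 21) (.s true (nat_lit 1824733656) (nat_lit 23) (nat_lit 1) (nat_lit 7) (nat_lit 3) true (nat_lit 13) true (nat_lit 18) true (nat_lit 4) true (nat_lit 20) true (nat_lit 14) (.s true (nat_lit 157328406) (nat_lit 24) (nat_lit 1) (nat_lit 7) (nat_lit 3) true (nat_lit 13) true (nat_lit 18) true (nat_lit 4) true (nat_lit 20) true (nat_lit 14) (.s false (nat_lit 375141942) (nat_lit 23) (nat_lit 1) (nat_lit 10) (nat_lit 0) true (nat_lit 17) true (nat_lit 21) true (nat_lit 4) true (nat_lit 20) true (nat_lit 11) (.s false (nat_lit 297012096) (nat_lit 24) (nat_lit 3) (nat_lit 0) (nat_lit 8) true (nat_lit 2) true (nat_lit 13) true (nat_lit 4) true (nat_lit 18) true (nat_lit 21) (.s false (nat_lit 256355766) (nat_lit 24) (nat_lit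 3) (nat_lit 1) (nat_lit 7) true (nat_lit 3) true (nat_lit 14) true (nat_lit 4) true (nat_lit 18) true (nat_lit 20) (.s false (nat_lit 1750410648) (nat_lit 23) (nat_lit 3) (nat_lit 3) (nat_lit 4) true (nat_lit 7) true (nat_lit 17) true (nat_lit 4) true (nat_lit 18) true (nat_lit 18) (.s false (nat_lit 307568016) (nat_lit 24) (nat_lit 3) (nat_lit 4) (nat_lit 3) true (nat_lit 11) true (nat_lit 18) true (nat_lit 4) true (nat_lit 18) true (nat_lit 17) (.s false (nat_lit 1036789632) (nat_lit 25) (nat_lit 3) (nat_lit 4) (nat_lit 3) true (nat_lit 11) true (nat_lit 18) true (nat_lit 4) true (nat_lit 18) true (nat_lit 17) (.s false (nat_lit 5050277262) (nat_lit 23) (nat_lit 3) (nat_lit 8) (nat_lit 0) true (nat_lit 14) true (nat_lit 21) true (nat_lit 4) true (nat_lit 18) true (nat_lit 13) (.s true (nat_lit 13731444) (nat_lit 23) (nat_lit 4) (nat_lit 3) (nat_lit 3) true (nat_lit 7) true (nat_lit 18) true (nat_lit 4) true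 (nat_lit 17) true (nat_lit 18) (.s true (nat_lit 9237376242) (nat_lit 23) (nat_lit 7) (nat_lit 1) (nat_lit 3) true (nat_lit 3) true (nat_lit 18) true (nat_lit 4) true (nat_lit 14) true (nat_lit 20) (.s true (nat_lit 1438709202) (nat_lit 24) (nat_lit 7) (nat_lit 1) (nat_lit 3) true (nat_lit 3) true (nat_lit 18) true (nat_lit 4) true (nat_lit 14) true (nat_lit 20) (.s false (nat_lit 99027360) (nat_lit 25) (nat_lit 7) (nat_lit 1) (nat_lit 3) true (nat_lit 3) true (nat_lit 18) true (nat_lit 4) true (nat_lit 14) true (nat_lit 20) (.s true (nat_lit 1473814926) (nat_lit 24) (nat_lit 7) (nat_lit 3) (nat_lit 1) true (nat_lit 7) true (nat_lit 20) true (nat_lit 4) true (nat_lit 14) true (nat_lit 18) (.s true (nat_lit 1956770136) (nat_lit 23) (nat_lit 8) (nat_lit 0) (nat_lit 3) true (nat_lit 2) true (nat_lit 18) true (nat_lit 4) true (nat_lit 13) true (nat_lit 21) (.s false (nat_lit 674117964) (nat_lit 23) (nat_lit 8)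 (nat_lit 3) (nat_lit 0) true (nat_lit 7) true (nat_lit 21) true (nat_lit 4) true (nat_lit 13) true (nat_lit 18) (.s true (nat_lit 664673040) (nat_lit 25) (nat_lit 8) (nat_lit 3) (nat_lit 0) true (nat_lit 7) true (nat_lit 21) true (nat_lit 4) true (nat_lit 13) true (nat_lit 18) (.s false (nat_lit 596870208) (nat_lit 25) (nat_lit 10) (nat_lit 0) (nat_lit 1) true (nat_lit 2) true (nat_lit 20) true (nat_lit 4) true (nat_lit 11) true (nat_lit 21) (.s true (nat_lit 1946698272) (nat_lit 26) (nat_lit 1) (nat_lit 1) (nat_lit 9) true (nat_lit 4) true (nat_lit 12) true (nat_lit 3) true (nat_lit 20) true (nat_lit 20) (.s true (nat_lit 2164957956) (nat_lit 27) (nat_lit 1) (nat_lit 1) (nat_lit 9) true (nat_lit 4) true (nat_lit 12) true (nat_lit 3) true (nat_lit 20) true (nat_lit 20) (.s true (nat_lit 2087482752) (nat_lit 26) (nat_lit 1) (nat_lit 2) (nat_lit 8) true (nat_lit 6) true (nat_lit 13) true (nat_lit 3) true (nat_lit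 20) true (nat_lit 19) (.s true (nat_lit 549269424) (nat_lit 26) (nat_lit 1) (nat_lit 9) (nat_lit 1) false (nat_lit 22) true (nat_lit 20) true (nat_lit 3) true (nat_lit 20) true (nat_lit 12) (.s true (nat_lit 2743056414) (nat_lit 26) (nat_lit 2) (nat_lit 1) (nat_lit 8) true (nat_lit 4) true (nat_lit 13) true (nat_lit 3) true (nat_lit 19) true (nat_lit 20) (.s true (nat_lit 1460538378) (nat_lit 27) (nat_lit 2) (nat_lit 1) (nat_lit 8) true (nat_lit 4) true (nat_lit 13) true (nat_lit 3) true (nat_lit 19) true (nat_lit 20) dr2_i82)))))))))))))))))))))))))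

noncomputable def dr2_i84 : IL := (.s false (nat_lit 2520202572) (nat_lit 16) (nat_lit 3) (nat_lit 6) (nat_lit 3) true (nat_lit 11) true (nat_lit 18) true (nat_lit 7) true (nat_lit 18) true (nat_lit 15) (.s false (nat_lit 1632232458) (nat_lit 17) (nat_lit 3) (nat_lit 6) (nat_lit 3) true (nat_lit 11) true (nat_lit 18) true (nat_lit 7) true (nat_lit 18) true (nat_lit 15) (.s false (nat_lit 1115530380) (nat_lit 18) (nat_lit 3) (nat_lit 6) (nat_lit 3) true (nat_lit 11) true (nat_lit 18) true (nat_lit 7) true (nat_lit 18) true (nat_lit 15) (.s true (nat_lit 7348320) (nat_lit 16) (nat_lit 3) (nat_lit 8) (nat_lit 2) true (nat_lit 12) true (nat_lit 19) true (nat_lit 7) true (nat_lit 18) true (nat_lit 13) (.s true (nat_lit 2914983774) (nat_lit 17) (nat_lit 3) (nat_lit 8) (nat_lit 2) true (nat_lit 12) true (nat_lit 19) true (nat_lit 7) true (nat_lit 18) true (nat_lit 13) (.s true (nat_lit 52488000) (nat_lit 18) (nat_lit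 3) (nat_lit 8) (nat_lit 2) true (nat_lit 12) true (nat_lit 19) true (nat_lit 7) true (nat_lit 18) true (nat_lit 13) (.s false (nat_lit 1285295526) (nat_lit 17) (nat_lit 3) (nat_lit 9) (nat_lit 1) true (nat_lit 13) true (nat_lit 20) true (nat_lit 7) true (nat_lit 18) true (nat_lit 12) (.s true (nat_lit 3755877984) (nat_lit 17) (nat_lit 6) (nat_lit 3) (nat_lit 3) true (nat_lit 4) true (nat_lit 18) true (nat_lit 7) true (nat_lit 15) true (nat_lit 18) (.s false (nat_lit 1238506848) (nat_lit 18) (nat_lit 6) (nat_lit 3) (nat_lit 3) true (nat_lit 4) true (nat_lit 18) true (nat_lit 7) true (nat_lit 15) true (nat_lit 18) (.s false (nat_lit 52488000) (nat_lit 18) (nat_lit 8) (nat_lit 2) (nat_lit 3) true (nat_lit 2) true (nat_lit 18) true (nat_lit 7) true (nat_lit 13) true (nat_lit 19) (.s false (nat_lit 52488000) (nat_lit 18) (nat_lit 8) (nat_lit 3) (nat_lit 2) true (nat_lit 4) true (nat_lit 19) true (nat_lit 7) true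 (nat_lit 13) true (nat_lit 18) (.s false (nat_lit 1550023128) (nat_lit 17) (nat_lit 9) (nat_lit 1) (nat_lit 3) true (nat_lit 1) true (nat_lit 18) true (nat_lit 7) true (nat_lit 12) true (nat_lit 20) (.s false (nat_lit 2285047584) (nat_lit 17) (nat_lit 9) (nat_lit 3) (nat_lit 1) true (nat_lit 4) true (nat_lit 20) true (nat_lit 7) true (nat_lit 12) true (nat_lit 18) (.s false (nat_lit 3113430696) (nat_lit 16) (nat_lit 10) (nat_lit 1) (nat_lit 2) true (nat_lit 1) true (nat_lit 19) true (nat_lit 7) true (nat_lit 11) true (nat_lit 20) (.s false (nat_lit 399002112) (nat_lit 19) (nat_lit 0) (nat_lit 10) (nat_lit 2) true (nat_lit 16) true (nat_lit 19) true (nat_lit 6) true (nat_lit 21) true (nat_lit 11) (.s true (nat_lit 192036096) (nat_lit 19) (nat_lit 2) (nat_lit 0) (nat_lit 10) true (nat_lit 1) true (nat_lit 11) true (nat_lit 6) true (nat_lit 19) true (nat_lit 21) (.s false (nat_lit 99027360) (nat_lit 19) (nat_lit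 3) (nat_lit 7) (nat_lit 2) true (nat_lit 12) true (nat_lit 19) true (nat_lit 6) true (nat_lit 18) true (nat_lit 14) (.s false (nat_lit 399002112) (nat_lit 19) (nat_lit 10) (nat_lit 0) (nat_lit 2) true (nat_lit 1) true (nat_lit 19) true (nat_lit 6) true (nat_lit 11) true (nat_lit 21) (.s true (nat_lit 1121493600) (nat_lit 21) (nat_lit 1) (nat_lit 1) (nat_lit 10) true (nat_lit 2) true (nat_lit 11) true (nat_lit 5) true (nat_lit 20) true (nat_lit 20) (.s false (nat_lit 590087592) (nat_lit 22) (nat_lit 1) (nat_lit 1) (nat_lit 10) true (nat_lit 2) true (nat_lit 11) true (nat_lit 5) true (nat_lit 20) true (nat_lit 20) (.s true (nat_lit 5339277648) (nat_lit 21) (nat_lit 3) (nat_lit 8) (nat_lit 1) true (nat_lit 13) true (nat_lit 20) true (nat_lit 5) true (nat_lit 18) true (nat_lit 13) (.s false (nat_lit 5339277648) (nat_lit 21) (nat_lit 8) (nat_lit 3) (nat_lit 1) true (nat_lit 6) true (nat_lit 20) true (nat_lit 5)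 true (nat_lit 13) true (nat_lit 18) (.s false (nat_lit 1002660768) (nat_lit 21) (nat_lit 10) (nat_lit 1) (nat_lit 1) true (nat_lit 2) true (nat_lit 20) true (nat_lit 5) true (nat_lit 11) true (nat_lit 20) (.s true (nat_lit 8516030742) (nat_lit 23) (nat_lit 0) (nat_lit 8) (nat_lit 3) true (nat_lit 14) true (nat_lit 18) true (nat_lit 4) true (nat_lit 21) true (nat_lit 13) (.s false (nat_lit 953854218) (nat_lit 23) (nat_lit 0) (nat_lit 10) (nat_lit 1) true (nat_lit 17) true (nat_lit 20) true (nat_lit 4) true (nat_lit 21) true (nat_lit 11) dr2_i83)))))))))))))))))))))))))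

noncomputable def dr2_i85 : IL := (.s true (nat_lit 813785616) (nat_lit 11) (nat_lit 3) (nat_lit 2) (nat_lit 10) true (nat_lit 0) true (nat_lit 11) true (nat_lit 10) true (nat_lit 18) true (nat_lit 19) (.s false (nat_lit 189306720) (nat_lit 11) (nat_lit 3) (nat_lit 3) (nat_lit 9) true (nat_lit 1) true (nat_lit 12) true (nat_lit 10) true (nat_lit 18) true (nat_lit 18) (.s true (nat_lit 231063840) (nat_lit 11) (nat_lit 3) (nat_lit 9) (nat_lit 3) true (nat_lit 11) true (nat_lit 18) true (nat_lit 10) true (nat_lit 18) true (nat_lit 12) (.s true (nat_lit 837358560) (nat_lit 11) (nat_lit 3) (nat_lit 10) (nat_lit 2) true (nat_lit 12) true (nat_lit 19) true (nat_lit 10) true (nat_lit 18) true (nat_lit 11) (.s true (nat_lit 471027312) (nat_lit 11) (nat_lit 9) (nat_lit 3) (nat_lit 3) true (nat_lit 1) true (nat_lit 18) true (nat_lit 10) true (nat_lit 12) true (nat_lit 18) (.s true (nat_lit 591038208) (nat_lit 11) (nat_lit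 10) (nat_lit 3) (nat_lit 2) true (nat_lit 1) true (nat_lit 19) true (nat_lit 10) true (nat_lit 11) true (nat_lit 18) (.s false (nat_lit 297726516) (nat_lit 14) (nat_lit 1) (nat_lit 10) (nat_lit 3) true (nat_lit 13) true (nat_lit 18) true (nat_lit 9) true (nat_lit 20) true (nat_lit 11) (.s false (nat_lit 96892848) (nat_lit 13) (nat_lit 3) (nat_lit 3) (nat_lit 8) true (nat_lit 2) true (nat_lit 13) true (nat_lit 9) true (nat_lit 18) true (nat_lit 18) (.s false (nat_lit 41182668) (nat_lit 14) (nat_lit 3) (nat_lit 3) (nat_lit 8) true (nat_lit 2) true (nat_lit 13) true (nat_lit 9) true (nat_lit 18) true (nat_lit 18) (.s true (nat_lit 168766416) (nat_lit 12) (nat_lit 3) (nat_lit 8) (nat_lit 3) true (nat_lit 11) true (nat_lit 18) true (nat_lit 9) true (nat_lit 18) true (nat_lit 13) (.s false (nat_lit 435790368) (nat_lit 13) (nat_lit 3) (nat_lit 10) (nat_lit 1) true (nat_lit 13) true (nat_lit 20) true (nat_lit 9) true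 (nat_lit 18) true (nat_lit 11) (.s false (nat_lit 3003582060) (nat_lit 14) (nat_lit 3) (nat_lit 10) (nat_lit 1) true (nat_lit 13) true (nat_lit 20) true (nat_lit 9) true (nat_lit 18) true (nat_lit 11) (.s true (nat_lit 3399735240) (nat_lit 14) (nat_lit 8) (nat_lit 3) (nat_lit 3) true (nat_lit 2) true (nat_lit 18) true (nat_lit 9) true (nat_lit 13) true (nat_lit 18) (.s false (nat_lit 128770560) (nat_lit 13) (nat_lit 10) (nat_lit 3) (nat_lit 1) true (nat_lit 2) true (nat_lit 20) true (nat_lit 9) true (nat_lit 11) true (nat_lit 18) (.s false (nat_lit 2253286512) (nat_lit 15) (nat_lit 3) (nat_lit 0) (nat_lit 10) true (nat_lit 0) true (nat_lit 11) true (nat_lit 8) true (nat_lit 18) true (nat_lit 21) (.s false (nat_lit 49513680) (nat_lit 15) (nat_lit 3) (nat_lit 10) (nat_lit 0) true (nat_lit 14) true (nat_lit 21) true (nat_lit 8) true (nat_lit 18) true (nat_lit 11) (.s true (nat_lit 488208384) (nat_lit 16) (nat_lit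 1) (nat_lit 2) (nat_lit 10) true (nat_lit 2) true (nat_lit 11) true (nat_lit 7) true (nat_lit 20) true (nat_lit 19) (.s true (nat_lit 2274131538) (nat_lit 17) (nat_lit 1) (nat_lit 2) (nat_lit 10) true (nat_lit 2) true (nat_lit 11) true (nat_lit 7) true (nat_lit 20) true (nat_lit 19) (.s true (nat_lit 1221843366) (nat_lit 17) (nat_lit 1) (nat_lit 9) (nat_lit 3) true (nat_lit 13) true (nat_lit 18) true (nat_lit 7) true (nat_lit 20) true (nat_lit 12) (.s false (nat_lit 2042850456) (nat_lit 16) (nat_lit 1) (nat_lit 10) (nat_lit 2) true (nat_lit 15) true (nat_lit 19) true (nat_lit 7) true (nat_lit 20) true (nat_lit 11) (.s false (nat_lit 290713536) (nat_lit 17) (nat_lit 1) (nat_lit 10) (nat_lit 2) true (nat_lit 15) true (nat_lit 19) true (nat_lit 7) true (nat_lit 20) true (nat_lit 11) (.s false (nat_lit 2522392488) (nat_lit 16) (nat_lit 2) (nat_lit 1) (nat_lit 10) true (nat_lit 1) true (nat_lit 11) true (nat_lit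 7) true (nat_lit 19) true (nat_lit 20) (.s false (nat_lit 1001039472) (nat_lit 17) (nat_lit 2) (nat_lit 8) (nat_lit 3) true (nat_lit 12) true (nat_lit 18) true (nat_lit 7) true (nat_lit 19) true (nat_lit 13) (.s false (nat_lit 52488000) (nat_lit 18) (nat_lit 2) (nat_lit 8) (nat_lit 3) true (nat_lit 12) true (nat_lit 18) true (nat_lit 7) true (nat_lit 19) true (nat_lit 13) (.s true (nat_lit 640852236) (nat_lit 17) (nat_lit 3) (nat_lit 3) (nat_lit 6) true (nat_lit 4) true (nat_lit 15) true (nat_lit 7) true (nat_lit 18) true (nat_lit 18) dr2_i84)))))))))))))))))))))))))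

noncomputable def dr2_il : IL := (.s true (nat_lit 35105724) (nat_lit 8) (nat_lit 7) (nat_lit 2) (nat_lit 8) false (nat_lit 4) true (nat_lit 13) true (nat_lit 13) true (nat_lit 14) true (nat_lit 19) (.s true (nat_lit 5771622762) (nat_lit 8) (nat_lit 7) (nat_lit 6) (nat_lit 3) true (nat_lit 3) true (nat_lit 18) true (nat_lit 13) true (nat_lit 14) true (nat_lit 15) (.s true (nat_lit 192036096) (nat_lit 10) (nat_lit 1) (nat_lit 5) (nat_lit 8) true (nat_lit 6) true (nat_lit 13) true (nat_lit 11) true (nat_lit 20) true (nat_lit 16) (.s true (nat_lit 1053900720) (nat_lit 10) (nat_lit 1) (nat_lit 9) (nat_lit 4) true (nat_lit 10) true (nat_lit 17) true (nat_lit 11) true (nat_lit 20) true (nat_lit 12) (.s false (nat_lit 2016556884) (nat_lit 10) (nat_lit 3) (nat_lit 6) (nat_lit 4) true (nat_lit 7) true (nat_lit 17) true (nat_lit 11) true (nat_lit 18) true (nat_lit 15) (.s true (nat_lit 994043988) (nat_lit 10) (nat_lit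 4) (nat_lit 6) (nat_lit 3) true (nat_lit 7) true (nat_lit 18) true (nat_lit 11) true (nat_lit 17) true (nat_lit 15) (.s true (nat_lit 417369996) (nat_lit 10) (nat_lit 6) (nat_lit 3) (nat_lit 4) false (nat_lit 0) true (nat_lit 17) true (nat_lit 11) true (nat_lit 15) true (nat_lit 18) (.s true (nat_lit 243529740) (nat_lit 10) (nat_lit 6) (nat_lit 8) (nat_lit 0) true (nat_lit 9) true (nat_lit 21) true (nat_lit 11) true (nat_lit 15) true (nat_lit 13) (.s true (nat_lit 2323369656) (nat_lit 10) (nat_lit 8) (nat_lit 0) (nat_lit 6) false (nat_lit 3) true (nat_lit 15) true (nat_lit 11) true (nat_lit 13) true (nat_lit 21) (.s false (nat_lit 482959584) (nat_lit 10) (nat_lit 9) (nat_lit 1) (nat_lit 4) false (nat_lit 2) true (nat_lit 17) true (nat_lit 11) true (nat_lit 12) true (nat_lit 20) (.s true (nat_lit 209217168) (nat_lit 10) (nat_lit 9) (nat_lit 4) (nat_lit 1) true (nat_lit 4) true (nat_lit 20) true (nat_lit 11)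 true (nat_lit 12) true (nat_lit 17) (.s false (nat_lit 379103328) (nat_lit 11) (nat_lit 2) (nat_lit 10) (nat_lit 3) true (nat_lit 12) true (nat_lit 18) true (nat_lit 10) true (nat_lit 19) true (nat_lit 11) dr2_i85))))))))))))

theorem dr2_chk : chk idsM dr2_D par1 (clsL [0,0,0,1,2,2,3]) r2Ex (.c (nat_lit 3) (nat_lit 1) (.c (nat_lit 3) (nat_lit 1) (.c (nat_lit 3) (nat_lit 1) (.c (nat_lit 2) (nat_lit 16) (.c (nat_lit 1) (nat_lit 256) (.c (nat_lit 1) (nat_lit 256) (.c (nat_lit 0) (nat_lit 4096) .nil))))))) (nat_lit 623) (nat_lit 4627) (nat_lit 283) dr2_gs dr2_il = true := by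
  decide +kernel

end Chk

/-- certificate of `r2Ex` -/
theorem cert_r2Ex : Cert.{u} idsM par1 (clsL [0,0,0,1,2,2,3]) r2Ex :=
  Chk.chk_sound _ (by simp [idsM]) (by simp [idsM]) _ _ _ _ _ _ _ _ _ _ Chk.dr2_chk

end Pool.Agent.Malc
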