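import Pool.Agent.Malc.Check4
import Pool.Agent.Malc.CertPar

/-! # Certificate of r5Ex -/

set_option autoImplicit false
set_option maxRecDepth 100000

namespace Pool.Agent.Malc

universe u

namespace Chk

noncomputable def dr5_c5 : Cm := .mk (nat_lit 3) (nat_lit 5) (nat_lit 4) (nat_lit 1) (.c (nat_lit 2) (nat_lit 1) (nat_lit 1) (nat_lit 1) (nat_lit 1) (.c (nat_lit 3) (nat_lit 1) (nat_lit 0) (nat_lit 1) (nat_lit 2) .nil))

noncomputable def dr5_c6 : Cm := .mk (nat_lit 5) (nat_lit 6) (nat_lit 5) (nat_lit 2) (.c (nat_lit 2) (nat_lit 1) (nat_lit 2) (nat_lit 1) (nat_lit 2) (.c (nat_lit 3) (nat_lit 1) (nat_lit 1) (nat_lit 1) (nat_lit 3) (.c (nat_lit 4) (nat_lit 1) (nat_lit 0) (nat_lit 1) (nat_lit 4) .nil)))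

noncomputable def dr5_cl : CL := (.c (nat_lit 1) (nat_lit 0) (nat_lit 1) (.c (nat_lit 2) (nat_lit 1) (nat_lit 1) (.c (nat_lit 3) (nat_lit 2) (nat_lit 1) (.c (nat_lit 4) (nat_lit 3) (nat_lit 1) (.c (nat_lit 5) (nat_lit 4) (nat_lit 1) (.c (nat_lit 6) (nat_lit 5) (nat_lit 2) .nil))))))

noncomputable def dr5_D : Dt := ⟨(nat_lit 4294967296), (nat_lit 2147483648), (nat_lit 1), (nat_lit 7), (nat_lit 137060390879205438075759185785464737185467990017), (nat_lit 21), (.nd (.nd (.nd (.nd .leaf (nat_lit 0) (nat_lit 0) (.p (nat_lit 1) (nat_lit 1) .z) .df .leaf) (nat_lit 1024) (nat_lit 1) (.p (nat_lit 2) (nat_lit 1) .z) .df .leaf) (nat_lit 2048) (nat_lit 2) (.p (nat_lit 3) (nat_lit 1) .z) .df (.nd .leaf (nat_lit 2049) (nat_lit 4) .z (.ct dr5_c5 (nat_lit 2) (nat_lit 0) (.s true (nat_lit 1) (nat_lit 1) (nat_lit 0) (nat_lit 0) (nat_lit 0) true (nat_lit 0) true (nat_lit 1) true (nat_lit 0) true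 (nat_lit 1) true (nat_lit 1) .nil)) .leaf)) (nat_lit 2050) (nat_lit 7) (.p (nat_lit 6) (nat_lit 1) .z) (.ct dr5_c6 (nat_lit 1) (nat_lit 0) (.s false (nat_lit 1) (nat_lit 1) (nat_lit 0) (nat_lit 0) (nat_lit 1) true (nat_lit 0) true (nat_lit 1) true (nat_lit 1) true (nat_lit 2) true (nat_lit 2) (.e false (nat_lit 1) (nat_lit 3) (nat_lit 1) (nat_lit 1) .nil))) (.nd (.nd .leaf (nat_lit 3072) (nat_lit 3) (.p (nat_lit 4) (nat_lit 1) .z) .df .leaf) (nat_lit 3073) (nat_lit 6) (.p (nat_lit 6) (nat_lit 1) .z) .df (.nd .leaf (nat_lit 4096) (nat_lit 5) (.p (nat_lit 5) (nat_lit 1) .z) .df .leaf))), dr5_cl⟩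

noncomputable def dr5_gs : BL := (.c (nat_lit 3) (nat_lit 1) (nat_lit 2) (nat_lit 1) (nat_lit 0) (.c (nat_lit 4) (nat_lit 1) (nat_lit 1) (nat_lit 1) (nat_lit 1) (.c (nat_lit 5) (nat_lit 2) (nat_lit 0) (nat_lit 1) (nat_lit 2) .nil)))

noncomputable def dr5_il : IL := (.s false (nat_lit 48) (nat_lit 2) (nat_lit 0) (nat_lit 0) (nat_lit 1) true (nat_lit 0) true (nat_lit 1) true (nat_lit 0) true (nat_lit 2) true (nat_lit 2) (.s true (nat_lit 144) (nat_lit 2) (nat_lit 1) (nat_lit 0) (nat_lit 0) true (nat_lit 0) true (nat_lit 2) true (nat_lit 0) true (nat_lit 1) true (nat_lit 2) .nil))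

theorem dr5_chk : chk idsM dr5_D par1 (clsL []) r5Ex (.c (nat_lit 0) (nat_lit 1) (.c (nat_lit 0) (nat_lit 1) (.c (nat_lit 0) (nat_lit 1) (.c (nat_lit 0) (nat_lit 1) (.c (nat_lit 0) (nat_lit 1) (.c (nat_lit 0) (nat_lit 1) (.c (nat_lit 0) (nat_lit 1) .nil))))))) (nat_lit 8) (nat_lit 7) (nat_lit 1) dr5_gs dr5_il = true := by
  decide +kernel

end Chk

/-- certificate of `r5Ex` -/
theorem cert_r5Ex : Cert.{u} idsM par1 (clsL []) r5Ex :=
  Chk.chk_sound _ (by simp [idsM]) (by simp [idsM]) _ _ _ _ _ _ _ _ _ _ Chk.dr5_chk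

end Pool.Agent.Malc
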