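import Pool.Agent.Malc.AlBe

/-! # (Z8) from (A3), (A4) and a certificate -/

set_option autoImplicit false

namespace Pool.Agent.Malc

universe u v

open Finset Equiv

section

variable {A : Type v} [NonUnitalNonAssocRing A]

theorem Z8Ex_ev (w : ℕ → A) : Z8Ex.ev w =
    zt (pe ![w 0, w 1, w 2, w 3, w 4] (w 5)) (w 6) (w 7) -
      zt (pe ![w 0, w 1, w 2, w 3, w 4] (w 7)) (w 6) (w 5) := rfl

theorem Alt_zt {n : ℕ} (g : (Fin n → A) → A) (b c : A) (x : Fin n → A) :
    Alt n (fun t => zt (g t) b c) x = zt (Alt n g x) b c := by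
  unfold zt
  rw [Alt_sub, Alt_sub, Alt_mul, Alt_mul, Alt_mul, Alt_mul, Alt_mul]

theorem zt_neg (q b c : A) : zt (-q) b c = - zt q b c := by
  unfold zt
  simp only [neg_mul]
  abel

theorem zt_addZ (q q' b c : A) : zt (q + q') b c = zt q b c + zt q' b c := by
  unfold zt
  simp only [add_mul]
  abel

theorem zt_addb (q b b' c : A) : zt q (b + b') c = zt q b c + zt q b' c := by
  unfold zt
  simp only [add_mul, mul_add]
  abel

end

/-- the embedding `i ↦ i` -/
def em58 : Fin 5 ↪ Fin 8 := ⟨![0, 1, 2, 3, 4], by decide⟩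

theorem em58_not {j : Fin 8} (hj : j = 5 ∨ j = 6 ∨ j = 7) : j ∉ Set.range em58 := by
  rintro ⟨i, hi⟩
  revert hi hj
  revert i j
  decide

theorem em58_cls : ∀ i j : Fin 8, i ≠ j →
    clsL [0, 0, 0, 0, 0, 1, 0, 1] i = clsL [0, 0, 0, 0, 0, 1, 0, 1] j →
    (∃ i' j' : Fin 5, i' ≠ j' ∧ em58 i' = i ∧ em58 j' = j) ∨ (i = 5 ∧ j = 7) ∨
      (i = 7 ∧ j = 5) ∨ (∃ i' : Fin 5, em58 i' = i ∧ j = 6) ∨
      (∃ i' : Fin 5, em58 i' = j ∧ i = 6) := by decide

theorem em58_t (τ : Perm (Fin 5)) (i : Fin 8) :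
    clsL [0, 0, 0, 0, 0, 1, 0, 1] (τ.viaFintypeEmbedding em58 i) =
      clsL [0, 0, 0, 0, 0, 1, 0, 1] i := by
  by_cases hi : i ∈ Set.range em58
  · obtain ⟨i', rfl⟩ := hi
    rw [Perm.viaFintypeEmbedding_apply_image]
    have h3 : ∀ a b : Fin 5, clsL [0, 0, 0, 0, 0, 1, 0, 1] (em58 a) =
      clsL [0, 0, 0, 0, 0, 1, 0, 1] (em58 b) := by decide
    exact h3 _ _
  · rw [Perm.viaFintypeEmbedding_apply_notMem_range τ em58 hi]

variable (F : Type u) [Field F] {A : Type v} [NonUnitalNonAssocRing A] [Module F A]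
  [IsScalarTower F A A] [SMulCommClass F A A]

/-- `zt (e'(X; a)) b c` -/
noncomputable def Gz (X : Fin 5 → A) (b a c : A) : A := zt (eL F X a) b c

theorem Gz_swap (X : Fin 5 → A) (b a c : A) (i j : Fin 5) (hij : i ≠ j) :
    Gz F (X ∘ swap i j) b a c = - Gz F X b a c := by
  unfold Gz
  rw [AlternatingMap.map_swap _ _ hij, LinearMap.neg_apply, zt_neg]

set_option maxRecDepth 20000 in
theorem Gz_four (hA3 : ∀ x0 x1 x2 x3 x a c : A, (ee F x0 x1 x2 x3 x a * x) * c = 0)
    (hA4 : ∀ x0 x1 x2 x3 x a c : A,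
      ee F x0 x1 x2 x3 x a * (x * c) = (ee F x0 x1 x2 x3 x a * c) * x)
    (X : Fin 5 → A) (b a c : A) :
    Gz F (Function.update X 4 b) (X 4) a c = - Gz F X b a c := by
  have h0 : ∀ x : A, Gz F (Function.update X 4 x) x a c = 0 := by
    intro x
    have e : Function.update X 4 x = ![X 0, X 1, X 2, X 3, x] := by
      funext j; fin_cases j <;> rfl
    have h1 := hA3 (X 0) (X 1) (X 2) (X 3) x a c
    have h2 := hA4 (X 0) (X 1) (X 2) (X 3) x a c
    unfold ee at h1 h2
    unfold Gz zt
    rw [e, h1, h2]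
    abel
  have h1 := h0 (X 4 + b)
  have h2 := h0 (X 4)
  have h3 := h0 b
  rw [Function.update_eq_self] at h2
  unfold Gz at h1 h2 h3 ⊢
  rw [(eL F (A := A)).map_update_add, LinearMap.add_apply, zt_addZ, zt_addb, zt_addb,
    Function.update_eq_self, h2, h3, zero_add, add_zero] at h1
  exact eq_neg_of_add_eq_zero_right h1

theorem Gz_any (hA3 : ∀ x0 x1 x2 x3 x a c : A, (ee F x0 x1 x2 x3 x a * x) * c = 0)
    (hA4 : ∀ x0 x1 x2 x3 x a c : A,
      ee F x0 x1 x2 x3 x a * (x * c) = (ee F x0 x1 x2 x3 x a * c) * x)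
    (X : Fin 5 → A) (b a c : A) (i : Fin 5) :
    Gz F (Function.update X i b) (X i) a c = - Gz F X b a c := by
  by_cases hi : i = 4
  · subst hi
    exact Gz_four F hA3 hA4 X b a c
  · have h1 := Gz_four F hA3 hA4 (X ∘ swap i 4) b a c
    have e1 : Function.update (X ∘ swap i 4) 4 b = (Function.update X i b) ∘ swap i 4 := by
      funext j
      by_cases hj : j = 4
      · subst hj
        rw [Function.update_self, Function.comp_apply, swap_apply_right, Function.update_self]
      · rw [Function.update_of_ne hj, Function.comp_apply, Function.comp_apply]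
        have : swap i 4 j ≠ i := by
          intro h
          apply hj
          have := congrArg (swap i 4) h
          rwa [swap_apply_self, swap_apply_left] at this
        rw [Function.update_of_ne this]
    have e2 : (X ∘ swap i 4) 4 = X i := by
      rw [Function.comp_apply, swap_apply_right]
    rw [e1, e2, Gz_swap F _ _ _ _ _ _ hi, Gz_swap F _ _ _ _ _ _ hi, neg_inj] at h1
    exact h1

variable [CharZero F]

set_option maxRecDepth 20000 in
theorem base_Z8_of2 (C : Cert.{v} idsM par2 (clsL [0, 0, 0, 0, 0, 1, 0, 1]) Z8Ex)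
    (hA3 : ∀ x0 x1 x2 x3 x a c : A, (ee F x0 x1 x2 x3 x a * x) * c = 0)
    (hA4 : ∀ x0 x1 x2 x3 x a c : A,
      ee F x0 x1 x2 x3 x a * (x * c) = (ee F x0 x1 x2 x3 x a * c) * x)
    (h : IsMalcev A) (x0 x1 x2 x3 x4 a b c : A) :
    zt (ee F x0 x1 x2 x3 x4 a) b c = zt (ee F x0 x1 x2 x3 x4 c) b a := by
  have key := super_skew2 idsM_ml 8 par2 (clsL [0, 0, 0, 0, 0, 1, 0, 1]) Z8Ex
    (by decide +kernel) (by decide +kernel) (by decide) (by decide +kernel) C (h.algM F)
    (fun _ => 0) (fun τ : Perm (Fin 5) => τ.viaFintypeEmbedding em58) em58_t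
    (fun q => Gz F (q ∘ em58) (q 6) (q 5) (q 7) - Gz F (q ∘ em58) (q 6) (q 7) (q 5))
    (fun q => by
      have e2 : ∀ (X : Fin 5 → A) (r : A), eL F X r = Alt 5 (fun t => pe t r) X := fun X r => by
        rw [eL_apply]
        rfl
      unfold Gz
      rw [e2, e2, ← Alt_zt, ← Alt_zt, ← Alt_sub]
      unfold Alt
      refine sum_congr rfl fun τ _ => ?_
      rw [Perm.viaFintypeEmbedding_sign, Z8Ex_ev]
      have h5 : (τ.viaFintypeEmbedding em58) 5 = 5 :=
        Perm.viaFintypeEmbedding_apply_notMem_range τ em58 (em58_not (Or.inl rfl))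
      have h6 : (τ.viaFintypeEmbedding em58) 6 = 6 :=
        Perm.viaFintypeEmbedding_apply_notMem_range τ em58 (em58_not (Or.inr (Or.inl rfl)))
      have h7 : (τ.viaFintypeEmbedding em58) 7 = 7 :=
        Perm.viaFintypeEmbedding_apply_notMem_range τ em58 (em58_not (Or.inr (Or.inr rfl)))
      have hi : ∀ i : Fin 5, (τ.viaFintypeEmbedding em58) (em58 i) = em58 (τ i) :=
        fun i => Perm.viaFintypeEmbedding_apply_image τ em58 i
      have e1 : (![asg 8 (clsL [0, 0, 0, 0, 0, 1, 0, 1]) (q ∘ τ.viaFintypeEmbedding em58)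
            (fun _ => 0) 0,
          asg 8 (clsL [0, 0, 0, 0, 0, 1, 0, 1]) (q ∘ τ.viaFintypeEmbedding em58) (fun _ => 0) 1,
          asg 8 (clsL [0, 0, 0, 0, 0, 1, 0, 1]) (q ∘ τ.viaFintypeEmbedding em58) (fun _ => 0) 2,
          asg 8 (clsL [0, 0, 0, 0, 0, 1, 0, 1]) (q ∘ τ.viaFintypeEmbedding em58) (fun _ => 0) 3,
          asg 8 (clsL [0, 0, 0, 0, 0, 1, 0, 1]) (q ∘ τ.viaFintypeEmbedding em58)
            (fun _ => 0) 4] : Fin 5 → A) = (q ∘ em58) ∘ τ := by
        funext j
        have e3 : (((q ∘ em58) ∘ τ) j : A) = q ((τ.viaFintypeEmbedding em58) (em58 j)) := by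
          rw [hi]
          rfl
        rw [e3]
        fin_cases j <;> rfl
      have a5 : asg 8 (clsL [0, 0, 0, 0, 0, 1, 0, 1]) (q ∘ τ.viaFintypeEmbedding em58)
          (fun _ => 0) 5 = q 5 := by
        rw [← h5]
        conv_rhs => rw [h5, ← h5]
        rfl
      have a6 : asg 8 (clsL [0, 0, 0, 0, 0, 1, 0, 1]) (q ∘ τ.viaFintypeEmbedding em58)
          (fun _ => 0) 6 = q 6 := congrArg q h6
      have a7 : asg 8 (clsL [0, 0, 0, 0, 0, 1, 0, 1]) (q ∘ τ.viaFintypeEmbedding em58)
          (fun _ => 0) 7 = q 7 := congrArg q h7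
      rw [e1, a5, a6, a7]
      rfl)
    (fun i j hij hc q => by
      have hem : ∀ l : Fin 5, em58 l ≠ 5 ∧ em58 l ≠ 6 ∧ em58 l ≠ 7 := by decide
      rcases em58_cls i j hij hc with ⟨i', j', h1, rfl, rfl⟩ | ⟨rfl, rfl⟩ | ⟨rfl, rfl⟩ |
        ⟨i', rfl, rfl⟩ | ⟨i', rfl, rfl⟩
      · have e1 : (q ∘ swap (em58 i') (em58 j')) ∘ em58 = (q ∘ em58) ∘ swap i' j' := by
          funext l
          simp only [Function.comp_apply]
          rw [em58.injective.swap_apply]
        have e5 : (q ∘ swap (em58 i') (em58 j')) 5 = q 5 := by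
          rw [Function.comp_apply, swap_apply_of_ne_of_ne (hem i').1.symm (hem j').1.symm]
        have e6 : (q ∘ swap (em58 i') (em58 j')) 6 = q 6 := by
          rw [Function.comp_apply, swap_apply_of_ne_of_ne (hem i').2.1.symm (hem j').2.1.symm]
        have e7 : (q ∘ swap (em58 i') (em58 j')) 7 = q 7 := by
          rw [Function.comp_apply, swap_apply_of_ne_of_ne (hem i').2.2.symm (hem j').2.2.symm]
        rw [e1, e5, e6, e7, Gz_swap F _ _ _ _ _ _ h1, Gz_swap F _ _ _ _ _ _ h1]
        abel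
      · have e1 : (q ∘ swap (5 : Fin 8) 7) ∘ em58 = q ∘ em58 := by
          funext l
          simp only [Function.comp_apply]
          rw [swap_apply_of_ne_of_ne (hem l).1 (hem l).2.2]
        have e5 : (q ∘ swap (5 : Fin 8) 7) 5 = q 7 := rfl
        have e6 : (q ∘ swap (5 : Fin 8) 7) 6 = q 6 := rfl
        have e7 : (q ∘ swap (5 : Fin 8) 7) 7 = q 5 := rfl
        rw [e1, e5, e6, e7, neg_sub]
      · have e1 : (q ∘ swap (7 : Fin 8) 5) ∘ em58 = q ∘ em58 := by
          funext l
          simp only [Function.comp_apply]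
          rw [swap_apply_of_ne_of_ne (hem l).2.2 (hem l).1]
        have e5 : (q ∘ swap (7 : Fin 8) 5) 5 = q 7 := rfl
        have e6 : (q ∘ swap (7 : Fin 8) 5) 6 = q 6 := rfl
        have e7 : (q ∘ swap (7 : Fin 8) 5) 7 = q 5 := rfl
        rw [e1, e5, e6, e7, neg_sub]
      · have e1 : (q ∘ swap (em58 i') 6) ∘ em58 = Function.update (q ∘ em58) i' (q 6) := by
          funext l
          by_cases hl : l = i'
          · subst hl
            rw [Function.update_self, Function.comp_apply, Function.comp_apply, swap_apply_left]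
          · rw [Function.update_of_ne hl, Function.comp_apply, Function.comp_apply,
              swap_apply_of_ne_of_ne (fun h => hl (em58.injective h)) (hem l).2.1]
            rfl
        have e5 : (q ∘ swap (em58 i') 6) 5 = q 5 := by
          rw [Function.comp_apply, swap_apply_of_ne_of_ne (hem i').1.symm (by decide)]
        have e6 : (q ∘ swap (em58 i') 6) 6 = (q ∘ em58) i' := by
          rw [Function.comp_apply, swap_apply_right]
          rfl
        have e7 : (q ∘ swap (em58 i') 6) 7 = q 7 := by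
          rw [Function.comp_apply, swap_apply_of_ne_of_ne (hem i').2.2.symm (by decide)]
        rw [e1, e5, e6, e7, Gz_any F hA3 hA4, Gz_any F hA3 hA4]
        abel
      · rw [swap_comm]
        have e1 : (q ∘ swap (em58 i') 6) ∘ em58 = Function.update (q ∘ em58) i' (q 6) := by
          funext l
          by_cases hl : l = i'
          · subst hl
            rw [Function.update_self, Function.comp_apply, Function.comp_apply, swap_apply_left]
          · rw [Function.update_of_ne hl, Function.comp_apply, Function.comp_apply,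
              swap_apply_of_ne_of_ne (fun h => hl (em58.injective h)) (hem l).2.1]
            rfl
        have e5 : (q ∘ swap (em58 i') 6) 5 = q 5 := by
          rw [Function.comp_apply, swap_apply_of_ne_of_ne (hem i').1.symm (by decide)]
        have e6 : (q ∘ swap (em58 i') 6) 6 = (q ∘ em58) i' := by
          rw [Function.comp_apply, swap_apply_right]
          rfl
        have e7 : (q ∘ swap (em58 i') 6) 7 = q 7 := by
          rw [Function.comp_apply, swap_apply_of_ne_of_ne (hem i').2.2.symm (by decide)]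
        rw [e1, e5, e6, e7, Gz_any F hA3 hA4, Gz_any F hA3 hA4]
        abel) ![x0, x1, x2, x3, x4, a, b, c]
  have e1 : ((![x0, x1, x2, x3, x4, a, b, c] : Fin 8 → A) ∘ em58) = ![x0, x1, x2, x3, x4] := by
    funext l; fin_cases l <;> rfl
  have e5 : (![x0, x1, x2, x3, x4, a, b, c] : Fin 8 → A) 5 = a := rfl
  have e6 : (![x0, x1, x2, x3, x4, a, b, c] : Fin 8 → A) 6 = b := rfl
  have e7 : (![x0, x1, x2, x3, x4, a, b, c] : Fin 8 → A) 7 = c := rfl
  simp only [e1, e5, e6, e7] at key
  exact sub_eq_zero.1 key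

end Pool.Agent.Malc
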