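import Pool.Agent.Malc.VDefs

/-! # The generator `e'` of the T-ideal `Q`

`pe x y` is a multilinear polynomial of degree six; `eL F x y = ∑ s, sign s • pe (x ∘ s) y` is alternating in
`x : Fin 5 → A` and linear in `y`. -/

set_option autoImplicit false

open scoped BigOperators

namespace Pool.Agent.Malc

universe u v

section

variable {A : Type v} [NonUnitalNonAssocRing A]

/-- the polynomial `p` -/
def pe (x : Fin 5 → A) (y : A) : A :=
  2 • (((((x 0 * y) * x 1) * x 2) * x 3) * x 4) + 5 • (((((x 0 * x 1) * y) * x 2) * x 3) * x 4) +
    4 • (((((x 0 * x 1) * x 2) * y) * x 3) * x 4) - 3 • ((((x 0 * x 1) * y) * x 2) * (x 3 * x 4)) -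
    2 • ((((x 0 * x 1) * x 2) * x 3) * (x 4 * y))

end

section

variable (F : Type u) [Field F] {A : Type v} [NonUnitalNonAssocRing A] [Module F A]
  [IsScalarTower F A A] [SMulCommClass F A A]

/-- `pe` as a linear map of `y` -/
def peY (x : Fin 5 → A) : A →ₗ[F] A where
  toFun := pe x
  map_add' := fun a b => by
    simp only [pe, mul_add, add_mul, smul_add]
    abel
  map_smul' := fun c a => by
    simp only [pe, smul_mul_assoc, mul_smul_comm, RingHom.id_apply, smul_add, smul_sub]
    simp only [smul_comm c]

/-- `pe` as a multilinear map -/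
def peM : MultilinearMap F (fun _ : Fin 5 => A) (A →ₗ[F] A) where
  toFun := peY F
  map_update_add' := by
    intro inst m i a b
    have h : inst = instDecidableEqFin 5 := Subsingleton.elim _ _
    subst h
    apply LinearMap.ext
    intro y
    fin_cases i <;>
    · simp [peY, pe, Function.update, mul_add, add_mul, smul_add]
      abel
  map_update_smul' := by
    intro inst m i c a
    have h : inst = instDecidableEqFin 5 := Subsingleton.elim _ _
    subst h
    apply LinearMap.ext
    intro y
    fin_cases i <;>
    · simp [peY, pe, Function.update, smul_mul_assoc, mul_smul_comm, smul_add, smul_sub]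
      simp only [smul_comm c]

theorem peM_apply (x : Fin 5 → A) (y : A) : peM F x y = pe x y := rfl

/-- the generator -/
noncomputable def eL : A [⋀^Fin 5]→ₗ[F] (A →ₗ[F] A) := MultilinearMap.alternatization (peM F)

theorem eL_apply (x : Fin 5 → A) (y : A) :
    eL F x y = ∑ s : Equiv.Perm (Fin 5), Equiv.Perm.sign s • pe (x ∘ s) y := by
  unfold eL
  rw [MultilinearMap.alternatization_apply, LinearMap.sum_apply]
  rfl

/-- the generator, explicit arguments -/
noncomputable def ee (x0 x1 x2 x3 x4 y : A) : A := eL F ![x0, x1, x2, x3, x4] y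

end

end Pool.Agent.Malc
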