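import Pool.Agent.Malc.BaseOf

/-! # The base identities from the certificates, continued -/

set_option autoImplicit false

namespace Pool.Agent.Malc

universe u v

open Finset Equiv

theorem Alt_of_skew {n : ℕ} {A : Type u} [AddCommGroup A] (G : (Fin (n + 1) → A) → A)
    (h : ∀ (i : Fin n) (y : Fin (n + 1) → A), G (y ∘ swap i.castSucc i.succ) = - G y)
    (x : Fin (n + 1) → A) : Alt (n + 1) G x = (n + 1).factorial • G x := by
  have h1 : ∀ σ : Perm (Fin (n + 1)), Perm.sign σ • G (x ∘ σ) = G x := by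
    intro σ
    rw [skew_perm G h σ x]
    rcases Int.units_eq_one_or (Perm.sign σ) with h2 | h2
    · rw [h2]
      simp
    · rw [h2]
      simp
  unfold Alt
  rw [sum_congr rfl fun σ _ => h1 σ, sum_const, Finset.card_univ, Fintype.card_perm,
    Fintype.card_fin]

variable (F : Type u) [Field F] {A : Type v} [NonUnitalNonAssocRing A] [Module F A]
  [IsScalarTower F A A] [SMulCommClass F A A]

theorem pe2B_eta (b c y : A) (t : Fin 3 → A) : pe2B b c ![t 0, t 1, t 2] y = pe2B b c t y := rfl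

theorem pe3B_eta (b c d y : A) (t : Fin 2 → A) : pe3B b c d ![t 0, t 1] y = pe3B b c d t y := rfl

theorem SL0 (b c x0 x1 x2 x3 : A) :
    Alt 4 (fun t => pe2B b c ![t 1, t 2, t 3] (t 0)) ![x0, x1, x2, x3] =
      ee F b c x1 x2 x3 x0 - ee F b c x0 x2 x3 x1 + ee F b c x0 x1 x3 x2 -
        ee F b c x0 x1 x2 x3 := by
  rw [Alt4_succ, ee2, ee2, ee2, ee2]
  rfl

theorem SL1 (b c y x0 x1 x2 x3 : A) :
    Alt 4 (fun t => pe2B b c ![t 1, t 2, t 3] y * t 0) ![x0, x1, x2, x3] =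
      ee F b c x1 x2 x3 y * x0 - ee F b c x0 x2 x3 y * x1 + ee F b c x0 x1 x3 y * x2 -
        ee F b c x0 x1 x2 y * x3 := by
  rw [Alt4_succ, ee2, ee2, ee2, ee2, ← Alt_mul, ← Alt_mul, ← Alt_mul, ← Alt_mul]
  rfl

theorem SL2 (b c z x0 x1 x2 x3 : A) :
    Alt 4 (fun t => pe2B b c ![t 1, t 2, t 3] (t 0) * z) ![x0, x1, x2, x3] =
      ee F b c x1 x2 x3 x0 * z - ee F b c x0 x2 x3 x1 * z + ee F b c x0 x1 x3 x2 * z -
        ee F b c x0 x1 x2 x3 * z := by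
  rw [Alt_mul, SL0 F]
  simp only [sub_mul, add_mul]

theorem TL2 (b c d z x0 x1 x2 : A) :
    Alt 3 (fun t => pe3B b c d ![t 1, t 2] (t 0) * z) ![x0, x1, x2] =
      ee F b c d x1 x2 x0 * z - ee F b c d x0 x2 x1 * z + ee F b c d x0 x1 x2 * z := by
  rw [Alt3_succ, ee3, ee3, ee3, ← Alt_mul, ← Alt_mul, ← Alt_mul]
  rfl

variable [CharZero F]

theorem base_B0_of (C : Cert.{v} idsM par1 (clsL [0, 0, 0, 0, 1, 2]) B0Ex)
    (h : IsMalcev A) (a b c d v z : A) :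
    10 • (P108 a b c d (v * z) - P108 a b c d v * z) =
      ee F a b c d v z - ee F b c d v z a + ee F a c d v z b - ee F a b d v z c +
        ee F a b c v z d := by
  have key := super_alt idsM_ml 4 par1 _ B0Ex (by decide +kernel) (by decide +kernel)
    (by decide) rfl (by decide +kernel) C (h.algM F) (wv v z 0 0) ![a, b, c, d]
  have hG : ∀ (i : Fin 3) (t : Fin 4 → A),
      (fun t : Fin 4 → A => P108 (t 0) (t 1) (t 2) (t 3) (v * z) -
        P108 (t 0) (t 1) (t 2) (t 3) v * z) (t ∘ swap i.castSucc i.succ) =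
      - (fun t : Fin 4 → A => P108 (t 0) (t 1) (t 2) (t 3) (v * z) -
        P108 (t 0) (t 1) (t 2) (t 3) v * z) t := by
    intro i t
    fin_cases i
    · show P108 (t 1) (t 0) (t 2) (t 3) (v * z) - P108 (t 1) (t 0) (t 2) (t 3) v * z =
        -(P108 (t 0) (t 1) (t 2) (t 3) (v * z) - P108 (t 0) (t 1) (t 2) (t 3) v * z)
      rw [h.P12 (t 0), h.P12 (t 0), neg_mul]
      abel
    · show P108 (t 0) (t 2) (t 1) (t 3) (v * z) - P108 (t 0) (t 2) (t 1) (t 3) v * z =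
        -(P108 (t 0) (t 1) (t 2) (t 3) (v * z) - P108 (t 0) (t 1) (t 2) (t 3) v * z)
      rw [h.P23 (t 0) (t 1), h.P23 (t 0) (t 1), neg_mul]
      abel
    · show P108 (t 0) (t 1) (t 3) (t 2) (v * z) - P108 (t 0) (t 1) (t 3) (t 2) v * z =
        -(P108 (t 0) (t 1) (t 2) (t 3) (v * z) - P108 (t 0) (t 1) (t 2) (t 3) v * z)
      rw [h.P34 (t 0) (t 1) (t 2), h.P34 (t 0) (t 1) (t 2), neg_mul]
      abel
  have k1 : Alt 4 (fun t => 10 • (P108 (t 0) (t 1) (t 2) (t 3) (v * z) -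
        P108 (t 0) (t 1) (t 2) (t 3) v * z) - 24 • pe1B v t z +
        24 • pe2B v z ![t 1, t 2, t 3] (t 0)) ![a, b, c, d] = 0 := key
  rw [Alt_add, Alt_sub, Alt_nsmul, Alt_nsmul, Alt_nsmul, Alt_of_skew _ hG, ← ee1 F, SL0 F] at k1
  have k2 : (24 : ℤ) • (10 • (P108 a b c d (v * z) - P108 a b c d v * z) -
      (ee F a b c d v z - ee F b c d v z a + ee F a c d v z b - ee F a b d v z c +
        ee F a b c v z d)) = 0 := by
    rw [← k1, eeA_rot F v a b c d z, eeA_rot F z b c d v a, eeA_rot F v z b c d a,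
      eeA_rot F z a c d v b, eeA_rot F v z a c d b, eeA_rot F z a b d v c, eeA_rot F v z a b d c,
      eeA_rot F z a b c v d, eeA_rot F v z a b c d]
    show _ = 10 • (4).factorial • (P108 a b c d (v * z) - P108 a b c d v * z) - _ + _
    have e4 : (4).factorial = 24 := rfl
    rw [e4]
    module
  exact sub_eq_zero.1 (tf_of_field F 24 _ (by norm_num) k2)

omit [CharZero F] in
theorem Fsp_mem (y : Fin 7 → A) (t : Fin 7 → Fin 7) (ht : Function.Injective t) :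
    ee F (y (t 0)) (y (t 1)) (y (t 2)) (y (t 3)) (y (t 4)) (y (t 5)) * y (t 6) ∈ Fsp F y :=
  Submodule.subset_span ⟨Equiv.ofBijective t (Finite.injective_iff_bijective.1 ht), rfl⟩

omit [IsScalarTower F A A] [SMulCommClass F A A] in
theorem mem_of_smul {S : Submodule F A} {n : ℕ} (hn : n ≠ 0) {x : A} (h : n • x ∈ S) : x ∈ S := by
  rw [← Nat.cast_smul_eq_nsmul F] at h
  have h1 := S.smul_mem ((n : F)⁻¹) h
  rwa [smul_smul, inv_mul_cancel₀ (Nat.cast_ne_zero.2 hn), one_smul] at h1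

theorem base_r1_of (C : Cert.{v} idsM par1 (clsL [0, 0, 0, 0, 1, 2, 2]) r1Ex)
    (h : IsMalcev A) (u a x0 x1 x2 x3 : A) :
    ee F (u * a) x0 x1 x2 x3 a ∈ Fsp F ![u, a, x0, x1, x2, x3, a] := by
  have key := super_alt idsM_ml 4 par1 _ r1Ex (by decide +kernel) (by decide +kernel)
    (by decide) rfl (by decide +kernel) C (h.algM F) (wv u a 0 0) ![x0, x1, x2, x3]
  have k1 : Alt 4 (fun t => 20 • pe1B (u * a) t a + 3 • (pe2B u a ![t 1, t 2, t 3] a * t 0) +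
      11 • (pe2B u a ![t 1, t 2, t 3] (t 0) * a) - 12 • (pe1B a t a * u))
      ![x0, x1, x2, x3] = 0 := key
  rw [Alt_sub, Alt_add, Alt_add, Alt_nsmul, Alt_nsmul, Alt_nsmul, Alt_nsmul, ← ee1 F, SL1 F,
    SL2 F, Alt_mul, ← ee1 F] at k1
  apply mem_of_smul F (n := 20) (by norm_num)
  have k2 : 20 • ee F (u * a) x0 x1 x2 x3 a = 12 • (ee F a x0 x1 x2 x3 a * u) -
      11 • (ee F u a x1 x2 x3 x0 * a - ee F u a x0 x2 x3 x1 * a + ee F u a x0 x1 x3 x2 * a -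
        ee F u a x0 x1 x2 x3 * a) -
      3 • (ee F u a x1 x2 x3 a * x0 - ee F u a x0 x2 x3 a * x1 + ee F u a x0 x1 x3 a * x2 -
        ee F u a x0 x1 x2 a * x3) := by
    rw [← sub_eq_zero, ← k1]
    abel
  rw [k2]
  have m1 : ee F a x0 x1 x2 x3 a * u ∈ Fsp F ![u, a, x0, x1, x2, x3, a] :=
    Fsp_mem F ![u, a, x0, x1, x2, x3, a] ![1, 2, 3, 4, 5, 6, 0] (by decide)
  have m2 : ee F u a x1 x2 x3 x0 * a ∈ Fsp F ![u, a, x0, x1, x2, x3, a] :=
    Fsp_mem F ![u, a, x0, x1, x2, x3, a] ![0, 1, 3, 4, 5, 2, 6] (by decide)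
  have m3 : ee F u a x0 x2 x3 x1 * a ∈ Fsp F ![u, a, x0, x1, x2, x3, a] :=
    Fsp_mem F ![u, a, x0, x1, x2, x3, a] ![0, 1, 2, 4, 5, 3, 6] (by decide)
  have m4 : ee F u a x0 x1 x3 x2 * a ∈ Fsp F ![u, a, x0, x1, x2, x3, a] :=
    Fsp_mem F ![u, a, x0, x1, x2, x3, a] ![0, 1, 2, 3, 5, 4, 6] (by decide)
  have m5 : ee F u a x0 x1 x2 x3 * a ∈ Fsp F ![u, a, x0, x1, x2, x3, a] :=
    Fsp_mem F ![u, a, x0, x1, x2, x3, a] ![0, 1, 2, 3, 4, 5, 6] (by decide)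
  have m6 : ee F u a x1 x2 x3 a * x0 ∈ Fsp F ![u, a, x0, x1, x2, x3, a] :=
    Fsp_mem F ![u, a, x0, x1, x2, x3, a] ![0, 1, 3, 4, 5, 6, 2] (by decide)
  have m7 : ee F u a x0 x2 x3 a * x1 ∈ Fsp F ![u, a, x0, x1, x2, x3, a] :=
    Fsp_mem F ![u, a, x0, x1, x2, x3, a] ![0, 1, 2, 4, 5, 6, 3] (by decide)
  have m8 : ee F u a x0 x1 x3 a * x2 ∈ Fsp F ![u, a, x0, x1, x2, x3, a] :=
    Fsp_mem F ![u, a, x0, x1, x2, x3, a] ![0, 1, 2, 3, 5, 6, 4] (by decide)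
  have m9 : ee F u a x0 x1 x2 a * x3 ∈ Fsp F ![u, a, x0, x1, x2, x3, a] :=
    Fsp_mem F ![u, a, x0, x1, x2, x3, a] ![0, 1, 2, 3, 4, 6, 5] (by decide)
  exact sub_mem (sub_mem (nsmul_mem m1 12)
    (nsmul_mem (sub_mem (add_mem (sub_mem m2 m3) m4) m5) 11))
    (nsmul_mem (sub_mem (add_mem (sub_mem m6 m7) m8) m9) 3)

end Pool.Agent.Malc
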