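import Pool.Agent.Malc.BaseOf2

/-! # The base identities from the certificates, continued -/

set_option autoImplicit false

namespace Pool.Agent.Malc

universe u v

open Finset Equiv

variable (F : Type u) [Field F] {A : Type v} [NonUnitalNonAssocRing A] [Module F A]
  [IsScalarTower F A A] [SMulCommClass F A A] [CharZero F]

theorem base_r4_of (C : Cert.{v} idsM par1 (clsL [0, 0, 0, 0, 1, 2, 2]) r4Ex)
    (h : IsMalcev A) (x0 x1 x2 x3 u v : A) :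
    ee F x0 x1 x2 x3 v (u * v) ∈ Fsp F ![x0, x1, x2, x3, v, u, v] := by
  have key := super_alt idsM_ml 4 par1 _ r4Ex (by decide +kernel) (by decide +kernel)
    (by decide) rfl (by decide +kernel) C (h.algM F) (wv u v 0 0) ![x0, x1, x2, x3]
  have k1 : Alt 4 (fun t => 5 • pe1B v t (u * v) - 2 • (pe2B u v ![t 1, t 2, t 3] v * t 0) +
      (pe2B u v ![t 1, t 2, t 3] (t 0) * v) + 3 • (pe1B v t v * u))
      ![x0, x1, x2, x3] = 0 := key
  rw [Alt_add, Alt_add, Alt_sub, Alt_nsmul, Alt_nsmul, Alt_nsmul, ← ee1 F, SL1 F,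
    SL2 F, Alt_mul, ← ee1 F] at k1
  rw [eeA_rot F v x0 x1 x2 x3]
  apply mem_of_smul F (n := 5) (by norm_num)
  have k2 : 5 • ee F v x0 x1 x2 x3 (u * v) = 2 • (ee F u v x1 x2 x3 v * x0 -
        ee F u v x0 x2 x3 v * x1 + ee F u v x0 x1 x3 v * x2 - ee F u v x0 x1 x2 v * x3) -
      (ee F u v x1 x2 x3 x0 * v - ee F u v x0 x2 x3 x1 * v + ee F u v x0 x1 x3 x2 * v -
        ee F u v x0 x1 x2 x3 * v) - 3 • (ee F v x0 x1 x2 x3 v * u) := by
    rw [← sub_eq_zero, ← k1]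
    abel
  rw [k2]
  -- order: x0 x1 x2 x3 v u v
  have m1 : ee F v x0 x1 x2 x3 v * u ∈ Fsp F ![x0, x1, x2, x3, v, u, v] :=
    Fsp_mem F ![x0, x1, x2, x3, v, u, v] ![4, 0, 1, 2, 3, 6, 5] (by decide)
  have m2 : ee F u v x1 x2 x3 x0 * v ∈ Fsp F ![x0, x1, x2, x3, v, u, v] :=
    Fsp_mem F ![x0, x1, x2, x3, v, u, v] ![5, 4, 1, 2, 3, 0, 6] (by decide)
  have m3 : ee F u v x0 x2 x3 x1 * v ∈ Fsp F ![x0, x1, x2, x3, v, u, v] :=
    Fsp_mem F ![x0, x1, x2, x3, v, u, v] ![5, 4, 0, 2, 3, 1, 6] (by decide)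
  have m4 : ee F u v x0 x1 x3 x2 * v ∈ Fsp F ![x0, x1, x2, x3, v, u, v] :=
    Fsp_mem F ![x0, x1, x2, x3, v, u, v] ![5, 4, 0, 1, 3, 2, 6] (by decide)
  have m5 : ee F u v x0 x1 x2 x3 * v ∈ Fsp F ![x0, x1, x2, x3, v, u, v] :=
    Fsp_mem F ![x0, x1, x2, x3, v, u, v] ![5, 4, 0, 1, 2, 3, 6] (by decide)
  have m6 : ee F u v x1 x2 x3 v * x0 ∈ Fsp F ![x0, x1, x2, x3, v, u, v] :=
    Fsp_mem F ![x0, x1, x2, x3, v, u, v] ![5, 4, 1, 2, 3, 6, 0] (by decide)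
  have m7 : ee F u v x0 x2 x3 v * x1 ∈ Fsp F ![x0, x1, x2, x3, v, u, v] :=
    Fsp_mem F ![x0, x1, x2, x3, v, u, v] ![5, 4, 0, 2, 3, 6, 1] (by decide)
  have m8 : ee F u v x0 x1 x3 v * x2 ∈ Fsp F ![x0, x1, x2, x3, v, u, v] :=
    Fsp_mem F ![x0, x1, x2, x3, v, u, v] ![5, 4, 0, 1, 3, 6, 2] (by decide)
  have m9 : ee F u v x0 x1 x2 v * x3 ∈ Fsp F ![x0, x1, x2, x3, v, u, v] :=
    Fsp_mem F ![x0, x1, x2, x3, v, u, v] ![5, 4, 0, 1, 2, 6, 3] (by decide)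
  exact sub_mem (sub_mem (nsmul_mem (sub_mem (add_mem (sub_mem m6 m7) m8) m9) 2)
    (sub_mem (add_mem (sub_mem m2 m3) m4) m5)) (nsmul_mem m1 3)

theorem base_r2_of (C : Cert.{v} idsM par1 (clsL [0, 0, 0, 1, 2, 2, 3]) r2Ex)
    (h : IsMalcev A) (u v x1 x2 x3 a : A) :
    ee F (u * v) v x1 x2 x3 a ∈ Fsp F ![u, v, v, x1, x2, x3, a] := by
  have key := super_alt idsM_ml 3 par1 _ r2Ex (by decide +kernel) (by decide +kernel)
    (by decide) rfl (by decide +kernel) C (h.algM F) (wv u v a 0) ![x1, x2, x3]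
  have k1 : Alt 3 (fun t => 5 • pe2B (u * v) v t a + 2 • (pe2B u v t v * a) -
      2 • (pe2B v a t v * u) + 5 • (pe2B u v t a * v) +
      2 • (pe3B u v a ![t 1, t 2] (t 0) * v)) ![x1, x2, x3] = 0 := key
  rw [Alt_add, Alt_add, Alt_sub, Alt_add, Alt_nsmul, Alt_nsmul, Alt_nsmul, Alt_nsmul, Alt_nsmul,
    TL2 F, Alt_mul, Alt_mul, Alt_mul, ← ee2 F, ← ee2 F, ← ee2 F, ← ee2 F] at k1
  apply mem_of_smul F (n := 5) (by norm_num)
  have k2 : 5 • ee F (u * v) v x1 x2 x3 a = 2 • (ee F v a x1 x2 x3 v * u) -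
      2 • (ee F u v x1 x2 x3 v * a) - 5 • (ee F u v x1 x2 x3 a * v) -
      2 • (ee F u v a x2 x3 x1 * v - ee F u v a x1 x3 x2 * v + ee F u v a x1 x2 x3 * v) := by
    rw [← sub_eq_zero, ← k1]
    abel
  rw [k2]
  -- order: u v v x1 x2 x3 a
  have m1 : ee F v a x1 x2 x3 v * u ∈ Fsp F ![u, v, v, x1, x2, x3, a] :=
    Fsp_mem F ![u, v, v, x1, x2, x3, a] ![1, 6, 3, 4, 5, 2, 0] (by decide)
  have m2 : ee F u v x1 x2 x3 v * a ∈ Fsp F ![u, v, v, x1, x2, x3, a] :=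
    Fsp_mem F ![u, v, v, x1, x2, x3, a] ![0, 1, 3, 4, 5, 2, 6] (by decide)
  have m3 : ee F u v x1 x2 x3 a * v ∈ Fsp F ![u, v, v, x1, x2, x3, a] :=
    Fsp_mem F ![u, v, v, x1, x2, x3, a] ![0, 1, 3, 4, 5, 6, 2] (by decide)
  have m4 : ee F u v a x2 x3 x1 * v ∈ Fsp F ![u, v, v, x1, x2, x3, a] :=
    Fsp_mem F ![u, v, v, x1, x2, x3, a] ![0, 1, 6, 4, 5, 3, 2] (by decide)
  have m5 : ee F u v a x1 x3 x2 * v ∈ Fsp F ![u, v, v, x1, x2, x3, a] :=
    Fsp_mem F ![u, v, v, x1, x2, x3, a] ![0, 1, 6, 3, 5, 4, 2] (by decide)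
  have m6 : ee F u v a x1 x2 x3 * v ∈ Fsp F ![u, v, v, x1, x2, x3, a] :=
    Fsp_mem F ![u, v, v, x1, x2, x3, a] ![0, 1, 6, 3, 4, 5, 2] (by decide)
  exact sub_mem (sub_mem (sub_mem (nsmul_mem m1 2) (nsmul_mem m2 2)) (nsmul_mem m3 5))
    (nsmul_mem (add_mem (sub_mem m4 m5) m6) 2)

/-- the embedding `i ↦ i + 2` -/
def em47 : Fin 4 ↪ Fin 7 := ⟨![2, 3, 4, 5], by decide⟩

/-- the embedding `i ↦ i` -/
def em57 : Fin 5 ↪ Fin 7 := ⟨![0, 1, 2, 3, 4], by decide⟩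

theorem em47_not {j : Fin 7} (hj : j = 0 ∨ j = 1 ∨ j = 6) : j ∉ Set.range em47 := by
  rintro ⟨i, hi⟩
  revert hi hj
  revert i j
  decide

theorem em57_not {j : Fin 7} (hj : j = 5 ∨ j = 6) : j ∉ Set.range em57 := by
  rintro ⟨i, hi⟩
  revert hi hj
  revert i j
  decide

theorem via47 (τ : Perm (Fin 4)) (t : Fin 7 → A) :
    pe1B (t 0 * t 1) (![t 2, t 3, t 4, t 5] ∘ τ) (t 6) =
    pe1B ((t ∘ τ.viaFintypeEmbedding em47) 0 * (t ∘ τ.viaFintypeEmbedding em47) 1)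
      ![(t ∘ τ.viaFintypeEmbedding em47) 2, (t ∘ τ.viaFintypeEmbedding em47) 3,
        (t ∘ τ.viaFintypeEmbedding em47) 4, (t ∘ τ.viaFintypeEmbedding em47) 5]
      ((t ∘ τ.viaFintypeEmbedding em47) 6) := by
  have h0 : (τ.viaFintypeEmbedding em47) 0 = 0 :=
    Perm.viaFintypeEmbedding_apply_notMem_range τ em47 (em47_not (Or.inl rfl))
  have h1 : (τ.viaFintypeEmbedding em47) 1 = 1 :=
    Perm.viaFintypeEmbedding_apply_notMem_range τ em47 (em47_not (Or.inr (Or.inl rfl)))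
  have h6 : (τ.viaFintypeEmbedding em47) 6 = 6 :=
    Perm.viaFintypeEmbedding_apply_notMem_range τ em47 (em47_not (Or.inr (Or.inr rfl)))
  have hi : ∀ i : Fin 4, (τ.viaFintypeEmbedding em47) (em47 i) = em47 (τ i) :=
    fun i => Perm.viaFintypeEmbedding_apply_image τ em47 i
  have hv : (![t 2, t 3, t 4, t 5] : Fin 4 → A) = t ∘ em47 := by
    funext j; fin_cases j <;> rfl
  have hw : (![(t ∘ τ.viaFintypeEmbedding em47) 2, (t ∘ τ.viaFintypeEmbedding em47) 3,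
        (t ∘ τ.viaFintypeEmbedding em47) 4, (t ∘ τ.viaFintypeEmbedding em47) 5] : Fin 4 → A) =
      (t ∘ em47) ∘ τ := by
    funext j
    have : ((t ∘ em47) ∘ τ) j = t ((τ.viaFintypeEmbedding em47) (em47 j)) := by
      rw [hi]
      rfl
    rw [this]
    fin_cases j <;> rfl
  rw [hw, hv]
  simp only [Function.comp_apply, h0, h1, h6]

omit [NonUnitalNonAssocRing A] in
theorem via57 (τ : Perm (Fin 5)) (t : Fin 7 → A) (g : (Fin 5 → A) → A → A → A) :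
    g (![t 0, t 1, t 2, t 3, t 4] ∘ τ) (t 5) (t 6) =
    g ![(t ∘ τ.viaFintypeEmbedding em57) 0, (t ∘ τ.viaFintypeEmbedding em57) 1,
        (t ∘ τ.viaFintypeEmbedding em57) 2, (t ∘ τ.viaFintypeEmbedding em57) 3,
        (t ∘ τ.viaFintypeEmbedding em57) 4]
      ((t ∘ τ.viaFintypeEmbedding em57) 5) ((t ∘ τ.viaFintypeEmbedding em57) 6) := by
  have h5 : (τ.viaFintypeEmbedding em57) 5 = 5 :=
    Perm.viaFintypeEmbedding_apply_notMem_range τ em57 (em57_not (Or.inl rfl))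
  have h6 : (τ.viaFintypeEmbedding em57) 6 = 6 :=
    Perm.viaFintypeEmbedding_apply_notMem_range τ em57 (em57_not (Or.inr rfl))
  have hi : ∀ i : Fin 5, (τ.viaFintypeEmbedding em57) (em57 i) = em57 (τ i) :=
    fun i => Perm.viaFintypeEmbedding_apply_image τ em57 i
  have hv : (![t 0, t 1, t 2, t 3, t 4] : Fin 5 → A) = t ∘ em57 := by
    funext j; fin_cases j <;> rfl
  have hw : (![(t ∘ τ.viaFintypeEmbedding em57) 0, (t ∘ τ.viaFintypeEmbedding em57) 1,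
        (t ∘ τ.viaFintypeEmbedding em57) 2, (t ∘ τ.viaFintypeEmbedding em57) 3,
        (t ∘ τ.viaFintypeEmbedding em57) 4] : Fin 5 → A) = (t ∘ em57) ∘ τ := by
    funext j
    have : ((t ∘ em57) ∘ τ) j = t ((τ.viaFintypeEmbedding em57) (em57 j)) := by
      rw [hi]
      rfl
    rw [this]
    fin_cases j <;> rfl
  rw [hw, hv]
  simp only [Function.comp_apply, h5, h6]

theorem base_r5_of (C : Cert.{v} idsM par1 (clsL [0, 0, 0, 0, 0, 0, 0]) r5Ex)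
    (h : IsMalcev A) (y : Fin 7 → A) :
    ∑ s : Equiv.Perm (Fin 7), Equiv.Perm.sign s •
      (2 • ee F (y (s 0) * y (s 1)) (y (s 2)) (y (s 3)) (y (s 4)) (y (s 5)) (y (s 6)) -
        ee F (y (s 0)) (y (s 1)) (y (s 2)) (y (s 3)) (y (s 4)) (y (s 5) * y (s 6))) ∈ Fsp F y := by
  have key := super_alt idsM_ml 7 par1 _ r5Ex (by decide +kernel) (by decide +kernel)
    (by decide) rfl (by decide +kernel) C (h.algM F) (wv 0 0 0 0) y
  have k1 : Alt 7 (fun t => 48 • pe1B (t 0 * t 1) ![t 2, t 3, t 4, t 5] (t 6) -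
      120 • pe ![t 0, t 1, t 2, t 3, t 4] (t 5 * t 6) -
      240 • (pe ![t 0, t 1, t 2, t 3, t 4] (t 5) * t 6)) y = 0 := key
  rw [Alt_sub, Alt_sub, Alt_nsmul, Alt_nsmul, Alt_nsmul] at k1
  have a1 : Alt 7 (fun t => ee F (t 0 * t 1) (t 2) (t 3) (t 4) (t 5) (t 6)) y =
      24 • Alt 7 (fun t => pe1B (t 0 * t 1) ![t 2, t 3, t 4, t 5] (t 6)) y := by
    have e1 := Alt_absorb (fun τ : Perm (Fin 4) => τ.viaFintypeEmbedding em47)
      (fun t : Fin 7 → A => pe1B (t 0 * t 1) ![t 2, t 3, t 4, t 5] (t 6)) y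
    rw [Fintype.card_perm, Fintype.card_fin] at e1
    have e2 : (4 : ℕ).factorial = 24 := rfl
    rw [e2] at e1
    rw [← e1]
    congr 1
    funext t
    rw [ee1]
    unfold Alt
    refine sum_congr rfl fun τ _ => ?_
    rw [Perm.viaFintypeEmbedding_sign]
    exact congrArg (fun z => Perm.sign τ • z) (via47 τ t)
  have a2 : ∀ g : (Fin 5 → A) → A → A → A, Alt 7 (fun t =>
      Alt 5 (fun r => g r (t 5) (t 6)) ![t 0, t 1, t 2, t 3, t 4]) y =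
      120 • Alt 7 (fun t => g ![t 0, t 1, t 2, t 3, t 4] (t 5) (t 6)) y := by
    intro g
    have e1 := Alt_absorb (fun τ : Perm (Fin 5) => τ.viaFintypeEmbedding em57)
      (fun t : Fin 7 → A => g ![t 0, t 1, t 2, t 3, t 4] (t 5) (t 6)) y
    rw [Fintype.card_perm, Fintype.card_fin] at e1
    have e2 : (5 : ℕ).factorial = 120 := rfl
    rw [e2] at e1
    rw [← e1]
    congr 1
    funext t
    unfold Alt
    refine sum_congr rfl fun τ _ => ?_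
    rw [Perm.viaFintypeEmbedding_sign]
    exact congrArg (fun z => Perm.sign τ • z) (via57 τ t g)
  have a3 := a2 (fun r b c => pe r (b * c))
  have a4 := a2 (fun r b c => pe r b * c)
  show Alt 7 (fun t => 2 • ee F (t 0 * t 1) (t 2) (t 3) (t 4) (t 5) (t 6) -
    ee F (t 0) (t 1) (t 2) (t 3) (t 4) (t 5 * t 6)) y ∈ Fsp F y
  rw [Alt_sub, Alt_nsmul, a1]
  have k2 : 2 • 24 • Alt 7 (fun t => pe1B (t 0 * t 1) ![t 2, t 3, t 4, t 5] (t 6)) y -
      Alt 7 (fun t => ee F (t 0) (t 1) (t 2) (t 3) (t 4) (t 5 * t 6)) y =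
      2 • Alt 7 (fun t => ee F (t 0) (t 1) (t 2) (t 3) (t 4) (t 5) * t 6) y := by
    have b1 : (fun t : Fin 7 → A => ee F (t 0) (t 1) (t 2) (t 3) (t 4) (t 5 * t 6)) =
        fun t => Alt 5 (fun r => pe r (t 5 * t 6)) ![t 0, t 1, t 2, t 3, t 4] := by
      funext t
      rw [ee0]
    have b2 : (fun t : Fin 7 → A => ee F (t 0) (t 1) (t 2) (t 3) (t 4) (t 5) * t 6) =
        fun t => Alt 5 (fun r => pe r (t 5) * t 6) ![t 0, t 1, t 2, t 3, t 4] := by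
      funext t
      rw [ee0, Alt_mul]
    rw [b1, b2, a3, a4, ← sub_eq_zero, ← k1]
    abel
  rw [k2]
  refine nsmul_mem (Submodule.sum_mem _ fun s _ => ?_) 2
  have m := Fsp_mem F y s s.injective
  rcases Int.units_eq_one_or (Perm.sign s) with h1 | h1
  · rw [h1, one_smul]
    exact m
  · rw [h1, Units.neg_smul, one_smul]
    exact neg_mem m

end Pool.Agent.Malc
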