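import Pool.Agent.Malc.QDefs

/-! # Part C: linearity and alternation of `e'` in explicit form -/

set_option autoImplicit false

namespace Pool.Agent.Malc

universe u v

variable (F : Type u) [Field F] {A : Type v} [NonUnitalNonAssocRing A] [Module F A]
  [IsScalarTower F A A] [SMulCommClass F A A]

namespace CLinAux

omit [NonUnitalNonAssocRing A] in
theorem upd4 [Zero A] (x0 x1 x2 x3 x : A) :
    (![x0, x1, x2, x3, x] : Fin 5 → A) = Function.update ![x0, x1, x2, x3, 0] 4 x := by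
  funext i
  fin_cases i <;> simp [Function.update]

omit [NonUnitalNonAssocRing A] in
theorem sw0 (x0 x1 x2 x3 x4 : A) :
    (![x1, x0, x2, x3, x4] : Fin 5 → A) = ![x0, x1, x2, x3, x4] ∘ Equiv.swap 0 1 := by
  funext i
  fin_cases i <;> rfl

omit [NonUnitalNonAssocRing A] in
theorem sw1 (x0 x1 x2 x3 x4 : A) :
    (![x0, x2, x1, x3, x4] : Fin 5 → A) = ![x0, x1, x2, x3, x4] ∘ Equiv.swap 1 2 := by
  funext i
  fin_cases i <;> rfl

omit [NonUnitalNonAssocRing A] in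
theorem sw2 (x0 x1 x2 x3 x4 : A) :
    (![x0, x1, x3, x2, x4] : Fin 5 → A) = ![x0, x1, x2, x3, x4] ∘ Equiv.swap 2 3 := by
  funext i
  fin_cases i <;> rfl

omit [NonUnitalNonAssocRing A] in
theorem sw3 (x0 x1 x2 x3 x4 : A) :
    (![x0, x1, x2, x4, x3] : Fin 5 → A) = ![x0, x1, x2, x3, x4] ∘ Equiv.swap 3 4 := by
  funext i
  fin_cases i <;> rfl

end CLinAux

open CLinAux

theorem ee_add0 (x x' x1 x2 x3 x4 y : A) :
    ee F (x + x') x1 x2 x3 x4 y = ee F x x1 x2 x3 x4 y + ee F x' x1 x2 x3 x4 y := by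
  unfold ee
  rw [AlternatingMap.map_vecCons_add, LinearMap.add_apply]

theorem ee_smul0 (c : F) (x x1 x2 x3 x4 y : A) :
    ee F (c • x) x1 x2 x3 x4 y = c • ee F x x1 x2 x3 x4 y := by
  unfold ee
  rw [AlternatingMap.map_vecCons_smul, LinearMap.smul_apply]

theorem ee_add4 (x0 x1 x2 x3 x x' y : A) :
    ee F x0 x1 x2 x3 (x + x') y = ee F x0 x1 x2 x3 x y + ee F x0 x1 x2 x3 x' y := by
  unfold ee
  rw [upd4 x0 x1 x2 x3 (x + x'), upd4 x0 x1 x2 x3 x, upd4 x0 x1 x2 x3 x',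
    AlternatingMap.map_update_add, LinearMap.add_apply]

theorem ee_smul4 (c : F) (x0 x1 x2 x3 x y : A) :
    ee F x0 x1 x2 x3 (c • x) y = c • ee F x0 x1 x2 x3 x y := by
  unfold ee
  rw [upd4 x0 x1 x2 x3 (c • x), upd4 x0 x1 x2 x3 x,
    AlternatingMap.map_update_smul, LinearMap.smul_apply]

theorem ee_addy (x0 x1 x2 x3 x4 y y' : A) :
    ee F x0 x1 x2 x3 x4 (y + y') = ee F x0 x1 x2 x3 x4 y + ee F x0 x1 x2 x3 x4 y' := by
  unfold ee
  rw [map_add]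

theorem ee_smuly (c : F) (x0 x1 x2 x3 x4 y : A) :
    ee F x0 x1 x2 x3 x4 (c • y) = c • ee F x0 x1 x2 x3 x4 y := by
  unfold ee
  rw [map_smul]

/-- adjacent swaps -/
theorem ee_sw0 (x0 x1 x2 x3 x4 y : A) : ee F x1 x0 x2 x3 x4 y = - ee F x0 x1 x2 x3 x4 y := by
  unfold ee
  rw [sw0 x0 x1 x2 x3 x4, AlternatingMap.map_swap _ _ (by decide), LinearMap.neg_apply]

theorem ee_sw1 (x0 x1 x2 x3 x4 y : A) : ee F x0 x2 x1 x3 x4 y = - ee F x0 x1 x2 x3 x4 y := by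
  unfold ee
  rw [sw1 x0 x1 x2 x3 x4, AlternatingMap.map_swap _ _ (by decide), LinearMap.neg_apply]

theorem ee_sw2 (x0 x1 x2 x3 x4 y : A) : ee F x0 x1 x3 x2 x4 y = - ee F x0 x1 x2 x3 x4 y := by
  unfold ee
  rw [sw2 x0 x1 x2 x3 x4, AlternatingMap.map_swap _ _ (by decide), LinearMap.neg_apply]

theorem ee_sw3 (x0 x1 x2 x3 x4 y : A) : ee F x0 x1 x2 x4 x3 y = - ee F x0 x1 x2 x3 x4 y := by
  unfold ee
  rw [sw3 x0 x1 x2 x3 x4, AlternatingMap.map_swap _ _ (by decide), LinearMap.neg_apply]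

/-- the last argument to the front: four adjacent swaps -/
theorem ee_rot (x0 x1 x2 x3 x4 y : A) : ee F x4 x0 x1 x2 x3 y = ee F x0 x1 x2 x3 x4 y := by
  rw [ee_sw0 F x0 x4 x1 x2 x3 y, ee_sw1 F x0 x1 x4 x2 x3 y, ee_sw2 F x0 x1 x2 x4 x3 y,
    ee_sw3 F x0 x1 x2 x3 x4 y]
  simp only [neg_neg]

theorem ee_eq01 (x x2 x3 x4 y : A) : ee F x x x2 x3 x4 y = 0 := by
  unfold ee
  rw [AlternatingMap.map_eq_zero_of_eq (eL F) ![x, x, x2, x3, x4] (i := 0) (j := 1) rfl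
    (by decide), LinearMap.zero_apply]

/-- every argument can be moved to the front -/
theorem ee_front1 (x0 x1 x2 x3 x4 y : A) : ee F x0 x1 x2 x3 x4 y = - ee F x1 x0 x2 x3 x4 y :=
  ee_sw0 F x1 x0 x2 x3 x4 y

theorem ee_front2 (x0 x1 x2 x3 x4 y : A) : ee F x0 x1 x2 x3 x4 y = ee F x2 x0 x1 x3 x4 y := by
  rw [ee_sw0 F x0 x2 x1 x3 x4 y, ee_sw1 F x0 x1 x2 x3 x4 y]
  simp only [neg_neg]

theorem ee_front3 (x0 x1 x2 x3 x4 y : A) : ee F x0 x1 x2 x3 x4 y = - ee F x3 x0 x1 x2 x4 y := by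
  rw [ee_sw0 F x0 x3 x1 x2 x4 y, ee_sw1 F x0 x1 x3 x2 x4 y, ee_sw2 F x0 x1 x2 x3 x4 y]
  simp only [neg_neg]

end Pool.Agent.Malc
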