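import Pool.Agent.Malc.BhNZ
import Pool.Agent.Malc.CLin

/-! # Part C: values of `e'`, `ew`, `zt`, `Zt`, `wf` in the model algebra -/

set_option autoImplicit false

open scoped BigOperators

namespace Pool.Agent.Malc

universe u

variable {F : Type u} [Field F]

namespace BhEAux

/-- the components as additive maps -/
noncomputable def vH : Bh F →+ VL F := AddMonoidHom.mk' Bh.v (fun _ _ => rfl)

/-- the components as additive maps -/
noncomputable def wH (i : ℕ) : Bh F →+ Ex F := AddMonoidHom.mk' (fun x => x.w i) (fun _ _ => rfl)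

theorem v_sum {κ : Type} (s : Finset κ) (f : κ → Bh F) : (∑ k ∈ s, f k).v = ∑ k ∈ s, (f k).v :=
  map_sum (vH (F := F)) f s

theorem w_sum {κ : Type} (s : Finset κ) (f : κ → Bh F) (i : ℕ) :
    (∑ k ∈ s, f k).w i = ∑ k ∈ s, (f k).w i :=
  map_sum (wH (F := F) i) f s

theorem v_zsmul (n : ℤ) (x : Bh F) : (n • x).v = n • x.v := map_zsmul (vH (F := F)) n x

theorem w_zsmul (n : ℤ) (x : Bh F) (i : ℕ) : (n • x).w i = n • x.w i :=
  map_zsmul (wH (F := F) i) n x

theorem v_nsmul (n : ℕ) (x : Bh F) : (n • x).v = n • x.v := map_nsmul (vH (F := F)) n x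

theorem w_nsmul (n : ℕ) (x : Bh F) (i : ℕ) : (n • x).w i = n • x.w i :=
  map_nsmul (wH (F := F) i) n x

theorem foldl_v (t : List (Bh F)) : ∀ q : Bh F, q.v = 0 → (t.foldl (· * ·) q).v = 0 := by
  induction t with
  | nil => exact fun q hq => hq
  | cons b t ih => exact fun q _ => ih (q * b) rfl

theorem pe_v (x : Fin 5 → Bh F) (y : Bh F) : (pe x y).v = 0 := by
  simp only [pe, Bh.v_sub, Bh.v_add, v_nsmul, Bh.v_mul, smul_zero, add_zero, sub_zero]

theorem w_mul_of_v {p q : Bh F} (hp : p.v = 0) (hq : q.v = 0) (i : ℕ) : (p * q).w i = 0 := by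
  simp [Bh.w_mul, hp, hq]

/-- alternating products -/
theorem prod5 (a : Fin 5 → VL F) (s : Equiv.Perm (Fin 5)) :
    Equiv.Perm.sign s • (ix (a (s 0)) * ix (a (s 1)) * ix (a (s 2)) * ix (a (s 3)) * ix (a (s 4))) =
      ix (a 0) * ix (a 1) * ix (a 2) * ix (a 3) * ix (a 4) := by
  have h : ∀ b : Fin 5 → VL F, ExteriorAlgebra.ιMulti F 5 b =
      ix (b 0) * ix (b 1) * ix (b 2) * ix (b 3) * ix (b 4) := by
    intro b
    rw [ExteriorAlgebra.ιMulti_apply]
    simp only [List.ofFn_succ, List.ofFn_zero, List.prod_cons, List.prod_nil, mul_one, mul_assoc]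
    rfl
  have h1 := (ExteriorAlgebra.ιMulti F 5).map_perm a s
  rw [h a] at h1
  have h2 := h (a ∘ s)
  rw [h1] at h2
  have h3 : (ix (a (s 0)) * ix (a (s 1)) * ix (a (s 2)) * ix (a (s 3)) * ix (a (s 4)) : Ex F) =
      Equiv.Perm.sign s • (ix (a 0) * ix (a 1) * ix (a 2) * ix (a 3) * ix (a 4)) := h2.symm
  rw [h3, smul_smul, Int.units_mul_self, one_smul]

end BhEAux

open BhEAux

namespace Bh

/-- the vectors as elements of the model algebra -/
noncomputable def vl (a : VL F) : Bh F := ((a, 0, 0) : VL F × (ℕ → Ex F) × (ℕ → ℕ → Ex F))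

@[simp] theorem v_vl (a : VL F) : (vl a).v = a := rfl
@[simp] theorem w_vl (a : VL F) (i : ℕ) : (vl a).w i = 0 := rfl
@[simp] theorem z_vl (a : VL F) (i j : ℕ) : (vl a).z i j = 0 := rfl

variable (F) in
/-- the letters -/
noncomputable def lt (i : ℕ) : Bh F := vl (Finsupp.single i 1)

theorem mul_vl_w {q : Bh F} (hq : q.v = 0) (b : VL F) (i : ℕ) :
    (q * vl b).w i = q.w i * ix b := by
  simp [w_mul, hq]

theorem mul_vl_z {q : Bh F} (hq : q.v = 0) (b : VL F) (i j : ℕ) :
    (q * vl b).z i j = b i • q.w j - b j • rv (q.w i) := by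
  simp [z_mul, hq]

/-- all values of `e'` have no `v`-part -/
theorem ee_v (x0 x1 x2 x3 x4 y : Bh F) : (ee F x0 x1 x2 x3 x4 y).v = 0 := by
  unfold ee
  rw [eL_apply, v_sum]
  refine Finset.sum_eq_zero fun s _ => ?_
  rw [Units.smul_def, v_zsmul, pe_v, smul_zero]

/-- the `w`-part of `pe` -/
theorem BhEAux_pe_w (a : Fin 5 → VL F) (y : VL F) (i : ℕ) :
    (pe (fun k => vl (a k)) (vl y)).w i =
      2 • y i • (ix (a 0) * ix (a 1) * ix (a 2) * ix (a 3) * ix (a 4)) -
      a 0 i • (ix y * (ix (a 1) * ix (a 2) * ix (a 3) * ix (a 4))) -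
      a 1 i • (ix y * (ix (a 0) * ix (a 2) * ix (a 3) * ix (a 4))) := by
  have e1 : ∀ (p q : VL F), (vl p * vl q).w i = q i • ix p - p i • ix q := by
    intro p q
    simp [w_mul]
  have z1 : ∀ p q : Bh F, ((p * q) * (vl y)).v = 0 := fun p q => rfl
  simp only [pe, w_sub, w_add, w_nsmul, mul_vl_w (v_mul _ _),
    w_mul_of_v (v_mul _ _) (v_mul _ _), e1, smul_zero, sub_zero]
  have h0 := ix_anti (a 0) y
  have h1 := ix_anti (a 1) y
  have h2 := ix_anti (a 2) y
  have k0 : ix (a 0) * ix y * ix (a 2) * ix (a 3) * ix (a 4) =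
      -(ix y * (ix (a 0) * ix (a 2) * ix (a 3) * ix (a 4))) := by
    rw [h0]; simp only [neg_mul, mul_assoc]
  have k1 : ix (a 1) * ix y * ix (a 2) * ix (a 3) * ix (a 4) =
      -(ix y * (ix (a 1) * ix (a 2) * ix (a 3) * ix (a 4))) := by
    rw [h1]; simp only [neg_mul, mul_assoc]
  have k2 : ix (a 0) * ix (a 2) * ix y * ix (a 3) * ix (a 4) =
      ix y * (ix (a 0) * ix (a 2) * ix (a 3) * ix (a 4)) := by
    rw [mul_assoc (ix (a 0)) (ix (a 2)) (ix y), h2, mul_neg, ← mul_assoc, h0]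
    simp only [neg_mul, neg_neg, mul_assoc]
  have k3 : ix (a 1) * ix (a 2) * ix y * ix (a 3) * ix (a 4) =
      ix y * (ix (a 1) * ix (a 2) * ix (a 3) * ix (a 4)) := by
    rw [mul_assoc (ix (a 1)) (ix (a 2)) (ix y), h2, mul_neg, ← mul_assoc, h1]
    simp only [neg_mul, neg_neg, mul_assoc]
  simp only [sub_mul, smul_mul_assoc, k0, k1, k2, k3]
  have k4 : ix y * ix (a 1) * ix (a 2) * ix (a 3) * ix (a 4) =
      ix y * (ix (a 1) * ix (a 2) * ix (a 3) * ix (a 4)) := by simp only [mul_assoc]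
  rw [k4]
  module

/-- The `w`-part of `e'` at vectors. `eL_apply`; `X i = ix (a i)`, `Y = ix y`. The `w`-part of the five monomials of `pe`:
`((((x0 y)x1)x2)x3)x4 : (y_i X0 - (a0)_i Y) X1 X2 X3 X4`, `((((x0 x1)y)x2)x3)x4 : ((a1)_i X0 - (a0)_i X1) Y X2 X3 X4`,
`((((x0 x1)x2)y)x3)x4 : ((a1)_i X0 - (a0)_i X1) X2 Y X3 X4`, the last two monomials: `0`. Put `S0 = ∑ s, sign s • (a (s 0))_i • Y X(s 1) X(s 2) X(s 3) X(s 4)`.
The alternating sums are `120 y_i X0 X1 X2 X3 X4 - S0`, `2 S0` (`X Y = - Y X`, and reindex by a transposition), `- 2 S0`; with the coefficients `2, 5, 4` the sum is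
`240 y_i X + (-2 + 10 - 8) S0`. -/
theorem ee_vl_w (a0 a1 a2 a3 a4 y : VL F) (i : ℕ) :
    (ee F (vl a0) (vl a1) (vl a2) (vl a3) (vl a4) (vl y)).w i =
      (240 : F) • y i • (ix a0 * ix a1 * ix a2 * ix a3 * ix a4) := by
  set a : Fin 5 → VL F := ![a0, a1, a2, a3, a4] with ha
  have hx : (![vl a0, vl a1, vl a2, vl a3, vl a4] : Fin 5 → Bh F) = fun k => vl (a k) := by
    funext k
    fin_cases k <;> rfl
  set h : Equiv.Perm (Fin 5) → Ex F := fun s =>
    a (s 0) i • (ix y * (ix (a (s 1)) * ix (a (s 2)) * ix (a (s 3)) * ix (a (s 4)))) with hh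
  unfold ee
  rw [eL_apply, w_sum, hx]
  have h1 : ∀ s : Equiv.Perm (Fin 5), (Equiv.Perm.sign s • pe ((fun k => vl (a k)) ∘ s) (vl y)).w i =
      2 • y i • (ix a0 * ix a1 * ix a2 * ix a3 * ix a4) - Equiv.Perm.sign s • h s -
        Equiv.Perm.sign s • h (s * Equiv.swap 0 1) := by
    intro s
    have e : ((fun k => vl (a k)) ∘ s : Fin 5 → Bh F) = fun k => vl ((a ∘ s) k) := rfl
    have hp := prod5 a s
    have s0 : (s * Equiv.swap 0 1 : Equiv.Perm (Fin 5)) 0 = s 1 := by simp
    have s1 : (s * Equiv.swap 0 1 : Equiv.Perm (Fin 5)) 1 = s 0 := by simp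
    have s2 : (s * Equiv.swap 0 1 : Equiv.Perm (Fin 5)) 2 = s 2 := by
      rw [Equiv.Perm.mul_apply, Equiv.swap_apply_of_ne_of_ne (by decide) (by decide)]
    have s3 : (s * Equiv.swap 0 1 : Equiv.Perm (Fin 5)) 3 = s 3 := by
      rw [Equiv.Perm.mul_apply, Equiv.swap_apply_of_ne_of_ne (by decide) (by decide)]
    have s4 : (s * Equiv.swap 0 1 : Equiv.Perm (Fin 5)) 4 = s 4 := by
      rw [Equiv.Perm.mul_apply, Equiv.swap_apply_of_ne_of_ne (by decide) (by decide)]
    rw [Units.smul_def, w_zsmul, e, BhEAux_pe_w, hh]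
    simp only [Function.comp_apply, s0, s1, s2, s3, s4, smul_sub, ← Units.smul_def]
    congr 2
    rw [smul_comm, smul_comm (Equiv.Perm.sign s) (y i), hp]
    rfl
  rw [Finset.sum_congr rfl fun s _ => h1 s, Finset.sum_sub_distrib, Finset.sum_sub_distrib]
  have h2 : ∑ s : Equiv.Perm (Fin 5), Equiv.Perm.sign s • h (s * Equiv.swap 0 1) =
      - ∑ s : Equiv.Perm (Fin 5), Equiv.Perm.sign s • h s := by
    rw [← Finset.sum_neg_distrib, ← Equiv.sum_comp (Equiv.mulRight (Equiv.swap (0 : Fin 5) 1))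
      (fun s => - (Equiv.Perm.sign s • h s))]
    refine Finset.sum_congr rfl fun s _ => ?_
    simp only [Equiv.coe_mulRight, Equiv.Perm.sign_mul,
      Equiv.Perm.sign_swap (show (0 : Fin 5) ≠ 1 by decide), mul_neg, mul_one, Units.neg_smul,
      neg_neg]
  rw [h2, sub_neg_eq_add, sub_add_cancel, Finset.sum_const, Finset.card_univ, Fintype.card_perm,
    Fintype.card_fin]
  have : Nat.factorial 5 = 120 := by decide
  rw [this]
  module

theorem ew_lt_v (l : List ℕ) (a : ℕ) : (ew F (l.map (lt F)) (lt F a)).v = 0 := by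
  generalize l.map (lt F) = m
  match m with
  | [] => rfl
  | [_] => rfl
  | [_, _] => rfl
  | [_, _, _] => rfl
  | [_, _, _, _] => rfl
  | x0 :: x1 :: x2 :: x3 :: x4 :: t =>
    rw [ew_cons]
    exact foldl_v t _ (ee_v _ _ _ _ _ _)

theorem BhEAux_fold_w (a : ℕ) (t : List ℕ) : ∀ (q : Bh F) (l0 : List ℕ), q.v = 0 →
    (∀ i, q.w i = if i = a then (240 : F) • px F l0 else 0) →
    ∀ i, ((t.map (lt F)).foldl (· * ·) q).w i =
      if i = a then (240 : F) • px F (l0 ++ t) else 0 := by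
  induction t with
  | nil =>
    intro q l0 _ h i
    simpa using h i
  | cons b t ih =>
    intro q l0 hq h i
    have h1 := ih (q * lt F b) (l0 ++ [b]) rfl (by
      intro i
      unfold lt
      rw [mul_vl_w hq, h i, px_append, px_singleton, xe]
      split_ifs
      · rw [smul_mul_assoc]
      · rw [zero_mul]) i
    rw [List.append_assoc, List.singleton_append] at h1
    exact h1

/-- induction on the list after the first five entries -/
theorem ew_lt_w {l : List ℕ} (hl : 5 ≤ l.length) (a i : ℕ) :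
    (ew F (l.map (lt F)) (lt F a)).w i = if i = a then (240 : F) • px F l else 0 := by
  obtain ⟨n0, n1, n2, n3, n4, t, rfl⟩ := exists_cons5 hl
  simp only [List.map_cons]
  rw [ew_cons]
  refine BhEAux_fold_w a t _ [n0, n1, n2, n3, n4] (ee_v _ _ _ _ _ _) (fun i => ?_) i
  unfold lt
  rw [ee_vl_w]
  have h1 : px F [n0, n1, n2, n3, n4] = xe F n0 * xe F n1 * xe F n2 * xe F n3 * xe F n4 := by
    simp only [px_cons, px_nil, mul_one, mul_assoc]
  rw [h1]
  by_cases h : i = a
  · rw [if_pos h, h, Finsupp.single_eq_same, one_smul]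
    rfl
  · rw [if_neg h, Finsupp.single_eq_of_ne h, zero_smul, smul_zero]

theorem zt_v (q b c : Bh F) : (zt q b c).v = 0 := by
  simp [zt]

theorem zt_vl_w {q : Bh F} (hq : q.v = 0) (b c : VL F) (i : ℕ) : (zt q (vl b) (vl c)).w i = 0 := by
  unfold zt
  rw [w_sub, w_sub, w_mul_of_v hq (v_mul _ _), mul_vl_w (v_mul _ _), mul_vl_w (v_mul _ _),
    mul_vl_w hq, mul_vl_w hq, mul_assoc, mul_assoc, ix_anti c b, mul_neg]
  abel

/-- `(b c).w i = c_i B - b_i C`, `q (b c) : z_ij = (c_j B - b_j C) rv(q_i) - q_j (c_i B - b_i C)` (`rv` of a letter is the letter),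
`(q b) c : z_ij = c_i q_j B - c_j rv(q_i B)`, `(q c) b : z_ij = b_i q_j C - b_j rv(q_i C)`. -/
theorem zt_vl_z {q : Bh F} (hq : q.v = 0) (b c : VL F) (i j : ℕ) :
    (zt q (vl b) (vl c)).z i j = (2 : F) • (c j • rv (q.w i * ix b) - c i • (q.w j * ix b)) := by
  have e1 : ∀ (k : ℕ), (vl b * vl c).w k = c k • ix b - b k • ix c := by
    intro k
    simp [w_mul]
  have e2 : (q * (vl b * vl c)).z i j = (c j • ix b - b j • ix c) * rv (q.w i) -
      q.w j * (c i • ix b - b i • ix c) := by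
    rw [z_mul, hq, v_mul, e1, e1]
    simp [rv_ix]
  unfold zt
  rw [z_sub, z_sub, e2, mul_vl_z (v_mul _ _), mul_vl_z (v_mul _ _),
    mul_vl_w hq, mul_vl_w hq, mul_vl_w hq, mul_vl_w hq]
  simp only [rv_mul, rv_ix, sub_mul, mul_sub, smul_mul_assoc, mul_smul_comm]
  module

theorem Zt_lt_v {l : List ℕ} (hl : 6 ≤ l.length) (a c : ℕ) :
    (Zt F (l.map (lt F)) (lt F a) (lt F c)).v = 0 := by
  unfold Zt
  exact zt_v _ _ _

theorem BhEAux_single (c j : ℕ) :
    (Finsupp.single c (1 : F)) j = if j = c then 1 else 0 := by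
  rw [Finsupp.single_apply]
  by_cases h : j = c
  · rw [if_pos h, if_pos h.symm]
  · rw [if_neg h, if_neg (fun h' => h h'.symm)]

theorem BhEAux_last {n : ℕ} {l : List ℕ} (hl : n + 1 ≤ l.length) :
    ∃ (l' : List ℕ) (b : ℕ), l = l' ++ [b] ∧ n ≤ l'.length := by
  have h : l ≠ [] := by
    rintro rfl
    simp at hl
  refine ⟨l.dropLast, l.getLast h, (List.dropLast_append_getLast h).symm, ?_⟩
  rw [List.length_dropLast]
  omega

theorem Zt_lt_w {l : List ℕ} (hl : 6 ≤ l.length) (a c i : ℕ) :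
    (Zt F (l.map (lt F)) (lt F a) (lt F c)).w i = 0 := by
  obtain ⟨l', b, rfl, _⟩ := BhEAux_last hl
  rw [List.map_append, List.map_singleton, Zt_append]
  exact zt_vl_w (ew_lt_v _ _) _ _ _

/-- write `l = l' ++ [b]`, `Zt_append`, `zt_vl_z`, `ew_lt_w` -/
theorem Zt_lt_z {l : List ℕ} (hl : 6 ≤ l.length) (a c i j : ℕ) :
    (Zt F (l.map (lt F)) (lt F a) (lt F c)).z i j =
      (480 : F) • ((if i = a ∧ j = c then rv (px F l) else 0) -
        (if i = c ∧ j = a then px F l else 0)) := by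
  obtain ⟨l', b, rfl, hl'⟩ := BhEAux_last hl
  rw [List.map_append, List.map_singleton, Zt_append]
  have h1 : ∀ k, (ew F (l'.map (lt F)) (lt F a)).w k * ix (Finsupp.single b 1) =
      if k = a then (240 : F) • px F (l' ++ [b]) else 0 := by
    intro k
    rw [ew_lt_w hl', px_append, px_singleton, xe]
    split_ifs
    · rw [smul_mul_assoc]
    · rw [zero_mul]
  have h2 := zt_vl_z (ew_lt_v (F := F) l' a) (Finsupp.single b 1) (Finsupp.single c 1) i j
  rw [h1, h1] at h2
  refine h2.trans ?_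
  rw [BhEAux_single, BhEAux_single]
  generalize px F (l' ++ [b]) = P
  split_ifs <;> first
    | (exfalso; tauto)
    | (simp only [map_smul, map_zero, one_smul, zero_smul, smul_zero, sub_zero, zero_sub] <;> module)

theorem wf_lt_v {l : List ℕ} (hl : 7 ≤ l.length) (a : ℕ) :
    (wf F (l.map (lt F)) (lt F a)).v = 0 := by
  unfold wf Zt
  rw [v_add, v_nsmul, ew_lt_v, zt_v, smul_zero, add_zero]

theorem wf_lt_w {l : List ℕ} (hl : 7 ≤ l.length) (a i : ℕ) :
    (wf F (l.map (lt F)) (lt F a)).w i = if i = a then (480 : F) • px F l else 0 := by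
  obtain ⟨U, c, rfl, hU⟩ := BhEAux_last hl
  rw [List.map_append, List.map_singleton, wf_append F (by simpa using (by omega : 5 ≤ U.length)),
    w_add, w_nsmul, Zt_lt_w hU]
  have h1 : (ew F (U.map (lt F)) (lt F a) * lt F c).w i =
      if i = a then (240 : F) • px F (U ++ [c]) else 0 := by
    have h0 := mul_vl_w (ew_lt_v (F := F) U a) (Finsupp.single c 1) i
    refine h0.trans ?_
    rw [ew_lt_w (by omega), px_append, px_singleton, xe]
    split_ifs
    · rw [smul_mul_assoc]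
    · rw [zero_mul]
  rw [h1]
  split_ifs
  · module
  · simp

/-- `l = U ++ [c]`, `wf = 2 (ew U a) c + Zt U a c` (`wf_append`); the two contributions cancel (`mul_vl_z`, `Zt_lt_z`). -/
theorem wf_lt_z {l : List ℕ} (hl : 7 ≤ l.length) (a i j : ℕ) :
    (wf F (l.map (lt F)) (lt F a)).z i j = 0 := by
  obtain ⟨U, c, rfl, hU⟩ := BhEAux_last hl
  rw [List.map_append, List.map_singleton, wf_append F (by simpa using (by omega : 5 ≤ U.length)),
    z_add, two_nsmul, z_add, Zt_lt_z hU]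
  have h1 : (ew F (U.map (lt F)) (lt F a) * lt F c).z i j =
      (Finsupp.single c (1 : F)) i • (if j = a then (240 : F) • px F U else 0) -
        (Finsupp.single c (1 : F)) j • rv (if i = a then (240 : F) • px F U else 0) := by
    have h2 := mul_vl_z (ew_lt_v (F := F) U a) (Finsupp.single c 1) i j
    rw [ew_lt_w (by omega), ew_lt_w (by omega)] at h2
    exact h2
  have hS : (480 : F) • ((if i = a ∧ j = c then rv (px F U) else 0) -
        (if i = c ∧ j = a then px F U else 0)) = - (2 : F) • (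
          (Finsupp.single c (1 : F)) i • (if j = a then (240 : F) • px F U else 0) -
        (Finsupp.single c (1 : F)) j • rv (if i = a then (240 : F) • px F U else 0)) := by
    rw [BhEAux_single, BhEAux_single]
    generalize px F U = P
    split_ifs <;> first
      | (exfalso; tauto)
      | (simp only [map_smul, map_zero, one_smul, zero_smul, smul_zero, sub_zero, zero_sub] <;>
          module)
  rw [h1, hS]
  module

end Bh

end Pool.Agent.Malc
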