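import Pool.Agent.Malc.BhE

/-! # Part C: values of `e'(x0,..,x4; q)`, `q` without `v`-part, in the model algebra -/

set_option autoImplicit false

open scoped BigOperators

namespace Pool.Agent.Malc

universe u

variable {F : Type u} [Field F]

namespace Bh

/-- the signed sum of the products of four of the five letters, weighted by the coordinate of the missing one -/
noncomputable def Ak (a0 a1 a2 a3 a4 : VL F) (i : ℕ) : Ex F :=
  a4 i • (ix a0 * ix a1 * ix a2 * ix a3) - a3 i • (ix a0 * ix a1 * ix a2 * ix a4) +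
    a2 i • (ix a0 * ix a1 * ix a3 * ix a4) - a1 i • (ix a0 * ix a2 * ix a3 * ix a4) +
    a0 i • (ix a1 * ix a2 * ix a3 * ix a4)

end Bh

namespace BhE2Aux

open Bh

/-- the alternating sum -/
noncomputable def alt (f : (Fin 5 → VL F) → Ex F) (a : Fin 5 → VL F) : Ex F :=
  ∑ s : Equiv.Perm (Fin 5), Equiv.Perm.sign s • f (a ∘ s)

theorem alt_reindex (f : (Fin 5 → VL F) → Ex F) (a : Fin 5 → VL F) (σ : Equiv.Perm (Fin 5)) :
    alt (fun b => f (b ∘ σ)) a = Equiv.Perm.sign σ • alt f a := by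
  unfold alt
  rw [Finset.smul_sum]
  refine Fintype.sum_equiv (Equiv.mulRight σ) _ _ fun s => ?_
  simp only [Equiv.coe_mulRight, Equiv.Perm.sign_mul, smul_smul]
  have h : Equiv.Perm.sign σ * (Equiv.Perm.sign s * Equiv.Perm.sign σ) = Equiv.Perm.sign s := by
    rw [mul_comm, mul_assoc, Int.units_mul_self, mul_one]
  rw [h]
  rfl

theorem alt_mul_left (f : (Fin 5 → VL F) → Ex F) (a : Fin 5 → VL F) (Q : Ex F) :
    alt (fun b => Q * f b) a = Q * alt f a := by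
  unfold alt
  rw [Finset.mul_sum]
  exact Finset.sum_congr rfl fun s _ => (mul_smul_comm _ _ _).symm

theorem alt_mul_right (f : (Fin 5 → VL F) → Ex F) (a : Fin 5 → VL F) (Q : Ex F) :
    alt (fun b => f b * Q) a = alt f a * Q := by
  unfold alt
  rw [Finset.sum_mul]
  exact Finset.sum_congr rfl fun s _ => (smul_mul_assoc _ _ _).symm

theorem alt_add (f g : (Fin 5 → VL F) → Ex F) (a : Fin 5 → VL F) :
    alt (fun b => f b + g b) a = alt f a + alt g a := by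
  unfold alt
  rw [← Finset.sum_add_distrib]
  exact Finset.sum_congr rfl fun s _ => smul_add _ _ _

theorem alt_sub (f g : (Fin 5 → VL F) → Ex F) (a : Fin 5 → VL F) :
    alt (fun b => f b - g b) a = alt f a - alt g a := by
  unfold alt
  rw [← Finset.sum_sub_distrib]
  exact Finset.sum_congr rfl fun s _ => smul_sub _ _ _

theorem alt_smul (f : (Fin 5 → VL F) → Ex F) (a : Fin 5 → VL F) (c : F) :
    alt (fun b => c • f b) a = c • alt f a := by
  unfold alt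
  rw [Finset.smul_sum]
  exact Finset.sum_congr rfl fun s _ => smul_comm _ _ _

/-- product of four letters -/
noncomputable def p4 (b : Fin 4 → VL F) : Ex F := ix (b 0) * ix (b 1) * ix (b 2) * ix (b 3)

/-- product of five letters -/
noncomputable def p5 (b : Fin 5 → VL F) : Ex F :=
  ix (b 0) * ix (b 1) * ix (b 2) * ix (b 3) * ix (b 4)

theorem p4_eq (b : Fin 4 → VL F) : p4 b = ExteriorAlgebra.ιMulti F 4 b := by
  rw [ExteriorAlgebra.ιMulti_apply]
  simp [List.ofFn_succ, p4, ix, mul_assoc, Fin.succ]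

theorem p5_eq (b : Fin 5 → VL F) : p5 b = ExteriorAlgebra.ιMulti F 5 b := by
  rw [ExteriorAlgebra.ιMulti_apply]
  simp [List.ofFn_succ, p5, ix, mul_assoc, Fin.succ]

theorem p4_perm (b : Fin 4 → VL F) (s : Equiv.Perm (Fin 4)) :
    p4 (b ∘ s) = Equiv.Perm.sign s • p4 b := by
  rw [p4_eq, p4_eq, AlternatingMap.map_perm]

theorem p5_perm (b : Fin 5 → VL F) (s : Equiv.Perm (Fin 5)) :
    p5 (b ∘ s) = Equiv.Perm.sign s • p5 b := by
  rw [p5_eq, p5_eq, AlternatingMap.map_perm]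

theorem alt_p5 (a : Fin 5 → VL F) : alt p5 a = (120 : F) • p5 a := by
  unfold alt
  have h : ∀ s : Equiv.Perm (Fin 5), Equiv.Perm.sign s • p5 (a ∘ s) = p5 a := by
    intro s
    rw [p5_perm, smul_smul, Int.units_mul_self, one_smul]
  rw [Finset.sum_congr rfl fun s _ => h s, Finset.sum_const, Finset.card_univ, Fintype.card_perm,
    Fintype.card_fin]
  have : Nat.factorial 5 = 120 := rfl
  rw [this, ← Nat.cast_smul_eq_nsmul F]
  norm_num

theorem alt4 (b : Fin 4 → VL F) :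
    ∑ s : Equiv.Perm (Fin 4), Equiv.Perm.sign s • p4 (b ∘ s) = (24 : F) • p4 b := by
  have h : ∀ s : Equiv.Perm (Fin 4), Equiv.Perm.sign s • p4 (b ∘ s) = p4 b := by
    intro s
    rw [p4_perm, smul_smul, Int.units_mul_self, one_smul]
  rw [Finset.sum_congr rfl fun s _ => h s, Finset.sum_const, Finset.card_univ, Fintype.card_perm,
    Fintype.card_fin]
  have : Nat.factorial 4 = 24 := rfl
  rw [this, ← Nat.cast_smul_eq_nsmul F]
  norm_num

/-- the basic function -/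
noncomputable def g0 (i : ℕ) (b : Fin 5 → VL F) : Ex F := b 0 i • p4 (fun k => b k.succ)

theorem alt_g0 (a0 a1 a2 a3 a4 : VL F) (i : ℕ) :
    alt (g0 i) ![a0, a1, a2, a3, a4] = (24 : F) • Bh.Ak a0 a1 a2 a3 a4 i := by
  set a : Fin 5 → VL F := ![a0, a1, a2, a3, a4] with ha
  unfold alt
  rw [← Equiv.sum_comp (Equiv.Perm.decomposeFin (n := 4)).symm, Fintype.sum_prod_type]
  have h1 : ∀ (p : Fin 5), ∑ e : Equiv.Perm (Fin 4),
      Equiv.Perm.sign (Equiv.Perm.decomposeFin.symm (p, e)) •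
        g0 i (a ∘ (Equiv.Perm.decomposeFin.symm (p, e))) =
      (if p = 0 then (1 : F) else -1) • ((24 : F) • (a p i •
        p4 (fun k => a (Equiv.swap 0 p k.succ)))) := by
    intro p
    have h2 : ∀ e : Equiv.Perm (Fin 4), Equiv.Perm.sign (Equiv.Perm.decomposeFin.symm (p, e)) •
        g0 i (a ∘ (Equiv.Perm.decomposeFin.symm (p, e))) =
        (if p = 0 then (1 : F) else -1) • a p i • (Equiv.Perm.sign e •
          p4 ((fun k => a (Equiv.swap 0 p k.succ)) ∘ e)) := by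
      intro e
      rw [Equiv.Perm.decomposeFin.symm_sign]
      unfold g0
      have h3 : (a ∘ (Equiv.Perm.decomposeFin.symm (p, e))) 0 = a p := by
        simp
      have h4 : (fun k : Fin 4 => (a ∘ (Equiv.Perm.decomposeFin.symm (p, e))) k.succ) =
          (fun k => a (Equiv.swap 0 p k.succ)) ∘ e := by
        funext k
        simp
      rw [h3, h4]
      by_cases hp : p = 0
      · simp only [hp, if_true, one_smul, one_mul]
        rw [smul_comm]
      · simp only [hp, if_false, neg_smul, one_smul, neg_mul, one_mul]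
        rw [smul_comm]
        simp
    rw [Finset.sum_congr rfl fun e _ => h2 e, ← Finset.smul_sum, ← Finset.smul_sum, alt4]
    rw [smul_comm (a p i)]
  rw [Finset.sum_congr rfl fun p _ => h1 p]
  have s11 : Equiv.swap (0 : Fin 5) 1 1 = 0 := by decide
  have s12 : Equiv.swap (0 : Fin 5) 1 2 = 2 := by decide
  have s13 : Equiv.swap (0 : Fin 5) 1 3 = 3 := by decide
  have s14 : Equiv.swap (0 : Fin 5) 1 4 = 4 := by decide
  have s21 : Equiv.swap (0 : Fin 5) 2 1 = 1 := by decide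
  have s22 : Equiv.swap (0 : Fin 5) 2 2 = 0 := by decide
  have s23 : Equiv.swap (0 : Fin 5) 2 3 = 3 := by decide
  have s24 : Equiv.swap (0 : Fin 5) 2 4 = 4 := by decide
  have s31 : Equiv.swap (0 : Fin 5) 3 1 = 1 := by decide
  have s32 : Equiv.swap (0 : Fin 5) 3 2 = 2 := by decide
  have s33 : Equiv.swap (0 : Fin 5) 3 3 = 0 := by decide
  have s34 : Equiv.swap (0 : Fin 5) 3 4 = 4 := by decide
  have s41 : Equiv.swap (0 : Fin 5) 4 1 = 1 := by decide
  have s42 : Equiv.swap (0 : Fin 5) 4 2 = 2 := by decide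
  have s43 : Equiv.swap (0 : Fin 5) 4 3 = 3 := by decide
  have s44 : Equiv.swap (0 : Fin 5) 4 4 = 0 := by decide
  have t0 : Fin.succ (0 : Fin 4) = 1 := rfl
  have t1 : Fin.succ (1 : Fin 4) = 2 := rfl
  have t2 : Fin.succ (2 : Fin 4) = 3 := rfl
  have t3 : Fin.succ (3 : Fin 4) = 4 := rfl
  have b0 : a 0 = a0 := rfl
  have b1 : a 1 = a1 := rfl
  have b2 : a 2 = a2 := rfl
  have b3 : a 3 = a3 := rfl
  have b4 : a 4 = a4 := rfl
  have n1 : (1 : Fin 5) ≠ 0 := by decide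
  have n2 : (2 : Fin 5) ≠ 0 := by decide
  have n3 : (3 : Fin 5) ≠ 0 := by decide
  have n4 : (4 : Fin 5) ≠ 0 := by decide
  rw [Fin.sum_univ_five]
  simp only [p4, t0, t1, t2, t3, s11, s12, s13, s14, s21, s22, s23, s24, s31, s32, s33, s34, s41,
    s42, s43, s44, b0, b1, b2, b3, b4, n1, n2, n3, n4, if_true, if_false, Equiv.swap_self,
    Equiv.refl_apply, one_smul, neg_smul]
  have e2 : ix a1 * ix a0 * ix a3 * ix a4 = -(ix a0 * ix a1 * ix a3 * ix a4) := by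
    rw [ix_anti a1 a0]
    simp only [neg_mul]
  have e3 : ix a1 * ix a2 * ix a0 * ix a4 = ix a0 * ix a1 * ix a2 * ix a4 := by
    rw [mul_assoc (ix a1), ix_anti a2 a0, mul_neg, ← mul_assoc, ix_anti a1 a0]
    simp only [neg_mul, neg_neg]
  have e4 : ix a1 * ix a2 * ix a3 * ix a0 = -(ix a0 * ix a1 * ix a2 * ix a3) := by
    rw [mul_assoc (ix a1 * ix a2), ix_anti a3 a0, mul_neg, ← mul_assoc, mul_assoc (ix a1),
      ix_anti a2 a0, mul_neg, ← mul_assoc, ix_anti a1 a0]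
    simp only [neg_mul, neg_neg]
  rw [e2, e3, e4]
  unfold Bh.Ak
  module


/-- the other basic functions -/
noncomputable def g4 (i : ℕ) (b : Fin 5 → VL F) : Ex F :=
  b 4 i • (ix (b 0) * ix (b 1) * ix (b 2) * ix (b 3))

/-- the other basic functions -/
noncomputable def g1 (i : ℕ) (b : Fin 5 → VL F) : Ex F :=
  b 1 i • (ix (b 0) * ix (b 2) * ix (b 3) * ix (b 4))

/-- the other basic functions -/
noncomputable def g0' (i : ℕ) (b : Fin 5 → VL F) : Ex F :=
  b 0 i • (ix (b 1) * ix (b 2) * ix (b 3) * ix (b 4))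

theorem alt_g0' (a0 a1 a2 a3 a4 : VL F) (i : ℕ) :
    alt (g0' i) ![a0, a1, a2, a3, a4] = (24 : F) • Bh.Ak a0 a1 a2 a3 a4 i := by
  rw [← alt_g0]
  rfl

theorem alt_g4 (a0 a1 a2 a3 a4 : VL F) (i : ℕ) :
    alt (g4 i) ![a0, a1, a2, a3, a4] = (24 : F) • Bh.Ak a0 a1 a2 a3 a4 i := by
  rw [← alt_g0']
  have h := alt_reindex (g4 i) ![a0, a1, a2, a3, a4] (finRotate 5)
  have hs : Equiv.Perm.sign (finRotate 5) = 1 := by decide
  rw [hs, one_smul] at h
  rw [← h]
  rfl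

theorem alt_g1 (a0 a1 a2 a3 a4 : VL F) (i : ℕ) :
    alt (g1 i) ![a0, a1, a2, a3, a4] = - ((24 : F) • Bh.Ak a0 a1 a2 a3 a4 i) := by
  rw [← alt_g0']
  have h := alt_reindex (g1 i) ![a0, a1, a2, a3, a4] (Equiv.swap 0 1)
  have hs : Equiv.Perm.sign (Equiv.swap (0 : Fin 5) 1) = -1 := by decide
  rw [hs] at h
  have h2 : alt (g1 i) ![a0, a1, a2, a3, a4] = - alt (fun b => g1 i (b ∘ (Equiv.swap 0 1)))
      ![a0, a1, a2, a3, a4] := by
    rw [h]
    simp
  rw [h2]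
  rfl

/-- the `w`-part as a linear map -/
def wl (i : ℕ) : Bh F →ₗ[F] Ex F where
  toFun x := x.w i
  map_add' _ _ := rfl
  map_smul' _ _ := rfl

/-- the `z`-part as a linear map -/
def zl (i j : ℕ) : Bh F →ₗ[F] Ex F where
  toFun x := x.z i j
  map_add' _ _ := rfl
  map_smul' _ _ := rfl

theorem ee_eq (a0 a1 a2 a3 a4 : VL F) (q : Bh F) (f : Bh F →ₗ[F] Ex F) :
    f (ee F (vl a0) (vl a1) (vl a2) (vl a3) (vl a4) q) =
      alt (fun b => f (pe (fun k => vl (b k)) q)) ![a0, a1, a2, a3, a4] := by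
  have h0 : (![vl a0, vl a1, vl a2, vl a3, vl a4] : Fin 5 → Bh F) =
      fun k => vl (![a0, a1, a2, a3, a4] k) := by
    funext k
    fin_cases k <;> rfl
  unfold ee alt
  rw [eL_apply, map_sum, h0]
  refine Finset.sum_congr rfl fun s _ => ?_
  rw [Units.smul_def, Units.smul_def, map_zsmul]
  rfl

theorem vl_mul_w {q : Bh F} (hq : q.v = 0) (b : VL F) (i : ℕ) :
    (vl b * q).w i = -(q.w i * ix b) := by
  simp [w_mul, hq]

theorem mul0_w {p q : Bh F} (hp : p.v = 0) (hq : q.v = 0) (i : ℕ) : (p * q).w i = 0 := by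
  simp [w_mul, hp, hq]

theorem mul0_z {p q : Bh F} (hp : p.v = 0) (hq : q.v = 0) (i j : ℕ) :
    (p * q).z i j = q.w j * rv (p.w i) - p.w j * rv (q.w i) := by
  simp [z_mul, hp, hq]

theorem vlvl_w (a b : VL F) (i : ℕ) : (vl a * vl b).w i = b i • ix a - a i • ix b := by
  simp [w_mul]

/-- product of an element with zero `v`- and `w`-part and anything -/
theorem mul_cen {p : Bh F} (hp : p.v = 0) (hp' : ∀ i, p.w i = 0) (q : Bh F) : p * q = 0 := by
  apply Bh.ext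
  · simp
  · intro i
    simp [w_mul, hp, hp']
  · intro i j
    simp [z_mul, hp, hp']

theorem pe_eq (b : Fin 5 → VL F) {q : Bh F} (hq : q.v = 0) :
    pe (fun k => vl (b k)) q =
      (2 : F) • (((((vl (b 0) * q) * vl (b 1)) * vl (b 2)) * vl (b 3)) * vl (b 4)) -
      (2 : F) • ((((vl (b 0) * vl (b 1)) * vl (b 2)) * vl (b 3)) * (vl (b 4) * q)) := by
  have h1 : ((vl (b 0) * vl (b 1)) * q) * vl (b 2) = 0 :=
    mul_cen (Bh.v_mul _ _) (fun i => mul0_w (Bh.v_mul _ _) hq i) _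
  have h2 : (((vl (b 0) * vl (b 1)) * vl (b 2)) * q) * vl (b 3) = 0 :=
    mul_cen (Bh.v_mul _ _) (fun i => mul0_w (Bh.v_mul _ _) hq i) _
  unfold pe
  simp only [h1, h2, zero_mul, smul_zero, add_zero, sub_zero]
  rw [← Nat.cast_smul_eq_nsmul F, ← Nat.cast_smul_eq_nsmul F]
  norm_num

theorem rev4 (b0 b1 b2 b3 : VL F) :
    ix b3 * ix b2 * ix b1 * ix b0 = ix b0 * ix b1 * ix b2 * ix b3 := by
  have h := p4_perm ![b0, b1, b2, b3] Fin.revPerm
  have hs : Equiv.Perm.sign (Fin.revPerm : Equiv.Perm (Fin 4)) = 1 := by decide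
  rw [hs, one_smul] at h
  exact h

theorem pe_w (b : Fin 5 → VL F) {q : Bh F} (hq : q.v = 0) (i : ℕ) :
    wl i (pe (fun k => vl (b k)) q) = (-(2 : F)) • (q.w i * p5 b) := by
  rw [pe_eq b hq]
  show ((2 : F) • (((((vl (b 0) * q) * vl (b 1)) * vl (b 2)) * vl (b 3)) * vl (b 4)) -
      (2 : F) • ((((vl (b 0) * vl (b 1)) * vl (b 2)) * vl (b 3)) * (vl (b 4) * q))).w i = _
  rw [w_sub, w_smul, w_smul, mul0_w (Bh.v_mul _ _) (Bh.v_mul _ _),
    mul_vl_w (Bh.v_mul _ _), mul_vl_w (Bh.v_mul _ _), mul_vl_w (Bh.v_mul _ _),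
    mul_vl_w (Bh.v_mul _ _), vl_mul_w hq]
  unfold p5
  simp only [neg_mul, mul_assoc, smul_zero, sub_zero, smul_neg, neg_smul]

theorem pe_z (b : Fin 5 → VL F) {q : Bh F} (hq : q.v = 0) (i j : ℕ) :
    zl i j (pe (fun k => vl (b k)) q) =
      (2 : F) • (g4 j b * rv (q.w i) - q.w j * g4 i b) -
      (2 : F) • ((g1 j b - g0' j b) * rv (q.w i) - q.w j * (g1 i b - g0' i b)) := by
  rw [pe_eq b hq]
  show ((2 : F) • (((((vl (b 0) * q) * vl (b 1)) * vl (b 2)) * vl (b 3)) * vl (b 4)) -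
      (2 : F) • ((((vl (b 0) * vl (b 1)) * vl (b 2)) * vl (b 3)) * (vl (b 4) * q))).z i j = _
  have r1 : ∀ k, ((((vl (b 0) * q) * vl (b 1)) * vl (b 2)) * vl (b 3)).w k =
      -(q.w k * (ix (b 0) * ix (b 1) * ix (b 2) * ix (b 3))) := by
    intro k
    rw [mul_vl_w (Bh.v_mul _ _), mul_vl_w (Bh.v_mul _ _), mul_vl_w (Bh.v_mul _ _), vl_mul_w hq]
    simp only [neg_mul, mul_assoc]
  have r2 : ∀ k, (((vl (b 0) * vl (b 1)) * vl (b 2)) * vl (b 3)).w k =
      b 1 k • (ix (b 0) * ix (b 2) * ix (b 3)) - b 0 k • (ix (b 1) * ix (b 2) * ix (b 3)) := by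
    intro k
    rw [mul_vl_w (Bh.v_mul _ _), mul_vl_w (Bh.v_mul _ _), vlvl_w]
    simp only [sub_mul, smul_mul_assoc, mul_assoc]
  have r3 : ∀ k, (vl (b 4) * q).w k = -(q.w k * ix (b 4)) := fun k => vl_mul_w hq _ _
  have r4 : rv (q.w i * (ix (b 0) * ix (b 1) * ix (b 2) * ix (b 3))) =
      ix (b 0) * ix (b 1) * ix (b 2) * ix (b 3) * rv (q.w i) := by
    rw [rv_mul, rv_mul, rv_mul, rv_mul, rv_ix, rv_ix, rv_ix, rv_ix, ← rev4 (b 0)]
    simp only [mul_assoc]
  have r5 : ∀ X Y W T : VL F, ix X * rv (ix Y * ix W * ix T) = ix Y * ix W * ix T * ix X := by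
    intro X Y W T
    rw [rv_mul, rv_mul, rv_ix, rv_ix, rv_ix, ← rev4 Y]
    simp only [mul_assoc]
  have r6 : rv (q.w i * ix (b 4)) = ix (b 4) * rv (q.w i) := by
    rw [rv_mul, rv_ix]
  rw [z_sub, z_smul, z_smul, mul_vl_z (Bh.v_mul _ _), mul0_z (Bh.v_mul _ _) (Bh.v_mul _ _), r1, r1,
    r2, r2, r3, r3, map_neg, map_neg, map_sub, map_smul, map_smul, r4, r6]
  have r7 : -(q.w j * ix (b 4)) * (b 1 i • rv (ix (b 0) * ix (b 2) * ix (b 3)) -
      b 0 i • rv (ix (b 1) * ix (b 2) * ix (b 3))) = -(q.w j * (g1 i b - g0' i b)) := by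
    unfold g1 g0'
    rw [neg_mul, mul_assoc, mul_sub, mul_smul_comm, mul_smul_comm, r5, r5]
  have r8 : (b 1 j • (ix (b 0) * ix (b 2) * ix (b 3)) - b 0 j • (ix (b 1) * ix (b 2) * ix (b 3))) *
      -(ix (b 4) * rv (q.w i)) = -((g1 j b - g0' j b) * rv (q.w i)) := by
    unfold g1 g0'
    rw [mul_neg, ← mul_assoc, sub_mul, smul_mul_assoc, smul_mul_assoc]
  rw [r7, r8]
  have r9 : b 4 i • -(q.w j * (ix (b 0) * ix (b 1) * ix (b 2) * ix (b 3))) =
      -(q.w j * g4 i b) := by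
    unfold g4
    rw [mul_smul_comm, smul_neg]
  have r10 : b 4 j • -(ix (b 0) * ix (b 1) * ix (b 2) * ix (b 3) * rv (q.w i)) =
      -(g4 j b * rv (q.w i)) := by
    unfold g4
    rw [smul_mul_assoc, smul_neg]
  rw [r9, r10]
  module

end BhE2Aux

namespace Bh

/-- `q.w i = w_i`; the monomials of `pe (x0,..,x4; q)` have the `w`-parts: `- w_i X0 X1 X2 X3 X4` (first monomial, `x0 q = - q x0`), `0` (the other four, there
two elements without `v`-part are multiplied). -/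
theorem ee_last_w (a0 a1 a2 a3 a4 : VL F) {q : Bh F} (hq : q.v = 0) (i : ℕ) :
    (ee F (vl a0) (vl a1) (vl a2) (vl a3) (vl a4) q).w i =
      - ((240 : F) • (q.w i * (ix a0 * ix a1 * ix a2 * ix a3 * ix a4))) := by
  have h := BhE2Aux.ee_eq a0 a1 a2 a3 a4 q (BhE2Aux.wl i)
  rw [show (fun b : Fin 5 → VL F => BhE2Aux.wl i (pe (fun k => vl (b k)) q)) =
    fun b => (-(2 : F)) • (q.w i * BhE2Aux.p5 b) from funext fun b => BhE2Aux.pe_w b hq i,
    BhE2Aux.alt_smul, BhE2Aux.alt_mul_left, BhE2Aux.alt_p5] at h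
  refine h.trans ?_
  have e : BhE2Aux.p5 ![a0, a1, a2, a3, a4] = ix a0 * ix a1 * ix a2 * ix a3 * ix a4 := rfl
  rw [e, mul_smul_comm, smul_smul, ← neg_smul]
  norm_num

/-- `z`-parts: first monomial `(a4)_j rv(w_i X0 X1 X2 X3) - (a4)_i w_j X0 X1 X2 X3` (`rv (w_i X0 X1 X2 X3) = X3 X2 X1 X0 rv w_i = X0 X1 X2 X3 rv w_i`); the second, third and fourth
monomials: `0` (they contain a product of a product of two elements without `v`-part, which has only a `z`-part, with something); fifth monomial `(((x0 x1)x2)x3)(x4 q)`: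
`- w_j X4 X3 X2 ((a1)_i X0 - (a0)_i X1) + ((a1)_j X0 - (a0)_j X1) X2 X3 X4 rv w_i`.
With `A_i = ∑ s, sign s • (a (s 4))_i X(s 0) X(s 1) X(s 2) X(s 3) = 24 Ak i`: the first has the alternating sum `- (w_j A_i - A_j rv w_i)`, the fifth
`2 (w_j A_i - A_j rv w_i)`; coefficients `2` and `-2`: total `- 6 (w_j A_i - A_j rv w_i)`. (Checked by computer.) -/
theorem ee_last_z (a0 a1 a2 a3 a4 : VL F) {q : Bh F} (hq : q.v = 0) (i j : ℕ) :
    (ee F (vl a0) (vl a1) (vl a2) (vl a3) (vl a4) q).z i j =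
      - ((144 : F) • (q.w j * Ak a0 a1 a2 a3 a4 i - Ak a0 a1 a2 a3 a4 j * rv (q.w i))) := by
  have h := BhE2Aux.ee_eq a0 a1 a2 a3 a4 q (BhE2Aux.zl i j)
  rw [show (fun b : Fin 5 → VL F => BhE2Aux.zl i j (pe (fun k => vl (b k)) q)) =
    fun b => (2 : F) • (BhE2Aux.g4 j b * rv (q.w i) - q.w j * BhE2Aux.g4 i b) -
      (2 : F) • ((BhE2Aux.g1 j b - BhE2Aux.g0' j b) * rv (q.w i) -
        q.w j * (BhE2Aux.g1 i b - BhE2Aux.g0' i b)) from
    funext fun b => BhE2Aux.pe_z b hq i j] at h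
  rw [BhE2Aux.alt_sub, BhE2Aux.alt_smul, BhE2Aux.alt_smul, BhE2Aux.alt_sub, BhE2Aux.alt_sub,
    BhE2Aux.alt_mul_right, BhE2Aux.alt_mul_left, BhE2Aux.alt_mul_right, BhE2Aux.alt_mul_left] at h
  have e1 : ∀ k, BhE2Aux.alt (fun b => BhE2Aux.g1 k b - BhE2Aux.g0' k b) ![a0, a1, a2, a3, a4] =
      (-48 : F) • Ak a0 a1 a2 a3 a4 k := by
    intro k
    rw [BhE2Aux.alt_sub]
    have h1 := BhE2Aux.alt_g1 a0 a1 a2 a3 a4 k
    have h2 := BhE2Aux.alt_g0' a0 a1 a2 a3 a4 k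
    rw [show BhE2Aux.alt (fun b => BhE2Aux.g1 k b) ![a0, a1, a2, a3, a4] =
      BhE2Aux.alt (BhE2Aux.g1 k) ![a0, a1, a2, a3, a4] from rfl, h1,
      show BhE2Aux.alt (fun b => BhE2Aux.g0' k b) ![a0, a1, a2, a3, a4] =
      BhE2Aux.alt (BhE2Aux.g0' k) ![a0, a1, a2, a3, a4] from rfl, h2]
    module
  have e2 : ∀ k, BhE2Aux.alt (fun b => BhE2Aux.g4 k b) ![a0, a1, a2, a3, a4] =
      (24 : F) • Ak a0 a1 a2 a3 a4 k := fun k => BhE2Aux.alt_g4 a0 a1 a2 a3 a4 k
  rw [e1, e1, e2, e2] at h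
  refine h.trans ?_
  simp only [smul_mul_assoc, mul_smul_comm]
  module

end Bh

end Pool.Agent.Malc
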