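import Mathlib

/-! # Part C: functions of lists which are skew under adjacent swaps -/

set_option autoImplicit false

namespace Pool.Agent.Malc

universe v w

/-- `f` changes its sign under the adjacent swaps of lists of length `n` -/
def SkewL {A : Type v} {B : Type w} [AddCommGroup B] (n : ℕ) (f : List A → B) : Prop :=
  ∀ (l1 : List A) (x y : A) (l2 : List A), (l1 ++ x :: y :: l2).length = n →
    f (l1 ++ x :: y :: l2) = - f (l1 ++ y :: x :: l2)

namespace SkewL

variable {A : Type v} {B : Type w} [AddCommGroup B] {n : ℕ} {f : List A → B}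

/-- move `x` over `l2` -/
theorem move (hf : SkewL n f) (l1 l2 l3 : List A) (x : A) (hn : (l1 ++ x :: (l2 ++ l3)).length = n) :
    f (l1 ++ x :: (l2 ++ l3)) = (-1 : ℤ) ^ l2.length • f (l1 ++ l2 ++ x :: l3) := by
  induction l2 generalizing l1 with
  | nil => simp
  | cons y l2 ih =>
    have h1 : f (l1 ++ x :: y :: (l2 ++ l3)) = - f (l1 ++ y :: x :: (l2 ++ l3)) :=
      hf l1 x y (l2 ++ l3) hn
    have h2 : l1 ++ y :: x :: (l2 ++ l3) = (l1 ++ [y]) ++ x :: (l2 ++ l3) := by simp
    have h3 : (l1 ++ [y]) ++ l2 ++ x :: l3 = l1 ++ (y :: l2) ++ x :: l3 := by simp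
    have h4 : ((l1 ++ [y]) ++ x :: (l2 ++ l3)).length = n := by
      rw [← hn]
      simp only [List.length_append, List.length_cons, List.length_nil]
      omega
    rw [List.cons_append, h1, h2, ih (l1 ++ [y]) h4, h3, List.length_cons, pow_succ, mul_neg,
      mul_one, neg_smul]

/-- exchange two entries -/
theorem swap (hf : SkewL n f) (l1 l2 l3 : List A) (x y : A)
    (hn : (l1 ++ x :: (l2 ++ y :: l3)).length = n) :
    f (l1 ++ x :: (l2 ++ y :: l3)) = - f (l1 ++ y :: (l2 ++ x :: l3)) := by
  have h1 := hf.move l1 (l2 ++ [y]) l3 x (by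
    rw [← hn]
    simp)
  have h2 := hf.move l1 l2 (x :: l3) y (by
    rw [← hn]
    simp)
  have h3 : l1 ++ x :: (l2 ++ [y] ++ l3) = l1 ++ x :: (l2 ++ y :: l3) := by simp
  have h4 : l1 ++ (l2 ++ [y]) ++ x :: l3 = l1 ++ l2 ++ y :: x :: l3 := by simp
  rw [h3, h4, List.length_append, List.length_singleton, pow_succ, mul_neg, mul_one,
    neg_smul] at h1
  rw [h1, h2]

/-- permutations -/
theorem perm (hf : SkewL n f) {l l' : List A} (h : l.Perm l') (hn : l.length = n) :
    f l = f l' ∨ f l = - f l' := by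
  have key : ∀ l1 : List A, (l1 ++ l).length = n →
      f (l1 ++ l) = f (l1 ++ l') ∨ f (l1 ++ l) = - f (l1 ++ l') := by
    clear hn
    induction h with
    | nil => exact fun l1 _ => Or.inl rfl
    | cons x h ih =>
      rename_i l l'
      intro l1 hn
      have h1 := ih (l1 ++ [x]) (by
        rw [← hn]
        simp)
      have h2 : l1 ++ [x] ++ l = l1 ++ x :: l := by simp
      have h3 : l1 ++ [x] ++ l' = l1 ++ x :: l' := by simp
      rwa [h2, h3] at h1
    | swap x y l => exact fun l1 hn => Or.inr (hf l1 y x l hn)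
    | trans h1 h2 ih1 ih2 =>
      intro l1 hn
      have h3 := ih1 l1 hn
      have h4 := ih2 l1 (by
        rw [← hn, List.length_append, List.length_append, h1.length_eq])
      rcases h3 with h3 | h3 <;> rcases h4 with h4 | h4 <;> rw [h3, h4]
      · exact Or.inl rfl
      · exact Or.inr rfl
      · exact Or.inr rfl
      · exact Or.inl (neg_neg _)
  exact key [] hn

end SkewL

end Pool.Agent.Malc
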