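import Pool.Agent.Malc.BhatMal
import Pool.Agent.Malc.CList

/-! # Part C: products of letters in the exterior algebra -/

set_option autoImplicit false

namespace Pool.Agent.Malc

universe u

variable (F : Type u) [Field F]

/-- the letters in the exterior algebra -/
noncomputable def xe (i : ℕ) : Ex F := ix (Finsupp.single i 1)

/-- products of letters -/
noncomputable def px (l : List ℕ) : Ex F := (l.map (xe F)).prod

theorem px_nil : px F [] = 1 := by
  simp [px]

theorem px_cons (i : ℕ) (l : List ℕ) : px F (i :: l) = xe F i * px F l := by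
  simp [px]

theorem px_append (l l' : List ℕ) : px F (l ++ l') = px F l * px F l' := by
  simp [px]

theorem px_singleton (i : ℕ) : px F [i] = xe F i := by
  simp [px]

theorem xe_sq (i : ℕ) : xe F i * xe F i = 0 := ix_sq _

theorem xe_anti (i j : ℕ) : xe F i * xe F j = - (xe F j * xe F i) := ix_anti _ _

theorem rv_px (l : List ℕ) : rv (px F l) = px F l.reverse := by
  induction l with
  | nil =>
    rw [List.reverse_nil, px_nil]
    exact CliffordAlgebra.reverse.map_one
  | cons i l ih =>
    rw [List.reverse_cons, px_append, px_singleton, px_cons, rv_mul, ih, xe, rv_ix]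

theorem rv_ne_zero {X : Ex F} (h : X ≠ 0) : rv X ≠ 0 := by
  intro h0
  apply h
  rw [← rv_rv X, h0, map_zero]

namespace BhNZAux

theorem px_eq (l : List ℕ) : px F l =
    ExteriorAlgebra.ιMulti F l.length (fun k => (Finsupp.single (l.get k) 1 : VL F)) := by
  rw [ExteriorAlgebra.ιMulti_apply, px]
  congr 1
  conv_lhs => rw [← List.ofFn_get l]
  rw [List.map_ofFn]
  rfl

theorem px_reverse (l : List ℕ) :
    px F l.reverse = (-1 : ℤ) ^ (∑ k ∈ Finset.range l.length, k) • px F l := by
  have key : ∀ (i : ℕ) (l : List ℕ), px F l * xe F i = (-1 : ℤ) ^ l.length • (xe F i * px F l) := by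
    intro i l
    induction l with
    | nil => simp [px_nil]
    | cons j l ih =>
      rw [px_cons, mul_assoc, ih, mul_smul_comm, ← mul_assoc, xe_anti, List.length_cons, pow_succ,
        neg_mul, smul_neg, mul_neg_one, neg_smul, mul_assoc]
  induction l with
  | nil => simp
  | cons i l ih =>
    rw [List.reverse_cons, px_append, px_singleton, key, List.length_reverse, ih, List.length_cons,
      Finset.sum_range_succ, pow_add, px_cons, mul_smul_comm, smul_smul, mul_comm]

end BhNZAux

open BhNZAux

/-- Proof: `l` nodup of length `n`. Let `g : (ℕ →₀ F) →ₗ (Fin n → F)`, `g v k = v (l.get k)`, and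
`f = (Pi.basisFun F (Fin n)).det.compLinearMap g` (an alternating map); `ExteriorAlgebra.liftAlternating` applied to
`px F l = ExteriorAlgebra.ιMulti F n (fun k => single (l.get k) 1)` gives the determinant of the unit matrix, `1 ≠ 0`. Or use
`exteriorPower.ιMulti_family_linearIndependent_ofBasis` for a sorted list and `px_skew`. -/
theorem px_ne_zero {l : List ℕ} (h : l.Nodup) : px F l ≠ 0 := by
  classical
  intro h0
  rw [px_eq] at h0
  let G : VL F →ₗ[F] (Fin l.length → F) := LinearMap.pi fun k => Finsupp.lapply (l.get k)
  let g : VL F [⋀^Fin l.length]→ₗ[F] F := (Pi.basisFun F (Fin l.length)).det.compLinearMap G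
  let f : (i : ℕ) → VL F [⋀^Fin i]→ₗ[F] F := Function.update (fun _ => 0) l.length g
  have h1 := ExteriorAlgebra.liftAlternating_apply_ιMulti f
    (fun k => (Finsupp.single (l.get k) 1 : VL F))
  rw [h0, map_zero] at h1
  have h2 : f l.length = g := Function.update_self _ _ _
  rw [h2] at h1
  have h3 : g (fun k => (Finsupp.single (l.get k) 1 : VL F)) = 1 := by
    show (Pi.basisFun F (Fin l.length)).det
      (fun k => G (Finsupp.single (l.get k) 1 : VL F)) = 1
    have h4 : (fun k => G (Finsupp.single (l.get k) 1 : VL F)) = Pi.basisFun F (Fin l.length) := by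
      funext k
      funext j
      rw [Pi.basisFun_apply]
      show (Finsupp.single (l.get k) 1 : VL F) (l.get j) = _
      rw [Finsupp.single_apply, Pi.single_apply]
      have : l.get k = l.get j ↔ j = k := by
        rw [h.get_inj_iff]
        exact eq_comm
      simp only [this]
    rw [h4, Module.Basis.det_self]
  rw [h3] at h1
  exact zero_ne_one h1

theorem px_skew (n : ℕ) : SkewL n (fun l : List ℕ => px F l) := by
  intro l1 x y l2 _
  simp only [px_append, px_cons]
  rw [← mul_assoc (xe F x), xe_anti, neg_mul, mul_neg, mul_assoc (xe F y)]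

/-- the same, simultaneously for all renamings of the letters -/
theorem px_map_skew (n : ℕ) : SkewL n (fun (l : List ℕ) (σ : ℕ → ℕ) => px F (l.map σ)) := by
  intro l1 x y l2 _
  funext σ
  simp only [List.map_append, List.map_cons, px_append, px_cons, Pi.neg_apply]
  rw [← mul_assoc (xe F (σ x)), xe_anti, neg_mul, mul_neg, mul_assoc (xe F (σ y))]

theorem px_mul_xe (i : ℕ) (l : List ℕ) :
    px F l * xe F i = (-1 : ℤ) ^ l.length • (xe F i * px F l) := by
  induction l with
  | nil => simp [px_nil]
  | cons j l ih =>
    rw [px_cons, mul_assoc, ih, mul_smul_comm, ← mul_assoc, xe_anti, List.length_cons, pow_succ,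
      neg_mul, smul_neg, mul_neg_one, neg_smul, mul_assoc]

/-- the reversal of a product of four letters (`rv_px`, sign of the reversal: `+1`) -/
theorem rv_px_four {l : List ℕ} (h : l.length = 4) : rv (px F l) = px F l := by
  rw [rv_px, px_reverse, h]
  simp [Finset.sum_range_succ]

/-- the reversal of a product of five letters -/
theorem rv_px_five {l : List ℕ} (h : l.length = 5) : rv (px F l) = px F l := by
  rw [rv_px, px_reverse, h]
  simp [Finset.sum_range_succ]

end Pool.Agent.Malc
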