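import Pool.Agent.Malc.Defs

/-! # The model algebra `Bh = V ⊕ W ⊕ Z`

`V = ℕ →₀ F` (letters), `Ex` = exterior algebra of `V`, `W = Ex ⊗ V` realised as functions `ℕ → Ex`
(`(X ⊗ a) i = a i • X`), `Z = V ⊗ Ex ⊗ V` realised as functions `ℕ → ℕ → Ex`,
`brk a U b i j = (a i * b j) • U - (b i * a j) • rev U`, so `brk b U a = - brk a (rev U) b`.
Products: `a · b = a ⊗ b - b ⊗ a`, `(X ⊗ a) · b = (X b) ⊗ a - brk a (rev X) b`,
`(X ⊗ a) · (Y ⊗ b) = brk a (Y * rev X) b`, `Z` central, everything anticommutative. -/

set_option autoImplicit false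

namespace Pool.Agent.Malc

universe u

variable (F : Type u) [Field F]

/-- the letters -/
abbrev VL : Type u := ℕ →₀ F

/-- the exterior algebra -/
abbrev Ex : Type u := ExteriorAlgebra F (VL F)

variable {F}

/-- the letters in the exterior algebra -/
noncomputable def ix : VL F →ₗ[F] Ex F := ExteriorAlgebra.ι F

/-- reversal -/
noncomputable def rv : Ex F →ₗ[F] Ex F := CliffordAlgebra.reverse

theorem ix_sq (a : VL F) : ix a * ix a = 0 := ExteriorAlgebra.ι_sq_zero a

theorem ix_anti (a b : VL F) : ix a * ix b = - (ix b * ix a) := by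
  have h := ix_sq (a + b)
  simp only [map_add, mul_add, add_mul, ix_sq, zero_add, add_zero] at h
  exact eq_neg_of_add_eq_zero_right h

theorem rv_ix (a : VL F) : rv (ix a) = ix a := CliffordAlgebra.reverse_ι a

theorem rv_mul (X Y : Ex F) : rv (X * Y) = rv Y * rv X := CliffordAlgebra.reverse.map_mul X Y

theorem rv_rv (X : Ex F) : rv (rv X) = X := CliffordAlgebra.reverse_reverse X

variable (F) in
/-- the model algebra, as a vector space -/
def Bh : Type u := VL F × (ℕ → Ex F) × (ℕ → ℕ → Ex F)

noncomputable instance : AddCommGroup (Bh F) :=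
  inferInstanceAs (AddCommGroup (VL F × (ℕ → Ex F) × (ℕ → ℕ → Ex F)))

noncomputable instance : Module F (Bh F) :=
  inferInstanceAs (Module F (VL F × (ℕ → Ex F) × (ℕ → ℕ → Ex F)))

namespace Bh

/-- the components -/
def v (x : Bh F) : VL F := x.1

/-- the components -/
def w (x : Bh F) : ℕ → Ex F := x.2.1

/-- the components -/
def z (x : Bh F) : ℕ → ℕ → Ex F := x.2.2

theorem ext {x y : Bh F} (h1 : x.v = y.v) (h2 : ∀ i, x.w i = y.w i)
    (h3 : ∀ i j, x.z i j = y.z i j) : x = y :=
  Prod.ext h1 (Prod.ext (funext h2) (funext fun i => funext (h3 i)))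

@[simp] theorem v_zero : (0 : Bh F).v = 0 := rfl
@[simp] theorem w_zero (i : ℕ) : (0 : Bh F).w i = 0 := rfl
@[simp] theorem z_zero (i j : ℕ) : (0 : Bh F).z i j = 0 := rfl
@[simp] theorem v_add (x y : Bh F) : (x + y).v = x.v + y.v := rfl
@[simp] theorem w_add (x y : Bh F) (i : ℕ) : (x + y).w i = x.w i + y.w i := rfl
@[simp] theorem z_add (x y : Bh F) (i j : ℕ) : (x + y).z i j = x.z i j + y.z i j := rfl
@[simp] theorem v_sub (x y : Bh F) : (x - y).v = x.v - y.v := rfl
@[simp] theorem w_sub (x y : Bh F) (i : ℕ) : (x - y).w i = x.w i - y.w i := rfl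
@[simp] theorem z_sub (x y : Bh F) (i j : ℕ) : (x - y).z i j = x.z i j - y.z i j := rfl
@[simp] theorem v_neg (x : Bh F) : (-x).v = -x.v := rfl
@[simp] theorem w_neg (x : Bh F) (i : ℕ) : (-x).w i = -x.w i := rfl
@[simp] theorem z_neg (x : Bh F) (i j : ℕ) : (-x).z i j = -x.z i j := rfl
@[simp] theorem v_smul (c : F) (x : Bh F) : (c • x).v = c • x.v := rfl
@[simp] theorem w_smul (c : F) (x : Bh F) (i : ℕ) : (c • x).w i = c • x.w i := rfl
@[simp] theorem z_smul (c : F) (x : Bh F) (i j : ℕ) : (c • x).z i j = c • x.z i j := rfl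

/-- the product -/
noncomputable instance : Mul (Bh F) where
  mul x y := (0,
    fun i => y.v i • ix x.v - x.v i • ix y.v + x.w i * ix y.v - y.w i * ix x.v,
    fun i j => (x.v j • rv (y.w i) - x.v i • y.w j) - (y.v j • rv (x.w i) - y.v i • x.w j)
      + (y.w j * rv (x.w i) - x.w j * rv (y.w i)))

@[simp] theorem v_mul (x y : Bh F) : (x * y).v = 0 := rfl

theorem w_mul (x y : Bh F) (i : ℕ) : (x * y).w i =
    y.v i • ix x.v - x.v i • ix y.v + x.w i * ix y.v - y.w i * ix x.v := rfl

theorem z_mul (x y : Bh F) (i j : ℕ) : (x * y).z i j =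
    (x.v j • rv (y.w i) - x.v i • y.w j) - (y.v j • rv (x.w i) - y.v i • x.w j)
      + (y.w j * rv (x.w i) - x.w j * rv (y.w i)) := rfl

noncomputable instance : NonUnitalNonAssocRing (Bh F) where
  left_distrib := fun a b c => by
    apply ext
    · simp
    · intro i; simp only [w_mul, w_add, v_add, Finsupp.add_apply, map_add, mul_add, add_mul,
        add_smul, smul_add]; abel
    · intro i j; simp only [z_mul, w_add, v_add, z_add, Finsupp.add_apply, map_add, mul_add,
        add_mul, add_smul, smul_add]; abel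
  right_distrib := fun a b c => by
    apply ext
    · simp
    · intro i; simp only [w_mul, w_add, v_add, Finsupp.add_apply, map_add, mul_add, add_mul,
        add_smul, smul_add]; abel
    · intro i j; simp only [z_mul, w_add, v_add, z_add, Finsupp.add_apply, map_add, mul_add,
        add_mul, add_smul, smul_add]; abel
  zero_mul := fun a => by
    apply ext
    · simp
    · intro i; simp [w_mul]
    · intro i j; simp [z_mul]
  mul_zero := fun a => by
    apply ext
    · simp
    · intro i; simp [w_mul]
    · intro i j; simp [z_mul]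

instance : IsScalarTower F (Bh F) (Bh F) where
  smul_assoc := fun c a b => by
    apply ext
    · simp
    · intro i
      simp only [smul_eq_mul, w_mul, w_smul, v_smul, Finsupp.smul_apply, map_smul, smul_sub,
        smul_add, smul_mul_assoc, mul_smul_comm, smul_smul]
      rw [mul_comm (b.v i) c]
    · intro i j
      simp only [smul_eq_mul, z_mul, z_smul, w_smul, v_smul, Finsupp.smul_apply, map_smul,
        smul_sub, smul_add, smul_mul_assoc, mul_smul_comm, smul_smul]
      rw [mul_comm (b.v i) c, mul_comm (b.v j) c]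

instance : SMulCommClass F (Bh F) (Bh F) where
  smul_comm := fun c a b => by
    apply ext
    · simp
    · intro i
      simp only [smul_eq_mul, w_mul, w_smul, v_smul, Finsupp.smul_apply, map_smul, smul_sub,
        smul_add, smul_mul_assoc, mul_smul_comm, smul_smul]
      rw [mul_comm (a.v i) c]
    · intro i j
      simp only [smul_eq_mul, z_mul, z_smul, w_smul, v_smul, Finsupp.smul_apply, map_smul,
        smul_sub, smul_add, smul_mul_assoc, mul_smul_comm, smul_smul]
      rw [mul_comm (a.v i) c, mul_comm (a.v j) c]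

theorem sq (x : Bh F) : x * x = 0 := by
  apply ext
  · simp
  · intro i; simp [w_mul]
  · intro i j; simp [z_mul]

end Bh

end Pool.Agent.Malc
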