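import Pool.Agent.Malc.Words3

/-! # The grading of the free Malcev algebra -/

set_option autoImplicit false

namespace Pool.Agent.Malc

universe u v

variable {F : Type u} [Field F]

/-- a word in the free Malcev algebra -/
noncomputable def wdM (w : FreeMagma ℕ) : FreeMalcev F ℕ := FreeMalcev.mk (wd w)

namespace MGradAux

theorem quad [CharZero F] (Q : FA F →ₗ[F] FA F →ₗ[F] FA F) (r : Multiset ℕ)
    (hQ : ∀ (i j : Multiset ℕ) (a b : FA F), a ∈ Hg F i → b ∈ Hg F j → Q a b ∈ Hg F (i + j + r))
    (hs : ∀ a b : FA F, Q a b + Q b a ∈ malIdeal F ℕ) (x : FA F) (m : Multiset ℕ) :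
    comp F m (Q x x) ∈ malIdeal F ℕ := by
  obtain ⟨s, hx⟩ := sum_comp x
  have h1 : Q x x = ∑ i ∈ s, ∑ j ∈ s, Q (comp F i x) (comp F j x) := by
    have h0 : Q x x = Q (∑ i ∈ s, comp F i x) (∑ j ∈ s, comp F j x) := by rw [← hx]
    rw [h0, LinearMap.map_sum₂]
    apply Finset.sum_congr rfl
    intro i _
    rw [map_sum]
  have h2 : Q x x = ∑ i ∈ s, ∑ j ∈ s, Q (comp F j x) (comp F i x) := by
    rw [h1, Finset.sum_comm]
  have h3 : (2 : F) • comp F m (Q x x) = ∑ i ∈ s, ∑ j ∈ s,
      comp F m (Q (comp F i x) (comp F j x) + Q (comp F j x) (comp F i x)) := by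
    have h4 : (2 : F) • comp F m (Q x x) = comp F m (Q x x) + comp F m (Q x x) := two_smul _ _
    rw [h4, ← map_add]
    have h5 : Q x x + Q x x = ∑ i ∈ s, ∑ j ∈ s,
        (Q (comp F i x) (comp F j x) + Q (comp F j x) (comp F i x)) := by
      calc Q x x + Q x x = (∑ i ∈ s, ∑ j ∈ s, Q (comp F i x) (comp F j x)) +
            ∑ i ∈ s, ∑ j ∈ s, Q (comp F j x) (comp F i x) := by
              conv_lhs => rw [h1]
              congr 1
              rw [Finset.sum_comm]
        _ = _ := by
              rw [← Finset.sum_add_distrib]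
              apply Finset.sum_congr rfl
              intro i _
              rw [← Finset.sum_add_distrib]
    rw [h5, map_sum]
    apply Finset.sum_congr rfl
    intro i _
    rw [map_sum]
  have h6 : (2 : F) • comp F m (Q x x) ∈ malIdeal F ℕ := by
    rw [h3]
    apply Submodule.sum_mem
    intro i _
    apply Submodule.sum_mem
    intro j _
    have h7 : Q (comp F i x) (comp F j x) + Q (comp F j x) (comp F i x) ∈ Hg F (i + j + r) := by
      apply Submodule.add_mem
      · exact hQ i j _ _ (comp_mem i x) (comp_mem j x)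
      · have := hQ j i _ _ (comp_mem j x) (comp_mem i x)
        rwa [add_comm j i] at this
    rw [comp_of_mem h7]
    split_ifs
    · exact hs _ _
    · exact Submodule.zero_mem _
  have h8 := Submodule.smul_mem (malIdeal F ℕ) (2 : F)⁻¹ h6
  rwa [smul_smul, inv_mul_cancel₀ (two_ne_zero), one_smul] at h8

theorem sqQ (a b : FA F) : a * b + b * a ∈ malIdeal F ℕ := by
  have h1 := malIdeal_sq (a + b)
  have h2 := malIdeal_sq a
  have h3 := malIdeal_sq b
  have h4 := Submodule.sub_mem _ (Submodule.sub_mem _ h1 h2) h3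
  have e : (a + b) * (a + b) - a * a - b * b = a * b + b * a := by
    rw [add_mul, mul_add, mul_add]; abel
  rwa [e] at h4

/-- the Malcev identity, linearised -/
noncomputable def T (y z : FA F) : FA F →ₗ[F] FA F →ₗ[F] FA F :=
  LinearMap.mk₂ F (fun a b => Jac a y (b * z) - Jac a y z * b)
    (by
      intro a a' b
      simp only [Jac, add_mul, mul_add]
      abel)
    (by
      intro r a b
      simp only [Jac, smul_mul_assoc, mul_smul_comm, smul_add, smul_sub, add_mul])
    (by
      intro a b b'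
      simp only [Jac, add_mul, mul_add]
      abel)
    (by
      intro r a b
      simp only [Jac, smul_mul_assoc, mul_smul_comm, smul_add, smul_sub, add_mul])

theorem T_apply (y z a b : FA F) : T y z a b = Jac a y (b * z) - Jac a y z * b := rfl

theorem T_symm (y z a b : FA F) : T y z a b + T y z b a ∈ malIdeal F ℕ := by
  have h1 := malIdeal_mal (a + b) y z
  have h2 := malIdeal_mal a y z
  have h3 := malIdeal_mal b y z
  have h4 := Submodule.sub_mem _ (Submodule.sub_mem _ h1 h2) h3
  have e : Jac (a + b) y ((a + b) * z) - Jac (a + b) y z * (a + b) - (Jac a y (a * z) - Jac a y z * a)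
      - (Jac b y (b * z) - Jac b y z * b) = T y z a b + T y z b a := by
    rw [T_apply, T_apply]
    simp only [Jac, add_mul, mul_add]
    abel
  rwa [e] at h4

theorem T_mem {i j k l : Multiset ℕ} {y z a b : FA F} (hy : y ∈ Hg F k) (hz : z ∈ Hg F l)
    (ha : a ∈ Hg F i) (hb : b ∈ Hg F j) : T y z a b ∈ Hg F (i + j + (k + l)) := by
  rw [T_apply]
  apply Submodule.sub_mem
  · have h := Jac_mem ha hy (Hg_mul hb hz)
    have e : i + k + (j + l) = i + j + (k + l) := by
      rw [add_assoc, add_assoc]; congr 1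
      rw [← add_assoc, ← add_assoc, add_comm k j]
    rwa [e] at h
  · have h := Hg_mul (Jac_mem ha hy hz) hb
    have e : i + k + l + j = i + j + (k + l) := by
      rw [add_assoc i k l, add_assoc i (k + l) j, add_comm (k + l) j, add_assoc i j (k + l)]
    rwa [e] at h

/-- the Malcev identity is linear in `y`, `z` -/
noncomputable def R (x : FA F) : FA F →ₗ[F] FA F →ₗ[F] FA F :=
  LinearMap.mk₂ F (fun y z => Jac x y (x * z) - Jac x y z * x)
    (by
      intro a a' b
      simp only [Jac, add_mul, mul_add]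
      abel)
    (by
      intro r a b
      simp only [Jac, smul_mul_assoc, mul_smul_comm, smul_add, smul_sub, add_mul])
    (by
      intro a b b'
      simp only [Jac, add_mul, mul_add]
      abel)
    (by
      intro r a b
      simp only [Jac, smul_mul_assoc, mul_smul_comm, smul_add, smul_sub, add_mul])

theorem R_apply (x y z : FA F) : R x y z = Jac x y (x * z) - Jac x y z * x := rfl

theorem R_eq_T (x y z : FA F) : R x y z = T y z x x := rfl

theorem bilin_sum (Q : FA F →ₗ[F] FA F →ₗ[F] FA F) (x y : FA F) :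
    ∃ s t : Finset (Multiset ℕ), Q x y = ∑ i ∈ s, ∑ j ∈ t, Q (comp F i x) (comp F j y) := by
  obtain ⟨s, hx⟩ := sum_comp x
  obtain ⟨t, hy⟩ := sum_comp y
  refine ⟨s, t, ?_⟩
  have h0 : Q x y = Q (∑ i ∈ s, comp F i x) (∑ j ∈ t, comp F j y) := by rw [← hx, ← hy]
  rw [h0, LinearMap.map_sum₂]
  apply Finset.sum_congr rfl
  intro i _
  rw [map_sum]

end MGradAux

variable (F)

/-- homogeneous elements of the free Malcev algebra -/
noncomputable def GM (m : Multiset ℕ) : Submodule F (FreeMalcev F ℕ) :=
  (Hg F m).map (FreeMalcev.mk : FA F →ₗ[F] FreeMalcev F ℕ)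

theorem comp_malIdeal [CharZero F] (m : Multiset ℕ) {p : FA F} (hp : p ∈ malIdeal F ℕ) :
    comp F m p ∈ malIdeal F ℕ := by
  have key : malIdeal F ℕ ≤ ⨅ m : Multiset ℕ, (malIdeal F ℕ).comap (comp F m) := by
    apply malIdeal_le
    · intro a ha b
      rw [Submodule.mem_iInf] at ha
      constructor
      · rw [Submodule.mem_iInf]
        intro k
        rw [Submodule.mem_comap]
        obtain ⟨s, t, h⟩ := MGradAux.bilin_sum (LinearMap.mul F (FA F)) a b
        have h' : a * b = ∑ i ∈ s, ∑ j ∈ t, comp F i a * comp F j b := h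
        rw [h', map_sum]
        apply Submodule.sum_mem
        intro i _
        rw [map_sum]
        apply Submodule.sum_mem
        intro j _
        rw [comp_of_mem (Hg_mul (comp_mem i a) (comp_mem j b))]
        split_ifs
        · exact (malIdeal_idl _ (ha i) _).1
        · exact Submodule.zero_mem _
      · rw [Submodule.mem_iInf]
        intro k
        rw [Submodule.mem_comap]
        obtain ⟨s, t, h⟩ := MGradAux.bilin_sum (LinearMap.mul F (FA F)) b a
        have h' : b * a = ∑ i ∈ s, ∑ j ∈ t, comp F i b * comp F j a := h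
        rw [h', map_sum]
        apply Submodule.sum_mem
        intro i _
        rw [map_sum]
        apply Submodule.sum_mem
        intro j _
        rw [comp_of_mem (Hg_mul (comp_mem i b) (comp_mem j a))]
        split_ifs
        · exact (malIdeal_idl _ (ha j) _).2
        · exact Submodule.zero_mem _
    · intro x
      rw [Submodule.mem_iInf]
      intro k
      rw [Submodule.mem_comap]
      apply MGradAux.quad (LinearMap.mul F (FA F)) 0
      · intro i j a b ha hb
        rw [add_zero]
        exact Hg_mul ha hb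
      · exact MGradAux.sqQ
    · intro x y z
      rw [Submodule.mem_iInf]
      intro k
      rw [Submodule.mem_comap, ← MGradAux.R_apply]
      obtain ⟨s, t, h⟩ := MGradAux.bilin_sum (MGradAux.R x) y z
      rw [h, map_sum]
      apply Submodule.sum_mem
      intro i _
      rw [map_sum]
      apply Submodule.sum_mem
      intro j _
      rw [MGradAux.R_eq_T]
      apply MGradAux.quad (MGradAux.T (comp F i y) (comp F j z)) (i + j)
      · intro i' j' a b ha hb
        exact MGradAux.T_mem (comp_mem i y) (comp_mem j z) ha hb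
      · exact MGradAux.T_symm _ _
  have h := key hp
  rw [Submodule.mem_iInf] at h
  exact h m

/-- the homogeneous component -/
noncomputable def piM [CharZero F] (m : Multiset ℕ) : FreeMalcev F ℕ →ₗ[F] FreeMalcev F ℕ :=
  (malIdeal F ℕ).mapQ (malIdeal F ℕ) (comp F m) (fun _ hp => comp_malIdeal F m hp)

variable {F}

theorem wdM_mul (a b : FreeMagma ℕ) : (wdM a * wdM b : FreeMalcev F ℕ) = wdM (FreeMagma.mul a b) := by
  unfold wdM
  rw [← FreeMalcev.mk_mul, wd_mul]

theorem of_eq_wdM (i : ℕ) : (FreeMalcev.of i : FreeMalcev F ℕ) = wdM (FreeMagma.of i) := by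
  unfold wdM FreeMalcev.of
  rw [of_eq_wd]

theorem GM_eq (m : Multiset ℕ) : GM F m = Submodule.span F {p | ∃ w, content w = m ∧ p = wdM w} := by
  unfold GM Hg
  rw [Submodule.map_span]
  congr 1
  ext p
  constructor
  · rintro ⟨q, ⟨w, hw, rfl⟩, rfl⟩
    exact ⟨w, hw, rfl⟩
  · rintro ⟨w, hw, rfl⟩
    exact ⟨wd w, ⟨w, hw, rfl⟩, rfl⟩

theorem span_wdM : Submodule.span F (Set.range (wdM : FreeMagma ℕ → FreeMalcev F ℕ)) = ⊤ := by
  have h1 : Set.range (wdM : FreeMagma ℕ → FreeMalcev F ℕ) =
      (FreeMalcev.mk : FA F →ₗ[F] FreeMalcev F ℕ) '' Set.range (wd : FreeMagma ℕ → FA F) := by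
    rw [← Set.range_comp]
    rfl
  rw [h1, ← Submodule.map_span, span_wd, Submodule.map_top]
  exact LinearMap.range_eq_top.mpr FreeMalcev.mk_surj

theorem GM_mul {m n : Multiset ℕ} {p q : FreeMalcev F ℕ} (hp : p ∈ GM F m) (hq : q ∈ GM F n) :
    p * q ∈ GM F (m + n) := by
  obtain ⟨a, ha, rfl⟩ := hp
  obtain ⟨b, hb, rfl⟩ := hq
  exact ⟨a * b, Hg_mul ha hb, rfl⟩

theorem piM_mk [CharZero F] (m : Multiset ℕ) (p : FA F) :
    piM F m (FreeMalcev.mk p) = FreeMalcev.mk (comp F m p) := rfl

theorem piM_wdM [CharZero F] (m : Multiset ℕ) (w : FreeMagma ℕ) :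
    piM F m (wdM w) = if content w = m then wdM w else 0 := by
  unfold wdM
  rw [piM_mk, comp_wd]
  split_ifs
  · rfl
  · exact map_zero _

theorem piM_mem [CharZero F] (m : Multiset ℕ) (p : FreeMalcev F ℕ) : piM F m p ∈ GM F m := by
  obtain ⟨a, rfl⟩ := FreeMalcev.mk_surj p
  rw [piM_mk]
  exact ⟨comp F m a, comp_mem m a, rfl⟩

theorem piM_of_mem [CharZero F] {m n : Multiset ℕ} {p : FreeMalcev F ℕ} (hp : p ∈ GM F n) :
    piM F m p = if n = m then p else 0 := by
  obtain ⟨a, ha, rfl⟩ := hp
  rw [piM_mk, comp_of_mem ha]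
  split_ifs
  · rfl
  · exact map_zero _

theorem sum_piM [CharZero F] (p : FreeMalcev F ℕ) :
    ∃ s : Finset (Multiset ℕ), p = ∑ m ∈ s, piM F m p := by
  obtain ⟨a, rfl⟩ := FreeMalcev.mk_surj p
  obtain ⟨s, hs⟩ := sum_comp a
  refine ⟨s, ?_⟩
  have h1 : (FreeMalcev.mk a : FreeMalcev F ℕ) = FreeMalcev.mk (∑ m ∈ s, comp F m a) := by rw [← hs]
  refine h1.trans ?_
  rw [map_sum]
  apply Finset.sum_congr rfl
  intro m _
  rw [piM_mk]

end Pool.Agent.Malc
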