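import Pool.Agent.Malc.BhE
import Pool.Agent.Malc.MGrad

/-! # Part C: the homomorphism from the free Malcev algebra to the model algebra -/

set_option autoImplicit false

namespace Pool.Agent.Malc

universe u v w

namespace CPhiAux

variable (F : Type u) [Field F] {A : Type v} [NonUnitalNonAssocRing A] [Module F A]
  [IsScalarTower F A A] [SMulCommClass F A A] {B : Type w} [NonUnitalNonAssocRing B] [Module F B]
  [IsScalarTower F B B] [SMulCommClass F B B] (f : A →ₙₐ[F] B)

omit [IsScalarTower F A A] [SMulCommClass F A A] [IsScalarTower F B B] [SMulCommClass F B B] in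
theorem hom_nsmul (n : ℕ) (a : A) : f (n • a) = n • f a :=
  map_nsmul (f : A →ₙₐ[F] B) n a

omit [IsScalarTower F A A] [SMulCommClass F A A] [IsScalarTower F B B] [SMulCommClass F B B] in
theorem hom_zsmul (n : ℤ) (a : A) : f (n • a) = n • f a :=
  map_zsmul (f : A →ₙₐ[F] B) n a

omit [IsScalarTower F A A] [SMulCommClass F A A] [IsScalarTower F B B] [SMulCommClass F B B] in
theorem hom_pe (x : Fin 5 → A) (y : A) : f (pe x y) = pe (fun i => f (x i)) (f y) := by
  unfold pe
  simp only [map_add, map_sub, map_mul, hom_nsmul]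

omit [IsScalarTower F A A] [SMulCommClass F A A] [IsScalarTower F B B] [SMulCommClass F B B] in
theorem hom_foldl (t : List A) : ∀ q : A, f (t.foldl (· * ·) q) = (t.map f).foldl (· * ·) (f q) := by
  induction t with
  | nil => intro q; rfl
  | cons b t ih =>
    intro q
    simp only [List.foldl_cons, List.map_cons]
    rw [ih, map_mul]

omit [IsScalarTower F A A] [SMulCommClass F A A] [IsScalarTower F B B] [SMulCommClass F B B] in
theorem hom_getLastD (U : List A) : f (U.getLastD 0) = (U.map f).getLastD 0 := by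
  rcases List.eq_nil_or_concat U with rfl | ⟨L, b, rfl⟩
  · exact map_zero f
  · simp

end CPhiAux

section hom

variable (F : Type u) [Field F] {A : Type v} [NonUnitalNonAssocRing A] [Module F A]
  [IsScalarTower F A A] [SMulCommClass F A A] {B : Type w} [NonUnitalNonAssocRing B] [Module F B]
  [IsScalarTower F B B] [SMulCommClass F B B] (f : A →ₙₐ[F] B)

theorem hom_ee (x0 x1 x2 x3 x4 y : A) :
    f (ee F x0 x1 x2 x3 x4 y) = ee F (f x0) (f x1) (f x2) (f x3) (f x4) (f y) := by
  unfold ee
  rw [eL_apply, eL_apply, map_sum]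
  refine Finset.sum_congr rfl fun s _ => ?_
  rw [Units.smul_def, Units.smul_def, CPhiAux.hom_zsmul, CPhiAux.hom_pe]
  congr 2
  funext i
  simp only [Function.comp_apply]
  generalize s i = j
  fin_cases j <;> rfl

theorem hom_ew (xs : List A) (a : A) : f (ew F xs a) = ew F (xs.map f) (f a) := by
  match xs with
  | x0 :: x1 :: x2 :: x3 :: x4 :: t =>
    simp only [List.map_cons, ew_cons]
    rw [CPhiAux.hom_foldl, hom_ee]
  | [] => exact map_zero f
  | [_] => exact map_zero f
  | [_, _] => exact map_zero f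
  | [_, _, _] => exact map_zero f
  | [_, _, _, _] => exact map_zero f

theorem hom_zt (q b c : A) : f (zt q b c) = zt (f q) (f b) (f c) := by
  unfold zt
  simp only [map_sub, map_mul]

theorem hom_Zt (U : List A) (a c : A) : f (Zt F U a c) = Zt F (U.map f) (f a) (f c) := by
  unfold Zt
  rw [hom_zt, hom_ew, List.map_dropLast, CPhiAux.hom_getLastD]

theorem hom_wf (V : List A) (a : A) : f (wf F V a) = wf F (V.map f) (f a) := by
  unfold wf
  rw [map_add, CPhiAux.hom_nsmul, hom_ew, hom_Zt, List.map_dropLast, CPhiAux.hom_getLastD]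

end hom

variable (F : Type u) [Field F]

/-- the homomorphism to the model algebra -/
noncomputable def phi : FreeMalcev F ℕ →ₙₐ[F] Bh F :=
  FreeMalcev.lift Bh.isMalcev (Bh.lt F)

theorem phi_of (i : ℕ) : phi F (FreeMalcev.of i) = Bh.lt F i :=
  FreeMalcev.lift_of _ _ i

theorem phi_ew (l : List ℕ) (a : ℕ) :
    phi F (ew F (l.map FreeMalcev.of) (FreeMalcev.of a)) = ew F (l.map (Bh.lt F)) (Bh.lt F a) := by
  rw [hom_ew, List.map_map, phi_of]
  congr 1
  exact List.map_congr_left fun i _ => phi_of F i

theorem phi_Zt (l : List ℕ) (a c : ℕ) :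
    phi F (Zt F (l.map FreeMalcev.of) (FreeMalcev.of a) (FreeMalcev.of c)) =
      Zt F (l.map (Bh.lt F)) (Bh.lt F a) (Bh.lt F c) := by
  rw [hom_Zt, List.map_map, phi_of, phi_of]
  congr 1
  exact List.map_congr_left fun i _ => phi_of F i

theorem phi_wf (l : List ℕ) (a : ℕ) :
    phi F (wf F (l.map FreeMalcev.of) (FreeMalcev.of a)) = wf F (l.map (Bh.lt F)) (Bh.lt F a) := by
  rw [hom_wf, List.map_map, phi_of]
  congr 1
  exact List.map_congr_left fun i _ => phi_of F i

/-- A dual family of linear maps. -/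
theorem inj_of_dual {F : Type*} [Field F] {ι M N E : Type*} [AddCommGroup M] [Module F M]
    [AddCommGroup N] [Module F N] [AddCommGroup E] [Module F E] (g : ι → M) (φ : M →ₗ[F] N)
    (f : ι → N →ₗ[F] E) (h0 : ∀ k k', k ≠ k' → f k (φ (g k')) = 0)
    (h1 : ∀ k, f k (φ (g k)) ≠ 0) {q : M} (hq : q ∈ Submodule.span F (Set.range g))
    (h : φ q = 0) : q = 0 := by
  obtain ⟨c, rfl⟩ := Finsupp.mem_span_range_iff_exists_finsupp.1 hq
  have hc : ∀ k, c k = 0 := by
    intro k
    by_contra hk
    have h2 : f k (φ (c.sum fun i a => a • g i)) = 0 := by rw [h, map_zero]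
    rw [Finsupp.sum, map_sum, map_sum, Finset.sum_eq_single k] at h2
    · rw [map_smul, map_smul] at h2
      exact h1 k ((smul_eq_zero.1 h2).resolve_left hk)
    · intro i _ hik
      rw [map_smul, map_smul, h0 k i (Ne.symm hik), smul_zero]
    · intro hk2
      exact absurd (Finsupp.notMem_support_iff.1 hk2) hk
  have : c = 0 := Finsupp.ext hc
  rw [this, Finsupp.sum_zero_index]

end Pool.Agent.Malc
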