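import Pool.Agent.Malc.NF

/-! # The split seven-dimensional cross product algebra -/

set_option autoImplicit false

open scoped TensorProduct

namespace Pool.Agent.Malc

universe u

open CPA Matrix

variable (F : Type u) [Field F]

/-- the space of `C7` -/
abbrev C7E : Type u := F × (Fin 3 → F) × (Fin 3 → F)

namespace C7Aux

variable {F}

/-- equality in `C7E` -/
theorem ext {x y : C7E F} (h : x.1 = y.1) (h1 : x.2.1 = y.2.1) (h2 : x.2.2 = y.2.2) : x = y :=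
  Prod.ext h (Prod.ext h1 h2)

theorem ext3 {a b : Fin 3 → F} (h0 : a 0 = b 0) (h1 : a 1 = b 1) (h2 : a 2 = b 2) : a = b := by
  funext i
  fin_cases i <;> assumption

/-- the product -/
def mulf (x y : C7E F) : C7E F := (2 * (x.2.1 ⬝ᵥ y.2.2 - x.2.2 ⬝ᵥ y.2.1),
      x.1 • y.2.1 - y.1 • x.2.1 - (2 : F) • (x.2.2 ⨯₃ y.2.2),
      y.1 • x.2.2 - x.1 • y.2.2 + (2 : F) • (x.2.1 ⨯₃ y.2.1))

/-- the form -/
def sf (x y : C7E F) : F := - x.1 * y.1 - 2 * (x.2.1 ⬝ᵥ y.2.2 + x.2.2 ⬝ᵥ y.2.1)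

theorem mulf_1 (x y : C7E F) : (mulf x y).1 = 2 * (x.2.1 0 * y.2.2 0 + x.2.1 1 * y.2.2 1 +
    x.2.1 2 * y.2.2 2 - (x.2.2 0 * y.2.1 0 + x.2.2 1 * y.2.1 1 + x.2.2 2 * y.2.1 2)) := by
  simp only [mulf, vec3_dotProduct]

theorem mulf_u0 (x y : C7E F) : (mulf x y).2.1 0 = x.1 * y.2.1 0 - y.1 * x.2.1 0 -
    2 * (x.2.2 1 * y.2.2 2 - x.2.2 2 * y.2.2 1) := by
  change x.1 * y.2.1 0 - y.1 * x.2.1 0 - 2 * ((x.2.2 ⨯₃ y.2.2) 0) = _
  rw [cross_apply]
  rfl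

theorem mulf_u1 (x y : C7E F) : (mulf x y).2.1 1 = x.1 * y.2.1 1 - y.1 * x.2.1 1 -
    2 * (x.2.2 2 * y.2.2 0 - x.2.2 0 * y.2.2 2) := by
  change x.1 * y.2.1 1 - y.1 * x.2.1 1 - 2 * ((x.2.2 ⨯₃ y.2.2) 1) = _
  rw [cross_apply]
  rfl

theorem mulf_u2 (x y : C7E F) : (mulf x y).2.1 2 = x.1 * y.2.1 2 - y.1 * x.2.1 2 -
    2 * (x.2.2 0 * y.2.2 1 - x.2.2 1 * y.2.2 0) := by
  change x.1 * y.2.1 2 - y.1 * x.2.1 2 - 2 * ((x.2.2 ⨯₃ y.2.2) 2) = _
  rw [cross_apply]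
  rfl

theorem mulf_v0 (x y : C7E F) : (mulf x y).2.2 0 = y.1 * x.2.2 0 - x.1 * y.2.2 0 +
    2 * (x.2.1 1 * y.2.1 2 - x.2.1 2 * y.2.1 1) := by
  change y.1 * x.2.2 0 - x.1 * y.2.2 0 + 2 * ((x.2.1 ⨯₃ y.2.1) 0) = _
  rw [cross_apply]
  rfl

theorem mulf_v1 (x y : C7E F) : (mulf x y).2.2 1 = y.1 * x.2.2 1 - x.1 * y.2.2 1 +
    2 * (x.2.1 2 * y.2.1 0 - x.2.1 0 * y.2.1 2) := by
  change y.1 * x.2.2 1 - x.1 * y.2.2 1 + 2 * ((x.2.1 ⨯₃ y.2.1) 1) = _
  rw [cross_apply]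
  rfl

theorem mulf_v2 (x y : C7E F) : (mulf x y).2.2 2 = y.1 * x.2.2 2 - x.1 * y.2.2 2 +
    2 * (x.2.1 0 * y.2.1 1 - x.2.1 1 * y.2.1 0) := by
  change y.1 * x.2.2 2 - x.1 * y.2.2 2 + 2 * ((x.2.1 ⨯₃ y.2.1) 2) = _
  rw [cross_apply]
  rfl

theorem sf_eq (x y : C7E F) : sf x y = - x.1 * y.1 - 2 * (x.2.1 0 * y.2.2 0 + x.2.1 1 * y.2.2 1 +
    x.2.1 2 * y.2.2 2 + (x.2.2 0 * y.2.1 0 + x.2.2 1 * y.2.1 1 + x.2.2 2 * y.2.1 2)) := by
  simp only [sf, vec3_dotProduct]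

theorem mulf_add_left (x x' y : C7E F) : mulf (x + x') y = mulf x y + mulf x' y := by
  refine C7Aux.ext ?_ (C7Aux.ext3 ?_ ?_ ?_) (C7Aux.ext3 ?_ ?_ ?_) <;>
    (simp only [mulf_1, mulf_u0, mulf_u1, mulf_u2, mulf_v0, mulf_v1, mulf_v2, sf_eq,
      Prod.fst_add, Prod.snd_add, Prod.smul_fst, Prod.smul_snd, Pi.add_apply, Pi.smul_apply,
      Prod.fst_sub, Prod.snd_sub, Pi.sub_apply, Prod.fst_zero, Prod.snd_zero, Pi.zero_apply,
      smul_eq_mul]; ring)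

theorem mulf_smul_left (c : F) (x y : C7E F) : mulf (c • x) y = c • mulf x y := by
  refine C7Aux.ext ?_ (C7Aux.ext3 ?_ ?_ ?_) (C7Aux.ext3 ?_ ?_ ?_) <;>
    (simp only [mulf_1, mulf_u0, mulf_u1, mulf_u2, mulf_v0, mulf_v1, mulf_v2, sf_eq,
      Prod.fst_add, Prod.snd_add, Prod.smul_fst, Prod.smul_snd, Pi.add_apply, Pi.smul_apply,
      Prod.fst_sub, Prod.snd_sub, Pi.sub_apply, Prod.fst_zero, Prod.snd_zero, Pi.zero_apply,
      smul_eq_mul]; ring)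

theorem mulf_add_right (x y y' : C7E F) : mulf x (y + y') = mulf x y + mulf x y' := by
  refine C7Aux.ext ?_ (C7Aux.ext3 ?_ ?_ ?_) (C7Aux.ext3 ?_ ?_ ?_) <;>
    (simp only [mulf_1, mulf_u0, mulf_u1, mulf_u2, mulf_v0, mulf_v1, mulf_v2, sf_eq,
      Prod.fst_add, Prod.snd_add, Prod.smul_fst, Prod.smul_snd, Pi.add_apply, Pi.smul_apply,
      Prod.fst_sub, Prod.snd_sub, Pi.sub_apply, Prod.fst_zero, Prod.snd_zero, Pi.zero_apply,
      smul_eq_mul]; ring)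

theorem mulf_smul_right (c : F) (x y : C7E F) : mulf x (c • y) = c • mulf x y := by
  refine C7Aux.ext ?_ (C7Aux.ext3 ?_ ?_ ?_) (C7Aux.ext3 ?_ ?_ ?_) <;>
    (simp only [mulf_1, mulf_u0, mulf_u1, mulf_u2, mulf_v0, mulf_v1, mulf_v2, sf_eq,
      Prod.fst_add, Prod.snd_add, Prod.smul_fst, Prod.smul_snd, Pi.add_apply, Pi.smul_apply,
      Prod.fst_sub, Prod.snd_sub, Pi.sub_apply, Prod.fst_zero, Prod.snd_zero, Pi.zero_apply,
      smul_eq_mul]; ring)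

theorem sf_add_left (x x' y : C7E F) : sf (x + x') y = sf x y + sf x' y := by
  simp only [sf_eq, Prod.fst_add, Prod.snd_add, Pi.add_apply]
  ring

theorem sf_smul_left (c : F) (x y : C7E F) : sf (c • x) y = c • sf x y := by
  simp only [sf_eq, Prod.smul_fst, Prod.smul_snd, Pi.smul_apply, smul_eq_mul]
  ring

theorem sf_add_right (x y y' : C7E F) : sf x (y + y') = sf x y + sf x y' := by
  simp only [sf_eq, Prod.fst_add, Prod.snd_add, Pi.add_apply]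
  ring

theorem sf_smul_right (c : F) (x y : C7E F) : sf x (c • y) = c • sf x y := by
  simp only [sf_eq, Prod.smul_fst, Prod.smul_snd, Pi.smul_apply, smul_eq_mul]
  ring

theorem mulf_self (x : C7E F) : mulf x x = 0 := by
  refine C7Aux.ext ?_ (C7Aux.ext3 ?_ ?_ ?_) (C7Aux.ext3 ?_ ?_ ?_) <;>
    (simp only [mulf_1, mulf_u0, mulf_u1, mulf_u2, mulf_v0, mulf_v1, mulf_v2, sf_eq,
      Prod.fst_add, Prod.snd_add, Prod.smul_fst, Prod.smul_snd, Pi.add_apply, Pi.smul_apply,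
      Prod.fst_sub, Prod.snd_sub, Pi.sub_apply, Prod.fst_zero, Prod.snd_zero, Pi.zero_apply,
      smul_eq_mul]; ring)

theorem sf_symm (x y : C7E F) : sf x y = sf y x := by
  simp only [sf_eq]
  ring

theorem sf_assoc (x y z : C7E F) : sf (mulf x y) z = sf x (mulf y z) := by
  simp only [sf_eq, mulf_1, mulf_u0, mulf_u1, mulf_u2, mulf_v0, mulf_v1, mulf_v2]
  ring

theorem main (x y z : C7E F) : mulf x (mulf y z) + mulf (mulf x y) z =
    (2 * sf x z) • y - sf x y • z - sf y z • x := by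
  refine C7Aux.ext ?_ (C7Aux.ext3 ?_ ?_ ?_) (C7Aux.ext3 ?_ ?_ ?_) <;>
    (simp only [mulf_1, mulf_u0, mulf_u1, mulf_u2, mulf_v0, mulf_v1, mulf_v2, sf_eq,
      Prod.fst_add, Prod.snd_add, Prod.smul_fst, Prod.smul_snd, Pi.add_apply, Pi.smul_apply,
      Prod.fst_sub, Prod.snd_sub, Pi.sub_apply, Prod.fst_zero, Prod.snd_zero, Pi.zero_apply,
      smul_eq_mul]; ring)

end C7Aux

open C7Aux in
/-- the seven-dimensional cross product algebra -/
noncomputable def C7 : CPA F where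
  S := F
  E := C7E F
  mul := LinearMap.mk₂ F (fun x y => (2 * (x.2.1 ⬝ᵥ y.2.2 - x.2.2 ⬝ᵥ y.2.1),
      x.1 • y.2.1 - y.1 • x.2.1 - (2 : F) • (x.2.2 ⨯₃ y.2.2),
      y.1 • x.2.2 - x.1 • y.2.2 + (2 : F) • (x.2.1 ⨯₃ y.2.1)))
    mulf_add_left mulf_smul_left mulf_add_right mulf_smul_right
  s := LinearMap.mk₂ F (fun x y => - x.1 * y.1 - 2 * (x.2.1 ⬝ᵥ y.2.2 + x.2.2 ⬝ᵥ y.2.1))
    sf_add_left sf_smul_left sf_add_right sf_smul_right
  skew := mulf_self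
  symm := sf_symm
  assoc := sf_assoc
  main := main

namespace C7Aux

variable {F}

/-- the coordinate vector with index `0` -/
def E0 : C7E F := (1, 0, 0)

/-- the coordinate vectors of the first half -/
def Ei (i : Fin 3) : C7E F := (0, Pi.single i 1, 0)

/-- the coordinate vectors of the second half -/
def Fi (i : Fin 3) : C7E F := (0, 0, Pi.single i 1)

theorem sf_E0 (x : C7E F) : sf E0 x = - x.1 := by
  simp [sf, E0]

theorem sf_Ei (i : Fin 3) (x : C7E F) : sf (Ei i) x = -(2 * x.2.2 i) := by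
  simp [sf, Ei]

theorem sf_Fi (i : Fin 3) (x : C7E F) : sf (Fi i) x = -(2 * x.2.1 i) := by
  simp [sf, Fi]

theorem s_eq (x y : (C7 F).E) : (C7 F).s x y = sf x y := rfl

theorem mul_eq (x y : (C7 F).E) : (C7 F).mul x y = mulf x y := rfl

section

variable (A : CPA F)

theorem sT_1 (a : A.E) (r : A.S) : A.sT a (r, 0, 0) = r • a := by
  simp [CPA.sT]

theorem sT_2 (a e : A.E) : A.sT a (0, e, 0) = A.mul a e := by
  simp [CPA.sT]

theorem sT_3 (a b c : A.E) : A.sT a (0, 0, b ⊗ₜ c) = A.s a b • c := by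
  simp [CPA.sT]

theorem tauT_1 (r : A.S) : A.tauT (r, 0, 0) = 7 * r := by
  simp [CPA.tauT]

theorem tauT_2 (e : A.E) : A.tauT (0, e, 0) = 0 := by
  simp [CPA.tauT]

theorem tauT_3 (b c : A.E) : A.tauT (0, 0, b ⊗ₜ c) = A.s b c := by
  simp [CPA.tauT]

end

/-- the trace in terms of the form -/
def TP (w : (C7 F).WT) : Prop :=
  (2 : (C7 F).S) * (C7 F).tauT w + 2 * (C7 F).s (E0 : C7E F) ((C7 F).sT (E0 : C7E F) w) +
    ∑ i : Fin 3, ((C7 F).s (Fi i : C7E F) ((C7 F).sT (Ei i : C7E F) w) +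
      (C7 F).s (Ei i : C7E F) ((C7 F).sT (Fi i : C7E F) w)) = 0

theorem TP_add {w w' : (C7 F).WT} (h : TP w) (h' : TP w') : TP (w + w') := by
  unfold TP at *
  simp only [map_add, Finset.sum_add_distrib] at *
  linear_combination h + h'

theorem TP_1 (r : F) : TP ((r, 0, 0) : (C7 F).WT) := by
  unfold TP
  rw [tauT_1]
  simp only [sT_1, map_smul]
  simp only [s_eq]
  change (2 : F) * (7 * r) + 2 * (r * sf E0 E0) + ∑ i : Fin 3, (r * sf (Fi i) (Ei i) +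
    r * sf (Ei i) (Fi i)) = 0
  simp only [sf_E0, sf_Ei, sf_Fi, Fin.sum_univ_three]
  simp only [E0, Ei, Fi, Pi.single_eq_same]
  ring

theorem TP_2 (e : (C7 F).E) : TP ((0, e, 0) : (C7 F).WT) := by
  unfold TP
  rw [tauT_2]
  simp only [sT_2]
  simp only [s_eq, mul_eq]
  change (2 : F) * 0 + 2 * (sf E0 (mulf E0 e)) + ∑ i : Fin 3, (sf (Fi i) (mulf (Ei i) e) +
    sf (Ei i) (mulf (Fi i) e)) = 0
  simp only [sf_E0, sf_Ei, sf_Fi, Fin.sum_univ_three]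
  simp only [mulf_1, mulf_u0, mulf_u1, mulf_u2, mulf_v0, mulf_v1, mulf_v2]
  simp only [E0, Ei, Fi, Pi.zero_apply]
  simp

theorem TP_3 (b c : (C7 F).E) : TP ((0, 0, b ⊗ₜ c) : (C7 F).WT) := by
  unfold TP
  rw [tauT_3]
  simp only [sT_3, map_smul]
  simp only [s_eq]
  change (2 : F) * (sf b c) + 2 * (sf E0 b * sf E0 c) + ∑ i : Fin 3, (sf (Ei i) b * sf (Fi i) c +
    sf (Fi i) b * sf (Ei i) c) = 0
  simp only [sf_E0, sf_Ei, sf_Fi, Fin.sum_univ_three]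
  rw [sf_eq]
  ring

theorem gram [CharZero F] (a b c : F) : ∃ x y : C7E F, sf x x = a ∧ sf x y = b ∧ sf y y = c := by
  have h2 : (2 : F) ≠ 0 := two_ne_zero
  have h4 : (4 : F) ≠ 0 := by norm_num
  refine ⟨((0, ![1, 0, 0], ![-a / 4, 0, 0]) : C7E F), ((0, ![0, 1, 0], ![-b / 2, -c / 4, 0]) : C7E F),
    ?_, ?_, ?_⟩
  · rw [sf_eq]
    simp
    field_simp
    ring
  · rw [sf_eq]
    simp
    field_simp
  · rw [sf_eq]
    simp
    field_simp
    ring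

theorem TP_all (w : (C7 F).WT) : TP w := by
  obtain ⟨r, e, t⟩ := w
  have e1 : ((r, e, t) : (C7 F).WT) = (r, 0, 0) + ((0, e, 0) + (0, 0, t)) := by
    simp
  rw [e1]
  refine TP_add (TP_1 (F := F) r) (TP_add (TP_2 (F := F) e) ?_)
  induction t using TensorProduct.induction_on with
  | zero =>
    have := TP_1 (F := F) 0
    exact this
  | tmul b c => exact TP_3 (F := F) b c
  | add t t' h h' =>
    have e2 : ((0, 0, t + t') : (C7 F).WT) = (0, 0, t) + (0, 0, t') := by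
      simp
    rw [e2]
    exact TP_add (h (by simp)) (h' (by simp))

end C7Aux

open C7Aux in
theorem C7_nondeg [CharZero F] (x : (C7 F).E) (h : ∀ y, (C7 F).s x y = 0) : x = 0 := by
  have h' : ∀ y : C7E F, sf y x = 0 := fun y => by
    rw [sf_symm]
    exact h y
  have h2 : (2 : F) ≠ 0 := two_ne_zero
  have hu : ∀ i, (x : C7E F).2.1 i = 0 := fun i => by
    have := h' (Fi i)
    rw [sf_Fi, neg_eq_zero, mul_eq_zero] at this
    exact this.resolve_left h2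
  have hv : ∀ i, (x : C7E F).2.2 i = 0 := fun i => by
    have := h' (Ei i)
    rw [sf_Ei, neg_eq_zero, mul_eq_zero] at this
    exact this.resolve_left h2
  have h0 : (x : C7E F).1 = 0 := by
    have := h' E0
    rwa [sf_E0, neg_eq_zero] at this
  exact C7Aux.ext h0 (funext hu) (funext hv)

open C7Aux in
/-- all Gram matrices occur -/
theorem C7_gram [CharZero F] (a b c : F) : ∃ x y : (C7 F).E,
    (C7 F).s x x = a ∧ (C7 F).s x y = b ∧ (C7 F).s y y = c :=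
  gram a b c

open C7Aux in
/-- the trace of an operator which vanishes on `C7` -/
theorem C7_tau [CharZero F] (w : (C7 F).W) (h : ∀ v, (C7 F).sW v w = 0) :
    (C7 F).tau w = 0 := by
  obtain ⟨w, rfl⟩ := (C7 F).mkW_surj w
  rw [CPA.tau_mk]
  have hT : ∀ v, (C7 F).sT v w = 0 := fun v => by
    rw [← CPA.sW_mk]
    exact h v
  have := TP_all w
  unfold TP at this
  simp only [hT, map_zero, mul_zero, add_zero, Finset.sum_const_zero] at this
  have h2 : (2 : F) ≠ 0 := two_ne_zero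
  have h3 : ∀ t : F, 2 * t = 0 → t = 0 := fun t ht => (mul_eq_zero.mp ht).resolve_left h2
  exact h3 _ this

end Pool.Agent.Malc
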