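import Pool.Agent.Malc.NFGrad

/-! # The contraction -/

set_option autoImplicit false

open scoped TensorProduct

namespace Pool.Agent.Malc

universe u

open CPA

variable {F : Type u} [Field F] [CharZero F]

variable {ι : Type} [DecidableEq ι]

namespace NFPhiAux

theorem Tr_add (A : CPA F) (x y : A.ext.ext.S) : A.Tr (x + y) = A.Tr x + A.Tr y := by
  show A.tau (EE.w (SE.g x) + EE.w (SE.g y)) = A.tau (EE.w (SE.g x)) + A.tau (EE.w (SE.g y))
  rw [map_add]

theorem Tr_mul (A : CPA F) (r : A.S) (x : A.ext.ext.S) :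
    A.Tr (A.ext.incl.φ (A.incl.φ r) * x) = r * A.Tr x := by
  show A.tau (r • EE.w (SE.g x) + EE.tenL A (EE.a (SE.g x)) 0 +
    (SE.r (SE.r x) • (0 : A.W) + EE.tenL A 0 (SE.g (SE.r x)))) = r * A.tau (EE.w (SE.g x))
  rw [map_zero, map_zero, LinearMap.zero_apply, smul_zero, add_zero, add_zero, add_zero, map_smul,
    smul_eq_mul]

theorem in2_add (A : CPA F) (a b : A.E) : A.in2 (a + b) = A.in2 a + A.in2 b := by
  unfold CPA.in2
  rw [map_add, map_add]

theorem in2_smul (A : CPA F) (r : A.S) (a : A.E) :
    A.in2 (r • a) = A.ext.incl.φ (A.incl.φ r) • A.in2 a := by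
  unfold CPA.in2
  rw [LinearMap.map_smulₛₗ, LinearMap.map_smulₛₗ]
  rfl

theorem op2_add (A : CPA F) (w w' : A.W) : A.op2 (w + w') = A.op2 w + A.op2 w' := by
  apply EE.ext
  · exact (add_zero (0 : A.ext.E)).symm
  · exact map_add (mapW A.incl) w w'

theorem op2_smul (A : CPA F) (r : A.S) (w : A.W) :
    A.op2 (r • w) = A.ext.incl.φ (A.incl.φ r) • A.op2 w := by
  apply EE.ext
  · exact (smul_zero (A.incl.φ r)).symm
  · show mapW A.incl (r • w) = A.incl.φ r • mapW A.incl w + EE.tenL A.ext 0 0
    rw [map_zero, add_zero, LinearMap.map_smulₛₗ]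
    rfl

/-- a first order scalar -/
noncomputable def gS (A : CPA F) (c : A.E) : A.ext.ext.S := (⟨0, A.incl.ψ c⟩ : A.ext.SE)

theorem op2_ten (A : CPA F) (b c : A.E) :
    A.op2 (A.mkW (A.ten b c)) = gS A c • A.in2 b := by
  apply EE.ext
  · exact (zero_smul A.ext.S (A.incl.ψ b)).symm
  · show mapW A.incl (A.mkW (A.ten b c)) =
      (0 : A.ext.S) • (0 : A.ext.W) + EE.tenL A.ext (A.incl.ψ b) (A.incl.ψ c)
    rw [smul_zero, zero_add, mapW_mk, mapT_ten, EE.tenL_apply]

/-- the trace of the product with a first order scalar -/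
theorem Tr_g (A : CPA F) (c : A.E) (t : A.ext.S) :
    A.Tr (gS A c * A.ext.incl.φ t) = A.s c (SE.g t) := by
  show A.tau (SE.r (0 : A.ext.S) • (0 : A.W) + EE.tenL A 0 (SE.g (0 : A.ext.S)) +
    (SE.r t • (0 : A.W) + EE.tenL A c (SE.g t))) = A.s c (SE.g t)
  rw [map_zero, LinearMap.zero_apply, smul_zero, smul_zero, zero_add, zero_add, zero_add,
    EE.tenL_apply, tau_mk]
  show 7 * (0 : A.S) + TensorProduct.lift A.s (c ⊗ₜ SE.g t) = A.s c (SE.g t)
  rw [mul_zero, zero_add, TensorProduct.lift.tmul]

theorem mapW_incl {A B : CPA F} (h : Hom A B) (w : A.W) :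
    mapW (mapE h) (mapW A.incl w) = mapW B.incl (mapW h w) := by
  obtain ⟨w, rfl⟩ := A.mkW_surj w
  rw [mapW_mk, mapW_mk, mapW_mk, mapW_mk]
  congr 1
  obtain ⟨r, e, t⟩ := w
  have he : ∀ e : A.E, (mapE h).ψ (A.incl.ψ e) = B.incl.ψ (h.ψ e) := by
    intro e
    apply EE.ext
    · rfl
    · exact map_zero (mapW h)
  refine Prod.ext ?_ (Prod.ext ?_ ?_)
  · apply SE.ext
    · rfl
    · exact map_zero h.ψ
  · exact he e
  · show TensorProduct.map (mapE h).ψ (mapE h).ψ (TensorProduct.map A.incl.ψ A.incl.ψ t) =
      TensorProduct.map B.incl.ψ B.incl.ψ (TensorProduct.map h.ψ h.ψ t)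
    induction t using TensorProduct.induction_on with
    | zero => simp
    | add x y hx hy => simp only [map_add, hx, hy]
    | tmul x y => simp only [TensorProduct.map_tmul, he]

theorem mapE_in2 {A B : CPA F} (h : Hom A B) (a : A.E) :
    (mapE (mapE h)).ψ (A.in2 a) = B.in2 (h.ψ a) := by
  apply EE.ext
  · apply EE.ext
    · rfl
    · exact map_zero (mapW h)
  · exact map_zero (mapW (mapE h))

theorem mapE_op2 {A B : CPA F} (h : Hom A B) (w : A.W) :
    (mapE (mapE h)).ψ (A.op2 w) = B.op2 (mapW h w) := by
  apply EE.ext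
  · exact map_zero (mapE h).ψ
  · exact mapW_incl h w

theorem mapE_Z2 {A B : CPA F} (h : Hom A B) : (mapE (mapE h)).ψ A.Z2 = B.Z2 := by
  apply EE.ext
  · apply EE.ext
    · exact map_zero h.ψ
    · show mapW h (A.mkW (1, 0, 0)) = B.mkW (1, 0, 0)
      rw [mapW_mk]
      congr 1
      refine Prod.ext ?_ (Prod.ext ?_ ?_)
      · exact map_one h.φ
      · exact map_zero h.ψ
      · exact map_zero (TensorProduct.map h.ψ h.ψ)
  · exact map_zero (mapW (mapE h))

theorem Tr_nat {A B : CPA F} (h : Hom A B) (t : A.ext.ext.S) :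
    h.φ (A.Tr t) = B.Tr ((mapE (mapE h)).φ t) := by
  show h.φ (A.tau (EE.w (SE.g t))) = B.tau (mapW h (EE.w (SE.g t)))
  rw [tau_mapW]

/-- three updates -/
theorem upd3 {α : Type*} (X : ι → α) (p q i : ι) (hp : i ≠ p) (hq : i ≠ q) (P Q u : α) :
    Function.update (Function.update (Function.update X i u) p P) q Q =
      Function.update (Function.update (Function.update X p P) q Q) i u := by
  rw [Function.update_comm hp, Function.update_comm hq]

theorem in2_update (A : CPA F) (x : ι → A.E) (i : ι) (a : A.E) :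
    (fun j => A.in2 (Function.update x i a j)) =
      Function.update (fun j => A.in2 (x j)) i (A.in2 a) := by
  funext j
  by_cases hj : j = i
  · subst hj
    rw [Function.update_self, Function.update_self]
  · rw [Function.update_of_ne hj, Function.update_of_ne hj]

end NFPhiAux

open NFPhiAux

namespace NF

variable (f : NF F ι)

theorem Phi_add (p q : ι) (hpq : p ≠ q) (A : CPA F) (x : ι → A.E) (w w' : A.W) :
    f.Phi p q A x (w + w') = f.Phi p q A x w + f.Phi p q A x w' := by
  unfold Phi
  rw [Function.update_comm hpq, Function.update_comm hpq, Function.update_comm hpq, op2_add,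
    MultilinearMap.map_update_add, Tr_add]

theorem Phi_smul (p q : ι) (hpq : p ≠ q) (A : CPA F) (x : ι → A.E) (r : A.S) (w : A.W) :
    f.Phi p q A x (r • w) = r * f.Phi p q A x w := by
  unfold Phi
  rw [Function.update_comm hpq, Function.update_comm hpq, op2_smul,
    MultilinearMap.map_update_smul, smul_eq_mul, Tr_mul]

theorem Phi_ten [Fintype ι] (p q : ι) (hpq : p ≠ q) (A : CPA F) (x : ι → A.E) (b c : A.E) :
    f.Phi p q A x (A.mkW (A.ten b c)) = f.f A (Function.update (Function.update x p b) q c) := by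
  unfold Phi
  rw [Function.update_comm hpq, op2_ten]
  have h1 : f.f A.ext.ext (Function.update (Function.update (fun i => A.in2 (x i)) q A.Z2) p
      (gS A c • A.in2 b)) = gS A c *
      f.f A.ext.ext (Function.update (Function.update (fun i => A.in2 (x i)) q A.Z2) p (A.in2 b)) :=
    MultilinearMap.map_update_smul _ _ _ _ _
  rw [h1]
  have h2 : (Function.update (Function.update (fun i => A.in2 (x i)) q A.Z2) p (A.in2 b)) =
      fun i => A.ext.incl.ψ
        (Function.update (fun i => A.incl.ψ (Function.update x p b i)) q A.Y i) := by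
    funext i
    by_cases hi : i = q
    · subst hi
      rw [Function.update_of_ne (Ne.symm hpq), Function.update_self, Function.update_self]
      rfl
    · rw [Function.update_of_ne hi]
      by_cases hj : i = p
      · subst hj
        rw [Function.update_self, Function.update_self]
        rfl
      · rw [Function.update_of_ne hj, Function.update_of_ne hi, Function.update_of_ne hj]
        rfl
  rw [h2, ← f.nat A.ext.incl, Tr_g]
  have h3 := (f.grad q A (Function.update x p b) c).2
  rw [A.symm]
  exact h3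

/-- additivity in the other arguments -/
theorem Phi_upd_add (p q i : ι) (hp : i ≠ p) (hq : i ≠ q) (A : CPA F) (x : ι → A.E) (a b : A.E)
    (w : A.W) : f.Phi p q A (Function.update x i (a + b)) w =
      f.Phi p q A (Function.update x i a) w + f.Phi p q A (Function.update x i b) w := by
  unfold Phi
  rw [in2_update, in2_update, in2_update, upd3 _ p q i hp hq, upd3 _ p q i hp hq,
    upd3 _ p q i hp hq, in2_add, MultilinearMap.map_update_add, Tr_add]

theorem Phi_upd_smul (p q i : ι) (hp : i ≠ p) (hq : i ≠ q) (A : CPA F) (x : ι → A.E) (r : A.S)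
    (a : A.E) (w : A.W) : f.Phi p q A (Function.update x i (r • a)) w =
      r * f.Phi p q A (Function.update x i a) w := by
  unfold Phi
  rw [in2_update, in2_update, upd3 _ p q i hp hq, upd3 _ p q i hp hq, in2_smul,
    MultilinearMap.map_update_smul, smul_eq_mul, Tr_mul]

/-- the arguments `p` and `q` do not matter -/
theorem Phi_congr (p q : ι) (A : CPA F) (x x' : ι → A.E) (h : ∀ i, i ≠ p → i ≠ q → x i = x' i)
    (w : A.W) : f.Phi p q A x w = f.Phi p q A x' w := by
  unfold Phi
  congr 2
  funext i
  by_cases hq : i = q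
  · subst hq
    rw [Function.update_self, Function.update_self]
  · rw [Function.update_of_ne hq, Function.update_of_ne hq]
    by_cases hp : i = p
    · subst hp
      rw [Function.update_self, Function.update_self]
    · rw [Function.update_of_ne hp, Function.update_of_ne hp, h i hp hq]

theorem Phi_nat (p q : ι) {A B : CPA F} (h : Hom A B) (x : ι → A.E) (w : A.W) :
    h.φ (f.Phi p q A x w) = f.Phi p q B (fun i => h.ψ (x i)) (mapW h w) := by
  unfold Phi
  rw [Tr_nat, f.nat (mapE (mapE h))]
  congr 2
  funext i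
  by_cases hq : i = q
  · subst hq
    rw [Function.update_self, Function.update_self, mapE_Z2]
  · rw [Function.update_of_ne hq, Function.update_of_ne hq]
    by_cases hp : i = p
    · subst hp
      rw [Function.update_self, Function.update_self, mapE_op2]
    · rw [Function.update_of_ne hp, Function.update_of_ne hp, mapE_in2]

end NF

end Pool.Agent.Malc
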