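import Pool.Agent.Malc.C7
import Pool.Agent.Malc.NFPhi

/-! # The contraction on C7 -/

set_option autoImplicit false

open scoped TensorProduct

namespace Pool.Agent.Malc

universe u

open CPA

variable {F : Type u} [Field F] [CharZero F]

variable {ι : Type} [DecidableEq ι]

namespace C7PhiAux

omit [CharZero F] in
theorem evT_mapT {A B : CPA F} (h : Hom A B) (v : A.E) (w : A.WT) :
    B.evT (h.ψ v) (mapT h w) = h.ψ (A.evT v w) := by
  obtain ⟨r, e, t⟩ := w
  have ht : h.ψ (TensorProduct.lift ((LinearMap.lsmul A.S A.E).flip.compl₂ (A.s v)) t) =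
      TensorProduct.lift ((LinearMap.lsmul B.S B.E).flip.compl₂ (B.s (h.ψ v)))
        (TensorProduct.map h.ψ h.ψ t) := by
    induction t using TensorProduct.induction_on with
    | zero => simp
    | add x y hx hy => simp only [map_add, hx, hy]
    | tmul x y =>
      rw [TensorProduct.map_tmul, evT_lift, evT_lift, LinearMap.map_smulₛₗ, ← h.map_s]
      rfl
  show h.φ r • h.ψ v + B.mul (h.ψ e) (h.ψ v) +
      TensorProduct.lift ((LinearMap.lsmul B.S B.E).flip.compl₂ (B.s (h.ψ v)))
        (TensorProduct.map h.ψ h.ψ t) =
    h.ψ (r • v + A.mul e v +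
      TensorProduct.lift ((LinearMap.lsmul A.S A.E).flip.compl₂ (A.s v)) t)
  rw [map_add, map_add, ht, h.map_mul, LinearMap.map_smulₛₗ]
  rfl

theorem evW_mapW {A B : CPA F} (h : Hom A B) (v : A.E) (w : A.W) :
    B.evW (h.ψ v) (mapW h w) = h.ψ (A.evW v w) := by
  obtain ⟨w, rfl⟩ := A.mkW_surj w
  rw [mapW_mk, evW_mk, evW_mk, evT_mapT]

/-- the operator form of the gradient -/
theorem gradW [Fintype ι] (f : NF F ι) (p : ι) (B : CPA F) (x : ι → B.E) (w : B.W) (v : B.E) :
    B.s (SE.g (f.f B.ext (Function.update (fun i => B.incl.ψ (x i)) p (B.inW w)))) v =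
      f.f B (Function.update x p (B.evW v w)) := by
  have h1 := f.nat (B.evd v) (Function.update (fun i => B.incl.ψ (x i)) p (B.inW w))
  have h2 : (fun i => (B.evd v).ψ (Function.update (fun i => B.incl.ψ (x i)) p (B.inW w) i)) =
      fun i => (⟨Function.update x p 0 i, Function.update (fun _ => (0 : B.E)) p (B.evW v w) i⟩ :
        B.ED) := by
    funext i
    by_cases hi : i = p
    · subst hi
      simp only [Function.update_self]
      rw [evd_ψ]
      rfl
    · simp only [Function.update_of_ne hi]
      rw [evd_ψ, incl_ψ]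
      apply ED.ext
      · rfl
      · exact map_zero (B.evW v)
  rw [h2, f.expand] at h1
  have h3 := congrArg SD.t h1
  rw [evd_φ] at h3
  have h4 : ∑ i, f.f B (Function.update (Function.update x p 0) i
      (Function.update (fun _ => (0 : B.E)) p (B.evW v w) i)) =
      f.f B (Function.update x p (B.evW v w)) := by
    rw [Finset.sum_eq_single p]
    · rw [Function.update_self, Function.update_idem]
    · intro i _ hi
      rw [Function.update_of_ne hi]
      exact (f.f B).map_update_zero _ _
    · intro hp
      exact absurd (Finset.mem_univ p) hp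
  rw [← h4]
  exact h3

/-- the operators in the gradient of a family which vanishes on `C` vanish on `C` -/
theorem sW_zero [Fintype ι] (f : NF F ι) (C : CPA F) (hnd : ∀ x : C.E, (∀ y, C.s x y = 0) → x = 0)
    (h : ∀ x, f.f C x = 0) (p q : ι) (hpq : p ≠ q) (x : ι → C.E) (w : C.W) (v0 : C.E) :
    C.sW v0 (EE.w (SE.g (f.f C.ext.ext (Function.update
      (Function.update (fun i => C.in2 (x i)) p (C.op2 w)) q C.Z2)))) = 0 := by
  let x' : ι → C.ext.E := Function.update (fun i => C.incl.ψ (x i)) q C.Y
  have e1 : Function.update (Function.update (fun i => C.in2 (x i)) p (C.op2 w)) q C.Z2 =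
      Function.update (fun i => C.ext.incl.ψ (x' i)) p (C.ext.inW (mapW C.incl w)) := by
    funext i
    by_cases hq : i = q
    · subst hq
      rw [Function.update_self, Function.update_of_ne (Ne.symm hpq)]
      show C.Z2 = C.ext.incl.ψ (Function.update (fun i => C.incl.ψ (x i)) i C.Y i)
      rw [Function.update_self]
      rfl
    · rw [Function.update_of_ne hq]
      by_cases hp : i = p
      · subst hp
        rw [Function.update_self, Function.update_self]
        rfl
      · rw [Function.update_of_ne hp, Function.update_of_ne hp]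
        show C.in2 (x i) = C.ext.incl.ψ (Function.update (fun i => C.incl.ψ (x i)) q C.Y i)
        rw [Function.update_of_ne hq]
        rfl
  have e2 : ∀ v0 : C.E, C.ext.s (SE.g (f.f C.ext.ext (Function.update
      (Function.update (fun i => C.in2 (x i)) p (C.op2 w)) q C.Z2))) (C.incl.ψ v0) = 0 := by
    intro v0
    rw [e1, C7PhiAux.gradW, C7PhiAux.evW_mapW]
    have e3 : Function.update x' p (C.incl.ψ (C.evW v0 w)) =
        Function.update (fun i => C.incl.ψ (Function.update x p (C.evW v0 w) i)) q C.Y := by
      funext i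
      by_cases hq : i = q
      · subst hq
        rw [Function.update_self, Function.update_of_ne (Ne.symm hpq)]
        exact Function.update_self _ _ _
      · rw [Function.update_of_ne hq]
        by_cases hp : i = p
        · subst hp
          rw [Function.update_self, Function.update_self]
        · rw [Function.update_of_ne hp, Function.update_of_ne hp]
          exact Function.update_of_ne hq _ _
    rw [e3]
    have e4 := fun u => f.grad q C (Function.update x p (C.evW v0 w)) u
    apply SE.ext
    · exact (e4 0).1
    · apply hnd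
      intro u
      exact ((e4 u).2).trans (h _)
  have e5 := congrArg SE.g (e2 v0)
  rw [ext_s] at e5
  have e6 : C.sW (EE.a (SE.g (f.f C.ext.ext (Function.update
      (Function.update (fun i => C.in2 (x i)) p (C.op2 w)) q C.Z2)))) (EE.w (C.incl.ψ v0)) = 0 :=
    map_zero _
  have e7 : C.sW (EE.a (SE.g (f.f C.ext.ext (Function.update
      (Function.update (fun i => C.in2 (x i)) p (C.op2 w)) q C.Z2)))) (EE.w (C.incl.ψ v0)) +
      C.sW v0 (EE.w (SE.g (f.f C.ext.ext (Function.update
      (Function.update (fun i => C.in2 (x i)) p (C.op2 w)) q C.Z2)))) = 0 := e5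
  rw [e6, zero_add] at e7
  exact e7

end C7PhiAux

namespace NF

variable (f : NF F ι)

variable {f}

/-- if `f` vanishes on `C7` then so do the contractions -/
theorem C7_Phi [Fintype ι] (h : ∀ x, f.f (C7 F) x = 0) (p q : ι) (hpq : p ≠ q)
    (x : ι → (C7 F).E) (w : (C7 F).W) : f.Phi p q (C7 F) x w = 0 := by
  exact C7_tau F _ (C7PhiAux.sW_zero f (C7 F) (fun x hx => C7_nondeg F x hx) h p q hpq x w)

end NF

end Pool.Agent.Malc
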