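import Pool.Agent.Malc.C6
import Pool.Agent.Malc.BhE2

/-! # Part C: seven letters, the elements `Fp a b`, relations -/

set_option autoImplicit false

open scoped BigOperators

namespace Pool.Agent.Malc

universe u v

section

variable (F : Type u) [Field F] [CharZero F] {A : Type v} [NonUnitalNonAssocRing A] [Module F A]
  [IsScalarTower F A A] [SMulCommClass F A A]

/-- (R7) linearised: replace `x` in `base_R7` by `r a + s b + t c`; or: `f x y z = ee F x0 x1 x2 x3 x y * z` is trilinear and vanishes for `x = y = z`; the full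
polarisation is `f(a+b+c) - f(a+b) - f(a+c) - f(b+c) + f(a) + f(b) + f(c)`. -/
theorem R7p (h : IsMalcev A) (x0 x1 x2 x3 a b c : A) :
    ee F x0 x1 x2 x3 a b * c + ee F x0 x1 x2 x3 a c * b + ee F x0 x1 x2 x3 b a * c +
      ee F x0 x1 x2 x3 b c * a + ee F x0 x1 x2 x3 c a * b + ee F x0 x1 x2 x3 c b * a = 0 := by
  have H := fun x => base_R7 F h x0 x1 x2 x3 x
  have key : ee F x0 x1 x2 x3 a b * c + ee F x0 x1 x2 x3 a c * b + ee F x0 x1 x2 x3 b a * c +
      ee F x0 x1 x2 x3 b c * a + ee F x0 x1 x2 x3 c a * b + ee F x0 x1 x2 x3 c b * a =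
      ee F x0 x1 x2 x3 (a + b + c) (a + b + c) * (a + b + c)
        - ee F x0 x1 x2 x3 (a + b) (a + b) * (a + b)
        - ee F x0 x1 x2 x3 (a + c) (a + c) * (a + c)
        - ee F x0 x1 x2 x3 (b + c) (b + c) * (b + c)
        + ee F x0 x1 x2 x3 a a * a + ee F x0 x1 x2 x3 b b * b + ee F x0 x1 x2 x3 c c * c := by
    simp only [ee_add4, ee_addy, add_mul, mul_add]
    abel
  rw [key]
  simp only [H]
  simp

end

variable {F : Type u} [Field F] [CharZero F]

namespace C7aAux

open FreeMalcev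

omit [CharZero F] in
/-- sign of a permutation of a product of letters -/
theorem px_perm {l l' : List ℕ} (h : l.Perm l') : ∃ e : F, e * e = 1 ∧ e • px F l = px F l' := by
  rcases (px_skew F l.length).perm h rfl with h1 | h1
  · exact ⟨1, by ring, by rw [one_smul]; exact h1⟩
  · refine ⟨-1, by ring, ?_⟩
    rw [neg_smul, one_smul, neg_eq_iff_eq_neg]
    exact h1

omit [CharZero F] in
theorem px_toList_ne {L : Finset ℕ} : px F L.toList ≠ 0 := px_ne_zero F L.nodup_toList

/-- the standard list of the letters different from `a`, `b` -/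
noncomputable def Xs (L : Finset ℕ) (a b : ℕ) : List ℕ := ((L.erase a).erase b).toList

theorem Xs_coe {L : Finset ℕ} {a b : ℕ} (ha : a ∈ L) (hb : b ∈ L) (hab : a ≠ b) :
    (Xs L a b : Multiset ℕ) + {b} + {a} = L.val := by
  have h1 : b ∈ L.erase a := Finset.mem_erase.2 ⟨fun h => hab h.symm, hb⟩
  have h2 : ((Xs L a b : List ℕ) : Multiset ℕ) = ((L.erase a).erase b).val := by
    unfold Xs
    exact Finset.coe_toList _
  rw [h2, Finset.erase_val, Finset.erase_val, add_comm _ ({b} : Multiset ℕ), Multiset.singleton_add,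
    Multiset.cons_erase (by rw [← Finset.erase_val]; exact h1), add_comm _ ({a} : Multiset ℕ),
    Multiset.singleton_add, Multiset.cons_erase ha]

theorem Xs_length {L : Finset ℕ} (hL : L.card = 7) {a b : ℕ} (ha : a ∈ L) (hb : b ∈ L)
    (hab : a ≠ b) : (Xs L a b).length = 5 := by
  have h := congrArg Multiset.card (Xs_coe ha hb hab)
  simp only [Multiset.card_add, Multiset.coe_card, Multiset.card_singleton, Finset.card_val] at h
  omega

theorem length_of {L : Finset ℕ} (hL : L.card = 7) {a b : ℕ} {X : List ℕ}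
    (h : (X : Multiset ℕ) + {b} + {a} = L.val) : X.length = 5 := by
  have h := congrArg Multiset.card h
  simp only [Multiset.card_add, Multiset.coe_card, Multiset.card_singleton, Finset.card_val] at h
  omega

theorem mem_of {L : Finset ℕ} {a b : ℕ} {X : List ℕ}
    (h : (X : Multiset ℕ) + {b} + {a} = L.val) : a ∈ L ∧ b ∈ L ∧ a ≠ b := by
  have hn : ((X : Multiset ℕ) + {b} + {a}).Nodup := by rw [h]; exact L.nodup
  refine ⟨?_, ?_, ?_⟩
  · have : a ∈ L.val := by rw [← h]; simp
    exact this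
  · have : b ∈ L.val := by rw [← h]; simp
    exact this
  · intro hab
    subst hab
    rw [Multiset.nodup_add] at hn
    exact (Multiset.disjoint_left.1 hn.2.2) (by simp : a ∈ (X : Multiset ℕ) + {a}) (by simp)

theorem perm_of {L : Finset ℕ} {a b : ℕ} {X X' : List ℕ}
    (h : (X : Multiset ℕ) + {b} + {a} = L.val) (h' : (X' : Multiset ℕ) + {b} + {a} = L.val) :
    X.Perm X' := by
  rw [← h'] at h
  exact Multiset.coe_eq_coe.1 (add_right_cancel (add_right_cancel h))

theorem exists_tau {L : Finset ℕ} {a b : ℕ} {X : List ℕ}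
    (h : (X : Multiset ℕ) + {b} + {a} = L.val) :
    ∃ τ : F, τ * τ = 1 ∧ τ • px F (X ++ [b, a]) = px F L.toList := by
  refine px_perm (Multiset.coe_eq_coe.1 ?_)
  rw [Finset.coe_toList, ← h, add_assoc, ← Multiset.coe_singleton, ← Multiset.coe_singleton,
    Multiset.coe_add, Multiset.coe_add]
  rfl

/-- the pair (word, product of letters) is skew in the list -/
theorem pair_skew (a b : ℕ) : SkewL 5 (fun l : List ℕ =>
    ((ew F (l.map of ++ [of b]) (of a) : FreeMalcev F ℕ), px F (l ++ [b, a]))) := by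
  intro l1 x y l2 hn
  have h5 : 5 ≤ ((l1 ++ x :: y :: l2).map (of : ℕ → FreeMalcev F ℕ)).length := by
    rw [List.length_map, hn]
  have h5' : 5 ≤ ((l1 ++ y :: x :: l2).map (of : ℕ → FreeMalcev F ℕ)).length := by
    rw [List.length_map]
    simp only [List.length_append, List.length_cons] at hn ⊢
    omega
  refine Prod.ext ?_ ?_
  · show ew F ((l1 ++ x :: y :: l2).map of ++ [of b]) (of a) =
      - ew F ((l1 ++ y :: x :: l2).map of ++ [of b]) (of a)
    rw [ew_append F h5, ew_append F h5', List.map_append, List.map_append, List.map_cons,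
      List.map_cons, List.map_cons, List.map_cons]
    have h := ew_skew5 (F := F) (of a : FreeMalcev F ℕ) (l1.map of) (of x) (of y) (l2.map of)
      (by simp only [List.length_append, List.length_cons, List.length_map] at hn ⊢; omega)
    simp only at h
    rw [h, neg_mul]
  · show px F ((l1 ++ x :: y :: l2) ++ [b, a]) = - px F ((l1 ++ y :: x :: l2) ++ [b, a])
    rw [px_append F (l1 ++ x :: y :: l2) [b, a], px_append F (l1 ++ y :: x :: l2) [b, a]]
    have h := px_skew F 5 l1 x y l2 hn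
    simp only at h
    rw [h, neg_mul]

/-- the value of `Fp` from the list of length five -/
theorem Fp_val {L : Finset ℕ} {Fp : ℕ → ℕ → FreeMalcev F ℕ}
    (hFp : ∀ (X : List ℕ) (a b : ℕ), (X : Multiset ℕ) + {b} + {a} = L.val → ∃ τ : F, τ * τ = 1 ∧
      τ • px F (X ++ [b, a]) = px F L.toList ∧
      ew F (X.map FreeMalcev.of ++ [FreeMalcev.of b]) (FreeMalcev.of a) = τ • Fp a b)
    {X : List ℕ} {a b : ℕ} (h : (X : Multiset ℕ) + {b} + {a} = L.val) :
    ∃ τ : F, τ * τ = 1 ∧ τ • px F (X ++ [b, a]) = px F L.toList ∧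
      Fp a b = τ • ew F ((X ++ [b]).map FreeMalcev.of) (FreeMalcev.of a) := by
  obtain ⟨τ, h1, h2, h3⟩ := hFp X a b h
  refine ⟨τ, h1, h2, ?_⟩
  rw [List.map_append, List.map_singleton, h3, smul_smul, h1, one_smul]

/-- the contribution of one ordering of `a, b, c` -/
theorem tri_term {L : Finset ℕ} {Fp : ℕ → ℕ → FreeMalcev F ℕ}
    (hFp : ∀ (X : List ℕ) (a b : ℕ), (X : Multiset ℕ) + {b} + {a} = L.val → ∃ τ : F, τ * τ = 1 ∧
      τ • px F (X ++ [b, a]) = px F L.toList ∧
      ew F (X.map FreeMalcev.of ++ [FreeMalcev.of b]) (FreeMalcev.of a) = τ • Fp a b)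
    {Y : List ℕ} {p q r : ℕ} (h : (Y : Multiset ℕ) + {p} + {r} + {q} = L.val) (P : Ex F) (ω s : F)
    (hω : ω • P = px F L.toList) (hs : px F (Y ++ [p, r, q]) = s • P) (hss : s * s = 1)
    (y0 y1 y2 y3 : ℕ) (hY : Y = [y0, y1, y2, y3]) :
    ee F (of y0) (of y1) (of y2) (of y3) (of p) (of q) * of r = (s * ω) • Fp q r := by
  obtain ⟨τ, h1, h2, h3⟩ := hFp (Y ++ [p]) q r (by
    rw [← h, ← Multiset.coe_add, Multiset.coe_singleton])
  have hP : P ≠ 0 := by
    intro h0
    rw [h0, smul_zero] at hω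
    exact px_toList_ne hω.symm
  have h4 : px F (Y ++ [p] ++ [r, q]) = s • P := by
    rw [← hs, List.append_assoc]
    rfl
  rw [h4, smul_smul, ← hω] at h2
  have h5 : τ * s = ω := by
    have : (τ * s - ω) • P = 0 := by rw [sub_smul, h2, sub_self]
    rcases smul_eq_zero.1 this with h | h
    · exact sub_eq_zero.1 h
    · exact absurd h hP
  have h6 : τ = s * ω := by
    rw [← h5, mul_comm τ s, ← mul_assoc, hss, one_mul]
  rw [← h6, ← h3, hY]
  simp only [List.cons_append, List.nil_append, List.map_cons, List.map_nil]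
  rw [ew_cons]
  simp

end C7aAux

open C7aAux

/-- The sign-normalised elements `e'(X;a) b`, `X ∪ {a,b} = L`. For `a ≠ b` in `L` take `X = ((L.erase a).erase b).toList`, and `τ = ± 1` with
`τ • px F (X ++ [b, a]) = px F L.toList` (the lists are permutations of each other, `px_skew`), `Fp a b = τ • ew F (X.map of ++ [of b]) (of a)`;
`Fp a b = 0` otherwise. For general `X`: use `SkewL.perm` for the function `l ↦ (ew F (l.map of ++ [of b]) (of a), px F (l ++ [b, a]))`
on lists of length 5 (skew: `ew F (l.map of ++ [of b]) a = ew F (l.map of) a * of b`, `ew_skew5`). -/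
theorem exists_Fp {L : Finset ℕ} (hL : L.card = 7) : ∃ Fp : ℕ → ℕ → FreeMalcev F ℕ,
    (∀ a, Fp a a = 0) ∧
    ∀ (X : List ℕ) (a b : ℕ), (X : Multiset ℕ) + {b} + {a} = L.val → ∃ τ : F, τ * τ = 1 ∧
      τ • px F (X ++ [b, a]) = px F L.toList ∧
      ew F (X.map FreeMalcev.of ++ [FreeMalcev.of b]) (FreeMalcev.of a) = τ • Fp a b := by
  classical
  have hex : ∀ a b : ℕ, ∃ f : FreeMalcev F ℕ, (a = b → f = 0) ∧
      (a ∈ L ∧ b ∈ L ∧ a ≠ b → ∃ τ : F, τ * τ = 1 ∧
        τ • px F (Xs L a b ++ [b, a]) = px F L.toList ∧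
        ew F ((Xs L a b).map FreeMalcev.of ++ [FreeMalcev.of b]) (FreeMalcev.of a) = τ • f) := by
    intro a b
    by_cases h : a ∈ L ∧ b ∈ L ∧ a ≠ b
    · obtain ⟨τ, h1, h2⟩ := exists_tau (F := F) (Xs_coe h.1 h.2.1 h.2.2)
      refine ⟨τ • ew F ((Xs L a b).map FreeMalcev.of ++ [FreeMalcev.of b]) (FreeMalcev.of a),
        fun h' => absurd h' h.2.2, fun _ => ⟨τ, h1, h2, ?_⟩⟩
      rw [smul_smul, h1, one_smul]
    · exact ⟨0, fun _ => rfl, fun h' => absurd h' h⟩
  choose Fp hFp0 hFp1 using hex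
  refine ⟨Fp, fun a => hFp0 a a rfl, ?_⟩
  intro X a b hX
  obtain ⟨ha, hb, hab⟩ := mem_of hX
  obtain ⟨τ, h1, h2, h3⟩ := hFp1 a b ⟨ha, hb, hab⟩
  have hp : X.Perm (Xs L a b) := perm_of hX (Xs_coe ha hb hab)
  rcases (pair_skew (F := F) a b).perm hp (length_of hL hX) with h4 | h4
  · have h5 := congrArg Prod.fst h4
    have h6 := congrArg Prod.snd h4
    simp only at h5 h6
    exact ⟨τ, h1, by rw [h6]; exact h2, by rw [h5]; exact h3⟩
  · have h5 := congrArg Prod.fst h4
    have h6 := congrArg Prod.snd h4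
    simp only [Prod.fst_neg, Prod.snd_neg] at h5 h6
    refine ⟨-τ, by rw [neg_mul_neg]; exact h1, ?_, ?_⟩
    · rw [h6, neg_smul, smul_neg, neg_neg]
      exact h2
    · rw [h5, h3, neg_smul]

/-- The triangle relation. Let `Y` be a list of `L \ {a,b,c}` (four letters) and apply `R7p` with `x0,..,x3` the letters of `Y`. By the property of `Fp`,
with `ω = ± 1`, `ω • px F (Y ++ [a, b, c]) = px F L.toList`: `ee(Y,a;b) c = ew (Y ++ [a] ++ [c]) b`, `px (Y ++ [a] ++ [c, b]) = - px (Y ++ [a,b,c])`, so it is `- ω Fp b c`;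
similarly `ee(Y,a;c) b = ω Fp c b`, `ee(Y,b;a) c = ω Fp a c`, `ee(Y,b;c) a = - ω Fp c a`, `ee(Y,c;a) b = - ω Fp a b`, `ee(Y,c;b) a = ω Fp b a`. The sum is `0`. -/
theorem Fp_triangle {L : Finset ℕ} (hL : L.card = 7) {Fp : ℕ → ℕ → FreeMalcev F ℕ}
    (hFp : ∀ (X : List ℕ) (a b : ℕ), (X : Multiset ℕ) + {b} + {a} = L.val → ∃ τ : F, τ * τ = 1 ∧
      τ • px F (X ++ [b, a]) = px F L.toList ∧
      ew F (X.map FreeMalcev.of ++ [FreeMalcev.of b]) (FreeMalcev.of a) = τ • Fp a b)
    {a b c : ℕ} (ha : a ∈ L) (hb : b ∈ L) (hc : c ∈ L) (hab : a ≠ b) (hbc : b ≠ c) (hac : a ≠ c) :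
    (Fp a b - Fp b a) + (Fp b c - Fp c b) + (Fp c a - Fp a c) = 0 := by
  classical
  have h1 : (Xs L a b : Multiset ℕ) + {b} + {a} = L.val := Xs_coe ha hb hab
  have hcX : c ∈ Xs L a b := by
    have : c ∈ (Xs L a b : Multiset ℕ) + {b} + {a} := by rw [h1]; exact hc
    simp only [Multiset.mem_add, Multiset.mem_coe, Multiset.mem_singleton] at this
    rcases this with (h | h) | h
    · exact h
    · exact absurd h.symm hbc
    · exact absurd h.symm hac
  have hp := List.perm_cons_erase hcX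
  have hlen : ((Xs L a b).erase c).length = 4 := by
    rw [List.length_erase_of_mem hcX, Xs_length hL ha hb hab]
  obtain ⟨y0, y1, y2, y3, hY⟩ : ∃ y0 y1 y2 y3, (Xs L a b).erase c = [y0, y1, y2, y3] := by
    match h : (Xs L a b).erase c, hlen with
    | [y0, y1, y2, y3], _ => exact ⟨y0, y1, y2, y3, rfl⟩
  set Y := (Xs L a b).erase c with hYdef
  have h2 : (Y : Multiset ℕ) + {a} + {b} + {c} = L.val := by
    rw [← h1, Multiset.coe_eq_coe.2 hp, ← Multiset.cons_coe, ← Multiset.singleton_add]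
    abel
  have hperm : (Y ++ [a, b, c]).Perm L.toList := by
    refine Multiset.coe_eq_coe.1 ?_
    rw [Finset.coe_toList, ← h2, add_assoc, add_assoc, ← Multiset.coe_singleton,
      ← Multiset.coe_singleton, ← Multiset.coe_singleton, Multiset.coe_add, Multiset.coe_add,
      Multiset.coe_add]
    rfl
  obtain ⟨ω, hω1, hω2⟩ := px_perm (F := F) hperm
  set P := px F (Y ++ [a, b, c]) with hP
  have e1 : ∀ p q r : ℕ, px F (Y ++ [p, q, r]) = px F Y * (xe F p * (xe F q * xe F r)) := by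
    intro p q r
    rw [px_append, px_cons, px_cons, px_singleton]
  have eacb : px F (Y ++ [a, c, b]) = (-1 : F) • P := by
    rw [hP, e1, e1, xe_anti F c b, mul_neg, mul_neg, neg_smul, one_smul]
  have eabc : px F (Y ++ [a, b, c]) = (1 : F) • P := by
    rw [one_smul]
  have ebac : px F (Y ++ [b, a, c]) = (-1 : F) • P := by
    rw [hP, e1, e1, ← mul_assoc (xe F b), xe_anti F b a, neg_mul, mul_neg, mul_assoc, neg_smul,
      one_smul]
  have ebca : px F (Y ++ [b, c, a]) = (1 : F) • P := by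
    have : px F (Y ++ [b, c, a]) = - px F (Y ++ [b, a, c]) := by
      rw [e1, e1, xe_anti F c a, mul_neg, mul_neg]
    rw [this, ebac, neg_smul, neg_neg]
  have ecab : px F (Y ++ [c, a, b]) = (1 : F) • P := by
    have : px F (Y ++ [c, a, b]) = - px F (Y ++ [a, c, b]) := by
      rw [e1, e1, ← mul_assoc (xe F c), xe_anti F c a, neg_mul, mul_neg, mul_assoc]
    rw [this, eacb, neg_smul, neg_neg]
  have ecba : px F (Y ++ [c, b, a]) = (-1 : F) • P := by
    have : px F (Y ++ [c, b, a]) = - px F (Y ++ [c, a, b]) := by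
      rw [e1, e1, xe_anti F b a, mul_neg, mul_neg]
    rw [this, ecab, neg_smul]
  have m1 : (-1 : F) * -1 = 1 := by ring
  have m2 : (1 : F) * 1 = 1 := by ring
  have t1 := tri_term hFp (Y := Y) (p := a) (q := b) (r := c) (by rw [← h2]; abel) P ω (-1) hω2
    eacb m1 y0 y1 y2 y3 hY
  have t2 := tri_term hFp (Y := Y) (p := a) (q := c) (r := b) (by rw [← h2]) P ω 1 hω2
    eabc m2 y0 y1 y2 y3 hY
  have t3 := tri_term hFp (Y := Y) (p := b) (q := a) (r := c) (by rw [← h2]; abel) P ω 1 hω2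
    ebca m2 y0 y1 y2 y3 hY
  have t4 := tri_term hFp (Y := Y) (p := b) (q := c) (r := a) (by rw [← h2]; abel) P ω (-1) hω2
    ebac m1 y0 y1 y2 y3 hY
  have t5 := tri_term hFp (Y := Y) (p := c) (q := a) (r := b) (by rw [← h2]; abel) P ω (-1) hω2
    ecba m1 y0 y1 y2 y3 hY
  have t6 := tri_term hFp (Y := Y) (p := c) (q := b) (r := a) (by rw [← h2]; abel) P ω 1 hω2
    ecab m2 y0 y1 y2 y3 hY
  have hR := R7p F (FreeMalcev.isMalcev (F := F) (X := ℕ)) (FreeMalcev.of y0) (FreeMalcev.of y1)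
    (FreeMalcev.of y2) (FreeMalcev.of y3) (FreeMalcev.of a) (FreeMalcev.of b) (FreeMalcev.of c)
  rw [t1, t2, t3, t4, t5, t6] at hR
  have hω0 : ω ≠ 0 := by
    intro h0
    rw [h0, mul_zero] at hω1
    exact zero_ne_one hω1
  have hfin : (-ω) • ((Fp a b - Fp b a) + (Fp b c - Fp c b) + (Fp c a - Fp a c)) = 0 := by
    rw [← hR]
    simp only [neg_mul, one_mul, neg_smul, smul_add, smul_sub]
    abel
  rcases smul_eq_zero.1 hfin with h | h
  · exact absurd (neg_eq_zero.1 h) hω0
  · exact h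

/-- the values of `Fp a b` in the model algebra, `w`-part: `(ew (X ++ [b]) a).w i = if i = a then 240 px (X ++ [b])`, times `xe a` -/
theorem Fp_w {L : Finset ℕ} (hL : L.card = 7) {Fp : ℕ → ℕ → FreeMalcev F ℕ}
    (hFp : ∀ (X : List ℕ) (a b : ℕ), (X : Multiset ℕ) + {b} + {a} = L.val → ∃ τ : F, τ * τ = 1 ∧
      τ • px F (X ++ [b, a]) = px F L.toList ∧
      ew F (X.map FreeMalcev.of ++ [FreeMalcev.of b]) (FreeMalcev.of a) = τ • Fp a b)
    {a b : ℕ} (ha : a ∈ L) (hb : b ∈ L) (hab : a ≠ b) (i : ℕ) :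
    (phi F (Fp a b)).w i * xe F i = if i = a then (240 : F) • px F L.toList else 0 := by
  have hX := Xs_coe ha hb hab
  obtain ⟨τ, h1, h2, h3⟩ := Fp_val hFp hX
  have h5 : 5 ≤ (Xs L a b ++ [b]).length := by
    rw [List.length_append, Xs_length hL ha hb hab]
    exact Nat.le_add_right 5 _
  rw [h3, map_smul, phi_ew, Bh.w_smul, Bh.ew_lt_w h5]
  by_cases hi : i = a
  · subst hi
    rw [if_pos rfl, if_pos rfl, ← h2, smul_comm τ, smul_mul_assoc, smul_mul_assoc]
    simp only [px_append, px_cons, px_nil, mul_one, mul_assoc]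
  · rw [if_neg hi, if_neg hi, smul_zero, zero_mul]

/-- the values of `Fp a b` in the model algebra, `z`-part. `q = ew X a` (five letters): `q.w i = if i = a then 240 px X`,
`(q * lt b).z i j = b_i q.w j - b_j rv (q.w i)` (`Bh.mul_vl_z`): `240 px X` at `(b, a)`, `- 240 rv (px X) = - 240 px X` (`rv_px_five`) at `(a, b)`, `0` elsewhere. Multiply by
`xe i * xe j` and use `τ • px (X ++ [b, a]) = px L.toList`. -/
theorem Fp_z {L : Finset ℕ} (hL : L.card = 7) {Fp : ℕ → ℕ → FreeMalcev F ℕ}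
    (hFp : ∀ (X : List ℕ) (a b : ℕ), (X : Multiset ℕ) + {b} + {a} = L.val → ∃ τ : F, τ * τ = 1 ∧
      τ • px F (X ++ [b, a]) = px F L.toList ∧
      ew F (X.map FreeMalcev.of ++ [FreeMalcev.of b]) (FreeMalcev.of a) = τ • Fp a b)
    {a b : ℕ} (ha : a ∈ L) (hb : b ∈ L) (hab : a ≠ b) (i j : ℕ) :
    (phi F (Fp a b)).z i j * (xe F i * xe F j) =
      if (i = a ∧ j = b) ∨ (i = b ∧ j = a) then (240 : F) • px F L.toList else 0 := by
  have hX := Xs_coe ha hb hab
  obtain ⟨τ, h1, h2, h3⟩ := Fp_val hFp hX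
  have hlen := Xs_length hL ha hb hab
  have h5 : 5 ≤ (Xs L a b).length := by rw [hlen]
  have h5' : 5 ≤ ((Xs L a b).map (Bh.lt F)).length := by rw [List.length_map, hlen]
  have hval : (phi F (Fp a b)).z i j =
      τ • (Finsupp.single b (1 : F) i • (if j = a then (240 : F) • px F (Xs L a b) else 0) -
        Finsupp.single b (1 : F) j • (if i = a then (240 : F) • px F (Xs L a b) else 0)) := by
    rw [h3, map_smul, phi_ew, Bh.z_smul, List.map_append, List.map_singleton, ew_append F h5']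
    have h6 : (ew F ((Xs L a b).map (Bh.lt F)) (Bh.lt F a) * Bh.lt F b).z i j = _ :=
      Bh.mul_vl_z (Bh.ew_lt_v (F := F) (Xs L a b) a) (Finsupp.single b 1) i j
    rw [h6, Bh.ew_lt_w h5, Bh.ew_lt_w h5]
    congr 3
    split_ifs
    · rw [map_smul, rv_px_five F hlen]
    · rw [map_zero]
  have hab' : ¬ b = a := fun h => hab h.symm
  rw [hval]
  by_cases hc1 : i = a ∧ j = b
  · obtain ⟨hi, hj⟩ := hc1
    subst hi
    subst hj
    rw [if_pos (Or.inl ⟨rfl, rfl⟩), if_neg hab', if_pos rfl, Finsupp.single_eq_same, one_smul,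
      smul_zero, zero_sub, ← h2, smul_neg, neg_mul, xe_anti F i j, mul_neg, neg_neg, smul_comm τ,
      smul_mul_assoc, smul_mul_assoc, px_append, px_cons, px_singleton]
  · by_cases hc2 : i = b ∧ j = a
    · obtain ⟨hi, hj⟩ := hc2
      subst hi
      subst hj
      rw [if_pos (Or.inr ⟨rfl, rfl⟩), if_pos rfl, if_neg hab', Finsupp.single_eq_same, one_smul,
        smul_zero, sub_zero, ← h2, smul_comm τ, smul_mul_assoc, smul_mul_assoc, px_append, px_cons,
        px_singleton]
    · have hneg : ¬ ((i = a ∧ j = b) ∨ (i = b ∧ j = a)) := fun h => h.elim hc1 hc2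
      rw [if_neg hneg]
      have z1 : Finsupp.single b (1 : F) i • (if j = a then (240 : F) • px F (Xs L a b) else 0)
          = 0 := by
        by_cases hj : j = a
        · have hi : i ≠ b := fun hi => hc2 ⟨hi, hj⟩
          rw [Finsupp.single_eq_of_ne hi, zero_smul]
        · rw [if_neg hj, smul_zero]
      have z2 : Finsupp.single b (1 : F) j • (if i = a then (240 : F) • px F (Xs L a b) else 0)
          = 0 := by
        by_cases hi : i = a
        · have hj : j ≠ b := fun hj => hc1 ⟨hi, hj⟩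
          rw [Finsupp.single_eq_of_ne hj, zero_smul]
        · rw [if_neg hi, smul_zero]
      rw [z1, z2, sub_zero, smul_zero, zero_mul]

end Pool.Agent.Malc
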