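import Pool.Agent.Malc.C7a

/-! # Part C: injectivity for seven letters -/

set_option autoImplicit false

open scoped BigOperators

namespace Pool.Agent.Malc

universe u

variable {F : Type u} [Field F]

/-- the linear map which vanishes on all `e'(X;a) b` but not on `e'(X; u v)` -/
noncomputable def Th (S : Finset ℕ) : Bh F →ₗ[F] Ex F where
  toFun x := (∑ i ∈ S, ∑ j ∈ S, x.z i j * (xe F i * xe F j)) - (2 : F) • ∑ a ∈ S, x.w a * xe F a
  map_add' x y := by
    simp only [Bh.z_add, Bh.w_add, add_mul, Finset.sum_add_distrib, smul_add]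
    abel
  map_smul' c x := by
    simp only [Bh.z_smul, Bh.w_smul, smul_mul_assoc, ← Finset.smul_sum, RingHom.id_apply, smul_sub]
    rw [smul_comm c (2 : F)]

namespace C7bAux

theorem Th_apply (S : Finset ℕ) (x : Bh F) : Th S x =
    (∑ i ∈ S, ∑ j ∈ S, x.z i j * (xe F i * xe F j)) - (2 : F) • ∑ a ∈ S, x.w a * xe F a := rfl

theorem sum_single {S : Finset ℕ} {k : ℕ} (hk : k ∈ S) (Y : ℕ → Ex F) :
    ∑ i ∈ S, (Finsupp.single k (1 : F)) i • Y i = Y k := by
  rw [Finset.sum_eq_single_of_mem k hk]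
  · simp
  · intro b _ hb
    rw [Finsupp.single_eq_of_ne hb, zero_smul]

/-- the normal order of products of seven anticommuting elements -/
theorem sum_Ak {S : Finset ℕ} {l0 l1 l2 l3 l4 : ℕ} (h0 : l0 ∈ S) (h1 : l1 ∈ S) (h2 : l2 ∈ S)
    (h3 : l3 ∈ S) (h4 : l4 ∈ S) :
    ∑ i ∈ S, Bh.Ak (Finsupp.single l0 (1 : F)) (Finsupp.single l1 1) (Finsupp.single l2 1)
      (Finsupp.single l3 1) (Finsupp.single l4 1) i * xe F i =
      (5 : F) • (xe F l0 * xe F l1 * xe F l2 * xe F l3 * xe F l4) := by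
  have e : ∀ i ∈ S, Bh.Ak (Finsupp.single l0 (1 : F)) (Finsupp.single l1 1) (Finsupp.single l2 1)
      (Finsupp.single l3 1) (Finsupp.single l4 1) i * xe F i =
      (Finsupp.single l4 (1 : F)) i • ((xe F l0 * xe F l1 * xe F l2 * xe F l3) * xe F i) -
      (Finsupp.single l3 (1 : F)) i • ((xe F l0 * xe F l1 * xe F l2 * xe F l4) * xe F i) +
      (Finsupp.single l2 (1 : F)) i • ((xe F l0 * xe F l1 * xe F l3 * xe F l4) * xe F i) -
      (Finsupp.single l1 (1 : F)) i • ((xe F l0 * xe F l2 * xe F l3 * xe F l4) * xe F i) +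
      (Finsupp.single l0 (1 : F)) i • ((xe F l1 * xe F l2 * xe F l3 * xe F l4) * xe F i) := by
    intro i _
    unfold Bh.Ak xe
    simp only [add_mul, sub_mul, smul_mul_assoc]
  rw [Finset.sum_congr rfl e, Finset.sum_add_distrib, Finset.sum_sub_distrib,
    Finset.sum_add_distrib, Finset.sum_sub_distrib,
    sum_single h4 (fun i => (xe F l0 * xe F l1 * xe F l2 * xe F l3) * xe F i),
    sum_single h3 (fun i => (xe F l0 * xe F l1 * xe F l2 * xe F l4) * xe F i),
    sum_single h2 (fun i => (xe F l0 * xe F l1 * xe F l3 * xe F l4) * xe F i),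
    sum_single h1 (fun i => (xe F l0 * xe F l2 * xe F l3 * xe F l4) * xe F i),
    sum_single h0 (fun i => (xe F l1 * xe F l2 * xe F l3 * xe F l4) * xe F i)]
  have a10 := xe_anti F l1 l0
  have a20 := xe_anti F l2 l0
  have a30 := xe_anti F l3 l0
  have a40 := xe_anti F l4 l0
  have a21 := xe_anti F l2 l1
  have a31 := xe_anti F l3 l1
  have a41 := xe_anti F l4 l1
  have a32 := xe_anti F l3 l2
  have a42 := xe_anti F l4 l2
  have a43 := xe_anti F l4 l3
  have t : ∀ {a b : Ex F}, a * b = - (b * a) → ∀ c : Ex F, a * (b * c) = - (b * (a * c)) := by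
    intro a b h c
    rw [← mul_assoc, h, neg_mul, mul_assoc]
  simp only [mul_assoc, a40, a41, a42, a43, t a10, t a20, t a30,
    t a21, t a31, t a32, mul_neg, neg_neg]
  module

theorem Ak_comm (a0 a1 a2 a3 a4 : VL F) (i u v : ℕ) :
    Bh.Ak a0 a1 a2 a3 a4 i * (xe F u * xe F v) = (xe F u * xe F v) * Bh.Ak a0 a1 a2 a3 a4 i := by
  have k : ∀ (a : VL F) (c : Ex F), ix a * (xe F u * (xe F v * c)) = xe F u * (xe F v * (ix a * c)) := by
    intro a c
    have h1 : ix a * xe F u = - (xe F u * ix a) := ix_anti _ _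
    have h2 : ix a * xe F v = - (xe F v * ix a) := ix_anti _ _
    rw [← mul_assoc, h1, neg_mul, mul_assoc, ← mul_assoc (ix a), h2, neg_mul, mul_neg, neg_neg,
      mul_assoc]
  have k' : ∀ (a : VL F), ix a * (xe F u * xe F v) = xe F u * (xe F v * ix a) := by
    intro a
    have := k a 1
    rwa [mul_one, mul_one] at this
  unfold Bh.Ak
  simp only [add_mul, sub_mul, mul_add, mul_sub, smul_mul_assoc, mul_smul_comm, mul_assoc, k, k']

end C7bAux

open C7bAux in
/-- `Th` of `e'(l0,..,l4; u v)`. `q = lt u * lt v`: `q.w v = xe u`, `q.w u = - xe v`, other `q.w i = 0`. `X = px l`. By `Bh.ee_last_w`: `∑ (w-part) * xe a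
= - 240 xe u X xe v + 240 xe v X xe u = 480 xe u xe v X` (`px_mul_xe`). By `Bh.ee_last_z`, `Ak i` is `± px (l without i)` for `i` in `l`, `Ak i * xe i = X` (`i` in `l`), `0` else; so
`∑ i j, q.w j * Ak i * (xe i * xe j) = 5 ∑ j, q.w j X xe j = 5 (xe u X xe v - xe v X xe u) = - 10 xe u xe v X` and
`∑ i j, Ak j * rv (q.w i) * (xe i * xe j) = 10 xe u xe v X` (`rv` of a letter is the letter; move the two letters `xe u xe v` to the front, and `Ak j * xe j = X`).
Total: `- 144 (- 10 - 10) - 2 * 480 = 1920`. (Checked by computer.) -/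
theorem Th_H {S : Finset ℕ} {l0 l1 l2 l3 l4 u v : ℕ} (hn : [u, v, l0, l1, l2, l3, l4].Nodup)
    (hS : ∀ i ∈ [u, v, l0, l1, l2, l3, l4], i ∈ S) :
    Th S (ee F (Bh.lt F l0) (Bh.lt F l1) (Bh.lt F l2) (Bh.lt F l3) (Bh.lt F l4)
      (Bh.lt F u * Bh.lt F v)) = (1920 : F) • px F [u, v, l0, l1, l2, l3, l4] := by
  have hu : u ∈ S := hS u (by simp)
  have hv : v ∈ S := hS v (by simp)
  have h0 : l0 ∈ S := hS l0 (by simp)
  have h1 : l1 ∈ S := hS l1 (by simp)
  have h2 : l2 ∈ S := hS l2 (by simp)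
  have h3 : l3 ∈ S := hS l3 (by simp)
  have h4 : l4 ∈ S := hS l4 (by simp)
  set q : Bh F := Bh.lt F u * Bh.lt F v with hq
  have hqv : q.v = 0 := Bh.v_mul _ _
  have hqw : ∀ i, q.w i = (Finsupp.single v (1 : F)) i • xe F u -
      (Finsupp.single u (1 : F)) i • xe F v := by
    intro i
    rw [hq, Bh.w_mul]
    simp [Bh.lt, xe]
  have hrv : ∀ i, rv (q.w i) = q.w i := by
    intro i
    rw [hqw, map_sub, map_smul, map_smul]
    unfold xe
    rw [rv_ix, rv_ix]
  set X : Ex F := xe F l0 * xe F l1 * xe F l2 * xe F l3 * xe F l4 with hX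
  set Ak : ℕ → Ex F := Bh.Ak (Finsupp.single l0 (1 : F)) (Finsupp.single l1 1)
    (Finsupp.single l2 1) (Finsupp.single l3 1) (Finsupp.single l4 1) with hAk
  set E : Bh F := ee F (Bh.lt F l0) (Bh.lt F l1) (Bh.lt F l2) (Bh.lt F l3) (Bh.lt F l4) q with hE
  have hW : ∀ i, E.w i = - ((240 : F) • (q.w i * X)) := fun i =>
    Bh.ee_last_w (Finsupp.single l0 1) (Finsupp.single l1 1) (Finsupp.single l2 1)
      (Finsupp.single l3 1) (Finsupp.single l4 1) hqv i
  have hZ : ∀ i j, E.z i j = - ((144 : F) • (q.w j * Ak i - Ak j * rv (q.w i))) := fun i j =>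
    Bh.ee_last_z (Finsupp.single l0 1) (Finsupp.single l1 1) (Finsupp.single l2 1)
      (Finsupp.single l3 1) (Finsupp.single l4 1) hqv i j
  have sA : ∑ i ∈ S, Ak i * xe F i = (5 : F) • X := sum_Ak h0 h1 h2 h3 h4
  have sQ : ∀ Y : ℕ → Ex F, ∑ j ∈ S, q.w j * Y j = xe F u * Y v - xe F v * Y u := by
    intro Y
    have e : ∀ j ∈ S, q.w j * Y j = (Finsupp.single v (1 : F)) j • (xe F u * Y j) -
        (Finsupp.single u (1 : F)) j • (xe F v * Y j) := by
      intro j _
      rw [hqw, sub_mul, smul_mul_assoc, smul_mul_assoc]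
    rw [Finset.sum_congr rfl e, Finset.sum_sub_distrib,
      sum_single hv (fun j => xe F u * Y j), sum_single hu (fun j => xe F v * Y j)]
  have avu := xe_anti F v u
  have tt : ∀ {a b : Ex F}, a * b = - (b * a) → ∀ c : Ex F, a * (b * c) = - (b * (a * c)) := by
    intro a b h c
    rw [← mul_assoc, h, neg_mul, mul_assoc]
  have hXl : ∀ k, X * xe F k = - (xe F k * X) := by
    intro k
    have e0 := xe_anti F l0 k
    have e1 := xe_anti F l1 k
    have e2 := xe_anti F l2 k
    have e3 := xe_anti F l3 k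
    have e4 := xe_anti F l4 k
    rw [hX]
    simp only [mul_assoc, e4, tt e0, tt e1, tt e2, tt e3, mul_neg, neg_neg]
  set P : Ex F := xe F u * (xe F v * X) with hP
  have hQQ : ∑ i ∈ S, q.w i * xe F i = (2 : F) • (xe F u * xe F v) := by
    rw [sQ, avu]
    module
  -- the `w`-part
  have w1 : ∑ a ∈ S, E.w a * xe F a = (480 : F) • P := by
    have e : ∀ a ∈ S, E.w a * xe F a = q.w a * (-((240 : F) • (X * xe F a))) := by
      intro a _
      rw [hW, neg_mul, smul_mul_assoc, mul_neg, mul_smul_comm, mul_assoc]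
    rw [Finset.sum_congr rfl e, sQ (fun a => -((240 : F) • (X * xe F a))), hXl, hXl, hP]
    simp only [smul_neg, neg_neg, mul_smul_comm, tt avu]
    module
  -- the `z`-part
  have z1 : ∑ i ∈ S, ∑ j ∈ S, (q.w j * Ak i) * (xe F i * xe F j) = (-10 : F) • P := by
    rw [Finset.sum_comm]
    have e : ∀ j ∈ S, ∑ i ∈ S, (q.w j * Ak i) * (xe F i * xe F j) =
        q.w j * ((5 : F) • (X * xe F j)) := by
      intro j _
      have : ∀ i ∈ S, (q.w j * Ak i) * (xe F i * xe F j) = q.w j * ((Ak i * xe F i) * xe F j) := by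
        intro i _
        simp only [mul_assoc]
      rw [Finset.sum_congr rfl this, ← Finset.mul_sum, ← Finset.sum_mul, sA, smul_mul_assoc]
    rw [Finset.sum_congr rfl e, sQ (fun j => (5 : F) • (X * xe F j)), hXl, hXl, hP]
    simp only [smul_neg, mul_neg, mul_smul_comm, tt avu]
    module
  have z2 : ∑ i ∈ S, ∑ j ∈ S, (Ak j * rv (q.w i)) * (xe F i * xe F j) = (10 : F) • P := by
    rw [Finset.sum_comm]
    have e : ∀ j ∈ S, ∑ i ∈ S, (Ak j * rv (q.w i)) * (xe F i * xe F j) =
        (2 : F) • ((xe F u * xe F v) * (Ak j * xe F j)) := by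
      intro j _
      have : ∀ i ∈ S, (Ak j * rv (q.w i)) * (xe F i * xe F j) =
          Ak j * ((q.w i * xe F i) * xe F j) := by
        intro i _
        rw [hrv]
        simp only [mul_assoc]
      rw [Finset.sum_congr rfl this, ← Finset.mul_sum, ← Finset.sum_mul, hQQ, smul_mul_assoc,
        mul_smul_comm, ← mul_assoc (Ak j), hAk, Ak_comm, mul_assoc (xe F u * xe F v)]
    rw [Finset.sum_congr rfl e, ← Finset.smul_sum, ← Finset.mul_sum, sA, mul_smul_comm, smul_smul,
      hP, mul_assoc]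
    norm_num
  have z3 : ∑ i ∈ S, ∑ j ∈ S, E.z i j * (xe F i * xe F j) = (2880 : F) • P := by
    have e : ∀ i ∈ S, ∑ j ∈ S, E.z i j * (xe F i * xe F j) =
        (-144 : F) • (∑ j ∈ S, (q.w j * Ak i) * (xe F i * xe F j)) +
          (144 : F) • (∑ j ∈ S, (Ak j * rv (q.w i)) * (xe F i * xe F j)) := by
      intro i _
      rw [Finset.smul_sum, Finset.smul_sum, ← Finset.sum_add_distrib]
      refine Finset.sum_congr rfl fun j _ => ?_
      rw [hZ, neg_mul, smul_mul_assoc, sub_mul]
      module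
    rw [Finset.sum_congr rfl e, Finset.sum_add_distrib, ← Finset.smul_sum, ← Finset.smul_sum, z1,
      z2, smul_smul, smul_smul, ← add_smul]
    norm_num
  rw [Th_apply, z3, w1]
  have hpx : px F [u, v, l0, l1, l2, l3, l4] = P := by
    rw [hP, hX]
    simp only [px_cons, px_nil, mul_one, mul_assoc]
  rw [hpx, smul_smul, ← sub_smul]
  norm_num

variable [CharZero F]

namespace C7bAux

theorem half_aux {M : Type*} [AddCommGroup M] [Module F M] (x y : M) :
    y = (-(1 / 2) : F) • (x - 2 • y) + (1 / 2 : F) • x := by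
  rw [two_nsmul]
  module

theorem card_content_pos (w : FreeMagma ℕ) : 1 ≤ Multiset.card (content w) := by
  induction w with
  | ih1 i =>
    show 1 ≤ Multiset.card ({i} : Multiset ℕ)
    rw [Multiset.card_singleton]
  | ih2 a b iha ihb =>
    show 1 ≤ Multiset.card (content a + content b)
    rw [Multiset.card_add]
    omega

theorem card_content_one {w : FreeMagma ℕ} (h : Multiset.card (content w) = 1) :
    ∃ i, w = FreeMagma.of i := by
  cases w with
  | of i => exact ⟨i, rfl⟩
  | mul a b =>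
    have h1 := card_content_pos a
    have h2 := card_content_pos b
    have h3 : Multiset.card (content a + content b) = 1 := h
    rw [Multiset.card_add] at h3
    omega

theorem card_sum_content (xs : List (FreeMagma ℕ)) :
    xs.length ≤ Multiset.card (xs.map content).sum := by
  induction xs with
  | nil => simp
  | cons x xs ih =>
    rw [List.map_cons, List.sum_cons, Multiset.card_add, List.length_cons]
    have := card_content_pos x
    omega

/-- a list of words of total size its length consists of letters -/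
theorem letters_of_card {xs : List (FreeMagma ℕ)}
    (h : Multiset.card (xs.map content).sum = xs.length) :
    ∃ ys : List ℕ, xs = ys.map FreeMagma.of := by
  induction xs with
  | nil => exact ⟨[], rfl⟩
  | cons x xs ih =>
    rw [List.map_cons, List.sum_cons, Multiset.card_add, List.length_cons] at h
    have h1 := card_content_pos x
    have h2 := card_sum_content xs
    obtain ⟨i, rfl⟩ := card_content_one (w := x) (by omega)
    obtain ⟨ys, rfl⟩ := ih (by omega)
    exact ⟨i :: ys, rfl⟩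

theorem sum_content_of (ys : List ℕ) :
    ((ys.map FreeMagma.of).map content).sum = (ys : Multiset ℕ) := by
  induction ys with
  | nil => rfl
  | cons y ys ih =>
    rw [List.map_cons, List.map_cons, List.sum_cons, ih]
    show {y} + (ys : Multiset ℕ) = _
    rw [Multiset.singleton_add, Multiset.cons_coe]

omit [CharZero F] in
theorem map_wdM_of (ys : List ℕ) :
    (ys.map FreeMagma.of).map (wdM : FreeMagma ℕ → FreeMalcev F ℕ) = ys.map FreeMalcev.of := by
  rw [List.map_map]
  refine List.map_congr_left fun i _ => ?_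
  exact (of_eq_wdM i).symm

/-- if the content is as small as possible, all words are letters -/
theorem Em_le_WLm {n : ℕ} {m : Multiset ℕ} (hm : Multiset.card m = n + 1) :
    Em F n m ≤ WLm F n m := by
  unfold Em
  rw [Submodule.span_le]
  rintro q ⟨xs, a, hn, hs, rfl⟩
  have h1 := card_sum_content xs
  have h2 := card_content_pos a
  have h3 := congrArg Multiset.card hs
  rw [Multiset.card_add, hm] at h3
  obtain ⟨ys, rfl⟩ := letters_of_card (xs := xs) (by omega)
  obtain ⟨i, rfl⟩ := card_content_one (w := a) (by omega)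
  refine Submodule.subset_span ⟨ys, i, ?_, ?_, ?_⟩
  · rwa [List.length_map] at hn
  · rw [sum_content_of] at hs
    exact hs
  · rw [map_wdM_of, ← of_eq_wdM]

end C7bAux

open C7bAux in
/-- `Em_seven` with `e'(..; u v)` in place of `e'(u v, ..)`: with `G`, `H` from `exists_GA`, `exists_HA`, `HA_eq`: `H y - 2 G y = 0` in the quotient by `E1A`, so
`ee(l0,..,l4; l5 l6) - 2 ee(l0 l1, ..; l6)` is in `E1A` and in `GM m`, hence in `Em F 6 m` (`E1A_GM`) which is contained in `WLm F 6 m`
(`card m = 7` and six or more words in the list: all words are letters). -/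
theorem Em_seven_H (l : Fin 7 → ℕ) :
    Em F 5 (Multiset.ofList (List.ofFn l)) ≤ WLm F 6 (Multiset.ofList (List.ofFn l)) ⊔
      Submodule.span F {ee F (FreeMalcev.of (l 0)) (FreeMalcev.of (l 1)) (FreeMalcev.of (l 2))
        (FreeMalcev.of (l 3)) (FreeMalcev.of (l 4)) (FreeMalcev.of (l 5) * FreeMalcev.of (l 6))} := by
  have hM : IsMalcev (FreeMalcev F ℕ) := FreeMalcev.isMalcev
  obtain ⟨G, hG⟩ := exists_GA F hM
  obtain ⟨H, hH⟩ := exists_HA F hM
  set m : Multiset ℕ := Multiset.ofList (List.ofFn l) with hm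
  have hme : m = {l 0} + {l 1} + {l 2} + {l 3} + {l 4} + {l 5} + {l 6} := by
    rw [hm]
    simp only [List.ofFn_succ, List.ofFn_zero]
    rfl
  set y : Fin 7 → FreeMalcev F ℕ := fun i => FreeMalcev.of (l i) with hy
  have e1 := HA_eq F hM hG hH y
  rw [hG, hH, ← map_nsmul, ← sub_eq_zero, ← map_sub, Submodule.mkQ_apply,
    Submodule.Quotient.mk_eq_zero] at e1
  set gel : FreeMalcev F ℕ := ee F (FreeMalcev.of (l 0) * FreeMalcev.of (l 1)) (FreeMalcev.of (l 2))
        (FreeMalcev.of (l 3)) (FreeMalcev.of (l 4)) (FreeMalcev.of (l 5)) (FreeMalcev.of (l 6))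
    with hgel
  set hel : FreeMalcev F ℕ := ee F (FreeMalcev.of (l 0)) (FreeMalcev.of (l 1)) (FreeMalcev.of (l 2))
        (FreeMalcev.of (l 3)) (FreeMalcev.of (l 4)) (FreeMalcev.of (l 5) * FreeMalcev.of (l 6))
    with hhel
  have e2 : hel - 2 • gel ∈ E1A F (FreeMalcev F ℕ) := e1
  have g1 : gel ∈ GM F m := by
    have h := ew_GM F [FreeMagma.mul (FreeMagma.of (l 0)) (FreeMagma.of (l 1)), FreeMagma.of (l 2),
      FreeMagma.of (l 3), FreeMagma.of (l 4), FreeMagma.of (l 5)] (FreeMagma.of (l 6))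
    have e : ew F ([FreeMagma.mul (FreeMagma.of (l 0)) (FreeMagma.of (l 1)), FreeMagma.of (l 2),
      FreeMagma.of (l 3), FreeMagma.of (l 4), FreeMagma.of (l 5)].map
        (wdM : FreeMagma ℕ → FreeMalcev F ℕ)) (wdM (FreeMagma.of (l 6))) = gel := by
      rw [hgel]
      simp only [List.map_cons, List.map_nil, ← wdM_mul, ← of_eq_wdM]
      rfl
    rw [e] at h
    have e' : ([FreeMagma.mul (FreeMagma.of (l 0)) (FreeMagma.of (l 1)), FreeMagma.of (l 2),
      FreeMagma.of (l 3), FreeMagma.of (l 4), FreeMagma.of (l 5)].map content).sum +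
        content (FreeMagma.of (l 6)) = m := by
      rw [hme]
      simp only [List.map_cons, List.map_nil, List.sum_cons, List.sum_nil, content, add_zero]
      abel
    rwa [e'] at h
  have h1 : hel ∈ GM F m := by
    have h := ew_GM F [FreeMagma.of (l 0), FreeMagma.of (l 1), FreeMagma.of (l 2),
      FreeMagma.of (l 3), FreeMagma.of (l 4)]
      (FreeMagma.mul (FreeMagma.of (l 5)) (FreeMagma.of (l 6)))
    have e : ew F ([FreeMagma.of (l 0), FreeMagma.of (l 1), FreeMagma.of (l 2),
      FreeMagma.of (l 3), FreeMagma.of (l 4)].map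
        (wdM : FreeMagma ℕ → FreeMalcev F ℕ))
        (wdM (FreeMagma.mul (FreeMagma.of (l 5)) (FreeMagma.of (l 6)))) = hel := by
      rw [hhel]
      simp only [List.map_cons, List.map_nil, ← wdM_mul, ← of_eq_wdM]
      rfl
    rw [e] at h
    have e' : ([FreeMagma.of (l 0), FreeMagma.of (l 1), FreeMagma.of (l 2),
      FreeMagma.of (l 3), FreeMagma.of (l 4)].map content).sum +
        content (FreeMagma.mul (FreeMagma.of (l 5)) (FreeMagma.of (l 6))) = m := by
      rw [hme]
      simp only [List.map_cons, List.map_nil, List.sum_cons, List.sum_nil, content, add_zero]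
      abel
    rwa [e'] at h
  have hc : Multiset.card m = 6 + 1 := by
    rw [hm, Multiset.coe_card, List.length_ofFn]
  have e3 : hel - 2 • gel ∈ WLm F 6 m :=
    Em_le_WLm hc (E1A_GM F e2 (Submodule.sub_mem _ h1 (nsmul_mem g1 2)))
  refine (Em_seven F l).trans (sup_le le_sup_left ?_)
  rw [Submodule.span_singleton_le_iff_mem]
  have e4 : gel = (-(1 / 2) : F) • (hel - 2 • gel) + (1 / 2 : F) • hel := half_aux hel gel
  show gel ∈ _
  rw [e4]
  exact Submodule.add_mem _ (Submodule.mem_sup_left (Submodule.smul_mem _ _ e3))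
    (Submodule.mem_sup_right (Submodule.smul_mem _ _ (Submodule.mem_span_singleton_self _)))

namespace C7bAux

/-- `phi` as a linear map -/
noncomputable def phL : FreeMalcev F ℕ →ₗ[F] Bh F where
  toFun := phi F
  map_add' := map_add (phi F)
  map_smul' := fun c x => map_smul (phi F) c x

omit [CharZero F] in
theorem phL_apply (x : FreeMalcev F ℕ) : phL x = phi F x := rfl

/-- the first dual maps -/
noncomputable def f1 (a b : ℕ) : Bh F →ₗ[F] Ex F where
  toFun x := x.z a b * (xe F a * xe F b)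
  map_add' x y := by simp only [Bh.z_add, add_mul]
  map_smul' c x := by simp only [Bh.z_smul, smul_mul_assoc, RingHom.id_apply]

/-- the second dual maps -/
noncomputable def f2 (L : Finset ℕ) (a : ℕ) : Bh F →ₗ[F] Ex F where
  toFun x := (2 : F) • (x.w a * xe F a) - ∑ b ∈ L, x.z a b * (xe F a * xe F b)
  map_add' x y := by
    simp only [Bh.z_add, Bh.w_add, add_mul, Finset.sum_add_distrib, smul_add]
    abel
  map_smul' c x := by
    simp only [Bh.z_smul, Bh.w_smul, smul_mul_assoc, ← Finset.smul_sum, RingHom.id_apply, smul_sub]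
    rw [smul_comm c (2 : F)]

omit [CharZero F] in
theorem f1_apply (a b : ℕ) (x : Bh F) : f1 a b x = x.z a b * (xe F a * xe F b) := rfl

omit [CharZero F] in
theorem f2_apply (L : Finset ℕ) (a : ℕ) (x : Bh F) :
    f2 L a x = (2 : F) • (x.w a * xe F a) - ∑ b ∈ L, x.z a b * (xe F a * xe F b) := rfl

omit [CharZero F] in
/-- generators of `WLm F 6 L` in terms of `Fp` -/
theorem WLm_gen {L : Finset ℕ} (hL : L.card = 7) {Fp : ℕ → ℕ → FreeMalcev F ℕ}
    (hFp : ∀ (X : List ℕ) (a b : ℕ), (X : Multiset ℕ) + {b} + {a} = L.val → ∃ τ : F, τ * τ = 1 ∧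
      τ • px F (X ++ [b, a]) = px F L.toList ∧
      ew F (X.map FreeMalcev.of ++ [FreeMalcev.of b]) (FreeMalcev.of a) = τ • Fp a b) :
    WLm F 6 L.val ≤ Submodule.span F {q | ∃ a ∈ L, ∃ b ∈ L, a ≠ b ∧ q = Fp a b} := by
  unfold WLm
  rw [Submodule.span_le]
  rintro q ⟨xs, a, hn, hs, rfl⟩
  have h1 := congrArg Multiset.card hs
  rw [Multiset.card_add, Multiset.coe_card, Multiset.card_singleton, Finset.card_val, hL] at h1
  have hne : xs ≠ [] := by
    rintro rfl
    simp at hn
  obtain ⟨X, b, rfl⟩ : ∃ X b, xs = X ++ [b] :=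
    ⟨xs.dropLast, xs.getLast hne, (List.dropLast_append_getLast hne).symm⟩
  have h2 : (X : Multiset ℕ) + {b} + {a} = L.val := by
    rw [← hs]
    rfl
  obtain ⟨τ, -, -, h3⟩ := hFp X a b h2
  have h4 : a ∈ L.val := by rw [← h2]; simp
  have h5 : b ∈ L.val := by rw [← h2]; simp
  have h6 : a ≠ b := by
    rintro rfl
    have h7 := L.nodup
    rw [← h2, add_assoc, Multiset.nodup_add] at h7
    simp at h7
  rw [List.map_append, List.map_cons, List.map_nil, h3]
  exact Submodule.smul_mem _ _ (Submodule.subset_span ⟨a, h4, b, h5, h6, rfl⟩)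

omit [CharZero F] in
theorem om_ne (L : Finset ℕ) : px F L.toList ≠ 0 := px_ne_zero F (Finset.nodup_toList L)

end C7bAux

open C7bAux in
/-- Injectivity on `WLm F 6`. `exists_Fp`. Fix `o ∈ L`. The generators of `WLm F 6 L.val` have lists with exactly six letters `X ++ [b]`, so they are `± Fp a b`
(`a ≠ b`). Let `S a b = Fp a b + Fp b a`, `D a = Fp a o - Fp o a` (`D o = 0`). By `Fp_triangle` (and trivially if two of `a, b, o` are equal)
`Fp a b = (S a b + D a - D b) / 2`. Use `inj_of_dual` with the index type `{p : ℕ × ℕ // p.1 ∈ L ∧ p.2 ∈ L ∧ p.1 < p.2} ⊕ {a // a ∈ L ∧ a ≠ o}`,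
`g (inl (a,b)) = S a b`, `g (inr a) = D a`, `f (inl (a,b)) x = x.z a b * (xe a * xe b)`, `f (inr a) x = 2 • (x.w a * xe a) - ∑ b ∈ L, x.z a b * (xe a * xe b)`.
Values (`Fp_w`, `Fp_z`, `Ω = px L.toList`): `f (inl (a,b)) (S a b) = 480 Ω`, `f (inl p) (S p') = 0`, `f (inl p) (D c) = 0`;
`f (inr a) (S c d)`: `2 * 240 - 480 = 0` if `a ∈ {c, d}`, else `0`; `f (inr a) (D a) = 480 Ω`, `f (inr a) (D c) = 0`. -/
theorem inj7a {L : Finset ℕ} (hL : L.card = 7) {q : FreeMalcev F ℕ} (hq : q ∈ WLm F 6 L.val)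
    (h0 : phi F q = 0) : q = 0 := by
  obtain ⟨Fp, hFp0, hFp⟩ := exists_Fp (F := F) hL
  obtain ⟨o, ho⟩ : L.Nonempty := by
    rw [← Finset.card_pos, hL]
    norm_num
  set Ω : Ex F := px F L.toList with hΩ
  have hΩ0 : (480 : F) • Ω ≠ 0 := smul_ne_zero (by norm_num) (om_ne L)
  set S : ℕ → ℕ → FreeMalcev F ℕ := fun a b => Fp a b + Fp b a with hS
  set D : ℕ → FreeMalcev F ℕ := fun a => Fp a o - Fp o a with hD
  set g : ({p : ℕ × ℕ // p.1 ∈ L ∧ p.2 ∈ L ∧ p.1 < p.2} ⊕ {a // a ∈ L ∧ a ≠ o}) →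
      FreeMalcev F ℕ := fun k => Sum.elim (fun p => S p.1.1 p.1.2) (fun a => D a.1) k with hg
  set f : ({p : ℕ × ℕ // p.1 ∈ L ∧ p.2 ∈ L ∧ p.1 < p.2} ⊕ {a // a ∈ L ∧ a ≠ o}) →
      (Bh F →ₗ[F] Ex F) := fun k => Sum.elim (fun p => f1 p.1.1 p.1.2) (fun a => f2 L a.1) k with hf
  -- values
  have vz : ∀ {a b : ℕ}, a ∈ L → b ∈ L → a ≠ b → ∀ i j,
      (phi F (Fp a b)).z i j * (xe F i * xe F j) =
      if (i = a ∧ j = b) ∨ (i = b ∧ j = a) then (240 : F) • Ω else 0 :=
    fun ha hb hab i j => Fp_z hL hFp ha hb hab i j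
  have vw : ∀ {a b : ℕ}, a ∈ L → b ∈ L → a ≠ b → ∀ i,
      (phi F (Fp a b)).w i * xe F i = if i = a then (240 : F) • Ω else 0 :=
    fun ha hb hab i => Fp_w hL hFp ha hb hab i
  have zS : ∀ {c d : ℕ}, c ∈ L → d ∈ L → c ≠ d → ∀ i j,
      (phi F (S c d)).z i j * (xe F i * xe F j) =
      if (i = c ∧ j = d) ∨ (i = d ∧ j = c) then (480 : F) • Ω else 0 := by
    intro c d hc hd hcd i j
    have e : phi F (S c d) = phi F (Fp c d) + phi F (Fp d c) := map_add (phi F) _ _
    rw [e, Bh.z_add, add_mul, vz hc hd hcd, vz hd hc hcd.symm]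
    by_cases h : (i = c ∧ j = d) ∨ (i = d ∧ j = c)
    · rw [if_pos h, if_pos h.symm, if_pos h, ← add_smul]
      norm_num
    · rw [if_neg h, if_neg (fun h' => h h'.symm), if_neg h, add_zero]
  have zD : ∀ {c : ℕ}, c ∈ L → c ≠ o → ∀ i j,
      (phi F (D c)).z i j * (xe F i * xe F j) = 0 := by
    intro c hc hco i j
    have e : phi F (D c) = phi F (Fp c o) - phi F (Fp o c) := map_sub (phi F) _ _
    rw [e, Bh.z_sub, sub_mul, vz hc ho hco, vz ho hc hco.symm]
    by_cases h : (i = c ∧ j = o) ∨ (i = o ∧ j = c)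
    · rw [if_pos h, if_pos h.symm, sub_self]
    · rw [if_neg h, if_neg (fun h' => h h'.symm), sub_self]
  have wS : ∀ {c d : ℕ}, c ∈ L → d ∈ L → c ≠ d → ∀ i,
      (phi F (S c d)).w i * xe F i = if i = c ∨ i = d then (240 : F) • Ω else 0 := by
    intro c d hc hd hcd i
    have e : phi F (S c d) = phi F (Fp c d) + phi F (Fp d c) := map_add (phi F) _ _
    rw [e, Bh.w_add, add_mul, vw hc hd hcd, vw hd hc hcd.symm]
    by_cases h : i = c
    · have h' : i ≠ d := fun e' => hcd (h.symm.trans e')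
      rw [if_pos h, if_neg h', if_pos (Or.inl h), add_zero]
    · by_cases h' : i = d
      · rw [if_neg h, if_pos h', if_pos (Or.inr h'), zero_add]
      · rw [if_neg h, if_neg h', if_neg (by tauto), add_zero]
  have wD : ∀ {c : ℕ}, c ∈ L → c ≠ o → ∀ i, i ≠ o →
      (phi F (D c)).w i * xe F i = if i = c then (240 : F) • Ω else 0 := by
    intro c hc hco i hi
    have e : phi F (D c) = phi F (Fp c o) - phi F (Fp o c) := map_sub (phi F) _ _
    rw [e, Bh.w_sub, sub_mul, vw hc ho hco, vw ho hc hco.symm, if_neg hi, sub_zero]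
  refine inj_of_dual g phL f ?_ ?_ (q := q) ?_ h0
  · rintro (⟨⟨a, b⟩, ha, hb, hab⟩ | ⟨a, ha, hao⟩) (⟨⟨c, d⟩, hc, hd, hcd⟩ | ⟨c, hc, hco⟩) hne
    · show f1 a b (phi F (S c d)) = 0
      simp only at ha hb hab hc hd hcd
      rw [f1_apply, zS hc hd hcd.ne, if_neg]
      rintro (⟨rfl, rfl⟩ | ⟨rfl, rfl⟩)
      · exact hne rfl
      · omega
    · show f1 a b (phi F (D c)) = 0
      rw [f1_apply, zD hc hco]
    · show f2 L a (phi F (S c d)) = 0
      simp only at hc hd hcd
      rw [f2_apply, wS hc hd hcd.ne, Finset.sum_congr rfl fun j _ => zS hc hd hcd.ne a j]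
      by_cases h1 : a = c
      · subst h1
        rw [if_pos (Or.inl rfl), Finset.sum_eq_single_of_mem d hd]
        · rw [if_pos (Or.inl ⟨rfl, rfl⟩), smul_smul, sub_eq_zero]
          norm_num
        · intro j _ hj
          rw [if_neg]
          rintro (⟨-, h⟩ | ⟨h, -⟩)
          · exact hj h
          · omega
      · by_cases h2 : a = d
        · subst h2
          rw [if_pos (Or.inr rfl), Finset.sum_eq_single_of_mem c hc]
          · rw [if_pos (Or.inr ⟨rfl, rfl⟩), smul_smul, sub_eq_zero]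
            norm_num
          · intro j _ hj
            rw [if_neg]
            rintro (⟨h, -⟩ | ⟨-, h⟩)
            · exact h1 h
            · exact hj h
        · rw [if_neg (by tauto), smul_zero, zero_sub, neg_eq_zero]
          refine Finset.sum_eq_zero fun j _ => ?_
          rw [if_neg]
          rintro (⟨h, -⟩ | ⟨h, -⟩)
          · exact h1 h
          · exact h2 h
    · show f2 L a (phi F (D c)) = 0
      have hac : a ≠ c := by
        rintro rfl
        exact hne rfl
      rw [f2_apply, wD hc hco a hao, if_neg hac, smul_zero, zero_sub, neg_eq_zero]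
      exact Finset.sum_eq_zero fun j _ => zD hc hco a j
  · rintro (⟨⟨a, b⟩, ha, hb, hab⟩ | ⟨a, ha, hao⟩)
    · show f1 a b (phi F (S a b)) ≠ 0
      simp only at ha hb hab
      rw [f1_apply, zS ha hb hab.ne, if_pos (Or.inl ⟨rfl, rfl⟩)]
      exact hΩ0
    · show f2 L a (phi F (D a)) ≠ 0
      rw [f2_apply, wD ha hao a hao, if_pos rfl,
        Finset.sum_eq_zero (fun j _ => zD ha hao a j), sub_zero, smul_smul]
      convert hΩ0 using 2
      norm_num
  · refine (WLm_gen hL hFp).trans ?_ hq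
    rw [Submodule.span_le]
    rintro x ⟨a, ha, b, hb, hab, rfl⟩
    have key : Fp a b = (1 / 2 : F) • (S a b + D a - D b) := by
      have k2 : (2 : F) • Fp a b = S a b + D a - D b := by
        by_cases h1 : a = o
        · subst h1
          simp only [hS, hD]
          module
        · by_cases h2 : b = o
          · subst h2
            simp only [hS, hD]
            module
          · have t := Fp_triangle hL hFp ha hb ho hab h2 h1
            simp only [hS, hD]
            have t' : Fp b a = Fp a b + (Fp b o - Fp o b) + (Fp o a - Fp a o) := by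
              rw [← sub_eq_zero, ← neg_eq_zero]
              rw [← t]
              abel
            rw [t']
            module
      rw [← k2, smul_smul]
      norm_num
    have hSm : S a b ∈ Submodule.span F (Set.range g) := by
      rcases lt_or_gt_of_ne hab with h | h
      · exact Submodule.subset_span ⟨Sum.inl ⟨(a, b), ha, hb, h⟩, rfl⟩
      · have e : S a b = S b a := by simp only [hS]; abel
        rw [e]
        exact Submodule.subset_span ⟨Sum.inl ⟨(b, a), hb, ha, h⟩, rfl⟩
    have hDm : ∀ c ∈ L, D c ∈ Submodule.span F (Set.range g) := by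
      intro c hc
      by_cases h : c = o
      · have e : D c = 0 := by
          subst h
          simp only [hD, sub_self]
        rw [e]
        exact Submodule.zero_mem _
      · exact Submodule.subset_span ⟨Sum.inr ⟨c, hc, h⟩, rfl⟩
    rw [SetLike.mem_coe, key]
    exact Submodule.smul_mem _ _ (Submodule.sub_mem _ (Submodule.add_mem _ hSm (hDm a ha)) (hDm b hb))

open C7bAux in
/-- `Th` vanishes on `phi (WLm F 6)`: for `Fp a b` it is `2 * 240 - 2 * 240 = 0` by `Fp_w`, `Fp_z`. -/
theorem Th_W {L : Finset ℕ} (hL : L.card = 7) {q : FreeMalcev F ℕ} (hq : q ∈ WLm F 6 L.val) :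
    Th L (phi F q) = 0 := by
  obtain ⟨Fp, hFp0, hFp⟩ := exists_Fp (F := F) hL
  have h1 : Submodule.span F {q | ∃ a ∈ L, ∃ b ∈ L, a ≠ b ∧ q = Fp a b} ≤
      LinearMap.ker (Th L ∘ₗ phL) := by
    rw [Submodule.span_le]
    rintro x ⟨a, ha, b, hb, hab, rfl⟩
    rw [SetLike.mem_coe, LinearMap.mem_ker, LinearMap.comp_apply, phL_apply, Th_apply,
      Finset.sum_congr rfl fun i _ => Fp_w hL hFp ha hb hab i,
      Finset.sum_congr rfl fun i _ => Finset.sum_congr rfl fun j _ => Fp_z hL hFp ha hb hab i j]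
    rw [Finset.sum_ite_eq' L a, if_pos ha, sub_eq_zero]
    have e : ∀ i ∈ L, (∑ j ∈ L, if (i = a ∧ j = b) ∨ (i = b ∧ j = a) then
        (240 : F) • px F L.toList else 0) =
        (if i = a then (240 : F) • px F L.toList else 0) +
          (if i = b then (240 : F) • px F L.toList else 0) := by
      intro i _
      by_cases h1 : i = a
      · have h2 : i ≠ b := fun e => hab (h1.symm.trans e)
        rw [if_pos h1, if_neg h2, add_zero, Finset.sum_eq_single_of_mem b hb]
        · rw [if_pos (Or.inl ⟨h1, rfl⟩)]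
        · intro j _ hj
          rw [if_neg]
          rintro (⟨-, h⟩ | ⟨h, -⟩)
          · exact hj h
          · exact h2 h
      · by_cases h2 : i = b
        · rw [if_neg h1, if_pos h2, zero_add, Finset.sum_eq_single_of_mem a ha]
          · rw [if_pos (Or.inr ⟨h2, rfl⟩)]
          · intro j _ hj
            rw [if_neg]
            rintro (⟨h, -⟩ | ⟨-, h⟩)
            · exact h1 h
            · exact hj h
        · rw [if_neg h1, if_neg h2, add_zero]
          refine Finset.sum_eq_zero fun j _ => ?_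
          rw [if_neg]
          rintro (⟨h, -⟩ | ⟨h, -⟩)
          · exact h1 h
          · exact h2 h
    rw [Finset.sum_congr rfl e, Finset.sum_add_distrib, Finset.sum_ite_eq' L a,
      Finset.sum_ite_eq' L b, if_pos ha, if_pos hb]
    module
  exact h1 (WLm_gen hL hFp hq)

open C7bAux in
/-- Let `l` enumerate `L`; `q = q' + β H`; `0 = Th (phi q) = β 1920 px(..)`, so `β = 0` (`px_ne_zero`), and `inj7a`. -/
theorem inj7 {L : Finset ℕ} (hL : L.card = 7) {q : FreeMalcev F ℕ} (hq : q ∈ Em F 5 L.val)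
    (h0 : phi F q = 0) : q = 0 := by
  have hlen : L.toList.length = 7 := by rw [Finset.length_toList, hL]
  obtain ⟨l, hl⟩ : ∃ l : Fin 7 → ℕ, List.ofFn l = L.toList := by
    refine ⟨fun i => L.toList.get (Fin.cast hlen.symm i), ?_⟩
    apply List.ext_getElem
    · rw [List.length_ofFn, hlen]
    · intro n h1 h2
      rw [List.getElem_ofFn]
      rfl
  have hlL : Multiset.ofList (List.ofFn l) = L.val := by
    rw [hl]
    exact Finset.coe_toList L
  have h1 := Em_seven_H (F := F) l
  rw [hlL] at h1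
  obtain ⟨q', hq', x, hx, rfl⟩ := Submodule.mem_sup.1 (h1 hq)
  obtain ⟨β, rfl⟩ := Submodule.mem_span_singleton.1 hx
  have hofn : List.ofFn l = [l 0, l 1, l 2, l 3, l 4, l 5, l 6] := by
    simp only [List.ofFn_succ, List.ofFn_zero]
    rfl
  have hnd : [l 0, l 1, l 2, l 3, l 4, l 5, l 6].Nodup := by
    rw [← hofn, hl]
    exact Finset.nodup_toList L
  have hperm : [l 5, l 6, l 0, l 1, l 2, l 3, l 4].Perm [l 0, l 1, l 2, l 3, l 4, l 5, l 6] :=
    List.perm_append_comm (l₁ := [l 5, l 6]) (l₂ := [l 0, l 1, l 2, l 3, l 4])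
  have hnd' : [l 5, l 6, l 0, l 1, l 2, l 3, l 4].Nodup := hperm.nodup_iff.2 hnd
  have hS : ∀ i ∈ [l 5, l 6, l 0, l 1, l 2, l 3, l 4], i ∈ L := by
    intro i hi
    have := hperm.mem_iff.1 hi
    rw [← hofn, hl, Finset.mem_toList] at this
    exact this
  have e1 := Th_H (F := F) hnd' hS
  have e2 : phi F (ee F (FreeMalcev.of (l 0)) (FreeMalcev.of (l 1)) (FreeMalcev.of (l 2))
        (FreeMalcev.of (l 3)) (FreeMalcev.of (l 4)) (FreeMalcev.of (l 5) * FreeMalcev.of (l 6))) =
      ee F (Bh.lt F (l 0)) (Bh.lt F (l 1)) (Bh.lt F (l 2)) (Bh.lt F (l 3)) (Bh.lt F (l 4))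
      (Bh.lt F (l 5) * Bh.lt F (l 6)) := by
    rw [hom_ee, map_mul, phi_of, phi_of, phi_of, phi_of, phi_of, phi_of, phi_of]
  have e3 := congrArg (Th L) h0
  rw [map_add, map_add, Th_W hL hq', zero_add, map_smul, map_smul, e2, e1, map_zero, smul_smul] at e3
  have hβ : β = 0 := by
    have := smul_eq_zero.1 e3
    rcases this with h | h
    · have h1920 : (1920 : F) ≠ 0 := by norm_num
      exact (mul_eq_zero.1 h).resolve_right h1920
    · exact absurd h (px_ne_zero F hnd')
  subst hβ
  rw [zero_smul, add_zero] at h0 ⊢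
  exact inj7a hL hq' h0

/-- **Injectivity.** Cases `card < 6` (`Em_small`), `6` (`inj6`, `Em_six_letters`), `7` (`inj7`), `≥ 8` (`inj8`, `Em_le`); `Qid_GM`. -/
theorem Q_inj_aux {L : Finset ℕ} (h8 : 8 ≤ L.card → ∀ q : FreeMalcev F ℕ,
    q ∈ VLm F L.val ⊔ ZLm F L.val → phi F q = 0 → q = 0) {q : FreeMalcev F ℕ}
    (hq : q ∈ Em F 5 L.val) (h8' : 8 ≤ L.card → Em F 5 L.val ≤ VLm F L.val ⊔ ZLm F L.val)
    (h0 : phi F q = 0) : q = 0 := by
  rcases lt_or_ge L.card 6 with h | h
  · have e := Em_small F (m := L.val) h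
    rw [e] at hq
    exact (Submodule.mem_bot F).1 hq
  · rcases eq_or_lt_of_le h with h6 | h6
    · exact inj6 h6.symm (Em_six_letters F (m := L.val) h6.symm hq) h0
    · rcases eq_or_lt_of_le (Nat.succ_le_of_lt h6) with h7 | h7
      · exact inj7 h7.symm hq h0
      · exact h8 h7 q (h8' h7 hq) h0

end Pool.Agent.Malc
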