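import Pool.Agent.Malc.CSp8
import Pool.Agent.Malc.CPhi

/-! # Part C: injectivity for at least eight letters -/

set_option autoImplicit false

open scoped BigOperators

namespace Pool.Agent.Malc

universe u

variable {F : Type u} [Field F] [CharZero F]

namespace C8Aux

set_option linter.unusedSectionVars false

/-- the index type -/
abbrev Idx (L : Finset ℕ) : Type :=
  {a : ℕ // a ∈ L} ⊕ {p : ℕ × ℕ // p.1 ∈ L ∧ p.2 ∈ L ∧ p.1 < p.2}

variable (F) in
/-- the generators -/
noncomputable def gen (L : Finset ℕ) : Idx L → FreeMalcev F ℕ :=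
  Sum.elim
    (fun a => wf F ((L.erase a.1).toList.map FreeMalcev.of) (FreeMalcev.of a.1))
    (fun p => Zt F (((L.erase p.1.1).erase p.1.2).toList.map FreeMalcev.of)
      (FreeMalcev.of p.1.1) (FreeMalcev.of p.1.2))

variable (F) in
/-- the `w`-component -/
noncomputable def wL (a : ℕ) : Bh F →ₗ[F] Ex F where
  toFun x := x.w a
  map_add' _ _ := rfl
  map_smul' _ _ := rfl

variable (F) in
/-- the `z`-component -/
noncomputable def zL (a c : ℕ) : Bh F →ₗ[F] Ex F where
  toFun x := x.z a c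
  map_add' _ _ := rfl
  map_smul' _ _ := rfl

variable (F) in
/-- the dual family -/
noncomputable def dual (L : Finset ℕ) : Idx L → Bh F →ₗ[F] Ex F :=
  Sum.elim (fun a => wL F a.1) (fun p => zL F p.1.1 p.1.2)

theorem len1 {L : Finset ℕ} (hL : 8 ≤ L.card) {a : ℕ} (ha : a ∈ L) :
    7 ≤ (L.erase a).toList.length := by
  rw [Finset.length_toList, Finset.card_erase_of_mem ha]
  omega

theorem len2 {L : Finset ℕ} (hL : 8 ≤ L.card) {a c : ℕ} (ha : a ∈ L) (hc : c ∈ L) (h : a ≠ c) :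
    6 ≤ ((L.erase a).erase c).toList.length := by
  rw [Finset.length_toList, Finset.card_erase_of_mem (Finset.mem_erase.mpr ⟨h.symm, hc⟩),
    Finset.card_erase_of_mem ha]
  omega

theorem c480 : (480 : F) ≠ 0 := by
  have : ((480 : ℕ) : F) ≠ 0 := Nat.cast_ne_zero.mpr (by norm_num)
  exact_mod_cast this

theorem dual_off {L : Finset ℕ} (hL : 8 ≤ L.card) (k k' : Idx L) (h : k ≠ k') :
    dual F L k (((phi F : FreeMalcev F ℕ →ₙₐ[F] Bh F) : FreeMalcev F ℕ →ₗ[F] Bh F)
      (gen F L k')) = 0 := by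
  rcases k with ⟨a, ha⟩ | ⟨⟨a, c⟩, ha, hc, hac⟩ <;>
    rcases k' with ⟨a', ha'⟩ | ⟨⟨a', c'⟩, ha', hc', hac'⟩
  · show (phi F (wf F ((L.erase a').toList.map FreeMalcev.of) (FreeMalcev.of a'))).w a = 0
    rw [phi_wf, Bh.wf_lt_w (len1 hL ha'), if_neg]
    intro h'
    subst h'
    exact h rfl
  · show (phi F (Zt F (((L.erase a').erase c').toList.map FreeMalcev.of)
      (FreeMalcev.of a') (FreeMalcev.of c'))).w a = 0
    rw [phi_Zt, Bh.Zt_lt_w (len2 hL ha' hc' (ne_of_lt hac'))]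
  · show (phi F (wf F ((L.erase a').toList.map FreeMalcev.of) (FreeMalcev.of a'))).z a c = 0
    rw [phi_wf, Bh.wf_lt_z (len1 hL ha')]
  · show (phi F (Zt F (((L.erase a').erase c').toList.map FreeMalcev.of)
      (FreeMalcev.of a') (FreeMalcev.of c'))).z a c = 0
    simp only at hac hac'
    rw [phi_Zt, Bh.Zt_lt_z (len2 hL ha' hc' (ne_of_lt hac')), if_neg, if_neg]
    · simp
    · rintro ⟨h1, h2⟩
      omega
    · rintro ⟨h1, h2⟩
      subst h1
      subst h2
      exact h rfl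

theorem dual_on {L : Finset ℕ} (hL : 8 ≤ L.card) (k : Idx L) :
    dual F L k (((phi F : FreeMalcev F ℕ →ₙₐ[F] Bh F) : FreeMalcev F ℕ →ₗ[F] Bh F)
      (gen F L k)) ≠ 0 := by
  rcases k with ⟨a, ha⟩ | ⟨⟨a, c⟩, ha, hc, hac⟩
  · show (phi F (wf F ((L.erase a).toList.map FreeMalcev.of) (FreeMalcev.of a))).w a ≠ 0
    rw [phi_wf, Bh.wf_lt_w (len1 hL ha), if_pos rfl]
    exact smul_ne_zero c480 (px_ne_zero F (Finset.nodup_toList _))
  · show (phi F (Zt F (((L.erase a).erase c).toList.map FreeMalcev.of)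
      (FreeMalcev.of a) (FreeMalcev.of c))).z a c ≠ 0
    simp only at hac
    rw [phi_Zt, Bh.Zt_lt_z (len2 hL ha hc (ne_of_lt hac)), if_pos ⟨rfl, rfl⟩, if_neg, sub_zero]
    · exact smul_ne_zero c480 (rv_ne_zero F (px_ne_zero F (Finset.nodup_toList _)))
    · rintro ⟨h1, h2⟩
      omega

theorem gen_mem (L : Finset ℕ) (k : Idx L) :
    gen F L k ∈ Submodule.span F (Set.range (gen F L)) :=
  Submodule.subset_span ⟨k, rfl⟩

theorem mem_of_or {M : Type*} [AddCommGroup M] [Module F M] {S : Submodule F M} {x y : M}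
    (hy : y ∈ S) (h : x = y ∨ x = -y) : x ∈ S := by
  rcases h with h | h
  · rw [h]; exact hy
  · rw [h]; exact S.neg_mem hy

theorem perm_erase {L : Finset ℕ} {V : List ℕ} {a : ℕ} (h : (V : Multiset ℕ) + {a} = L.val) :
    a ∈ L ∧ V.Perm (L.erase a).toList := by
  classical
  have ha : a ∈ L := by
    rw [← Finset.mem_val, ← h]
    simp
  refine ⟨ha, ?_⟩
  rw [← Multiset.coe_eq_coe, Finset.coe_toList, Finset.erase_val, ← h]
  rw [add_comm, Multiset.singleton_add, Multiset.erase_cons_head]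

theorem VLm_le {L : Finset ℕ} : VLm F L.val ≤ Submodule.span F (Set.range (gen F L)) := by
  refine Submodule.span_le.mpr ?_
  rintro q ⟨V, a, hV, hc, rfl⟩
  obtain ⟨ha, hp⟩ := perm_erase hc
  have h1 := SkewL.perm (wf_skew F (FreeMalcev.isMalcev (F := F) (X := ℕ))
    (V.map FreeMalcev.of).length (by simpa using hV) (FreeMalcev.of a))
    (hp.map FreeMalcev.of) rfl
  exact mem_of_or (gen_mem L (Sum.inl ⟨a, ha⟩)) h1

theorem ZLm_aux {L : Finset ℕ} {U : List ℕ} {a c : ℕ} (hU : 6 ≤ U.length)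
    (hm : (U : Multiset ℕ) + {a} + {c} = L.val) (hac : a < c) :
    Zt F (U.map FreeMalcev.of) (FreeMalcev.of a) (FreeMalcev.of c) ∈
      Submodule.span F (Set.range (gen F L)) := by
  classical
  have ha : a ∈ L := by
    rw [← Finset.mem_val, ← hm]
    simp
  have hc : c ∈ L := by
    rw [← Finset.mem_val, ← hm]
    simp
  have hp : U.Perm ((L.erase a).erase c).toList := by
    rw [← Multiset.coe_eq_coe, Finset.coe_toList, Finset.erase_val, Finset.erase_val, ← hm]
    have e : (U : Multiset ℕ) + {a} + {c} = a ::ₘ c ::ₘ (U : Multiset ℕ) := by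
      rw [← Multiset.singleton_add, ← Multiset.singleton_add]
      abel
    rw [e, Multiset.erase_cons_head, Multiset.erase_cons_head]
  have h1 := SkewL.perm (Zt_skew F (FreeMalcev.isMalcev (F := F) (X := ℕ))
    (U.map FreeMalcev.of).length (by simpa using hU) (FreeMalcev.of a) (FreeMalcev.of c))
    (hp.map FreeMalcev.of) rfl
  exact mem_of_or (gen_mem L (Sum.inr ⟨(a, c), ha, hc, hac⟩)) h1

theorem ZLm_le {L : Finset ℕ} : ZLm F L.val ≤ Submodule.span F (Set.range (gen F L)) := by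
  classical
  refine Submodule.span_le.mpr ?_
  rintro q ⟨U, a, c, hU, hm, rfl⟩
  rcases lt_trichotomy a c with h | h | h
  · exact ZLm_aux hU hm h
  · exfalso
    subst h
    have hn := L.nodup
    rw [← hm, Multiset.nodup_iff_count_le_one] at hn
    have := hn a
    simp only [Multiset.count_add, Multiset.count_singleton_self] at this
    omega
  · refine mem_of_or ?_ (Zt_symm F (FreeMalcev.isMalcev (F := F) (X := ℕ))
      (U.map FreeMalcev.of) (by simpa using hU) (FreeMalcev.of a) (FreeMalcev.of c))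
    exact ZLm_aux hU (by rw [← hm, add_right_comm]) h

end C8Aux

/-- Use `inj_of_dual` with index type `{a // a ∈ L} ⊕ {p : ℕ × ℕ // p.1 ∈ L ∧ p.2 ∈ L ∧ p.1 < p.2}`,
`g (inl a) = wf F ((L.erase a).toList.map of) (of a)`, `g (inr (a, c)) = Zt F (((L.erase a).erase c).toList.map of) (of a) (of c)`,
`φ = phi F` as a linear map, `f (inl a) x = x.w a`, `f (inr (a, c)) x = x.z a c` (values: `Bh.wf_lt_w`, `Bh.wf_lt_z`, `Bh.Zt_lt_w`, `Bh.Zt_lt_z`; nonzero by `px_ne_zero`, `rv_ne_zero`).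
The span of the `g k` contains all generators of `VLm` and `ZLm`: the list `V` of a generator is a permutation of `(L.erase a).toList`, so
`wf F (V.map of) (of a) = ± g (inl a)` (`wf_skew`, `SkewL.perm`, for the mapped lists); similarly `Zt_skew`, and `Zt_symm` if `c < a` (`a = c` is impossible as
`L.val` has no repetitions). -/
theorem inj8 {L : Finset ℕ} (hL : 8 ≤ L.card) {q : FreeMalcev F ℕ}
    (hq : q ∈ VLm F L.val ⊔ ZLm F L.val) (h0 : phi F q = 0) : q = 0 := by
  refine inj_of_dual (C8Aux.gen F L)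
    ((phi F : FreeMalcev F ℕ →ₙₐ[F] Bh F) : FreeMalcev F ℕ →ₗ[F] Bh F) (C8Aux.dual F L)
    (C8Aux.dual_off hL) (C8Aux.dual_on hL) ?_ h0
  have h1 : VLm F L.val ⊔ ZLm F L.val ≤ Submodule.span F (Set.range (C8Aux.gen F L)) :=
    sup_le C8Aux.VLm_le C8Aux.ZLm_le
  exact h1 hq

end Pool.Agent.Malc
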