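import Pool.Agent.Malc.C7b
import Pool.Agent.Malc.C8
import Pool.Agent.Malc.CS3

/-! # Part C: the end game -/

set_option autoImplicit false

open scoped BigOperators

namespace Pool.Agent.Malc

universe u

variable {F : Type u} [Field F] [CharZero F]

namespace CEndAux

omit [CharZero F] in
theorem content_ne_zero (w : FreeMagma ℕ) : 1 ≤ Multiset.card (content w) := by
  induction w with
  | ih1 i => show 1 ≤ Multiset.card ({i} : Multiset ℕ); simp
  | ih2 a b iha ihb =>
    show 1 ≤ Multiset.card (content a + content b)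
    rw [Multiset.card_add]
    omega

theorem content_single {w : FreeMagma ℕ} {i : ℕ} (h : content w = {i}) : w = FreeMagma.of i := by
  cases w with
  | of j =>
    have h' : ({j} : Multiset ℕ) = {i} := h
    rw [Multiset.singleton_inj.1 h']
  | mul a b =>
    exfalso
    have h' : content a + content b = {i} := h
    have h1 := congrArg Multiset.card h'
    rw [Multiset.card_add, Multiset.card_singleton] at h1
    have h2 := content_ne_zero a
    have h3 := content_ne_zero b
    omega

omit [CharZero F] in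
theorem mk_eq_ev (p : FA F) : (FreeMalcev.mk p : FreeMalcev F ℕ) =
    ev (fun i => (FreeMalcev.of i : FreeMalcev F ℕ)) p := by
  have h : (FreeMalcev.mkHom : FA F →ₙₐ[F] FreeMalcev F ℕ) =
      ev (fun i => (FreeMalcev.of i : FreeMalcev F ℕ)) := by
    apply FreeNonUnitalNonAssocAlgebra.hom_ext
    intro i
    show (FreeMalcev.mk (FreeNonUnitalNonAssocAlgebra.of F i) : FreeMalcev F ℕ) = _
    rw [ev_of]
    rfl
  exact DFunLike.congr_fun h p

omit [CharZero F] in
theorem phi_ev (σ : ℕ → ℕ) (p : FA F) :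
    phi F (ev (fun i => (FreeMalcev.of (σ i) : FreeMalcev F ℕ)) p) =
      ev (fun k => Bh.lt F (σ k)) p := by
  rw [hom_ev]
  refine congrArg (fun z : ℕ → Bh F => ev z p) (funext fun i => ?_)
  exact phi_of F (σ i)

omit [CharZero F] in
theorem phi_mk (p : FA F) : phi F (FreeMalcev.mk p) = ev (Bh.lt F) p := by
  rw [mk_eq_ev]
  exact phi_ev (fun k => k) p

end CEndAux

open CEndAux

/-- **Injectivity** of `phi` on the multilinear elements of `Qid` (`Qid_GM`, `Q_inj_aux`, `inj8`, `Em_le`). -/
theorem Q_inj {L : Finset ℕ} {q : FreeMalcev F ℕ} (hq : q ∈ Qid F (FreeMalcev F ℕ))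
    (hm : q ∈ GM F L.val) (h0 : phi F q = 0) : q = 0 :=
  Q_inj_aux (L := L) (fun h _ hq' h0' => inj8 h hq' h0') (Qid_GM F hq hm)
    (fun h => Em_le F h) h0

/-- (S3). Let `2 ≤ L.card`. `P = ev (lt) p = phi (ev of p)`, `P' = ev (fun k => lt (k + N)) p = phi (ev (fun k => of (k + N)) p)` with `N` larger than all elements of `L`
(`hom_ev`, `phi_of`). `ht` and `phi`: `P * P' = 0`, no `v`-parts (`ev_v`), so for all `i j`: `P'.w j * rv (P.w i) = P.w j * rv (P'.w i)` (`Bh.z_mul`). Let `i ∈ L` and take the indices `i` and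
`i + N`: `P.w (i + N) = 0` (`ev_w_out`, `σ = id`), so `P'.w (i + N) * rv (P.w i) = 0`. By `ev_w` (`l0 = (L.erase i).toList`, `σ = id` and `σ = (· + N)`) it is
`c * c • px (l0.map (· + N)) * px l0.reverse` (`rv_px`), a product over a nodup list (`px_append`, `px_ne_zero`), so `c = 0` and `P.w i = 0`. For `i ∉ L`: `ev_w_out`. -/
theorem S3_w {L : Finset ℕ} (hL : 2 ≤ L.card) {p : FA F} (hp : p ∈ Hg F L.val)
    (ht : ∀ x y : ℕ → FreeMalcev F ℕ, ev x p * ev y p = 0) (i : ℕ) :
    (ev (Bh.lt F) p).w i = 0 := by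
  have hL' : 2 ≤ Multiset.card L.val := hL
  by_cases hi : i ∈ L
  · obtain ⟨N, hN⟩ : ∃ N : ℕ, ∀ k ∈ L, k < N := ⟨L.sup id + 1, fun k hk =>
      Nat.lt_succ_of_le (Finset.le_sup (f := id) hk)⟩
    have h1 := congrArg (phi F) (ht (fun k => FreeMalcev.of k) (fun k => FreeMalcev.of (k + N)))
    rw [map_mul, map_zero, phi_ev (fun k => k), phi_ev (fun k => k + N)] at h1
    have hv := ev_v hp hL' (fun k => Bh.lt F k)
    have hv' := ev_v hp hL' (fun k => Bh.lt F (k + N))
    have hw0 : (ev (fun k => Bh.lt F k) p).w (i + N) = 0 := by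
      apply ev_w_out hp hL' (fun k => k) (i + N)
      intro h
      rw [Multiset.mem_map] at h
      obtain ⟨k, hk, hk'⟩ := h
      have := hN k hk
      omega
    have h2 := congrArg (fun b : Bh F => b.z i (i + N)) h1
    simp only [Bh.z_mul, Bh.z_zero, hv, hv', hw0, Finsupp.coe_zero, Pi.zero_apply, zero_smul,
      sub_zero, zero_add, zero_mul] at h2
    -- the coefficient
    obtain ⟨c, hc⟩ := ev_w hp hL' i (L.erase i).toList (by
      have : ((L.erase i).toList : Multiset ℕ) = L.val.erase i := by
        rw [Finset.coe_toList, Finset.erase_val]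
      rw [this, add_comm, Multiset.singleton_add]
      exact Multiset.cons_erase hi)
    have hc1 := hc (fun k => k) (fun a b h => h)
    have hc2 := hc (fun k => k + N) (fun a b h => Nat.add_right_cancel h)
    have hc1' : (ev (fun k => Bh.lt F k) p).w i = c • px F (L.erase i).toList := by
      rw [hc1]
      congr 2
      exact List.map_id _
    have hc2' : (ev (fun k => Bh.lt F (k + N)) p).w (i + N) =
        c • px F ((L.erase i).toList.map (fun k => k + N)) := hc2
    rw [hc1', hc2', map_smul, rv_px, smul_mul_smul_comm, ← px_append] at h2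
    have hnd : ((L.erase i).toList.map (fun k => k + N) ++ (L.erase i).toList.reverse).Nodup := by
      rw [List.nodup_append]
      refine ⟨(Finset.nodup_toList _).map fun a b h => Nat.add_right_cancel h,
        List.nodup_reverse.2 (Finset.nodup_toList _), ?_⟩
      intro a ha b hb hab
      rw [List.mem_map] at ha
      obtain ⟨k, _, rfl⟩ := ha
      rw [List.mem_reverse, Finset.mem_toList] at hb
      have := hN b (Finset.mem_of_mem_erase hb)
      omega
    have h3 := (smul_eq_zero.1 h2).resolve_right (px_ne_zero F hnd)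
    have h4 : c = 0 := mul_self_eq_zero.1 h3
    show (ev (fun k => Bh.lt F k) p).w i = 0
    rw [hc1', h4, zero_smul]
  · exact ev_w_out hp hL' (fun k => k) i (by
      intro h
      rw [Multiset.mem_map] at h
      obtain ⟨k, hk, hk'⟩ := h
      apply hi
      rw [← hk']
      exact hk)

/-- elements without `v`- and `w`-part annihilate -/
theorem Bh_central {q : Bh F} (hv : q.v = 0) (hw : ∀ i, q.w i = 0) (b : Bh F) :
    q * b = 0 ∧ b * q = 0 := by
  constructor
  · apply Bh.ext
    · simp
    · intro i; simp [Bh.w_mul, hv, hw]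
    · intro i j; simp [Bh.z_mul, hv, hw]
  · apply Bh.ext
    · simp
    · intro i; simp [Bh.w_mul, hv, hw]
    · intro i j; simp [Bh.z_mul, hv, hw]

/-- `card L = 0`: `Hg F 0 = ⊥` (words have at least one letter). `card L = 1`, `L = {i}`: `p = c • wd (of i)` and
`0 = phi (ev (fun _ => of 0) p * ev (fun _ => of 1) p) = c * c • (lt 0 * lt 1)`, whose `w`-part at `1` is `c * c • xe 0`, so `c = 0`. -/
theorem small_zero {L : Finset ℕ} (hL : L.card < 2) {p : FA F} (hp : p ∈ Hg F L.val)
    (ht : ∀ x y : ℕ → FreeMalcev F ℕ, ev x p * ev y p = 0) : p = 0 := by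
  rcases Nat.lt_or_ge L.card 1 with h0 | h1
  · have hL0 : L = ∅ := Finset.card_eq_zero.1 (by omega)
    subst hL0
    have : {p : FA F | ∃ w, content w = (∅ : Finset ℕ).val ∧ p = wd w} = ∅ := by
      rw [Set.eq_empty_iff_forall_notMem]
      rintro q ⟨w, hw, _⟩
      have h2 := content_ne_zero w
      rw [hw] at h2
      simp at h2
    unfold Hg at hp
    rw [this, Submodule.span_empty, Submodule.mem_bot] at hp
    exact hp
  · have hL1 : L.card = 1 := by omega
    obtain ⟨i, rfl⟩ := Finset.card_eq_one.1 hL1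
    have h2 : Hg F ({i} : Finset ℕ).val ≤ Submodule.span F {wd (FreeMagma.of i)} := by
      unfold Hg
      apply Submodule.span_le.2
      rintro q ⟨w, hw, rfl⟩
      rw [content_single (w := w) (i := i) hw]
      exact Submodule.subset_span rfl
    obtain ⟨c, hc⟩ := Submodule.mem_span_singleton.1 (h2 hp)
    have h3 := congrArg (phi F) (ht (fun _ => FreeMalcev.of 0) (fun _ => FreeMalcev.of 1))
    rw [map_mul, map_zero, phi_ev (fun _ => 0), phi_ev (fun _ => 1), ← hc, map_smul, map_smul,
      ev_wd, ev_wd] at h3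
    have h4 := congrArg (fun b : Bh F => b.w 1) h3
    have h5 : (c * c) • xe F 0 = 0 := by
      have e0 : evw (fun _ : ℕ => Bh.lt F 0) (FreeMagma.of i) = Bh.lt F 0 := rfl
      have e1 : evw (fun _ : ℕ => Bh.lt F 1) (FreeMagma.of i) = Bh.lt F 1 := rfl
      rw [e0, e1, smul_mul_smul_comm] at h4
      have h6 : ((c * c) • (Bh.lt F 0 * Bh.lt F 1)).w 1 = (c * c) • xe F 0 := by
        rw [Bh.w_smul, Bh.w_mul]
        congr 1
        simp [Bh.lt, xe]
      rw [← h6]
      exact h4
    have h7 : xe F 0 ≠ 0 := by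
      have := px_ne_zero F (l := [0]) (List.nodup_singleton 0)
      rwa [px_singleton] at this
    have h8 := (smul_eq_zero.1 h5).resolve_right h7
    have h9 : c = 0 := mul_self_eq_zero.1 h8
    rw [← hc, h9, zero_smul]

/-- **End game.** If `L.card < 2` then `p = 0`. Otherwise `phi (mk p) = ev lt p` has no `v`- and `w`-part, so
`phi (Jac (mk p) (of n) (of n')) = 0` (`Bh_central`, `Jac` is a sum of products containing `mk p`). The element is in `GM F (insert n' (insert n L)).val` (`GM_mul`, as in `S2.lean`) and in `Qid`,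
so `Q_inj` applies. -/
theorem endgame {L : Finset ℕ} {p : FA F} (hp : p ∈ Hg F L.val)
    (ht : ∀ x y : ℕ → FreeMalcev F ℕ, ev x p * ev y p = 0) {n n' : ℕ} (hn : n ∉ L) (hn' : n' ∉ L)
    (hnn : n ≠ n')
    (hQ : Jac (FreeMalcev.mk p) (FreeMalcev.of n) (FreeMalcev.of n') ∈ Qid F (FreeMalcev F ℕ)) :
    Jac (FreeMalcev.mk p) (FreeMalcev.of n) (FreeMalcev.of n') = 0 := by
  rcases Nat.lt_or_ge L.card 2 with hL | hL
  · have h0 : p = 0 := small_zero hL hp ht
    rw [h0, map_zero]
    simp [Jac]
  · have hL' : 2 ≤ Multiset.card L.val := hL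
    have hn'L : n' ∉ insert n L := by
      rw [Finset.mem_insert]
      rintro (h | h)
      · exact hnn h.symm
      · exact hn' h
    have hofn : FreeNonUnitalNonAssocAlgebra.of F n ∈ Hg F ({n} : Multiset ℕ) := by
      rw [of_eq_wd]; exact wd_mem (FreeMagma.of n)
    have hofn' : FreeNonUnitalNonAssocAlgebra.of F n' ∈ Hg F ({n'} : Multiset ℕ) := by
      rw [of_eq_wd]; exact wd_mem (FreeMagma.of n')
    have hJ : Jac (FreeMalcev.mk p) (FreeMalcev.of n) (FreeMalcev.of n') ∈
        GM F (insert n' (insert n L)).val := by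
      refine ⟨Jac p (FreeNonUnitalNonAssocAlgebra.of F n) (FreeNonUnitalNonAssocAlgebra.of F n'),
        ?_, ?_⟩
      · have h1 := Jac_mem hp hofn hofn'
        have h2 : L.val + {n} + {n'} = (insert n' (insert n L)).val := by
          rw [Finset.insert_val_of_notMem hn'L, Finset.insert_val_of_notMem hn,
            ← Multiset.singleton_add, ← Multiset.singleton_add]
          abel
        rw [← h2]
        exact h1
      · exact hom_Jac (FreeMalcev.mkHom : FA F →ₙₐ[F] FreeMalcev F ℕ) _ _ _
    apply Q_inj (L := insert n' (insert n L)) hQ hJ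
    rw [hom_Jac, phi_mk]
    have hc := Bh_central (q := ev (Bh.lt F) p) (ev_v hp hL' (Bh.lt F)) (S3_w hL hp ht)
    unfold Jac
    rw [(hc _).1, (hc _).2, (hc _).2, zero_mul, zero_mul, add_zero, add_zero]

end Pool.Agent.Malc
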