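import Pool.Agent.Malc.CW

/-! # Part C: all elements of `Qid` are good -/

set_option autoImplicit false

namespace Pool.Agent.Malc

universe u v

namespace CGoodAux

section

variable {A : Type v} [NonUnitalNonAssocRing A]

theorem foldl_neg (L : List A) : ∀ p : A, L.foldl (· * ·) (-p) = - L.foldl (· * ·) p := by
  induction L with
  | nil => exact fun p => rfl
  | cons b L ih =>
    intro p
    simp only [List.foldl_cons, neg_mul, ih]

theorem foldl_sub (L : List A) : ∀ p q : A,
    L.foldl (· * ·) (p - q) = L.foldl (· * ·) p - L.foldl (· * ·) q := by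
  induction L with
  | nil => exact fun p q => rfl
  | cons b L ih =>
    intro p q
    simp only [List.foldl_cons, sub_mul, ih]

theorem good_zero : Good (0 : A) := by
  refine ⟨fun u v c => ?_, fun b c d => ?_⟩ <;> simp

theorem good_add {p q : A} (hp : Good p) (hq : Good q) : Good (p + q) := by
  refine ⟨fun u v c => ?_, fun b c d => ?_⟩
  · rw [add_mul, add_mul, hp.1, hq.1, add_zero]
  · have h1 := hp.2 b c d
    have h2 := hq.2 b c d
    have h3 : (((p + q) * b) * c + ((p + q) * c) * b) * d =
        ((p * b) * c + (p * c) * b) * d + ((q * b) * c + (q * c) * b) * d := by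
      simp only [add_mul]
      abel
    rw [h3, h1, h2, add_zero]

end

variable (F : Type u) [Field F] {A : Type v} [NonUnitalNonAssocRing A] [Module F A]
  [IsScalarTower F A A] [SMulCommClass F A A]

include F in
theorem good_smul (r : F) {p : A} (hp : Good p) : Good (r • p) := by
  refine ⟨fun u v c => ?_, fun b c d => ?_⟩
  · simp only [smul_mul_assoc, hp.1, smul_zero]
  · simp only [smul_mul_assoc, ← smul_add]
    rw [hp.2, smul_zero]

variable [CharZero F]

/-- the function `f x y a` -/
noncomputable def ff (bs : List A) (x0 x1 x2 x3 b c d x y a : A) : A :=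
  ((bs.foldl (· * ·) (ee F x0 x1 x2 x3 x a * y) * b) * c +
    (bs.foldl (· * ·) (ee F x0 x1 x2 x3 x a * y) * c) * b) * d

theorem fold_one (h : IsMalcev A) (bs : List A) (x0 x1 x2 x3 x y a b : A) :
    bs.foldl (· * ·) (ee F x0 x1 x2 x3 x a * y) * b =
      - (bs.foldl (· * ·) (ee F x0 x1 x2 x3 y a * x) * b) := by
  cases bs with
  | nil => exact A3' F h x0 x1 x2 x3 x y a b
  | cons b1 bs =>
    simp only [List.foldl_cons]
    rw [A3' F h x0 x1 x2 x3 x y a b1, foldl_neg, neg_mul]

theorem fold_two (h : IsMalcev A) (bs : List A) (x0 x1 x2 x3 x y a b : A) :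
    bs.foldl (· * ·) (ee F x0 x1 x2 x3 x (a * y)) * b =
      bs.foldl (· * ·) (ee F x0 x1 x2 x3 x y * a) * b -
        bs.foldl (· * ·) (ee F x0 x1 x2 x3 x a * y) * b := by
  cases bs with
  | nil => exact P_base F h x0 x1 x2 x3 x a y b
  | cons b1 bs =>
    simp only [List.foldl_cons]
    rw [P_base F h x0 x1 x2 x3 x a y b1, foldl_sub, sub_mul]

theorem ff_one (h : IsMalcev A) (bs : List A) (x0 x1 x2 x3 b c d x y a : A) :
    ff F bs x0 x1 x2 x3 b c d x y a = - ff F bs x0 x1 x2 x3 b c d y x a := by
  unfold ff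
  rw [fold_one F h bs x0 x1 x2 x3 x y a b, fold_one F h bs x0 x1 x2 x3 x y a c]
  simp only [neg_mul, add_mul]
  abel

theorem ff_two (h : IsMalcev A) (bs : List A)
    (hg : ∀ x0 x1 x2 x3 x4 a : A, Good (ew F (x0 :: x1 :: x2 :: x3 :: x4 :: bs) a))
    (x0 x1 x2 x3 b c d x y a : A) :
    ff F bs x0 x1 x2 x3 b c d x y a = ff F bs x0 x1 x2 x3 b c d x a y := by
  have h1 := (hg x0 x1 x2 x3 x (a * y)).2 b c d
  rw [ew_cons, fold_two F h bs x0 x1 x2 x3 x y a b, fold_two F h bs x0 x1 x2 x3 x y a c] at h1
  unfold ff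
  simp only [sub_mul, add_mul] at h1 ⊢
  rw [← sub_eq_zero, ← neg_eq_zero, ← h1]
  abel

theorem ff_zero (h : IsMalcev A) (bs : List A)
    (hg : ∀ x0 x1 x2 x3 x4 a : A, Good (ew F (x0 :: x1 :: x2 :: x3 :: x4 :: bs) a))
    (x0 x1 x2 x3 b c d x y a : A) :
    ff F bs x0 x1 x2 x3 b c d x y a = 0 := by
  have h1 : ff F bs x0 x1 x2 x3 b c d x y a = - ff F bs x0 x1 x2 x3 b c d x y a := by
    calc ff F bs x0 x1 x2 x3 b c d x y a
        = - ff F bs x0 x1 x2 x3 b c d y x a := ff_one F h bs x0 x1 x2 x3 b c d x y a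
      _ = - ff F bs x0 x1 x2 x3 b c d y a x := by rw [ff_two F h bs hg x0 x1 x2 x3 b c d y x a]
      _ = - - ff F bs x0 x1 x2 x3 b c d a y x := by rw [ff_one F h bs x0 x1 x2 x3 b c d y a x]
      _ = - - ff F bs x0 x1 x2 x3 b c d a x y := by rw [ff_two F h bs hg x0 x1 x2 x3 b c d a y x]
      _ = - - - ff F bs x0 x1 x2 x3 b c d x a y := by rw [ff_one F h bs x0 x1 x2 x3 b c d a x y]
      _ = - - - ff F bs x0 x1 x2 x3 b c d x y a := by rw [ff_two F h bs hg x0 x1 x2 x3 b c d x a y]
      _ = - ff F bs x0 x1 x2 x3 b c d x y a := by rw [neg_neg]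
  have h2 : (2 : F) • ff F bs x0 x1 x2 x3 b c d x y a = 0 := by
    rw [two_smul]
    nth_rewrite 1 [h1]
    exact neg_add_cancel _
  exact (smul_eq_zero.1 h2).resolve_left two_ne_zero

end CGoodAux

open CGoodAux

variable (F : Type u) [Field F] [CharZero F] {A : Type v} [NonUnitalNonAssocRing A] [Module F A]
  [IsScalarTower F A A] [SMulCommClass F A A]

/-- (C3). Induct on `bs.length = k`; `k = 0` is `good_ee`. Let `bs = b1 :: bs'` have length `k`, `q = ew F (x0::..::x4::bs) a`.
SECOND part of `Good q`: fix `x0..x3, bs', b, c, d` and put `f x y a = ((q b) c + (q c) b) d` with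
`q = bs'.foldl (e'(x0,..,x3,x;a) * y)`. (1) `f x y a = - f y x a`: the next multiplication exists (`b2`, or `b` resp. `c` if `bs' = []`), so `A3'` applies.
(2) `f x y a = f x a y`: the induction hypothesis says that `e'(x0,..,x3,x; a * y) b2 ⋯ bk` is good, and
`e'(X; a y) c' = (e'(X;y) a) c' - (e'(X;a) y) c'` (`P_base`, `c'` the next multiplication). A function with (1), (2) is `0`:
`f x y a = -f y x a = -f y a x = f a y x = f a x y = -f x a y = -f x y a`.
FIRST part: write `q = q' * bk` with `q' = ew F (init) a` good by induction; `(q (u v)) c = ((q' bk)(u v)) c = - ((q' (u v)) bk) c = 0`. -/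
theorem good_ew (h : IsMalcev A) (bs : List A) : ∀ x0 x1 x2 x3 x4 a : A,
    Good (ew F (x0 :: x1 :: x2 :: x3 :: x4 :: bs) a) := by
  obtain ⟨n, hn⟩ : ∃ n, bs.length = n := ⟨_, rfl⟩
  induction n generalizing bs with
  | zero =>
    intro x0 x1 x2 x3 x4 a
    obtain rfl := List.length_eq_zero_iff.1 hn
    exact good_ee F h x0 x1 x2 x3 x4 a
  | succ n ih =>
    intro x0 x1 x2 x3 x4 a
    refine ⟨fun u v c => ?_, fun b c d => ?_⟩
    · have hne : bs ≠ [] := by
        rintro rfl
        simp at hn
      obtain ⟨L, b, rfl⟩ : ∃ L b, bs = L ++ [b] :=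
        ⟨bs.dropLast, bs.getLast hne, (List.dropLast_append_getLast hne).symm⟩
      have hL : L.length = n := by
        rw [List.length_append] at hn
        simpa using hn
      have hg := ih L hL x0 x1 x2 x3 x4 a
      have h1 : ew F (x0 :: x1 :: x2 :: x3 :: x4 :: (L ++ [b])) a =
          ew F (x0 :: x1 :: x2 :: x3 :: x4 :: L) a * b :=
        ew_append F (xs := x0 :: x1 :: x2 :: x3 :: x4 :: L) (by simp) b a
      rw [h1]
      have h2 := hg.2 b (u * v) c
      rw [hg.1, add_zero] at h2
      exact h2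
    · cases bs with
      | nil => simp at hn
      | cons b1 bs =>
        have hL : bs.length = n := by simpa using hn
        exact ff_zero F h bs (ih bs hL) x0 x1 x2 x3 b c d x4 b1 a

theorem good_ew' (h : IsMalcev A) (xs : List A) (a : A) : Good (ew F xs a) := by
  match xs with
  | [] => exact good_zero
  | [_] => exact good_zero
  | [_, _] => exact good_zero
  | [_, _, _] => exact good_zero
  | [_, _, _, _] => exact good_zero
  | x0 :: x1 :: x2 :: x3 :: x4 :: t => exact good_ew F h t x0 x1 x2 x3 x4 a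

/-- `Qid` is spanned by the `ew F xs a`: the span is an ideal (right multiplications by `ew_append`, left ones by anticommutativity). -/
theorem Qid_eq_span (h : IsMalcev A) :
    Qid F A = Submodule.span F {q | ∃ xs : List A, 5 ≤ xs.length ∧ ∃ a, q = ew F xs a} := by
  apply le_antisymm
  · apply Qid_le
    · intro q hq b
      have hanti : ∀ x y : A, x * y = - (y * x) := by
        intro x y
        have h1 := h.sq (x + y)
        rw [mul_add, add_mul, add_mul, h.sq, h.sq, zero_add, add_zero] at h1
        exact eq_neg_of_add_eq_zero_right h1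
      have hr : q * b ∈ Submodule.span F {q | ∃ xs : List A, 5 ≤ xs.length ∧ ∃ a, q = ew F xs a} := by
        induction hq using Submodule.span_induction with
        | mem q hq =>
          obtain ⟨xs, hxs, a, rfl⟩ := hq
          apply Submodule.subset_span
          exact ⟨xs ++ [b], by rw [List.length_append]; omega, a, (ew_append F hxs b a).symm⟩
        | zero => rw [zero_mul]; exact Submodule.zero_mem _
        | add p q _ _ hp hq => rw [add_mul]; exact Submodule.add_mem _ hp hq
        | smul r q _ hq => rw [smul_mul_assoc]; exact Submodule.smul_mem _ r hq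
      exact ⟨hr, by rw [hanti]; exact Submodule.neg_mem _ hr⟩
    · intro x0 x1 x2 x3 x4 y
      apply Submodule.subset_span
      exact ⟨[x0, x1, x2, x3, x4], by simp, y, rfl⟩
  · rw [Submodule.span_le]
    rintro q ⟨xs, -, a, rfl⟩
    exact ew_mem_Qid F xs a

theorem good_Qid (h : IsMalcev A) {q : A} (hq : q ∈ Qid F A) : Good q := by
  rw [Qid_eq_span F h] at hq
  induction hq using Submodule.span_induction with
  | mem q hq =>
    obtain ⟨xs, -, a, rfl⟩ := hq
    exact good_ew' F h xs a
  | zero => exact good_zero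
  | add p q _ _ hp hq => exact good_add hp hq
  | smul r q _ hq => exact good_smul F r hq

end Pool.Agent.Malc
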