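import Pool.Agent.Malc.QDefs

/-! # Part C: Sagle's identity in operator form, consequences for good elements -/

set_option autoImplicit false

namespace Pool.Agent.Malc

universe u v

variable (F : Type u) [Field F] [CharZero F] {A : Type v} [NonUnitalNonAssocRing A] [Module F A]
  [IsScalarTower F A A] [SMulCommClass F A A]

namespace COpAux

omit [Module F A] [IsScalarTower F A A] [SMulCommClass F A A] in
theorem ac (h : IsMalcev A) (a b : A) : b * a = -(a * b) := by
  have h1 := h.sq (a + b)
  rw [mul_add, add_mul, add_mul, h.sq a, h.sq b, zero_add, add_zero] at h1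
  exact eq_neg_of_add_eq_zero_left h1

omit [IsScalarTower F A A] [SMulCommClass F A A] in
include F in
theorem cancel2 {a : A} (h : a + a = 0) : a = 0 := by
  have h2 : (2 : F) • a = 0 := by rw [two_smul]; exact h
  exact (smul_eq_zero.mp h2).resolve_left two_ne_zero

/-- the linearised Malcev identity -/
def L (x t y z : A) : A :=
  Jac x y (t * z) + Jac t y (x * z) - Jac x y z * t - Jac t y z * x

omit [Module F A] [IsScalarTower F A A] [SMulCommClass F A A] in
theorem L_eq (h : IsMalcev A) (x t y z : A) : L x t y z = 0 := by
  have h1 := h.mal (x + t) y z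
  have h2 := h.mal x y z
  have h3 := h.mal t y z
  have e1 : Jac (x + t) y ((x + t) * z) =
      Jac x y (x * z) + Jac t y (t * z) + (Jac x y (t * z) + Jac t y (x * z)) := by
    simp only [Jac, mul_add, add_mul]; abel
  have e2 : Jac (x + t) y z * (x + t) =
      Jac x y z * x + Jac t y z * t + (Jac x y z * t + Jac t y z * x) := by
    simp only [Jac, mul_add, add_mul]; abel
  rw [e1, e2, h2, h3] at h1
  have h4 := add_left_cancel h1
  unfold L
  rw [h4]; abel

end COpAux

open COpAux

include F in
/-- **Sagle's identity.** From `Jac x y (x z) = Jac x y z x`: linearise at `x` (replace `x` by `x + t`), and combine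
the resulting identities (characteristic not 2). Known: `(xz)(yt) = ((xy)z)t + ((yz)t)x + ((zt)x)y + ((tx)y)z` is equivalent to
the Malcev identity (Sagle 1961). A proof: put `L(x,t;y,z) := Jac x y (t z) + Jac t y (x z) - (Jac x y z) t - (Jac t y z) x = 0`;
Sagle's identity is a rational combination of instances of `L` and anticommutativity (find it by linear algebra on the
15 multilinear anticommutative words of degree 4). -/
theorem sagle4 (h : IsMalcev A) (x y z t : A) :
    (x * z) * (y * t) = ((x * y) * z) * t + ((y * z) * t) * x + ((z * t) * x) * y +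
      ((t * x) * y) * z := by
  rw [← sub_eq_zero]
  apply cancel2 F
  have key : ((x * z) * (y * t) - (((x * y) * z) * t + ((y * z) * t) * x + ((z * t) * x) * y +
      ((t * x) * y) * z)) + ((x * z) * (y * t) - (((x * y) * z) * t + ((y * z) * t) * x +
      ((z * t) * x) * y + ((t * x) * y) * z)) = L x y z t - L x z t y + L t x y z := by
    have r1 := ac h x y
    have r2 := ac h x z
    have r3 := ac h x t
    have r4 := ac h y z
    have r5 := ac h y t
    have r6 := ac h z t
    simp only [L, Jac, r1, r2, r3, r4, r5, r6, add_mul, neg_mul, mul_neg, neg_neg,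
      ac h (x * y) t, ac h (x * z) y, ac h (x * t) z, ac h (y * z) t, ac h (y * t) z,
      ac h (z * t) y, ac h (x * y) (z * t), ac h (x * z) (y * t), ac h (x * t) (y * z)]
    abel
  rw [key, L_eq h, L_eq h, L_eq h]; simp

include F in
/-- the operator form, `sagle4` with `x = q` -/
theorem opSagle (h : IsMalcev A) (q y z t : A) :
    (q * z) * (y * t) + (q * (z * t)) * y =
      ((q * y) * z) * t - ((q * t) * y) * z - q * ((y * z) * t) := by
  rw [sagle4 F h q y z t, ac h q ((y * z) * t), ac h q (z * t), ac h q t]
  simp only [neg_mul]
  abel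

include F in
/-- (1) for good `q`: in `opSagle` the term `(q (z t)) y` is `0` and `((q t) y) z = - ((q y) t) z`. -/
theorem good_one (h : IsMalcev A) {q : A} (hq : Good q) (y z t : A) :
    q * ((y * z) * t) = ((q * y) * z) * t + ((q * y) * t) * z - (q * z) * (y * t) := by
  have h1 := opSagle F h q y z t
  have h2 := hq.1 z t y
  have h3 := hq.2 t y z
  rw [add_mul] at h3
  have h4 : ((q * t) * y) * z = -(((q * y) * t) * z) := eq_neg_of_add_eq_zero_left h3
  rw [h2, add_zero, h4] at h1
  rw [h1]; abel

include F in
/-- (1'), `p` a product: by `good_one` with `y = p`; the first two terms vanish because `q p` is killed by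
every multiplication (first part of `Good q`). -/
theorem good_one' (h : IsMalcev A) {q : A} (hq : Good q) (a b z t : A) :
    q * (((a * b) * z) * t) = - ((q * z) * ((a * b) * t)) := by
  rw [good_one F h hq (a * b) z t, hq.1 a b z, hq.1 a b t]
  simp

include F in
/-- (2): add `good_one` for `(y, z, t)` and `(z, y, t)` (the left sides cancel), put `z = y` and divide by 2. -/
theorem good_two (h : IsMalcev A) {q : A} (hq : Good q) (y t : A) : zt (q * y) y t = 0 := by
  have h1 := good_one F h hq y y t
  rw [h.sq y, zero_mul, mul_zero] at h1
  unfold zt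
  have h2 : (q * y) * (y * t) = ((q * y) * y) * t + ((q * y) * t) * y := by
    rw [← sub_eq_zero]
    rw [← neg_eq_zero]
    rw [h1]
    abel
  rw [h2]; abel

include F in
/-- (2) linearised -/
theorem good_two' (h : IsMalcev A) {q : A} (hq : Good q) (y z t : A) :
    zt (q * y) z t = - zt (q * z) y t := by
  have h1 := good_two F h hq (y + z) t
  have h2 := good_two F h hq y t
  have h3 := good_two F h hq z t
  have e : zt (q * (y + z)) (y + z) t =
      zt (q * y) y t + zt (q * z) z t + (zt (q * y) z t + zt (q * z) y t) := by
    simp only [zt, mul_add, add_mul]; abel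
  rw [e, h2, h3, zero_add, zero_add] at h1
  exact eq_neg_of_add_eq_zero_left h1

end Pool.Agent.Malc
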