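import Pool.Agent.Malc.Defs

/-! # Cross product algebras and the first order extension

A cross product algebra over the field `F` is a commutative `F`-algebra `S` and an `S`-module `E` with a
skew product and a symmetric form. `A.ext` is the extension by a generic element `y` with
`(terms of degree two in y) = 0`: the scalars are `S ⊕ E` (`g` stands for `s(g, y)`), the elements are
`E ⊕ W`, and `(r, e, b ⊗ c)` in `W` stands for `r y + e y + s(c, y) b`. -/

set_option autoImplicit false

open scoped TensorProduct

namespace Pool.Agent.Malc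

universe u

/-- cross product algebras -/
structure CPA (F : Type u) [Field F] where
  S : Type u
  E : Type u
  [rS : CommRing S]
  [aS : Algebra F S]
  [gE : AddCommGroup E]
  [mE : Module S E]
  mul : E →ₗ[S] E →ₗ[S] E
  s : E →ₗ[S] E →ₗ[S] S
  skew : ∀ x, mul x x = 0
  symm : ∀ x y, s x y = s y x
  assoc : ∀ x y z, s (mul x y) z = s x (mul y z)
  main : ∀ x y z, mul x (mul y z) + mul (mul x y) z =
    (2 * s x z) • y - s x y • z - s y z • x

namespace CPA

attribute [instance] CPA.rS CPA.aS CPA.gE CPA.mE

variable {F : Type u} [Field F] (A : CPA F)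

theorem anti (x y : A.E) : A.mul x y = - A.mul y x := by
  have h := A.skew (x + y)
  simp only [map_add, LinearMap.add_apply, A.skew, zero_add, add_zero] at h
  exact eq_neg_of_add_eq_zero_right h

/-- homomorphisms -/
structure Hom (A B : CPA F) where
  φ : A.S →ₐ[F] B.S
  ψ : A.E →ₛₗ[(φ : A.S →+* B.S)] B.E
  map_mul : ∀ x y, ψ (A.mul x y) = B.mul (ψ x) (ψ y)
  map_s : ∀ x y, φ (A.s x y) = B.s (ψ x) (ψ y)

/-- the space of the operators -/
abbrev WT : Type u := A.S × A.E × (A.E ⊗[A.S] A.E)

/-- the operator `b ⊗ c` -/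
def ten (b c : A.E) : A.WT := (0, 0, b ⊗ₜ c)

/-- left multiplication of operators -/
noncomputable def L (a : A.E) : A.WT →ₗ[A.S] A.WT where
  toFun := fun w => (- A.s a w.2.1, w.1 • a - A.mul a w.2.1,
    (2 : A.S) • (w.2.1 ⊗ₜ a) - a ⊗ₜ w.2.1 + TensorProduct.map (A.mul a) LinearMap.id w.2.2)
  map_add' := fun w w' => by
    refine Prod.ext ?_ (Prod.ext ?_ ?_)
    · simp only [Prod.fst_add, Prod.snd_add, map_add]
      abel
    · simp only [Prod.fst_add, Prod.snd_add, map_add, add_smul]
      abel
    · simp only [Prod.fst_add, Prod.snd_add, map_add, TensorProduct.add_tmul,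
        TensorProduct.tmul_add, smul_add]
      abel
  map_smul' := fun r w => by
    refine Prod.ext ?_ (Prod.ext ?_ ?_)
    · simp only [Prod.smul_fst, Prod.smul_snd, map_smul, smul_eq_mul, RingHom.id_apply]
      ring
    · simp only [Prod.smul_fst, Prod.smul_snd, map_smul, smul_eq_mul, RingHom.id_apply, smul_sub,
        mul_smul]
    · simp only [Prod.smul_fst, Prod.smul_snd, map_smul, RingHom.id_apply, smul_sub, smul_add,
        ← TensorProduct.smul_tmul', TensorProduct.tmul_smul]
      congr 2
      rw [smul_comm]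

/-- the form of an element and an operator -/
noncomputable def sT (a : A.E) : A.WT →ₗ[A.S] A.E where
  toFun := fun w => w.1 • a + A.mul a w.2.1 +
    TensorProduct.lift (LinearMap.lsmul A.S A.E ∘ₗ A.s a) w.2.2
  map_add' := fun w w' => by
    simp only [Prod.fst_add, Prod.snd_add, map_add, add_smul]
    abel
  map_smul' := fun r w => by
    simp only [Prod.smul_fst, Prod.smul_snd, map_smul, smul_eq_mul, RingHom.id_apply, smul_add,
      mul_smul]

/-- the relations -/
noncomputable def rho (a b e : A.E) : A.WT :=
  (0, A.mul (A.mul a b) e - A.s a e • b + A.s b e • a,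
    A.mul a b ⊗ₜ e - e ⊗ₜ A.mul a b + A.mul b e ⊗ₜ a - a ⊗ₜ A.mul b e +
      A.mul e a ⊗ₜ b - b ⊗ₜ A.mul e a)

/-- the submodule of the relations -/
noncomputable def Rel : Submodule A.S A.WT :=
  Submodule.span A.S ({w | ∃ a b e, w = A.rho a b e} ∪ {w | ∃ d a b e, w = A.L d (A.rho a b e)})

/-- the trace -/
noncomputable def tauT : A.WT →ₗ[A.S] A.S where
  toFun := fun w => 7 * w.1 + TensorProduct.lift A.s w.2.2
  map_add' := fun w w' => by
    simp only [Prod.fst_add, Prod.snd_add, map_add]
    ring
  map_smul' := fun r w => by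
    simp only [Prod.smul_fst, Prod.smul_snd, map_smul, smul_eq_mul, RingHom.id_apply]
    ring

end CPA

end Pool.Agent.Malc
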