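import Pool.Agent.Malc.CSpan

/-! # Part C: reduction to letters -/

set_option autoImplicit false

open scoped BigOperators

namespace Pool.Agent.Malc

universe u v

namespace CRedAux

section gen

variable {A : Type v} [NonUnitalNonAssocRing A]

theorem foldl_congr (bs : List A) : ∀ p q : A, (∀ c, p * c = q * c) →
    ∀ c, bs.foldl (· * ·) p * c = bs.foldl (· * ·) q * c := by
  induction bs with
  | nil => intro p q h c; exact h c
  | cons b bs ih =>
    intro p q h c
    rw [List.foldl_cons, List.foldl_cons, h b]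

theorem foldl_zero (bs : List A) : bs.foldl (· * ·) (0 : A) = 0 := by
  induction bs with
  | nil => rfl
  | cons b bs ih => rw [List.foldl_cons, zero_mul, ih]

theorem foldl_sub (bs : List A) : ∀ p q : A,
    bs.foldl (· * ·) (p - q) = bs.foldl (· * ·) p - bs.foldl (· * ·) q := by
  induction bs with
  | nil => intro p q; rfl
  | cons b bs ih =>
    intro p q
    rw [List.foldl_cons, List.foldl_cons, List.foldl_cons, sub_mul, ih]

theorem anti (h : IsMalcev A) (x y : A) : x * y = -(y * x) := by
  have h1 := h.sq (x + y)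
  rw [add_mul, mul_add, mul_add, h.sq, h.sq, zero_add, add_zero] at h1
  exact eq_neg_of_add_eq_zero_left h1

theorem two_q (h : IsMalcev A) (q b c : A) : 2 • (q * (b * c)) = zt q b c - zt q c b := by
  unfold zt
  rw [anti h c b, mul_neg]
  abel

theorem two_s (h : IsMalcev A) (q z t : A) :
    2 • ((q * z) * t + (q * t) * z) = - (zt q z t + zt q t z) := by
  unfold zt
  rw [anti h t z, mul_neg]
  abel

theorem foldl_kill (bs : List A) (p : A) (h : ∀ c, p * c = 0) (c : A) :
    bs.foldl (· * ·) p * c = 0 := by
  rw [foldl_congr bs p 0 (fun c => by rw [h c, zero_mul]) c, foldl_zero, zero_mul]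

end gen

theorem word_cases (w : FreeMagma ℕ) : (∃ n, w = FreeMagma.of n) ∨
    ∃ u v, w = FreeMagma.mul u v := by
  cases w with
  | of n => exact Or.inl ⟨n, rfl⟩
  | mul u v => exact Or.inr ⟨u, v, rfl⟩

theorem content_of (n : ℕ) : content (FreeMagma.of n) = {n} := rfl

theorem content_mul (u v : FreeMagma ℕ) : content (FreeMagma.mul u v) = content u + content v := rfl

theorem card_content_pos (w : FreeMagma ℕ) : 1 ≤ Multiset.card (content w) := by
  induction w using FreeMagma.rec with
  | of n => exact le_of_eq (Multiset.card_singleton n).symm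
  | mul u v ihu ihv =>
    have h : Multiset.card (content (FreeMagma.mul u v)) =
        Multiset.card (content u) + Multiset.card (content v) := by
      rw [content_mul, Multiset.card_add]
    omega

variable (F : Type u) [Field F]

theorem map_letters (ns : List ℕ) : (ns.map FreeMagma.of).map (wdM (F := F)) =
    ns.map FreeMalcev.of := by
  rw [List.map_map]
  refine List.map_congr_left fun n _ => ?_
  exact (of_eq_wdM n).symm

theorem content_letters (ns : List ℕ) : ((ns.map FreeMagma.of).map content).sum =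
    (ns : Multiset ℕ) := by
  induction ns with
  | nil => rfl
  | cons n ns ih =>
    rw [List.map_cons, List.map_cons, List.sum_cons, ih, content_of, ← Multiset.coe_singleton,
      Multiset.coe_add]
    rfl

theorem exists_letters (xs : List (FreeMagma ℕ)) (h : ∀ x ∈ xs, ∃ n, x = FreeMagma.of n) :
    ∃ ns : List ℕ, xs = ns.map FreeMagma.of := by
  induction xs with
  | nil => exact ⟨[], rfl⟩
  | cons x xs ih =>
    obtain ⟨n, rfl⟩ := h x (List.mem_cons_self)
    obtain ⟨ns, rfl⟩ := ih fun y hy => h y (List.mem_cons_of_mem _ hy)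
    exact ⟨n :: ns, rfl⟩

variable [CharZero F]

/-- a product in the list -/
theorem ew_kill {A : Type v} [NonUnitalNonAssocRing A] [Module F A]
    [IsScalarTower F A A] [SMulCommClass F A A] (h : IsMalcev A) (l1 : List A) :
    ∀ (u v : A) (l2 : List A) (a : A), 5 ≤ (l1 ++ (u * v) :: l2).length → ∀ c,
      ew F (l1 ++ (u * v) :: l2) a * c = 0 := by
  induction l1 using List.reverseRecOn with
  | nil =>
    intro u v l2 a hl c
    rw [List.nil_append] at hl ⊢
    obtain ⟨x0, x1, x2, x3, x4, t, ht⟩ := exists_cons5 hl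
    have h1 : u * v = x0 := (List.cons.inj ht).1
    rw [ht, ew_cons, ← h1]
    exact foldl_kill t _ (fun c => base_a F h u v x1 x2 x3 x4 a c) c
  | append_singleton l1 y ih =>
    intro u v l2 a hl c
    have e1 : l1 ++ [y] ++ (u * v) :: l2 = l1 ++ y :: (u * v) :: l2 := by simp
    rw [e1] at hl ⊢
    rw [ew_swap F h l1 y (u * v) l2 a c hl, ih u v (y :: l2) a (by
      simpa using hl) c, neg_zero]

theorem ew_P {A : Type v} [NonUnitalNonAssocRing A] [Module F A]
    [IsScalarTower F A A] [SMulCommClass F A A] (h : IsMalcev A) (x0 x1 x2 x3 x4 : A)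
    (bs : List A) (u v c : A) :
    ew F (x0 :: x1 :: x2 :: x3 :: x4 :: bs) (u * v) * c =
      ew F (x0 :: x1 :: x2 :: x3 :: x4 :: u :: bs) v * c -
        ew F (x0 :: x1 :: x2 :: x3 :: x4 :: v :: bs) u * c := by
  rw [ew_cons, ew_cons, ew_cons, List.foldl_cons, List.foldl_cons, ← sub_mul, ← foldl_sub]
  refine foldl_congr bs _ _ (fun c => ?_) c
  rw [sub_mul]
  exact P_base F h x0 x1 x2 x3 x4 u v c

/-- twice an element -/
theorem two_mem {A : Type v} [NonUnitalNonAssocRing A] [Module F A] {S : Submodule F A} {p : A}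
    (h : 2 • p ∈ S) : p ∈ S := by
  have h1 : (2 : F) • p ∈ S := by
    have h2 : (2 : F) • p = 2 • p := by rw [two_smul, two_nsmul]
    rw [h2]
    exact h
  have h3 := S.smul_mem (2 : F)⁻¹ h1
  rwa [smul_smul, inv_mul_cancel₀ two_ne_zero, one_smul] at h3

theorem mem_q {A : Type v} [NonUnitalNonAssocRing A] [Module F A] (S : Submodule F A)
    (h : IsMalcev A) (q b c : A) (h1 : zt q b c ∈ S) (h2 : zt q c b ∈ S) : q * (b * c) ∈ S := by
  apply two_mem F
  rw [two_q h]
  exact Submodule.sub_mem _ h1 h2

theorem mem_s {A : Type v} [NonUnitalNonAssocRing A] [Module F A] (S : Submodule F A)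
    (h : IsMalcev A) (q z t : A) (h1 : zt q z t ∈ S) (h2 : zt q t z ∈ S) :
    (q * z) * t + (q * t) * z ∈ S := by
  apply two_mem F
  rw [two_s h]
  exact Submodule.neg_mem _ (Submodule.add_mem _ h1 h2)

/-- one `Zt` -/
theorem Zt_mem {xs : List ℕ} (hx : 5 ≤ xs.length) (b a c : ℕ) {m : Multiset ℕ}
    (hm : (xs : Multiset ℕ) + {b} + {a} + {c} = m) :
    zt (ew F (xs.map FreeMalcev.of) (FreeMalcev.of a)) (FreeMalcev.of b) (FreeMalcev.of c) ∈
      ZLm F m := by
  refine Submodule.subset_span ⟨xs ++ [b], a, c, ?_, ?_, ?_⟩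
  · rw [List.length_append, List.length_singleton]
    omega
  · rw [← hm, ← Multiset.coe_add, Multiset.coe_singleton]
  · rw [List.map_append, List.map_singleton, Zt_append]

theorem ew_snoc {xs : List ℕ} (hx : 5 ≤ xs.length) (b a : ℕ) :
    ew F ((xs ++ [b]).map FreeMalcev.of) (FreeMalcev.of a : FreeMalcev F ℕ) =
      ew F (xs.map FreeMalcev.of) (FreeMalcev.of a) * FreeMalcev.of b := by
  rw [List.map_append, List.map_singleton, ew_append]
  rwa [List.length_map]

theorem len_snoc {xs : List ℕ} (hx : 5 ≤ xs.length) (b : ℕ) : 5 ≤ (xs ++ [b]).length := by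
  rw [List.length_append]
  omega

theorem coe_snoc (xs : List ℕ) (b : ℕ) : ((xs ++ [b] : List ℕ) : Multiset ℕ) =
    (xs : Multiset ℕ) + {b} := by
  rw [← Multiset.coe_add, Multiset.coe_singleton]

/-- the statement of `Bred` for a word -/
def BS (w : FreeMagma ℕ) : Prop := ∀ (xs : List ℕ) (a : ℕ), 5 ≤ xs.length →
  ew F (xs.map FreeMalcev.of) (FreeMalcev.of a) * wdM w ∈
    ZLm F ((xs : Multiset ℕ) + {a} + content w)

/-- two letters -/
theorem BS_two (b c : ℕ) : BS F (FreeMagma.mul (FreeMagma.of b) (FreeMagma.of c)) := by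
  intro xs a hx
  have h : IsMalcev (FreeMalcev F ℕ) := FreeMalcev.isMalcev
  rw [← wdM_mul, ← of_eq_wdM, ← of_eq_wdM, content_mul, content_of, content_of]
  have e1 : (xs : Multiset ℕ) + {b} + {a} + {c} = (xs : Multiset ℕ) + {a} + ({b} + {c}) := by
    abel
  have e2 : (xs : Multiset ℕ) + {c} + {a} + {b} = (xs : Multiset ℕ) + {a} + ({b} + {c}) := by
    abel
  exact mem_q F _ h _ _ _ (Zt_mem F hx b a c e1) (Zt_mem F hx c a b e2)

theorem kill_word {q : FreeMalcev F ℕ} (hq : Good q) (u v : FreeMagma ℕ) (c : FreeMalcev F ℕ) :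
    (q * wdM (FreeMagma.mul u v)) * c = 0 := by
  have h1 := hq.1 (wdM u) (wdM v) c
  rwa [wdM_mul] at h1

theorem two_le_card (u v : FreeMagma ℕ) : 2 ≤ Multiset.card (content (FreeMagma.mul u v)) := by
  have h1 := card_content_pos u
  have h2 := card_content_pos v
  have h3 : Multiset.card (content (FreeMagma.mul u v)) =
      Multiset.card (content u) + Multiset.card (content v) := by
    rw [content_mul, Multiset.card_add]
  omega

/-- `(q' z) t + (q' t) z` -/
theorem BS_sym {xs : List ℕ} (hx : 5 ≤ xs.length) (a : ℕ) (z t : FreeMagma ℕ)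
    (hz : 2 ≤ Multiset.card (content z) → BS F z) (ht : 2 ≤ Multiset.card (content t) → BS F t) :
    (ew F (xs.map FreeMalcev.of) (FreeMalcev.of a : FreeMalcev F ℕ) * wdM z) * wdM t +
      (ew F (xs.map FreeMalcev.of) (FreeMalcev.of a : FreeMalcev F ℕ) * wdM t) * wdM z ∈
        ZLm F ((xs : Multiset ℕ) + {a} + (content z + content t)) := by
  have h : IsMalcev (FreeMalcev F ℕ) := FreeMalcev.isMalcev
  have hq' : Good (ew F (xs.map FreeMalcev.of) (FreeMalcev.of a : FreeMalcev F ℕ)) :=
    good_ew' F h _ _
  rcases word_cases z with ⟨nz, rfl⟩ | ⟨z1, z2, rfl⟩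
  · rcases word_cases t with ⟨nt, rfl⟩ | ⟨t1, t2, rfl⟩
    · rw [← of_eq_wdM nz, ← of_eq_wdM nt, content_of, content_of]
      have e1 : (xs : Multiset ℕ) + {nz} + {a} + {nt} =
          (xs : Multiset ℕ) + {a} + ({nz} + {nt}) := by abel
      have e2 : (xs : Multiset ℕ) + {nt} + {a} + {nz} =
          (xs : Multiset ℕ) + {a} + ({nz} + {nt}) := by abel
      exact mem_s F _ h _ _ _ (Zt_mem F hx nz a nt e1) (Zt_mem F hx nt a nz e2)
    · rw [kill_word F hq' t1 t2, add_zero, ← of_eq_wdM nz, ← ew_snoc F hx nz a]
      have h1 := ht (two_le_card t1 t2) (xs ++ [nz]) a (len_snoc hx nz)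
      have h2 : ((xs ++ [nz] : List ℕ) : Multiset ℕ) + {a} +
          content (FreeMagma.mul t1 t2) = (xs : Multiset ℕ) + {a} +
            (content (FreeMagma.of nz) + content (FreeMagma.mul t1 t2)) := by
        rw [coe_snoc, content_of]; abel
      rwa [h2] at h1
  · rcases word_cases t with ⟨nt, rfl⟩ | ⟨t1, t2, rfl⟩
    · rw [kill_word F hq' z1 z2, zero_add, ← of_eq_wdM nt, ← ew_snoc F hx nt a]
      have h1 := hz (two_le_card z1 z2) (xs ++ [nt]) a (len_snoc hx nt)
      have h2 : ((xs ++ [nt] : List ℕ) : Multiset ℕ) + {a} +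
          content (FreeMagma.mul z1 z2) = (xs : Multiset ℕ) + {a} +
            (content (FreeMagma.mul z1 z2) + content (FreeMagma.of nt)) := by
        rw [coe_snoc, content_of]; abel
      rwa [h2] at h1
    · rw [kill_word F hq' z1 z2, kill_word F hq' t1 t2, add_zero]
      exact Submodule.zero_mem _

/-- the reduction of `(y z) t` -/
theorem BS_step (y z t : FreeMagma ℕ)
    (IH : ∀ w', 2 ≤ Multiset.card (content w') → Multiset.card (content w') <
      Multiset.card (content y) + Multiset.card (content z) + Multiset.card (content t) →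
      BS F w') :
    BS F (FreeMagma.mul (FreeMagma.mul y z) t) := by
  intro xs a hx
  have h : IsMalcev (FreeMalcev F ℕ) := FreeMalcev.isMalcev
  have hy1 := card_content_pos y
  have hz1 := card_content_pos z
  have ht1 := card_content_pos t
  have hq : Good (ew F (xs.map FreeMalcev.of) (FreeMalcev.of a : FreeMalcev F ℕ)) :=
    good_ew' F h _ _
  have e0 : (wdM (FreeMagma.mul (FreeMagma.mul y z) t) : FreeMalcev F ℕ) =
      (wdM y * wdM z) * wdM t := by rw [wdM_mul, wdM_mul]
  have e1 : content (FreeMagma.mul (FreeMagma.mul y z) t) = content y + content z + content t := rfl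
  rw [e0, e1, good_one F h hq (wdM y) (wdM z) (wdM t)]
  refine Submodule.sub_mem _ ?_ ?_
  · -- the first two terms
    rcases word_cases y with ⟨ny, rfl⟩ | ⟨y1, y2, rfl⟩
    · rw [← of_eq_wdM ny, ← ew_snoc F hx ny a]
      have h1 := BS_sym F (len_snoc hx ny) a z t (fun h2 => IH z h2 (by omega))
        (fun h2 => IH t h2 (by omega))
      have h2 : ((xs ++ [ny] : List ℕ) : Multiset ℕ) + {a} + (content z + content t) =
          (xs : Multiset ℕ) + {a} + (content (FreeMagma.of ny) + content z + content t) := by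
        rw [coe_snoc, content_of]; abel
      rwa [h2] at h1
    · rw [kill_word F hq y1 y2 (wdM z), kill_word F hq y1 y2 (wdM t), zero_mul, zero_mul, add_zero]
      exact Submodule.zero_mem _
  · -- the last term
    rcases word_cases z with ⟨nz, rfl⟩ | ⟨z1, z2, rfl⟩
    · rw [← of_eq_wdM nz, ← ew_snoc F hx nz a, wdM_mul]
      have h0 : Multiset.card (content (FreeMagma.mul y t)) =
          Multiset.card (content y) + Multiset.card (content t) := by
        rw [content_mul, Multiset.card_add]
      have h1 := IH (FreeMagma.mul y t) (two_le_card y t) (by omega)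
        (xs ++ [nz]) a (len_snoc hx nz)
      have h2 : ((xs ++ [nz] : List ℕ) : Multiset ℕ) + {a} +
          content (FreeMagma.mul y t) =
          (xs : Multiset ℕ) + {a} + (content y + content (FreeMagma.of nz) + content t) := by
        rw [coe_snoc, content_of, content_mul]; abel
      rwa [h2] at h1
    · rw [kill_word F hq z1 z2]
      exact Submodule.zero_mem _

/-- exchange of the two factors -/
theorem BS_comm {u v : FreeMagma ℕ} (hb : BS F (FreeMagma.mul u v)) :
    BS F (FreeMagma.mul v u) := by
  intro xs a hx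
  have h : IsMalcev (FreeMalcev F ℕ) := FreeMalcev.isMalcev
  have h4 := Submodule.neg_mem _ (hb xs a hx)
  have h5 : content (FreeMagma.mul u v) = content (FreeMagma.mul v u) := by
    rw [content_mul, content_mul, add_comm]
  have h6 : (wdM (FreeMagma.mul v u) : FreeMalcev F ℕ) = - wdM (FreeMagma.mul u v) := by
    rw [← wdM_mul, ← wdM_mul, anti h]
  rw [h5] at h4
  rw [h6, mul_neg]
  exact h4

theorem BS_all (n : ℕ) : ∀ w : FreeMagma ℕ, Multiset.card (content w) ≤ n →
    2 ≤ Multiset.card (content w) → BS F w := by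
  induction n with
  | zero => intro w h1 h2; omega
  | succ n ih =>
    intro w h1 h2
    rcases word_cases w with ⟨k, rfl⟩ | ⟨w1, w2, rfl⟩
    · rw [content_of, Multiset.card_singleton] at h2
      omega
    · have hc : Multiset.card (content (FreeMagma.mul w1 w2)) =
          Multiset.card (content w1) + Multiset.card (content w2) := by
        rw [content_mul, Multiset.card_add]
      rcases word_cases w1 with ⟨b, rfl⟩ | ⟨y, z, rfl⟩
      · rcases word_cases w2 with ⟨c, rfl⟩ | ⟨y, z, rfl⟩
        · exact BS_two F b c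
        · have hc2 : Multiset.card (content (FreeMagma.mul y z)) =
              Multiset.card (content y) + Multiset.card (content z) := by
            rw [content_mul, Multiset.card_add]
          refine BS_comm F (BS_step F y z (FreeMagma.of b) fun w' hw' hlt => ih w' ?_ hw')
          omega
      · have hc2 : Multiset.card (content (FreeMagma.mul y z)) =
            Multiset.card (content y) + Multiset.card (content z) := by
          rw [content_mul, Multiset.card_add]
        refine BS_step F y z w2 fun w' hw' hlt => ih w' ?_ hw'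
        omega

end CRedAux

open CRedAux

variable (F : Type u) [Field F] [CharZero F]

/-- **Reduction to letters modulo the annihilator.** Strong induction on the size of `a`. Write `xs = x0 :: .. :: x4 :: bs`.
(1) One of `x0,..,x4` is a product: `e'(..) * c = 0` for all `c` (`base_a` after moving it to the front), so `ew * c = 0` in all cases; `r = 0`.
(2) One of the `b_j` is a product: `(q b_j) c = 0` for all `c` (`good_ew'`), so again `ew * c = 0`; `r = 0`.
(3) All letters, `a = u v`: by `P_base`, `ew(X :: bs; u v) * c = (ew(X :: u :: bs; v) - ew(X :: v :: bs; u)) * c` (the next multiplication is `b1` or `c`); `v` and `u` are smaller.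
(4) all letters: `r` is the element itself. -/
theorem Wred (xs : List (FreeMagma ℕ)) (a : FreeMagma ℕ) (hx : 5 ≤ xs.length) :
    ∃ r ∈ WLm F 5 ((xs.map content).sum + content a), ∀ c : FreeMalcev F ℕ,
      (ew F (xs.map wdM) (wdM a) - r) * c = 0 := by
  have h : IsMalcev (FreeMalcev F ℕ) := FreeMalcev.isMalcev
  induction a using FreeMagma.rec generalizing xs with
  | of i =>
    by_cases hl : ∀ x ∈ xs, ∃ n, x = FreeMagma.of n
    · obtain ⟨ns, rfl⟩ := exists_letters xs hl
      refine ⟨ew F (ns.map FreeMalcev.of) (FreeMalcev.of i), ?_, fun c => ?_⟩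
      · refine Submodule.subset_span ⟨ns, i, ?_, ?_, rfl⟩
        · rwa [List.length_map] at hx
        · rw [content_letters]
          rfl
      · have h1 : ew F ((ns.map FreeMagma.of).map wdM) (wdM (FreeMagma.of i) : FreeMalcev F ℕ) =
            ew F (ns.map FreeMalcev.of) (FreeMalcev.of i) := by
          rw [map_letters, of_eq_wdM]
        have h2 : ew F ((ns.map FreeMagma.of).map wdM) (wdM (FreeMagma.of i) : FreeMalcev F ℕ) -
            ew F (ns.map FreeMalcev.of) (FreeMalcev.of i) = 0 := by rw [h1, sub_self]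
        exact (congrArg (· * c) h2).trans (zero_mul c)
    · push Not at hl
      obtain ⟨x, hx1, hx2⟩ := hl
      rcases word_cases x with ⟨n, hn⟩ | ⟨u, v, rfl⟩
      · exact absurd hn (hx2 n)
      · obtain ⟨l1, l2, rfl⟩ := List.append_of_mem hx1
        refine ⟨0, Submodule.zero_mem _, fun c => ?_⟩
        rw [sub_zero, List.map_append, List.map_cons, ← wdM_mul]
        exact ew_kill F h (l1.map wdM) _ _ (l2.map wdM) _ (by
          simpa using hx) c
  | mul u v ihu ihv =>
    obtain ⟨x0, x1, x2, x3, x4, t, rfl⟩ := exists_cons5 hx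
    obtain ⟨r1, hr1, hr1'⟩ := ihv (x0 :: x1 :: x2 :: x3 :: x4 :: u :: t) (by simp)
    obtain ⟨r2, hr2, hr2'⟩ := ihu (x0 :: x1 :: x2 :: x3 :: x4 :: v :: t) (by simp)
    have e1 : ((x0 :: x1 :: x2 :: x3 :: x4 :: u :: t).map content).sum + content v =
        ((x0 :: x1 :: x2 :: x3 :: x4 :: t).map content).sum +
          content (FreeMagma.mul u v) := by
      simp only [List.map_cons, List.sum_cons, content_mul]
      abel
    have e2 : ((x0 :: x1 :: x2 :: x3 :: x4 :: v :: t).map content).sum + content u =
        ((x0 :: x1 :: x2 :: x3 :: x4 :: t).map content).sum +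
          content (FreeMagma.mul u v) := by
      simp only [List.map_cons, List.sum_cons, content_mul]
      abel
    rw [e1] at hr1
    rw [e2] at hr2
    refine ⟨r1 - r2, Submodule.sub_mem _ hr1 hr2, fun c => ?_⟩
    have h1 := hr1' c
    have h2 := hr2' c
    simp only [List.map_cons] at h1 h2 ⊢
    rw [sub_mul] at h1 h2
    rw [sub_mul, sub_mul, ← wdM_mul, ew_P F h]
    have h3 := sub_eq_zero.1 h1
    have h4 := sub_eq_zero.1 h2
    rw [h3, h4, sub_self]

/-- **Products with words.** Strong induction on the size of `w` (for all `xs, a`). `q = ew F (xs.map of) (of a)`, `w = w1 w2`.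
Both letters: `2 q (b c) = zt q b c - zt q c b = Zt (xs ++ [b]) a c - Zt (xs ++ [c]) a b` (`Zt_append`).
Otherwise, by anticommutativity we may assume `w1 = y z`, `w2 = t`; `good_one`: `q ((y z) t) = ((q y) z) t + ((q y) t) z - (q z)(y t)`.
`(q z)(y t)`: if `z` is a product it is `0` (first part of `Good q`), if `z` is a letter `q z = ew (xs ++ [z]) a`, induction (`y t` is smaller).
`((q y) z) t + ((q y) t) z`: `0` if `y` is a product. Let `y` be a letter, `q' = q y = ew (xs ++ [y]) a`. `z, t` letters: it is `- (zt q' z t + zt q' t z)/2`. `z` a product, `t` a letter: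
`(q' z) t = 0` and `(q' t) z` is covered by induction; `t` a product, `z` a letter: symmetric; both products: `0`. -/
theorem Bred (w : FreeMagma ℕ) (hw : 2 ≤ Multiset.card (content w)) : ∀ (xs : List ℕ) (a : ℕ),
    5 ≤ xs.length → ew F (xs.map FreeMalcev.of) (FreeMalcev.of a) * wdM w ∈
      ZLm F ((xs : Multiset ℕ) + {a} + content w) :=
  BS_all F _ w le_rfl hw

end Pool.Agent.Malc
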