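import Pool.Agent.Malc.CGood
import Pool.Agent.Malc.CList

/-! # Part C: skewness of `ew` (modulo the annihilator), `Zt`, `wf` -/

set_option autoImplicit false

namespace Pool.Agent.Malc

universe u v

variable (F : Type u) [Field F] [CharZero F] {A : Type v} [NonUnitalNonAssocRing A] [Module F A]
  [IsScalarTower F A A] [SMulCommClass F A A]

theorem zt_add (p q b c : A) : zt (p + q) b c = zt p b c + zt q b c := by
  unfold zt
  simp only [add_mul]
  abel

theorem zt_zero_of {q : A} (hq : ∀ c : A, q * c = 0) (b c : A) : zt q b c = 0 := by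
  unfold zt
  rw [hq, hq, hq, zero_mul, zero_mul, sub_zero, sub_zero]

namespace CSkewAux

theorem anti (h : IsMalcev A) (x y : A) : x * y = - (y * x) := by
  have h1 := h.sq (x + y)
  rw [add_mul, mul_add, mul_add, h.sq x, h.sq y, zero_add, add_zero] at h1
  exact eq_neg_of_add_eq_zero_left h1

theorem foldl_neg (t : List A) (q : A) : t.foldl (· * ·) (-q) = - t.foldl (· * ·) q := by
  induction t generalizing q with
  | nil => rfl
  | cons b t ih =>
    rw [List.foldl_cons, List.foldl_cons, neg_mul, ih]

theorem foldl_mul_neg {p q : A} (h : ∀ d : A, p * d = - (q * d)) (t : List A) (c : A) :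
    t.foldl (· * ·) p * c = - (t.foldl (· * ·) q * c) := by
  cases t with
  | nil => exact h c
  | cons b t => rw [List.foldl_cons, List.foldl_cons, h b, foldl_neg, neg_mul]

theorem neg_case {p q : A} (h : p = - q) (t : List A) (c : A) :
    t.foldl (· * ·) p * c = - (t.foldl (· * ·) q * c) :=
  foldl_mul_neg (fun d => by rw [h, neg_mul]) t c

theorem zt_neg_of {p q : A} (h : ∀ d : A, p * d = - (q * d)) (b c : A) :
    zt p b c = - zt q b c := by
  have h1 : zt (p + q) b c = 0 := zt_zero_of (fun d => by rw [add_mul, h, neg_add_cancel]) b c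
  rw [zt_add] at h1
  exact eq_neg_of_add_eq_zero_left h1

theorem zt_add_b (q b b' c : A) : zt q (b + b') c = zt q b c + zt q b' c := by
  unfold zt
  simp only [add_mul, mul_add]
  abel

theorem good_neg {q : A} (hq : Good q) (x y d : A) : ((q * x) * y) * d = - (((q * y) * x) * d) := by
  have h1 := hq.2 x y d
  rw [add_mul] at h1
  exact eq_neg_of_add_eq_zero_left h1

theorem zt_ee_self (h : IsMalcev A) (x0 x1 x2 x3 x a c : A) :
    zt (ee F x0 x1 x2 x3 x a) x c = 0 := by
  unfold zt
  rw [base_A4 F h, base_A3 F h, sub_zero, sub_self]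

theorem zt_ee_skew (h : IsMalcev A) (x0 x1 x2 x3 x y a c : A) :
    zt (ee F x0 x1 x2 x3 x a) y c = - zt (ee F x0 x1 x2 x3 y a) x c := by
  have h1 := zt_ee_self F h x0 x1 x2 x3 (x + y) a c
  rw [ee_add4, zt_add, zt_add_b, zt_add_b, zt_ee_self F h x0 x1 x2 x3 x a c,
    zt_ee_self F h x0 x1 x2 x3 y a c, zero_add, add_zero] at h1
  exact eq_neg_of_add_eq_zero_left h1

end CSkewAux

open CSkewAux

/-- Cases: both letters among the first five: `ee_sw0..3`; the fifth and the sixth entry: `A3'` (there is a further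
multiplication: the next entry of the list or `c`); both after the fifth: second part of `Good`
(`good_ew'`) for the initial segment. -/
theorem ew_swap (h : IsMalcev A) (l1 : List A) (x y : A) (l2 : List A) (a c : A)
    (hn : 5 ≤ (l1 ++ x :: y :: l2).length) :
    ew F (l1 ++ x :: y :: l2) a * c = - (ew F (l1 ++ y :: x :: l2) a * c) := by
  match l1, l2, hn with
  | [], a2 :: a3 :: a4 :: t, _ =>
    exact neg_case (ee_sw0 F y x a2 a3 a4 a) t c
  | [], [], hn => simp at hn
  | [], [_], hn => simp at hn
  | [], [_, _], hn => simp at hn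
  | [x0], a3 :: a4 :: t, _ =>
    exact neg_case (ee_sw1 F x0 y x a3 a4 a) t c
  | [x0], [], hn => simp at hn
  | [x0], [_], hn => simp at hn
  | [x0, x1], a4 :: t, _ =>
    exact neg_case (ee_sw2 F x0 x1 y x a4 a) t c
  | [x0, x1], [], hn => simp at hn
  | [x0, x1, x2], t, _ =>
    exact neg_case (ee_sw3 F x0 x1 x2 y x a) t c
  | [x0, x1, x2, x3], t, _ =>
    exact foldl_mul_neg (fun d => A3' F h x0 x1 x2 x3 x y a d) t c
  | x0 :: x1 :: x2 :: x3 :: x4 :: t1, t, _ =>
    have h5 : 5 ≤ (x0 :: x1 :: x2 :: x3 :: x4 :: t1).length := by simp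
    rw [ew_append_list F h5, ew_append_list F h5]
    exact foldl_mul_neg
      (fun d => good_neg (good_ew' F h (x0 :: x1 :: x2 :: x3 :: x4 :: t1) a) x y d) t c

/-- `Zt` is skew in its list (length at least 6). Write the list as `xs ++ [b]`, `Zt = zt (ew xs a) b c` (`Zt_append`). Swap inside `xs`: `ew_swap`
and `zt_zero_of` (the sum of the two `ew` is killed by all multiplications). Swap of the last entry `y` of `xs = xs' ++ [y]` and `b`: if `xs'.length ≥ 5`
then `ew xs a = ew xs' a * y` and `good_two'`; if `xs'.length = 4` linearise `base_A4`: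
`zt e'(x0..x3,x;a) x c = e'(..x;a)(x c) - (e'(..x;a) x) c - (e'(..x;a) c) x = 0` (`base_A4`, `base_A3`), replace `x` by `x + y`. -/
theorem Zt_skew (h : IsMalcev A) (n : ℕ) (hn : 6 ≤ n) (a c : A) :
    SkewL n (fun U => Zt F U a c) := by
  intro l1 x y l2 hl
  show Zt F (l1 ++ x :: y :: l2) a c = - Zt F (l1 ++ y :: x :: l2) a c
  rcases List.eq_nil_or_concat' l2 with rfl | ⟨l, b, rfl⟩
  · have e1 : l1 ++ [x, y] = (l1 ++ [x]) ++ [y] := by simp
    have e2 : l1 ++ [y, x] = (l1 ++ [y]) ++ [x] := by simp
    have hl' : l1.length + 2 = n := by simpa using hl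
    rw [e1, e2, Zt_append, Zt_append]
    by_cases h5 : 5 ≤ l1.length
    · rw [ew_append F h5, ew_append F h5]
      exact good_two' F h (good_ew' F h l1 a) x y c
    · match l1, h5, hl' with
      | [x0, x1, x2, x3], _, _ => exact zt_ee_skew F h x0 x1 x2 x3 x y a c
      | [], _, hl' => simp at hl'; omega
      | [_], _, hl' => simp at hl'; omega
      | [_, _], _, hl' => simp at hl'; omega
      | [_, _, _], _, hl' => simp at hl'; omega
      | _ :: _ :: _ :: _ :: _ :: _, h5, _ => simp at h5
  · have e1 : l1 ++ x :: y :: (l ++ [b]) = (l1 ++ x :: y :: l) ++ [b] := by simp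
    have e2 : l1 ++ y :: x :: (l ++ [b]) = (l1 ++ y :: x :: l) ++ [b] := by simp
    have hl' : (l1 ++ x :: y :: l).length + 1 = n := by
      rw [← hl, e1]
      exact (List.length_append (as := l1 ++ x :: y :: l) (bs := [b])).symm
    rw [e1, e2, Zt_append, Zt_append]
    exact zt_neg_of (fun d => ew_swap F h l1 x y l a d (by omega)) b c

/-- `wf` is skew in its list (length at least 7). Write the list as `U ++ [c]`, `wf = 2 ew U a c + Zt U a c` (`wf_append`). Swap inside `U`: `ew_swap`
and `Zt_skew`. Swap of the last two entries, `U = xs ++ [b]`: `ew (xs ++ [b]) a c + ew (xs ++ [c]) a b = (q b) c + (q c) b` with `q = ew xs a`, and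
`zt q b c + zt q c b = - 2 ((q b) c + (q c) b)` (anticommutativity of `b c`). -/
theorem wf_skew (h : IsMalcev A) (n : ℕ) (hn : 7 ≤ n) (a : A) : SkewL n (fun V => wf F V a) := by
  intro l1 x y l2 hl
  show wf F (l1 ++ x :: y :: l2) a = - wf F (l1 ++ y :: x :: l2) a
  rcases List.eq_nil_or_concat' l2 with rfl | ⟨l, b, rfl⟩
  · have e1 : l1 ++ [x, y] = (l1 ++ [x]) ++ [y] := by simp
    have e2 : l1 ++ [y, x] = (l1 ++ [y]) ++ [x] := by simp
    have hl' : l1.length + 2 = n := by simpa using hl
    have h5 : 5 ≤ l1.length := by omega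
    rw [e1, e2, wf_append F (by simp; omega), wf_append F (by simp; omega), Zt_append, Zt_append,
      ew_append F h5, ew_append F h5]
    unfold zt
    rw [anti h y x, mul_neg]
    simp only [two_nsmul]
    abel
  · have e1 : l1 ++ x :: y :: (l ++ [b]) = (l1 ++ x :: y :: l) ++ [b] := by simp
    have e2 : l1 ++ y :: x :: (l ++ [b]) = (l1 ++ y :: x :: l) ++ [b] := by simp
    have hl' : (l1 ++ x :: y :: l).length + 1 = n := by
      rw [← hl, e1]
      exact (List.length_append (as := l1 ++ x :: y :: l) (bs := [b])).symm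
    have hl2 : (l1 ++ y :: x :: l).length = (l1 ++ x :: y :: l).length := by simp
    have h1 := ew_swap F h l1 x y l a b (by omega)
    have h2 : Zt F (l1 ++ x :: y :: l) a b = - Zt F (l1 ++ y :: x :: l) a b :=
      Zt_skew F h _ (by omega) a b l1 x y l rfl
    rw [e1, e2, wf_append F (by omega), wf_append F (by omega), h1, h2, smul_neg, neg_add]

/-- the last entry: `Zt U a c` is killed by all multiplications (it is `zt q b c` with `q` good) -/
theorem Zt_mul (h : IsMalcev A) (U : List A) (hU : 6 ≤ U.length) (a c d : A) : Zt F U a c * d = 0 := by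
  rcases List.eq_nil_or_concat' U with rfl | ⟨l, b, rfl⟩
  · simp at hU
  · rw [Zt_append]
    have hq := good_ew' F h l a
    unfold zt
    rw [sub_sub, sub_mul, hq.1, hq.2, sub_zero]

/-- `wf V a * b = 2 ew V a * b` -/
theorem wf_mul (h : IsMalcev A) (V : List A) (hV : 7 ≤ V.length) (a b : A) :
    wf F V a * b = 2 • (ew F V a * b) := by
  rcases List.eq_nil_or_concat' V with rfl | ⟨l, c, rfl⟩
  · simp at hV
  · have hl : 6 ≤ l.length := by simp at hV; omega
    rw [wf_append F (U := l) (by omega), ew_append F (xs := l) (by omega), add_mul, Zt_mul F h l hl,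
      add_zero, smul_mul_assoc]

end Pool.Agent.Malc
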