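import Pool.Agent.Malc.CSpan

/-! # Part C: the spanning theorem, six and seven letters -/

set_option autoImplicit false

open scoped BigOperators

namespace Pool.Agent.Malc

universe u v

variable (F : Type u) [Field F] [CharZero F]

namespace CSp7Aux

theorem card_content_pos (w : FreeMagma ℕ) : 1 ≤ Multiset.card (content w) := by
  induction w with
  | ih1 i =>
    show 1 ≤ Multiset.card ({i} : Multiset ℕ)
    simp
  | ih2 a b ha hb =>
    show 1 ≤ Multiset.card (content a + content b)
    rw [Multiset.card_add]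
    omega

theorem content_card_one (w : FreeMagma ℕ) (h : Multiset.card (content w) = 1) :
    ∃ i, w = FreeMagma.of i := by
  cases w with
  | of i => exact ⟨i, rfl⟩
  | mul a b =>
    exfalso
    have h1 := card_content_pos a
    have h2 := card_content_pos b
    have h3 : Multiset.card (content a + content b) = 1 := h
    rw [Multiset.card_add] at h3
    omega

theorem content_card_two (w : FreeMagma ℕ) (h : Multiset.card (content w) = 2) :
    ∃ i j, w = FreeMagma.mul (FreeMagma.of i) (FreeMagma.of j) := by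
  cases w with
  | of i => simp [content] at h
  | mul a b =>
    have h1 := card_content_pos a
    have h2 := card_content_pos b
    have h3 : Multiset.card (content a + content b) = 2 := h
    rw [Multiset.card_add] at h3
    obtain ⟨i, rfl⟩ := content_card_one a (by omega)
    obtain ⟨j, rfl⟩ := content_card_one b (by omega)
    exact ⟨i, j, rfl⟩

theorem length_le (xs : List (FreeMagma ℕ)) :
    xs.length ≤ Multiset.card ((xs.map content).sum) := by
  induction xs with
  | nil => simp
  | cons w xs ih =>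
    have := card_content_pos w
    simp only [List.map_cons, List.sum_cons, Multiset.card_add, List.length_cons]
    omega

theorem all_letters (xs : List (FreeMagma ℕ))
    (h : Multiset.card ((xs.map content).sum) ≤ xs.length) :
    ∃ ys : List ℕ, xs = ys.map FreeMagma.of ∧ (ys : Multiset ℕ) = (xs.map content).sum := by
  induction xs with
  | nil => exact ⟨[], by simp, by simp⟩
  | cons w xs ih =>
    have h1 := card_content_pos w
    have h2 := length_le xs
    simp only [List.map_cons, List.sum_cons, Multiset.card_add, List.length_cons] at h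
    obtain ⟨ys, hy, hy'⟩ := ih (by omega)
    obtain ⟨i, rfl⟩ := content_card_one w (by omega)
    refine ⟨i :: ys, by rw [hy, List.map_cons], ?_⟩
    rw [List.map_cons, List.sum_cons, ← hy', ← Multiset.cons_coe, ← Multiset.singleton_add]
    rfl

omit [CharZero F] in
theorem ew_letters {n : ℕ} {m : Multiset ℕ} (xs : List (FreeMagma ℕ)) (a : FreeMagma ℕ)
    (hn : n ≤ xs.length) (hm : (xs.map content).sum + content a = m)
    (hc : Multiset.card m ≤ xs.length + 1) :
    ew F (xs.map wdM) (wdM a) ∈ WLm F n m := by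
  have h1 := length_le xs
  have h2 := card_content_pos a
  have h3 : Multiset.card (xs.map content).sum + Multiset.card (content a) = Multiset.card m := by
    rw [← Multiset.card_add, hm]
  obtain ⟨ys, hy, hy'⟩ := all_letters xs (by omega)
  obtain ⟨i, rfl⟩ := content_card_one a (by omega)
  refine Submodule.subset_span ⟨ys, i, ?_, ?_, ?_⟩
  · rw [hy] at hn
    simpa using hn
  · rw [hy', ← hm]
    rfl
  · rw [hy, List.map_map, ← of_eq_wdM]
    congr 1

omit [CharZero F] in
theorem Em_le_WLm_six {m : Multiset ℕ} (hm : Multiset.card m = 7) : Em F 6 m ≤ WLm F 6 m := by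
  unfold Em
  rw [Submodule.span_le]
  rintro q ⟨xs, a, hx, hc, rfl⟩
  exact ew_letters F xs a hx hc (by omega)

/-- difference in `E1A` -/
theorem of_mkQ {m : Multiset ℕ} (hm : Multiset.card m = 7) {p g : FreeMalcev F ℕ} {n : ℤ}
    (hp : p ∈ GM F m) (hg : g ∈ GM F m)
    (h : (E1A F (FreeMalcev F ℕ)).mkQ p = n • (E1A F (FreeMalcev F ℕ)).mkQ g) :
    p ∈ WLm F 6 m ⊔ Submodule.span F {g} := by
  have h1 : p - n • g ∈ E1A F (FreeMalcev F ℕ) := by
    have h2 : (E1A F (FreeMalcev F ℕ)).mkQ (p - n • g) = 0 := by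
      rw [map_sub, map_zsmul, h, sub_self]
    rwa [Submodule.mkQ_apply, Submodule.Quotient.mk_eq_zero] at h2
  have h3 : p - n • g ∈ GM F m := Submodule.sub_mem _ hp (zsmul_mem hg n)
  have h4 := Em_le_WLm_six F hm (E1A_GM F h1 h3)
  have h5 : p = (p - n • g) + n • g := by abel
  rw [h5]
  exact Submodule.add_mem_sup h4 (zsmul_mem (Submodule.mem_span_singleton_self g) n)

theorem exists_perm {n : ℕ} (f l : Fin n → ℕ)
    (h : (Multiset.ofList (List.ofFn f)) = Multiset.ofList (List.ofFn l)) :
    ∃ σ : Equiv.Perm (Fin n), f = l ∘ σ := by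
  have hp : (List.ofFn f).Perm (List.ofFn l) := Multiset.coe_eq_coe.1 h
  have h1 : f ∘ Tuple.sort f = l ∘ Tuple.sort l := by
    apply List.ofFn_injective
    exact ((((Tuple.sort f).ofFn_comp_perm f).trans hp).trans
      ((Tuple.sort l).ofFn_comp_perm l).symm).eq_of_pairwise'
      (Tuple.monotone_sort f).sortedLE_ofFn.pairwise (Tuple.monotone_sort l).sortedLE_ofFn.pairwise
  refine ⟨Tuple.sort l * (Tuple.sort f)⁻¹, ?_⟩
  funext i
  have h2 := congrFun h1 ((Tuple.sort f)⁻¹ i)
  simpa using h2

/-- the letters as elements -/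
noncomputable def ofl (f : Fin 7 → ℕ) : Fin 7 → FreeMalcev F ℕ := fun i => FreeMalcev.of (f i)

noncomputable def gl (l : Fin 7 → ℕ) : FreeMalcev F ℕ :=
  ee F (FreeMalcev.of (l 0) * FreeMalcev.of (l 1)) (FreeMalcev.of (l 2))
        (FreeMalcev.of (l 3)) (FreeMalcev.of (l 4)) (FreeMalcev.of (l 5)) (FreeMalcev.of (l 6))

noncomputable def hl (l : Fin 7 → ℕ) : FreeMalcev F ℕ :=
  ee F (FreeMalcev.of (l 0)) (FreeMalcev.of (l 1)) (FreeMalcev.of (l 2))
        (FreeMalcev.of (l 3)) (FreeMalcev.of (l 4)) (FreeMalcev.of (l 5) * FreeMalcev.of (l 6))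

theorem ofFn_seven (l : Fin 7 → ℕ) : (Multiset.ofList (List.ofFn l)) =
    {l 0} + {l 1} + {l 2} + {l 3} + {l 4} + {l 5} + {l 6} := by
  simp only [List.ofFn_succ, List.ofFn_zero]
  simp only [← Multiset.cons_coe, Multiset.coe_nil, ← Multiset.singleton_add]
  simp only [Fin.succ_zero_eq_one, Fin.succ_one_eq_two]
  simp only [add_zero, add_assoc]
  rfl

omit [CharZero F] in
theorem gl_GM (l : Fin 7 → ℕ) : gl F l ∈ GM F (Multiset.ofList (List.ofFn l)) := by
  have h := ew_GM F [FreeMagma.mul (FreeMagma.of (l 0)) (FreeMagma.of (l 1)), FreeMagma.of (l 2),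
    FreeMagma.of (l 3), FreeMagma.of (l 4), FreeMagma.of (l 5)] (FreeMagma.of (l 6))
  simp only [List.map_cons, List.map_nil, ew_cons, List.foldl_nil, ← wdM_mul, ← of_eq_wdM,
    List.sum_cons, List.sum_nil, content] at h
  rw [ofFn_seven]
  have e : ({l 0} + {l 1} + {l 2} + {l 3} + {l 4} + {l 5} + {l 6} : Multiset ℕ) =
      {l 0} + {l 1} + ({l 2} + ({l 3} + ({l 4} + ({l 5} + 0)))) + {l 6} := by abel
  rw [e]
  exact h

omit [CharZero F] in
theorem hl_GM (l : Fin 7 → ℕ) : hl F l ∈ GM F (Multiset.ofList (List.ofFn l)) := by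
  have h := ew_GM F [FreeMagma.of (l 0), FreeMagma.of (l 1), FreeMagma.of (l 2),
    FreeMagma.of (l 3), FreeMagma.of (l 4)] (FreeMagma.mul (FreeMagma.of (l 5)) (FreeMagma.of (l 6)))
  simp only [List.map_cons, List.map_nil, ew_cons, List.foldl_nil, ← wdM_mul, ← of_eq_wdM,
    List.sum_cons, List.sum_nil, content] at h
  rw [ofFn_seven]
  have e : ({l 0} + {l 1} + {l 2} + {l 3} + {l 4} + {l 5} + {l 6} : Multiset ℕ) =
      {l 0} + ({l 1} + ({l 2} + ({l 3} + ({l 4} + 0)))) + ({l 5} + {l 6}) := by abel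
  rw [e]
  exact h

theorem card_seven (l : Fin 7 → ℕ) : Multiset.card (Multiset.ofList (List.ofFn l)) = 7 := by
  simp

theorem keyG (l f : Fin 7 → ℕ)
    (hf : (Multiset.ofList (List.ofFn f)) = Multiset.ofList (List.ofFn l)) :
    gl F f ∈ WLm F 6 (Multiset.ofList (List.ofFn l)) ⊔ Submodule.span F {gl F l} := by
  obtain ⟨σ, hσ⟩ := exists_perm f l hf
  obtain ⟨G, hG⟩ := exists_GA F (FreeMalcev.isMalcev (F := F) (X := ℕ))
  have h1 : G (ofl F f) = Equiv.Perm.sign σ • G (ofl F l) := by
    have : ofl F f = ofl F l ∘ σ := by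
      rw [hσ]
      rfl
    rw [this, G.map_perm]
  rw [hG, hG, Units.smul_def] at h1
  refine of_mkQ F (card_seven l) ?_ (gl_GM F l) h1
  rw [← hf]
  exact gl_GM F f

theorem keyH (l f : Fin 7 → ℕ)
    (hf : (Multiset.ofList (List.ofFn f)) = Multiset.ofList (List.ofFn l)) :
    hl F f ∈ WLm F 6 (Multiset.ofList (List.ofFn l)) ⊔ Submodule.span F {gl F l} := by
  obtain ⟨σ, hσ⟩ := exists_perm f l hf
  obtain ⟨G, hG⟩ := exists_GA F (FreeMalcev.isMalcev (F := F) (X := ℕ))
  obtain ⟨H, hH⟩ := exists_HA F (FreeMalcev.isMalcev (F := F) (X := ℕ))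
  have h0 := HA_eq F (FreeMalcev.isMalcev (F := F) (X := ℕ)) hG hH (ofl F f)
  have h1 : G (ofl F f) = Equiv.Perm.sign σ • G (ofl F l) := by
    have : ofl F f = ofl F l ∘ σ := by
      rw [hσ]
      rfl
    rw [this, G.map_perm]
  rw [h1, hG, hH, Units.smul_def] at h0
  have h2 : (E1A F (FreeMalcev F ℕ)).mkQ (hl F f) =
      (2 * ((Equiv.Perm.sign σ : ℤˣ) : ℤ)) • (E1A F (FreeMalcev F ℕ)).mkQ (gl F l) := by
    rw [mul_smul, two_smul ℤ]
    rw [two_smul] at h0
    exact h0
  refine of_mkQ F (card_seven l) ?_ (gl_GM F l) h2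
  rw [← hf]
  exact hl_GM F f

theorem keyG' (l : Fin 7 → ℕ) (b c i1 i2 i3 i4 j : ℕ)
    (hf : ({b} + {c} + {i1} + {i2} + {i3} + {i4} + {j} : Multiset ℕ) =
      {l 0} + {l 1} + {l 2} + {l 3} + {l 4} + {l 5} + {l 6}) :
    ee F (FreeMalcev.of b * FreeMalcev.of c) (FreeMalcev.of i1) (FreeMalcev.of i2)
      (FreeMalcev.of i3) (FreeMalcev.of i4) (FreeMalcev.of j) ∈
      WLm F 6 (Multiset.ofList (List.ofFn l)) ⊔ Submodule.span F {gl F l} :=
  keyG F l ![b, c, i1, i2, i3, i4, j] (by
    rw [ofFn_seven, ofFn_seven]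
    exact hf)

theorem keyH' (l : Fin 7 → ℕ) (i0 i1 i2 i3 i4 b c : ℕ)
    (hf : ({i0} + {i1} + {i2} + {i3} + {i4} + {b} + {c} : Multiset ℕ) =
      {l 0} + {l 1} + {l 2} + {l 3} + {l 4} + {l 5} + {l 6}) :
    ee F (FreeMalcev.of i0) (FreeMalcev.of i1) (FreeMalcev.of i2)
      (FreeMalcev.of i3) (FreeMalcev.of i4) (FreeMalcev.of b * FreeMalcev.of c) ∈
      WLm F 6 (Multiset.ofList (List.ofFn l)) ⊔ Submodule.span F {gl F l} :=
  keyH F l ![i0, i1, i2, i3, i4, b, c] (by
    rw [ofFn_seven, ofFn_seven]
    exact hf)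

end CSp7Aux

open CSp7Aux

/-- all six words are letters -/
theorem Em_six_letters {m : Multiset ℕ} (hm : Multiset.card m = 6) : Em F 5 m ≤ WLm F 5 m := by
  unfold Em
  rw [Submodule.span_le]
  rintro q ⟨xs, a, hx, hc, rfl⟩
  exact ew_letters F xs a hx hc (by omega)

/-- `card m = 7`, `l` a list of the seven letters. A generator with six words in the list has only letters; if there are five words in the list exactly one of the six words is a product of two letters and, modulo
`E1A`, the generator is `±` resp. `±2` times `e'(l0 l1, l2, .., l5; l6)` (`exists_GA`, `exists_HA`, `HA_eq`: alternating maps); then `E1A_GM` gives `Em F 6 m = WLm F 6 m` for the difference. -/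
theorem Em_seven (l : Fin 7 → ℕ) :
    Em F 5 (Multiset.ofList (List.ofFn l)) ≤ WLm F 6 (Multiset.ofList (List.ofFn l)) ⊔
      Submodule.span F {ee F (FreeMalcev.of (l 0) * FreeMalcev.of (l 1)) (FreeMalcev.of (l 2))
        (FreeMalcev.of (l 3)) (FreeMalcev.of (l 4)) (FreeMalcev.of (l 5)) (FreeMalcev.of (l 6))} := by
  show _ ≤ WLm F 6 (Multiset.ofList (List.ofFn l)) ⊔ Submodule.span F {gl F l}
  conv_lhs => unfold Em
  rw [Submodule.span_le]
  rintro q ⟨xs, a, hx, hc, rfl⟩
  rw [SetLike.mem_coe]
  have hcard : Multiset.card (xs.map content).sum + Multiset.card (content a) = 7 := by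
    rw [← Multiset.card_add, hc, card_seven]
  by_cases h6 : 6 ≤ xs.length
  · exact Submodule.mem_sup_left (ew_letters F xs a h6 hc (by rw [card_seven]; omega))
  have h5 : xs.length = 5 := by omega
  obtain ⟨w0, w1, w2, w3, w4, t, rfl⟩ := exists_cons5 hx
  have ht : t = [] := by
    simp only [List.length_cons] at h5
    exact List.eq_nil_of_length_eq_zero (by omega)
  subst ht
  simp only [List.map_cons, List.map_nil, List.sum_cons, List.sum_nil, ew_cons, List.foldl_nil] at hc hcard ⊢
  simp only [Multiset.card_add, Multiset.card_zero] at hcard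
  have c0 := card_content_pos w0
  have c1 := card_content_pos w1
  have c2 := card_content_pos w2
  have c3 := card_content_pos w3
  have c4 := card_content_pos w4
  have ca := card_content_pos a
  rw [ofFn_seven] at hc
  have hcases : Multiset.card (content w0) = 2 ∨ Multiset.card (content w1) = 2 ∨
      Multiset.card (content w2) = 2 ∨ Multiset.card (content w3) = 2 ∨
      Multiset.card (content w4) = 2 ∨ Multiset.card (content a) = 2 := by omega
  rcases hcases with h | h | h | h | h | h
  · obtain ⟨b, c, rfl⟩ := content_card_two w0 h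
    obtain ⟨i1, rfl⟩ := content_card_one w1 (by omega)
    obtain ⟨i2, rfl⟩ := content_card_one w2 (by omega)
    obtain ⟨i3, rfl⟩ := content_card_one w3 (by omega)
    obtain ⟨i4, rfl⟩ := content_card_one w4 (by omega)
    obtain ⟨j, rfl⟩ := content_card_one a (by omega)
    have := keyG' F l b c i1 i2 i3 i4 j (by
      rw [← hc]
      simp only [content]
      abel)
    simpa only [← wdM_mul, ← of_eq_wdM] using this
  · obtain ⟨b, c, rfl⟩ := content_card_two w1 h
    obtain ⟨i1, rfl⟩ := content_card_one w0 (by omega)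
    obtain ⟨i2, rfl⟩ := content_card_one w2 (by omega)
    obtain ⟨i3, rfl⟩ := content_card_one w3 (by omega)
    obtain ⟨i4, rfl⟩ := content_card_one w4 (by omega)
    obtain ⟨j, rfl⟩ := content_card_one a (by omega)
    have := keyG' F l b c i1 i2 i3 i4 j (by
      rw [← hc]
      simp only [content]
      abel)
    rw [ee_front1]
    refine Submodule.neg_mem _ ?_
    simpa only [← wdM_mul, ← of_eq_wdM] using this
  · obtain ⟨b, c, rfl⟩ := content_card_two w2 h
    obtain ⟨i1, rfl⟩ := content_card_one w0 (by omega)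
    obtain ⟨i2, rfl⟩ := content_card_one w1 (by omega)
    obtain ⟨i3, rfl⟩ := content_card_one w3 (by omega)
    obtain ⟨i4, rfl⟩ := content_card_one w4 (by omega)
    obtain ⟨j, rfl⟩ := content_card_one a (by omega)
    have := keyG' F l b c i1 i2 i3 i4 j (by
      rw [← hc]
      simp only [content]
      abel)
    rw [ee_front2]
    simpa only [← wdM_mul, ← of_eq_wdM] using this
  · obtain ⟨b, c, rfl⟩ := content_card_two w3 h
    obtain ⟨i1, rfl⟩ := content_card_one w0 (by omega)
    obtain ⟨i2, rfl⟩ := content_card_one w1 (by omega)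
    obtain ⟨i3, rfl⟩ := content_card_one w2 (by omega)
    obtain ⟨i4, rfl⟩ := content_card_one w4 (by omega)
    obtain ⟨j, rfl⟩ := content_card_one a (by omega)
    have := keyG' F l b c i1 i2 i3 i4 j (by
      rw [← hc]
      simp only [content]
      abel)
    rw [ee_front3]
    refine Submodule.neg_mem _ ?_
    simpa only [← wdM_mul, ← of_eq_wdM] using this
  · obtain ⟨b, c, rfl⟩ := content_card_two w4 h
    obtain ⟨i1, rfl⟩ := content_card_one w0 (by omega)
    obtain ⟨i2, rfl⟩ := content_card_one w1 (by omega)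
    obtain ⟨i3, rfl⟩ := content_card_one w2 (by omega)
    obtain ⟨i4, rfl⟩ := content_card_one w3 (by omega)
    obtain ⟨j, rfl⟩ := content_card_one a (by omega)
    have := keyG' F l b c i1 i2 i3 i4 j (by
      rw [← hc]
      simp only [content]
      abel)
    rw [← ee_rot]
    simpa only [← wdM_mul, ← of_eq_wdM] using this
  · obtain ⟨b, c, rfl⟩ := content_card_two a h
    obtain ⟨i0, rfl⟩ := content_card_one w0 (by omega)
    obtain ⟨i1, rfl⟩ := content_card_one w1 (by omega)
    obtain ⟨i2, rfl⟩ := content_card_one w2 (by omega)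
    obtain ⟨i3, rfl⟩ := content_card_one w3 (by omega)
    obtain ⟨i4, rfl⟩ := content_card_one w4 (by omega)
    have := keyH' F l i0 i1 i2 i3 i4 b c (by
      rw [← hc]
      simp only [content]
      abel)
    simpa only [← wdM_mul, ← of_eq_wdM] using this

end Pool.Agent.Malc
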