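import Pool.Agent.Malc.CRed

/-! # Part C: the spanning theorem, at least eight letters -/

set_option autoImplicit false

open scoped BigOperators

namespace Pool.Agent.Malc

universe u v

namespace CSp8Aux

theorem card_content_pos : ∀ w : FreeMagma ℕ, 1 ≤ Multiset.card (content w)
  | .of i => by simp [content]
  | .mul a b => by
    have h : content (FreeMagma.mul a b) = content a + content b := rfl
    have h1 := card_content_pos a
    rw [h, Multiset.card_add]
    omega

theorem card_content_of (w : FreeMagma ℕ) (h : ∀ p q : FreeMagma ℕ, w ≠ FreeMagma.mul p q) :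
    Multiset.card (content w) = 1 := by
  cases w with
  | of i => simp [content]
  | mul a b => exact absurd rfl (h a b)

theorem exists_prod (z : Fin 7 → FreeMagma ℕ)
    (hz : 8 ≤ ∑ i, Multiset.card (content (z i))) :
    ∃ (i : Fin 7) (p q : FreeMagma ℕ), z i = FreeMagma.mul p q := by
  by_contra hcon
  push Not at hcon
  have h1 : ∀ i, Multiset.card (content (z i)) = 1 := fun i => card_content_of _ (hcon i)
  simp only [h1, Finset.sum_const, Finset.card_univ, Fintype.card_fin, smul_eq_mul] at hz
  omega

variable (F : Type u) [Field F] [CharZero F]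

/-- a product among the first five arguments -/
theorem caseA (u v o1 o2 o3 o4 a : FreeMagma ℕ)
    (hz : 8 ≤ Multiset.card (content u) + Multiset.card (content v) +
      Multiset.card (content o1) + Multiset.card (content o2) + Multiset.card (content o3) +
      Multiset.card (content o4) + Multiset.card (content a)) :
    ee F (wdM (FreeMagma.mul u v)) (wdM o1) (wdM o2) (wdM o3) (wdM o4) (wdM a) ∈
      E1A F (FreeMalcev F ℕ) := by
  obtain ⟨i, p, q, h⟩ := exists_prod ![u, v, o1, o2, o3, o4, a] (by
    simp only [Fin.sum_univ_seven]
    exact hz)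
  have h2 := (T_main F (FreeMalcev.isMalcev : IsMalcev (FreeMalcev F ℕ))
    (fun j => wdM (![u, v, o1, o2, o3, o4, a] j)) i (wdM p) (wdM q) (by
      simp only [h]
      rw [wdM_mul])).1
  have e : (wdM u * wdM v : FreeMalcev F ℕ) = wdM (FreeMagma.mul u v) := wdM_mul u v
  rw [← e]
  exact h2

/-- a product as the last argument -/
theorem caseB (x0 x1 x2 x3 x4 u v : FreeMagma ℕ)
    (hz : 8 ≤ Multiset.card (content x0) + Multiset.card (content x1) +
      Multiset.card (content x2) + Multiset.card (content x3) + Multiset.card (content x4) +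
      Multiset.card (content u) + Multiset.card (content v)) :
    ee F (wdM x0) (wdM x1) (wdM x2) (wdM x3) (wdM x4) (wdM (FreeMagma.mul u v)) ∈
      E1A F (FreeMalcev F ℕ) := by
  obtain ⟨i, p, q, h⟩ := exists_prod ![x0, x1, x2, x3, x4, u, v] (by
    simp only [Fin.sum_univ_seven]
    exact hz)
  have h2 := (T_main F (FreeMalcev.isMalcev : IsMalcev (FreeMalcev F ℕ))
    (fun j => wdM (![x0, x1, x2, x3, x4, u, v] j)) i (wdM p) (wdM q) (by
      simp only [h]
      rw [wdM_mul])).2
  have e : (wdM u * wdM v : FreeMalcev F ℕ) = wdM (FreeMagma.mul u v) := wdM_mul u v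
  rw [← e]
  exact h2

theorem card_mul (a b : FreeMagma ℕ) : Multiset.card (content (FreeMagma.mul a b)) =
    Multiset.card (content a) + Multiset.card (content b) := by
  have h : content (FreeMagma.mul a b) = content a + content b := rfl
  rw [h, Multiset.card_add]

/-- five words in the list, at least eight letters -/
theorem mem_E1A (x0 x1 x2 x3 x4 a : FreeMagma ℕ)
    (hz : 8 ≤ Multiset.card (content x0) + Multiset.card (content x1) +
      Multiset.card (content x2) + Multiset.card (content x3) + Multiset.card (content x4) +
      Multiset.card (content a)) :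
    ee F (wdM x0) (wdM x1) (wdM x2) (wdM x3) (wdM x4) (wdM a) ∈ E1A F (FreeMalcev F ℕ) := by
  by_cases h0 : ∃ p q, x0 = FreeMagma.mul p q
  · obtain ⟨p, q, rfl⟩ := h0
    rw [card_mul] at hz
    exact caseA F p q x1 x2 x3 x4 a (by omega)
  by_cases h1 : ∃ p q, x1 = FreeMagma.mul p q
  · obtain ⟨p, q, rfl⟩ := h1
    rw [card_mul] at hz
    rw [ee_front1]
    exact Submodule.neg_mem _ (caseA F p q x0 x2 x3 x4 a (by omega))
  by_cases h2 : ∃ p q, x2 = FreeMagma.mul p q
  · obtain ⟨p, q, rfl⟩ := h2
    rw [card_mul] at hz
    rw [ee_front2]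
    exact caseA F p q x0 x1 x3 x4 a (by omega)
  by_cases h3 : ∃ p q, x3 = FreeMagma.mul p q
  · obtain ⟨p, q, rfl⟩ := h3
    rw [card_mul] at hz
    rw [ee_front3]
    exact Submodule.neg_mem _ (caseA F p q x0 x1 x2 x4 a (by omega))
  by_cases h4 : ∃ p q, x4 = FreeMagma.mul p q
  · obtain ⟨p, q, rfl⟩ := h4
    rw [card_mul] at hz
    rw [← ee_rot]
    exact caseA F p q x0 x1 x2 x3 a (by omega)
  by_cases h5 : ∃ p q, a = FreeMagma.mul p q
  · obtain ⟨p, q, rfl⟩ := h5
    rw [card_mul] at hz
    exact caseB F x0 x1 x2 x3 x4 p q (by omega)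
  push Not at h0 h1 h2 h3 h4 h5
  rw [card_content_of _ h0, card_content_of _ h1, card_content_of _ h2, card_content_of _ h3,
    card_content_of _ h4, card_content_of _ h5] at hz
  omega

end CSp8Aux

variable (F : Type u) [Field F] [CharZero F]

open CSp8Aux in
/-- If the list has exactly five words and the total content has at least 8 letters then one of the six words is a product `u v`, and among the seven words obtained by
splitting it there is again a product. If it is in the list, move it to the front (`ee_front1,2,3`, `ee_rot`) and use the first part of `T_main`; if it is the last argument, use the second part of `T_main`.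
Then `E1A_GM`, `ew_GM`. -/
theorem Em_six {m : Multiset ℕ} (hm : 8 ≤ Multiset.card m) : Em F 5 m ≤ Em F 6 m := by
  unfold Em
  rw [Submodule.span_le]
  rintro q ⟨xs, a, hx, hc, rfl⟩
  by_cases h6 : 6 ≤ xs.length
  · exact Submodule.subset_span ⟨xs, a, h6, hc, rfl⟩
  · have h5 : xs.length = 5 := by omega
    have hGM := ew_GM F xs a
    rw [hc] at hGM
    obtain ⟨x0, x1, x2, x3, x4, t, rfl⟩ := exists_cons5 hx
    have ht : t = [] := by
      rw [← List.length_eq_zero_iff]
      simp only [List.length_cons] at h5
      omega
    subst ht
    have hcard := congrArg Multiset.card hc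
    simp only [List.map_cons, List.map_nil, List.sum_cons, List.sum_nil, Multiset.card_add,
      Multiset.card_zero] at hcard
    have hE := mem_E1A F x0 x1 x2 x3 x4 a (by omega)
    exact E1A_GM F hE hGM

/-- **Spanning theorem.** By `Em_six` the generators are `ew F (xs ++ [b]) a = ew F xs a * b` with `5 ≤ xs.length`. Take `r` from `Wred` for `xs, a`: `ew F xs a * b = r * b`. If `b` is a product
use `Bred`. If `b` is a letter, `r * b` is a combination of `ew F (V) (a')`, `V` a list of letters with `V.length + 1 = card m ≥ 8`, and
`2 ew V a' = wf V a' - Zt V.dropLast a' (last)` (`wf_append`). -/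
theorem Em_le {m : Multiset ℕ} (hm : 8 ≤ Multiset.card m) : Em F 5 m ≤ VLm F m ⊔ ZLm F m := by
  refine (Em_six F hm).trans ?_
  unfold Em
  rw [Submodule.span_le]
  rintro q ⟨xs, a, hx, hc, rfl⟩
  obtain ⟨ys, b, rfl⟩ : ∃ ys b, xs = ys ++ [b] := by
    rcases List.eq_nil_or_concat xs with h | ⟨ys, b, h⟩
    · rw [h] at hx; simp at hx
    · exact ⟨ys, b, by simpa using h⟩
  have hy : 5 ≤ ys.length := by
    rw [List.length_append, List.length_singleton] at hx
    omega
  have hy' : 5 ≤ (ys.map (wdM : FreeMagma ℕ → FreeMalcev F ℕ)).length := by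
    rw [List.length_map]; exact hy
  obtain ⟨r, hr, hrc⟩ := Wred F ys a hy
  have e1 : ew F ((ys ++ [b]).map wdM) (wdM a) = r * wdM b := by
    rw [List.map_append, List.map_cons, List.map_nil, ew_append F hy']
    have h1 := hrc (wdM b)
    rw [sub_mul, sub_eq_zero] at h1
    exact h1
  have hc' : (ys.map content).sum + content a + content b = m := by
    rw [List.map_append, List.sum_append, List.map_cons, List.map_nil, List.sum_singleton] at hc
    rw [← hc, add_assoc, add_assoc, add_comm (content a)]
  change ew F ((ys ++ [b]).map wdM) (wdM a) ∈ VLm F m ⊔ ZLm F m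
  rw [e1]
  clear e1 hrc
  -- linearity in `r`
  unfold WLm at hr
  induction hr using Submodule.span_induction with
  | mem r hr =>
    obtain ⟨zs, a', hz, hzc, rfl⟩ := hr
    have hz' : 5 ≤ (zs.map (FreeMalcev.of : ℕ → FreeMalcev F ℕ)).length := by
      rw [List.length_map]; exact hz
    by_cases hb : 2 ≤ Multiset.card (content b)
    · have h1 := Bred F b hb zs a' hz
      rw [hzc, hc'] at h1
      exact Submodule.mem_sup_right h1
    · cases b with
      | mul p q =>
        exfalso
        apply hb
        have h1 := CSp8Aux.card_content_pos p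
        have h2 := CSp8Aux.card_content_pos q
        have h3 := CSp8Aux.card_mul p q
        have h4 : Multiset.card (content (p * q)) =
          Multiset.card (content p) + Multiset.card (content q) := h3
        omega
      | of n =>
        have hcn : content (FreeMagma.of n) = {n} := rfl
        rw [hcn, ← hzc] at hc'
        have hlen : zs.length + 2 = Multiset.card m := by
          rw [← hc', Multiset.card_add, Multiset.card_add, Multiset.coe_card,
            Multiset.card_singleton, Multiset.card_singleton]
        rw [← of_eq_wdM]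
        have h2 := wf_append F hz' (FreeMalcev.of n) (FreeMalcev.of a')
        have hV : wf F (zs.map FreeMalcev.of ++ [FreeMalcev.of n]) (FreeMalcev.of a') ∈
            VLm F m ⊔ ZLm F m := by
          apply Submodule.mem_sup_left
          apply Submodule.subset_span
          refine ⟨zs ++ [n], a', ?_, ?_, ?_⟩
          · rw [List.length_append, List.length_singleton]; omega
          · rw [← hc', ← Multiset.coe_add, Multiset.coe_singleton, add_assoc, add_assoc,
              add_comm ({n} : Multiset ℕ)]
          · rw [List.map_append, List.map_cons, List.map_nil]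
        have hZ : Zt F (zs.map FreeMalcev.of) (FreeMalcev.of a') (FreeMalcev.of n) ∈
            VLm F m ⊔ ZLm F m := by
          apply Submodule.mem_sup_right
          apply Submodule.subset_span
          exact ⟨zs, a', n, by omega, hc', rfl⟩
        have h3 : (2 : F) • (ew F (zs.map (FreeMalcev.of : ℕ → FreeMalcev F ℕ))
            (FreeMalcev.of a') * FreeMalcev.of n) ∈ VLm F m ⊔ ZLm F m := by
          have h4 : (2 : F) • (ew F (zs.map (FreeMalcev.of : ℕ → FreeMalcev F ℕ))
              (FreeMalcev.of a') * FreeMalcev.of n) =
              wf F (zs.map FreeMalcev.of ++ [FreeMalcev.of n]) (FreeMalcev.of a') -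
                Zt F (zs.map FreeMalcev.of) (FreeMalcev.of a') (FreeMalcev.of n) := by
            rw [h2, add_sub_cancel_right, two_smul, two_nsmul]
          rw [h4]
          exact Submodule.sub_mem _ hV hZ
        have h5 := Submodule.smul_mem _ (2 : F)⁻¹ h3
        rwa [smul_smul, inv_mul_cancel₀ (two_ne_zero : (2 : F) ≠ 0), one_smul] at h5
  | zero => rw [zero_mul]; exact Submodule.zero_mem _
  | add p q _ _ hp hq => rw [add_mul]; exact Submodule.add_mem _ hp hq
  | smul c p _ hp => rw [smul_mul_assoc]; exact Submodule.smul_mem _ c hp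

end Pool.Agent.Malc
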