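import Pool.Agent.Malc.CSkew

/-! # Part C: `e'` with a product among its arguments -/

set_option autoImplicit false

open scoped BigOperators

namespace Pool.Agent.Malc

universe u v

variable (F : Type u) [Field F] {A : Type v} [NonUnitalNonAssocRing A] [Module F A]
  [IsScalarTower F A A] [SMulCommClass F A A]

variable (A) in
/-- the span of the `ew F xs a` with at least six entries in the list -/
noncomputable def E1A : Submodule F A :=
  Submodule.span F {q | ∃ xs : List A, 6 ≤ xs.length ∧ ∃ a, q = ew F xs a}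

/-- the generators of `Fsp F y` are `ew F [y (s 0), .., y (s 4), y (s 6)] (y (s 5))` -/
theorem Fsp_le (y : Fin 7 → A) : Fsp F y ≤ E1A F A := by
  unfold Fsp
  rw [Submodule.span_le]
  rintro _ ⟨s, rfl⟩
  refine Submodule.subset_span ⟨[y (s 0), y (s 1), y (s 2), y (s 3), y (s 4), y (s 6)], ?_, y (s 5), ?_⟩
  · simp
  · rfl

namespace CTotAux

/-- the permutations under which `f` behaves like an alternating map -/
def good {N : Type*} [AddCommGroup N] {B : Type*} (f : (Fin 7 → B) → N) :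
    Subgroup (Equiv.Perm (Fin 7)) where
  carrier := {s | ∀ y, f (y ∘ s) = (Equiv.Perm.sign s : ℤ) • f y}
  mul_mem' := by
    intro a b ha hb y
    have h1 : y ∘ (a * b : Equiv.Perm (Fin 7)) = (y ∘ a) ∘ b := rfl
    rw [h1, hb, ha, Equiv.Perm.sign_mul, Units.val_mul, mul_comm, mul_smul]
  one_mem' := by
    intro y
    simp
  inv_mem' := by
    intro a ha y
    have h := ha (y ∘ (a⁻¹ : Equiv.Perm (Fin 7)))
    have h1 : (y ∘ (a⁻¹ : Equiv.Perm (Fin 7))) ∘ a = y := by
      funext i
      simp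
    rw [h1] at h
    rw [h, smul_smul, Equiv.Perm.sign_inv]
    have : ((Equiv.Perm.sign a : ℤˣ) : ℤ) * ((Equiv.Perm.sign a : ℤˣ) : ℤ) = 1 := by
      rw [← Units.val_mul, Int.units_mul_self, Units.val_one]
    rw [this, one_smul]

theorem mem_good {N : Type*} [AddCommGroup N] {B : Type*} {f : (Fin 7 → B) → N} {i j : Fin 7}
    (hij : i ≠ j) (h : ∀ y : Fin 7 → B, f (y ∘ Equiv.swap i j) = - f y) :
    Equiv.swap i j ∈ good f := by
  intro y
  rw [h y, Equiv.Perm.sign_swap hij]
  simp

theorem swap_eq {i j k : Fin 7} (hij : i ≠ j) (hjk : j ≠ k) (hik : i ≠ k) :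
    Equiv.swap i k = Equiv.swap i j * Equiv.swap j k * Equiv.swap i j := by
  revert i j k
  decide

theorem trans_good {H : Subgroup (Equiv.Perm (Fin 7))} {i j k : Fin 7} (hij : i ≠ j) (hjk : j ≠ k)
    (hik : i ≠ k) (h1 : Equiv.swap i j ∈ H) (h2 : Equiv.swap j k ∈ H) : Equiv.swap i k ∈ H := by
  rw [swap_eq hij hjk hik]
  exact H.mul_mem (H.mul_mem h1 h2) h1

theorem eq_zero_of {N : Type*} [AddCommGroup N] {F : Type*} [Field F] [CharZero F] [Module F N]
    {B : Type*} {f : (Fin 7 → B) → N} (hg : ∀ i j : Fin 7, i ≠ j → Equiv.swap i j ∈ good f)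
    (y : Fin 7 → B) (i j : Fin 7) (hy : y i = y j) (hij : i ≠ j) : f y = 0 := by
  have h := hg i j hij y
  have h1 : y ∘ Equiv.swap i j = y := by
    funext k
    simp only [Function.comp_apply]
    rcases eq_or_ne k i with rfl | hi
    · rw [Equiv.swap_apply_left, hy]
    · rcases eq_or_ne k j with rfl | hj
      · rw [Equiv.swap_apply_right, hy]
      · rw [Equiv.swap_apply_of_ne_of_ne hi hj]
  rw [h1, Equiv.Perm.sign_swap hij] at h
  simp only [Units.val_neg, Units.val_one, neg_smul, one_smul] at h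
  have h2 : (2 : F) • f y = 0 := by
    rw [two_smul]
    nth_rewrite 1 [h]
    simp
  exact (smul_eq_zero.mp h2).resolve_left two_ne_zero

/-- all swaps, from a spanning tree of swaps -/
theorem all_swaps (H : Subgroup (Equiv.Perm (Fin 7))) (h : ∀ i : Fin 7, i ≠ 1 → Equiv.swap 1 i ∈ H)
    (i j : Fin 7) (hij : i ≠ j) : Equiv.swap i j ∈ H := by
  rcases eq_or_ne i 1 with rfl | hi
  · exact h j hij.symm
  · rcases eq_or_ne j 1 with rfl | hj
    · rw [Equiv.swap_comm]
      exact h i hi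
    · refine trans_good hi hj.symm hij ?_ (h j hj)
      rw [Equiv.swap_comm]
      exact h i hi

variable {F}

theorem anti (h : IsMalcev A) (a b : A) : b * a = - (a * b) := by
  have h1 := h.sq (a + b)
  rw [mul_add, add_mul, add_mul, h.sq, h.sq] at h1
  rw [zero_add, add_zero] at h1
  exact eq_neg_of_add_eq_zero_left h1

theorem add1 (x0 x x' x2 x3 x4 y : A) :
    ee F x0 (x + x') x2 x3 x4 y = ee F x0 x x2 x3 x4 y + ee F x0 x' x2 x3 x4 y := by
  rw [ee_front1, ee_add0, neg_add, ← ee_front1, ← ee_front1]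

theorem smul1 (c : F) (x0 x x2 x3 x4 y : A) :
    ee F x0 (c • x) x2 x3 x4 y = c • ee F x0 x x2 x3 x4 y := by
  rw [ee_front1, ee_smul0, ← smul_neg, ← ee_front1]

theorem add2 (x0 x1 x x' x3 x4 y : A) :
    ee F x0 x1 (x + x') x3 x4 y = ee F x0 x1 x x3 x4 y + ee F x0 x1 x' x3 x4 y := by
  rw [ee_front2 F x0 x1 (x + x'), ee_add0, ee_front2 F x0 x1 x, ee_front2 F x0 x1 x']

theorem smul2 (c : F) (x0 x1 x x3 x4 y : A) :
    ee F x0 x1 (c • x) x3 x4 y = c • ee F x0 x1 x x3 x4 y := by
  rw [ee_front2, ee_smul0, ← ee_front2]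

theorem add3 (x0 x1 x2 x x' x4 y : A) :
    ee F x0 x1 x2 (x + x') x4 y = ee F x0 x1 x2 x x4 y + ee F x0 x1 x2 x' x4 y := by
  rw [ee_front3, ee_add0, neg_add, ← ee_front3, ← ee_front3]

theorem smul3 (c : F) (x0 x1 x2 x x4 y : A) :
    ee F x0 x1 x2 (c • x) x4 y = c • ee F x0 x1 x2 x x4 y := by
  rw [ee_front3, ee_smul0, ← smul_neg, ← ee_front3]

theorem neg0 (x x1 x2 x3 x4 y : A) : ee F (-x) x1 x2 x3 x4 y = - ee F x x1 x2 x3 x4 y := by
  have := ee_smul0 F (-1) x x1 x2 x3 x4 y
  simpa using this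

theorem negy (x0 x1 x2 x3 x4 y : A) : ee F x0 x1 x2 x3 x4 (-y) = - ee F x0 x1 x2 x3 x4 y := by
  have := ee_smuly F (-1) x0 x1 x2 x3 x4 y
  simpa using this

variable (F)

/-- the multilinear map behind `exists_GA` -/
noncomputable def GM : MultilinearMap F (fun _ : Fin 7 => A) A where
  toFun := fun y => ee F (y 0 * y 1) (y 2) (y 3) (y 4) (y 5) (y 6)
  map_update_add' := by
    intro inst m i a b
    have h : inst = instDecidableEqFin 7 := Subsingleton.elim _ _
    subst h
    fin_cases i <;> simp [add_mul, mul_add, ee_add0, add1, add2, add3, ee_add4, ee_addy]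
  map_update_smul' := by
    intro inst m i c a
    have h : inst = instDecidableEqFin 7 := Subsingleton.elim _ _
    subst h
    fin_cases i <;> simp [smul_mul_assoc, mul_smul_comm, ee_smul0, smul1, smul2, smul3, ee_smul4, ee_smuly]

/-- the multilinear map behind `exists_HA` -/
noncomputable def HM : MultilinearMap F (fun _ : Fin 7 => A) A where
  toFun := fun y => ee F (y 0) (y 1) (y 2) (y 3) (y 4) (y 5 * y 6)
  map_update_add' := by
    intro inst m i a b
    have h : inst = instDecidableEqFin 7 := Subsingleton.elim _ _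
    subst h
    fin_cases i <;> simp [add_mul, mul_add, ee_add0, add1, add2, add3, ee_add4, ee_addy]
  map_update_smul' := by
    intro inst m i c a
    have h : inst = instDecidableEqFin 7 := Subsingleton.elim _ _
    subst h
    fin_cases i <;> simp [smul_mul_assoc, mul_smul_comm, ee_smul0, smul1, smul2, smul3, ee_smul4, ee_smuly]

theorem GM_apply (y : Fin 7 → A) : GM F y = ee F (y 0 * y 1) (y 2) (y 3) (y 4) (y 5) (y 6) := by
  simp only [GM, MultilinearMap.coe_mk]

theorem HM_apply (y : Fin 7 → A) : HM F y = ee F (y 0) (y 1) (y 2) (y 3) (y 4) (y 5 * y 6) := by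
  simp only [HM, MultilinearMap.coe_mk]

end CTotAux

variable [CharZero F]

open CTotAux

/-- The map `y ↦ e'(y0 y1, y2, .., y5; y6)` is alternating modulo `E1A`. Skew in `y0, y1` and in `y2, .., y5` exactly; `base_r2` (with `v := v + v'`, the terms
with `v, v` and `v', v'` are in `E1A` again): skew in `y1, y2`; `base_r1` (linearised in `a`): skew in `y1, y6`. These transpositions generate. (An `AlternatingMap` needs
`= 0` when two arguments are equal: by transpositions the two equal arguments may be moved to the positions `0, 1`; characteristic not 2.) -/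
theorem exists_GA (h : IsMalcev A) : ∃ G : A [⋀^Fin 7]→ₗ[F] (A ⧸ E1A F A), ∀ y : Fin 7 → A,
    G y = (E1A F A).mkQ (ee F (y 0 * y 1) (y 2) (y 3) (y 4) (y 5) (y 6)) := by
  set f : MultilinearMap F (fun _ : Fin 7 => A) (A ⧸ E1A F A) :=
    (E1A F A).mkQ.compMultilinearMap (GM F) with hf
  have hfy : ∀ y : Fin 7 → A, f y = (E1A F A).mkQ (ee F (y 0 * y 1) (y 2) (y 3) (y 4) (y 5) (y 6)) :=
    fun y => by rw [hf, LinearMap.compMultilinearMap_apply, GM_apply]
  have h01 : Equiv.swap (0 : Fin 7) 1 ∈ good f := by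
    refine mem_good (by decide) fun y => ?_
    rw [hfy, hfy, ← map_neg]
    congr 1
    show ee F (y 1 * y 0) (y 2) (y 3) (y 4) (y 5) (y 6) = _
    rw [anti h (y 0) (y 1), neg0]
  have h23 : Equiv.swap (2 : Fin 7) 3 ∈ good f := by
    refine mem_good (by decide) fun y => ?_
    rw [hfy, hfy, ← map_neg]
    congr 1
    exact ee_sw1 F _ _ _ _ _ _
  have h34 : Equiv.swap (3 : Fin 7) 4 ∈ good f := by
    refine mem_good (by decide) fun y => ?_
    rw [hfy, hfy, ← map_neg]
    congr 1
    exact ee_sw2 F _ _ _ _ _ _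
  have h45 : Equiv.swap (4 : Fin 7) 5 ∈ good f := by
    refine mem_good (by decide) fun y => ?_
    rw [hfy, hfy, ← map_neg]
    congr 1
    exact ee_sw3 F _ _ _ _ _ _
  have h12 : Equiv.swap (1 : Fin 7) 2 ∈ good f := by
    refine mem_good (by decide) fun y => ?_
    rw [hfy, hfy, ← map_neg, ← sub_eq_zero, ← map_sub, Submodule.mkQ_apply, Submodule.Quotient.mk_eq_zero]
    show ee F (y 0 * y 2) (y 1) (y 3) (y 4) (y 5) (y 6) - - ee F (y 0 * y 1) (y 2) (y 3) (y 4) (y 5) (y 6) ∈ _
    have e1 := Fsp_le F _ (base_r2 F h (y 0) (y 1 + y 2) (y 3) (y 4) (y 5) (y 6))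
    have e2 := Fsp_le F _ (base_r2 F h (y 0) (y 1) (y 3) (y 4) (y 5) (y 6))
    have e3 := Fsp_le F _ (base_r2 F h (y 0) (y 2) (y 3) (y 4) (y 5) (y 6))
    rw [mul_add, ee_add0, add1, add1] at e1
    have e4 := Submodule.sub_mem _ (Submodule.sub_mem _ e1 e2) e3
    convert e4 using 1
    abel
  have h16 : Equiv.swap (1 : Fin 7) 6 ∈ good f := by
    refine mem_good (by decide) fun y => ?_
    rw [hfy, hfy, ← map_neg, ← sub_eq_zero, ← map_sub, Submodule.mkQ_apply, Submodule.Quotient.mk_eq_zero]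
    show ee F (y 0 * y 6) (y 2) (y 3) (y 4) (y 5) (y 1) - - ee F (y 0 * y 1) (y 2) (y 3) (y 4) (y 5) (y 6) ∈ _
    have e1 := Fsp_le F _ (base_r1 F h (y 0) (y 1 + y 6) (y 2) (y 3) (y 4) (y 5))
    have e2 := Fsp_le F _ (base_r1 F h (y 0) (y 1) (y 2) (y 3) (y 4) (y 5))
    have e3 := Fsp_le F _ (base_r1 F h (y 0) (y 6) (y 2) (y 3) (y 4) (y 5))
    rw [mul_add, ee_add0, ee_addy, ee_addy] at e1
    have e4 := Submodule.sub_mem _ (Submodule.sub_mem _ e1 e2) e3
    convert e4 using 1
    abel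
  have h13 : Equiv.swap (1 : Fin 7) 3 ∈ good f := trans_good (by decide) (by decide) (by decide) h12 h23
  have h14 : Equiv.swap (1 : Fin 7) 4 ∈ good f := trans_good (by decide) (by decide) (by decide) h13 h34
  have h15 : Equiv.swap (1 : Fin 7) 5 ∈ good f := trans_good (by decide) (by decide) (by decide) h14 h45
  have hall : ∀ i j : Fin 7, i ≠ j → Equiv.swap i j ∈ good f := by
    refine all_swaps _ fun i hi => ?_
    fin_cases i
    · rw [Equiv.swap_comm]; exact h01
    · exact absurd rfl hi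
    · exact h12
    · exact h13
    · exact h14
    · exact h15
    · exact h16
  exact ⟨{ f with map_eq_zero_of_eq' := fun y i j hy hij => eq_zero_of (F := F) hall y i j hy hij },
    fun y => hfy y⟩

/-- The same for `y ↦ e'(y0, .., y4; y5 y6)`: exactly skew in `y0, .., y4` and in `y5, y6`, and skew in `y4, y6` by `base_r4`. -/
theorem exists_HA (h : IsMalcev A) : ∃ H : A [⋀^Fin 7]→ₗ[F] (A ⧸ E1A F A), ∀ y : Fin 7 → A,
    H y = (E1A F A).mkQ (ee F (y 0) (y 1) (y 2) (y 3) (y 4) (y 5 * y 6)) := by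
  set f : MultilinearMap F (fun _ : Fin 7 => A) (A ⧸ E1A F A) :=
    (E1A F A).mkQ.compMultilinearMap (HM F) with hf
  have hfy : ∀ y : Fin 7 → A, f y = (E1A F A).mkQ (ee F (y 0) (y 1) (y 2) (y 3) (y 4) (y 5 * y 6)) :=
    fun y => by rw [hf, LinearMap.compMultilinearMap_apply, HM_apply]
  have h01 : Equiv.swap (0 : Fin 7) 1 ∈ good f := by
    refine mem_good (by decide) fun y => ?_
    rw [hfy, hfy, ← map_neg]
    congr 1
    exact ee_sw0 F _ _ _ _ _ _
  have h12 : Equiv.swap (1 : Fin 7) 2 ∈ good f := by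
    refine mem_good (by decide) fun y => ?_
    rw [hfy, hfy, ← map_neg]
    congr 1
    exact ee_sw1 F _ _ _ _ _ _
  have h23 : Equiv.swap (2 : Fin 7) 3 ∈ good f := by
    refine mem_good (by decide) fun y => ?_
    rw [hfy, hfy, ← map_neg]
    congr 1
    exact ee_sw2 F _ _ _ _ _ _
  have h34 : Equiv.swap (3 : Fin 7) 4 ∈ good f := by
    refine mem_good (by decide) fun y => ?_
    rw [hfy, hfy, ← map_neg]
    congr 1
    exact ee_sw3 F _ _ _ _ _ _
  have h65 : Equiv.swap (6 : Fin 7) 5 ∈ good f := by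
    refine mem_good (by decide) fun y => ?_
    rw [hfy, hfy, ← map_neg]
    congr 1
    show ee F (y 0) (y 1) (y 2) (y 3) (y 4) (y 6 * y 5) = _
    rw [anti h (y 5) (y 6), negy]
  have h46 : Equiv.swap (4 : Fin 7) 6 ∈ good f := by
    refine mem_good (by decide) fun y => ?_
    rw [hfy, hfy, ← map_neg, ← sub_eq_zero, ← map_sub, Submodule.mkQ_apply, Submodule.Quotient.mk_eq_zero]
    show ee F (y 0) (y 1) (y 2) (y 3) (y 6) (y 5 * y 4) - - ee F (y 0) (y 1) (y 2) (y 3) (y 4) (y 5 * y 6) ∈ _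
    have e1 := Fsp_le F _ (base_r4 F h (y 0) (y 1) (y 2) (y 3) (y 5) (y 4 + y 6))
    have e2 := Fsp_le F _ (base_r4 F h (y 0) (y 1) (y 2) (y 3) (y 5) (y 4))
    have e3 := Fsp_le F _ (base_r4 F h (y 0) (y 1) (y 2) (y 3) (y 5) (y 6))
    rw [mul_add, ee_addy, ee_add4, ee_add4] at e1
    have e4 := Submodule.sub_mem _ (Submodule.sub_mem _ e1 e2) e3
    convert e4 using 1
    abel
  have h13 : Equiv.swap (1 : Fin 7) 3 ∈ good f := trans_good (by decide) (by decide) (by decide) h12 h23
  have h14 : Equiv.swap (1 : Fin 7) 4 ∈ good f := trans_good (by decide) (by decide) (by decide) h13 h34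
  have h16 : Equiv.swap (1 : Fin 7) 6 ∈ good f := trans_good (by decide) (by decide) (by decide) h14 h46
  have h15 : Equiv.swap (1 : Fin 7) 5 ∈ good f := trans_good (by decide) (by decide) (by decide) h16 h65
  have hall : ∀ i j : Fin 7, i ≠ j → Equiv.swap i j ∈ good f := by
    refine all_swaps _ fun i hi => ?_
    fin_cases i
    · rw [Equiv.swap_comm]; exact h01
    · exact absurd rfl hi
    · exact h12
    · exact h13
    · exact h14
    · exact h15
    · exact h16
  exact ⟨{ f with map_eq_zero_of_eq' := fun y i j hy hij => eq_zero_of (F := F) hall y i j hy hij },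
    fun y => hfy y⟩

end Pool.Agent.Malc
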