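import Pool.Agent.Malc.ThmX
import Pool.Agent.Malc.Words3

/-! # Cross product algebras as Malcev algebras -/

set_option autoImplicit false

namespace Pool.Agent.Malc

universe u v

variable {F : Type u} [Field F]

/-- the underlying Malcev algebra -/
@[ext] structure CPA.Mal (A : CPA F) : Type u where
  e : A.E

namespace CPA.Mal

variable {A : CPA F}

noncomputable instance : Zero A.Mal := ⟨⟨0⟩⟩
noncomputable instance : Add A.Mal := ⟨fun x y => ⟨x.e + y.e⟩⟩
noncomputable instance : Neg A.Mal := ⟨fun x => ⟨-x.e⟩⟩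
noncomputable instance : Mul A.Mal := ⟨fun x y => ⟨A.mul x.e y.e⟩⟩
noncomputable instance : SMul F A.Mal := ⟨fun r x => ⟨algebraMap F A.S r • x.e⟩⟩

@[simp] theorem zero_e : (0 : A.Mal).e = 0 := rfl
@[simp] theorem add_e (x y : A.Mal) : (x + y).e = x.e + y.e := rfl
@[simp] theorem neg_e (x : A.Mal) : (-x).e = -x.e := rfl
@[simp] theorem mul_e (x y : A.Mal) : (x * y).e = A.mul x.e y.e := rfl
@[simp] theorem smul_e (r : F) (x : A.Mal) : (r • x).e = algebraMap F A.S r • x.e := rfl

noncomputable instance : NonUnitalNonAssocRing A.Mal where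
  add_assoc := fun x y z => by ext; simp [add_assoc]
  zero_add := fun x => by ext; simp
  add_zero := fun x => by ext; simp
  add_comm := fun x y => by ext; simp [add_comm]
  neg_add_cancel := fun x => by ext; simp
  nsmul := nsmulRec
  zsmul := zsmulRec
  left_distrib := fun x y z => by ext; simp
  right_distrib := fun x y z => by ext; simp
  zero_mul := fun x => by ext; simp
  mul_zero := fun x => by ext; simp

@[simp] theorem sub_e (x y : A.Mal) : (x - y).e = x.e - y.e := by
  rw [sub_eq_add_neg, add_e, neg_e, sub_eq_add_neg]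

noncomputable instance : Module F A.Mal where
  one_smul := fun x => by ext; simp
  mul_smul := fun r t x => by ext; simp [mul_smul]
  smul_zero := fun r => by ext; simp
  smul_add := fun r x y => by ext; simp
  add_smul := fun r t x => by ext; simp [add_smul]
  zero_smul := fun x => by ext; simp

instance : IsScalarTower F A.Mal A.Mal where
  smul_assoc := fun r x y => by ext; simp

instance : SMulCommClass F A.Mal A.Mal where
  smul_comm := fun r x y => by ext; simp

end CPA.Mal

namespace MalEAux

theorem mal_id {A : CPA F} (x y z : A.E) :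
    A.mul (A.mul x y) (A.mul x z) - A.s x (A.mul x z) • y + A.s y (A.mul x z) • x =
      A.mul (A.mul (A.mul x y) z - A.s x z • y + A.s y z • x) x := by
  set u := A.mul x y with hu
  have m1 := A.main x u z
  have m2 := A.main u x z
  have a1 : A.mul u x = -A.mul x u := A.anti u x
  have a2 : A.mul (A.mul u z) x = -A.mul x (A.mul u z) := A.anti _ x
  have a3 : A.mul y x = -u := by rw [hu]; exact A.anti y x
  have s1 : A.s x u = 0 := by
    rw [hu, ← A.assoc x x y, A.skew, map_zero, LinearMap.zero_apply]
  have s2 : A.s x (A.mul x z) = 0 := by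
    rw [← A.assoc x x z, A.skew, map_zero, LinearMap.zero_apply]
  have s3 : A.s y (A.mul x z) = -A.s u z := by
    rw [← A.assoc y x z, a3, map_neg, LinearMap.neg_apply]
  have s4 : A.s u x = 0 := by rw [A.symm, s1]
  rw [s2, s3]
  simp only [map_add, map_sub, map_smul, LinearMap.add_apply, LinearMap.sub_apply,
    LinearMap.smul_apply, A.skew, smul_zero, add_zero, a3, a2]
  rw [s1] at m1
  rw [s4, a1, map_neg, LinearMap.neg_apply] at m2
  linear_combination (norm := module) m1 + m2

theorem jac_e {A : CPA F} (x y z : A.Mal) : (Jac x y z).e =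
    (3 : A.S) • (A.mul (A.mul x.e y.e) z.e - A.s x.e z.e • y.e + A.s y.e z.e • x.e) := by
  have h := A.chi3 x.e y.e z.e
  rw [← h]
  rfl

/-- the operators given by the scalars of `S` -/
noncomputable def sc {A : CPA F} (r : A.S) : A.Mal →ₗ[F] A.Mal where
  toFun := fun x => ⟨r • x.e⟩
  map_add' := fun x y => by ext; simp
  map_smul' := fun t x => by
    ext
    show r • (algebraMap F A.S t • x.e) = algebraMap F A.S t • (r • x.e)
    rw [smul_comm]

theorem sc_e {A : CPA F} (r : A.S) (x : A.Mal) : (sc r x).e = r • x.e := rfl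

/-- a homomorphism of the cross product algebras is a homomorphism of the Malcev algebras -/
noncomputable def hm {A B : CPA F} (h : CPA.Hom A B) : A.Mal →ₙₐ[F] B.Mal where
  toFun := fun x => ⟨h.ψ x.e⟩
  map_smul' := fun r x => by
    apply CPA.Mal.ext
    show h.ψ (algebraMap F A.S r • x.e) = algebraMap F B.S r • h.ψ x.e
    rw [LinearMap.map_smulₛₗ]
    congr 1
    exact h.φ.commutes r
  map_zero' := by
    apply CPA.Mal.ext
    exact map_zero h.ψ
  map_add' := fun x y => by
    apply CPA.Mal.ext
    exact map_add h.ψ x.e y.e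
  map_mul' := fun x y => by
    apply CPA.Mal.ext
    exact h.map_mul x.e y.e

theorem hm_e {A B : CPA F} (h : CPA.Hom A B) (x : A.Mal) : (hm h x).e = h.ψ x.e := rfl

/-- the values of the variables -/
noncomputable def XX (L : Finset ℕ) (A : CPA F) (x : Option {i // i ∈ L} → A.E) : ℕ → A.Mal :=
  fun i => if h : i ∈ L then ⟨x (some ⟨i, h⟩)⟩ else 0

theorem XX_pos (L : Finset ℕ) (A : CPA F) (x : Option {i // i ∈ L} → A.E) {i : ℕ} (h : i ∈ L) :
    XX L A x i = ⟨x (some ⟨i, h⟩)⟩ := dif_pos h

theorem XX_neg (L : Finset ℕ) (A : CPA F) (x : Option {i // i ∈ L} → A.E) {i : ℕ} (h : i ∉ L) :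
    XX L A x i = 0 := dif_neg h

theorem XX_none (L : Finset ℕ) (A : CPA F) (x : Option {i // i ∈ L} → A.E) (a : A.E) :
    XX L A (Function.update x none a) = XX L A x := by
  funext i
  by_cases h : i ∈ L
  · rw [XX_pos L A _ h, XX_pos L A _ h, Function.update_of_ne (Option.some_ne_none _)]
  · rw [XX_neg L A _ h, XX_neg L A _ h]

theorem XX_some (L : Finset ℕ) (A : CPA F) (x : Option {i // i ∈ L} → A.E) (j : {i // i ∈ L})
    (a : A.E) : XX L A (Function.update x (some j) a) = Function.update (XX L A x) j.1 ⟨a⟩ := by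
  funext i
  by_cases hij : i = j.1
  · subst hij
    rw [Function.update_self, XX_pos L A _ j.2, Function.update_self]
  · rw [Function.update_of_ne hij]
    by_cases h : i ∈ L
    · rw [XX_pos L A _ h, XX_pos L A _ h, Function.update_of_ne]
      intro h'
      exact hij (congrArg Subtype.val (Option.some_injective _ h'))
    · rw [XX_neg L A _ h, XX_neg L A _ h]

theorem XX_hm {A B : CPA F} (h : CPA.Hom A B) (L : Finset ℕ) (x : Option {i // i ∈ L} → A.E)
    (i : ℕ) : hm h (XX L A x i) = XX L B (fun j => h.ψ (x j)) i := by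
  by_cases hi : i ∈ L
  · rw [XX_pos L A _ hi, XX_pos L B _ hi]
    rfl
  · rw [XX_neg L A _ hi, XX_neg L B _ hi, map_zero]

/-- the family of scalars of an element of the free algebra -/
noncomputable def nf {L : Finset ℕ} {p : FA F} (hp : p ∈ Hg F L.val) :
    NF F (Option {i // i ∈ L}) where
  f := fun A => MultilinearMap.mk' (fun x => A.s (ev (XX L A x) p).e (x none))
    (fun x j a b => by
      rcases j with _ | j
      · simp only [XX_none, Function.update_self, map_add]
      · rw [Function.update_of_ne (Option.some_ne_none j).symm,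
          Function.update_of_ne (Option.some_ne_none j).symm,
          Function.update_of_ne (Option.some_ne_none j).symm, XX_some, XX_some, XX_some]
        have h := ev_update_add hp j.2 (XX L A x) (⟨a⟩ : A.Mal) ⟨b⟩
        have h2 : (⟨a + b⟩ : A.Mal) = ⟨a⟩ + ⟨b⟩ := rfl
        rw [h2, h, CPA.Mal.add_e, map_add, LinearMap.add_apply])
    (fun x j r a => by
      rcases j with _ | j
      · simp only [XX_none, Function.update_self, map_smul]
      · rw [Function.update_of_ne (Option.some_ne_none j).symm,
          Function.update_of_ne (Option.some_ne_none j).symm, XX_some, XX_some]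
        have h := ev_update_map hp j.2 (XX L A x) (sc r)
          (fun a b => by
            apply CPA.Mal.ext
            simp only [sc_e, CPA.Mal.mul_e, map_smul, LinearMap.smul_apply])
          (fun a b => by
            apply CPA.Mal.ext
            simp only [sc_e, CPA.Mal.mul_e, map_smul]) (⟨a⟩ : A.Mal)
        have h2 : (⟨r • a⟩ : A.Mal) = sc r ⟨a⟩ := rfl
        rw [h2, h, sc_e, map_smul, LinearMap.smul_apply])
  nat := fun {A B} h x => by
    show h.φ (A.s (ev (XX L A x) p).e (x none)) =
      B.s (ev (XX L B (fun i => h.ψ (x i))) p).e (h.ψ (x none))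
    rw [h.map_s]
    congr 2
    have h1 := hom_ev (hm h) (XX L A x) p
    have h2 : (fun i => hm h (XX L A x i)) = XX L B (fun i => h.ψ (x i)) :=
      funext fun i => XX_hm h L x i
    rw [h2] at h1
    rw [← h1]
    rfl

theorem nf_f {L : Finset ℕ} {p : FA F} (hp : p ∈ Hg F L.val) (A : CPA F)
    (x : Option {i // i ∈ L} → A.E) :
    (nf hp).f A x = A.s (ev (XX L A x) p).e (x none) := rfl

variable [CharZero F]

theorem s_Y (A : CPA F) (e : A.E) (h : A.ext.s (A.incl.ψ e) A.Y = 0) : e = 0 := by
  have h1 := A.ext_s (A.incl.ψ e) A.Y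
  rw [h] at h1
  have h2 := congrArg CPA.SE.g h1
  have h3 : (0 : A.E) = A.sW e (A.mkW (1, 0, 0)) + A.sW 0 0 := h2
  rw [map_zero, add_zero, CPA.sW_mk] at h3
  have h4 : A.sT e (1, 0, 0) = e := by
    show (1 : A.S) • e + A.mul e 0 + TensorProduct.lift (LinearMap.lsmul A.S A.E ∘ₗ A.s e) 0 = e
    rw [one_smul, map_zero, map_zero, add_zero, add_zero]
  rw [h4] at h3
  exact h3.symm

end MalEAux

theorem CPA.Mal.isMalcev [CharZero F] (A : CPA F) : IsMalcev A.Mal where
  sq := fun x => by
    apply CPA.Mal.ext
    exact A.skew x.e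
  mal := fun x y z => by
    apply CPA.Mal.ext
    rw [CPA.Mal.mul_e, MalEAux.jac_e, MalEAux.jac_e, map_smul, LinearMap.smul_apply,
      ← MalEAux.mal_id]
    rfl

/-- **Theorem X for multilinear elements**: an identity of `C7` is an identity of all cross product
algebras. -/
theorem evalX [CharZero F] {L : Finset ℕ} {p : FA F} (hp : p ∈ Hg F L.val)
    (h : ∀ x : ℕ → (C7 F).Mal, ev x p = 0) (A : CPA F) (x : ℕ → A.Mal) : ev x p = 0 := by
  have hX : ∀ (B : CPA F) (y : Option {i // i ∈ L} → B.E),
      B.s (ev (MalEAux.XX L B y) p).e (y none) = 0 := by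
    intro B y
    have h1 := thmX (MalEAux.nf hp) (fun y => by
      rw [MalEAux.nf_f, h]
      exact LinearMap.map_zero₂ _ _) B y
    rw [MalEAux.nf_f] at h1
    exact h1
  -- the values in the extension
  let y : Option {i // i ∈ L} → A.ext.E := fun j => match j with
    | none => A.Y
    | some i => A.incl.ψ (x i.1).e
  have h1 := hX A.ext y
  have h2 : ev (MalEAux.XX L A.ext y) p = MalEAux.hm A.incl (ev x p) := by
    rw [hom_ev]
    refine ev_congr hp _ _ fun i hi => ?_
    have hi' : i ∈ L := hi
    rw [MalEAux.XX_pos L A.ext _ hi']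
    rfl
  rw [h2] at h1
  have h3 : A.ext.s (A.incl.ψ (ev x p).e) A.Y = 0 := h1
  apply CPA.Mal.ext
  exact MalEAux.s_Y A _ h3

end Pool.Agent.Malc
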