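import Pool.Agent.Malc.SigDef

/-! # The operators sigma(x,y) on J(B): existence -/

set_option autoImplicit false

namespace Pool.Agent.Malc

universe u v

namespace SigAux

section raw

variable {B : Type u} [NonUnitalNonAssocRing B]

/-- `36 sigma(x,y) g` -/
def val (g : B × (B → B → B)) (x y : B) : B :=
  -(36 • ((g.1 * x) * y)) + 12 • Jac g.1 x y + g.2 y x

theorem val_add (g g' : B × (B → B → B)) (x y : B) :
    val (g + g') x y = val g x y + val g' x y := by
  unfold val Jac
  simp only [Prod.fst_add, Prod.snd_add, Pi.add_apply, add_mul, mul_add, smul_add, neg_add]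
  abel

theorem val_J (a b c x y : B) :
    val (Jac a b c, fun y x => P108 a b c y x) x y = sig36 a b c x y := rfl

theorem val_GP (g : GP B) (x y : B) : val (g.j, g.G) x y = g.sig x y := rfl

end raw

variable {F : Type u} [Field F] {B : Type u} [NonUnitalNonAssocRing B] [Module F B]
  [IsScalarTower F B B] [SMulCommClass F B B]

theorem val_smul (r : F) (g : B × (B → B → B)) (x y : B) :
    val (r • g) x y = r • val g x y := by
  unfold val Jac
  simp only [Prod.smul_fst, Prod.smul_snd, Pi.smul_apply, smul_mul_assoc, mul_smul_comm, smul_add,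
    smul_neg, smul_comm r]

theorem val_add_x {g : B × (B → B → B)} (hg : g ∈ Gr F B) (x x' y : B) :
    val g (x + x') y = val g x y + val g x' y := by
  obtain ⟨f, hf⟩ := Gr_lin_x hg y
  unfold val Jac
  rw [← hf, ← hf, ← hf, map_add]
  simp only [add_mul, mul_add, smul_add, neg_add]
  abel

theorem val_smul_x {g : B × (B → B → B)} (hg : g ∈ Gr F B) (r : F) (x y : B) :
    val g (r • x) y = r • val g x y := by
  obtain ⟨f, hf⟩ := Gr_lin_x hg y
  unfold val Jac
  rw [← hf, ← hf, map_smul]
  simp only [smul_mul_assoc, mul_smul_comm, smul_add, smul_neg, smul_comm r]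

theorem val_add_y {g : B × (B → B → B)} (hg : g ∈ Gr F B) (x y y' : B) :
    val g x (y + y') = val g x y + val g x y' := by
  obtain ⟨f, hf⟩ := Gr_lin_y hg x
  unfold val Jac
  rw [← hf, ← hf, ← hf, map_add]
  simp only [add_mul, mul_add, smul_add, neg_add]
  abel

theorem val_smul_y {g : B × (B → B → B)} (hg : g ∈ Gr F B) (r : F) (x y : B) :
    val g x (r • y) = r • val g x y := by
  obtain ⟨f, hf⟩ := Gr_lin_y hg x
  unfold val Jac
  rw [← hf, ← hf, map_smul]
  simp only [smul_mul_assoc, mul_smul_comm, smul_add, smul_neg, smul_comm r]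

variable [CharZero F]

theorem P_mem (h : IsMalcev B) (a b c d x : B) : P108 a b c d x ∈ JA F B := by
  have hJ : ∀ a b c : B, Jac a b c ∈ JA F B := Jac_mem_JA
  have hr : ∀ {j : B}, j ∈ JA F B → ∀ z, j * z ∈ JA F B := fun hj z => (mul_mem_JA h hj z).1
  have hl : ∀ {j : B}, j ∈ JA F B → ∀ z, z * j ∈ JA F B := fun hj z => (mul_mem_JA h hj z).2
  have h4 : ∀ a b c d : B, (x * Jac a b c) * d + (x * d) * Jac a b c ∈ JA F B := fun a b c d =>
    add_mem (hr (hl (hJ a b c) x) d) (hl (hJ a b c) (x * d))
  unfold P108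
  refine sub_mem (add_mem (add_mem (sub_mem (sub_mem (add_mem ?_ ?_) ?_) ?_) ?_) ?_) ?_
  · exact hJ _ _ _
  · exact hJ _ _ _
  · exact hJ _ _ _
  · exact hJ _ _ _
  · exact hJ _ _ _
  · exact hJ _ _ _
  · refine nsmul_mem ?_ 6
    exact sub_mem (add_mem (sub_mem (h4 a b c d) (h4 a b d c)) (h4 a c d b)) (h4 b c d a)

theorem snd_mem (h : IsMalcev B) {g : B × (B → B → B)} (hg : g ∈ Gr F B) (y x : B) :
    g.2 y x ∈ JA F B := by
  unfold Gr at hg
  induction hg using Submodule.span_induction with
  | mem g hg =>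
    obtain ⟨a, b, c, rfl⟩ := hg
    exact P_mem h a b c y x
  | zero => exact zero_mem _
  | add g g' _ _ ih ih' => exact add_mem ih ih'
  | smul r g _ ih => exact Submodule.smul_mem _ r ih

theorem val_mem (h : IsMalcev B) {g : B × (B → B → B)} (hg : g ∈ Gr F B) (x y : B) :
    val g x y ∈ JA F B := by
  unfold val
  refine add_mem (add_mem (neg_mem (nsmul_mem ?_ _)) (nsmul_mem (Jac_mem_JA _ _ _) _))
    (snd_mem h hg y x)
  exact (mul_mem_JA h (mul_mem_JA h (Gr_fst_mem hg) x).1 y).1

omit [IsScalarTower F B B] [SMulCommClass F B B] [CharZero F] in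
theorem uniq (hex : Exact F B) {g g' : B × (B → B → B)} (hg : g ∈ Gr F B) (hg' : g' ∈ Gr F B)
    (h : g.1 = g'.1) : g = g' := by
  have h1 : g - g' ∈ Gr F B := sub_mem hg hg'
  have h2 : g - g' = (0, g.2 - g'.2) := by
    refine Prod.ext ?_ rfl
    change g.1 - g'.1 = 0
    rw [h, sub_self]
  rw [h2] at h1
  refine Prod.ext h ?_
  exact sub_eq_zero.1 (hex _ h1)

/-- the graph over `j` -/
noncomputable def gam (j : JA F B) : B × (B → B → B) := ((j : B), (exists_Gr j.2).choose)

omit [CharZero F] in
theorem gam_mem (j : JA F B) : gam j ∈ Gr F B := (exists_Gr j.2).choose_spec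

omit [CharZero F] in
theorem gam_eq (hex : Exact F B) (j : JA F B) {g : B × (B → B → B)} (hg : g ∈ Gr F B)
    (h : g.1 = j) : gam j = g := uniq hex (gam_mem j) hg h.symm

omit [CharZero F] in
theorem gam_add (hex : Exact F B) (j j' : JA F B) : gam (j + j') = gam j + gam j' :=
  gam_eq hex _ (add_mem (gam_mem j) (gam_mem j')) rfl

omit [CharZero F] in
theorem gam_smul (hex : Exact F B) (r : F) (j : JA F B) : gam (r • j) = r • gam j :=
  gam_eq hex _ (Submodule.smul_mem _ r (gam_mem j)) rfl

/-- sigma(x,y) -/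
noncomputable def sg (h : IsMalcev B) (hex : Exact F B) (x y : B) : Module.End F (JA F B) where
  toFun j := ⟨(36 : F)⁻¹ • val (gam j) x y, Submodule.smul_mem _ _ (val_mem h (gam_mem j) x y)⟩
  map_add' j j' := by
    refine Subtype.ext ?_
    change (36 : F)⁻¹ • val (gam (j + j')) x y
      = (36 : F)⁻¹ • val (gam j) x y + (36 : F)⁻¹ • val (gam j') x y
    rw [gam_add hex, val_add, smul_add]
  map_smul' r j := by
    refine Subtype.ext ?_
    change (36 : F)⁻¹ • val (gam (r • j)) x y = r • ((36 : F)⁻¹ • val (gam j) x y)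
    rw [gam_smul hex, val_smul, smul_comm]

/-- sigma -/
noncomputable def sgm (h : IsMalcev B) (hex : Exact F B) :
    B →ₗ[F] B →ₗ[F] Module.End F (JA F B) :=
  LinearMap.mk₂ F (sg h hex)
    (by
      intro x x' y
      refine LinearMap.ext fun j => Subtype.ext ?_
      change (36 : F)⁻¹ • val (gam j) (x + x') y
        = (36 : F)⁻¹ • val (gam j) x y + (36 : F)⁻¹ • val (gam j) x' y
      rw [val_add_x (gam_mem j), smul_add])
    (by
      intro r x y
      refine LinearMap.ext fun j => Subtype.ext ?_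
      change (36 : F)⁻¹ • val (gam j) (r • x) y = r • ((36 : F)⁻¹ • val (gam j) x y)
      rw [val_smul_x (gam_mem j), smul_comm])
    (by
      intro x y y'
      refine LinearMap.ext fun j => Subtype.ext ?_
      change (36 : F)⁻¹ • val (gam j) x (y + y')
        = (36 : F)⁻¹ • val (gam j) x y + (36 : F)⁻¹ • val (gam j) x y'
      rw [val_add_y (gam_mem j), smul_add])
    (by
      intro r x y
      refine LinearMap.ext fun j => Subtype.ext ?_
      change (36 : F)⁻¹ • val (gam j) x (r • y) = r • ((36 : F)⁻¹ • val (gam j) x y)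
      rw [val_smul_y (gam_mem j), smul_comm])

theorem sgm_val (h : IsMalcev B) (hex : Exact F B) (x y : B) (j : JA F B)
    {g : B × (B → B → B)} (hg : g ∈ Gr F B) (hj : g.1 = j) :
    36 • (sgm h hex x y j : B) = val g x y := by
  have h1 : (sgm h hex x y j : B) = (36 : F)⁻¹ • val (gam j) x y := rfl
  rw [h1, gam_eq hex j hg hj]
  have h2 : (36 : ℕ) • ((36 : F)⁻¹ • val g x y) = (36 : F) • ((36 : F)⁻¹ • val g x y) := by
    rw [← Nat.cast_smul_eq_nsmul F 36]
    norm_num
  rw [h2, smul_smul, mul_inv_cancel₀ (by norm_num), one_smul]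

end SigAux

theorem SigAux.cancel36 (F : Type u) [Field F] [CharZero F] {B : Type u}
    [NonUnitalNonAssocRing B] [Module F B] {a b : B} (h : 36 • a = 36 • b) : a = b := by
  have h1 : ∀ c : B, (36 : ℕ) • c = (36 : F) • c := by
    intro c
    rw [← Nat.cast_smul_eq_nsmul F 36]
    norm_num
  rw [h1, h1] at h
  exact smul_right_injective B (r := (36 : F)) (by norm_num) h

open SigAux

variable {F : Type u} [Field F] [CharZero F] {B : Type u} [NonUnitalNonAssocRing B] [Module F B]
  [IsScalarTower F B B] [SMulCommClass F B B]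

theorem exists_sigData (h : IsV B) (hex : Exact F B) : Nonempty (SigData F B) := by
  have hM : IsMalcev B := h.toIsMalcev
  have hJm : ∀ a b c : B, ((Jac a b c, fun y x => P108 a b c y x) : B × (B → B → B)) ∈ Gr F B :=
    Gr_J
  refine ⟨{
    σ := sgm hM hex
    formula := ?_
    symm := ?_
    R := ?_
    assoc := ?_
    main := ?_
    comm := ?_ }⟩
  · intro x y j G hG
    exact sgm_val hM hex x y j hG rfl
  · intro x y
    refine LinearMap.ext fun j => Subtype.ext (cancel36 F ?_)
    rw [sgm_val hM hex x y j (gam_mem j) rfl, sgm_val hM hex y x j (gam_mem j) rfl]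
    have h1 := Gr_F1 hM (gam_mem j) x y
    unfold val
    have h2 : (gam j).2 y x = (gam j).2 x y + (12 • Jac (gam j).1 x y +
        36 • ((gam j).1 * (x * y))) := by
      rw [← h1]; abel
    rw [h2]
    unfold Jac
    generalize (gam j).1 = k
    generalize (gam j).2 x y = e
    rw [hM.anti (x * y) k, hM.anti y k, hM.anti (y * x) k, hM.anti y x, hM.anti x k]
    simp only [mul_neg, neg_mul, neg_neg, smul_add, smul_neg]
    abel
  · intro x y z j j' hj'
    refine cancel36 F ?_
    rw [sgm_val hM hex x y j' (Gr_m h (gam_mem j) z) hj'.symm, ← smul_mul_assoc,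
      sgm_val hM hex x y j (gam_mem j) rfl]
    exact Gr_F3 h (gam_mem j) x y z
  · intro x y z
    refine LinearMap.ext fun j => Subtype.ext (cancel36 F ?_)
    have h1 := Gr_F5 h (gam_mem j) x y z
    have h2 : val (gam j) (x * z) y + val (gam j) x (y * z) = 0 := h1
    have h3 : val (gam j) x (z * y) = - val (gam j) x (y * z) := by
      have h4 := val_smul_y (gam_mem j) (-1 : F) x (y * z)
      rw [neg_one_smul, neg_one_smul, ← hM.anti z y] at h4
      exact h4
    rw [sgm_val hM hex (x * z) y j (gam_mem j) rfl, sgm_val hM hex x (z * y) j (gam_mem j) rfl, h3]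
    exact eq_neg_of_add_eq_zero_left h2
  · intro v x y a b j1 j2 j3 hj1 hj2 hj3
    refine cancel36 F ?_
    have h1 := F7 F hM v x y a b
    rw [smul_add, smul_add, smul_comm 36 2, sgm_val hM hex x y j1 (hJm v a b) hj1.symm,
      sgm_val hM hex v x j2 (hJm y a b) hj2.symm, sgm_val hM hex v y j3 (hJm x a b) hj3.symm,
      val_J, val_J, val_J]
    have h2 : 36 • Jac ((v * x) * y + (v * y) * x) a b + 2 • sig36 v a b x y
      = (36 • Jac ((v * x) * y + (v * y) * x) a b + 2 • sig36 v a b x y - sig36 y a b v x -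
      sig36 x a b v y) + (sig36 y a b v x + sig36 x a b v y) := by abel
    rw [h2, h1, zero_add]
  · intro x y z t
    -- on Jacobians
    have key : ∀ (x y z t : B) (a b c : B) (j : JA F B), (j : B) = Jac a b c →
        36 • (36 • (((sgm hM hex x y) ((sgm hM hex z t) j) : JA F B) : B))
          = (GP.S a b c z t).sig x y := by
      intro x y z t a b c j hj
      have hS := Gr_S (F := F) h a b c z t
      have h1 : 36 • (sgm hM hex z t j : B) = sig36 a b c z t :=
        sgm_val hM hex z t j (hJm a b c) hj.symm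
      have h2 : (((36 • (sgm hM hex z t j) : JA F B)) : B) = (GP.S a b c z t).j := by
        rw [hS.2, ← h1]; rfl
      have h3 := sgm_val hM hex x y (36 • (sgm hM hex z t j)) hS.1 h2.symm
      rw [← val_GP, ← h3, map_nsmul]
      rfl
    refine LinearMap.ext fun j => ?_
    change (sgm hM hex x y) ((sgm hM hex z t) j) = (sgm hM hex z t) ((sgm hM hex x y) j)
    obtain ⟨j, hj⟩ := j
    have hj' := hj
    unfold JA at hj'
    induction hj' using Submodule.span_induction with
    | mem g hg =>
      obtain ⟨a, b, c, rfl⟩ := hg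
      refine Subtype.ext (cancel36 F (cancel36 F ?_))
      rw [key x y z t a b c ⟨_, hj⟩ rfl, key z t x y a b c ⟨_, hj⟩ rfl]
      exact F6 F h a b c x y z t
    | zero =>
      have h0 : (⟨0, hj⟩ : JA F B) = 0 := rfl
      rw [h0]
      simp only [map_zero]
    | add g g' hg hg' ih ih' =>
      have h0 : (⟨g + g', hj⟩ : JA F B) = ⟨g, hg⟩ + ⟨g', hg'⟩ := rfl
      rw [h0, map_add, map_add, map_add, map_add, ih hg, ih' hg']
    | smul r g hg ih =>
      have h0 : (⟨r • g, hj⟩ : JA F B) = r • ⟨g, hg⟩ := rfl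
      rw [h0, map_smul, map_smul, map_smul, map_smul, ih hg]

end Pool.Agent.Malc
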