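import Pool.Agent.Malc.Exact
import Pool.Agent.Malc.Sig
import Pool.Agent.Malc.EAlg

/-! # (S2): Jacobians of identities of C7 -/

set_option autoImplicit false

namespace Pool.Agent.Malc

universe u v

variable {F : Type u} [Field F] [CharZero F]

/-- **(S2)** If a multilinear element `p` is an identity of `C7` then `J(p(x), b, c) = 0` in every
algebra of the variety. -/
theorem S2 {L : Finset ℕ} {p : FA F} (hp : p ∈ Hg F L.val)
    (h : ∀ x : ℕ → (C7 F).Mal, ev x p = 0)
    (B : Type u) [NonUnitalNonAssocRing B] [Module F B] [IsScalarTower F B B]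
    [SMulCommClass F B B] (hB : IsV B) (x : ℕ → B) (b c : B) : Jac (ev x p) b c = 0 := by
  classical
  -- two new letters
  obtain ⟨n, hn⟩ := Infinite.exists_notMem_finset L
  obtain ⟨m, hm⟩ := Infinite.exists_notMem_finset (insert n L)
  have hmn : m ≠ n := fun e => hm (by rw [e]; exact Finset.mem_insert_self n L)
  have hmL : m ∉ L := fun e => hm (Finset.mem_insert_of_mem e)
  set q : FA F := Jac p (FreeNonUnitalNonAssocAlgebra.of F n)
    (FreeNonUnitalNonAssocAlgebra.of F m) with hqdef
  have hofn : FreeNonUnitalNonAssocAlgebra.of F n ∈ Hg F ({n} : Multiset ℕ) := by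
    rw [of_eq_wd]; exact wd_mem (FreeMagma.of n)
  have hofm : FreeNonUnitalNonAssocAlgebra.of F m ∈ Hg F ({m} : Multiset ℕ) := by
    rw [of_eq_wd]; exact wd_mem (FreeMagma.of m)
  have hq : q ∈ Hg F (insert m (insert n L)).val := by
    have h1 := Jac_mem hp hofn hofm
    have h2 : L.val + {n} + {m} = (insert m (insert n L)).val := by
      rw [Finset.insert_val_of_notMem hm, Finset.insert_val_of_notMem hn,
        ← Multiset.singleton_add, ← Multiset.singleton_add]
      abel
    rw [← h2]
    exact h1
  -- the cross product algebra of the multilinear relatively free algebra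
  obtain ⟨D⟩ := exists_sigData (F := F) (AM_isV F) (fun G hG => Gr_exact hG)
  obtain ⟨A, i, hi⟩ := exists_cpa (AM_isV F) D
  have hz : ∀ y z, Jac (amk F p) y z = 0 := by
    apply hi
    rw [amk_ev p, hom_ev]
    exact evalX hp h A _
  have hq0 : amk F q = 0 := by
    rw [hqdef, hom_Jac]
    exact hz _ _
  have hqN : IsId q := (mem_NN_iff hq).1 (amk_eq_zero.1 hq0)
  have hev : ev (Function.update (Function.update x n b) m c) q = 0 :=
    hqN B hB (Function.update (Function.update x n b) m c)
  rw [hqdef, hom_Jac, ev_of, ev_of] at hev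
  have e1 : ev (Function.update (Function.update x n b) m c) p = ev x p := by
    apply ev_congr hp
    intro j hj
    have hjL : j ∈ L := hj
    have hjm : j ≠ m := by
      intro e
      rw [e] at hjL
      exact hmL hjL
    have hjn : j ≠ n := by
      intro e
      rw [e] at hjL
      exact hn hjL
    rw [Function.update_of_ne hjm, Function.update_of_ne hjn]
  rw [e1, Function.update_self, Function.update_of_ne hmn.symm, Function.update_self] at hev
  exact hev

end Pool.Agent.Malc
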