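import Pool.Agent.Malc.QDefs
import Pool.Agent.Malc.MGrad
import Pool.Agent.Malc.S2

/-! # Part C: Jacobians of identities of C7 are in `Qid` -/

set_option autoImplicit false

namespace Pool.Agent.Malc

universe u

variable {F : Type u} [Field F] [CharZero F]

/-- The quotient by `Qid` belongs to the variety: `IQ (Qid F A) (Qid_idl F)`; `sq`, `mal` from `hA` by surjectivity; `f6` from `base_B0`: the right side of `base_B0` is in
`Qid` (`ee_mem_Qid`), so `10 • (..)` and hence `(..)` is in `Qid`. -/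
theorem isV_quot {A : Type u} [NonUnitalNonAssocRing A] [Module F A] [IsScalarTower F A A]
    [SMulCommClass F A A] (hA : IsMalcev A) : IsV (IQ (Qid F A) (Qid_idl F)) := by
  have hmk : ∀ {a : A}, IQ.mkHom (Qid_idl F (A := A)) a = 0 ↔ a ∈ Qid F A := IQ.mk_eq_zero
  have hs : ∀ a : IQ (Qid F A) (Qid_idl F), ∃ b : A, IQ.mkHom (Qid_idl F (A := A)) b = a :=
    fun a => IQ.mk_surj a
  refine { sq := ?_, mal := ?_, f6 := ?_ }
  · intro x
    obtain ⟨x, rfl⟩ := hs x
    rw [← map_mul, hA.sq, map_zero]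
  · intro x y z
    obtain ⟨x, rfl⟩ := hs x
    obtain ⟨y, rfl⟩ := hs y
    obtain ⟨z, rfl⟩ := hs z
    rw [← map_mul, ← hom_Jac, ← hom_Jac, ← map_mul, hA.mal]
  · intro a b c d v z
    obtain ⟨a, rfl⟩ := hs a
    obtain ⟨b, rfl⟩ := hs b
    obtain ⟨c, rfl⟩ := hs c
    obtain ⟨d, rfl⟩ := hs d
    obtain ⟨v, rfl⟩ := hs v
    obtain ⟨z, rfl⟩ := hs z
    rw [← map_mul, ← hom_P108, ← hom_P108, ← map_mul, ← sub_eq_zero, ← map_sub, hmk]
    have h1 := base_B0 (F := F) hA a b c d v z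
    have h2 : 10 • (P108 a b c d (v * z) - P108 a b c d v * z) ∈ Qid F A := by
      rw [h1]
      exact Submodule.add_mem _ (Submodule.sub_mem _ (Submodule.add_mem _ (Submodule.sub_mem _
        (ee_mem_Qid F _ _ _ _ _ _) (ee_mem_Qid F _ _ _ _ _ _)) (ee_mem_Qid F _ _ _ _ _ _))
        (ee_mem_Qid F _ _ _ _ _ _)) (ee_mem_Qid F _ _ _ _ _ _)
    have h3 : (10 : F) • (P108 a b c d (v * z) - P108 a b c d v * z) ∈ Qid F A := by
      have e : (10 : F) • (P108 a b c d (v * z) - P108 a b c d v * z) =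
          10 • (P108 a b c d (v * z) - P108 a b c d v * z) := by
        have := Nat.cast_smul_eq_nsmul F 10 (P108 a b c d (v * z) - P108 a b c d v * z)
        rw [← this]
        norm_num
      rw [e]
      exact h2
    have h10 : (10 : F) ≠ 0 := by norm_num
    exact (Submodule.smul_mem_iff _ h10).1 h3

/-- `S2` in the algebra `B = IQ (Qid F (FreeMalcev F ℕ)) (Qid_idl F)` with `x i = IQ.mkHom (of i)`: `ev x p = IQ.mkHom (FreeMalcev.mk p)` (`hom_ev`, `FreeMalcev.mk p = ev of p`), so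
`IQ.mkHom (Jac (mk p) (of n) (of n')) = 0`. -/
theorem mem_Qid_of_S2 {L : Finset ℕ} {p : FA F} (hp : p ∈ Hg F L.val)
    (h : ∀ x : ℕ → (C7 F).Mal, ev x p = 0) (n n' : ℕ) :
    Jac (FreeMalcev.mk p) (FreeMalcev.of n) (FreeMalcev.of n') ∈ Qid F (FreeMalcev F ℕ) := by
  have hB : IsV (IQ (Qid F (FreeMalcev F ℕ)) (Qid_idl F)) :=
    isV_quot FreeMalcev.isMalcev
  set π := IQ.mkHom (Qid_idl F (A := FreeMalcev F ℕ)) with hπ
  have hmk : ∀ {a : FreeMalcev F ℕ}, π a = 0 ↔ a ∈ Qid F (FreeMalcev F ℕ) := IQ.mk_eq_zero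
  have hev : FreeMalcev.mk p = ev (fun i => FreeMalcev.of i) p := by
    have h1 : (FreeMalcev.mkHom : FA F →ₙₐ[F] FreeMalcev F ℕ) = ev (fun i => FreeMalcev.of i) := by
      apply FreeNonUnitalNonAssocAlgebra.hom_ext
      intro i
      rw [ev_of]
      rfl
    exact DFunLike.congr_fun h1 p
  have h2 := S2 hp h (IQ (Qid F (FreeMalcev F ℕ)) (Qid_idl F)) hB (fun i => π (FreeMalcev.of i))
    (π (FreeMalcev.of n)) (π (FreeMalcev.of n'))
  rw [← hom_ev π, ← hev, ← hom_Jac, hmk] at h2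
  exact h2

end Pool.Agent.Malc
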