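import Pool.Agent.Malc.CLin
import Pool.Agent.Malc.COp
import Pool.Agent.Malc.CDer

/-! # Part C: all elements `ew F xs a` are good -/

set_option autoImplicit false

namespace Pool.Agent.Malc

universe u v

variable (F : Type u) [Field F] [CharZero F] {A : Type v} [NonUnitalNonAssocRing A] [Module F A]
  [IsScalarTower F A A] [SMulCommClass F A A]

/-- (A3) linearised -/
theorem A3' (h : IsMalcev A) (x0 x1 x2 x3 x y a c : A) :
    (ee F x0 x1 x2 x3 x a * y) * c = - ((ee F x0 x1 x2 x3 y a * x) * c) := by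
  have h1 := base_A3 F h x0 x1 x2 x3 (x + y) a c
  rw [ee_add4] at h1
  simp only [add_mul, mul_add] at h1
  rw [base_A3 F h x0 x1 x2 x3 x a c, base_A3 F h x0 x1 x2 x3 y a c] at h1
  rw [eq_neg_iff_add_eq_zero]
  rw [← h1]
  abel

/-- (C1): by `A3'` it is `- (e'(x0..x3, u v; a) x4) c`, move `u v` to the front (`ee_rot`) and use `base_a`. -/
theorem C1_base (h : IsMalcev A) (x0 x1 x2 x3 x4 a u v c : A) :
    (ee F x0 x1 x2 x3 x4 a * (u * v)) * c = 0 := by
  rw [A3' F h x0 x1 x2 x3 x4 (u * v) a c, ← ee_rot F x0 x1 x2 x3 (u * v) a,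
    base_a F h u v x0 x1 x2 x3 a x4, zero_mul, neg_zero]

/-- `base_P` in the form used below -/
theorem P_base (h : IsMalcev A) (x0 x1 x2 x3 x4 u v c : A) :
    ee F x0 x1 x2 x3 x4 (u * v) * c =
      (ee F x0 x1 x2 x3 x4 v * u) * c - (ee F x0 x1 x2 x3 x4 u * v) * c := by
  have h1 := base_P F h x0 x1 x2 x3 x4 u v c
  rw [add_mul, sub_mul] at h1
  rw [← sub_eq_zero, ← h1]
  abel

namespace CWAux

/-- `e'` with a value of `delt` in the first place is killed by the multiplications -/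
theorem kill0 (h : IsMalcev A) (b c x x1 x2 x3 x4 a d : A) :
    ee F (delt b c x) x1 x2 x3 x4 a * d = 0 := by
  have e : delt b c x = (x * b) * c + (-(x * c)) * b + x * (b * c) := by
    unfold delt
    rw [neg_mul, sub_eq_add_neg]
  rw [e, ee_add0, ee_add0, add_mul, add_mul, base_a F h, base_a F h, base_a F h]
  simp

/-- the last argument -/
theorem eD (h : IsMalcev A) (b c x0 x1 x2 x3 x4 a d : A) :
    ee F x0 x1 x2 x3 x4 (delt b c a) * d =
      (- ((ee F x0 x1 x2 x3 x4 b * a) * c) * d + ((ee F x0 x1 x2 x3 x4 a * b) * c) * d) -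
      (- ((ee F x0 x1 x2 x3 x4 c * a) * b) * d + ((ee F x0 x1 x2 x3 x4 a * c) * b) * d) +
      (((ee F x0 x1 x2 x3 x4 c * b) * a) * d - ((ee F x0 x1 x2 x3 x4 b * c) * a) * d) := by
  have e : delt b c a = (a * b) * c + (-(a * c)) * b + a * (b * c) := by
    unfold delt
    rw [neg_mul, sub_eq_add_neg]
  have e0 : ee F x0 x1 x2 x3 x4 (-(a * c)) = - ee F x0 x1 x2 x3 x4 (a * c) := by
    have := ee_smuly F (-1) x0 x1 x2 x3 x4 (a * c)
    simpa using this
  have c0 : ∀ p q r, (ee F x0 x1 x2 x3 x4 p * (q * r)) * d = 0 := fun p q r =>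
    C1_base F h x0 x1 x2 x3 x4 p q r d
  have c1 : (ee F x0 x1 x2 x3 x4 b * (-(a * c))) * d = 0 := by
    rw [mul_neg, neg_mul, c0, neg_zero]
  rw [e, ee_addy, ee_addy, add_mul, add_mul,
    P_base F h x0 x1 x2 x3 x4 (a * b) c d, P_base F h x0 x1 x2 x3 x4 (-(a * c)) b d,
    P_base F h x0 x1 x2 x3 x4 a (b * c) d, e0, c0, c0, c1, neg_mul,
    P_base F h x0 x1 x2 x3 x4 a b c, P_base F h x0 x1 x2 x3 x4 a c b,
    P_base F h x0 x1 x2 x3 x4 b c a]
  simp only [neg_mul, sub_mul]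
  abel

end CWAux

/-- `K(a;b,c) = e'(X;a)(R_b R_c + R_c R_b) R_d` is symmetric in `a, b`: `K(c;a,b) = K(b;a,c)`.
Proof: apply the derivation `D = delt b c` to `e'(X;a)` (`der_ee`), multiply by `d`.
Left: `((e b) c) d - ((e c) b) d + (e (b c)) d`, the last term is `0` by `C1_base` (`e = e'(X;a)`).
Right: `D x_i` is a sum of three products, so `e'(.., D x_i, ..; a) d = 0` by `base_a` (move to the front with `ee_front1,2,3`, `ee_rot`).
There remains `e'(X; D a) d`, `D a = (a b) c - (a c) b + a (b c)`. By `P_base` and `C1_base`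
`e'(X;(a b) c) d = (e'(X;c)(a b)) d - (e'(X;a b) c) d = - ((e'(X;b) a) c) d + ((e'(X;a) b) c) d` (use `P_base` with the last factor `c` and then
multiply by `d`), similarly `e'(X;(a c) b) d = - ((e'(X;c) a) b) d + ((e'(X;a) c) b) d`, and
`e'(X;a (b c)) d = (e'(X;b c) a) d - (e'(X;a)(b c)) d = ((e'(X;c) b) a) d - ((e'(X;b) c) a) d`.
Comparing: `0 = - e'(X;b)(a c + c a) d + e'(X;c)(a b + b a) d`. -/
theorem K_symm (h : IsMalcev A) (x0 x1 x2 x3 x4 a b c d : A) :
    ((ee F x0 x1 x2 x3 x4 c * a) * b + (ee F x0 x1 x2 x3 x4 c * b) * a) * d =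
      ((ee F x0 x1 x2 x3 x4 b * a) * c + (ee F x0 x1 x2 x3 x4 b * c) * a) * d := by
  have hadd : ∀ p q : A, delt b c (p + q) = delt b c p + delt b c q := by
    intro p q
    simp only [delt, add_mul]
    abel
  have h1 := der_ee F (delt b c) hadd (delt_mul F h b c) x0 x1 x2 x3 x4 a
  have h2 := congrArg (fun t => t * d) h1
  simp only [add_mul] at h2
  rw [CWAux.eD F h b c x0 x1 x2 x3 x4 a d, CWAux.kill0 F h b c x0 x1 x2 x3 x4 a d,
    ee_front1 F x0 (delt b c x1) x2 x3 x4 a, neg_mul, CWAux.kill0 F h b c x1 x0 x2 x3 x4 a d,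
    ee_front2 F x0 x1 (delt b c x2) x3 x4 a, CWAux.kill0 F h b c x2 x0 x1 x3 x4 a d,
    ee_front3 F x0 x1 x2 (delt b c x3) x4 a, neg_mul, CWAux.kill0 F h b c x3 x0 x1 x2 x4 a d,
    ← ee_rot F x0 x1 x2 x3 (delt b c x4) a, CWAux.kill0 F h b c x4 x0 x1 x2 x3 a d] at h2
  have h3 : delt b c (ee F x0 x1 x2 x3 x4 a) * d =
      ((ee F x0 x1 x2 x3 x4 a * b) * c) * d - ((ee F x0 x1 x2 x3 x4 a * c) * b) * d := by
    unfold delt
    rw [add_mul, sub_mul, C1_base F h x0 x1 x2 x3 x4 a b c d, add_zero]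
  rw [h3] at h2
  rw [add_mul, add_mul, ← sub_eq_zero]
  rw [← sub_eq_zero] at h2
  rw [← neg_eq_zero, ← h2]
  simp only [neg_mul]
  abel

/-- (C2). Write `K(Yx;abc)` for `e'(Y,x;a)(R_b R_c + R_c R_b) R_d`, `Y = (x0,..,x3)`; by `K_symm` it is symmetric in `a,b,c`.
With `H(Yx;c,a,b) = ((e'(Y,x;c) a) b) d` we have `H(Yx;c,a,b) = - H(Ya;c,x,b)` (`A3'`), and `H(Ya;c,x,b) + H(Ya;c,b,x) = K(Ya;cxb)`. So
`K(Yx;abc) = H(Yx;c,a,b) + H(Yx;c,b,a) = -H(Ya;c,x,b) - H(Yb;c,x,a) = -K(Ya;xbc) + H(Ya;c,b,x) - H(Yb;c,x,a)`, and `H(Ya;c,b,x) = -H(Yb;c,a,x)`, so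
`K(Yx;abc) + K(Ya;xbc) + K(Yb;axc) = 0` (*) for all `x,a,b,c`. By the symmetry also `K(Yx;abc) + K(Ya;xbc) + K(Yc;abx) = 0`, hence all
`K(Yp;rest)`, `p` in `{a,b,c}`, are equal, `= k`, and `K(Yx;abc) = -2k`. Exchanging the roles of `x` and `a`: `K(Ya;..) = -2 K(Yb;..)`, so `3 k = 0`. -/
theorem C2_base (h : IsMalcev A) (x0 x1 x2 x3 x4 a b c d : A) :
    ((ee F x0 x1 x2 x3 x4 a * b) * c + (ee F x0 x1 x2 x3 x4 a * c) * b) * d = 0 := by
  have key : ∀ (H K : A → A → A → A → A),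
      (∀ p q r s, H p q r s = - H r q p s) → (∀ p q r s, K p q r s = H p q r s + H p q s r) →
      (∀ p a b c, K p c a b = K p b a c) → K x4 a b c = 0 := by
    intro H K hH hK hs
    have s1 : ∀ p q r s, K p q r s = K p q s r := fun p q r s => by rw [hK, hK, add_comm]
    have star : ∀ x a b c, K x c a b + K a c x b + K b c a x = 0 := by
      intro x a b c
      rw [hK x c a b, hK a c x b, hK b c a x, hH x c a b, hH x c b a, hH a c b x]
      abel
    have t1 := star x4 a b c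
    have t2 := star x4 a c b
    have t3 := star x4 b c a
    have X1 : K x4 c a b = K x4 a b c := by rw [s1 x4 c a b, hs x4 b a c]
    have X2 : K x4 b a c = K x4 a b c := by
      rw [s1 x4 b a c, hs x4 c a b, s1 x4 a c b]
    have A1 : K a c x4 b = K a x4 b c := by rw [s1 a c x4 b, hs a b x4 c]
    have A2 : K a b x4 c = K a x4 b c := by
      rw [s1 a b x4 c, hs a c x4 b, s1 a x4 c b]
    have B1 : K b c a x4 = K b a x4 c := by rw [s1 b c a x4, hs b x4 a c]
    have C1 : K c b a x4 = K c a x4 b := by rw [s1 c b a x4, hs c x4 a b]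
    have C2 : K c a b x4 = K c a x4 b := s1 c a b x4
    rw [X1, A1, B1] at t1
    rw [X2, A2, C1] at t2
    rw [C2] at t3
    have t4 := star a b c x4
    have B3 : K b x4 a c = K b a x4 c := by rw [s1 b x4 a c, hs b c a x4, s1 b a c x4]
    have C3 : K c x4 b a = K c a x4 b := by rw [hs c b a x4, s1 c a b x4]
    rw [B3, C3] at t4
    have h3 : (3 : F) • K x4 a b c = 0 := by
      have e : (3 : F) • K x4 a b c = K x4 a b c + K x4 a b c + K x4 a b c := by
        rw [show (3 : F) = 1 + 1 + 1 by norm_num, add_smul, add_smul, one_smul]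
      rw [e]
      calc K x4 a b c + K x4 a b c + K x4 a b c
          = (K x4 a b c + K a x4 b c + K b a x4 c) + (K x4 a b c + K a x4 b c + K c a x4 b) +
            (K x4 a b c + K b a x4 c + K c a x4 b) -
            (K a x4 b c + K b a x4 c + K c a x4 b) - (K a x4 b c + K b a x4 c + K c a x4 b) := by
              abel
        _ = 0 := by rw [t1, t2, t3, t4]; simp
    rcases smul_eq_zero.mp h3 with h4 | h4
    · exact absurd h4 (by norm_num)
    · exact h4
  refine key (fun p q r s => ((ee F x0 x1 x2 x3 p q * r) * s) * d)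
    (fun p q r s => ((ee F x0 x1 x2 x3 p q * r) * s + (ee F x0 x1 x2 x3 p q * s) * r) * d)
    ?_ ?_ ?_
  · intro p q r s
    show ((ee F x0 x1 x2 x3 p q * r) * s) * d = - (((ee F x0 x1 x2 x3 r q * p) * s) * d)
    rw [A3' F h x0 x1 x2 x3 p r q s, neg_mul]
  · intro p q r s
    exact add_mul _ _ _
  · intro p a b c
    exact K_symm F h x0 x1 x2 x3 p a b c d

/-- `Good (e'(X;a))` and therefore (next theorem) `Good (e'(X;a) b1 ⋯ bk)` -/
theorem good_ee (h : IsMalcev A) (x0 x1 x2 x3 x4 a : A) : Good (ee F x0 x1 x2 x3 x4 a) :=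
  ⟨fun u v c => C1_base F h x0 x1 x2 x3 x4 a u v c,
    fun b c d => C2_base F h x0 x1 x2 x3 x4 a b c d⟩

end Pool.Agent.Malc
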