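import Pool.Agent.Malc.Check4
import Pool.Agent.Malc.CertPar

/-! # Certificate of B0Ex -/

set_option autoImplicit false
set_option maxRecDepth 100000

namespace Pool.Agent.Malc

universe u

namespace Chk

noncomputable def dB0_c274 : Cm := .mk (nat_lit 12) (nat_lit 274) (nat_lit 15) (nat_lit 6) (.c (nat_lit 5) (nat_lit 1) (nat_lit 4) (nat_lit 1) (nat_lit 6) (.c (nat_lit 6) (nat_lit 1) (nat_lit 3) (nat_lit 1) (nat_lit 7) (.c (nat_lit 7) (nat_lit 3) (nat_lit 2) (nat_lit 1) (nat_lit 8) (.c (nat_lit 10) (nat_lit 2) (nat_lit 1) (nat_lit 1) (nat_lit 11) (.c (nat_lit 12) (nat_lit 2) (nat_lit 0) (nat_lit 1) (nat_lit 13) .nil)))))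

noncomputable def dB0_c259 : Cm := .mk (nat_lit 21) (nat_lit 259) (nat_lit 21) (nat_lit 3) (.c (nat_lit 6) (nat_lit 1) (nat_lit 4) (nat_lit 1) (nat_lit 3) (.c (nat_lit 10) (nat_lit 2) (nat_lit 2) (nat_lit 1) (nat_lit 4) (.c (nat_lit 14) (nat_lit 1) (nat_lit 0) (nat_lit 1) (nat_lit 6) .nil)))

noncomputable def dB0_c19 : Cm := .mk (nat_lit 25) (nat_lit 19) (nat_lit 24) (nat_lit 3) (.c (nat_lit 6) (nat_lit 1) (nat_lit 5) (nat_lit 1) (nat_lit 3) (.c (nat_lit 12) (nat_lit 2) (nat_lit 2) (nat_lit 1) (nat_lit 4) (.c (nat_lit 14) (nat_lit 1) (nat_lit 1) (nat_lit 1) (nat_lit 6) .nil)))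

noncomputable def dB0_c275 : Cm := .mk (nat_lit 30) (nat_lit 275) (nat_lit 28) (nat_lit 11) (.c (nat_lit 7) (nat_lit 3) (nat_lit 6) (nat_lit 1) (nat_lit 11) (.c (nat_lit 10) (nat_lit 2) (nat_lit 5) (nat_lit 1) (nat_lit 14) (.c (nat_lit 12) (nat_lit 2) (nat_lit 4) (nat_lit 1) (nat_lit 16) (.c (nat_lit 14) (nat_lit 1) (nat_lit 3) (nat_lit 1) (nat_lit 18) (.c (nat_lit 15) (nat_lit 6) (nat_lit 2) (nat_lit 1) (nat_lit 19) (.c (nat_lit 21) (nat_lit 3) (nat_lit 1) (nat_lit 1) (nat_lit 25) (.c (nat_lit 24) (nat_lit 3) (nat_lit 0) (nat_lit 1) (nat_lit 28) .nil)))))))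

noncomputable def dB0_c260 : Cm := .mk (nat_lit 50) (nat_lit 260) (nat_lit 39) (nat_lit 4) (.c (nat_lit 10) (nat_lit 2) (nat_lit 6) (nat_lit 1) (nat_lit 4) (.c (nat_lit 14) (nat_lit 1) (nat_lit 4) (nat_lit 1) (nat_lit 6) (.c (nat_lit 21) (nat_lit 3) (nat_lit 2) (nat_lit 1) (nat_lit 7) (.c (nat_lit 27) (nat_lit 1) (nat_lit 0) (nat_lit 1) (nat_lit 10) .nil))))

noncomputable def dB0_c20 : Cm := .mk (nat_lit 57) (nat_lit 20) (nat_lit 43) (nat_lit 4) (.c (nat_lit 12) (nat_lit 2) (nat_lit 6) (nat_lit 1) (nat_lit 4) (.c (nat_lit 14) (nat_lit 1) (nat_lit 5) (nat_lit 1) (nat_lit 6) (.c (nat_lit 24) (nat_lit 3) (nat_lit 2) (nat_lit 1) (nat_lit 7) (.c (nat_lit 27) (nat_lit 1) (nat_lit 1) (nat_lit 1) (nat_lit 10) .nil))))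

noncomputable def dB0_t0 : Tr := (.nd (.nd (.nd (.nd (.nd (.nd (.nd .leaf (nat_lit 1024) (nat_lit 0) (.p (nat_lit 3) (nat_lit 1) .z) .df .leaf) (nat_lit 2048) (nat_lit 1) (.p (nat_lit 4) (nat_lit 1) .z) .df .leaf) (nat_lit 2049) (nat_lit 2) (.p (nat_lit 5) (nat_lit 1) .z) .df (.nd .leaf (nat_lit 2050) (nat_lit 3) (.p (nat_lit 6) (nat_lit 1) .z) .df .leaf)) (nat_lit 3074) (nat_lit 4) (.p (nat_lit 7) (nat_lit 1) .z) .df (.nd (.nd .leaf (nat_lit 4097) (nat_lit 5) (.p (nat_lit 8) (nat_lit 1) .z) .df .leaf) (nat_lit 4098) (nat_lit 7) (.p (nat_lit 10) (nat_lit 1) .z) .df (.nd .leaf (nat_lit 5120) (nat_lit 6) (.p (nat_lit 9) (nat_lit 1) .z) .df .leaf))) (nat_lit 5122) (nat_lit 9) (.p (nat_lit 12) (nat_lit 1) .z) .df (.nd (.nd (.nd .leaf (nat_lit 5124) (nat_lit 18) (.n (nat_lit 15) (nat_lit 1) (.n (nat_lit 16) (nat_lit 1) (.p (nat_lit 19) (nat_lit 1) (.n (nat_lit 20) (nat_lit 1) .z))))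 (.ct dB0_c274 (nat_lit 1) (nat_lit 0) (.s true (nat_lit 1) (nat_lit 2) (nat_lit 0) (nat_lit 1) (nat_lit 2) true (nat_lit 0) true (nat_lit 2) true (nat_lit 2) true (nat_lit 4) true (nat_lit 3) (.e true (nat_lit 1) (nat_lit 8) (nat_lit 2) (nat_lit 2) (.e true (nat_lit 1) (nat_lit 7) (nat_lit 2) (nat_lit 2) (.e true (nat_lit 1) (nat_lit 12) (nat_lit 0) (nat_lit 4) (.e false (nat_lit 1) (nat_lit 11) (nat_lit 1) (nat_lit 3) .nil)))))) .leaf) (nat_lit 6144) (nat_lit 8) (.p (nat_lit 11) (nat_lit 1) .z) .df (.nd .leaf (nat_lit 6145) (nat_lit 10) (.p (nat_lit 13) (nat_lit 1) .z) .df .leaf)) (nat_lit 6146) (nat_lit 11) (.p (nat_lit 14) (nat_lit 1) .z) .df (.nd (.nd .leaf (nat_lit 6147) (nat_lit 20) (.n (nat_lit 16) (nat_lit 1) (.p (nat_lit 17) (nat_lit 1) (.n (nat_lit 18) (nat_lit 1) (.p (nat_lit 20) (nat_lit 1) .z)))) (.ct dB0_c274 (nat_lit 1) (nat_lit 1) (.s true (nat_lit 1) (nat_lit 2)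 (nat_lit 0) (nat_lit 2) (nat_lit 1) true (nat_lit 1) true (nat_lit 3) true (nat_lit 2) true (nat_lit 4) true (nat_lit 2) (.e true (nat_lit 1) (nat_lit 10) (nat_lit 1) (nat_lit 3) (.e true (nat_lit 1) (nat_lit 8) (nat_lit 2) (nat_lit 2) (.e false (nat_lit 1) (nat_lit 12) (nat_lit 0) (nat_lit 4) (.e false (nat_lit 1) (nat_lit 9) (nat_lit 2) (nat_lit 2) .nil)))))) .leaf) (nat_lit 6148) (nat_lit 24) (.n (nat_lit 22) (nat_lit 1) (.n (nat_lit 23) (nat_lit 1) .z)) (.ct dB0_c259 (nat_lit 1) (nat_lit 0) (.s true (nat_lit 1) (nat_lit 2) (nat_lit 0) (nat_lit 2) (nat_lit 2) true (nat_lit 0) true (nat_lit 1) true (nat_lit 1) true (nat_lit 2) true (nat_lit 1) (.e true (nat_lit 1) (nat_lit 14) (nat_lit 0) (nat_lit 2) (.e true (nat_lit 1) (nat_lit 11) (nat_lit 2) (nat_lit 1) .nil)))) (.nd .leaf (nat_lit 6149) (nat_lit 28) (.n (nat_lit 25) (nat_lit 1) (.n (nat_lit 26) (nat_lit 1) .z)) (.ct dB0_c19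 (nat_lit 1) (nat_lit 0) (.s true (nat_lit 1) (nat_lit 2) (nat_lit 1) (nat_lit 2) (nat_lit 2) true (nat_lit 0) true (nat_lit 1) true (nat_lit 1) true (nat_lit 2) true (nat_lit 1) (.e true (nat_lit 1) (nat_lit 14) (nat_lit 1) (nat_lit 2) (.e true (nat_lit 1) (nat_lit 13) (nat_lit 2) (nat_lit 1) .nil)))) .leaf)))) (nat_lit 7170) (nat_lit 12) (.p (nat_lit 15) (nat_lit 1) .z) .df (.nd (.nd (.nd (.nd .leaf (nat_lit 7174) (nat_lit 39) (.p (nat_lit 37) (nat_lit 1) .z) .df .leaf) (nat_lit 8194) (nat_lit 13) (.p (nat_lit 16) (nat_lit 1) .z) .df (.nd .leaf (nat_lit 8198) (nat_lit 41) (.p (nat_lit 28) (nat_lit 2) (.p (nat_lit 29) (nat_lit 3) (.n (nat_lit 30) (nat_lit 1) (.p (nat_lit 31) (nat_lit 1) (.n (nat_lit 32) (nat_lit 1) (.p (nat_lit 33) (nat_lit 1) (.n (nat_lit 35) (nat_lit 1) (.n (nat_lit 37) (nat_lit 1) .z)))))))) (.ct dB0_c275 (nat_lit 1) (nat_lit 0) (.s false (nat_lit 1) (nat_lit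 4) (nat_lit 2) (nat_lit 1) (nat_lit 2) true (nat_lit 0) true (nat_lit 4) true (nat_lit 2) true (nat_lit 4) true (nat_lit 5) (.s true (nat_lit 1) (nat_lit 4) (nat_lit 2) (nat_lit 2) (nat_lit 1) true (nat_lit 1) true (nat_lit 5) true (nat_lit 2) true (nat_lit 4) true (nat_lit 4) (.s true (nat_lit 1) (nat_lit 5) (nat_lit 0) (nat_lit 2) (nat_lit 2) true (nat_lit 2) true (nat_lit 4) true (nat_lit 1) true (nat_lit 6) true (nat_lit 4) (.s false (nat_lit 1) (nat_lit 6) (nat_lit 0) (nat_lit 1) (nat_lit 2) true (nat_lit 2) true (nat_lit 4) true (nat_lit 0) true (nat_lit 6) true (nat_lit 5) (.e false (nat_lit 1) (nat_lit 18) (nat_lit 2) (nat_lit 4) (.e false (nat_lit 2) (nat_lit 15) (nat_lit 2) (nat_lit 4) (.e false (nat_lit 3) (nat_lit 16) (nat_lit 2) (nat_lit 4) (.e true (nat_lit 1) (nat_lit 19) (nat_lit 2) (nat_lit 4) (.e false (nat_lit 1) (nat_lit 20) (nat_lit 2) (nat_lit 4) (.e true (nat_lit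 1) (nat_lit 17) (nat_lit 2) (nat_lit 4) (.e true (nat_lit 1) (nat_lit 7) (nat_lit 6) (nat_lit 0) (.e true (nat_lit 1) (nat_lit 23) (nat_lit 1) (nat_lit 5) .nil))))))))))))) .leaf)) (nat_lit 9218) (nat_lit 14) (.p (nat_lit 17) (nat_lit 1) .z) .df (.nd (.nd .leaf (nat_lit 9222) (nat_lit 43) (.n (nat_lit 29) (nat_lit 1) (.p (nat_lit 30) (nat_lit 1) (.n (nat_lit 31) (nat_lit 1) (.n (nat_lit 32) (nat_lit 1) (.p (nat_lit 33) (nat_lit 1) (.p (nat_lit 34) (nat_lit 1) (.p (nat_lit 35) (nat_lit 1) (.p (nat_lit 36) (nat_lit 1) (.p (nat_lit 37) (nat_lit 1) .z))))))))) (.ct dB0_c275 (nat_lit 1) (nat_lit 0) (.s true (nat_lit 1) (nat_lit 4) (nat_lit 1) (nat_lit 2) (nat_lit 2) true (nat_lit 1) true (nat_lit 4) true (nat_lit 2) true (nat_lit 5) true (nat_lit 4) (.s false (nat_lit 1) (nat_lit 5) (nat_lit 2) (nat_lit 0) (nat_lit 2) true (nat_lit 0) true (nat_lit 4) true (nat_lit 1) true (nat_lit 4)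 true (nat_lit 6) (.s true (nat_lit 1) (nat_lit 5) (nat_lit 2) (nat_lit 2) (nat_lit 0) true (nat_lit 2) true (nat_lit 6) true (nat_lit 1) true (nat_lit 4) true (nat_lit 4) (.s true (nat_lit 1) (nat_lit 6) (nat_lit 2) (nat_lit 0) (nat_lit 1) true (nat_lit 1) true (nat_lit 5) true (nat_lit 0) true (nat_lit 4) true (nat_lit 6) (.e false (nat_lit 2) (nat_lit 16) (nat_lit 2) (nat_lit 4) (.e false (nat_lit 1) (nat_lit 22) (nat_lit 1) (nat_lit 5) (.e false (nat_lit 2) (nat_lit 20) (nat_lit 2) (nat_lit 4) (.e false (nat_lit 2) (nat_lit 15) (nat_lit 2) (nat_lit 4) (.e true (nat_lit 2) (nat_lit 19) (nat_lit 2) (nat_lit 4) (.e true (nat_lit 1) (nat_lit 8) (nat_lit 6) (nat_lit 0) (.e false (nat_lit 1) (nat_lit 25) (nat_lit 0) (nat_lit 6) .nil)))))))))))) .leaf) (nat_lit 10241) (nat_lit 15) (.p (nat_lit 18) (nat_lit 1) .z) .df (.nd .leaf (nat_lit 10242) (nat_lit 21) (.p (nat_lit 21) (nat_lit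 1) .z) .df .leaf))) (nat_lit 10245) (nat_lit 40) (.p (nat_lit 38) (nat_lit 1) .z) .df (.nd (.nd (.nd .leaf (nat_lit 10246) (nat_lit 54) (.p (nat_lit 40) (nat_lit 1) (.n (nat_lit 42) (nat_lit 1) .z)) (.ct dB0_c260 (nat_lit 2) (nat_lit 0) (.s true (nat_lit 1) (nat_lit 4) (nat_lit 2) (nat_lit 2) (nat_lit 2) true (nat_lit 0) true (nat_lit 2) true (nat_lit 1) true (nat_lit 2) true (nat_lit 2) (.s true (nat_lit 1) (nat_lit 6) (nat_lit 2) (nat_lit 0) (nat_lit 2) true (nat_lit 0) true (nat_lit 2) true (nat_lit 0) true (nat_lit 2) true (nat_lit 3) (.s true (nat_lit 1) (nat_lit 6) (nat_lit 2) (nat_lit 2) (nat_lit 0) true (nat_lit 1) true (nat_lit 3) true (nat_lit 0) true (nat_lit 2) true (nat_lit 2) (.e false (nat_lit 2) (nat_lit 22) (nat_lit 2) (nat_lit 2) (.e true (nat_lit 2) (nat_lit 27) (nat_lit 0) (nat_lit 3) .nil)))))) .leaf) (nat_lit 11265) (nat_lit 16) (.p (nat_lit 19) (nat_lit 1)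 .z) .df (.nd .leaf (nat_lit 11266) (nat_lit 22) (.p (nat_lit 22) (nat_lit 1) .z) .df .leaf)) (nat_lit 11269) (nat_lit 45) (.p (nat_lit 28) (nat_lit 2) (.p (nat_lit 29) (nat_lit 2) (.n (nat_lit 32) (nat_lit 1) (.p (nat_lit 33) (nat_lit 2) (.n (nat_lit 36) (nat_lit 1) (.n (nat_lit 37) (nat_lit 1) .z)))))) (.ct dB0_c275 (nat_lit 1) (nat_lit 1) (.s false (nat_lit 1) (nat_lit 6) (nat_lit 2) (nat_lit 0) (nat_lit 1) true (nat_lit 1) true (nat_lit 5) true (nat_lit 0) true (nat_lit 4) true (nat_lit 6) (.e false (nat_lit 1) (nat_lit 23) (nat_lit 1) (nat_lit 5) (.e false (nat_lit 1) (nat_lit 8) (nat_lit 6) (nat_lit 0) (.e true (nat_lit 1) (nat_lit 16) (nat_lit 2) (nat_lit 4) (.e false (nat_lit 1) (nat_lit 17) (nat_lit 2) (nat_lit 4) (.e true (nat_lit 1) (nat_lit 18) (nat_lit 2) (nat_lit 4) (.e false (nat_lit 1) (nat_lit 20) (nat_lit 2) (nat_lit 4) (.e true (nat_lit 1) (nat_lit 25) (nat_lit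 0) (nat_lit 6) .nil))))))))) (.nd (.nd .leaf (nat_lit 11270) (nat_lit 55) (.p (nat_lit 40) (nat_lit 2) (.p (nat_lit 41) (nat_lit 2) .z)) (.ct dB0_c260 (nat_lit 1) (nat_lit 0) (.s false (nat_lit 1) (nat_lit 6) (nat_lit 2) (nat_lit 0) (nat_lit 2) true (nat_lit 0) true (nat_lit 2) true (nat_lit 0) true (nat_lit 2) true (nat_lit 3) (.e false (nat_lit 2) (nat_lit 23) (nat_lit 2) (nat_lit 2) (.e false (nat_lit 1) (nat_lit 10) (nat_lit 6) (nat_lit 0) (.e false (nat_lit 1) (nat_lit 22) (nat_lit 2) (nat_lit 2) (.e false (nat_lit 1) (nat_lit 27) (nat_lit 0) (nat_lit 3) .nil)))))) .leaf) (nat_lit 12288) (nat_lit 17) (.p (nat_lit 20) (nat_lit 1) .z) .df (.nd .leaf (nat_lit 12290) (nat_lit 25) (.p (nat_lit 24) (nat_lit 1) .z) .df .leaf))))) (nat_lit 12292) (nat_lit 44) (.p (nat_lit 29) (nat_lit 1) (.p (nat_lit 31) (nat_lit 1) (.n (nat_lit 34) (nat_lit 1) (.n (nat_lit 35) (nat_lit 1) (.p (nat_lit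 38) (nat_lit 1) .z))))) (.ct dB0_c275 (nat_lit 1) (nat_lit 2) (.s false (nat_lit 1) (nat_lit 4) (nat_lit 1) (nat_lit 2) (nat_lit 2) true (nat_lit 1) true (nat_lit 4) true (nat_lit 2) true (nat_lit 5) true (nat_lit 4) (.e false (nat_lit 1) (nat_lit 10) (nat_lit 5) (nat_lit 1) (.e false (nat_lit 1) (nat_lit 16) (nat_lit 2) (nat_lit 4) (.e true (nat_lit 1) (nat_lit 22) (nat_lit 1) (nat_lit 5) (.e true (nat_lit 1) (nat_lit 23) (nat_lit 1) (nat_lit 5) (.e false (nat_lit 1) (nat_lit 18) (nat_lit 2) (nat_lit 4) .nil))))))) (.nd (.nd (.nd (.nd (.nd .leaf (nat_lit 12294) (nat_lit 61) (.p (nat_lit 44) (nat_lit 1) (.n (nat_lit 46) (nat_lit 1) .z)) (.ct dB0_c20 (nat_lit 2) (nat_lit 0) (.s true (nat_lit 1) (nat_lit 5) (nat_lit 2) (nat_lit 2) (nat_lit 2) true (nat_lit 0) true (nat_lit 2) true (nat_lit 1) true (nat_lit 2) true (nat_lit 2) (.s true (nat_lit 1) (nat_lit 6) (nat_lit 2) (nat_lit 1)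 (nat_lit 2) true (nat_lit 0) true (nat_lit 2) true (nat_lit 0) true (nat_lit 2) true (nat_lit 3) (.s true (nat_lit 1) (nat_lit 6) (nat_lit 2) (nat_lit 2) (nat_lit 1) true (nat_lit 1) true (nat_lit 3) true (nat_lit 0) true (nat_lit 2) true (nat_lit 2) (.e false (nat_lit 2) (nat_lit 25) (nat_lit 2) (nat_lit 2) (.e true (nat_lit 2) (nat_lit 27) (nat_lit 1) (nat_lit 3) .nil)))))) .leaf) (nat_lit 13312) (nat_lit 19) (.n (nat_lit 15) (nat_lit 2) (.n (nat_lit 16) (nat_lit 1) (.p (nat_lit 17) (nat_lit 1) (.p (nat_lit 18) (nat_lit 1) (.p (nat_lit 19) (nat_lit 1) (.n (nat_lit 20) (nat_lit 1) .z)))))) (.ct dB0_c274 (nat_lit 1) (nat_lit 4) (.s false (nat_lit 1) (nat_lit 2) (nat_lit 1) (nat_lit 0) (nat_lit 2) false (nat_lit 0) true (nat_lit 2) true (nat_lit 2) true (nat_lit 3) true (nat_lit 4) (.e false (nat_lit 1) (nat_lit 5) (nat_lit 4) (nat_lit 0) (.e false (nat_lit 1) (nat_lit 9) (nat_lit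 2) (nat_lit 2) (.e true (nat_lit 1) (nat_lit 7) (nat_lit 2) (nat_lit 2) (.e false (nat_lit 1) (nat_lit 10) (nat_lit 1) (nat_lit 3) .nil)))))) (.nd .leaf (nat_lit 13314) (nat_lit 26) (.p (nat_lit 25) (nat_lit 1) .z) .df .leaf)) (nat_lit 13316) (nat_lit 46) (.p (nat_lit 29) (nat_lit 1) (.p (nat_lit 30) (nat_lit 1) (.p (nat_lit 31) (nat_lit 1) (.n (nat_lit 32) (nat_lit 1) (.p (nat_lit 33) (nat_lit 1) (.n (nat_lit 34) (nat_lit 1) (.p (nat_lit 37) (nat_lit 1) .z))))))) (.ct dB0_c275 (nat_lit 1) (nat_lit 2) (.s true (nat_lit 1) (nat_lit 6) (nat_lit 0) (nat_lit 1) (nat_lit 2) true (nat_lit 2) true (nat_lit 4) true (nat_lit 0) true (nat_lit 6) true (nat_lit 5) (.e true (nat_lit 1) (nat_lit 19) (nat_lit 2) (nat_lit 4) (.e false (nat_lit 1) (nat_lit 7) (nat_lit 6) (nat_lit 0) (.e false (nat_lit 1) (nat_lit 25) (nat_lit 0) (nat_lit 6) (.e false (nat_lit 1) (nat_lit 26) (nat_lit 0) (nat_lit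 6) (.e false (nat_lit 1) (nat_lit 23) (nat_lit 1) (nat_lit 5) .nil))))))) (.nd (.nd .leaf (nat_lit 13318) (nat_lit 62) (.p (nat_lit 44) (nat_lit 2) (.p (nat_lit 45) (nat_lit 2) .z)) (.ct dB0_c20 (nat_lit 1) (nat_lit 0) (.s false (nat_lit 1) (nat_lit 6) (nat_lit 2) (nat_lit 1) (nat_lit 2) true (nat_lit 0) true (nat_lit 2) true (nat_lit 0) true (nat_lit 2) true (nat_lit 3) (.e false (nat_lit 2) (nat_lit 26) (nat_lit 2) (nat_lit 2) (.e false (nat_lit 1) (nat_lit 12) (nat_lit 6) (nat_lit 0) (.e false (nat_lit 1) (nat_lit 25) (nat_lit 2) (nat_lit 2) (.e false (nat_lit 1) (nat_lit 27) (nat_lit 1) (nat_lit 3) .nil)))))) .leaf) (nat_lit 14336) (nat_lit 23) (.p (nat_lit 23) (nat_lit 1) .z) .df (.nd .leaf (nat_lit 14337) (nat_lit 27) (.p (nat_lit 26) (nat_lit 1) .z) .df .leaf))) (nat_lit 14338) (nat_lit 29) (.p (nat_lit 27) (nat_lit 1) .z) .df (.nd (.nd (.nd .leaf (nat_lit 14339) (nat_lit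 47) (.p (nat_lit 29) (nat_lit 1) (.n (nat_lit 30) (nat_lit 1) (.p (nat_lit 31) (nat_lit 1) (.n (nat_lit 33) (nat_lit 1) (.n (nat_lit 37) (nat_lit 1) .z))))) (.ct dB0_c275 (nat_lit 1) (nat_lit 3) (.s true (nat_lit 1) (nat_lit 3) (nat_lit 2) (nat_lit 2) (nat_lit 2) true (nat_lit 0) true (nat_lit 4) true (nat_lit 3) true (nat_lit 4) true (nat_lit 4) (.e true (nat_lit 1) (nat_lit 7) (nat_lit 6) (nat_lit 0) (.e false (nat_lit 1) (nat_lit 16) (nat_lit 2) (nat_lit 4) (.e true (nat_lit 1) (nat_lit 17) (nat_lit 2) (nat_lit 4) (.e false (nat_lit 1) (nat_lit 18) (nat_lit 2) (nat_lit 4) (.e true (nat_lit 1) (nat_lit 20) (nat_lit 2) (nat_lit 4) .nil))))))) .leaf) (nat_lit 14340) (nat_lit 56) (.n (nat_lit 41) (nat_lit 1) (.n (nat_lit 42) (nat_lit 1) .z)) (.ct dB0_c260 (nat_lit 1) (nat_lit 1) (.s false (nat_lit 1) (nat_lit 4) (nat_lit 2) (nat_lit 2) (nat_lit 2) true (nat_lit 0) true (nat_lit 2)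 true (nat_lit 1) true (nat_lit 2) true (nat_lit 2) (.e false (nat_lit 1) (nat_lit 10) (nat_lit 6) (nat_lit 0) (.e true (nat_lit 1) (nat_lit 22) (nat_lit 2) (nat_lit 2) (.e true (nat_lit 1) (nat_lit 23) (nat_lit 2) (nat_lit 2) .nil))))) (.nd .leaf (nat_lit 14341) (nat_lit 63) (.n (nat_lit 45) (nat_lit 1) (.n (nat_lit 46) (nat_lit 1) .z)) (.ct dB0_c20 (nat_lit 1) (nat_lit 1) (.s false (nat_lit 1) (nat_lit 5) (nat_lit 2) (nat_lit 2) (nat_lit 2) true (nat_lit 0) true (nat_lit 2) true (nat_lit 1) true (nat_lit 2) true (nat_lit 2) (.e false (nat_lit 1) (nat_lit 12) (nat_lit 6) (nat_lit 0) (.e true (nat_lit 1) (nat_lit 25) (nat_lit 2) (nat_lit 2) (.e true (nat_lit 1) (nat_lit 26) (nat_lit 2) (nat_lit 2) .nil))))) .leaf)) (nat_lit 15362) (nat_lit 30) (.p (nat_lit 28) (nat_lit 1) .z) .df (.nd (.nd .leaf (nat_lit 16386) (nat_lit 31) (.p (nat_lit 29) (nat_lit 1) .z) .df .leaf) (nat_lit 17410)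 (nat_lit 32) (.p (nat_lit 30) (nat_lit 1) .z) .df (.nd .leaf (nat_lit 18434) (nat_lit 33) (.p (nat_lit 31) (nat_lit 1) .z) .df .leaf)))) (nat_lit 19458) (nat_lit 34) (.p (nat_lit 32) (nat_lit 1) .z) .df (.nd (.nd (.nd (.nd .leaf (nat_lit 20482) (nat_lit 35) (.p (nat_lit 33) (nat_lit 1) .z) .df .leaf) (nat_lit 21505) (nat_lit 48) (.p (nat_lit 28) (nat_lit 1) (.p (nat_lit 29) (nat_lit 1) (.n (nat_lit 30) (nat_lit 1) (.n (nat_lit 31) (nat_lit 1) (.p (nat_lit 34) (nat_lit 1) (.n (nat_lit 37) (nat_lit 1) (.n (nat_lit 38) (nat_lit 1) .z))))))) (.ct dB0_c275 (nat_lit 1) (nat_lit 5) (.s true (nat_lit 1) (nat_lit 4) (nat_lit 2) (nat_lit 2) (nat_lit 1) true (nat_lit 1) true (nat_lit 5) true (nat_lit 2) true (nat_lit 4) true (nat_lit 4) (.e true (nat_lit 1) (nat_lit 10) (nat_lit 5) (nat_lit 1) (.e true (nat_lit 1) (nat_lit 13) (nat_lit 4) (nat_lit 2) (.e false (nat_lit 1) (nat_lit 15) (nat_lit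 2) (nat_lit 4) (.e false (nat_lit 2) (nat_lit 16) (nat_lit 2) (nat_lit 4) (.e true (nat_lit 1) (nat_lit 19) (nat_lit 2) (nat_lit 4) (.e false (nat_lit 1) (nat_lit 20) (nat_lit 2) (nat_lit 4) .nil)))))))) (.nd .leaf (nat_lit 21506) (nat_lit 50) (.p (nat_lit 39) (nat_lit 1) .z) .df .leaf)) (nat_lit 22529) (nat_lit 36) (.p (nat_lit 34) (nat_lit 1) .z) .df (.nd (.nd .leaf (nat_lit 22530) (nat_lit 51) (.p (nat_lit 40) (nat_lit 1) .z) .df .leaf) (nat_lit 23553) (nat_lit 37) (.p (nat_lit 35) (nat_lit 1) .z) .df (.nd .leaf (nat_lit 23554) (nat_lit 52) (.p (nat_lit 41) (nat_lit 1) .z) .df .leaf))) (nat_lit 24576) (nat_lit 49) (.n (nat_lit 28) (nat_lit 1) (.n (nat_lit 29) (nat_lit 2) (.p (nat_lit 30) (nat_lit 1) (.n (nat_lit 31) (nat_lit 1) (.n (nat_lit 33) (nat_lit 1) (.p (nat_lit 34) (nat_lit 1) (.p (nat_lit 35) (nat_lit 1) (.p (nat_lit 36) (nat_lit 1) (.p (nat_lit 37) (nat_lit 1) (.n (nat_lit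 38) (nat_lit 1) .z)))))))))) (.ct dB0_c275 (nat_lit 1) (nat_lit 6) (.s true (nat_lit 1) (nat_lit 5) (nat_lit 2) (nat_lit 0) (nat_lit 2) true (nat_lit 0) true (nat_lit 4) true (nat_lit 1) true (nat_lit 4) true (nat_lit 6) (.e false (nat_lit 1) (nat_lit 9) (nat_lit 6) (nat_lit 0) (.e true (nat_lit 2) (nat_lit 20) (nat_lit 2) (nat_lit 4) (.e true (nat_lit 1) (nat_lit 10) (nat_lit 5) (nat_lit 1) (.e true (nat_lit 1) (nat_lit 15) (nat_lit 2) (nat_lit 4) (.e true (nat_lit 1) (nat_lit 16) (nat_lit 2) (nat_lit 4) (.e false (nat_lit 1) (nat_lit 19) (nat_lit 2) (nat_lit 4) .nil)))))))) (.nd (.nd (.nd .leaf (nat_lit 24578) (nat_lit 57) (.p (nat_lit 43) (nat_lit 1) .z) .df .leaf) (nat_lit 25600) (nat_lit 38) (.p (nat_lit 36) (nat_lit 1) .z) .df (.nd .leaf (nat_lit 25602) (nat_lit 58) (.p (nat_lit 44) (nat_lit 1) .z) .df .leaf)) (nat_lit 26624) (nat_lit 42) (.p (nat_lit 29) (nat_lit 1) (.p (nat_lit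 30) (nat_lit 1) (.p (nat_lit 31) (nat_lit 1) (.p (nat_lit 33) (nat_lit 1) (.n (nat_lit 34) (nat_lit 1) (.n (nat_lit 35) (nat_lit 1) (.n (nat_lit 36) (nat_lit 1) .z))))))) (.ct dB0_c275 (nat_lit 1) (nat_lit 6) (.s false (nat_lit 1) (nat_lit 4) (nat_lit 1) (nat_lit 2) (nat_lit 2) true (nat_lit 1) true (nat_lit 4) true (nat_lit 2) true (nat_lit 5) true (nat_lit 4) (.s false (nat_lit 1) (nat_lit 5) (nat_lit 0) (nat_lit 2) (nat_lit 2) true (nat_lit 2) true (nat_lit 4) true (nat_lit 1) true (nat_lit 6) true (nat_lit 4) (.e false (nat_lit 1) (nat_lit 16) (nat_lit 2) (nat_lit 4) (.e true (nat_lit 1) (nat_lit 22) (nat_lit 1) (nat_lit 5) (.e true (nat_lit 1) (nat_lit 23) (nat_lit 1) (nat_lit 5) (.e false (nat_lit 1) (nat_lit 18) (nat_lit 2) (nat_lit 4) (.e false (nat_lit 1) (nat_lit 17) (nat_lit 2) (nat_lit 4) (.e true (nat_lit 1) (nat_lit 25) (nat_lit 0) (nat_lit 6) (.e false (nat_lit 1)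 (nat_lit 20) (nat_lit 2) (nat_lit 4) .nil)))))))))) (.nd (.nd .leaf (nat_lit 26626) (nat_lit 59) (.p (nat_lit 45) (nat_lit 1) .z) .df .leaf) (nat_lit 27648) (nat_lit 53) (.p (nat_lit 42) (nat_lit 1) .z) .df (.nd .leaf (nat_lit 27649) (nat_lit 60) (.p (nat_lit 46) (nat_lit 1) .z) .df .leaf))))))

noncomputable def dB0_cl : CL := (.c (nat_lit 256) (nat_lit 0) (nat_lit 1) (.c (nat_lit 16) (nat_lit 1) (nat_lit 1) (.c (nat_lit 1) (nat_lit 2) (nat_lit 1) (.c (nat_lit 272) (nat_lit 3) (nat_lit 1) (.c (nat_lit 257) (nat_lit 4) (nat_lit 1) (.c (nat_lit 17) (nat_lit 5) (nat_lit 1) (.c (nat_lit 2) (nat_lit 6) (nat_lit 1) (.c (nat_lit 273) (nat_lit 7) (nat_lit 3) (.c (nat_lit 258) (nat_lit 10) (nat_lit 2) (.c (nat_lit 18) (nat_lit 12) (nat_lit 2) (.c (nat_lit 3) (nat_lit 14) (nat_lit 1) (.c (nat_lit 274) (nat_lit 15) (nat_lit 6) (.c (nat_lit 259) (nat_lit 21) (nat_lit 3) (.c (nat_lit 19) (nat_lit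 24) (nat_lit 3) (.c (nat_lit 4) (nat_lit 27) (nat_lit 1) (.c (nat_lit 275) (nat_lit 28) (nat_lit 11) (.c (nat_lit 260) (nat_lit 39) (nat_lit 4) (.c (nat_lit 20) (nat_lit 43) (nat_lit 4) .nil))))))))))))))))))

noncomputable def dB0_D : Dt := ⟨(nat_lit 4294967296), (nat_lit 2147483648), (nat_lit 1), (nat_lit 47), (nat_lit 12017791419312496485452934368902426241694933287572751905812751722278204656152714038372049226736320899091678091634367835087729734847482164806048334211655107002098892055947257068523776101606970092092148131038280360841353981266561737182328445954855053321017137213536281949590365385792237349528149978003891427710248548477655666637671002800133), (nat_lit 549619516340), dB0_t0, dB0_cl⟩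

noncomputable def dB0_gs : BL := (.c (nat_lit 12) (nat_lit 2) (nat_lit 10) (nat_lit 2) (nat_lit 0) (.c (nat_lit 14) (nat_lit 1) (nat_lit 7) (nat_lit 3) (nat_lit 4) (.c (nat_lit 15) (nat_lit 6) (nat_lit 6) (nat_lit 1) (nat_lit 7) (.c (nat_lit 21) (nat_lit 3) (nat_lit 5) (nat_lit 1) (nat_lit 13) (.c (nat_lit 24) (nat_lit 3) (nat_lit 4) (nat_lit 1) (nat_lit 16) (.c (nat_lit 27) (nat_lit 1) (nat_lit 3) (nat_lit 1) (nat_lit 19) (.c (nat_lit 28) (nat_lit 11) (nat_lit 2) (nat_lit 1) (nat_lit 20) (.c (nat_lit 39) (nat_lit 4) (nat_lit 1) (nat_lit 1) (nat_lit 31) (.c (nat_lit 43) (nat_lit 4) (nat_lit 0) (nat_lit 1) (nat_lit 35) .nil)))))))))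

noncomputable def dB0_il : IL := (.s true (nat_lit 144) (nat_lit 5) (nat_lit 2) (nat_lit 2) (nat_lit 4) true (nat_lit 0) true (nat_lit 4) true (nat_lit 3) true (nat_lit 6) true (nat_lit 6) (.s false (nat_lit 120) (nat_lit 5) (nat_lit 4) (nat_lit 2) (nat_lit 2) true (nat_lit 0) true (nat_lit 6) true (nat_lit 3) true (nat_lit 4) true (nat_lit 6) (.s false (nat_lit 12) (nat_lit 6) (nat_lit 0) (nat_lit 2) (nat_lit 5) true (nat_lit 1) true (nat_lit 3) true (nat_lit 2) true (nat_lit 8) true (nat_lit 6) (.s true (nat_lit 264) (nat_lit 6) (nat_lit 0) (nat_lit 6) (nat_lit 1) true (nat_lit 5) true (nat_lit 7) true (nat_lit 2) true (nat_lit 8) true (nat_lit 2) (.s true (nat_lit 264) (nat_lit 6) (nat_lit 1) (nat_lit 0) (nat_lit 6) false (nat_lit 0) true (nat_lit 2) true (nat_lit 2) true (nat_lit 7) true (nat_lit 8) (.s true (nat_lit 264) (nat_lit 6) (nat_lit 1) (nat_lit 4) (nat_lit 2) true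 (nat_lit 3) true (nat_lit 6) true (nat_lit 2) true (nat_lit 7) true (nat_lit 4) (.s false (nat_lit 12) (nat_lit 6) (nat_lit 2) (nat_lit 0) (nat_lit 5) false (nat_lit 0) true (nat_lit 3) true (nat_lit 2) true (nat_lit 6) true (nat_lit 8) (.s true (nat_lit 324) (nat_lit 6) (nat_lit 2) (nat_lit 2) (nat_lit 3) true (nat_lit 1) true (nat_lit 5) true (nat_lit 2) true (nat_lit 6) true (nat_lit 6) (.s true (nat_lit 264) (nat_lit 6) (nat_lit 3) (nat_lit 2) (nat_lit 2) true (nat_lit 1) true (nat_lit 6) true (nat_lit 2) true (nat_lit 5) true (nat_lit 6) (.s true (nat_lit 48) (nat_lit 6) (nat_lit 4) (nat_lit 1) (nat_lit 2) true (nat_lit 0) true (nat_lit 6) true (nat_lit 2) true (nat_lit 4) true (nat_lit 7) (.s true (nat_lit 360) (nat_lit 8) (nat_lit 2) (nat_lit 2) (nat_lit 2) true (nat_lit 2) true (nat_lit 6) true (nat_lit 1) true (nat_lit 6) true (nat_lit 6) (.s true (nat_lit 24) (nat_lit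 10) (nat_lit 1) (nat_lit 2) (nat_lit 2) true (nat_lit 3) true (nat_lit 6) true (nat_lit 0) true (nat_lit 7) true (nat_lit 6) (.s true (nat_lit 36) (nat_lit 11) (nat_lit 1) (nat_lit 2) (nat_lit 2) true (nat_lit 3) true (nat_lit 6) true (nat_lit 0) true (nat_lit 7) true (nat_lit 6) (.s false (nat_lit 192) (nat_lit 11) (nat_lit 2) (nat_lit 1) (nat_lit 2) true (nat_lit 2) true (nat_lit 6) true (nat_lit 0) true (nat_lit 6) true (nat_lit 7) (.s true (nat_lit 48) (nat_lit 10) (nat_lit 2) (nat_lit 2) (nat_lit 1) true (nat_lit 3) true (nat_lit 7) true (nat_lit 0) true (nat_lit 6) true (nat_lit 6) (.s false (nat_lit 240) (nat_lit 12) (nat_lit 2) (nat_lit 2) (nat_lit 0) true (nat_lit 4) true (nat_lit 8) false (nat_lit 0) true (nat_lit 6) true (nat_lit 6) (.s false (nat_lit 264) (nat_lit 13) (nat_lit 2) (nat_lit 2) (nat_lit 0) true (nat_lit 4) true (nat_lit 8) false (nat_lit 0) true (nat_lit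 6) true (nat_lit 6) (.s false (nat_lit 264) (nat_lit 14) (nat_lit 0) (nat_lit 1) (nat_lit 2) true (nat_lit 4) true (nat_lit 6) false (nat_lit 1) true (nat_lit 8) true (nat_lit 7) (.s false (nat_lit 132) (nat_lit 14) (nat_lit 1) (nat_lit 0) (nat_lit 2) true (nat_lit 3) true (nat_lit 6) false (nat_lit 1) true (nat_lit 7) true (nat_lit 8) (.s true (nat_lit 228) (nat_lit 14) (nat_lit 1) (nat_lit 2) (nat_lit 0) true (nat_lit 5) true (nat_lit 8) false (nat_lit 1) true (nat_lit 7) true (nat_lit 6) (.s false (nat_lit 360) (nat_lit 14) (nat_lit 2) (nat_lit 0) (nat_lit 1) true (nat_lit 3) true (nat_lit 7) false (nat_lit 1) true (nat_lit 6) true (nat_lit 8) (.s true (nat_lit 216) (nat_lit 14) (nat_lit 2) (nat_lit 1) (nat_lit 0) true (nat_lit 4) true (nat_lit 8) false (nat_lit 1) true (nat_lit 6) true (nat_lit 7) .nil))))))))))))))))))))))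

theorem dB0_chk : chk idsM dB0_D par1 (clsL [0,0,0,0,1,2]) B0Ex (.c (nat_lit 2) (nat_lit 1) (.c (nat_lit 2) (nat_lit 1) (.c (nat_lit 2) (nat_lit 1) (.c (nat_lit 2) (nat_lit 1) (.c (nat_lit 1) (nat_lit 16) (.c (nat_lit 0) (nat_lit 256) .nil)))))) (nat_lit 64) (nat_lit 276) (nat_lit 1) dB0_gs dB0_il = true := by
  decide +kernel

end Chk

/-- certificate of `B0Ex` -/
theorem cert_B0Ex : Cert.{u} idsM par1 (clsL [0,0,0,0,1,2]) B0Ex :=
  Chk.chk_sound _ (by simp [idsM]) (by simp [idsM]) _ _ _ _ _ _ _ _ _ _ Chk.dB0_chk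

end Pool.Agent.Malc
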