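import Pool.Agent.Malc.Check4
import Pool.Agent.Malc.Certs

/-! # Certificate of F7Ex -/

set_option autoImplicit false
set_option maxRecDepth 100000

namespace Pool.Agent.Malc

universe u

namespace Chk

noncomputable def dF7_c4369 : Cm := .mk (nat_lit 25) (nat_lit 4369) (nat_lit 29) (nat_lit 10) (.c (nat_lit 7) (nat_lit 1) (nat_lit 6) (nat_lit 1) (nat_lit 10) (.c (nat_lit 8) (nat_lit 1) (nat_lit 5) (nat_lit 1) (nat_lit 11) (.c (nat_lit 9) (nat_lit 1) (nat_lit 4) (nat_lit 1) (nat_lit 12) (.c (nat_lit 11) (nat_lit 3) (nat_lit 3) (nat_lit 1) (nat_lit 13) (.c (nat_lit 14) (nat_lit 3) (nat_lit 2) (nat_lit 1) (nat_lit 16) (.c (nat_lit 17) (nat_lit 3) (nat_lit 1) (nat_lit 1) (nat_lit 19) (.c (nat_lit 20) (nat_lit 3) (nat_lit 0) (nat_lit 1) (nat_lit 22) .nil)))))))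

noncomputable def dF7_c4354 : Cm := .mk (nat_lit 40) (nat_lit 4354) (nat_lit 39) (nat_lit 6) (.c (nat_lit 8) (nat_lit 1) (nat_lit 7) (nat_lit 1) (nat_lit 6) (.c (nat_lit 10) (nat_lit 1) (nat_lit 4) (nat_lit 1) (nat_lit 7) (.c (nat_lit 14) (nat_lit 3) (nat_lit 3) (nat_lit 1) (nat_lit 8) (.c (nat_lit 23) (nat_lit 2) (nat_lit 1) (nat_lit 1) (nat_lit 11) (.c (nat_lit 25) (nat_lit 2) (nat_lit 0) (nat_lit 1) (nat_lit 13) .nil)))))

noncomputable def dF7_c4114 : Cm := .mk (nat_lit 49) (nat_lit 4114) (nat_lit 45) (nat_lit 6) (.c (nat_lit 9) (nat_lit 1) (nat_lit 7) (nat_lit 1) (nat_lit 6) (.c (nat_lit 10) (nat_lit 1) (nat_lit 5) (nat_lit 1) (nat_lit 7) (.c (nat_lit 17) (nat_lit 3) (nat_lit 3) (nat_lit 1) (nat_lit 8) (.c (nat_lit 23) (nat_lit 2) (nat_lit 2) (nat_lit 1) (nat_lit 11) (.c (nat_lit 27) (nat_lit 2) (nat_lit 0) (nat_lit 1) (nat_lit 13) .nil)))))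

noncomputable def dF7_c274 : Cm := .mk (nat_lit 58) (nat_lit 274) (nat_lit 51) (nat_lit 6) (.c (nat_lit 9) (nat_lit 1) (nat_lit 8) (nat_lit 1) (nat_lit 6) (.c (nat_lit 10) (nat_lit 1) (nat_lit 6) (nat_lit 1) (nat_lit 7) (.c (nat_lit 20) (nat_lit 3) (nat_lit 3) (nat_lit 1) (nat_lit 8) (.c (nat_lit 25) (nat_lit 2) (nat_lit 2) (nat_lit 1) (nat_lit 11) (.c (nat_lit 27) (nat_lit 2) (nat_lit 1) (nat_lit 1) (nat_lit 13) .nil)))))

noncomputable def dF7_t0 : Tr := (.nd (.nd (.nd (.nd (.nd (.nd (.nd .leaf (nat_lit 1024) (nat_lit 0) (.p (nat_lit 4) (nat_lit 1) .z) .df .leaf) (nat_lit 2048) (nat_lit 1) (.p (nat_lit 5) (nat_lit 1) .z) .df .leaf) (nat_lit 2049) (nat_lit 2) (.p (nat_lit 6) (nat_lit 1) .z) .df (.nd .leaf (nat_lit 3072) (nat_lit 3) (.p (nat_lit 7) (nat_lit 1) .z) .df .leaf)) (nat_lit 3073) (nat_lit 4) (.p (nat_lit 8) (nat_lit 1) .z) .df (.nd (.nd .leaf (nat_lit 3074) (nat_lit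 5) (.p (nat_lit 9) (nat_lit 1) .z) .df .leaf) (nat_lit 3075) (nat_lit 6) (.p (nat_lit 10) (nat_lit 1) .z) .df (.nd .leaf (nat_lit 4098) (nat_lit 7) (.p (nat_lit 11) (nat_lit 1) .z) .df .leaf))) (nat_lit 4099) (nat_lit 10) (.p (nat_lit 14) (nat_lit 1) .z) .df (.nd (.nd (.nd .leaf (nat_lit 5121) (nat_lit 8) (.p (nat_lit 12) (nat_lit 1) .z) .df .leaf) (nat_lit 5123) (nat_lit 13) (.p (nat_lit 17) (nat_lit 1) .z) .df (.nd .leaf (nat_lit 6144) (nat_lit 9) (.p (nat_lit 13) (nat_lit 1) .z) .df .leaf)) (nat_lit 6147) (nat_lit 16) (.p (nat_lit 20) (nat_lit 1) .z) .df (.nd (.nd .leaf (nat_lit 7169) (nat_lit 11) (.p (nat_lit 15) (nat_lit 1) .z) .df .leaf) (nat_lit 7170) (nat_lit 14) (.p (nat_lit 18) (nat_lit 1) .z) .df (.nd .leaf (nat_lit 7171) (nat_lit 19) (.p (nat_lit 23) (nat_lit 1) .z) .df .leaf)))) (nat_lit 7174) (nat_lit 37) (.n (nat_lit 31) (nat_lit 1) (.n (nat_lit 32) (nat_lit 1) (.n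 (nat_lit 33) (nat_lit 1) (.n (nat_lit 34) (nat_lit 1) (.p (nat_lit 35) (nat_lit 1) (.p (nat_lit 36) (nat_lit 1) (.p (nat_lit 37) (nat_lit 1) (.p (nat_lit 38) (nat_lit 1) .z)))))))) (.ct dF7_c4369 (nat_lit 1) (nat_lit 0) (.s true (nat_lit 1) (nat_lit 3) (nat_lit 1) (nat_lit 0) (nat_lit 2) true (nat_lit 0) true (nat_lit 4) true (nat_lit 3) true (nat_lit 5) true (nat_lit 6) (.e true (nat_lit 1) (nat_lit 16) (nat_lit 2) (nat_lit 4) (.e true (nat_lit 1) (nat_lit 11) (nat_lit 3) (nat_lit 3) (.e false (nat_lit 1) (nat_lit 17) (nat_lit 1) (nat_lit 5) (.e false (nat_lit 1) (nat_lit 22) (nat_lit 0) (nat_lit 6) .nil)))))) (.nd (.nd (.nd (.nd (.nd .leaf (nat_lit 8192) (nat_lit 12) (.p (nat_lit 16) (nat_lit 1) .z) .df .leaf) (nat_lit 8194) (nat_lit 17) (.p (nat_lit 21) (nat_lit 1) .z) .df .leaf) (nat_lit 8195) (nat_lit 21) (.p (nat_lit 25) (nat_lit 1) .z) .df (.nd .leaf (nat_lit 8197) (nat_lit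 38) (.p (nat_lit 29) (nat_lit 1) (.n (nat_lit 33) (nat_lit 1) (.p (nat_lit 37) (nat_lit 1) (.p (nat_lit 38) (nat_lit 1) .z)))) (.ct dF7_c4369 (nat_lit 1) (nat_lit 1) (.s true (nat_lit 1) (nat_lit 3) (nat_lit 0) (nat_lit 1) (nat_lit 2) true (nat_lit 1) true (nat_lit 4) true (nat_lit 3) true (nat_lit 6) true (nat_lit 5) (.e true (nat_lit 1) (nat_lit 15) (nat_lit 2) (nat_lit 4) (.e false (nat_lit 1) (nat_lit 11) (nat_lit 3) (nat_lit 3) (.e false (nat_lit 1) (nat_lit 20) (nat_lit 0) (nat_lit 6) (.e false (nat_lit 1) (nat_lit 19) (nat_lit 1) (nat_lit 5) .nil)))))) .leaf)) (nat_lit 8199) (nat_lit 46) (.n (nat_lit 39) (nat_lit 1) (.n (nat_lit 40) (nat_lit 1) (.p (nat_lit 43) (nat_lit 1) (.n (nat_lit 44) (nat_lit 1) .z)))) (.ct dF7_c4354 (nat_lit 1) (nat_lit 0) (.s true (nat_lit 1) (nat_lit 3) (nat_lit 0) (nat_lit 1) (nat_lit 3) true (nat_lit 0) true (nat_lit 2) true (nat_lit 2) true (nat_lit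 4) true (nat_lit 3) (.e true (nat_lit 1) (nat_lit 15) (nat_lit 3) (nat_lit 2) (.e true (nat_lit 1) (nat_lit 14) (nat_lit 3) (nat_lit 2) (.e true (nat_lit 1) (nat_lit 25) (nat_lit 0) (nat_lit 4) (.e false (nat_lit 1) (nat_lit 24) (nat_lit 1) (nat_lit 3) .nil)))))) (.nd (.nd .leaf (nat_lit 9216) (nat_lit 15) (.p (nat_lit 19) (nat_lit 1) .z) .df .leaf) (nat_lit 9217) (nat_lit 18) (.p (nat_lit 22) (nat_lit 1) .z) .df (.nd .leaf (nat_lit 9219) (nat_lit 23) (.p (nat_lit 27) (nat_lit 1) .z) .df .leaf))) (nat_lit 9220) (nat_lit 39) (.p (nat_lit 30) (nat_lit 1) (.p (nat_lit 34) (nat_lit 1) (.n (nat_lit 36) (nat_lit 1) (.n (nat_lit 38) (nat_lit 1) .z)))) (.ct dF7_c4369 (nat_lit 1) (nat_lit 2) (.s true (nat_lit 1) (nat_lit 3) (nat_lit 0) (nat_lit 2) (nat_lit 1) true (nat_lit 2) true (nat_lit 5) true (nat_lit 3) true (nat_lit 6) true (nat_lit 4) (.e true (nat_lit 1) (nat_lit 18) (nat_lit 1)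 (nat_lit 5) (.e false (nat_lit 1) (nat_lit 12) (nat_lit 3) (nat_lit 3) (.e true (nat_lit 1) (nat_lit 20) (nat_lit 0) (nat_lit 6) (.e false (nat_lit 1) (nat_lit 16) (nat_lit 2) (nat_lit 4) .nil)))))) (.nd (.nd (.nd .leaf (nat_lit 9223) (nat_lit 55) (.n (nat_lit 45) (nat_lit 1) (.n (nat_lit 46) (nat_lit 1) (.p (nat_lit 49) (nat_lit 1) (.n (nat_lit 50) (nat_lit 1) .z)))) (.ct dF7_c4114 (nat_lit 1) (nat_lit 0) (.s true (nat_lit 1) (nat_lit 3) (nat_lit 0) (nat_lit 2) (nat_lit 3) true (nat_lit 0) true (nat_lit 2) true (nat_lit 2) true (nat_lit 4) true (nat_lit 3) (.e true (nat_lit 1) (nat_lit 18) (nat_lit 3) (nat_lit 2) (.e true (nat_lit 1) (nat_lit 17) (nat_lit 3) (nat_lit 2) (.e true (nat_lit 1) (nat_lit 27) (nat_lit 0) (nat_lit 4) (.e false (nat_lit 1) (nat_lit 24) (nat_lit 2) (nat_lit 3) .nil)))))) .leaf) (nat_lit 9224) (nat_lit 64) (.n (nat_lit 51) (nat_lit 1) (.n (nat_lit 52) (nat_lit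 1) (.p (nat_lit 55) (nat_lit 1) (.n (nat_lit 56) (nat_lit 1) .z)))) (.ct dF7_c274 (nat_lit 1) (nat_lit 0) (.s true (nat_lit 1) (nat_lit 3) (nat_lit 1) (nat_lit 2) (nat_lit 3) true (nat_lit 0) true (nat_lit 2) true (nat_lit 2) true (nat_lit 4) true (nat_lit 3) (.e true (nat_lit 1) (nat_lit 21) (nat_lit 3) (nat_lit 2) (.e true (nat_lit 1) (nat_lit 20) (nat_lit 3) (nat_lit 2) (.e true (nat_lit 1) (nat_lit 27) (nat_lit 1) (nat_lit 4) (.e false (nat_lit 1) (nat_lit 26) (nat_lit 2) (nat_lit 3) .nil)))))) (.nd .leaf (nat_lit 10240) (nat_lit 20) (.p (nat_lit 24) (nat_lit 1) .z) .df .leaf)) (nat_lit 10241) (nat_lit 22) (.p (nat_lit 26) (nat_lit 1) .z) .df (.nd (.nd .leaf (nat_lit 10242) (nat_lit 24) (.p (nat_lit 28) (nat_lit 1) .z) .df .leaf) (nat_lit 10244) (nat_lit 48) (.n (nat_lit 40) (nat_lit 1) (.p (nat_lit 41) (nat_lit 1) (.n (nat_lit 42) (nat_lit 1) (.p (nat_lit 44) (nat_lit 1) .z))))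 (.ct dF7_c4354 (nat_lit 1) (nat_lit 1) (.s true (nat_lit 1) (nat_lit 3) (nat_lit 0) (nat_lit 3) (nat_lit 1) true (nat_lit 1) true (nat_lit 3) true (nat_lit 2) true (nat_lit 4) true (nat_lit 2) (.e true (nat_lit 1) (nat_lit 23) (nat_lit 1) (nat_lit 3) (.e true (nat_lit 1) (nat_lit 15) (nat_lit 3) (nat_lit 2) (.e false (nat_lit 1) (nat_lit 25) (nat_lit 0) (nat_lit 4) (.e false (nat_lit 1) (nat_lit 16) (nat_lit 3) (nat_lit 2) .nil)))))) (.nd .leaf (nat_lit 10245) (nat_lit 57) (.n (nat_lit 46) (nat_lit 1) (.p (nat_lit 47) (nat_lit 1) (.n (nat_lit 48) (nat_lit 1) (.p (nat_lit 50) (nat_lit 1) .z)))) (.ct dF7_c4114 (nat_lit 1) (nat_lit 1) (.s true (nat_lit 1) (nat_lit 3) (nat_lit 0) (nat_lit 3) (nat_lit 2) true (nat_lit 1) true (nat_lit 3) true (nat_lit 2) true (nat_lit 4) true (nat_lit 2) (.e true (nat_lit 1) (nat_lit 23) (nat_lit 2) (nat_lit 3) (.e true (nat_lit 1) (nat_lit 18) (nat_lit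 3) (nat_lit 2) (.e false (nat_lit 1) (nat_lit 27) (nat_lit 0) (nat_lit 4) (.e false (nat_lit 1) (nat_lit 19) (nat_lit 3) (nat_lit 2) .nil)))))) .leaf))))) (nat_lit 10246) (nat_lit 66) (.n (nat_lit 52) (nat_lit 1) (.p (nat_lit 53) (nat_lit 1) (.n (nat_lit 54) (nat_lit 1) (.p (nat_lit 56) (nat_lit 1) .z)))) (.ct dF7_c274 (nat_lit 1) (nat_lit 1) (.s true (nat_lit 1) (nat_lit 3) (nat_lit 1) (nat_lit 3) (nat_lit 2) true (nat_lit 1) true (nat_lit 3) true (nat_lit 2) true (nat_lit 4) true (nat_lit 2) (.e true (nat_lit 1) (nat_lit 25) (nat_lit 2) (nat_lit 3) (.e true (nat_lit 1) (nat_lit 21) (nat_lit 3) (nat_lit 2) (.e false (nat_lit 1) (nat_lit 27) (nat_lit 1) (nat_lit 4) (.e false (nat_lit 1) (nat_lit 22) (nat_lit 3) (nat_lit 2) .nil)))))) (.nd (.nd (.nd (.nd (.nd (.nd .leaf (nat_lit 11267) (nat_lit 25) (.p (nat_lit 29) (nat_lit 1) .z) .df .leaf) (nat_lit 12291) (nat_lit 26) (.p (nat_lit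 30) (nat_lit 1) .z) .df .leaf) (nat_lit 13315) (nat_lit 27) (.p (nat_lit 31) (nat_lit 1) .z) .df (.nd .leaf (nat_lit 14338) (nat_lit 28) (.p (nat_lit 32) (nat_lit 1) .z) .df .leaf)) (nat_lit 14339) (nat_lit 40) (.p (nat_lit 39) (nat_lit 1) .z) .df (.nd (.nd .leaf (nat_lit 15362) (nat_lit 29) (.p (nat_lit 33) (nat_lit 1) .z) .df .leaf) (nat_lit 15363) (nat_lit 41) (.p (nat_lit 40) (nat_lit 1) .z) .df (.nd .leaf (nat_lit 16386) (nat_lit 30) (.p (nat_lit 34) (nat_lit 1) .z) .df .leaf))) (nat_lit 16387) (nat_lit 42) (.p (nat_lit 41) (nat_lit 1) .z) .df (.nd (.nd (.nd .leaf (nat_lit 17409) (nat_lit 31) (.p (nat_lit 35) (nat_lit 1) .z) .df .leaf) (nat_lit 17411) (nat_lit 49) (.p (nat_lit 45) (nat_lit 1) .z) .df (.nd .leaf (nat_lit 18433) (nat_lit 32) (.p (nat_lit 36) (nat_lit 1) .z) .df .leaf)) (nat_lit 18435) (nat_lit 50) (.p (nat_lit 46) (nat_lit 1) .z) .df (.nd (.nd .leaf (nat_lit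 19457) (nat_lit 33) (.p (nat_lit 37) (nat_lit 1) .z) .df .leaf) (nat_lit 19459) (nat_lit 51) (.p (nat_lit 47) (nat_lit 1) .z) .df (.nd .leaf (nat_lit 20480) (nat_lit 34) (.p (nat_lit 38) (nat_lit 1) .z) .df .leaf)))) (nat_lit 20483) (nat_lit 58) (.p (nat_lit 51) (nat_lit 1) .z) .df (.nd (.nd (.nd (.nd (.nd .leaf (nat_lit 21504) (nat_lit 35) (.p (nat_lit 30) (nat_lit 1) (.p (nat_lit 31) (nat_lit 1) (.p (nat_lit 33) (nat_lit 1) (.p (nat_lit 34) (nat_lit 1) (.n (nat_lit 35) (nat_lit 1) (.n (nat_lit 36) (nat_lit 1) (.n (nat_lit 38) (nat_lit 1) .z))))))) (.ct dF7_c4369 (nat_lit 1) (nat_lit 6) (.s true (nat_lit 1) (nat_lit 3) (nat_lit 0) (nat_lit 2) (nat_lit 1) true (nat_lit 2) true (nat_lit 5) true (nat_lit 3) true (nat_lit 6) true (nat_lit 4) (.s true (nat_lit 1) (nat_lit 3) (nat_lit 1) (nat_lit 2) (nat_lit 0) true (nat_lit 2) true (nat_lit 6) true (nat_lit 3) true (nat_lit 5) true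 (nat_lit 4) (.e true (nat_lit 1) (nat_lit 18) (nat_lit 1) (nat_lit 5) (.e false (nat_lit 1) (nat_lit 12) (nat_lit 3) (nat_lit 3) (.e true (nat_lit 1) (nat_lit 20) (nat_lit 0) (nat_lit 6) (.e false (nat_lit 1) (nat_lit 16) (nat_lit 2) (nat_lit 4) (.e false (nat_lit 1) (nat_lit 13) (nat_lit 3) (nat_lit 3) (.e true (nat_lit 1) (nat_lit 17) (nat_lit 1) (nat_lit 5) (.e false (nat_lit 1) (nat_lit 15) (nat_lit 2) (nat_lit 4) .nil)))))))))) .leaf) (nat_lit 21507) (nat_lit 59) (.p (nat_lit 52) (nat_lit 1) .z) .df .leaf) (nat_lit 22528) (nat_lit 36) (.p (nat_lit 29) (nat_lit 1) (.n (nat_lit 31) (nat_lit 1) (.n (nat_lit 32) (nat_lit 1) (.n (nat_lit 33) (nat_lit 1) (.p (nat_lit 36) (nat_lit 1) (.p (nat_lit 37) (nat_lit 1) (.p (nat_lit 38) (nat_lit 1) .z))))))) (.ct dF7_c4369 (nat_lit 1) (nat_lit 6) (.s false (nat_lit 1) (nat_lit 3) (nat_lit 1) (nat_lit 0) (nat_lit 2) true (nat_lit 0) true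 (nat_lit 4) true (nat_lit 3) true (nat_lit 5) true (nat_lit 6) (.s false (nat_lit 1) (nat_lit 3) (nat_lit 2) (nat_lit 0) (nat_lit 1) true (nat_lit 0) true (nat_lit 5) true (nat_lit 3) true (nat_lit 4) true (nat_lit 6) (.e false (nat_lit 1) (nat_lit 16) (nat_lit 2) (nat_lit 4) (.e false (nat_lit 1) (nat_lit 11) (nat_lit 3) (nat_lit 3) (.e true (nat_lit 1) (nat_lit 17) (nat_lit 1) (nat_lit 5) (.e false (nat_lit 1) (nat_lit 19) (nat_lit 1) (nat_lit 5) (.e false (nat_lit 1) (nat_lit 12) (nat_lit 3) (nat_lit 3) (.e true (nat_lit 1) (nat_lit 14) (nat_lit 2) (nat_lit 4) (.e true (nat_lit 1) (nat_lit 21) (nat_lit 0) (nat_lit 6) .nil)))))))))) (.nd .leaf (nat_lit 22531) (nat_lit 60) (.p (nat_lit 53) (nat_lit 1) .z) .df .leaf)) (nat_lit 23553) (nat_lit 43) (.p (nat_lit 42) (nat_lit 1) .z) .df (.nd (.nd .leaf (nat_lit 23554) (nat_lit 52) (.p (nat_lit 48) (nat_lit 1) .z) .df .leaf) (nat_lit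 24577) (nat_lit 44) (.p (nat_lit 43) (nat_lit 1) .z) .df (.nd .leaf (nat_lit 24578) (nat_lit 53) (.p (nat_lit 49) (nat_lit 1) .z) .df .leaf))) (nat_lit 25600) (nat_lit 45) (.p (nat_lit 44) (nat_lit 1) .z) .df (.nd (.nd (.nd .leaf (nat_lit 25602) (nat_lit 61) (.p (nat_lit 54) (nat_lit 1) .z) .df .leaf) (nat_lit 26624) (nat_lit 47) (.n (nat_lit 39) (nat_lit 2) (.n (nat_lit 40) (nat_lit 1) (.p (nat_lit 41) (nat_lit 1) (.p (nat_lit 42) (nat_lit 1) (.p (nat_lit 43) (nat_lit 1) (.n (nat_lit 44) (nat_lit 1) .z)))))) (.ct dF7_c4354 (nat_lit 1) (nat_lit 4) (.s false (nat_lit 1) (nat_lit 3) (nat_lit 1) (nat_lit 0) (nat_lit 3) false (nat_lit 0) true (nat_lit 2) true (nat_lit 2) true (nat_lit 3) true (nat_lit 4) (.e false (nat_lit 1) (nat_lit 8) (nat_lit 7) (nat_lit 0) (.e false (nat_lit 1) (nat_lit 16) (nat_lit 3) (nat_lit 2) (.e true (nat_lit 1) (nat_lit 14) (nat_lit 3) (nat_lit 2) (.e false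 (nat_lit 1) (nat_lit 23) (nat_lit 1) (nat_lit 3) .nil)))))) (.nd .leaf (nat_lit 26626) (nat_lit 62) (.p (nat_lit 55) (nat_lit 1) .z) .df .leaf)) (nat_lit 27648) (nat_lit 54) (.p (nat_lit 50) (nat_lit 1) .z) .df (.nd (.nd .leaf (nat_lit 27649) (nat_lit 63) (.p (nat_lit 56) (nat_lit 1) .z) .df .leaf) (nat_lit 28672) (nat_lit 56) (.n (nat_lit 45) (nat_lit 2) (.n (nat_lit 46) (nat_lit 1) (.p (nat_lit 47) (nat_lit 1) (.p (nat_lit 48) (nat_lit 1) (.p (nat_lit 49) (nat_lit 1) (.n (nat_lit 50) (nat_lit 1) .z)))))) (.ct dF7_c4114 (nat_lit 1) (nat_lit 4) (.s false (nat_lit 1) (nat_lit 3) (nat_lit 2) (nat_lit 0) (nat_lit 3) false (nat_lit 0) true (nat_lit 2) true (nat_lit 2) true (nat_lit 3) true (nat_lit 4) (.e false (nat_lit 1) (nat_lit 9) (nat_lit 7) (nat_lit 0) (.e false (nat_lit 1) (nat_lit 19) (nat_lit 3) (nat_lit 2) (.e true (nat_lit 1) (nat_lit 17) (nat_lit 3) (nat_lit 2) (.e false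 (nat_lit 1) (nat_lit 23) (nat_lit 2) (nat_lit 3) .nil)))))) (.nd .leaf (nat_lit 28673) (nat_lit 65) (.n (nat_lit 51) (nat_lit 2) (.n (nat_lit 52) (nat_lit 1) (.p (nat_lit 53) (nat_lit 1) (.p (nat_lit 54) (nat_lit 1) (.p (nat_lit 55) (nat_lit 1) (.n (nat_lit 56) (nat_lit 1) .z)))))) (.ct dF7_c274 (nat_lit 1) (nat_lit 4) (.s false (nat_lit 1) (nat_lit 3) (nat_lit 2) (nat_lit 1) (nat_lit 3) false (nat_lit 0) true (nat_lit 2) true (nat_lit 2) true (nat_lit 3) true (nat_lit 4) (.e false (nat_lit 1) (nat_lit 9) (nat_lit 8) (nat_lit 0) (.e false (nat_lit 1) (nat_lit 22) (nat_lit 3) (nat_lit 2) (.e true (nat_lit 1) (nat_lit 20) (nat_lit 3) (nat_lit 2) (.e false (nat_lit 1) (nat_lit 25) (nat_lit 2) (nat_lit 3) .nil)))))) .leaf))))))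

noncomputable def dF7_cl : CL := (.c (nat_lit 4096) (nat_lit 0) (nat_lit 1) (.c (nat_lit 256) (nat_lit 1) (nat_lit 1) (.c (nat_lit 16) (nat_lit 2) (nat_lit 1) (.c (nat_lit 1) (nat_lit 3) (nat_lit 1) (.c (nat_lit 4352) (nat_lit 4) (nat_lit 1) (.c (nat_lit 4112) (nat_lit 5) (nat_lit 1) (.c (nat_lit 272) (nat_lit 6) (nat_lit 1) (.c (nat_lit 4097) (nat_lit 7) (nat_lit 1) (.c (nat_lit 257) (nat_lit 8) (nat_lit 1) (.c (nat_lit 17) (nat_lit 9) (nat_lit 1) (.c (nat_lit 2) (nat_lit 10) (nat_lit 1) (.c (nat_lit 4368) (nat_lit 11) (nat_lit 3) (.c (nat_lit 4353) (nat_lit 14) (nat_lit 3) (.c (nat_lit 4113) (nat_lit 17) (nat_lit 3) (.c (nat_lit 273) (nat_lit 20) (nat_lit 3) (.c (nat_lit 4098) (nat_lit 23) (nat_lit 2) (.c (nat_lit 258) (nat_lit 25) (nat_lit 2) (.c (nat_lit 18) (nat_lit 27) (nat_lit 2) (.c (nat_lit 4369) (nat_lit 29) (nat_lit 10) (.c (nat_lit 4354) (nat_lit 39) (nat_lit 6) (.c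 (nat_lit 4114) (nat_lit 45) (nat_lit 6) (.c (nat_lit 274) (nat_lit 51) (nat_lit 6) .nil))))))))))))))))))))))

noncomputable def dF7_D : Dt := ⟨(nat_lit 4294967296), (nat_lit 2147483648), (nat_lit 1), (nat_lit 57), (nat_lit 21233599494331137830825965826092941663705048324117180730595795922978228581112667479119502470313786578488766732968138617088580341673774461963280343865209003999040919315724899760616322763083842089458143400027133486496544662103614676120592801137245877377912219675505611694042358287856892139765196839160108252529713889553849080586823015335419177376376086520933507123130843810049330477301938921325720966630526156807), (nat_lit 549227316104), dF7_t0, dF7_cl⟩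

noncomputable def dF7_gs : BL := (.c (nat_lit 11) (nat_lit 3) (nat_lit 10) (nat_lit 1) (nat_lit 0) (.c (nat_lit 14) (nat_lit 3) (nat_lit 9) (nat_lit 1) (nat_lit 3) (.c (nat_lit 17) (nat_lit 3) (nat_lit 8) (nat_lit 1) (nat_lit 6) (.c (nat_lit 20) (nat_lit 3) (nat_lit 7) (nat_lit 1) (nat_lit 9) (.c (nat_lit 23) (nat_lit 2) (nat_lit 6) (nat_lit 1) (nat_lit 12) (.c (nat_lit 25) (nat_lit 2) (nat_lit 5) (nat_lit 1) (nat_lit 14) (.c (nat_lit 27) (nat_lit 2) (nat_lit 4) (nat_lit 1) (nat_lit 16) (.c (nat_lit 29) (nat_lit 10) (nat_lit 3) (nat_lit 1) (nat_lit 18) (.c (nat_lit 39) (nat_lit 6) (nat_lit 2) (nat_lit 1) (nat_lit 28) (.c (nat_lit 45) (nat_lit 6) (nat_lit 1) (nat_lit 1) (nat_lit 34) (.c (nat_lit 51) (nat_lit 6) (nat_lit 0) (nat_lit 1) (nat_lit 40) .nil)))))))))))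

noncomputable def dF7_il : IL := (.s true (nat_lit 8) (nat_lit 4) (nat_lit 2) (nat_lit 3) (nat_lit 3) true (nat_lit 1) true (nat_lit 7) true (nat_lit 6) true (nat_lit 8) true (nat_lit 7) (.s false (nat_lit 12) (nat_lit 4) (nat_lit 3) (nat_lit 2) (nat_lit 3) true (nat_lit 0) true (nat_lit 7) true (nat_lit 6) true (nat_lit 7) true (nat_lit 8) (.s true (nat_lit 12) (nat_lit 4) (nat_lit 3) (nat_lit 3) (nat_lit 2) true (nat_lit 1) true (nat_lit 8) true (nat_lit 6) true (nat_lit 7) true (nat_lit 7) (.s true (nat_lit 34) (nat_lit 5) (nat_lit 1) (nat_lit 3) (nat_lit 3) true (nat_lit 2) true (nat_lit 7) true (nat_lit 5) true (nat_lit 9) true (nat_lit 7) (.s false (nat_lit 38) (nat_lit 5) (nat_lit 3) (nat_lit 1) (nat_lit 3) true (nat_lit 0) true (nat_lit 7) true (nat_lit 5) true (nat_lit 7) true (nat_lit 9) (.s false (nat_lit 10) (nat_lit 5) (nat_lit 3) (nat_lit 3) (nat_lit 1) true (nat_lit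 2) true (nat_lit 9) true (nat_lit 5) true (nat_lit 7) true (nat_lit 7) (.s false (nat_lit 74) (nat_lit 6) (nat_lit 0) (nat_lit 3) (nat_lit 3) true (nat_lit 3) true (nat_lit 7) true (nat_lit 4) true (nat_lit 10) true (nat_lit 7) (.s false (nat_lit 34) (nat_lit 6) (nat_lit 3) (nat_lit 0) (nat_lit 3) true (nat_lit 0) true (nat_lit 7) true (nat_lit 4) true (nat_lit 7) true (nat_lit 10) (.s false (nat_lit 10) (nat_lit 6) (nat_lit 3) (nat_lit 3) (nat_lit 0) true (nat_lit 3) true (nat_lit 10) true (nat_lit 4) true (nat_lit 7) true (nat_lit 7) (.s false (nat_lit 12) (nat_lit 7) (nat_lit 1) (nat_lit 2) (nat_lit 3) true (nat_lit 2) true (nat_lit 7) true (nat_lit 3) true (nat_lit 9) true (nat_lit 8) (.s true (nat_lit 4) (nat_lit 7) (nat_lit 1) (nat_lit 3) (nat_lit 2) true (nat_lit 4) true (nat_lit 8) true (nat_lit 3) true (nat_lit 9) true (nat_lit 7) (.s false (nat_lit 92) (nat_lit 7) (nat_lit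 2) (nat_lit 1) (nat_lit 3) true (nat_lit 1) true (nat_lit 7) true (nat_lit 3) true (nat_lit 8) true (nat_lit 9) (.s false (nat_lit 4) (nat_lit 7) (nat_lit 2) (nat_lit 3) (nat_lit 1) true (nat_lit 4) true (nat_lit 9) true (nat_lit 3) true (nat_lit 8) true (nat_lit 7) (.s false (nat_lit 92) (nat_lit 8) (nat_lit 2) (nat_lit 3) (nat_lit 0) true (nat_lit 5) true (nat_lit 10) true (nat_lit 2) true (nat_lit 8) true (nat_lit 7) (.s true (nat_lit 12) (nat_lit 8) (nat_lit 3) (nat_lit 0) (nat_lit 2) true (nat_lit 1) true (nat_lit 8) true (nat_lit 2) true (nat_lit 7) true (nat_lit 10) (.s true (nat_lit 4) (nat_lit 9) (nat_lit 0) (nat_lit 3) (nat_lit 1) true (nat_lit 6) true (nat_lit 9) true (nat_lit 1) true (nat_lit 10) true (nat_lit 7) (.s true (nat_lit 24) (nat_lit 9) (nat_lit 1) (nat_lit 0) (nat_lit 3) true (nat_lit 2) true (nat_lit 7) true (nat_lit 1) true (nat_lit 9) true (nat_lit 10)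 (.s true (nat_lit 8) (nat_lit 9) (nat_lit 1) (nat_lit 3) (nat_lit 0) true (nat_lit 6) true (nat_lit 10) true (nat_lit 1) true (nat_lit 9) true (nat_lit 7) (.s false (nat_lit 92) (nat_lit 9) (nat_lit 3) (nat_lit 0) (nat_lit 1) true (nat_lit 2) true (nat_lit 9) true (nat_lit 1) true (nat_lit 7) true (nat_lit 10) (.s false (nat_lit 14) (nat_lit 10) (nat_lit 1) (nat_lit 0) (nat_lit 2) true (nat_lit 4) true (nat_lit 8) true (nat_lit 0) true (nat_lit 9) true (nat_lit 10) .nil))))))))))))))))))))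

theorem dF7_chk : chk idsM dF7_D par1 (cls1 2) F7Ex (.c (nat_lit 3) (nat_lit 1) (.c (nat_lit 3) (nat_lit 1) (.c (nat_lit 2) (nat_lit 16) (.c (nat_lit 1) (nat_lit 256) (.c (nat_lit 0) (nat_lit 4096) .nil))))) (nat_lit 67) (nat_lit 4370) (nat_lit 1) dF7_gs dF7_il = true := by
  decide +kernel

end Chk

/-- certificate of `F7Ex` -/
theorem cert_F7Ex : Cert.{u} idsM par1 (cls1 2) F7Ex :=
  Chk.chk_sound _ (by simp [idsM]) (by simp [idsM]) _ _ _ _ _ _ _ _ _ _ Chk.dF7_chk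

end Pool.Agent.Malc
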