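import Pool.Agent.Malc.Der

/-! # Characteristic subspaces of the free Malcev algebra -/

set_option autoImplicit false

namespace Pool.Agent.Malc

universe u v

variable {F : Type u} [Field F] [CharZero F]

namespace CharIAux

omit [CharZero F] in
open Classical in
/-- the Euler derivation of the letter `i` -/
theorem exists_euler (i : ℕ) : ∃ D : FreeMalcev F ℕ →ₗ[F] FreeMalcev F ℕ, IsDer D ∧
    ∀ (m : Multiset ℕ) (p : FreeMalcev F ℕ), p ∈ GM F m → D p = (m.count i : F) • p := by
  obtain ⟨D, hD, h⟩ := exists_der (F := F)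
    (fun j : ℕ => if j = i then (FreeMalcev.of i : FreeMalcev F ℕ) else 0)
  refine ⟨D, hD, fun m p hp => der_count D hD i ?_ ?_ hp⟩
  · rw [h, if_pos rfl]
  · intro j hj
    rw [h, if_neg hj]

theorem family {I : Submodule F (FreeMalcev F ℕ)} (hc : IsChar I) (n : ℕ) :
    ∀ (s : Finset (Multiset ℕ)) (q : Multiset ℕ → FreeMalcev F ℕ), s.card = n →
      (∀ m ∈ s, q m ∈ GM F m) → ∑ m ∈ s, q m ∈ I → ∀ m ∈ s, q m ∈ I := by
  classical
  induction n with
  | zero =>
    intro s q hs _ _ m hm
    rw [Finset.card_eq_zero] at hs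
    rw [hs] at hm
    exact absurd hm (Finset.notMem_empty m)
  | succ n ih =>
    intro s q hs hq hI m0 hm0
    by_cases h : ∃ m' ∈ s, m' ≠ m0
    · obtain ⟨m', hm', hne⟩ := h
      obtain ⟨i, hi⟩ : ∃ i, m'.count i ≠ m0.count i := by
        by_contra hcon
        push Not at hcon
        exact hne (Multiset.ext.mpr hcon)
      obtain ⟨D, hD, hDp⟩ := exists_euler (F := F) i
      have h1 : D (∑ m ∈ s, q m) - (m'.count i : F) • ∑ m ∈ s, q m ∈ I :=
        I.sub_mem (hc D hD _ hI) (I.smul_mem _ hI)
      have h2 : D (∑ m ∈ s, q m) - (m'.count i : F) • ∑ m ∈ s, q m =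
          ∑ m ∈ s.erase m', ((m.count i : F) - (m'.count i : F)) • q m := by
        rw [map_sum, Finset.smul_sum, ← Finset.sum_sub_distrib, ← Finset.sum_erase_add s _ hm',
          hDp m' _ (hq m' hm'), sub_self, add_zero]
        refine Finset.sum_congr rfl fun m hm => ?_
        rw [hDp m _ (hq m (Finset.mem_of_mem_erase hm)), sub_smul]
      rw [h2] at h1
      have h3 := ih (s.erase m') (fun m => ((m.count i : F) - (m'.count i : F)) • q m)
        (by rw [Finset.card_erase_of_mem hm', hs]; rfl)
        (fun m hm => (GM F m).smul_mem _ (hq m (Finset.mem_of_mem_erase hm))) h1 m0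
        (Finset.mem_erase.mpr ⟨hne.symm, hm0⟩)
      have h4 : (m0.count i : F) - (m'.count i : F) ≠ 0 := by
        rw [sub_ne_zero]
        intro h5
        exact hi (Nat.cast_injective h5).symm
      have h6 := I.smul_mem ((m0.count i : F) - (m'.count i : F))⁻¹ h3
      simpa only [smul_smul, inv_mul_cancel₀ h4, one_smul] using h6
    · push Not at h
      have h1 : s = {m0} := by
        refine Finset.eq_singleton_iff_unique_mem.mpr ⟨hm0, h⟩
      rw [h1, Finset.sum_singleton] at hI
      exact hI

end CharIAux

open CharIAux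

theorem char_comp {I : Submodule F (FreeMalcev F ℕ)} (hc : IsChar I) {p : FreeMalcev F ℕ}
    (hp : p ∈ I) (m : Multiset ℕ) : piM F m p ∈ I := by
  classical
  obtain ⟨s, hs⟩ := sum_piM p
  by_cases hm : m ∈ s
  · exact family hc s.card s (fun m => piM F m p) rfl (fun m _ => piM_mem m p)
      (by rw [← hs]; exact hp) m hm
  · have h : piM F m p = 0 := by
      conv_lhs => rw [hs]
      rw [map_sum]
      refine Finset.sum_eq_zero fun k hk => ?_
      rw [piM_of_mem (piM_mem k p), if_neg]
      rintro rfl
      exact hm hk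
    rw [h]
    exact I.zero_mem

namespace CharIAux

omit [CharZero F] in
theorem ev_update_zero {L : Finset ℕ} {p : FA F} (hp : p ∈ Hg F L.val) {i : ℕ} (hi : i ∈ L)
    (x : ℕ → FreeMalcev F ℕ) : ev (Function.update x i 0) p = 0 := by
  have h := ev_update_smul hp hi x (0 : F) (0 : FreeMalcev F ℕ)
  rwa [zero_smul, zero_smul] at h

omit [CharZero F] in
theorem subst_aux {I : Submodule F (FreeMalcev F ℕ)} (hc : IsChar I) {L : Finset ℕ} {p : FA F}
    (hp : p ∈ Hg F L.val) (hI : FreeMalcev.mk p ∈ I) (y : ℕ → FreeMalcev F ℕ)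
    (hy : ∀ l ∈ L, ∀ D : FreeMalcev F ℕ →ₗ[F] FreeMalcev F ℕ, IsDer D →
      (∀ k, k ≠ l → D (FreeMalcev.of k) = 0) → ∀ i ∈ L, D (y i) = 0) : ev y p ∈ I := by
  classical
  have key : ∀ A : Finset ℕ, A ⊆ L →
      ev (fun i => if i ∈ A then y i else FreeMalcev.of i) p ∈ I := by
    intro A
    induction A using Finset.induction_on with
    | empty =>
      intro _
      have h : (fun i => if i ∈ (∅ : Finset ℕ) then y i else FreeMalcev.of i) =
          fun i => (FreeMalcev.of i : FreeMalcev F ℕ) := by
        funext i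
        rw [if_neg (Finset.notMem_empty i)]
      rw [h, ← mk_eq_ev]
      exact hI
    | insert l A hl ih =>
      intro hA
      have hlL : l ∈ L := hA (Finset.mem_insert_self l A)
      have hAL : A ⊆ L := (Finset.subset_insert l A).trans hA
      obtain ⟨D, hD, hof⟩ := exists_der (F := F)
        (fun j : ℕ => if j = l then y l else (0 : FreeMalcev F ℕ))
      have h1 := hc D hD _ (ih hAL)
      rw [der_ev D hD hp, Finset.sum_eq_single l] at h1
      · have h2 : Function.update (fun i => if i ∈ A then y i else FreeMalcev.of i) l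
            (D (if l ∈ A then y l else FreeMalcev.of l)) =
            fun i => if i ∈ insert l A then y i else (FreeMalcev.of i : FreeMalcev F ℕ) := by
          funext i
          by_cases hi : i = l
          · subst hi
            rw [Function.update_self, if_neg hl, if_pos (Finset.mem_insert_self i A), hof,
              if_pos rfl]
          · rw [Function.update_of_ne hi]
            by_cases hiA : i ∈ A
            · rw [if_pos hiA, if_pos (Finset.mem_insert_of_mem hiA)]
            · rw [if_neg hiA, if_neg]
              simp [hi, hiA]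
        rw [h2] at h1
        exact h1
      · intro i hi hil
        have h3 : D (if i ∈ A then y i else FreeMalcev.of i) = 0 := by
          by_cases hiA : i ∈ A
          · rw [if_pos hiA]
            refine hy l hlL D hD ?_ i hi
            intro k hk
            rw [hof, if_neg hk]
          · rw [if_neg hiA, hof, if_neg hil]
        rw [h3]
        exact ev_update_zero hp hi _
      · intro h
        exact absurd hlL h
  have h := key L (Finset.Subset.refl L)
  rwa [ev_congr hp _ y] at h
  intro i hi
  exact if_pos hi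

end CharIAux

/-- closure under substitutions of multilinear elements -/
theorem char_subst {I : Submodule F (FreeMalcev F ℕ)} (hc : IsChar I) {L : Finset ℕ} {p : FA F}
    (hp : p ∈ Hg F L.val) (hI : FreeMalcev.mk p ∈ I) (y : ℕ → FreeMalcev F ℕ) : ev y p ∈ I := by
  classical
  choose N hN _ using fun i => exists_bound (y i)
  obtain ⟨M, hM1, hM2⟩ : ∃ M : ℕ, (∀ i ∈ L, N i ≤ M) ∧ ∀ i ∈ L, i < M := by
    refine ⟨(L.sup N) + (L.sup id + 1), fun i hi => ?_, fun i hi => ?_⟩
    · exact (Finset.le_sup hi).trans (Nat.le_add_right _ _)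
    · have : i ≤ L.sup id := Finset.le_sup (f := id) hi
      omega
  -- first step: fresh letters
  have h1 : ev (fun i => (FreeMalcev.of (i + M) : FreeMalcev F ℕ)) p ∈ I := by
    refine subst_aux hc hp hI _ ?_
    intro l hl D _ hD i _
    refine hD _ ?_
    have := hM2 l hl
    omega
  set p' : FA F := ev (fun i => (wd (FreeMagma.of (i + M)) : FA F)) p with hp'
  let e : ℕ ↪ ℕ := ⟨fun i => i + M, fun a b h => Nat.add_right_cancel h⟩
  have h2 : p' ∈ Hg F (L.map e).val := by
    have h := ev_word_mem hp (fun i => FreeMagma.of (i + M))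
    have h3 : (L.val.bind fun i => content (FreeMagma.of (i + M))) = (L.map e).val := by
      rw [Finset.map_val]
      exact Multiset.bind_singleton L.val (fun i => i + M)
    rw [h3] at h
    exact h
  have h4 : FreeMalcev.mk p' ∈ I := by
    rw [mk_eq_ev, hp', ev_ev]
    have h5 : (fun i => ev (fun i => (FreeMalcev.of i : FreeMalcev F ℕ))
        (wd (FreeMagma.of (i + M)) : FA F)) = fun i => (FreeMalcev.of (i + M) : FreeMalcev F ℕ) := by
      funext i
      rw [ev_wd]
      rfl
    rw [h5]
    exact h1
  have h6 : ev (fun k => y (k - M)) p' ∈ I := by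
    refine subst_aux hc h2 h4 _ ?_
    intro l hl D hDer hD i hi
    obtain ⟨l0, _, rfl⟩ := Finset.mem_map.mp hl
    obtain ⟨i0, hi0, rfl⟩ := Finset.mem_map.mp hi
    have h7 : e i0 - M = i0 := Nat.add_sub_cancel i0 M
    show D (y (e i0 - M)) = 0
    rw [h7]
    refine hN i0 D hDer fun j hj => hD j ?_
    have h8 := hM1 i0 hi0
    have h9 : e l0 = l0 + M := rfl
    rw [h9]
    omega
  rw [hp', ev_ev] at h6
  have h10 : (fun i => ev (fun k => y (k - M)) (wd (FreeMagma.of (i + M)) : FA F)) = y := by
    funext i
    rw [ev_wd]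
    show y (i + M - M) = y i
    rw [Nat.add_sub_cancel]
  rw [h10] at h6
  exact h6

end Pool.Agent.Malc
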