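import Pool.Agent.Malc.CheckDef

/-! # A checker for identities in superalgebras: packed vectors -/

set_option autoImplicit false

namespace Pool.Agent.Malc.Chk

universe u

open Finset

theorem bi_tt {α : Type} (t f : α) : bi true t f = t := rfl
theorem bi_ff {α : Type} (t f : α) : bi false t f = f := rfl

theorem bi_and {b t : Bool} (h : bi b t false = true) : b = true ∧ t = true := by
  cases b
  · exact absurd h Bool.false_ne_true
  · exact ⟨rfl, h⟩

section pack

variable {S : Type u} [AddCommGroup S]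

/-- value of a list of digits -/
def vs (β : ℕ) (e : ℕ → ℕ) (L : List (ℤ × ℕ)) : ℤ := (L.map fun t => t.1 * (β : ℤ) ^ e t.2).sum
def nb (L : List (ℤ × ℕ)) : ℕ := (L.map fun t => t.1.natAbs).sum
def vl (g : ℕ → S) (L : List (ℤ × ℕ)) : S := (L.map fun t => t.1 • g t.2).sum
def cf (L : List (ℤ × ℕ)) (i : ℕ) : ℤ := (L.map fun t => if t.2 = i then t.1 else 0).sum

theorem vs_cons (β : ℕ) (e : ℕ → ℕ) (t : ℤ × ℕ) (L : List (ℤ × ℕ)) :
    vs β e (t :: L) = t.1 * (β : ℤ) ^ e t.2 + vs β e L := by simp [vs]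
theorem nb_cons (t : ℤ × ℕ) (L : List (ℤ × ℕ)) : nb (t :: L) = t.1.natAbs + nb L := by simp [nb]
theorem vl_cons (g : ℕ → S) (t : ℤ × ℕ) (L : List (ℤ × ℕ)) :
    vl g (t :: L) = t.1 • g t.2 + vl g L := by simp [vl]
theorem cf_cons (t : ℤ × ℕ) (L : List (ℤ × ℕ)) (i : ℕ) :
    cf (t :: L) i = (if t.2 = i then t.1 else 0) + cf L i := by simp [cf]

theorem vs_append (β : ℕ) (e : ℕ → ℕ) (L M : List (ℤ × ℕ)) :
    vs β e (L ++ M) = vs β e L + vs β e M := by simp [vs]
theorem nb_append (L M : List (ℤ × ℕ)) : nb (L ++ M) = nb L + nb M := by simp [nb]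
theorem vl_append (g : ℕ → S) (L M : List (ℤ × ℕ)) : vl g (L ++ M) = vl g L + vl g M := by
  simp [vl]

theorem cf_le (L : List (ℤ × ℕ)) (i : ℕ) : (cf L i).natAbs ≤ nb L := by
  induction L with
  | nil => simp [cf, nb]
  | cons t L ih =>
    rw [cf_cons, nb_cons]
    refine (Int.natAbs_add_le _ _).trans (Nat.add_le_add ?_ ih)
    split_ifs
    · exact le_refl _
    · simp

theorem vs_eq (β o n : ℕ) (L : List (ℤ × ℕ)) (hL : ∀ t ∈ L, o ≤ t.2 ∧ t.2 < o + n) :
    vs β (fun k => k - o) L = ∑ i ∈ range n, cf L (o + i) * (β : ℤ) ^ i := by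
  induction L with
  | nil => simp [vs, cf]
  | cons t L ih =>
    rw [vs_cons, ih fun t ht => hL t (List.mem_cons_of_mem _ ht)]
    have h := hL t List.mem_cons_self
    simp only [cf_cons, add_mul, sum_add_distrib]
    congr 1
    rw [sum_eq_single (t.2 - o)]
    · rw [if_pos (by omega)]
    · intro i _ hi
      rw [if_neg (by omega), zero_mul]
    · intro hi
      exact absurd (mem_range.2 (by omega)) hi

theorem vl_eq (g : ℕ → S) (o n : ℕ) (L : List (ℤ × ℕ)) (hL : ∀ t ∈ L, o ≤ t.2 ∧ t.2 < o + n) :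
    vl g L = ∑ i ∈ range n, cf L (o + i) • g (o + i) := by
  induction L with
  | nil => simp [vl, cf]
  | cons t L ih =>
    rw [vl_cons, ih fun t ht => hL t (List.mem_cons_of_mem _ ht)]
    have h := hL t List.mem_cons_self
    simp only [cf_cons, add_smul, sum_add_distrib]
    congr 1
    rw [sum_eq_single (t.2 - o)]
    · rw [if_pos (by omega), show o + (t.2 - o) = t.2 by omega]
    · intro i _ hi
      rw [if_neg (by omega), zero_smul]
    · intro hi
      exact absurd (mem_range.2 (by omega)) hi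

theorem digits_zero (β n : ℕ) : ∀ f : ℕ → ℤ, (∀ i, (f i).natAbs < β) →
    ∑ i ∈ range n, f i * (β : ℤ) ^ i = 0 → ∀ i < n, f i = 0 := by
  induction n with
  | zero => intro f _ _ i hi; exact absurd hi (Nat.not_lt_zero i)
  | succ n ih =>
    intro f hf h
    rw [sum_range_succ'] at h
    have h1 : ∑ i ∈ range n, f (i + 1) * (β : ℤ) ^ (i + 1) =
        (β : ℤ) * ∑ i ∈ range n, f (i + 1) * (β : ℤ) ^ i := by
      rw [mul_sum]
      exact sum_congr rfl fun i _ => by ring
    rw [h1, pow_zero, mul_one] at h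
    have h0 : f 0 = 0 := by
      apply Int.eq_zero_of_abs_lt_dvd (m := (β : ℤ))
      · exact ⟨-∑ i ∈ range n, f (i + 1) * (β : ℤ) ^ i, by linarith⟩
      · have := hf 0
        rw [Int.abs_eq_natAbs]
        exact_mod_cast this
    rw [h0, add_zero] at h
    have hβ : (β : ℤ) ≠ 0 := by
      have := hf 0
      have : 0 < β := lt_of_le_of_lt (Nat.zero_le _) this
      exact_mod_cast this.ne'
    have h2 := (mul_eq_zero.1 h).resolve_left hβ
    intro i hi
    rcases i with _ | i
    · exact h0
    · exact ih (fun i => f (i + 1)) (fun i => hf (i + 1)) h2 i (by omega)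

theorem vl_zero (β : ℕ) (g : ℕ → S) (L : List (ℤ × ℕ)) (h : vs β id L = 0) (hb : nb L < β) :
    vl g L = 0 := by
  obtain ⟨n, hn⟩ : ∃ n, ∀ t ∈ L, t.2 < n := by
    clear h hb
    induction L with
    | nil => exact ⟨0, fun t ht => absurd ht (List.not_mem_nil)⟩
    | cons t L ih =>
      obtain ⟨n, hn⟩ := ih
      refine ⟨max n (t.2 + 1), fun s hs => ?_⟩
      rcases List.mem_cons.1 hs with rfl | hs
      · omega
      · have := hn s hs
        omega
  have hL : ∀ t ∈ L, 0 ≤ t.2 ∧ t.2 < 0 + n := fun t ht => ⟨Nat.zero_le _, by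
    have := hn t ht
    omega⟩
  have h1 := vs_eq β 0 n L hL
  have h2 : vs β (fun k => k - 0) L = vs β id L := rfl
  rw [h2, h] at h1
  rw [vl_eq g 0 n L hL]
  refine sum_eq_zero fun i hi => ?_
  rw [digits_zero β n (fun i => cf L (0 + i)) (fun i => (cf_le L _).trans_lt hb) h1.symm i
    (mem_range.1 hi), zero_smul]

/-- the packed vector `X` represents `x` -/
def RG (β : ℕ) (e : ℕ → ℕ) (g : ℕ → S) (Q : ℕ → Prop) (X : PV) (x : S) : Prop :=
  X.b < β → ∃ L : List (ℤ × ℕ), (∀ t ∈ L, Q t.2) ∧ (X.P : ℤ) - X.N = vs β e L ∧ nb L ≤ X.b ∧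
    vl g L = x

variable {β : ℕ} {e : ℕ → ℕ} {g : ℕ → S} {Q : ℕ → Prop}

theorem RG.zero : RG β e g Q pzero 0 := fun _ =>
  ⟨[], fun t ht => absurd ht (List.not_mem_nil), by simp [vs, PV.P, PV.N], by simp [nb], by
    simp [vl]⟩

theorem RG.bad (x : S) (N P b : ℕ) (hb : β ≤ b) : RG β e g Q (.mk N P b) x := fun h =>
  absurd h (not_lt.2 hb)

theorem RG.pbad (x : S) : RG β e g Q (pbad β) x := RG.bad x _ _ _ le_rfl

theorem RG.add {X Y : PV} {x y : S} (hX : RG β e g Q X x) (hY : RG β e g Q Y y) :
    RG β e g Q (X.add Y) (x + y) := by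
  cases X with | mk P N b =>
  cases Y with | mk P' N' b' =>
  intro h
  have h' : b + b' < β := h
  obtain ⟨L, h1, h2, h3, h4⟩ := hX (show b < β by omega)
  obtain ⟨M, k1, k2, k3, k4⟩ := hY (show b' < β by omega)
  have h2' : (P : ℤ) - N = vs β e L := h2
  have k2' : (P' : ℤ) - N' = vs β e M := k2
  have h3' : nb L ≤ b := h3
  have k3' : nb M ≤ b' := k3
  refine ⟨L ++ M, fun t ht => ?_, ?_, ?_, ?_⟩
  · rcases List.mem_append.1 ht with ht | ht
    · exact h1 t ht
    · exact k1 t ht
  · show ((P + P' : ℕ) : ℤ) - (N + N' : ℕ) = _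
    rw [vs_append, ← h2', ← k2']
    push_cast
    ring
  · show _ ≤ b + b'
    rw [nb_append]
    omega
  · rw [vl_append, h4, k4]

theorem RG.sm {X : PV} {x : S} (m : ℕ) (hX : RG β e g Q X x) : RG β e g Q (X.sm m) (m • x) := by
  cases X with | mk P N b =>
  intro h
  have h' : m * b < β := h
  rcases Nat.eq_zero_or_pos m with rfl | hm
  · refine ⟨[], fun t ht => absurd ht (List.not_mem_nil), ?_, by simp [nb], by simp [vl]⟩
    show ((0 * P : ℕ) : ℤ) - (0 * N : ℕ) = _
    simp [vs]
  obtain ⟨L, h1, h2, h3, h4⟩ := hX (show b < β from lt_of_le_of_lt (Nat.le_mul_of_pos_left _ hm) h')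
  have h2' : (P : ℤ) - N = vs β e L := h2
  have h3' : nb L ≤ b := h3
  refine ⟨L.map fun t => ((m : ℤ) * t.1, t.2), fun t ht => ?_, ?_, ?_, ?_⟩
  · obtain ⟨s, hs, rfl⟩ := List.mem_map.1 ht
    exact h1 s hs
  · show ((m * P : ℕ) : ℤ) - (m * N : ℕ) = _
    have : vs β e (L.map fun t => ((m : ℤ) * t.1, t.2)) = m * vs β e L := by
      clear h1 h2 h3 h4 h2' h3'
      induction L with
      | nil => simp [vs]
      | cons t L ih =>
        rw [List.map_cons, vs_cons, vs_cons, ih]
        ring
    rw [this, ← h2']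
    push_cast
    ring
  · show _ ≤ m * b
    have : nb (L.map fun t => ((m : ℤ) * t.1, t.2)) = m * nb L := by
      clear h1 h2 h3 h4 h2' h3'
      induction L with
      | nil => simp [nb]
      | cons t L ih =>
        rw [List.map_cons, nb_cons, nb_cons, ih, Int.natAbs_mul, Int.natAbs_natCast]
        ring
    rw [this]
    exact Nat.mul_le_mul_left m h3'
  · have : vl g (L.map fun t => ((m : ℤ) * t.1, t.2)) = m • vl g L := by
      clear h1 h2 h3 h4 h2' h3'
      induction L with
      | nil => simp [vl]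
      | cons t L ih =>
        rw [List.map_cons, vl_cons, vl_cons, ih, smul_add, mul_smul, natCast_zsmul]
    rw [this, h4]

theorem RG.ng {X : PV} {x : S} (hX : RG β e g Q X x) : RG β e g Q X.ng (-x) := by
  cases X with | mk P N b =>
  intro h
  obtain ⟨L, h1, h2, h3, h4⟩ := hX h
  have h2' : (P : ℤ) - N = vs β e L := h2
  have h3' : nb L ≤ b := h3
  refine ⟨L.map fun t => (-t.1, t.2), fun t ht => ?_, ?_, ?_, ?_⟩
  · obtain ⟨s, hs, rfl⟩ := List.mem_map.1 ht
    exact h1 s hs
  · show (N : ℤ) - P = _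
    have : vs β e (L.map fun t => (-t.1, t.2)) = - vs β e L := by
      clear h1 h2 h3 h4 h2' h3'
      induction L with
      | nil => simp [vs]
      | cons t L ih =>
        rw [List.map_cons, vs_cons, vs_cons, ih]
        ring
    rw [this, ← h2']
    ring
  · show _ ≤ b
    have : nb (L.map fun t => (-t.1, t.2)) = nb L := by
      clear h1 h2 h3 h4 h2' h3'
      induction L with
      | nil => simp [nb]
      | cons t L ih =>
        rw [List.map_cons, nb_cons, nb_cons, ih, Int.natAbs_neg]
    rw [this]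
    exact h3'
  · have : vl g (L.map fun t => (-t.1, t.2)) = - vl g L := by
      clear h1 h2 h3 h4 h2' h3'
      induction L with
      | nil => simp [vl]
      | cons t L ih =>
        rw [List.map_cons, vl_cons, vl_cons, ih, neg_add, neg_smul]
    rw [this, h4]

theorem RG.sg {X : PV} {x : S} (s : Bool) (hX : RG β e g Q X x) :
    RG β e g Q (X.sg s) (Pool.Agent.Malc.sg s • x) := by
  cases s
  · have : X.sg false = X := by cases X; rfl
    rw [this]
    show RG β e g Q X ((1 : ℤ) • x)
    rw [one_smul]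
    exact hX
  · have : X.sg true = X.ng := by cases X; rfl
    rw [this]
    show RG β e g Q X.ng ((-1 : ℤ) • x)
    rw [neg_smul, one_smul]
    exact hX.ng

theorem RG.congr {X : PV} {x y : S} (hX : RG β e g Q X x) (h : x = y) : RG β e g Q X y := h ▸ hX

/-- value of a sum of nodes -/
noncomputable def svG (g : ℕ → S) (v : SV) : S :=
  SV.rec (motive := fun _ => S) 0 0 (fun k m _ ih => m • g k + ih) (fun k m _ ih => -(m • g k) + ih) v

noncomputable def nobad (v : SV) : Prop :=
  SV.rec (motive := fun _ => Prop) True False (fun _ _ _ ih => ih) (fun _ _ _ ih => ih) v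

theorem svG_neg (v : SV) : svG g v.neg = - svG g v := by
  induction v with
  | z => show (0 : S) = -0; simp
  | bad => show (0 : S) = -0; simp
  | p k m t ih => show -(m • g k) + svG g t.neg = -(m • g k + svG g t); rw [ih]; abel
  | n k m t ih => show m • g k + svG g t.neg = -(-(m • g k) + svG g t); rw [ih]; abel

theorem nobad_neg (v : SV) : nobad v.neg → nobad v := by
  induction v with
  | z => exact id
  | bad => exact id
  | p k m t ih => exact ih
  | n k m t ih => exact ih

theorem svG_smul (c : ℕ) (v : SV) : svG (fun k => c • g k) v = c • svG g v := by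
  induction v with
  | z => show (0 : S) = c • (0 : S); simp
  | bad => show (0 : S) = c • (0 : S); simp
  | p k m t ih =>
    show m • c • g k + svG (fun k => c • g k) t = c • (m • g k + svG g t)
    rw [ih, smul_add, smul_comm]
  | n k m t ih =>
    show -(m • c • g k) + svG (fun k => c • g k) t = c • (-(m • g k) + svG g t)
    rw [ih, smul_add, smul_comm, smul_neg]

theorem RG_pk (o n st : ℕ) (v : SV) : RG β (fun k => (k - o) * st) g
    (fun k => o ≤ k ∧ k < o + n) (pk β o n st v) (svG g v) := by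
  induction v with
  | z => exact RG.zero
  | bad => exact RG.pbad _
  | p k m t ih =>
    show RG β _ g _ (bi (Nat.ble o k) (bi (Nat.ble (Nat.succ k) (Nat.add o n))
      (PV.rec (motive := fun _ => PV) (fun P N b =>
        .mk (Nat.add (Nat.mul m (Nat.pow β (Nat.mul (Nat.sub k o) st))) P) N (Nat.add m b))
          (pk β o n st t)) (Chk.pbad β)) (Chk.pbad β)) _
    cases h1 : Nat.ble o k
    · exact RG.pbad _
    cases h2 : Nat.ble (Nat.succ k) (Nat.add o n)
    · exact RG.pbad _
    have h1' := Nat.le_of_ble_eq_true h1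
    have h2' : k < o + n := Nat.le_of_ble_eq_true h2
    cases hp : pk β o n st t with | mk P N b =>
    rw [hp] at ih
    intro h
    have h' : m + b < β := h
    obtain ⟨L, l1, l2, l3, l4⟩ := ih (show b < β by omega)
    have l2' : (P : ℤ) - N = vs β _ L := l2
    have l3' : nb L ≤ b := l3
    refine ⟨((m : ℤ), k) :: L, fun s hs => ?_, ?_, ?_, ?_⟩
    · rcases List.mem_cons.1 hs with rfl | hs
      · exact ⟨h1', h2'⟩
      · exact l1 s hs
    · show ((m * β ^ ((k - o) * st) + P : ℕ) : ℤ) - N = _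
      rw [vs_cons, ← l2']
      push_cast
      ring
    · show _ ≤ m + b
      rw [nb_cons]
      simpa using l3'
    · rw [vl_cons, l4]
      show (m : ℤ) • g k + _ = m • g k + _
      rw [natCast_zsmul]
      rfl
  | n k m t ih =>
    show RG β _ g _ (bi (Nat.ble o k) (bi (Nat.ble (Nat.succ k) (Nat.add o n))
      (PV.rec (motive := fun _ => PV) (fun P N b =>
        .mk P (Nat.add (Nat.mul m (Nat.pow β (Nat.mul (Nat.sub k o) st))) N) (Nat.add m b))
          (pk β o n st t)) (Chk.pbad β)) (Chk.pbad β)) _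
    cases h1 : Nat.ble o k
    · exact RG.pbad _
    cases h2 : Nat.ble (Nat.succ k) (Nat.add o n)
    · exact RG.pbad _
    have h1' := Nat.le_of_ble_eq_true h1
    have h2' : k < o + n := Nat.le_of_ble_eq_true h2
    cases hp : pk β o n st t with | mk P N b =>
    rw [hp] at ih
    intro h
    have h' : m + b < β := h
    obtain ⟨L, l1, l2, l3, l4⟩ := ih (show b < β by omega)
    have l2' : (P : ℤ) - N = vs β _ L := l2
    have l3' : nb L ≤ b := l3
    refine ⟨(-(m : ℤ), k) :: L, fun s hs => ?_, ?_, ?_, ?_⟩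
    · rcases List.mem_cons.1 hs with rfl | hs
      · exact ⟨h1', h2'⟩
      · exact l1 s hs
    · show (P : ℤ) - (m * β ^ ((k - o) * st) + N : ℕ) = _
      rw [vs_cons, ← l2']
      push_cast
      ring
    · show _ ≤ m + b
      rw [nb_cons]
      simpa using l3'
    · rw [vl_cons, l4]
      show (-(m : ℤ)) • g k + _ = -(m • g k) + _
      rw [neg_smul, natCast_zsmul]
      rfl

theorem nobad_pk (o n st : ℕ) (v : SV) : (pk β o n st v).b < β → nobad v := by
  induction v with
  | z => intro _; trivial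
  | bad => intro h; exact absurd h (lt_irrefl _)
  | p k m t ih =>
    intro h
    change (bi (Nat.ble o k) (bi (Nat.ble (Nat.succ k) (Nat.add o n))
      (PV.rec (motive := fun _ => PV) (fun P N b =>
        .mk (Nat.add (Nat.mul m (Nat.pow β (Nat.mul (Nat.sub k o) st))) P) N (Nat.add m b))
          (pk β o n st t)) (Chk.pbad β)) (Chk.pbad β) : PV).b < β at h
    cases h1 : Nat.ble o k
    · rw [h1] at h
      exact absurd h (lt_irrefl _)
    cases h2 : Nat.ble (Nat.succ k) (Nat.add o n)
    · rw [h1, h2] at h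
      exact absurd h (lt_irrefl _)
    rw [h1, h2, bi_tt, bi_tt] at h
    show nobad t
    cases hp : pk β o n st t with | mk P N b =>
    rw [hp] at h ih
    have h' : m + b < β := h
    exact ih (show b < β by omega)
  | n k m t ih =>
    intro h
    change (bi (Nat.ble o k) (bi (Nat.ble (Nat.succ k) (Nat.add o n))
      (PV.rec (motive := fun _ => PV) (fun P N b =>
        .mk P (Nat.add (Nat.mul m (Nat.pow β (Nat.mul (Nat.sub k o) st))) N) (Nat.add m b))
          (pk β o n st t)) (Chk.pbad β)) (Chk.pbad β) : PV).b < β at h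
    cases h1 : Nat.ble o k
    · rw [h1] at h
      exact absurd h (lt_irrefl _)
    cases h2 : Nat.ble (Nat.succ k) (Nat.add o n)
    · rw [h1, h2] at h
      exact absurd h (lt_irrefl _)
    rw [h1, h2, bi_tt, bi_tt] at h
    show nobad t
    cases hp : pk β o n st t with | mk P N b =>
    rw [hp] at h ih
    have h' : m + b < β := h
    exact ih (show b < β by omega)

theorem RG_comb (f : ℕ → PV) (F : ℕ → S) (hf : ∀ k, RG β e g Q (f k) (F k)) (v : SV) :
    RG β e g Q (comb β f v) (svG F v) := by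
  induction v with
  | z => exact RG.zero
  | bad => exact RG.pbad _
  | p k m t ih => exact RG.add (RG.sm m (hf k)) ih
  | n k m t ih => exact RG.add (RG.ng (RG.sm m (hf k))) ih

theorem PV.b_add (x y : PV) : (x.add y).b = x.b + y.b := by cases x; cases y; rfl
theorem PV.b_sm (m : ℕ) (x : PV) : (x.sm m).b = m * x.b := by cases x; rfl
theorem PV.b_ng (x : PV) : x.ng.b = x.b := by cases x; rfl

theorem nobad_comb (f : ℕ → PV) (v : SV) : (comb β f v).b < β → nobad v := by
  induction v with
  | z => intro _; trivial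
  | bad => intro h; exact absurd h (lt_irrefl _)
  | p k m t ih =>
    intro h
    change (PV.add (PV.sm m (f k)) (comb β f t)).b < β at h
    rw [PV.b_add] at h
    exact ih (by omega)
  | n k m t ih =>
    intro h
    change (PV.add (PV.ng (PV.sm m (f k))) (comb β f t)).b < β at h
    rw [PV.b_add] at h
    exact ih (by omega)

theorem RG.eq_zero {G : ℕ → S} {X : PV} {x : S} (hX : RG β id G (fun _ => True) X x)
    (h : pz β X = true) : x = 0 := by
  cases X with | mk P N b =>
  change bi (Nat.beq P N) (Nat.ble (Nat.succ b) β) false = true at h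
  obtain ⟨h1, h2⟩ := bi_and h
  have h1' : P = N := Nat.eq_of_beq_eq_true h1
  have h2' : b < β := Nat.le_of_ble_eq_true h2
  obtain ⟨L, _, l2, l3, l4⟩ := hX h2'
  have l2' : (P : ℤ) - N = vs β id L := l2
  have l3' : nb L ≤ b := l3
  rw [h1', sub_self] at l2'
  rw [← l4]
  exact vl_zero β G L l2'.symm (lt_of_le_of_lt l3' h2')

end pack

section ring

variable {S : Type u} [NonUnitalNonAssocRing S] {β : ℕ}

theorem svG_mul_right (g : ℕ → S) (y : S) (v : SV) : svG (fun k => g k * y) v = svG g v * y := by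
  induction v with
  | z => show (0 : S) = 0 * y; simp
  | bad => show (0 : S) = 0 * y; simp
  | p k m t ih =>
    show m • (g k * y) + svG (fun k => g k * y) t = (m • g k + svG g t) * y
    rw [ih, add_mul, smul_mul_assoc]
  | n k m t ih =>
    show -(m • (g k * y)) + svG (fun k => g k * y) t = (-(m • g k) + svG g t) * y
    rw [ih, add_mul, neg_mul, smul_mul_assoc]

theorem svG_mul_left (g : ℕ → S) (y : S) (v : SV) : svG (fun k => y * g k) v = y * svG g v := by
  induction v with
  | z => show (0 : S) = y * 0; simp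
  | bad => show (0 : S) = y * 0; simp
  | p k m t ih =>
    show m • (y * g k) + svG (fun k => y * g k) t = y * (m • g k + svG g t)
    rw [ih, mul_add, mul_smul_comm]
  | n k m t ih =>
    show -(m • (y * g k)) + svG (fun k => y * g k) t = y * (-(m • g k) + svG g t)
    rw [ih, mul_add, mul_neg, mul_smul_comm]

theorem RG.mul {e1 e2 : ℕ → ℕ} {g1 g2 G : ℕ → S} {Q1 Q2 : ℕ → Prop} {X Y : PV} {x y : S} (s : ℕ)
    (hX : RG β e1 g1 Q1 X x) (hY : RG β e2 g2 Q2 Y y)
    (hG : ∀ k l, Q1 k → Q2 l → G (e1 k + e2 l + s) = g1 k * g2 l) :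
    RG β id G (fun _ => True) (PV.sh (β ^ s) (PV.mul X Y)) (x * y) := by
  cases X with | mk P N b =>
  cases Y with | mk P' N' b' =>
  intro h
  have h' : b * b' + (b + b') < β := h
  obtain ⟨L, h1, h2, h3, h4⟩ := hX (show b < β by omega)
  obtain ⟨M, k1, k2, k3, k4⟩ := hY (show b' < β by omega)
  have h2' : (P : ℤ) - N = vs β e1 L := h2
  have k2' : (P' : ℤ) - N' = vs β e2 M := k2
  have h3' : nb L ≤ b := h3
  have k3' : nb M ≤ b' := k3
  have key : ∀ L : List (ℤ × ℕ), (∀ t ∈ L, Q1 t.2) → ∃ K : List (ℤ × ℕ),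
      vs β id K = vs β e1 L * vs β e2 M * (β : ℤ) ^ s ∧ nb K = nb L * nb M ∧
      vl G K = vl g1 L * vl g2 M := by
    intro L hL
    induction L with
    | nil => exact ⟨[], by simp [vs], by simp [nb], by simp [vl]⟩
    | cons t L ih =>
      obtain ⟨K, a1, a2, a3⟩ := ih fun s hs => hL s (List.mem_cons_of_mem _ hs)
      have ht := hL t List.mem_cons_self
      have step : ∀ M : List (ℤ × ℕ), (∀ t ∈ M, Q2 t.2) → ∃ K : List (ℤ × ℕ),
          vs β id K = t.1 * (β : ℤ) ^ e1 t.2 * vs β e2 M * (β : ℤ) ^ s ∧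
          nb K = t.1.natAbs * nb M ∧ vl G K = (t.1 • g1 t.2) * vl g2 M := by
        intro M hM
        induction M with
        | nil => exact ⟨[], by simp [vs], by simp [nb], by simp [vl]⟩
        | cons r M ih' =>
          obtain ⟨K, c1, c2, c3⟩ := ih' fun s hs => hM s (List.mem_cons_of_mem _ hs)
          have hr := hM r List.mem_cons_self
          refine ⟨(t.1 * r.1, e1 t.2 + e2 r.2 + s) :: K, ?_, ?_, ?_⟩
          · rw [vs_cons, vs_cons, c1]
            show t.1 * r.1 * (β : ℤ) ^ (e1 t.2 + e2 r.2 + s) + _ = _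
            rw [pow_add, pow_add]
            ring
          · rw [nb_cons, nb_cons, c2, Int.natAbs_mul]
            ring
          · rw [vl_cons, vl_cons, c3, hG _ _ ht hr]
            show (t.1 * r.1) • (g1 t.2 * g2 r.2) + _ = _
            rw [mul_add, mul_smul, mul_smul_comm, smul_mul_assoc, smul_mul_assoc,
              smul_comm r.1 t.1]
      obtain ⟨K', b1, b2, b3⟩ := step M k1
      refine ⟨K' ++ K, ?_, ?_, ?_⟩
      · rw [vs_append, b1, a1, vs_cons]
        ring
      · rw [nb_append, b2, a2, nb_cons]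
        ring
      · rw [vl_append, b3, a3, vl_cons, add_mul]
  obtain ⟨K, a1, a2, a3⟩ := key L h1
  refine ⟨K, fun _ _ => trivial, ?_, ?_, ?_⟩
  · show (((P * P' + N * N') * β ^ s : ℕ) : ℤ) - ((P * N' + N * P') * β ^ s : ℕ) = _
    rw [a1, ← h2', ← k2']
    push_cast
    ring
  · show nb K ≤ b * b' + (b + b')
    rw [a2]
    exact (Nat.mul_le_mul h3' k3').trans (Nat.le_add_right _ _)
  · rw [a3, h4, k4]

end ring

end Pool.Agent.Malc.Chk
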