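import Pool.Agent.Malc.Prim

/-! # Primitive families: the skew symmetrisation on three legs -/

set_option autoImplicit false

open scoped TensorProduct

namespace Pool.Agent.Malc

universe u

open CPA

variable {F : Type u} [Field F] [CharZero F]

variable {ι : Type} [DecidableEq ι]

namespace NF

variable (f : NF F ι)

/-- three updates -/
def upd3 {E : Type u} (x : ι → E) (p q r : ι) (a b c : E) : ι → E :=
  Function.update (Function.update (Function.update x p a) q b) r c

end NF

namespace SkewAux

variable (A : CPA F)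

omit [CharZero F] in
theorem two_cancel {z : A.S} (h : 2 * z = 0) [CharZero F] : z = 0 := by
  have h2 : algebraMap F A.S (1 / 2) * 2 = 1 := by
    have : (2 : A.S) = algebraMap F A.S 2 := by rw [map_ofNat]
    rw [this, ← map_mul]
    norm_num
  calc z = (algebraMap F A.S (1 / 2) * 2) * z := by rw [h2, one_mul]
    _ = algebraMap F A.S (1 / 2) * (2 * z) := by ring
    _ = 0 := by rw [h, mul_zero]

theorem Tr_add (x y : A.ext.ext.S) : A.Tr (x + y) = A.Tr x + A.Tr y := by
  show A.tau (EE.w (SE.g x) + EE.w (SE.g y)) = _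
  rw [map_add]
  rfl

theorem Tr_zero : A.Tr 0 = 0 := by
  show A.tau 0 = 0
  rw [map_zero]

theorem Tr_neg (x : A.ext.ext.S) : A.Tr (-x) = - A.Tr x := by
  show A.tau (- EE.w (SE.g x)) = _
  rw [map_neg]
  rfl

theorem Tr_sub (x y : A.ext.ext.S) : A.Tr (x - y) = A.Tr x - A.Tr y := by
  rw [sub_eq_add_neg, Tr_add, Tr_neg, sub_eq_add_neg]

theorem mul_in2 (a b : A.E) : A.ext.ext.mul (A.in2 a) (A.in2 b) = A.in2 (A.mul a b) := by
  unfold CPA.in2
  rw [A.incl.map_mul, A.ext.incl.map_mul]

theorem mul_in2_op2 (a : A.E) (w : A.W) :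
    A.ext.ext.mul (A.in2 a) (A.op2 w) = A.op2 (A.LW a w) := by
  unfold CPA.in2 CPA.op2 CPA.inW
  rw [mapW_LW, ext_mul]
  apply EE.ext
  · show A.ext.mul (A.incl.ψ a) 0 = 0
    rw [map_zero]
  · show A.ext.LW (A.incl.ψ a) (mapW A.incl w) - A.ext.LW 0 0 = _
    rw [map_zero, sub_zero]

theorem mul_op2_in2 (a : A.E) (w : A.W) :
    A.ext.ext.mul (A.op2 w) (A.in2 a) = - A.op2 (A.LW a w) := by
  rw [A.ext.ext.anti, mul_in2_op2]

theorem L_eq (a c : A.E) : A.L a (0, -c, 0) =
    (A.s a c, A.mul a c, ((-2 : A.S) • c) ⊗ₜ a + a ⊗ₜ c) := by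
  refine Prod.ext ?_ (Prod.ext ?_ ?_)
  · simp [L]
  · simp [L]
  · simp [L, TensorProduct.neg_tmul, TensorProduct.tmul_neg, ← TensorProduct.smul_tmul']

end SkewAux

namespace NF

variable (f : NF F ι)

open SkewAux

/-- the argument `q` is an operator -/
theorem SkewAux_eq1 (A : CPA F) (x : ι → A.E) {p q r : ι} (hpq : p ≠ q)
    (hpr : p ≠ r) (hqr : q ≠ r) (c : A.E) (w : A.W) :
    A.Tr (f.f A.ext.ext (Function.update (Function.update
      (Function.update (fun i => A.in2 (x i)) r A.Z2) p (A.in2 c)) q (A.op2 w))) =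
      f.Phi q r A (Function.update x p c) w := by
  unfold Phi
  congr 2
  funext i
  by_cases hq : i = q
  · subst hq
    rw [Function.update_self, Function.update_of_ne hqr, Function.update_self]
  rw [Function.update_of_ne hq]
  by_cases hr : i = r
  · subst hr
    rw [Function.update_self, Function.update_of_ne hpr.symm, Function.update_self]
  by_cases hp : i = p
  · subst hp
    rw [Function.update_self, Function.update_of_ne hr, Function.update_of_ne hq,
      Function.update_self]
  · rw [Function.update_of_ne hp, Function.update_of_ne hr, Function.update_of_ne hr,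
      Function.update_of_ne hq, Function.update_of_ne hp]

/-- the argument `p` is an operator -/
theorem SkewAux_eq2 (A : CPA F) (x : ι → A.E) {p q r : ι} (hpq : p ≠ q)
    (hpr : p ≠ r) (hqr : q ≠ r) (c : A.E) (w : A.W) :
    A.Tr (f.f A.ext.ext (Function.update (Function.update
      (Function.update (fun i => A.in2 (x i)) r A.Z2) p (A.op2 w)) q (A.in2 c))) =
      f.Phi p r A (Function.update x q c) w := by
  rw [← SkewAux_eq1 f A x hpq.symm hqr hpr, Function.update_comm hpq]

variable {f}

/-- the value of the contraction -/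
theorem SkewAux_val [Fintype ι] (hf : f.Prim) (A : CPA F) (x : ι → A.E) {p q : ι} (hpq : p ≠ q)
    (a c : A.E) :
    f.Phi p q A x (A.LW a (A.mkW (0, -c, 0))) =
      -2 * f.f A (Function.update (Function.update x p c) q a) +
        f.f A (Function.update (Function.update x p a) q c) := by
  rw [LW_mk, L_eq, hf.lift A x hpq, Function.update_comm hpq, (f.f A).map_update_smul,
    Function.update_comm hpq.symm, smul_eq_mul]

/-- the skew symmetrisation on three legs -/
theorem Prim.skew [Fintype ι] (hf : f.Prim) (A : CPA F) (x : ι → A.E) {p q r : ι} (hpq : p ≠ q)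
    (hpr : p ≠ r) (hqr : q ≠ r) (a b c : A.E) :
    f.f A (upd3 x p q r a b c) - f.f A (upd3 x p q r b a c) - f.f A (upd3 x p q r a c b) -
    f.f A (upd3 x p q r c b a) + f.f A (upd3 x p q r b c a) + f.f A (upd3 x p q r c a b) = 0 := by
  have h := hf.R1 A.ext.ext (Function.update (fun i => A.in2 (x i)) r A.Z2) hpq
    (A.in2 a) (A.in2 b) (A.op2 (A.mkW (0, -c, 0)))
  rw [mul_in2, mul_in2_op2, mul_op2_in2] at h
  have hneg1 : f.f A.ext.ext (Function.update (Function.update
      (Function.update (fun i => A.in2 (x i)) r A.Z2) p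
        (- A.op2 (A.LW a (A.mkW (0, -c, 0))))) q (A.in2 b)) =
      - f.f A.ext.ext (Function.update (Function.update
      (Function.update (fun i => A.in2 (x i)) r A.Z2) p
        (A.op2 (A.LW a (A.mkW (0, -c, 0))))) q (A.in2 b)) := by
    rw [Function.update_comm hpq, (f.f A.ext.ext).map_update_neg, Function.update_comm hpq.symm]
  have hneg2 : f.f A.ext.ext (Function.update (Function.update
      (Function.update (fun i => A.in2 (x i)) r A.Z2) p (A.in2 b)) q
        (- A.op2 (A.LW a (A.mkW (0, -c, 0))))) =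
      - f.f A.ext.ext (Function.update (Function.update
      (Function.update (fun i => A.in2 (x i)) r A.Z2) p (A.in2 b)) q
        (A.op2 (A.LW a (A.mkW (0, -c, 0))))) := by
    rw [(f.f A.ext.ext).map_update_neg]
  rw [hneg1, hneg2] at h
  have h' := congrArg A.Tr h
  simp only [Tr_add, Tr_sub, Tr_neg, Tr_zero] at h'
  rw [SkewAux_eq1 f A x hpq hpr hqr, SkewAux_eq2 f A x hpq hpr hqr,
    SkewAux_eq2 f A x hpq hpr hqr, SkewAux_eq1 f A x hpq hpr hqr,
    SkewAux_eq2 f A x hpq hpr hqr, SkewAux_eq1 f A x hpq hpr hqr,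
    hf A _ q r hqr, hf A _ p r hpr,
    SkewAux_val hf A _ hpr, SkewAux_val hf A _ hqr, SkewAux_val hf A _ hpr,
    SkewAux_val hf A _ hqr] at h'
  have e1 : ∀ u v w : A.E, Function.update (Function.update (Function.update x p u) q v) r w =
      upd3 x p q r u v w := fun u v w => rfl
  have e2 : ∀ u v w : A.E, Function.update (Function.update (Function.update x q v) p u) r w =
      upd3 x p q r u v w := by
    intro u v w
    unfold upd3
    rw [Function.update_comm hpq.symm]
  rw [e1, e1, e1, e1, e2, e2, e2, e2] at h'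
  apply two_cancel A
  linear_combination -h'

end NF

end Pool.Agent.Malc
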