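import Pool.Agent.Malc.NFExpand
import Pool.Agent.Malc.Skew

/-! # The combinatorial induction -/

set_option autoImplicit false

open scoped TensorProduct

namespace Pool.Agent.Malc

universe u

open CPA

variable {F : Type u} [Field F] [CharZero F]

variable {ι : Type} [DecidableEq ι]

namespace NF

variable (f : NF F ι)

variable {f}

/-- `x` on `s`, `y` on `t`, `z` elsewhere -/
def arg {E : Type u} (s t : Finset ι) (x y : E) (z : ι → E) : ι → E :=
  fun i => if i ∈ s then x else if i ∈ t then y else z i

namespace CombAux

omit [DecidableEq ι] in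
theorem arg_def [DecidableEq ι] {E : Type u} (s t : Finset ι) (x y : E) (z : ι → E) (i : ι) :
    arg s t x y z i = if i ∈ s then x else if i ∈ t then y else z i := rfl

theorem dual_t [Fintype ι] (f : NF F ι) (A : CPA F) (U : ι → A.ED) (s : Finset ι)
    (hs : ∀ i, i ∉ s → (U i).b = 0) :
    SD.t (f.f A.dual U : A.SD) =
      ∑ i ∈ s, f.f A (Function.update (fun i => (U i).a) i ((U i).b)) := by
  have h2 : f.f A.dual U = (⟨f.f A (fun i => (U i).a),
      ∑ i, f.f A (Function.update (fun i => (U i).a) i (U i).b)⟩ : A.SD) :=
    f.expand A (fun i => (U i).a) (fun i => (U i).b)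
  rw [h2]
  symm
  apply Finset.sum_subset (Finset.subset_univ s)
  intro i _ hi
  rw [hs i hi]
  exact (f.f A).map_update_zero _ i

/-- the same, for a direction which is constant on `s` -/
theorem dual_t' [Fintype ι] (f : NF F ι) (A : CPA F) (U : ι → A.ED) (u : ι → A.E) (w : A.E)
    (s : Finset ι) (ha : ∀ i, (U i).a = u i) (hs : ∀ i, i ∉ s → (U i).b = 0)
    (hw : ∀ i, i ∈ s → (U i).b = w) :
    SD.t (f.f A.dual U : A.SD) = ∑ i ∈ s, f.f A (Function.update u i w) := by
  rw [dual_t f A U s hs]
  apply Finset.sum_congr rfl
  intro i hi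
  rw [hw i hi]
  have : (fun i => (U i).a) = u := funext ha
  rw [this]

end CombAux

/-- the derivative in `x` -/
theorem deriv_x [Fintype ι] (s t : Finset ι)
    (h : ∀ (A : CPA F) (x y : A.E) (z : ι → A.E), f.f A (arg s t x y z) = 0)
    (A : CPA F) (x y w : A.E) (z : ι → A.E) :
    ∑ i ∈ s, f.f A (Function.update (arg s t x y z) i w) = 0 := by
  have h0 := h A.dual (⟨x, w⟩ : A.ED) (⟨y, 0⟩ : A.ED) (fun i => (⟨z i, 0⟩ : A.ED))
  have h1 := CombAux.dual_t' f A
    (arg s t (⟨x, w⟩ : A.ED) (⟨y, 0⟩ : A.ED) (fun i => (⟨z i, 0⟩ : A.ED)))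
    (arg s t x y z) w s
    (by intro i; simp only [CombAux.arg_def]; split_ifs <;> rfl)
    (by intro i hi; simp only [CombAux.arg_def, if_neg hi]; split_ifs <;> rfl)
    (by intro i hi; simp only [CombAux.arg_def, if_pos hi])
  rw [← h1]
  exact congrArg SD.t h0

namespace CombAux

theorem arg_swap {E : Type u} {s t : Finset ι} (hst : Disjoint s t) (x y : E) (z : ι → E) :
    arg s t x y z = arg t s y x z := by
  funext i
  simp only [arg_def]
  by_cases h1 : i ∈ s
  · have h2 : i ∉ t := fun h => Finset.disjoint_left.mp hst h1 h
    simp [h1, h2]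
  · simp [h1]

theorem arg_insert {E : Type u} (s t : Finset ι) (c : ι) (x y : E) (z : ι → E) :
    arg (insert c s) t x y z = Function.update (arg s t x y z) c x := by
  funext i
  simp only [arg_def, Function.update_apply, Finset.mem_insert]
  by_cases h1 : i = c
  · simp [h1]
  · simp [h1]

theorem arg_insert_erase {E : Type u} (s t : Finset ι) (c : ι) (x y : E) (z : ι → E) :
    arg (insert c s) (t.erase c) x y z = Function.update (arg s t x y z) c x := by
  funext i
  simp only [arg_def, Function.update_apply, Finset.mem_insert, Finset.mem_erase]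
  by_cases h1 : i = c
  · simp [h1]
  · simp [h1]

/-- first order: `(I2)` -/
theorem first [Fintype ι] {s t : Finset ι} {c : ι} (hcs : c ∉ s)
    (h : ∀ (A : CPA F) (x y : A.E) (z : ι → A.E), f.f A (arg (insert c s) t x y z) = 0)
    (A : CPA F) (x y w : A.E) (z : ι → A.E) :
    ∑ i ∈ s, f.f A (Function.update (Function.update (arg s t x y z) c x) i w)
      + f.f A (Function.update (arg s t x y z) c w) = 0 := by
  have h1 := deriv_x (insert c s) t h A x y w z
  rw [Finset.sum_insert hcs, arg_insert, Function.update_idem] at h1
  rw [add_comm]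
  exact h1

/-- `(I4)` -/
theorem fourth [Fintype ι] {s t : Finset ι} {c : ι} (hcs : c ∉ s) (hct : c ∈ t)
    (h : ∀ (A : CPA F) (x y : A.E) (z : ι → A.E), f.f A (arg (insert c s) (t.erase c) x y z) = 0)
    (A : CPA F) (x y : A.E) (z : ι → A.E) :
    ∑ i ∈ s, f.f A (Function.update (Function.update (arg s t x y z) c x) i y)
      + f.f A (arg s t x y z) = 0 := by
  have h1 := deriv_x (insert c s) (t.erase c) h A x y y z
  rw [Finset.sum_insert hcs, arg_insert_erase, Function.update_idem] at h1
  have h2 : Function.update (arg s t x y z) c y = arg s t x y z := by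
    have : arg s t x y z c = y := by simp [arg_def, hcs, hct]
    exact Function.update_eq_self_iff.mpr this.symm
  rw [h2] at h1
  rw [add_comm]
  exact h1

/-- second order -/
theorem second [Fintype ι] {s t : Finset ι} (hst : Disjoint s t) {c : ι} (hcs : c ∉ s)
    (h : ∀ (A : CPA F) (x y w : A.E) (z : ι → A.E),
      ∑ j ∈ t, f.f A (Function.update (Function.update (arg s t x y z) c y) j w)
      + f.f A (Function.update (arg s t x y z) c w) = 0)
    (A : CPA F) (x y w v : A.E) (z : ι → A.E) :
    ∑ j ∈ t, ∑ i ∈ s, f.f A (Function.update (Function.update (Function.update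
        (arg s t x y z) c y) j w) i v)
      + ∑ i ∈ s, f.f A (Function.update (Function.update (arg s t x y z) c w) i v) = 0 := by
  have h0 := h A.dual (⟨x, v⟩ : A.ED) (⟨y, 0⟩ : A.ED) (⟨w, 0⟩ : A.ED) (fun i => (⟨z i, 0⟩ : A.ED))
  have hterm : ∀ j ∈ t, SD.t (f.f A.dual (Function.update (Function.update
      (arg s t (⟨x, v⟩ : A.ED) (⟨y, 0⟩ : A.ED) (fun i => (⟨z i, 0⟩ : A.ED))) c (⟨y, 0⟩ : A.ED)) j
        (⟨w, 0⟩ : A.ED)) : A.SD) = ∑ i ∈ s, f.f A (Function.update (Function.update (Function.update
        (arg s t x y z) c y) j w) i v) := by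
    intro j hj
    have hjs : j ∉ s := fun hh => Finset.disjoint_left.mp hst hh hj
    apply dual_t'
    · intro i
      simp only [Function.update_apply, arg_def]
      split_ifs <;> rfl
    · intro i hi
      simp only [Function.update_apply, arg_def, if_neg hi]
      split_ifs <;> rfl
    · intro i hi
      have h1 : i ≠ j := fun hh => hjs (hh ▸ hi)
      have h2 : i ≠ c := fun hh => hcs (hh ▸ hi)
      simp only [Function.update_apply, arg_def, if_neg h1, if_neg h2, if_pos hi]
  have hlast : SD.t (f.f A.dual (Function.update
      (arg s t (⟨x, v⟩ : A.ED) (⟨y, 0⟩ : A.ED) (fun i => (⟨z i, 0⟩ : A.ED))) c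
        (⟨w, 0⟩ : A.ED)) : A.SD) = ∑ i ∈ s, f.f A (Function.update (Function.update
        (arg s t x y z) c w) i v) := by
    apply dual_t'
    · intro i
      simp only [Function.update_apply, arg_def]
      split_ifs <;> rfl
    · intro i hi
      simp only [Function.update_apply, arg_def, if_neg hi]
      split_ifs <;> rfl
    · intro i hi
      have h2 : i ≠ c := fun hh => hcs (hh ▸ hi)
      simp only [Function.update_apply, arg_def, if_neg h2, if_pos hi]
  rw [← hlast, ← Finset.sum_congr rfl hterm]
  have hsum : ∀ (T : Finset ι) (G : ι → A.SD) (H : A.SD),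
      SD.t (∑ j ∈ T, G j + H) = ∑ j ∈ T, SD.t (G j) + SD.t H := by
    intro T G H
    rw [SD.add_t]
    congr 1
    induction T using Finset.induction_on with
    | empty => rfl
    | insert a T ha ih => rw [Finset.sum_insert ha, Finset.sum_insert ha, SD.add_t, ih]
  have h1 := congrArg (SD.t (A := A)) h0
  exact (hsum t _ _).symm.trans h1

/-- cancellation of a nonzero natural number -/
theorem nat_cancel (A : CPA F) {n : ℕ} (hn : n ≠ 0) {g : A.S} (h : (n : A.S) * g = 0) : g = 0 := by
  have h1 : (algebraMap F A.S ((n : F)⁻¹)) * (n : A.S) = 1 := by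
    have : ((n : A.S)) = algebraMap F A.S (n : F) := by simp
    rw [this, ← map_mul, inv_mul_cancel₀ (Nat.cast_ne_zero.mpr hn), map_one]
  calc g = 1 * g := (one_mul g).symm
    _ = (algebraMap F A.S ((n : F)⁻¹)) * ((n : A.S) * g) := by rw [← h1, mul_assoc]
    _ = 0 := by rw [h, mul_zero]

/-- the inductive step -/
theorem step [Fintype ι]
    (h3 : ∀ (A : CPA F) (x : ι → A.E) (p q r : ι), p ≠ q → p ≠ r → q ≠ r → ∀ a b c : A.E,
      f.f A (upd3 x p q r a b c) - f.f A (upd3 x p q r b a c) - f.f A (upd3 x p q r a c b) -
      f.f A (upd3 x p q r c b a) + f.f A (upd3 x p q r b c a) + f.f A (upd3 x p q r c a b) = 0)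
    {s t : Finset ι} (hst : Disjoint s t) {c : ι} (hcs : c ∉ s) (hct : c ∉ t)
    (P1 : ∀ (A : CPA F) (x y : A.E) (z : ι → A.E), f.f A (arg (insert c s) t x y z) = 0)
    (P2 : ∀ (A : CPA F) (x y : A.E) (z : ι → A.E), f.f A (arg s (insert c t) x y z) = 0)
    (P3 : ∀ j ∈ t, ∀ (A : CPA F) (x y : A.E) (z : ι → A.E),
      f.f A (arg (insert j s) (t.erase j) x y z) = 0)
    (A : CPA F) (x y : A.E) (z : ι → A.E) : f.f A (arg s t x y z) = 0 := by
  -- (I2) and (I3)
  have I2 := fun (A : CPA F) (x y w : A.E) (z : ι → A.E) => first (f := f) hcs P1 A x y w z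
  have P2' : ∀ (A : CPA F) (x y : A.E) (z : ι → A.E), f.f A (arg (insert c t) s x y z) = 0 := by
    intro A x y z
    rw [arg_swap (Finset.disjoint_insert_left.mpr ⟨hcs, hst.symm⟩)]
    exact P2 A y x z
  have I3 : ∀ (A : CPA F) (x y w : A.E) (z : ι → A.E),
      ∑ j ∈ t, f.f A (Function.update (Function.update (arg s t x y z) c y) j w)
      + f.f A (Function.update (arg s t x y z) c w) = 0 := by
    intro A x y w z
    have := first (f := f) hct P2' A y x w z
    rw [arg_swap hst.symm] at this
    exact this
  have I2' : ∀ (A : CPA F) (y x w : A.E) (z : ι → A.E),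
      ∑ j ∈ s, f.f A (Function.update (Function.update (arg t s y x z) c x) j w)
      + f.f A (Function.update (arg t s y x z) c w) = 0 := by
    intro A y x w z
    rw [arg_swap hst.symm]
    exact I2 A x y w z
  have I4 : ∀ j ∈ t, ∑ i ∈ s, f.f A (Function.update (Function.update (arg s t x y z) j x) i y)
      + f.f A (arg s t x y z) = 0 := by
    intro j hj
    exact fourth (fun hh => Finset.disjoint_left.mp hst hh hj) hj (P3 j hj) A x y z
  have I5 := second hst hcs I3 A x y x (z c) z
  have I6 := second hst.symm hct I2' A y x y (z c) z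
  rw [arg_swap hst.symm] at I6
  have J2 := I2 A x y (z c) z
  have J3 := I3 A x y (z c) z
  set G := arg s t x y z with hG
  have hGc : G c = z c := by simp [hG, arg_def, hcs, hct]
  have hself : Function.update G c (z c) = G := by
    rw [← hGc]; exact Function.update_eq_self _ _
  rw [hself] at J2 J3
  set g := f.f A G with hg
  -- the sum of the identities
  have key : ∀ i ∈ s, ∀ j ∈ t,
      g - f.f A (Function.update (Function.update G j x) i y)
        - f.f A (Function.update (Function.update G c y) j (z c))
        - f.f A (Function.update (Function.update G c x) i (z c))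
        + f.f A (Function.update (Function.update (Function.update G c x) i y) j (z c))
        + f.f A (Function.update (Function.update (Function.update G c y) j x) i (z c)) = 0 := by
    intro i hi j hj
    have hij : i ≠ j := fun hh => Finset.disjoint_left.mp hst hi (hh ▸ hj)
    have hic : i ≠ c := fun hh => hcs (hh ▸ hi)
    have hjc : j ≠ c := fun hh => hct (hh ▸ hj)
    have hji : j ≠ i := hij.symm
    have hci : c ≠ i := hic.symm
    have hcj : c ≠ j := hjc.symm
    have hGi : G i = x := by simp [hG, arg_def, hi]
    have hGj : G j = y := by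
      have : j ∉ s := fun hh => Finset.disjoint_left.mp hst hh hj
      simp [hG, arg_def, this, hj]
    have h := h3 A G i j c hij hic hjc x y (z c)
    have e1 : upd3 G i j c x y (z c) = G := by
      unfold upd3
      rw [← hGi, Function.update_eq_self, ← hGj, Function.update_eq_self, ← hGc,
        Function.update_eq_self]
    have e2 : upd3 G i j c y x (z c) = Function.update (Function.update G j x) i y := by
      unfold upd3
      rw [← hGc, Function.update_comm hij]
      have : Function.update (Function.update G j x) i y c = G c := by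
        rw [Function.update_of_ne hci, Function.update_of_ne hcj]
      rw [← this, Function.update_eq_self]
    have e3 : upd3 G i j c x (z c) y = Function.update (Function.update G c y) j (z c) := by
      unfold upd3
      rw [← hGi, Function.update_eq_self, Function.update_comm hjc]
    have e4 : upd3 G i j c (z c) y x = Function.update (Function.update G c x) i (z c) := by
      unfold upd3
      have : Function.update G i (z c) j = y := by rw [Function.update_of_ne hji, hGj]
      rw [← this, Function.update_eq_self, Function.update_comm hic]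
    have e5 : upd3 G i j c y (z c) x =
        Function.update (Function.update (Function.update G c x) i y) j (z c) := by
      unfold upd3
      rw [Function.update_comm hjc, Function.update_comm hic]
    have e6 : upd3 G i j c (z c) x y =
        Function.update (Function.update (Function.update G c y) j x) i (z c) := by
      unfold upd3
      rw [Function.update_comm hjc, Function.update_comm hic, Function.update_comm hij]
    rw [e1, e2, e3, e4, e5, e6] at h
    exact h
  have total : ∑ i ∈ s, ∑ j ∈ t,
      (g - f.f A (Function.update (Function.update G j x) i y)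
        - f.f A (Function.update (Function.update G c y) j (z c))
        - f.f A (Function.update (Function.update G c x) i (z c))
        + f.f A (Function.update (Function.update (Function.update G c x) i y) j (z c))
        + f.f A (Function.update (Function.update (Function.update G c y) j x) i (z c))) = 0 :=
    Finset.sum_eq_zero fun i hi => Finset.sum_eq_zero fun j hj => key i hi j hj
  simp only [Finset.sum_add_distrib, Finset.sum_sub_distrib] at total
  have s1 : ∑ i ∈ s, ∑ j ∈ t, g = (s.card : A.S) * ((t.card : A.S) * g) := by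
    simp [Finset.sum_const, nsmul_eq_mul]
  have s2 : ∑ i ∈ s, ∑ j ∈ t, f.f A (Function.update (Function.update G j x) i y)
      = - ((t.card : A.S) * g) := by
    rw [Finset.sum_comm]
    have : ∀ j ∈ t, ∑ i ∈ s, f.f A (Function.update (Function.update G j x) i y) = -g :=
      fun j hj => eq_neg_of_add_eq_zero_left (I4 j hj)
    rw [Finset.sum_congr rfl this]
    simp [Finset.sum_const, nsmul_eq_mul]
  have s3 : ∑ i ∈ s, ∑ j ∈ t, f.f A (Function.update (Function.update G c y) j (z c))
      = - ((s.card : A.S) * g) := by
    rw [eq_neg_of_add_eq_zero_left J3]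
    simp [Finset.sum_const, nsmul_eq_mul]
  have s4 : ∑ i ∈ s, ∑ j ∈ t, f.f A (Function.update (Function.update G c x) i (z c))
      = - ((t.card : A.S) * g) := by
    rw [Finset.sum_comm, eq_neg_of_add_eq_zero_left J2]
    simp [Finset.sum_const, nsmul_eq_mul]
  have s5 : ∑ i ∈ s, ∑ j ∈ t,
      f.f A (Function.update (Function.update (Function.update G c x) i y) j (z c)) = g := by
    rw [eq_neg_of_add_eq_zero_left I6, eq_neg_of_add_eq_zero_left J3, neg_neg]
  have s6 : ∑ i ∈ s, ∑ j ∈ t,
      f.f A (Function.update (Function.update (Function.update G c y) j x) i (z c)) = g := by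
    rw [Finset.sum_comm, eq_neg_of_add_eq_zero_left I5, eq_neg_of_add_eq_zero_left J2, neg_neg]
  rw [s1, s2, s3, s4, s5, s6] at total
  apply nat_cancel A (n := (s.card + 2) * (t.card + 1)) (by positivity)
  push_cast
  linear_combination total

/-- the induction -/
theorem induct [Fintype ι]
    (h3 : ∀ (A : CPA F) (x : ι → A.E) (p q r : ι), p ≠ q → p ≠ r → q ≠ r → ∀ a b c : A.E,
      f.f A (upd3 x p q r a b c) - f.f A (upd3 x p q r b a c) - f.f A (upd3 x p q r a c b) -
      f.f A (upd3 x p q r c b a) + f.f A (upd3 x p q r b c a) + f.f A (upd3 x p q r c a b) = 0)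
    (h2 : ∀ (A : CPA F) (s : Finset ι) (x y : A.E), f.f A (fun i => if i ∈ s then x else y) = 0)
    (n : ℕ) : ∀ (m : ℕ) (s t : Finset ι), Disjoint s t → ((s ∪ t)ᶜ).card = n → t.card = m →
      ∀ (A : CPA F) (x y : A.E) (z : ι → A.E), f.f A (arg s t x y z) = 0 := by
  induction n with
  | zero =>
    intro m s t hst hn hm A x y z
    rw [Finset.card_eq_zero, Finset.compl_eq_empty_iff] at hn
    have : arg s t x y z = fun i => if i ∈ s then x else y := by
      funext i
      simp only [arg_def]
      by_cases h1 : i ∈ s
      · simp [h1]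
      · have h4 : i ∈ s ∪ t := by rw [hn]; exact Finset.mem_univ i
        have h5 : i ∈ t := (Finset.mem_union.mp h4).resolve_left h1
        simp [h1, h5]
    rw [this]
    exact h2 A s x y
  | succ n ihn =>
    intro m
    induction m with
    | zero =>
      intro s t hst hn hm A x y z
      obtain ⟨c, hc⟩ : ((s ∪ t)ᶜ).Nonempty := by rw [← Finset.card_pos, hn]; omega
      rw [Finset.mem_compl, Finset.mem_union, not_or] at hc
      have hcard : ((insert c (s ∪ t))ᶜ).card = n := by
        rw [Finset.compl_insert, Finset.card_erase_of_mem (by simp [hc.1, hc.2]), hn]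
        rfl
      refine step h3 hst hc.1 hc.2 ?_ ?_ ?_ A x y z
      · apply ihn _ _ _ (Finset.disjoint_insert_left.mpr ⟨hc.2, hst⟩) _ rfl
        rw [Finset.insert_union]; exact hcard
      · apply ihn _ _ _ (Finset.disjoint_insert_right.mpr ⟨hc.1, hst⟩) _ rfl
        rw [Finset.union_insert]; exact hcard
      · intro j hj
        rw [Finset.card_eq_zero] at hm
        rw [hm] at hj
        exact absurd hj (Finset.notMem_empty j)
    | succ m ihm =>
      intro s t hst hn hm A x y z
      obtain ⟨c, hc⟩ : ((s ∪ t)ᶜ).Nonempty := by rw [← Finset.card_pos, hn]; omega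
      rw [Finset.mem_compl, Finset.mem_union, not_or] at hc
      have hcard : ((insert c (s ∪ t))ᶜ).card = n := by
        rw [Finset.compl_insert, Finset.card_erase_of_mem (by simp [hc.1, hc.2]), hn]
        rfl
      refine step h3 hst hc.1 hc.2 ?_ ?_ ?_ A x y z
      · apply ihn _ _ _ (Finset.disjoint_insert_left.mpr ⟨hc.2, hst⟩) _ rfl
        rw [Finset.insert_union]; exact hcard
      · apply ihn _ _ _ (Finset.disjoint_insert_right.mpr ⟨hc.1, hst⟩) _ rfl
        rw [Finset.union_insert]; exact hcard
      · intro j hj
        have hjs : j ∉ s := fun hh => Finset.disjoint_left.mp hst hh hj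
        apply ihm
        · rw [Finset.disjoint_insert_left]
          exact ⟨Finset.notMem_erase j t, hst.mono_right (Finset.erase_subset j t)⟩
        · have : insert j s ∪ t.erase j = s ∪ t := by
            ext k
            simp only [Finset.mem_union, Finset.mem_insert, Finset.mem_erase]
            constructor
            · rintro ((rfl | h) | h)
              · exact Or.inr hj
              · exact Or.inl h
              · exact Or.inr h.2
            · rintro (h | h)
              · exact Or.inl (Or.inr h)
              · by_cases hk : k = j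
                · exact Or.inl (Or.inl hk)
                · exact Or.inr ⟨hk, h⟩
          rw [this]; exact hn
        · rw [Finset.card_erase_of_mem hj, hm]; rfl

end CombAux

/-- **The combinatorial lemma.** -/
theorem comb [Fintype ι]
    (h3 : ∀ (A : CPA F) (x : ι → A.E) (p q r : ι), p ≠ q → p ≠ r → q ≠ r → ∀ a b c : A.E,
      f.f A (upd3 x p q r a b c) - f.f A (upd3 x p q r b a c) - f.f A (upd3 x p q r a c b) -
      f.f A (upd3 x p q r c b a) + f.f A (upd3 x p q r b c a) + f.f A (upd3 x p q r c a b) = 0)
    (h2 : ∀ (A : CPA F) (s : Finset ι) (x y : A.E), f.f A (fun i => if i ∈ s then x else y) = 0)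
    (A : CPA F) (x : ι → A.E) : f.f A x = 0 := by
  have h := CombAux.induct h3 h2 _ _ ∅ ∅ (Finset.disjoint_empty_left _) rfl rfl A 0 0 x
  have e : arg (∅ : Finset ι) ∅ (0 : A.E) 0 x = x := by
    funext i
    simp [CombAux.arg_def]
  rw [e] at h
  exact h

end NF

end Pool.Agent.Malc
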