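import Pool.Agent.Malc.Adj

/-! # The exactness lemma -/

set_option autoImplicit false

namespace Pool.Agent.Malc

universe u v

/-- formal combinations of triples of words -/
abbrev T3 (F : Type u) [Field F] : Type u := FreeMagma ℕ × FreeMagma ℕ × FreeMagma ℕ →₀ F

section

variable {F : Type u} [Field F] {B : Type v} [NonUnitalNonAssocRing B] [Module F B]

/-- the sum of the Jacobians -/
noncomputable def T3.jac (k : T3 F) (x : ℕ → B) : B :=
  k.sum fun t r => r • Jac (evw x t.1) (evw x t.2.1) (evw x t.2.2)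

/-- the sum of the `P108` -/
noncomputable def T3.psi (k : T3 F) (x : ℕ → B) (q p : B) : B :=
  k.sum fun t r => r • P108 (evw x t.1) (evw x t.2.1) (evw x t.2.2) q p

end

variable {F : Type u} [Field F] [CharZero F]

/-- all triples have the letters `L`, each once -/
def T3.Ml (k : T3 F) (L : Finset ℕ) : Prop :=
  ∀ t ∈ k.support, content t.1 + content t.2.1 + content t.2.2 = L.val

/-- the sum of the Jacobians is an identity of the variety -/
def T3.Id (k : T3 F) : Prop :=
  ∀ (B : Type u) [NonUnitalNonAssocRing B] [Module F B] [IsScalarTower F B B]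
    [SMulCommClass F B B], IsV B → ∀ x : ℕ → B, k.jac x = 0

namespace D2Aux

section rot

/-- rotate a triple: the letter `l` goes to the first word -/
def rot (l : ℕ) (t : FreeMagma ℕ × FreeMagma ℕ × FreeMagma ℕ) :
    FreeMagma ℕ × FreeMagma ℕ × FreeMagma ℕ :=
  if l ∈ content t.1 then t else
    if l ∈ content t.2.1 then (t.2.1, t.2.2, t.1) else (t.2.2, t.1, t.2.1)

theorem rot_cases (l : ℕ) (t : FreeMagma ℕ × FreeMagma ℕ × FreeMagma ℕ) :
    rot l t = t ∨ rot l t = (t.2.1, t.2.2, t.1) ∨ rot l t = (t.2.2, t.1, t.2.1) := by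
  unfold rot
  split_ifs
  · exact Or.inl rfl
  · exact Or.inr (Or.inl rfl)
  · exact Or.inr (Or.inr rfl)

theorem rot_spec {L : Finset ℕ} {l : ℕ} (hl : l ∈ L)
    {t : FreeMagma ℕ × FreeMagma ℕ × FreeMagma ℕ}
    (ht : content t.1 + content t.2.1 + content t.2.2 = L.val) :
    (content (rot l t).1).count l = 1 ∧ l ∉ content (rot l t).2.1 ∧
      l ∉ content (rot l t).2.2 := by
  have h1 : (content t.1).count l + (content t.2.1).count l + (content t.2.2).count l = 1 := by
    rw [← Multiset.count_add, ← Multiset.count_add, ht]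
    exact Multiset.count_eq_one_of_mem L.nodup hl
  unfold rot
  split_ifs with h2 h3
  · have h4 := Multiset.count_pos.2 h2
    refine ⟨by omega, ?_, ?_⟩
    · rw [← Multiset.count_eq_zero]; omega
    · rw [← Multiset.count_eq_zero]; omega
  · have h4 := Multiset.count_pos.2 h3
    have h5 := Multiset.count_eq_zero.2 h2
    refine ⟨?_, ?_, ?_⟩
    · show (content t.2.1).count l = 1
      omega
    · show l ∉ content t.2.2
      rw [← Multiset.count_eq_zero]; omega
    · exact h2
  · have h4 := Multiset.count_eq_zero.2 h2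
    have h5 := Multiset.count_eq_zero.2 h3
    refine ⟨?_, h2, h3⟩
    show (content t.2.2).count l = 1
    omega

variable {B : Type v} [NonUnitalNonAssocRing B]

theorem rot_Jac (l : ℕ) (t : FreeMagma ℕ × FreeMagma ℕ × FreeMagma ℕ) (x : ℕ → B) :
    Jac (evw x (rot l t).1) (evw x (rot l t).2.1) (evw x (rot l t).2.2) =
      Jac (evw x t.1) (evw x t.2.1) (evw x t.2.2) := by
  rcases rot_cases l t with h | h | h
  · rw [h]
  · rw [h]
    exact Jac_cyc _ _ _
  · rw [h]
    exact (Jac_cyc _ _ _).symm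

theorem P_cyc (h : IsMalcev B) (a b c d x : B) : P108 b c a d x = P108 a b c d x := by
  have e1 := h.P12 a b c d x
  have e2 := h.P23 b a c d x
  rw [e2, e1, neg_neg]

theorem rot_P (h : IsMalcev B) (l : ℕ) (t : FreeMagma ℕ × FreeMagma ℕ × FreeMagma ℕ)
    (x : ℕ → B) (q p : B) :
    P108 (evw x (rot l t).1) (evw x (rot l t).2.1) (evw x (rot l t).2.2) q p =
      P108 (evw x t.1) (evw x t.2.1) (evw x t.2.2) q p := by
  rcases rot_cases l t with h' | h' | h'
  · rw [h']
  · rw [h']
    exact P_cyc h _ _ _ _ _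
  · rw [h']
    exact (P_cyc h _ _ _ _ _).symm

theorem P14 (h : IsMalcev B) (a b c d x : B) : P108 d b c a x = - P108 a b c d x := by
  rw [h.P34 d b a c x, h.P23 d a b c x, h.P12 a d b c x, h.P23 a b d c x, h.P34 a b c d x]
  simp only [neg_neg]

end rot

variable {F : Type u} [Field F] [CharZero F] {B : Type u} [NonUnitalNonAssocRing B] [Module F B]
  [IsScalarTower F B B] [SMulCommClass F B B]

/-- the dual part at `v` -/
noncomputable def lh (v : B) : TS F B →+ F where
  toFun := fun z => z.l v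
  map_zero' := rfl
  map_add' := fun _ _ => rfl

omit [CharZero F] [SMulCommClass F B B] in
theorem lh_smul (v : B) (r : F) (z : TS F B) : lh v (r • z) = r * lh v z := rfl

/-- one term of the identity in `B ⊕ B*` -/
theorem term (h : IsMalcev B) (x : ℕ → B) (l : ℕ) (m : B →ₗ[F] F) (a b c : FreeMagma ℕ)
    (ha : (content a).count l = 1) (hb : l ∉ content b) (hc : l ∉ content c) (v : B) :
    lh v (Jac (evw (Function.update (fun i => TS.inb F (x i)) l (TS.inl m)) a)
      (evw (Function.update (fun i => TS.inb F (x i)) l (TS.inl m)) b)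
      (evw (Function.update (fun i => TS.inb F (x i)) l (TS.inl m)) c)) =
      - m (adj x l a (Jac v (evw x b) (evw x c))) := by
  rw [evw_inb x l m b hb, evw_inb x l m c hc]
  set z := evw (Function.update (fun i => TS.inb F (x i)) l (TS.inl m)) a with hz
  have h1 : z = TS.inl z.l := by
    apply TS.ext
    · exact (evw_inl h x l m a ha v).1
    · rfl
  have h2 := (TS.Jac_l h z.l (evw x b) (evw x c)).2 v
  rw [← h1] at h2
  have h3 := (evw_inl h x l m a ha (Jac v (evw x b) (evw x c))).2
  rw [← hz] at h3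
  show (Jac z (TS.inb F (evw x b)) (TS.inb F (evw x c))).l v = _
  rw [h2, h3]

theorem sum_adj {k : T3 F} {L : Finset ℕ} (hk : k.Ml L) (hI : k.Id) {l : ℕ} (hl : l ∈ L)
    (hB : IsV B) (x : ℕ → B) (v : B) :
    ∑ t ∈ k.support, k t • adj x l (rot l t).1
      (Jac v (evw x (rot l t).2.1) (evw x (rot l t).2.2)) = 0 := by
  rw [← Module.forall_dual_apply_eq_zero_iff F]
  intro m
  have h1 := hI (TS F B) (TS.isV hB) (Function.update (fun i => TS.inb F (x i)) l (TS.inl m))
  have h2 := congrArg (lh v) h1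
  rw [map_zero] at h2
  unfold T3.jac at h2
  rw [Finsupp.sum, map_sum] at h2
  rw [map_sum]
  rw [← neg_eq_zero, ← Finset.sum_neg_distrib, ← h2]
  refine Finset.sum_congr rfl fun t ht => ?_
  obtain ⟨h3, h4, h5⟩ := rot_spec hl (hk t ht)
  rw [lh_smul, ← rot_Jac l t, term hB.toIsMalcev x l m _ _ _ h3 h4 h5 v, map_smul, smul_eq_mul,
    mul_neg]

/-- the sum of the operators -/
noncomputable def GG (k : T3 F) (x : ℕ → B) (l : ℕ) (v y z : B) : B :=
  ∑ t ∈ k.support, k t • P108 v (evw x (rot l t).2.1) (evw x (rot l t).2.2)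
    (evw (Function.update x l y) (rot l t).1) z

theorem GG_mem {k : T3 F} {L : Finset ℕ} (hk : k.Ml L) (hI : k.Id) {l : ℕ} (hl : l ∈ L)
    (hB : IsV B) (x : ℕ → B) (v : B) :
    ((0, fun y z => GG k x l v y z) : B × (B → B → B)) ∈ Gr F B := by
  have h1 : ((0, fun y z => GG k x l v y z) : B × (B → B → B)) =
      ∑ t ∈ k.support, k t • ((adj x l (rot l t).1
        (Jac v (evw x (rot l t).2.1) (evw x (rot l t).2.2)),
        fun y z => P108 v (evw x (rot l t).2.1) (evw x (rot l t).2.2)
          (evw (Function.update x l y) (rot l t).1) z) : B × (B → B → B)) := by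
    apply Prod.ext
    · rw [Prod.fst_sum]
      exact (sum_adj hk hI hl hB x v).symm
    · rw [Prod.snd_sum]
      funext y z
      rw [Finset.sum_apply, Finset.sum_apply]
      rfl
  rw [h1]
  refine Submodule.sum_mem _ fun t ht => Submodule.smul_mem _ _ ?_
  exact Gr_adj hB (Gr_J v (evw x (rot l t).2.1) (evw x (rot l t).2.2)) x l
    (rot l t).1 (rot_spec hl (hk t ht)).1

theorem GG_symm {k : T3 F} {L : Finset ℕ} (hk : k.Ml L) (hI : k.Id) {l : ℕ} (hl : l ∈ L)
    (hB : IsV B) (x : ℕ → B) (v y z : B) : GG k x l v y z = GG k x l v z y := by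
  have h1 := Gr_F1 hB.toIsMalcev (GG_mem hk hI hl hB x v) z y
  have h2 : Jac (0 : B) z y = 0 := by simp [Jac]
  simp only [h2, smul_zero, zero_mul, add_zero] at h1
  exact sub_eq_zero.1 h1

omit [CharZero F] [IsScalarTower F B B] [SMulCommClass F B B] in
theorem psi_eq {k : T3 F} {L : Finset ℕ} (hk : k.Ml L) {l : ℕ} (hl : l ∈ L)
    (hB : IsV B) (x : ℕ → B) (q y z : B) :
    k.psi (Function.update x l y) q z = - GG k x l q y z := by
  unfold T3.psi GG
  rw [Finsupp.sum, ← Finset.sum_neg_distrib]
  refine Finset.sum_congr rfl fun t ht => ?_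
  obtain ⟨h3, h4, h5⟩ := rot_spec hl (hk t ht)
  have h6 : ∀ w : FreeMagma ℕ, l ∉ content w → evw (Function.update x l y) w = evw x w := by
    intro w hw
    apply evw_congr
    intro i hi
    have hne : i ≠ l := fun h => hw (h ▸ hi)
    exact Function.update_of_ne hne _ _
  rw [← rot_P hB.toIsMalcev l t, h6 _ h4, h6 _ h5, P14 hB.toIsMalcev q, smul_neg]

end D2Aux

open D2Aux in
/-- the leg exchange -/
theorem T3.exch {k : T3 F} {L : Finset ℕ} (hk : k.Ml L) (hI : k.Id) {l : ℕ} (hl : l ∈ L)
    (B : Type u) [NonUnitalNonAssocRing B] [Module F B] [IsScalarTower F B B]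
    [SMulCommClass F B B] (hB : IsV B) (x : ℕ → B) (p p' q : B) :
    k.psi (Function.update x l p') q p = k.psi (Function.update x l p) q p' := by
  rw [psi_eq hk hl hB, psi_eq hk hl hB, GG_symm hk hI hl hB]

end Pool.Agent.Malc
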