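import Pool.Agent.Malc.D2

/-! # The exactness lemma: symmetrisation -/

set_option autoImplicit false

namespace Pool.Agent.Malc

universe u v

namespace D3Aux

section words

variable {B : Type v} [NonUnitalNonAssocRing B]

theorem evw_swap_of_notMem (y : ℕ → B) {i j : ℕ} {w : FreeMagma ℕ} (hi : i ∉ content w)
    (hj : j ∉ content w) : evw (y ∘ Equiv.swap i j) w = evw y w := by
  apply evw_congr
  intro k hk
  have h1 : k ≠ i := fun h => hi (h ▸ hk)
  have h2 : k ≠ j := fun h => hj (h ▸ hk)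
  rw [Function.comp_apply, Equiv.swap_apply_of_ne_of_ne h1 h2]

/-- a product of letters, each once, changes its sign under some transposition -/
theorem evw_swap_neg (h : IsMalcev B) (w : FreeMagma ℕ) (hw : (content w).Nodup)
    (hl : ∀ k, w ≠ FreeMagma.of k) : ∃ i ∈ content w, ∃ j ∈ content w, i ≠ j ∧
      ∀ y : ℕ → B, evw (y ∘ Equiv.swap i j) w = - evw y w := by
  induction w using FreeMagma.rec with
  | of k => exact absurd rfl (hl k)
  | mul a b iha ihb =>
    have hc : content (FreeMagma.mul a b) = content a + content b := rfl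
    have hev : ∀ y : ℕ → B, evw y (FreeMagma.mul a b) = evw y a * evw y b := fun _ => rfl
    rw [hc, Multiset.nodup_add] at hw
    obtain ⟨ha, hb, hd⟩ := hw
    have hd' : ∀ k, k ∈ content a → k ∉ content b := fun k hk hk' =>
      Multiset.disjoint_left.1 hd hk hk'
    by_cases h1 : ∀ k, a ≠ FreeMagma.of k
    · obtain ⟨i, hi, j, hj, hij, hs⟩ := iha ha h1
      refine ⟨i, ?_, j, ?_, hij, fun y => ?_⟩
      · rw [hc]; exact Multiset.mem_add.2 (Or.inl hi)
      · rw [hc]; exact Multiset.mem_add.2 (Or.inl hj)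
      · rw [hev, hev, hs, evw_swap_of_notMem y (hd' i hi) (hd' j hj), neg_mul]
    · push Not at h1
      obtain ⟨i, rfl⟩ := h1
      by_cases h2 : ∀ k, b ≠ FreeMagma.of k
      · obtain ⟨i', hi, j, hj, hij, hs⟩ := ihb hb h2
        refine ⟨i', ?_, j, ?_, hij, fun y => ?_⟩
        · rw [hc]; exact Multiset.mem_add.2 (Or.inr hi)
        · rw [hc]; exact Multiset.mem_add.2 (Or.inr hj)
        · rw [hev, hev, hs, evw_swap_of_notMem y (fun hc => hd' i' hc hi) (fun hc => hd' j hc hj),
            mul_neg]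
      · push Not at h2
        obtain ⟨j, rfl⟩ := h2
        have hi : i ∈ content (FreeMagma.of i) := Multiset.mem_singleton_self i
        have hj : j ∈ content (FreeMagma.of j) := Multiset.mem_singleton_self j
        refine ⟨i, ?_, j, ?_, ?_, fun y => ?_⟩
        · rw [hc]; exact Multiset.mem_add.2 (Or.inl hi)
        · rw [hc]; exact Multiset.mem_add.2 (Or.inr hj)
        · rintro rfl
          exact hd' i hi hj
        · rw [hev, hev]
          show y (Equiv.swap i j i) * y (Equiv.swap i j j) = -(y i * y j)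
          rw [Equiv.swap_apply_left, Equiv.swap_apply_right]
          exact h.anti _ _

end words

section term

variable {F : Type u} [Field F] [CharZero F] {B : Type u} [NonUnitalNonAssocRing B] [Module F B]
  [IsScalarTower F B B] [SMulCommClass F B B]

/-- one term -/
def term (p0 q0 : ℕ) (t : FreeMagma ℕ × FreeMagma ℕ × FreeMagma ℕ) (y : ℕ → B) : B :=
  P108 (evw y t.1) (evw y t.2.1) (evw y t.2.2) (y q0) (y p0)

/-- every term changes its sign under some transposition -/
theorem term_swap (F : Type u) [Field F] [Module F B] [IsScalarTower F B B] [SMulCommClass F B B]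
    (h : IsMalcev B) {L : Finset ℕ} {p0 q0 : ℕ} (hp : p0 ∉ L) (hq : q0 ∉ L)
    (t : FreeMagma ℕ × FreeMagma ℕ × FreeMagma ℕ)
    (ht : content t.1 + content t.2.1 + content t.2.2 = L.val) :
    ∃ i ∈ L, ∃ j ∈ L, ∀ y : ℕ → B, term p0 q0 t (y ∘ Equiv.swap i j) = - term p0 q0 t y := by
  obtain ⟨a, b, c⟩ := t
  simp only at ht
  have hnd : (content a + content b + content c).Nodup := by rw [ht]; exact L.nodup
  rw [Multiset.nodup_add, Multiset.nodup_add] at hnd
  obtain ⟨⟨ha, hb, hab⟩, hc, habc⟩ := hnd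
  have hab' : ∀ k, k ∈ content a → k ∉ content b := fun k hk hk' =>
    Multiset.disjoint_left.1 hab hk hk'
  have hac' : ∀ k, k ∈ content a → k ∉ content c := fun k hk hk' =>
    Multiset.disjoint_left.1 habc (Multiset.mem_add.2 (Or.inl hk)) hk'
  have hbc' : ∀ k, k ∈ content b → k ∉ content c := fun k hk hk' =>
    Multiset.disjoint_left.1 habc (Multiset.mem_add.2 (Or.inr hk)) hk'
  have haL : ∀ k, k ∈ content a → k ∈ L := fun k hk => by
    rw [← Finset.mem_val, ← ht]
    exact Multiset.mem_add.2 (Or.inl (Multiset.mem_add.2 (Or.inl hk)))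
  have hbL : ∀ k, k ∈ content b → k ∈ L := fun k hk => by
    rw [← Finset.mem_val, ← ht]
    exact Multiset.mem_add.2 (Or.inl (Multiset.mem_add.2 (Or.inr hk)))
  have hfix : ∀ (y : ℕ → B) {i j : ℕ}, i ∈ L → j ∈ L → (y ∘ Equiv.swap i j) p0 = y p0 ∧
      (y ∘ Equiv.swap i j) q0 = y q0 := by
    intro y i j hi hj
    constructor
    · rw [Function.comp_apply, Equiv.swap_apply_of_ne_of_ne]
      · rintro rfl; exact hp hi
      · rintro rfl; exact hp hj
    · rw [Function.comp_apply, Equiv.swap_apply_of_ne_of_ne]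
      · rintro rfl; exact hq hi
      · rintro rfl; exact hq hj
  by_cases h1 : ∀ k, a ≠ FreeMagma.of k
  · obtain ⟨i, hi, j, hj, -, hs⟩ := evw_swap_neg h a ha h1
    refine ⟨i, haL i hi, j, haL j hj, fun y => ?_⟩
    obtain ⟨e1, e2⟩ := hfix y (haL i hi) (haL j hj)
    unfold term
    rw [e1, e2]
    simp only
    rw [hs, evw_swap_of_notMem y (hab' i hi) (hab' j hj),
      evw_swap_of_notMem y (hac' i hi) (hac' j hj)]
    obtain ⟨f, hf⟩ := P108_lin_a F (evw y b) (evw y c) (y q0) (y p0)
    rw [← hf, ← hf, map_neg]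
  · push Not at h1
    obtain ⟨i, rfl⟩ := h1
    by_cases h2 : ∀ k, b ≠ FreeMagma.of k
    · obtain ⟨i', hi, j, hj, -, hs⟩ := evw_swap_neg h b hb h2
      refine ⟨i', hbL i' hi, j, hbL j hj, fun y => ?_⟩
      obtain ⟨e1, e2⟩ := hfix y (hbL i' hi) (hbL j hj)
      unfold term
      rw [e1, e2]
      simp only
      rw [hs, evw_swap_of_notMem y (fun hc => hab' i' hc hi) (fun hc => hab' j hc hj),
        evw_swap_of_notMem y (hbc' i' hi) (hbc' j hj)]
      obtain ⟨f, hf⟩ := P108_lin_b F (evw y (FreeMagma.of i)) (evw y c) (y q0) (y p0)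
      rw [← hf, ← hf, map_neg]
    · push Not at h2
      obtain ⟨j, rfl⟩ := h2
      have hi : i ∈ content (FreeMagma.of i) := Multiset.mem_singleton_self i
      have hj : j ∈ content (FreeMagma.of j) := Multiset.mem_singleton_self j
      refine ⟨i, haL i hi, j, hbL j hj, fun y => ?_⟩
      obtain ⟨e1, e2⟩ := hfix y (haL i hi) (hbL j hj)
      unfold term
      rw [e1, e2]
      simp only
      rw [evw_swap_of_notMem y (hac' i hi) (hbc' j hj)]
      have e3 : evw (y ∘ Equiv.swap i j) (FreeMagma.of i) = y j := by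
        show y (Equiv.swap i j i) = y j
        rw [Equiv.swap_apply_left]
      have e4 : evw (y ∘ Equiv.swap i j) (FreeMagma.of j) = y i := by
        show y (Equiv.swap i j j) = y i
        rw [Equiv.swap_apply_right]
      rw [e3, e4]
      exact h.P12 _ _ _ _ _

/-- the sum of a term over all permutations of a set vanishes -/
theorem sum_term (F : Type u) [Field F] [CharZero F] [Module F B] [IsScalarTower F B B]
    [SMulCommClass F B B] (h : IsMalcev B) {L M : Finset ℕ} (hLM : L ⊆ M) {p0 q0 : ℕ} (hp : p0 ∉ L)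
    (hq : q0 ∉ L) (t : FreeMagma ℕ × FreeMagma ℕ × FreeMagma ℕ)
    (ht : content t.1 + content t.2.1 + content t.2.2 = L.val) (y : ℕ → B) :
    ∑ s : Equiv.Perm M, term p0 q0 t (y ∘ Equiv.Perm.ofSubtype s) = 0 := by
  obtain ⟨i, hi, j, hj, hs⟩ := term_swap F h hp hq t ht
  have h1 : ∑ s : Equiv.Perm M, term p0 q0 t (y ∘ Equiv.Perm.ofSubtype s) =
      - ∑ s : Equiv.Perm M, term p0 q0 t (y ∘ Equiv.Perm.ofSubtype s) := by
    rw [← Finset.sum_neg_distrib]
    refine Fintype.sum_equiv (Equiv.mulRight (Equiv.swap (⟨i, hLM hi⟩ : M) ⟨j, hLM hj⟩)) _ _ ?_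
    intro s
    have h2 : (y ∘ Equiv.Perm.ofSubtype (s * Equiv.swap (⟨i, hLM hi⟩ : M) ⟨j, hLM hj⟩)) =
        (y ∘ Equiv.Perm.ofSubtype s) ∘ Equiv.swap i j := by
      rw [map_mul, Equiv.Perm.ofSubtype_swap_eq]
      rfl
    show _ = - term p0 q0 t (y ∘ Equiv.Perm.ofSubtype (s * Equiv.swap (⟨i, hLM hi⟩ : M) ⟨j, hLM hj⟩))
    rw [h2, hs, neg_neg]
  have h3 : (2 : F) • ∑ s : Equiv.Perm M, term p0 q0 t (y ∘ Equiv.Perm.ofSubtype s) = 0 := by
    rw [two_smul]
    nth_rewrite 1 [h1]
    rw [neg_add_cancel]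
  exact (smul_eq_zero.1 h3).resolve_left two_ne_zero

omit [CharZero F] [IsScalarTower F B B] [SMulCommClass F B B] in
/-- `psi` depends on the values on the letters only -/
theorem psi_congr {k : T3 F} {L : Finset ℕ} (hk : k.Ml L) {x y : ℕ → B} (hxy : ∀ i ∈ L, x i = y i)
    (q p : B) : k.psi x q p = k.psi y q p := by
  unfold T3.psi
  refine Finset.sum_congr rfl fun t ht => ?_
  have h1 := hk t ht
  have hm : ∀ i, i ∈ content t.1 + content t.2.1 + content t.2.2 → x i = y i := by
    intro i hi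
    rw [h1] at hi
    exact hxy i hi
  have e1 : evw x t.1 = evw y t.1 := evw_congr _ _ _ fun i hi =>
    hm i (Multiset.mem_add.2 (Or.inl (Multiset.mem_add.2 (Or.inl hi))))
  have e2 : evw x t.2.1 = evw y t.2.1 := evw_congr _ _ _ fun i hi =>
    hm i (Multiset.mem_add.2 (Or.inl (Multiset.mem_add.2 (Or.inr hi))))
  have e3 : evw x t.2.2 = evw y t.2.2 := evw_congr _ _ _ fun i hi =>
    hm i (Multiset.mem_add.2 (Or.inr hi))
  simp only [e1, e2, e3]

/-- `psi` is symmetric if the sum of the Jacobians vanishes -/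
theorem psi_symm {k : T3 F} (hI : k.Id) (hB : IsV B) (x : ℕ → B) (q p : B) :
    k.psi x q p = k.psi x p q := by
  have h0 : k.jac x = 0 := hI B hB x
  have h1 : k.psi x q p - k.psi x p q = 12 • Jac (k.jac x) p q + 36 • (k.jac x * (p * q)) := by
    obtain ⟨f, hf⟩ := Jac_lin1 F (B := B) p q
    rw [← hf]
    have h2 : f (k.jac x) = k.sum fun t r => r • f (Jac (evw x t.1) (evw x t.2.1) (evw x t.2.2)) := by
      unfold T3.jac Finsupp.sum
      rw [map_sum]
      exact Finset.sum_congr rfl fun t _ => map_smul _ _ _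
    have h3 : k.jac x * (p * q) = k.sum fun t r =>
        r • (Jac (evw x t.1) (evw x t.2.1) (evw x t.2.2) * (p * q)) := by
      unfold T3.jac Finsupp.sum
      rw [Finset.sum_mul]
      exact Finset.sum_congr rfl fun t _ => smul_mul_assoc _ _ _
    rw [h2, h3]
    unfold T3.psi Finsupp.sum
    rw [← Finset.sum_sub_distrib, Finset.smul_sum, Finset.smul_sum, ← Finset.sum_add_distrib]
    refine Finset.sum_congr rfl fun t _ => ?_
    rw [← smul_sub, F1 F hB.toIsMalcev, smul_add, ← hf, smul_comm (12 : ℕ), smul_comm (36 : ℕ)]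
  rw [h0] at h1
  have h4 : Jac (0 : B) p q = 0 := by
    unfold Jac
    simp
  rw [h4, zero_mul, smul_zero, smul_zero, add_zero, sub_eq_zero] at h1
  exact h1

/-- the symmetrised function -/
noncomputable def W (k : T3 F) (p0 q0 : ℕ) (y : ℕ → B) : B := k.psi y (y q0) (y p0)

theorem W_swap {k : T3 F} {L : Finset ℕ} (hk : k.Ml L) (hI : k.Id) (hB : IsV B) {p0 q0 : ℕ}
    (hp : p0 ∉ L) (hq : q0 ∉ L) (hpq : p0 ≠ q0) {l : ℕ} (hl : l ∈ insert q0 L) (y : ℕ → B) :
    W k p0 q0 (y ∘ Equiv.swap p0 l) = W k p0 q0 y := by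
  rcases Finset.mem_insert.1 hl with rfl | hl
  · unfold W
    have e1 : (y ∘ Equiv.swap p0 l) l = y p0 := by
      rw [Function.comp_apply, Equiv.swap_apply_right]
    have e2 : (y ∘ Equiv.swap p0 l) p0 = y l := by
      rw [Function.comp_apply, Equiv.swap_apply_left]
    rw [e1, e2, psi_symm hI hB]
    refine psi_congr hk (fun i hi => ?_) _ _
    rw [Function.comp_apply, Equiv.swap_apply_of_ne_of_ne]
    · rintro rfl; exact hp hi
    · rintro rfl; exact hq hi
  · unfold W
    have hlq : q0 ≠ l := by rintro rfl; exact hq hl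
    have e1 : (y ∘ Equiv.swap p0 l) q0 = y q0 := by
      rw [Function.comp_apply, Equiv.swap_apply_of_ne_of_ne hpq.symm hlq]
    have e2 : (y ∘ Equiv.swap p0 l) p0 = y l := by
      rw [Function.comp_apply, Equiv.swap_apply_left]
    rw [e1, e2]
    have e3 : k.psi (y ∘ Equiv.swap p0 l) (y q0) (y l) =
        k.psi (Function.update y l (y p0)) (y q0) (y l) := by
      refine psi_congr hk (fun i hi => ?_) _ _
      by_cases hil : i = l
      · subst hil
        rw [Function.comp_apply, Equiv.swap_apply_right, Function.update_self]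
      · rw [Function.update_of_ne hil, Function.comp_apply, Equiv.swap_apply_of_ne_of_ne _ hil]
        rintro rfl; exact hp hi
    rw [e3, T3.exch hk hI hl B hB, Function.update_eq_self]

theorem W_perm {k : T3 F} {L : Finset ℕ} (hk : k.Ml L) (hI : k.Id) (hB : IsV B) {p0 q0 : ℕ}
    (hp : p0 ∉ L) (hq : q0 ∉ L) (hpq : p0 ≠ q0)
    (s : Equiv.Perm ↥(insert p0 (insert q0 L))) : ∀ y : ℕ → B,
    W k p0 q0 (y ∘ Equiv.Perm.ofSubtype s) = W k p0 q0 y := by
  have hsw : ∀ a b : ↥(insert p0 (insert q0 L)), a ≠ b → ∀ y : ℕ → B,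
      W k p0 q0 (y ∘ Equiv.swap (a : ℕ) (b : ℕ)) = W k p0 q0 y := by
    intro a b hab y
    have hab' : (a : ℕ) ≠ b := fun h => hab (Subtype.ext h)
    rcases Finset.mem_insert.1 a.2 with ha | ha
    · rcases Finset.mem_insert.1 b.2 with hb | hb
      · exact absurd (ha.trans hb.symm) hab'
      · rw [ha]; exact W_swap hk hI hB hp hq hpq hb y
    · rcases Finset.mem_insert.1 b.2 with hb | hb
      · rw [hb, Equiv.swap_comm]; exact W_swap hk hI hB hp hq hpq ha y
      · by_cases hap : (a : ℕ) = p0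
        · rw [hap]; exact W_swap hk hI hB hp hq hpq hb y
        by_cases hbp : (b : ℕ) = p0
        · rw [hbp, Equiv.swap_comm]; exact W_swap hk hI hB hp hq hpq ha y
        have e : (Equiv.swap (a : ℕ) (b : ℕ)) =
            Equiv.swap p0 (a : ℕ) * Equiv.swap p0 (b : ℕ) * Equiv.swap p0 (a : ℕ) := by
          rw [Equiv.swap_comm p0 (b : ℕ)]
          exact (Equiv.swap_mul_swap_mul_swap hbp hab'.symm).symm
        have e' : (y ∘ Equiv.swap (a : ℕ) (b : ℕ)) =
            (((y ∘ Equiv.swap p0 (a : ℕ)) ∘ Equiv.swap p0 (b : ℕ)) ∘ Equiv.swap p0 (a : ℕ)) := by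
          rw [e]
          rfl
        rw [e', W_swap hk hI hB hp hq hpq ha, W_swap hk hI hB hp hq hpq hb,
          W_swap hk hI hB hp hq hpq ha]
  induction s using Equiv.Perm.swap_induction_on with
  | one =>
    intro y
    rw [map_one]
    rfl
  | swap_mul f a b hab ih =>
    intro y
    have e : (y ∘ Equiv.Perm.ofSubtype (Equiv.swap a b * f)) =
        (y ∘ Equiv.swap (a : ℕ) (b : ℕ)) ∘ Equiv.Perm.ofSubtype f := by
      rw [map_mul, Equiv.Perm.ofSubtype_swap_eq]
      rfl
    rw [e, ih, hsw a b hab]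

end term

end D3Aux

open D3Aux

variable {F : Type u} [Field F] [CharZero F]

/-- **The exactness lemma.** -/
theorem T3.psi_eq_zero {k : T3 F} {L : Finset ℕ} (hk : k.Ml L) (hI : k.Id)
    (B : Type u) [NonUnitalNonAssocRing B] [Module F B] [IsScalarTower F B B]
    [SMulCommClass F B B] (hB : IsV B) (x : ℕ → B) (p q : B) : k.psi x q p = 0 := by
  obtain ⟨p0, hp⟩ := Infinite.exists_notMem_finset L
  obtain ⟨q0, hq⟩ := Infinite.exists_notMem_finset (insert p0 L)
  rw [Finset.mem_insert, not_or] at hq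
  obtain ⟨hqp, hq⟩ := hq
  obtain ⟨y, hy⟩ : ∃ y, y = Function.update (Function.update x p0 p) q0 q := ⟨_, rfl⟩
  have e1 : y q0 = q := by rw [hy, Function.update_self]
  have e2 : y p0 = p := by rw [hy, Function.update_of_ne (Ne.symm hqp), Function.update_self]
  have e3 : k.psi x q p = W k p0 q0 y := by
    unfold W
    rw [e1, e2]
    refine psi_congr hk (fun i hi => ?_) _ _
    rw [hy, Function.update_of_ne, Function.update_of_ne]
    · rintro rfl; exact hp hi
    · rintro rfl; exact hq hi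
  rw [e3]
  obtain ⟨M, hM⟩ : ∃ M, M = insert p0 (insert q0 L) := ⟨_, rfl⟩
  have hLM : L ⊆ M := by
    rw [hM]
    exact (Finset.subset_insert _ _).trans (Finset.subset_insert _ _)
  have h1 : ∑ s : Equiv.Perm M, W k p0 q0 (y ∘ Equiv.Perm.ofSubtype s) = 0 := by
    have h2 : ∀ z : ℕ → B, W k p0 q0 z = ∑ t ∈ k.support, k t • term p0 q0 t z := fun _ => rfl
    simp_rw [h2]
    rw [Finset.sum_comm]
    refine Finset.sum_eq_zero fun t ht => ?_
    rw [← Finset.smul_sum, sum_term F hB.toIsMalcev hLM hp hq t (hk t ht) y, smul_zero]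
  have h3 : ∑ s : Equiv.Perm M, W k p0 q0 (y ∘ Equiv.Perm.ofSubtype s) =
      ((Fintype.card (Equiv.Perm M) : ℕ) : F) • W k p0 q0 y := by
    have h4 : ∀ s : Equiv.Perm M, W k p0 q0 (y ∘ Equiv.Perm.ofSubtype s) = W k p0 q0 y := by
      subst hM
      intro s
      exact W_perm hk hI hB hp hq (Ne.symm hqp) s y
    simp_rw [h4]
    rw [Finset.sum_const, Finset.card_univ, ← Nat.cast_smul_eq_nsmul F]
  rw [h3] at h1
  refine (smul_eq_zero.1 h1).resolve_left ?_
  exact Nat.cast_ne_zero.2 Fintype.card_ne_zero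

end Pool.Agent.Malc
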