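import Mathlib

/-! # Malcev algebras: definitions

`Jac`, Malcev algebras, ideals, derivations, the free Malcev algebra, the Lie center. -/

set_option autoImplicit false

namespace Pool.Agent.Malc

universe u v w

section Basic

variable {A : Type u} [NonUnitalNonAssocRing A]

/-- the Jacobian -/
def Jac (x y z : A) : A := (x * y) * z + (y * z) * x + (z * x) * y

variable (A) in
/-- Malcev algebras -/
structure IsMalcev : Prop where
  sq : ∀ x : A, x * x = 0
  mal : ∀ x y z : A, Jac x y (x * z) = Jac x y z * x

variable (A) in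
/-- the Lie center -/
def lieCenter : Set A := {z | ∀ x y : A, Jac z x y = 0}

end Basic

section Ideals

variable {F : Type u} [Field F] {A : Type v} [NonUnitalNonAssocRing A] [Module F A]

/-- two-sided ideals -/
def IsIdl (I : Submodule F A) : Prop := ∀ a ∈ I, ∀ b : A, a * b ∈ I ∧ b * a ∈ I

/-- derivations -/
def IsDer (D : A →ₗ[F] A) : Prop := ∀ a b : A, D (a * b) = D a * b + a * D b

/-- trivial subspaces -/
def IsTriv (I : Submodule F A) : Prop := ∀ a ∈ I, ∀ b ∈ I, a * b = 0

/-- characteristic subspaces -/
def IsChar (I : Submodule F A) : Prop := ∀ D : A →ₗ[F] A, IsDer D → ∀ a ∈ I, D a ∈ I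

end Ideals

section Free

variable (F : Type u) [Field F] (X : Type v)

/-- the ideal of the Malcev identities in the free nonassociative algebra -/
noncomputable def malIdeal : Submodule F (FreeNonUnitalNonAssocAlgebra F X) :=
  sInf {I | IsIdl I ∧ (∀ x, x * x ∈ I) ∧ ∀ x y z, Jac x y (x * z) - Jac x y z * x ∈ I}

/-- the free Malcev algebra on `X` -/
def FreeMalcev : Type (max u v) := FreeNonUnitalNonAssocAlgebra F X ⧸ malIdeal F X

variable {F X}

theorem malIdeal_idl : IsIdl (malIdeal F X) := by
  intro a ha b
  unfold malIdeal at ha ⊢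
  rw [Submodule.mem_sInf] at ha
  simp only [Submodule.mem_sInf]
  exact ⟨fun I hI => (hI.1 a (ha I hI) b).1, fun I hI => (hI.1 a (ha I hI) b).2⟩

theorem malIdeal_sq (x : FreeNonUnitalNonAssocAlgebra F X) : x * x ∈ malIdeal F X := by
  unfold malIdeal
  rw [Submodule.mem_sInf]
  exact fun I hI => hI.2.1 x

theorem malIdeal_mal (x y z : FreeNonUnitalNonAssocAlgebra F X) :
    Jac x y (x * z) - Jac x y z * x ∈ malIdeal F X := by
  unfold malIdeal
  rw [Submodule.mem_sInf]
  exact fun I hI => hI.2.2 x y z

theorem malIdeal_le {I : Submodule F (FreeNonUnitalNonAssocAlgebra F X)} (h1 : IsIdl I)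
    (h2 : ∀ x, x * x ∈ I) (h3 : ∀ x y z, Jac x y (x * z) - Jac x y z * x ∈ I) :
    malIdeal F X ≤ I := by
  unfold malIdeal
  exact sInf_le ⟨h1, h2, h3⟩

namespace FreeMalcev

noncomputable instance : AddCommGroup (FreeMalcev F X) :=
  inferInstanceAs (AddCommGroup (FreeNonUnitalNonAssocAlgebra F X ⧸ malIdeal F X))

noncomputable instance : Module F (FreeMalcev F X) :=
  inferInstanceAs (Module F (FreeNonUnitalNonAssocAlgebra F X ⧸ malIdeal F X))

/-- the quotient map -/
noncomputable def mk : FreeNonUnitalNonAssocAlgebra F X →ₗ[F] FreeMalcev F X :=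
  (malIdeal F X).mkQ

theorem mk_surj : Function.Surjective (mk : FreeNonUnitalNonAssocAlgebra F X →ₗ[F] _) :=
  Submodule.mkQ_surjective _

theorem mk_eq_zero {a : FreeNonUnitalNonAssocAlgebra F X} : mk a = 0 ↔ a ∈ malIdeal F X :=
  Submodule.Quotient.mk_eq_zero _

theorem mk_eq {a b : FreeNonUnitalNonAssocAlgebra F X} : mk a = mk b ↔ a - b ∈ malIdeal F X :=
  Submodule.Quotient.eq _

/-- the product -/
noncomputable def mulL : FreeMalcev F X →ₗ[F] FreeMalcev F X →ₗ[F] FreeMalcev F X :=
  (malIdeal F X).liftQ
    { toFun := fun a => (malIdeal F X).liftQ (mk ∘ₗ LinearMap.mulLeft F a) (by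
        intro b hb
        rw [LinearMap.mem_ker, LinearMap.comp_apply, LinearMap.mulLeft_apply, mk_eq_zero]
        exact (malIdeal_idl b hb a).2)
      map_add' := by
        intro a b
        apply LinearMap.ext
        intro x
        obtain ⟨x, rfl⟩ := mk_surj x
        show mk ((a + b) * x) = mk (a * x) + mk (b * x)
        rw [add_mul, map_add]
      map_smul' := by
        intro r a
        apply LinearMap.ext
        intro x
        obtain ⟨x, rfl⟩ := mk_surj x
        show mk ((r • a) * x) = r • mk (a * x)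
        rw [smul_mul_assoc, map_smul] } (by
    intro a ha
    rw [LinearMap.mem_ker]
    apply LinearMap.ext
    intro x
    obtain ⟨x, rfl⟩ := mk_surj x
    show mk (a * x) = 0
    rw [mk_eq_zero]
    exact (malIdeal_idl a ha x).1)

noncomputable instance : Mul (FreeMalcev F X) := ⟨fun a b => mulL a b⟩

theorem mk_mul (a b : FreeNonUnitalNonAssocAlgebra F X) : mk (a * b) = mk a * mk b := rfl

theorem mul_def (a b : FreeMalcev F X) : a * b = mulL a b := rfl

noncomputable instance : NonUnitalNonAssocRing (FreeMalcev F X) where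
  left_distrib := fun a b c => by simp only [mul_def, map_add]
  right_distrib := fun a b c => by simp only [mul_def, map_add, LinearMap.add_apply]
  zero_mul := fun a => by simp only [mul_def, map_zero, LinearMap.zero_apply]
  mul_zero := fun a => by simp only [mul_def, map_zero]

instance : IsScalarTower F (FreeMalcev F X) (FreeMalcev F X) where
  smul_assoc := fun r a b => by
    show mulL (r • a) b = r • mulL a b
    rw [map_smul, LinearMap.smul_apply]

instance : SMulCommClass F (FreeMalcev F X) (FreeMalcev F X) where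
  smul_comm := fun r a b => by
    show r • mulL a b = mulL a (r • b)
    rw [map_smul]

/-- the quotient map as a homomorphism -/
noncomputable def mkHom : FreeNonUnitalNonAssocAlgebra F X →ₙₐ[F] FreeMalcev F X where
  toFun := mk
  map_smul' := fun r a => map_smul mk r a
  map_zero' := map_zero mk
  map_add' := map_add mk
  map_mul' := mk_mul

theorem isMalcev : IsMalcev (FreeMalcev F X) where
  sq := fun x => by
    obtain ⟨x, rfl⟩ := mk_surj x
    rw [← mk_mul, mk_eq_zero]
    exact malIdeal_sq x
  mal := fun x y z => by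
    obtain ⟨x, rfl⟩ := mk_surj x
    obtain ⟨y, rfl⟩ := mk_surj y
    obtain ⟨z, rfl⟩ := mk_surj z
    unfold Jac
    simp only [← mk_mul, ← map_add]
    rw [mk_eq]
    exact malIdeal_mal x y z

/-- the generators -/
noncomputable def of (x : X) : FreeMalcev F X := mk (FreeNonUnitalNonAssocAlgebra.of F x)

section lift

variable {A : Type w} [NonUnitalNonAssocRing A] [Module F A] [IsScalarTower F A A]
  [SMulCommClass F A A]

omit [IsScalarTower F A A] [SMulCommClass F A A] in
theorem le_ker (hA : IsMalcev A) (f : FreeNonUnitalNonAssocAlgebra F X →ₙₐ[F] A) :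
    malIdeal F X ≤ LinearMap.ker (f : FreeNonUnitalNonAssocAlgebra F X →ₗ[F] A) := by
  apply malIdeal_le
  · intro a ha b
    rw [LinearMap.mem_ker] at ha
    have ha' : f a = 0 := ha
    constructor
    · show f (a * b) = 0
      rw [map_mul, ha', zero_mul]
    · show f (b * a) = 0
      rw [map_mul, ha', mul_zero]
  · intro x
    show f (x * x) = 0
    rw [map_mul, hA.sq]
  · intro x y z
    show f (Jac x y (x * z) - Jac x y z * x) = 0
    have := hA.mal (f x) (f y) (f z)
    unfold Jac at this ⊢
    simp only [map_sub, map_add, map_mul]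
    rw [this, sub_self]

/-- the universal property -/
noncomputable def lift (hA : IsMalcev A) (f : X → A) : FreeMalcev F X →ₙₐ[F] A where
  toFun := (malIdeal F X).liftQ
    ((FreeNonUnitalNonAssocAlgebra.lift F f : FreeNonUnitalNonAssocAlgebra F X →ₙₐ[F] A) :
      FreeNonUnitalNonAssocAlgebra F X →ₗ[F] A) (le_ker hA _)
  map_smul' := fun r a => map_smul _ r a
  map_zero' := map_zero _
  map_add' := fun a b => map_add _ a b
  map_mul' := fun a b => by
    obtain ⟨a, rfl⟩ := mk_surj a
    obtain ⟨b, rfl⟩ := mk_surj b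
    exact map_mul (FreeNonUnitalNonAssocAlgebra.lift F f) a b

theorem lift_mk (hA : IsMalcev A) (f : X → A) (a : FreeNonUnitalNonAssocAlgebra F X) :
    lift hA f (mk a) = FreeNonUnitalNonAssocAlgebra.lift F f a := rfl

@[simp] theorem lift_of (hA : IsMalcev A) (f : X → A) (x : X) :
    lift (F := F) hA f (of x) = f x := by
  show FreeNonUnitalNonAssocAlgebra.lift F f (FreeNonUnitalNonAssocAlgebra.of F x) = f x
  exact FreeNonUnitalNonAssocAlgebra.lift_of_apply F f x

theorem hom_ext {f g : FreeMalcev F X →ₙₐ[F] A} (h : ∀ x, f (of x) = g (of x)) : f = g := by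
  have h1 : f.comp mkHom = g.comp mkHom := by
    apply FreeNonUnitalNonAssocAlgebra.hom_ext
    exact h
  apply NonUnitalAlgHom.ext
  intro a
  obtain ⟨a, rfl⟩ := mk_surj a
  exact DFunLike.congr_fun h1 a

theorem lift_unique (hA : IsMalcev A) (f : X → A) (g : FreeMalcev F X →ₙₐ[F] A)
    (h : ∀ x, g (of x) = f x) : g = lift hA f :=
  hom_ext fun x => by rw [h, lift_of]

end lift

end FreeMalcev

end Free

end Pool.Agent.Malc
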