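import Pool.Agent.Malc.MGrad

/-! # Derivations of the free Malcev algebra -/

set_option autoImplicit false

namespace Pool.Agent.Malc

universe u v

variable {F : Type u} [Field F]

namespace DerAux

/-- the dual numbers over an algebra -/
@[ext] structure Eps (A : Type v) : Type v where
  a : A
  b : A

namespace Eps

variable {A : Type v} [NonUnitalNonAssocRing A] [Module F A]

instance : Zero (Eps A) := ⟨⟨0, 0⟩⟩
instance : Add (Eps A) := ⟨fun x y => ⟨x.a + y.a, x.b + y.b⟩⟩
instance : Neg (Eps A) := ⟨fun x => ⟨-x.a, -x.b⟩⟩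
instance : SMul F (Eps A) := ⟨fun r x => ⟨r • x.a, r • x.b⟩⟩
instance : Mul (Eps A) := ⟨fun x y => ⟨x.a * y.a, x.a * y.b + x.b * y.a⟩⟩

@[simp] theorem zero_a : (0 : Eps A).a = 0 := rfl
@[simp] theorem zero_b : (0 : Eps A).b = 0 := rfl
@[simp] theorem add_a (x y : Eps A) : (x + y).a = x.a + y.a := rfl
@[simp] theorem add_b (x y : Eps A) : (x + y).b = x.b + y.b := rfl
@[simp] theorem neg_a (x : Eps A) : (-x).a = -x.a := rfl
@[simp] theorem neg_b (x : Eps A) : (-x).b = -x.b := rfl
@[simp] theorem smul_a (r : F) (x : Eps A) : (r • x).a = r • x.a := rfl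
@[simp] theorem smul_b (r : F) (x : Eps A) : (r • x).b = r • x.b := rfl
@[simp] theorem mul_a (x y : Eps A) : (x * y).a = x.a * y.a := rfl
@[simp] theorem mul_b (x y : Eps A) : (x * y).b = x.a * y.b + x.b * y.a := rfl

instance : NonUnitalNonAssocRing (Eps A) where
  add_assoc := fun x y z => by ext <;> simp [add_assoc]
  zero_add := fun x => by ext <;> simp
  add_zero := fun x => by ext <;> simp
  add_comm := fun x y => by ext <;> simp [add_comm]
  neg_add_cancel := fun x => by ext <;> simp
  nsmul := nsmulRec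
  zsmul := zsmulRec
  left_distrib := fun x y z => by
    ext
    · simp [mul_add]
    · simp only [mul_b, add_b, add_a, mul_add]
      abel
  right_distrib := fun x y z => by
    ext
    · simp [add_mul]
    · simp only [mul_b, add_b, add_a, add_mul]
      abel
  zero_mul := fun x => by ext <;> simp
  mul_zero := fun x => by ext <;> simp

instance : Module F (Eps A) where
  one_smul := fun x => by ext <;> simp
  mul_smul := fun r t x => by ext <;> simp [mul_smul]
  smul_zero := fun r => by ext <;> simp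
  smul_add := fun r x y => by ext <;> simp
  add_smul := fun r t x => by ext <;> simp [add_smul]
  zero_smul := fun x => by ext <;> simp

instance [IsScalarTower F A A] [SMulCommClass F A A] : IsScalarTower F (Eps A) (Eps A) where
  smul_assoc := fun r x y => by
    ext
    · simp [smul_mul_assoc]
    · simp only [smul_eq_mul, mul_b, smul_a, smul_b, smul_mul_assoc, smul_add]

instance [IsScalarTower F A A] [SMulCommClass F A A] : SMulCommClass F (Eps A) (Eps A) where
  smul_comm := fun r x y => by
    ext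
    · simp [mul_smul_comm]
    · simp only [smul_eq_mul, mul_b, smul_a, smul_b, mul_smul_comm, smul_add]

theorem isMalcev (h : IsMalcev A) : IsMalcev (Eps A) where
  sq := fun x => by
    ext
    · exact h.sq x.a
    · have h1 := h.sq (x.a + x.b)
      rw [add_mul, mul_add, mul_add, h.sq, h.sq, zero_add, add_zero] at h1
      exact h1
  mal := fun x y z => by
    ext
    · exact h.mal x.a y.a z.a
    · have h1 := h.mal (x.a + x.b) y.a z.a
      have h2 := h.mal x.a y.b z.a
      have h3 := h.mal x.a y.a z.b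
      have h4 := h.mal x.a y.a z.a
      have h5 := h.mal x.b y.a z.a
      unfold Jac at h1 h2 h3 h4 h5 ⊢
      simp only [add_b, mul_a, mul_b, mul_add, add_mul] at h1 h2 h3 h4 h5 ⊢
      linear_combination (norm := abel) h1 + h2 + h3 - h4 - h5

end Eps

end DerAux

/-- every map of the generators extends to a derivation -/
theorem exists_der {X : Type v} (d : X → FreeMalcev F X) :
    ∃ D : FreeMalcev F X →ₗ[F] FreeMalcev F X, IsDer D ∧ ∀ x, D (FreeMalcev.of x) = d x := by
  let f : FreeMalcev F X →ₙₐ[F] DerAux.Eps (FreeMalcev F X) :=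
    FreeMalcev.lift (DerAux.Eps.isMalcev FreeMalcev.isMalcev) (fun x => ⟨FreeMalcev.of x, d x⟩)
  have hf : ∀ x, f (FreeMalcev.of x) = ⟨FreeMalcev.of x, d x⟩ := fun x =>
    FreeMalcev.lift_of _ _ x
  let p : FreeMalcev F X →ₙₐ[F] FreeMalcev F X :=
    { toFun := fun y => (f y).a
      map_smul' := fun r y => by rw [map_smul]; rfl
      map_zero' := by rw [map_zero]; rfl
      map_add' := fun y z => by rw [map_add]; rfl
      map_mul' := fun y z => by rw [map_mul]; rfl }
  have hp : p = NonUnitalAlgHom.id F (FreeMalcev F X) := by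
    apply FreeMalcev.hom_ext
    intro x
    change (f (FreeMalcev.of x)).a = FreeMalcev.of x
    rw [hf]
  have hpa : ∀ y, (f y).a = y := fun y => DFunLike.congr_fun hp y
  refine ⟨{ toFun := fun y => (f y).b
            map_add' := fun y z => by rw [map_add]; rfl
            map_smul' := fun r y => by rw [map_smul]; rfl }, ?_, ?_⟩
  · intro a b
    change (f (a * b)).b = (f a).b * b + a * (f b).b
    rw [map_mul, DerAux.Eps.mul_b, hpa, hpa, add_comm]
  · intro x
    change (f (FreeMalcev.of x)).b = d x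
    rw [hf]

namespace DerAux

theorem der_evw {B : Type v} [NonUnitalNonAssocRing B] [Module F B] [IsScalarTower F B B]
    [SMulCommClass F B B] (D : B →ₗ[F] B) (hD : IsDer D) (x : ℕ → B) (w : FreeMagma ℕ)
    (hw : (content w).Nodup) :
    D (evw x w) = ∑ i ∈ (content w).toFinset, evw (Function.update x i (D (x i))) w := by
  induction w using FreeMagma.rec with
  | of i =>
    change D (x i) = ∑ k ∈ ({i} : Multiset ℕ).toFinset, Function.update x k (D (x k)) i
    rw [Multiset.toFinset_singleton, Finset.sum_singleton, Function.update_self]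
  | mul a b iha ihb =>
    have hw' : (content a + content b).Nodup := hw
    obtain ⟨h1, h2, h3⟩ := Multiset.nodup_add.1 hw'
    change D (evw x a * evw x b) = ∑ i ∈ (content a + content b).toFinset,
      evw (Function.update x i (D (x i))) a * evw (Function.update x i (D (x i))) b
    have hdisj : Disjoint (content a).toFinset (content b).toFinset := by
      rw [Finset.disjoint_left]
      intro i hi hi'
      exact Multiset.disjoint_left.1 h3 (Multiset.mem_toFinset.1 hi) (Multiset.mem_toFinset.1 hi')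
    rw [hD, iha h1, ihb h2, Multiset.toFinset_add, Finset.sum_union hdisj, Finset.sum_mul,
      Finset.mul_sum]
    congr 1
    · refine Finset.sum_congr rfl fun i hi => ?_
      congr 1
      refine evw_congr _ _ _ fun k hk => ?_
      rw [Function.update_of_ne]
      rintro rfl
      exact Multiset.disjoint_left.1 h3 (Multiset.mem_toFinset.1 hi) hk
    · refine Finset.sum_congr rfl fun i hi => ?_
      congr 1
      refine evw_congr _ _ _ fun k hk => ?_
      rw [Function.update_of_ne]
      rintro rfl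
      exact Multiset.disjoint_left.1 h3 hk (Multiset.mem_toFinset.1 hi)

end DerAux

/-- a derivation of a multilinear expression -/
theorem der_ev {B : Type v} [NonUnitalNonAssocRing B] [Module F B] [IsScalarTower F B B]
    [SMulCommClass F B B] (D : B →ₗ[F] B) (hD : IsDer D) {L : Finset ℕ} {p : FA F}
    (hp : p ∈ Hg F L.val) (x : ℕ → B) :
    D (ev x p) = ∑ i ∈ L, ev (Function.update x i (D (x i))) p := by
  unfold Hg at hp
  refine Submodule.span_induction (p := fun p _ => D (ev x p) =
    ∑ i ∈ L, ev (Function.update x i (D (x i))) p) ?_ ?_ ?_ ?_ hp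
  · rintro _ ⟨w, hw, rfl⟩
    have h1 := DerAux.der_evw D hD x w (by rw [hw]; exact L.nodup)
    rw [hw, Finset.val_toFinset] at h1
    rw [ev_wd, h1]
    exact Finset.sum_congr rfl fun i _ => (ev_wd _ w).symm
  · rw [map_zero, map_zero]
    exact (Finset.sum_eq_zero fun i _ => map_zero _).symm
  · intro p q _ _ hp hq
    rw [map_add, map_add, hp, hq, ← Finset.sum_add_distrib]
    exact Finset.sum_congr rfl fun i _ => (map_add _ p q).symm
  · intro r p _ hp
    rw [map_smul, map_smul, hp, Finset.smul_sum]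
    exact Finset.sum_congr rfl fun i _ => (map_smul _ r p).symm

namespace DerAux

theorem count_word (D : FreeMalcev F ℕ →ₗ[F] FreeMalcev F ℕ) (hD : IsDer D) (i : ℕ)
    (h1 : D (FreeMalcev.of i) = FreeMalcev.of i) (h2 : ∀ j, j ≠ i → D (FreeMalcev.of j) = 0)
    (w : FreeMagma ℕ) : D (wdM w) = (((content w).count i : ℕ) : F) • wdM w := by
  induction w using FreeMagma.rec with
  | of k =>
    rw [← of_eq_wdM]
    change _ = (((({k} : Multiset ℕ)).count i : ℕ) : F) • _
    by_cases hk : k = i
    · subst hk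
      rw [h1, Multiset.count_singleton_self, Nat.cast_one, one_smul]
    · rw [h2 k hk, Multiset.count_eq_zero_of_notMem (by
        rw [Multiset.mem_singleton]; exact fun h => hk h.symm), Nat.cast_zero, zero_smul]
  | mul a b iha ihb =>
    rw [← wdM_mul, hD, iha, ihb]
    change _ = (((content a + content b).count i : ℕ) : F) • _
    rw [Multiset.count_add, Nat.cast_add, add_smul, smul_mul_assoc, mul_smul_comm]

end DerAux

/-- the Euler derivations -/
theorem der_count (D : FreeMalcev F ℕ →ₗ[F] FreeMalcev F ℕ) (hD : IsDer D) (i : ℕ)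
    (h1 : D (FreeMalcev.of i) = FreeMalcev.of i) (h2 : ∀ j, j ≠ i → D (FreeMalcev.of j) = 0)
    {m : Multiset ℕ} {p : FreeMalcev F ℕ} (hp : p ∈ GM F m) : D p = (m.count i : F) • p := by
  rw [GM_eq] at hp
  refine Submodule.span_induction (p := fun p _ => D p = (m.count i : F) • p) ?_ ?_ ?_ ?_ hp
  · rintro _ ⟨w, rfl, rfl⟩
    exact DerAux.count_word D hD i h1 h2 w
  · rw [map_zero, smul_zero]
  · intro p q _ _ hp hq
    rw [map_add, hp, hq, smul_add]
  · intro r p _ hp
    rw [map_smul, hp, smul_comm]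

namespace DerAux

theorem move_word (D : FreeMalcev F ℕ →ₗ[F] FreeMalcev F ℕ) (hD : IsDer D) (i j : ℕ)
    (h1 : D (FreeMalcev.of i) = FreeMalcev.of j) (h2 : ∀ k, k ≠ i → D (FreeMalcev.of k) = 0)
    (w : FreeMagma ℕ) : (i ∉ content w → D (wdM w) = 0) ∧
      (i ∈ content w → D (wdM w) ∈ GM F (j ::ₘ (content w).erase i)) := by
  induction w using FreeMagma.rec with
  | of k =>
    rw [← of_eq_wdM]
    change (i ∉ ({k} : Multiset ℕ) → _) ∧ (i ∈ ({k} : Multiset ℕ) → _ ∈
      GM F (j ::ₘ ({k} : Multiset ℕ).erase i))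
    rw [Multiset.mem_singleton]
    refine ⟨fun h => h2 k fun h' => h h'.symm, ?_⟩
    rintro rfl
    rw [h1, Multiset.erase_singleton, of_eq_wdM, GM_eq]
    exact Submodule.subset_span ⟨FreeMagma.of j, rfl, rfl⟩
  | mul a b iha ihb =>
    have hwa : (wdM a : FreeMalcev F ℕ) ∈ GM F (content a) := by
      rw [GM_eq]
      exact Submodule.subset_span ⟨a, rfl, rfl⟩
    have hwb : (wdM b : FreeMalcev F ℕ) ∈ GM F (content b) := by
      rw [GM_eq]
      exact Submodule.subset_span ⟨b, rfl, rfl⟩
    rw [← wdM_mul, hD]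
    change (i ∉ content a + content b → _) ∧ (i ∈ content a + content b → _ ∈
      GM F (j ::ₘ (content a + content b).erase i))
    refine ⟨fun h => ?_, fun _ => ?_⟩
    · rw [Multiset.mem_add, not_or] at h
      rw [iha.1 h.1, ihb.1 h.2, zero_mul, mul_zero, add_zero]
    · refine Submodule.add_mem _ ?_ ?_
      · by_cases hi : i ∈ content a
        · rw [Multiset.erase_add_left_pos _ hi, ← Multiset.cons_add]
          exact GM_mul (iha.2 hi) hwb
        · rw [iha.1 hi, zero_mul]
          exact Submodule.zero_mem _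
      · by_cases hi : i ∈ content b
        · rw [Multiset.erase_add_right_pos _ hi, ← Multiset.add_cons]
          exact GM_mul hwa (ihb.2 hi)
        · rw [ihb.1 hi, mul_zero]
          exact Submodule.zero_mem _

theorem hom_word (f : FreeMalcev F ℕ →ₙₐ[F] FreeMalcev F ℕ) (j : ℕ)
    (hf : ∀ k, k ≠ j → f (FreeMalcev.of k) = FreeMalcev.of k) (w : FreeMagma ℕ)
    (hw : j ∉ content w) : f (wdM w) = wdM w := by
  induction w using FreeMagma.rec with
  | of k =>
    rw [← of_eq_wdM]
    refine hf k ?_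
    rintro rfl
    exact hw (Multiset.mem_singleton_self _)
  | mul a b iha ihb =>
    have hw' : j ∉ content a + content b := hw
    rw [Multiset.mem_add, not_or] at hw'
    rw [← wdM_mul, map_mul, iha hw'.1, ihb hw'.2]

theorem back_word (D : FreeMalcev F ℕ →ₗ[F] FreeMalcev F ℕ) (hD : IsDer D) (i j : ℕ)
    (h1 : D (FreeMalcev.of i) = FreeMalcev.of j) (h2 : ∀ k, k ≠ i → D (FreeMalcev.of k) = 0)
    (f : FreeMalcev F ℕ →ₙₐ[F] FreeMalcev F ℕ) (hj : f (FreeMalcev.of j) = FreeMalcev.of i)
    (hf : ∀ k, k ≠ j → f (FreeMalcev.of k) = FreeMalcev.of k) (w : FreeMagma ℕ)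
    (hw : j ∉ content w) : f (D (wdM w)) = (((content w).count i : ℕ) : F) • wdM w := by
  induction w using FreeMagma.rec with
  | of k =>
    rw [← of_eq_wdM]
    change _ = (((({k} : Multiset ℕ)).count i : ℕ) : F) • _
    by_cases hk : k = i
    · subst hk
      rw [h1, hj, Multiset.count_singleton_self, Nat.cast_one, one_smul]
    · rw [h2 k hk, Multiset.count_eq_zero_of_notMem (by
        rw [Multiset.mem_singleton]; exact fun h => hk h.symm), Nat.cast_zero, zero_smul, map_zero]
  | mul a b iha ihb =>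
    have hw' : j ∉ content a + content b := hw
    rw [Multiset.mem_add, not_or] at hw'
    rw [← wdM_mul, hD, map_add, map_mul, map_mul, iha hw'.1, ihb hw'.2,
      hom_word f j hf a hw'.1, hom_word f j hf b hw'.2]
    change _ = (((content a + content b).count i : ℕ) : F) • _
    rw [Multiset.count_add, Nat.cast_add, add_smul, smul_mul_assoc, mul_smul_comm]

end DerAux

/-- replacing one occurrence of the letter `i` by `j` -/
theorem der_move (D : FreeMalcev F ℕ →ₗ[F] FreeMalcev F ℕ) (hD : IsDer D) (i j : ℕ)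
    (h1 : D (FreeMalcev.of i) = FreeMalcev.of j) (h2 : ∀ k, k ≠ i → D (FreeMalcev.of k) = 0)
    {m : Multiset ℕ} {p : FreeMalcev F ℕ} (hp : p ∈ GM F m) (hi : i ∈ m) :
    D p ∈ GM F (j ::ₘ m.erase i) ∧
    (∀ f : FreeMalcev F ℕ →ₙₐ[F] FreeMalcev F ℕ, j ∉ m → f (FreeMalcev.of j) = FreeMalcev.of i →
      (∀ k, k ≠ j → f (FreeMalcev.of k) = FreeMalcev.of k) → f (D p) = (m.count i : F) • p) := by
  rw [GM_eq] at hp
  constructor
  · refine Submodule.span_induction (p := fun p _ => D p ∈ GM F (j ::ₘ m.erase i)) ?_ ?_ ?_ ?_ hp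
    · rintro _ ⟨w, rfl, rfl⟩
      exact (DerAux.move_word D hD i j h1 h2 w).2 hi
    · rw [map_zero]
      exact Submodule.zero_mem _
    · intro p q _ _ hp hq
      rw [map_add]
      exact Submodule.add_mem _ hp hq
    · intro r p _ hp
      rw [map_smul]
      exact Submodule.smul_mem _ _ hp
  · intro f hjm hj hf
    refine Submodule.span_induction (p := fun p _ => f (D p) = (m.count i : F) • p) ?_ ?_ ?_ ?_ hp
    · rintro _ ⟨w, rfl, rfl⟩
      exact DerAux.back_word D hD i j h1 h2 f hj hf w hjm
    · rw [map_zero, map_zero, smul_zero]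
    · intro p q _ _ hp hq
      rw [map_add, map_add, hp, hq, smul_add]
    · intro r p _ hp
      rw [map_smul, map_smul, hp, smul_comm]

namespace DerAux

/-- `y` involves only letters below `N` -/
def Bdd (N : ℕ) (y : FreeMalcev F ℕ) : Prop :=
    (∀ D : FreeMalcev F ℕ →ₗ[F] FreeMalcev F ℕ, IsDer D → (∀ j < N, D (FreeMalcev.of j) = 0) →
      D y = 0) ∧
    (∀ f g : FreeMalcev F ℕ →ₙₐ[F] FreeMalcev F ℕ,
      (∀ j < N, f (FreeMalcev.of j) = g (FreeMalcev.of j)) → f y = g y)

theorem Bdd.mono {N N' : ℕ} {y : FreeMalcev F ℕ} (h : Bdd N y) (hN : N ≤ N') : Bdd N' y :=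
  ⟨fun D hD h0 => h.1 D hD fun j hj => h0 j (lt_of_lt_of_le hj hN),
    fun f g h0 => h.2 f g fun j hj => h0 j (lt_of_lt_of_le hj hN)⟩

theorem bdd_word (w : FreeMagma ℕ) : ∃ N : ℕ, Bdd N (wdM w : FreeMalcev F ℕ) := by
  induction w using FreeMagma.rec with
  | of k =>
    rw [← of_eq_wdM]
    exact ⟨k + 1, fun D _ h => h k (Nat.lt_succ_self k), fun f g h => h k (Nat.lt_succ_self k)⟩
  | mul a b iha ihb =>
    obtain ⟨N, hN⟩ := iha
    obtain ⟨N', hN'⟩ := ihb
    have h1 := hN.mono (le_max_left N N')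
    have h2 := hN'.mono (le_max_right N N')
    refine ⟨max N N', fun D hD h => ?_, fun f g h => ?_⟩
    · rw [← wdM_mul, hD, h1.1 D hD h, h2.1 D hD h, zero_mul, mul_zero, add_zero]
    · rw [← wdM_mul, map_mul, map_mul, h1.2 f g h, h2.2 f g h]

end DerAux

/-- every element involves only finitely many letters -/
theorem exists_bound (y : FreeMalcev F ℕ) : ∃ N : ℕ,
    (∀ D : FreeMalcev F ℕ →ₗ[F] FreeMalcev F ℕ, IsDer D → (∀ j < N, D (FreeMalcev.of j) = 0) →
      D y = 0) ∧
    (∀ f g : FreeMalcev F ℕ →ₙₐ[F] FreeMalcev F ℕ,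
      (∀ j < N, f (FreeMalcev.of j) = g (FreeMalcev.of j)) → f y = g y) := by
  have hy : y ∈ Submodule.span F (Set.range (wdM : FreeMagma ℕ → FreeMalcev F ℕ)) := by
    rw [span_wdM]
    trivial
  refine Submodule.span_induction (p := fun y _ => ∃ N : ℕ, DerAux.Bdd N y) ?_ ?_ ?_ ?_ hy
  · rintro _ ⟨w, rfl⟩
    exact DerAux.bdd_word w
  · exact ⟨0, fun D _ _ => map_zero D, fun f g _ => by rw [map_zero, map_zero]⟩
  · rintro p q _ _ ⟨N, hN⟩ ⟨N', hN'⟩
    have h1 := hN.mono (le_max_left N N')
    have h2 := hN'.mono (le_max_right N N')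
    refine ⟨max N N', fun D hD h => ?_, fun f g h => ?_⟩
    · rw [map_add, h1.1 D hD h, h2.1 D hD h, add_zero]
    · rw [map_add, map_add, h1.2 f g h, h2.2 f g h]
  · rintro r p _ ⟨N, hN⟩
    refine ⟨N, fun D hD h => ?_, fun f g h => ?_⟩
    · rw [map_smul, hN.1 D hD h, smul_zero]
    · rw [map_smul, map_smul, hN.2 f g h]

/-- the image of an element of the free nonassociative algebra -/
theorem mk_eq_ev (p : FA F) :
    (FreeMalcev.mk p : FreeMalcev F ℕ) = ev (fun i => (FreeMalcev.of i : FreeMalcev F ℕ)) p := by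
  have h1 : (FreeMalcev.mkHom : FA F →ₙₐ[F] FreeMalcev F ℕ) =
      ev (fun i => (FreeMalcev.of i : FreeMalcev F ℕ)) := by
    apply FreeNonUnitalNonAssocAlgebra.hom_ext
    intro i
    exact (ev_of (fun i => (FreeMalcev.of i : FreeMalcev F ℕ)) i).symm
  exact DFunLike.congr_fun h1 p

end Pool.Agent.Malc
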