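import Pool.Agent.Malc.Homs

/-! # Dual numbers over a cross product algebra -/

set_option autoImplicit false

open scoped TensorProduct

namespace Pool.Agent.Malc

universe u

namespace CPA

variable {F : Type u} [Field F] (A : CPA F)

/-- the scalars `S[ε]` -/
@[ext] structure SD : Type u where
  r : A.S
  t : A.S

/-- the elements `E[ε]` -/
@[ext] structure ED : Type u where
  a : A.E
  b : A.E

namespace SD

variable {A}

noncomputable instance : Zero A.SD := ⟨⟨0, 0⟩⟩
noncomputable instance : One A.SD := ⟨⟨1, 0⟩⟩
noncomputable instance : Add A.SD := ⟨fun x y => ⟨x.r + y.r, x.t + y.t⟩⟩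
noncomputable instance : Neg A.SD := ⟨fun x => ⟨-x.r, -x.t⟩⟩
noncomputable instance : Mul A.SD := ⟨fun x y => ⟨x.r * y.r, x.r * y.t + y.r * x.t⟩⟩

@[simp] theorem add_r (x y : A.SD) : (x + y).r = x.r + y.r := rfl
@[simp] theorem add_t (x y : A.SD) : (x + y).t = x.t + y.t := rfl
@[simp] theorem neg_r (x : A.SD) : (-x).r = -x.r := rfl
@[simp] theorem neg_t (x : A.SD) : (-x).t = -x.t := rfl
@[simp] theorem zero_r : (0 : A.SD).r = 0 := rfl
@[simp] theorem zero_t : (0 : A.SD).t = 0 := rfl
@[simp] theorem mul_r (x y : A.SD) : (x * y).r = x.r * y.r := rfl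
@[simp] theorem mul_t (x y : A.SD) : (x * y).t = x.r * y.t + y.r * x.t := rfl
@[simp] theorem one_r : (1 : A.SD).r = 1 := rfl
@[simp] theorem one_t : (1 : A.SD).t = 0 := rfl

noncomputable instance : CommRing A.SD where
  add_assoc := fun x y z => by ext <;> simp [add_assoc]
  zero_add := fun x => by ext <;> simp
  add_zero := fun x => by ext <;> simp
  add_comm := fun x y => by ext <;> simp [add_comm]
  neg_add_cancel := fun x => by ext <;> simp
  nsmul := nsmulRec
  zsmul := zsmulRec
  left_distrib := fun x y z => by
    ext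
    · simp [mul_add]
    · simp only [mul_t, add_r, add_t]
      ring
  right_distrib := fun x y z => by
    ext
    · simp [add_mul]
    · simp only [mul_t, add_r, add_t]
      ring
  zero_mul := fun x => by ext <;> simp
  mul_zero := fun x => by ext <;> simp
  mul_assoc := fun x y z => by
    ext
    · simp [mul_assoc]
    · simp only [mul_r, mul_t]
      ring
  one_mul := fun x => by ext <;> simp
  mul_one := fun x => by ext <;> simp
  mul_comm := fun x y => by
    ext
    · simp [mul_comm]
    · simp [add_comm]

@[simp] theorem sub_r (x y : A.SD) : (x - y).r = x.r - y.r := by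
  rw [sub_eq_add_neg, add_r, neg_r, sub_eq_add_neg]
@[simp] theorem sub_t (x y : A.SD) : (x - y).t = x.t - y.t := by
  rw [sub_eq_add_neg, add_t, neg_t, sub_eq_add_neg]

/-- the scalars of `A` in the dual numbers -/
noncomputable def inl : A.S →+* A.SD where
  toFun := fun r => ⟨r, 0⟩
  map_one' := rfl
  map_mul' := fun x y => by ext <;> simp
  map_zero' := rfl
  map_add' := fun x y => by ext <;> simp

noncomputable instance : Algebra F A.SD := (inl.comp (algebraMap F A.S)).toAlgebra

@[simp] theorem two_r : (2 : A.SD).r = 2 := by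
  have : (2 : A.SD) = 1 + 1 := by norm_num
  rw [this, add_r, one_r]
  norm_num
@[simp] theorem two_t : (2 : A.SD).t = 0 := by
  have : (2 : A.SD) = 1 + 1 := by norm_num
  rw [this, add_t, one_t, add_zero]

end SD

namespace ED

variable {A}

noncomputable instance : Zero A.ED := ⟨⟨0, 0⟩⟩
noncomputable instance : Add A.ED := ⟨fun x y => ⟨x.a + y.a, x.b + y.b⟩⟩
noncomputable instance : Neg A.ED := ⟨fun x => ⟨-x.a, -x.b⟩⟩

@[simp] theorem add_a (x y : A.ED) : (x + y).a = x.a + y.a := rfl
@[simp] theorem add_b (x y : A.ED) : (x + y).b = x.b + y.b := rfl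
@[simp] theorem neg_a (x : A.ED) : (-x).a = -x.a := rfl
@[simp] theorem neg_b (x : A.ED) : (-x).b = -x.b := rfl
@[simp] theorem zero_a : (0 : A.ED).a = 0 := rfl
@[simp] theorem zero_b : (0 : A.ED).b = 0 := rfl

noncomputable instance : AddCommGroup A.ED where
  add_assoc := fun x y z => by ext <;> simp [add_assoc]
  zero_add := fun x => by ext <;> simp
  add_zero := fun x => by ext <;> simp
  add_comm := fun x y => by ext <;> simp [add_comm]
  neg_add_cancel := fun x => by ext <;> simp
  nsmul := nsmulRec
  zsmul := zsmulRec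

@[simp] theorem sub_a (x y : A.ED) : (x - y).a = x.a - y.a := by
  rw [sub_eq_add_neg, add_a, neg_a, sub_eq_add_neg]
@[simp] theorem sub_b (x y : A.ED) : (x - y).b = x.b - y.b := by
  rw [sub_eq_add_neg, add_b, neg_b, sub_eq_add_neg]

noncomputable instance : SMul A.SD A.ED := ⟨fun r x => ⟨r.r • x.a, r.r • x.b + r.t • x.a⟩⟩

@[simp] theorem smul_a (r : A.SD) (x : A.ED) : (r • x).a = r.r • x.a := rfl
@[simp] theorem smul_b (r : A.SD) (x : A.ED) : (r • x).b = r.r • x.b + r.t • x.a := rfl

noncomputable instance : Module A.SD A.ED where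
  one_smul := fun x => by ext <;> simp
  mul_smul := fun r t x => by
    ext
    · simp [mul_smul]
    · simp only [smul_a, smul_b, SD.mul_r, SD.mul_t]
      module
  smul_zero := fun r => by ext <;> simp
  smul_add := fun r x y => by
    ext
    · simp
    · simp only [smul_b, add_a, add_b]
      module
  add_smul := fun r t x => by
    ext
    · simp [add_smul]
    · simp only [smul_b, add_b, SD.add_r, SD.add_t]
      module
  zero_smul := fun x => by ext <;> simp

end ED

/-- the algebra over the dual numbers -/
noncomputable def dual : CPA F where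
  S := A.SD
  E := A.ED
  mul := LinearMap.mk₂ A.SD (fun x y => ⟨A.mul x.a y.a, A.mul x.a y.b + A.mul x.b y.a⟩)
    (fun x x' y => by
      ext
      · simp
      · simp only [ED.add_a, ED.add_b, map_add, LinearMap.add_apply]
        abel)
    (fun r x y => by
      ext
      · simp
      · simp only [ED.smul_a, ED.smul_b, map_add, map_smul, LinearMap.add_apply,
          LinearMap.smul_apply]
        module)
    (fun x y y' => by
      ext
      · simp
      · simp only [ED.add_a, ED.add_b, map_add]
        abel)
    (fun r x y => by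
      ext
      · simp
      · simp only [ED.smul_a, ED.smul_b, map_add, map_smul]
        module)
  s := LinearMap.mk₂ A.SD (fun x y => ⟨A.s x.a y.a, A.s x.a y.b + A.s x.b y.a⟩)
    (fun x x' y => by
      ext
      · simp
      · simp only [ED.add_a, ED.add_b, map_add, LinearMap.add_apply, SD.add_t]
        abel)
    (fun r x y => by
      ext
      · simp
      · simp only [ED.smul_a, ED.smul_b, map_add, map_smul, LinearMap.add_apply,
          LinearMap.smul_apply, smul_eq_mul, SD.mul_t]
        ring)
    (fun x y y' => by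
      ext
      · simp
      · simp only [ED.add_a, ED.add_b, map_add, SD.add_t]
        abel)
    (fun r x y => by
      ext
      · simp
      · simp only [ED.smul_a, ED.smul_b, map_add, map_smul, smul_eq_mul, SD.mul_t]
        ring)
  skew := fun x => by
    ext
    · exact A.skew x.a
    · show A.mul x.a x.b + A.mul x.b x.a = 0
      rw [A.anti x.b x.a]
      exact add_neg_cancel _
  symm := fun x y => by
    ext
    · exact A.symm x.a y.a
    · show A.s x.a y.b + A.s x.b y.a = A.s y.a x.b + A.s y.b x.a
      rw [A.symm x.a y.b, A.symm x.b y.a]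
      exact add_comm _ _
  assoc := fun x y z => by
    simp only [LinearMap.mk₂_apply]
    ext
    · exact A.assoc x.a y.a z.a
    · simp only [map_add, LinearMap.add_apply, A.assoc]
      ring
  main := fun x y z => by
    simp only [LinearMap.mk₂_apply]
    ext
    · have := A.main x.a y.a z.a
      simpa using this
    · have h1 := A.main x.a y.a z.b
      have h2 := A.main x.a y.b z.a
      have h3 := A.main x.b y.a z.a
      simp only [ED.add_b, ED.sub_b, ED.smul_b, SD.mul_r, SD.mul_t, SD.two_r, SD.two_t,
        map_add, LinearMap.add_apply]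
      linear_combination (norm := module) h1 + h2 + h3

/-- the inclusion of `A` in the dual numbers -/
noncomputable def incd : Hom A A.dual where
  φ := { SD.inl with commutes' := fun _ => rfl }
  ψ :=
    { toFun := fun a => (⟨a, 0⟩ : A.ED)
      map_add' := fun a b => by
        apply ED.ext
        · rfl
        · exact (add_zero (0 : A.E)).symm
      map_smul' := fun r a => by
        apply ED.ext
        · rfl
        · show (0 : A.E) = r • (0 : A.E) + (0 : A.S) • a
          rw [smul_zero, zero_smul, add_zero] }
  map_mul := fun x y => by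
    apply ED.ext
    · rfl
    · show (0 : A.E) = A.mul x 0 + A.mul 0 y
      rw [map_zero, map_zero, LinearMap.zero_apply, add_zero]
  map_s := fun x y => by
    apply SD.ext
    · rfl
    · show (0 : A.S) = A.s x 0 + A.s 0 y
      rw [map_zero, map_zero, LinearMap.zero_apply, add_zero]

theorem incd_φ (r : A.S) : A.incd.φ r = (⟨r, 0⟩ : A.SD) := rfl
theorem incd_ψ (a : A.E) : A.incd.ψ a = (⟨a, 0⟩ : A.ED) := rfl

/-- the value of an operator -/
noncomputable def evT (v : A.E) : A.WT →ₗ[A.S] A.E where
  toFun := fun w => w.1 • v + A.mul w.2.1 v +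
    TensorProduct.lift ((LinearMap.lsmul A.S A.E).flip.compl₂ (A.s v)) w.2.2
  map_add' := fun w w' => by
    simp only [Prod.fst_add, Prod.snd_add, map_add, add_smul, LinearMap.add_apply]
    abel
  map_smul' := fun r w => by
    simp only [Prod.smul_fst, Prod.smul_snd, map_smul, smul_eq_mul, RingHom.id_apply, smul_add,
      mul_smul, LinearMap.smul_apply]

theorem evT_lift (v : A.E) (x y : A.E) :
    TensorProduct.lift ((LinearMap.lsmul A.S A.E).flip.compl₂ (A.s v)) (x ⊗ₜ y) =
      A.s v y • x := by
  rw [TensorProduct.lift.tmul]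
  rfl

theorem evT_L (v a : A.E) (w : A.WT) : A.evT v (A.L a w) = A.mul a (A.evT v w) := by
  obtain ⟨r, e, t⟩ := w
  have m := A.main a e v
  have ht : TensorProduct.lift ((LinearMap.lsmul A.S A.E).flip.compl₂ (A.s v))
      (TensorProduct.map (A.mul a) LinearMap.id t) =
      A.mul a (TensorProduct.lift ((LinearMap.lsmul A.S A.E).flip.compl₂ (A.s v)) t) := by
    induction t using TensorProduct.induction_on with
    | zero => simp
    | add x y hx hy => simp only [map_add, hx, hy]
    | tmul x y =>
      rw [TensorProduct.map_tmul, evT_lift, evT_lift, map_smul]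
      rfl
  simp only [evT, L, LinearMap.coe_mk, AddHom.coe_mk, map_add, map_sub, map_smul, ht, evT_lift,
    LinearMap.sub_apply, LinearMap.smul_apply]
  rw [A.symm v a, A.symm v e]
  linear_combination (norm := module) -m

variable [CharZero F]

theorem evT_rho (v a b e : A.E) : A.evT v (A.rho a b e) = 0 := by
  have h := A.rho_id a b e v
  have h1 := A.anti v (A.mul (A.mul a b) e - A.s a e • b + A.s b e • a)
  rw [h1] at h
  simp only [evT, rho, LinearMap.coe_mk, AddHom.coe_mk, map_add, map_sub, evT_lift, zero_smul,
    zero_add]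
  simp only [map_add, map_sub] at h
  linear_combination (norm := module) -h

theorem Rel_le_ev (v : A.E) : A.Rel ≤ LinearMap.ker (A.evT v) := by
  unfold Rel
  rw [Submodule.span_le]
  rintro w (⟨a, b, e, rfl⟩ | ⟨d, a, b, e, rfl⟩)
  · exact A.evT_rho v a b e
  · show A.evT v (A.L d (A.rho a b e)) = 0
    rw [evT_L, evT_rho, map_zero]

/-- the value of an operator at `v` -/
noncomputable def evW (v : A.E) : A.W →ₗ[A.S] A.E := A.Rel.liftQ (A.evT v) (A.Rel_le_ev v)

theorem evW_mk (v : A.E) (w : A.WT) : A.evW v (A.mkW w) = A.evT v w := rfl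

theorem evW_LW (v a : A.E) (w : A.W) : A.evW v (A.LW a w) = A.mul a (A.evW v w) := by
  obtain ⟨w, rfl⟩ := A.mkW_surj w
  rw [LW_mk, evW_mk, evW_mk, evT_L]

theorem evW_tenL (v b c : A.E) : A.evW v (EE.tenL A b c) = A.s c v • b := by
  rw [EE.tenL_apply, evW_mk]
  simp only [evT, ten, LinearMap.coe_mk, AddHom.coe_mk, evT_lift, zero_smul, map_zero,
    LinearMap.zero_apply, zero_add, A.symm v c]

theorem s_evW (v a : A.E) (w : A.W) : A.s a (A.evW v w) = A.s (A.sW a w) v := by
  obtain ⟨w, rfl⟩ := A.mkW_surj w
  rw [evW_mk, sW_mk]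
  obtain ⟨r, e, t⟩ := w
  have ht : A.s a (TensorProduct.lift ((LinearMap.lsmul A.S A.E).flip.compl₂ (A.s v)) t) =
      A.s (TensorProduct.lift (LinearMap.lsmul A.S A.E ∘ₗ A.s a) t) v := by
    induction t using TensorProduct.induction_on with
    | zero => simp
    | add x y hx hy => simp only [map_add, hx, hy, LinearMap.add_apply]
    | tmul x y =>
      rw [evT_lift, TensorProduct.lift.tmul]
      simp only [LinearMap.comp_apply, LinearMap.lsmul_apply, map_smul, LinearMap.smul_apply,
        smul_eq_mul, A.symm v y]
      ring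
  simp only [evT, sT, LinearMap.coe_mk, AddHom.coe_mk, map_add, map_smul, ht,
    LinearMap.add_apply, LinearMap.smul_apply, A.assoc]

/-- the homomorphism `y ↦ ε v` -/
noncomputable def evd (v : A.E) : Hom A.ext A.dual where
  φ :=
    { toFun := fun x => (⟨SE.r x, A.s (SE.g x) v⟩ : A.SD)
      map_one' := by
        apply SD.ext
        · rfl
        · show A.s 0 v = 0
          rw [map_zero, LinearMap.zero_apply]
      map_mul' := fun x y => by
        apply SD.ext
        · rfl
        · show A.s (SE.r x • SE.g y + SE.r y • SE.g x) v =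
            SE.r x * A.s (SE.g y) v + SE.r y * A.s (SE.g x) v
          simp only [map_add, map_smul, LinearMap.add_apply, LinearMap.smul_apply, smul_eq_mul]
      map_zero' := by
        apply SD.ext
        · rfl
        · show A.s 0 v = 0
          rw [map_zero, LinearMap.zero_apply]
      map_add' := fun x y => by
        apply SD.ext
        · rfl
        · show A.s (SE.g x + SE.g y) v = A.s (SE.g x) v + A.s (SE.g y) v
          rw [map_add, LinearMap.add_apply]
      commutes' := fun r => by
        apply SD.ext
        · rfl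
        · show A.s 0 v = 0
          rw [map_zero, LinearMap.zero_apply] }
  ψ :=
    { toFun := fun x => (⟨EE.a x, A.evW v (EE.w x)⟩ : A.ED)
      map_add' := fun x y => by
        apply ED.ext
        · rfl
        · exact map_add (A.evW v) _ _
      map_smul' := fun r x => by
        apply ED.ext
        · rfl
        · show A.evW v (SE.r r • EE.w x + EE.tenL A (EE.a x) (SE.g r)) =
            SE.r r • A.evW v (EE.w x) + A.s (SE.g r) v • EE.a x
          rw [map_add, map_smul, evW_tenL] }
  map_mul := fun x y => by
    apply ED.ext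
    · rfl
    · show A.evW v (A.LW (EE.a x) (EE.w y) - A.LW (EE.a y) (EE.w x)) =
        A.mul (EE.a x) (A.evW v (EE.w y)) + A.mul (A.evW v (EE.w x)) (EE.a y)
      rw [map_sub, evW_LW, evW_LW, A.anti (A.evW v (EE.w x)) (EE.a y)]
      abel
  map_s := fun x y => by
    apply SD.ext
    · rfl
    · show A.s (A.sW (EE.a x) (EE.w y) + A.sW (EE.a y) (EE.w x)) v =
        A.s (EE.a x) (A.evW v (EE.w y)) + A.s (A.evW v (EE.w x)) (EE.a y)
      rw [map_add, LinearMap.add_apply, s_evW, A.symm (A.evW v (EE.w x)) (EE.a y), s_evW]

theorem evd_φ (v : A.E) (x : A.ext.S) :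
    (A.evd v).φ x = (⟨SE.r x, A.s (SE.g x) v⟩ : A.SD) := rfl
theorem evd_ψ (v : A.E) (x : A.ext.E) :
    (A.evd v).ψ x = (⟨EE.a x, A.evW v (EE.w x)⟩ : A.ED) := rfl

end CPA

end Pool.Agent.Malc
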