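import Pool.Agent.Malc.Graph

/-! # The operators sigma(x,y) on J(B) -/

set_option autoImplicit false

namespace Pool.Agent.Malc

universe u v

variable (F : Type u) [Field F] (B : Type u) [NonUnitalNonAssocRing B] [Module F B]
  [IsScalarTower F B B] [SMulCommClass F B B]

/-- the span of the Jacobians -/
def JA : Submodule F B := Submodule.span F {j | ∃ a b c : B, j = Jac a b c}

/-- exactness: the graph is the graph of a function -/
def Exact : Prop := ∀ G : B → B → B, ((0, G) : B × (B → B → B)) ∈ Gr F B → G = 0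

variable {F B}

theorem Jac_mem_JA (a b c : B) : Jac a b c ∈ JA F B := Submodule.subset_span ⟨a, b, c, rfl⟩

theorem Gr_fst_mem {g : B × (B → B → B)} (hg : g ∈ Gr F B) : g.1 ∈ JA F B := by
  have h1 : Gr F B ≤ (JA F B).comap (LinearMap.fst F B (B → B → B)) := by
    refine Submodule.span_le.2 ?_
    rintro g ⟨a, b, c, rfl⟩
    exact Jac_mem_JA a b c
  exact h1 hg

theorem exists_Gr {j : B} (hj : j ∈ JA F B) : ∃ G, ((j, G) : B × (B → B → B)) ∈ Gr F B := by
  have h1 : JA F B ≤ (Gr F B).map (LinearMap.fst F B (B → B → B)) := by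
    refine Submodule.span_le.2 ?_
    rintro g ⟨a, b, c, rfl⟩
    exact ⟨_, Gr_J a b c, rfl⟩
  obtain ⟨⟨j', G⟩, hG, rfl⟩ := h1 hj
  exact ⟨G, hG⟩

/-- `J(B)` is an ideal -/
theorem mul_mem_JA [CharZero F] (h : IsMalcev B) {j : B} (hj : j ∈ JA F B) (z : B) :
    j * z ∈ JA F B ∧ z * j ∈ JA F B := by
  have h1 : j * z ∈ JA F B := by
    have h2 : JA F B ≤ (JA F B).comap (LinearMap.mulRight F z) := by
      refine Submodule.span_le.2 ?_
      rintro _ ⟨a, b, c, rfl⟩
      show Jac a b c * z ∈ JA F B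
      have h3 := (JA F B).smul_mem ((2 : F)⁻¹) ((JA F B).add_mem ((JA F B).add_mem
        (Jac_mem_JA (F := F) (a * b) c z) (Jac_mem_JA (b * c) a z)) (Jac_mem_JA (c * a) b z))
      rwa [← GraphAux.two_J F h a b c z, ← Nat.cast_smul_eq_nsmul F, Nat.cast_ofNat, smul_smul,
        inv_mul_cancel₀ (two_ne_zero), one_smul] at h3
    exact h2 hj
  refine ⟨h1, ?_⟩
  rw [h.anti z j]
  exact Submodule.neg_mem _ h1

variable (F B)

/-- The operators sigma. -/
structure SigData where
  σ : B →ₗ[F] B →ₗ[F] Module.End F (JA F B)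
  formula : ∀ (x y : B) (j : JA F B) (G : B → B → B), (((j : B), G) : B × (B → B → B)) ∈ Gr F B →
    36 • (σ x y j : B) = -(36 • (((j : B) * x) * y)) + 12 • Jac (j : B) x y + G y x
  symm : ∀ x y, σ x y = σ y x
  R : ∀ (x y z : B) (j j' : JA F B), (j' : B) = j * z → (σ x y j' : B) = (σ x y j : B) * z
  assoc : ∀ x y z, σ (x * z) y = σ x (z * y)
  main : ∀ (v x y a b : B) (j1 j2 j3 : JA F B), (j1 : B) = Jac v a b → (j2 : B) = Jac y a b →
    (j3 : B) = Jac x a b → Jac ((v * x) * y + (v * y) * x) a b + 2 • (σ x y j1 : B) =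
      (σ v x j2 : B) + (σ v y j3 : B)
  comm : ∀ x y z t, σ x y * σ z t = σ z t * σ x y

end Pool.Agent.Malc
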