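import Pool.Agent.Malc.Words

/-! # Words: basic facts -/

set_option autoImplicit false

namespace Pool.Agent.Malc

universe u v

variable {F : Type u} [Field F]

namespace Words2Aux

theorem cast_mem {m n : Multiset ℕ} {p : FA F} (hp : p ∈ Hg F m) (h : m = n) : p ∈ Hg F n := h ▸ hp

theorem content_evw (y : ℕ → FreeMagma ℕ) (w : FreeMagma ℕ) :
    content (evw y w) = (content w).bind fun i => content (y i) := by
  induction w with
  | ih1 i => simp [content, evw]
  | ih2 a b iha ihb =>
    show content (evw y a) + content (evw y b) = (content a + content b).bind _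
    rw [Multiset.add_bind, iha, ihb]

theorem coeff_comp (m : Multiset ℕ) (p : FA F) (w : FreeMagma ℕ) :
    (comp F m p).coeff w = if content w = m then p.coeff w else 0 := by
  show (p.coeff.filter fun w => content w = m) w = _
  rw [Finsupp.filter_apply]

end Words2Aux

open Words2Aux

theorem wd_mul (a b : FreeMagma ℕ) : (wd a * wd b : FA F) = wd (FreeMagma.mul a b) := by
  show (MonoidAlgebra.single a 1 * MonoidAlgebra.single b 1 : FA F) = MonoidAlgebra.single (a * b) 1
  rw [MonoidAlgebra.single_mul_single, mul_one]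

theorem of_eq_wd (i : ℕ) : FreeNonUnitalNonAssocAlgebra.of F i = wd (FreeMagma.of i) := by
  rfl

theorem span_wd : Submodule.span F (Set.range (wd : FreeMagma ℕ → FA F)) = ⊤ := by
  rw [eq_top_iff]
  intro p _
  induction p using MonoidAlgebra.induction_linear with
  | zero => exact Submodule.zero_mem _
  | add p q hp hq => exact Submodule.add_mem _ (hp trivial) (hq trivial)
  | single w r =>
    have : (MonoidAlgebra.single w r : FA F) = r • wd w := by
      unfold wd
      rw [MonoidAlgebra.smul_single, smul_eq_mul, mul_one]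
    rw [this]
    exact Submodule.smul_mem _ _ (Submodule.subset_span ⟨w, rfl⟩)

/-- linear maps which agree on words are equal -/
theorem lin_ext {B : Type v} [AddCommGroup B] [Module F B] {f g : FA F →ₗ[F] B}
    (h : ∀ w, f (wd w) = g (wd w)) : f = g := by
  exact LinearMap.ext_on_range span_wd h

theorem Hg_mul {m n : Multiset ℕ} {p q : FA F} (hp : p ∈ Hg F m) (hq : q ∈ Hg F n) :
    p * q ∈ Hg F (m + n) := by
  unfold Hg at hp
  induction hp using Submodule.span_induction with
  | mem p hp =>
    obtain ⟨w, hw, rfl⟩ := hp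
    unfold Hg at hq
    induction hq using Submodule.span_induction with
    | mem q hq =>
      obtain ⟨v, hv, rfl⟩ := hq
      rw [wd_mul]
      refine Submodule.subset_span ⟨_, ?_, rfl⟩
      show content w + content v = m + n
      rw [hw, hv]
    | zero => rw [mul_zero]; exact Submodule.zero_mem _
    | add q r _ _ h1 h2 => rw [mul_add]; exact Submodule.add_mem _ h1 h2
    | smul c q _ h1 => rw [mul_smul_comm]; exact Submodule.smul_mem _ _ h1
  | zero => rw [zero_mul]; exact Submodule.zero_mem _
  | add p r _ _ h1 h2 => rw [add_mul]; exact Submodule.add_mem _ h1 h2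
  | smul c p _ h1 => rw [smul_mul_assoc]; exact Submodule.smul_mem _ _ h1

theorem wd_mem (w : FreeMagma ℕ) : (wd w : FA F) ∈ Hg F (content w) := by
  exact Submodule.subset_span ⟨w, rfl, rfl⟩

theorem Jac_mem {m n k : Multiset ℕ} {p q r : FA F} (hp : p ∈ Hg F m) (hq : q ∈ Hg F n)
    (hr : r ∈ Hg F k) : Jac p q r ∈ Hg F (m + n + k) := by
  unfold Jac
  refine add_mem (add_mem (Hg_mul (Hg_mul hp hq) hr) ?_) ?_
  · exact cast_mem (Hg_mul (Hg_mul hq hr) hp) (by abel)
  · exact cast_mem (Hg_mul (Hg_mul hr hp) hq) (by abel)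

theorem P108_mem {m n k l t : Multiset ℕ} {a b c d x : FA F} (ha : a ∈ Hg F m) (hb : b ∈ Hg F n)
    (hc : c ∈ Hg F k) (hd : d ∈ Hg F l) (hx : x ∈ Hg F t) :
    P108 a b c d x ∈ Hg F (m + n + k + l + t) := by
  unfold P108
  have e : ∀ {M N : Multiset ℕ} {p : FA F}, p ∈ Hg F M → M = N → p ∈ Hg F N := fun h h' =>
    cast_mem h h'
  have q : ∀ {u v w : FA F} {k1 k2 k3 l1 : Multiset ℕ} {z : FA F}, u ∈ Hg F k1 → v ∈ Hg F k2 →
      w ∈ Hg F k3 → z ∈ Hg F l1 → k1 + k2 + k3 + l1 + t = m + n + k + l + t →
      (x * Jac u v w) * z + (x * z) * Jac u v w ∈ Hg F (m + n + k + l + t) := by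
    intro u v w k1 k2 k3 l1 z hu hv hw hz h
    refine add_mem ?_ ?_
    · exact e (Hg_mul (Hg_mul hx (Jac_mem hu hv hw)) hz) (by rw [← h]; abel)
    · exact e (Hg_mul (Hg_mul hx hz) (Jac_mem hu hv hw)) (by rw [← h]; abel)
  refine sub_mem (add_mem (add_mem (sub_mem (sub_mem (add_mem ?_ ?_) ?_) ?_) ?_) ?_) ?_
  · exact e (Jac_mem (Jac_mem hx ha hb) hc hd) (by abel)
  · exact e (Jac_mem (Jac_mem hx hc hd) ha hb) (by abel)
  · exact e (Jac_mem (Jac_mem hx ha hc) hb hd) (by abel)
  · exact e (Jac_mem (Jac_mem hx hb hd) ha hc) (by abel)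
  · exact e (Jac_mem (Jac_mem hx ha hd) hb hc) (by abel)
  · exact e (Jac_mem (Jac_mem hx hb hc) ha hd) (by abel)
  · refine nsmul_mem (sub_mem (add_mem (sub_mem ?_ ?_) ?_) ?_) 6
    · exact q ha hb hc hd (by abel)
    · exact q ha hb hd hc (by abel)
    · exact q ha hc hd hb (by abel)
    · exact q hb hc hd ha (by abel)

theorem comp_wd (m : Multiset ℕ) (w : FreeMagma ℕ) :
    comp F m (wd w) = if content w = m then wd w else 0 := by
  split_ifs with h
  · show MonoidAlgebra.ofCoeff ((Finsupp.single w (1 : F)).filter fun w => content w = m) = _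
    rw [Finsupp.filter_single_of_pos (p := fun w => content w = m) h]
    rfl
  · show MonoidAlgebra.ofCoeff ((Finsupp.single w (1 : F)).filter fun w => content w = m) = _
    rw [Finsupp.filter_single_of_neg (p := fun w => content w = m) h]
    rfl

theorem comp_of_mem {m n : Multiset ℕ} {p : FA F} (hp : p ∈ Hg F n) :
    comp F m p = if n = m then p else 0 := by
  unfold Hg at hp
  induction hp using Submodule.span_induction with
  | mem p hp =>
    obtain ⟨w, hw, rfl⟩ := hp
    rw [comp_wd, hw]
  | zero => simp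
  | add p q _ _ h1 h2 =>
    rw [map_add, h1, h2]
    split_ifs <;> simp
  | smul c p _ h1 =>
    rw [map_smul, h1]
    split_ifs <;> simp

theorem comp_mem (m : Multiset ℕ) (p : FA F) : comp F m p ∈ Hg F m := by
  have hp : p ∈ Submodule.span F (Set.range (wd : FreeMagma ℕ → FA F)) := by
    rw [span_wd]; trivial
  induction hp using Submodule.span_induction with
  | mem p hp =>
    obtain ⟨w, rfl⟩ := hp
    rw [comp_wd]
    split_ifs with h
    · exact Submodule.subset_span ⟨w, h, rfl⟩
    · exact Submodule.zero_mem _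
  | zero => rw [map_zero]; exact Submodule.zero_mem _
  | add p q _ _ h1 h2 => rw [map_add]; exact Submodule.add_mem _ h1 h2
  | smul c p _ h1 => rw [map_smul]; exact Submodule.smul_mem _ _ h1

theorem sum_comp (p : FA F) : ∃ s : Finset (Multiset ℕ), p = ∑ m ∈ s, comp F m p := by
  classical
  refine ⟨p.coeff.support.image content, ?_⟩
  apply MonoidAlgebra.ext
  apply Finsupp.ext
  intro w
  rw [MonoidAlgebra.coeff_sum, Finsupp.finsetSum_apply]
  simp only [coeff_comp]
  rw [Finset.sum_ite_eq]
  split_ifs with h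
  · rfl
  · by_contra hne
    exact h (Finset.mem_image.2 ⟨w, Finsupp.mem_support_iff.2 hne, rfl⟩)

section

variable {B : Type v} [NonUnitalNonAssocRing B] [Module F B] [IsScalarTower F B B]
  [SMulCommClass F B B]

theorem ev_wd (x : ℕ → B) (w : FreeMagma ℕ) : ev x (wd w : FA F) = evw x w := by
  induction w with
  | ih1 i =>
    show ev x (FreeNonUnitalNonAssocAlgebra.of F i) = x i
    exact FreeNonUnitalNonAssocAlgebra.lift_of_apply F x i
  | ih2 a b iha ihb =>
    show ev x (wd (FreeMagma.mul a b) : FA F) = evw x a * evw x b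
    rw [← wd_mul, map_mul, iha, ihb]

theorem ev_of (x : ℕ → B) (i : ℕ) : ev x (FreeNonUnitalNonAssocAlgebra.of F i) = x i := by
  exact FreeNonUnitalNonAssocAlgebra.lift_of_apply F x i

/-- substitution -/
theorem ev_ev (x : ℕ → B) (y : ℕ → FA F) (p : FA F) :
    ev x (ev y p) = ev (fun i => ev x (y i)) p := by
  have h : (ev x).comp (ev y) = ev (fun i => ev x (y i)) := by
    apply FreeNonUnitalNonAssocAlgebra.hom_ext
    intro i
    show ev x (ev y (FreeNonUnitalNonAssocAlgebra.of F i)) = _
    rw [ev_of, ev_of]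
  exact DFunLike.congr_fun h p

theorem hom_ev {C : Type v} [NonUnitalNonAssocRing C] [Module F C] [IsScalarTower F C C]
    [SMulCommClass F C C] (f : B →ₙₐ[F] C) (x : ℕ → B) (p : FA F) :
    f (ev x p) = ev (fun i => f (x i)) p := by
  have h : f.comp (ev x) = ev (fun i => f (x i)) := by
    apply FreeNonUnitalNonAssocAlgebra.hom_ext
    intro i
    show f (ev x (FreeNonUnitalNonAssocAlgebra.of F i)) = _
    rw [ev_of, ev_of]
  exact DFunLike.congr_fun h p

theorem hom_Jac {C : Type v} [NonUnitalNonAssocRing C] [Module F C] (f : B →ₙₐ[F] C) (a b c : B) :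
    f (Jac a b c) = Jac (f a) (f b) (f c) := by
  unfold Jac
  simp only [map_add, map_mul]

theorem hom_P108 {C : Type v} [NonUnitalNonAssocRing C] [Module F C] (f : B →ₙₐ[F] C)
    (a b c d x : B) : f (P108 a b c d x) = P108 (f a) (f b) (f c) (f d) (f x) := by
  unfold P108
  simp only [map_add, map_sub, map_mul, map_nsmul, hom_Jac]

theorem evw_congr (x y : ℕ → B) (w : FreeMagma ℕ) (h : ∀ i ∈ content w, x i = y i) :
    evw x w = evw y w := by
  induction w with
  | ih1 i => exact h i (by show i ∈ ({i} : Multiset ℕ); simp)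
  | ih2 a b iha ihb =>
    show evw x a * evw x b = evw y a * evw y b
    rw [iha fun i hi => h i (Multiset.mem_add.2 (Or.inl hi)),
      ihb fun i hi => h i (Multiset.mem_add.2 (Or.inr hi))]

theorem ev_congr {m : Multiset ℕ} {p : FA F} (hp : p ∈ Hg F m) (x y : ℕ → B)
    (h : ∀ i ∈ m, x i = y i) : ev x p = ev y p := by
  unfold Hg at hp
  induction hp using Submodule.span_induction with
  | mem p hp =>
    obtain ⟨w, hw, rfl⟩ := hp
    rw [ev_wd, ev_wd]
    exact evw_congr x y w (by rw [hw]; exact h)
  | zero => rw [map_zero, map_zero]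
  | add p q _ _ h1 h2 => rw [map_add, map_add, h1, h2]
  | smul c p _ h1 => rw [map_smul, map_smul, h1]

/-- substitution of words is homogeneous -/
theorem ev_word_mem {m : Multiset ℕ} {p : FA F} (hp : p ∈ Hg F m) (y : ℕ → FreeMagma ℕ) :
    ev (fun i => (wd (y i) : FA F)) p ∈ Hg F (m.bind fun i => content (y i)) := by
  have hw : ∀ w : FreeMagma ℕ, evw (fun i => (wd (y i) : FA F)) w = wd (evw y w) := by
    intro w
    induction w with
    | ih1 i => rfl
    | ih2 a b iha ihb =>
      show evw (fun i => (wd (y i) : FA F)) a * evw (fun i => (wd (y i) : FA F)) b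
        = wd (FreeMagma.mul (evw y a) (evw y b))
      rw [iha, ihb, wd_mul]
  unfold Hg at hp
  induction hp using Submodule.span_induction with
  | mem p hp =>
    obtain ⟨w, hw', rfl⟩ := hp
    rw [ev_wd, hw, ← hw', ← content_evw]
    exact wd_mem _
  | zero => rw [map_zero]; exact Submodule.zero_mem _
  | add p q _ _ h1 h2 => rw [map_add]; exact Submodule.add_mem _ h1 h2
  | smul c p _ h1 => rw [map_smul]; exact Submodule.smul_mem _ _ h1

end

end Pool.Agent.Malc
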