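import Mathlib

/-! # Alternating sums: expansion lemmas -/

set_option autoImplicit false

namespace Pool.Agent.Malc

universe u

open Finset Equiv

section perm

variable {n : ℕ}

/-- the permutation with `p.succAbove (cP p j) = swap 0 p j.succ` -/
def cP (p : Fin (n + 1)) : Perm (Fin n) := Fin.cases 1 (fun q => q.cycleRange) p

theorem cP_spec (p : Fin (n + 1)) (j : Fin n) : p.succAbove (cP p j) = swap 0 p j.succ := by
  refine Fin.cases ?_ (fun q => ?_) p
  · show (0 : Fin (n + 1)).succAbove j = swap 0 0 j.succ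
    rw [swap_self]
    rfl
  · exact Fin.succAbove_cycleRange q j

theorem cP_sign (p : Fin (n + 1)) :
    (if p = 0 then (1 : ℤˣ) else -1) * Perm.sign (cP p) = (-1) ^ (p : ℕ) := by
  refine Fin.cases ?_ (fun q => ?_) p
  · rw [if_pos rfl]
    show (1 : ℤˣ) * Perm.sign (1 : Perm (Fin n)) = _
    rw [Perm.sign_one]
    rfl
  · rw [if_neg (Fin.succ_ne_zero q)]
    show (-1 : ℤˣ) * Perm.sign q.cycleRange = _
    rw [Fin.sign_cycleRange, Fin.val_succ, pow_succ']

/-- permutations of `Fin (n+1)` by the value at 0 and a permutation of the others -/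
def RP (n : ℕ) : Fin (n + 1) × Perm (Fin n) ≃ Perm (Fin (n + 1)) :=
  (Equiv.prodShear (Equiv.refl _) (fun p => Equiv.mulLeft (cP p)⁻¹)).trans
    Perm.decomposeFin.symm

theorem RP_zero (p : Fin (n + 1)) (τ : Perm (Fin n)) : RP n (p, τ) 0 = p := by
  show Perm.decomposeFin.symm (p, (cP p)⁻¹ * τ) 0 = p
  exact Perm.decomposeFin_symm_apply_zero _ _

theorem RP_succ (p : Fin (n + 1)) (τ : Perm (Fin n)) (j : Fin n) :
    RP n (p, τ) j.succ = p.succAbove (τ j) := by
  show Perm.decomposeFin.symm (p, (cP p)⁻¹ * τ) j.succ = _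
  rw [Perm.decomposeFin_symm_apply_succ, ← cP_spec]
  simp

theorem RP_sign (p : Fin (n + 1)) (τ : Perm (Fin n)) :
    Perm.sign (RP n (p, τ)) = (-1) ^ (p : ℕ) * Perm.sign τ := by
  show Perm.sign (Perm.decomposeFin.symm (p, (cP p)⁻¹ * τ)) = _
  rw [Perm.decomposeFin.symm_sign, Perm.sign_mul, Perm.sign_inv, ← mul_assoc, cP_sign]

variable {A : Type u} [AddCommGroup A]

/-- alternating sum -/
def Alt (n : ℕ) (g : (Fin n → A) → A) (x : Fin n → A) : A :=
  ∑ σ : Perm (Fin n), Perm.sign σ • g (x ∘ σ)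

/-- expansion by the value at 0 -/
theorem Alt_succ (g : (Fin (n + 1) → A) → A) (x : Fin (n + 1) → A) :
    Alt (n + 1) g x = ∑ i : Fin (n + 1), (-1 : ℤˣ) ^ (i : ℕ) •
      Alt n (fun t => g (Fin.cons (x i) t)) (fun j => x (i.succAbove j)) := by
  unfold Alt
  rw [← (RP n).sum_comp, Fintype.sum_prod_type]
  refine sum_congr rfl fun i _ => ?_
  rw [smul_sum]
  refine sum_congr rfl fun τ _ => ?_
  rw [RP_sign, mul_smul]
  congr 2
  congr 1
  funext j
  refine Fin.cases ?_ (fun j => ?_) j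
  · rw [Function.comp_apply, RP_zero, Fin.cons_zero]
  · rw [Function.comp_apply, RP_succ, Fin.cons_succ]
    rfl

/-- expansion by the position of the first argument -/
theorem Alt_cons (g : (Fin (n + 1) → A) → A) (b : A) (x : Fin n → A) :
    Alt (n + 1) g (Fin.cons b x) = Alt n (fun t => ∑ i : Fin (n + 1), (-1 : ℤˣ) ^ (i : ℕ) •
      g (i.insertNth b t)) x := by
  unfold Alt
  rw [← Equiv.sum_comp (Equiv.inv (Perm (Fin (n + 1)))), ← (RP n).sum_comp,
    Fintype.sum_prod_type, ← Equiv.sum_comp (Equiv.inv (Perm (Fin n)))]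
  simp_rw [smul_sum]
  rw [sum_comm]
  refine sum_congr rfl fun i _ => sum_congr rfl fun τ _ => ?_
  show Perm.sign (RP n (τ, i))⁻¹ • g _ = Perm.sign i⁻¹ • _
  rw [Perm.sign_inv, Perm.sign_inv, RP_sign, mul_comm, mul_smul]
  congr 3
  funext j
  obtain ⟨j, rfl⟩ : ∃ j', (RP n (τ, i)) j' = j := ⟨(RP n (τ, i))⁻¹ j, by simp⟩
  show (Fin.cons b x : Fin (n + 1) → A) ((RP n (τ, i))⁻¹ (RP n (τ, i) j)) = _
  rw [show (RP n (τ, i))⁻¹ (RP n (τ, i) j) = j from (RP n (τ, i)).symm_apply_apply j]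
  refine Fin.cases ?_ (fun j => ?_) j
  · rw [RP_zero, Fin.cons_zero, Fin.insertNth_apply_same]
  · rw [RP_succ, Fin.cons_succ, Fin.insertNth_apply_succAbove]
    show x j = x (i⁻¹ (i j))
    rw [show i⁻¹ (i j) = j from i.symm_apply_apply j]

/-- an inner alternation is absorbed -/
theorem Alt_absorb {ι : Type*} [Fintype ι] (t : ι → Perm (Fin n)) (g : (Fin n → A) → A)
    (x : Fin n → A) :
    Alt n (fun y => ∑ i, Perm.sign (t i) • g (y ∘ t i)) x = Fintype.card ι • Alt n g x := by
  unfold Alt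
  simp_rw [smul_sum]
  rw [sum_comm, ← smul_sum, ← Finset.card_univ, ← sum_const]
  refine sum_congr rfl fun i _ => ?_
  rw [← Equiv.sum_comp (Equiv.mulRight (t i)) (fun σ : Perm (Fin n) => Perm.sign σ • g (x ∘ σ))]
  refine sum_congr rfl fun σ _ => ?_
  rw [← mul_smul]
  congr 1
  show _ = Perm.sign (σ * t i)
  rw [Perm.sign_mul]

theorem Alt_add (f g : (Fin n → A) → A) (x : Fin n → A) :
    Alt n (fun y => f y + g y) x = Alt n f x + Alt n g x := by
  unfold Alt
  simp_rw [smul_add]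
  exact sum_add_distrib

theorem Alt_sub (f g : (Fin n → A) → A) (x : Fin n → A) :
    Alt n (fun y => f y - g y) x = Alt n f x - Alt n g x := by
  unfold Alt
  simp_rw [smul_sub]
  exact sum_sub_distrib _ _

theorem Alt_zsmul (c : ℤ) (f : (Fin n → A) → A) (x : Fin n → A) :
    Alt n (fun y => c • f y) x = c • Alt n f x := by
  unfold Alt
  rw [smul_sum]
  exact sum_congr rfl fun σ _ => smul_comm _ _ _

theorem Alt_nsmul (c : ℕ) (f : (Fin n → A) → A) (x : Fin n → A) :
    Alt n (fun y => c • f y) x = c • Alt n f x := by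
  unfold Alt
  rw [smul_sum]
  exact sum_congr rfl fun σ _ => smul_comm _ _ _

theorem Alt_neg (f : (Fin n → A) → A) (x : Fin n → A) :
    Alt n (fun y => - f y) x = - Alt n f x := by
  unfold Alt
  simp_rw [smul_neg]
  exact sum_neg_distrib _

end perm

section mul

variable {A : Type u} [NonUnitalNonAssocRing A] {n : ℕ}

theorem usmul_mul (s : ℤˣ) (x y : A) : (s • x) * y = s • (x * y) := by
  rcases Int.units_eq_one_or s with rfl | rfl
  · rw [one_smul, one_smul]
  · rw [Units.neg_smul, one_smul, Units.neg_smul, one_smul, neg_mul]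

theorem mul_usmul (s : ℤˣ) (x y : A) : x * (s • y) = s • (x * y) := by
  rcases Int.units_eq_one_or s with rfl | rfl
  · rw [one_smul, one_smul]
  · rw [Units.neg_smul, one_smul, Units.neg_smul, one_smul, mul_neg]

theorem Alt_mul (f : (Fin n → A) → A) (c : A) (x : Fin n → A) :
    Alt n (fun y => f y * c) x = Alt n f x * c := by
  unfold Alt
  rw [sum_mul]
  exact sum_congr rfl fun σ _ => (usmul_mul _ _ _).symm

theorem mul_Alt (f : (Fin n → A) → A) (c : A) (x : Fin n → A) :
    Alt n (fun y => c * f y) x = c * Alt n f x := by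
  unfold Alt
  rw [mul_sum]
  exact sum_congr rfl fun σ _ => (mul_usmul _ _ _).symm

end mul

end Pool.Agent.Malc
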