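import Pool.Agent.Malc.Super3

/-! # Skew identities from super identities -/

set_option autoImplicit false

namespace Pool.Agent.Malc

universe u

open Finset Equiv

/-- values of the letters: `y` on the first `k` letters, `w` of the generator on the others -/
def asg {A : Type u} (k : ℕ) (cls : ℕ → ℕ) (y : Fin k → A) (w : ℕ → A) (l : ℕ) : A :=
  if h : l < k then y ⟨l, h⟩ else w (cls l)

theorem asg_lt {A : Type u} {k : ℕ} (cls : ℕ → ℕ) (y : Fin k → A) (w : ℕ → A) (i : Fin k) :
    asg k cls y w i = y i := by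
  unfold asg
  rw [dif_pos i.2]

theorem asg_ge {A : Type u} {k : ℕ} (cls : ℕ → ℕ) (y : Fin k → A) (w : ℕ → A) {l : ℕ}
    (h : k ≤ l) : asg k cls y w l = w (cls l) := by
  unfold asg
  rw [dif_neg (not_lt.2 h)]

theorem asg_update {A : Type u} {k : ℕ} (cls : ℕ → ℕ) (y : Fin k → A) (w : ℕ → A) (i : Fin k)
    (x : A) : asg k cls (Function.update y i x) w = Function.update (asg k cls y w) i x := by
  funext l
  by_cases h : l = i
  · subst h
    rw [asg_lt, Function.update_self, Function.update_self]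
  · rw [Function.update_of_ne h]
    unfold asg
    split_ifs with h1
    · rw [Function.update_of_ne]
      intro h2
      apply h
      rw [← h2]
    · rfl

section

variable {S : Type u} [NonUnitalNonAssocRing S]

/-- the super evaluation as a multilinear function of the first letters -/
def PEx.sevM (k : ℕ) (p : ℕ → Bool) (cls : ℕ → ℕ) (w : ℕ → S) (e : PEx) (he : e.ml = true)
    (hk : ∀ i : Fin k, (i : ℕ) ∈ e.ls) : MultilinearMap ℤ (fun _ : Fin k => S) S where
  toFun := fun y => e.sev p (asg k cls y w)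
  map_update_add' := by
    intro inst y i a b
    obtain rfl := Subsingleton.elim inst (instDecidableEqFin k)
    rw [asg_update, asg_update, asg_update, PEx.sev_add p _ e he _ (hk i)]
  map_update_smul' := by
    intro inst y i c a
    obtain rfl := Subsingleton.elim inst (instDecidableEqFin k)
    rw [asg_update, asg_update, ← PEx.sevHom_apply p _ e he _ (hk i),
      ← PEx.sevHom_apply p _ e he _ (hk i), map_zsmul]

theorem PEx.sevM_apply (k : ℕ) (p : ℕ → Bool) (cls : ℕ → ℕ) (w : ℕ → S) (e : PEx)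
    (he : e.ml = true) (hk : ∀ i : Fin k, (i : ℕ) ∈ e.ls) (y : Fin k → S) :
    PEx.sevM k p cls w e he hk y = e.sev p (asg k cls y w) := rfl

end

section

variable {k : ℕ}

theorem ep_single {a b : Fin k} (h : a ≠ b) : ep {a} {b} = if b < a then (-1 : ℤ) else 1 := by
  rw [ep_of_disj (disjoint_singleton.2 h), prod_singleton, prod_singleton]

theorem od_single (i : Fin k) : od ({i} : Finset (Fin k)) = true := by
  unfold od
  rw [card_singleton]
  rfl

theorem od_empty : od (∅ : Finset (Fin k)) = false := by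
  unfold od
  rw [card_empty]
  rfl

/-- the sets of the first letters -/
def Us (φ : Fin k → Fin k) (l : ℕ) : Finset (Fin k) := if h : l < k then {φ ⟨l, h⟩} else ∅

theorem Us_lt (φ : Fin k → Fin k) (i : Fin k) : Us φ i = {φ i} := by
  unfold Us
  rw [dif_pos i.2]

theorem Us_ge (φ : Fin k → Fin k) {l : ℕ} (h : k ≤ l) : Us φ l = ∅ := by
  unfold Us
  rw [dif_neg (not_lt.2 h)]

theorem E2_Us_not (φ : Fin k → Fin k) (s : Finset ℕ) (hk : ∀ i : Fin k, (i : ℕ) ∈ s)
    (h : ¬ Function.Injective φ) : E2 (Us φ) s = 0 := by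
  by_contra h0
  apply h
  intro i j hij
  by_contra hne
  have h1 := disj_of_E2 (Us φ) h0 i (hk i) j (hk j) (fun e => hne (Fin.ext e))
  rw [Us_lt, Us_lt, hij, disjoint_singleton] at h1
  exact h1 rfl

theorem E2_Us_perm (σ : Perm (Fin k)) (s : Finset ℕ) (hk : ∀ i : Fin k, (i : ℕ) ∈ s) :
    E2 (Us σ) s = (Perm.sign σ : ℤ) := by
  have hsub : range k ⊆ s := fun i hi => hk ⟨i, mem_range.1 hi⟩
  have h1 : E2 (Us σ) s = ∏ i ∈ range k, ∏ j ∈ range k,
      if i < j then ep (Us σ i) (Us σ j) else 1 := by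
    unfold E2
    rw [← prod_subset hsub]
    · refine prod_congr rfl fun i _ => ?_
      rw [← prod_subset hsub]
      intro j _ hj
      rw [mem_range, not_lt] at hj
      rw [Us_ge _ hj, ep_empty_right, ite_self]
    · intro i _ hi
      rw [mem_range, not_lt] at hi
      refine prod_eq_one fun j _ => ?_
      rw [Us_ge _ hi, ep_empty_left, ite_self]
  rw [h1, prod_range]
  simp_rw [prod_range]
  rw [Perm.sign_eq_prod_prod_Ioi, Units.coe_prod]
  refine prod_congr rfl fun i _ => ?_
  rw [Units.coe_prod]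
  have h2 : (Ioi i : Finset (Fin k)) = univ.filter (fun j => i < j) := by
    ext j
    simp
  rw [h2, prod_filter]
  refine prod_congr rfl fun j _ => ?_
  by_cases hij : i < j
  · rw [if_pos hij, if_pos (Fin.lt_def.1 hij), Us_lt, Us_lt,
      ep_single (fun e => hij.ne (σ.injective e))]
    by_cases h3 : σ i < σ j
    · rw [if_neg (not_lt.2 h3.le), if_pos h3]
      rfl
    · rw [if_neg h3, if_pos]
      · rfl
      · exact lt_of_le_of_ne (not_lt.1 h3) (fun e => hij.ne (σ.injective e.symm))
  · rw [if_neg hij, if_neg (fun h => hij (Fin.lt_def.2 h))]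

end

/-- If an expression vanishes in all superalgebras with the identities, then its partial
alternation vanishes in all algebras with the identities. -/
theorem super_sound {ids : List PEx} (hids : ∀ e ∈ ids, e.ml = true) (k : ℕ) (par : ℕ → Bool)
    (cls : ℕ → ℕ) (e : PEx) (he : e.ml = true) (hk : ∀ i : Fin k, (i : ℕ) ∈ e.ls)
    (hodd : ∀ i : Fin k, par (cls i) = true)
    (heven : ∀ l ∈ e.ls, k ≤ l → par (cls l) = false)
    (H : ∀ (S : Type u) [NonUnitalNonAssocRing S] (h : SM ids S) (v : ℕ → S),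
      (∀ g, v g ∈ h.P (par g)) → e.sev (fun l => par (cls l)) (fun l => v (cls l)) = 0)
    {A : Type u} [NonUnitalNonAssocRing A] (hA : Alg ids A) (y : Fin k → A) (w : ℕ → A) :
    ∑ σ ∈ univ.filter (fun σ : Perm (Fin k) => ∀ i, cls (σ i) = cls i),
      (Perm.sign σ : ℤ) • e.ev (asg k cls (y ∘ σ) w) = 0 := by
  classical
  set p : ℕ → Bool := fun l => par (cls l) with hp
  let v : ℕ → GrA k A := fun g => if par g = true then
    ∑ i ∈ univ.filter (fun i : Fin k => cls i = g), GrA.sgl {i} (y i) else GrA.sgl ∅ (w g)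
  have hv : ∀ g, v g ∈ (GrA.sm k hids hA).P (par g) := by
    intro g
    by_cases hg : par g = true
    · have h1 : v g = ∑ i ∈ univ.filter (fun i : Fin k => cls i = g), GrA.sgl {i} (y i) :=
        if_pos hg
      rw [h1, hg]
      refine AddSubgroup.sum_mem _ fun i _ => ?_
      have := GrA.sgl_mem {i} (y i)
      rw [od_single] at this
      exact this
    · have h1 : v g = GrA.sgl ∅ (w g) := if_neg hg
      rw [h1, Bool.eq_false_iff.2 hg]
      have := GrA.sgl_mem (k := k) ∅ (w g)
      rw [od_empty] at this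
      exact this
  have h0 := H (GrA k A) (GrA.sm k hids hA) v hv
  -- expand
  have h1 : e.sev p (fun l => v (cls l)) = e.sev p (asg k cls (fun i : Fin k =>
      ∑ j ∈ univ.filter (fun j : Fin k => cls j = cls i), GrA.sgl {j} (y j)) v) := by
    apply PEx.sev_congr p e he
    intro l _
    by_cases hl : l < k
    · unfold asg
      rw [dif_pos hl]
      exact if_pos (hodd ⟨l, hl⟩)
    · rw [asg_ge _ _ _ (not_lt.1 hl)]
  rw [h1, ← PEx.sevM_apply k p cls v e he hk, MultilinearMap.map_sum_finset] at h0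
  have h2 : ∀ φ : Fin k → Fin k, PEx.sevM k p cls v e he hk (fun i => GrA.sgl {φ i} (y (φ i))) =
      E2 (Us φ) e.ls • GrA.sgl (e.ls.biUnion (Us φ)) (e.ev (asg k cls (y ∘ φ) w)) := by
    intro φ
    rw [PEx.sevM_apply]
    apply sev_sgl e he
    · intro l hl
      by_cases h : l < k
      · have e1 := asg_lt cls (fun i => GrA.sgl {φ i} (y (φ i))) v ⟨l, h⟩
        have e2 := asg_lt cls (y ∘ φ) w ⟨l, h⟩
        have e3 := Us_lt φ ⟨l, h⟩
        rw [show l = ((⟨l, h⟩ : Fin k) : ℕ) from rfl, e1, e2, e3]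
        rfl
      · rw [asg_ge _ _ _ (not_lt.1 h), asg_ge _ _ _ (not_lt.1 h), Us_ge _ (not_lt.1 h)]
        have : par (cls l) = false := heven l hl (not_lt.1 h)
        exact if_neg (by rw [this]; exact Bool.false_ne_true)
    · intro l hl
      by_cases h : l < k
      · have e3 := Us_lt φ ⟨l, h⟩
        rw [show l = ((⟨l, h⟩ : Fin k) : ℕ) from rfl, e3, od_single]
        exact hodd ⟨l, h⟩
      · rw [Us_ge _ (not_lt.1 h), od_empty]
        exact heven l hl (not_lt.1 h)
  have h3 := congrFun h0 univ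
  rw [GrA.sum_ap] at h3
  have h4 : ∀ φ : Fin k → Fin k, (PEx.sevM k p cls v e he hk (fun i => GrA.sgl {φ i} (y (φ i))))
      univ = E2 (Us φ) e.ls • (if univ = e.ls.biUnion (Us φ) then
        e.ev (asg k cls (y ∘ φ) w) else 0) := by
    intro φ
    rw [h2 φ]
    rfl
  simp_rw [h4] at h3
  let em : Perm (Fin k) ↪ (Fin k → Fin k) := ⟨fun σ => ⇑σ, DFunLike.coe_injective⟩
  rw [← sum_subset (s₁ := (univ.filter (fun σ : Perm (Fin k) => ∀ i, cls (σ i) = cls i)).map em)]
    at h3
  · rw [sum_map] at h3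
    refine Eq.trans (sum_congr rfl fun σ _ => ?_) h3
    have e1 : em σ = ⇑σ := rfl
    rw [e1, E2_Us_perm σ e.ls hk, if_pos]
    ext j
    refine ⟨fun _ => ?_, fun _ => mem_univ j⟩
    rw [mem_biUnion]
    refine ⟨(σ.symm j : Fin k), hk _, ?_⟩
    rw [Us_lt, Equiv.apply_symm_apply]
    exact mem_singleton_self j
  · intro φ hφ
    rw [mem_map] at hφ
    obtain ⟨σ, hσ, rfl⟩ := hφ
    rw [mem_filter] at hσ
    rw [Fintype.mem_piFinset]
    intro i
    rw [mem_filter]
    exact ⟨mem_univ _, hσ.2 i⟩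
  · intro φ hφ hφ'
    rw [E2_Us_not φ e.ls hk, zero_smul]
    intro hinj
    apply hφ'
    rw [mem_map]
    refine ⟨Equiv.ofBijective φ (Finite.injective_iff_bijective.1 hinj), ?_, rfl⟩
    rw [mem_filter]
    refine ⟨mem_univ _, fun i => ?_⟩
    rw [Fintype.mem_piFinset] at hφ
    exact (mem_filter.1 (hφ i)).2

/-- for expressions which are already skew -/
theorem super_skew {ids : List PEx} (hids : ∀ e ∈ ids, e.ml = true) (k : ℕ) (par : ℕ → Bool)
    (cls : ℕ → ℕ) (e : PEx) (he : e.ml = true) (hk : ∀ i : Fin k, (i : ℕ) ∈ e.ls)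
    (hodd : ∀ i : Fin k, par (cls i) = true)
    (heven : ∀ l ∈ e.ls, k ≤ l → par (cls l) = false)
    (H : ∀ (S : Type u) [NonUnitalNonAssocRing S] (h : SM ids S) (v : ℕ → S),
      (∀ g, v g ∈ h.P (par g)) → e.sev (fun l => par (cls l)) (fun l => v (cls l)) = 0)
    {A : Type u} [NonUnitalNonAssocRing A] (hA : Alg ids A) (w : ℕ → A)
    (hskew : ∀ i j : Fin k, i ≠ j → cls i = cls j → ∀ y : Fin k → A,
      e.ev (asg k cls (y ∘ swap i j) w) = - e.ev (asg k cls y w)) (y : Fin k → A) :
    e.ev (asg k cls y w) = 0 := by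
  have hs : ∀ (n : ℕ) (σ : Perm (Fin k)), σ.support.card = n → (∀ i, cls (σ i) = cls i) →
      ∀ y : Fin k → A, e.ev (asg k cls (y ∘ σ) w) = (Perm.sign σ : ℤ) • e.ev (asg k cls y w) := by
    intro n
    induction n using Nat.strong_induction_on with
    | _ n ih =>
      intro σ hσ hc y
      by_cases h1 : σ = 1
      · subst h1
        simp
      · obtain ⟨x, hx⟩ : ∃ x, σ x ≠ x := by
          by_contra h2
          push Not at h2
          exact h1 (Equiv.ext h2)
        have h3 := Perm.card_support_swap_mul hx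
        have h4 : ∀ i, cls ((swap x (σ x) * σ) i) = cls i := by
          intro i
          rw [Perm.mul_apply]
          by_cases e1 : σ i = x
          · rw [e1, swap_apply_left, hc x, ← e1, hc i]
          · by_cases e2 : σ i = σ x
            · rw [e2, swap_apply_right, ← σ.injective e2]
            · rw [swap_apply_of_ne_of_ne e1 e2, hc i]
        have h5 := ih _ (hσ ▸ h3) (swap x (σ x) * σ) rfl h4 (y ∘ swap x (σ x))
        rw [hskew x (σ x) hx.symm (hc x).symm y, Perm.sign_mul, Perm.sign_swap hx.symm] at h5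
        have h6 : (y ∘ swap x (σ x)) ∘ ⇑(swap x (σ x) * σ) = y ∘ σ := by
          funext i
          simp only [Function.comp_apply, Perm.mul_apply, swap_apply_self]
        rw [h6] at h5
        rw [h5, Units.val_mul, Units.val_neg, Units.val_one, neg_one_mul, neg_smul, smul_neg,
          neg_neg]
  have h1 := super_sound hids k par cls e he hk hodd heven H hA y w
  have h2 : ∀ σ ∈ univ.filter (fun σ : Perm (Fin k) => ∀ i, cls (σ i) = cls i),
      (Perm.sign σ : ℤ) • e.ev (asg k cls (y ∘ σ) w) = e.ev (asg k cls y w) := by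
    intro σ hσ
    rw [mem_filter] at hσ
    rw [hs _ σ rfl hσ.2 y, smul_smul, ← Units.val_mul, Int.units_mul_self, Units.val_one, one_smul]
  rw [sum_congr rfl h2, sum_const] at h1
  apply hA.tf ((univ.filter (fun σ : Perm (Fin k) => ∀ i, cls (σ i) = cls i)).card : ℤ) _ _
  · rw [natCast_zsmul]
    exact h1
  · rw [Nat.cast_ne_zero]
    apply Finset.card_ne_zero_of_mem (a := 1)
    rw [mem_filter]
    exact ⟨mem_univ _, fun i => rfl⟩

end Pool.Agent.Malc
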