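import Mathlib

/-! # Multilinear expressions and their super evaluation -/

set_option autoImplicit false

namespace Pool.Agent.Malc

universe u

/-- nonassociative expressions in the letters `X i` -/
inductive PEx : Type
  | X (i : ℕ) : PEx
  | add (a b : PEx) : PEx
  | sub (a b : PEx) : PEx
  | neg (a : PEx) : PEx
  | zs (n : ℤ) (a : PEx) : PEx
  | ns (n : ℕ) (a : PEx) : PEx
  | mul (a b : PEx) : PEx

/-- parity of the number of `j` in the list with `j < i`, `i` and `j` odd -/
def oinv (p : ℕ → Bool) (i : ℕ) : List ℕ → Bool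
  | [] => false
  | j :: l => xor (p i && p j && Nat.blt j i) (oinv p i l)

/-- parity of the number of inversions of odd letters between two lists -/
def linv (p : ℕ → Bool) : List ℕ → List ℕ → Bool
  | [], _ => false
  | i :: l, m => xor (oinv p i m) (linv p l m)

/-- the sign -/
def sg : Bool → ℤ
  | true => -1
  | false => 1

namespace PEx

/-- the letters (of the leftmost monomial) -/
def lts : PEx → List ℕ
  | X i => [i]
  | add a _ => a.lts
  | sub a _ => a.lts
  | neg a => a.lts
  | zs _ a => a.lts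
  | ns _ a => a.lts
  | mul a b => a.lts ++ b.lts

/-- the expression is multilinear: every letter of `lts` occurs exactly once in every monomial -/
def ml : PEx → Bool
  | X _ => true
  | add a b => a.ml && b.ml && a.lts.isPerm b.lts
  | sub a b => a.ml && b.ml && a.lts.isPerm b.lts
  | neg a => a.ml
  | zs _ a => a.ml
  | ns _ a => a.ml
  | mul a b => a.ml && b.ml && a.lts.all (fun i => b.lts.all (fun j => !(Nat.beq i j)))

/-- evaluation -/
def ev {A : Type u} [NonUnitalNonAssocRing A] (y : ℕ → A) : PEx → A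
  | X i => y i
  | add a b => a.ev y + b.ev y
  | sub a b => a.ev y - b.ev y
  | neg a => - a.ev y
  | zs n a => n • a.ev y
  | ns n a => n • a.ev y
  | mul a b => a.ev y * b.ev y

/-- super evaluation, `p l` is the parity of the letter `l` -/
def sev {S : Type u} [NonUnitalNonAssocRing S] (p : ℕ → Bool) (z : ℕ → S) : PEx → S
  | X i => z i
  | add a b => a.sev p z + b.sev p z
  | sub a b => a.sev p z - b.sev p z
  | neg a => - a.sev p z
  | zs n a => n • a.sev p z
  | ns n a => n • a.sev p z
  | mul a b => sg (linv p a.lts b.lts) • (a.sev p z * b.sev p z)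

end PEx

/-- `A` satisfies the identities `ids` and has no torsion -/
structure Alg (ids : List PEx) (A : Type u) [NonUnitalNonAssocRing A] : Prop where
  tf : ∀ (n : ℤ) (x : A), n ≠ 0 → n • x = 0 → x = 0
  ids : ∀ e ∈ ids, ∀ y : ℕ → A, e.ev y = 0

/-- a superalgebra with the super identities `ids` and without torsion -/
structure SM (ids : List PEx) (S : Type u) [NonUnitalNonAssocRing S] where
  P : Bool → AddSubgroup S
  mul_mem : ∀ (a b : Bool) (x y : S), x ∈ P a → y ∈ P b → x * y ∈ P (xor a b)
  tf : ∀ (n : ℤ) (x : S), n ≠ 0 → n • x = 0 → x = 0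
  ids : ∀ e ∈ ids, ∀ (p : ℕ → Bool) (z : ℕ → S), (∀ l, z l ∈ P (p l)) → e.sev p z = 0

/-- `xy + yx` -/
def antiEx : PEx := .add (.mul (.X 0) (.X 1)) (.mul (.X 1) (.X 0))

/-- Sagle's identity `(xz)(yt) = ((xy)z)t + ((yz)t)x + ((zt)x)y + ((tx)y)z`, letters x,y,z,t = 0,1,2,3 -/
def sagleEx : PEx :=
  .sub (.mul (.mul (.X 0) (.X 2)) (.mul (.X 1) (.X 3)))
    (.add (.add (.add (.mul (.mul (.mul (.X 0) (.X 1)) (.X 2)) (.X 3))
      (.mul (.mul (.mul (.X 1) (.X 2)) (.X 3)) (.X 0)))
      (.mul (.mul (.mul (.X 2) (.X 3)) (.X 0)) (.X 1)))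
      (.mul (.mul (.mul (.X 3) (.X 0)) (.X 1)) (.X 2)))

end Pool.Agent.Malc
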