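import Pool.Agent.Malc.Words3

/-! # The multilinear relatively free algebra -/

set_option autoImplicit false

namespace Pool.Agent.Malc

universe u v

variable (F : Type u) [Field F]

namespace MulAlgAux

variable {F}

theorem comp_mul_wd (m : Multiset ℕ) (p : FA F) (w : FreeMagma ℕ) :
    comp F m (p * wd w) =
      if content w ≤ m then comp F (m - content w) p * wd w else 0 := by
  have key : (comp F m) ∘ₗ (LinearMap.mulRight F (wd w : FA F)) =
      if content w ≤ m then (LinearMap.mulRight F (wd w : FA F)) ∘ₗ (comp F (m - content w))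
      else 0 := by
    apply lin_ext
    intro a
    by_cases h : content w ≤ m
    · rw [if_pos h]
      simp only [LinearMap.comp_apply, LinearMap.mulRight_apply]
      rw [wd_mul, comp_wd, comp_wd]
      have hc : content (FreeMagma.mul a w) = content a + content w := rfl
      rw [hc]
      by_cases h2 : content a = m - content w
      · rw [if_pos h2, if_pos (by rw [h2]; exact tsub_add_cancel_of_le h), wd_mul]
      · rw [if_neg h2, if_neg, zero_mul]
        intro h3
        exact h2 (by rw [← h3, add_tsub_cancel_right])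
    · rw [if_neg h]
      simp only [LinearMap.comp_apply, LinearMap.mulRight_apply, LinearMap.zero_apply]
      rw [wd_mul, comp_wd, if_neg]
      intro h3
      have hc : content (FreeMagma.mul a w) = content a + content w := rfl
      rw [hc] at h3
      exact h (by rw [← h3]; exact Multiset.le_add_left _ _)
  have := LinearMap.congr_fun key p
  rw [LinearMap.comp_apply, LinearMap.mulRight_apply] at this
  rw [this]
  by_cases h : content w ≤ m
  · rw [if_pos h, if_pos h]; rfl
  · rw [if_neg h, if_neg h]; rfl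

theorem comp_wd_mul (m : Multiset ℕ) (p : FA F) (w : FreeMagma ℕ) :
    comp F m (wd w * p) =
      if content w ≤ m then wd w * comp F (m - content w) p else 0 := by
  have key : (comp F m) ∘ₗ (LinearMap.mulLeft F (wd w : FA F)) =
      if content w ≤ m then (LinearMap.mulLeft F (wd w : FA F)) ∘ₗ (comp F (m - content w))
      else 0 := by
    apply lin_ext
    intro a
    by_cases h : content w ≤ m
    · rw [if_pos h]
      simp only [LinearMap.comp_apply, LinearMap.mulLeft_apply]
      rw [wd_mul, comp_wd, comp_wd]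
      have hc : content (FreeMagma.mul w a) = content w + content a := rfl
      rw [hc]
      by_cases h2 : content a = m - content w
      · rw [if_pos h2, if_pos (by rw [h2]; exact add_tsub_cancel_of_le h), wd_mul]
      · rw [if_neg h2, if_neg, mul_zero]
        intro h3
        exact h2 (by rw [← h3, add_tsub_cancel_left])
    · rw [if_neg h]
      simp only [LinearMap.comp_apply, LinearMap.mulLeft_apply, LinearMap.zero_apply]
      rw [wd_mul, comp_wd, if_neg]
      intro h3
      have hc : content (FreeMagma.mul w a) = content w + content a := rfl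
      rw [hc] at h3
      exact h (by rw [← h3]; exact Multiset.le_add_right _ _)
  have := LinearMap.congr_fun key p
  rw [LinearMap.comp_apply, LinearMap.mulLeft_apply] at this
  rw [this]
  by_cases h : content w ≤ m
  · rw [if_pos h, if_pos h]; rfl
  · rw [if_neg h, if_neg h]; rfl

theorem isId_zero : IsId (0 : FA F) := fun _ _ _ _ _ _ _ => map_zero _

theorem sub_val (L : Finset ℕ) (m : Multiset ℕ) : ∃ L' : Finset ℕ, L.val - m = L'.val :=
  ⟨⟨L.val - m, Multiset.nodup_of_le (Multiset.sub_le_self _ _) L.nodup⟩, rfl⟩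

theorem mul_wd_mem {p : FA F} (hp : p ∈ NN F) (w : FreeMagma ℕ) : p * wd w ∈ NN F := by
  intro L
  rw [comp_mul_wd]
  by_cases h : content w ≤ L.val
  · rw [if_pos h]
    obtain ⟨L', hL'⟩ := sub_val L (content w)
    rw [hL']
    intro B _ _ _ _ hB x
    rw [map_mul, hp L' B hB x, zero_mul]
  · rw [if_neg h]
    exact isId_zero

theorem wd_mul_mem {p : FA F} (hp : p ∈ NN F) (w : FreeMagma ℕ) : wd w * p ∈ NN F := by
  intro L
  rw [comp_wd_mul]
  by_cases h : content w ≤ L.val
  · rw [if_pos h]
    obtain ⟨L', hL'⟩ := sub_val L (content w)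
    rw [hL']
    intro B _ _ _ _ hB x
    rw [map_mul, hp L' B hB x, mul_zero]
  · rw [if_neg h]
    exact isId_zero

end MulAlgAux

theorem NN_idl : IsIdl (NN F) := by
  intro a ha b
  have hb : b ∈ Submodule.span F (Set.range (wd : FreeMagma ℕ → FA F)) := by
    rw [span_wd]; exact Submodule.mem_top
  constructor
  · refine Submodule.span_induction (p := fun b _ => a * b ∈ NN F) ?_ ?_ ?_ ?_ hb
    · rintro _ ⟨w, rfl⟩
      exact MulAlgAux.mul_wd_mem ha w
    · rw [mul_zero]; exact zero_mem _
    · intro x y _ _ hx hy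
      rw [mul_add]; exact add_mem hx hy
    · intro r x _ hx
      rw [mul_smul_comm]; exact Submodule.smul_mem _ _ hx
  · refine Submodule.span_induction (p := fun b _ => b * a ∈ NN F) ?_ ?_ ?_ ?_ hb
    · rintro _ ⟨w, rfl⟩
      exact MulAlgAux.wd_mul_mem ha w
    · rw [zero_mul]; exact zero_mem _
    · intro x y _ _ hx hy
      rw [add_mul]; exact add_mem hx hy
    · intro r x _ hx
      rw [smul_mul_assoc]; exact Submodule.smul_mem _ _ hx

/-- the multilinear relatively free algebra -/
abbrev AM : Type u := IQ (NN F) (NN_idl F)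

/-- the quotient map -/
noncomputable abbrev amk : FA F →ₙₐ[F] AM F := IQ.mkHom (NN_idl F)

variable {F}

theorem amk_surj (a : AM F) : ∃ p : FA F, amk F p = a := IQ.mk_surj a

theorem amk_eq_zero {p : FA F} : amk F p = 0 ↔ p ∈ NN F := IQ.mk_eq_zero

theorem amk_ev (p : FA F) : amk F p = ev (fun i => amk F (FreeNonUnitalNonAssocAlgebra.of F i)) p := by
  have h : (amk F : FA F →ₙₐ[F] AM F) =
      ev (fun i => amk F (FreeNonUnitalNonAssocAlgebra.of F i)) := by
    apply FreeNonUnitalNonAssocAlgebra.hom_ext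
    intro i
    rw [ev_of]
  exact DFunLike.congr_fun h p

theorem mem_NN_of_not_nodup {m : Multiset ℕ} (hm : ¬ m.Nodup) {p : FA F} (hp : p ∈ Hg F m) :
    p ∈ NN F := by
  intro L
  rw [comp_of_mem hp, if_neg]
  · exact MulAlgAux.isId_zero
  · intro h
    exact hm (h ▸ L.nodup)

theorem mem_NN_iff {L : Finset ℕ} {p : FA F} (hp : p ∈ Hg F L.val) : p ∈ NN F ↔ IsId p := by
  constructor
  · intro h
    have := h L
    rwa [comp_of_mem hp, if_pos rfl] at this
  · intro h L'
    rw [comp_of_mem hp]
    by_cases h2 : L.val = L'.val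
    · rw [if_pos h2]; exact h
    · rw [if_neg h2]; exact MulAlgAux.isId_zero

theorem comp_mem_NN {p : FA F} (hp : p ∈ NN F) (m : Multiset ℕ) : comp F m p ∈ NN F := by
  intro L
  rw [comp_of_mem (comp_mem m p)]
  by_cases h2 : m = L.val
  · rw [if_pos h2, h2]; exact hp L
  · rw [if_neg h2]; exact MulAlgAux.isId_zero

/-- a multilinear identity of the variety holds for words, modulo `NN` -/
theorem words_mem_NN {L : Finset ℕ} {p : FA F} (hp : p ∈ Hg F L.val) (hI : IsId p)
    (y : ℕ → FreeMagma ℕ) : ev (fun i => (wd (y i) : FA F)) p ∈ NN F := by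
  have hm := ev_word_mem hp y
  by_cases hn : (L.val.bind fun i => content (y i)).Nodup
  · have hm' : ev (fun i => (wd (y i) : FA F)) p ∈
        Hg F (⟨L.val.bind fun i => content (y i), hn⟩ : Finset ℕ).val := hm
    rw [mem_NN_iff hm']
    intro B _ _ _ _ hB x
    have h1 : FreeNonUnitalNonAssocAlgebra.lift F x (ev (fun i => (wd (y i) : FA F)) p) =
        ev (fun i => ev x (wd (y i) : FA F)) p := ev_ev x _ p
    rw [h1]
    exact hI B hB _
  · exact mem_NN_of_not_nodup hn hm

namespace MulAlgAux

theorem all_mem_NN {L : Finset ℕ} {p : FA F} (hp : p ∈ Hg F L.val) (hI : IsId p) :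
    ∀ T : Finset ℕ, T ⊆ L → ∀ y : ℕ → FA F, (∀ i ∈ L, i ∉ T → ∃ w, y i = wd w) →
      ev y p ∈ NN F := by
  intro T
  induction T using Finset.induction_on with
  | empty =>
    intro _ y hy
    have hy' : ∀ i, ∃ w : FreeMagma ℕ, i ∈ L → y i = wd w := by
      intro i
      by_cases hi : i ∈ L
      · obtain ⟨w, hw⟩ := hy i hi (Finset.notMem_empty i)
        exact ⟨w, fun _ => hw⟩
      · exact ⟨FreeMagma.of 0, fun h => absurd h hi⟩
    choose w hw using hy'
    rw [ev_congr hp y (fun i => (wd (w i) : FA F)) (fun i hi => hw i hi)]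
    exact words_mem_NN hp hI w
  | insert j T hj ih =>
    intro hT y hy
    have hjL : j ∈ L := hT (Finset.mem_insert_self j T)
    have hTL : T ⊆ L := fun i hi => hT (Finset.mem_insert_of_mem hi)
    have key : ∀ b ∈ Submodule.span F (Set.range (wd : FreeMagma ℕ → FA F)),
        ev (Function.update y j b) p ∈ NN F := by
      intro b hb
      refine Submodule.span_induction (p := fun b _ => ev (Function.update y j b) p ∈ NN F)
        ?_ ?_ ?_ ?_ hb
      · rintro _ ⟨w, rfl⟩
        apply ih hTL
        intro i hi hiT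
        by_cases hij : i = j
        · subst hij
          exact ⟨w, Function.update_self _ _ _⟩
        · rw [Function.update_of_ne hij]
          exact hy i hi (by
            rw [Finset.mem_insert, not_or]
            exact ⟨hij, hiT⟩)
      · have := ev_update_smul hp hjL y (0 : F) (0 : FA F)
        rw [zero_smul, zero_smul] at this
        rw [this]
        exact zero_mem _
      · intro a b _ _ ha hb
        rw [ev_update_add hp hjL]
        exact add_mem ha hb
      · intro r a _ ha
        rw [ev_update_smul hp hjL]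
        exact Submodule.smul_mem _ _ ha
    have h1 := key (y j) (by rw [span_wd]; exact Submodule.mem_top)
    rwa [Function.update_eq_self] at h1

end MulAlgAux

/-- a multilinear identity of the variety holds in `AM` -/
theorem AM_id {L : Finset ℕ} {p : FA F} (hp : p ∈ Hg F L.val) (hI : IsId p) (y : ℕ → AM F) :
    ev y p = 0 := by
  choose y' hy' using fun i => amk_surj (y i)
  have h1 : y = fun i => amk F (y' i) := funext fun i => (hy' i).symm
  rw [h1, ← hom_ev (amk F) y' p, amk_eq_zero]
  exact MulAlgAux.all_mem_NN hp hI L (Finset.Subset.refl L) y'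
    (fun i hi hn => absurd hi hn)

namespace MulAlgAux

theorem of_mem (i : ℕ) : FreeNonUnitalNonAssocAlgebra.of F i ∈ Hg F {i} := by
  rw [of_eq_wd]
  exact wd_mem (FreeMagma.of i)

section

variable {B : Type v} [NonUnitalNonAssocRing B]

theorem jac_add1 (a a' b c : B) : Jac (a + a') b c = Jac a b c + Jac a' b c := by
  simp only [Jac, add_mul, mul_add]; abel

theorem jac_add3 (a b c c' : B) : Jac a b (c + c') = Jac a b c + Jac a b c' := by
  simp only [Jac, add_mul, mul_add]; abel

theorem sq_lin (h : IsMalcev B) (a b : B) : a * b + b * a = 0 := by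
  have h1 := h.sq (a + b)
  rw [mul_add, add_mul, add_mul, h.sq a, h.sq b, zero_add, add_zero] at h1
  rw [add_comm]
  exact h1

theorem mal_lin (h : IsMalcev B) (a a' b c : B) :
    Jac a b (a' * c) + Jac a' b (a * c) - Jac a b c * a' - Jac a' b c * a = 0 := by
  have h1 := h.mal (a + a') b c
  rw [add_mul, jac_add3, jac_add1, jac_add1, jac_add1, mul_add, add_mul, add_mul, h.mal a b c,
    h.mal a' b c] at h1
  have h2 := sub_eq_zero.mpr h1
  rw [← h2]
  abel

end

end MulAlgAux

namespace MulAlgAux

/-- the generators -/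
noncomputable def o (i : ℕ) : FA F := FreeNonUnitalNonAssocAlgebra.of F i

theorem o_mem (i : ℕ) : (o i : FA F) ∈ Hg F {i} := of_mem i

section

variable {B : Type u} [NonUnitalNonAssocRing B] [Module F B] [IsScalarTower F B B]
  [SMulCommClass F B B]

theorem ev_o (x : ℕ → B) (i : ℕ) : ev x (o i : FA F) = x i := ev_of x i

theorem ev_mul (x : ℕ → B) (p q : FA F) : ev x (p * q) = ev x p * ev x q := map_mul (ev x) p q
theorem ev_add (x : ℕ → B) (p q : FA F) : ev x (p + q) = ev x p + ev x q := map_add (ev x) p q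
theorem ev_sub (x : ℕ → B) (p q : FA F) : ev x (p - q) = ev x p - ev x q := map_sub (ev x) p q
theorem ev_Jac (x : ℕ → B) (p q r : FA F) :
    ev x (Jac p q r) = Jac (ev x p) (ev x q) (ev x r) := hom_Jac (ev x) p q r
theorem ev_P108 (x : ℕ → B) (a b c d y : FA F) :
    ev x (P108 a b c d y) = P108 (ev x a) (ev x b) (ev x c) (ev x d) (ev x y) :=
  hom_P108 (ev x) a b c d y

end

theorem two_tor [CharZero F] (a : AM F) (ha : a + a = 0) : a = 0 := by
  have h2 : (2 : F) • a = 0 := by rw [two_smul, ha]
  rcases smul_eq_zero.mp h2 with h | h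
  · exact absurd h two_ne_zero
  · exact h

variable (F) in
/-- linearised anticommutativity -/
noncomputable def sqp : FA F := o 0 * o 1 + o 1 * o 0

theorem sqp_mem : sqp F ∈ Hg F (({0, 1} : Finset ℕ)).val := by
  refine Submodule.add_mem _ ?_ ?_
  · have := Hg_mul (F := F) (o_mem 0) (o_mem 1)
    have e : (({0} : Multiset ℕ) + {1}) = ({0, 1} : Finset ℕ).val := by decide
    rwa [e] at this
  · have := Hg_mul (F := F) (o_mem 1) (o_mem 0)
    have e : (({1} : Multiset ℕ) + {0}) = ({0, 1} : Finset ℕ).val := by decide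
    rwa [e] at this

theorem ev_sqp {B : Type u} [NonUnitalNonAssocRing B] [Module F B] [IsScalarTower F B B]
    [SMulCommClass F B B] (x : ℕ → B) : ev x (sqp F) = x 0 * x 1 + x 1 * x 0 := by
  rw [sqp, ev_add, ev_mul, ev_mul, ev_o, ev_o]

theorem sqp_id : IsId (sqp F) := by
  intro B _ _ _ _ hB x
  exact (ev_sqp x).trans (sq_lin hB.toIsMalcev _ _)

variable (F) in
/-- linearised Malcev identity -/
noncomputable def malp : FA F := Jac (o 0) (o 2) (o 1 * o 3) + Jac (o 1) (o 2) (o 0 * o 3) -
        Jac (o 0) (o 2) (o 3) * o 1 - Jac (o 1) (o 2) (o 3) * o 0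

theorem malp_mem : malp F ∈ Hg F (({0, 1, 2, 3} : Finset ℕ)).val := by
  refine sub_mem (sub_mem (add_mem ?_ ?_) ?_) ?_
  · have := Jac_mem (F := F) (o_mem 0) (o_mem 2) (Hg_mul (o_mem 1) (o_mem 3))
    have e : (({0} : Multiset ℕ) + {2} + ({1} + {3})) = ({0, 1, 2, 3} : Finset ℕ).val := by
      decide
    rwa [e] at this
  · have := Jac_mem (F := F) (o_mem 1) (o_mem 2) (Hg_mul (o_mem 0) (o_mem 3))
    have e : (({1} : Multiset ℕ) + {2} + ({0} + {3})) = ({0, 1, 2, 3} : Finset ℕ).val := by
      decide
    rwa [e] at this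
  · have := Hg_mul (F := F) (Jac_mem (o_mem 0) (o_mem 2) (o_mem 3)) (o_mem 1)
    have e : (({0} : Multiset ℕ) + {2} + {3} + {1}) = ({0, 1, 2, 3} : Finset ℕ).val := by
      decide
    rwa [e] at this
  · have := Hg_mul (F := F) (Jac_mem (o_mem 1) (o_mem 2) (o_mem 3)) (o_mem 0)
    have e : (({1} : Multiset ℕ) + {2} + {3} + {0}) = ({0, 1, 2, 3} : Finset ℕ).val := by
      decide
    rwa [e] at this

theorem ev_malp {B : Type u} [NonUnitalNonAssocRing B] [Module F B] [IsScalarTower F B B]
    [SMulCommClass F B B] (x : ℕ → B) : ev x (malp F) =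
      Jac (x 0) (x 2) (x 1 * x 3) + Jac (x 1) (x 2) (x 0 * x 3) -
        Jac (x 0) (x 2) (x 3) * x 1 - Jac (x 1) (x 2) (x 3) * x 0 := by
  simp only [malp, ev_sub, ev_add, ev_mul, ev_Jac, ev_o]

theorem malp_id : IsId (malp F) := by
  intro B _ _ _ _ hB x
  exact (ev_malp x).trans (mal_lin hB.toIsMalcev _ _ _ _)

variable (F) in
/-- the identity f6 -/
noncomputable def f6p : FA F :=
  P108 (o 0) (o 1) (o 2) (o 3) (o 4 * o 5) - P108 (o 0) (o 1) (o 2) (o 3) (o 4) * o 5

theorem f6p_mem : f6p F ∈ Hg F (({0, 1, 2, 3, 4, 5} : Finset ℕ)).val := by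
  refine sub_mem ?_ ?_
  · have := P108_mem (F := F) (o_mem 0) (o_mem 1) (o_mem 2) (o_mem 3)
      (Hg_mul (o_mem 4) (o_mem 5))
    have e : (({0} : Multiset ℕ) + {1} + {2} + {3} + ({4} + {5})) =
      ({0, 1, 2, 3, 4, 5} : Finset ℕ).val := by decide
    rwa [e] at this
  · have := Hg_mul (F := F) (P108_mem (o_mem 0) (o_mem 1) (o_mem 2) (o_mem 3)
      (o_mem 4)) (o_mem 5)
    have e : (({0} : Multiset ℕ) + {1} + {2} + {3} + {4} + {5}) =
      ({0, 1, 2, 3, 4, 5} : Finset ℕ).val := by decide
    rwa [e] at this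

theorem ev_f6p {B : Type u} [NonUnitalNonAssocRing B] [Module F B] [IsScalarTower F B B]
    [SMulCommClass F B B] (x : ℕ → B) : ev x (f6p F) =
      P108 (x 0) (x 1) (x 2) (x 3) (x 4 * x 5) - P108 (x 0) (x 1) (x 2) (x 3) (x 4) * x 5 := by
  simp only [f6p, ev_sub, ev_mul, ev_P108, ev_o]

theorem f6p_id : IsId (f6p F) := by
  intro B _ _ _ _ hB x
  refine (ev_f6p x).trans ?_
  rw [hB.f6, sub_self]

end MulAlgAux

variable (F)

open MulAlgAux in
theorem AM_isV [CharZero F] : IsV (AM F) := by
  refine { sq := ?_, mal := ?_, f6 := ?_ }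
  · intro x
    apply two_tor
    have := AM_id sqp_mem sqp_id (fun _ => x)
    rwa [ev_sqp] at this
  · intro x y z
    rw [← sub_eq_zero]
    apply two_tor
    have h := AM_id malp_mem malp_id
      (fun i => match i with | 0 => x | 1 => x | 2 => y | _ => z)
    rw [ev_malp] at h
    have h' : Jac x y (x * z) + Jac x y (x * z) - Jac x y z * x - Jac x y z * x = 0 := h
    rw [← h']
    abel
  · intro a b c d v z
    rw [← sub_eq_zero]
    have := AM_id f6p_mem f6p_id
      (fun i => match i with | 0 => a | 1 => b | 2 => c | 3 => d | 4 => v | _ => z)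
    rw [ev_f6p] at this
    exact this

end Pool.Agent.Malc
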