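import Pool.Agent.Malc.D3
import Pool.Agent.Malc.MulAlg

/-! # Exactness on the multilinear algebra -/

set_option autoImplicit false

namespace Pool.Agent.Malc

universe u v

variable {F : Type u} [Field F] [CharZero F]

namespace ExactAux

omit [CharZero F] in
variable (F) in
/-- the generic point -/
noncomputable def XX : ℕ → AM F := fun i => amk F (FreeNonUnitalNonAssocAlgebra.of F i)

omit [CharZero F] in
theorem amk_wd (w : FreeMagma ℕ) : amk F (wd w) = evw (XX F) w := by
  rw [amk_ev, ev_wd]
  rfl

omit [CharZero F] in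
theorem span_evw (a : AM F) : a ∈ Submodule.span F (Set.range (evw (XX F))) := by
  obtain ⟨p, rfl⟩ := amk_surj a
  have hp : p ∈ Submodule.span F (Set.range (wd : FreeMagma ℕ → FA F)) := by
    rw [span_wd]; trivial
  induction hp using Submodule.span_induction with
  | mem x hx =>
    obtain ⟨w, rfl⟩ := hx
    rw [amk_wd]
    exact Submodule.subset_span ⟨w, rfl⟩
  | zero => rw [map_zero]; exact Submodule.zero_mem _
  | add x y _ _ hx hy => rw [map_add]; exact Submodule.add_mem _ hx hy
  | smul r x _ hx => rw [map_smul]; exact Submodule.smul_mem _ _ hx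

/-- the generators of the graph -/
noncomputable def gen (a b c : AM F) : AM F × (AM F → AM F → AM F) := (Jac a b c, fun y x => P108 a b c y x)

omit [CharZero F] in
theorem gen_lin1 (b c : AM F) : ∃ f : AM F →ₗ[F] AM F × (AM F → AM F → AM F),
    ∀ a, f a = gen a b c := by
  obtain ⟨f, hf⟩ := Jac_lin1 F b c
  have hg := fun y x => P108_lin_a F b c y x
  choose g hg using hg
  refine ⟨LinearMap.prod f (LinearMap.pi fun y => LinearMap.pi fun x => g y x), ?_⟩
  intro a
  refine Prod.ext (hf a) ?_
  funext y x
  exact hg y x a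

omit [CharZero F] in
theorem gen_lin2 (a c : AM F) : ∃ f : AM F →ₗ[F] AM F × (AM F → AM F → AM F),
    ∀ b, f b = gen a b c := by
  obtain ⟨f, hf⟩ := Jac_lin1 F c a
  have hg := fun y x => P108_lin_b F a c y x
  choose g hg using hg
  refine ⟨LinearMap.prod f (LinearMap.pi fun y => LinearMap.pi fun x => g y x), ?_⟩
  intro b
  refine Prod.ext ((hf b).trans (Jac_cyc a b c)) ?_
  funext y x
  exact hg y x b

omit [CharZero F] in
theorem gen_lin3 (a b : AM F) : ∃ f : AM F →ₗ[F] AM F × (AM F → AM F → AM F),
    ∀ c, f c = gen a b c := by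
  obtain ⟨f, hf⟩ := Jac_lin1 F a b
  have hg := fun y x => P108_lin_c F a b y x
  choose g hg using hg
  refine ⟨LinearMap.prod f (LinearMap.pi fun y => LinearMap.pi fun x => g y x), ?_⟩
  intro c
  refine Prod.ext ((hf c).trans (Jac_cyc c a b).symm) ?_
  funext y x
  exact hg y x c

variable (F) in
/-- the formal combinations -/
noncomputable def PhiL : T3 F →ₗ[F] AM F × (AM F → AM F → AM F) :=
  Finsupp.linearCombination F
    (fun t => gen (evw (XX F) t.1) (evw (XX F) t.2.1) (evw (XX F) t.2.2))

omit [CharZero F] in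
theorem PhiL_fst (k : T3 F) : (PhiL F k).1 = k.jac (XX F) := by
  unfold PhiL T3.jac
  rw [Finsupp.linearCombination_apply, Finsupp.sum, Prod.fst_sum]
  rfl

omit [CharZero F] in
theorem PhiL_snd (k : T3 F) (y x : AM F) : (PhiL F k).2 y x = k.psi (XX F) y x := by
  unfold PhiL T3.psi
  rw [Finsupp.linearCombination_apply, Finsupp.sum, Prod.snd_sum, Finset.sum_apply,
    Finset.sum_apply]
  rfl

omit [CharZero F] in
theorem gen_mem (a b c : AM F) : gen a b c ∈ LinearMap.range (PhiL F) := by
  -- the submodule pulled back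
  have key : ∀ (f : AM F →ₗ[F] AM F × (AM F → AM F → AM F)),
      (∀ w, f (evw (XX F) w) ∈ LinearMap.range (PhiL F)) → ∀ a, f a ∈ LinearMap.range (PhiL F) := by
    intro f hf a
    have h1 : Submodule.span F (Set.range (evw (XX F))) ≤
        (LinearMap.range (PhiL F)).comap f := by
      rw [Submodule.span_le]
      rintro _ ⟨w, rfl⟩
      exact hf w
    exact h1 (span_evw a)
  obtain ⟨f, hf⟩ := gen_lin1 b c
  rw [← hf]
  refine key f (fun w => ?_) a
  rw [hf]
  obtain ⟨f2, hf2⟩ := gen_lin2 (evw (XX F) w) c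
  rw [← hf2]
  refine key f2 (fun w2 => ?_) b
  rw [hf2]
  obtain ⟨f3, hf3⟩ := gen_lin3 (evw (XX F) w) (evw (XX F) w2)
  rw [← hf3]
  refine key f3 (fun w3 => ?_) c
  rw [hf3]
  refine ⟨Finsupp.single (w, w2, w3) 1, ?_⟩
  unfold PhiL
  rw [Finsupp.linearCombination_single, one_smul]

omit [CharZero F] in
theorem Gr_le : Gr F (AM F) ≤ LinearMap.range (PhiL F) := by
  unfold Gr
  rw [Submodule.span_le]
  rintro _ ⟨a, b, c, rfl⟩
  exact gen_mem a b c

/-- the letters of a triple -/
def con (t : FreeMagma ℕ × FreeMagma ℕ × FreeMagma ℕ) : Multiset ℕ :=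
  content t.1 + content t.2.1 + content t.2.2

omit [CharZero F] in
theorem P_zero (a b c : FreeMagma ℕ) (h : ¬ (content a + content b + content c).Nodup)
    (y x : AM F) : P108 (evw (XX F) a) (evw (XX F) b) (evw (XX F) c) y x = 0 := by
  have key : ∀ (f : AM F →ₗ[F] AM F), (∀ w, f (evw (XX F) w) = 0) → ∀ a, f a = 0 := by
    intro f hf a
    have h1 : Submodule.span F (Set.range (evw (XX F))) ≤ LinearMap.ker f := by
      rw [Submodule.span_le]
      rintro _ ⟨w, rfl⟩
      exact hf w
    exact h1 (span_evw a)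
  obtain ⟨f, hf⟩ := P108_lin_d F (evw (XX F) a) (evw (XX F) b) (evw (XX F) c) x
  rw [← hf]
  refine key f (fun v => ?_) y
  rw [hf]
  obtain ⟨f2, hf2⟩ := P108_lin_x F (evw (XX F) a) (evw (XX F) b) (evw (XX F) c) (evw (XX F) v)
  rw [← hf2]
  refine key f2 (fun w => ?_) x
  rw [hf2, ← amk_wd, ← amk_wd, ← amk_wd, ← amk_wd, ← amk_wd, ← hom_P108, amk_eq_zero]
  refine mem_NN_of_not_nodup ?_ (P108_mem (wd_mem a) (wd_mem b) (wd_mem c) (wd_mem v) (wd_mem w))
  intro h'
  apply h
  refine Multiset.nodup_of_le ?_ h'
  rw [add_assoc (content a + content b + content c)]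
  exact Multiset.le_add_right _ _

variable (F) in
/-- the sum of the Jacobians in the free algebra -/
noncomputable def JF : T3 F →ₗ[F] FA F :=
  Finsupp.linearCombination F (fun t => Jac (wd t.1) (wd t.2.1) (wd t.2.2))

omit [CharZero F] in
theorem hom_JF {B : Type u} [NonUnitalNonAssocRing B] [Module F B] [IsScalarTower F B B]
    [SMulCommClass F B B] (f : FA F →ₙₐ[F] B) (x : ℕ → B) (hf : ∀ w, f (wd w) = evw x w)
    (k : T3 F) : f (JF F k) = k.jac x := by
  unfold JF T3.jac
  rw [Finsupp.linearCombination_apply, Finsupp.sum, map_sum, Finsupp.sum]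
  refine Finset.sum_congr rfl fun t _ => ?_
  rw [map_smul, hom_Jac, hf, hf, hf]

omit [CharZero F] in
theorem comp_JF (m : Multiset ℕ) (k : T3 F) :
    comp F m (JF F k) = JF F (k.filter fun t => con t = m) := by
  induction k using Finsupp.induction_linear with
  | zero => rw [Finsupp.filter_zero, map_zero, map_zero]
  | add k l hk hl => rw [Finsupp.filter_add, map_add, map_add, map_add, hk, hl]
  | single t r =>
    have h1 : JF F (Finsupp.single t r) = r • Jac (wd t.1) (wd t.2.1) (wd t.2.2) := by
      unfold JF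
      rw [Finsupp.linearCombination_single]
    have h2 : comp F m (Jac (wd t.1) (wd t.2.1) (wd t.2.2)) =
        if con t = m then Jac (wd t.1) (wd t.2.1) (wd t.2.2) else 0 :=
      comp_of_mem (F := F) (m := m) (Jac_mem (wd_mem (F := F) t.1) (wd_mem t.2.1)
        (wd_mem t.2.2))
    by_cases h : con t = m
    · rw [Finsupp.filter_single_of_pos (fun t => con t = m) h, h1, map_smul, h2, if_pos h]
    · rw [Finsupp.filter_single_of_neg (fun t => con t = m) h, h1, map_smul, h2, if_neg h, smul_zero,
        map_zero]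

theorem psi_zero (k : T3 F) (hk : k.jac (XX F) = 0) (y x : AM F) : k.psi (XX F) y x = 0 := by
  have h0 : ∀ m : Multiset ℕ, ∑ t ∈ k.support.filter (fun t => con t = m),
      k t • P108 (evw (XX F) t.1) (evw (XX F) t.2.1) (evw (XX F) t.2.2) y x = 0 := by
    intro m
    by_cases hm : m.Nodup
    · let L : Finset ℕ := ⟨m, hm⟩
      let km : T3 F := k.filter fun t => con t = m
      have hMl : km.Ml L := by
        intro t ht
        have : t ∈ k.support.filter (fun t => con t = m) := by
          rw [← Finsupp.support_filter]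
          exact ht
        exact (Finset.mem_filter.1 this).2
      have hNN : JF F k ∈ NN F := by
        rw [← amk_eq_zero, hom_JF (amk F) (XX F) amk_wd, hk]
      have hNN2 : JF F km ∈ NN F := by
        rw [← comp_JF]
        exact comp_mem_NN hNN m
      have hH : JF F km ∈ Hg F L.val := by
        rw [← comp_JF]
        exact comp_mem m _
      have hId' : IsId (JF F km) := (mem_NN_iff hH).1 hNN2
      have hId : km.Id := by
        intro B _ _ _ _ hB x
        rw [← hom_JF (ev x) x (ev_wd x)]
        exact hId' B hB x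
      have := T3.psi_eq_zero hMl hId (AM F) (AM_isV F) (XX F) x y
      rw [← this]
      unfold T3.psi
      rw [Finsupp.sum, Finsupp.support_filter]
      refine Finset.sum_congr rfl fun t ht => ?_
      rw [Finsupp.filter_apply_pos (fun t => con t = m) k (Finset.mem_filter.1 ht).2]
    · refine Finset.sum_eq_zero fun t ht => ?_
      have ht2 := (Finset.mem_filter.1 ht).2
      rw [P_zero, smul_zero]
      intro h
      apply hm
      rw [← ht2]
      exact h
  unfold T3.psi
  rw [Finsupp.sum, ← Finset.sum_fiberwise_of_maps_to (s := k.support) (t := k.support.image con)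
    (g := con) (fun t ht => Finset.mem_image_of_mem _ ht)]
  exact Finset.sum_eq_zero fun m _ => h0 m

end ExactAux

/-- on the multilinear relatively free algebra the graph is the graph of a function -/
theorem Gr_exact {G : AM F → AM F → AM F} (h : ((0, G) : AM F × (AM F → AM F → AM F)) ∈ Gr F (AM F)) :
    G = 0 := by
  obtain ⟨k, hk⟩ := ExactAux.Gr_le h
  have h1 : k.jac (ExactAux.XX F) = 0 := by
    rw [← ExactAux.PhiL_fst, hk]
  funext y x
  have h2 := ExactAux.PhiL_snd k y x
  rw [hk] at h2
  show G y x = 0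
  rw [show G y x = k.psi (ExactAux.XX F) y x from h2]
  exact ExactAux.psi_zero k h1 y x

end Pool.Agent.Malc
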