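import Pool.Agent.Malc.Ext

/-! # The first order extension is a cross product algebra -/

set_option autoImplicit false

open scoped TensorProduct

namespace Pool.Agent.Malc

universe u

namespace CPA

variable {F : Type u} [Field F] (A : CPA F)

/-- the scalars `S ⊕ E` of the extension -/
@[ext] structure SE : Type u where
  r : A.S
  g : A.E

/-- the elements `E ⊕ W` of the extension -/
@[ext] structure EE : Type u where
  a : A.E
  w : A.W

namespace SE

variable {A}

noncomputable instance : Zero A.SE := ⟨⟨0, 0⟩⟩
noncomputable instance : One A.SE := ⟨⟨1, 0⟩⟩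
noncomputable instance : Add A.SE := ⟨fun x y => ⟨x.r + y.r, x.g + y.g⟩⟩
noncomputable instance : Neg A.SE := ⟨fun x => ⟨-x.r, -x.g⟩⟩
noncomputable instance : Mul A.SE := ⟨fun x y => ⟨x.r * y.r, x.r • y.g + y.r • x.g⟩⟩

@[simp] theorem add_r (x y : A.SE) : (x + y).r = x.r + y.r := rfl
@[simp] theorem add_g (x y : A.SE) : (x + y).g = x.g + y.g := rfl
@[simp] theorem neg_r (x : A.SE) : (-x).r = -x.r := rfl
@[simp] theorem neg_g (x : A.SE) : (-x).g = -x.g := rfl
@[simp] theorem zero_r : (0 : A.SE).r = 0 := rfl
@[simp] theorem zero_g : (0 : A.SE).g = 0 := rfl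
@[simp] theorem mul_r (x y : A.SE) : (x * y).r = x.r * y.r := rfl
@[simp] theorem mul_g (x y : A.SE) : (x * y).g = x.r • y.g + y.r • x.g := rfl
@[simp] theorem one_r : (1 : A.SE).r = 1 := rfl
@[simp] theorem one_g : (1 : A.SE).g = 0 := rfl

noncomputable instance : CommRing A.SE where
  add_assoc := fun x y z => by ext <;> simp [add_assoc]
  zero_add := fun x => by ext <;> simp
  add_zero := fun x => by ext <;> simp
  add_comm := fun x y => by ext <;> simp [add_comm]
  neg_add_cancel := fun x => by ext <;> simp
  nsmul := nsmulRec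
  zsmul := zsmulRec
  left_distrib := fun x y z => by
    ext
    · simp [mul_add]
    · simp only [mul_g, add_r, add_g]
      module
  right_distrib := fun x y z => by
    ext
    · simp [add_mul]
    · simp only [mul_g, add_r, add_g]
      module
  zero_mul := fun x => by ext <;> simp
  mul_zero := fun x => by ext <;> simp
  mul_assoc := fun x y z => by
    ext
    · simp [mul_assoc]
    · simp only [mul_r, mul_g]
      module
  one_mul := fun x => by ext <;> simp
  mul_one := fun x => by ext <;> simp
  mul_comm := fun x y => by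
    ext
    · simp [mul_comm]
    · simp [add_comm]

@[simp] theorem sub_r (x y : A.SE) : (x - y).r = x.r - y.r := by
  rw [sub_eq_add_neg, add_r, neg_r, sub_eq_add_neg]
@[simp] theorem sub_g (x y : A.SE) : (x - y).g = x.g - y.g := by
  rw [sub_eq_add_neg, add_g, neg_g, sub_eq_add_neg]

/-- the scalars of `A` in the scalars of the extension -/
noncomputable def inl : A.S →+* A.SE where
  toFun := fun r => ⟨r, 0⟩
  map_one' := rfl
  map_mul' := fun x y => by ext <;> simp
  map_zero' := rfl
  map_add' := fun x y => by ext <;> simp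

noncomputable instance : Algebra F A.SE := (inl.comp (algebraMap F A.S)).toAlgebra

theorem algebraMap_eq (r : F) : algebraMap F A.SE r = ⟨algebraMap F A.S r, 0⟩ := rfl

@[simp] theorem two_r : (2 : A.SE).r = 2 := by
  have : (2 : A.SE) = 1 + 1 := by norm_num
  rw [this, add_r, one_r]
  norm_num
@[simp] theorem two_g : (2 : A.SE).g = 0 := by
  have : (2 : A.SE) = 1 + 1 := by norm_num
  rw [this, add_g, one_g, add_zero]

end SE

namespace EE

variable {A}

noncomputable instance : Zero A.EE := ⟨⟨0, 0⟩⟩
noncomputable instance : Add A.EE := ⟨fun x y => ⟨x.a + y.a, x.w + y.w⟩⟩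
noncomputable instance : Neg A.EE := ⟨fun x => ⟨-x.a, -x.w⟩⟩

@[simp] theorem add_a (x y : A.EE) : (x + y).a = x.a + y.a := rfl
@[simp] theorem add_w (x y : A.EE) : (x + y).w = x.w + y.w := rfl
@[simp] theorem neg_a (x : A.EE) : (-x).a = -x.a := rfl
@[simp] theorem neg_w (x : A.EE) : (-x).w = -x.w := rfl
@[simp] theorem zero_a : (0 : A.EE).a = 0 := rfl
@[simp] theorem zero_w : (0 : A.EE).w = 0 := rfl

noncomputable instance : AddCommGroup A.EE where
  add_assoc := fun x y z => by ext <;> simp [add_assoc]
  zero_add := fun x => by ext <;> simp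
  add_zero := fun x => by ext <;> simp
  add_comm := fun x y => by ext <;> simp [add_comm]
  neg_add_cancel := fun x => by ext <;> simp
  nsmul := nsmulRec
  zsmul := zsmulRec

@[simp] theorem sub_a (x y : A.EE) : (x - y).a = x.a - y.a := by
  rw [sub_eq_add_neg, add_a, neg_a, sub_eq_add_neg]
@[simp] theorem sub_w (x y : A.EE) : (x - y).w = x.w - y.w := by
  rw [sub_eq_add_neg, add_w, neg_w, sub_eq_add_neg]

variable (A)

/-- `b ⊗ c` as a bilinear map -/
noncomputable def tenL : A.E →ₗ[A.S] A.E →ₗ[A.S] A.W :=
  LinearMap.mk₂ A.S (fun b c => A.mkW (A.ten b c))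
    (fun b b' c => by
      rw [← map_add]; congr 1; simp [ten, TensorProduct.add_tmul])
    (fun r b c => by
      rw [← map_smul]; congr 1; simp [ten, TensorProduct.smul_tmul'])
    (fun b c c' => by
      rw [← map_add]; congr 1; simp [ten, TensorProduct.tmul_add])
    (fun r b c => by
      rw [← map_smul]; congr 1; simp [ten, TensorProduct.tmul_smul])

theorem tenL_apply (b c : A.E) : tenL A b c = A.mkW (A.ten b c) := rfl

noncomputable instance : SMul A.SE A.EE := ⟨fun r x => ⟨r.r • x.a, r.r • x.w + tenL A x.a r.g⟩⟩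

variable {A}

@[simp] theorem smul_a (r : A.SE) (x : A.EE) : (r • x).a = r.r • x.a := rfl
@[simp] theorem smul_w (r : A.SE) (x : A.EE) : (r • x).w = r.r • x.w + tenL A x.a r.g := rfl

noncomputable instance : Module A.SE A.EE where
  one_smul := fun x => by ext <;> simp
  mul_smul := fun r t x => by
    ext
    · simp [mul_smul]
    · simp only [smul_a, smul_w, SE.mul_r, SE.mul_g, map_add, map_smul, LinearMap.smul_apply]
      module
  smul_zero := fun r => by ext <;> simp
  smul_add := fun r x y => by
    ext
    · simp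
    · simp only [smul_w, add_a, add_w, map_add, LinearMap.add_apply]
      module
  add_smul := fun r t x => by
    ext
    · simp [add_smul]
    · simp only [smul_w, add_w, SE.add_r, SE.add_g, map_add]
      module
  zero_smul := fun x => by ext <;> simp

end EE

theorem L_ten (a b c : A.E) : A.L a (A.ten b c) = A.ten (A.mul a b) c := by
  simp [L, ten]

theorem sT_ten (a b c : A.E) : A.sT a (A.ten b c) = A.s a b • c := by
  simp [sT, ten]

variable [CharZero F]

theorem LW_add (a b : A.E) (w : A.W) : A.LW (a + b) w = A.LW a w + A.LW b w := by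
  obtain ⟨w, rfl⟩ := A.mkW_surj w
  rw [LW_mk, LW_mk, LW_mk, ← map_add]
  congr 1
  refine Prod.ext ?_ (Prod.ext ?_ ?_)
  · simp [L]
    ring
  · simp [L]
    module
  · simp [L, TensorProduct.tmul_add, TensorProduct.add_tmul, TensorProduct.map_add_left]
    module

theorem LW_smul (r : A.S) (a : A.E) (w : A.W) : A.LW (r • a) w = r • A.LW a w := by
  obtain ⟨w, rfl⟩ := A.mkW_surj w
  rw [LW_mk, LW_mk, ← map_smul]
  congr 1
  refine Prod.ext ?_ (Prod.ext ?_ ?_)
  · simp [L]
  · simp [L]
    module
  · simp [L, TensorProduct.tmul_smul, ← TensorProduct.smul_tmul', TensorProduct.map_smul_left]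
    module

theorem sW_add (a b : A.E) (w : A.W) : A.sW (a + b) w = A.sW a w + A.sW b w := by
  obtain ⟨w, rfl⟩ := A.mkW_surj w
  rw [sW_mk, sW_mk, sW_mk]
  have : ∀ t : A.E ⊗[A.S] A.E,
      TensorProduct.lift (LinearMap.lsmul A.S A.E ∘ₗ (A.s a + A.s b)) t =
      TensorProduct.lift (LinearMap.lsmul A.S A.E ∘ₗ A.s a) t +
      TensorProduct.lift (LinearMap.lsmul A.S A.E ∘ₗ A.s b) t := by
    intro t
    induction t using TensorProduct.induction_on with
    | zero => simp
    | add x y hx hy =>
      rw [map_add, hx, hy, map_add, map_add]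
      abel
    | tmul x y =>
      simp only [TensorProduct.lift.tmul, LinearMap.comp_apply, LinearMap.add_apply, map_add]
  simp only [sT, LinearMap.coe_mk, AddHom.coe_mk, this, map_add, LinearMap.add_apply, smul_add]
  abel

theorem sW_smul (r : A.S) (a : A.E) (w : A.W) : A.sW (r • a) w = r • A.sW a w := by
  obtain ⟨w, rfl⟩ := A.mkW_surj w
  rw [sW_mk, sW_mk]
  have : ∀ t : A.E ⊗[A.S] A.E,
      TensorProduct.lift (LinearMap.lsmul A.S A.E ∘ₗ (r • A.s a)) t =
      r • TensorProduct.lift (LinearMap.lsmul A.S A.E ∘ₗ A.s a) t := by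
    intro t
    induction t using TensorProduct.induction_on with
    | zero => simp
    | add x y hx hy => rw [map_add, hx, hy, map_add, smul_add]
    | tmul x y =>
      simp only [TensorProduct.lift.tmul, LinearMap.comp_apply, LinearMap.smul_apply, map_smul]
  simp only [sT, LinearMap.coe_mk, AddHom.coe_mk, this, map_smul, LinearMap.smul_apply]
  module

theorem sW_LW (c d : A.E) (w : A.W) : A.sW c (A.LW d w) = A.sW (A.mul c d) w := by
  obtain ⟨w, rfl⟩ := A.mkW_surj w
  rw [LW_mk, sW_mk, sW_mk, sT_L]

theorem LW_LW (a b : A.E) (w : A.W) : A.LW a (A.LW b w) + A.LW (A.mul a b) w =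
    (2 : A.S) • EE.tenL A b (A.sW a w) - A.s a b • w - EE.tenL A a (A.sW b w) := by
  obtain ⟨w, rfl⟩ := A.mkW_surj w
  rw [LW_mk, LW_mk, LW_mk, sW_mk, sW_mk, ← map_add, A.defect, EE.tenL_apply, EE.tenL_apply,
    map_sub, map_sub, map_sub, map_smul, map_smul, map_smul,
    (A.mkW_eq_zero).2 (A.rho_mem a b _), smul_zero, sub_zero]

/-- the first order extension -/
noncomputable def ext : CPA F where
  S := A.SE
  E := A.EE
  mul := LinearMap.mk₂ A.SE (fun x y => ⟨A.mul x.a y.a, A.LW x.a y.w - A.LW y.a x.w⟩)
    (fun x x' y => by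
      ext
      · simp
      · simp only [EE.add_a, EE.add_w, LW_add, map_add]
        abel)
    (fun r x y => by
      have h1 := A.anti y.a x.a
      ext
      · simp
      · simp only [EE.smul_a, EE.smul_w, LW_smul, map_add, map_smul, EE.tenL_apply, LW_mk, L_ten,
          h1]
        have h2 : A.ten (-A.mul x.a y.a) r.g = - A.ten (A.mul x.a y.a) r.g := by
          simp [ten, TensorProduct.neg_tmul]
        rw [h2, map_neg]
        module)
    (fun x y y' => by
      ext
      · simp
      · simp only [EE.add_a, EE.add_w, LW_add, map_add]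
        abel)
    (fun r x y => by
      ext
      · simp
      · simp only [EE.smul_a, EE.smul_w, LW_smul, map_add, map_smul, EE.tenL_apply, LW_mk, L_ten]
        module)
  s := LinearMap.mk₂ A.SE (fun x y => ⟨A.s x.a y.a, A.sW x.a y.w + A.sW y.a x.w⟩)
    (fun x x' y => by
      ext
      · simp
      · simp only [EE.add_a, EE.add_w, sW_add, map_add, SE.add_g]
        abel)
    (fun r x y => by
      ext
      · simp
      · simp only [EE.smul_a, EE.smul_w, sW_smul, map_add, map_smul, EE.tenL_apply, sW_mk, sT_ten,
          smul_eq_mul, SE.mul_g, A.symm y.a x.a]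
        module)
    (fun x y y' => by
      ext
      · simp
      · simp only [EE.add_a, EE.add_w, sW_add, map_add, SE.add_g]
        abel)
    (fun r x y => by
      ext
      · simp
      · simp only [EE.smul_a, EE.smul_w, sW_smul, map_add, map_smul, EE.tenL_apply, sW_mk, sT_ten,
          smul_eq_mul, SE.mul_g]
        module)
  skew := fun x => by
    ext
    · exact A.skew x.a
    · exact sub_self _
  symm := fun x y => by
    ext
    · exact A.symm x.a y.a
    · exact add_comm _ _
  assoc := fun x y z => by
    simp only [LinearMap.mk₂_apply]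
    ext
    · exact A.assoc x.a y.a z.a
    · simp only [map_sub, sW_LW]
      have h : A.mul z.a y.a = (-1 : A.S) • A.mul y.a z.a := by rw [A.anti z.a y.a]; module
      have h' : A.mul z.a x.a = (-1 : A.S) • A.mul x.a z.a := by rw [A.anti z.a x.a]; module
      rw [h, h', sW_smul, sW_smul]
      module
  main := fun x y z => by
    simp only [LinearMap.mk₂_apply]
    ext
    · have := A.main x.a y.a z.a
      simpa using this
    · have h1 := A.LW_LW x.a y.a z.w
      have h2 := A.LW_LW z.a y.a x.w
      have h3 := A.LW_LW x.a z.a y.w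
      have h4 := A.LW_LW z.a x.a y.w
      have e1 : A.mul z.a x.a = (-1 : A.S) • A.mul x.a z.a := by rw [A.anti z.a x.a]; module
      have e2 : A.mul z.a y.a = (-1 : A.S) • A.mul y.a z.a := by rw [A.anti z.a y.a]; module
      rw [e2, LW_smul] at h2
      rw [e1, LW_smul] at h4
      simp only [EE.add_w, EE.sub_w, EE.smul_w, SE.mul_r, SE.mul_g, SE.two_r, SE.two_g, map_sub,
        map_add, map_smul, smul_zero, add_zero]
      rw [A.symm z.a x.a, A.symm z.a y.a] at *
      linear_combination (norm := module) h1 + h2 - h3 - h4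

end CPA

end Pool.Agent.Malc
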