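import Pool.Agent.Malc.Defs
import Pool.Agent.Malc.Ex

/-! # Sagle's identity -/

set_option autoImplicit false

namespace Pool.Agent.Malc

universe u v

variable {A : Type u} [NonUnitalNonAssocRing A]

theorem IsMalcev.ac (h : IsMalcev A) (x y : A) : x * y = -(y * x) := by
  have h1 := h.sq (x + y)
  have h2 := h.sq x
  have h3 := h.sq y
  rw [mul_add, add_mul, add_mul, h2, h3, zero_add, add_zero] at h1
  rw [add_comm] at h1
  exact eq_neg_of_add_eq_zero_left h1

theorem IsMalcev.mlin (h : IsMalcev A) (x w y z : A) :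
    Jac x y (w * z) + Jac w y (x * z) - Jac x y z * w - Jac w y z * x = 0 := by
  have h1 := h.mal (x + w) y z
  have h2 := h.mal x y z
  have h3 := h.mal w y z
  have h4 : Jac (x + w) y ((x + w) * z) - Jac (x + w) y z * (x + w) -
      (Jac x y (x * z) - Jac x y z * x) - (Jac w y (w * z) - Jac w y z * w) =
      Jac x y (w * z) + Jac w y (x * z) - Jac x y z * w - Jac w y z * x := by
    unfold Jac
    simp only [add_mul, mul_add]
    abel
  rw [← h4, h1, h2, h3]
  abel

theorem IsMalcev.two_sagle (h : IsMalcev A) (x y z t : A) :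
    (2 : ℤ) • ((x * z) * (y * t)) = (2 : ℤ) • (((x * y) * z) * t + ((y * z) * t) * x +
      ((z * t) * x) * y + ((t * x) * y) * z) := by
  have h1 := h.mlin x y z t
  have h2 := h.mlin x z t y
  have h3 := h.mlin x t y z
  unfold Jac at h1 h2 h3
  simp only [add_mul, h.ac (x * y) (z * t), h.ac (x * z) (y * t), h.ac (x * t) (y * z),
    h.ac y (x * z), h.ac y (z * t), h.ac y x, h.ac z (x * t), h.ac z (y * t), h.ac z x,
    h.ac z y, h.ac t (x * y), h.ac t (y * z), h.ac t x, h.ac t y, h.ac t z, neg_mul, mul_neg,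
    neg_neg] at h1 h2 h3 ⊢
  linear_combination (norm := module) h1 - h2 + h3

theorem IsMalcev.sagle (h : IsMalcev A) (htf : ∀ (n : ℤ) (x : A), n ≠ 0 → n • x = 0 → x = 0)
    (x y z t : A) : (x * z) * (y * t) = ((x * y) * z) * t + ((y * z) * t) * x +
      ((z * t) * x) * y + ((t * x) * y) * z := by
  have h1 := h.two_sagle x y z t
  rw [← sub_eq_zero, ← smul_sub] at h1
  exact sub_eq_zero.1 (htf 2 _ two_ne_zero h1)

theorem tf_of_field (F : Type v) [Field F] [CharZero F] [Module F A] (n : ℤ) (x : A)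
    (hn : n ≠ 0) (h : n • x = 0) : x = 0 := by
  rw [← Int.cast_smul_eq_zsmul F] at h
  exact (smul_eq_zero.1 h).resolve_left (Int.cast_ne_zero.2 hn)

theorem IsMalcev.alg (F : Type v) [Field F] [CharZero F] [Module F A] (h : IsMalcev A) :
    Alg [antiEx, sagleEx] A where
  tf := tf_of_field F
  ids := by
    intro e he y
    simp only [List.mem_cons, List.not_mem_nil, or_false] at he
    rcases he with rfl | rfl
    · show y 0 * y 1 + y 1 * y 0 = 0
      rw [h.ac (y 0) (y 1), neg_add_cancel]
    · have := h.sagle (tf_of_field F) (y 0) (y 1) (y 2) (y 3)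
      show (y 0 * y 2) * (y 1 * y 3) - _ = 0
      rw [this]
      exact sub_self _

end Pool.Agent.Malc
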