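import Pool.Agent.Malc.VDefs
import Pool.Agent.Malc.SagleAlg
import Pool.Agent.Malc.Super4

/-! # The operators of the sigma theory as expressions -/

set_option autoImplicit false

namespace Pool.Agent.Malc

universe u v

instance : Add PEx := ⟨PEx.add⟩
instance : Sub PEx := ⟨PEx.sub⟩
instance : Neg PEx := ⟨PEx.neg⟩
instance : Mul PEx := ⟨PEx.mul⟩
instance : SMul ℕ PEx := ⟨PEx.ns⟩
instance : SMul ℤ PEx := ⟨PEx.zs⟩

namespace PEx

def J (x y z : PEx) : PEx := (x * y) * z + (y * z) * x + (z * x) * y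

def P108 (a b c d x : PEx) : PEx :=
  J (J x a b) c d + J (J x c d) a b - J (J x a c) b d - J (J x b d) a c +
    J (J x a d) b c + J (J x b c) a d -
    6 • ((x * J a b c) * d + (x * d) * J a b c - ((x * J a b d) * c + (x * c) * J a b d) +
      ((x * J a c d) * b + (x * b) * J a c d) - ((x * J b c d) * a + (x * a) * J b c d))

def sig36 (a b c x y : PEx) : PEx :=
  - (36 • ((J a b c * x) * y)) + 12 • J (J a b c) x y + P108 a b c y x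

def T108 (v w b c d : PEx) : PEx :=
  J (J w c d) b v - J w b (J v c d) - J (J w b d) c v + J w c (J v b d) +
    J (J w b c) d v - J w d (J v b c) -
    6 • (J ((w * d) * v) b c - J (w * (v * d)) b c - J ((w * c) * v) b d +
      J (w * (v * c)) b d + J ((w * b) * v) c d - J (w * (v * b)) c d -
      w * (v * J b c d) + (w * J b c d) * v)

/-- lifted elements -/
structure GP where
  j : PEx
  G : PEx → PEx → PEx

namespace GP

def J (a b c : PEx) : GP := ⟨PEx.J a b c, fun y x => PEx.P108 a b c y x⟩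

def m (g : GP) (z : PEx) : GP := ⟨g.j * z, fun y x => g.G (z * y) x⟩

instance : Add GP := ⟨fun g h => ⟨g.j + h.j, fun y x => g.G y x + h.G y x⟩⟩
instance : Neg GP := ⟨fun g => ⟨-g.j, fun y x => -g.G y x⟩⟩
instance : Sub GP := ⟨fun g h => ⟨g.j - h.j, fun y x => g.G y x - h.G y x⟩⟩

def z (n : ℤ) (g : GP) : GP := ⟨n • g.j, fun y x => n • g.G y x⟩

def sig (g : GP) (x y : PEx) : PEx := - (36 • ((g.j * x) * y)) + 12 • PEx.J g.j x y + g.G y x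

def P (a b c d x : PEx) : GP :=
  J (PEx.J x a b) c d + J (PEx.J x c d) a b - J (PEx.J x a c) b d - J (PEx.J x b d) a c +
    J (PEx.J x a d) b c + J (PEx.J x b c) a d +
    z 6 (((J a b c).m x).m d + (J a b c).m (x * d) - (((J a b d).m x).m c + (J a b d).m (x * c)) +
      (((J a c d).m x).m b + (J a c d).m (x * b)) - (((J b c d).m x).m a + (J b c d).m (x * a)))

def S (a b c x y : PEx) : GP :=
  z (-36) (((J a b c).m x).m y) + z 12 (J (PEx.J a b c) x y) + P a b c y x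

end GP

end PEx

/-- `f6` -/
def f6Ex : PEx := PEx.P108 (.X 0) (.X 1) (.X 2) (.X 3) (.X 4 * .X 5) -
  PEx.P108 (.X 0) (.X 1) (.X 2) (.X 3) (.X 4) * .X 5

/-- F1, letters a,b,c,x,y -/
def F1Ex : PEx := PEx.P108 (.X 0) (.X 1) (.X 2) (.X 4) (.X 3) -
  PEx.P108 (.X 0) (.X 1) (.X 2) (.X 3) (.X 4) - (12 • PEx.J (PEx.J (.X 0) (.X 1) (.X 2)) (.X 3) (.X 4) +
  36 • (PEx.J (.X 0) (.X 1) (.X 2) * (.X 3 * .X 4)))

/-- F7, letters a,b,v,x,y -/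
def F7Ex : PEx := 36 • PEx.J ((.X 2 * .X 3) * .X 4 + (.X 2 * .X 4) * .X 3) (.X 0) (.X 1) +
  2 • PEx.sig36 (.X 2) (.X 0) (.X 1) (.X 3) (.X 4) - PEx.sig36 (.X 4) (.X 0) (.X 1) (.X 2) (.X 3) -
    PEx.sig36 (.X 3) (.X 0) (.X 1) (.X 2) (.X 4)

/-- F8b, letters b,c,d,v,w -/
def F8Ex : PEx := PEx.T108 (.X 3) (.X 4) (.X 0) (.X 1) (.X 2) -
  (- PEx.sig36 (.X 0) (.X 1) (.X 2) (.X 3) (.X 4))

/-- F4, letters w,x,y,z,t,p -/
def F4Ex : PEx := 3 • PEx.P108 (.X 0 * .X 1) (.X 2) (.X 3) (.X 4) (.X 5) -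
  (PEx.P108 (.X 1) (.X 2) (.X 3) (.X 0 * .X 4) (.X 5) -
    PEx.P108 (.X 2) (.X 3) (.X 0) (.X 1 * .X 4) (.X 5) -
    2 • PEx.P108 (.X 3) (.X 0) (.X 1) (.X 2 * .X 4) (.X 5) +
    2 • PEx.P108 (.X 0) (.X 1) (.X 2) (.X 3 * .X 4) (.X 5))

/-- F3, letters a,b,c,x,y,z -/
def F3Ex : PEx := ((PEx.GP.J (.X 0) (.X 1) (.X 2)).m (.X 5)).sig (.X 3) (.X 4) -
  PEx.sig36 (.X 0) (.X 1) (.X 2) (.X 3) (.X 4) * .X 5

/-- F5, letters a,b,c,x,y,z -/
def F5Ex : PEx := PEx.sig36 (.X 0) (.X 1) (.X 2) (.X 3 * .X 5) (.X 4) +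
  PEx.sig36 (.X 0) (.X 1) (.X 2) (.X 3) (.X 4 * .X 5)

/-- F6, letters a,b,c,x,y,z,t -/
def F6Ex : PEx := (PEx.GP.S (.X 0) (.X 1) (.X 2) (.X 5) (.X 6)).sig (.X 3) (.X 4) -
  (PEx.GP.S (.X 0) (.X 1) (.X 2) (.X 3) (.X 4)).sig (.X 5) (.X 6)

section

variable {B : Type v} [NonUnitalNonAssocRing B]

theorem F1Ex_ev (y : ℕ → B) : F1Ex.ev y = P108 (y 0) (y 1) (y 2) (y 4) (y 3) -
    P108 (y 0) (y 1) (y 2) (y 3) (y 4) - (12 • Jac (Jac (y 0) (y 1) (y 2)) (y 3) (y 4) +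
    36 • (Jac (y 0) (y 1) (y 2) * (y 3 * y 4))) := rfl

theorem F6Ex_ev (y : ℕ → B) : F6Ex.ev y = (GP.S (y 0) (y 1) (y 2) (y 5) (y 6)).sig (y 3) (y 4) -
  (GP.S (y 0) (y 1) (y 2) (y 3) (y 4)).sig (y 5) (y 6) := rfl

theorem F4Ex_ev (y : ℕ → B) : F4Ex.ev y = 3 • P108 (y 0 * y 1) (y 2) (y 3) (y 4) (y 5) -
  (P108 (y 1) (y 2) (y 3) (y 0 * y 4) (y 5) -
    P108 (y 2) (y 3) (y 0) (y 1 * y 4) (y 5) -
    2 • P108 (y 3) (y 0) (y 1) (y 2 * y 4) (y 5) +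
    2 • P108 (y 0) (y 1) (y 2) (y 3 * y 4) (y 5)) := rfl

end

end Pool.Agent.Malc
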