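import Pool.Agent.Malc.SagleAlg
import Pool.Agent.Malc.PSkew

/-! # The identities of degree four -/

set_option autoImplicit false

namespace Pool.Agent.Malc

universe u v

variable {B : Type u} [NonUnitalNonAssocRing B]

theorem mdual1' (h : IsMalcev B) (v x y : B) : Jac v x y * x + Jac (v * x) x y = 0 := by
  have h1 := h.mal x y v
  have h2 : Jac (v * x) x y = - Jac x y (x * v) := by
    rw [h.ac v x]
    unfold Jac
    simp only [neg_mul, mul_neg]
    abel
  have h3 : Jac v x y = Jac x y v := by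
    unfold Jac
    abel
  rw [h2, h1, h3, add_neg_cancel]

theorem mdual2' (h : IsMalcev B) (v x z : B) : Jac (v * x) z x + Jac v (x * z) x = 0 := by
  have h1 := h.mal x v z
  have h2 := h.mal x z v
  have h3 : Jac (v * x) z x = Jac x z (x * v) := by
    have e1 : Jac (v * x) z x = - Jac (x * v) z x := by
      rw [h.ac v x]
      unfold Jac
      simp only [neg_mul, mul_neg]
      abel
    rw [e1, ← Jac_cyc (x * v) z x, h.Jac12 x z, neg_neg]
  rw [h3, Jac_cyc x v (x * z), h1, h2, h.Jac23 x v z, neg_mul, neg_add_cancel]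

theorem mdual3' (h : IsMalcev B) (v x y z : B) :
    Jac v x y * z - Jac v y (x * z) - Jac (v * x) y z - v * Jac x y z = 0 := by
  have h1 := h.mlin v x y z
  have h2 := h.mlin v x z y
  have h3 := h.mlin v y x z
  have h4 := h.mlin v y z x
  have h5 := h.mlin v z x y
  unfold Jac at h1 h2 h3 h4 h5 ⊢
  simp only [add_mul, mul_add, h.ac (v * x) (y * z), h.ac (v * y) (x * z), h.ac (v * z) (x * y), h.ac v ((x * y) * z), h.ac v ((x * z) * y), h.ac v ((y * z) * x), h.ac x (v * y), h.ac x (v * z), h.ac x (y * z), h.ac x v, h.ac y (v * z), h.ac y (x * z), h.ac y v, h.ac y x, h.ac z (v * x), h.ac z (v * y), h.ac z (x * y), h.ac z v, h.ac z x, h.ac z y, neg_mul, mul_neg,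
    neg_neg] at h1 h2 h3 h4 h5 ⊢
  linear_combination (norm := module) - h1 - h2 - h3 - h4 - h5

theorem two_sagle' (h : IsMalcev B) (w x y z : B) :
    (2 : ℤ) • (3 • Jac (w * x) y z) = (2 : ℤ) • (Jac x y z * w - Jac y z w * x - 2 • (Jac z w x * y) +
      2 • (Jac w x y * z)) := by
  have h1 := h.mlin w x y z
  have h2 := h.mlin w x z y
  have h3 := h.mlin w y x z
  have h4 := h.mlin w y z x
  have h5 := h.mlin w z x y
  unfold Jac at h1 h2 h3 h4 h5 ⊢
  simp only [add_mul, h.ac (w * x) (y * z), h.ac (w * y) (x * z), h.ac (w * z) (x * y), h.ac x (w * y), h.ac x (w * z), h.ac x (y * z), h.ac x w, h.ac y (w * z), h.ac y (x * z), h.ac y w, h.ac y x, h.ac z (w * x), h.ac z (w * y), h.ac z (x * y), h.ac z w, h.ac z x, h.ac z y, neg_mul, mul_neg,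
    neg_neg] at h1 h2 h3 h4 h5 ⊢
  linear_combination (norm := module) h1 + (4 : ℤ) • h2 + (2 : ℤ) • h3 + (5 : ℤ) • h4 + (3 : ℤ) • h5

theorem sagle' (F : Type v) [Field F] [CharZero F] [Module F B] (h : IsMalcev B) (w x y z : B) :
    3 • Jac (w * x) y z = Jac x y z * w - Jac y z w * x - 2 • (Jac z w x * y) +
      2 • (Jac w x y * z) := by
  have h1 := two_sagle' h w x y z
  rw [← sub_eq_zero, ← smul_sub] at h1
  exact sub_eq_zero.1 (tf_of_field F 2 _ two_ne_zero h1)

end Pool.Agent.Malc
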