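import Pool.Agent.Malc.CharI

/-! # Reduction to multilinear elements -/

set_option autoImplicit false

namespace Pool.Agent.Malc

universe u v

variable {F : Type u} [Field F]

namespace LieCAux

theorem lc_zero : (0 : FreeMalcev F ℕ) ∈ lieCenter (FreeMalcev F ℕ) := by
  intro x y
  simp [Jac]

theorem lc_add {a b : FreeMalcev F ℕ} (ha : a ∈ lieCenter (FreeMalcev F ℕ))
    (hb : b ∈ lieCenter (FreeMalcev F ℕ)) : a + b ∈ lieCenter (FreeMalcev F ℕ) := by
  intro x y
  have h1 := ha x y
  have h2 := hb x y
  have e : Jac (a + b) x y = Jac a x y + Jac b x y := by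
    unfold Jac
    simp only [add_mul, mul_add]
    abel
  rw [e, h1, h2, add_zero]

theorem lc_smul (r : F) {a : FreeMalcev F ℕ} (ha : a ∈ lieCenter (FreeMalcev F ℕ)) :
    r • a ∈ lieCenter (FreeMalcev F ℕ) := by
  intro x y
  have h1 := ha x y
  have e : Jac (r • a) x y = r • Jac a x y := by
    unfold Jac
    simp only [smul_mul_assoc, mul_smul_comm, smul_add]
  rw [e, h1, smul_zero]

theorem lc_sum {ι : Type*} (s : Finset ι) (f : ι → FreeMalcev F ℕ)
    (h : ∀ i ∈ s, f i ∈ lieCenter (FreeMalcev F ℕ)) :
    ∑ i ∈ s, f i ∈ lieCenter (FreeMalcev F ℕ) := by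
  classical
  induction s using Finset.induction_on with
  | empty => rw [Finset.sum_empty]; exact lc_zero
  | insert a s ha ih =>
    rw [Finset.sum_insert ha]
    exact lc_add (h a (Finset.mem_insert_self a s))
      (ih fun i hi => h i (Finset.mem_insert_of_mem hi))

end LieCAux

/-- the Lie center is closed under endomorphisms -/
theorem lieCenter_endo {p : FreeMalcev F ℕ} (hp : p ∈ lieCenter (FreeMalcev F ℕ))
    (f : FreeMalcev F ℕ →ₙₐ[F] FreeMalcev F ℕ) : f p ∈ lieCenter (FreeMalcev F ℕ) := by
  intro x y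
  obtain ⟨N, -, hN⟩ := exists_bound p
  let g : FreeMalcev F ℕ →ₙₐ[F] FreeMalcev F ℕ :=
    FreeMalcev.lift FreeMalcev.isMalcev
      (fun j => if j < N then f (FreeMalcev.of j) else if j = N then x else y)
  have hg : ∀ j, g (FreeMalcev.of j) =
      if j < N then f (FreeMalcev.of j) else if j = N then x else y :=
    fun j => FreeMalcev.lift_of _ _ j
  have h1 : g p = f p := hN g f fun j hj => by rw [hg, if_pos hj]
  have h2 : g (FreeMalcev.of N) = x := by
    rw [hg, if_neg (lt_irrefl N), if_pos rfl]
  have h3 : g (FreeMalcev.of (N + 1)) = y := by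
    rw [hg, if_neg (by omega), if_neg (by omega)]
  have h4 := hp (FreeMalcev.of N) (FreeMalcev.of (N + 1))
  have h5 := hom_Jac g p (FreeMalcev.of N) (FreeMalcev.of (N + 1))
  rw [h4, map_zero, h1, h2, h3] at h5
  exact h5.symm

variable [CharZero F]

namespace LieCAux

theorem homog {I : Submodule F (FreeMalcev F ℕ)} (hc : IsChar I)
    (h : ∀ (L : Finset ℕ) (p : FA F), p ∈ Hg F L.val → FreeMalcev.mk p ∈ I →
      ∀ n n' : ℕ, n ≠ n' → n ∉ L → n' ∉ L →
        Jac (FreeMalcev.mk p : FreeMalcev F ℕ) (FreeMalcev.of n) (FreeMalcev.of n') = 0) :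
    ∀ (k : ℕ) (m : Multiset ℕ), Multiset.card m = m.toFinset.card + k →
      ∀ z ∈ I, z ∈ GM F m → z ∈ lieCenter (FreeMalcev F ℕ) := by
  intro k
  induction k with
  | zero =>
    intro m hm z hz hzm
    have hnd : m.Nodup := by
      rw [add_zero] at hm
      exact Multiset.toFinset_card_eq_card_iff_nodup.1 hm.symm
    obtain ⟨p, hp, rfl⟩ := hzm
    have hp' : p ∈ Hg F (⟨m, hnd⟩ : Finset ℕ).val := hp
    intro x y
    obtain ⟨N, -, hN⟩ := exists_bound (FreeMalcev.mk p : FreeMalcev F ℕ)
    obtain ⟨M, hM⟩ : ∃ M : ℕ, ∀ j ∈ m, j < M := by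
      refine ⟨m.toFinset.sup id + 1, fun j hj => ?_⟩
      have := Finset.le_sup (f := id) (Multiset.mem_toFinset.2 hj)
      simp only [id] at this
      omega
    have hn1 : max N M ∉ (⟨m, hnd⟩ : Finset ℕ) := by
      intro hmem
      have := hM _ (Finset.mem_mk.1 hmem)
      have := le_max_right N M
      omega
    have hn2 : max N M + 1 ∉ (⟨m, hnd⟩ : Finset ℕ) := by
      intro hmem
      have := hM _ (Finset.mem_mk.1 hmem)
      have := le_max_right N M
      omega
    have h4 := h ⟨m, hnd⟩ p hp' hz (max N M) (max N M + 1) (by omega) hn1 hn2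
    let g : FreeMalcev F ℕ →ₙₐ[F] FreeMalcev F ℕ :=
      FreeMalcev.lift FreeMalcev.isMalcev
        (fun j => if j < max N M then FreeMalcev.of j else if j = max N M then x else y)
    have hg : ∀ j, g (FreeMalcev.of j) =
        if j < max N M then FreeMalcev.of j else if j = max N M then x else y :=
      fun j => FreeMalcev.lift_of _ _ j
    have h1 : g (FreeMalcev.mk p) = FreeMalcev.mk p :=
      hN g (NonUnitalAlgHom.id F _) fun j hj => by
        rw [hg, if_pos (lt_of_lt_of_le hj (le_max_left N M))]
        rfl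
    have h2 : g (FreeMalcev.of (max N M)) = x := by
      rw [hg, if_neg (lt_irrefl _), if_pos rfl]
    have h3 : g (FreeMalcev.of (max N M + 1)) = y := by
      rw [hg, if_neg (by omega), if_neg (by omega)]
    have h5 := hom_Jac g (FreeMalcev.mk p) (FreeMalcev.of (max N M))
      (FreeMalcev.of (max N M + 1))
    rw [h4, map_zero, h1, h2, h3] at h5
    exact h5.symm
  | succ k ih =>
    intro m hm z hz hzm
    have hnd : ¬ m.Nodup := by
      intro hnd
      have := Multiset.toFinset_card_of_nodup hnd
      omega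
    obtain ⟨i, hi⟩ : ∃ i, 2 ≤ m.count i := by
      by_contra hcon
      push Not at hcon
      apply hnd
      rw [Multiset.nodup_iff_count_le_one]
      intro a
      have := hcon a
      omega
    have him : i ∈ m := by
      rw [← Multiset.count_pos]
      omega
    obtain ⟨j, hj⟩ := Infinite.exists_notMem_finset m.toFinset
    rw [Multiset.mem_toFinset] at hj
    obtain ⟨D, hD, hDof⟩ := exists_der (F := F) (X := ℕ)
      (fun k => if k = i then FreeMalcev.of j else 0)
    have hD1 : D (FreeMalcev.of i) = FreeMalcev.of j := by rw [hDof, if_pos rfl]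
    have hD2 : ∀ k, k ≠ i → D (FreeMalcev.of k) = 0 := fun k hk => by rw [hDof, if_neg hk]
    obtain ⟨hA, hB⟩ := der_move D hD i j hD1 hD2 hzm him
    have hcard : Multiset.card (j ::ₘ m.erase i) = (j ::ₘ m.erase i).toFinset.card + k := by
      have e1 : Multiset.card (j ::ₘ m.erase i) = Multiset.card m := by
        rw [Multiset.card_cons, Multiset.card_erase_add_one him]
      have e2 : (m.erase i).toFinset = m.toFinset := by
        ext a
        simp only [Multiset.mem_toFinset]
        by_cases ha : a = i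
        · subst ha
          constructor
          · exact fun _ => him
          · intro _
            rw [← Multiset.count_pos, Multiset.count_erase_self]
            omega
        · exact Multiset.mem_erase_of_ne ha
      have e3 : (j ::ₘ m.erase i).toFinset.card = m.toFinset.card + 1 := by
        rw [Multiset.toFinset_cons, e2, Finset.card_insert_of_notMem]
        rw [Multiset.mem_toFinset]
        exact hj
      omega
    have hC : D z ∈ lieCenter (FreeMalcev F ℕ) := ih _ hcard (D z) (hc D hD z hz) hA
    let f : FreeMalcev F ℕ →ₙₐ[F] FreeMalcev F ℕ :=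
      FreeMalcev.lift FreeMalcev.isMalcev
        (fun k => if k = j then FreeMalcev.of i else FreeMalcev.of k)
    have hf : ∀ k, f (FreeMalcev.of k) =
        if k = j then FreeMalcev.of i else FreeMalcev.of k :=
      fun k => FreeMalcev.lift_of _ _ k
    have hfD := hB f hj (by rw [hf, if_pos rfl]) (fun k hk => by rw [hf, if_neg hk])
    have hE : (m.count i : F) • z ∈ lieCenter (FreeMalcev F ℕ) := by
      rw [← hfD]
      exact lieCenter_endo hC f
    have hne : (m.count i : F) ≠ 0 := by
      have : m.count i ≠ 0 := by omega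
      exact_mod_cast this
    have := lc_smul (m.count i : F)⁻¹ hE
    rwa [smul_smul, inv_mul_cancel₀ hne, one_smul] at this

end LieCAux

/-- **Reduction to multilinear elements.** -/
theorem char_reduce {I : Submodule F (FreeMalcev F ℕ)} (hc : IsChar I)
    (h : ∀ (L : Finset ℕ) (p : FA F), p ∈ Hg F L.val → FreeMalcev.mk p ∈ I →
      ∀ n n' : ℕ, n ≠ n' → n ∉ L → n' ∉ L →
        Jac (FreeMalcev.mk p : FreeMalcev F ℕ) (FreeMalcev.of n) (FreeMalcev.of n') = 0) :
    ∀ z ∈ I, z ∈ lieCenter (FreeMalcev F ℕ) := by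
  intro z hz
  obtain ⟨s, hs⟩ := sum_piM z
  rw [hs]
  apply LieCAux.lc_sum
  intro m _
  obtain ⟨k, hk⟩ := Nat.exists_eq_add_of_le (Multiset.toFinset_card_le m)
  exact LieCAux.homog hc h k m hk _ (char_comp hc hz m) (piM_mem m z)

end Pool.Agent.Malc
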