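import Pool.Agent.Malc.CharI
import Pool.Agent.Malc.MalE

/-! # (S1): the elements of a trivial ideal are identities of C7 -/

set_option autoImplicit false

namespace Pool.Agent.Malc

universe u v

variable {F : Type u} [Field F] [CharZero F]

namespace S1Aux

open C7Aux

omit [CharZero F] in
theorem mulf_zero_right (x : C7E F) : mulf x 0 = 0 := by
  have h := mulf_smul_right (0 : F) x 0
  rwa [zero_smul, zero_smul] at h

omit [CharZero F] in
theorem mulf_sq (g c : C7E F) : mulf (mulf g c) c = sf g c • c - sf c c • g := by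
  have h := C7Aux.main g c c
  rw [mulf_self, mulf_zero_right, zero_add] at h
  rw [h, two_mul, add_smul]
  abel

omit [CharZero F] in
theorem mulf_sub_left (x x' y : C7E F) : mulf (x - x') y = mulf x y - mulf x' y := by
  have h := mulf_add_left (x - x') x' y
  rw [sub_add_cancel] at h
  rw [h]
  abel

theorem key {g : C7E F} (h : ∀ c, mulf (mulf (mulf g c) c) g = 0) : g = 0 := by
  by_contra hg
  have h1 : ∀ c, sf g c • mulf c g = 0 := by
    intro c
    have h2 := h c
    rwa [mulf_sq, mulf_sub_left, mulf_smul_left, mulf_smul_left, mulf_self, smul_zero,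
      sub_zero] at h2
  obtain ⟨c₀, hc₀⟩ : ∃ c, sf g c ≠ 0 := by
    by_contra hcon
    push Not at hcon
    exact hg (C7_nondeg (F := F) g hcon)
  have h2 : ∀ c, sf g c ≠ 0 → mulf c g = 0 := fun c hc =>
    (smul_eq_zero.mp (h1 c)).resolve_left hc
  have h3 : ∀ d, mulf d g = 0 := by
    intro d
    by_cases hd : sf g d = 0
    · have h4 : sf g (d + c₀) ≠ 0 := by
        rw [sf_add_right, hd, zero_add]
        exact hc₀
      have h5 := h2 _ h4
      rwa [mulf_add_left, h2 _ hc₀, add_zero] at h5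
    · exact h2 d hd
  have h4 : ∀ d, mulf g d = 0 := by
    intro d
    have h5 := mulf_self (g + d)
    rw [mulf_add_left, mulf_add_right, mulf_add_right, mulf_self, mulf_self, h3 d] at h5
    simpa using h5
  have h5 : ∀ c, sf g c • c = sf c c • g := by
    intro c
    have h6 := mulf_sq g c
    rw [h4] at h6
    have h7 : mulf (0 : C7E F) c = 0 := by
      have h := mulf_smul_left (0 : F) 0 c
      rwa [zero_smul, zero_smul] at h
    rw [h7] at h6
    exact (sub_eq_zero.mp h6.symm)
  have h6 : ∀ c, sf g c ≠ 0 → ∃ r : F, c = r • g := by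
    intro c hc
    refine ⟨(sf g c)⁻¹ * sf c c, ?_⟩
    rw [mul_smul, ← h5 c, smul_smul, inv_mul_cancel₀ hc, one_smul]
  have h7 : ∀ c, ∃ r : F, c = r • g := by
    intro c
    by_cases hc : sf g c = 0
    · obtain ⟨r, hr⟩ := h6 (c + c₀) (by
        rw [sf_add_right, hc, zero_add]
        exact hc₀)
      obtain ⟨t, ht⟩ := h6 c₀ hc₀
      refine ⟨r - t, ?_⟩
      rw [sub_smul, ← hr, ← ht]
      abel
    · exact h6 c hc
  obtain ⟨a, ha⟩ := h7 E0
  obtain ⟨b, hb⟩ := h7 (Ei 0)
  have h8 : b • (E0 : C7E F) = a • Ei 0 := by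
    rw [ha, hb, smul_smul, smul_smul, mul_comm]
  have h9 : b = 0 := by
    have := congrArg Prod.fst h8
    simpa [E0, Ei] using this
  rw [h9, zero_smul] at hb
  have h10 := congrFun (congrArg (fun z : C7E F => z.2.1) hb) 0
  simp [Ei] at h10

/-- substitution of generators in pairs of products -/
theorem pair {I : Submodule F (FreeMalcev F ℕ)} (hi : IsIdl I) (ht : IsTriv I) (hc : IsChar I)
    {L : Finset ℕ} {p : FA F} (hp : p ∈ Hg F L.val) (hI : FreeMalcev.mk p ∈ I)
    (x : ℕ → (C7 F).Mal) (c : (C7 F).Mal) : ((ev x p * c) * c) * ev x p = 0 := by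
  let φ : FreeMalcev F ℕ →ₙₐ[F] (C7 F).Mal := FreeMalcev.lift (CPA.Mal.isMalcev (C7 F))
    (fun n => if n % 2 = 0 then x (n / 2) else c)
  have h1 : ev (fun i => (FreeMalcev.of (2 * i) : FreeMalcev F ℕ)) p ∈ I := char_subst hc hp hI _
  have h2 := (hi _ (hi _ h1 (FreeMalcev.of 1)).1 (FreeMalcev.of 1)).1
  have h3 := ht _ h2 _ h1
  have h4 : φ (ev (fun i => (FreeMalcev.of (2 * i) : FreeMalcev F ℕ)) p) = ev x p := by
    rw [hom_ev]
    refine congrArg (fun z : ℕ → (C7 F).Mal => ev z p) (funext fun i => ?_)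
    show FreeMalcev.lift _ _ (FreeMalcev.of (2 * i)) = x i
    rw [FreeMalcev.lift_of]
    simp
  have h5 : φ (FreeMalcev.of 1) = c := by
    show FreeMalcev.lift _ _ (FreeMalcev.of 1) = c
    rw [FreeMalcev.lift_of]
    simp
  have h6 := congrArg φ h3
  rw [map_mul, map_mul, map_mul, map_zero, h4, h5] at h6
  exact h6

end S1Aux

/-- (S1) -/
theorem S1 {I : Submodule F (FreeMalcev F ℕ)} (hi : IsIdl I) (ht : IsTriv I) (hc : IsChar I)
    {L : Finset ℕ} {p : FA F} (hp : p ∈ Hg F L.val) (hI : FreeMalcev.mk p ∈ I)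
    (x : ℕ → (C7 F).Mal) : ev x p = 0 := by
  have h1 : (ev x p).e = 0 := by
    refine S1Aux.key (g := (ev x p).e) fun c => ?_
    exact congrArg CPA.Mal.e (S1Aux.pair hi ht hc hp hI x ⟨c⟩)
  exact CPA.Mal.ext h1

end Pool.Agent.Malc
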