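import Pool.Agent.Malc.CEnd
import Pool.Agent.Malc.CVQ
import Pool.Agent.Malc.S1
import Pool.Agent.Malc.LieC

/-! # The trivial characteristic ideals of the free Malcev algebra are in its Lie center -/

set_option autoImplicit false

namespace Pool.Agent.Malc

universe u

/-- **Theorem.** Let `F` be a field of characteristic 0. Every trivial characteristic ideal of the free Malcev
algebra on countably many generators is contained in the Lie center. -/
theorem trivial_char_ideals (F : Type u) [Field F] [CharZero F] (I : Submodule F (FreeMalcev F ℕ))
    (hI : IsIdl I) (ht : IsTriv I) (hc : IsChar I) : ∀ z ∈ I, z ∈ lieCenter (FreeMalcev F ℕ) := by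
  refine char_reduce hc ?_
  intro L p hp hmem n n' hnn hn hn'
  refine endgame hp ?_ hn hn' hnn ?_
  · intro x y
    exact ht _ (char_subst hc hp hmem x) _ (char_subst hc hp hmem y)
  · exact mem_Qid_of_S2 hp (S1 hI ht hc hp hmem) n n'

end Pool.Agent.Malc
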