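import Pool.Agent.Malc.FIds
import Pool.Agent.Malc.PSkew

/-! # The graph of Gamma

`Gr F B` is the span of the pairs `(J(a,b,c), (y, x) ↦ 108 x Psi(a,b,c,y))`. -/

set_option autoImplicit false

namespace Pool.Agent.Malc

universe u v

variable (F : Type u) [Field F] {B : Type v} [NonUnitalNonAssocRing B] [Module F B]
  [IsScalarTower F B B] [SMulCommClass F B B]

/-- the graph -/
def Gr (F : Type u) [Field F] (B : Type v) [NonUnitalNonAssocRing B] [Module F B] :
    Submodule F (B × (B → B → B)) :=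
  Submodule.span F {g | ∃ a b c : B, g = (Jac a b c, fun y x => P108 a b c y x)}

variable {F}

namespace GraphAux

open PSkewAux

omit [IsScalarTower F B B] [SMulCommClass F B B] in
theorem ind {p : B × (B → B → B) → Prop}
    (hJ : ∀ a b c : B, p (Jac a b c, fun y x => P108 a b c y x))
    (h0 : p (0, fun _ _ => 0))
    (hadd : ∀ (j j' : B) (G G' : B → B → B), p (j, G) → p (j', G') →
      p (j + j', fun y x => G y x + G' y x))
    (hsmul : ∀ (r : F) (j : B) (G : B → B → B), p (j, G) → p (r • j, fun y x => r • G y x))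
    {g : B × (B → B → B)} (hg : g ∈ Gr F B) : p g := by
  refine Submodule.span_induction (p := fun g _ => p g) ?_ ?_ ?_ ?_ hg
  · rintro _ ⟨a, b, c, rfl⟩
    exact hJ a b c
  · exact h0
  · rintro ⟨j, G⟩ ⟨j', G'⟩ _ _ h1 h2
    exact hadd j j' G G' h1 h2
  · rintro r ⟨j, G⟩ _ h1
    exact hsmul r j G h1

theorem cancel (n : ℕ) [CharZero F] (hn : n ≠ 0) {u v : B} (h : n • u = n • v) : u = v := by
  have h1 : (n : F) • u = (n : F) • v := by
    rw [Nat.cast_smul_eq_nsmul, Nat.cast_smul_eq_nsmul, h]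
  exact (smul_right_injective B (r := (n : F)) (Nat.cast_ne_zero.2 hn)) h1

theorem Jac_zero1 (y z : B) : Jac (0 : B) y z = 0 := by
  unfold Jac
  simp only [zero_mul, mul_zero, add_zero]

variable (F) in
theorem two_J [CharZero F] (h : IsMalcev B) (x y z w : B) :
    2 • (Jac x y z * w) = Jac (x * y) z w + Jac (y * z) x w + Jac (z * x) y w := by
  have h1 := sagle F h x y z w
  have h2 := sagle F h y z x w
  have h3 := sagle F h z x y w
  refine cancel (F := F) 3 (by norm_num) ?_
  rw [smul_add, smul_add, h1, h2, h3]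
  -- normal forms
  have a1 : Jac w x y = Jac x y w := (Jac_cyc w x y).symm
  have a2 : Jac z x w = - Jac z w x := h.Jac23 z w x
  have a3 : Jac x w y = - Jac x y w := h.Jac23 x y w
  have a4 : Jac w y z = Jac y z w := (Jac_cyc w y z).symm
  have a5 : Jac y w z = - Jac y z w := h.Jac23 y z w
  have a6 : Jac w z x = - Jac z w x := h.Jac12 z w x
  rw [a1, a2, a3, a4, a5, a6, Jac_cyc x y z, ← Jac_cyc z x y]
  simp only [neg_mul, smul_neg, smul_add, smul_sub]
  abel

variable (F) in
theorem two_P [CharZero F] (h' : IsV B) (x y z w t p : B) :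
    2 • P108 x y z (w * t) p = P108 (x * y) z w t p + P108 (y * z) x w t p +
      P108 (z * x) y w t p := by
  have h := h'.toIsMalcev
  have h1 := F4 F h' x y z w t p
  have h2 := F4 F h' y z x w t p
  have h3 := F4 F h' z x y w t p
  refine cancel (F := F) 3 (by norm_num) ?_
  rw [smul_add, smul_add, h1, h2, h3]
  have cyc : ∀ a b c d e : B, P108 b c a d e = P108 a b c d e := fun a b c d e => by
    rw [h.P23 b a c d e, h.P12 a b c d e, neg_neg]
  have a1 : P108 w x y (z * t) p = P108 x y w (z * t) p := (cyc w x y _ _).symm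
  have a2 : P108 z x w (y * t) p = - P108 z w x (y * t) p := h.P23 z w x _ _
  have a3 : P108 x w y (z * t) p = - P108 x y w (z * t) p := h.P23 x y w _ _
  have a4 : P108 w y z (x * t) p = P108 y z w (x * t) p := (cyc w y z _ _).symm
  have a5 : P108 y w z (x * t) p = - P108 y z w (x * t) p := h.P23 y z w _ _
  have a6 : P108 w z x (y * t) p = - P108 z w x (y * t) p := h.P12 z w x _ _
  have a7 : P108 y z x (w * t) p = P108 x y z (w * t) p := cyc x y z _ _
  have a8 : P108 z x y (w * t) p = P108 x y z (w * t) p := (cyc z x y _ _).symm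
  rw [a1, a2, a3, a4, a5, a6, a7, a8]
  simp only [smul_neg, smul_add, smul_sub]
  abel

end GraphAux

open GraphAux PSkewAux

theorem Gr_J (a b c : B) : ((Jac a b c, fun y x => P108 a b c y x) : B × (B → B → B)) ∈ Gr F B :=
  Submodule.subset_span ⟨a, b, c, rfl⟩

theorem Gr_lin_y {g : B × (B → B → B)} (hg : g ∈ Gr F B) (x : B) :
    ∃ f : B →ₗ[F] B, ∀ y, f y = g.2 y x := by
  refine GraphAux.ind (F := F) (p := fun g => ∃ f : B →ₗ[F] B, ∀ y, f y = g.2 y x) ?_ ?_ ?_ ?_ hg
  · intro a b c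
    exact P108_lin_d F a b c x
  · exact ⟨0, fun _ => rfl⟩
  · rintro j j' G G' ⟨f, hf⟩ ⟨f', hf'⟩
    exact ⟨f + f', fun y => by rw [LinearMap.add_apply, hf, hf']⟩
  · rintro r j G ⟨f, hf⟩
    exact ⟨r • f, fun y => by rw [LinearMap.smul_apply, hf]⟩

theorem Gr_lin_x {g : B × (B → B → B)} (hg : g ∈ Gr F B) (y : B) :
    ∃ f : B →ₗ[F] B, ∀ x, f x = g.2 y x := by
  refine GraphAux.ind (F := F) (p := fun g => ∃ f : B →ₗ[F] B, ∀ x, f x = g.2 y x) ?_ ?_ ?_ ?_ hg
  · intro a b c
    exact P108_lin_x F a b c y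
  · exact ⟨0, fun _ => rfl⟩
  · rintro j j' G G' ⟨f, hf⟩ ⟨f', hf'⟩
    exact ⟨f + f', fun y => by rw [LinearMap.add_apply, hf, hf']⟩
  · rintro r j G ⟨f, hf⟩
    exact ⟨r • f, fun y => by rw [LinearMap.smul_apply, hf]⟩

variable [CharZero F]

theorem Gr_m (h : IsV B) {g : B × (B → B → B)} (hg : g ∈ Gr F B) (z : B) :
    ((g.1 * z, fun y x => g.2 (z * y) x) : B × (B → B → B)) ∈ Gr F B := by
  refine GraphAux.ind (F := F) (p := fun g =>
    ((g.1 * z, fun y x => g.2 (z * y) x) : B × (B → B → B)) ∈ Gr F B) ?_ ?_ ?_ ?_ hg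
  · intro a b c
    have h1 := (Gr F B).smul_mem ((2 : F)⁻¹) ((Gr F B).add_mem ((Gr F B).add_mem
      (Gr_J (F := F) (a * b) c z) (Gr_J (F := F) (b * c) a z)) (Gr_J (F := F) (c * a) b z))
    have h2 : ∀ u v : B, 2 • u = v → (2 : F)⁻¹ • v = u := by
      intro u v huv
      rw [← huv, ← Nat.cast_smul_eq_nsmul F, Nat.cast_ofNat, smul_smul,
        inv_mul_cancel₀ (two_ne_zero), one_smul]
    convert h1 using 1
    refine Prod.ext ?_ ?_
    · exact (h2 _ _ (two_J F h.toIsMalcev a b c z)).symm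
    · funext y x
      exact (h2 _ _ (two_P F h a b c z y x)).symm
  · show ((0 * z, fun y x => (0 : B)) : B × (B → B → B)) ∈ Gr F B
    rw [zero_mul]
    exact (Gr F B).zero_mem
  · intro j j' G G' h1 h2
    have := (Gr F B).add_mem h1 h2
    show (((j + j') * z, fun y x => G (z * y) x + G' (z * y) x) : B × (B → B → B)) ∈ Gr F B
    rw [add_mul]
    exact this
  · intro r j G h1
    have := (Gr F B).smul_mem r h1
    show (((r • j) * z, fun y x => r • G (z * y) x) : B × (B → B → B)) ∈ Gr F B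
    rw [smul_mul_assoc]
    exact this

theorem Gr_F1 (h : IsMalcev B) {g : B × (B → B → B)} (hg : g ∈ Gr F B) (x y : B) :
    g.2 y x - g.2 x y = 12 • Jac g.1 x y + 36 • (g.1 * (x * y)) := by
  refine GraphAux.ind (F := F) (p := fun g =>
    g.2 y x - g.2 x y = 12 • Jac g.1 x y + 36 • (g.1 * (x * y))) ?_ ?_ ?_ ?_ hg
  · intro a b c
    exact F1 F h a b c x y
  · show (0 : B) - 0 = 12 • Jac 0 x y + 36 • (0 * (x * y))
    rw [Jac_zero1, zero_mul]
    simp
  · intro j j' G G' h1 h2
    show (G y x + G' y x) - (G x y + G' x y) = 12 • Jac (j + j') x y + 36 • ((j + j') * (x * y))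
    have h1' : G y x - G x y = 12 • Jac j x y + 36 • (j * (x * y)) := h1
    have h2' : G' y x - G' x y = 12 • Jac j' x y + 36 • (j' * (x * y)) := h2
    rw [Jac_add1, add_mul, smul_add, smul_add, add_sub_add_comm, h1', h2']
    abel
  · intro r j G h1
    show r • G y x - r • G x y = 12 • Jac (r • j) x y + 36 • ((r • j) * (x * y))
    have h1' : G y x - G x y = 12 • Jac j x y + 36 • (j * (x * y)) := h1
    rw [Jac_smul1, smul_mul_assoc, ← smul_sub, h1', smul_add, smul_comm r (12 : ℕ),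
      smul_comm r (36 : ℕ)]

theorem Gr_f6 (h : IsV B) {g : B × (B → B → B)} (hg : g ∈ Gr F B) (x y z : B) :
    g.2 y (x * z) = g.2 y x * z := by
  refine GraphAux.ind (F := F) (p := fun g => g.2 y (x * z) = g.2 y x * z) ?_ ?_ ?_ ?_ hg
  · intro a b c
    exact h.f6 a b c y x z
  · exact (zero_mul z).symm
  · intro j j' G G' h1 h2
    have h1' : G y (x * z) = G y x * z := h1
    have h2' : G' y (x * z) = G' y x * z := h2
    show G y (x * z) + G' y (x * z) = (G y x + G' y x) * z
    rw [h1', h2', add_mul]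
  · intro r j G h1
    have h1' : G y (x * z) = G y x * z := h1
    show r • G y (x * z) = (r • G y x) * z
    rw [h1', smul_mul_assoc]

theorem Gr_F3 (h : IsV B) {g : B × (B → B → B)} (hg : g ∈ Gr F B) (x y z : B) :
    -(36 • (((g.1 * z) * x) * y)) + 12 • Jac (g.1 * z) x y + g.2 (z * y) x =
      (-(36 • ((g.1 * x) * y)) + 12 • Jac g.1 x y + g.2 y x) * z := by
  refine GraphAux.ind (F := F) (p := fun g =>
    -(36 • (((g.1 * z) * x) * y)) + 12 • Jac (g.1 * z) x y + g.2 (z * y) x =
      (-(36 • ((g.1 * x) * y)) + 12 • Jac g.1 x y + g.2 y x) * z) ?_ ?_ ?_ ?_ hg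
  · intro a b c
    exact F3 F h a b c x y z
  · show -(36 • ((((0 : B) * z) * x) * y)) + 12 • Jac (0 * z) x y + 0 =
      (-(36 • (((0 : B) * x) * y)) + 12 • Jac 0 x y + 0) * z
    simp only [zero_mul, Jac_zero1, smul_zero, neg_zero, add_zero]
  · intro j j' G G' h1 h2
    have h1' : -(36 • (((j * z) * x) * y)) + 12 • Jac (j * z) x y + G (z * y) x =
      (-(36 • ((j * x) * y)) + 12 • Jac j x y + G y x) * z := h1
    have h2' : -(36 • (((j' * z) * x) * y)) + 12 • Jac (j' * z) x y + G' (z * y) x =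
      (-(36 • ((j' * x) * y)) + 12 • Jac j' x y + G' y x) * z := h2
    show -(36 • ((((j + j') * z) * x) * y)) + 12 • Jac ((j + j') * z) x y +
      (G (z * y) x + G' (z * y) x) =
      (-(36 • (((j + j') * x) * y)) + 12 • Jac (j + j') x y + (G y x + G' y x)) * z
    have e1 : -(36 • ((((j + j') * z) * x) * y)) + 12 • Jac ((j + j') * z) x y +
      (G (z * y) x + G' (z * y) x) = (-(36 • (((j * z) * x) * y)) + 12 • Jac (j * z) x y +
      G (z * y) x) + (-(36 • (((j' * z) * x) * y)) + 12 • Jac (j' * z) x y + G' (z * y) x) := by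
      simp only [add_mul, Jac_add1, smul_add]
      abel
    have e2 : -(36 • (((j + j') * x) * y)) + 12 • Jac (j + j') x y + (G y x + G' y x) =
      (-(36 • ((j * x) * y)) + 12 • Jac j x y + G y x) +
      (-(36 • ((j' * x) * y)) + 12 • Jac j' x y + G' y x) := by
      simp only [add_mul, Jac_add1, smul_add]
      abel
    rw [e1, e2, add_mul _ _ z, h1', h2']
  · intro r j G h1
    have h1' : -(36 • (((j * z) * x) * y)) + 12 • Jac (j * z) x y + G (z * y) x =
      (-(36 • ((j * x) * y)) + 12 • Jac j x y + G y x) * z := h1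
    show -(36 • ((((r • j) * z) * x) * y)) + 12 • Jac ((r • j) * z) x y + r • G (z * y) x =
      (-(36 • (((r • j) * x) * y)) + 12 • Jac (r • j) x y + r • G y x) * z
    have e1 : -(36 • ((((r • j) * z) * x) * y)) + 12 • Jac ((r • j) * z) x y + r • G (z * y) x =
      r • (-(36 • (((j * z) * x) * y)) + 12 • Jac (j * z) x y + G (z * y) x) := by
      simp only [smul_mul_assoc, Jac_smul1, smul_add, smul_neg, smul_comm r (36 : ℕ),
        smul_comm r (12 : ℕ)]
    have e2 : -(36 • (((r • j) * x) * y)) + 12 • Jac (r • j) x y + r • G y x =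
      r • (-(36 • ((j * x) * y)) + 12 • Jac j x y + G y x) := by
      simp only [smul_mul_assoc, Jac_smul1, smul_add, smul_neg, smul_comm r (36 : ℕ),
        smul_comm r (12 : ℕ)]
    rw [e1, e2, smul_mul_assoc, h1']

theorem Gr_F5 (h : IsV B) {g : B × (B → B → B)} (hg : g ∈ Gr F B) (x y z : B) :
    (-(36 • ((g.1 * (x * z)) * y)) + 12 • Jac g.1 (x * z) y + g.2 y (x * z)) +
      (-(36 • ((g.1 * x) * (y * z))) + 12 • Jac g.1 x (y * z) + g.2 (y * z) x) = 0 := by
  refine GraphAux.ind (F := F) (p := fun g =>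
    (-(36 • ((g.1 * (x * z)) * y)) + 12 • Jac g.1 (x * z) y + g.2 y (x * z)) +
      (-(36 • ((g.1 * x) * (y * z))) + 12 • Jac g.1 x (y * z) + g.2 (y * z) x) = 0) ?_ ?_ ?_ ?_ hg
  · intro a b c
    exact F5 F h a b c x y z
  · show (-(36 • (((0 : B) * (x * z)) * y)) + 12 • Jac 0 (x * z) y + 0) +
      (-(36 • (((0 : B) * x) * (y * z))) + 12 • Jac 0 x (y * z) + 0) = 0
    simp only [zero_mul, Jac_zero1, smul_zero, neg_zero, add_zero]
  · intro j j' G G' h1 h2
    have h1' : (-(36 • ((j * (x * z)) * y)) + 12 • Jac j (x * z) y + G y (x * z)) +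
      (-(36 • ((j * x) * (y * z))) + 12 • Jac j x (y * z) + G (y * z) x) = 0 := h1
    have h2' : (-(36 • ((j' * (x * z)) * y)) + 12 • Jac j' (x * z) y + G' y (x * z)) +
      (-(36 • ((j' * x) * (y * z))) + 12 • Jac j' x (y * z) + G' (y * z) x) = 0 := h2
    show (-(36 • (((j + j') * (x * z)) * y)) + 12 • Jac (j + j') (x * z) y +
      (G y (x * z) + G' y (x * z))) + (-(36 • (((j + j') * x) * (y * z))) +
      12 • Jac (j + j') x (y * z) + (G (y * z) x + G' (y * z) x)) = 0
    have e1 : (-(36 • (((j + j') * (x * z)) * y)) + 12 • Jac (j + j') (x * z) y +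
      (G y (x * z) + G' y (x * z))) + (-(36 • (((j + j') * x) * (y * z))) +
      12 • Jac (j + j') x (y * z) + (G (y * z) x + G' (y * z) x)) =
      ((-(36 • ((j * (x * z)) * y)) + 12 • Jac j (x * z) y + G y (x * z)) +
      (-(36 • ((j * x) * (y * z))) + 12 • Jac j x (y * z) + G (y * z) x)) +
      ((-(36 • ((j' * (x * z)) * y)) + 12 • Jac j' (x * z) y + G' y (x * z)) +
      (-(36 • ((j' * x) * (y * z))) + 12 • Jac j' x (y * z) + G' (y * z) x)) := by
      simp only [add_mul, Jac_add1, smul_add]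
      abel
    rw [e1, h1', h2', add_zero]
  · intro r j G h1
    have h1' : (-(36 • ((j * (x * z)) * y)) + 12 • Jac j (x * z) y + G y (x * z)) +
      (-(36 • ((j * x) * (y * z))) + 12 • Jac j x (y * z) + G (y * z) x) = 0 := h1
    show (-(36 • (((r • j) * (x * z)) * y)) + 12 • Jac (r • j) (x * z) y + r • G y (x * z)) +
      (-(36 • (((r • j) * x) * (y * z))) + 12 • Jac (r • j) x (y * z) + r • G (y * z) x) = 0
    have e1 : (-(36 • (((r • j) * (x * z)) * y)) + 12 • Jac (r • j) (x * z) y + r • G y (x * z)) +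
      (-(36 • (((r • j) * x) * (y * z))) + 12 • Jac (r • j) x (y * z) + r • G (y * z) x) =
      r • ((-(36 • ((j * (x * z)) * y)) + 12 • Jac j (x * z) y + G y (x * z)) +
      (-(36 • ((j * x) * (y * z))) + 12 • Jac j x (y * z) + G (y * z) x)) := by
      simp only [smul_mul_assoc, Jac_smul1, smul_add, smul_neg, smul_comm r (36 : ℕ),
        smul_comm r (12 : ℕ)]
    rw [e1, h1', smul_zero]

namespace GraphAux

variable (F) in
/-- membership of a lifted element -/
def InGr (g : GP B) : Prop := ((g.j, g.G) : B × (B → B → B)) ∈ Gr F B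

omit [CharZero F] in
theorem inJ (a b c : B) : InGr F (GP.J a b c) := Gr_J a b c

theorem inM (h : IsV B) {g : GP B} (hg : InGr F g) (z : B) : InGr F (g.m z) :=
  Gr_m h hg z

omit [IsScalarTower F B B] [SMulCommClass F B B] [CharZero F] in
theorem inAdd {g g' : GP B} (hg : InGr F g) (hg' : InGr F g') : InGr F (g + g') :=
  (Gr F B).add_mem hg hg'

omit [IsScalarTower F B B] [SMulCommClass F B B] [CharZero F] in
theorem inSub {g g' : GP B} (hg : InGr F g) (hg' : InGr F g') : InGr F (g - g') :=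
  (Gr F B).sub_mem hg hg'

omit [IsScalarTower F B B] [SMulCommClass F B B] [CharZero F] in
theorem inZ {g : GP B} (n : ℤ) (hg : InGr F g) : InGr F (GP.z n g) :=
  (Gr F B).toAddSubgroup.zsmul_mem hg n

end GraphAux

/-- the lift of `108 x Psi(a,b,c,d)` -/
theorem Gr_P (h : IsV B) (a b c d x : B) : (((GP.P a b c d x).j, (GP.P a b c d x).G) :
    B × (B → B → B)) ∈ Gr F B ∧ (GP.P a b c d x).j = P108 a b c d x := by
  refine ⟨?_, ?_⟩
  · show InGr F (GP.P a b c d x)
    unfold GP.P
    have hm := fun (a b c x : B) => inM (F := F) h (inJ a b c) x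
    have hmm := fun (a b c x y : B) => inM (F := F) h (hm a b c x) y
    exact inAdd (inAdd (inAdd (inSub (inSub (inAdd (inJ _ _ _) (inJ _ _ _)) (inJ _ _ _))
      (inJ _ _ _)) (inJ _ _ _)) (inJ _ _ _)) (inZ 6 (inSub (inAdd (inSub (inAdd (hmm _ _ _ _ _)
      (hm _ _ _ _)) (inAdd (hmm _ _ _ _ _) (hm _ _ _ _))) (inAdd (hmm _ _ _ _ _) (hm _ _ _ _)))
      (inAdd (hmm _ _ _ _ _) (hm _ _ _ _))))
  · show Jac (Jac x a b) c d + Jac (Jac x c d) a b - Jac (Jac x a c) b d - Jac (Jac x b d) a c +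
      Jac (Jac x a d) b c + Jac (Jac x b c) a d +
      (6 : ℤ) • ((Jac a b c * x) * d + Jac a b c * (x * d) - ((Jac a b d * x) * c +
      Jac a b d * (x * c)) + ((Jac a c d * x) * b + Jac a c d * (x * b)) -
      ((Jac b c d * x) * a + Jac b c d * (x * a))) = P108 a b c d x
    unfold P108
    rw [h.anti x (Jac a b c), h.anti x (Jac a b d), h.anti x (Jac a c d), h.anti x (Jac b c d),
      h.anti (x * d) (Jac a b c), h.anti (x * c) (Jac a b d), h.anti (x * b) (Jac a c d),
      h.anti (x * a) (Jac b c d)]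
    simp only [neg_mul, smul_add, smul_sub, smul_neg]
    abel

/-- the lift of `36 sigma(x,y) J(a,b,c)` -/
theorem Gr_S (h : IsV B) (a b c x y : B) : (((GP.S a b c x y).j, (GP.S a b c x y).G) :
    B × (B → B → B)) ∈ Gr F B ∧ (GP.S a b c x y).j = sig36 a b c x y := by
  refine ⟨?_, ?_⟩
  · show InGr F (GP.S a b c x y)
    unfold GP.S
    exact inAdd (inAdd (inZ _ (inM h (inM h (inJ _ _ _) _) _)) (inZ _ (inJ _ _ _)))
      (Gr_P h a b c y x).1
  · show (-36 : ℤ) • ((Jac a b c * x) * y) + (12 : ℤ) • Jac (Jac a b c) x y +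
      (GP.P a b c y x).j = sig36 a b c x y
    rw [(Gr_P (F := F) h a b c y x).2]
    unfold sig36
    abel

end Pool.Agent.Malc
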