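import Pool.Agent.Malc.Defs

/-! # The quotient of a nonassociative algebra by an ideal -/

set_option autoImplicit false

namespace Pool.Agent.Malc

universe u v

variable {F : Type u} [Field F] {R : Type v} [NonUnitalNonAssocRing R] [Module F R]

/-- the quotient by an ideal -/
def IQ (I : Submodule F R) (_ : IsIdl I) : Type v := R ⧸ I

namespace IQ

variable {I : Submodule F R} {hI : IsIdl I}

noncomputable instance : AddCommGroup (IQ I hI) := inferInstanceAs (AddCommGroup (R ⧸ I))
noncomputable instance : Module F (IQ I hI) := inferInstanceAs (Module F (R ⧸ I))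

variable (hI) in
/-- the quotient map -/
noncomputable def mk : R →ₗ[F] IQ I hI := I.mkQ

theorem mk_surj : Function.Surjective (mk hI) := Submodule.mkQ_surjective _

theorem mk_eq_zero {a : R} : mk hI a = 0 ↔ a ∈ I := Submodule.Quotient.mk_eq_zero _

theorem mk_eq {a b : R} : mk hI a = mk hI b ↔ a - b ∈ I := Submodule.Quotient.eq _

variable [IsScalarTower F R R] [SMulCommClass F R R]

/-- the product -/
noncomputable def mulL : IQ I hI →ₗ[F] IQ I hI →ₗ[F] IQ I hI :=
  I.liftQ
    { toFun := fun a => I.liftQ (mk hI ∘ₗ LinearMap.mulLeft F a) (by
        intro b hb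
        rw [LinearMap.mem_ker, LinearMap.comp_apply, LinearMap.mulLeft_apply, mk_eq_zero]
        exact (hI b hb a).2)
      map_add' := by
        intro a b
        apply LinearMap.ext
        intro x
        obtain ⟨x, rfl⟩ := mk_surj (hI := hI) x
        show mk hI ((a + b) * x) = mk hI (a * x) + mk hI (b * x)
        rw [add_mul, map_add]
      map_smul' := by
        intro r a
        apply LinearMap.ext
        intro x
        obtain ⟨x, rfl⟩ := mk_surj (hI := hI) x
        show mk hI ((r • a) * x) = r • mk hI (a * x)
        rw [smul_mul_assoc, map_smul] } (by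
    intro a ha
    rw [LinearMap.mem_ker]
    apply LinearMap.ext
    intro x
    obtain ⟨x, rfl⟩ := mk_surj (hI := hI) x
    show mk hI (a * x) = 0
    rw [mk_eq_zero]
    exact (hI a ha x).1)

noncomputable instance : Mul (IQ I hI) := ⟨fun a b => mulL a b⟩

theorem mk_mul (a b : R) : mk hI (a * b) = mk hI a * mk hI b := rfl

theorem mul_def (a b : IQ I hI) : a * b = mulL a b := rfl

noncomputable instance : NonUnitalNonAssocRing (IQ I hI) where
  left_distrib := fun a b c => by simp only [mul_def, map_add]
  right_distrib := fun a b c => by simp only [mul_def, map_add, LinearMap.add_apply]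
  zero_mul := fun a => by simp only [mul_def, map_zero, LinearMap.zero_apply]
  mul_zero := fun a => by simp only [mul_def, map_zero]

instance : IsScalarTower F (IQ I hI) (IQ I hI) where
  smul_assoc := fun r a b => by
    show mulL (r • a) b = r • mulL a b
    rw [map_smul, LinearMap.smul_apply]

instance : SMulCommClass F (IQ I hI) (IQ I hI) where
  smul_comm := fun r a b => by
    show r • mulL a b = mulL a (r • b)
    rw [map_smul]

variable (hI) in
/-- the quotient map as a homomorphism -/
noncomputable def mkHom : R →ₙₐ[F] IQ I hI where
  toFun := mk hI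
  map_smul' := fun r a => map_smul (mk hI) r a
  map_zero' := map_zero (mk hI)
  map_add' := map_add (mk hI)
  map_mul' := mk_mul

end IQ

end Pool.Agent.Malc
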