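import Pool.Agent.Malc.Dual

/-! # Natural multilinear families of scalars -/

set_option autoImplicit false

open scoped TensorProduct

namespace Pool.Agent.Malc

universe u

open CPA

variable {F : Type u} [Field F] [CharZero F]

/-- natural multilinear families of scalars -/
structure NF (F : Type u) [Field F] (ι : Type) where
  f : ∀ A : CPA F, MultilinearMap A.S (fun _ : ι => A.E) A.S
  nat : ∀ {A B : CPA F} (h : Hom A B) (x : ι → A.E), h.φ (f A x) = f B (fun i => h.ψ (x i))

/-- the generic element of the extension -/
noncomputable def CPA.Y (A : CPA F) : A.ext.E := (⟨0, A.mkW (1, 0, 0)⟩ : A.EE)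

/-- an operator as an element of the extension -/
noncomputable def CPA.inW (A : CPA F) (w : A.W) : A.ext.E := (⟨0, w⟩ : A.EE)

/-- the trace of a scalar of the extension of the extension -/
noncomputable def CPA.Tr (A : CPA F) (x : A.ext.ext.S) : A.S := A.tau (EE.w (SE.g x))

/-- the element of `A.ext.ext` of an element of `A` -/
noncomputable def CPA.in2 (A : CPA F) (a : A.E) : A.ext.ext.E := A.ext.incl.ψ (A.incl.ψ a)

/-- the operator `w`, applied to the second generic element -/
noncomputable def CPA.op2 (A : CPA F) (w : A.W) : A.ext.ext.E := A.ext.inW (mapW A.incl w)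

/-- the first generic element -/
noncomputable def CPA.Z2 (A : CPA F) : A.ext.ext.E := A.ext.incl.ψ A.Y

variable {ι : Type} [DecidableEq ι]

/-- the contraction of `f (.., w(y), .., y, ..)` at the places `p`, `q` -/
noncomputable def NF.Phi (f : NF F ι) (p q : ι) (A : CPA F) (x : ι → A.E) (w : A.W) : A.S :=
  A.Tr (f.f A.ext.ext (Function.update (Function.update (fun i => A.in2 (x i)) p (A.op2 w)) q A.Z2))

end Pool.Agent.Malc
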