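import Pool.Agent.Malc.NF

/-! # The first order expansion over the dual numbers -/

set_option autoImplicit false

open scoped TensorProduct

namespace Pool.Agent.Malc

universe u

open CPA

variable {F : Type u} [Field F] [CharZero F]

variable {ι : Type} [DecidableEq ι]

namespace NFExpandAux

/-- the dual number `ε` -/
noncomputable def eps (A : CPA F) : A.dual.S := (⟨0, 1⟩ : A.SD)

omit [CharZero F] in
theorem eps_sq (A : CPA F) : eps A * eps A = 0 := by
  show (⟨0, 1⟩ : A.SD) * ⟨0, 1⟩ = 0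
  apply SD.ext
  · simp
  · simp

omit [CharZero F] in
theorem eps_pow (A : CPA F) {n : ℕ} (hn : 2 ≤ n) : eps A ^ n = 0 := by
  obtain ⟨m, rfl⟩ := Nat.exists_eq_add_of_le hn
  rw [pow_add, pow_two, eps_sq, zero_mul]

omit [CharZero F] in
theorem eps_smul (A : CPA F) (a : A.E) :
    eps A • (A.incd.ψ a) = (⟨0, a⟩ : A.ED) := by
  show (⟨0, 1⟩ : A.SD) • (⟨a, 0⟩ : A.ED) = ⟨0, a⟩
  apply ED.ext
  · simp
  · simp

omit [CharZero F] in
theorem eps_mul (A : CPA F) (a : A.S) :
    eps A • (A.incd.φ a) = (⟨0, a⟩ : A.SD) := by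
  show (⟨0, 1⟩ : A.SD) * (⟨a, 0⟩ : A.SD) = ⟨0, a⟩
  apply SD.ext
  · simp
  · simp

omit [CharZero F] in
theorem sum_t (A : CPA F) {κ : Type} (s : Finset κ) (b : κ → A.S) :
    ∑ i ∈ s, (⟨0, b i⟩ : A.SD) = ⟨0, ∑ i ∈ s, b i⟩ := by
  classical
  induction s using Finset.induction_on with
  | empty => simp; rfl
  | insert i s hi ih =>
    rw [Finset.sum_insert hi, ih, Finset.sum_insert hi]
    apply SD.ext
    · simp
    · simp

end NFExpandAux

open NFExpandAux

namespace NF

variable (f : NF F ι)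

/-- the first order expansion -/
theorem expand [Fintype ι] (A : CPA F) (u v : ι → A.E) :
    f.f A.dual (fun i => (⟨u i, v i⟩ : A.ED)) =
      (⟨f.f A u, ∑ i, f.f A (Function.update u i (v i))⟩ : A.SD) := by
  classical
  set x : ι → A.dual.E := fun i => A.incd.ψ (u i) with hx
  set hv : ι → A.dual.E := fun i => eps A • A.incd.ψ (v i) with hhv
  have h0 : (fun i => (⟨u i, v i⟩ : A.ED)) = x + hv := by
    funext i
    show (⟨u i, v i⟩ : A.ED) = A.incd.ψ (u i) + eps A • A.incd.ψ (v i)
    rw [eps_smul]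
    show (⟨u i, v i⟩ : A.ED) = ⟨u i, 0⟩ + ⟨0, v i⟩
    apply ED.ext
    · simp
    · simp
  have hfx : f.f A.dual x = (⟨f.f A u, 0⟩ : A.SD) := by
    rw [hx, ← f.nat A.incd u]
    rfl
  have hder : (f.f A.dual).linearDeriv x hv =
      (⟨0, ∑ i, f.f A (Function.update u i (v i))⟩ : A.SD) := by
    rw [MultilinearMap.linearDeriv_apply, ← sum_t]
    refine Finset.sum_congr rfl fun i _ => ?_
    rw [hhv]
    rw [MultilinearMap.map_update_smul]
    have h1 : Function.update x i (A.incd.ψ (v i)) =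
        fun j => A.incd.ψ (Function.update u i (v i) j) := by
      funext j
      by_cases hj : j = i
      · subst hj
        simp
      · simp [hj, hx]
    rw [h1, ← f.nat A.incd (Function.update u i (v i)), eps_mul]
  have hrest : ∑ s : Finset ι with 2 ≤ s.card, f.f A.dual (s.piecewise hv x) = 0 := by
    refine Finset.sum_eq_zero fun s hs => ?_
    have hs2 : 2 ≤ s.card := (Finset.mem_filter.mp hs).2
    set m : ι → A.dual.E := s.piecewise (fun i => A.incd.ψ (v i)) x with hm
    have h1 : s.piecewise hv x = s.piecewise (fun i => eps A • m i) m := by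
      funext i
      by_cases hi : i ∈ s
      · simp [hi, hhv, hm]
      · simp [hi, hm]
    rw [h1, MultilinearMap.map_piecewise_smul, Finset.prod_const, eps_pow A hs2, zero_smul]
  rw [h0, MultilinearMap.map_add_eq_map_add_linearDeriv_add, hrest, add_zero, hfx, hder]
  show (⟨f.f A u, 0⟩ : A.SD) + ⟨0, ∑ i, f.f A (Function.update u i (v i))⟩ = _
  apply SD.ext
  · simp
  · simp

end NF

end Pool.Agent.Malc
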