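import Pool.Agent.Malc.NFExpand

/-! # The gradient -/

set_option autoImplicit false

open scoped TensorProduct

namespace Pool.Agent.Malc

universe u

open CPA

variable {F : Type u} [Field F] [CharZero F]

variable {ι : Type} [DecidableEq ι]

namespace NFGradAux

omit [DecidableEq ι] in
theorem evW_Y (A : CPA F) (v : A.E) : A.evW v (A.mkW (1, 0, 0)) = v := by
  rw [evW_mk]
  simp only [evT, LinearMap.coe_mk, AddHom.coe_mk, one_smul, map_zero, LinearMap.zero_apply,
    add_zero]

theorem proj_arg (q : ι) (A : CPA F) (x : ι → A.E) :
    (fun i => A.proj.ψ (Function.update (fun i => A.incl.ψ (x i)) q A.Y i)) =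
      Function.update x q 0 := by
  funext i
  by_cases h : i = q
  · subst h
    rw [Function.update_self, Function.update_self]
    rfl
  · rw [Function.update_of_ne h, Function.update_of_ne h]
    rfl

theorem evd_arg (q : ι) (A : CPA F) (x : ι → A.E) (v : A.E) :
    (fun i => (A.evd v).ψ (Function.update (fun i => A.incl.ψ (x i)) q A.Y i)) =
      fun i => (⟨Function.update x q 0 i, Function.update (0 : ι → A.E) q v i⟩ : A.ED) := by
  funext i
  by_cases h : i = q
  · subst h
    rw [Function.update_self, Function.update_self, Function.update_self, evd_ψ]
    apply ED.ext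
    · rfl
    · exact evW_Y A v
  · rw [Function.update_of_ne h, Function.update_of_ne h, Function.update_of_ne h, evd_ψ]
    apply ED.ext
    · rfl
    · exact map_zero (A.evW v)

end NFGradAux

namespace NF

open NFGradAux

variable (f : NF F ι)

/-- the gradient -/
theorem grad [Fintype ι] (q : ι) (A : CPA F) (x : ι → A.E) (v : A.E) :
    SE.r (f.f A.ext (Function.update (fun i => A.incl.ψ (x i)) q A.Y)) = 0 ∧
    A.s (SE.g (f.f A.ext (Function.update (fun i => A.incl.ψ (x i)) q A.Y))) v =
      f.f A (Function.update x q v) := by
  constructor
  · have h := f.nat A.proj (Function.update (fun i => A.incl.ψ (x i)) q A.Y)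
    rw [proj_arg q A x] at h
    have h0 : f.f A (Function.update x q 0) = 0 :=
      (f.f A).map_coord_zero q (Function.update_self q 0 x)
    rw [h0] at h
    exact h
  · have h := f.nat (A.evd v) (Function.update (fun i => A.incl.ψ (x i)) q A.Y)
    rw [evd_arg q A x v, f.expand A] at h
    have h1 := congrArg SD.t h
    have h2 : ∑ i, f.f A (Function.update (Function.update x q 0) i
        (Function.update (0 : ι → A.E) q v i)) = f.f A (Function.update x q v) := by
      rw [Finset.sum_eq_single q]
      · rw [Function.update_self, Function.update_idem]
      · intro i _ hi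
        apply (f.f A).map_coord_zero i
        rw [Function.update_self, Function.update_of_ne hi]
        rfl
      · intro hq
        exact absurd (Finset.mem_univ q) hq
    rw [← h2]
    exact h1

end NF

end Pool.Agent.Malc
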