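import Pool.Agent.Malc.NFPhi

/-! # Primitive families: the relation R1 and the skew symmetrisation on three legs -/

set_option autoImplicit false

open scoped TensorProduct

namespace Pool.Agent.Malc

universe u

open CPA

variable {F : Type u} [Field F] [CharZero F]

variable {ι : Type} [DecidableEq ι]

namespace NF

variable (f : NF F ι)

/-- primitive families -/
def Prim : Prop := ∀ (A : CPA F) (x : ι → A.E) (p q : ι), p ≠ q → ∀ (r : A.S) (e : A.E),
  f.Phi p q A x (A.mkW (r, e, 0)) = 0

variable {f}

/-- for primitive families the contraction is determined by the tensor part -/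
theorem Prim.lift [Fintype ι] (hf : f.Prim) (A : CPA F) (x : ι → A.E) {p q : ι} (hpq : p ≠ q)
    (r : A.S) (e b c b' c' : A.E) :
    f.Phi p q A x (A.mkW (r, e, b ⊗ₜ c + b' ⊗ₜ c')) =
      f.f A (Function.update (Function.update x p b) q c) +
      f.f A (Function.update (Function.update x p b') q c') := by
  have h : A.mkW (r, e, b ⊗ₜ c + b' ⊗ₜ c')
      = A.mkW (r, e, 0) + (A.mkW (A.ten b c) + A.mkW (A.ten b' c')) := by
    rw [← map_add, ← map_add]
    congr 1
    unfold ten
    simp
  rw [h, f.Phi_add p q hpq, f.Phi_add p q hpq, hf A x p q hpq r e, f.Phi_ten p q hpq,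
    f.Phi_ten p q hpq, zero_add]

/-- the relation R1 -/
theorem Prim.R1 [Fintype ι] (hf : f.Prim) (A : CPA F) (x : ι → A.E) {p q : ι} (hpq : p ≠ q)
    (a b e : A.E) :
    f.f A (Function.update (Function.update x p (A.mul a b)) q e) -
    f.f A (Function.update (Function.update x p e) q (A.mul a b)) +
    f.f A (Function.update (Function.update x p (A.mul b e)) q a) -
    f.f A (Function.update (Function.update x p a) q (A.mul b e)) +
    f.f A (Function.update (Function.update x p (A.mul e a)) q b) -
    f.f A (Function.update (Function.update x p b) q (A.mul e a)) = 0 := by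
  obtain ⟨φ, hφ⟩ : ∃ φ : A.W →+ A.S, ∀ w, φ w = f.Phi p q A x w :=
    ⟨AddMonoidHom.mk' (fun w => f.Phi p q A x w) (fun w w' => f.Phi_add p q hpq A x w w'),
      fun _ => rfl⟩
  have h0 : A.mkW (A.rho a b e) = 0 := A.mkW_eq_zero.2 (A.rho_mem a b e)
  have h1 : A.rho a b e = (0, A.mul (A.mul a b) e - A.s a e • b + A.s b e • a, 0) +
      A.ten (A.mul a b) e - A.ten e (A.mul a b) + A.ten (A.mul b e) a - A.ten a (A.mul b e) +
      A.ten (A.mul e a) b - A.ten b (A.mul e a) := by
    unfold rho ten
    simp
  have h2 : φ (A.mkW (A.rho a b e)) = 0 := by rw [h0, map_zero]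
  have h3 : φ (A.mkW (0, A.mul (A.mul a b) e - A.s a e • b + A.s b e • a, 0)) = 0 := by
    rw [hφ]; exact hf A x p q hpq _ _
  have h4 : ∀ b c : A.E, φ (A.mkW (A.ten b c))
      = f.f A (Function.update (Function.update x p b) q c) := by
    intro b c
    rw [hφ, f.Phi_ten p q hpq]
  rw [h1] at h2
  simp only [map_add, map_sub, h3, h4, zero_add] at h2
  exact h2

end NF

end Pool.Agent.Malc
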