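import Pool.Agent.Malc.Certs
import Pool.Agent.Malc.PSkew

/-! # Skewness from adjacent transpositions -/

set_option autoImplicit false

namespace Pool.Agent.Malc

universe u

open Finset Equiv

theorem skew_perm {n : ℕ} {A : Type u} [AddCommGroup A] (G : (Fin (n + 1) → A) → A)
    (h : ∀ (i : Fin n) (y : Fin (n + 1) → A), G (y ∘ swap i.castSucc i.succ) = - G y)
    (σ : Perm (Fin (n + 1))) : ∀ y, G (y ∘ σ) = (Perm.sign σ : ℤ) • G y := by
  have hσ : σ ∈ Submonoid.closure (Set.range fun i : Fin n => swap i.castSucc i.succ) := by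
    rw [Equiv.Perm.mclosure_swap_castSucc_succ]
    exact Submonoid.mem_top σ
  induction hσ using Submonoid.closure_induction with
  | mem x hx =>
    obtain ⟨i, rfl⟩ := hx
    intro y
    rw [h i y, Perm.sign_swap (Fin.castSucc_lt_succ).ne]
    simp
  | one =>
    intro y
    simp
  | mul a b _ _ iha ihb =>
    intro y
    have h1 : y ∘ ⇑(a * b) = (y ∘ ⇑a) ∘ ⇑b := rfl
    rw [h1, ihb, iha, smul_smul, Perm.sign_mul, Units.val_mul, mul_comm]

theorem skew_of_adj {n : ℕ} {A : Type u} [AddCommGroup A] (G : (Fin (n + 1) → A) → A)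
    (h : ∀ (i : Fin n) (y : Fin (n + 1) → A), G (y ∘ swap i.castSucc i.succ) = - G y)
    (i j : Fin (n + 1)) (hij : i ≠ j) (y : Fin (n + 1) → A) : G (y ∘ swap i j) = - G y := by
  rw [skew_perm G h, Perm.sign_swap hij]
  simp

end Pool.Agent.Malc
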