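import Pool.Agent.Malc.Graph

/-! # The extension of an algebra by its dual -/

set_option autoImplicit false

namespace Pool.Agent.Malc

universe u v

variable (F : Type u) [Field F] (B : Type u) [NonUnitalNonAssocRing B] [Module F B]
  [IsScalarTower F B B] [SMulCommClass F B B]

/-- `B ⊕ B*` -/
@[ext] structure TS : Type u where
  b : B
  l : B →ₗ[F] F

namespace TS

variable {F B}

noncomputable instance : Zero (TS F B) := ⟨⟨0, 0⟩⟩
noncomputable instance : Add (TS F B) := ⟨fun x y => ⟨x.b + y.b, x.l + y.l⟩⟩
noncomputable instance : Neg (TS F B) := ⟨fun x => ⟨-x.b, -x.l⟩⟩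
noncomputable instance : SMul F (TS F B) := ⟨fun r x => ⟨r • x.b, r • x.l⟩⟩
noncomputable instance : Mul (TS F B) := ⟨fun x y => ⟨x.b * y.b,
  - (x.l ∘ₗ LinearMap.mulRight F y.b) + y.l ∘ₗ LinearMap.mulRight F x.b⟩⟩

@[simp] theorem zero_b : (0 : TS F B).b = 0 := rfl
@[simp] theorem zero_l : (0 : TS F B).l = 0 := rfl
@[simp] theorem add_b (x y : TS F B) : (x + y).b = x.b + y.b := rfl
@[simp] theorem add_l (x y : TS F B) : (x + y).l = x.l + y.l := rfl
@[simp] theorem neg_b (x : TS F B) : (-x).b = -x.b := rfl
@[simp] theorem neg_l (x : TS F B) : (-x).l = -x.l := rfl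
@[simp] theorem smul_b (r : F) (x : TS F B) : (r • x).b = r • x.b := rfl
@[simp] theorem smul_l (r : F) (x : TS F B) : (r • x).l = r • x.l := rfl
@[simp] theorem mul_b (x y : TS F B) : (x * y).b = x.b * y.b := rfl
@[simp] theorem mul_l_apply (x y : TS F B) (v : B) :
    (x * y).l v = - x.l (v * y.b) + y.l (v * x.b) := rfl

noncomputable instance : NonUnitalNonAssocRing (TS F B) where
  add_assoc := fun x y z => by ext <;> simp [add_assoc]
  zero_add := fun x => by ext <;> simp
  add_zero := fun x => by ext <;> simp
  add_comm := fun x y => by ext <;> simp [add_comm]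
  neg_add_cancel := fun x => by ext <;> simp
  nsmul := nsmulRec
  zsmul := zsmulRec
  left_distrib := fun x y z => by
    ext v
    · simp [mul_add]
    · simp only [mul_l_apply, add_l, add_b, LinearMap.add_apply, mul_add, map_add]
      ring
  right_distrib := fun x y z => by
    ext v
    · simp [add_mul]
    · simp only [mul_l_apply, add_l, add_b, LinearMap.add_apply, mul_add, map_add]
      ring
  zero_mul := fun x => by ext v <;> simp
  mul_zero := fun x => by ext v <;> simp

noncomputable instance : Module F (TS F B) where
  one_smul := fun x => by ext v <;> simp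
  mul_smul := fun r t x => by ext v <;> simp [mul_smul, mul_assoc]
  smul_zero := fun r => by ext v <;> simp
  smul_add := fun r x y => by ext v <;> simp [mul_add]
  add_smul := fun r t x => by ext v <;> simp [add_smul, add_mul]
  zero_smul := fun x => by ext v <;> simp

instance : IsScalarTower F (TS F B) (TS F B) where
  smul_assoc := fun r x y => by
    ext v
    · simp [smul_mul_assoc]
    · simp only [smul_eq_mul, mul_l_apply, smul_l, smul_b, LinearMap.smul_apply, mul_smul_comm,
        map_smul]
      ring

instance : SMulCommClass F (TS F B) (TS F B) where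
  smul_comm := fun r x y => by
    ext v
    · simp [mul_smul_comm]
    · simp only [smul_eq_mul, mul_l_apply, smul_l, smul_b, LinearMap.smul_apply, mul_smul_comm,
        map_smul]
      ring

variable (F) in
/-- the inclusion of `B` -/
noncomputable def inb (b : B) : TS F B := ⟨b, 0⟩

/-- the inclusion of the dual -/
noncomputable def inl (l : B →ₗ[F] F) : TS F B := ⟨0, l⟩

end TS

end Pool.Agent.Malc
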