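import Pool.Agent.Malc.TSDef

/-! # `B ⊕ B*` belongs to the variety -/

set_option autoImplicit false
set_option linter.unusedSectionVars false

namespace Pool.Agent.Malc

universe u v

variable {F : Type u} [Field F] [CharZero F] {B : Type u} [NonUnitalNonAssocRing B] [Module F B]
  [IsScalarTower F B B] [SMulCommClass F B B]

namespace TSMalAux

/-- the first component as an additive map -/
private noncomputable def evb : TS F B →+ B where
  toFun := fun x => x.b
  map_zero' := rfl
  map_add' := fun _ _ => rfl

/-- the second component at `v` as an additive map -/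
private noncomputable def evl (v : B) : TS F B →+ F where
  toFun := fun x => x.l v
  map_zero' := rfl
  map_add' := fun _ _ => rfl

private theorem sub_b (x y : TS F B) : (x - y).b = x.b - y.b := map_sub evb x y

private theorem nsmul_b (n : ℕ) (x : TS F B) : (n • x).b = n • x.b := map_nsmul evb n x

private theorem add_lv (x y : TS F B) (v : B) : (x + y).l v = x.l v + y.l v := rfl

private theorem sub_lv (x y : TS F B) (v : B) : (x - y).l v = x.l v - y.l v :=
  map_sub (evl v) x y

private theorem nsmul_lv (n : ℕ) (x : TS F B) (v : B) : (n • x).l v = n • x.l v :=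
  map_nsmul (evl v) n x

private theorem inb_b (a : B) : (TS.inb F a).b = a := rfl

private theorem inb_l (a v : B) : (TS.inb F a).l v = 0 := rfl

private theorem inl_b (l : B →ₗ[F] F) : (TS.inl l : TS F B).b = 0 := rfl

private theorem inl_l (l : B →ₗ[F] F) (v : B) : (TS.inl l : TS F B).l v = l v := rfl

private theorem Jac_b' (x y z : TS F B) : (Jac x y z).b = Jac x.b y.b z.b := rfl

/-- the Jacobian -/
private theorem Jac_lv (h : IsMalcev B) (x y z : TS F B) (v : B) :
    (Jac x y z).l v = - x.l (Jac v y.b z.b) - y.l (Jac v z.b x.b) - z.l (Jac v x.b y.b) := by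
  unfold Jac
  simp only [add_lv, TS.mul_l_apply, TS.mul_b, map_add]
  rw [h.anti (y.b * z.b) v, h.anti (z.b * v) y.b, h.anti z.b v, mul_neg, neg_neg,
    h.anti y.b (v * z.b), map_neg, map_neg]
  rw [h.anti (z.b * x.b) v, h.anti (x.b * v) z.b, h.anti x.b v, mul_neg, neg_neg,
    h.anti z.b (v * x.b), map_neg, map_neg]
  rw [h.anti (x.b * y.b) v, h.anti (y.b * v) x.b, h.anti y.b v, mul_neg, neg_neg,
    h.anti x.b (v * y.b), map_neg, map_neg]
  ring

end TSMalAux

open TSMalAux

namespace TS

theorem inb_mul (a b : B) : inb F (a * b) = inb F a * inb F b := by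
  ext v
  · rfl
  · rw [mul_l_apply]
    change (0 : F) = -(0 : F) + 0
    rw [neg_zero, add_zero]

/-- the Jacobian with one argument in the dual -/
theorem Jac_l (h : IsMalcev B) (l : B →ₗ[F] F) (a b : B) :
    (Jac (inl l) (inb F a) (inb F b)).b = 0 ∧
    ∀ v, (Jac (inl l) (inb F a) (inb F b)).l v = - l (Jac v a b) := by
  constructor
  · rw [Jac_b']
    change Jac 0 a b = 0
    unfold Jac
    rw [zero_mul, zero_mul, mul_zero, mul_zero, zero_mul, add_zero, add_zero]
  · intro v
    rw [Jac_lv h, inl_l, inb_l, inb_l, sub_zero, sub_zero, inb_b, inb_b]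

/-- the first components -/
theorem Jac_b (x y z : TS F B) : (Jac x y z).b = Jac x.b y.b z.b := rfl

theorem P108_b (a b c d x : TS F B) : (P108 a b c d x).b = P108 a.b b.b c.b d.b x.b := by
  unfold P108
  simp only [sub_b, add_b, nsmul_b, mul_b, Jac_b]

theorem isMalcev (h : IsMalcev B) : IsMalcev (TS F B) where
  sq := by
    intro x
    ext v
    · exact h.sq x.b
    · rw [mul_l_apply]
      change _ = (0 : F)
      ring
  mal := by
    intro x y z
    ext v
    · rw [Jac_b, mul_b, mul_b, Jac_b]
      exact h.mal x.b y.b z.b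
    · rw [Jac_lv h, mul_l_apply, mul_l_apply, Jac_lv h, mul_b, Jac_b]
      have h1 := congrArg z.l (mdual1 F h v x.b y.b)
      have h2 := congrArg y.l (mdual2 F h v x.b z.b)
      have h3 := congrArg x.l (mdual3 F h v x.b y.b z.b)
      simp only [map_add, map_sub, map_zero] at h1 h2 h3
      linear_combination h3 - h2 - h1

/-- `P108` with an argument of the dual in the first place -/
theorem P108_l_a (h : IsMalcev B) (l : B →ₗ[F] F) (b c d x : B) (v : B) :
    (P108 (inl l) (inb F b) (inb F c) (inb F d) (inb F x)).l v = l (T108 x v b c d) := by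
  unfold P108 T108
  simp only [add_lv, sub_lv, nsmul_lv, mul_l_apply, Jac_lv h, Jac_b, mul_b, inb_b, inb_l, inl_b,
    inl_l, map_add, map_sub, map_nsmul, sub_zero, zero_sub, neg_zero, neg_neg, mul_zero, zero_mul,
    add_zero, zero_add]
  simp only [nsmul_eq_mul]
  push_cast
  ring

/-- `P108` with an argument of the dual in the last place -/
theorem P108_l_x (h : IsMalcev B) (l : B →ₗ[F] F) (a b c d : B) (v : B) :
    (P108 (inb F a) (inb F b) (inb F c) (inb F d) (inl l)).l v = l (P108 a b c d v) := by
  unfold P108
  simp only [add_lv, sub_lv, nsmul_lv, mul_l_apply, Jac_lv h, Jac_b, mul_b, inb_b, inb_l, inl_b,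
    inl_l, map_add, map_sub, map_nsmul, sub_zero, neg_zero, neg_neg, mul_zero, zero_mul,
    add_zero]
  simp only [nsmul_eq_mul]
  push_cast
  ring

end TS

end Pool.Agent.Malc
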