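import Pool.Agent.Malc.C7

/-! # Two variables -/

set_option autoImplicit false

open scoped TensorProduct

namespace Pool.Agent.Malc

universe u

open CPA

namespace TwoVarAux

section alg

variable (F : Type u) [Field F]

/-- the scalars of the universal algebra -/
abbrev R : Type u := MvPolynomial (Fin 3) F

/-- the elements of the universal algebra with two generators -/
abbrev E : Type u := R F × R F × R F

/-- the product -/
noncomputable def mulE : E F →ₗ[R F] E F →ₗ[R F] E F :=
  LinearMap.mk₂ (R F) (fun x y =>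
      ((MvPolynomial.X 1 * (x.1 * y.2.2 - x.2.2 * y.1) +
          MvPolynomial.X 2 * (x.2.1 * y.2.2 - x.2.2 * y.2.1),
        -(MvPolynomial.X 0 * (x.1 * y.2.2 - x.2.2 * y.1)) -
          MvPolynomial.X 1 * (x.2.1 * y.2.2 - x.2.2 * y.2.1),
        x.1 * y.2.1 - x.2.1 * y.1) : E F))
    (fun x x' y => by
      refine Prod.ext ?_ (Prod.ext ?_ ?_) <;>
        simp only [Prod.fst_add, Prod.snd_add] <;> ring)
    (fun r x y => by
      refine Prod.ext ?_ (Prod.ext ?_ ?_) <;>
        simp only [Prod.smul_fst, Prod.smul_snd, smul_eq_mul] <;> ring)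
    (fun x y y' => by
      refine Prod.ext ?_ (Prod.ext ?_ ?_) <;>
        simp only [Prod.fst_add, Prod.snd_add] <;> ring)
    (fun r x y => by
      refine Prod.ext ?_ (Prod.ext ?_ ?_) <;>
        simp only [Prod.smul_fst, Prod.smul_snd, smul_eq_mul] <;> ring)

/-- the form -/
noncomputable def sE : E F →ₗ[R F] E F →ₗ[R F] R F :=
  LinearMap.mk₂ (R F) (fun x y =>
      (MvPolynomial.X 0 * (x.1 * y.1) + MvPolynomial.X 1 * (x.1 * y.2.1 + x.2.1 * y.1) +
        MvPolynomial.X 2 * (x.2.1 * y.2.1) +
        (MvPolynomial.X 0 * MvPolynomial.X 2 - MvPolynomial.X 1 ^ 2) * (x.2.2 * y.2.2) : R F))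
    (fun x x' y => by simp only [Prod.fst_add, Prod.snd_add]; ring)
    (fun r x y => by simp only [Prod.smul_fst, Prod.smul_snd, smul_eq_mul]; ring)
    (fun x y y' => by simp only [Prod.fst_add, Prod.snd_add]; ring)
    (fun r x y => by simp only [Prod.smul_fst, Prod.smul_snd, smul_eq_mul]; ring)

theorem mulE_apply (x y : E F) : mulE F x y =
    ((MvPolynomial.X 1 * (x.1 * y.2.2 - x.2.2 * y.1) +
          MvPolynomial.X 2 * (x.2.1 * y.2.2 - x.2.2 * y.2.1),
        -(MvPolynomial.X 0 * (x.1 * y.2.2 - x.2.2 * y.1)) -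
          MvPolynomial.X 1 * (x.2.1 * y.2.2 - x.2.2 * y.2.1),
        x.1 * y.2.1 - x.2.1 * y.1) : E F) := rfl

theorem sE_apply (x y : E F) : sE F x y =
    (MvPolynomial.X 0 * (x.1 * y.1) + MvPolynomial.X 1 * (x.1 * y.2.1 + x.2.1 * y.1) +
        MvPolynomial.X 2 * (x.2.1 * y.2.1) +
        (MvPolynomial.X 0 * MvPolynomial.X 2 - MvPolynomial.X 1 ^ 2) * (x.2.2 * y.2.2) : R F) :=
  rfl

/-- the universal algebra with two generators -/
noncomputable def U : CPA F where
  S := R F
  E := E F
  mul := mulE F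
  s := sE F
  skew := fun x => by
    rw [mulE_apply]
    refine Prod.ext ?_ (Prod.ext ?_ ?_) <;> simp only [Prod.fst_zero, Prod.snd_zero] <;> ring
  symm := fun x y => by
    rw [sE_apply, sE_apply]
    ring
  assoc := fun x y z => by
    simp only [sE_apply, mulE_apply]
    ring
  main := fun x y z => by
    simp only [sE_apply, mulE_apply]
    refine Prod.ext ?_ (Prod.ext ?_ ?_) <;>
      simp only [Prod.fst_add, Prod.snd_add, Prod.fst_sub, Prod.snd_sub, Prod.smul_fst,
        Prod.smul_snd, smul_eq_mul] <;> ring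

end alg

variable {F : Type u} [Field F]

theorem x_xy (A : CPA F) (x y : A.E) :
    A.mul x (A.mul x y) = A.s x y • x - A.s x x • y := by
  have h := A.main x x y
  rw [A.skew, map_zero, LinearMap.zero_apply, add_zero] at h
  rw [h, two_mul, add_smul]
  abel

theorem y_xy (A : CPA F) (x y : A.E) :
    A.mul y (A.mul x y) = A.s y y • x - A.s x y • y := by
  rw [A.anti x y, map_neg, x_xy, A.symm y x]
  abel

theorem s_x_xy (A : CPA F) (x y : A.E) : A.s x (A.mul x y) = 0 := by
  rw [← A.assoc, A.skew, map_zero, LinearMap.zero_apply]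

theorem s_y_xy (A : CPA F) (x y : A.E) : A.s y (A.mul x y) = 0 := by
  rw [A.symm, A.assoc, A.skew, map_zero]

theorem s_xy_xy (A : CPA F) (x y : A.E) :
    A.s (A.mul x y) (A.mul x y) = A.s x x * A.s y y - A.s x y ^ 2 := by
  rw [A.assoc, y_xy, map_sub, map_smul, map_smul, smul_eq_mul, smul_eq_mul]
  ring

/-- the scalar part of the universal homomorphism -/
noncomputable def ph (A : CPA F) (x y : A.E) : R F →ₐ[F] A.S :=
  MvPolynomial.aeval ![A.s x x, A.s x y, A.s y y]

theorem ph0 (A : CPA F) (x y : A.E) : ph A x y (MvPolynomial.X 0) = A.s x x := by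
  unfold ph
  rw [MvPolynomial.aeval_X]
  rfl

theorem ph1 (A : CPA F) (x y : A.E) : ph A x y (MvPolynomial.X 1) = A.s x y := by
  unfold ph
  rw [MvPolynomial.aeval_X]
  rfl

theorem ph2 (A : CPA F) (x y : A.E) : ph A x y (MvPolynomial.X 2) = A.s y y := by
  unfold ph
  rw [MvPolynomial.aeval_X]
  rfl

/-- the linear part of the universal homomorphism -/
noncomputable def ps (A : CPA F) (x y : A.E) :
    E F →ₛₗ[((ph A x y : R F →ₐ[F] A.S) : R F →+* A.S)] A.E where
  toFun := fun u : E F => ph A x y u.1 • x + ph A x y u.2.1 • y + ph A x y u.2.2 • A.mul x y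
  map_add' := fun u v => by
    simp only [Prod.fst_add, Prod.snd_add, map_add, add_smul]
    abel
  map_smul' := fun r u => by
    simp only [Prod.smul_fst, Prod.smul_snd, smul_eq_mul, map_mul, smul_add, mul_smul]
    rfl

/-- the universal homomorphism -/
noncomputable def hom (A : CPA F) (x y : A.E) : Hom (U F) A where
  φ := ph A x y
  ψ := ps A x y
  map_mul := fun u v => by
    change ph A x y (mulE F u v).1 • x + ph A x y (mulE F u v).2.1 • y +
        ph A x y (mulE F u v).2.2 • A.mul x y =
      A.mul (ph A x y u.1 • x + ph A x y u.2.1 • y + ph A x y u.2.2 • A.mul x y)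
        (ph A x y v.1 • x + ph A x y v.2.1 • y + ph A x y v.2.2 • A.mul x y)
    rw [mulE_apply]
    simp only [map_add, map_sub, map_neg, map_mul, ph0, ph1, ph2]
    simp only [map_add, map_smul, LinearMap.add_apply, LinearMap.smul_apply, A.skew, x_xy, y_xy,
      A.anti (A.mul x y) x, A.anti (A.mul x y) y, A.anti y x]
    module
  map_s := fun u v => by
    change ph A x y (sE F u v) =
      A.s (ph A x y u.1 • x + ph A x y u.2.1 • y + ph A x y u.2.2 • A.mul x y)
        (ph A x y v.1 • x + ph A x y v.2.1 • y + ph A x y v.2.2 • A.mul x y)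
    rw [sE_apply]
    simp only [map_add, map_sub, map_mul, map_pow, ph0, ph1, ph2]
    simp only [map_smul, LinearMap.add_apply, LinearMap.smul_apply, s_x_xy, s_y_xy, s_xy_xy,
      A.symm (A.mul x y) x, A.symm (A.mul x y) y, A.symm y x, smul_eq_mul]
    ring

end TwoVarAux

open TwoVarAux

variable {F : Type u} [Field F] [CharZero F]

variable {ι : Type} [DecidableEq ι]

namespace NF

variable (f : NF F ι)

variable {f}

/-- a family which vanishes on `C7` vanishes if there are only two different arguments -/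
theorem two_var [Fintype ι] (h : ∀ x, f.f (C7 F) x = 0) (A : CPA F) (s : Finset ι) (x y : A.E) :
    f.f A (fun i => if i ∈ s then x else y) = 0 := by
  obtain ⟨P, hP⟩ : ∃ P : R F, P = f.f (U F) (fun i => if i ∈ s then ((1, 0, 0) : E F)
    else ((0, 1, 0) : E F)) := ⟨_, rfl⟩
  have key : ∀ (B : CPA F) (x y : B.E), ph B x y P = f.f B (fun i => if i ∈ s then x else y) := by
    intro B x y
    have h1 := f.nat (hom B x y) (fun i => if i ∈ s then ((1, 0, 0) : E F)
      else ((0, 1, 0) : E F))
    rw [← hP] at h1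
    have h2 : (fun i => (hom B x y).ψ (if i ∈ s then ((1, 0, 0) : E F) else ((0, 1, 0) : E F))) =
        fun i => if i ∈ s then x else y := by
      funext i
      by_cases hi : i ∈ s
      · rw [if_pos hi, if_pos hi]
        change ph B x y 1 • x + ph B x y 0 • y + ph B x y 0 • B.mul x y = x
        rw [map_one, map_zero, one_smul, zero_smul, zero_smul, add_zero, add_zero]
      · rw [if_neg hi, if_neg hi]
        change ph B x y 0 • x + ph B x y 1 • y + ph B x y 0 • B.mul x y = y
        rw [map_one, map_zero, one_smul, zero_smul, zero_smul, add_zero, zero_add]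
    rw [h2] at h1
    exact h1
  have hP0 : P = 0 := by
    apply MvPolynomial.funext
    intro v
    obtain ⟨x', y', e0, e1, e2⟩ := C7_gram F (v 0) (v 1) (v 2)
    have h1 := key (C7 F) x' y'
    rw [h] at h1
    unfold ph at h1
    rw [e0, e1, e2] at h1
    have hv : (![v 0, v 1, v 2] : Fin 3 → F) = v := by
      funext i
      fin_cases i <;> rfl
    have h2 : MvPolynomial.aeval (R := F) (S₁ := F) (![v 0, v 1, v 2] : Fin 3 → F) P = 0 := h1
    rw [hv, MvPolynomial.aeval_eq_eval] at h2
    rw [map_zero]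
    exact h2
  rw [← key A x y, hP0, map_zero]

end NF

end Pool.Agent.Malc
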