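import Pool.Agent.Malc.C7Phi
import Pool.Agent.Malc.TwoVar
import Pool.Agent.Malc.Comb

/-! # Theorem X: the cross product algebras satisfy all identities of C7 -/

set_option autoImplicit false

open scoped TensorProduct

namespace Pool.Agent.Malc

universe u

open CPA

variable {F : Type u} [Field F] [CharZero F]

namespace ThmXAux

section ext0

variable {ι : Type} [DecidableEq ι] {E : Type u} [Zero E]

/-- extension by zero -/
def ext0 (P : ι → Prop) [DecidablePred P] (x : {i // P i} → E) : ι → E :=
  fun i => if h : P i then x ⟨i, h⟩ else 0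

omit [DecidableEq ι] in
theorem ext0_pos (P : ι → Prop) [DecidablePred P] (x : {i // P i} → E) {i : ι} (h : P i) :
    ext0 P x i = x ⟨i, h⟩ := dif_pos h

omit [DecidableEq ι] in
theorem ext0_neg (P : ι → Prop) [DecidablePred P] (x : {i // P i} → E) {i : ι} (h : ¬ P i) :
    ext0 P x i = 0 := dif_neg h

theorem ext0_update (P : ι → Prop) [DecidablePred P] (x : {i // P i} → E) (j : {i // P i})
    (a : E) : ext0 P (Function.update x j a) = Function.update (ext0 P x) j.1 a := by
  funext i
  by_cases hij : i = j.1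
  · subst hij
    rw [Function.update_self, ext0_pos P _ j.2, Function.update_self]
  · rw [Function.update_of_ne hij]
    by_cases hi : P i
    · rw [ext0_pos P _ hi, ext0_pos P _ hi, Function.update_of_ne]
      intro h
      exact hij (congrArg Subtype.val h)
    · rw [ext0_neg P _ hi, ext0_neg P _ hi]

end ext0

section fam

variable {ι : Type} [DecidableEq ι]

omit [CharZero F] [DecidableEq ι] in
theorem ext0_nat {A B : CPA F} (h : Hom A B) (P : ι → Prop) [DecidablePred P]
    (x : {i // P i} → A.E) :
    (fun i => h.ψ (ext0 P x i)) = ext0 P (fun i => h.ψ (x i)) := by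
  funext i
  by_cases hi : P i
  · rw [ext0_pos P _ hi, ext0_pos P _ hi]
  · rw [ext0_neg P _ hi, ext0_neg P _ hi, map_zero]

theorem mkW_nat {A B : CPA F} (h : Hom A B) (r : A.S) (e : A.E) :
    mapW h (A.mkW (r, e, 0)) = B.mkW (h.φ r, h.ψ e, 0) := by
  rw [mapW_mk]
  have h1 : mapT h (r, e, 0) = (h.φ r, h.ψ e, 0) :=
    Prod.ext rfl (Prod.ext rfl (map_zero (TensorProduct.map h.ψ h.ψ)))
  rw [h1]

omit [CharZero F] in
theorem mkW_add (A : CPA F) (a b : A.E) :
    A.mkW (0, a + b, 0) = A.mkW (0, a, 0) + A.mkW (0, b, 0) := by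
  rw [← map_add]
  congr 1
  simp

omit [CharZero F] in
theorem mkW_smul (A : CPA F) (r : A.S) (a : A.E) :
    A.mkW (0, r • a, 0) = r • A.mkW (0, a, 0) := by
  rw [← map_smul]
  congr 1
  simp

/-- the first contracted family -/
noncomputable def fam1 (f : NF F ι) (p q : ι) : NF F {i // i ≠ p ∧ i ≠ q} where
  f := fun A => MultilinearMap.mk'
    (fun x => f.Phi p q A (ext0 (fun i => i ≠ p ∧ i ≠ q) x) (A.mkW (1, 0, 0)))
    (fun x j a b => by
      rw [ext0_update, ext0_update, ext0_update]
      exact f.Phi_upd_add p q j.1 j.2.1 j.2.2 A _ a b _)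
    (fun x j r a => by
      rw [ext0_update, ext0_update]
      exact f.Phi_upd_smul p q j.1 j.2.1 j.2.2 A _ r a _)
  nat := fun {A B} h x => by
    show h.φ (f.Phi p q A (ext0 (fun i => i ≠ p ∧ i ≠ q) x) (A.mkW (1, 0, 0))) =
      f.Phi p q B (ext0 (fun i => i ≠ p ∧ i ≠ q) (fun i => h.ψ (x i))) (B.mkW (1, 0, 0))
    rw [f.Phi_nat, ext0_nat, mkW_nat, map_one, map_zero]

/-- the second contracted family -/
noncomputable def fam2 (f : NF F ι) (p q : ι) (hpq : p ≠ q) : NF F {i // i ≠ q} where
  f := fun A => MultilinearMap.mk'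
    (fun x => f.Phi p q A (ext0 (fun i => i ≠ q) x) (A.mkW (0, x ⟨p, hpq⟩, 0)))
    (fun x j a b => by
      by_cases hj : j.1 = p
      · have hj' : j = ⟨p, hpq⟩ := Subtype.ext hj
        subst hj'
        rw [Function.update_self, Function.update_self, Function.update_self, mkW_add,
          f.Phi_add p q hpq]
        congr 1
        · apply f.Phi_congr
          intro i hip _
          rw [ext0_update, ext0_update, Function.update_of_ne hip, Function.update_of_ne hip]
        · apply f.Phi_congr
          intro i hip _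
          rw [ext0_update, ext0_update, Function.update_of_ne hip, Function.update_of_ne hip]
      · have hj' : (⟨p, hpq⟩ : {i // i ≠ q}) ≠ j := fun h => hj (congrArg Subtype.val h).symm
        rw [Function.update_of_ne hj', Function.update_of_ne hj', Function.update_of_ne hj',
          ext0_update, ext0_update, ext0_update]
        exact f.Phi_upd_add p q j.1 hj j.2 A _ a b _)
    (fun x j r a => by
      by_cases hj : j.1 = p
      · have hj' : j = ⟨p, hpq⟩ := Subtype.ext hj
        subst hj'
        rw [Function.update_self, Function.update_self, mkW_smul,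
          f.Phi_smul p q hpq, smul_eq_mul]
        congr 1
        apply f.Phi_congr
        intro i hip _
        rw [ext0_update, ext0_update, Function.update_of_ne hip, Function.update_of_ne hip]
      · have hj' : (⟨p, hpq⟩ : {i // i ≠ q}) ≠ j := fun h => hj (congrArg Subtype.val h).symm
        rw [Function.update_of_ne hj', Function.update_of_ne hj',
          ext0_update, ext0_update]
        exact f.Phi_upd_smul p q j.1 hj j.2 A _ r a _)
  nat := fun {A B} h x => by
    show h.φ (f.Phi p q A (ext0 (fun i => i ≠ q) x) (A.mkW (0, x ⟨p, hpq⟩, 0))) =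
      f.Phi p q B (ext0 (fun i => i ≠ q) (fun i => h.ψ (x i))) (B.mkW (0, h.ψ (x ⟨p, hpq⟩), 0))
    rw [f.Phi_nat, ext0_nat, mkW_nat, map_zero]

theorem prim_of (f : NF F ι)
    (h1 : ∀ p q, p ≠ q → ∀ (A : CPA F) x, (fam1 f p q).f A x = 0)
    (h2 : ∀ p q, ∀ hpq : p ≠ q, ∀ (A : CPA F) x, (fam2 f p q hpq).f A x = 0) : f.Prim := by
  intro A x p q hpq r e
  have e1 : A.mkW (r, e, 0) = r • A.mkW (1, 0, 0) + A.mkW (0, e, 0) := by
    rw [← map_smul, ← map_add]
    congr 1
    simp
  have e2 : f.Phi p q A x (A.mkW (1, 0, 0)) = 0 := by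
    have h : f.Phi p q A (ext0 (fun i => i ≠ p ∧ i ≠ q) (fun i => x i.1)) (A.mkW (1, 0, 0)) = 0 :=
      h1 p q hpq A (fun i => x i.1)
    refine Eq.trans (f.Phi_congr p q A _ _ ?_ _) h
    intro i hip hiq
    rw [ext0_pos (fun i => i ≠ p ∧ i ≠ q) _ ⟨hip, hiq⟩]
  have e3 : f.Phi p q A x (A.mkW (0, e, 0)) = 0 := by
    have h := h2 p q hpq A (fun i => Function.update x p e i.1)
    have e4 : (fam2 f p q hpq).f A (fun i => Function.update x p e i.1) =
        f.Phi p q A (ext0 (fun i => i ≠ q) (fun i => Function.update x p e i.1))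
          (A.mkW (0, Function.update x p e p, 0)) := rfl
    rw [e4, Function.update_self] at h
    refine Eq.trans (f.Phi_congr p q A _ _ ?_ _) h
    intro i hip hiq
    rw [ext0_pos (fun i => i ≠ q) _ hiq, Function.update_of_ne hip]
  rw [e1, f.Phi_add p q hpq, f.Phi_smul p q hpq, e2, e3, mul_zero, add_zero]

end fam

theorem main (n : ℕ) : ∀ {ι : Type} [DecidableEq ι] [Fintype ι], Fintype.card ι = n →
    ∀ (f : NF F ι), (∀ x, f.f (C7 F) x = 0) → ∀ (A : CPA F) (x : ι → A.E), f.f A x = 0 := by
  induction n using Nat.strong_induction_on with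
  | _ n ih =>
    intro ι _ _ hn f h
    have hf : f.Prim := by
      apply prim_of
      · intro p q hpq
        refine ih (Fintype.card {i // i ≠ p ∧ i ≠ q}) ?_ rfl _ ?_
        · rw [← hn]
          exact Fintype.card_subtype_lt (x := p) (fun hp => hp.1 rfl)
        · intro x
          exact NF.C7_Phi h p q hpq _ _
      · intro p q hpq
        refine ih (Fintype.card {i // i ≠ q}) ?_ rfl _ ?_
        · rw [← hn]
          exact Fintype.card_subtype_lt (x := q) (fun hp => hp rfl)
        · intro x
          exact NF.C7_Phi h p q hpq _ _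
    exact NF.comb (fun A x p q r hpq hpr hqr a b c => hf.skew A x hpq hpr hqr a b c)
      (fun A s x y => NF.two_var h A s x y)

end ThmXAux

/-- **Theorem X.** -/
theorem thmX {ι : Type} [DecidableEq ι] [Fintype ι] (f : NF F ι) (h : ∀ x, f.f (C7 F) x = 0)
    (A : CPA F) (x : ι → A.E) : f.f A x = 0 :=
  ThmXAux.main _ rfl f h A x

end Pool.Agent.Malc
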