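import Pool.Agent.Malc.Defs

/-! # The operators Psi and sigma, the variety of the algebras with `f6 = 0`

`v D(x,y) = Jac v x y`; `P108 a b c d v` is `108 v Psi(a,b,c,d)`; `sig36 a b c x y` is
`36 sigma(x,y) J(a,b,c)`; `T108 v w b c d` is 108 times the dual of `a ↦ v Psi(a,b,c,d)`, applied to `w`. -/

set_option autoImplicit false

namespace Pool.Agent.Malc

universe u v

section

variable {B : Type v} [NonUnitalNonAssocRing B]

/-- `108 x Psi(a,b,c,d)` -/
def P108 (a b c d x : B) : B :=
  Jac (Jac x a b) c d + Jac (Jac x c d) a b - Jac (Jac x a c) b d - Jac (Jac x b d) a c +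
    Jac (Jac x a d) b c + Jac (Jac x b c) a d -
    6 • ((x * Jac a b c) * d + (x * d) * Jac a b c - ((x * Jac a b d) * c + (x * c) * Jac a b d) +
      ((x * Jac a c d) * b + (x * b) * Jac a c d) - ((x * Jac b c d) * a + (x * a) * Jac b c d))

/-- `36 sigma(x,y) J(a,b,c)` -/
def sig36 (a b c x y : B) : B :=
  - (36 • ((Jac a b c * x) * y)) + 12 • Jac (Jac a b c) x y + P108 a b c y x

/-- the dual of `a ↦ 108 v Psi(a,b,c,d)`, applied to `w` -/
def T108 (v w b c d : B) : B :=
  Jac (Jac w c d) b v - Jac w b (Jac v c d) - Jac (Jac w b d) c v + Jac w c (Jac v b d) +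
    Jac (Jac w b c) d v - Jac w d (Jac v b c) -
    6 • (Jac ((w * d) * v) b c - Jac (w * (v * d)) b c - Jac ((w * c) * v) b d +
      Jac (w * (v * c)) b d + Jac ((w * b) * v) c d - Jac (w * (v * b)) c d -
      w * (v * Jac b c d) + (w * Jac b c d) * v)

variable (B) in
/-- The variety: Malcev algebras in which all operators `Psi(a,b,c,d)` commute with the
multiplications. -/
structure IsV : Prop extends IsMalcev B where
  f6 : ∀ a b c d v z : B, P108 a b c d (v * z) = P108 a b c d v * z

/-- a lifted element: a Jacobian sum `j` and `G y x = 36 x Gamma(j, y)` -/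
structure GP (B : Type v) where
  j : B
  G : B → B → B

namespace GP

/-- the Jacobian -/
def J (a b c : B) : GP B := ⟨Jac a b c, fun y x => P108 a b c y x⟩

/-- the product with an element -/
def m (g : GP B) (z : B) : GP B := ⟨g.j * z, fun y x => g.G (z * y) x⟩

instance : Add (GP B) := ⟨fun g h => ⟨g.j + h.j, fun y x => g.G y x + h.G y x⟩⟩
instance : Neg (GP B) := ⟨fun g => ⟨-g.j, fun y x => -g.G y x⟩⟩
instance : Sub (GP B) := ⟨fun g h => ⟨g.j - h.j, fun y x => g.G y x - h.G y x⟩⟩

/-- integer multiples -/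
def z (n : ℤ) (g : GP B) : GP B := ⟨n • g.j, fun y x => n • g.G y x⟩

/-- `36 sigma(x,y)` applied to a lifted element -/
def sig (g : GP B) (x y : B) : B := - (36 • ((g.j * x) * y)) + 12 • Jac g.j x y + g.G y x

/-- the lift of `P108 a b c d x` -/
def P (a b c d x : B) : GP B :=
  J (Jac x a b) c d + J (Jac x c d) a b - J (Jac x a c) b d - J (Jac x b d) a c +
    J (Jac x a d) b c + J (Jac x b c) a d +
    z 6 (((J a b c).m x).m d + (J a b c).m (x * d) - (((J a b d).m x).m c + (J a b d).m (x * c)) +
      (((J a c d).m x).m b + (J a c d).m (x * b)) - (((J b c d).m x).m a + (J b c d).m (x * a)))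

/-- the lift of `36 sigma(x,y) J(a,b,c)` -/
def S (a b c x y : B) : GP B :=
  z (-36) (((J a b c).m x).m y) + z 12 (J (Jac a b c) x y) + P a b c y x

end GP

end

end Pool.Agent.Malc
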