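import Pool.Agent.Malc.VDefs
import Pool.Agent.Malc.IdlQuot

/-! # Words, homogeneous elements, identities of the variety, the multilinear relatively free algebra -/

set_option autoImplicit false

namespace Pool.Agent.Malc

universe u v

/-- the letters of a word -/
def content : FreeMagma ℕ → Multiset ℕ
  | .of i => {i}
  | .mul a b => content a + content b

/-- the value of a word -/
def evw {B : Type v} [Mul B] (x : ℕ → B) : FreeMagma ℕ → B
  | .of i => x i
  | .mul a b => evw x a * evw x b

variable (F : Type u) [Field F]

/-- the free nonassociative algebra on the letters `0, 1, 2, ..` -/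
abbrev FA : Type u := FreeNonUnitalNonAssocAlgebra F ℕ

variable {F}

/-- a word as an element of the free algebra -/
noncomputable def wd (w : FreeMagma ℕ) : FA F := MonoidAlgebra.single w 1

variable (F)

/-- homogeneous elements -/
noncomputable def Hg (m : Multiset ℕ) : Submodule F (FA F) := Submodule.span F {p | ∃ w, content w = m ∧ p = wd w}

/-- homogeneous component -/
noncomputable def comp (m : Multiset ℕ) : FA F →ₗ[F] FA F where
  toFun := fun p => MonoidAlgebra.ofCoeff (p.coeff.filter fun w => content w = m)
  map_add' := fun p q => by
    rw [MonoidAlgebra.coeff_add, Finsupp.filter_add, MonoidAlgebra.ofCoeff_add]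
  map_smul' := fun r p => by
    rw [MonoidAlgebra.coeff_smul, Finsupp.filter_smul, MonoidAlgebra.ofCoeff_smul]
    rfl

variable {F}

/-- identities of the variety -/
def IsId (p : FA F) : Prop :=
  ∀ (B : Type u) [NonUnitalNonAssocRing B] [Module F B] [IsScalarTower F B B]
    [SMulCommClass F B B], IsV B → ∀ x : ℕ → B, FreeNonUnitalNonAssocAlgebra.lift F x p = 0

/-- the evaluation of an element of the free algebra -/
noncomputable def ev {B : Type v} [NonUnitalNonAssocRing B] [Module F B] [IsScalarTower F B B]
    [SMulCommClass F B B] (x : ℕ → B) : FA F →ₙₐ[F] B := FreeNonUnitalNonAssocAlgebra.lift F x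

variable (F)

/-- the multilinear identities -/
noncomputable def NN : Submodule F (FA F) where
  carrier := {p | ∀ L : Finset ℕ, IsId (comp F L.val p)}
  add_mem' := fun {p q} hp hq L B _ _ _ _ hB x => by
    rw [map_add, map_add, hp L B hB x, hq L B hB x, add_zero]
  zero_mem' := fun L B _ _ _ _ hB x => by rw [map_zero, map_zero]
  smul_mem' := fun r p hp L B _ _ _ _ hB x => by
    rw [map_smul, map_smul, hp L B hB x, smul_zero]

end Pool.Agent.Malc
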